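import Pool.Agent.DD7719.CertGDef

/-! Simple recurrences are never critical. -/

set_option autoImplicit false

namespace Pool.Agent.DD7719.M

open Complex Filter Topology

variable {k : ℕ}

namespace GS



/-- binomial coefficients along arithmetic progressions grow like powers -/
lemma choose_asym (j n0 e : ℕ) (hn0 : 0 < n0) :
    Tendsto (fun M : ℕ => ((j + n0 * M).choose e : ℝ) / (M : ℝ) ^ e) atTop
      (𝓝 ((n0 : ℝ) ^ e / e.factorial)) := by
  have hsub : Tendsto (fun M : ℕ => j + n0 * M) atTop atTop := by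
    apply tendsto_atTop_mono (f := fun M : ℕ => M) _ tendsto_id
    intro M
    show M ≤ j + n0 * M
    nlinarith
  have h1 := (isEquivalent_choose e).comp_tendsto hsub
  have h2 : Asymptotics.IsEquivalent atTop
      (fun M : ℕ => ((j + n0 * M).choose e : ℝ) / (M : ℝ) ^ e)
      (fun M : ℕ => (((j + n0 * M : ℕ) : ℝ) ^ e / e.factorial) / (M : ℝ) ^ e) :=
    h1.div Asymptotics.IsEquivalent.refl
  apply h2.symm.tendsto_nhds
  have h3 : Tendsto (fun M : ℕ => ((j : ℝ) / M + n0) ^ e / e.factorial) atTop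
      (𝓝 ((0 + (n0 : ℝ)) ^ e / e.factorial)) :=
    (((tendsto_const_div_atTop_nhds_zero_nat (j : ℝ)).add_const _).pow e).div_const _
  rw [zero_add] at h3
  refine h3.congr' ?_
  filter_upwards [eventually_gt_atTop 0] with M hM
  have hM' : (M : ℝ) ≠ 0 := by positivity
  rw [div_right_comm, ← div_pow]
  congr 2
  push_cast
  field_simp

/-- polynomial growth is beaten by exponential decay -/
lemma choose_mul_pow_tendsto (j n0 e : ℕ) (hn0 : 0 < n0) {x : ℝ} (hx0 : 0 ≤ x) (hx1 : x < 1) :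
    Tendsto (fun M : ℕ => ((j + n0 * M).choose e : ℝ) * x ^ M) atTop (𝓝 0) := by
  have h1 := choose_asym j n0 e hn0
  have h2 : Tendsto (fun M : ℕ => (M : ℝ) ^ e * x ^ M) atTop (𝓝 0) :=
    tendsto_pow_const_mul_const_pow_of_lt_one e hx0 hx1
  have h3 := h1.mul h2
  rw [mul_zero] at h3
  refine h3.congr' ?_
  filter_upwards [eventually_gt_atTop 0] with M hM
  have hM' : (M : ℝ) ≠ 0 := by positivity
  field_simp

/-- a combination of unimodular geometric sequences tending to `0` is trivial -/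
lemma trig_tendsto {k : ℕ} (I : Finset (Fin k)) (C U : Fin k → ℂ) (hU : ∀ i ∈ I, ‖U i‖ = 1)
    (h : Tendsto (fun m : ℕ => ∑ i ∈ I, C i * U i ^ m) atTop (𝓝 0)) (u : ℂ) :
    ∑ i ∈ I with U i = u, C i = 0 := by
  classical
  by_cases hu : u ∈ I.image U
  swap
  · apply Finset.sum_eq_zero
    intro i hi
    exact absurd (Finset.mem_image.mpr ⟨i, (Finset.mem_filter.mp hi).1, (Finset.mem_filter.mp hi).2⟩) hu
  have hun : ‖u‖ = 1 := by
    obtain ⟨i, hi, rfl⟩ := Finset.mem_image.mp hu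
    exact hU i hi
  set P : Polynomial ℂ := ∏ x ∈ (I.image U).erase u, (Polynomial.X - Polynomial.C x) with hP
  have hPu : P.eval u ≠ 0 := by
    rw [hP, Polynomial.eval_prod, Finset.prod_ne_zero_iff]
    intro x hx
    simp only [Polynomial.eval_sub, Polynomial.eval_X, Polynomial.eval_C]
    exact sub_ne_zero.mpr (Finset.ne_of_mem_erase hx).symm
  have hP0 : ∀ i ∈ I, U i ≠ u → P.eval (U i) = 0 := by
    intro i hi hne
    rw [hP, Polynomial.eval_prod]
    exact Finset.prod_eq_zero (Finset.mem_erase.mpr ⟨hne, Finset.mem_image_of_mem _ hi⟩) (by simp)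
  have h1 : Tendsto (fun m : ℕ => ∑ a ∈ Finset.range (P.natDegree + 1), P.coeff a *
      ∑ i ∈ I, C i * U i ^ (m + a)) atTop (𝓝 0) := by
    rw [show (0 : ℂ) = ∑ a ∈ Finset.range (P.natDegree + 1), P.coeff a * 0 by simp]
    apply tendsto_finsetSum
    intro a _
    exact ((tendsto_add_atTop_iff_nat a).mpr h).const_mul _
  have h2 : ∀ m : ℕ, ∑ a ∈ Finset.range (P.natDegree + 1), P.coeff a *
      ∑ i ∈ I, C i * U i ^ (m + a) = (P.eval u * ∑ i ∈ I with U i = u, C i) * u ^ m := by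
    intro m
    calc ∑ a ∈ Finset.range (P.natDegree + 1), P.coeff a * ∑ i ∈ I, C i * U i ^ (m + a)
        = ∑ i ∈ I, C i * P.eval (U i) * U i ^ m := by
          simp only [Finset.mul_sum]
          rw [Finset.sum_comm]
          apply Finset.sum_congr rfl
          intro i _
          rw [Polynomial.eval_eq_sum_range, Finset.mul_sum, Finset.sum_mul]
          apply Finset.sum_congr rfl
          intro a _
          rw [pow_add]
          ring
      _ = ∑ i ∈ I with U i = u, C i * P.eval (U i) * U i ^ m := by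
          rw [Finset.sum_filter]
          apply Finset.sum_congr rfl
          intro i hi
          split_ifs with hiu
          · rfl
          · rw [hP0 i hi hiu]
            ring
      _ = _ := by
          rw [Finset.mul_sum, Finset.sum_mul]
          apply Finset.sum_congr rfl
          intro i hi
          rw [(Finset.mem_filter.mp hi).2]
          ring
  simp only [h2] at h1
  have h3 := h1.norm
  simp only [norm_mul, norm_pow, hun, one_pow, mul_one, norm_zero] at h3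
  have h4 := tendsto_nhds_unique h3 tendsto_const_nhds
  rcases mul_eq_zero.mp h4.symm with h5 | h5
  · exact absurd (norm_eq_zero.mp h5) hPu
  · exact norm_eq_zero.mp h5





/-- the value at the progression, split off -/
lemma pow_split (z : ℂ) (j n0 e M : ℕ) (he : e ≤ j) :
    z ^ (j + n0 * M - e) = z ^ (j - e) * (z ^ n0) ^ M := by
  rw [← pow_mul, ← pow_add]
  congr 1
  omega

lemma below_of_not {ρ : ℝ} {d : ℕ} {z : ℂ} {e : ℕ} (hρ : 0 < ρ) (h1 : ¬ Above ρ d z e)
    (h2 : ¬ (‖z‖ = ρ ∧ e = d)) : ‖z‖ < ρ ∨ (‖z‖ = ρ ∧ e < d) := by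
  unfold Above at h1
  push Not at h1
  rcases lt_trichotomy ‖z‖ ρ with h | h | h
  · exact Or.inl h
  · right
    refine ⟨h, ?_⟩
    have h3 := h1.2 h hρ
    exact lt_of_le_of_ne h3 fun h4 => h2 ⟨h, h4⟩
  · exact absurd h (not_lt.mpr h1.1)

/-- a term below the level is negligible -/
lemma below_tendsto (z C : ℂ) (n0 j e d : ℕ) (hn0 : 0 < n0) (he : e ≤ j) {ρ : ℝ} (hρ : 0 < ρ)
    (h : ‖z‖ < ρ ∨ (‖z‖ = ρ ∧ e < d)) :
    Tendsto (fun M : ℕ => C * ((j + n0 * M).choose e : ℂ) * z ^ (j + n0 * M - e) /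
      ((ρ ^ (n0 * M) * (M : ℝ) ^ d : ℝ) : ℂ)) atTop (𝓝 0) := by
  have hnorm : ∀ M : ℕ, ‖C * ((j + n0 * M).choose e : ℂ) * z ^ (j + n0 * M - e) /
      ((ρ ^ (n0 * M) * (M : ℝ) ^ d : ℝ) : ℂ)‖ = ‖C * z ^ (j - e)‖ *
        (((j + n0 * M).choose e : ℝ) * ((‖z‖ / ρ) ^ n0) ^ M / (M : ℝ) ^ d) := by
    intro M
    have h0 : ‖(ρ ^ (n0 * M) * (M : ℝ) ^ d : ℝ)‖ = ρ ^ (n0 * M) * (M : ℝ) ^ d :=
      Real.norm_of_nonneg (by positivity)
    rw [pow_split z j n0 e M he, norm_div, norm_real, h0, norm_mul, norm_mul, norm_mul, norm_mul,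
      norm_natCast, norm_pow, norm_pow, norm_pow, div_pow, div_pow, ← pow_mul ρ]
    field_simp
  rcases h with h | ⟨h, hed⟩
  · have hx0 : 0 ≤ (‖z‖ / ρ) ^ n0 := by positivity
    have hx1 : (‖z‖ / ρ) ^ n0 < 1 := by
      apply pow_lt_one₀ (by positivity) _ hn0.ne'
      rw [div_lt_one hρ]
      exact h
    have h1 := (choose_mul_pow_tendsto j n0 e hn0 hx0 hx1).const_mul ‖C * z ^ (j - e)‖
    rw [mul_zero] at h1
    refine squeeze_zero_norm' ?_ h1
    filter_upwards [eventually_gt_atTop 0] with M hM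
    rw [hnorm]
    apply mul_le_mul_of_nonneg_left _ (norm_nonneg _)
    apply div_le_self (by positivity)
    apply one_le_pow₀
    exact_mod_cast hM
  · have h1 : Tendsto (fun M : ℕ => ((j + n0 * M).choose e : ℝ) / (M : ℝ) ^ e *
        (1 / (M : ℝ)) ^ (d - e)) atTop (𝓝 ((n0 : ℝ) ^ e / e.factorial * 0 ^ (d - e))) :=
      (choose_asym j n0 e hn0).mul (tendsto_one_div_atTop_nhds_zero_nat.pow _)
    rw [zero_pow (by omega), mul_zero] at h1
    have h2 := h1.const_mul ‖C * z ^ (j - e)‖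
    rw [mul_zero] at h2
    refine squeeze_zero_norm' ?_ h2
    filter_upwards [eventually_gt_atTop 0] with M hM
    rw [hnorm, h, div_self hρ.ne', one_pow, one_pow, mul_one]
    apply le_of_eq
    congr 1
    have hM' : (M : ℝ) ≠ 0 := by positivity
    have h3 : (M : ℝ) ^ d = (M : ℝ) ^ e * (M : ℝ) ^ (d - e) := by
      rw [← pow_add]
      congr 1
      omega
    rw [h3, one_div, inv_pow]
    field_simp

open scoped Classical in
/-- the part of the sequence at the level -/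
noncomputable def levelSum (l c : Fin k → ℂ) (ex : Fin k → ℕ) (n0 j : ℕ) (ρ : ℝ) (d : ℕ) (M : ℕ) : ℂ :=
  ∑ i, (if ‖l i‖ = ρ ∧ ex i = d then c i * l i ^ (j - d) * (nz (l i) ^ n0) ^ M else 0)

open scoped Classical in
/-- the leading term -/
lemma level_asym (l c : Fin k → ℂ) (ex : Fin k → ℕ) (n0 j : ℕ) (hn0 : 0 < n0)
    (hj : ∀ i, ex i ≤ j) (ρ : ℝ) (d : ℕ) (hρ : 0 < ρ)
    (hvan : ∀ m, ∑ i, (if Above ρ d (l i) (ex i) then
      c i * ((j + n0 * m).choose (ex i) : ℂ) * l i ^ (j + n0 * m - ex i) else 0) = 0) :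
    Tendsto (fun M : ℕ => (∑ i, c i * ((j + n0 * M).choose (ex i) : ℂ) *
        l i ^ (j + n0 * M - ex i)) / ((ρ ^ (n0 * M) * (M : ℝ) ^ d : ℝ) : ℂ) -
      ((((j + n0 * M).choose d : ℝ) / (M : ℝ) ^ d : ℝ) : ℂ) * levelSum l c ex n0 j ρ d M)
      atTop (𝓝 0) := by
  have h0 : Tendsto (fun M : ℕ => ∑ i, (if Above ρ d (l i) (ex i) ∨ (‖l i‖ = ρ ∧ ex i = d) then 0
      else c i * ((j + n0 * M).choose (ex i) : ℂ) * l i ^ (j + n0 * M - ex i) /
        ((ρ ^ (n0 * M) * (M : ℝ) ^ d : ℝ) : ℂ))) atTop (𝓝 0) := by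
    rw [show (0 : ℂ) = ∑ _i : Fin k, (0 : ℂ) by simp]
    apply tendsto_finsetSum
    intro i _
    split_ifs with h
    · simp
    · push Not at h
      exact below_tendsto (l i) (c i) n0 j (ex i) d hn0 (hj i) hρ
        (below_of_not hρ h.1 (fun h' => h.2 h'.1 h'.2))
  refine h0.congr' ?_
  filter_upwards [eventually_gt_atTop 0] with M hM
  have hM' : (M : ℝ) ≠ 0 := by positivity
  have hMC : (M : ℂ) ≠ 0 := by exact_mod_cast hM.ne'
  have hρC : (ρ : ℂ) ≠ 0 := by exact_mod_cast hρ.ne'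
  have h1 := hvan M
  have h2 : (∑ i, c i * ((j + n0 * M).choose (ex i) : ℂ) * l i ^ (j + n0 * M - ex i)) =
      ∑ i, (if Above ρ d (l i) (ex i) ∨ (‖l i‖ = ρ ∧ ex i = d) then 0
        else c i * ((j + n0 * M).choose (ex i) : ℂ) * l i ^ (j + n0 * M - ex i)) +
      ∑ i, (if ‖l i‖ = ρ ∧ ex i = d then
        c i * ((j + n0 * M).choose (ex i) : ℂ) * l i ^ (j + n0 * M - ex i) else 0) +
      ∑ i, (if Above ρ d (l i) (ex i) then
        c i * ((j + n0 * M).choose (ex i) : ℂ) * l i ^ (j + n0 * M - ex i) else 0) := by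
    rw [← Finset.sum_add_distrib, ← Finset.sum_add_distrib]
    apply Finset.sum_congr rfl
    intro i _
    by_cases hA : Above ρ d (l i) (ex i)
    · have hL : ¬ (‖l i‖ = ρ ∧ ex i = d) := by
        rintro ⟨h3, h4⟩
        unfold Above at hA
        rcases hA with h5 | ⟨_, _, h5⟩
        · exact absurd h3 h5.ne'
        · omega
      rw [if_pos (Or.inl hA), if_neg hL, if_pos hA]
      ring
    · by_cases hL : ‖l i‖ = ρ ∧ ex i = d
      · rw [if_pos (Or.inr hL), if_pos hL, if_neg hA]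
        ring
      · rw [if_neg (by tauto), if_neg hL, if_neg hA]
        ring
  rw [h2, h1, add_zero, add_div, levelSum, Finset.sum_div, Finset.sum_div, Finset.mul_sum,
    add_sub_assoc, ← Finset.sum_sub_distrib]
  have h3 : ∑ i, ((if ‖l i‖ = ρ ∧ ex i = d then
        c i * ((j + n0 * M).choose (ex i) : ℂ) * l i ^ (j + n0 * M - ex i) else 0) /
        ((ρ ^ (n0 * M) * (M : ℝ) ^ d : ℝ) : ℂ) -
      ((((j + n0 * M).choose d : ℝ) / (M : ℝ) ^ d : ℝ) : ℂ) *
        (if ‖l i‖ = ρ ∧ ex i = d then c i * l i ^ (j - d) * (nz (l i) ^ n0) ^ M else 0)) = 0 := by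
    apply Finset.sum_eq_zero
    intro i _
    split_ifs with hL
    · obtain ⟨hL1, hL2⟩ := hL
      have h4 := nz_mul_norm (l i)
      rw [hL1] at h4
      rw [hL2, pow_split (l i) j n0 d M (hL2 ▸ hj i), sub_eq_zero]
      have h5 : (l i ^ n0) ^ M = (ρ : ℂ) ^ (n0 * M) * (nz (l i) ^ n0) ^ M := by
        conv_lhs => rw [← h4]
        rw [mul_pow, mul_pow, ← pow_mul]
      rw [h5]
      push_cast
      field_simp
    · simp
  rw [h3, add_zero]
  apply Finset.sum_congr rfl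
  intro i _
  split_ifs <;> simp




/-- two growth scales along progressions -/
lemma ratio_tendsto (α β : ℝ) (hα : 0 < α) (hβ : 0 < β) (a b p q : ℕ) (ha : 0 < a)
    (d d' : ℕ) (h : β ^ b < α ^ a ∨ (β ^ b = α ^ a ∧ d < d')) :
    Tendsto (fun m : ℕ => (β ^ (b * m + q) * ((b * m + q : ℕ) : ℝ) ^ d) /
      (α ^ (a * m + p) * ((a * m + p : ℕ) : ℝ) ^ d')) atTop (𝓝 0) := by
  set t : ℝ := β ^ b / α ^ a with ht
  have ht0 : 0 < t := by positivity
  have h1 : Tendsto (fun m : ℕ => t ^ m * (m : ℝ) ^ d / (m : ℝ) ^ d') atTop (𝓝 0) := by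
    rcases h with h | ⟨h, hd⟩
    · have ht1 : t < 1 := by
        rw [ht, div_lt_one (by positivity)]
        exact h
      have h2 := tendsto_pow_const_mul_const_pow_of_lt_one d ht0.le ht1
      refine squeeze_zero' ?_ ?_ h2
      · exact Eventually.of_forall fun m => by positivity
      · filter_upwards [eventually_gt_atTop 0] with m hm
        rw [mul_comm ((m : ℝ) ^ d)]
        apply div_le_self (by positivity)
        apply one_le_pow₀
        exact_mod_cast hm
    · have ht1 : t = 1 := by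
        rw [ht, h, div_self (by positivity)]
      have h2 : Tendsto (fun m : ℕ => (1 / (m : ℝ)) ^ (d' - d)) atTop (𝓝 (0 ^ (d' - d))) :=
        tendsto_one_div_atTop_nhds_zero_nat.pow _
      rw [zero_pow (by omega)] at h2
      refine h2.congr' ?_
      filter_upwards [eventually_gt_atTop 0] with m hm
      have hm' : (m : ℝ) ≠ 0 := by positivity
      have h3 : (m : ℝ) ^ d' = (m : ℝ) ^ d * (m : ℝ) ^ (d' - d) := by
        rw [← pow_add]
        congr 1
        omega
      rw [ht1, one_pow, one_mul, h3, one_div, inv_pow]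
      field_simp
  have h2 := h1.const_mul (β ^ q / α ^ p * ((b + q : ℕ) : ℝ) ^ d)
  rw [mul_zero] at h2
  refine squeeze_zero' ?_ ?_ h2
  · exact Eventually.of_forall fun m => by positivity
  · filter_upwards [eventually_gt_atTop 0] with m hm
    have hm1 : (1 : ℝ) ≤ m := by exact_mod_cast hm
    have e1 : ((b * m + q : ℕ) : ℝ) ≤ ((b + q : ℕ) : ℝ) * m := by
      have : b * m + q ≤ (b + q) * m := by nlinarith
      exact_mod_cast this
    have e2 : (m : ℝ) ≤ ((a * m + p : ℕ) : ℝ) := by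
      have : m ≤ a * m + p := by nlinarith
      exact_mod_cast this
    have e3 : ((b * m + q : ℕ) : ℝ) ^ d ≤ ((b + q : ℕ) : ℝ) ^ d * (m : ℝ) ^ d := by
      rw [← mul_pow]
      exact pow_le_pow_left₀ (by positivity) e1 d
    have e4 : (m : ℝ) ^ d' ≤ ((a * m + p : ℕ) : ℝ) ^ d' := pow_le_pow_left₀ (by positivity) e2 d'
    calc β ^ (b * m + q) * ((b * m + q : ℕ) : ℝ) ^ d / (α ^ (a * m + p) * ((a * m + p : ℕ) : ℝ) ^ d')
        ≤ β ^ (b * m + q) * (((b + q : ℕ) : ℝ) ^ d * (m : ℝ) ^ d) / (α ^ (a * m + p) * (m : ℝ) ^ d') := by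
          gcongr
      _ = β ^ q / α ^ p * ((b + q : ℕ) : ℝ) ^ d * (t ^ m * (m : ℝ) ^ d / (m : ℝ) ^ d') := by
          rw [ht, div_pow, ← pow_mul, ← pow_mul, pow_add, pow_add]
          field_simp





open scoped Classical in
/-- the group coefficient -/
noncomputable def grp (l c : Fin k → ℂ) (ex : Fin k → ℕ) (n0 j : ℕ) (y : ℂ) (e : ℕ) : ℂ :=
  ∑ i with l i ^ n0 = y ∧ ex i = e, c i * l i ^ (j - e)

open scoped Classical in
lemma sum_vanish (l c : Fin k → ℂ) (ex : Fin k → ℕ) (n0 j : ℕ) (hj : ∀ i, ex i ≤ j)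
    (q : Fin k → Prop) (hq : ∀ i i', l i ^ n0 = l i' ^ n0 → ex i = ex i' → q i → q i')
    (h0 : ∀ i, q i → grp l c ex n0 j (l i ^ n0) (ex i) = 0) (m : ℕ) :
    ∑ i, (if q i then c i * ((j + n0 * m).choose (ex i) : ℂ) * l i ^ (j + n0 * m - ex i) else 0)
      = 0 := by
  rw [← Finset.sum_filter,
    ← Finset.sum_fiberwise_of_maps_to (t := (Finset.univ.filter q).image
      fun i => ((l i ^ n0, ex i) : ℂ × ℕ)) (g := fun i => ((l i ^ n0, ex i) : ℂ × ℕ))
      (fun i hi => Finset.mem_image_of_mem _ hi)]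
  apply Finset.sum_eq_zero
  rintro ⟨y, e⟩ hp
  obtain ⟨i0, hi0, hi0'⟩ := Finset.mem_image.mp hp
  rw [Prod.mk.injEq] at hi0'
  obtain ⟨rfl, rfl⟩ := hi0'
  have hqi0 : q i0 := (Finset.mem_filter.mp hi0).2
  have h1 := h0 i0 hqi0
  unfold grp at h1
  have h2 : (Finset.univ.filter fun i => l i ^ n0 = l i0 ^ n0 ∧ ex i = ex i0) =
      (Finset.univ.filter q).filter fun i => ((l i ^ n0, ex i) : ℂ × ℕ) = (l i0 ^ n0, ex i0) := by
    ext i
    simp only [Finset.mem_filter, Finset.mem_univ, true_and, Prod.mk.injEq]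
    constructor
    · rintro ⟨h3, h4⟩
      exact ⟨hq i0 i h3.symm h4.symm hqi0, h3, h4⟩
    · rintro ⟨_, h3⟩
      exact h3
  rw [h2] at h1
  calc _ = ((j + n0 * m).choose (ex i0) : ℂ) * (l i0 ^ n0) ^ m *
        ∑ i ∈ (Finset.univ.filter q).filter
          (fun i => ((l i ^ n0, ex i) : ℂ × ℕ) = (l i0 ^ n0, ex i0)), c i * l i ^ (j - ex i0) := by
        rw [Finset.mul_sum]
        apply Finset.sum_congr rfl
        intro i hi
        have h3 := (Finset.mem_filter.mp hi).2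
        rw [Prod.mk.injEq] at h3
        rw [pow_split (l i) j n0 (ex i) m (hj i), h3.1, h3.2]
        ring
    _ = 0 := by rw [h1, mul_zero]

lemma norm_eq_of_pow_eq {z w : ℂ} {n0 : ℕ} (hn0 : 0 < n0) (h : z ^ n0 = w ^ n0) : ‖z‖ = ‖w‖ := by
  have h1 : ‖z‖ ^ n0 = ‖w‖ ^ n0 := by
    rw [← norm_pow, ← norm_pow, h]
  exact (pow_left_inj₀ (norm_nonneg _) (norm_nonneg _) hn0.ne').mp h1

open scoped Classical in
/-- the top level -/
lemma level_cases (l c : Fin k → ℂ) (ex : Fin k → ℕ) (n0 j : ℕ) (hn0 : 0 < n0)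
    (hj : ∀ i, ex i ≤ j) :
    (∀ m, ∑ i, (if l i ≠ 0 then c i * ((j + n0 * m).choose (ex i) : ℂ) *
      l i ^ (j + n0 * m - ex i) else 0) = 0) ∨
    ∃ i0, l i0 ≠ 0 ∧ grp l c ex n0 j (l i0 ^ n0) (ex i0) ≠ 0 ∧
      ∀ m, ∑ i, (if Above ‖l i0‖ (ex i0) (l i) (ex i) then
        c i * ((j + n0 * m).choose (ex i) : ℂ) * l i ^ (j + n0 * m - ex i) else 0) = 0 := by
  by_cases hS : ∃ i, l i ≠ 0 ∧ grp l c ex n0 j (l i ^ n0) (ex i) ≠ 0
  swap
  · left
    push Not at hS
    intro m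
    have h1 := sum_vanish l c ex n0 j hj (fun i => l i ≠ 0)
      (fun i i' h _ h' => by
        rw [← norm_ne_zero_iff] at h' ⊢
        rwa [← norm_eq_of_pow_eq hn0 h]) (fun i hi => hS i hi) m
    refine Eq.trans (Finset.sum_congr rfl fun i _ => ?_) h1
    by_cases h : l i ≠ 0
    · rw [if_pos h, if_pos h]
    · rw [if_neg h, if_neg h]
  · right
    obtain ⟨i1, hi1⟩ := hS
    -- first maximise the modulus
    obtain ⟨i2, hi2, hmax2⟩ := Finset.exists_max_image
      (Finset.univ.filter fun i => l i ≠ 0 ∧ grp l c ex n0 j (l i ^ n0) (ex i) ≠ 0)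
      (fun i => ‖l i‖) ⟨i1, by simpa using hi1⟩
    -- then the exponent
    obtain ⟨i0, hi0, hmax0⟩ := Finset.exists_max_image
      (Finset.univ.filter fun i => (l i ≠ 0 ∧ grp l c ex n0 j (l i ^ n0) (ex i) ≠ 0) ∧
        ‖l i‖ = ‖l i2‖) ex ⟨i2, by simpa using hi2⟩
    have hi0' := (Finset.mem_filter.mp hi0).2
    refine ⟨i0, hi0'.1.1, hi0'.1.2, fun m => ?_⟩
    apply sum_vanish l c ex n0 j hj (fun i => Above ‖l i0‖ (ex i0) (l i) (ex i))
    · intro i i' h h' hA
      unfold Above at hA ⊢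
      rw [← norm_eq_of_pow_eq hn0 h, ← h']
      exact hA
    · intro i hA
      by_contra hne
      have hpos : 0 < ‖l i0‖ := norm_pos_iff.mpr hi0'.1.1
      unfold Above at hA
      rcases hA with h1 | ⟨h1, h2, h3⟩
      · have hli : l i ≠ 0 := norm_pos_iff.mp (hpos.trans h1)
        have h4 := hmax2 i (by simpa using ⟨hli, hne⟩)
        rw [hi0'.2] at h1
        linarith
      · have hli : l i ≠ 0 := norm_pos_iff.mp (by rw [h1]; exact h2)
        have h4 := hmax0 i (by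
          simp only [Finset.mem_filter, Finset.mem_univ, true_and]
          exact ⟨⟨hli, hne⟩, h1.trans hi0'.2⟩)
        omega

lemma nz_pow_eq {z : ℂ} (n0 : ℕ) : ((‖z‖ : ℂ)) ^ n0 * nz z ^ n0 = z ^ n0 := by
  rw [← mul_pow, nz_mul_norm]

open scoped Classical in
/-- the level part does not tend to `0` along a progression -/
lemma levelSum_not_tendsto (l c : Fin k → ℂ) (ex : Fin k → ℕ) (n0 j : ℕ) (hn0 : 0 < n0)
    (i0 : Fin k) (hi0 : l i0 ≠ 0) (hG : grp l c ex n0 j (l i0 ^ n0) (ex i0) ≠ 0)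
    (N' q : ℕ) (hX : ∀ i, ‖l i‖ = ‖l i0‖ → (l i ^ n0) ^ N' = (l i0 ^ n0) ^ N' →
      l i ^ n0 = l i0 ^ n0) :
    ¬ Tendsto (fun m : ℕ => levelSum l c ex n0 j ‖l i0‖ (ex i0) (N' * m + q)) atTop (𝓝 0) := by
  intro h
  have hρ : (‖l i0‖ : ℂ) ≠ 0 := by exact_mod_cast norm_ne_zero_iff.mpr hi0
  have h1 : Tendsto (fun m : ℕ => ∑ i ∈ Finset.univ.filter (fun i => ‖l i‖ = ‖l i0‖ ∧ ex i = ex i0),
      (c i * l i ^ (j - ex i0) * (nz (l i) ^ n0) ^ q) * ((nz (l i) ^ n0) ^ N') ^ m)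
      atTop (𝓝 0) := by
    refine h.congr fun m => ?_
    rw [levelSum, Finset.sum_filter]
    apply Finset.sum_congr rfl
    intro i _
    split_ifs
    · rw [pow_add, pow_mul]
      ring
    · rfl
  have h2 := trig_tendsto _ _ _ (fun i _ => by
    rw [norm_pow, norm_pow, norm_nz, one_pow, one_pow]) h1 ((nz (l i0) ^ n0) ^ N')
  have h3 : ∀ i, ‖l i‖ = ‖l i0‖ → ((nz (l i) ^ n0) ^ N' = (nz (l i0) ^ n0) ^ N' ↔
      l i ^ n0 = l i0 ^ n0) := by
    intro i hi
    have e1 : (‖l i0‖ : ℂ) ^ n0 * nz (l i) ^ n0 = l i ^ n0 := by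
      rw [← hi]
      exact nz_pow_eq n0
    have e2 : (‖l i0‖ : ℂ) ^ n0 * nz (l i0) ^ n0 = l i0 ^ n0 := nz_pow_eq n0
    constructor
    · intro h4
      apply hX i hi
      rw [← e1, ← e2, mul_pow, mul_pow, h4]
    · intro h4
      rw [← e1, ← e2] at h4
      rw [mul_left_cancel₀ (pow_ne_zero n0 hρ) h4]
  apply hG
  have h4 : ((nz (l i0) ^ n0) ^ q) * grp l c ex n0 j (l i0 ^ n0) (ex i0) = 0 := by
    rw [← h2, grp, Finset.mul_sum, Finset.filter_filter]
    have h5 : (Finset.univ.filter fun i => l i ^ n0 = l i0 ^ n0 ∧ ex i = ex i0) =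
        Finset.univ.filter (fun i => (‖l i‖ = ‖l i0‖ ∧ ex i = ex i0) ∧
          (nz (l i) ^ n0) ^ N' = (nz (l i0) ^ n0) ^ N') := by
      ext i
      simp only [Finset.mem_filter, Finset.mem_univ, true_and]
      constructor
      · rintro ⟨h6, h7⟩
        have h8 := norm_eq_of_pow_eq hn0 h6
        exact ⟨⟨h8, h7⟩, (h3 i h8).mpr h6⟩
      · rintro ⟨⟨h8, h7⟩, h6⟩
        exact ⟨(h3 i h8).mp h6, h7⟩
    rw [h5]
    apply Finset.sum_congr rfl
    intro i hi
    obtain ⟨⟨h8, h7⟩, h6⟩ := (Finset.mem_filter.mp hi).2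
    have h9 := (h3 i h8).mp h6
    have h10 : nz (l i) ^ n0 = nz (l i0) ^ n0 := by
      have e1 : (‖l i0‖ : ℂ) ^ n0 * nz (l i) ^ n0 = l i ^ n0 := by
        rw [← h8]
        exact nz_pow_eq n0
      have e2 : (‖l i0‖ : ℂ) ^ n0 * nz (l i0) ^ n0 = l i0 ^ n0 := nz_pow_eq n0
      rw [← e1, ← e2] at h9
      exact mul_left_cancel₀ (pow_ne_zero n0 hρ) h9
    rw [h10]
    ring
  rcases mul_eq_zero.mp h4 with h5 | h5
  · exfalso
    have h6 := congrArg norm h5
    rw [norm_pow, norm_pow, norm_nz, one_pow, one_pow, norm_zero] at h6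
    exact one_ne_zero h6
  · exact h5

open scoped Classical in
lemma levelSum_bound (l c : Fin k → ℂ) (ex : Fin k → ℕ) (n0 j : ℕ) (ρ : ℝ) (d M : ℕ) :
    ‖levelSum l c ex n0 j ρ d M‖ ≤ ∑ i, ‖c i * l i ^ (j - d)‖ := by
  rw [levelSum]
  refine (norm_sum_le _ _).trans (Finset.sum_le_sum fun i _ => ?_)
  split_ifs
  · rw [norm_mul, norm_pow, norm_pow, norm_nz, one_pow, one_pow, mul_one]
  · rw [norm_zero]
    exact norm_nonneg _

/-- consequences of the asymptotic formula for a real sequence -/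
lemma level_data (l c : Fin k → ℂ) (ex : Fin k → ℕ) (n0 j : ℕ) (hn0 : 0 < n0)
    (v : ℕ → ℝ) (ρ : ℝ) (d : ℕ) (hρ : 0 < ρ)
    (hasym : Tendsto (fun M : ℕ => ((v (j + n0 * M) : ℝ) : ℂ) /
        ((ρ ^ (n0 * M) * (M : ℝ) ^ d : ℝ) : ℂ) -
      ((((j + n0 * M).choose d : ℝ) / (M : ℝ) ^ d : ℝ) : ℂ) * levelSum l c ex n0 j ρ d M)
      atTop (𝓝 0)) :
    (∃ B : ℝ, ∀ᶠ M : ℕ in atTop, |v (j + n0 * M)| ≤ B * ((ρ ^ n0) ^ M * (M : ℝ) ^ d)) ∧
    (∀ N' q : ℕ, 0 < N' → ¬ Tendsto (fun m : ℕ => levelSum l c ex n0 j ρ d (N' * m + q))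
        atTop (𝓝 0) → ¬ Tendsto (fun m : ℕ => v (j + n0 * (N' * m + q)) /
      ((ρ ^ n0) ^ (N' * m + q) * ((N' * m + q : ℕ) : ℝ) ^ d)) atTop (𝓝 0)) ∧
    ((∀ M, (levelSum l c ex n0 j ρ d M).re = 0) →
      Tendsto (fun m : ℕ => levelSum l c ex n0 j ρ d m) atTop (𝓝 0)) ∧
    (∀ b : ℝ, 0 < b → (∀ M, b ≤ (levelSum l c ex n0 j ρ d M).re) →
      ∃ b' : ℝ, 0 < b' ∧ ∀ᶠ M : ℕ in atTop, b' * ((ρ ^ n0) ^ M * (M : ℝ) ^ d) ≤ v (j + n0 * M)) := by
  set κ : ℝ := (n0 : ℝ) ^ d / d.factorial with hκ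
  have hn0R : (0 : ℝ) < n0 := by exact_mod_cast hn0
  have hκ0 : 0 < κ := by positivity
  have hκt := choose_asym j n0 d hn0
  set κM : ℕ → ℝ := fun M => ((j + n0 * M).choose d : ℝ) / (M : ℝ) ^ d with hκM
  set L : ℕ → ℂ := fun M => levelSum l c ex n0 j ρ d M with hL
  have hscale : ∀ M : ℕ, 0 < M → 0 < ρ ^ (n0 * M) * (M : ℝ) ^ d := by
    intro M hM
    have : (0 : ℝ) < M := by exact_mod_cast hM
    positivity
  -- real part
  have hre : Tendsto (fun M : ℕ => v (j + n0 * M) / (ρ ^ (n0 * M) * (M : ℝ) ^ d) -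
      κM M * (L M).re) atTop (𝓝 0) := by
    have h1 := (Complex.continuous_re.tendsto 0).comp hasym
    rw [Complex.zero_re] at h1
    refine h1.congr fun M => ?_
    simp only [Function.comp_apply]
    rw [Complex.sub_re, Complex.re_ofReal_mul, ← Complex.ofReal_div, Complex.ofReal_re]
  have him : Tendsto (fun M : ℕ => κM M * (L M).im) atTop (𝓝 0) := by
    have h1 := ((Complex.continuous_im.tendsto 0).comp hasym).neg
    rw [Complex.zero_im, neg_zero] at h1
    refine h1.congr fun M => ?_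
    simp only [Function.comp_apply]
    rw [Complex.sub_im, Complex.im_ofReal_mul, ← Complex.ofReal_div, Complex.ofReal_im]
    ring
  have hκM0 : ∀ᶠ M in atTop, κ / 2 < κM M := hκt.eventually_const_lt (by linarith)
  have hκM1 : ∀ᶠ M in atTop, κM M < κ + 1 := hκt.eventually_lt_const (by linarith)
  refine ⟨?_, ?_, ?_, ?_⟩
  · refine ⟨1 + (κ + 1) * ∑ i, ‖c i * l i ^ (j - d)‖, ?_⟩
    have h1 := hasym.norm
    rw [norm_zero] at h1
    filter_upwards [h1.eventually_lt_const one_pos, hκM0, hκM1, eventually_gt_atTop 0] with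
      M hM1 hM2 hM3 hM
    have hs := hscale M hM
    have h2 : ‖((v (j + n0 * M) : ℝ) : ℂ) / ((ρ ^ (n0 * M) * (M : ℝ) ^ d : ℝ) : ℂ)‖ ≤
        1 + (κ + 1) * ∑ i, ‖c i * l i ^ (j - d)‖ := by
      have h3 : ((v (j + n0 * M) : ℝ) : ℂ) / ((ρ ^ (n0 * M) * (M : ℝ) ^ d : ℝ) : ℂ) =
          (((v (j + n0 * M) : ℝ) : ℂ) / ((ρ ^ (n0 * M) * (M : ℝ) ^ d : ℝ) : ℂ) -
            (κM M : ℂ) * L M) + (κM M : ℂ) * L M := by ring
      rw [h3]
      refine (norm_add_le _ _).trans (add_le_add hM1.le ?_)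
      rw [norm_mul, Complex.norm_real, Real.norm_of_nonneg (by linarith)]
      exact mul_le_mul hM3.le (levelSum_bound l c ex n0 j ρ d M) (norm_nonneg _) (by linarith)
    rw [norm_div, Complex.norm_real, Complex.norm_real, Real.norm_of_nonneg hs.le,
      div_le_iff₀ hs, Real.norm_eq_abs] at h2
    rwa [← pow_mul]
  · intro N' q hN' hnt hcon
    apply hnt
    have hsub : Tendsto (fun m : ℕ => N' * m + q) atTop atTop := by
      apply tendsto_atTop_mono (f := fun M : ℕ => M) _ tendsto_id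
      intro M
      show M ≤ N' * M + q
      nlinarith
    have h1 := hasym.comp hsub
    have h2 : Tendsto (fun m : ℕ => (κM (N' * m + q) : ℂ) * L (N' * m + q)) atTop (𝓝 0) := by
      have h3 : Tendsto (fun m : ℕ => ((v (j + n0 * (N' * m + q)) : ℝ) : ℂ) /
          ((ρ ^ (n0 * (N' * m + q)) * ((N' * m + q : ℕ) : ℝ) ^ d : ℝ) : ℂ)) atTop (𝓝 0) := by
        have h4 := (Complex.continuous_ofReal.tendsto 0).comp hcon
        rw [Complex.ofReal_zero] at h4
        refine h4.congr fun m => ?_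
        simp only [Function.comp_apply]
        rw [Complex.ofReal_div, ← pow_mul]
      have h5 := h3.sub h1
      rw [sub_zero] at h5
      refine h5.congr fun m => ?_
      simp only [Function.comp_apply]
      ring
    have h3 : Tendsto (fun m : ℕ => ((κM (N' * m + q) : ℝ) : ℂ)⁻¹ *
        ((κM (N' * m + q) : ℂ) * L (N' * m + q))) atTop (𝓝 ((κ : ℂ)⁻¹ * 0)) := by
      apply Tendsto.mul _ h2
      apply Tendsto.inv₀ _ (by exact_mod_cast hκ0.ne')
      exact ((Complex.continuous_ofReal.tendsto κ).comp hκt).comp hsub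
    rw [mul_zero] at h3
    refine h3.congr' ?_
    filter_upwards [hsub.eventually hκM0] with m hm
    have : (κM (N' * m + q) : ℂ) ≠ 0 := by
      have : κM (N' * m + q) ≠ 0 := by
        have : κ / 2 < κM (N' * m + q) := hm
        linarith [half_pos hκ0]
      exact_mod_cast this
    rw [inv_mul_cancel_left₀ this]
  · intro hre0
    have h1 : Tendsto (fun M : ℕ => (κM M)⁻¹ * (κM M * (L M).im)) atTop (𝓝 (κ⁻¹ * 0)) :=
      (hκt.inv₀ hκ0.ne').mul him
    rw [mul_zero] at h1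
    have h2 : Tendsto (fun M : ℕ => (L M).im) atTop (𝓝 0) := by
      refine h1.congr' ?_
      filter_upwards [hκM0] with m hm
      have : κM m ≠ 0 := by
        have : κ / 2 < κM m := hm
        linarith [half_pos hκ0]
      rw [inv_mul_cancel_left₀ this]
    have h3 := ((Complex.continuous_ofReal.tendsto 0).comp h2).mul_const Complex.I
    rw [Complex.ofReal_zero, zero_mul] at h3
    refine h3.congr fun m => ?_
    simp only [Function.comp_apply]
    apply Complex.ext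
    · simp [hL, hre0]
    · simp [hL]
  · intro b hb hbl
    refine ⟨κ * b / 4, by positivity, ?_⟩
    filter_upwards [hre.eventually_const_lt (show -(κ * b / 4) < 0 by
      have : 0 < κ * b / 4 := by positivity
      linarith), hκM0, eventually_gt_atTop 0] with M hM1 hM2 hM
    have hs := hscale M hM
    have h1 : κ * b / 2 ≤ κM M * (L M).re := by
      calc κ * b / 2 = κ / 2 * b := by ring
        _ ≤ κM M * (L M).re := by
          apply mul_le_mul hM2.le (hbl M) hb.le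
          linarith [half_pos hκ0]
    have h2 : κ * b / 4 ≤ v (j + n0 * M) / (ρ ^ (n0 * M) * (M : ℝ) ^ d) := by linarith
    rw [le_div_iff₀ hs] at h2
    rwa [← pow_mul]


end GS

open GS in
/-- simple recurrences are never critical -/
theorem not_critical_of_simple (l c : Fin k → ℂ) (v : ℕ → ℝ)
    (hv : ∀ n, ∑ i, c i * l i ^ n = (v n : ℂ)) : ¬ Critical v := by
  classical
  rintro ⟨N, J, d', ρ', hN, hd', hρ', ⟨B, hB⟩, hnt, -⟩
  set ex : Fin k → ℕ := fun _ => 0 with hex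
  have hv' : ∀ n, (v n : ℂ) = ∑ i, c i * (n.choose (ex i) : ℂ) * l i ^ (n - ex i) := by
    intro n
    rw [← hv n]
    apply Finset.sum_congr rfl
    intro i _
    simp [hex]
  have hnt0 := hnt 1 0 one_pos
  rcases level_cases l c ex N J hN (fun _ => Nat.zero_le _) with h | ⟨i0, hi0, hG, hvan⟩
  · -- everything cancels
    apply hnt0
    apply tendsto_const_nhds.congr'
    filter_upwards [eventually_gt_atTop 0] with m hm
    have h1 : (v (J + N * m) : ℂ) = 0 := by
      rw [hv', ← h m]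
      apply Finset.sum_congr rfl
      intro i _
      split_ifs with hi
      · rfl
      · push Not at hi
        rw [hi, zero_pow, mul_zero]
        have : 0 < N * m := by positivity
        simp only [hex]
        omega
    have h2 : v (N * (1 * m + 0) + J) = 0 := by
      have h3 : v (J + N * m) = 0 := by exact_mod_cast h1
      rw [← h3]
      congr 1
      ring
    rw [h2, zero_div]
  · set ρ := ‖l i0‖ with hρdef
    have hρ : 0 < ρ := norm_pos_iff.mpr hi0
    have hasym := level_asym l c ex N J hN (fun _ => Nat.zero_le _) ρ (ex i0) hρ hvan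
    simp only [← hv'] at hasym
    obtain ⟨⟨B', hB'⟩, hd2, -, -⟩ := level_data l c ex N J hN v ρ (ex i0) hρ hasym
    have hnt1 := hd2 1 0 one_pos (levelSum_not_tendsto l c ex N J hN i0 hi0 hG 1 0
      (fun i _ h => by rwa [pow_one, pow_one] at h))
    have hsub : ∀ m : ℕ, N * (1 * m + 0) + J = J + N * (1 * m + 0) := fun m => by ring
    set ω := ρ ^ N with hω
    have hω0 : 0 < ω := by positivity
    -- compare the scales
    have hcase1 : ¬ (ω ^ 1 < ρ' ^ 1 ∨ (ω ^ 1 = ρ' ^ 1 ∧ 0 < d')) := by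
      intro hlt
      have h1 := (ratio_tendsto ρ' ω hρ' hω0 1 1 0 0 one_pos 0 d' hlt).const_mul B'
      rw [mul_zero] at h1
      apply hnt0
      refine squeeze_zero_norm' ?_ h1
      filter_upwards [hB', eventually_gt_atTop 0] with m hm hm0
      have hP : 0 < ρ' ^ (1 * m + 0) * ((1 * m + 0 : ℕ) : ℝ) ^ d' := by
        have : (0 : ℝ) < ((1 * m + 0 : ℕ) : ℝ) := by
          exact_mod_cast (by omega : 0 < 1 * m + 0)
        positivity
      rw [Real.norm_eq_abs, abs_div, abs_of_pos hP, mul_div_assoc']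
      apply div_le_div_of_nonneg_right _ hP.le
      rw [hsub]
      simpa only [one_mul, add_zero] using hm
    have hcase2 : ¬ (ρ' ^ 1 < ω ^ 1 ∨ (ρ' ^ 1 = ω ^ 1 ∧ d' < 0)) := by
      intro hlt
      have h1 := (ratio_tendsto ω ρ' hω0 hρ' 1 1 0 0 one_pos d' 0 hlt).const_mul B
      rw [mul_zero] at h1
      apply hnt1
      refine squeeze_zero_norm' ?_ h1
      filter_upwards [eventually_gt_atTop 0] with m hm0
      have hP : 0 < ω ^ (1 * m + 0) * ((1 * m + 0 : ℕ) : ℝ) ^ (ex i0) := by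
        simp only [hex, pow_zero, mul_one]
        positivity
      rw [Real.norm_eq_abs, abs_div, abs_of_pos hP, mul_div_assoc']
      apply div_le_div_of_nonneg_right _ hP.le
      rw [← hsub]
      have := hB (1 * m + 0) (by omega)
      exact this
    push Not at hcase1 hcase2
    rw [pow_one, pow_one] at hcase1 hcase2
    have h1 := hcase1.2 (le_antisymm hcase2.1 hcase1.1)
    omega


end Pool.Agent.DD7719.M
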