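import Pool.Agent.DD7719.Assemble
import Pool.Agent.DD7719.GSimple

/-! The two languages are in `∀ℝ`. -/

set_option autoImplicit false

namespace Pool.Agent.UltPos

open Pool.Agent.PT Pool.Agent.AllR Pool.Agent.DD7719.M Pool.Agent.DD7719 Finset

/-! ### Simple instances -/

lemma Inst.charPoly_map (I : Inst) :
    I.charPoly.map (algebraMap ℚ ℂ) = DD7719.M.cp I.k (fun t => ((I.aQ t : ℚ) : ℂ)) := by
  rw [Inst.charPoly, DD7719.M.cp, Polynomial.map_sub, Polynomial.map_pow, Polynomial.map_X,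
    Polynomial.map_sum, Finset.sum_range]
  congr 1
  apply Finset.sum_congr rfl
  intro t _
  rw [Polynomial.map_mul, Polynomial.map_pow, Polynomial.map_X, Polynomial.map_C]
  simp only [Inst.aQ, t.2, dif_pos, eq_ratCast]

/-- a double root, in terms of the recurrence coefficients -/
def DoubleRoot (k : ℕ) (a : ℕ → ℝ) : Prop := ∃ z : ℂ, (∀ e, e < 2 → (k.choose e : ℂ) * z ^ (k - e) =
      ∑ t ∈ Finset.range k, (a t : ℂ) * ((k - 1 - t).choose e : ℂ) * z ^ (k - 1 - t - e))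

lemma Inst.simple_iff (I : Inst) (aR : ℕ → ℝ) (ha : ∀ t (h : t < I.k), aR t = (I.a ⟨t, h⟩ : ℝ)) :
    I.Simple ↔ ¬ DoubleRoot I.k aR := by
  classical
  have hcp : I.charPoly.map (algebraMap ℚ ℂ) = DD7719.M.cp I.k (fun t => (aR t : ℂ)) := by
    rw [I.charPoly_map, DD7719.M.cp, DD7719.M.cp]
    congr 1
    apply Finset.sum_congr rfl
    intro t ht
    rw [Finset.mem_range] at ht
    congr 2
    rw [ha t ht]
    simp only [Inst.aQ, ht, dif_pos]
    push_cast
    rfl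
  rw [Inst.Simple, hcp, Multiset.nodup_iff_count_le_one, DoubleRoot, not_exists]
  apply forall_congr'
  intro z
  rw [Polynomial.count_roots, ← not_lt, not_iff_not, ← Nat.succ_le_iff,
    Polynomial.le_rootMultiplicity_iff (cp_monic _ _).ne_zero]
  constructor
  · intro h e he
    have h1 := hasse_of_pow_dvd _ z 2 h e he
    rw [hasse_cp, sub_eq_zero] at h1
    exact h1
  · intro h
    apply pow_dvd_of_hasse
    intro e he
    rw [hasse_cp, sub_eq_zero]
    exact h e he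

theorem Inst.Simple.not_criticalM {I : Inst} (hI : I.Simple) : ¬ I.CriticalM := by
  obtain ⟨v, hv, -⟩ := I.exists_unique_seq
  rw [I.criticalM_iff hv]
  obtain ⟨l, c, ex, hrd, -, -⟩ := exists_rootData I.k I.aQ I.uQ
  have hex : ∀ i, i < I.k → ex i = 0 := by
    intro i hi
    by_contra hne
    have h1 := (I.simple_iff (fun t => ((I.aQ t : ℚ) : ℝ)) (fun t h => by
      simp only [Inst.aQ, h, dif_pos])).mp hI
    exact h1 ⟨l i, fun e he => hrd.2.2.1 i hi e (by omega)⟩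
  have hall := hrd.all (fun n => ((v n : ℚ) : ℝ)) (by
    intro n hn
    have := hv.1 ⟨n, hn⟩
    simp only [Inst.uQ, hn, dif_pos]
    exact_mod_cast this) (by
    intro n hn
    rw [hv.2 n hn, Finset.sum_range]
    push_cast
    apply Finset.sum_congr rfl
    intro t _
    simp only [Inst.aQ, t.2, dif_pos])
  refine not_critical_of_simple (k := I.k) (fun i => l i) (fun i => c i) _ (fun n => ?_)
  rw [← hall n]
  apply Finset.sum_congr rfl
  intro i _
  rw [hex i i.2]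
  simp

/-! ### Parameters as UF terms -/

section params

variable {Γ : Type} {f : List Γ → (ℕ → ℕ) → ℕ}

lemma uf_pr (hf : UF f) : UF (fun x e => pr (f x e)) :=
  ((((UF.const 5).mul hf).mul hf).add ((UF.const 10).mul hf)).add (UF.const 28) |>.mul hf

lemma uf_pq (hf : UF f) : UF (fun x e => pq (f x e)) := ((uf_pr hf).add hf).add (UF.const 3)

lemma uf_pmh (hf : UF f) : UF (fun x e => pmh (f x e)) :=
  (hf.mul hf).add ((((uf_pq hf).mul hf).add (UF.const 1)).mul hf)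

lemma uf_pbm (hf : UF f) : UF (fun x e => pbm (f x e)) := (uf_pmh hf).add (UF.const 1)

lemma uf_pdl (hf : UF f) : UF (fun x e => pdl (f x e)) :=
  ((((((UF.const 3).add ((UF.const 4).mul hf)).add ((UF.const 2).mul (uf_pbm hf))).add
    (uf_pr hf)).add (((uf_pq hf).mul hf).add (UF.const 1))).add
    ((uf_pq hf).mul (hf.add (UF.const 1)))).add ((UF.const 3).mul (uf_pmh hf))

lemma uf_pbn (hf : UF f) : UF (fun x e => pbn (f x e)) :=
  (((UF.const 1).add (((UF.const 2).mul hf).mul hf)).add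
    (((uf_pdl hf).add (UF.const 3)).mul hf)).add (UF.const 1)

end params

/-- The real numbers read off the word. -/
noncomputable def fieldR (sg : List ISym → ℕ → ℕ → ℕ) (nb db : List ISym → ℕ → ℕ → ℕ → ℕ)
    (f : ℕ) (x : List ISym) (t : ℕ) : ℝ :=
  ((if sg x f t = 1 then -1 else 1) * ∑ l ∈ range x.length, (nb x f t l : ℝ) * 2 ^ l) /
    ∑ l ∈ range x.length, (db x f t l : ℝ) * 2 ^ l

lemma rf_fieldR {sg : List ISym → ℕ → ℕ → ℕ} {nb db : List ISym → ℕ → ℕ → ℕ → ℕ} (f : ℕ)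
    (hsg : UF (fun x e => sg x (e 0) (e 1))) (hnb : UF (fun x e => nb x (e 0) (e 1) (e 2)))
    (hdb : UF (fun x e => db x (e 0) (e 1) (e 2))) :
    RF (fun x e _ => fieldR sg nb db f x (e 0)) := by
  have h2 : RF (Γ := ISym) (fun _ _ _ => (2 : ℝ)) :=
    (RF.nat (UF.const 2)).congr fun _ _ _ => by norm_num
  have hs : ∀ {g : List ISym → ℕ → ℕ → ℕ → ℕ}, UF (fun x e => g x (e 0) (e 1) (e 2)) →
      RF (fun x e _ => ∑ l ∈ range x.length, (g x f (e 0) l : ℝ) * 2 ^ l) := by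
    intro g hg
    refine RF.sum (f := fun x e _ l => (g x f (e 0) l : ℝ) * 2 ^ l) UF.len ?_
    exact (RF.nat (UF.comp₃ hg (UF.const f) (UF.var 1) (UF.var 0))).mul (RF.pow h2 (UF.var 0))
  refine RF.div (RF.mul (RF.ite (inst := fun _ _ => inferInstance)
    (UP.eq (UF.comp₂ hsg (UF.const f) (UF.var 0)) (UF.const 1)) RF.one.neg RF.one) (hs hnb)) (hs hdb)

/-- **Ultimate Positivity of non-critical recurrences is in `∀ℝ`.** -/
theorem inForallR_noncriticalM :
    InForallR {w : List ISym | ∃ I : Inst, w = I.enc ∧ I.UltimatelyPositive ∧ ¬ I.CriticalM} := by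
  obtain ⟨kk, sg, nb, db, hkk, hsg, hnb, hdb, hI⟩ := exists_parser
  have h2 : RF (Γ := ISym) (fun _ _ _ => (2 : ℝ)) :=
    (RF.nat (UF.const 2)).congr fun _ _ _ => by norm_num
  have hε : RF (Γ := ISym) (fun x _ _ => (2 : ℝ) / ((2 ^ pq x.length : ℕ) : ℝ)) :=
    (h2.div (h2.pow (uf_pq UF.len))).congr fun x e α => by push_cast; rfl
  have hδ : RF (Γ := ISym) (fun x _ _ => (1 : ℝ) / 2 ^ pdl x.length) :=
    RF.one.div (h2.pow (uf_pdl UF.len))
  have hcert := re_cert kk (fun x => pbm x.length) (fun x => pbn x.length)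
    (fieldR sg nb db 0) (fieldR sg nb db 1) _ _ hkk (uf_pbm UF.len) (uf_pbn UF.len)
    (rf_fieldR 0 hsg hnb hdb) (rf_fieldR 1 hsg hnb hdb) hε hδ
  refine RE.inForallR ((RE.up up_valid.not).or hcert) _ fun x => ?_
  have hkey : ∀ I : Inst, (¬ (I.UltimatelyPositive ∧ ¬ I.CriticalM)) ↔ ∃ (l c : ℕ → ℂ) (ex : ℕ → ℕ),
      RootData (kk I.enc) (fieldR sg nb db 0 I.enc) (fieldR sg nb db 1 I.enc) l c ex ∧
      CertN (kk I.enc) l c ex (pbm I.enc.length) (pbn I.enc.length)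
        (2 / ((2 ^ pq I.enc.length : ℕ) : ℝ)) (1 / 2 ^ pdl I.enc.length) := by
    intro I
    obtain ⟨e1, e2, e3, e4, e5, e6, e7⟩ := hI I
    rw [e1]
    apply I.cert_iff I.enc.length e2 (fun i => ⟨(e7 i).1.le, (e7 i).2.1.le⟩)
    · intro t ht
      rw [Inst.a, fieldR]
      push_cast
      have h3 := congrArg (fun z : ℤ => (z : ℝ)) (e3 ⟨t, ht⟩)
      have h4 := congrArg (fun z : ℤ => (z : ℝ)) (e4 ⟨t, ht⟩)
      simp only at h3 h4
      push_cast at h3 h4
      rw [h3, h4]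
    · intro t ht
      rw [Inst.u, fieldR]
      push_cast
      have h3 := congrArg (fun z : ℤ => (z : ℝ)) (e5 ⟨t, ht⟩)
      have h4 := congrArg (fun z : ℤ => (z : ℝ)) (e6 ⟨t, ht⟩)
      simp only at h3 h4
      push_cast at h3 h4
      rw [h3, h4]
  constructor
  · rintro ⟨I, rfl, h1, h2⟩ ⟨α, h3 | h3⟩
    · exact h3 ⟨I, rfl⟩
    · exact (hkey I).mpr h3 ⟨h1, h2⟩
  · intro h
    have h1 : ∃ I : Inst, x = I.enc := by
      by_contra hcon
      exact h ⟨fun _ => 0, Or.inl hcon⟩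
    obtain ⟨I, rfl⟩ := h1
    have h2 : I.UltimatelyPositive ∧ ¬ I.CriticalM := by
      by_contra hcon
      exact h ⟨fun _ => 0, Or.inr ((hkey I).mp hcon)⟩
    exact ⟨I, rfl, h2.1, h2.2⟩

/-- **Ultimate Positivity of simple recurrences is in `∀ℝ`.** -/
theorem inForallR_simple :
    InForallR {w : List ISym | ∃ I : Inst, w = I.enc ∧ I.Simple ∧ I.UltimatelyPositive} := by
  obtain ⟨kk, sg, nb, db, hkk, hsg, hnb, hdb, hI⟩ := exists_parser
  have h2 : RF (Γ := ISym) (fun _ _ _ => (2 : ℝ)) :=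
    (RF.nat (UF.const 2)).congr fun _ _ _ => by norm_num
  have hε : RF (Γ := ISym) (fun x _ _ => (2 : ℝ) / ((2 ^ pq x.length : ℕ) : ℝ)) :=
    (h2.div (h2.pow (uf_pq UF.len))).congr fun x e α => by push_cast; rfl
  have hδ : RF (Γ := ISym) (fun x _ _ => (1 : ℝ) / 2 ^ pdl x.length) :=
    RF.one.div (h2.pow (uf_pdl UF.len))
  have hcert := re_cert kk (fun x => pbm x.length) (fun x => pbn x.length)
    (fieldR sg nb db 0) (fieldR sg nb db 1) _ _ hkk (uf_pbm UF.len) (uf_pbn UF.len)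
    (rf_fieldR 0 hsg hnb hdb) (rf_fieldR 1 hsg hnb hdb) hε hδ
  have hdbl := re_double kk (fieldR sg nb db 0) hkk (rf_fieldR 0 hsg hnb hdb)
  refine RE.inForallR (((RE.up up_valid.not).or hdbl).or hcert) _ fun x => ?_
  have hsimp : ∀ I : Inst, I.Simple ↔ ¬ DoubleRoot (kk I.enc) (fieldR sg nb db 0 I.enc) := by
    intro I
    obtain ⟨e1, e2, e3, e4, e5, e6, e7⟩ := hI I
    rw [e1]
    apply I.simple_iff
    intro t ht
    rw [Inst.a, fieldR]
    push_cast
    have h3 := congrArg (fun z : ℤ => (z : ℝ)) (e3 ⟨t, ht⟩)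
    have h4 := congrArg (fun z : ℤ => (z : ℝ)) (e4 ⟨t, ht⟩)
    simp only at h3 h4
    push_cast at h3 h4
    rw [h3, h4]
  have hkey : ∀ I : Inst, (¬ (I.UltimatelyPositive ∧ ¬ I.CriticalM)) ↔ ∃ (l c : ℕ → ℂ) (ex : ℕ → ℕ),
      RootData (kk I.enc) (fieldR sg nb db 0 I.enc) (fieldR sg nb db 1 I.enc) l c ex ∧
      CertN (kk I.enc) l c ex (pbm I.enc.length) (pbn I.enc.length)
        (2 / ((2 ^ pq I.enc.length : ℕ) : ℝ)) (1 / 2 ^ pdl I.enc.length) := by
    intro I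
    obtain ⟨e1, e2, e3, e4, e5, e6, e7⟩ := hI I
    rw [e1]
    apply I.cert_iff I.enc.length e2 (fun i => ⟨(e7 i).1.le, (e7 i).2.1.le⟩)
    · intro t ht
      rw [Inst.a, fieldR]
      push_cast
      have h3 := congrArg (fun z : ℤ => (z : ℝ)) (e3 ⟨t, ht⟩)
      have h4 := congrArg (fun z : ℤ => (z : ℝ)) (e4 ⟨t, ht⟩)
      simp only at h3 h4
      push_cast at h3 h4
      rw [h3, h4]
    · intro t ht
      rw [Inst.u, fieldR]
      push_cast
      have h3 := congrArg (fun z : ℤ => (z : ℝ)) (e5 ⟨t, ht⟩)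
      have h4 := congrArg (fun z : ℤ => (z : ℝ)) (e6 ⟨t, ht⟩)
      simp only at h3 h4
      push_cast at h3 h4
      rw [h3, h4]
  constructor
  · rintro ⟨I, rfl, h1, h2⟩ ⟨α, (h3 | h3) | h3⟩
    · exact h3 ⟨I, rfl⟩
    · exact (hsimp I).mp h1 h3
    · exact (hkey I).mpr h3 ⟨h2, h1.not_criticalM⟩
  · intro h
    have h1 : ∃ I : Inst, x = I.enc := by
      by_contra hcon
      exact h ⟨fun _ => 0, Or.inl (Or.inl hcon)⟩
    obtain ⟨I, rfl⟩ := h1
    have h2 : I.UltimatelyPositive ∧ ¬ I.CriticalM := by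
      by_contra hcon
      exact h ⟨fun _ => 0, Or.inr ((hkey I).mp hcon)⟩
    have h3 : I.Simple := by
      by_contra hcon
      rw [hsimp I, not_not] at hcon
      exact h ⟨fun _ => 0, Or.inl (Or.inr hcon)⟩
    exact ⟨I, rfl, h3, h2.1⟩

end Pool.Agent.UltPos
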