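import Pool.Agent.DD7719.GBase

/-! Package G: soundness of the general certificate. -/

set_option autoImplicit false

namespace Pool.Agent.DD7719.M

open Complex Filter Topology

variable {k : ℕ}

/-- a common exponent for the torsion in a finitely generated group of complex numbers -/
lemma exists_torsion_exp (ν : Fin k → ℂ) (hν : ∀ i, ν i ≠ 0) :
    ∃ e : ℕ, 0 < e ∧ ∀ g : Fin k → ℤ, (∃ n : ℕ, 0 < n ∧ (∏ i, ν i ^ g i) ^ n = 1) →
      (∏ i, ν i ^ g i) ^ e = 1 := by
  classical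
  have hmul : ∀ g g' : Fin k → ℤ, ∏ i, ν i ^ (g i + g' i) = (∏ i, ν i ^ g i) * ∏ i, ν i ^ g' i := by
    intro g g'
    rw [← Finset.prod_mul_distrib]
    exact Finset.prod_congr rfl fun i _ => zpow_add₀ (hν i) _ _
  have hsm : ∀ (a : ℤ) (g : Fin k → ℤ), ∏ i, ν i ^ (a * g i) = (∏ i, ν i ^ g i) ^ a := by
    intro a g
    rw [← Finset.prod_zpow]
    exact Finset.prod_congr rfl fun i _ => by rw [mul_comm, zpow_mul]
  let Λ : Submodule ℤ (Fin k → ℤ) :=
    { carrier := {g | ∃ n : ℕ, 0 < n ∧ (∏ i, ν i ^ g i) ^ n = 1}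
      add_mem' := by
        rintro g g' ⟨n, hn, h⟩ ⟨n', hn', h'⟩
        refine ⟨n * n', by positivity, ?_⟩
        simp only [Pi.add_apply]
        rw [hmul, mul_pow, pow_mul, h, one_pow, mul_comm n n', pow_mul, h', one_pow, mul_one]
      zero_mem' := ⟨1, one_pos, by simp⟩
      smul_mem' := by
        rintro a g ⟨n, hn, h⟩
        refine ⟨n, hn, ?_⟩
        simp only [Pi.smul_apply, smul_eq_mul]
        rw [hsm, ← zpow_natCast, ← zpow_mul, mul_comm, zpow_mul, zpow_natCast, h, one_zpow] }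
  obtain ⟨S, hS⟩ := IsNoetherian.noetherian Λ
  have h1 : ∀ g : Fin k → ℤ, ∃ n : ℕ, 0 < n ∧ (g ∈ S → (∏ i, ν i ^ g i) ^ n = 1) := by
    intro g
    by_cases hg : g ∈ S
    · have h2 : g ∈ Λ := by
        rw [← hS]
        exact Submodule.subset_span hg
      obtain ⟨n, hn, h⟩ := h2
      exact ⟨n, hn, fun _ => h⟩
    · exact ⟨1, one_pos, fun h => absurd h hg⟩
  choose n hn hn1 using h1
  refine ⟨∏ g ∈ S, n g, Finset.prod_pos fun g _ => hn g, fun g hg => ?_⟩
  have h2 : g ∈ Submodule.span ℤ (S : Set (Fin k → ℤ)) := by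
    rw [hS]
    exact hg
  induction h2 using Submodule.span_induction with
  | mem x hx =>
    have h3 : n x ∣ ∏ g ∈ S, n g := Finset.dvd_prod_of_mem _ hx
    obtain ⟨c, hc⟩ := h3
    rw [hc, pow_mul, hn1 x hx, one_pow]
  | zero => simp
  | add x y hx hy ihx ihy =>
    have hx' : x ∈ Λ := hS ▸ hx
    have hy' : y ∈ Λ := hS ▸ hy
    simp only [Pi.add_apply]
    rw [hmul, mul_pow, ihx hx', ihy hy', mul_one]
  | smul a x hx ihx =>
    have hx' : x ∈ Λ := hS ▸ hx
    simp only [Pi.smul_apply, smul_eq_mul]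
    rw [hsm, ← zpow_natCast, ← zpow_mul, mul_comm, zpow_mul, zpow_natCast, ihx hx', one_zpow]

/-- points of the certified torus satisfy all torsion relations -/
lemma cert_torus_rel (l : Fin k → ℂ) (R M n0 : ℕ) (hR : 1 ≤ R) (hM : 1 ≤ M) (hrb : RelBound k l R)
    (A H : Fin k → Fin k → ℤ) (D : ℤ) (s : ℕ) (w : Fin k → Fin k → ℝ) (τ : Fin k → ℝ) (ε δ : ℝ)
    (hD : D ≠ 0)
    (hHA : ∀ l' i, ∑ t, H l' t * A i t = if l' = i then D else 0)
    (hA : ∀ l' t, |A l' t| ≤ M) (hH : ∀ l' t, |H l' t| ≤ M)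
    (hδ' : ∀ i, ‖nz (l i) ^ n0 - 1‖ ≤ δ)
    (hw : ∀ i : Fin k, (i : ℕ) < s → ∀ l', i ≤ l' → ∑ t, (H l' t : ℝ) * w i t =
      (if l' = i then (D : ℝ) else 0) - τ i * (∏ t, (nz (l t) ^ n0) ^ H l' t).im)
    (hwε : ∀ i : Fin k, (i : ℕ) < s → ∀ t, |w i t| ≤ ε)
    (hε : 4 * k * R * ε ≤ 1) (hδ : 8 * k ^ 3 * M ^ 2 * R * δ ≤ 1)
    (z : Fin k → ℂ) (hz : ∀ t, ‖z t‖ = 1) (g : Fin k → ℤ)
    (hg : ∃ n : ℕ, 0 < n ∧ (∏ i, nz (l i) ^ g i) ^ n = 1) :
    ∏ i, (∏ t : Fin k, (if (t : ℕ) < s then z t ^ A t i else 1)) ^ g i = 1 := by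
  have hrel : ∀ i : Fin k, (i : ℕ) < s → ∀ g : Fin k → ℤ, (∏ t, nz (l t) ^ g t) ^ 2 = 1 →
      ∑ t, A i t * g t = 0 := by
    intro i his
    apply hrb
    intro g hg hrel
    refine cert_rel R M hR hM (fun t => nz (l t) ^ n0) (fun t => ?_) A H D hD hHA hA hH w τ ε δ s
      hw hwε hδ' hε hδ g hg ?_ i his
    · rw [norm_pow, norm_nz, one_pow]
    · rw [prod_pow_zpow, ← pow_mul, mul_comm, pow_mul, hrel, one_pow]
  obtain ⟨n, hn, hg⟩ := hg
  have h1 : ∀ t : Fin k, (t : ℕ) < s → ∑ i, A t i * g i = 0 := by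
    intro t ht
    have h2 := hrel t ht (fun i => n * g i) (by
      have h3 : ∏ i, nz (l i) ^ ((n : ℤ) * g i) = (∏ i, nz (l i) ^ g i) ^ n := by
        rw [← Finset.prod_pow]
        apply Finset.prod_congr rfl
        intro i _
        rw [mul_comm, zpow_mul, zpow_natCast]
      rw [h3, hg, one_pow])
    have h4 : (n : ℤ) * ∑ i, A t i * g i = 0 := by
      rw [← h2, Finset.mul_sum]
      exact Finset.sum_congr rfl fun i _ => by ring
    rcases mul_eq_zero.mp h4 with h5 | h5
    · exact absurd h5 (by exact_mod_cast hn.ne')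
    · exact h5
  have h5 : ∏ i, (∏ t : Fin k, (if (t : ℕ) < s then z t ^ A t i else 1)) ^ g i =
      ∏ t : Fin k, ∏ i, (if (t : ℕ) < s then z t ^ (A t i * g i) else 1) := by
    rw [Finset.prod_comm]
    apply Finset.prod_congr rfl
    intro i _
    rw [← Finset.prod_zpow]
    apply Finset.prod_congr rfl
    intro t _
    split_ifs
    · rw [zpow_mul]
    · exact one_zpow _
  rw [h5]
  apply Finset.prod_eq_one
  intro t _
  by_cases ht : (t : ℕ) < s
  · simp only [ht, if_true]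
    have hzt : z t ≠ 0 := by
      intro h0
      have := hz t
      rw [h0, norm_zero] at this
      exact zero_ne_one this
    have h6 : ∏ i, z t ^ (A t i * g i) = z t ^ (∑ i, A t i * g i) :=
      prod_zpow_sum _ _ hzt _
    rw [h6, h1 t ht, zpow_zero]
  · simp [ht]

open scoped Classical in
theorem certF_sound (l c : Fin k → ℂ) (ex : Fin k → ℕ) (R M Nb : ℕ) (ε δ : ℝ) (hk : 0 < k)
    (hex : ∀ i, ex i < k) (hdc : ∀ i, ∀ e, e < ex i → ∃ i', l i' = l i ∧ ex i' = e)
    (hR : 1 ≤ R) (hM : 1 ≤ M)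
    (hrb : RelBound k l R) (hε : 4 * k * R * ε ≤ 1) (hδ : 8 * k ^ 3 * M ^ 2 * R * δ ≤ 1)
    (v : ℕ → ℝ)
    (hv : ∀ n, ∑ i, c i * (n.choose (ex i) : ℂ) * l i ^ (n - ex i) = (v n : ℂ))
    (hc : CertF k l c ex M Nb ε δ) : ¬ ((∃ N, ∀ n, N ≤ n → 0 < v n) ∧ ¬ Critical v) := by
  obtain ⟨n0, j, A, H, D, s, w, τ, z, z', ρ, d, hn0, _, hj, _, hs, hD, hDM, hHA, hA, hH, hδ', hw,
    hwε, hz, hz', hρ, hd, hvan, hlast⟩ := hc
  have hvan' : ∀ m, ∑ i, (if Above ρ d (l i) (ex i) then c i * ((j + n0 * m).choose (ex i) : ℂ) *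
      l i ^ (j + n0 * m - ex i) else 0) = 0 :=
    vanish_gen l c ex hdc (fun i => Above ρ d (l i) (ex i)) j n0 hvan
  rcases hρ.eq_or_lt with h0 | hρpos
  · rintro ⟨⟨N, hN⟩, _⟩
    have h1 := hN (j + n0 * N) (by nlinarith)
    have h2 : ∑ i, c i * ((j + n0 * N).choose (ex i) : ℂ) * l i ^ (j + n0 * N - ex i) =
        ∑ i, (if Above ρ d (l i) (ex i) then c i * ((j + n0 * N).choose (ex i) : ℂ) *
          l i ^ (j + n0 * N - ex i) else 0) := by
      apply Finset.sum_congr rfl
      intro i _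
      split_ifs with h
      · rfl
      · have h3 : l i = 0 := by
          by_contra h4
          apply h
          left
          rw [← h0]
          exact norm_pos_iff.mpr h4
        rw [h3, zero_pow, mul_zero]
        have := hex i
        omega
    rw [hv, hvan' N] at h2
    have h3 : v (j + n0 * N) = 0 := by exact_mod_cast h2
    linarith
  have hlast' := hlast.resolve_left hρpos.ne'
  obtain ⟨r, hr, hvr⟩ := asym l c ex hex j n0 d ρ hj hn0 hρpos hd v hv _ (fun i => Iff.rfl) hvan'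
  set Fs : (Fin k → ℂ) → ℂ := fun W => ∑ i, (if ‖l i‖ = ρ ∧ ex i = d then
    c i * l i ^ (j - d) * W i else 0) with hFs
  set S : ℝ := ∑ i, ‖c i * l i ^ (j - d)‖ with hS
  have hS0 : 0 ≤ S := Finset.sum_nonneg fun i _ => norm_nonneg _
  have hclose : ∀ (W W' : Fin k → ℂ) (η : ℝ), (∀ i, ‖W i - W' i‖ ≤ η) → ‖Fs W - Fs W'‖ ≤ S * η := by
    intro W W' η h
    have hη : 0 ≤ η := (norm_nonneg _).trans (h ⟨0, hk⟩)
    simp only [hFs]
    rw [← Finset.sum_sub_distrib]
    refine (norm_sum_le _ _).trans ?_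
    rw [hS, Finset.sum_mul]
    apply Finset.sum_le_sum
    intro i _
    split_ifs
    · rw [← mul_sub, norm_mul]
      exact mul_le_mul_of_nonneg_left (h i) (norm_nonneg _)
    · rw [sub_zero, norm_zero]
      positivity
  have hvre : ∀ m, v (j + n0 * m) = ρ ^ (n0 * m) * ((j + n0 * m).choose d : ℝ) *
      (Fs (fun i => nz (l i) ^ (n0 * m)) + r m).re := by
    intro m
    have h1 := congrArg Complex.re (hvr m)
    rw [ofReal_re] at h1
    rw [h1]
    have h2 : (ρ : ℂ) ^ (n0 * m) * ((j + n0 * m).choose d : ℂ) =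
        ((ρ ^ (n0 * m) * ((j + n0 * m).choose d : ℝ) : ℝ) : ℂ) := by
      push_cast
      rfl
    rw [h2, re_ofReal_mul]
  have hpos : ∀ m, 0 < ρ ^ (n0 * m) * ((j + n0 * m).choose d : ℝ) := by
    intro m
    have : 0 < (j + n0 * m).choose d := Nat.choose_pos (by omega)
    positivity
  have hlim : ∀ (z : Fin k → ℂ), (∀ t, ‖z t‖ = 1) → ∀ (E : ℕ), 0 < E → ∀ (N : ℕ) (η : ℝ), 0 < η →
      ∃ n, N ≤ n ∧ ∀ i, ‖nz (l i) ^ (E * n) -
        ∏ t : Fin k, (if (t : ℕ) < s then z t ^ A t i else 1)‖ < η := by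
    intro z hz E hE N η hη
    exact cert_limit l R M n0 hR hM hrb A H D s w τ ε δ hn0 hD hHA hA hH hδ' hw
      hwε hε hδ z hz E hE N η hη
  set W : Fin k → ℂ := fun i => ∏ t : Fin k, (if (t : ℕ) < s then z t ^ A t i else 1) with hW
  set W' : Fin k → ℂ := fun i => ∏ t : Fin k, (if (t : ℕ) < s then z' t ^ A t i else 1) with hW'
  have hrsmall : ∀ κ : ℝ, 0 < κ → ∃ N, ∀ m, N ≤ m → ‖r m‖ < κ := by
    intro κ hκ
    have h1 := hr.norm
    rw [norm_zero] at h1
    have h2 := h1.eventually_lt_const hκ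
    rwa [eventually_atTop] at h2
  -- general upper estimate near `W`
  have hup : ∀ κ : ℝ, 0 < κ → ∀ E : ℕ, 0 < E → ∀ N, ∃ n, N ≤ n ∧
      (Fs (fun i => nz (l i) ^ (n0 * (E * n))) + r (E * n)).re ≤ (Fs W).re + κ := by
    intro κ hκ E hE N
    obtain ⟨N1, hN1⟩ := hrsmall (κ / 2) (by positivity)
    obtain ⟨n, hn, hcl⟩ := hlim z hz (n0 * E) (by positivity) (N + N1) (κ / (2 * (S + 1)))
      (by positivity)
    refine ⟨n, by omega, ?_⟩
    have h1 := hclose (fun i => nz (l i) ^ (n0 * (E * n))) W (κ / (2 * (S + 1))) (fun i => by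
      rw [← mul_assoc]
      exact (hcl i).le)
    have h2 : S * (κ / (2 * (S + 1))) ≤ κ / 2 := by
      have : S * (κ / (2 * (S + 1))) = (S / (S + 1)) * (κ / 2) := by field_simp
      rw [this]
      have h8 : S / (S + 1) ≤ 1 := by
        rw [div_le_one (by linarith)]
        linarith
      nlinarith
    have h3 := (abs_le.mp ((abs_re_le_norm _).trans (h1.trans h2))).2
    rw [sub_re] at h3
    have h4 := (re_le_norm _).trans (hN1 (E * n) (by nlinarith)).le
    rw [add_re]
    linarith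
  rintro ⟨⟨N, hN⟩, hncrit⟩
  rcases hlast' with hneg | ⟨hd0, hle, hne⟩
  · obtain ⟨n, hn, h1⟩ := hup (-(Fs W).re / 2) (by
      have : (Fs W).re < 0 := hneg
      linarith) 1 one_pos N
    rw [one_mul] at h1
    have h2 := hN (j + n0 * n) (by nlinarith)
    rw [hvre n] at h2
    have h3 : (Fs W).re < 0 := hneg
    have h4 : (Fs (fun i => nz (l i) ^ (n0 * n)) + r n).re < 0 := by linarith
    have := mul_neg_of_pos_of_neg (hpos n) h4
    linarith
  · apply hncrit
    obtain ⟨e, he0, he⟩ := exists_torsion_exp (fun i => nz (l i)) (fun i => by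
      rw [← norm_pos_iff, norm_nz]
      exact one_pos)
    have hle' : (Fs W).re ≤ 0 := hle
    have hne' : (Fs W').re ≠ 0 := hne
    have hidx : ∀ m, n0 * e * m + j = j + n0 * (e * m) := fun m => by ring
    refine ⟨n0 * e, j, d, ρ ^ (n0 * e), by positivity, hd0, by positivity, ?_, ?_, ?_⟩
    · -- upper bound
      obtain ⟨Rm, hRm⟩ : ∃ Rm : ℝ, ∀ m, ‖r m‖ ≤ Rm := by
        obtain ⟨Rm, hRm⟩ := hr.norm.bddAbove_range
        exact ⟨Rm, fun m => hRm ⟨m, rfl⟩⟩
      refine ⟨((j + n0 : ℕ) : ℝ) ^ d * (e : ℝ) ^ d * (S + Rm), fun m hm => ?_⟩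
      rw [hidx, hvre, abs_mul, abs_of_pos (hpos _)]
      have h1 : |(Fs (fun i => nz (l i) ^ (n0 * (e * m))) + r (e * m)).re| ≤ S + Rm := by
        refine (abs_re_le_norm _).trans ((norm_add_le _ _).trans (add_le_add ?_ (hRm _)))
        have h2 := hclose (fun i => nz (l i) ^ (n0 * (e * m))) (fun _ => 0) 1 (fun i => by
          rw [sub_zero, norm_pow, norm_nz, one_pow])
        have h3 : Fs (fun _ => 0) = 0 := by simp [hFs]
        rw [h3, sub_zero, mul_one] at h2
        exact h2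
      have h2 := choose_upper j n0 d (e * m) (by positivity)
      have h3 : (0 : ℝ) ≤ S + Rm := (abs_nonneg _).trans h1
      calc ρ ^ (n0 * (e * m)) * ((j + n0 * (e * m)).choose d : ℝ) *
            |(Fs (fun i => nz (l i) ^ (n0 * (e * m))) + r (e * m)).re|
          ≤ ρ ^ (n0 * (e * m)) * (((j + n0 : ℕ) : ℝ) ^ d * ((e * m : ℕ) : ℝ) ^ d) * (S + Rm) := by
            gcongr
        _ = ((j + n0 : ℕ) : ℝ) ^ d * (e : ℝ) ^ d * (S + Rm) *
            ((ρ ^ (n0 * e)) ^ m * (m : ℝ) ^ d) := by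
            rw [← pow_mul, ← mul_assoc n0 e m]
            push_cast
            ring
    · -- not negligible
      intro N' J' hN' htend
      set a := |(Fs W').re| with ha
      have ha0 : 0 < a := abs_pos.mpr hne'
      have hfac : (0 : ℝ) < d.factorial := by exact_mod_cast d.factorial_pos
      have h1 := htend.norm
      rw [norm_zero] at h1
      have h2 := h1.eventually_lt_const (show (0 : ℝ) < a / (2 * d.factorial) by positivity)
      rw [eventually_atTop] at h2
      obtain ⟨N1, hN1⟩ := h2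
      obtain ⟨N2, hN2⟩ := hrsmall (a / 4) (by positivity)
      -- the point to be approximated
      have hnzn : ∀ i, ‖nz (l i) ^ (n0 * e * J')‖ = 1 := fun i => by
        rw [norm_pow, norm_nz, one_pow]
      have hW'n : ∀ i, ‖W' i‖ = 1 := by
        intro i
        simp only [hW']
        rw [norm_prod]
        apply Finset.prod_eq_one
        intro t _
        split_ifs
        · rw [norm_zpow, hz', one_zpow]
        · exact norm_one
      obtain ⟨n, hn, hcl⟩ := kronecker (fun i => nz (l i))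
        (fun i => W' i * (nz (l i) ^ (n0 * e * J'))⁻¹) (fun i => norm_nz _)
        (fun i => by rw [norm_mul, norm_inv, hnzn, hW'n, inv_one, mul_one])
        (fun g hg => by
          have e1 : ∏ i, (W' i * (nz (l i) ^ (n0 * e * J'))⁻¹) ^ g i =
              (∏ i, W' i ^ g i) * ((∏ i, nz (l i) ^ g i) ^ (n0 * e * J'))⁻¹ := by
            rw [← Finset.prod_pow, ← Finset.prod_inv_distrib, ← Finset.prod_mul_distrib]
            apply Finset.prod_congr rfl
            intro i _
            rw [mul_zpow, inv_zpow, ← zpow_natCast, ← zpow_natCast, ← zpow_mul, ← zpow_mul,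
              mul_comm (g i)]
          rw [e1, cert_torus_rel l R M n0 hR hM hrb A H D s w τ ε δ hD hHA hA hH hδ' hw
            hwε hε hδ z' hz' g hg, one_mul, mul_comm n0 e, mul_assoc, pow_mul, he g hg, one_pow,
            inv_one])
        (n0 * e * N') (by positivity) (N1 + N2 + 1) (a / (4 * (S + 1))) (by positivity)
      set m := N' * n + J' with hm
      have hnm : n ≤ m := by
        rw [hm]
        nlinarith
      have hmpos : 0 < m := by omega
      have hcl' : ∀ i, ‖nz (l i) ^ (n0 * (e * m)) - W' i‖ ≤ a / (4 * (S + 1)) := by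
        intro i
        have e1 : nz (l i) ^ (n0 * (e * m)) - W' i = nz (l i) ^ (n0 * e * J') *
            (nz (l i) ^ (n0 * e * N' * n) - W' i * (nz (l i) ^ (n0 * e * J'))⁻¹) := by
          have h5 : nz (l i) ^ (n0 * e * J') ≠ 0 := by
            rw [← norm_pos_iff, hnzn]
            exact one_pos
          have h6 : n0 * (e * m) = n0 * e * J' + n0 * e * N' * n := by
            rw [hm]
            ring
          rw [mul_sub, ← pow_add, ← h6, mul_left_comm (nz (l i) ^ (n0 * e * J')),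
            mul_inv_cancel₀ h5, mul_one]
        rw [e1, norm_mul, hnzn, one_mul]
        exact (hcl i).le
      have h3 := hclose _ W' _ hcl'
      have h4 : S * (a / (4 * (S + 1))) ≤ a / 4 := by
        have : S * (a / (4 * (S + 1))) = (S / (S + 1)) * (a / 4) := by field_simp
        rw [this]
        have h8 : S / (S + 1) ≤ 1 := by
          rw [div_le_one (by linarith)]
          linarith
        nlinarith
      have h5 := (abs_re_le_norm _).trans (h3.trans h4)
      have h6 : ‖r (e * m)‖ < a / 4 := hN2 (e * m) (by nlinarith)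
      have h7 : a / 2 ≤ |(Fs (fun i => nz (l i) ^ (n0 * (e * m))) + r (e * m)).re| := by
        rw [sub_re] at h5
        have h8 := (abs_re_le_norm (r (e * m))).trans h6.le
        rw [add_re]
        have h9 : a ≤ |(Fs (fun i => nz (l i) ^ (n0 * (e * m)))).re + (r (e * m)).re| +
            |(r (e * m)).re| + |(Fs (fun i => nz (l i) ^ (n0 * (e * m)))).re - (Fs W').re| := by
          rw [ha]
          set X := (Fs (fun i => nz (l i) ^ (n0 * (e * m)))).re
          set Y := (r (e * m)).re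
          have : (Fs W').re = (X + Y) - Y - (X - (Fs W').re) := by ring
          calc |(Fs W').re| = |(X + Y) - Y - (X - (Fs W').re)| := by rw [← this]
            _ ≤ |(X + Y) - Y| + |X - (Fs W').re| := abs_sub _ _
            _ ≤ |X + Y| + |Y| + |X - (Fs W').re| := by
                have := abs_sub (X + Y) Y
                linarith
        linarith
      have h8 := hN1 n (by omega)
      rw [hidx, hvre, ← hm, Real.norm_eq_abs, abs_div, abs_mul, abs_of_pos (hpos _)] at h8
      have h9 : (0 : ℝ) < (ρ ^ (n0 * e)) ^ m * (m : ℝ) ^ d := by positivity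
      rw [abs_of_pos h9, div_lt_iff₀ h9] at h8
      have h10 := choose_lower j n0 d (e * m) (by omega) hn0
      have h11 : (m : ℝ) ^ d ≤ ((e * m : ℕ) : ℝ) ^ d := by
        apply pow_le_pow_left₀ (Nat.cast_nonneg _)
        exact_mod_cast Nat.le_mul_of_pos_left m he0
      have h12 : ρ ^ (n0 * (e * m)) = (ρ ^ (n0 * e)) ^ m := by
        rw [← pow_mul, mul_assoc]
      rw [h12] at h8
      have h13 : (0 : ℝ) < (ρ ^ (n0 * e)) ^ m := by positivity
      have h14 : a / (2 * d.factorial) * ((ρ ^ (n0 * e)) ^ m * (m : ℝ) ^ d) ≤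
          (ρ ^ (n0 * e)) ^ m * ((j + n0 * (e * m)).choose d : ℝ) * (a / 2) := by
        have h15 : (m : ℝ) ^ d / d.factorial ≤ ((j + n0 * (e * m)).choose d : ℝ) := by
          rw [div_le_iff₀ hfac, mul_comm]
          exact h11.trans h10
        calc a / (2 * d.factorial) * ((ρ ^ (n0 * e)) ^ m * (m : ℝ) ^ d)
            = (ρ ^ (n0 * e)) ^ m * ((m : ℝ) ^ d / d.factorial) * (a / 2) := by field_simp
          _ ≤ _ := by gcongr
      have h16 : (ρ ^ (n0 * e)) ^ m * ((j + n0 * (e * m)).choose d : ℝ) * (a / 2) ≤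
          (ρ ^ (n0 * e)) ^ m * ((j + n0 * (e * m)).choose d : ℝ) *
            |(Fs (fun i => nz (l i) ^ (n0 * (e * m))) + r (e * m)).re| := by
        gcongr
      linarith
    · -- not bounded below
      rintro ⟨b, hb, hev⟩
      rw [eventually_atTop] at hev
      obtain ⟨N1, hN1⟩ := hev
      set B : ℝ := ((j + n0 : ℕ) : ℝ) ^ d * (e : ℝ) ^ d with hB
      have hB0 : 0 < B := by
        have h1 : 0 < j + n0 := by omega
        positivity
      obtain ⟨m, hm, hmle⟩ := hup (b / (2 * B)) (by positivity) e he0 (N1 + 1)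
      have h1 := hN1 m (by omega)
      rw [hidx, hvre] at h1
      have h2 : (Fs (fun i => nz (l i) ^ (n0 * (e * m))) + r (e * m)).re ≤ b / (2 * B) := by linarith
      have h3 := choose_upper j n0 d (e * m) (by
        have : 0 < m := by omega
        positivity)
      have h4 : (0 : ℝ) < (ρ ^ (n0 * e)) ^ m * (m : ℝ) ^ d := by
        have : 0 < m := by omega
        positivity
      have h5 : ρ ^ (n0 * (e * m)) * ((j + n0 * (e * m)).choose d : ℝ) *
          (Fs (fun i => nz (l i) ^ (n0 * (e * m))) + r (e * m)).re ≤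
          ρ ^ (n0 * (e * m)) * (((j + n0 : ℕ) : ℝ) ^ d * ((e * m : ℕ) : ℝ) ^ d) * (b / (2 * B)) := by
        calc _ ≤ ρ ^ (n0 * (e * m)) * ((j + n0 * (e * m)).choose d : ℝ) * (b / (2 * B)) :=
              mul_le_mul_of_nonneg_left h2 (hpos _).le
          _ ≤ _ := by gcongr
      have h6 : ρ ^ (n0 * (e * m)) * (((j + n0 : ℕ) : ℝ) ^ d * ((e * m : ℕ) : ℝ) ^ d) * (b / (2 * B)) =
          b / 2 * ((ρ ^ (n0 * e)) ^ m * (m : ℝ) ^ d) := by
        rw [← pow_mul, ← mul_assoc n0 e m]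
        push_cast
        rw [mul_pow, ← mul_assoc (((j : ℝ) + n0) ^ d)]
        have hB' : ((j : ℝ) + n0) ^ d * (e : ℝ) ^ d = B := by
          rw [hB]
          push_cast
          rfl
        rw [hB']
        field_simp
      have h7 := h1.trans (h5.trans_eq h6)
      have h8 : 0 < b * ((ρ ^ (n0 * e)) ^ m * (m : ℝ) ^ d) := mul_pos hb h4
      have h9 : b / 2 * ((ρ ^ (n0 * e)) ^ m * (m : ℝ) ^ d) =
        (b * ((ρ ^ (n0 * e)) ^ m * (m : ℝ) ^ d)) / 2 := by ring
      rw [h9] at h7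
      linarith

end Pool.Agent.DD7719.M
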