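import Pool.Agent.DD7719.TDef
import Pool.Agent.DD7719.GSound

/-! Base data of sequences of exact exponential order. -/

set_option autoImplicit false

namespace Pool.Agent.DD7719.M

open Complex Filter Topology

variable {k : ℕ}

/-- eventually between two positive multiples of `ρ^m` along each residue class of a modulus -/
def Tm (v : ℕ → ℝ) : Prop := ∃ N : ℕ, 0 < N ∧ ∀ J : ℕ, J < N → ∃ ρ b B : ℝ, 0 < ρ ∧ 0 < b ∧
  ∀ᶠ m : ℕ in atTop, b * ρ ^ m ≤ v (N * m + J) ∧ v (N * m + J) ≤ B * ρ ^ m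

open scoped Classical in
theorem tame_sound (l c : Fin k → ℂ) (ex : Fin k → ℕ) (R M Nb : ℕ) (ε δ : ℝ) (hk : 0 < k)
    (hex : ∀ i, ex i < k) (hdc : ∀ i, ∀ e, e < ex i → ∃ i', l i' = l i ∧ ex i' = e)
    (hR : 1 ≤ R) (hM : 1 ≤ M)
    (hrb : RelBound k l R) (hε : 4 * k * R * ε ≤ 1) (hδ : 8 * k ^ 3 * M ^ 2 * R * δ ≤ 1)
    (v : ℕ → ℝ)
    (hv : ∀ n, ∑ i, c i * (n.choose (ex i) : ℂ) * l i ^ (n - ex i) = (v n : ℂ))
    (n0 j : ℕ) (A H : Fin k → Fin k → ℤ) (D : ℤ) (s : ℕ) (w : Fin k → Fin k → ℝ)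
    (τ : Fin k → ℝ) (ρ : ℝ) (d : ℕ)
    (hbase : BaseF k l c ex M Nb ε δ n0 j A H D s w τ ρ d) (hρpos : 0 < ρ) (z' : Fin k → ℂ)
    (hz' : ∀ t, ‖z' t‖ = 1) (hne : (LevF l c ex A s j d ρ z').re ≠ 0)
    (N : ℕ) (hN : 0 < N) (ρJ b B : ℝ) (hρJ : 0 < ρJ) (hb : 0 < b)
    (hev : ∀ᶠ m : ℕ in atTop, b * ρJ ^ m ≤ v (N * m + j % N) ∧ v (N * m + j % N) ≤ B * ρJ ^ m) :
    d = 0 ∧ ∀ z : Fin k → ℂ, (∀ t, ‖z t‖ = 1) → b * ρJ ^ (j / N) ≤ (LevF l c ex A s j d ρ z).re := by
  obtain ⟨hn0, _, hj, _, hs, hD, hDM, hHA, hA, hH, hδ', hw, hwε, hρ, hd, hvan⟩ := hbase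
  have hvan' : ∀ m, ∑ i, (if Above ρ d (l i) (ex i) then c i * ((j + n0 * m).choose (ex i) : ℂ) *
      l i ^ (j + n0 * m - ex i) else 0) = 0 :=
    vanish_gen l c ex hdc (fun i => Above ρ d (l i) (ex i)) j n0 hvan
  obtain ⟨r, hr, hvr⟩ := asym l c ex hex j n0 d ρ hj hn0 hρpos hd v hv _ (fun i => Iff.rfl) hvan'
  set Fs : (Fin k → ℂ) → ℂ := fun W => ∑ i, (if ‖l i‖ = ρ ∧ ex i = d then
    c i * l i ^ (j - d) * W i else 0) with hFs
  set S : ℝ := ∑ i, ‖c i * l i ^ (j - d)‖ with hS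
  have hS0 : 0 ≤ S := Finset.sum_nonneg fun i _ => norm_nonneg _
  have hclose : ∀ (W W' : Fin k → ℂ) (η : ℝ), (∀ i, ‖W i - W' i‖ ≤ η) → ‖Fs W - Fs W'‖ ≤ S * η := by
    intro W W' η h
    have hη : 0 ≤ η := (norm_nonneg _).trans (h ⟨0, hk⟩)
    simp only [hFs]
    rw [← Finset.sum_sub_distrib]
    refine (norm_sum_le _ _).trans ?_
    rw [hS, Finset.sum_mul]
    apply Finset.sum_le_sum
    intro i _
    split_ifs
    · rw [← mul_sub, norm_mul]
      exact mul_le_mul_of_nonneg_left (h i) (norm_nonneg _)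
    · rw [sub_zero, norm_zero]
      positivity
  have hvre : ∀ m, v (j + n0 * m) = ρ ^ (n0 * m) * ((j + n0 * m).choose d : ℝ) *
      (Fs (fun i => nz (l i) ^ (n0 * m)) + r m).re := by
    intro m
    have h1 := congrArg Complex.re (hvr m)
    rw [ofReal_re] at h1
    rw [h1]
    have h2 : (ρ : ℂ) ^ (n0 * m) * ((j + n0 * m).choose d : ℂ) =
        ((ρ ^ (n0 * m) * ((j + n0 * m).choose d : ℝ) : ℝ) : ℂ) := by
      push_cast
      rfl
    rw [h2, re_ofReal_mul]
  -- limit points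
  have hrsmall : ∀ κ : ℝ, 0 < κ → ∃ N, ∀ m, N ≤ m → ‖r m‖ < κ := by
    intro κ hκ
    have h1 := hr.norm
    rw [norm_zero] at h1
    have h2 := h1.eventually_lt_const hκ
    rwa [eventually_atTop] at h2
  have hnear : ∀ z : Fin k → ℂ, (∀ t, ‖z t‖ = 1) → ∀ κ : ℝ, 0 < κ → ∀ N1, ∃ n, N1 ≤ n ∧
      |(Fs (fun i => nz (l i) ^ (n0 * (N * n))) + r (N * n)).re -
        (LevF l c ex A s j d ρ z).re| ≤ κ := by
    intro z hz κ hκ N1
    obtain ⟨N2, hN2⟩ := hrsmall (κ / 2) (by positivity)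
    obtain ⟨n, hn, hcl⟩ := cert_limit l R M n0 hR hM hrb A H D s w τ ε δ hn0 hD hHA hA hH hδ' hw
      hwε hε hδ z hz (n0 * N) (by positivity) (N1 + N2) (κ / (2 * (S + 1))) (by positivity)
    refine ⟨n, by omega, ?_⟩
    have h1 := hclose (fun i => nz (l i) ^ (n0 * (N * n)))
      (fun i => ∏ t : Fin k, (if (t : ℕ) < s then z t ^ A t i else 1)) (κ / (2 * (S + 1)))
      (fun i => by
        rw [← mul_assoc]
        exact (hcl i).le)
    have h2 : S * (κ / (2 * (S + 1))) ≤ κ / 2 := by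
      have : S * (κ / (2 * (S + 1))) = (S / (S + 1)) * (κ / 2) := by field_simp
      rw [this]
      have h8 : S / (S + 1) ≤ 1 := by
        rw [div_le_one (by linarith)]
        linarith
      nlinarith
    have h3 := (abs_re_le_norm _).trans (h1.trans h2)
    have h4 := (abs_re_le_norm _).trans (hN2 (N * n) (by nlinarith)).le
    have h5 : Fs (fun i => ∏ t : Fin k, (if (t : ℕ) < s then z t ^ A t i else 1)) =
        LevF l c ex A s j d ρ z := rfl
    rw [sub_re, h5] at h3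
    have h6 : (Fs (fun i => nz (l i) ^ (n0 * (N * n))) + r (N * n)).re -
        (LevF l c ex A s j d ρ z).re =
        ((Fs (fun i => nz (l i) ^ (n0 * (N * n)))).re - (LevF l c ex A s j d ρ z).re) +
          (r (N * n)).re := by
      rw [add_re]
      ring
    rw [h6]
    refine (abs_add_le _ _).trans ?_
    linarith
  -- the two-sided bound along `j + n0 N n`
  have hidx : ∀ n, j + n0 * (N * n) = N * (j / N + n0 * n) + j % N := by
    intro n
    have := Nat.div_add_mod j N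
    calc j + n0 * (N * n) = (N * (j / N) + j % N) + n0 * (N * n) := by rw [this]
      _ = _ := by ring
  set q : ℝ := ρJ / ρ ^ N with hq
  have hρN : 0 < ρ ^ N := by positivity
  have hq0 : 0 < q := by positivity
  have hρJq : ρJ = q * ρ ^ N := by
    rw [hq]
    field_simp
  rw [eventually_atTop] at hev
  obtain ⟨N0, hN0⟩ := hev
  have hbd : ∀ n, N0 ≤ n → b * ρJ ^ (j / N) * (q ^ n0) ^ n ≤ ((j + n0 * (N * n)).choose d : ℝ) *
      (Fs (fun i => nz (l i) ^ (n0 * (N * n))) + r (N * n)).re ∧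
      ((j + n0 * (N * n)).choose d : ℝ) *
      (Fs (fun i => nz (l i) ^ (n0 * (N * n))) + r (N * n)).re ≤ B * ρJ ^ (j / N) * (q ^ n0) ^ n := by
    intro n hn
    have h1 := hN0 (j / N + n0 * n)
      (hn.trans ((Nat.le_mul_of_pos_left n hn0).trans (Nat.le_add_left _ _)))
    rw [← hidx, hvre] at h1
    have h2 : ρJ ^ (j / N + n0 * n) = ρJ ^ (j / N) * (q ^ n0) ^ n * ρ ^ (n0 * (N * n)) := by
      have e1 : ρJ ^ (n0 * n) = (q ^ n0) ^ n * ρ ^ (n0 * (N * n)) := by
        calc ρJ ^ (n0 * n) = (q * ρ ^ N) ^ (n0 * n) := by rw [← hρJq]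
          _ = q ^ (n0 * n) * ρ ^ (N * (n0 * n)) := by rw [mul_pow, ← pow_mul]
          _ = _ := by
              rw [← pow_mul]
              congr 2
              ring
      rw [pow_add, e1, mul_assoc]
    have h3 : (0 : ℝ) < ρ ^ (n0 * (N * n)) := by positivity
    rw [h2] at h1
    constructor
    · have h4 := h1.1
      have h5 : b * ρJ ^ (j / N) * (q ^ n0) ^ n * ρ ^ (n0 * (N * n)) ≤
          ((j + n0 * (N * n)).choose d : ℝ) *
          (Fs (fun i => nz (l i) ^ (n0 * (N * n))) + r (N * n)).re * ρ ^ (n0 * (N * n)) := by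
        linarith
      exact le_of_mul_le_mul_right h5 h3
    · have h4 := h1.2
      have h5 : ((j + n0 * (N * n)).choose d : ℝ) *
          (Fs (fun i => nz (l i) ^ (n0 * (N * n))) + r (N * n)).re * ρ ^ (n0 * (N * n)) ≤
          B * ρJ ^ (j / N) * (q ^ n0) ^ n * ρ ^ (n0 * (N * n)) := by
        linarith
      exact le_of_mul_le_mul_right h5 h3
  set b' : ℝ := b * ρJ ^ (j / N) with hb'
  have hb'0 : 0 < b' := by positivity
  set B' : ℝ := B * ρJ ^ (j / N) with hB'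
  -- q ≤ 1
  have hq1 : q ≤ 1 := by
    by_contra hcon
    push Not at hcon
    obtain ⟨Rm, hRm⟩ : ∃ Rm : ℝ, ∀ m, ‖r m‖ ≤ Rm := by
      obtain ⟨Rm, hRm⟩ := hr.norm.bddAbove_range
      exact ⟨Rm, fun m => hRm ⟨m, rfl⟩⟩
    have hS1 : ∀ m, (Fs (fun i => nz (l i) ^ (n0 * m)) + r m).re ≤ S + Rm := by
      intro m
      refine (re_le_norm _).trans ((norm_add_le _ _).trans (add_le_add ?_ (hRm _)))
      have h2 := hclose (fun i => nz (l i) ^ (n0 * m)) (fun _ => 0) 1 (fun i => by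
        rw [sub_zero, norm_pow, norm_nz, one_pow])
      have h3 : Fs (fun _ => 0) = 0 := by simp [hFs]
      rw [h3, sub_zero, mul_one] at h2
      exact h2
    have hSR : 0 ≤ S + Rm := by
      have := (norm_nonneg _).trans (hRm 0)
      linarith
    have hqn : 1 < q ^ n0 := one_lt_pow₀ hcon hn0.ne'
    have htend := tendsto_pow_const_mul_const_pow_of_lt_one d (r := (q ^ n0)⁻¹) (by positivity)
      (inv_lt_one_of_one_lt₀ hqn)
    set Cc : ℝ := ((j + n0 * N : ℕ) : ℝ) ^ d * (S + Rm) with hCc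
    have hCc0 : 0 ≤ Cc := by positivity
    have h1 := (htend.const_mul Cc).eventually_lt_const (show Cc * 0 < b' by simpa using hb'0)
    rw [eventually_atTop] at h1
    obtain ⟨N3, hN3⟩ := h1
    have h2 := hN3 (N0 + N3 + 1) (by omega)
    have h3 := (hbd (N0 + N3 + 1) (by omega)).1
    set n := N0 + N3 + 1 with hn
    have h4 : ((j + n0 * (N * n)).choose d : ℝ) ≤ ((j + n0 * N : ℕ) : ℝ) ^ d * (n : ℝ) ^ d := by
      have := choose_upper j (n0 * N) d n (by omega)
      rwa [mul_assoc] at this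
    have h5 : ((j + n0 * (N * n)).choose d : ℝ) *
      (Fs (fun i => nz (l i) ^ (n0 * (N * n))) + r (N * n)).re ≤ Cc * (n : ℝ) ^ d := by
      calc _ ≤ ((j + n0 * (N * n)).choose d : ℝ) * (S + Rm) :=
            mul_le_mul_of_nonneg_left (hS1 _) (Nat.cast_nonneg _)
        _ ≤ ((j + n0 * N : ℕ) : ℝ) ^ d * (n : ℝ) ^ d * (S + Rm) :=
            mul_le_mul_of_nonneg_right h4 hSR
        _ = Cc * (n : ℝ) ^ d := by rw [hCc]; ring
    have h6 : 0 < (q ^ n0) ^ n := by positivity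
    rw [inv_pow, ← mul_assoc, ← div_eq_mul_inv, div_lt_iff₀ h6] at h2
    linarith
  -- q ≥ 1 and d = 0
  have ha0 : 0 < |(LevF l c ex A s j d ρ z').re| := abs_pos.mpr hne
  set a := |(LevF l c ex A s j d ρ z').re| with ha
  have hbig : ∀ N1, ∃ n, N1 ≤ n ∧ N0 ≤ n ∧
      a / 2 ≤ (Fs (fun i => nz (l i) ^ (n0 * (N * n))) + r (N * n)).re := by
    intro N1
    obtain ⟨n, hn, h1⟩ := hnear z' hz' (a / 2) (by positivity) (N0 + N1)
    refine ⟨n, by omega, by omega, ?_⟩
    have h2 := (hbd n (by omega)).1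
    have h3 : 0 < ((j + n0 * (N * n)).choose d : ℝ) := by
      exact_mod_cast Nat.choose_pos (by omega)
    have h4 : 0 < (Fs (fun i => nz (l i) ^ (n0 * (N * n))) + r (N * n)).re := by
      by_contra hcon
      push Not at hcon
      have h5 : 0 < b' * (q ^ n0) ^ n := by positivity
      nlinarith
    have h5 := abs_le.mp h1
    rcases abs_cases (LevF l c ex A s j d ρ z').re with ⟨h6, h7⟩ | ⟨h6, h7⟩
    · rw [ha] at h5 ⊢
      linarith [h5.1]
    · rw [ha] at h5 ⊢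
      linarith [h5.2]
  have hq2 : 1 ≤ q := by
    by_contra hcon
    push Not at hcon
    have hqn : q ^ n0 < 1 := pow_lt_one₀ hq0.le hcon hn0.ne'
    have htend := tendsto_pow_atTop_nhds_zero_of_lt_one (r := q ^ n0) (by positivity) hqn
    have h1 := (htend.const_mul |B'|).eventually_lt_const (show |B'| * 0 < a / 2 by
      rw [mul_zero]; positivity)
    rw [eventually_atTop] at h1
    obtain ⟨N3, hN3⟩ := h1
    obtain ⟨n, hn, hn', h2⟩ := hbig N3
    have h3 := hN3 n hn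
    have h4 := (hbd n hn').2
    have h5 : (1 : ℝ) ≤ ((j + n0 * (N * n)).choose d : ℝ) := by
      exact_mod_cast Nat.choose_pos (by omega)
    have h6 : B' * (q ^ n0) ^ n ≤ |B'| * (q ^ n0) ^ n :=
      mul_le_mul_of_nonneg_right (le_abs_self _) (by positivity)
    nlinarith
  have hqe : q = 1 := le_antisymm hq1 hq2
  rw [hqe] at hbd
  simp only [one_pow, mul_one] at hbd
  have hd0 : d = 0 := by
    by_contra hd0
    obtain ⟨N3, hN3⟩ := exists_nat_gt (d.factorial * (2 * |B'|) / a)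
    obtain ⟨n, hn, hn', h2⟩ := hbig (N3 + 1)
    have h4 := (hbd n hn').2
    have h5 := choose_lower j (n0 * N) d n (by omega) (by positivity)
    rw [mul_assoc] at h5
    have h6 : (n : ℝ) ≤ (n : ℝ) ^ d := by
      have h7 : (1 : ℝ) ≤ n := by
        have : 1 ≤ n := by omega
        exact_mod_cast this
      exact le_self_pow₀ h7 hd0
    have h7 : (N3 : ℝ) ≤ n := by
      have : N3 ≤ n := by omega
      exact_mod_cast this
    rw [div_lt_iff₀ ha0] at hN3
    have hfac : (0 : ℝ) < d.factorial := by exact_mod_cast d.factorial_pos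
    have h8 : ((j + n0 * (N * n)).choose d : ℝ) * (a / 2) ≤ |B'| := by
      calc _ ≤ ((j + n0 * (N * n)).choose d : ℝ) *
            (Fs (fun i => nz (l i) ^ (n0 * (N * n))) + r (N * n)).re :=
            mul_le_mul_of_nonneg_left h2 (Nat.cast_nonneg _)
        _ ≤ B' := h4
        _ ≤ |B'| := le_abs_self _
    have h9 : (n : ℝ) * a ≤ d.factorial * (2 * |B'|) := by
      calc (n : ℝ) * a ≤ (d.factorial * ((j + n0 * (N * n)).choose d : ℝ)) * a :=
            mul_le_mul_of_nonneg_right (h6.trans h5) ha0.le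
        _ = d.factorial * (2 * (((j + n0 * (N * n)).choose d : ℝ) * (a / 2))) := by ring
        _ ≤ _ := by gcongr
    have h10 : (N3 : ℝ) * a ≤ n * a := mul_le_mul_of_nonneg_right h7 ha0.le
    linarith
  refine ⟨hd0, fun z hz => ?_⟩
  by_contra hcon
  push Not at hcon
  obtain ⟨n, hn, h1⟩ := hnear z hz ((b' - (LevF l c ex A s j d ρ z).re) / 2) (by linarith) N0
  have h2 := (hbd n hn).1
  have h3 : ((j + n0 * (N * n)).choose d : ℝ) = 1 := by
    rw [hd0, Nat.choose_zero_right, Nat.cast_one]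
  rw [h3, one_mul] at h2
  have h4 := (abs_le.mp h1).2
  linarith

end Pool.Agent.DD7719.M
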