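import Pool.Agent.UltPos.Tame
import Pool.Agent.DD7719.TSound

/-! Positive tame sequences. -/

set_option autoImplicit false

namespace Pool.Agent.UltPos

open Filter Topology Pool.Agent.DD7719.M

theorem IsTame.toTm {v : ℕ → ℝ} (h : IsTame v) (hpos : ∀ n, 0 < v n) : Tm v := by
  obtain ⟨N, hN, h⟩ := h
  refine ⟨N, hN, fun J hJ => ?_⟩
  obtain ⟨ρ, hρ, ⟨B, hB⟩, hl⟩ := h J hJ
  have hle : ∀ m : ℕ, v (N * m + J) / ρ ^ m ≤ B := by
    intro m
    rw [div_le_iff₀ (by positivity)]
    exact (le_abs_self _).trans (hB m)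
  have hge : ∀ m : ℕ, 0 ≤ v (N * m + J) / ρ ^ m := fun m =>
    div_nonneg (hpos _).le (by positivity)
  have hbelow : IsBoundedUnder (· ≥ ·) atTop (fun m : ℕ => v (N * m + J) / ρ ^ m) :=
    ⟨0, eventually_map.mpr (Eventually.of_forall hge)⟩
  have habove : IsCoboundedUnder (· ≥ ·) atTop (fun m : ℕ => v (N * m + J) / ρ ^ m) :=
    IsBoundedUnder.isCoboundedUnder_ge ⟨B, eventually_map.mpr (Eventually.of_forall hle)⟩
  have hl0 : 0 ≤ liminf (fun m : ℕ => v (N * m + J) / ρ ^ m) atTop :=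
    le_liminf_of_le habove (Eventually.of_forall hge)
  have hl1 : 0 < liminf (fun m : ℕ => v (N * m + J) / ρ ^ m) atTop := lt_of_le_of_ne hl0 hl.symm
  have hev := eventually_lt_of_lt_liminf (half_lt_self hl1) hbelow
  refine ⟨ρ, _, B, hρ, half_pos hl1, ?_⟩
  filter_upwards [hev] with m hm
  constructor
  · rw [lt_div_iff₀ (by positivity)] at hm
    exact hm.le
  · exact (le_abs_self _).trans (hB m)

theorem isTame_of_tm {v : ℕ → ℝ} (h : Tm v) : IsTame v := by
  obtain ⟨N, hN, h⟩ := h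
  refine ⟨N, hN, fun J hJ => ?_⟩
  obtain ⟨ρ, b, B, hρ, hb, hev⟩ := h J hJ
  refine ⟨ρ, hρ, ?_, ?_⟩
  · rw [eventually_atTop] at hev
    obtain ⟨N0, hN0⟩ := hev
    refine ⟨|B| + ∑ m ∈ Finset.range N0, |v (N * m + J)| / ρ ^ m, fun m => ?_⟩
    have hρm : 0 < ρ ^ m := by positivity
    rcases lt_or_ge m N0 with h1 | h1
    · have h2 : |v (N * m + J)| / ρ ^ m ≤ ∑ m ∈ Finset.range N0, |v (N * m + J)| / ρ ^ m :=
        Finset.single_le_sum (f := fun m => |v (N * m + J)| / ρ ^ m)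
          (fun i _ => by positivity) (Finset.mem_range.mpr h1)
      rw [div_le_iff₀ hρm] at h2
      have h3 : 0 ≤ |B| * ρ ^ m := by positivity
      rw [add_mul]
      linarith
    · obtain ⟨h2, h3⟩ := hN0 m h1
      have h4 : 0 ≤ v (N * m + J) := le_trans (by positivity) h2
      have h5 : 0 ≤ (∑ m ∈ Finset.range N0, |v (N * m + J)| / ρ ^ m) * ρ ^ m := by positivity
      have h6 : B * ρ ^ m ≤ |B| * ρ ^ m := mul_le_mul_of_nonneg_right (le_abs_self _) hρm.le
      rw [abs_of_nonneg h4, add_mul]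
      linarith
  · have h1 : b ≤ liminf (fun m : ℕ => v (N * m + J) / ρ ^ m) atTop := by
      refine le_liminf_of_le ?_ ?_
      · refine IsBoundedUnder.isCoboundedUnder_ge ⟨B, ?_⟩
        rw [eventually_map]
        filter_upwards [hev] with m hm
        rw [div_le_iff₀ (by positivity)]
        exact hm.2
      · filter_upwards [hev] with m hm
        rw [le_div_iff₀ (by positivity)]
        exact hm.1
    linarith

end Pool.Agent.UltPos
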