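import Pool.Agent.DD7719.TAssemble
import Pool.Agent.DD7719.TTame
import Pool.Agent.DD7719.Lang
import Pool.Agent.UltPos.Positive
import Pool.Agent.RElim.Unb

/-! Positivity of tame recurrences is in `∀ℝ`. -/

set_option autoImplicit false

namespace Pool.Agent.UltPos

open Pool.Agent.PT Pool.Agent.AllR Pool.Agent.DD7719.M Pool.Agent.DD7719 Finset

section params

variable {Γ : Type} {f g h : List Γ → (ℕ → ℕ) → ℕ}

lemma uf_pg (hf : UF f) : UF (fun x e => pg (f x e)) :=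
  ((((UF.const 2).mul (hf.mul hf)).add ((UF.const 4).mul hf)).add (UF.const 1)).mul
    ((UF.pow hf 4).add (UF.const 1))

lemma uf_pq2 (hf : UF f) : UF (fun x e => pq2 (f x e)) := ((uf_pg hf).add (UF.const 3)).add hf

lemma uf_pth (hf : UF f) (hg : UF g) (hh : UF h) :
    UF (fun x e => pth (f x e) (g x e) (h x e)) :=
  ((uf_pg hf).add (UF.const 3)).add
    (((((hg.add hh).add (hf.mul (uf_pq2 hf))).add ((UF.const 2).mul hf)).add (uf_pbn hf)).add
      (UF.const 2))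

end params

/-- **Positivity of tame recurrences is in `∀ℝ`.** -/
theorem inForallR_tame :
    InForallR {w : List ISym | ∃ I : Inst, w = I.enc ∧ I.Positive ∧ I.Tame} := by
  obtain ⟨kk, sg, nb, db, hkk, hsg, hnb, hdb, hI⟩ := exists_parser
  have h2 : RF (Γ := ISym) (fun _ _ _ => (2 : ℝ)) :=
    (RF.nat (UF.const 2)).congr fun _ _ _ => by norm_num
  have hε : RF (Γ := ISym) (fun x _ _ => (2 : ℝ) / ((2 ^ pq x.length : ℕ) : ℝ)) :=
    (h2.div (h2.pow (uf_pq UF.len))).congr fun x e α => by push_cast; rfl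
  have hδ : RF (Γ := ISym) (fun x _ _ => (1 : ℝ) / 2 ^ pdl x.length) :=
    RF.one.div (h2.pow (uf_pdl UF.len))
  have hfa : ∀ (I : Inst) (t : ℕ) (ht : t < I.k), fieldR sg nb db 0 I.enc t = (I.a ⟨t, ht⟩ : ℝ) := by
    intro I t ht
    obtain ⟨e1, e2, e3, e4, e5, e6, e7⟩ := hI I
    rw [Inst.a, fieldR]
    push_cast
    have h3 := congrArg (fun z : ℤ => (z : ℝ)) (e3 ⟨t, ht⟩)
    have h4 := congrArg (fun z : ℤ => (z : ℝ)) (e4 ⟨t, ht⟩)
    simp only at h3 h4
    push_cast at h3 h4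
    rw [h3, h4]
  have hfu : ∀ (I : Inst) (t : ℕ) (ht : t < I.k), fieldR sg nb db 1 I.enc t = (I.u ⟨t, ht⟩ : ℝ) := by
    intro I t ht
    obtain ⟨e1, e2, e3, e4, e5, e6, e7⟩ := hI I
    rw [Inst.u, fieldR]
    push_cast
    have h3 := congrArg (fun z : ℤ => (z : ℝ)) (e5 ⟨t, ht⟩)
    have h4 := congrArg (fun z : ℤ => (z : ℝ)) (e6 ⟨t, ht⟩)
    simp only at h3 h4
    push_cast at h3 h4
    rw [h3, h4]
  -- certificates of non-tameness
  have hcert := re_certP (fun _ => PT) (fun ht hρ hf hf' hd => re_PT ht hρ hf hf' hd) kk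
    (fun x => pbm x.length) (fun x => pbn x.length)
    (fieldR sg nb db 0) (fieldR sg nb db 1) _ _ hkk (uf_pbm UF.len) (uf_pbn UF.len)
    (rf_fieldR 0 hsg hnb hdb) (rf_fieldR 1 hsg hnb hdb) hε hδ (fun _ _ => 0) RF.zero
  -- the reciprocals of the minima
  have hmin := re_certP PR (fun ht hρ hf hf' hd => re_PR ht hρ hf hf' hd) kk
    (fun x => pbm x.length) (fun x => pbn x.length)
    (fieldR sg nb db 0) (fieldR sg nb db 1) _ _ hkk (uf_pbm UF.len) (uf_pbn UF.len)
    (rf_fieldR 0 hsg hnb hdb) (rf_fieldR 1 hsg hnb hdb) hε hδ (fun _ α => α 0)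
    (RF.var (UF.const 0))
  obtain ⟨P1, hP1, hB1⟩ := RElim.exists_bound
    (R := fun x t => ∃ (l c : ℕ → ℂ) (ex : ℕ → ℕ), RootData (kk x) (fieldR sg nb db 0 x)
      (fieldR sg nb db 1 x) l c ex ∧ CertBN (kk x) l c ex (pbm x.length) (pbn x.length)
        (2 / ((2 ^ pq x.length : ℕ) : ℝ)) (1 / 2 ^ pdl x.length) (PR t)) hmin
  -- the coefficients
  have hcoef := re_coef kk (fieldR sg nb db 0) (fieldR sg nb db 1) hkk
    (rf_fieldR 0 hsg hnb hdb) (rf_fieldR 1 hsg hnb hdb)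
  obtain ⟨P2, hP2, hB2⟩ := RElim.exists_bound
    (R := fun x t => ∃ (l c : ℕ → ℂ) (ex : ℕ → ℕ), RootData (kk x) (fieldR sg nb db 0 x)
      (fieldR sg nb db 1 x) l c ex ∧ t ≤ ∑ i ∈ Finset.range (kk x), ‖c i‖) hcoef
  -- small indices
  have hsmall := re_small kk (fun x => pth x.length (P1 x) (P2 x)) (fieldR sg nb db 0)
    (fieldR sg nb db 1) hkk (uf_pth UF.len hP1 hP2) (rf_fieldR 0 hsg hnb hdb)
    (rf_fieldR 1 hsg hnb hdb)
  refine RE.inForallR (((RE.up up_valid.not).or hsmall).or hcert) _ fun x => ?_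
  constructor
  · rintro ⟨I, rfl, hpos, v, hv, htame⟩ ⟨α, (h4 | h4) | h4⟩
    · exact h4 ⟨I, rfl⟩
    · obtain ⟨l, c, ex, hrd, n, hn, hle⟩ := h4
      have hIk := (hI I).1
      rw [hIk] at hrd hle
      have h5 := I.all' _ _ (hfa I) (hfu I) v hv hrd n
      rw [← Finset.sum_range (fun i => c i * (n.choose (ex i) : ℂ) * l i ^ (n - ex i))] at h5
      rw [termN, h5, Complex.ofReal_re] at hle
      have h6 : 0 < ((v n : ℚ) : ℝ) := by exact_mod_cast hpos v hv n
      linarith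
    · obtain ⟨e1, e2, e3, e4, e5, e6, e7⟩ := hI I
      rw [e1] at h4
      exact I.not_tm_of_cert I.enc.length e2 (fun i => ⟨(e7 i).1.le, (e7 i).2.1.le⟩) _ _
        (hfa I) (hfu I) v hv h4 (htame.toTm fun n => by exact_mod_cast hpos v hv n)
  · intro h
    have h1 : ∃ I : Inst, x = I.enc := by
      by_contra hcon
      exact h ⟨fun _ => 0, Or.inl (Or.inl hcon)⟩
    obtain ⟨I, rfl⟩ := h1
    obtain ⟨e1, e2, e3, e4, e5, e6, e7⟩ := hI I
    obtain ⟨v, hv, hvu⟩ := I.exists_unique_seq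
    have hbd : ∀ i, (I.aNum i).natAbs ≤ 2 ^ I.enc.length ∧ I.aDen i ≤ 2 ^ I.enc.length :=
      fun i => ⟨(e7 i).1.le, (e7 i).2.1.le⟩
    have hT : Tm (fun n => ((v n : ℚ) : ℝ)) := by
      by_contra hcon
      have h3 := I.cert_of_not_tm I.enc.length e2 hbd _ _ (hfa I) (hfu I) v hv hcon
      rw [← e1] at h3
      exact h ⟨fun _ => 0, Or.inr h3⟩
    refine ⟨I, rfl, ?_, v, hv, isTame_of_tm hT⟩
    have hthr := I.pos_of_tm I.enc.length e2 hbd _ _ (hfa I) (hfu I) v hv hT (P1 I.enc) (P2 I.enc)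
      (by
        intro t ht
        by_contra hcon
        push Not at hcon
        rw [← e1] at ht
        obtain ⟨X, hX⟩ := I.bounded_PR I.enc.length e2 hbd _ _ (hfa I) (hfu I) v hv hT
        obtain ⟨t', ht', h5⟩ := hB1 I.enc ⟨t, hcon, ht⟩ X
        simp only [e1] at h5
        exact absurd (hX t' h5) (not_le.mpr ht'))
      (by
        intro t ht
        by_contra hcon
        push Not at hcon
        rw [← e1] at ht
        obtain ⟨X, hX⟩ := rootData_bounded I.k (fieldR sg nb db 0 I.enc) (fieldR sg nb db 1 I.enc)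
        obtain ⟨t', ht', l, c, ex, hrd, h5⟩ := hB2 I.enc ⟨t, hcon, ht⟩ X
        simp only [e1] at h5 hrd
        exact absurd (h5.trans (hX l c ex hrd)) (not_le.mpr ht'))
    intro w hw n
    rw [hvu w hw]
    by_contra hcon
    push Not at hcon
    rcases lt_or_ge n (2 ^ pth I.enc.length (P1 I.enc) (P2 I.enc)) with h5 | h5
    · apply h
      refine ⟨fun _ => 0, Or.inl (Or.inr ?_)⟩
      obtain ⟨l, c, ex, hrd⟩ := I.exists_rootData' _ _ (hfa I) (hfu I)
      refine ⟨l, c, ex, ?_, n, h5, ?_⟩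
      · rw [e1]
        exact hrd
      · have h6 := I.all' _ _ (hfa I) (hfu I) v hv hrd n
        rw [← Finset.sum_range (fun i => c i * (n.choose (ex i) : ℂ) * l i ^ (n - ex i))] at h6
        rw [e1, termN, h6, Complex.ofReal_re]
        exact_mod_cast hcon
    · exact absurd (hthr n h5) (not_lt.mpr hcon)

end Pool.Agent.UltPos
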