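import Pool.Agent.DD7719.HtMain

/-! The parameters of the certificate, as functions of the length of the input. -/

set_option autoImplicit false

namespace Pool.Agent.DD7719.M

def pr (L : ℕ) : ℕ := (5 * L * L + 10 * L + 28) * L
def pq (L : ℕ) : ℕ := pr L + L + 3
def pmh (L : ℕ) : ℕ := L * L + (pq L * L + 1) * L
def pbm (L : ℕ) : ℕ := pmh L + 1
def pdl (L : ℕ) : ℕ :=
  3 + 4 * L + 2 * pbm L + pr L + (pq L * L + 1) + pq L * (L + 1) + 3 * pmh L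
def pbn (L : ℕ) : ℕ := 1 + 2 * L * L + (pdl L + 3) * L + 1

lemma le_two_pow_of_le {k L : ℕ} (h : k ≤ L) : k ≤ 2 ^ L := h.trans Nat.lt_two_pow_self.le

lemma factorial_le_two_pow {k L : ℕ} (h : k ≤ L) : k.factorial ≤ 2 ^ (L * L) := by
  calc k.factorial ≤ k ^ k := Nat.factorial_le_pow k
    _ ≤ (2 ^ L) ^ k := Nat.pow_le_pow_left (le_two_pow_of_le h) _
    _ ≤ (2 ^ L) ^ L := Nat.pow_le_pow_right (by positivity) h
    _ = 2 ^ (L * L) := by rw [pow_mul]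

lemma two_pow_mono {a b : ℕ} (h : a ≤ b) : (2 : ℕ) ^ a ≤ 2 ^ b := Nat.pow_le_pow_right (by norm_num) h

lemma pR_le {k L : ℕ} (hkL : k ≤ L) : R (k + 1) k (2 * 2 ^ (L * L)) ≤ 2 ^ pr L := by
  have h1 : 10 ^ 6 * (k + 1) * ((k + 1).factorial) ^ 4 * (k + 1 + 2) * (2 * 2 ^ (L * L) + 2) ≤
      2 ^ (5 * L * L + 10 * L + 28) := by
    have e1 : 10 ^ 6 ≤ 2 ^ 20 := by norm_num
    have e2 : k + 1 ≤ 2 ^ L := (Nat.lt_two_pow_self (n := k)).trans_le (two_pow_mono hkL)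
    have e3 : (k + 1).factorial ^ 4 ≤ (2 ^ ((L + 1) * (L + 1))) ^ 4 :=
      Nat.pow_le_pow_left (factorial_le_two_pow (by omega)) _
    have e4 : k + 1 + 2 ≤ 2 ^ (L + 2) := le_trans (by omega) (Nat.lt_two_pow_self (n := L + 2))
    have e5 : 2 * 2 ^ (L * L) + 2 ≤ 2 ^ (L * L + 2) := by
      have : 1 ≤ 2 ^ (L * L) := Nat.one_le_two_pow
      rw [pow_add]
      omega
    calc 10 ^ 6 * (k + 1) * ((k + 1).factorial) ^ 4 * (k + 1 + 2) * (2 * 2 ^ (L * L) + 2)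
        ≤ 2 ^ 20 * 2 ^ L * (2 ^ ((L + 1) * (L + 1))) ^ 4 * 2 ^ (L + 2) * 2 ^ (L * L + 2) :=
          Nat.mul_le_mul (Nat.mul_le_mul (Nat.mul_le_mul (Nat.mul_le_mul e1 e2) e3) e4) e5
      _ = 2 ^ (20 + L + ((L + 1) * (L + 1)) * 4 + (L + 2) + (L * L + 2)) := by
          rw [← pow_mul, ← pow_add, ← pow_add, ← pow_add, ← pow_add]
      _ = 2 ^ (5 * L * L + 10 * L + 28) := by
          congr 1
          ring
  calc R (k + 1) k (2 * 2 ^ (L * L)) ≤ (2 ^ (5 * L * L + 10 * L + 28)) ^ k :=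
        Nat.pow_le_pow_left h1 _
    _ = 2 ^ ((5 * L * L + 10 * L + 28) * k) := by rw [← pow_mul]
    _ ≤ 2 ^ pr L := two_pow_mono (Nat.mul_le_mul_left _ hkL)

lemma pQ_le {k L : ℕ} (hkL : k ≤ L) : 8 * k * 2 ^ pr L ≤ 2 ^ pq L := by
  calc 8 * k * 2 ^ pr L ≤ 2 ^ 3 * 2 ^ L * 2 ^ pr L := by
        gcongr
        · norm_num
        · exact le_two_pow_of_le hkL
    _ = 2 ^ pq L := by
        rw [← pow_add, ← pow_add]
        congr 1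
        unfold pq
        ring

lemma pQ1_le {k L : ℕ} (hkL : k ≤ L) : (2 ^ pq L) ^ k + 1 ≤ 2 ^ (pq L * L + 1) := by
  have h1 : (2 ^ pq L) ^ k ≤ 2 ^ (pq L * L) := by
    rw [← pow_mul]
    exact two_pow_mono (Nat.mul_le_mul_left _ hkL)
  have h2 : 1 ≤ 2 ^ (pq L * L) := Nat.one_le_two_pow
  rw [pow_succ]
  omega

lemma pMH_le {k L : ℕ} (hkL : k ≤ L) : k.factorial * ((2 ^ pq L) ^ k + 1) ^ k ≤ 2 ^ pmh L := by
  calc k.factorial * ((2 ^ pq L) ^ k + 1) ^ k ≤ 2 ^ (L * L) * (2 ^ (pq L * L + 1)) ^ k := by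
        gcongr
        · exact factorial_le_two_pow hkL
        · exact pQ1_le hkL
    _ ≤ 2 ^ (L * L) * (2 ^ (pq L * L + 1)) ^ L := by
        gcongr
        exact Nat.one_le_two_pow
    _ = 2 ^ pmh L := by
        rw [← pow_mul, ← pow_add]
        rfl

lemma pd_of_nat {a b : ℕ} (x : ℝ) (hx : x = (a : ℝ)) (h : a ≤ 2 ^ b) : x * (1 / 2 ^ b) ≤ 1 := by
  rw [hx, mul_one_div, div_le_one (by positivity)]
  exact_mod_cast h

lemma pd1 {k L : ℕ} (hkL : k ≤ L) :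
    8 * (k : ℝ) ^ 3 * ((2 ^ pbm L : ℕ) : ℝ) ^ 2 * ((2 ^ pr L : ℕ) : ℝ) * (1 / 2 ^ pdl L) ≤ 1 := by
  refine pd_of_nat (a := 8 * k ^ 3 * (2 ^ pbm L) ^ 2 * 2 ^ pr L) _ (by push_cast; ring) ?_
  calc 8 * k ^ 3 * (2 ^ pbm L) ^ 2 * 2 ^ pr L ≤ 2 ^ 3 * (2 ^ L) ^ 3 * (2 ^ pbm L) ^ 2 * 2 ^ pr L := by
        gcongr
        · norm_num
        · exact le_two_pow_of_le hkL
    _ = 2 ^ (3 + L * 3 + pbm L * 2 + pr L) := by
        rw [← pow_mul, ← pow_mul, ← pow_add, ← pow_add, ← pow_add]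
    _ ≤ 2 ^ pdl L := two_pow_mono (by unfold pdl; omega)

lemma pd2 {k L : ℕ} (hkL : k ≤ L) :
    2 * (k : ℝ) * ((2 ^ pmh L : ℕ) : ℝ) * (1 / 2 ^ pdl L) ≤ 1 := by
  refine pd_of_nat (a := 2 * k * 2 ^ pmh L) _ (by push_cast; ring) ?_
  calc 2 * k * 2 ^ pmh L ≤ 2 ^ 1 * (2 ^ L) * 2 ^ pmh L := by
        gcongr
        · norm_num
        · exact le_two_pow_of_le hkL
    _ = 2 ^ (1 + L + pmh L) := by
        rw [← pow_add, ← pow_add]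
    _ ≤ 2 ^ pdl L := two_pow_mono (by unfold pdl; omega)

lemma pd3 {k L : ℕ} (hkL : k ≤ L) :
    2 * (k : ℝ) * ((2 ^ pr L : ℕ) : ℝ) * (1 / 2 ^ pdl L) ≤ 1 := by
  refine pd_of_nat (a := 2 * k * 2 ^ pr L) _ (by push_cast; ring) ?_
  calc 2 * k * 2 ^ pr L ≤ 2 ^ 1 * (2 ^ L) * 2 ^ pr L := by
        gcongr
        · norm_num
        · exact le_two_pow_of_le hkL
    _ = 2 ^ (1 + L + pr L) := by
        rw [← pow_add, ← pow_add]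
    _ ≤ 2 ^ pdl L := two_pow_mono (by unfold pdl; omega)

lemma pd4 {k L : ℕ} (hkL : k ≤ L) :
    (k : ℝ) ^ 4 * (((2 ^ pq L : ℕ) : ℝ) ^ k + 1) * ((2 ^ pq L : ℕ) : ℝ) ^ (k + 1) *
      ((2 ^ pmh L : ℕ) : ℝ) ^ 3 * (1 / 2 ^ pdl L) ^ 2 ≤ 1 := by
  have h : k ^ 4 * ((2 ^ pq L) ^ k + 1) * (2 ^ pq L) ^ (k + 1) * (2 ^ pmh L) ^ 3 ≤
      2 ^ (pdl L * 2) := by
    calc k ^ 4 * ((2 ^ pq L) ^ k + 1) * (2 ^ pq L) ^ (k + 1) * (2 ^ pmh L) ^ 3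
        ≤ (2 ^ L) ^ 4 * 2 ^ (pq L * L + 1) * (2 ^ pq L) ^ (L + 1) * (2 ^ pmh L) ^ 3 := by
          gcongr
          · exact le_two_pow_of_le hkL
          · exact pQ1_le hkL
          · exact Nat.one_le_two_pow
      _ = 2 ^ (L * 4 + (pq L * L + 1) + pq L * (L + 1) + pmh L * 3) := by
          rw [← pow_mul, ← pow_mul, ← pow_mul, ← pow_add, ← pow_add, ← pow_add]
      _ ≤ 2 ^ (pdl L * 2) := two_pow_mono (by unfold pdl; omega)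
  have h2 := pd_of_nat (a := k ^ 4 * ((2 ^ pq L) ^ k + 1) * (2 ^ pq L) ^ (k + 1) * (2 ^ pmh L) ^ 3)
    (b := pdl L * 2) _ rfl h
  rw [one_div_pow, ← pow_mul]
  push_cast at h2 ⊢
  exact h2

lemma pd5 (L : ℕ) : 7 / (((2 ^ (pdl L + 3) : ℕ)) : ℝ) ≤ 1 / 2 ^ pdl L := by
  have h : ((2 ^ (pdl L + 3) : ℕ) : ℝ) = 2 ^ pdl L * 8 := by
    push_cast
    rw [pow_add]
    norm_num
  rw [h, div_le_div_iff₀ (by positivity) (by positivity)]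
  have : (0 : ℝ) < 2 ^ pdl L := by positivity
  linarith

lemma pNb_le {k L e : ℕ} (hkL : k ≤ L) (he : e ≤ 2 * k.factorial ^ 2) :
    e * (2 ^ (pdl L + 3)) ^ k ≤ 2 ^ (1 + 2 * L * L + (pdl L + 3) * L) := by
  calc e * (2 ^ (pdl L + 3)) ^ k ≤ (2 ^ 1 * (2 ^ (L * L)) ^ 2) * (2 ^ (pdl L + 3)) ^ L := by
        gcongr
        · refine he.trans ?_
          gcongr
          · norm_num
          · exact factorial_le_two_pow hkL
        · exact Nat.one_le_two_pow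
    _ = 2 ^ (1 + L * L * 2 + (pdl L + 3) * L) := by
        rw [← pow_mul, ← pow_mul, ← pow_add, ← pow_add]
    _ = 2 ^ (1 + 2 * L * L + (pdl L + 3) * L) := by
        congr 2
        ring

lemma peps {k L : ℕ} (hkL : k ≤ L) :
    4 * (k : ℝ) * ((2 ^ pr L : ℕ) : ℝ) * (2 / ((2 ^ pq L : ℕ) : ℝ)) ≤ 1 := by
  rw [mul_div_assoc', div_le_one (by positivity)]
  have : ((8 * k * 2 ^ pr L : ℕ) : ℝ) ≤ ((2 ^ pq L : ℕ) : ℝ) := by exact_mod_cast pQ_le hkL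
  push_cast at this ⊢
  linarith

lemma two_pow_lt_pbm (L : ℕ) : 2 ^ pmh L < 2 ^ pbm L :=
  Nat.pow_lt_pow_right (by norm_num) (Nat.lt_succ_self _)

lemma two_pow_lt_pbn (L : ℕ) : 2 ^ (1 + 2 * L * L + (pdl L + 3) * L) < 2 ^ pbn L :=
  Nat.pow_lt_pow_right (by norm_num) (Nat.lt_succ_self _)

end Pool.Agent.DD7719.M
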