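import Pool.Agent.DD7719.TGap
import Pool.Agent.DD7719.Params

/-! The size of the threshold. -/

set_option autoImplicit false

namespace Pool.Agent.DD7719.M

/-- the auxiliary exponent -/
def pq2 (L : ℕ) : ℕ := pg L + 3 + L

/-- the number of bits of the threshold -/
def pth (L P1 P2 : ℕ) : ℕ := pg L + 3 + (P1 + P2 + L * pq2 L + 2 * L + pbn L + 2)

lemma half_pow_bound (g w : ℕ) : (1 - 1 / (2 : ℝ) ^ g) ^ w ≤ (1 / 2) ^ (w / 2 ^ g) := by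
  have hg : (1 : ℝ) ≤ 2 ^ g := one_le_pow₀ (by norm_num)
  have h0 : (0 : ℝ) ≤ 1 - 1 / 2 ^ g := by
    have : 1 / (2 : ℝ) ^ g ≤ 1 := by
      rw [div_le_one (by positivity)]
      exact hg
    linarith
  have h1 : (1 : ℝ) - 1 / 2 ^ g ≤ 1 := by
    have : 0 ≤ 1 / (2 : ℝ) ^ g := by positivity
    linarith
  have h2 : (1 - 1 / (2 : ℝ) ^ g) ^ (2 ^ g) ≤ 1 / 2 := by
    have h3 : 1 - 1 / (2 : ℝ) ^ g ≤ Real.exp (-(1 / 2 ^ g)) := Real.one_sub_le_exp_neg _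
    calc (1 - 1 / (2 : ℝ) ^ g) ^ (2 ^ g) ≤ Real.exp (-(1 / 2 ^ g)) ^ (2 ^ g) :=
          pow_le_pow_left₀ h0 h3 _
      _ = Real.exp (-1) := by
          rw [← Real.exp_nat_mul]
          congr 1
          push_cast
          field_simp
      _ ≤ 1 / 2 := by
          have := Real.exp_neg_one_lt_d9
          linarith
  calc (1 - 1 / (2 : ℝ) ^ g) ^ w ≤ (1 - 1 / (2 : ℝ) ^ g) ^ (2 ^ g * (w / 2 ^ g)) :=
        pow_le_pow_of_le_one h0 h1 (Nat.mul_div_le _ _)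
    _ = ((1 - 1 / (2 : ℝ) ^ g) ^ (2 ^ g)) ^ (w / 2 ^ g) := by rw [pow_mul]
    _ ≤ (1 / 2) ^ (w / 2 ^ g) := pow_le_pow_left₀ (by positivity) h2 _

lemma nat_pow_bound (n k L q : ℕ) (hk : k ≤ L) : n ^ k ≤ 2 ^ (L * (q + n / 2 ^ q)) := by
  have h1 : n ≤ 2 ^ (q + n / 2 ^ q) := by
    have h2 := Nat.div_add_mod n (2 ^ q)
    have h3 := Nat.mod_lt n (show 0 < 2 ^ q by positivity)
    have h4 : n / 2 ^ q + 1 ≤ 2 ^ (n / 2 ^ q) := Nat.lt_two_pow_self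
    calc n ≤ 2 ^ q * (n / 2 ^ q + 1) := by
          rw [mul_add, mul_one]
          omega
      _ ≤ 2 ^ q * 2 ^ (n / 2 ^ q) := Nat.mul_le_mul_left _ h4
      _ = 2 ^ (q + n / 2 ^ q) := by rw [pow_add]
  calc n ^ k ≤ (2 ^ (q + n / 2 ^ q)) ^ k := Nat.pow_le_pow_left h1 k
    _ = 2 ^ ((q + n / 2 ^ q) * k) := by rw [pow_mul]
    _ ≤ 2 ^ (L * (q + n / 2 ^ q)) := by
        apply Nat.pow_le_pow_right (by norm_num)
        rw [mul_comm]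
        exact Nat.mul_le_mul_right _ hk

lemma exponent_bound (L P1 P2 n j : ℕ) (hn : 2 ^ pth L P1 P2 ≤ n) (hj : j ≤ 2 ^ pbn L) :
    2 ^ P2 + L * (pq2 L + n / 2 ^ pq2 L) + 2 * L * 2 ^ pbn L + (2 ^ P1 + 1) <
      (n - j) / 2 ^ pg L := by
  set g := pg L with hg
  set bn := pbn L with hbn
  set q := pq2 L with hq
  set E := P1 + P2 + L * q + 2 * L + bn with hE
  have hth : pth L P1 P2 = g + 3 + (E + 2) := rfl
  rw [hth] at hn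
  set N8 := n / 2 ^ (g + 3) with hN8
  have hN8n : 2 ^ (g + 3) * N8 ≤ n := Nat.mul_div_le _ _
  have hEN : 2 ^ (E + 2) ≤ N8 := by
    rw [hN8, Nat.le_div_iff_mul_le (by positivity), ← pow_add]
    convert hn using 2
    ring
  have h1 : L * (n / 2 ^ q) ≤ N8 := by
    have e1 : q = (g + 3) + L := rfl
    have e2 : n / 2 ^ q = N8 / 2 ^ L := by rw [e1, pow_add, Nat.div_div_eq_div_mul]
    rw [e2]
    calc L * (N8 / 2 ^ L) ≤ 2 ^ L * (N8 / 2 ^ L) := Nat.mul_le_mul_right _ Nat.lt_two_pow_self.le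
      _ ≤ N8 := Nat.mul_div_le _ _
  have h2 : 4 * N8 ≤ (n - j) / 2 ^ g := by
    rw [Nat.le_div_iff_mul_le (by positivity)]
    have e1 : 2 ^ (g + 3) = 8 * 2 ^ g := by rw [pow_add]; ring
    have e2 : j ≤ 4 * N8 * 2 ^ g := by
      have e3 : 2 ^ bn ≤ 2 ^ (E + 2) := Nat.pow_le_pow_right (by norm_num) (by omega)
      have e4 : 1 ≤ 2 ^ g := Nat.one_le_two_pow
      calc j ≤ N8 := hj.trans (e3.trans hEN)
        _ ≤ 4 * N8 := by omega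
        _ ≤ 4 * N8 * 2 ^ g := Nat.le_mul_of_pos_right _ (by positivity)
    have e3 : 8 * 2 ^ g * N8 ≤ n := by rw [← e1]; exact hN8n
    have e4 : 8 * 2 ^ g * N8 = 4 * N8 * 2 ^ g + 4 * N8 * 2 ^ g := by ring
    omega
  have hpow : 2 ^ (E + 2) = 4 * 2 ^ E := by rw [pow_add]; ring
  have a1 : 2 ^ P2 ≤ 2 ^ E := Nat.pow_le_pow_right (by norm_num) (by omega)
  have a2 : 2 ^ P1 ≤ 2 ^ E := Nat.pow_le_pow_right (by norm_num) (by omega)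
  have a3 : L * q ≤ 2 ^ E := Nat.lt_two_pow_self.le.trans (Nat.pow_le_pow_right (by norm_num) (by omega))
  have a4 : 2 * L * 2 ^ bn ≤ 2 ^ E := by
    calc 2 * L * 2 ^ bn ≤ 2 ^ (2 * L) * 2 ^ bn := Nat.mul_le_mul_right _ Nat.lt_two_pow_self.le
      _ = 2 ^ (2 * L + bn) := by rw [pow_add]
      _ ≤ 2 ^ E := Nat.pow_le_pow_right (by norm_num) (by omega)
  have a5 : 1 ≤ 2 ^ E := Nat.one_le_two_pow
  have h3 : L * (q + n / 2 ^ q) = L * q + L * (n / 2 ^ q) := by ring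
  rw [h3]
  omega

/-- the numerical inequality behind the explicit threshold -/
theorem threshold_ineq (k L P1 P2 n j : ℕ) (hkL : k ≤ L) (hn : 2 ^ pth L P1 P2 ≤ n)
    (hj : j ≤ 2 ^ pbn L) (C : ℝ) (hC : C ≤ 2 ^ 2 ^ P2) :
    C * (n : ℝ) ^ k * ((2 : ℝ) ^ (2 * L)) ^ j * (1 - 1 / 2 ^ pg L) ^ (n - j) <
      1 / (2 ^ 2 ^ P1 + 1) := by
  have hexp := exponent_bound L P1 P2 n j hn hj
  set W := (n - j) / 2 ^ pg L with hW
  set E1 := 2 ^ P2 + L * (pq2 L + n / 2 ^ pq2 L) + 2 * L * 2 ^ pbn L with hE1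
  have h1 : (n : ℝ) ^ k ≤ 2 ^ (L * (pq2 L + n / 2 ^ pq2 L)) := by
    exact_mod_cast nat_pow_bound n k L (pq2 L) hkL
  have h2 : ((2 : ℝ) ^ (2 * L)) ^ j ≤ 2 ^ (2 * L * 2 ^ pbn L) := by
    rw [← pow_mul]
    exact pow_le_pow_right₀ (by norm_num) (Nat.mul_le_mul_left _ hj)
  have h3 := half_pow_bound (pg L) (n - j)
  have h0 : (0 : ℝ) ≤ 1 - 1 / 2 ^ pg L := by
    have : 1 / (2 : ℝ) ^ pg L ≤ 1 := by
      rw [div_le_one (by positivity)]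
      exact one_le_pow₀ (by norm_num)
    linarith
  have h4 : C * (n : ℝ) ^ k * ((2 : ℝ) ^ (2 * L)) ^ j * (1 - 1 / 2 ^ pg L) ^ (n - j) ≤
      2 ^ E1 * (1 / 2) ^ W := by
    have e1 : C * (n : ℝ) ^ k * ((2 : ℝ) ^ (2 * L)) ^ j ≤ 2 ^ E1 := by
      calc C * (n : ℝ) ^ k * ((2 : ℝ) ^ (2 * L)) ^ j
          ≤ 2 ^ 2 ^ P2 * 2 ^ (L * (pq2 L + n / 2 ^ pq2 L)) * 2 ^ (2 * L * 2 ^ pbn L) := by
            gcongr
        _ = 2 ^ E1 := by rw [← pow_add, ← pow_add]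
    calc _ ≤ 2 ^ E1 * (1 - 1 / (2 : ℝ) ^ pg L) ^ (n - j) :=
          mul_le_mul_of_nonneg_right e1 (by positivity)
      _ ≤ _ := mul_le_mul_of_nonneg_left h3 (by positivity)
  refine h4.trans_lt ?_
  have h5 : (2 : ℝ) ^ E1 * (1 / 2) ^ W * 2 ^ (2 ^ P1 + 1) < 1 := by
    have e1 : (2 : ℝ) ^ E1 * (1 / 2) ^ W * 2 ^ (2 ^ P1 + 1) = 2 ^ (E1 + (2 ^ P1 + 1)) / 2 ^ W := by
      rw [pow_add 2 E1, one_div, inv_pow]
      ring
    rw [e1, div_lt_one (by positivity)]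
    exact pow_lt_pow_right₀ (by norm_num) hexp
  have h6 : (2 : ℝ) ^ 2 ^ P1 + 1 ≤ 2 ^ (2 ^ P1 + 1) := by
    rw [pow_succ]
    have : (1 : ℝ) ≤ 2 ^ 2 ^ P1 := one_le_pow₀ (by norm_num)
    linarith
  rw [lt_div_iff₀ (by positivity)]
  calc (2 : ℝ) ^ E1 * (1 / 2) ^ W * (2 ^ 2 ^ P1 + 1) ≤ 2 ^ E1 * (1 / 2) ^ W * 2 ^ (2 ^ P1 + 1) :=
        mul_le_mul_of_nonneg_left h6 (by positivity)
    _ < 1 := h5

end Pool.Agent.DD7719.M
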