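import Pool.Agent.DD7719.GClass
import Pool.Agent.DD7719.GSound

/-! Package G: completeness of the general certificate. -/

set_option autoImplicit false

namespace Pool.Agent.DD7719.M

open Complex Filter Topology

variable {k : ℕ}

theorem certF_complete (l c : Fin k → ℂ) (ex : Fin k → ℕ) (R Q MH Q' e Nb : ℕ) (hk : 0 < k)
    (hex : ∀ i, ex i < k)
    (hR : 1 ≤ R)
    (hQ : 2 * k * R ≤ Q) (hMH : k.factorial * (Q ^ k + 1) ^ k ≤ MH) (δ : ℝ)
    (hδ0 : 0 ≤ δ) (hδ1 : 2 * k * MH * δ ≤ 1)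
    (hδ2 : (k : ℝ) ^ 4 * (Q ^ k + 1) * Q ^ (k + 1) * MH ^ 3 * δ ^ 2 ≤ 1)
    (hδ3 : 2 * (k : ℝ) * R * δ ≤ 1)
    (hQ' : 0 < Q') (hδQ' : 7 / (Q' : ℝ) ≤ δ) (he : 0 < e) (hNb : e * Q' ^ k ≤ Nb)
    (hrb : RelBound k l R)
    (htor : ∀ i i', l i ≠ 0 → l i' ≠ 0 → (∃ n : ℕ, 0 < n ∧ (l i / l i') ^ n = 1) →
      (l i / l i') ^ e = 1)
    (hac : ∀ i, IsIntegral ℚ (c i)) (hal : ∀ i, IsIntegral ℚ (l i))
    (v : ℕ → ℝ)
    (hv : ∀ n, ∑ i, c i * (n.choose (ex i) : ℂ) * l i ^ (n - ex i) = (v n : ℂ))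
    (hneg : ¬ ((∃ N, ∀ n, N ≤ n → 0 < v n) ∧ ¬ Critical v)) :
    CertF k l c ex MH Nb (2 / Q) δ := by
  classical
  obtain ⟨t, ht, htQ, htδ⟩ := exists_n0 (fun i => nz (l i)) (fun i => norm_nz _) e Q' hQ'
  set n0 := e * t with hn0def
  have hn0 : 0 < n0 := by positivity
  have hn0Nb : n0 ≤ Nb := (Nat.mul_le_mul_left e htQ).trans hNb
  set μ : Fin k → ℂ := fun i => nz (l i) ^ n0 with hμ
  have hμn : ∀ i, ‖μ i‖ = 1 := fun i => by rw [hμ]; simp only [norm_pow, norm_nz, one_pow]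
  have hμδ : ∀ i, ‖μ i - 1‖ ≤ δ := fun i => (htδ i).trans hδQ'
  set θ : Fin k → ℝ := fun i => (μ i).arg with hθ
  have hθδ : ∀ i, |θ i| ≤ 2 * δ := fun i =>
    (abs_arg_le (hμn i)).trans (by have := hμδ i; linarith)
  have hprodμ : ∀ g : Fin k → ℤ, ∏ i, μ i ^ g i = exp ((∑ i, (g i : ℝ) * θ i : ℝ) * I) :=
    prod_zpow_eq_exp hμn
  have hprodμ' : ∀ g : Fin k → ℤ, ∏ i, μ i ^ g i = (∏ i, nz (l i) ^ g i) ^ n0 :=
    fun g => prod_pow_zpow (fun i => nz (l i)) g n0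
  have hrel : ∀ a : Fin k → ℤ, (∀ g : Fin k → ℤ, (∀ i, |g i| ≤ R) →
      ∑ t, (g t : ℝ) * θ t = 0 → ∑ t, a t * g t = 0) →
      ∀ g : Fin k → ℤ, ∑ t, (g t : ℝ) * θ t = 0 → ∑ t, a t * g t = 0 := by
    intro a ha g hg
    have h1 := hrb a (by
      intro g hg hrel
      apply ha g hg
      have h2 : (∏ i, μ i ^ g i) ^ 2 = 1 := by
        rw [hprodμ', ← pow_mul, mul_comm, pow_mul, hrel, one_pow]
      rw [hprodμ] at h2
      apply eq_zero_of_exp_sq h2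
      calc |∑ i, (g i : ℝ) * θ i| ≤ ∑ i, |(g i : ℝ) * θ i| := Finset.abs_sum_le_sum_abs _ _
        _ ≤ ∑ _i : Fin k, (R : ℝ) * (2 * δ) := by
            apply Finset.sum_le_sum
            intro i _
            rw [abs_mul]
            have h3 : |(g i : ℝ)| ≤ R := by exact_mod_cast hg i
            exact mul_le_mul h3 (hθδ i) (abs_nonneg _) (by positivity)
        _ = 2 * (k : ℝ) * R * δ := by simp; ring
        _ ≤ 1 := hδ3
        _ < Real.pi := by have := Real.pi_gt_three; linarith)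
    have h2 : (∏ i, nz (l i) ^ g i) ^ n0 = 1 := by
      rw [← hprodμ', hprodμ, hg]
      simp
    have h3 := h1 (fun i => n0 * g i) (by
      have h4 : ∏ i, nz (l i) ^ ((n0 : ℤ) * g i) = (∏ i, nz (l i) ^ g i) ^ n0 := by
        rw [← Finset.prod_pow]
        apply Finset.prod_congr rfl
        intro i _
        rw [mul_comm, zpow_mul, zpow_natCast]
      rw [h4, h2, one_pow])
    have h4 : (n0 : ℤ) * ∑ i, a i * g i = 0 := by
      rw [← h3, Finset.mul_sum]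
      exact Finset.sum_congr rfl fun i _ => by ring
    rcases mul_eq_zero.mp h4 with h5 | h5
    · exact absurd h5 (by exact_mod_cast hn0.ne')
    · exact h5
  obtain ⟨s, A, H, D, w, τ, hs, hD, hDM, hHA, hA, hH, hw, hwε, _, x, hx0, hx⟩ :=
    exists_rel_cert R Q MH hR hQ hk θ hrel δ hδ0 hθδ hMH hδ1 hδ2
  have hAM : ∀ l' t, |A l' t| ≤ MH := by
    intro l' t
    refine (hA l' t).trans ?_
    have h1 : Q ^ k + 1 ≤ MH := by
      refine le_trans ?_ hMH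
      calc Q ^ k + 1 = 1 * (Q ^ k + 1) ^ 1 := by ring
        _ ≤ k.factorial * (Q ^ k + 1) ^ k :=
            Nat.mul_le_mul k.factorial_pos (Nat.pow_le_pow_right (by omega) hk)
    exact_mod_cast h1
  have hw' : ∀ i : Fin k, (i : ℕ) < s → ∀ l', i ≤ l' → ∑ t, (H l' t : ℝ) * w i t =
      (if l' = i then (D : ℝ) else 0) - τ i * (∏ t, (nz (l t) ^ n0) ^ H l' t).im := by
    intro i hi l' hl'
    rw [hw i hi l' hl']
    have := hprodμ (H l')
    rw [show (∏ t, (nz (l t) ^ n0) ^ H l' t) = ∏ t, μ t ^ H l' t from rfl, this, im_exp]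
  by_contra hno
  apply hneg
  have hgrow : ∀ j, k ≤ j → j < k + n0 → ∃ ρ : ℝ, 0 < ρ ∧ ∃ d, Growth v n0 j ρ d := by
    intro j hj hj'
    refine class_growth l c ex hk hex n0 j hn0 hj hac hal ?_ s A x hx0 hx v hv ?_ ?_
    · intro i i' hi hi' n hn h
      have h4 := htor i i' hi hi' ⟨n0 * n, by positivity, h⟩
      rw [hn0def, pow_mul, h4, one_pow]
    · intro hvan
      exact hno ⟨n0, j, A, H, D, s, w, τ, fun _ => 1, fun _ => 1, 0, 0, hn0, hn0Nb, hj, hj', hs, hD,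
        hDM, hHA, hAM, hH, hμδ, hw', hwε, fun _ => norm_one, fun _ => norm_one, le_rfl, hk, hvan,
        Or.inl rfl⟩
    · intro ρ d hρ hd hvan z z' hz hz' hlast
      exact hno ⟨n0, j, A, H, D, s, w, τ, z, z', ρ, d, hn0, hn0Nb, hj, hj', hs, hD,
        hDM, hHA, hAM, hH, hμδ, hw', hwε, hz, hz', hρ.le, hd, hvan, Or.inr hlast⟩
  exact ⟨up_of_growth v k n0 hn0 hgrow, not_critical_of_growth v k n0 hn0 hgrow⟩

end Pool.Agent.DD7719.M
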