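import Pool.Agent.DD7719.TSound
import Pool.Agent.DD7719.GSimple
import Pool.Agent.DD7719.GComplete

/-! Sequences without a certificate of non-tameness. -/

set_option autoImplicit false

namespace Pool.Agent.DD7719.M

open Complex Filter Topology GS

variable {k : ℕ}

/-- the last clause of a certificate for `¬ (ultimately positive ∧ tame)` -/
def PT (ρ : ℝ) (d : ℕ) (f f' : ℝ) : Prop := ρ = 0 ∨ (f' ≠ 0 ∧ (0 < d ∨ f ≤ 0))

/-- the last clause bounding the reciprocal of the minimum -/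
def PR (t : ℝ) (ρ : ℝ) (d : ℕ) (f f' : ℝ) : Prop := 0 < ρ ∧ d = 0 ∧ f' ≠ 0 ∧ t * f ≤ 1

lemma continuous_LevF (l c : Fin k → ℂ) (ex : Fin k → ℕ) (A : Fin k → Fin k → ℤ)
    (s j d : ℕ) (ρ : ℝ) :
    ContinuousOn (fun z : Fin k → ℂ => (LevF l c ex A s j d ρ z).re)
      {z | ∀ t, ‖z t‖ = 1} := by
  classical
  apply Complex.continuous_re.comp_continuousOn
  unfold LevF
  apply continuousOn_finsetSum
  intro i _
  split_ifs
  · apply ContinuousOn.mul continuousOn_const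
    apply continuousOn_finsetProd
    intro t _
    split_ifs
    · apply ContinuousOn.zpow₀ (continuous_apply t).continuousOn
      intro z hz
      left
      intro h0
      have := hz t
      rw [h0, norm_zero] at this
      exact zero_ne_one this
    · exact continuousOn_const
  · exact continuousOn_const

lemma isCompact_torus : IsCompact {z : Fin k → ℂ | ∀ t, ‖z t‖ = 1} := by
  have h : {z : Fin k → ℂ | ∀ t, ‖z t‖ = 1} = Set.pi Set.univ fun _ => Metric.sphere (0 : ℂ) 1 := by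
    ext z
    simp
  rw [h]
  exact isCompact_univ_pi fun _ => isCompact_sphere _ _

/-- a positive lower bound on the torus -/
lemma exists_torus_bound (l c : Fin k → ℂ) (ex : Fin k → ℕ) (A : Fin k → Fin k → ℤ)
    (s j d : ℕ) (ρ : ℝ) (h : ∀ z : Fin k → ℂ, (∀ t, ‖z t‖ = 1) → 0 < (LevF l c ex A s j d ρ z).re) :
    ∃ μ : ℝ, 0 < μ ∧ ∀ z : Fin k → ℂ, (∀ t, ‖z t‖ = 1) → μ ≤ (LevF l c ex A s j d ρ z).re := by
  obtain ⟨z0, hz0, hmin⟩ := isCompact_torus.exists_isMinOn (s := {z : Fin k → ℂ | ∀ t, ‖z t‖ = 1})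
    ⟨fun _ => 1, fun _ => norm_one⟩ (continuous_LevF l c ex A s j d ρ)
  exact ⟨_, h z0 hz0, fun z hz => hmin hz⟩

open scoped Classical in
/-- the level sum along the sequence is a value on the torus -/
lemma levelSum_eq (l c : Fin k → ℂ) (ex : Fin k → ℕ) (n0 j d : ℕ) (ρ : ℝ) (s : ℕ)
    (A : Fin k → Fin k → ℤ) (x : Fin k → ℝ) (hx0 : ∀ t : Fin k, s ≤ (t : ℕ) → x t = 0)
    (hx : ∀ i, (nz (l i) ^ n0).arg = ∑ t, x t * (A t i : ℝ)) (m : ℕ) :
    levelSum l c ex n0 j ρ d m = LevF l c ex A s j d ρ (fun t => exp ((m * x t : ℝ) * I)) := by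
  have hμn : ∀ i, ‖nz (l i) ^ n0‖ = 1 := fun i => by rw [norm_pow, norm_nz, one_pow]
  rw [levelSum, LevF]
  apply Finset.sum_congr rfl
  intro i _
  have h3 : ∀ t : Fin k, (if (t : ℕ) < s then exp ((m * x t : ℝ) * I) ^ A t i else 1) =
      exp ((m * (x t * A t i) : ℝ) * I) := by
    intro t
    split_ifs with ht
    · rw [← exp_int_mul]
      congr 1
      push_cast
      ring
    · rw [hx0 t (not_lt.mp ht)]
      simp
  have h4 : ∏ t : Fin k, (if (t : ℕ) < s then exp ((m * x t : ℝ) * I) ^ A t i else 1) =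
      (nz (l i) ^ n0) ^ m := by
    rw [Finset.prod_congr rfl fun t _ => h3 t, ← exp_sum, ← Finset.sum_mul, ← ofReal_sum,
      ← Finset.mul_sum, ← hx i]
    conv_rhs => rw [← exp_arg (hμn i), ← exp_nat_mul]
    congr 1
    push_cast
    ring
  rw [h4]

open scoped Classical in
/-- **Class data.** If there is no certificate of non-tameness then every residue class of some
modulus `n0` has an exact level `(ρ, 0)` with positive values on the torus. -/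
theorem class_data (l c : Fin k → ℂ) (ex : Fin k → ℕ) (R Q MH Q' e Nb : ℕ) (hk : 0 < k)
    (hex : ∀ i, ex i < k)
    (hR : 1 ≤ R)
    (hQ : 2 * k * R ≤ Q) (hMH : k.factorial * (Q ^ k + 1) ^ k ≤ MH) (δ : ℝ)
    (hδ0 : 0 ≤ δ) (hδ1 : 2 * k * MH * δ ≤ 1)
    (hδ2 : (k : ℝ) ^ 4 * (Q ^ k + 1) * Q ^ (k + 1) * MH ^ 3 * δ ^ 2 ≤ 1)
    (hδ3 : 2 * (k : ℝ) * R * δ ≤ 1)
    (hQ' : 0 < Q') (hδQ' : 7 / (Q' : ℝ) ≤ δ) (he : 0 < e) (hNb : e * Q' ^ k ≤ Nb)
    (hrb : RelBound k l R)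
    (v : ℕ → ℝ)
    (hv : ∀ n, ∑ i, c i * (n.choose (ex i) : ℂ) * l i ^ (n - ex i) = (v n : ℂ))
    (hno : ¬ CertBF k l c ex MH Nb (2 / Q) δ PT) :
    ∃ n0 : ℕ, 0 < n0 ∧ n0 ≤ Nb ∧ ∀ j, k ≤ j → j < k + n0 →
      ∃ (A H : Fin k → Fin k → ℤ) (D : ℤ) (s : ℕ) (w : Fin k → Fin k → ℝ)
        (τ : Fin k → ℝ) (i0 : Fin k), BaseF k l c ex MH Nb (2 / Q) δ n0 j A H D s w τ ‖l i0‖ 0 ∧
        l i0 ≠ 0 ∧
        (∃ z' : Fin k → ℂ, (∀ t, ‖z' t‖ = 1) ∧ (LevF l c ex A s j 0 ‖l i0‖ z').re ≠ 0) ∧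
        (∀ z : Fin k → ℂ, (∀ t, ‖z t‖ = 1) → 0 < (LevF l c ex A s j 0 ‖l i0‖ z).re) ∧
        (∀ m : ℕ, ∃ z : Fin k → ℂ, (∀ t, ‖z t‖ = 1) ∧
          levelSum l c ex n0 j ‖l i0‖ 0 m = LevF l c ex A s j 0 ‖l i0‖ z) ∧
        (∀ m, ∑ i, (if Above ‖l i0‖ 0 (l i) (ex i) then
          c i * ((j + n0 * m).choose (ex i) : ℂ) * l i ^ (j + n0 * m - ex i) else 0) = 0) := by
  classical
  obtain ⟨t, ht, htQ, htδ⟩ := exists_n0 (fun i => nz (l i)) (fun i => norm_nz _) e Q' hQ'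
  set n0 := e * t with hn0def
  have hn0 : 0 < n0 := by positivity
  have hn0Nb : n0 ≤ Nb := (Nat.mul_le_mul_left e htQ).trans hNb
  set μ : Fin k → ℂ := fun i => nz (l i) ^ n0 with hμ
  have hμn : ∀ i, ‖μ i‖ = 1 := fun i => by rw [hμ]; simp only [norm_pow, norm_nz, one_pow]
  have hμδ : ∀ i, ‖μ i - 1‖ ≤ δ := fun i => (htδ i).trans hδQ'
  set θ : Fin k → ℝ := fun i => (μ i).arg with hθ
  have hθδ : ∀ i, |θ i| ≤ 2 * δ := fun i =>
    (abs_arg_le (hμn i)).trans (by have := hμδ i; linarith)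
  have hprodμ : ∀ g : Fin k → ℤ, ∏ i, μ i ^ g i = exp ((∑ i, (g i : ℝ) * θ i : ℝ) * I) :=
    prod_zpow_eq_exp hμn
  have hprodμ' : ∀ g : Fin k → ℤ, ∏ i, μ i ^ g i = (∏ i, nz (l i) ^ g i) ^ n0 :=
    fun g => prod_pow_zpow (fun i => nz (l i)) g n0
  have hrel : ∀ a : Fin k → ℤ, (∀ g : Fin k → ℤ, (∀ i, |g i| ≤ R) →
      ∑ t, (g t : ℝ) * θ t = 0 → ∑ t, a t * g t = 0) →
      ∀ g : Fin k → ℤ, ∑ t, (g t : ℝ) * θ t = 0 → ∑ t, a t * g t = 0 := by
    intro a ha g hg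
    have h1 := hrb a (by
      intro g hg hrel
      apply ha g hg
      have h2 : (∏ i, μ i ^ g i) ^ 2 = 1 := by
        rw [hprodμ', ← pow_mul, mul_comm, pow_mul, hrel, one_pow]
      rw [hprodμ] at h2
      apply eq_zero_of_exp_sq h2
      calc |∑ i, (g i : ℝ) * θ i| ≤ ∑ i, |(g i : ℝ) * θ i| := Finset.abs_sum_le_sum_abs _ _
        _ ≤ ∑ _i : Fin k, (R : ℝ) * (2 * δ) := by
            apply Finset.sum_le_sum
            intro i _
            rw [abs_mul]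
            have h3 : |(g i : ℝ)| ≤ R := by exact_mod_cast hg i
            exact mul_le_mul h3 (hθδ i) (abs_nonneg _) (by positivity)
        _ = 2 * (k : ℝ) * R * δ := by simp; ring
        _ ≤ 1 := hδ3
        _ < Real.pi := by have := Real.pi_gt_three; linarith)
    have h2 : (∏ i, nz (l i) ^ g i) ^ n0 = 1 := by
      rw [← hprodμ', hprodμ, hg]
      simp
    have h3 := h1 (fun i => n0 * g i) (by
      have h4 : ∏ i, nz (l i) ^ ((n0 : ℤ) * g i) = (∏ i, nz (l i) ^ g i) ^ n0 := by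
        rw [← Finset.prod_pow]
        apply Finset.prod_congr rfl
        intro i _
        rw [mul_comm, zpow_mul, zpow_natCast]
      rw [h4, h2, one_pow])
    have h4 : (n0 : ℤ) * ∑ i, a i * g i = 0 := by
      rw [← h3, Finset.mul_sum]
      exact Finset.sum_congr rfl fun i _ => by ring
    rcases mul_eq_zero.mp h4 with h5 | h5
    · exact absurd h5 (by exact_mod_cast hn0.ne')
    · exact h5
  obtain ⟨s, A, H, D, w, τ, hs, hD, hDM, hHA, hA, hH, hw, hwε, _, x, hx0, hx⟩ :=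
    exists_rel_cert R Q MH hR hQ hk θ hrel δ hδ0 hθδ hMH hδ1 hδ2
  have hAM : ∀ l' t, |A l' t| ≤ MH := by
    intro l' t
    refine (hA l' t).trans ?_
    have h1 : Q ^ k + 1 ≤ MH := by
      refine le_trans ?_ hMH
      calc Q ^ k + 1 = 1 * (Q ^ k + 1) ^ 1 := by ring
        _ ≤ k.factorial * (Q ^ k + 1) ^ k :=
            Nat.mul_le_mul k.factorial_pos (Nat.pow_le_pow_right (by omega) hk)
    exact_mod_cast h1
  have hw' : ∀ i : Fin k, (i : ℕ) < s → ∀ l', i ≤ l' → ∑ t, (H l' t : ℝ) * w i t =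
      (if l' = i then (D : ℝ) else 0) - τ i * (∏ t, (nz (l t) ^ n0) ^ H l' t).im := by
    intro i hi l' hl'
    rw [hw i hi l' hl']
    have := hprodμ (H l')
    rw [show (∏ t, (nz (l t) ^ n0) ^ H l' t) = ∏ t, μ t ^ H l' t from rfl, this, im_exp]
  refine ⟨n0, hn0, hn0Nb, fun j hj hj' => ?_⟩
  have hexj : ∀ i, ex i ≤ j := fun i => ((hex i).le.trans hj)
  rcases level_cases l c ex n0 j hn0 hexj with hvan | ⟨i0, hi0, hG, hvan⟩
  · exfalso
    apply hno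
    refine ⟨n0, j, A, H, D, s, w, τ, 0, 0, fun _ => 1, fun _ => 1, ⟨hn0, hn0Nb, hj, hj', hs, hD,
        hDM, hHA, hAM, hH, hμδ, hw', hwε, le_rfl, hk, ?_⟩, fun _ => norm_one, fun _ => norm_one,
        Or.inl rfl⟩
    intro m _
    refine Eq.trans (Finset.sum_congr rfl fun i _ => ?_) (hvan m)
    unfold Above
    by_cases h : l i = 0
    · simp [h]
    · have h1 : 0 < ‖l i‖ := norm_pos_iff.mpr h
      rw [if_pos (Or.inl h1), if_pos h]
  · have hρ : 0 < ‖l i0‖ := norm_pos_iff.mpr hi0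
    have hbase : BaseF k l c ex MH Nb (2 / Q) δ n0 j A H D s w τ ‖l i0‖ (ex i0) :=
      ⟨hn0, hn0Nb, hj, hj', hs, hD, hDM, hHA, hAM, hH, hμδ, hw', hwε, hρ.le, hex i0,
        fun m _ => hvan m⟩
    have hval : ∀ m : ℕ, ∃ z : Fin k → ℂ, (∀ t, ‖z t‖ = 1) ∧
          levelSum l c ex n0 j ‖l i0‖ (ex i0) m = LevF l c ex A s j (ex i0) ‖l i0‖ z := fun m =>
      ⟨_, fun t => norm_exp_ofReal_mul_I _, levelSum_eq l c ex n0 j (ex i0) ‖l i0‖ s A x hx0 hx m⟩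
    have hlev := level_asym l c ex n0 j hn0 hexj ‖l i0‖ (ex i0) hρ hvan
    have hasym : Tendsto (fun M : ℕ => ((v (j + n0 * M) : ℝ) : ℂ) /
        ((‖l i0‖ ^ (n0 * M) * (M : ℝ) ^ (ex i0) : ℝ) : ℂ) -
      ((((j + n0 * M).choose (ex i0) : ℝ) / (M : ℝ) ^ (ex i0) : ℝ) : ℂ) *
        levelSum l c ex n0 j ‖l i0‖ (ex i0) M)
      atTop (𝓝 0) := by
      refine hlev.congr fun M => ?_
      rw [hv]
    obtain ⟨-, -, h3, -⟩ := level_data l c ex n0 j hn0 v ‖l i0‖ (ex i0) hρ hasym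
    have hnt := levelSum_not_tendsto l c ex n0 j hn0 i0 hi0 hG 1 0 (fun i _ h => by simpa using h)
    have hM : ∃ M, (levelSum l c ex n0 j ‖l i0‖ (ex i0) M).re ≠ 0 := by
      by_contra hcon
      push Not at hcon
      apply hnt
      simpa using h3 hcon
    obtain ⟨M, hM⟩ := hM
    obtain ⟨z', hz', hz'e⟩ := hval M
    rw [hz'e] at hM
    have hd : ex i0 = 0 := by
      by_contra hd
      exact hno ⟨n0, j, A, H, D, s, w, τ, ‖l i0‖, ex i0, z', z', hbase, hz', hz',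
        Or.inr ⟨hM, Or.inl (Nat.pos_of_ne_zero hd)⟩⟩
    rw [hd] at hbase hval hvan hM
    refine ⟨A, H, D, s, w, τ, i0, hbase, hi0, ⟨z', hz', hM⟩, ?_, hval, hvan⟩
    intro z hz
    by_contra hcon
    exact hno ⟨n0, j, A, H, D, s, w, τ, ‖l i0‖, 0, z, z', hbase, hz, hz',
        Or.inr ⟨hM, Or.inr (not_lt.mp hcon)⟩⟩

end Pool.Agent.DD7719.M
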