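import Pool.Agent.DD7719.TSound
import Pool.Agent.DD7719.TClass

/-! Soundness of the certificates of non-tameness, and a bound for the certified minima. -/

set_option autoImplicit false

namespace Pool.Agent.DD7719.M

open Complex Filter Topology

variable {k : ℕ}

theorem tm_sound (l c : Fin k → ℂ) (ex : Fin k → ℕ) (R M Nb : ℕ) (ε δ : ℝ) (hk : 0 < k)
    (hex : ∀ i, ex i < k) (hdc : ∀ i, ∀ e, e < ex i → ∃ i', l i' = l i ∧ ex i' = e)
    (hR : 1 ≤ R) (hM : 1 ≤ M)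
    (hrb : RelBound k l R) (hε : 4 * k * R * ε ≤ 1) (hδ : 8 * k ^ 3 * M ^ 2 * R * δ ≤ 1)
    (v : ℕ → ℝ)
    (hv : ∀ n, ∑ i, c i * (n.choose (ex i) : ℂ) * l i ^ (n - ex i) = (v n : ℂ))
    (hc : CertBF k l c ex M Nb ε δ PT) : ¬ Tm v := by
  classical
  rintro ⟨N, hN, hT⟩
  obtain ⟨n0, j, A, H, D, s, w, τ, ρ, d, z, z', hbase, hz, hz', hP⟩ := hc
  obtain ⟨ρJ, b, B, hρJ, hb, hev⟩ := hT (j % N) (Nat.mod_lt _ hN)
  have hbase' := hbase
  obtain ⟨hn0, _, hj, _, hs, hD, hDM, hHA, hA, hH, hδ', hw, hwε, hρ, hd, hvan⟩ := hbase'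
  rcases hρ.eq_or_lt with h0 | hρpos
  · have hvan' : ∀ m, ∑ i, (if Above ρ d (l i) (ex i) then
        c i * ((j + n0 * m).choose (ex i) : ℂ) * l i ^ (j + n0 * m - ex i) else 0) = 0 :=
      vanish_gen l c ex hdc (fun i => Above ρ d (l i) (ex i)) j n0 hvan
    rw [eventually_atTop] at hev
    obtain ⟨N0, hN0⟩ := hev
    have h1 := (hN0 (j / N + n0 * N0)
      ((Nat.le_mul_of_pos_left N0 hn0).trans (Nat.le_add_left _ _))).1
    have hidx : N * (j / N + n0 * N0) + j % N = j + n0 * (N * N0) := by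
      have := Nat.div_add_mod j N
      calc N * (j / N + n0 * N0) + j % N = (N * (j / N) + j % N) + n0 * (N * N0) := by ring
        _ = _ := by rw [this]
    rw [hidx] at h1
    have h2 : ∑ i, c i * ((j + n0 * (N * N0)).choose (ex i) : ℂ) * l i ^ (j + n0 * (N * N0) - ex i) =
        ∑ i, (if Above ρ d (l i) (ex i) then c i * ((j + n0 * (N * N0)).choose (ex i) : ℂ) *
          l i ^ (j + n0 * (N * N0) - ex i) else 0) := by
      apply Finset.sum_congr rfl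
      intro i _
      split_ifs with h
      · rfl
      · have h3 : l i = 0 := by
          by_contra h4
          apply h
          left
          rw [← h0]
          exact norm_pos_iff.mpr h4
        rw [h3, zero_pow, mul_zero]
        have := hex i
        omega
    rw [hv, hvan' (N * N0)] at h2
    have h3 : v (j + n0 * (N * N0)) = 0 := by exact_mod_cast h2
    have h4 : 0 < b * ρJ ^ (j / N + n0 * N0) := by positivity
    linarith
  · obtain ⟨hne, hlast⟩ := hP.resolve_left hρpos.ne'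
    obtain ⟨hd0, hb'⟩ := tame_sound l c ex R M Nb ε δ hk hex hdc hR hM hrb hε hδ v hv n0 j A H D s w τ ρ
      d hbase hρpos z' hz' hne N hN ρJ b B hρJ hb hev
    have h1 := hb' z hz
    have h2 : 0 < b * ρJ ^ (j / N) := by positivity
    rcases hlast with h3 | h3
    · omega
    · linarith

theorem tm_bounded (v : ℕ → ℝ) (hT : Tm v) (K : ℕ) : ∃ X : ℝ, ∀ (t : ℝ) (l c : Fin k → ℂ)
    (ex : Fin k → ℕ) (R M Nb : ℕ) (ε δ : ℝ), 0 < k → k + Nb ≤ K →
    (∀ i, ex i < k) → (∀ i, ∀ e, e < ex i → ∃ i', l i' = l i ∧ ex i' = e) →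
    1 ≤ R → 1 ≤ M → RelBound k l R → 4 * k * R * ε ≤ 1 → 8 * k ^ 3 * M ^ 2 * R * δ ≤ 1 →
    (∀ n, ∑ i, c i * (n.choose (ex i) : ℂ) * l i ^ (n - ex i) = (v n : ℂ)) →
    CertBF k l c ex M Nb ε δ (PR t) → t ≤ X := by
  classical
  obtain ⟨N, hN, hT⟩ := hT
  choose! ρJ b B hρJ hb hev using hT
  -- the minimum
  obtain ⟨m0, hm0, hmin⟩ : ∃ m0 : ℝ, 0 < m0 ∧ ∀ J < N, ∀ q ≤ K, m0 ≤ b J * ρJ J ^ q := by
    have hne : ((Finset.range N ×ˢ Finset.range (K + 1)).Nonempty) :=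
      ⟨(0, 0), by simp [hN]⟩
    obtain ⟨p, hp, hpmin⟩ := Finset.exists_min_image (Finset.range N ×ˢ Finset.range (K + 1))
      (fun p => b p.1 * ρJ p.1 ^ p.2) hne
    rw [Finset.mem_product, Finset.mem_range, Finset.mem_range] at hp
    have h1 := hρJ p.1 hp.1
    have h2 := hb p.1 hp.1
    refine ⟨b p.1 * ρJ p.1 ^ p.2, by positivity, fun J hJ q hq => ?_⟩
    exact hpmin (J, q) (by simp; omega)
  refine ⟨1 / m0, ?_⟩
  rintro t l c ex R M Nb ε δ hk hK hex hdc hR hM hrb hε hδ hv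
    ⟨n0, j, A, H, D, s, w, τ, ρ, d, z, z', hbase, hz, hz', hρpos, -, hne, hle⟩
  have hjK : j / N ≤ K := by
    obtain ⟨hn0, hn0', hj, hj', -⟩ := hbase
    have := Nat.div_le_self j N
    omega
  have hJ := Nat.mod_lt j hN
  obtain ⟨-, hb'⟩ := tame_sound l c ex R M Nb ε δ hk hex hdc hR hM hrb hε hδ v hv n0 j A H D s w τ ρ
      d hbase hρpos z' hz' hne N hN (ρJ (j % N)) (b (j % N)) (B (j % N)) (hρJ _ hJ) (hb _ hJ)
      (hev _ hJ)
  have h1 := (hmin _ hJ _ hjK).trans (hb' z hz)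
  rw [le_div_iff₀ hm0]
  by_cases ht : t ≤ 0
  · nlinarith
  · push Not at ht
    calc t * m0 ≤ t * (LevF l c ex A s j d ρ z).re := mul_le_mul_of_nonneg_left h1 ht.le
      _ ≤ 1 := hle

end Pool.Agent.DD7719.M
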