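import Pool.Agent.DD7719.RootEx

/-! The coefficients of root data of a given sequence are bounded. -/

set_option autoImplicit false

namespace Pool.Agent.DD7719.M

open Polynomial Finset

lemma RootData.mem {k : ℕ} {a u : ℕ → ℝ} {l c : ℕ → ℂ} {ex : ℕ → ℕ}
    (h : RootData k a u l c ex) (i : Fin k) : ex i < (cp k (fun t => (a t : ℂ))).roots.count (l i) := by
  rw [count_roots, ← Nat.succ_le_iff, le_rootMultiplicity_iff (cp_monic k _).ne_zero]
  apply pow_dvd_of_hasse
  intro e he
  rw [hasse_cp, sub_eq_zero]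
  exact h.2.2.1 i i.2 e (by omega)

lemma RootData.surj {k : ℕ} {a u : ℕ → ℝ} {l c : ℕ → ℂ} {ex : ℕ → ℕ}
    (h : RootData k a u l c ex) (z : ℂ) (e : ℕ)
    (he : e < (cp k (fun t => (a t : ℂ))).roots.count z) :
    ∃ i : Fin k, l i = z ∧ ex i = e := by
  classical
  set p := cp k (fun t => (a t : ℂ)) with hp
  have hcard : Multiset.card p.roots = k := by
    conv_rhs => rw [← cp_natDegree k (fun t => (a t : ℂ))]
    exact (splits_iff_card_roots.mp (IsAlgClosed.splits p))
  set S := p.roots.toEnumFinset with hS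
  have hScard : S.card = k := by rw [hS, Multiset.card_toEnumFinset, hcard]
  set T : Finset (ℂ × ℕ) := Finset.univ.image fun i : Fin k => ((l i, ex i) : ℂ × ℕ) with hT
  have hTcard : T.card = k := by
    rw [hT, Finset.card_image_of_injective, Finset.card_univ, Fintype.card_fin]
    intro i i' hii'
    by_contra hne
    have hne' : (i : ℕ) ≠ i' := fun h => hne (Fin.ext h)
    have h1 := Prod.ext_iff.mp hii'
    rcases h.2.1 i i.2 i' i'.2 hne' with h' | h'
    · exact h' h1.1
    · exact h' h1.2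
  have hTS : T ⊆ S := by
    intro x hx
    obtain ⟨i, _, rfl⟩ := Finset.mem_image.mp hx
    exact (Multiset.mem_toEnumFinset _ _).mpr (h.mem i)
  have hEq : T = S := Finset.eq_of_subset_of_card_le hTS (by rw [hTcard, hScard])
  have h2 : ((z, e) : ℂ × ℕ) ∈ S := (Multiset.mem_toEnumFinset _ _).mpr he
  rw [← hEq, hT] at h2
  obtain ⟨i', _, hi'⟩ := Finset.mem_image.mp h2
  exact ⟨i', congrArg Prod.fst hi', congrArg Prod.snd hi'⟩

/-- the confluent Vandermonde matrix -/
def vmat (k : ℕ) (f : Fin k → ℂ × ℕ) : Matrix (Fin k) (Fin k) ℂ :=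
  fun n i => ((n : ℕ).choose (f i).2 : ℂ) * (f i).1 ^ ((n : ℕ) - (f i).2)

lemma RootData.det_ne_zero {k : ℕ} {a u : ℕ → ℝ} {l c : ℕ → ℂ} {ex : ℕ → ℕ}
    (h : RootData k a u l c ex) : (vmat k fun i => (l i, ex i)).det ≠ 0 := by
  classical
  set p := cp k (fun t => (a t : ℂ)) with hp
  have hcard : Multiset.card p.roots = k := by
    conv_rhs => rw [← cp_natDegree k (fun t => (a t : ℂ))]
    exact (splits_iff_card_roots.mp (IsAlgClosed.splits p))
  intro h0
  obtain ⟨v, hv0, hv⟩ := Matrix.exists_vecMul_eq_zero_iff.mpr h0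
  let q : ℂ[X] := ∑ n : Fin k, C (v n) * X ^ (n : ℕ)
  have hq : ∀ i : Fin k, (hasseDeriv (ex i) q).eval (l i) = 0 := by
    intro i
    have h1 := congrFun hv i
    simp only [Matrix.vecMul, dotProduct, Pi.zero_apply] at h1
    simp only [q, map_sum, eval_finsetSum, hasse_C_mul_X_pow]
    rw [← h1]
    apply Finset.sum_congr rfl
    intro n _
    simp only [vmat]
    ring
  have hqdeg : q.degree < k := by
    rw [degree_lt_iff_coeff_zero]
    intro m hm
    simp only [q, finsetSum_coeff]
    apply Finset.sum_eq_zero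
    intro n _
    rw [coeff_C_mul_X_pow, if_neg]
    omega
  have hq0 : q ≠ 0 := by
    intro h
    apply hv0
    ext n
    have := congrArg (fun r => coeff r (n : ℕ)) h
    simp only [q, finsetSum_coeff, coeff_C_mul_X_pow, coeff_zero] at this
    rw [Finset.sum_eq_single n] at this
    · simpa using this
    · intro b _ hb
      rw [if_neg]
      intro h
      exact hb (Fin.ext h.symm)
    · simp
  have hle : p.roots ≤ q.roots := by
    rw [Multiset.le_iff_count]
    intro z
    rw [count_roots q, le_rootMultiplicity_iff hq0]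
    apply pow_dvd_of_hasse
    intro e he
    obtain ⟨i, hi1, hi2⟩ := h.surj z e he
    rw [← hi1, ← hi2]
    exact hq i
  have h1 := Multiset.card_le_card hle
  rw [hcard] at h1
  have h2 := card_roots' q
  have h3 : q.natDegree < k := by
    rw [natDegree_lt_iff_degree_lt hq0]
    exact hqdeg
  omega

theorem rootData_bounded (k : ℕ) (a u : ℕ → ℝ) : ∃ X : ℝ, ∀ (l c : ℕ → ℂ) (ex : ℕ → ℕ),
    RootData k a u l c ex → ∑ i ∈ range k, ‖c i‖ ≤ X := by
  classical
  set p := cp k (fun t => (a t : ℂ)) with hp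
  set S := p.roots.toEnumFinset with hS
  let g : (Fin k → ℂ × ℕ) → ℝ := fun f =>
    ∑ i, ‖((vmat k f)⁻¹.mulVec fun n : Fin k => (u n : ℂ)) i‖
  refine ⟨∑ f ∈ Fintype.piFinset (fun _ : Fin k => S), g f, ?_⟩
  intro l c ex h
  let f : Fin k → ℂ × ℕ := fun i => (l i, ex i)
  have hf : f ∈ Fintype.piFinset (fun _ : Fin k => S) := by
    rw [Fintype.mem_piFinset]
    intro i
    exact (Multiset.mem_toEnumFinset _ _).mpr (h.mem i)
  have h1 : g f ≤ ∑ f ∈ Fintype.piFinset (fun _ : Fin k => S), g f :=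
    Finset.single_le_sum (f := g) (fun f _ => Finset.sum_nonneg fun i _ => norm_nonneg _) hf
  refine le_trans (le_of_eq ?_) h1
  have hdet := h.det_ne_zero
  have hc : (vmat k f)⁻¹.mulVec (fun n : Fin k => (u n : ℂ)) = fun i : Fin k => c i := by
    have h2 : (vmat k f).mulVec (fun i : Fin k => c i) = fun n : Fin k => (u n : ℂ) := by
      ext n
      have h3 := h.2.2.2 n n.2
      rw [Finset.sum_range] at h3
      rw [← h3]
      simp only [Matrix.mulVec, dotProduct, vmat, f]
      apply Finset.sum_congr rfl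
      intro i _
      ring
    rw [← h2, Matrix.mulVec_mulVec, Matrix.nonsing_inv_mul _ (isUnit_iff_ne_zero.mpr hdet),
      Matrix.one_mulVec]
  simp only [g]
  rw [hc, Finset.sum_range]

end Pool.Agent.DD7719.M
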