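import Pool.Agent.DD7719.TClass

/-! Sequences without a certificate of non-tameness are tame. -/

set_option autoImplicit false

namespace Pool.Agent.DD7719.M

open Complex Filter Topology GS

variable {k : ℕ}

theorem tm_of_not_cert (l c : Fin k → ℂ) (ex : Fin k → ℕ) (R Q MH Q' e Nb : ℕ) (hk : 0 < k)
    (hex : ∀ i, ex i < k)
    (hR : 1 ≤ R)
    (hQ : 2 * k * R ≤ Q) (hMH : k.factorial * (Q ^ k + 1) ^ k ≤ MH) (δ : ℝ)
    (hδ0 : 0 ≤ δ) (hδ1 : 2 * k * MH * δ ≤ 1)
    (hδ2 : (k : ℝ) ^ 4 * (Q ^ k + 1) * Q ^ (k + 1) * MH ^ 3 * δ ^ 2 ≤ 1)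
    (hδ3 : 2 * (k : ℝ) * R * δ ≤ 1)
    (hQ' : 0 < Q') (hδQ' : 7 / (Q' : ℝ) ≤ δ) (he : 0 < e) (hNb : e * Q' ^ k ≤ Nb)
    (hrb : RelBound k l R)
    (v : ℕ → ℝ)
    (hv : ∀ n, ∑ i, c i * (n.choose (ex i) : ℂ) * l i ^ (n - ex i) = (v n : ℂ))
    (hno : ¬ CertBF k l c ex MH Nb (2 / Q) δ PT) : Tm v := by
  classical
  obtain ⟨n0, hn0, -, hcls⟩ := class_data l c ex R Q MH Q' e Nb hk hex hR hQ hMH δ hδ0 hδ1 hδ2 hδ3
    hQ' hδQ' he hNb hrb v hv hno
  refine ⟨n0, hn0, fun J hJ => ?_⟩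
  -- the representative of the class
  obtain ⟨q, hq1, hq2⟩ : ∃ q, k ≤ J + n0 * q ∧ J + n0 * q < k + n0 := by
    by_cases hkJ : k ≤ J
    · exact ⟨0, by simpa using hkJ, by simpa using by omega⟩
    · push Not at hkJ
      refine ⟨(k - J + n0 - 1) / n0, ?_, ?_⟩
      · have h1 := Nat.div_add_mod (k - J + n0 - 1) n0
        have h2 := Nat.mod_lt (k - J + n0 - 1) hn0
        omega
      · have h1 := Nat.mul_div_le (k - J + n0 - 1) n0
        omega
  obtain ⟨A, H, D, s, w, τ, i0, -, hi0, -, hpos, hval, hvan⟩ := hcls (J + n0 * q) hq1 hq2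
  have hρ : 0 < ‖l i0‖ := norm_pos_iff.mpr hi0
  set ρ := ‖l i0‖ with hρdef
  obtain ⟨μ, hμ, hμb⟩ := exists_torus_bound l c ex A s (J + n0 * q) 0 ρ hpos
  have hexj : ∀ i, ex i ≤ J + n0 * q := fun i => ((hex i).le.trans hq1)
  have hlev := level_asym l c ex n0 (J + n0 * q) hn0 hexj ρ 0 hρ hvan
  have hasym : Tendsto (fun M : ℕ => ((v (J + n0 * q + n0 * M) : ℝ) : ℂ) /
        ((ρ ^ (n0 * M) * (M : ℝ) ^ 0 : ℝ) : ℂ) -
      ((((J + n0 * q + n0 * M).choose 0 : ℝ) / (M : ℝ) ^ 0 : ℝ) : ℂ) *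
        levelSum l c ex n0 (J + n0 * q) ρ 0 M)
      atTop (𝓝 0) := by
    refine hlev.congr fun M => ?_
    rw [hv]
  obtain ⟨⟨B, hB⟩, -, -, h4⟩ := level_data l c ex n0 (J + n0 * q) hn0 v ρ 0 hρ hasym
  obtain ⟨b, hb, hb'⟩ := h4 μ hμ (fun M => by
    obtain ⟨z, hz, hze⟩ := hval M
    rw [hze]
    exact hμb z hz)
  have hρn : 0 < ρ ^ n0 := by positivity
  refine ⟨ρ ^ n0, b / (ρ ^ n0) ^ q, B / (ρ ^ n0) ^ q, hρn, by positivity, ?_⟩
  have hsub : Tendsto (fun m : ℕ => m - q) atTop atTop := tendsto_sub_atTop_nat q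
  filter_upwards [hsub.eventually hB, hsub.eventually hb', eventually_ge_atTop q] with m h1 h2 hm
  have e1 : J + n0 * q + n0 * (m - q) = n0 * m + J := by
    obtain ⟨r, rfl⟩ := Nat.exists_eq_add_of_le hm
    rw [Nat.add_sub_cancel_left]
    ring
  have e2 : (ρ ^ n0) ^ m = (ρ ^ n0) ^ q * (ρ ^ n0) ^ (m - q) := by
    rw [← pow_add, Nat.add_sub_cancel' hm]
  rw [e1, pow_zero, mul_one] at h1 h2
  constructor
  · calc b / (ρ ^ n0) ^ q * (ρ ^ n0) ^ m = b * (ρ ^ n0) ^ (m - q) := by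
          rw [e2]
          field_simp
      _ ≤ _ := h2
  · calc v (n0 * m + J) ≤ |v (n0 * m + J)| := le_abs_self _
      _ ≤ B * (ρ ^ n0) ^ (m - q) := h1
      _ = B / (ρ ^ n0) ^ q * (ρ ^ n0) ^ m := by
          rw [e2]
          field_simp

/-- **Explicit positivity.** A class with an exact level is positive as soon as the lower terms are
smaller than the minimum on the torus. -/
theorem class_pos (l c : Fin k → ℂ) (ex : Fin k → ℕ) (hex : ∀ i, ex i < k) (n0 j : ℕ)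
    (hj : k ≤ j) (v : ℕ → ℝ)
    (hv : ∀ n, ∑ i, c i * (n.choose (ex i) : ℂ) * l i ^ (n - ex i) = (v n : ℂ))
    (ρ : ℝ) (hρ : 0 < ρ) (hvan : open scoped Classical in ∀ m, ∑ i, (if Above ρ 0 (l i) (ex i) then
          c i * ((j + n0 * m).choose (ex i) : ℂ) * l i ^ (j + n0 * m - ex i) else 0) = 0)
    (μ γ Rt : ℝ) (hγ : γ ≤ 1) (hRt : 1 ≤ Rt) (hl : ∀ i, ‖l i‖ ≤ Rt)
    (hgap : ∀ i, ‖l i‖ < ρ → ‖l i‖ ≤ (1 - γ) * ρ) (m : ℕ)
    (hμ : μ ≤ (levelSum l c ex n0 j ρ 0 m).re)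
    (hbig : (∑ i, ‖c i‖) * ((j + n0 * m : ℕ) : ℝ) ^ k * Rt ^ j * (1 - γ) ^ (n0 * m) < μ) :
    0 < v (j + n0 * m) := by
  classical
  set n := j + n0 * m with hn
  have hkn : k ≤ n := by omega
  set low : ℂ := ∑ i, (if ‖l i‖ < ρ then c i * (n.choose (ex i) : ℂ) * l i ^ (n - ex i) else 0)
    with hlow
  have h1 : (v n : ℂ) = (ρ : ℂ) ^ (n0 * m) * levelSum l c ex n0 j ρ 0 m + low := by
    have key : ∑ i, c i * (n.choose (ex i) : ℂ) * l i ^ (n - ex i) =
        (∑ i, (ρ : ℂ) ^ (n0 * m) * (if ‖l i‖ = ρ ∧ ex i = 0 then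
          c i * l i ^ (j - 0) * (nz (l i) ^ n0) ^ m else 0) + low) +
        ∑ i, (if Above ρ 0 (l i) (ex i) then
          c i * ((j + n0 * m).choose (ex i) : ℂ) * l i ^ (j + n0 * m - ex i) else 0) := by
      rw [hlow, ← Finset.sum_add_distrib, ← Finset.sum_add_distrib]
      apply Finset.sum_congr rfl
      intro i _
      by_cases hA : Above ρ 0 (l i) (ex i)
      · have h3 : ¬ (‖l i‖ = ρ ∧ ex i = 0) := by
          rintro ⟨h4, h5⟩
          rcases hA with h6 | ⟨_, _, h6⟩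
          · exact h6.ne' h4
          · omega
        have h4 : ¬ ‖l i‖ < ρ := by
          rcases hA with h6 | ⟨h6, _, _⟩
          · exact h6.le.not_gt
          · exact h6.ge.not_gt
        rw [if_pos hA, if_neg h3, if_neg h4]
        ring
      · by_cases hL : ‖l i‖ = ρ ∧ ex i = 0
        · obtain ⟨h5, h6⟩ := hL
          rw [if_neg hA, if_pos ⟨h5, h6⟩, if_neg (by rw [h5]; exact lt_irrefl _), h6,
            Nat.choose_zero_right, Nat.sub_zero, Nat.sub_zero, hn, pow_add, pow_mul (l i),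
            ← nz_pow_eq n0, h5]
          push_cast
          rw [mul_pow, ← pow_mul]
          ring
        · have h5 : ‖l i‖ < ρ := by
            unfold Above at hA
            push Not at hA
            rcases lt_or_eq_of_le hA.1 with h6 | h6
            · exact h6
            · exfalso
              apply hL
              refine ⟨h6, ?_⟩
              have := hA.2 h6 hρ
              omega
          rw [if_neg hA, if_neg hL, if_pos h5]
          ring
    rw [← hv n, key, hvan m, add_zero, levelSum, Finset.mul_sum]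
  have h2 : ‖low‖ ≤ (∑ i, ‖c i‖) * (n : ℝ) ^ k * Rt ^ j * (1 - γ) ^ (n0 * m) * ρ ^ (n0 * m) := by
    rw [hlow]
    refine (norm_sum_le _ _).trans ?_
    rw [Finset.sum_mul, Finset.sum_mul, Finset.sum_mul, Finset.sum_mul]
    apply Finset.sum_le_sum
    intro i _
    have hnn : (0 : ℝ) ≤ (1 - γ) ^ (n0 * m) := by
      have : 0 ≤ 1 - γ := by linarith
      positivity
    split_ifs with hi
    · rw [norm_mul, norm_mul, norm_pow, Complex.norm_natCast]
      have e1 : (n.choose (ex i) : ℝ) ≤ (n : ℝ) ^ k := by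
        have h3 : n.choose (ex i) ≤ n ^ (ex i) := Nat.choose_le_pow n (ex i)
        have h4 : n ^ (ex i) ≤ n ^ k := by
          rcases Nat.eq_zero_or_pos n with h0 | h0
          · have : k = 0 := by omega
            have := hex i
            omega
          · exact Nat.pow_le_pow_right h0 (hex i).le
        exact_mod_cast h3.trans h4
      have e2 : ‖l i‖ ^ (n - ex i) ≤ Rt ^ j * ((1 - γ) ^ (n0 * m) * ρ ^ (n0 * m)) := by
        have e3 : n - ex i = (j - ex i) + n0 * m := by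
          have := hex i
          omega
        rw [e3, pow_add]
        apply mul_le_mul
        · calc ‖l i‖ ^ (j - ex i) ≤ Rt ^ (j - ex i) := pow_le_pow_left₀ (norm_nonneg _) (hl i) _
            _ ≤ Rt ^ j := pow_le_pow_right₀ hRt (Nat.sub_le _ _)
        · rw [← mul_pow]
          exact pow_le_pow_left₀ (norm_nonneg _) (hgap i hi) _
        · positivity
        · positivity
      calc ‖c i‖ * (n.choose (ex i) : ℝ) * ‖l i‖ ^ (n - ex i)
          ≤ ‖c i‖ * (n : ℝ) ^ k * (Rt ^ j * ((1 - γ) ^ (n0 * m) * ρ ^ (n0 * m))) := by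
            apply mul_le_mul _ e2 (by positivity) (by positivity)
            exact mul_le_mul_of_nonneg_left e1 (norm_nonneg _)
        _ = _ := by ring
    · rw [norm_zero]
      positivity
  have h3 : v n = ρ ^ (n0 * m) * (levelSum l c ex n0 j ρ 0 m).re + low.re := by
    have h4 := congrArg Complex.re h1
    rw [ofReal_re, add_re, ← ofReal_pow, re_ofReal_mul] at h4
    exact h4
  have h4 : -‖low‖ ≤ low.re := neg_le_of_abs_le (abs_re_le_norm _)
  have hρn : 0 < ρ ^ (n0 * m) := by positivity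
  rw [h3]
  have h5 : ρ ^ (n0 * m) * μ ≤ ρ ^ (n0 * m) * (levelSum l c ex n0 j ρ 0 m).re :=
    mul_le_mul_of_nonneg_left hμ hρn.le
  have h6 := mul_lt_mul_of_pos_left hbig hρn
  nlinarith

end Pool.Agent.DD7719.M
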