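import Pool.Agent.DD7719.TCertRE
import Pool.Agent.DD7719.TClass

/-! The existential real conditions for tame positivity. -/

set_option autoImplicit false

namespace Pool.Agent.DD7719.M

open Complex Filter Topology
open Pool.Agent.PT Pool.Agent.AllR

variable {Γ : Type}

theorem re_PT {t ρ f f' : List Γ → (ℕ → ℕ) → (ℕ → ℝ) → ℝ} {d : List Γ → (ℕ → ℕ) → ℕ} (_ : RF t)
    (hρ : RF ρ) (hf : RF f) (hf' : RF f') (hd : UF d) :
    RE (fun x e α => (fun _ => PT) (t x e α) (ρ x e α) (d x e) (f x e α) (f' x e α)) := by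
  unfold PT
  exact RE.or (RE.eq hρ RF.zero) (RE.and (RE.ne hf' RF.zero) (RE.or
    (RE.up (UP.lt (UF.const 0) hd)) (RE.le hf RF.zero)))

theorem re_PR {t ρ f f' : List Γ → (ℕ → ℕ) → (ℕ → ℝ) → ℝ} {d : List Γ → (ℕ → ℕ) → ℕ} (ht : RF t)
    (hρ : RF ρ) (hf : RF f) (hf' : RF f') (hd : UF d) :
    RE (fun x e α => PR (t x e α) (ρ x e α) (d x e) (f x e α) (f' x e α)) := by
  unfold PR
  exact RE.and (RE.lt RF.zero hρ) (RE.and (RE.up (UP.eq hd (UF.const 0)))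
    (RE.and (RE.ne hf' RF.zero) (RE.le (ht.mul hf) RF.one)))

/-- the `n`-th term computed from root data -/
noncomputable def termN (k : ℕ) (l c : ℕ → ℂ) (ex : ℕ → ℕ) (n : ℕ) : ℂ :=
  ∑ i ∈ Finset.range k, c i * (n.choose (ex i) : ℂ) * l i ^ (n - ex i)

section
variable (kk b : List Γ → ℕ) (aR uR : List Γ → ℕ → ℝ)
  (hk : UF (fun x _ => kk x)) (hb : UF (fun x _ => b x))
  (ha : RF (fun x e _ => aR x (e 0))) (hu : RF (fun x e _ => uR x (e 0)))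

theorem small_iff (k b : ℕ) (a u : ℕ → ℝ) :
    (∃ (l c : ℕ → ℂ) (ex : ℕ → ℕ), RootData k a u l c ex ∧ ∃ n, n < 2 ^ b ∧
      (termN k l c ex n).re ≤ 0) ↔ ∃ α : ℕ → ℝ, RootData k a u (rl α) (rc α) (rex k α) ∧
      (termN k (rl α) (rc α) (rex k α) (rn0 b α)).re ≤ 0 := by
  constructor
  · rintro ⟨l, c, ex, hR, n, hn, h⟩
    refine ⟨encAll l c ex n 0 0 0 0 0 0 0 0 0, ?_⟩
    have hex : ∀ i, i < k → rex k (encAll l c ex n 0 0 0 0 0 0 0 0 0) i = ex i :=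
      fun i hi => rex_enc _ _ _ _ _ _ _ _ _ _ _ _ _ _ _ (hR.1 i hi)
    rw [rl_enc, rc_enc, rn0_enc _ _ _ _ _ _ _ _ _ _ _ _ _ _ hn]
    refine ⟨rootData_congr hex hR, ?_⟩
    convert h using 2
    unfold termN
    refine Finset.sum_congr rfl fun i hi => ?_
    rw [hex i (Finset.mem_range.mp hi)]
  · rintro ⟨α, hR, h⟩
    exact ⟨_, _, _, hR, _, decN_lt _ _, h⟩

include hk hb ha hu in
/-- a small nonpositive term is an existential real condition -/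
theorem re_small : RE (fun x _ _ => ∃ (l c : ℕ → ℂ) (ex : ℕ → ℕ),
    RootData (kk x) (aR x) (uR x) l c ex ∧ ∃ n, n < 2 ^ b x ∧ (termN (kk x) l c ex n).re ≤ 0) := by
  have h1 : RE (fun x _ _ => ∃ α : ℕ → ℝ, RootData (kk x) (aR x) (uR x) (rl α) (rc α) (rex (kk x) α) ∧
      (termN (kk x) (rl α) (rc α) (rex (kk x) α) (rn0 (b x) α)).re ≤ 0) := by
    refine RE.exb ?_
    refine RE.aff (R := fun x e α => RootData (kk x) (aR x) (uR x) (rl α) (rc α) (rex (kk x) α) ∧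
      (termN (kk x) (rl α) (rc α) (rex (kk x) α) (rn0 (b x) α)).re ≤ 0) ?_ 2 1
    refine RE.and (re_rootData kk aR uR hk ha hu) (RE.le (CF.re ?_) RF.zero)
    unfold termN
    refine CF.sum hk ?_
    refine CF.msub (m := fun x e α => rex (kk x) α (e 0))
      (f := fun x e α q => rc α (e 0) * ((rn0 (b x) α).choose q : ℂ) *
        rl α (e 0) ^ (rn0 (b x) α - q))
      (ns_rex hk (UF.var 0)) ?_
    have hN : NF (Γ := Γ) (fun x e α => rn0 (b x) α) := nf_rn0 hb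
    exact ((cf_rc (UF.var 1)).mul (CF.choose hN (UF.var 0))).mul
      (CF.npow (cf_rl (UF.var 1)) (hN.tsub (NF.uf (UF.var 0))))
  exact h1.congr fun x _ _ => (small_iff _ _ _ _).symm

theorem coef_iff (k : ℕ) (a u : ℕ → ℝ) (t : ℝ) :
    (∃ (l c : ℕ → ℂ) (ex : ℕ → ℕ), RootData k a u l c ex ∧ t ≤ ∑ i ∈ Finset.range k, ‖c i‖) ↔
      ∃ α : ℕ → ℝ, RootData k a u (rl α) (rc α) (rex k α) ∧
        t ≤ ∑ i ∈ Finset.range k, ‖rc α i‖ := by
  constructor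
  · rintro ⟨l, c, ex, hR, h⟩
    refine ⟨encAll l c ex 0 0 0 0 0 0 0 0 0 0, ?_⟩
    have hex : ∀ i, i < k → rex k (encAll l c ex 0 0 0 0 0 0 0 0 0 0) i = ex i :=
      fun i hi => rex_enc _ _ _ _ _ _ _ _ _ _ _ _ _ _ _ (hR.1 i hi)
    rw [rl_enc, rc_enc]
    exact ⟨rootData_congr hex hR, h⟩
  · rintro ⟨α, hR, h⟩
    exact ⟨_, _, _, hR, h⟩

include hk ha hu in
/-- the size of the coefficients -/
theorem re_coef : RE (fun x _ α => ∃ (l c : ℕ → ℂ) (ex : ℕ → ℕ),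
    RootData (kk x) (aR x) (uR x) l c ex ∧ α 0 ≤ ∑ i ∈ Finset.range (kk x), ‖c i‖) := by
  have h1 : RE (fun x _ α => ∃ γ : ℕ → ℝ, RootData (kk x) (aR x) (uR x) (rl γ) (rc γ) (rex (kk x) γ) ∧
      α 0 ≤ ∑ i ∈ Finset.range (kk x), ‖rc γ i‖) := by
    refine RE.exb ?_
    refine RE.and (RE.aff (R := fun x e α => RootData (kk x) (aR x) (uR x) (rl α) (rc α)
      (rex (kk x) α)) (re_rootData kk aR uR hk ha hu) 2 1) ?_
    refine RE.le (RF.var (UF.const 0)) ?_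
    refine RF.aff (f := fun x e α => ∑ i ∈ Finset.range (kk x), ‖rc α i‖) ?_ 2 1
    exact RF.sum hk (cf_rc (UF.var 0)).norm
  exact h1.congr fun x _ _ => (coef_iff _ _ _ _).symm

end

end Pool.Agent.DD7719.M
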