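import Pool.Agent.DD7719.Assemble
import Pool.Agent.DD7719.TArith
import Pool.Agent.DD7719.TBound
import Pool.Agent.DD7719.TComplete
import Pool.Agent.DD7719.TCoef
import Pool.Agent.DD7719.TRel

/-! Assembly: tame positivity for instances. -/

set_option autoImplicit false

namespace Pool.Agent.UltPos

open Pool.Agent.PT Pool.Agent.AllR Pool.Agent.DD7719.M Pool.Agent.DD7719 Finset

section
variable (I : Inst) (L : ℕ) (hkL : I.k ≤ L)
    (hb : ∀ i, (I.aNum i).natAbs ≤ 2 ^ L ∧ I.aDen i ≤ 2 ^ L) (aR uR : ℕ → ℝ)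
    (ha : ∀ t (h : t < I.k), aR t = (I.a ⟨t, h⟩ : ℝ)) (hu : ∀ t (h : t < I.k), uR t = (I.u ⟨t, h⟩ : ℝ))
    (v : ℕ → ℚ) (hv : I.IsSeq v)

lemma Inst.den_pos' (I : Inst) : ∀ t, t < I.k → 0 < I.den t := by
  intro t ht
  simp only [Inst.den, ht, dif_pos]
  exact I.aDen_pos _

include hb in
lemma Inst.num_le' : ∀ t, t < I.k → (I.num t).natAbs ≤ 2 ^ L := by
  intro t ht
  simp only [Inst.num, ht, dif_pos]
  exact (hb _).1

include hb in
lemma Inst.den_le' : ∀ t, t < I.k → I.den t ≤ 2 ^ L := by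
  intro t ht
  simp only [Inst.den, ht, dif_pos]
  exact (hb _).2

include ha in
lemma Inst.root_eq' {l c : ℕ → ℂ} {ex : ℕ → ℕ} (hrd : RootData I.k aR uR l c ex) (i : Fin I.k) :
    l i ^ I.k = ∑ t ∈ range I.k, ((I.num t : ℂ) / (I.den t : ℂ)) * l i ^ (I.k - 1 - t) := by
  rw [hrd.root i i.2]
  apply Finset.sum_congr rfl
  intro t ht
  rw [Finset.mem_range] at ht
  rw [ha t ht]
  simp only [Inst.num, Inst.den, ht, dif_pos, Inst.a]
  push_cast
  rfl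

include ha hu hv in
lemma Inst.all' {l c : ℕ → ℂ} {ex : ℕ → ℕ} (hrd : RootData I.k aR uR l c ex) (n : ℕ) :
    ∑ i : Fin I.k, c i * (n.choose (ex i) : ℂ) * l i ^ (n - ex i) = (((v n : ℚ) : ℝ) : ℂ) := by
  refine hrd.all (fun n => ((v n : ℚ) : ℝ)) ?_ ?_ n
  · intro n hn
    rw [hu n hn]
    exact_mod_cast hv.1 ⟨n, hn⟩
  · intro n hn
    rw [hv.2 n hn, Finset.sum_range]
    push_cast
    apply Finset.sum_congr rfl
    intro t _
    rw [ha t t.2]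

include hkL hb ha in
lemma Inst.relBound' {l c : ℕ → ℂ} {ex : ℕ → ℕ} (hrd : RootData I.k aR uR l c ex) :
    RelBound I.k (fun i => l i) (2 ^ pr L) :=
  (relBound_of_roots I.k I.num I.den L hkL I.den_pos' (I.num_le' L hb) (I.den_le' L hb)
    (fun i => l i) (I.root_eq' aR uR ha hrd)).mono (pR_le hkL)

include ha hu in
lemma Inst.exists_rootData' : ∃ (l c : ℕ → ℂ) (ex : ℕ → ℕ), RootData I.k aR uR l c ex := by
  obtain ⟨l, c, ex, hrd0, -, -⟩ := exists_rootData I.k I.aQ I.uQ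
  exact ⟨l, c, ex, rootData_congr (by
      intro t ht
      rw [ha t ht]
      simp only [Inst.aQ, ht, dif_pos]) (by
      intro t ht
      rw [hu t ht]
      simp only [Inst.uQ, ht, dif_pos]) hrd0⟩

include hkL hb ha hu hv in
theorem Inst.not_tm_of_cert (h : ∃ (l c : ℕ → ℂ) (ex : ℕ → ℕ),
      RootData I.k aR uR l c ex ∧
      CertBN I.k l c ex (pbm L) (pbn L) (2 / ((2 ^ pq L : ℕ) : ℝ)) (1 / 2 ^ pdl L) PT) :
    ¬ Tm (fun n => ((v n : ℚ) : ℝ)) := by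
  obtain ⟨l, c, ex, hrd, hcert⟩ := h
  exact tm_sound (k := I.k) (fun i => l i) (fun i => c i) (fun i => ex i) (2 ^ pr L)
      (2 ^ pbm L) (2 ^ pbn L) _ _ I.kpos (fun i => hrd.1 i i.2)
      (fun i e he => hrd.closed i e he) Nat.one_le_two_pow
      Nat.one_le_two_pow (I.relBound' L hkL hb aR uR ha hrd) (peps hkL) (pd1 hkL)
      (fun n => ((v n : ℚ) : ℝ)) (I.all' aR uR ha hu v hv hrd) hcert.toF

include hkL hb ha hu hv in
theorem Inst.cert_of_not_tm (h : ¬ Tm (fun n => ((v n : ℚ) : ℝ))) : ∃ (l c : ℕ → ℂ) (ex : ℕ → ℕ),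
      RootData I.k aR uR l c ex ∧
      CertBN I.k l c ex (pbm L) (pbn L) (2 / ((2 ^ pq L : ℕ) : ℝ)) (1 / 2 ^ pdl L) PT := by
  obtain ⟨l, c, ex, hrd⟩ := I.exists_rootData' aR uR ha hu
  refine ⟨l, c, ex, hrd, ?_⟩
  obtain ⟨e, he0, hele, htor⟩ := torsion_of_roots I.k I.num I.den I.den_pos' (fun i => l i)
    (I.root_eq' aR uR ha hrd)
  have hF : CertBF I.k (fun i => l i) (fun i => c i) (fun i => ex i) (2 ^ pmh L)
      (2 ^ (1 + 2 * L * L + (pdl L + 3) * L)) (2 / ((2 ^ pq L : ℕ) : ℝ)) (1 / 2 ^ pdl L) PT := by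
    by_contra hno
    apply h
    exact tm_of_not_cert (k := I.k) (fun i => l i) (fun i => c i) (fun i => ex i) (2 ^ pr L)
      (2 ^ pq L) (2 ^ pmh L) (2 ^ (pdl L + 3)) e (2 ^ (1 + 2 * L * L + (pdl L + 3) * L)) I.kpos
      (fun i => hrd.1 i i.2) Nat.one_le_two_pow
      (le_trans (by
        have : 2 * I.k * 2 ^ pr L ≤ 8 * I.k * 2 ^ pr L := by
          gcongr
          norm_num
        exact this) (pQ_le hkL)) (pMH_le hkL) (1 / 2 ^ pdl L) (by positivity) (pd2 hkL) (pd4 hkL)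
      (pd3 hkL) (by positivity) (pd5 L) he0 (pNb_le hkL hele) (I.relBound' L hkL hb aR uR ha hrd)
      (fun n => ((v n : ℚ) : ℝ)) (I.all' aR uR ha hu v hv hrd) hno
  exact hF.toN (two_pow_lt_pbm L) (two_pow_lt_pbn L)

include hkL hb ha hu hv in
theorem Inst.bounded_PR (h : Tm (fun n => ((v n : ℚ) : ℝ))) : ∃ X : ℝ, ∀ t,
    (∃ (l c : ℕ → ℂ) (ex : ℕ → ℕ), RootData I.k aR uR l c ex ∧
      CertBN I.k l c ex (pbm L) (pbn L) (2 / ((2 ^ pq L : ℕ) : ℝ)) (1 / 2 ^ pdl L) (PR t)) →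
    t ≤ X := by
  obtain ⟨X, hX⟩ := tm_bounded (k := I.k) (fun n => ((v n : ℚ) : ℝ)) h (I.k + 2 ^ pbn L)
  refine ⟨X, ?_⟩
  rintro t ⟨l, c, ex, hrd, hcert⟩
  exact hX t (fun i => l i) (fun i => c i) (fun i => ex i) (2 ^ pr L)
      (2 ^ pbm L) (2 ^ pbn L) _ _ I.kpos le_rfl (fun i => hrd.1 i i.2)
      (fun i e he => hrd.closed i e he) Nat.one_le_two_pow
      Nat.one_le_two_pow (I.relBound' L hkL hb aR uR ha hrd) (peps hkL) (pd1 hkL)
      (I.all' aR uR ha hu v hv hrd) hcert.toF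

include hkL hb ha hu hv in
/-- **Explicit threshold.** -/
theorem Inst.pos_of_tm (h : Tm (fun n => ((v n : ℚ) : ℝ))) (P1 P2 : ℕ)
    (hP1 : ∀ t, (∃ (l c : ℕ → ℂ) (ex : ℕ → ℕ), RootData I.k aR uR l c ex ∧
      CertBN I.k l c ex (pbm L) (pbn L) (2 / ((2 ^ pq L : ℕ) : ℝ)) (1 / 2 ^ pdl L) (PR t)) →
      t ≤ 2 ^ 2 ^ P1)
    (hP2 : ∀ t, (∃ (l c : ℕ → ℂ) (ex : ℕ → ℕ), RootData I.k aR uR l c ex ∧
      t ≤ ∑ i ∈ range I.k, ‖c i‖) → t ≤ 2 ^ 2 ^ P2) (n : ℕ) (hn : 2 ^ pth L P1 P2 ≤ n) :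
    0 < v n := by
  obtain ⟨l, c, ex, hrd⟩ := I.exists_rootData' aR uR ha hu
  obtain ⟨e, he0, hele, htor⟩ := torsion_of_roots I.k I.num I.den I.den_pos' (fun i => l i)
    (I.root_eq' aR uR ha hrd)
  have hno : ¬ CertBF I.k (fun i => l i) (fun i => c i) (fun i => ex i) (2 ^ pmh L)
      (2 ^ (1 + 2 * L * L + (pdl L + 3) * L)) (2 / ((2 ^ pq L : ℕ) : ℝ)) (1 / 2 ^ pdl L) PT := by
    intro hF
    exact I.not_tm_of_cert L hkL hb aR uR ha hu v hv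
      ⟨l, c, ex, hrd, hF.toN (two_pow_lt_pbm L) (two_pow_lt_pbn L)⟩ h
  obtain ⟨n0, hn0, hn0Nb, hcls⟩ := class_data (k := I.k) (fun i => l i) (fun i => c i)
      (fun i => ex i) (2 ^ pr L)
      (2 ^ pq L) (2 ^ pmh L) (2 ^ (pdl L + 3)) e (2 ^ (1 + 2 * L * L + (pdl L + 3) * L)) I.kpos
      (fun i => hrd.1 i i.2) Nat.one_le_two_pow
      (le_trans (by
        have : 2 * I.k * 2 ^ pr L ≤ 8 * I.k * 2 ^ pr L := by
          gcongr
          norm_num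
        exact this) (pQ_le hkL)) (pMH_le hkL) (1 / 2 ^ pdl L) (by positivity) (pd2 hkL) (pd4 hkL)
      (pd3 hkL) (by positivity) (pd5 L) he0 (pNb_le hkL hele) (I.relBound' L hkL hb aR uR ha hrd)
      (fun n => ((v n : ℚ) : ℝ)) (I.all' aR uR ha hu v hv hrd) hno
  -- the class of `n`
  have hpbn : 2 ^ (1 + 2 * L * L + (pdl L + 3) * L) + 2 ^ (1 + 2 * L * L + (pdl L + 3) * L) =
      2 ^ pbn L := by
    rw [pbn, pow_succ]
    ring
  have hk1 : I.k ≤ 2 ^ (1 + 2 * L * L + (pdl L + 3) * L) := by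
    refine hkL.trans (Nat.lt_two_pow_self.le.trans (Nat.pow_le_pow_right (by norm_num) ?_))
    have : L ≤ (pdl L + 3) * L := Nat.le_mul_of_pos_left _ (by omega)
    omega
  have hkn : I.k ≤ n := by
    refine hkL.trans (Nat.lt_two_pow_self.le.trans (le_trans ?_ hn))
    apply Nat.pow_le_pow_right (by norm_num)
    unfold pth
    omega
  obtain ⟨j, m, hj, hj', hjm⟩ : ∃ j m, I.k ≤ j ∧ j < I.k + n0 ∧ n = j + n0 * m := by
    refine ⟨I.k + (n - I.k) % n0, (n - I.k) / n0, Nat.le_add_right _ _,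
      Nat.add_lt_add_left (Nat.mod_lt _ hn0) _, ?_⟩
    have := Nat.mod_add_div (n - I.k) n0
    omega
  obtain ⟨A, H, D, s, w, τ, i0, hbase, hi0, ⟨z', hz', hne⟩, hpos, hval, hvan⟩ := hcls j hj hj'
  have hjN : j ≤ 2 ^ pbn L := by omega
  obtain ⟨z, hz, hze⟩ := hval m
  -- the minimum on the torus
  have hμ : 1 / (2 ^ 2 ^ P1 + 1) ≤ (LevF (fun i : Fin I.k => l i) (fun i => c i) (fun i => ex i)
      A s j 0 ‖l i0‖ z).re := by
    by_contra hcon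
    push Not at hcon
    have ht := hP1 (2 ^ 2 ^ P1 + 1) ⟨l, c, ex, hrd, CertBF.toN (M := 2 ^ pmh L)
      (Nb := 2 ^ (1 + 2 * L * L + (pdl L + 3) * L)) ⟨n0, j, A, H, D, s, w, τ, ‖l i0‖, 0, z, z',
        hbase, hz, hz', norm_pos_iff.mpr hi0, rfl, hne, by
          have h0 : (0 : ℝ) < 2 ^ 2 ^ P1 + 1 := by positivity
          rw [lt_div_iff₀ h0] at hcon
          linarith⟩ (two_pow_lt_pbm L) (two_pow_lt_pbn L)⟩
    linarith
  have hC : ∑ i : Fin I.k, ‖c i‖ ≤ 2 ^ 2 ^ P2 := by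
    apply hP2
    refine ⟨l, c, ex, hrd, ?_⟩
    rw [Finset.sum_range]
  have hfin := class_pos (k := I.k) (fun i => l i) (fun i => c i) (fun i => ex i)
    (fun i => hrd.1 i i.2) n0 j hj (fun n => ((v n : ℚ) : ℝ)) (I.all' aR uR ha hu v hv hrd)
    ‖l i0‖ (norm_pos_iff.mpr hi0) hvan (1 / (2 ^ 2 ^ P1 + 1)) (1 / 2 ^ pg L) (2 ^ (2 * L)) (by
      rw [div_le_one (by positivity)]
      exact one_le_pow₀ (by norm_num)) (one_le_pow₀ (by norm_num))
    (fun i => root_norm_le I.k I.num I.den L hkL I.den_pos' (I.num_le' L hb) (l i)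
      (I.root_eq' aR uR ha hrd i))
    (fun i hi => gap_of_roots I.k I.num I.den L hkL I.den_pos' (I.num_le' L hb) (I.den_le' L hb)
      (l i) (l i0) (I.root_eq' aR uR ha hrd i) (I.root_eq' aR uR ha hrd i0) hi) m
    (by rw [hze]; exact hμ) (by
      have h1 := threshold_ineq I.k L P1 P2 n j hkL hn hjN _ hC
      have h2 : n - j = n0 * m := by omega
      rw [h2] at h1
      rw [← hjm]
      exact h1)
  rw [← hjm] at hfin
  exact_mod_cast hfin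

end

end Pool.Agent.UltPos
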