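import Pool.Agent.DD7719.MInst

/-! Positivity for a fixed simple recurrence is in `∀ℝ`. -/

set_option autoImplicit false

namespace Pool.Agent.UltPos

open Pool.Agent.PT Pool.Agent.AllR Pool.Agent.DD7719.M Pool.Agent.DD7719 Finset

/-- some term of index `< B` is nonpositive: an existential real condition -/
theorem re_nonpos {Γ : Type} (kk B : List Γ → ℕ) (aR uR : List Γ → ℕ → ℝ)
    (hk : UF (fun x _ => kk x)) (hB : UF (fun x _ => B x))
    (ha : RF (fun x e _ => aR x (e 0))) (hu : RF (fun x e _ => uR x (e 0))) :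
    RE (fun x _ _ => ∃ γ : ℕ → ℝ, ((∀ t, t < kk x → γ t = uR x t) ∧
      (∀ n, n < B x → (kk x ≤ n → γ n = ∑ t ∈ range (kk x), aR x t * γ (n - 1 - t)))) ∧
      ∃ n, n < B x ∧ γ n ≤ 0) := by
  refine RE.exb (RE.and (RE.and ?_ ?_) ?_)
  · refine RE.ball (R := fun x _ α t => α (2 * t + 1) = uR x t) hk (RE.eq (RF.var ?_) hu)
    exact ((UF.const 2).mul (UF.var 0)).add (UF.const 1)
  · refine RE.ball (R := fun x _ α n => kk x ≤ n → α (2 * n + 1) =
      ∑ t ∈ range (kk x), aR x t * α (2 * (n - 1 - t) + 1)) hB (RE.guard (UP.le hk (UF.var 0))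
        (RE.eq (RF.var (((UF.const 2).mul (UF.var 0)).add (UF.const 1))) ?_))
    refine RF.sum (f := fun x e α t => aR x t * α (2 * (e 0 - 1 - t) + 1)) hk (RF.mul ha (RF.var ?_))
    exact ((UF.const 2).mul (((UF.var 1).sub (UF.const 1)).sub (UF.var 0))).add (UF.const 1)
  · refine RE.bex (R := fun x _ α n => α (2 * n + 1) ≤ 0) hB (RE.le (RF.var ?_) RF.zero)
    exact ((UF.const 2).mul (UF.var 0)).add (UF.const 1)

/-- the coefficients differ from a fixed list: an existential real condition -/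
theorem re_ne_list {Γ : Type} (kk : List Γ → ℕ) (aR : List Γ → ℕ → ℝ)
    (hk : UF (fun x _ => kk x)) (ha : RF (fun x e _ => aR x (e 0))) (a : List ℚ) :
    RE (fun x _ _ => kk x ≠ a.length ∨ ∃ t, t < a.length ∧ aR x t ≠ ((a.getD t 0 : ℚ) : ℝ)) := by
  refine (RE.up (UP.ne hk (UF.const _))).or ?_
  have h : ∀ n : ℕ, RE (Γ := Γ) (fun x _ _ => ∃ t, t < n ∧ aR x t ≠ ((a.getD t 0 : ℚ) : ℝ)) := by
    intro n
    induction n with
    | zero => exact (RE.up UP.false).congr fun x e α => by simp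
    | succ n ih =>
      have h1 : RF (Γ := Γ) (fun x _ _ => aR x n) :=
        RF.idx (f := fun x e _ => aR x (e 0)) ha (E := fun _ _ _ => n) (fun _ => UF.const n)
      refine (ih.or (RE.ne h1 (RF.rat (a.getD n 0)))).congr fun x e α => ?_
      constructor
      · rintro (⟨t, ht, h2⟩ | h2)
        · exact ⟨t, by omega, h2⟩
        · exact ⟨n, by omega, h2⟩
      · rintro ⟨t, ht, h2⟩
        rcases Nat.lt_succ_iff_lt_or_eq.mp ht with h3 | h3
        · exact Or.inl ⟨t, h3, h2⟩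
        · subst h3
          exact Or.inr h2
  exact h a.length

/-- **Positivity of a fixed simple recurrence is in `∀ℝ`.** -/
theorem inForallR_fixed (a : List ℚ) :
    InForallR {w : List ISym | ∃ I : Inst, w = I.enc ∧ List.ofFn I.a = a ∧ I.Simple ∧ I.Positive} := by
  obtain ⟨κ, hκ⟩ := exists_linear_threshold a
  obtain ⟨kk, sg, nb, db, hkk, hsg, hnb, hdb, hI⟩ := exists_parser
  have h2 : RF (Γ := ISym) (fun _ _ _ => (2 : ℝ)) :=
    (RF.nat (UF.const 2)).congr fun _ _ _ => by norm_num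
  have hε : RF (Γ := ISym) (fun x _ _ => (2 : ℝ) / ((2 ^ pq x.length : ℕ) : ℝ)) :=
    (h2.div (h2.pow (uf_pq UF.len))).congr fun x e α => by push_cast; rfl
  have hδ : RF (Γ := ISym) (fun x _ _ => (1 : ℝ) / 2 ^ pdl x.length) :=
    RF.one.div (h2.pow (uf_pdl UF.len))
  have hcert := re_cert kk (fun x => pbm x.length) (fun x => pbn x.length)
    (fieldR sg nb db 0) (fieldR sg nb db 1) _ _ hkk (uf_pbm UF.len) (uf_pbn UF.len)
    (rf_fieldR 0 hsg hnb hdb) (rf_fieldR 1 hsg hnb hdb) hε hδ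
  have hdbl := re_double kk (fieldR sg nb db 0) hkk (rf_fieldR 0 hsg hnb hdb)
  have hnp := re_nonpos kk (fun x => κ * (x.length + 1)) (fieldR sg nb db 0) (fieldR sg nb db 1)
    hkk ((UF.const κ).mul (UF.len.add (UF.const 1))) (rf_fieldR 0 hsg hnb hdb)
    (rf_fieldR 1 hsg hnb hdb)
  have hne := re_ne_list kk (fieldR sg nb db 0) hkk (rf_fieldR 0 hsg hnb hdb) a
  refine RE.inForallR (((((RE.up up_valid.not).or hne).or hdbl).or hnp).or hcert) _ fun x => ?_
  have hfa : ∀ (I : Inst) (t : ℕ) (ht : t < I.k), fieldR sg nb db 0 I.enc t = (I.a ⟨t, ht⟩ : ℝ) := by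
    intro I t ht
    obtain ⟨e1, e2, e3, e4, e5, e6, e7⟩ := hI I
    rw [Inst.a, fieldR]
    push_cast
    have h3 := congrArg (fun z : ℤ => (z : ℝ)) (e3 ⟨t, ht⟩)
    have h4 := congrArg (fun z : ℤ => (z : ℝ)) (e4 ⟨t, ht⟩)
    simp only at h3 h4
    push_cast at h3 h4
    rw [h3, h4]
  have hfu : ∀ (I : Inst) (t : ℕ) (ht : t < I.k), fieldR sg nb db 1 I.enc t = (I.u ⟨t, ht⟩ : ℝ) := by
    intro I t ht
    obtain ⟨e1, e2, e3, e4, e5, e6, e7⟩ := hI I
    rw [Inst.u, fieldR]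
    push_cast
    have h3 := congrArg (fun z : ℤ => (z : ℝ)) (e5 ⟨t, ht⟩)
    have h4 := congrArg (fun z : ℤ => (z : ℝ)) (e6 ⟨t, ht⟩)
    simp only at h3 h4
    push_cast at h3 h4
    rw [h3, h4]
  have hsimp : ∀ I : Inst, I.Simple ↔ ¬ DoubleRoot (kk I.enc) (fieldR sg nb db 0 I.enc) := by
    intro I
    rw [(hI I).1]
    exact I.simple_iff _ (fun t ht => hfa I t ht)
  have hlist : ∀ I : Inst, List.ofFn I.a = a ↔ ¬ (kk I.enc ≠ a.length ∨ ∃ t, t < a.length ∧
      fieldR sg nb db 0 I.enc t ≠ ((a.getD t 0 : ℚ) : ℝ)) := by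
    intro I
    rw [(hI I).1]
    push Not
    constructor
    · rintro rfl
      refine ⟨by simp, fun t ht => ?_⟩
      rw [List.length_ofFn] at ht
      rw [hfa I t ht]
      simp [List.getD_eq_getElem?_getD, ht]
    · rintro ⟨h1, h2⟩
      apply List.ext_getElem
      · simp [h1]
      · intro t ht ht'
        have h3 := h2 t ht'
        rw [List.length_ofFn] at ht
        rw [hfa I t ht] at h3
        rw [List.getElem_ofFn]
        have h4 : I.a ⟨t, ht⟩ = a.getD t 0 := by exact_mod_cast h3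
        rw [h4]
        simp [List.getD_eq_getElem?_getD, ht']
  have hkey : ∀ I : Inst, (¬ (I.UltimatelyPositive ∧ ¬ I.CriticalM)) ↔ ∃ (l c : ℕ → ℂ) (ex : ℕ → ℕ),
      RootData (kk I.enc) (fieldR sg nb db 0 I.enc) (fieldR sg nb db 1 I.enc) l c ex ∧
      CertN (kk I.enc) l c ex (pbm I.enc.length) (pbn I.enc.length)
        (2 / ((2 ^ pq I.enc.length : ℕ) : ℝ)) (1 / 2 ^ pdl I.enc.length) := by
    intro I
    obtain ⟨e1, e2, e3, e4, e5, e6, e7⟩ := hI I
    rw [e1]
    exact I.cert_iff I.enc.length e2 (fun i => ⟨(e7 i).1.le, (e7 i).2.1.le⟩) _ _ (hfa I) (hfu I)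
  -- the initial segment
  have hseg : ∀ (I : Inst) (v : ℕ → ℚ), I.IsSeq v → ∀ B : ℕ,
      ((∃ γ : ℕ → ℝ, ((∀ t, t < kk I.enc → γ t = fieldR sg nb db 1 I.enc t) ∧
      (∀ n, n < B → (kk I.enc ≤ n → γ n = ∑ t ∈ range (kk I.enc),
        fieldR sg nb db 0 I.enc t * γ (n - 1 - t)))) ∧ ∃ n, n < B ∧ γ n ≤ 0) ↔
        ∃ n, n < B ∧ v n ≤ 0) := by
    intro I v hv B
    rw [(hI I).1]
    have hrec : ∀ n, I.k ≤ n → ((v n : ℚ) : ℝ) = ∑ t ∈ range I.k,
        fieldR sg nb db 0 I.enc t * ((v (n - 1 - t) : ℚ) : ℝ) := by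
      intro n hn
      rw [hv.2 n hn, Finset.sum_range]
      push_cast
      apply Finset.sum_congr rfl
      intro t _
      rw [hfa I t t.2]
    have hini : ∀ t, t < I.k → ((v t : ℚ) : ℝ) = fieldR sg nb db 1 I.enc t := by
      intro t ht
      rw [hfu I t ht]
      exact_mod_cast hv.1 ⟨t, ht⟩
    constructor
    · rintro ⟨γ, ⟨h1, h2⟩, n, hn, h3⟩
      have h4 : ∀ n, n < B → γ n = ((v n : ℚ) : ℝ) := by
        intro n
        induction n using Nat.strong_induction_on with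
        | _ n ih =>
          intro hn
          rcases lt_or_ge n I.k with h5 | h5
          · rw [h1 n h5, hini n h5]
          · rw [h2 n hn h5, hrec n h5]
            apply Finset.sum_congr rfl
            intro t ht
            rw [Finset.mem_range] at ht
            rw [ih (n - 1 - t) (by omega) (by omega)]
      refine ⟨n, hn, ?_⟩
      rw [h4 n hn] at h3
      exact_mod_cast h3
    · rintro ⟨n, hn, h3⟩
      have h4 : ((v n : ℚ) : ℝ) ≤ 0 := by exact_mod_cast h3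
      exact ⟨fun n => ((v n : ℚ) : ℝ), ⟨hini, fun n _ hn' => hrec n hn'⟩, n, hn, h4⟩
  constructor
  · rintro ⟨I, rfl, h1, h2, h3⟩ ⟨α, (((h4 | h4) | h4) | h4) | h4⟩
    · exact h4 ⟨I, rfl⟩
    · exact (hlist I).mp h1 h4
    · exact (hsimp I).mp h2 h4
    · obtain ⟨v, hv, -⟩ := I.exists_unique_seq
      obtain ⟨n, -, hn⟩ := (hseg I v hv _).mp h4
      exact absurd (h3 v hv n) (not_lt.mpr hn)
    · exact (hkey I).mpr h4 ⟨fun v hv => ⟨0, fun n _ => h3 v hv n⟩, h2.not_criticalM⟩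
  · intro h
    have h1 : ∃ I : Inst, x = I.enc := by
      by_contra hcon
      exact h ⟨fun _ => 0, Or.inl (Or.inl (Or.inl (Or.inl hcon)))⟩
    obtain ⟨I, rfl⟩ := h1
    have h2 : List.ofFn I.a = a := by
      by_contra hcon
      rw [hlist I, not_not] at hcon
      exact h ⟨fun _ => 0, Or.inl (Or.inl (Or.inl (Or.inr hcon)))⟩
    have h3 : I.Simple := by
      by_contra hcon
      rw [hsimp I, not_not] at hcon
      exact h ⟨fun _ => 0, Or.inl (Or.inl (Or.inr hcon))⟩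
    have h4 : I.UltimatelyPositive ∧ ¬ I.CriticalM := by
      by_contra hcon
      exact h ⟨fun _ => 0, Or.inr ((hkey I).mp hcon)⟩
    refine ⟨I, rfl, h2, h3, fun v hv n => ?_⟩
    by_contra hcon
    push Not at hcon
    rcases lt_or_ge n (κ * (I.enc.length + 1)) with h5 | h5
    · exact h ⟨fun _ => 0, Or.inl (Or.inr ((hseg I v hv _).mpr ⟨n, h5, hcon⟩))⟩
    · exact absurd (hκ I h2 h3 h4.1 v hv n h5) (not_lt.mpr hcon)

end Pool.Agent.UltPos
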