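import Mathlib

/-! Angles of numbers of modulus one. -/

namespace Pool.Agent.DD7719.M

open Complex

lemma exp_arg {μ : ℂ} (h : ‖μ‖ = 1) : exp (μ.arg * I) = μ := by
  have := norm_mul_exp_arg_mul_I μ
  rwa [h, ofReal_one, one_mul] at this

lemma abs_arg_le {μ : ℂ} (h : ‖μ‖ = 1) : |μ.arg| ≤ 2 * ‖μ - 1‖ := by
  have h1 : ‖exp (I * μ.arg) - 1‖ = ‖2 * Real.sin (μ.arg / 2)‖ :=
    norm_exp_I_mul_ofReal_sub_one μ.arg
  rw [mul_comm, exp_arg h] at h1
  have h2 : |μ.arg / 2| ≤ Real.pi / 2 := by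
    rw [abs_div, abs_two]
    have := abs_arg_le_pi μ
    linarith
  have h3 := Real.mul_abs_le_abs_sin h2
  rw [h1, Real.norm_eq_abs, abs_mul, abs_two]
  rw [abs_div, abs_two] at h3
  have hpi := Real.pi_pos
  have hpi4 := Real.pi_le_four
  have h4 : |μ.arg| / 4 ≤ |Real.sin (μ.arg / 2)| := by
    refine le_trans ?_ h3
    have : 1 / 2 * (|μ.arg| / 2) ≤ 2 / Real.pi * (|μ.arg| / 2) := by
      apply mul_le_mul_of_nonneg_right _ (by positivity)
      rw [div_le_div_iff₀ (by norm_num) hpi]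
      linarith
    linarith
  linarith

lemma prod_zpow_eq_exp {k : ℕ} {μ : Fin k → ℂ} (h : ∀ i, ‖μ i‖ = 1) (g : Fin k → ℤ) :
    ∏ i, μ i ^ g i = exp ((∑ i, (g i : ℝ) * (μ i).arg : ℝ) * I) := by
  rw [ofReal_sum, Finset.sum_mul, exp_sum]
  apply Finset.prod_congr rfl
  intro i _
  conv_lhs => rw [← exp_arg (h i), ← exp_int_mul]
  congr 1
  push_cast
  ring

lemma eq_zero_of_exp_sq {x : ℝ} (h : exp (x * I) ^ 2 = 1) (hx : |x| < Real.pi) : x = 0 := by
  rw [← exp_nat_mul, exp_eq_one_iff] at h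
  obtain ⟨n, hn⟩ := h
  have h1 : (x : ℂ) * I = (n * Real.pi : ℝ) * I := by
    push_cast at hn ⊢
    linear_combination hn / 2
  have h2 : (x : ℂ) = ((n * Real.pi : ℝ) : ℂ) := mul_right_cancel₀ I_ne_zero h1
  have h3 : x = n * Real.pi := by exact_mod_cast h2
  have hpi := Real.pi_pos
  rw [h3, abs_mul, abs_of_pos hpi] at hx
  have h4 : |(n : ℝ)| < 1 := by
    by_contra hcon
    push Not at hcon
    nlinarith
  have h5 : n = 0 := by
    have : |n| < 1 := by exact_mod_cast h4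
    exact Int.abs_lt_one_iff.mp this
  rw [h3, h5]
  simp

lemma sin_sub_le {x : ℝ} (hx : |x| ≤ 1) : |Real.sin x - x| ≤ |x| ^ 3 / 4 := by
  have key : ∀ y : ℝ, 0 ≤ y → y ≤ 1 → |Real.sin y - y| ≤ y ^ 3 / 4 := by
    intro y hy0 hy1
    rcases hy0.lt_or_eq with h | h
    · have h1 := Real.sin_gt_sub_cube h
      have h2 := Real.sin_lt h
      have h3 : 0 < y ^ 3 := by positivity
      rw [abs_le]
      constructor <;> linarith
    · subst h
      simp
  rcases le_total 0 x with h | h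
  · rw [abs_of_nonneg h] at hx ⊢
    exact key x h hx
  · rw [abs_of_nonpos h] at hx ⊢
    have := key (-x) (by linarith) hx
    rw [Real.sin_neg] at this
    rw [← abs_neg]
    rwa [show -(Real.sin x - x) = -Real.sin x - -x by ring]

lemma abs_le_two_sin {x : ℝ} (hx : |x| ≤ 1) : |x| ≤ 2 * |Real.sin x| := by
  have h1 := sin_sub_le hx
  have h2 : |x| ≤ |Real.sin x| + |Real.sin x - x| := by
    have := abs_sub_abs_le_abs_sub x (Real.sin x)
    rw [abs_sub_comm] at this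
    linarith
  have h3 : |x| ^ 3 / 4 ≤ |x| / 2 := by
    have h4 : 0 ≤ |x| := abs_nonneg x
    have h5 : |x| ^ 3 ≤ |x| := by
      calc |x| ^ 3 = |x| * (|x| * |x|) := by ring
        _ ≤ |x| * (1 * 1) := by gcongr
        _ = |x| := by ring
    linarith
  linarith

lemma im_exp {x : ℝ} : (exp (x * I)).im = Real.sin x := by
  rw [exp_ofReal_mul_I_im]

end Pool.Agent.DD7719.M
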