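import Pool.Agent.DD7719.CertGDef

/-! `ℕ`-indexed and `Fin k`-indexed certificates. -/

set_option autoImplicit false

namespace Pool.Agent.DD7719.M

open Complex Filter Topology

def ext1 {k : ℕ} {α : Type*} (d : α) (A : Fin k → α) (i : ℕ) : α := if h : i < k then A ⟨i, h⟩ else d

def ext2 {k : ℕ} {α : Type*} (d : α) (A : Fin k → Fin k → α) (i j : ℕ) : α :=
  if h : i < k ∧ j < k then A ⟨i, h.1⟩ ⟨j, h.2⟩ else d

lemma ext1_fin {k : ℕ} {α : Type*} (d : α) (A : Fin k → α) (i : Fin k) : ext1 d A i = A i := by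
  simp [ext1]

lemma ext2_fin {k : ℕ} {α : Type*} (d : α) (A : Fin k → Fin k → α) (i j : Fin k) :
    ext2 d A i j = A i j := by
  simp [ext2]

lemma forall_fin {k : ℕ} {p : ℕ → Prop} : (∀ i, i < k → p i) ↔ ∀ i : Fin k, p i :=
  ⟨fun h i => h i i.2, fun h i hi => h ⟨i, hi⟩⟩

theorem CertN.toF {k : ℕ} {l c : ℕ → ℂ} {ex : ℕ → ℕ} {bm bn : ℕ} {ε δ : ℝ}
    (h : CertN k l c ex bm bn ε δ) :
    CertF k (fun i => l i) (fun i => c i) (fun i => ex i) (2 ^ bm) (2 ^ bn) ε δ := by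
  classical
  obtain ⟨n0, j, A, H, D, s, w, τ, z, z', ρ, d, h1, h2, h3, h4, h5, h6, h7, h8, h9, h10, h11, h12,
    h13, h14, h15, h16, h17, h18, h19⟩ := h
  refine ⟨n0, j, fun i t => A i t, fun i t => H i t, D, s, fun i t => w i t, fun i => τ i,
    fun t => z t, fun t => z' t, ρ, d, h1, h2.le, h3, h4, h5, h6, by exact_mod_cast h7.le, ?_, ?_, ?_,
    ?_, ?_, ?_, ?_, ?_, h16, h17, ?_, ?_⟩
  · intro l' i
    have := h8 l' l'.2 i i.2
    rw [Finset.sum_range] at this
    rw [this]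
    simp only [Fin.ext_iff]
  · intro l' t
    exact_mod_cast (h9 l' l'.2 t t.2).le
  · intro l' t
    exact_mod_cast (h10 l' l'.2 t t.2).le
  · intro i
    exact h11 i i.2
  · intro i hi l' hl'
    have := h12 i hi l' l'.2 hl'
    rw [Finset.sum_range, Finset.prod_range] at this
    rw [this]
    simp only [Fin.ext_iff]
  · intro i hi t
    exact h13 i hi t t.2
  · intro t
    exact h14 t t.2
  · intro t
    exact h15 t t.2
  · intro m hm
    have := h18 m hm
    rw [Finset.sum_range] at this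
    exact this
  · simp only [Finset.sum_range, Finset.prod_range] at h19
    exact h19

theorem CertF.toN {k : ℕ} {l c : ℕ → ℂ} {ex : ℕ → ℕ} {M Nb bm bn : ℕ} {ε δ : ℝ}
    (h : CertF k (fun i => l i) (fun i => c i) (fun i => ex i) M Nb ε δ)
    (hM : M < 2 ^ bm) (hN : Nb < 2 ^ bn) :
    CertN k l c ex bm bn ε δ := by
  classical
  obtain ⟨n0, j, A, H, D, s, w, τ, z, z', ρ, d, h1, h2, h3, h4, h5, h6, h7, h8, h9, h10, h11, h12,
    h13, h14, h15, h16, h17, h18, h19⟩ := h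
  have hM' : (M : ℤ) < 2 ^ bm := by exact_mod_cast hM
  refine ⟨n0, j, ext2 0 A, ext2 0 H, D, s, ext2 0 w, ext1 0 τ, ext1 1 z, ext1 1 z', ρ, d, h1,
    h2.trans_lt hN, h3, h4, h5, h6, h7.trans_lt hM', ?_, ?_, ?_, ?_, ?_, ?_, ?_, ?_, h16, h17, ?_, ?_⟩
  · rw [forall_fin]
    intro i
    rw [forall_fin]
    intro i'
    rw [Finset.sum_range]
    simp only [ext2_fin]
    rw [h8]
    simp only [Fin.ext_iff]
  · rw [forall_fin]
    intro i
    rw [forall_fin]
    intro t
    rw [ext2_fin]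
    exact (h9 i t).trans_lt hM'
  · rw [forall_fin]
    intro i
    rw [forall_fin]
    intro t
    rw [ext2_fin]
    exact (h10 i t).trans_lt hM'
  · rw [forall_fin]
    exact h11
  · intro i hi
    have hik : i < k := lt_of_lt_of_le hi h5
    rw [forall_fin]
    intro i' hi'
    rw [Finset.sum_range, Finset.prod_range]
    have := h12 ⟨i, hik⟩ hi i' hi'
    have e1 : ∀ t : Fin k, ext2 0 w i t = w ⟨i, hik⟩ t := fun t => ext2_fin 0 w ⟨i, hik⟩ t
    have e2 : ext1 0 τ i = τ ⟨i, hik⟩ := ext1_fin 0 τ ⟨i, hik⟩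
    simp only [ext2_fin, e1, e2]
    rw [this]
    simp only [Fin.ext_iff]
  · intro i hi
    have hik : i < k := lt_of_lt_of_le hi h5
    rw [forall_fin]
    intro t
    have e1 : ext2 0 w i t = w ⟨i, hik⟩ t := ext2_fin 0 w ⟨i, hik⟩ t
    rw [e1]
    exact h13 ⟨i, hik⟩ hi t
  · rw [forall_fin]
    intro t
    rw [ext1_fin]
    exact h14 t
  · rw [forall_fin]
    intro t
    rw [ext1_fin]
    exact h15 t
  · intro m hm
    rw [Finset.sum_range]
    exact h18 m hm
  · simp only [Finset.sum_range, Finset.prod_range, ext2_fin, ext1_fin]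
    exact h19

end Pool.Agent.DD7719.M
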