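import Pool.Agent.DD7719.CertRE

/-! The existence of a certificate is an existential real condition: the equivalence. -/

set_option autoImplicit false

namespace Pool.Agent.DD7719.M

open Complex Filter Topology
open Pool.Agent.PT Pool.Agent.AllR

/-- bits of a natural number as reals -/
noncomputable def nbit (n : ℕ) (l : ℕ) : ℝ := if n.testBit l then 1 else 0

/-- sign and bits of an integer as reals -/
noncomputable def zbit (n : ℤ) : ℕ → ℝ
  | 0 => if n < 0 then 1 else 0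
  | l + 1 => if n.natAbs.testBit l then 1 else 0

/-- Coding of all objects. -/
noncomputable def encAll (l c : ℕ → ℂ) (ex : ℕ → ℕ) (n0 j : ℕ) (A H : ℕ → ℕ → ℤ) (D : ℤ)
    (w : ℕ → ℕ → ℝ) (τ : ℕ → ℝ) (z z' : ℕ → ℂ) (ρ : ℝ) (v : ℕ) : ℝ :=
  match v % 20 with
  | 0 => (l (v / 20)).re
  | 1 => (l (v / 20)).im
  | 2 => (c (v / 20)).re
  | 3 => (c (v / 20)).im
  | 4 => (ex (v / 20) : ℝ)
  | 5 => nbit n0 (v / 20)
  | 6 => nbit j (v / 20)
  | 7 => zbit (A (Nat.unpair (Nat.unpair (v / 20)).1).1 (Nat.unpair (Nat.unpair (v / 20)).1).2)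
      (Nat.unpair (v / 20)).2
  | 8 => zbit (H (Nat.unpair (Nat.unpair (v / 20)).1).1 (Nat.unpair (Nat.unpair (v / 20)).1).2)
      (Nat.unpair (v / 20)).2
  | 9 => zbit D (v / 20)
  | 10 => w (Nat.unpair (v / 20)).1 (Nat.unpair (v / 20)).2
  | 11 => τ (v / 20)
  | 12 => (z (v / 20)).re
  | 13 => (z (v / 20)).im
  | 14 => (z' (v / 20)).re
  | 15 => (z' (v / 20)).im
  | _ => ρ

section
variable (l c : ℕ → ℂ) (ex : ℕ → ℕ) (n0 j : ℕ) (A H : ℕ → ℕ → ℤ) (D : ℤ)
    (w : ℕ → ℕ → ℝ) (τ : ℕ → ℝ) (z z' : ℕ → ℂ) (ρ : ℝ)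

theorem rl_enc : rl (encAll l c ex n0 j A H D w τ z z' ρ) = l := by
  funext i
  unfold rl encAll
  have h0 : 20 * i % 20 = 0 := by omega
  have h1 : (20 * i + 1) % 20 = 1 := by omega
  have h2 : 20 * i / 20 = i := by omega
  have h3 : (20 * i + 1) / 20 = i := by omega
  simp only [h0, h1, h2, h3]

theorem rc_enc : rc (encAll l c ex n0 j A H D w τ z z' ρ) = c := by
  funext i
  unfold rc encAll
  have h0 : (20 * i + 2) % 20 = 2 := by omega
  have h1 : (20 * i + 3) % 20 = 3 := by omega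
  have h2 : (20 * i + 2) / 20 = i := by omega
  have h3 : (20 * i + 3) / 20 = i := by omega
  simp only [h0, h1, h2, h3]

theorem rz_enc : rz (encAll l c ex n0 j A H D w τ z z' ρ) = z := by
  funext i
  unfold rz encAll
  have h0 : (20 * i + 12) % 20 = 12 := by omega
  have h1 : (20 * i + 13) % 20 = 13 := by omega
  have h2 : (20 * i + 12) / 20 = i := by omega
  have h3 : (20 * i + 13) / 20 = i := by omega
  simp only [h0, h1, h2, h3]

theorem rz'_enc : rz' (encAll l c ex n0 j A H D w τ z z' ρ) = z' := by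
  funext i
  unfold rz' encAll
  have h0 : (20 * i + 14) % 20 = 14 := by omega
  have h1 : (20 * i + 15) % 20 = 15 := by omega
  have h2 : (20 * i + 14) / 20 = i := by omega
  have h3 : (20 * i + 15) / 20 = i := by omega
  simp only [h0, h1, h2, h3]

theorem rτ_enc : rτ (encAll l c ex n0 j A H D w τ z z' ρ) = τ := by
  funext i
  unfold rτ encAll
  have h0 : (20 * i + 11) % 20 = 11 := by omega
  have h2 : (20 * i + 11) / 20 = i := by omega
  simp only [h0, h2]

theorem rρ_enc : rρ (encAll l c ex n0 j A H D w τ z z' ρ) = ρ := by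
  unfold rρ encAll
  rfl

theorem rw_enc : rw' (encAll l c ex n0 j A H D w τ z z' ρ) = w := by
  funext i t
  unfold rw' encAll
  have h0 : (20 * Nat.pair i t + 10) % 20 = 10 := by omega
  have h2 : (20 * Nat.pair i t + 10) / 20 = Nat.pair i t := by omega
  simp only [h0, h2, Nat.unpair_pair]

theorem rex_enc (k i : ℕ) (h : ex i < k) : rex k (encAll l c ex n0 j A H D w τ z z' ρ) i = ex i := by
  unfold rex encAll
  have h0 : (20 * i + 4) % 20 = 4 := by omega
  have h2 : (20 * i + 4) / 20 = i := by omega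
  simp only [h0, h2]
  exact decS_eq _ _ h

theorem rn0_enc (B : ℕ) (h : n0 < 2 ^ B) :
    rn0 B (encAll l c ex n0 j A H D w τ z z' ρ) = n0 := by
  unfold rn0
  refine decN_bits _ _ h _ fun v _ => ?_
  unfold encAll
  have h0 : (20 * v + 5) % 20 = 5 := by omega
  have h2 : (20 * v + 5) / 20 = v := by omega
  simp only [h0, h2, nbit]

theorem rj_enc (B : ℕ) (h : j < 2 ^ B) :
    rj B (encAll l c ex n0 j A H D w τ z z' ρ) = j := by
  unfold rj
  refine decN_bits _ _ h _ fun v _ => ?_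
  unfold encAll
  have h0 : (20 * v + 6) % 20 = 6 := by omega
  have h2 : (20 * v + 6) / 20 = v := by omega
  simp only [h0, h2, nbit]

theorem rD_enc (B : ℕ) (h : |D| < 2 ^ B) :
    rD B (encAll l c ex n0 j A H D w τ z z' ρ) = D := by
  unfold rD
  have h0 : ∀ v, (20 * v + 9) % 20 = 9 := by intro v; omega
  have h2 : ∀ v, (20 * v + 9) / 20 = v := by intro v; omega
  refine decZ_bits _ _ h _ ?_ fun v _ => ?_
  · unfold encAll
    simp only [h0, h2, zbit]
  · unfold encAll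
    simp only [h0, h2, zbit]

theorem rA_enc (B i t : ℕ) (h : |A i t| < 2 ^ B) :
    rA B (encAll l c ex n0 j A H D w τ z z' ρ) i t = A i t := by
  unfold rA
  have h0 : ∀ v, (20 * v + 7) % 20 = 7 := by intro v; omega
  have h2 : ∀ v, (20 * v + 7) / 20 = v := by intro v; omega
  refine decZ_bits _ _ h _ ?_ fun v _ => ?_
  · unfold encAll
    simp only [h0, h2, Nat.unpair_pair, zbit]
  · unfold encAll
    simp only [h0, h2, Nat.unpair_pair, zbit]

theorem rH_enc (B i t : ℕ) (h : |H i t| < 2 ^ B) :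
    rH B (encAll l c ex n0 j A H D w τ z z' ρ) i t = H i t := by
  unfold rH
  have h0 : ∀ v, (20 * v + 8) % 20 = 8 := by intro v; omega
  have h2 : ∀ v, (20 * v + 8) / 20 = v := by intro v; omega
  refine decZ_bits _ _ h _ ?_ fun v _ => ?_
  · unfold encAll
    simp only [h0, h2, Nat.unpair_pair, zbit]
  · unfold encAll
    simp only [h0, h2, Nat.unpair_pair, zbit]

end

/-! ### Congruence -/

theorem rootData_congr {k : ℕ} {a u : ℕ → ℝ} {l c : ℕ → ℂ} {ex ex' : ℕ → ℕ}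
    (h : ∀ i, i < k → ex' i = ex i) (H : RootData k a u l c ex) : RootData k a u l c ex' := by
  obtain ⟨h1, h2, h3, h4⟩ := H
  refine ⟨fun i hi => ?_, fun i hi i' hi' hne => ?_, fun i hi e he => ?_, fun n hn => ?_⟩
  · rw [h i hi]; exact h1 i hi
  · rw [h i hi, h i' hi']; exact h2 i hi i' hi' hne
  · rw [h i hi] at he; exact h3 i hi e he
  · rw [← h4 n hn]
    refine Finset.sum_congr rfl fun i hi => ?_
    rw [h i (Finset.mem_range.1 hi)]

theorem lev_congr {k s d : ℕ} {l c z : ℕ → ℂ} {ex ex' : ℕ → ℕ} {A A' : ℕ → ℕ → ℤ} {j : ℕ} {ρ : ℝ}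
    (h : ∀ i, i < k → ex' i = ex i) (hA : ∀ i, i < k → ∀ t, t < k → A' i t = A i t) :
    Lev k s d l c z ex' A' j ρ = Lev k s d l c z ex A j ρ := by
  classical
  unfold Lev
  refine Finset.sum_congr rfl fun i hi => ?_
  rw [Finset.mem_range] at hi
  rw [h i hi]
  have : ∏ t ∈ Finset.range k, (if t < s then z t ^ A' t i else 1) =
      ∏ t ∈ Finset.range k, (if t < s then z t ^ A t i else 1) := by
    refine Finset.prod_congr rfl fun t ht => ?_
    rw [Finset.mem_range] at ht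
    rw [hA t ht i hi]
  rw [this]

theorem cb_congr {k s d : ℕ} {ε δ : ℝ} {l c : ℕ → ℂ} {ex ex' : ℕ → ℕ} {n0 j : ℕ}
    {A H A' H' : ℕ → ℕ → ℤ} {D : ℤ}
    {w : ℕ → ℕ → ℝ} {τ : ℕ → ℝ} {z z' : ℕ → ℂ} {ρ : ℝ}
    (h : ∀ i, i < k → ex' i = ex i) (hA : ∀ i, i < k → ∀ t, t < k → A' i t = A i t)
    (hH : ∀ i, i < k → ∀ t, t < k → H' i t = H i t)
    (h0 : CB k s d ε δ l c ex n0 j A H D w τ z z' ρ) :
    CB k s d ε δ l c ex' n0 j A' H' D w τ z z' ρ := by
  classical
  obtain ⟨h1, h2, h3, h4, h5, h6, h7, h8, h9, h10⟩ := h0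
  refine ⟨h1, fun i hi i' hi' => ?_, h3, fun i hi i' hi' hii => ?_, h5, h6, h7, h8,
    fun m hm => ?_, ?_⟩
  · rw [← h2 i hi i' hi']
    refine Finset.sum_congr rfl fun t ht => ?_
    rw [Finset.mem_range] at ht
    rw [hA i' hi' t ht, hH i hi t ht]
  · have e1 : ∑ t ∈ Finset.range k, (H' i' t : ℝ) * w i t =
        ∑ t ∈ Finset.range k, (H i' t : ℝ) * w i t := by
      refine Finset.sum_congr rfl fun t ht => ?_
      rw [Finset.mem_range] at ht
      rw [hH i' hi' t ht]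
    have e2 : ∏ t ∈ Finset.range k, (nz (l t) ^ n0) ^ H' i' t =
        ∏ t ∈ Finset.range k, (nz (l t) ^ n0) ^ H i' t := by
      refine Finset.prod_congr rfl fun t ht => ?_
      rw [Finset.mem_range] at ht
      rw [hH i' hi' t ht]
    rw [e1, e2]
    exact h4 i hi i' hi' hii
  · refine Eq.trans ?_ (h9 m hm)
    refine Finset.sum_congr rfl fun i hi => ?_
    rw [Finset.mem_range] at hi
    rw [h i hi]
  · rw [lev_congr h hA, lev_congr h hA]
    exact h10

theorem cert_iff (k bm bn : ℕ) (a u : ℕ → ℝ) (ε δ : ℝ) :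
    (∃ (l c : ℕ → ℂ) (ex : ℕ → ℕ), RootData k a u l c ex ∧ CertN k l c ex bm bn ε δ) ↔
      ∃ s, s < k + 1 ∧ ∃ d, d < k ∧ ∃ α : ℕ → ℝ, Body k s d bm bn a u ε δ α := by
  classical
  constructor
  · rintro ⟨l, c, ex, hR, n0, j, A, H, D, s, w, τ, z, z', ρ, d, h1, h2, h3, h4, h5, h6, h7, h8, h9,
      h10, h11, h12, h13, h14, h15, h16, h17, h18, h19⟩
    refine ⟨s, by omega, d, h17, encAll l c ex n0 j A H D w τ z z' ρ, ?_⟩
    have hj : j < 2 ^ (bn + k) := by
      have e1 : k < 2 ^ k := Nat.lt_two_pow_self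
      have e2 : 1 ≤ 2 ^ bn := Nat.one_le_two_pow
      rw [pow_add]
      generalize 2 ^ bn = P at *
      generalize 2 ^ k = Q at *
      have e3 : P + k ≤ P * Q := by
        calc P + k ≤ P + P * k := by nlinarith
          _ = P * (k + 1) := by ring
          _ ≤ P * Q := Nat.mul_le_mul_left _ e1
      omega
    have hex : ∀ i, i < k → rex k (encAll l c ex n0 j A H D w τ z z' ρ) i = ex i :=
      fun i hi => rex_enc _ _ _ _ _ _ _ _ _ _ _ _ _ _ _ (hR.1 i hi)
    have hA : ∀ i, i < k → ∀ t, t < k → rA bm (encAll l c ex n0 j A H D w τ z z' ρ) i t = A i t :=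
      fun i hi t ht => rA_enc _ _ _ _ _ _ _ _ _ _ _ _ _ _ _ _ (h9 i hi t ht)
    have hH : ∀ i, i < k → ∀ t, t < k → rH bm (encAll l c ex n0 j A H D w τ z z' ρ) i t = H i t :=
      fun i hi t ht => rH_enc _ _ _ _ _ _ _ _ _ _ _ _ _ _ _ _ (h10 i hi t ht)
    unfold Body
    rw [rl_enc, rc_enc, rz_enc, rz'_enc, rτ_enc, rρ_enc, rw_enc,
      rn0_enc _ _ _ _ _ _ _ _ _ _ _ _ _ _ h2, rj_enc _ _ _ _ _ _ _ _ _ _ _ _ _ _ hj,
      rD_enc _ _ _ _ _ _ _ _ _ _ _ _ _ _ h7]
    refine ⟨rootData_congr hex hR, cb_congr hex hA hH ?_⟩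
    exact ⟨⟨h1, h3, h4, h6⟩, h8, h11, h12, h13, h14, h15, h16, h18, h19⟩
  · rintro ⟨s, hs, d, hd, α, hR, hC⟩
    refine ⟨rl α, rc α, rex k α, hR, rn0 bn α, rj (bn + k) α, rA bm α, rH bm α, rD bm α, s,
      rw' α, rτ α, rz α, rz' α, rρ α, d, ?_⟩
    obtain ⟨⟨h1, h3, h4, h6⟩, h8, h11, h12, h13, h14, h15, h16, h18, h19⟩ := hC
    exact ⟨h1, decN_lt _ _, h3, h4, by omega, h6, abs_decZ_lt _ _, h8,
      fun i _ t _ => abs_decZ_lt _ _, fun i _ t _ => abs_decZ_lt _ _, h11, h12, h13, h14, h15, h16,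
      hd, h18, h19⟩

/-- (P3) the existence of a certificate is an existential real condition -/
theorem re_cert {Γ : Type} (kk bm bn : List Γ → ℕ) (aR uR : List Γ → ℕ → ℝ) (εR δR : List Γ → ℝ)
    (hk : UF (fun x _ => kk x)) (hbm : UF (fun x _ => bm x)) (hbn : UF (fun x _ => bn x))
    (ha : RF (fun x e _ => aR x (e 0))) (hu : RF (fun x e _ => uR x (e 0)))
    (hε : RF (fun x _ _ => εR x)) (hδ : RF (fun x _ _ => δR x)) :
    RE (fun x _ _ => ∃ (l c : ℕ → ℂ) (ex : ℕ → ℕ), RootData (kk x) (aR x) (uR x) l c ex ∧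
      CertN (kk x) l c ex (bm x) (bn x) (εR x) (δR x)) := by
  have h1 : RE (fun x _ _ => ∃ s, s < kk x + 1 ∧ ∃ d, d < kk x ∧ ∃ α : ℕ → ℝ,
      Body (kk x) s d (bm x) (bn x) (aR x) (uR x) (εR x) (δR x) α) := by
    refine RE.bex (hk.add (UF.const 1)) (RE.bex hk (RE.exb ?_))
    exact RE.aff (re_body kk bm bn aR uR εR δR hk hbm hbn ha hu hε hδ) 2 1
  exact h1.congr fun x _ _ => (cert_iff _ _ _ _ _ _ _).symm

/-- (P3') a double root of the characteristic polynomial is an existential real condition -/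
theorem re_double {Γ : Type} (kk : List Γ → ℕ) (aR : List Γ → ℕ → ℝ)
    (hk : UF (fun x _ => kk x)) (ha : RF (fun x e _ => aR x (e 0))) :
    RE (fun x _ _ => ∃ z : ℂ, (∀ e, e < 2 → ((kk x).choose e : ℂ) * z ^ (kk x - e) =
      ∑ t ∈ Finset.range (kk x), (aR x t : ℂ) * ((kk x - 1 - t).choose e : ℂ) *
        z ^ (kk x - 1 - t - e))) := by
  refine RE.exc (RE.ball (UF.const 2) (RE.ceq ?_ (CF.sum hk ?_)))
  · exact (CF.choose (NF.uf hk) (UF.var 0)).mul ((CF.var (UF.const 0) (UF.const 1)).pow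
      (hk.sub (UF.var 0)))
  · refine ((CF.ofReal ?_).mul (CF.choose (NF.uf ((hk.sub (UF.const 1)).sub (UF.var 0)))
      (UF.var 1))).mul ((CF.var (UF.const 0) (UF.const 1)).pow
        (((hk.sub (UF.const 1)).sub (UF.var 0)).sub (UF.var 1)))
    exact ha

end Pool.Agent.DD7719.M
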