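import Pool.Agent.DD7719.CertDef

/-! The integer polynomial of an instance; bound for the relations and for the torsion. -/

set_option autoImplicit false

namespace Pool.Agent.DD7719.M

open Polynomial Finset

lemma RelBound.mono {k : ℕ} {l : Fin k → ℂ} {R R' : ℕ} (h : RelBound k l R) (hR : R ≤ R') :
    RelBound k l R' := by
  intro a ha
  exact h a fun g hg => ha g fun i => (hg i).trans (by exact_mod_cast hR)

/-- the integer polynomial -/
noncomputable def ipoly (k : ℕ) (num : ℕ → ℤ) (den : ℕ → ℕ) : ℤ[X] :=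
  C (∏ s ∈ range k, (den s : ℤ)) * X ^ k -
    ∑ t ∈ range k, C (num t * ∏ s ∈ (range k).erase t, (den s : ℤ)) * X ^ (k - 1 - t)

lemma ipoly_coeff (k : ℕ) (num : ℕ → ℤ) (den : ℕ → ℕ) (i : ℕ) :
    (ipoly k num den).coeff i = if i = k then (∏ s ∈ range k, (den s : ℤ)) else
      if i < k then - (num (k - 1 - i) * ∏ s ∈ (range k).erase (k - 1 - i), (den s : ℤ)) else 0 := by
  rw [ipoly, coeff_sub, coeff_C_mul_X_pow, finsetSum_coeff]
  simp only [coeff_C_mul_X_pow]
  by_cases h1 : i = k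
  · rw [if_pos h1, if_pos h1, Finset.sum_eq_zero, sub_zero]
    intro t ht
    rw [Finset.mem_range] at ht
    rw [if_neg]
    omega
  · rw [if_neg h1, if_neg h1]
    by_cases h2 : i < k
    · rw [if_pos h2, Finset.sum_eq_single (k - 1 - i)]
      · rw [if_pos (by omega), zero_sub]
      · intro b hb hne
        rw [Finset.mem_range] at hb
        rw [if_neg]
        omega
      · intro h
        rw [Finset.mem_range] at h
        omega
    · rw [if_neg h2, Finset.sum_eq_zero, sub_zero]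
      intro t ht
      rw [Finset.mem_range] at ht
      rw [if_neg]
      omega

lemma prod_den_le {ι : Type*} (s : Finset ι) (den : ι → ℕ) (L : ℕ) (h : ∀ i ∈ s, den i ≤ 2 ^ L) :
    ∏ i ∈ s, den i ≤ 2 ^ (L * s.card) := by
  calc ∏ i ∈ s, den i ≤ ∏ i ∈ s, 2 ^ L := Finset.prod_le_prod' h
    _ = 2 ^ (L * s.card) := by rw [Finset.prod_const, ← pow_mul]

lemma ipoly_coeff_le (k : ℕ) (num : ℕ → ℤ) (den : ℕ → ℕ) (L : ℕ) (hkL : k ≤ L)
    (hnum : ∀ t, t < k → (num t).natAbs ≤ 2 ^ L) (hden : ∀ t, t < k → den t ≤ 2 ^ L) (i : ℕ) :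
    |(ipoly k num den).coeff i| ≤ ((2 ^ (L * L) : ℕ) : ℤ) := by
  rw [ipoly_coeff]
  split_ifs with h1 h2
  · rw [← Nat.cast_prod, Int.abs_eq_natAbs, Int.natAbs_natCast]
    have := prod_den_le (range k) den L (fun i hi => hden i (Finset.mem_range.mp hi))
    rw [Finset.card_range] at this
    exact_mod_cast this.trans (Nat.pow_le_pow_right (by norm_num) (Nat.mul_le_mul_left _ hkL))
  · rw [abs_neg, abs_mul, ← Nat.cast_prod, Int.abs_eq_natAbs, Int.abs_eq_natAbs, Int.natAbs_natCast]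
    have h3 := prod_den_le ((range k).erase (k - 1 - i)) den L
      (fun i hi => hden i (Finset.mem_range.mp (Finset.mem_of_mem_erase hi)))
    rw [Finset.card_erase_of_mem (Finset.mem_range.mpr (by omega)), Finset.card_range] at h3
    have h4 := Nat.mul_le_mul (hnum (k - 1 - i) (by omega)) h3
    rw [← pow_add] at h4
    have h5 : L + L * (k - 1) ≤ L * L := by
      have : L + L * (k - 1) = L * (k - 1 + 1) := by ring
      rw [this]
      exact Nat.mul_le_mul_left _ (by omega)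
    exact_mod_cast h4.trans (Nat.pow_le_pow_right (by norm_num) h5)
  · simp

lemma ipoly_ne_zero (k : ℕ) (num : ℕ → ℤ) (den : ℕ → ℕ) (hden : ∀ t, t < k → 0 < den t) :
    ipoly k num den ≠ 0 := by
  intro h
  have h1 := ipoly_coeff k num den k
  rw [h, coeff_zero, if_pos rfl] at h1
  have h2 : ∏ s ∈ range k, (den s : ℤ) ≠ 0 := by
    rw [Finset.prod_ne_zero_iff]
    intro s hs
    exact_mod_cast (hden s (Finset.mem_range.mp hs)).ne'
  exact h2 h1.symm

lemma ipoly_natDegree (k : ℕ) (num : ℕ → ℤ) (den : ℕ → ℕ) : (ipoly k num den).natDegree ≤ k := by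
  rw [natDegree_le_iff_coeff_eq_zero]
  intro i hi
  rw [ipoly_coeff, if_neg (by omega), if_neg (by omega)]

lemma ipoly_aeval (k : ℕ) (num : ℕ → ℤ) (den : ℕ → ℕ) (hden : ∀ t, t < k → 0 < den t) (z : ℂ)
    (hz : z ^ k = ∑ t ∈ range k, ((num t : ℂ) / (den t : ℂ)) * z ^ (k - 1 - t)) :
    aeval z (ipoly k num den) = 0 := by
  rw [ipoly, map_sub, map_mul, map_sum, aeval_C, map_pow, aeval_X, hz, mul_sum, sub_eq_zero]
  apply Finset.sum_congr rfl
  intro t ht
  rw [map_mul, aeval_C, map_pow, aeval_X, ← Finset.mul_prod_erase (range k) _ ht]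
  have h1 : (den t : ℂ) ≠ 0 := by exact_mod_cast (hden t (Finset.mem_range.mp ht)).ne'
  push_cast
  simp only [algebraMap_int_eq, eq_intCast]
  push_cast
  field_simp

theorem relBound_of_roots (k : ℕ) (num : ℕ → ℤ) (den : ℕ → ℕ) (L : ℕ) (hkL : k ≤ L)
    (hden0 : ∀ t, t < k → 0 < den t)
    (hnum : ∀ t, t < k → (num t).natAbs ≤ 2 ^ L) (hden : ∀ t, t < k → den t ≤ 2 ^ L)
    (l : Fin k → ℂ)
    (hl : ∀ i, l i ^ k = ∑ t ∈ range k, ((num t : ℂ) / (den t : ℂ)) * l i ^ (k - 1 - t)) :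
    RelBound k l (R (k + 1) k (2 * 2 ^ (L * L))) := by
  intro a ha
  have h0 := ipoly_ne_zero k num den hden0
  have h1 : ipoly k num den * (X - C 1) ≠ 0 := mul_ne_zero h0 (X_sub_C_ne_zero 1)
  have key := relations_bound (k + 1) k (ipoly k num den * (X - C 1)) h1 (by
    refine natDegree_mul_le.trans ?_
    rw [natDegree_X_sub_C]
    exact Nat.add_le_add_right (ipoly_natDegree k num den) 1) (2 * 2 ^ (L * L)) (by
    intro i
    have hc := ipoly_coeff_le k num den L hkL hnum hden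
    have h2 : (2 ^ (L * L) : ℤ) = ((2 ^ (L * L) : ℕ) : ℤ) := by push_cast; rfl
    rcases i with _ | i
    · rw [C_1, mul_sub, mul_one, coeff_sub, coeff_mul_X_zero, zero_sub, abs_neg]
      have := hc 0
      push_cast at this ⊢
      linarith [abs_nonneg ((ipoly k num den).coeff 0)]
    · rw [C_1, mul_sub, mul_one, coeff_sub, coeff_mul_X]
      have h3 := hc i
      have h4 := hc (i + 1)
      have h5 := abs_sub ((ipoly k num den).coeff i) ((ipoly k num den).coeff (i + 1))
      push_cast at h3 h4 ⊢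
      linarith) (fun i => nzr (l i)) (by
    intro i
    simp only [nzr]
    split_ifs with h
    · simp
    · rw [map_mul, ipoly_aeval k num den hden0 (l i) (hl i), zero_mul]) (fun i => nzr_ne_zero _) a (by
    intro g hg hrel
    apply ha g hg
    rw [← prod_nzr]
    exact hrel)
  intro g hg
  exact key g (by rw [prod_nzr]; exact hg)

theorem torsion_of_roots (k : ℕ) (num : ℕ → ℤ) (den : ℕ → ℕ)
    (hden0 : ∀ t, t < k → 0 < den t) (l : Fin k → ℂ)
    (hl : ∀ i, l i ^ k = ∑ t ∈ range k, ((num t : ℂ) / (den t : ℂ)) * l i ^ (k - 1 - t)) :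
    ∃ e : ℕ, 0 < e ∧ e ≤ 2 * (k.factorial) ^ 2 ∧
      ∀ i i', l i ≠ 0 → l i' ≠ 0 → (∃ n : ℕ, 0 < n ∧ (l i / l i') ^ n = 1) → (l i / l i') ^ e = 1 := by
  have h0 := ipoly_ne_zero k num den hden0
  obtain ⟨e, he, hle, h⟩ := torsion_bound k (ipoly k num den) h0 (ipoly_natDegree k num den)
  have hmem : ∀ i, l i ∈ IntermediateField.adjoin ℚ ((ipoly k num den).rootSet ℂ) := fun i =>
    IntermediateField.subset_adjoin _ _
      ((mem_rootSet_of_ne h0).mpr (ipoly_aeval k num den hden0 (l i) (hl i)))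
  exact ⟨e, he, hle, fun i i' _ _ hn => h _ (div_mem (hmem i) (hmem i')) hn⟩

end Pool.Agent.DD7719.M
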