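import Pool.Agent.DD7719.CertDef

/-! The certificate for general (not necessarily simple) recurrences: definitions. -/

set_option autoImplicit false

namespace Pool.Agent.DD7719.M

open Complex Filter Topology

/-- terms above the level `(ρ, d)` -/
def Above (ρ : ℝ) (d : ℕ) (z : ℂ) (e : ℕ) : Prop := ρ < ‖z‖ ∨ (‖z‖ = ρ ∧ 0 < ρ ∧ d < e)

open scoped Classical in
/-- General certificate, `Fin k`-indexed. -/
def CertF (k : ℕ) (l c : Fin k → ℂ) (ex : Fin k → ℕ) (M Nb : ℕ) (ε δ : ℝ) : Prop :=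
  ∃ (n0 j : ℕ) (A H : Fin k → Fin k → ℤ) (D : ℤ) (s : ℕ) (w : Fin k → Fin k → ℝ)
    (τ : Fin k → ℝ) (z z' : Fin k → ℂ) (ρ : ℝ) (d : ℕ),
    0 < n0 ∧ n0 ≤ Nb ∧ k ≤ j ∧ j < k + n0 ∧ s ≤ k ∧ D ≠ 0 ∧ |D| ≤ M ∧
    (∀ l' i, ∑ t, H l' t * A i t = if l' = i then D else 0) ∧
    (∀ l' t, |A l' t| ≤ M) ∧ (∀ l' t, |H l' t| ≤ M) ∧
    (∀ i, ‖nz (l i) ^ n0 - 1‖ ≤ δ) ∧
    (∀ i : Fin k, (i : ℕ) < s → ∀ l', i ≤ l' → ∑ t, (H l' t : ℝ) * w i t =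
      (if l' = i then (D : ℝ) else 0) - τ i * (∏ t, (nz (l t) ^ n0) ^ H l' t).im) ∧
    (∀ i : Fin k, (i : ℕ) < s → ∀ t, |w i t| ≤ ε) ∧
    (∀ t, ‖z t‖ = 1) ∧ (∀ t, ‖z' t‖ = 1) ∧ 0 ≤ ρ ∧ d < k ∧
    (∀ m < k, ∑ i, (if Above ρ d (l i) (ex i) then
      c i * ((j + n0 * m).choose (ex i) : ℂ) * l i ^ (j + n0 * m - ex i) else 0) = 0) ∧
    (ρ = 0 ∨
      (∑ i, (if ‖l i‖ = ρ ∧ ex i = d then c i * l i ^ (j - d) *
        ∏ t : Fin k, (if (t : ℕ) < s then z t ^ A t i else 1) else 0)).re < 0 ∨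
      (0 < d ∧
        (∑ i, (if ‖l i‖ = ρ ∧ ex i = d then c i * l i ^ (j - d) *
          ∏ t : Fin k, (if (t : ℕ) < s then z t ^ A t i else 1) else 0)).re ≤ 0 ∧
        (∑ i, (if ‖l i‖ = ρ ∧ ex i = d then c i * l i ^ (j - d) *
          ∏ t : Fin k, (if (t : ℕ) < s then z' t ^ A t i else 1) else 0)).re ≠ 0))

/-- A real sequence is *critical* if along some arithmetic progression its growth is exactly
`ρ^m m^d` with `d ≥ 1` (bounded by it, and not negligible along any further progression), but it is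
not bounded below by a positive multiple of `ρ^m m^d`. -/
def Critical (v : ℕ → ℝ) : Prop :=
  ∃ (N J d : ℕ) (ρ : ℝ), 0 < N ∧ 0 < d ∧ 0 < ρ ∧
    (∃ B : ℝ, ∀ m : ℕ, 0 < m → |v (N * m + J)| ≤ B * (ρ ^ m * m ^ d)) ∧
    (∀ N' J' : ℕ, 0 < N' → ¬ Tendsto (fun m : ℕ => v (N * (N' * m + J') + J) /
      (ρ ^ (N' * m + J') * ((N' * m + J' : ℕ) : ℝ) ^ d)) atTop (𝓝 0)) ∧
    ¬ ∃ b : ℝ, 0 < b ∧ ∀ᶠ m : ℕ in atTop, b * (ρ ^ m * m ^ d) ≤ v (N * m + J)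

/-- `ℕ`-indexed data: roots with exponents and coefficients for `u_n = ∑ c_i C(n, ex_i) l_i^(n-ex_i)`. -/
def RootData (k : ℕ) (a u : ℕ → ℝ) (l c : ℕ → ℂ) (ex : ℕ → ℕ) : Prop :=
  (∀ i, i < k → ex i < k) ∧
  (∀ i, i < k → ∀ i', i' < k → i ≠ i' → l i ≠ l i' ∨ ex i ≠ ex i') ∧
  (∀ i, i < k → ∀ e, e ≤ ex i → (k.choose e : ℂ) * l i ^ (k - e) =
    ∑ t ∈ Finset.range k, (a t : ℂ) * ((k - 1 - t).choose e : ℂ) * l i ^ (k - 1 - t - e)) ∧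
  (∀ n, n < k → ∑ i ∈ Finset.range k, c i * (n.choose (ex i) : ℂ) * l i ^ (n - ex i) = (u n : ℂ))

open scoped Classical in
/-- General certificate, `ℕ`-indexed, with binary sizes. -/
def CertN (k : ℕ) (l c : ℕ → ℂ) (ex : ℕ → ℕ) (bm bn : ℕ) (ε δ : ℝ) : Prop :=
  ∃ (n0 j : ℕ) (A H : ℕ → ℕ → ℤ) (D : ℤ) (s : ℕ) (w : ℕ → ℕ → ℝ)
    (τ : ℕ → ℝ) (z z' : ℕ → ℂ) (ρ : ℝ) (d : ℕ),
    0 < n0 ∧ n0 < 2 ^ bn ∧ k ≤ j ∧ j < k + n0 ∧ s ≤ k ∧ D ≠ 0 ∧ |D| < 2 ^ bm ∧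
    (∀ i, i < k → ∀ i', i' < k → ∑ t ∈ Finset.range k, H i t * A i' t = if i = i' then D else 0) ∧
    (∀ i, i < k → ∀ t, t < k → |A i t| < 2 ^ bm) ∧ (∀ i, i < k → ∀ t, t < k → |H i t| < 2 ^ bm) ∧
    (∀ i, i < k → ‖nz (l i) ^ n0 - 1‖ ≤ δ) ∧
    (∀ i, i < s → ∀ i', i' < k → i ≤ i' → ∑ t ∈ Finset.range k, (H i' t : ℝ) * w i t =
      (if i' = i then (D : ℝ) else 0) -
        τ i * (∏ t ∈ Finset.range k, (nz (l t) ^ n0) ^ H i' t).im) ∧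
    (∀ i, i < s → ∀ t, t < k → |w i t| ≤ ε) ∧
    (∀ t, t < k → ‖z t‖ = 1) ∧ (∀ t, t < k → ‖z' t‖ = 1) ∧ 0 ≤ ρ ∧ d < k ∧
    (∀ m, m < k → ∑ i ∈ Finset.range k, (if Above ρ d (l i) (ex i) then
      c i * ((j + n0 * m).choose (ex i) : ℂ) * l i ^ (j + n0 * m - ex i) else 0) = 0) ∧
    (ρ = 0 ∨
      (∑ i ∈ Finset.range k, (if ‖l i‖ = ρ ∧ ex i = d then c i * l i ^ (j - d) *
        ∏ t ∈ Finset.range k, (if t < s then z t ^ A t i else 1) else 0)).re < 0 ∨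
      (0 < d ∧
        (∑ i ∈ Finset.range k, (if ‖l i‖ = ρ ∧ ex i = d then c i * l i ^ (j - d) *
          ∏ t ∈ Finset.range k, (if t < s then z t ^ A t i else 1) else 0)).re ≤ 0 ∧
        (∑ i ∈ Finset.range k, (if ‖l i‖ = ρ ∧ ex i = d then c i * l i ^ (j - d) *
          ∏ t ∈ Finset.range k, (if t < s then z' t ^ A t i else 1) else 0)).re ≠ 0))

end Pool.Agent.DD7719.M
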