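import Pool.Agent.DD7719.RepLin
import Pool.Agent.DD7719.CertGDef

/-! Existence of root data with algebraic entries, and the integer polynomial of an instance. -/

set_option autoImplicit false

namespace Pool.Agent.DD7719.M

open Polynomial Finset

theorem exists_rootData (k : ℕ) (a u : ℕ → ℚ) :
    ∃ (l c : ℕ → ℂ) (ex : ℕ → ℕ), RootData k (fun t => (a t : ℝ)) (fun n => (u n : ℝ)) l c ex ∧
      (∀ i, IsIntegral ℚ (l i)) ∧ (∀ i, IsIntegral ℚ (c i)) := by
  obtain ⟨l, c, ex, h1, h2, h3, h4⟩ := exists_rep (K := AlgebraicClosure ℚ) k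
    (fun t => algebraMap ℚ _ (a t)) (fun t => algebraMap ℚ _ (u t))
  have hA : Algebra.IsAlgebraic ℚ (AlgebraicClosure ℚ) := AlgebraicClosure.isAlgebraic ℚ
  let φ : AlgebraicClosure ℚ →ₐ[ℚ] ℂ := IsAlgClosed.lift
  refine ⟨fun i => φ (l i), fun i => φ (c i), ex, ⟨h1, ?_, ?_, ?_⟩, ?_, ?_⟩
  · intro i hi i' hi' hne
    rcases h2 i hi i' hi' hne with h | h
    · exact Or.inl fun h' => h (φ.toRingHom.injective h')
    · exact Or.inr h
  · intro i hi e he
    have := congrArg φ (h3 i hi e he)
    simp only [map_mul, map_pow, map_sum, map_natCast, AlgHom.commutes] at this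
    rw [this]
    apply Finset.sum_congr rfl
    intro t _
    simp
  · intro n hn
    have := congrArg φ (h4 n hn)
    simp only [map_mul, map_pow, map_sum, map_natCast, AlgHom.commutes] at this
    rw [this]
    simp
  · intro i
    exact (Algebra.IsIntegral.isIntegral (l i)).map φ
  · intro i
    exact (Algebra.IsIntegral.isIntegral (c i)).map φ

/-- all terms from root data -/
theorem RootData.all {k : ℕ} {a u : ℕ → ℝ} {l c : ℕ → ℂ} {ex : ℕ → ℕ} (h : RootData k a u l c ex)
    (v : ℕ → ℝ) (hv0 : ∀ n, n < k → v n = u n)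
    (hv : ∀ n, k ≤ n → v n = ∑ t ∈ range k, a t * v (n - 1 - t)) (n : ℕ) :
    ∑ i : Fin k, c i * (n.choose (ex i) : ℂ) * l i ^ (n - ex i) = (v n : ℂ) := by
  obtain ⟨_, _, h3, h4⟩ := h
  have := rep_all k (fun t => (a t : ℂ)) (fun n => (v n : ℂ)) (by
    intro n hn
    rw [hv n hn]
    push_cast
    rfl) l c ex h3 (by
    intro n hn
    rw [h4 n hn, hv0 n hn]) n
  rw [← this, Finset.sum_range]

/-- root data of any kind have algebraic roots, and are roots of the characteristic polynomial -/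
theorem RootData.root {k : ℕ} {a u : ℕ → ℝ} {l c : ℕ → ℂ} {ex : ℕ → ℕ} (h : RootData k a u l c ex)
    (i : ℕ) (hi : i < k) : l i ^ k = ∑ t ∈ range k, (a t : ℂ) * l i ^ (k - 1 - t) := by
  have := h.2.2.1 i hi 0 (Nat.zero_le _)
  simpa using this

/-- root data are downward closed in the exponent -/
theorem RootData.closed {k : ℕ} {a u : ℕ → ℝ} {l c : ℕ → ℂ} {ex : ℕ → ℕ}
    (h : RootData k a u l c ex) (i : Fin k) (e : ℕ) (he : e < ex i) :
    ∃ i' : Fin k, l i' = l i ∧ ex i' = e := by
  classical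
  set p := cp k (fun t => (a t : ℂ)) with hp
  have hp0 : p ≠ 0 := (cp_monic k _).ne_zero
  have hcard : Multiset.card p.roots = k := by
    conv_rhs => rw [← cp_natDegree k (fun t => (a t : ℂ))]
    exact (splits_iff_card_roots.mp (IsAlgClosed.splits p))
  set S := p.roots.toEnumFinset with hS
  have hScard : S.card = k := by rw [hS, Multiset.card_toEnumFinset, hcard]
  have hmem : ∀ i : Fin k, ex i < p.roots.count (l i) := by
    intro i
    rw [count_roots, ← Nat.succ_le_iff, le_rootMultiplicity_iff hp0]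
    apply pow_dvd_of_hasse
    intro e he
    rw [hp, hasse_cp, sub_eq_zero]
    exact h.2.2.1 i i.2 e (by omega)
  set T : Finset (ℂ × ℕ) := Finset.univ.image fun i : Fin k => ((l i, ex i) : ℂ × ℕ) with hT
  have hTcard : T.card = k := by
    rw [hT, Finset.card_image_of_injective, Finset.card_univ, Fintype.card_fin]
    intro i i' hii'
    by_contra hne
    have hne' : (i : ℕ) ≠ i' := fun h => hne (Fin.ext h)
    have h1 := Prod.ext_iff.mp hii'
    rcases h.2.1 i i.2 i' i'.2 hne' with h' | h'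
    · exact h' h1.1
    · exact h' h1.2
  have hTS : T ⊆ S := by
    intro x hx
    obtain ⟨i, _, rfl⟩ := Finset.mem_image.mp hx
    exact (Multiset.mem_toEnumFinset _ _).mpr (hmem i)
  have hEq : T = S := Finset.eq_of_subset_of_card_le hTS (by rw [hTcard, hScard])
  have h2 : ((l i, e) : ℂ × ℕ) ∈ S := (Multiset.mem_toEnumFinset _ _).mpr (he.trans (hmem i))
  rw [← hEq, hT] at h2
  obtain ⟨i', _, hi'⟩ := Finset.mem_image.mp h2
  exact ⟨i', congrArg Prod.fst hi', congrArg Prod.snd hi'⟩

end Pool.Agent.DD7719.M
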