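import Pool.Agent.UltPos.Seq
import Pool.Agent.UltPos.Parse
import Pool.Agent.DD7719.GComplete
import Pool.Agent.DD7719.CertRE2
import Pool.Agent.DD7719.RootEx
import Pool.Agent.DD7719.RootBound
import Pool.Agent.DD7719.Params
import Pool.Agent.DD7719.Bridge

/-! Assembly: the certificate for instances. -/

set_option autoImplicit false

namespace Pool.Agent.UltPos

open Pool.Agent.PT Pool.Agent.AllR Pool.Agent.DD7719.M Pool.Agent.DD7719 Finset

/-- The sequence of the instance is critical (auxiliary form). -/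
def Inst.CriticalM (I : Inst) : Prop := ∃ v : ℕ → ℚ, I.IsSeq v ∧ DD7719.M.Critical (fun n => (v n : ℝ))

def Inst.num (I : Inst) (t : ℕ) : ℤ := if h : t < I.k then I.aNum ⟨t, h⟩ else 0
def Inst.den (I : Inst) (t : ℕ) : ℕ := if h : t < I.k then I.aDen ⟨t, h⟩ else 1
def Inst.aQ (I : Inst) (t : ℕ) : ℚ := if h : t < I.k then I.a ⟨t, h⟩ else 0
def Inst.uQ (I : Inst) (t : ℕ) : ℚ := if h : t < I.k then I.u ⟨t, h⟩ else 0

lemma rootData_congr {k : ℕ} {a u a' u' : ℕ → ℝ} (ha : ∀ t, t < k → a t = a' t)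
    (hu : ∀ t, t < k → u t = u' t) {l c : ℕ → ℂ} {ex : ℕ → ℕ} (h : RootData k a u l c ex) :
    RootData k a' u' l c ex := by
  obtain ⟨h1, h2, h3, h4⟩ := h
  refine ⟨h1, h2, ?_, ?_⟩
  · intro i hi e he
    rw [h3 i hi e he]
    apply Finset.sum_congr rfl
    intro t ht
    rw [ha t (Finset.mem_range.mp ht)]
  · intro n hn
    rw [h4 n hn, hu n hn]

lemma Inst.up_iff (I : Inst) {v : ℕ → ℚ} (hv : I.IsSeq v) :
    I.UltimatelyPositive ↔ ∃ N, ∀ n, N ≤ n → 0 < v n := by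
  constructor
  · intro h
    exact h v hv
  · intro h w hw
    rw [I.exists_unique_seq.unique hw hv]
    exact h

lemma Inst.criticalM_iff (I : Inst) {v : ℕ → ℚ} (hv : I.IsSeq v) :
    I.CriticalM ↔ DD7719.M.Critical (fun n => (v n : ℝ)) := by
  constructor
  · rintro ⟨w, hw, h⟩
    rwa [I.exists_unique_seq.unique hw hv] at h
  · intro h
    exact ⟨v, hv, h⟩

theorem Inst.cert_iff (I : Inst) (L : ℕ) (hkL : I.k ≤ L)
    (hb : ∀ i, (I.aNum i).natAbs ≤ 2 ^ L ∧ I.aDen i ≤ 2 ^ L) (aR uR : ℕ → ℝ)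
    (ha : ∀ t (h : t < I.k), aR t = (I.a ⟨t, h⟩ : ℝ)) (hu : ∀ t (h : t < I.k), uR t = (I.u ⟨t, h⟩ : ℝ)) :
    (¬ (I.UltimatelyPositive ∧ ¬ I.CriticalM)) ↔ ∃ (l c : ℕ → ℂ) (ex : ℕ → ℕ),
      RootData I.k aR uR l c ex ∧
      CertN I.k l c ex (pbm L) (pbn L) (2 / ((2 ^ pq L : ℕ) : ℝ)) (1 / 2 ^ pdl L) := by
  obtain ⟨v, hv, -⟩ := I.exists_unique_seq
  rw [I.up_iff hv, I.criticalM_iff hv]
  have hk := I.kpos
  -- the real sequence
  have hv0 : ∀ n, n < I.k → ((v n : ℚ) : ℝ) = uR n := by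
    intro n hn
    rw [hu n hn]
    exact_mod_cast hv.1 ⟨n, hn⟩
  have hvr : ∀ n, I.k ≤ n → ((v n : ℚ) : ℝ) = ∑ t ∈ range I.k, aR t * ((v (n - 1 - t) : ℚ) : ℝ) := by
    intro n hn
    rw [hv.2 n hn, Finset.sum_range]
    push_cast
    apply Finset.sum_congr rfl
    intro t _
    rw [ha t t.2]
  have hden0 : ∀ t, t < I.k → 0 < I.den t := by
    intro t ht
    simp only [Inst.den, ht, dif_pos]
    exact I.aDen_pos _
  have hnumL : ∀ t, t < I.k → (I.num t).natAbs ≤ 2 ^ L := by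
    intro t ht
    simp only [Inst.num, ht, dif_pos]
    exact (hb _).1
  have hdenL : ∀ t, t < I.k → I.den t ≤ 2 ^ L := by
    intro t ht
    simp only [Inst.den, ht, dif_pos]
    exact (hb _).2
  have haND : ∀ t, t < I.k → ((aR t : ℝ) : ℂ) = (I.num t : ℂ) / (I.den t : ℂ) := by
    intro t ht
    rw [ha t ht]
    simp only [Inst.num, Inst.den, ht, dif_pos, Inst.a]
    push_cast
    rfl
  have hroot : ∀ {l c : ℕ → ℂ} {ex : ℕ → ℕ}, RootData I.k aR uR l c ex → ∀ i : Fin I.k,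
      l i ^ I.k = ∑ t ∈ range I.k, ((I.num t : ℂ) / (I.den t : ℂ)) * l i ^ (I.k - 1 - t) := by
    intro l c ex hrd i
    rw [hrd.root i i.2]
    apply Finset.sum_congr rfl
    intro t ht
    rw [haND t (Finset.mem_range.mp ht)]
  have hiff : (∃ N, ∀ n, N ≤ n → 0 < v n) ↔ (∃ N, ∀ n, N ≤ n → 0 < ((v n : ℚ) : ℝ)) := by
    simp only [Rat.cast_pos]
  rw [hiff]
  constructor
  · intro hneg
    obtain ⟨l, c, ex, hrd0, hl, hc⟩ := exists_rootData I.k I.aQ I.uQ
    have hrd : RootData I.k aR uR l c ex := rootData_congr (by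
      intro t ht
      rw [ha t ht]
      simp only [Inst.aQ, ht, dif_pos]) (by
      intro t ht
      rw [hu t ht]
      simp only [Inst.uQ, ht, dif_pos]) hrd0
    refine ⟨l, c, ex, hrd, ?_⟩
    obtain ⟨e, he0, hele, htor⟩ := torsion_of_roots I.k I.num I.den hden0 (fun i => l i) (hroot hrd)
    have hrb := (relBound_of_roots I.k I.num I.den L hkL hden0 hnumL hdenL (fun i => l i)
      (hroot hrd)).mono (pR_le hkL)
    have hF := certF_complete (k := I.k) (fun i => l i) (fun i => c i) (fun i => ex i) (2 ^ pr L)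
      (2 ^ pq L) (2 ^ pmh L) (2 ^ (pdl L + 3)) e (2 ^ (1 + 2 * L * L + (pdl L + 3) * L)) hk
      (fun i => hrd.1 i i.2) Nat.one_le_two_pow
      (le_trans (by
        have : 2 * I.k * 2 ^ pr L ≤ 8 * I.k * 2 ^ pr L := by
          gcongr
          norm_num
        exact this) (pQ_le hkL)) (pMH_le hkL) (1 / 2 ^ pdl L) (by positivity) (pd2 hkL) (pd4 hkL)
      (pd3 hkL) (by positivity) (pd5 L) he0 (pNb_le hkL hele) hrb
      (fun i i' h1 h2 h3 => htor i i' h1 h2 h3) (fun i => hc i) (fun i => hl i)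
      (fun n => ((v n : ℚ) : ℝ)) (hrd.all _ hv0 hvr) hneg
    exact hF.toN (two_pow_lt_pbm L) (two_pow_lt_pbn L)
  · rintro ⟨l, c, ex, hrd, hcert⟩
    have hrb := (relBound_of_roots I.k I.num I.den L hkL hden0 hnumL hdenL (fun i => l i)
      (hroot hrd)).mono (pR_le hkL)
    exact certF_sound (k := I.k) (fun i => l i) (fun i => c i) (fun i => ex i) (2 ^ pr L)
      (2 ^ pbm L) (2 ^ pbn L) _ _ hk (fun i => hrd.1 i i.2)
      (fun i e he => hrd.closed i e he) Nat.one_le_two_pow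
      Nat.one_le_two_pow hrb (peps hkL) (pd1 hkL) (fun n => ((v n : ℚ) : ℝ)) (hrd.all _ hv0 hvr)
      hcert.toF

end Pool.Agent.UltPos
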