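import Mathlib

/-! Counting balanced tuples of compositions (Chebyshev's inequality). -/

open Finset

namespace Pool.Agent.DD7719

/-- The compositions of `r` indexed by `ι`. -/
def Comp (ι : Type) [Fintype ι] [DecidableEq ι] (r : ℕ) : Finset (ι → ℕ) := piAntidiag univ r

section
variable {ι : Type} [Fintype ι] [DecidableEq ι]

lemma mem_Comp {r : ℕ} {c : ι → ℕ} : c ∈ Comp ι r ↔ ∑ i, c i = r := by simp [Comp]

lemma sum_Comp_eq (r : ℕ) (J J' : ι) :
    ∑ c ∈ Comp ι r, (c J : ℝ) = ∑ c ∈ Comp ι r, (c J' : ℝ) := by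
  have hmem : ∀ c : ι → ℕ, c ∈ Comp ι r → c ∘ Equiv.swap J J' ∈ Comp ι r := by
    intro c hc
    rw [mem_Comp] at hc ⊢
    rw [← hc]
    exact Equiv.sum_comp (Equiv.swap J J') c
  refine Finset.sum_bij' (fun c _ => c ∘ Equiv.swap J J') (fun c _ => c ∘ Equiv.swap J J')
    hmem hmem ?_ ?_ ?_
  · intro c _; ext i; simp
  · intro c _; ext i; simp
  · intro c _; simp

lemma sum_Comp (r : ℕ) (J : ι) :
    (Fintype.card ι : ℝ) * ∑ c ∈ Comp ι r, (c J : ℝ) = r * (Comp ι r).card := by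
  have h1 : ∑ J' : ι, ∑ c ∈ Comp ι r, (c J' : ℝ) = r * (Comp ι r).card := by
    rw [Finset.sum_comm]
    have : ∀ c ∈ Comp ι r, ∑ J' : ι, (c J' : ℝ) = r := by
      intro c hc
      rw [mem_Comp] at hc
      exact_mod_cast hc
    rw [Finset.sum_congr rfl this, Finset.sum_const, nsmul_eq_mul, mul_comm]
  rw [← h1, Finset.sum_congr rfl (fun J' _ => sum_Comp_eq r J' J)]
  simp

lemma centered [Nonempty ι] (r : ℕ) (hr : 0 < r) (J : ι) :
    ∑ c ∈ Comp ι r, ((c J : ℝ) / r - 1 / Fintype.card ι) = 0 := by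
  have hN : (Fintype.card ι : ℝ) ≠ 0 := by
    have := Fintype.card_pos (α := ι)
    positivity
  have hr' : (r : ℝ) ≠ 0 := by positivity
  have h := sum_Comp r J
  rw [Finset.sum_sub_distrib, Finset.sum_const, nsmul_eq_mul, ← Finset.sum_div]
  field_simp
  linarith

lemma centered_abs_le [Nonempty ι] (r : ℕ) (hr : 0 < r) (J : ι) (c : ι → ℕ) (hc : c ∈ Comp ι r) :
    |(c J : ℝ) / r - 1 / Fintype.card ι| ≤ 1 := by
  have hN : (1 : ℝ) ≤ Fintype.card ι := by
    have := Fintype.card_pos (α := ι)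
    exact_mod_cast this
  have hr' : (0 : ℝ) < r := by positivity
  rw [mem_Comp] at hc
  have h1 : (c J : ℝ) ≤ r := by
    have : c J ≤ ∑ i, c i := Finset.single_le_sum (fun _ _ => Nat.zero_le _) (mem_univ J)
    rw [hc] at this
    exact_mod_cast this
  have h2 : (c J : ℝ) / r ≤ 1 := by rw [div_le_one hr']; exact h1
  have h3 : 0 ≤ (c J : ℝ) / r := by positivity
  have h4 : (1 : ℝ) / Fintype.card ι ≤ 1 := by
    rw [div_le_one (by linarith)]; exact hN
  have h5 : (0 : ℝ) ≤ 1 / Fintype.card ι := by positivity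
  rw [abs_le]
  constructor <;> linarith

lemma Comp_nonempty [Nonempty ι] (r : ℕ) : (Comp ι r).Nonempty := by
  refine ⟨Pi.single (Classical.arbitrary ι) r, ?_⟩
  rw [mem_Comp]
  simp

lemma card_Comp_le (r : ℕ) : (Comp ι r).card ≤ (r + 1) ^ Fintype.card ι := by
  have : Comp ι r ⊆ Fintype.piFinset (fun _ : ι => Finset.range (r + 1)) := by
    intro c hc
    rw [mem_Comp] at hc
    rw [Fintype.mem_piFinset]
    intro i
    rw [Finset.mem_range]
    have : c i ≤ ∑ i, c i := Finset.single_le_sum (fun _ _ => Nat.zero_le _) (mem_univ i)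
    omega
  refine (Finset.card_le_card this).trans ?_
  rw [Fintype.card_piFinset]
  simp
end

lemma cross_zero {M : ℕ} {α : Type} [DecidableEq α] (S : Fin M → Finset α) (g : Fin M → α → ℝ)
    (h0 : ∀ h, ∑ c ∈ S h, g h c = 0) (h h' : Fin M) (hne : h ≠ h') :
    ∑ j ∈ Fintype.piFinset S, g h (j h) * g h' (j h') = 0 := by
  let f : Fin M → α → ℝ := fun k c => if k = h then g h c else if k = h' then g h' c else 1
  have h1 : ∀ j : Fin M → α, g h (j h) * g h' (j h') = ∏ k, f k (j k) := by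
    intro j
    rw [Finset.prod_eq_mul h h' hne]
    · simp [f, hne.symm]
    · intro c _ hc
      simp [f, hc.1, hc.2]
    · intro hh; exact absurd (mem_univ h) hh
    · intro hh; exact absurd (mem_univ h') hh
  simp only [h1]
  rw [← Finset.prod_univ_sum]
  refine Finset.prod_eq_zero (mem_univ h) ?_
  have : ∀ c ∈ S h, f h c = g h c := by
    intro c _; simp [f]
  rw [Finset.sum_congr rfl this]
  exact h0 h

lemma second_moment {M : ℕ} {α : Type} [DecidableEq α] (S : Fin M → Finset α)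
    (g : Fin M → α → ℝ) (h0 : ∀ h, ∑ c ∈ S h, g h c = 0) (h1 : ∀ h, ∀ c ∈ S h, |g h c| ≤ 1) :
    ∑ j ∈ Fintype.piFinset S, (∑ h, g h (j h)) ^ 2 ≤ M * (Fintype.piFinset S).card := by
  have hexp : ∀ j : Fin M → α, (∑ h, g h (j h)) ^ 2 = ∑ h, ∑ h', g h (j h) * g h' (j h') := by
    intro j
    rw [sq, Finset.sum_mul_sum]
  simp only [hexp]
  rw [Finset.sum_comm]
  have hh : ∀ h ∈ (univ : Finset (Fin M)),
      ∑ j ∈ Fintype.piFinset S, ∑ h', g h (j h) * g h' (j h') ≤ (Fintype.piFinset S).card := by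
    intro h _
    rw [Finset.sum_comm, Finset.sum_eq_single h]
    · have : ∀ j ∈ Fintype.piFinset S, g h (j h) * g h (j h) ≤ 1 := by
        intro j hj
        have hj' := Fintype.mem_piFinset.1 hj h
        have := h1 h _ hj'
        rw [← abs_mul_abs_self]
        nlinarith [abs_nonneg (g h (j h))]
      refine (Finset.sum_le_sum this).trans ?_
      simp
    · intro h' _ hne
      exact cross_zero S g h0 h h' hne.symm
    · intro hh; exact absurd (mem_univ h) hh
  refine (Finset.sum_le_sum hh).trans ?_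
  simp

lemma chebyshev {M : ℕ} {α : Type} [DecidableEq α] (S : Fin M → Finset α)
    (g : Fin M → α → ℝ) (h0 : ∀ h, ∑ c ∈ S h, g h c = 0) (h1 : ∀ h, ∀ c ∈ S h, |g h c| ≤ 1)
    (δ : ℝ) (hδ : 0 < δ) :
    (δ * M) ^ 2 * (((Fintype.piFinset S).filter (fun j => δ * M < |∑ h, g h (j h)|)).card : ℝ) ≤
      M * (Fintype.piFinset S).card := by
  refine le_trans ?_ (second_moment S g h0 h1)
  have : ∑ j ∈ (Fintype.piFinset S).filter (fun j => δ * M < |∑ h, g h (j h)|),
      (∑ h, g h (j h)) ^ 2 ≤ ∑ j ∈ Fintype.piFinset S, (∑ h, g h (j h)) ^ 2 :=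
    Finset.sum_le_sum_of_subset_of_nonneg (Finset.filter_subset _ _) (fun _ _ _ => sq_nonneg _)
  refine le_trans ?_ this
  rw [mul_comm, ← nsmul_eq_mul]
  refine Finset.card_nsmul_le_sum _ _ _ ?_
  intro j hj
  have := (Finset.mem_filter.1 hj).2
  rw [← sq_abs (∑ h, g h (j h))]
  have h0 : 0 ≤ δ * M := by positivity
  gcongr

section
variable {ι : Type} [Fintype ι] [DecidableEq ι]

/-- The block-homogeneous exponents. -/
def Tset (ι : Type) [Fintype ι] [DecidableEq ι] {M : ℕ} (r : Fin M → ℕ) :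
    Finset (Fin M → ι → ℕ) := Fintype.piFinset (fun h => Comp ι (r h))

lemma mem_Tset {M : ℕ} {r : Fin M → ℕ} {j : Fin M → ι → ℕ} :
    j ∈ Tset ι r ↔ ∀ h, ∑ J, j h J = r h := by
  simp [Tset, mem_Comp]

/-- Balanced. -/
def Bal (δ : ℝ) {M : ℕ} (r : Fin M → ℕ) (j : Fin M → ι → ℕ) : Prop :=
  ∀ J, |∑ h, (j h J : ℝ) / r h - M / Fintype.card ι| ≤ δ * M

open Classical in
lemma unbal_card [Nonempty ι] (δ : ℝ) (hδ : 0 < δ) {M : ℕ} (hM : 0 < M)
    (hM' : 4 * (Fintype.card ι : ℝ) / δ ^ 2 ≤ M) (r : Fin M → ℕ) (hr : ∀ h, 0 < r h) :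
    4 * ((Tset ι r).filter (fun j => ¬ Bal δ r j)).card ≤ (Tset ι r).card := by
  have hMR : (0 : ℝ) < M := by exact_mod_cast hM
  have hsub : (Tset ι r).filter (fun j => ¬ Bal δ r j) ⊆
      (univ : Finset ι).biUnion (fun J => (Tset ι r).filter (fun j => δ * M <
        |∑ h, ((j h J : ℝ) / r h - 1 / Fintype.card ι)|)) := by
    intro j hj
    rw [Finset.mem_filter] at hj
    obtain ⟨hj1, hj2⟩ := hj
    unfold Bal at hj2
    push Not at hj2
    obtain ⟨J, hJ⟩ := hj2
    rw [Finset.mem_biUnion]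
    refine ⟨J, mem_univ _, ?_⟩
    rw [Finset.mem_filter]
    refine ⟨hj1, ?_⟩
    have : ∑ h : Fin M, ((j h J : ℝ) / r h - 1 / Fintype.card ι) =
        ∑ h, (j h J : ℝ) / r h - M / Fintype.card ι := by
      rw [Finset.sum_sub_distrib]
      simp [div_eq_mul_inv]
    rw [this]
    exact hJ
  have h1 : ∀ J : ι, (δ * M) ^ 2 * (((Tset ι r).filter (fun j => δ * M <
        |∑ h, ((j h J : ℝ) / r h - 1 / Fintype.card ι)|)).card : ℝ) ≤ M * (Tset ι r).card := by
    intro J
    exact chebyshev (fun h => Comp ι (r h)) (fun h c => (c J : ℝ) / r h - 1 / Fintype.card ι)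
      (fun h => centered (r h) (hr h) J) (fun h c hc => centered_abs_le (r h) (hr h) J c hc) δ hδ
  have h2 : (((Tset ι r).filter (fun j => ¬ Bal δ r j)).card : ℝ) ≤
      ∑ J : ι, (((Tset ι r).filter (fun j => δ * M <
        |∑ h, ((j h J : ℝ) / r h - 1 / Fintype.card ι)|)).card : ℝ) := by
    have := (Finset.card_le_card hsub).trans Finset.card_biUnion_le
    exact_mod_cast this
  have h3 : (δ * M) ^ 2 * (((Tset ι r).filter (fun j => ¬ Bal δ r j)).card : ℝ) ≤
      Fintype.card ι * (M * (Tset ι r).card) := by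
    calc _ ≤ (δ * M) ^ 2 * ∑ J : ι, (((Tset ι r).filter (fun j => δ * M <
        |∑ h, ((j h J : ℝ) / r h - 1 / Fintype.card ι)|)).card : ℝ) := by gcongr
      _ = ∑ J : ι, (δ * M) ^ 2 * (((Tset ι r).filter (fun j => δ * M <
        |∑ h, ((j h J : ℝ) / r h - 1 / Fintype.card ι)|)).card : ℝ) := by rw [Finset.mul_sum]
      _ ≤ ∑ _J : ι, M * ((Tset ι r).card : ℝ) := Finset.sum_le_sum fun J _ => h1 J
      _ = _ := by simp
  have h4 : 4 * (Fintype.card ι : ℝ) ≤ δ ^ 2 * M := by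
    rw [div_le_iff₀ (by positivity)] at hM'
    linarith
  have h5 : (4 : ℝ) * ((Tset ι r).filter (fun j => ¬ Bal δ r j)).card ≤ (Tset ι r).card := by
    have h6 : M * ((δ ^ 2 * M) * (((Tset ι r).filter (fun j => ¬ Bal δ r j)).card : ℝ)) ≤
      M * (Fintype.card ι * (Tset ι r).card : ℝ) := by
      calc _ = (δ * M) ^ 2 * (((Tset ι r).filter (fun j => ¬ Bal δ r j)).card : ℝ) := by ring
        _ ≤ _ := h3
        _ = _ := by ring
    have h7 := le_of_mul_le_mul_left h6 hMR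
    have hN : (0 : ℝ) < Fintype.card ι := by
      have := Fintype.card_pos (α := ι)
      positivity
    have h8 : (Fintype.card ι : ℝ) * (4 * ((Tset ι r).filter (fun j => ¬ Bal δ r j)).card) ≤
        Fintype.card ι * (Tset ι r).card := by
      calc _ = (4 * (Fintype.card ι : ℝ)) * ((Tset ι r).filter (fun j => ¬ Bal δ r j)).card := by
            ring
        _ ≤ (δ ^ 2 * M) * ((Tset ι r).filter (fun j => ¬ Bal δ r j)).card := by gcongr
        _ ≤ _ := h7
    exact le_of_mul_le_mul_left h8 hN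
  exact_mod_cast h5

lemma Tset_nonempty [Nonempty ι] {M : ℕ} (r : Fin M → ℕ) : (Tset ι r).Nonempty := by
  unfold Tset
  rw [Fintype.piFinset_nonempty]
  exact fun h => Comp_nonempty (r h)

lemma card_Tset_le {M : ℕ} (r : Fin M → ℕ) :
    ((Tset ι r).card : ℝ) ≤ Real.exp (Fintype.card ι * ∑ h, (r h : ℝ)) := by
  unfold Tset
  rw [Fintype.card_piFinset]
  push_cast
  rw [Finset.mul_sum, Real.exp_sum]
  refine Finset.prod_le_prod (fun _ _ => by positivity) fun h _ => ?_
  have h1 : ((Comp ι (r h)).card : ℝ) ≤ ((r h : ℝ) + 1) ^ Fintype.card ι := by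
    exact_mod_cast card_Comp_le (ι := ι) (r h)
  refine h1.trans ?_
  rw [Real.exp_nat_mul]
  gcongr
  exact Real.add_one_le_exp _

end

end Pool.Agent.DD7719
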