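import Mathlib

/-! A convenient form of Siegel's lemma over a number field. -/

open NumberField

namespace Pool.Agent.DD7719

theorem siegel_extract (K : Type*) [Field K] [NumberField K] :
    ∃ c : ℝ, ∀ (α β : Type) [Fintype α] [Fintype β] (a : Matrix α β (𝓞 K)) (A : ℝ),
      a ≠ 0 → (∀ k l, house ((algebraMap (𝓞 K) K) (a k l)) ≤ A) →
      0 < Fintype.card α → Fintype.card α < Fintype.card β →
      ∃ ξ : β → 𝓞 K, ξ ≠ 0 ∧ Matrix.mulVec a ξ = 0 ∧
        ∀ l, house (ξ l).1 ≤ c * ((c * Fintype.card β * A) ^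
          ((Fintype.card α : ℝ) / ((Fintype.card β : ℝ) - Fintype.card α))) := by
  classical
  refine ⟨?w, ?h⟩
  case h =>
    intro α β _ _ a A ha habs h0 h1
    exact house.exists_ne_zero_int_vec_house_le K a ha h0 h1 rfl habs rfl

theorem siegel (K : Type*) [Field K] [NumberField K] :
    ∃ c : ℝ, 1 ≤ c ∧ ∀ (α β : Type) [Fintype α] [Fintype β] (a : Matrix α β (𝓞 K)) (A : ℝ),
      1 ≤ A → (∀ k l, house ((algebraMap (𝓞 K) K) (a k l)) ≤ A) →
      2 * Fintype.card α ≤ Fintype.card β → 0 < Fintype.card β →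
      ∃ ξ : β → 𝓞 K, ξ ≠ 0 ∧ Matrix.mulVec a ξ = 0 ∧
        ∀ l, house (ξ l).1 ≤ c * (c * Fintype.card β * A) := by
  classical
  obtain ⟨c, hc⟩ := siegel_extract K
  refine ⟨max 1 |c|, le_max_left _ _, fun α β _ _ a A hA habs h2 h0 => ?_⟩
  set c' := max 1 |c| with hc'
  have hc1 : 1 ≤ c' := le_max_left _ _
  have hβ1 : (1 : ℝ) ≤ Fintype.card β := by exact_mod_cast h0
  have hbase : 1 ≤ c' * Fintype.card β * A := by
    have : 1 ≤ c' * (Fintype.card β : ℝ) := by nlinarith
    nlinarith
  by_cases hcase : a = 0 ∨ Fintype.card α = 0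
  · have : Nonempty β := Fintype.card_pos_iff.1 h0
    refine ⟨fun _ => 1, ?_, ?_, ?_⟩
    · intro h
      have := congrFun h (Classical.arbitrary β)
      simp at this
    · rcases hcase with h | h
      · rw [h]; exact Matrix.zero_mulVec _
      · have : IsEmpty α := Fintype.card_eq_zero_iff.1 h
        exact Subsingleton.elim _ _
    · intro l
      have h1 : house ((1 : 𝓞 K) : K) ≤ 1 := by
        have := house_intCast (K := K) 1
        simp only [Int.cast_one, abs_one] at this
        simpa using this.le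
      refine h1.trans ?_
      nlinarith
  · push Not at hcase
    obtain ⟨ha, hα⟩ := hcase
    have hα0 : 0 < Fintype.card α := Nat.pos_of_ne_zero hα
    obtain ⟨ξ, h1, h3, h4⟩ := hc α β a A ha habs hα0 (by omega)
    refine ⟨ξ, h1, h3, fun l => (h4 l).trans ?_⟩
    have hαR : (0 : ℝ) < Fintype.card α := by exact_mod_cast hα0
    have h2R : 2 * (Fintype.card α : ℝ) ≤ Fintype.card β := by exact_mod_cast h2
    set e : ℝ := (Fintype.card α : ℝ) / ((Fintype.card β : ℝ) - Fintype.card α) with he
    have hden : (0 : ℝ) < (Fintype.card β : ℝ) - Fintype.card α := by linarith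
    have he0 : 0 < e := by positivity
    have he1 : e ≤ 1 := by
      rw [he, div_le_one hden]; linarith
    have hA0 : 0 < A := by linarith
    have hcc' : |c| ≤ c' := le_max_right _ _
    calc c * ((c * Fintype.card β * A) ^ e) ≤ |c| * (|c| * Fintype.card β * A) ^ e := by
          refine (le_abs_self _).trans ?_
          rw [abs_mul]
          gcongr
          refine (Real.abs_rpow_le_abs_rpow _ _).trans ?_
          rw [abs_mul, abs_mul, abs_of_pos hA0, Nat.abs_cast]
      _ ≤ c' * ((c' * Fintype.card β * A) ^ e) := by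
          gcongr
      _ ≤ c' * ((c' * Fintype.card β * A) ^ (1 : ℝ)) := by
          gcongr
      _ = c' * (c' * Fintype.card β * A) := by rw [Real.rpow_one]

end Pool.Agent.DD7719
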