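import Mathlib
import Pool.Agent.DD7719.Count
import Pool.Agent.DD7719.Siegel

/-! The auxiliary polynomial. -/

open MvPolynomial NumberField

namespace Pool.Agent.DD7719

section Maj
variable {σ K : Type*} [Field K]

/-- Coefficientwise majorant. -/
def Maj (φ : K →+* ℂ) (F : MvPolynomial σ K) (G : MvPolynomial σ ℝ) : Prop :=
  ∀ i, ‖φ (F.coeff i)‖ ≤ G.coeff i

lemma Maj.nonneg {φ : K →+* ℂ} {F : MvPolynomial σ K} {G : MvPolynomial σ ℝ} (h : Maj φ F G)
    (i : σ →₀ ℕ) : 0 ≤ G.coeff i := (norm_nonneg _).trans (h i)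

lemma Maj.mul {φ : K →+* ℂ} {F F' : MvPolynomial σ K} {G G' : MvPolynomial σ ℝ}
    (h : Maj φ F G) (h' : Maj φ F' G') : Maj φ (F * F') (G * G') := by
  classical
  intro i
  rw [coeff_mul, coeff_mul, map_sum]
  refine (norm_sum_le _ _).trans (Finset.sum_le_sum fun p _ => ?_)
  rw [map_mul, norm_mul]
  exact mul_le_mul (h _) (h' _) (norm_nonneg _) (h.nonneg _)

lemma Maj.add {φ : K →+* ℂ} {F F' : MvPolynomial σ K} {G G' : MvPolynomial σ ℝ}
    (h : Maj φ F G) (h' : Maj φ F' G') : Maj φ (F + F') (G + G') := by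
  intro i
  rw [coeff_add, coeff_add, map_add]
  exact (norm_add_le _ _).trans (add_le_add (h _) (h' _))

lemma Maj.zero (φ : K →+* ℂ) : Maj φ (0 : MvPolynomial σ K) 0 := by
  intro i; simp

lemma Maj.one (φ : K →+* ℂ) : Maj φ (1 : MvPolynomial σ K) 1 := by
  classical
  intro i
  rw [coeff_one, coeff_one]
  split_ifs <;> simp

lemma Maj.sum {τ : Type*} {φ : K →+* ℂ} (s : Finset τ) (F : τ → MvPolynomial σ K)
    (G : τ → MvPolynomial σ ℝ) (h : ∀ t ∈ s, Maj φ (F t) (G t)) :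
    Maj φ (∑ t ∈ s, F t) (∑ t ∈ s, G t) := by
  classical
  induction s using Finset.induction_on with
  | empty => simpa using Maj.zero φ
  | insert a s ha ih =>
    rw [Finset.sum_insert ha, Finset.sum_insert ha]
    exact (h a (Finset.mem_insert_self _ _)).add
      (ih fun t ht => h t (Finset.mem_insert_of_mem ht))

lemma Maj.prod {τ : Type*} {φ : K →+* ℂ} (s : Finset τ) (F : τ → MvPolynomial σ K)
    (G : τ → MvPolynomial σ ℝ) (h : ∀ t ∈ s, Maj φ (F t) (G t)) :
    Maj φ (∏ t ∈ s, F t) (∏ t ∈ s, G t) := by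
  classical
  induction s using Finset.induction_on with
  | empty => simpa using Maj.one φ
  | insert a s ha ih =>
    rw [Finset.prod_insert ha, Finset.prod_insert ha]
    exact (h a (Finset.mem_insert_self _ _)).mul
      (ih fun t ht => h t (Finset.mem_insert_of_mem ht))

lemma Maj.pow {φ : K →+* ℂ} {F : MvPolynomial σ K} {G : MvPolynomial σ ℝ}
    (h : Maj φ F G) (n : ℕ) : Maj φ (F ^ n) (G ^ n) := by
  induction n with
  | zero => simpa using Maj.one φ
  | succ n ih => rw [pow_succ, pow_succ]; exact ih.mul h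

lemma Maj.C_mul_X {φ : K →+* ℂ} (a : K) (H : ℝ) (ha : ‖φ a‖ ≤ H) (i : σ) :
    Maj φ (C a * X i) (C H * X i) := by
  classical
  intro j
  rw [coeff_C_mul, coeff_C_mul, coeff_X, coeff_X]
  split_ifs
  · simpa using ha
  · simp

lemma Maj.coeff_le_eval {φ : K →+* ℂ} {F : MvPolynomial σ K} {G : MvPolynomial σ ℝ}
    (h : Maj φ F G) (i : σ →₀ ℕ) : ‖φ (F.coeff i)‖ ≤ eval (fun _ => 1) G := by
  classical
  rw [MvPolynomial.eval_eq]
  simp only [one_pow, Finset.prod_const_one, mul_one]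
  by_cases hi : i ∈ G.support
  · exact (h i).trans (Finset.single_le_sum (fun d _ => h.nonneg d) hi)
  · have : G.coeff i = 0 := by simpa [MvPolynomial.mem_support_iff] using hi
    refine (h i).trans ?_
    rw [this]
    exact Finset.sum_nonneg fun d _ => h.nonneg d

end Maj

section Lin
variable {ι : Type} [Fintype ι] {M : ℕ}

/-- The block linear substitution. -/
noncomputable def Lin {R : Type*} [CommRing R] (Ψ : Matrix ι ι R) (p : Fin M × ι) :
    MvPolynomial (Fin M × ι) R := ∑ J' : ι, C (Ψ p.2 J') * X (p.1, J')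

/-- The image of a monomial under the block linear substitution. -/
noncomputable def Mon {R : Type*} [CommRing R] (Ψ : Matrix ι ι R) (j : Fin M × ι →₀ ℕ) :
    MvPolynomial (Fin M × ι) R := ∏ p, Lin Ψ p ^ j p

lemma bind₁_monomial_eq {R : Type*} [CommRing R] (Ψ : Matrix ι ι R) (j : Fin M × ι →₀ ℕ) (c : R) :
    bind₁ (Lin Ψ) (monomial j c) = C c * Mon Ψ j := by
  rw [bind₁_monomial, Mon]
  congr 1
  refine Finset.prod_subset (Finset.subset_univ _) fun p _ hp => ?_
  have : j p = 0 := by simpa using hp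
  rw [this, pow_zero]

lemma map_Lin {R S : Type*} [CommRing R] [CommRing S] (f : R →+* S) (Ψ : Matrix ι ι R)
    (p : Fin M × ι) : MvPolynomial.map f (Lin Ψ p) = Lin (Ψ.map f) p := by
  simp [Lin]

lemma map_Mon {R S : Type*} [CommRing R] [CommRing S] (f : R →+* S) (Ψ : Matrix ι ι R)
    (j : Fin M × ι →₀ ℕ) : MvPolynomial.map f (Mon Ψ j) = Mon (Ψ.map f) j := by
  simp [Mon, map_Lin]

lemma Lin_smul {R : Type*} [CommRing R] (b : R) (Ψ : Matrix ι ι R) (p : Fin M × ι) :
    Lin (b • Ψ) p = C b * Lin Ψ p := by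
  simp [Lin, Finset.mul_sum, mul_assoc]

lemma Mon_smul {R : Type*} [CommRing R] (b : R) (Ψ : Matrix ι ι R) (j : Fin M × ι →₀ ℕ) :
    Mon (b • Ψ) j = C (b ^ (∑ p, j p)) * Mon Ψ j := by
  simp only [Mon, Lin_smul, mul_pow, Finset.prod_mul_distrib]
  rw [Finset.prod_pow_eq_pow_sum, C_pow]

lemma Lin_wh {R : Type*} [CommRing R] (Ψ : Matrix ι ι R) (p : Fin M × ι) :
    IsWeightedHomogeneous (fun q : Fin M × ι => (Pi.single q.1 1 : Fin M → ℕ)) (Lin Ψ p)
      (Pi.single p.1 1) := by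
  refine IsWeightedHomogeneous.sum _ _ _ fun J' _ => ?_
  exact (isWeightedHomogeneous_X R _ (p.1, J')).C_mul _

lemma Mon_wh {R : Type*} [CommRing R] (Ψ : Matrix ι ι R) (j : Fin M × ι →₀ ℕ) :
    IsWeightedHomogeneous (fun q : Fin M × ι => (Pi.single q.1 1 : Fin M → ℕ)) (Mon Ψ j)
      (∑ p, j p • (Pi.single p.1 1 : Fin M → ℕ)) := by
  refine IsWeightedHomogeneous.prod _ _ _ fun p _ => ?_
  exact (Lin_wh Ψ p).pow (j p)

lemma weight_eq (d : Fin M × ι →₀ ℕ) (h : Fin M) :
    (∑ p, d p • (Pi.single p.1 1 : Fin M → ℕ)) h = ∑ J, d (h, J) := by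
  rw [Finset.sum_apply, Fintype.sum_prod_type]
  rw [Finset.sum_eq_single h]
  · simp
  · intro h' _ hne
    simp [hne.symm]
  · intro hh; exact absurd (Finset.mem_univ h) hh

lemma coeff_Mon_ne {R : Type*} [CommRing R] (Ψ : Matrix ι ι R) (j d : Fin M × ι →₀ ℕ)
    (hd : coeff d (Mon Ψ j) ≠ 0) (h : Fin M) : ∑ J, d (h, J) = ∑ J, j (h, J) := by
  have h1 := Mon_wh Ψ j hd
  rw [Finsupp.weight_apply, Finsupp.sum_fintype _ _ (by simp)] at h1
  have h2 := congrFun h1 h
  rw [weight_eq, weight_eq] at h2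
  exact h2

lemma Mon_bound {K : Type*} [Field K] (φ : K →+* ℂ) (Ψ : Matrix ι ι K) (H : ℝ)
    (hH : ∀ J J', ‖φ (Ψ J J')‖ ≤ H) (j d : Fin M × ι →₀ ℕ) :
    ‖φ (coeff d (Mon Ψ j))‖ ≤ (Fintype.card ι * H) ^ (∑ p, j p) := by
  have h1 : Maj φ (Mon Ψ j) (∏ p, (∑ J' : ι, C H * X (p.1, J')) ^ j p) := by
    refine Maj.prod _ _ _ fun p _ => Maj.pow ?_ _
    exact Maj.sum _ _ _ fun J' _ => Maj.C_mul_X _ _ (hH _ _) _
  refine (h1.coeff_le_eval d).trans (le_of_eq ?_)
  rw [map_prod]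
  simp only [map_pow, map_sum, map_mul, eval_C, eval_X, mul_one, Finset.sum_const,
    Finset.card_univ, nsmul_eq_mul]
  rw [Finset.prod_pow_eq_pow_sum]

end Lin

lemma house_le_of {K : Type*} [Field K] [NumberField K] (x : K) (A : ℝ) (hA : 0 ≤ A)
    (h : ∀ φ : K →+* ℂ, ‖φ x‖ ≤ A) : house x ≤ A := by
  rw [house, pi_norm_le_iff_of_nonneg hA]
  intro φ
  exact h φ

/-- (T4) Auxiliary polynomial. -/
theorem aux_poly (K : Type*) [Field K] [NumberField K] (ι : Type) [Fintype ι] [DecidableEq ι]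
    [Nonempty ι] (δ : ℝ) (hδ : 0 < δ) : ∃ M₀ : ℕ, ∀ M : ℕ, M₀ ≤ M → 0 < M →
    ∀ Ψ : Matrix ι ι K, ∃ C₀ : ℝ, 0 < C₀ ∧
    ∀ r : Fin M → ℕ, (∀ h, 0 < r h) →
    ∃ P : MvPolynomial (Fin M × ι) K, P ≠ 0 ∧
      (∀ j ∈ P.support, ∀ h, ∑ J, j (h, J) = r h) ∧
      (∀ j ∈ P.support, ∀ J, |∑ h, (j (h, J) : ℝ) / r h - M / Fintype.card ι| ≤ δ * M) ∧
      (∀ j ∈ (MvPolynomial.bind₁ (fun hJ : Fin M × ι => ∑ J' : ι, C (Ψ hJ.2 J') * X (hJ.1, J')) P).support,
        ∀ J, |∑ h, (j (h, J) : ℝ) / r h - M / Fintype.card ι| ≤ δ * M) ∧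
      (∀ j, IsIntegral ℤ (P.coeff j)) ∧
      (∀ j, ∀ φ : K →+* ℂ, ‖φ (P.coeff j)‖ ≤ Real.exp (C₀ * ∑ h, (r h : ℝ))) := by
  classical
  obtain ⟨c, hc1, hc⟩ := siegel K
  refine ⟨⌈4 * (Fintype.card ι : ℝ) / δ ^ 2⌉₊, fun M hM hMpos Ψ => ?_⟩
  have hM' : 4 * (Fintype.card ι : ℝ) / δ ^ 2 ≤ M :=
    (Nat.le_ceil _).trans (by exact_mod_cast hM)
  -- denominators
  obtain ⟨b, hb⟩ := IsLocalization.exist_integer_multiples_of_finite (nonZeroDivisors (𝓞 K))
    (fun q : ι × ι => Ψ q.1 q.2)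
  choose Ψ'' hΨ'' using fun q => hb q
  set Ψ' : Matrix ι ι (𝓞 K) := fun J J' => Ψ'' (J, J') with hΨ'
  have hb0 : (algebraMap (𝓞 K) K) (b : 𝓞 K) ≠ 0 := by
    have : (b : 𝓞 K) ≠ 0 := nonZeroDivisors.ne_zero b.2
    simp
  set bK : K := algebraMap (𝓞 K) K (b : 𝓞 K) with hbK
  have hΨmap : Ψ'.map (algebraMap (𝓞 K) K) = bK • Ψ := by
    ext J J'
    have := hΨ'' (J, J')
    simp only [Algebra.smul_def] at this
    simpa [hΨ'] using this
  set H : ℝ := 1 + ∑ J, ∑ J', house ((Ψ' J J' : 𝓞 K) : K) with hH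
  have hH1 : 1 ≤ H := by
    have : 0 ≤ ∑ J, ∑ J', house ((Ψ' J J' : 𝓞 K) : K) :=
      Finset.sum_nonneg fun J _ => Finset.sum_nonneg fun J' _ => house_nonneg _
    linarith
  have hHle : ∀ J J', house ((Ψ' J J' : 𝓞 K) : K) ≤ H := by
    intro J J'
    have h1 : house ((Ψ' J J' : 𝓞 K) : K) ≤ ∑ J', house ((Ψ' J J' : 𝓞 K) : K) :=
      Finset.single_le_sum (f := fun J' => house ((Ψ' J J' : 𝓞 K) : K))
        (fun J' _ => house_nonneg _) (Finset.mem_univ J')
    have h2 : ∑ J', house ((Ψ' J J' : 𝓞 K) : K) ≤ ∑ J, ∑ J', house ((Ψ' J J' : 𝓞 K) : K) :=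
      Finset.single_le_sum (f := fun J => ∑ J', house ((Ψ' J J' : 𝓞 K) : K))
        (fun J _ => Finset.sum_nonneg fun J' _ => house_nonneg _) (Finset.mem_univ J)
    linarith
  have hN1 : (1 : ℝ) ≤ Fintype.card ι := by
    have := Fintype.card_pos (α := ι)
    exact_mod_cast this
  set NH : ℝ := Fintype.card ι * H with hNH
  have hNH1 : 1 ≤ NH := by nlinarith
  refine ⟨2 * Real.log c + Fintype.card ι + Real.log NH + 1, ?_, fun r hr => ?_⟩
  · have := Real.log_nonneg hc1
    have := Real.log_nonneg hNH1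
    positivity
  set T := Tset ι r with hT
  set B := T.filter (fun j => Bal δ r j) with hB
  set U := T.filter (fun j => ¬ Bal δ r j) with hU
  have hcard : B.card + U.card = T.card := Finset.card_filter_add_card_filter_not _
  have hUcard : 4 * U.card ≤ T.card := unbal_card δ hδ hMpos hM' r hr
  have hTpos : 0 < T.card := Finset.card_pos.2 (Tset_nonempty r)
  let toF : (Fin M → ι → ℕ) → (Fin M × ι →₀ ℕ) := fun j =>
    Finsupp.equivFunOnFinite.symm (fun p => j p.1 p.2)
  have toF_apply : ∀ j h J, toF j (h, J) = j h J := fun j h J => rfl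
  have toF_inj : Function.Injective toF := by
    intro j j' hjj
    ext h J
    rw [← toF_apply j h J, hjj, toF_apply]
  have toF_sum : ∀ j ∈ T, ∑ p, toF j p = ∑ h, r h := by
    intro j hj
    rw [Fintype.sum_prod_type]
    refine Finset.sum_congr rfl fun h _ => ?_
    exact mem_Tset.1 hj h
  set A : ℝ := NH ^ (∑ h, r h) with hA
  have hA1 : 1 ≤ A := one_le_pow₀ hNH1
  let a : Matrix U B (𝓞 K) := fun u j => coeff (toF u.1) (Mon Ψ' (toF j.1))
  have ha : ∀ k l, house ((algebraMap (𝓞 K) K) (a k l)) ≤ A := by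
    intro u j
    refine house_le_of _ _ (by linarith) fun φ => ?_
    have h1 : (algebraMap (𝓞 K) K) (a u j) =
        coeff (toF u.1) (Mon (Ψ'.map (algebraMap (𝓞 K) K)) (toF j.1)) := by
      rw [← map_Mon, coeff_map]
    rw [h1]
    refine (Mon_bound φ _ H (fun J J' => ?_) _ _).trans (le_of_eq ?_)
    · exact (norm_embedding_le_house _ φ).trans (hHle J J')
    · rw [hA, toF_sum _ (Finset.mem_filter.1 j.2).1]
  obtain ⟨ξ, hξ0, hξa, hξh⟩ := hc U B a A hA1 ha
    (by simp only [Fintype.card_coe]; omega) (by simp only [Fintype.card_coe]; omega)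
  set P : MvPolynomial (Fin M × ι) K := ∑ j : B, monomial (toF j.1) ((ξ j : 𝓞 K) : K) with hP
  have hPcoeff : ∀ j : B, P.coeff (toF j.1) = ((ξ j : 𝓞 K) : K) := by
    intro j
    rw [hP, coeff_sum, Finset.sum_eq_single j]
    · simp
    · intro j' _ hne
      rw [coeff_monomial, if_neg]
      intro h
      exact hne (Subtype.ext (toF_inj h))
    · intro hh; exact absurd (Finset.mem_univ j) hh
  have hPcoeff0 : ∀ d, (∀ j : B, toF j.1 ≠ d) → P.coeff d = 0 := by
    intro d hd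
    rw [hP, coeff_sum]
    refine Finset.sum_eq_zero fun j _ => ?_
    rw [coeff_monomial, if_neg (hd j)]
  have hPsupp : ∀ d ∈ P.support, ∃ j : B, toF j.1 = d := by
    intro d hd
    by_contra hcon
    push Not at hcon
    rw [MvPolynomial.mem_support_iff] at hd
    exact hd (hPcoeff0 d hcon)
  refine ⟨P, ?_, ?_, ?_, ?_, ?_, ?_⟩
  · intro h0
    apply hξ0
    ext j
    have := hPcoeff j
    rw [h0, coeff_zero] at this
    simpa using this.symm
  · intro d hd h
    obtain ⟨j, rfl⟩ := hPsupp d hd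
    exact mem_Tset.1 (Finset.mem_filter.1 j.2).1 h
  · intro d hd J
    obtain ⟨j, rfl⟩ := hPsupp d hd
    exact (Finset.mem_filter.1 j.2).2 J
  · intro d hd
    have hbind : bind₁ (fun hJ : Fin M × ι => ∑ J' : ι, C (Ψ hJ.2 J') * X (hJ.1, J')) P =
        ∑ j : B, C ((ξ j : 𝓞 K) : K) * Mon Ψ (toF j.1) := by
      rw [hP, map_sum]
      exact Finset.sum_congr rfl fun j _ => bind₁_monomial_eq Ψ _ _
    rw [hbind, MvPolynomial.mem_support_iff, coeff_sum] at hd
    -- d is block homogeneous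
    have hdT : ∀ h, ∑ J, d (h, J) = r h := by
      obtain ⟨j, _, hj⟩ := Finset.exists_ne_zero_of_sum_ne_zero hd
      rw [coeff_C_mul] at hj
      have hj' : coeff d (Mon Ψ (toF j.1)) ≠ 0 := right_ne_zero_of_mul hj
      intro h
      rw [coeff_Mon_ne Ψ _ _ hj' h]
      exact mem_Tset.1 (Finset.mem_filter.1 j.2).1 h
    set u : Fin M → ι → ℕ := fun h J => d (h, J) with hu
    have hud : toF u = d := by
      ext ⟨h, J⟩
      exact toF_apply u h J
    have huT : u ∈ T := mem_Tset.2 hdT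
    by_cases hbal : Bal δ r u
    · exact hbal
    · exfalso
      have huU : u ∈ U := Finset.mem_filter.2 ⟨huT, hbal⟩
      have h1 := congrFun hξa ⟨u, huU⟩
      simp only [Matrix.mulVec, dotProduct, Pi.zero_apply] at h1
      have h2 := congrArg (algebraMap (𝓞 K) K) h1
      rw [map_sum, map_zero] at h2
      have h3 : ∀ j : B, algebraMap (𝓞 K) K (a ⟨u, huU⟩ j * ξ j) =
          bK ^ (∑ h, r h) * coeff d (C ((ξ j : 𝓞 K) : K) * Mon Ψ (toF j.1)) := by
        intro j
        rw [map_mul]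
        have h4 : (algebraMap (𝓞 K) K) (a ⟨u, huU⟩ j) =
            coeff (toF u) (Mon (Ψ'.map (algebraMap (𝓞 K) K)) (toF j.1)) := by
          rw [← map_Mon, coeff_map]
        rw [h4, hΨmap, Mon_smul, coeff_C_mul, coeff_C_mul, hud,
          toF_sum _ (Finset.mem_filter.1 j.2).1]
        ring
      rw [Finset.sum_congr rfl (fun j _ => h3 j), ← Finset.mul_sum] at h2
      rcases mul_eq_zero.1 h2 with h5 | h5
      · exact hb0 (eq_zero_of_pow_eq_zero h5)
      · exact hd h5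
  · intro d
    by_cases hd : ∃ j : B, toF j.1 = d
    · obtain ⟨j, rfl⟩ := hd
      rw [hPcoeff]
      exact (ξ j).2
    · push Not at hd
      rw [hPcoeff0 d hd]
      exact isIntegral_zero
  · intro d φ
    by_cases hd : ∃ j : B, toF j.1 = d
    · obtain ⟨j, rfl⟩ := hd
      rw [hPcoeff]
      refine (norm_embedding_le_house _ φ).trans ((hξh j).trans ?_)
      have hs1 : (1 : ℝ) ≤ ∑ h, (r h : ℝ) := by
        have h5 : (1 : ℝ) ≤ r ⟨0, hMpos⟩ := by exact_mod_cast hr _
        have h6 : (r ⟨0, hMpos⟩ : ℝ) ≤ ∑ h, (r h : ℝ) :=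
          Finset.single_le_sum (f := fun h => (r h : ℝ)) (fun _ _ => Nat.cast_nonneg _)
            (Finset.mem_univ _)
        linarith
      set s : ℝ := ∑ h, (r h : ℝ) with hs
      have hc0 : 0 < c := by linarith
      have hNH0 : 0 < NH := by linarith
      have e1 : c ≤ Real.exp (Real.log c * s) := by
        calc c = Real.exp (Real.log c * 1) := by rw [mul_one, Real.exp_log hc0]
          _ ≤ _ := by
            have := Real.log_nonneg hc1
            gcongr
      have e2 : (Fintype.card B : ℝ) ≤ Real.exp (Fintype.card ι * s) := by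
        have h7 : B.card ≤ T.card := Finset.card_filter_le _ _
        have h8 : (B.card : ℝ) ≤ T.card := by exact_mod_cast h7
        rw [Fintype.card_coe]
        exact h8.trans (card_Tset_le r)
      have e3 : A = Real.exp (Real.log NH * s) := by
        rw [hA, hs, ← Nat.cast_sum, mul_comm, Real.exp_nat_mul, Real.exp_log hNH0]
      calc c * (c * Fintype.card B * A)
          ≤ Real.exp (Real.log c * s) * (Real.exp (Real.log c * s) *
            Real.exp (Fintype.card ι * s) * Real.exp (Real.log NH * s)) := by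
            rw [← e3]
            gcongr
        _ = Real.exp ((2 * Real.log c + Fintype.card ι + Real.log NH) * s) := by
            rw [← Real.exp_add, ← Real.exp_add, ← Real.exp_add]
            congr 1
            ring
        _ ≤ _ := by
            apply Real.exp_le_exp.2
            nlinarith
    · push Not at hd
      rw [hPcoeff0 d hd]
      simp only [map_zero, norm_zero]
      exact (Real.exp_pos _).le

end Pool.Agent.DD7719
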