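import Pool.Agent.DD7719.Family

/-! Facts about the reduced basis at a bad index. -/

namespace Pool.Agent.DD7719.M

open Module Matrix NumberField

variable {K : Type*} [Field K] [NumberField K] {N m : ℕ}

lemma det_of_ne_zero {y : Fin N → Fin N → 𝓞 K} (hli : LinearIndependent K (fun i => toK (y i))) :
    (Matrix.of y).det ≠ 0 := by
  intro h
  have h1 : ((Matrix.of y).map (algebraMap (𝓞 K) K)).det = 0 := by
    rw [← RingHom.mapMatrix_apply, ← RingHom.map_det, h, map_zero]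
  have h2 : LinearIndependent K (fun i => ((Matrix.of y).map (algebraMap (𝓞 K) K)).row i) := hli
  rw [Matrix.linearIndependent_rows_iff_isUnit, Matrix.isUnit_iff_isUnit_det, h1] at h2
  simp at h2

lemma prod_det_le {c : ℝ} {A : (K →+* ℂ) → Matrix (Fin N) (Fin N) ℂ}
    {y : Fin N → Fin N → 𝓞 K} {lam : Fin N → ℝ} (hred : Reduced c A y lam)
    (hli : LinearIndependent K (fun i => toK (y i))) :
    ∏ σ : K →+* ℂ, ‖(A σ).det‖ ≤
      ((N.factorial : ℝ) * c ^ N) ^ (Fintype.card (K →+* ℂ)) *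
        (∏ i, lam i) ^ (Fintype.card (K →+* ℂ)) := by
  have hYdet := det_of_ne_zero hli
  have hN := one_le_prod_embeddings _ hYdet
  have hlamprod : 0 < ∏ i, lam i := Finset.prod_pos fun i _ => hred.pos i
  have h1 : ∀ σ : K →+* ℂ, ‖(A σ).det‖ * ‖σ ((Matrix.of y).det : K)‖ ≤
      ((N.factorial : ℝ) * c ^ N) * ∏ i, lam i := by
    intro σ
    have h2 := norm_det_le (gmat A y lam σ) c (hred.upper σ)
    rw [norm_det_gmat A y lam hred.pos, div_le_iff₀ hlamprod] at h2
    exact h2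
  have h2 : ∏ σ : K →+* ℂ, (‖(A σ).det‖ * ‖σ ((Matrix.of y).det : K)‖) ≤
      ∏ _σ : K →+* ℂ, (((N.factorial : ℝ) * c ^ N) * ∏ i, lam i) :=
    Finset.prod_le_prod (fun σ _ => by positivity) (fun σ _ => h1 σ)
  rw [Finset.prod_mul_distrib, Finset.prod_const, Finset.card_univ, mul_pow] at h2
  refine le_trans ?_ h2
  have h3 : 0 ≤ ∏ σ : K →+* ℂ, ‖(A σ).det‖ := Finset.prod_nonneg fun σ _ => norm_nonneg _
  nlinarith

/-- All the facts needed about the reduced basis at a bad index. -/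
theorem base_facts (φ : K →+* ℂ) (hφ : ComplexEmbedding.conjugate φ ≠ φ)
    (cc lb : Fin (m + 1) → K) (hcc : cc 0 ≠ 0) (hlb : ∀ i, lb i ≠ 0)
    (hmod : ∀ i, ‖φ (lb i)‖ = ‖φ (lb 0)‖) :
    ∃ C : ℝ, 1 ≤ C ∧ ∀ (n : ℕ) (T : ℝ), 1 ≤ T →
      T * ‖φ (∑ k, cc k * (lb k / lb 0) ^ n)‖ ≤ 1 →
      ∃ (y : Fin (m + 1) → Fin (m + 1) → 𝓞 K) (lam : Fin (m + 1) → ℝ), Monotone lam ∧
        LinearIndependent K (fun i => toK (y i)) ∧ Reduced C (An φ cc lb n T) y lam ∧
        lam 0 ≤ C ∧ (∀ i, 1 ≤ C * lam i) ∧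
        (∏ i, lam i) ^ (Fintype.card (K →+* ℂ)) ≤ C * T ^ 2 ∧
        T ^ 2 ≤ C * (∏ i, lam i) ^ (Fintype.card (K →+* ℂ)) ∧
        (∀ (σ : K →+* ℂ) i k, ‖σ (y i k : K)‖ ≤ C * lam i) := by
  classical
  obtain ⟨C0, hC0, hred0⟩ := exists_reduced K (m + 1)
  set D := Fintype.card (K →+* ℂ) with hD
  have hDpos : 0 < D := Fintype.card_pos_iff.mpr ⟨φ⟩
  have hc0 : 0 < ‖φ (cc 0)‖ := norm_pos_iff.mpr ((map_ne_zero φ).mpr hcc)
  set s : ℝ := ∑ i, ‖φ (cc i)‖ with hs
  have hs0 : 0 ≤ s := Finset.sum_nonneg fun i _ => norm_nonneg _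
  set F : ℝ := 1 + (1 + s) / ‖φ (cc 0)‖ with hF
  have hF1 : 1 ≤ F := by
    have : 0 ≤ (1 + s) / ‖φ (cc 0)‖ := by positivity
    linarith
  have hfac : (0 : ℝ) < (m + 1).factorial := by exact_mod_cast (m + 1).factorial_pos
  set G : ℝ := ((m + 1 : ℕ) : ℝ) * ((m + 1).factorial * C0 ^ (m + 1)) * C0 with hG
  have hGpos : 0 < G := by positivity
  -- the constants
  set C1 : ℝ := C0 * G with hC1
  set C2 : ℝ := F * C0 with hC2
  set C3 : ℝ := C0 * ‖φ (cc 0)‖ ^ 2 with hC3
  set C4 : ℝ := (((m + 1).factorial : ℝ) * C0 ^ (m + 1)) ^ D / ‖φ (cc 0)‖ ^ 2 with hC4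
  have hC1p : 0 < C1 := by positivity
  have hC2p : 0 < C2 := by positivity
  have hC3p : 0 < C3 := by positivity
  have hC4p : 0 < C4 := by positivity
  set C : ℝ := C0 + C1 + C2 + C3 + C4 with hC
  refine ⟨C, by linarith, ?_⟩
  intro n T hT hbad
  have hT0 : 0 < T := by linarith
  have hdet : ∀ σ, (An φ cc lb n T σ).det ≠ 0 := by
    intro σ
    by_cases h : σ = φ ∨ σ = ComplexEmbedding.conjugate φ
    · rw [det_An φ cc lb hlb n T σ h]
      apply mul_ne_zero
      · exact_mod_cast hT0.ne'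
      · exact (map_ne_zero σ).mpr hcc
    · rw [det_An' φ cc lb n T σ h]
      exact one_ne_zero
  obtain ⟨y, lam, hmono, hli, hred, hprod⟩ := hred0 (An φ cc lb n T) (An_conj φ cc lb n T) hdet
  rw [prod_norm_det_An φ hφ cc lb hlb n T hT0] at hprod
  have hlampos : ∀ i, 0 < lam i := hred.pos
  have hcoord : ∀ (σ : K →+* ℂ) i k, ‖σ (y i k : K)‖ ≤ C2 * lam i := by
    intro σ i k
    have hφk : ‖φ (y i k : K)‖ ≤ C2 * lam i := by
      have := coord_le_of_An φ cc lb hcc hlb hmod n T hT (toK (y i)) (C0 * lam i)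
        (fun j => gmat_upper hred φ i j) k
      rw [hC2]
      calc ‖φ (y i k : K)‖ ≤ F * (C0 * lam i) := this
        _ = F * C0 * lam i := by ring
    by_cases h1 : σ = φ
    · rw [h1]; exact hφk
    by_cases h2 : σ = ComplexEmbedding.conjugate φ
    · rw [h2, norm_conjugate]; exact hφk
    · have h3 := gmat_upper hred σ i k
      rw [An_of_ne φ cc lb n T σ h1 h2, Matrix.one_mulVec] at h3
      refine h3.trans ?_
      apply mul_le_mul_of_nonneg_right _ (hlampos i).le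
      rw [hC2]
      nlinarith
  refine ⟨y, lam, hmono, hli, ?_, ?_, ?_, ?_, ?_, ?_⟩
  · -- monotonicity of Reduced in the constant
    obtain ⟨hp, hu, hl, Δ, hΔ0, hΔ, hint⟩ := hred
    have hle : C0 ≤ C := by linarith
    refine ⟨hp, fun σ j i => (hu σ j i).trans hle, fun σ => le_trans ?_ (hl σ),
      Δ, hΔ0, hΔ.trans hle, hint⟩
    exact one_div_le_one_div_of_le (by linarith) hle
  · -- the vector (1,…,1)
    obtain ⟨a, ha⟩ := exists_coords hli (fun _ => (1 : 𝓞 K))
    have ha0 : a ≠ 0 := by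
      rintro rfl
      have := congrFun ha 0
      simp [toK] at this
    obtain ⟨l, hal, hl⟩ := exists_top a ha0
    have h1 := one_le_prod_coeff hred _ a ha l hal
    have h2 : ∀ σ : K →+* ℂ, lam l * ‖σ (a l)‖ ≤ G := by
      intro σ
      have hR : ∀ j, ‖(An φ cc lb n T φ).mulVec (fun k => φ (toK (fun _ => (1 : 𝓞 K)) k)) j‖ ≤ 1 := by
        intro j
        by_cases hj : j = 0
        · subst hj
          rw [An_mulVec_zero, norm_mul, Complex.norm_real, Real.norm_of_nonneg hT0.le]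
          simpa [toK] using hbad
        · rw [An_mulVec_succ φ cc lb n T _ j hj]
          simp [toK]
      have hφl : lam l * ‖φ (a l)‖ ≤ G := by
        have := coeff_bound hC0 hred φ _ a ha 1 hR l
        simpa [hG] using this
      by_cases h1 : σ = φ
      · rw [h1]; exact hφl
      by_cases h2 : σ = ComplexEmbedding.conjugate φ
      · rw [h2, norm_conjugate]; exact hφl
      · have := coeff_bound hC0 hred σ (fun _ => (1 : 𝓞 K)) a ha 1 (by
          intro j
          rw [An_of_ne φ cc lb n T σ h1 h2, Matrix.one_mulVec]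
          simp) l
        simpa [hG] using this
    have h3 : ∏ σ : K →+* ℂ, (lam l * ‖σ (a l)‖) ≤ ∏ _σ : K →+* ℂ, G :=
      Finset.prod_le_prod (fun σ _ => mul_nonneg (hlampos l).le (norm_nonneg _)) (fun σ _ => h2 σ)
    rw [Finset.prod_mul_distrib, Finset.prod_const, Finset.prod_const, Finset.card_univ, ← hD] at h3
    have h4 : lam l ^ D ≤ C0 * G ^ D := by
      have h5 : 0 ≤ lam l ^ D := pow_nonneg (hlampos l).le _
      have h6 : 0 ≤ ∏ σ : K →+* ℂ, ‖σ (a l)‖ := Finset.prod_nonneg fun σ _ => norm_nonneg _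
      calc lam l ^ D = lam l ^ D * 1 := (mul_one _).symm
        _ ≤ lam l ^ D * (C0 * ∏ σ : K →+* ℂ, ‖σ (a l)‖) := mul_le_mul_of_nonneg_left h1 h5
        _ = C0 * (lam l ^ D * ∏ σ : K →+* ℂ, ‖σ (a l)‖) := by ring
        _ ≤ C0 * G ^ D := mul_le_mul_of_nonneg_left h3 (by linarith)
    have h5 : C0 * G ^ D ≤ C1 ^ D := by
      rw [hC1, mul_pow C0 G D]
      apply mul_le_mul_of_nonneg_right (le_self_pow₀ hC0 hDpos.ne') (by positivity)
    have h6 := (pow_le_pow_iff_left₀ (hlampos l).le hC1p.le hDpos.ne').mp (h4.trans h5)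
    have h7 : lam 0 ≤ lam l := hmono (Fin.zero_le l)
    linarith
  · -- lower bound
    intro i
    have hyi : y i ≠ 0 := by
      intro h
      apply hli.ne_zero i
      rw [h]
      funext k
      simp [toK]
    obtain ⟨k, hk⟩ := Function.ne_iff.mp hyi
    have h1 := one_le_prod_embeddings (y i k) hk
    have h2 : ∏ σ : K →+* ℂ, ‖σ (y i k : K)‖ ≤ ∏ _σ : K →+* ℂ, (C2 * lam i) :=
      Finset.prod_le_prod (fun σ _ => norm_nonneg _) (fun σ _ => hcoord σ i k)
    rw [Finset.prod_const, Finset.card_univ, ← hD] at h2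
    have h3 : 1 ≤ (C2 * lam i) ^ D := h1.trans h2
    have h4 : 1 ≤ C2 * lam i := by
      by_contra hcon
      push Not at hcon
      have := pow_lt_one₀ (by have := hlampos i; positivity) hcon hDpos.ne'
      linarith
    refine h4.trans ?_
    apply mul_le_mul_of_nonneg_right _ (hlampos i).le
    linarith
  · refine hprod.trans ?_
    have : C0 * (T * ‖φ (cc 0)‖) ^ 2 = C3 * T ^ 2 := by rw [hC3]; ring
    rw [this]
    apply mul_le_mul_of_nonneg_right _ (by positivity)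
    linarith
  · have h1 := prod_det_le hred hli
    rw [prod_norm_det_An φ hφ cc lb hlb n T hT0] at h1
    have h2 : 0 ≤ (∏ i, lam i) ^ D := pow_nonneg (Finset.prod_nonneg fun i _ => (hlampos i).le) _
    have h3 : T ^ 2 ≤ C4 * (∏ i, lam i) ^ D := by
      rw [hC4, div_mul_eq_mul_div, le_div_iff₀ (by positivity), ← mul_pow]
      exact h1
    refine h3.trans ?_
    apply mul_le_mul_of_nonneg_right _ h2
    linarith
  · intro σ i k
    refine (hcoord σ i k).trans ?_
    apply mul_le_mul_of_nonneg_right _ (hlampos i).le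
    linarith

end Pool.Agent.DD7719.M
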