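import Pool.Agent.DD7719.Dirichlet

/-! Building the certificate: integer vectors approximating the line through `θ`. -/

namespace Pool.Agent.DD7719.M

open Submodule

variable {k : ℕ}

/-- an integer vector as a point of euclidean space -/
noncomputable def toE (a : Fin k → ℤ) : EuclideanSpace ℝ (Fin k) := WithLp.toLp 2 (fun t => (a t : ℝ))

/-- a real vector as a point of euclidean space -/
noncomputable def toR (x : Fin k → ℝ) : EuclideanSpace ℝ (Fin k) := WithLp.toLp 2 x

@[simp] lemma toE_apply (a : Fin k → ℤ) (t : Fin k) : toE a t = a t := rfl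
@[simp] lemma toR_apply (x : Fin k → ℝ) (t : Fin k) : toR x t = x t := rfl

lemma inner_sum (x y : EuclideanSpace ℝ (Fin k)) : inner ℝ x y = ∑ t, x t * y t := by
  rw [PiLp.inner_apply]
  apply Finset.sum_congr rfl
  intro t _
  simp [mul_comm]

/-- the span of the vectors of index `< l` -/
noncomputable def spl {i : ℕ} (a : Fin i → Fin k → ℤ) (l : ℕ) : Submodule ℝ (EuclideanSpace ℝ (Fin k)) :=
  span ℝ {x | ∃ j : Fin i, (j : ℕ) < l ∧ x = toE (a j)}

/-- the approximation property of the vector of index `l` -/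
def Approx (Q : ℕ) (θ : Fin k → ℝ) {i : ℕ} (a : Fin i → Fin k → ℤ) (l : Fin i) : Prop :=
  ∃ (τ : ℝ) (θ' small : EuclideanSpace ℝ (Fin k)), 0 ≤ τ ∧ θ' ∈ (spl a l)ᗮ ∧
    toR θ - θ' ∈ spl a l ∧ toE (a l) = τ • θ' + small ∧ (∀ t, |small t| ≤ 1 / Q) ∧
    τ * ‖θ'‖ ≤ (Q : ℝ) ^ k

/-- the invariant -/
structure Good (Q : ℕ) (θ : Fin k → ℝ) {i : ℕ} (a : Fin i → Fin k → ℤ) : Prop where
  li : LinearIndependent ℝ (fun l => toE (a l))
  bd : ∀ l t, |a l t| ≤ (Q : ℤ) ^ k + 1
  rel : ∀ l, ∀ g : Fin k → ℤ, ∑ t, (g t : ℝ) * θ t = 0 → ∑ t, a l t * g t = 0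
  ap : ∀ l, Approx Q θ a l

lemma spl_snoc {i : ℕ} (a : Fin i → Fin k → ℤ) (b : Fin k → ℤ) (l : ℕ) (hl : l ≤ i) :
    spl (Fin.snoc a b : Fin (i + 1) → Fin k → ℤ) l = spl a l := by
  unfold spl
  congr 1
  ext x
  simp only [Set.mem_ofPred_eq]
  constructor
  · rintro ⟨j, hj, rfl⟩
    refine ⟨⟨j, by omega⟩, hj, ?_⟩
    have : j = Fin.castSucc ⟨j, by omega⟩ := rfl
    conv_lhs => rw [this, Fin.snoc_castSucc]
  · rintro ⟨j, hj, rfl⟩
    refine ⟨j.castSucc, hj, ?_⟩
    rw [Fin.snoc_castSucc]

lemma spl_full {i : ℕ} (a : Fin i → Fin k → ℤ) :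
    spl a i = span ℝ (Set.range fun l => toE (a l)) := by
  unfold spl
  congr 1
  ext x
  constructor
  · rintro ⟨j, _, rfl⟩
    exact ⟨j, rfl⟩
  · rintro ⟨j, rfl⟩
    exact ⟨j, j.2, rfl⟩

lemma good_step (R Q : ℕ) (hR : 1 ≤ R) (hQ : 2 * k * R ≤ Q) (hk : 0 < k) (θ : Fin k → ℝ)
    (hrel : ∀ a : Fin k → ℤ, (∀ g : Fin k → ℤ, (∀ i, |g i| ≤ R) → ∑ t, (g t : ℝ) * θ t = 0 →
      ∑ t, a t * g t = 0) → ∀ g : Fin k → ℤ, ∑ t, (g t : ℝ) * θ t = 0 → ∑ t, a t * g t = 0)
    {i : ℕ} (a : Fin i → Fin k → ℤ) (ha : Good Q θ a)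
    (hθ : toR θ ∉ span ℝ (Set.range fun l => toE (a l))) :
    ∃ b : Fin k → ℤ, Good Q θ (Fin.snoc a b : Fin (i + 1) → Fin k → ℤ) := by
  have hkR : (1 : ℝ) ≤ k := by exact_mod_cast hk
  have hRR : (1 : ℝ) ≤ R := by exact_mod_cast hR
  have hQR : 2 * (k : ℝ) * R ≤ Q := by exact_mod_cast hQ
  have hQ0 : (0 : ℝ) < Q := by nlinarith
  have hQ0' : 0 < Q := by exact_mod_cast hQ0
  set U := span ℝ (Set.range fun l => toE (a l)) with hU
  obtain ⟨y, hy, z, hz, hyz⟩ := U.exists_add_mem_mem_orthogonal (toR θ)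
  have hz0 : z ≠ 0 := by
    rintro rfl
    rw [add_zero] at hyz
    exact hθ (hyz ▸ hy)
  have hnz : 0 < ‖z‖ := norm_pos_iff.mpr hz0
  obtain ⟨m, hm0, hmQ, b, hb⟩ := dirichlet_simult (fun t => z t / ‖z‖) Q hQ0'
  have hmR : (0 : ℝ) < m := by exact_mod_cast hm0
  have hm1 : (1 : ℝ) ≤ m := by exact_mod_cast hm0
  have hmQR : (m : ℝ) ≤ (Q : ℝ) ^ k := by exact_mod_cast hmQ
  set small : EuclideanSpace ℝ (Fin k) := toE b - (m / ‖z‖) • z with hsmall
  have hsm : ∀ t, |small t| ≤ 1 / Q := by
    intro t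
    have h1 : small t = -(m * (z t / ‖z‖) - b t) := by
      rw [hsmall]
      simp
      ring
    rw [h1, abs_neg]
    exact hb t
  have hbeq : toE b = (m / ‖z‖) • z + small := by
    rw [hsmall]
    abel
  have hzb : ∀ t, |z t / ‖z‖| ≤ 1 := by
    intro t
    rw [abs_div, abs_norm, div_le_one hnz]
    exact PiLp.norm_apply_le z t
  refine ⟨b, ?_, ?_, ?_, ?_⟩
  · -- linear independence
    have h1 : (fun l => toE ((Fin.snoc a b : Fin (i + 1) → Fin k → ℤ) l)) =
        Fin.snoc (fun l => toE (a l)) (toE b) := by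
      funext l
      refine Fin.lastCases ?_ (fun j => ?_) l
      · rw [Fin.snoc_last, Fin.snoc_last]
      · rw [Fin.snoc_castSucc, Fin.snoc_castSucc]
    rw [h1, linearIndependent_finSnoc]
    refine ⟨ha.li, ?_⟩
    intro hbU
    have h2 : inner ℝ (toE b) z = (0 : ℝ) := Submodule.inner_right_of_mem_orthogonal hbU hz
    rw [hbeq, inner_add_left, real_inner_smul_left, real_inner_self_eq_norm_sq] at h2
    have h3 : (m / ‖z‖) * ‖z‖ ^ 2 = m * ‖z‖ := by
      field_simp
    rw [h3] at h2
    have h4 : |inner ℝ small z| ≤ ‖small‖ * ‖z‖ := abs_real_inner_le_norm _ _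
    have h5 : ‖small‖ ≤ k * (1 / Q) := by
      have h6 : ‖small‖ ^ 2 ≤ (k * (1 / Q)) ^ 2 := by
        rw [EuclideanSpace.norm_sq_eq]
        calc ∑ t, ‖small t‖ ^ 2 ≤ ∑ _t : Fin k, (1 / (Q : ℝ)) ^ 2 := by
              apply Finset.sum_le_sum
              intro t _
              rw [Real.norm_eq_abs]
              exact pow_le_pow_left₀ (abs_nonneg _) (hsm t) 2
          _ = k * (1 / (Q : ℝ)) ^ 2 := by simp
          _ ≤ k ^ 2 * (1 / (Q : ℝ)) ^ 2 := by
              apply mul_le_mul_of_nonneg_right _ (by positivity)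
              nlinarith
          _ = _ := by ring
      exact (pow_le_pow_iff_left₀ (norm_nonneg _) (by positivity) (by norm_num)).mp h6
    have h6 : (k : ℝ) * (1 / Q) ≤ 1 / 2 := by
      rw [mul_one_div, div_le_div_iff₀ hQ0 (by norm_num)]
      nlinarith
    have h7 : -(‖small‖ * ‖z‖) ≤ inner ℝ small z := (abs_le.mp h4).1
    have h8 : ‖small‖ * ‖z‖ ≤ 1 / 2 * ‖z‖ := mul_le_mul_of_nonneg_right (h5.trans h6) hnz.le
    nlinarith
  · intro l t
    refine Fin.lastCases ?_ (fun j => ?_) l
    · rw [Fin.snoc_last]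
      have h1 := hb t
      have h2 : |(b t : ℝ)| ≤ (Q : ℝ) ^ k + 1 := by
        have h3 : |(b t : ℝ)| ≤ |m * (z t / ‖z‖)| + |m * (z t / ‖z‖) - b t| := by
          have := abs_sub_abs_le_abs_sub (b t : ℝ) (m * (z t / ‖z‖))
          rw [abs_sub_comm] at this
          linarith
        have h4 : |m * (z t / ‖z‖)| ≤ (Q : ℝ) ^ k := by
          rw [abs_mul, abs_of_pos hmR]
          calc (m : ℝ) * |z t / ‖z‖| ≤ m * 1 := by
                apply mul_le_mul_of_nonneg_left (hzb t) hmR.le
            _ ≤ _ := by rw [mul_one]; exact hmQR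
        have h5 : 1 / (Q : ℝ) ≤ 1 := by
          rw [div_le_one hQ0]
          nlinarith
        linarith
      exact_mod_cast h2
    · rw [Fin.snoc_castSucc]
      exact ha.bd j t
  · intro l
    refine Fin.lastCases ?_ (fun j => ?_) l
    · rw [Fin.snoc_last]
      apply hrel
      intro g hg hgθ
      -- y is orthogonal to g
      have hy0 : ∑ t, y t * (g t : ℝ) = 0 := by
        have h1 : ∀ x ∈ U, ∑ t, x t * (g t : ℝ) = 0 := by
          intro x hx
          rw [hU] at hx
          induction hx using Submodule.span_induction with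
          | mem x hx =>
            obtain ⟨l, rfl⟩ := hx
            have := ha.rel l g hgθ
            simp only [toE_apply]
            exact_mod_cast this
          | zero => simp
          | add x y _ _ hx hy =>
            simp only [PiLp.add_apply, add_mul, Finset.sum_add_distrib, hx, hy, add_zero]
          | smul c x _ hx =>
            simp only [PiLp.smul_apply, smul_eq_mul, mul_assoc, ← Finset.mul_sum, hx, mul_zero]
        exact h1 y hy
      have hz1 : ∑ t, z t * (g t : ℝ) = 0 := by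
        have h1 : ∀ t, z t = θ t - y t := by
          intro t
          have := congrArg (fun x : EuclideanSpace ℝ (Fin k) => x t) hyz
          simp only [toR_apply, PiLp.add_apply] at this
          linarith
        simp only [h1, sub_mul, Finset.sum_sub_distrib, hy0, sub_zero]
        rw [← hgθ]
        exact Finset.sum_congr rfl fun t _ => mul_comm _ _
      have h1 : ((∑ t, b t * g t : ℤ) : ℝ) = ∑ t, small t * (g t : ℝ) := by
        push_cast
        have h2 : ∀ t, (b t : ℝ) = m / ‖z‖ * z t + small t := by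
          intro t
          have := congrArg (fun x : EuclideanSpace ℝ (Fin k) => x t) hbeq
          simpa using this
        simp only [h2, add_mul, Finset.sum_add_distrib, mul_assoc, ← Finset.mul_sum, hz1, mul_zero,
          zero_add]
      have h2 : |((∑ t, b t * g t : ℤ) : ℝ)| ≤ k * (1 / Q * R) := by
        rw [h1]
        calc |∑ t, small t * (g t : ℝ)| ≤ ∑ t, |small t * (g t : ℝ)| :=
              Finset.abs_sum_le_sum_abs _ _
          _ ≤ ∑ _t : Fin k, 1 / (Q : ℝ) * R := by
              apply Finset.sum_le_sum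
              intro t _
              rw [abs_mul]
              have h3 : |(g t : ℝ)| ≤ R := by exact_mod_cast hg t
              exact mul_le_mul (hsm t) h3 (abs_nonneg _) (by positivity)
          _ = k * (1 / Q * R) := by simp
      have h3 : (k : ℝ) * (1 / Q * R) < 1 := by
        have : (k : ℝ) * (1 / Q * R) = k * R / Q := by ring
        rw [this, div_lt_one hQ0]
        nlinarith
      have h4 : |(∑ t, b t * g t : ℤ)| < 1 := by exact_mod_cast lt_of_le_of_lt h2 h3
      exact Int.abs_lt_one_iff.mp h4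
    · rw [Fin.snoc_castSucc]
      exact ha.rel j
  · intro l
    refine Fin.lastCases ?_ (fun j => ?_) l
    · refine ⟨m / ‖z‖, z, small, by positivity, ?_, ?_, ?_, hsm, ?_⟩
      · rw [Fin.val_last, spl_snoc a b i le_rfl, spl_full]
        exact hz
      · rw [Fin.val_last, spl_snoc a b i le_rfl, spl_full]
        rw [hyz]
        simpa using hy
      · rw [Fin.snoc_last]
        exact hbeq
      · rw [div_mul_cancel₀ _ hnz.ne']
        exact hmQR
    · obtain ⟨τ, θ', sm, h1, h2, h3, h4, h5, h6⟩ := ha.ap j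
      refine ⟨τ, θ', sm, h1, ?_, ?_, ?_, h5, h6⟩
      · rw [Fin.val_castSucc, spl_snoc a b j j.2.le]
        exact h2
      · rw [Fin.val_castSucc, spl_snoc a b j j.2.le]
        exact h3
      · rw [Fin.snoc_castSucc]
        exact h4

/-- the construction stops -/
theorem exists_good (R Q : ℕ) (hR : 1 ≤ R) (hQ : 2 * k * R ≤ Q) (hk : 0 < k) (θ : Fin k → ℝ)
    (hrel : ∀ a : Fin k → ℤ, (∀ g : Fin k → ℤ, (∀ i, |g i| ≤ R) → ∑ t, (g t : ℝ) * θ t = 0 →
      ∑ t, a t * g t = 0) → ∀ g : Fin k → ℤ, ∑ t, (g t : ℝ) * θ t = 0 → ∑ t, a t * g t = 0) :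
    ∃ (s : ℕ) (a : Fin s → Fin k → ℤ), Good Q θ a ∧
      toR θ ∈ span ℝ (Set.range fun l => toE (a l)) := by
  by_contra hcon
  push Not at hcon
  have h1 : ∀ i : ℕ, ∃ a : Fin i → Fin k → ℤ, Good Q θ a := by
    intro i
    induction i with
    | zero =>
      refine ⟨Fin.elim0, ?_, ?_, ?_, ?_⟩
      · exact linearIndependent_empty_type
      · intro l; exact l.elim0
      · intro l; exact l.elim0
      · intro l; exact l.elim0
    | succ i ih =>
      obtain ⟨a, ha⟩ := ih
      obtain ⟨b, hb⟩ := good_step R Q hR hQ hk θ hrel a ha (hcon i a ha)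
      exact ⟨_, hb⟩
  obtain ⟨a, ha⟩ := h1 (k + 1)
  have := ha.li.fintype_card_le_finrank
  simp at this

/-- completing to `k` independent vectors -/
theorem exists_complete {s : ℕ} (B : ℤ) (hB : 1 ≤ B) (a : Fin s → Fin k → ℤ)
    (hli : LinearIndependent ℝ (fun l => toE (a l))) (hbd : ∀ l t, |a l t| ≤ B) :
    ∃ (hs : s ≤ k) (A : Fin k → Fin k → ℤ), LinearIndependent ℝ (fun l => toE (A l)) ∧
      (∀ l t, |A l t| ≤ B) ∧ ∀ l : Fin s, A (Fin.castLE hs l) = a l := by
  have hs : s ≤ k := by
    have := hli.fintype_card_le_finrank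
    simpa using this
  have key : ∀ j : ℕ, s + j ≤ k → ∃ A : Fin (s + j) → Fin k → ℤ,
      LinearIndependent ℝ (fun l => toE (A l)) ∧ (∀ l t, |A l t| ≤ B) ∧
      ∀ l : Fin s, A (Fin.castAdd j l) = a l := by
    intro j
    induction j with
    | zero =>
      intro _
      exact ⟨a, hli, hbd, fun l => rfl⟩
    | succ j ih =>
      intro hj
      obtain ⟨A, hA1, hA2, hA3⟩ := ih (by omega)
      have hne : ∃ t : Fin k, toE (Pi.single t 1) ∉ span ℝ (Set.range fun l => toE (A l)) := by
        by_contra hcon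
        push Not at hcon
        have htop : span ℝ (Set.range fun l => toE (A l)) = ⊤ := by
          rw [eq_top_iff]
          intro x _
          have : x = ∑ t, x t • toE (Pi.single t (1 : ℤ)) := by
            ext t'
            simp only [WithLp.ofLp_sum, WithLp.ofLp_smul, Finset.sum_apply, Pi.smul_apply,
              smul_eq_mul]
            rw [Finset.sum_eq_single t']
            · simp
            · intro t _ ht
              simp [toE, Pi.single_apply, ht.symm]
            · simp
          rw [this]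
          exact Submodule.sum_mem _ fun t _ => Submodule.smul_mem _ _ (hcon t)
        have h2 := finrank_range_le_card (R := ℝ) (fun l => toE (A l))
        rw [Set.finrank, htop, finrank_top] at h2
        simp at h2
        omega
      obtain ⟨t, ht⟩ := hne
      refine ⟨Fin.snoc (α := fun _ => Fin k → ℤ) A (Pi.single t 1), ?_, ?_, ?_⟩
      · have h1 : (fun l : Fin (s + j + 1) =>
            toE ((Fin.snoc (α := fun _ => Fin k → ℤ) A (Pi.single t 1)) l)) =
            Fin.snoc (fun l => toE (A l)) (toE (Pi.single t 1)) := by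
          funext l
          refine Fin.lastCases ?_ (fun j => ?_) l
          · rw [Fin.snoc_last, Fin.snoc_last]
          · rw [Fin.snoc_castSucc, Fin.snoc_castSucc]
        change LinearIndependent ℝ (fun l : Fin (s + j + 1) =>
            toE ((Fin.snoc (α := fun _ => Fin k → ℤ) A (Pi.single t 1)) l))
        rw [h1, linearIndependent_finSnoc]
        exact ⟨hA1, ht⟩
      · intro l
        refine Fin.lastCases (n := s + j) ?_ (fun j' => ?_) l
        · intro t'
          have h0 : (Fin.snoc (α := fun _ => Fin k → ℤ) A (Pi.single t 1) :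
              Fin (s + j + 1) → Fin k → ℤ) (Fin.last (s + j)) = Pi.single t 1 :=
            Fin.snoc_last (α := fun _ => Fin k → ℤ) _ _
          change |(Fin.snoc (α := fun _ => Fin k → ℤ) A (Pi.single t 1) :
              Fin (s + j + 1) → Fin k → ℤ) (Fin.last (s + j)) t'| ≤ B
          rw [h0]
          by_cases h : t' = t
          · subst h
            simpa using hB
          · rw [Pi.single_eq_of_ne h]
            simp
            omega
        · intro t'
          have h0 : (Fin.snoc (α := fun _ => Fin k → ℤ) A (Pi.single t 1) :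
              Fin (s + j + 1) → Fin k → ℤ) (Fin.castSucc j') = A j' :=
            Fin.snoc_castSucc (α := fun _ => Fin k → ℤ) _ _ _
          change |(Fin.snoc (α := fun _ => Fin k → ℤ) A (Pi.single t 1) :
              Fin (s + j + 1) → Fin k → ℤ) (Fin.castSucc j') t'| ≤ B
          rw [h0]
          exact hA2 j' t'
      · intro l
        have : (Fin.castAdd (j + 1) l : Fin (s + (j + 1))) =
            Fin.castSucc (Fin.castAdd j l : Fin (s + j)) := rfl
        rw [this]
        have h2 : (Fin.snoc (α := fun _ => Fin k → ℤ) A (Pi.single t 1) : Fin (s + j + 1) → Fin k → ℤ)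
          (Fin.castSucc (Fin.castAdd j l : Fin (s + j))) = A (Fin.castAdd j l) :=
          Fin.snoc_castSucc (α := fun _ => Fin k → ℤ) _ _ _
        exact h2.trans (hA3 l)
  obtain ⟨j, rfl⟩ := Nat.exists_eq_add_of_le hs
  obtain ⟨A, hA1, hA2, hA3⟩ := key j le_rfl
  exact ⟨hs, A, hA1, hA2, fun l => hA3 l⟩

end Pool.Agent.DD7719.M
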