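import Mathlib

/-! Compound matrices and the Cauchy-Binet formula. -/

namespace Pool.Agent.DD7719.M

open Matrix

/-- The `q`-th compound matrix (matrix of `q × q` minors). -/
def compound {R : Type*} [CommRing R] {d e : ℕ} (q : ℕ) (M : Matrix (Fin d) (Fin e) R) :
    Matrix (Fin q ↪o Fin d) (Fin q ↪o Fin e) R :=
  Matrix.of fun f g => (M.submatrix f g).det

variable {R : Type*} [CommRing R] {d e m q : ℕ}

lemma det_mul_eq_sum_fun (A : Matrix (Fin q) (Fin d) R) (B : Matrix (Fin d) (Fin q) R) :
    (A * B).det = ∑ p : Fin q → Fin d, (∏ i, A i (p i)) * (B.submatrix p id).det := by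
  have h1 : (A * B) = fun i => ∑ k, A i k • B k := by
    funext i j
    simp [Matrix.mul_apply]
  have h2 : (A * B).det = Matrix.detRowAlternating (fun i => ∑ k, A i k • B k) := by
    rw [h1]; rfl
  rw [h2]
  have h3 := (Matrix.detRowAlternating (R := R) (n := Fin q)).toMultilinearMap.map_sum
    (fun (i : Fin q) (k : Fin d) => A i k • B k)
  have h4 : Matrix.detRowAlternating (fun i => ∑ k, A i k • B k) =
      ∑ p : Fin q → Fin d, Matrix.detRowAlternating (fun i => A i (p i) • B (p i)) := h3
  rw [h4]
  apply Finset.sum_congr rfl
  intro p _
  have h5 := (Matrix.detRowAlternating (R := R) (n := Fin q)).toMultilinearMap.map_smul_univ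
    (fun i => A i (p i)) (fun i => B (p i))
  have h6 : Matrix.detRowAlternating (fun i => A i (p i) • B (p i)) =
      (∏ i, A i (p i)) • Matrix.detRowAlternating (fun i => B (p i)) := h5
  rw [h6]
  rfl

lemma exists_orderEmb_perm (p : Fin q → Fin d) (hp : Function.Injective p) :
    ∃ (h : Fin q ↪o Fin d) (τ : Equiv.Perm (Fin q)), ∀ i, p i = h (τ i) := by
  classical
  have hs : (Finset.univ.image p).card = q := by
    rw [Finset.card_image_of_injective _ hp]
    simp
  let h : Fin q ↪o Fin d := (Finset.univ.image p).orderEmbOfFin hs
  have hr : ∀ i, ∃ j, h j = p i := by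
    intro i
    have : p i ∈ Set.range h := by
      rw [Finset.range_orderEmbOfFin]
      simp
    exact this
  choose t ht using hr
  have htinj : Function.Injective t := by
    intro i j hij
    apply hp
    rw [← ht i, ← ht j, hij]
  refine ⟨h, Equiv.ofBijective t (Finite.injective_iff_bijective.mp htinj), fun i => ?_⟩
  exact (ht i).symm

/-- Cauchy-Binet. -/
theorem compound_mul (A : Matrix (Fin d) (Fin e) R) (B : Matrix (Fin e) (Fin m) R) :
    compound q (A * B) = compound q A * compound q B := by
  classical
  ext f g
  rw [Matrix.mul_apply]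
  simp only [compound, Matrix.of_apply]
  have h1 : (A * B).submatrix f g = A.submatrix f id * B.submatrix id g := by
    ext i j
    simp [Matrix.mul_apply]
  rw [h1, det_mul_eq_sum_fun]
  simp only [Matrix.submatrix_submatrix, Matrix.submatrix_apply, id, Function.comp_def]
  have h2 : ∑ ht : (Fin q ↪o Fin e) × Equiv.Perm (Fin q),
      (∏ i, A (f i) (ht.1 (ht.2 i))) * (B.submatrix (fun i => ht.1 (ht.2 i)) g).det =
      ∑ p : Fin q → Fin e, (∏ i, A (f i) (p i)) * (B.submatrix (fun i => p i) fun i => g i).det := by
    apply Fintype.sum_of_injective (fun ht : (Fin q ↪o Fin e) × Equiv.Perm (Fin q) =>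
      fun i => ht.1 (ht.2 i))
    · rintro ⟨h, t⟩ ⟨h', t'⟩ heq
      simp only at heq
      have hrange : Set.range h = Set.range h' := by
        ext x
        constructor
        · rintro ⟨i, rfl⟩
          refine ⟨t' (t.symm i), ?_⟩
          have := congrFun heq (t.symm i)
          simpa using this.symm
        · rintro ⟨i, rfl⟩
          refine ⟨t (t'.symm i), ?_⟩
          have := congrFun heq (t'.symm i)
          simpa using this
      have hh : h = h' := by
        exact OrderEmbedding.range_inj.mp hrange
      subst hh
      simp only [Prod.mk.injEq, true_and]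
      ext i
      have := congrFun heq i
      exact congrArg Fin.val (h.injective this)
    · intro p hp
      have hnot : ¬ Function.Injective p := by
        intro hinj
        obtain ⟨h, t, ht⟩ := exists_orderEmb_perm p hinj
        exact hp ⟨(h, t), funext fun i => (ht i).symm⟩
      rw [Function.Injective] at hnot
      push Not at hnot
      obtain ⟨i, j, hij, hne⟩ := hnot
      have : (B.submatrix (fun i => p i) fun i => g i).det = 0 := by
        apply Matrix.det_zero_of_row_eq hne
        ext k
        simp [hij]
      rw [this, mul_zero]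
    · rintro ⟨h, t⟩
      rfl
  rw [← h2, Fintype.sum_prod_type]
  apply Finset.sum_congr rfl
  intro h _
  rw [Matrix.det_apply', Finset.sum_mul]
  rw [← Equiv.sum_comp (Equiv.inv (Equiv.Perm (Fin q)))]
  apply Finset.sum_congr rfl
  intro t _
  have h3 : ∀ t : Equiv.Perm (Fin q), (B.submatrix (fun i => h (t i)) fun i => g i).det =
      (Equiv.Perm.sign t : ℤ) * (B.submatrix h g).det := by
    intro t
    have : (B.submatrix (fun i => h (t i)) fun i => g i) = (B.submatrix h g).submatrix t id := by
      ext i j; simp
    rw [this, Matrix.det_permute]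
  simp only [Equiv.inv_apply]
  rw [h3, Equiv.Perm.sign_inv]
  have h4 : ∏ i, A (f i) (h (t⁻¹ i)) = ∏ i, (A.submatrix f h) (t i) i := by
    rw [← Equiv.prod_comp t]
    apply Finset.prod_congr rfl
    intro i _
    simp
  rw [h4]
  ring

lemma compound_one (q d : ℕ) : compound q (1 : Matrix (Fin d) (Fin d) R) = 1 := by
  classical
  ext f g
  simp only [compound, Matrix.of_apply]
  by_cases h : f = g
  · subst h
    have : (1 : Matrix (Fin d) (Fin d) R).submatrix f f = 1 := by
      ext i j
      simp [Matrix.one_apply, f.injective.eq_iff]
    rw [this, Matrix.det_one, Matrix.one_apply_eq]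
  · rw [Matrix.one_apply_ne h]
    have : ∃ i, ∀ j, f i ≠ g j := by
      by_contra hcon
      push Not at hcon
      apply h
      apply OrderEmbedding.range_inj.mp
      have hsub : Set.range f ⊆ Set.range g := by
        rintro _ ⟨i, rfl⟩
        obtain ⟨j, hj⟩ := hcon i
        exact ⟨j, hj.symm⟩
      have h1 : (Finset.univ.image f) = (Finset.univ.image g) := by
        apply Finset.eq_of_subset_of_card_le
        · intro x hx
          simp only [Finset.mem_image, Finset.mem_univ, true_and] at hx ⊢
          exact hsub hx
        · rw [Finset.card_image_of_injective _ f.injective,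
            Finset.card_image_of_injective _ g.injective]
      have h2 := congrArg (fun s : Finset (Fin d) => (s : Set (Fin d))) h1
      simpa using h2
    obtain ⟨i, hi⟩ := this
    apply Matrix.det_eq_zero_of_row_eq_zero i
    intro j
    simp [Matrix.one_apply, hi j]

lemma compound_smul (c : R) (A : Matrix (Fin d) (Fin e) R) :
    compound q (c • A) = c ^ q • compound q A := by
  ext f g
  simp only [compound, Matrix.of_apply, Matrix.smul_apply, smul_eq_mul]
  have : (c • A).submatrix f g = c • A.submatrix f g := rfl
  rw [this, Matrix.det_smul, Fintype.card_fin]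

lemma compound_transpose (A : Matrix (Fin d) (Fin e) R) :
    compound q Aᵀ = (compound q A)ᵀ := by
  ext f g
  simp only [compound, Matrix.of_apply, Matrix.transpose_apply]
  rw [← Matrix.det_transpose]
  rfl

lemma compound_map {S : Type*} [CommRing S] (f : R →+* S) (A : Matrix (Fin d) (Fin e) R) :
    compound q (A.map f) = (compound q A).map f := by
  ext a b
  simp only [compound, Matrix.of_apply, Matrix.map_apply]
  rw [RingHom.map_det]
  rfl

lemma compound_diagonal (v : Fin d → R) :
    compound q (Matrix.diagonal v) = Matrix.diagonal (fun f => ∏ i, v (f i)) := by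
  classical
  ext f g
  by_cases h : f = g
  · subst h
    rw [Matrix.diagonal_apply_eq]
    simp only [compound, Matrix.of_apply]
    have : (Matrix.diagonal v).submatrix f f = Matrix.diagonal (fun i => v (f i)) := by
      ext i j
      by_cases hij : i = j
      · subst hij; simp
      · rw [Matrix.submatrix_apply, Matrix.diagonal_apply_ne _ hij,
          Matrix.diagonal_apply_ne _ (fun h => hij (f.injective h))]
    rw [this, Matrix.det_diagonal]
  · rw [Matrix.diagonal_apply_ne _ h]
    have h1 : Matrix.diagonal v = Matrix.diagonal v * (1 : Matrix (Fin d) (Fin d) R) := by simp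
    simp only [compound, Matrix.of_apply]
    have h2 : (Matrix.diagonal v).submatrix f g = Matrix.of fun i j =>
        v (f i) * ((1 : Matrix (Fin d) (Fin d) R).submatrix f g) i j := by
      ext i j
      simp [Matrix.diagonal_apply, Matrix.one_apply]
    rw [h2, Matrix.det_mul_column]
    have h3 := congrFun (congrFun (compound_one (R := R) q d) f) g
    rw [Matrix.one_apply_ne h] at h3
    simp only [compound, Matrix.of_apply] at h3
    rw [h3, mul_zero]

end Pool.Agent.DD7719.M
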