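import Pool.Agent.DD7719.Davenport
import Pool.Agent.DD7719.Compound

/-! Compounds of reduced bases. -/

namespace Pool.Agent.DD7719.M

open Module Matrix NumberField

variable {K : Type*} [Field K] [NumberField K] {d q N : ℕ}

section defs

variable (e₀ e : (Fin q ↪o Fin d) ≃ Fin N)

/-- compound family of forms -/
noncomputable def cA (A : (K →+* ℂ) → Matrix (Fin d) (Fin d) ℂ) (σ : K →+* ℂ) :
    Matrix (Fin N) (Fin N) ℂ := (compound q (A σ)).submatrix e₀.symm e₀.symm

/-- compound family of vectors -/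
noncomputable def cy (y : Fin d → Fin d → 𝓞 K) (i k : Fin N) : 𝓞 K :=
  compound q (Matrix.of y) (e.symm i) (e₀.symm k)

/-- compound minima -/
noncomputable def clam (lam : Fin d → ℝ) (i : Fin N) : ℝ := ∏ l, lam ((e.symm i) l)

lemma gmat_compound (A : (K →+* ℂ) → Matrix (Fin d) (Fin d) ℂ) (y : Fin d → Fin d → 𝓞 K)
    (lam : Fin d → ℝ) (σ : K →+* ℂ) :
    gmat (cA e₀ A) (cy e₀ e y) (clam e lam) σ =
      (compound q (gmat A y lam σ)).submatrix e₀.symm e.symm := by
  ext j i
  rw [gmat_eq A y lam σ, compound_mul, compound_mul, compound_diagonal, Matrix.submatrix_apply,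
    Matrix.mul_diagonal, compound_transpose]
  simp only [gmat, Matrix.of_apply, Matrix.mulVec, dotProduct, cA, cy, clam, Matrix.submatrix_apply]
  rw [div_eq_mul_inv]
  congr 1
  · rw [Matrix.mul_apply, ← Equiv.sum_comp e₀]
    apply Finset.sum_congr rfl
    intro k _
    rw [Equiv.symm_apply_apply, Matrix.transpose_apply]
    congr 1
    have := compound_map (q := q) (σ.comp (algebraMap (𝓞 K) K)) (Matrix.of y)
    have h2 := congrFun (congrFun this (e.symm i)) k
    exact h2.symm
  · rw [Finset.prod_inv_distrib]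
    push_cast
    rfl

lemma cA_conj (A : (K →+* ℂ) → Matrix (Fin d) (Fin d) ℂ)
    (hconj : ∀ σ j i, (starRingEnd ℂ) (A σ j i) = A (ComplexEmbedding.conjugate σ) j i)
    (σ : K →+* ℂ) (j i : Fin N) : (starRingEnd ℂ) (cA e₀ A σ j i) =
      cA e₀ A (ComplexEmbedding.conjugate σ) j i := by
  simp only [cA, Matrix.submatrix_apply, compound, Matrix.of_apply]
  rw [RingHom.map_det]
  congr 1
  ext a b
  exact hconj _ _ _

lemma norm_minor_le {c : ℝ} (M : Matrix (Fin d) (Fin d) ℂ) (h : ∀ i j, ‖M i j‖ ≤ c)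
    (f g : Fin q ↪o Fin d) : ‖compound q M f g‖ ≤ q.factorial * c ^ q := by
  simp only [compound, Matrix.of_apply]
  exact norm_det_le _ c (fun i j => h _ _)

lemma norm_adj_le {n : ℕ} {c : ℝ} (hc : 1 ≤ c) (M : Matrix (Fin n) (Fin n) ℂ)
    (hM : ∀ i j, ‖M i j‖ ≤ c) (i j : Fin n) : ‖M.adjugate i j‖ ≤ n.factorial * c ^ n := by
  rw [Matrix.adjugate_apply]
  apply norm_det_le
  intro a b
  by_cases h : a = j
  · subst h
    rw [Matrix.updateRow_self]
    by_cases h' : b = i
    · subst h'
      simpa using hc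
    · rw [Pi.single_eq_of_ne h']
      simp
      linarith
  · rw [Matrix.updateRow_ne h]
    exact hM _ _

/-- lower bound for the determinant of a compound matrix -/
lemma det_compound_lower (hN : Fintype.card (Fin q ↪o Fin d) = N) {c : ℝ} (hc : 1 ≤ c)
    (M : Matrix (Fin d) (Fin d) ℂ) (hM : ∀ i j, ‖M i j‖ ≤ c) (hdet : 1 / c ≤ ‖M.det‖) :
    (1 / c) ^ (q * N) / (N.factorial * (q.factorial * (d.factorial * c ^ d) ^ q) ^ N) ≤
      ‖(compound q M).det‖ := by
  have h1 : compound q M * compound q M.adjugate = M.det ^ q • (1 : Matrix _ _ ℂ) := by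
    rw [← compound_mul, Matrix.mul_adjugate, compound_smul, compound_one]
  have h2 := congrArg (fun X => ‖X.det‖) h1
  simp only [Matrix.det_mul, Matrix.det_smul, Matrix.det_one, mul_one, norm_mul, norm_pow] at h2
  rw [hN, ← pow_mul] at h2
  have hc0 : 0 < c := by linarith
  have h3 : ‖(compound q M.adjugate).det‖ ≤
      N.factorial * (q.factorial * (d.factorial * c ^ d) ^ q) ^ N := by
    let e : (Fin q ↪o Fin d) ≃ Fin N := Fintype.equivFinOfCardEq hN
    rw [← Matrix.det_submatrix_equiv_self e.symm]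
    apply norm_det_le
    intro i j
    exact norm_minor_le _ (norm_adj_le hc M hM) _ _
  have hfac : (0 : ℝ) < N.factorial := by exact_mod_cast N.factorial_pos
  have hfacq : (0 : ℝ) < q.factorial := by exact_mod_cast q.factorial_pos
  have hfacd : (0 : ℝ) < d.factorial := by exact_mod_cast d.factorial_pos
  rw [div_le_iff₀ (by positivity)]
  calc (1 / c) ^ (q * N) ≤ ‖M.det‖ ^ (q * N) := by gcongr
    _ = ‖(compound q M).det‖ * ‖(compound q M.adjugate).det‖ := h2.symm
    _ ≤ _ := mul_le_mul_of_nonneg_left h3 (norm_nonneg _)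

end defs

/-- Compounds of reduced bases are reduced. -/
theorem compound_reduced (K : Type*) [Field K] [NumberField K] (d q N : ℕ)
    (hN : Fintype.card (Fin q ↪o Fin d) = N) (c : ℝ) (hc : 1 ≤ c) :
    ∃ C : ℝ, 1 ≤ C ∧ ∀ (A : (K →+* ℂ) → Matrix (Fin d) (Fin d) ℂ) (y : Fin d → Fin d → 𝓞 K)
      (lam : Fin d → ℝ) (_ : LinearIndependent K (fun i => toK (y i))) (_ : Reduced c A y lam)
      (e₀ e : (Fin q ↪o Fin d) ≃ Fin N),
      Reduced C (cA e₀ A) (cy e₀ e y) (clam e lam) ∧
      LinearIndependent K (fun i => toK (cy e₀ e y i)) := by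
  have hc0 : 0 < c := by linarith
  have hfac : (0 : ℝ) < N.factorial := by exact_mod_cast N.factorial_pos
  have hfacq : (0 : ℝ) < q.factorial := by exact_mod_cast q.factorial_pos
  have hfacd : (0 : ℝ) < d.factorial := by exact_mod_cast d.factorial_pos
  set X : ℝ := (1 / c) ^ (q * N) /
    (N.factorial * (q.factorial * (d.factorial * c ^ d) ^ q) ^ N) with hX
  have hXpos : 0 < X := by positivity
  refine ⟨1 + q.factorial * c ^ q + 1 / X + c ^ q, ?_, ?_⟩
  · have : 0 ≤ q.factorial * c ^ q + 1 / X + c ^ q := by positivity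
    linarith
  intro A y lam hli hred e₀ e
  obtain ⟨Δ, hΔ0, hΔ, hint⟩ := hred.index
  -- integral left inverse
  have hW : ∃ W : Matrix (Fin d) (Fin d) (𝓞 K), W * Matrix.of y = Δ • (1 : Matrix _ _ (𝓞 K)) := by
    have h1 : ∀ k : Fin d, ∃ w : Fin d → 𝓞 K, ∀ j, ∑ l, w l * y l j = if k = j then Δ else 0 := by
      intro k
      obtain ⟨a, ha⟩ := exists_coords hli (Pi.single k 1)
      let w : Fin d → 𝓞 K := fun l => ⟨(Δ : K) * a l, hint _ a ha l⟩
      have hwl : ∀ l, (algebraMap (𝓞 K) K) (w l) = (Δ : K) * a l := fun l => rfl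
      refine ⟨w, fun j => ?_⟩
      apply NumberField.RingOfIntegers.ext
      have h2 := congrFun ha j
      have h3 : toK (Pi.single k (1 : 𝓞 K)) j = if k = j then (1 : K) else 0 := by
        by_cases hkj : k = j
        · subst hkj
          simp [toK]
        · simp [toK, hkj, Ne.symm hkj]
      rw [h3] at h2
      have h5 : (∑ l, a l * (y l j : K)) = if k = j then (1 : K) else 0 := by
        rw [h2]
        simp [toK]
      show algebraMap (𝓞 K) K (∑ l, w l * y l j) = algebraMap (𝓞 K) K (if k = j then Δ else 0)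
      rw [map_sum]
      simp only [map_mul, hwl]
      have h4 : ∑ l, (Δ : K) * a l * (algebraMap (𝓞 K) K) (y l j) =
          (Δ : K) * ∑ l, a l * (y l j : K) := by
        rw [Finset.mul_sum]
        apply Finset.sum_congr rfl
        intro l _
        ring
      rw [h4, h5]
      split_ifs <;> simp
    choose W hW using h1
    refine ⟨Matrix.of W, ?_⟩
    ext k j
    rw [Matrix.mul_apply]
    simp only [Matrix.of_apply]
    rw [hW k j]
    simp [Matrix.one_apply]
  obtain ⟨W, hW⟩ := hW
  have hWK : (Matrix.of y).map (algebraMap (𝓞 K) K) * W.map (algebraMap (𝓞 K) K) =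
      (Δ : K) • (1 : Matrix _ _ K) := by
    have h1 : W.map (algebraMap (𝓞 K) K) * (Matrix.of y).map (algebraMap (𝓞 K) K) =
        (Δ : K) • (1 : Matrix _ _ K) := by
      rw [← Matrix.map_mul, hW]
      ext i j
      simp [Matrix.one_apply]
      split_ifs <;> simp
    have hΔK : (Δ : K) ≠ 0 := by exact_mod_cast hΔ0
    have h2 : ((Δ : K)⁻¹ • W.map (algebraMap (𝓞 K) K)) * (Matrix.of y).map (algebraMap (𝓞 K) K) = 1 := by
      rw [Matrix.smul_mul, h1, smul_smul, inv_mul_cancel₀ hΔK, one_smul]
    have h3 := mul_eq_one_comm.mp h2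
    rw [Matrix.mul_smul] at h3
    rw [← h3, smul_smul, mul_inv_cancel₀ hΔK, one_smul]
  have hcomp : compound q ((Matrix.of y).map (algebraMap (𝓞 K) K)) *
      compound q (W.map (algebraMap (𝓞 K) K)) = ((Δ : K) ^ q) • (1 : Matrix _ _ K) := by
    rw [← compound_mul, hWK, compound_smul, compound_one]
  have hΔK : (Δ : K) ^ q ≠ 0 := pow_ne_zero _ (by exact_mod_cast hΔ0)
  have hkey : ∀ (a : Fin N → K) (z : Fin N → K), z = ∑ l, a l • toK (cy e₀ e y l) →
      ∀ l, (Δ : K) ^ q * a l = ∑ k, z k * ((compound q W (e₀.symm k) (e.symm l) : 𝓞 K) : K) := by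
    intro a z hz l
    have h1 : ∀ g : Fin q ↪o Fin d, z (e₀ g) = ∑ f, a (e f) *
        compound q ((Matrix.of y).map (algebraMap (𝓞 K) K)) f g := by
      intro g
      rw [hz, Finset.sum_apply, ← Equiv.sum_comp e]
      apply Finset.sum_congr rfl
      intro f _
      simp only [Pi.smul_apply, smul_eq_mul, toK, cy, Equiv.symm_apply_apply]
      rw [compound_map]
      rfl
    have h2 : ∑ k, z k * ((compound q W (e₀.symm k) (e.symm l) : 𝓞 K) : K) =
        ∑ g, (∑ f, a (e f) * compound q ((Matrix.of y).map (algebraMap (𝓞 K) K)) f g) *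
          compound q (W.map (algebraMap (𝓞 K) K)) g (e.symm l) := by
      rw [← Equiv.sum_comp e₀]
      apply Finset.sum_congr rfl
      intro g _
      rw [h1, Equiv.symm_apply_apply, compound_map, compound_map]
      rfl
    rw [h2]
    simp only [Finset.sum_mul]
    rw [Finset.sum_comm]
    have h3 : ∀ f, ∑ g, a (e f) * compound q ((Matrix.of y).map (algebraMap (𝓞 K) K)) f g *
        compound q (W.map (algebraMap (𝓞 K) K)) g (e.symm l) =
        a (e f) * (((Δ : K) ^ q) • (1 : Matrix (Fin q ↪o Fin d) (Fin q ↪o Fin d) K)) f (e.symm l) := by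
      intro f
      rw [← hcomp, Matrix.mul_apply, Finset.mul_sum]
      apply Finset.sum_congr rfl
      intro g _
      ring
    simp only [h3]
    rw [Finset.sum_eq_single (e.symm l)]
    · simp
      ring
    · intro f _ hf
      simp [hf]
    · simp
  have hli2 : LinearIndependent K (fun i => toK (cy e₀ e y i)) := by
    rw [Fintype.linearIndependent_iff]
    intro a ha l
    have h1 := hkey a 0 ha.symm l
    simp only [Pi.zero_apply, zero_mul, Finset.sum_const_zero] at h1
    rcases mul_eq_zero.mp h1 with h | h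
    · exact absurd h hΔK
    · exact h
  refine ⟨⟨fun i => Finset.prod_pos fun l _ => hred.pos _, ?_, ?_, ?_⟩, hli2⟩
  · intro σ j i
    rw [gmat_compound, Matrix.submatrix_apply]
    refine (norm_minor_le _ (hred.upper σ) _ _).trans ?_
    have : 0 ≤ 1 + 1 / X + c ^ q := by positivity
    linarith
  · intro σ
    rw [gmat_compound]
    have h1 : ‖((compound q (gmat A y lam σ)).submatrix e₀.symm e.symm).det‖ =
        ‖(compound q (gmat A y lam σ)).det‖ := by
      have h2 : (compound q (gmat A y lam σ)).submatrix e₀.symm e.symm =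
          ((compound q (gmat A y lam σ)).submatrix e₀.symm e₀.symm).submatrix
            id (e.symm.trans e₀) := by
        ext i j
        simp
      rw [h2, Matrix.det_permute', norm_mul, Matrix.det_submatrix_equiv_self]
      have : ‖((Equiv.Perm.sign (e.symm.trans e₀) : ℤ) : ℂ)‖ = 1 := by
        rcases Int.units_eq_one_or (Equiv.Perm.sign (e.symm.trans e₀)) with h | h <;> simp [h]
      rw [this, one_mul]
    rw [h1]
    have h2 := det_compound_lower hN hc _ (hred.upper σ) (hred.lower σ)
    refine le_trans ?_ h2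
    rw [div_le_iff₀ (by positivity)]
    have h3 : X * (1 / X) = 1 := by field_simp
    have h4 : 0 ≤ X * (1 + q.factorial * c ^ q + c ^ q) := by positivity
    calc (1 : ℝ) = X * (1 / X) := h3.symm
      _ ≤ X * (1 + q.factorial * c ^ q + 1 / X + c ^ q) := by
          apply mul_le_mul_of_nonneg_left _ hXpos.le
          have : 0 ≤ 1 + q.factorial * c ^ q + c ^ q := by positivity
          linarith
  · refine ⟨Δ ^ q, pow_ne_zero _ hΔ0, ?_, ?_⟩
    · have h1 : ∏ σ : K →+* ℂ, ‖σ ((Δ ^ q : 𝓞 K) : K)‖ = (∏ σ : K →+* ℂ, ‖σ (Δ : K)‖) ^ q := by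
        rw [← Finset.prod_pow]
        apply Finset.prod_congr rfl
        intro σ _
        simp
      rw [h1]
      calc (∏ σ : K →+* ℂ, ‖σ (Δ : K)‖) ^ q ≤ c ^ q := by
            gcongr
        _ ≤ _ := by
            have : 0 ≤ 1 + q.factorial * c ^ q + 1 / X := by positivity
            linarith
    · intro z a h l
      have h1 := hkey a (toK z) h l
      have h2 : (((Δ ^ q : 𝓞 K)) : K) = (Δ : K) ^ q := by simp
      rw [h2, h1]
      apply IsIntegral.sum
      intro k _
      exact (RingOfIntegers.isIntegral_coe _).mul (RingOfIntegers.isIntegral_coe _)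

end Pool.Agent.DD7719.M
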