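import Pool.Agent.DD7719.CertBuild
import Pool.Agent.DD7719.Angle
import Pool.Agent.DD7719.CompoundReduced

/-! Building the certificate: the dual matrix and the numbers `w`, `τ`. -/

namespace Pool.Agent.DD7719.M

open Submodule Matrix

variable {k : ℕ}

lemma int_adj_bound (M : ℤ) (hM : 1 ≤ M) (A : Matrix (Fin k) (Fin k) ℤ) (hA : ∀ i j, |A i j| ≤ M)
    (i j : Fin k) : |A.adjugate i j| ≤ k.factorial * M ^ k := by
  have h1 : ((A.map (Int.castRingHom ℂ)).adjugate i j) = ((A.adjugate i j : ℤ) : ℂ) := by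
    have := RingHom.map_adjugate (Int.castRingHom ℂ) A
    rw [RingHom.mapMatrix_apply, RingHom.mapMatrix_apply] at this
    rw [← this]
    rfl
  have h2 := norm_adj_le (c := (M : ℝ)) (by exact_mod_cast hM) (A.map (Int.castRingHom ℂ)) (by
    intro i j
    simp only [Matrix.map_apply, Int.coe_castRingHom]
    rw [← Complex.ofReal_intCast, Complex.norm_real, Real.norm_eq_abs]
    exact_mod_cast hA i j) i j
  rw [h1, ← Complex.ofReal_intCast, Complex.norm_real, Real.norm_eq_abs] at h2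
  exact_mod_cast h2

lemma int_det_bound (M : ℤ) (A : Matrix (Fin k) (Fin k) ℤ) (hA : ∀ i j, |A i j| ≤ M) :
    |A.det| ≤ k.factorial * M ^ k := by
  have h1 : ((A.map (Int.castRingHom ℂ)).det) = ((A.det : ℤ) : ℂ) := by
    have := RingHom.map_det (Int.castRingHom ℂ) A
    rw [RingHom.mapMatrix_apply] at this
    rw [← this]
    rfl
  have h2 := norm_det_le (A.map (Int.castRingHom ℂ)) (M : ℝ) (by
    intro i j
    simp only [Matrix.map_apply, Int.coe_castRingHom]
    rw [← Complex.ofReal_intCast, Complex.norm_real, Real.norm_eq_abs]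
    exact_mod_cast hA i j)
  rw [h1, ← Complex.ofReal_intCast, Complex.norm_real, Real.norm_eq_abs] at h2
  exact_mod_cast h2

theorem exists_rel_cert (R Q MH : ℕ) (hR : 1 ≤ R) (hQ : 2 * k * R ≤ Q) (hk : 0 < k)
    (θ : Fin k → ℝ)
    (hrel : ∀ a : Fin k → ℤ, (∀ g : Fin k → ℤ, (∀ i, |g i| ≤ R) → ∑ t, (g t : ℝ) * θ t = 0 →
      ∑ t, a t * g t = 0) → ∀ g : Fin k → ℤ, ∑ t, (g t : ℝ) * θ t = 0 → ∑ t, a t * g t = 0)
    (δ : ℝ) (hδ0 : 0 ≤ δ) (hθ : ∀ t, |θ t| ≤ 2 * δ) (hMH : k.factorial * (Q ^ k + 1) ^ k ≤ MH)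
    (hδ1 : 2 * k * MH * δ ≤ 1)
    (hδ2 : (k : ℝ) ^ 4 * (Q ^ k + 1) * Q ^ (k + 1) * MH ^ 3 * δ ^ 2 ≤ 1) :
    ∃ (s : ℕ) (A H : Fin k → Fin k → ℤ) (D : ℤ) (w : Fin k → Fin k → ℝ) (τ : Fin k → ℝ),
      s ≤ k ∧ D ≠ 0 ∧ |D| ≤ MH ∧
      (∀ l i, ∑ t, H l t * A i t = if l = i then D else 0) ∧
      (∀ l t, |A l t| ≤ (Q : ℤ) ^ k + 1) ∧ (∀ l t, |H l t| ≤ MH) ∧
      (∀ i : Fin k, (i : ℕ) < s → ∀ l, i ≤ l → ∑ t, (H l t : ℝ) * w i t =
        (if l = i then (D : ℝ) else 0) - τ i * Real.sin (∑ t, (H l t : ℝ) * θ t)) ∧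
      (∀ i : Fin k, (i : ℕ) < s → ∀ t, |w i t| ≤ 2 / Q) ∧
      (∀ l : Fin k, s ≤ (l : ℕ) → ∑ t, (H l t : ℝ) * θ t = 0) ∧
      ∃ x : Fin k → ℝ, (∀ l : Fin k, s ≤ (l : ℕ) → x l = 0) ∧
        ∀ t, θ t = ∑ l, x l * (A l t : ℝ) := by
  classical
  obtain ⟨s, a, hgood, hspan⟩ := exists_good R Q hR hQ hk θ hrel
  have hkR : (1 : ℝ) ≤ k := by exact_mod_cast hk
  have hRR : (1 : ℝ) ≤ R := by exact_mod_cast hR
  have hQR : 2 * (k : ℝ) * R ≤ Q := by exact_mod_cast hQ
  have hQ0 : (0 : ℝ) < Q := by nlinarith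
  have hQ0' : 0 < Q := by exact_mod_cast hQ0
  have hB1 : (1 : ℤ) ≤ (Q : ℤ) ^ k + 1 := by
    have : (0 : ℤ) ≤ (Q : ℤ) ^ k := by positivity
    linarith
  obtain ⟨hs, A, hA1, hA2, hA3⟩ := exists_complete ((Q : ℤ) ^ k + 1) hB1 a hgood.li hgood.bd
  set AM : Matrix (Fin k) (Fin k) ℤ := Matrix.of A with hAM
  set D := AM.det with hD
  set H : Fin k → Fin k → ℤ := fun l t => AM.adjugate t l with hH
  have hD0 : D ≠ 0 := by
    intro h0
    obtain ⟨v, hv, hv0⟩ := Matrix.exists_vecMul_eq_zero_iff.mpr h0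
    rw [Fintype.linearIndependent_iff] at hA1
    apply hv
    funext l
    have h1 := hA1 (fun l => (v l : ℝ)) (by
      ext t
      simp only [WithLp.ofLp_sum, WithLp.ofLp_smul, Finset.sum_apply, Pi.smul_apply, smul_eq_mul]
      have h2 := congrFun hv0 t
      simp only [Matrix.vecMul, dotProduct, hAM, Matrix.of_apply, Pi.zero_apply] at h2
      have h3 : ((∑ l, v l * A l t : ℤ) : ℝ) = 0 := by rw [h2]; simp
      push_cast at h3
      simpa using h3) l
    exact_mod_cast h1
  have hHA : ∀ l i, ∑ t, H l t * A i t = if l = i then D else 0 := by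
    intro l i
    have h1 := congrFun (congrFun (Matrix.mul_adjugate AM) i) l
    rw [Matrix.mul_apply, Matrix.smul_apply, Matrix.one_apply] at h1
    have h2 : ∑ t, H l t * A i t = ∑ t, AM i t * AM.adjugate t l := by
      apply Finset.sum_congr rfl
      intro t _
      rw [hH, hAM]
      simp only [Matrix.of_apply]
      ring
    rw [h2, h1]
    by_cases h : i = l
    · subst h
      simp [hD]
    · rw [if_neg h, if_neg (Ne.symm h)]
      simp
  have hMH' : (k.factorial : ℤ) * ((Q : ℤ) ^ k + 1) ^ k ≤ MH := by exact_mod_cast hMH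
  have hHb : ∀ l t, |H l t| ≤ MH := fun l t =>
    (int_adj_bound _ hB1 AM hA2 t l).trans hMH'
  have hDb : |D| ≤ MH := (int_det_bound _ AM hA2).trans hMH'
  have hMH1 : (1 : ℝ) ≤ MH := by
    have : 1 ≤ |D| := Int.one_le_abs hD0
    exact_mod_cast this.trans hDb
  -- pairing with the forms `h_l`
  let pr : Fin k → EuclideanSpace ℝ (Fin k) → ℝ := fun l x => ∑ t, (H l t : ℝ) * x t
  have pr_add : ∀ l x y, pr l (x + y) = pr l x + pr l y := by
    intro l x y
    simp only [pr, PiLp.add_apply, mul_add, Finset.sum_add_distrib]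
  have pr_sub : ∀ l x y, pr l (x - y) = pr l x - pr l y := by
    intro l x y
    simp only [pr, PiLp.sub_apply, mul_sub, Finset.sum_sub_distrib]
  have pr_smul : ∀ l (c : ℝ) x, pr l (c • x) = c * pr l x := by
    intro l c x
    simp only [pr, PiLp.smul_apply, smul_eq_mul, Finset.mul_sum]
    exact Finset.sum_congr rfl fun t _ => by ring
  have pr_A : ∀ l i, pr l (toE (A i)) = if l = i then (D : ℝ) else 0 := by
    intro l i
    have h1 := hHA l i
    have h2 : ((∑ t, H l t * A i t : ℤ) : ℝ) = ((if l = i then D else 0 : ℤ) : ℝ) := by rw [h1]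
    push_cast at h2
    simpa only [pr, toE_apply] using h2
  have pr_spl : ∀ (l : Fin k) (i : ℕ), i ≤ l → ∀ x ∈ spl a i, pr l x = 0 := by
    intro l i hil x hx
    unfold spl at hx
    induction hx using Submodule.span_induction with
    | mem x hx =>
      obtain ⟨j, hj, rfl⟩ := hx
      rw [← hA3 j, pr_A, if_neg]
      intro h
      have := congrArg Fin.val h
      simp at this
      omega
    | zero => simp [pr]
    | add x y _ _ hx hy => rw [pr_add, hx, hy, add_zero]
    | smul c x _ hx => rw [pr_smul, hx, mul_zero]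
  have hap : ∀ i : Fin k, ∃ (τ : ℝ) (θ' small : EuclideanSpace ℝ (Fin k)), (i : ℕ) < s →
      0 ≤ τ ∧ toR θ - θ' ∈ spl a i ∧ toE (A i) = τ • θ' + small ∧ (∀ t, |small t| ≤ 1 / Q) ∧
      τ * ‖θ'‖ ≤ (Q : ℝ) ^ k := by
    intro i
    by_cases h : (i : ℕ) < s
    · obtain ⟨τ, θ', small, h1, _, h3, h4, h5, h6⟩ := hgood.ap ⟨i, h⟩
      refine ⟨τ, θ', small, fun _ => ⟨h1, h3, ?_, h5, h6⟩⟩
      rw [← h4, ← hA3]
      rfl
    · exact ⟨0, 0, 0, fun h' => absurd h' h⟩
  choose τ θ' small hap using hap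
  set φ : Fin k → ℝ := fun l => ∑ t, (H l t : ℝ) * θ t with hφ
  have hφpr : ∀ l, φ l = pr l (toR θ) := fun l => rfl
  set w : Fin k → Fin k → ℝ := fun i t => small i t + τ i / D * ∑ l, (if i ≤ l then
    (φ l - Real.sin (φ l)) * (A l t : ℝ) else 0) with hw
  have hDR : (D : ℝ) ≠ 0 := by exact_mod_cast hD0
  have hD1 : (1 : ℝ) ≤ |(D : ℝ)| := by exact_mod_cast Int.one_le_abs hD0
  refine ⟨s, A, H, D, w, τ, hs, hD0, hDb, hHA, hA2, hHb, ?_, ?_, ?_, ?_⟩
  · intro i his l hil
    obtain ⟨h1, h2, h3, h4, h5⟩ := hap i his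
    have e1 : ∑ t, (H l t : ℝ) * w i t = pr l (small i) + τ i / D * ∑ l', (if i ≤ l' then
        (φ l' - Real.sin (φ l')) * ∑ t, (H l t : ℝ) * (A l' t : ℝ) else 0) := by
      rw [hw]
      simp only [mul_add, Finset.sum_add_distrib, pr]
      congr 1
      rw [Finset.mul_sum]
      simp only [Finset.mul_sum]
      rw [Finset.sum_comm]
      apply Finset.sum_congr rfl
      intro l' _
      split_ifs
      · rw [Finset.mul_sum]
        apply Finset.sum_congr rfl
        intro t _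
        ring
      · simp
    have e2 : ∀ l', ∑ t, (H l t : ℝ) * (A l' t : ℝ) = if l = l' then (D : ℝ) else 0 := fun l' =>
      pr_A l l'
    have e3 : ∑ l', (if i ≤ l' then
        (φ l' - Real.sin (φ l')) * ∑ t, (H l t : ℝ) * (A l' t : ℝ) else 0) =
        (φ l - Real.sin (φ l)) * D := by
      rw [Finset.sum_eq_single l]
      · rw [if_pos hil, e2, if_pos rfl]
      · intro l' _ hl'
        rw [e2, if_neg (Ne.symm hl')]
        simp
      · simp
    rw [e1, e3]
    have e4 : pr l (small i) = (if l = i then (D : ℝ) else 0) - τ i * φ l := by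
      have h6 : small i = toE (A i) - τ i • θ' i := by rw [h3]; abel
      have h7 : pr l (θ' i) = φ l := by
        have h8 := pr_spl l i hil _ h2
        rw [pr_sub, sub_eq_zero] at h8
        rw [hφpr, h8]
      rw [h6, pr_sub, pr_smul, pr_A, h7]
    rw [e4]
    field_simp
    ring
  · intro i his t
    obtain ⟨h1, h2, h3, h4, h5⟩ := hap i his
    have hterm : ∀ l, |τ i / D * (if i ≤ l then (φ l - Real.sin (φ l)) * (A l t : ℝ) else 0)| ≤
        (k * MH * Q ^ k) * (2 * k * MH * δ) ^ 2 / 4 * (Q ^ k + 1) := by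
      intro l
      by_cases hil : i ≤ l
      · rw [if_pos hil]
        have hφ1 : |φ l| ≤ k * MH * ‖θ' i‖ := by
          have h7 : pr l (θ' i) = φ l := by
            have h8 := pr_spl l i hil _ h2
            rw [pr_sub, sub_eq_zero] at h8
            rw [hφpr, h8]
          rw [← h7]
          simp only [pr]
          calc |∑ t, (H l t : ℝ) * θ' i t| ≤ ∑ t, |(H l t : ℝ) * θ' i t| :=
                Finset.abs_sum_le_sum_abs _ _
            _ ≤ ∑ _t : Fin k, (MH : ℝ) * ‖θ' i‖ := by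
                apply Finset.sum_le_sum
                intro t _
                rw [abs_mul]
                have h9 : |(H l t : ℝ)| ≤ MH := by exact_mod_cast hHb l t
                exact mul_le_mul h9 (PiLp.norm_apply_le (θ' i) t) (abs_nonneg _) (by positivity)
            _ = k * MH * ‖θ' i‖ := by simp; ring
        have hφ2 : |φ l| ≤ 2 * k * MH * δ := by
          simp only [hφ]
          calc |∑ t, (H l t : ℝ) * θ t| ≤ ∑ t, |(H l t : ℝ) * θ t| :=
                Finset.abs_sum_le_sum_abs _ _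
            _ ≤ ∑ _t : Fin k, (MH : ℝ) * (2 * δ) := by
                apply Finset.sum_le_sum
                intro t _
                rw [abs_mul]
                have h9 : |(H l t : ℝ)| ≤ MH := by exact_mod_cast hHb l t
                exact mul_le_mul h9 (hθ t) (abs_nonneg _) (by positivity)
            _ = 2 * k * MH * δ := by simp; ring
        have hφ3 := sin_sub_le (hφ2.trans hδ1)
        have hAb : |(A l t : ℝ)| ≤ (Q : ℝ) ^ k + 1 := by exact_mod_cast hA2 l t
        have h10 : τ i * |Real.sin (φ l) - φ l| ≤ (k * MH * Q ^ k) * (2 * k * MH * δ) ^ 2 / 4 := by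
          calc τ i * |Real.sin (φ l) - φ l| ≤ τ i * (|φ l| ^ 3 / 4) := by gcongr
            _ = τ i * |φ l| * |φ l| ^ 2 / 4 := by ring
            _ ≤ τ i * (k * MH * ‖θ' i‖) * (2 * k * MH * δ) ^ 2 / 4 := by gcongr
            _ = (k * MH * (τ i * ‖θ' i‖)) * (2 * k * MH * δ) ^ 2 / 4 := by ring
            _ ≤ _ := by gcongr
        calc |τ i / D * ((φ l - Real.sin (φ l)) * (A l t : ℝ))| =
              τ i * |Real.sin (φ l) - φ l| / |(D : ℝ)| * |(A l t : ℝ)| := by
              rw [abs_mul, abs_div, abs_mul, abs_of_nonneg h1, abs_sub_comm]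
              ring
          _ ≤ τ i * |Real.sin (φ l) - φ l| / 1 * ((Q : ℝ) ^ k + 1) := by gcongr
          _ ≤ _ := by
              rw [div_one]
              gcongr
      · rw [if_neg hil, mul_zero, abs_zero]
        positivity
    have hsum : |τ i / D * ∑ l, (if i ≤ l then
        (φ l - Real.sin (φ l)) * (A l t : ℝ) else 0)| ≤
        k * ((k * MH * Q ^ k) * (2 * k * MH * δ) ^ 2 / 4 * (Q ^ k + 1)) := by
      rw [Finset.mul_sum]
      refine (Finset.abs_sum_le_sum_abs _ _).trans ?_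
      refine (Finset.sum_le_sum fun l _ => hterm l).trans ?_
      simp
    have hfin : k * ((k * MH * Q ^ k) * (2 * k * MH * δ) ^ 2 / 4 * ((Q : ℝ) ^ k + 1)) ≤ 1 / Q := by
      rw [le_div_iff₀ hQ0]
      refine le_trans (le_of_eq ?_) hδ2
      ring
    calc |w i t| ≤ |small i t| + |τ i / D * ∑ l, (if i ≤ l then
        (φ l - Real.sin (φ l)) * (A l t : ℝ) else 0)| := abs_add_le _ _
      _ ≤ 1 / Q + 1 / Q := add_le_add (h4 t) (hsum.trans hfin)
      _ = 2 / Q := by ring
  · intro l hl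
    have h1 : toR θ ∈ spl a s := by
      rw [spl_full]
      exact hspan
    exact pr_spl l s hl _ h1
  · rw [Submodule.mem_span_range_iff_exists_fun] at hspan
    obtain ⟨c, hc⟩ := hspan
    refine ⟨fun l => if h : (l : ℕ) < s then c ⟨l, h⟩ else 0, ?_, ?_⟩
    · intro l hl
      exact dif_neg (not_lt.mpr hl)
    · intro t
      have h1 := congrArg (fun x : EuclideanSpace ℝ (Fin k) => x t) hc
      simp only [WithLp.ofLp_sum, WithLp.ofLp_smul, Finset.sum_apply, Pi.smul_apply,
        smul_eq_mul, toE_apply, toR_apply] at h1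
      rw [← h1]
      apply Fintype.sum_of_injective (Fin.castLE hs) (Fin.castLE_injective hs)
      · intro l hl
        beta_reduce
        rw [dif_neg, zero_mul]
        intro h
        exact hl ⟨⟨l, h⟩, rfl⟩
      · intro l
        beta_reduce
        rw [dif_pos (by exact l.2), hA3]
        rfl

end Pool.Agent.DD7719.M
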