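import Pool.Agent.DD7719.LowerBound

/-! The lower bound `|∑ c_i λ_i^n| ≥ |λ|^n e^{-εn}` for algebraic numbers in `ℂ`. -/

namespace Pool.Agent.DD7719.M

open Module NumberField Filter Topology

theorem lower_bound_complex {m : ℕ} (c l : Fin (m + 1) → ℂ) (hc : ∀ i, c i ≠ 0)
    (hl : ∀ i, l i ≠ 0) (hac : ∀ i, IsIntegral ℚ (c i)) (hal : ∀ i, IsIntegral ℚ (l i))
    (hmod : ∀ i, ‖l i‖ = ‖l 0‖) (hnt : ∀ i j, i ≠ j → ∀ n : ℕ, 0 < n → l i ^ n ≠ l j ^ n)
    (ε : ℝ) (hε : 0 < ε) :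
    ∀ᶠ n : ℕ in atTop, ‖l 0‖ ^ n * Real.exp (-(ε * n)) < ‖∑ i, c i * l i ^ n‖ := by
  set S : Set ℂ := {Complex.I} ∪ (Set.range c ∪ Set.range l) with hS
  have hint : ∀ x ∈ S, IsIntegral ℚ x := by
    rintro x (rfl | ⟨i, rfl⟩ | ⟨i, rfl⟩)
    · refine ⟨Polynomial.X ^ 2 + 1, by monicity!, by simp⟩
    · exact hac i
    · exact hal i
  have hfinS : Finite S := by
    apply Set.Finite.to_subtype
    exact (Set.finite_singleton _).union ((Set.finite_range _).union (Set.finite_range _))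
  let K := IntermediateField.adjoin ℚ S
  haveI : FiniteDimensional ℚ K := IntermediateField.finiteDimensional_adjoin hint
  haveI : NumberField K := ⟨⟩
  have hmem : ∀ x ∈ S, x ∈ K := fun x hx => IntermediateField.subset_adjoin ℚ S hx
  let φ : K →+* ℂ := algebraMap K ℂ
  let cc : Fin (m + 1) → K := fun i => ⟨c i, hmem _ (Or.inr (Or.inl ⟨i, rfl⟩))⟩
  let lb : Fin (m + 1) → K := fun i => ⟨l i, hmem _ (Or.inr (Or.inr ⟨i, rfl⟩))⟩
  have hφc : ∀ i, φ (cc i) = c i := fun _ => rfl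
  have hφl : ∀ i, φ (lb i) = l i := fun _ => rfl
  have hφ : ComplexEmbedding.conjugate φ ≠ φ := by
    intro h
    have h1 : φ ⟨Complex.I, hmem _ (Or.inl rfl)⟩ = Complex.I := rfl
    have h2 := congrArg (fun f : K →+* ℂ => f ⟨Complex.I, hmem _ (Or.inl rfl)⟩) h
    simp only [ComplexEmbedding.conjugate_coe_eq, h1, Complex.conj_I] at h2
    have h3 := congrArg Complex.im h2
    simp at h3
    norm_num at h3
  have hcc : ∀ i, cc i ≠ 0 := by
    intro i h
    apply hc i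
    rw [← hφc, h, map_zero]
  have hlb : ∀ i, lb i ≠ 0 := by
    intro i h
    apply hl i
    rw [← hφl, h, map_zero]
  have h1 := lower_bound φ hφ cc lb hcc hlb (fun i => by rw [hφl, hφl]; exact hmod i) (by
    intro i j hij n hn h
    apply hnt i j hij n hn
    rw [div_pow, div_eq_one_iff_eq (pow_ne_zero _ (hlb j))] at h
    have := congrArg φ h
    simpa [hφl] using this) ε hε
  filter_upwards [h1] with n hn
  have h2 : ∑ i, c i * l i ^ n = l 0 ^ n * φ (∑ k, cc k * (lb k / lb 0) ^ n) := by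
    rw [map_sum, Finset.mul_sum]
    apply Finset.sum_congr rfl
    intro i _
    rw [map_mul, map_pow, map_div₀, hφc, hφl, hφl, div_pow]
    have := pow_ne_zero n (hl 0)
    field_simp
  rw [h2, norm_mul, norm_pow]
  apply mul_lt_mul_of_pos_left hn
  exact pow_pos (norm_pos_iff.mpr (hl 0)) _

/-- the same for a general finite index type -/
theorem lower_bound_complex' {ι : Type*} [Fintype ι] [Nonempty ι] (c l : ι → ℂ)
    (hc : ∀ i, c i ≠ 0) (hl : ∀ i, l i ≠ 0) (hac : ∀ i, IsIntegral ℚ (c i))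
    (hal : ∀ i, IsIntegral ℚ (l i)) (ρ : ℝ) (hmod : ∀ i, ‖l i‖ = ρ)
    (hnt : ∀ i j, i ≠ j → ∀ n : ℕ, 0 < n → l i ^ n ≠ l j ^ n) (ε : ℝ) (hε : 0 < ε) :
    ∀ᶠ n : ℕ in atTop, ρ ^ n * Real.exp (-(ε * n)) < ‖∑ i, c i * l i ^ n‖ := by
  classical
  obtain ⟨m, hm⟩ : ∃ m, Fintype.card ι = m + 1 :=
    ⟨Fintype.card ι - 1, by have := Fintype.card_pos (α := ι); omega⟩
  let e : ι ≃ Fin (m + 1) := Fintype.equivFinOfCardEq hm
  have h1 := lower_bound_complex (fun i => c (e.symm i)) (fun i => l (e.symm i))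
    (fun i => hc _) (fun i => hl _) (fun i => hac _) (fun i => hal _)
    (fun i => by simp only [hmod]) (fun i j hij => hnt _ _ fun h => hij (e.symm.injective h)) ε hε
  filter_upwards [h1] with n hn
  simp only [hmod] at hn
  rwa [Equiv.sum_comp e.symm (fun i => c i * l i ^ n)] at hn

end Pool.Agent.DD7719.M
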