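import Pool.Agent.DD7719.CertDef
import Pool.Agent.DD7719.CertBuild2
import Pool.Agent.DD7719.LowerBoundC

/-! Completeness of the certificate. -/

namespace Pool.Agent.DD7719.M

open Complex Filter Topology

variable {k : ℕ}

lemma exists_n0 (ν : Fin k → ℂ) (hν : ∀ i, ‖ν i‖ = 1) (e Q' : ℕ) (hQ' : 0 < Q') :
    ∃ t, 0 < t ∧ t ≤ Q' ^ k ∧ ∀ i, ‖ν i ^ (e * t) - 1‖ ≤ 7 / Q' := by
  obtain ⟨m, hm, hmQ, b, hb⟩ := dirichlet_simult
    (fun i => (e : ℝ) * (ν i).arg / (2 * Real.pi)) Q' hQ'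
  refine ⟨m, hm, hmQ, fun i => ?_⟩
  have hpi := Real.pi_pos
  set x : ℝ := 2 * Real.pi * (m * ((e : ℝ) * (ν i).arg / (2 * Real.pi)) - b i) with hx
  have h1 : ν i ^ (e * m) = exp (I * x) := by
    conv_lhs => rw [← exp_arg (hν i), ← exp_nat_mul]
    have h2 : I * (x : ℂ) = ((e * m : ℕ) : ℂ) * ((ν i).arg * I) - b i * (2 * Real.pi * I) := by
      rw [hx]
      push_cast
      have hpiC : (Real.pi : ℂ) ≠ 0 := by exact_mod_cast hpi.ne'
      field_simp
    rw [h2, exp_sub, exp_int_mul, exp_two_pi_mul_I, one_zpow, div_one]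
  rw [h1]
  refine Real.norm_exp_I_mul_ofReal_sub_one_le.trans ?_
  rw [Real.norm_eq_abs, hx, abs_mul, abs_of_pos (by positivity)]
  have h3 := hb i
  have h4 : Real.pi ≤ 3.15 := Real.pi_lt_d2.le
  calc 2 * Real.pi * |m * ((e : ℝ) * (ν i).arg / (2 * Real.pi)) - b i| ≤ 7 * (1 / Q') := by
        apply mul_le_mul (by linarith) h3 (abs_nonneg _) (by norm_num)
    _ = 7 / Q' := by ring

lemma exists_class (v : ℕ → ℝ) (n0 : ℕ) (hn0 : 0 < n0) (h : ∀ N, ∃ n, N ≤ n ∧ v n ≤ 0) :
    ∃ j < n0, ∀ N, ∃ m, N ≤ m ∧ v (j + n0 * m) ≤ 0 := by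
  by_contra hcon
  push Not at hcon
  have h1 : ∀ j : ℕ, ∃ N : ℕ, j < n0 → ∀ m, N ≤ m → 0 < v (j + n0 * m) := by
    intro j
    by_cases hj : j < n0
    · obtain ⟨N, hN⟩ := hcon j hj
      exact ⟨N, fun _ => hN⟩
    · exact ⟨0, fun h' => absurd h' hj⟩
  choose N hN using h1
  obtain ⟨n, hn, hv⟩ := h (n0 * ∑ j ∈ Finset.range n0, N j)
  have hj : n % n0 < n0 := Nat.mod_lt _ hn0
  have h2 : N (n % n0) ≤ ∑ j ∈ Finset.range n0, N j :=
    Finset.single_le_sum (fun _ _ => Nat.zero_le _) (Finset.mem_range.mpr hj)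
  have h3 : ∑ j ∈ Finset.range n0, N j ≤ n / n0 := by
    rw [Nat.le_div_iff_mul_le hn0, mul_comm]
    exact hn
  have h4 := hN (n % n0) hj (n / n0) (h2.trans h3)
  rw [Nat.mod_add_div] at h4
  linarith

/-- sums over classes of equal `X` -/
lemma sum_fiber (I : Finset (Fin k)) (X C : Fin k → ℂ) (m : ℕ) :
    ∑ x ∈ I.image X, (∑ i ∈ I with X i = x, C i) * x ^ m = ∑ i ∈ I, C i * X i ^ m := by
  classical
  rw [← Finset.sum_fiberwise_of_maps_to (t := I.image X) (g := X)
    (fun i hi => Finset.mem_image_of_mem _ hi)]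
  apply Finset.sum_congr rfl
  intro x _
  rw [Finset.sum_mul]
  apply Finset.sum_congr rfl
  intro i hi
  rw [(Finset.mem_filter.mp hi).2]

open scoped Classical in
theorem cert_complete (l c : Fin k → ℂ) (R Q MH Q' e Nb : ℕ) (hk : 0 < k) (hR : 1 ≤ R)
    (hQ : 2 * k * R ≤ Q) (hMH : k.factorial * (Q ^ k + 1) ^ k ≤ MH) (δ : ℝ)
    (hδ0 : 0 ≤ δ) (hδ1 : 2 * k * MH * δ ≤ 1)
    (hδ2 : (k : ℝ) ^ 4 * (Q ^ k + 1) * Q ^ (k + 1) * MH ^ 3 * δ ^ 2 ≤ 1)
    (hδ3 : 2 * (k : ℝ) * R * δ ≤ 1)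
    (hQ' : 0 < Q') (hδQ' : 7 / (Q' : ℝ) ≤ δ) (he : 0 < e) (hNb : e * Q' ^ k ≤ Nb)
    (hrb : RelBound k l R)
    (htor : ∀ i i', l i ≠ 0 → l i' ≠ 0 → (∃ n : ℕ, 0 < n ∧ (l i / l i') ^ n = 1) →
      (l i / l i') ^ e = 1)
    (hac : ∀ i, IsIntegral ℚ (c i)) (hal : ∀ i, IsIntegral ℚ (l i))
    (v : ℕ → ℝ) (hv : ∀ n, ∑ i, c i * l i ^ n = (v n : ℂ)) (hneg : ∀ N, ∃ n, N ≤ n ∧ v n ≤ 0) :
    Cert k l c MH Nb (2 / Q) δ := by
  obtain ⟨t, ht, htQ, htδ⟩ := exists_n0 (fun i => nz (l i)) (fun i => norm_nz _) e Q' hQ'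
  set n0 := e * t with hn0def
  have hn0 : 0 < n0 := by positivity
  have hn0Nb : n0 ≤ Nb := (Nat.mul_le_mul_left e htQ).trans hNb
  set μ : Fin k → ℂ := fun i => nz (l i) ^ n0 with hμ
  have hμn : ∀ i, ‖μ i‖ = 1 := fun i => by rw [hμ]; simp only [norm_pow, norm_nz, one_pow]
  have hμδ : ∀ i, ‖μ i - 1‖ ≤ δ := fun i => (htδ i).trans hδQ'
  set θ : Fin k → ℝ := fun i => (μ i).arg with hθ
  have hθδ : ∀ i, |θ i| ≤ 2 * δ := fun i =>
    (abs_arg_le (hμn i)).trans (by have := hμδ i; linarith)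
  have hprodμ : ∀ g : Fin k → ℤ, ∏ i, μ i ^ g i = exp ((∑ i, (g i : ℝ) * θ i : ℝ) * I) :=
    prod_zpow_eq_exp hμn
  have hprodμ' : ∀ g : Fin k → ℤ, ∏ i, μ i ^ g i = (∏ i, nz (l i) ^ g i) ^ n0 :=
    fun g => prod_pow_zpow (fun i => nz (l i)) g n0
  have hrel : ∀ a : Fin k → ℤ, (∀ g : Fin k → ℤ, (∀ i, |g i| ≤ R) →
      ∑ t, (g t : ℝ) * θ t = 0 → ∑ t, a t * g t = 0) →
      ∀ g : Fin k → ℤ, ∑ t, (g t : ℝ) * θ t = 0 → ∑ t, a t * g t = 0 := by
    intro a ha g hg
    have h1 := hrb a (by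
      intro g hg hrel
      apply ha g hg
      have h2 : (∏ i, μ i ^ g i) ^ 2 = 1 := by
        rw [hprodμ', ← pow_mul, mul_comm, pow_mul, hrel, one_pow]
      rw [hprodμ] at h2
      apply eq_zero_of_exp_sq h2
      calc |∑ i, (g i : ℝ) * θ i| ≤ ∑ i, |(g i : ℝ) * θ i| := Finset.abs_sum_le_sum_abs _ _
        _ ≤ ∑ _i : Fin k, (R : ℝ) * (2 * δ) := by
            apply Finset.sum_le_sum
            intro i _
            rw [abs_mul]
            have h3 : |(g i : ℝ)| ≤ R := by exact_mod_cast hg i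
            exact mul_le_mul h3 (hθδ i) (abs_nonneg _) (by positivity)
        _ = 2 * (k : ℝ) * R * δ := by simp; ring
        _ ≤ 1 := hδ3
        _ < Real.pi := by have := Real.pi_gt_three; linarith)
    have h2 : (∏ i, nz (l i) ^ g i) ^ n0 = 1 := by
      rw [← hprodμ', hprodμ, hg]
      simp
    have h3 := h1 (fun i => n0 * g i) (by
      have h4 : ∏ i, nz (l i) ^ ((n0 : ℤ) * g i) = (∏ i, nz (l i) ^ g i) ^ n0 := by
        rw [← Finset.prod_pow]
        apply Finset.prod_congr rfl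
        intro i _
        rw [mul_comm, zpow_mul, zpow_natCast]
      rw [h4, h2, one_pow])
    have h4 : (n0 : ℤ) * ∑ i, a i * g i = 0 := by
      rw [← h3, Finset.mul_sum]
      exact Finset.sum_congr rfl fun i _ => by ring
    rcases mul_eq_zero.mp h4 with h5 | h5
    · exact absurd h5 (by exact_mod_cast hn0.ne')
    · exact h5
  obtain ⟨s, A, H, D, w, τ, hs, hD, hDM, hHA, hA, hH, hw, hwε, _, x, hx0, hx⟩ :=
    exists_rel_cert R Q MH hR hQ hk θ hrel δ hδ0 hθδ hMH hδ1 hδ2
  have hAM : ∀ l' t, |A l' t| ≤ MH := by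
    intro l' t
    refine (hA l' t).trans ?_
    have h1 : Q ^ k + 1 ≤ MH := by
      refine le_trans ?_ hMH
      calc Q ^ k + 1 = 1 * (Q ^ k + 1) ^ 1 := by ring
        _ ≤ k.factorial * (Q ^ k + 1) ^ k :=
            Nat.mul_le_mul k.factorial_pos (Nat.pow_le_pow_right (by omega) hk)
    exact_mod_cast h1
  obtain ⟨j, hj, hjneg⟩ := exists_class v n0 hn0 hneg
  set X : Fin k → ℂ := fun i => l i ^ n0 with hX
  set C : Fin k → ℂ := fun i => c i * l i ^ j with hC
  have hXeq : ∀ i i', X i = X i' → ‖l i‖ = ‖l i'‖ := by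
    intro i i' h
    have h1 : ‖l i‖ ^ n0 = ‖l i'‖ ^ n0 := by
      rw [← norm_pow, ← norm_pow]
      exact congrArg norm h
    exact (pow_left_inj₀ (norm_nonneg _) (norm_nonneg _) hn0.ne').mp h1
  set G : ℂ → ℂ := fun y => ∑ i with X i = y, C i with hG
  have hfib : ∀ (q : Fin k → Prop), (∀ i i', X i = X i' → q i → q i') → ∀ y ∈
      (Finset.univ.filter q).image X, (∑ i ∈ Finset.univ.filter q with X i = y, C i) = G y := by
    intro q hq y hy
    obtain ⟨i0, hi0, rfl⟩ := Finset.mem_image.mp hy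
    rw [hG]
    apply Finset.sum_congr _ (fun _ _ => rfl)
    ext i
    simp only [Finset.mem_filter, Finset.mem_univ, true_and]
    constructor
    · exact fun h => h.2
    · exact fun h => ⟨hq i0 i h.symm (Finset.mem_filter.mp hi0).2, h⟩
  have hsumq : ∀ (q : Fin k → Prop), (∀ i i', X i = X i' → q i → q i') → ∀ m,
      ∑ i, (if q i then c i * l i ^ (j + n0 * m) else 0) =
        ∑ y ∈ (Finset.univ.filter q).image X, G y * y ^ m := by
    intro q hq m
    have e1 : ∑ y ∈ (Finset.univ.filter q).image X, G y * y ^ m =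
        ∑ y ∈ (Finset.univ.filter q).image X,
          (∑ i ∈ Finset.univ.filter q with X i = y, C i) * y ^ m :=
      Finset.sum_congr rfl (fun y hy => by rw [hfib q hq y hy])
    rw [← Finset.sum_filter, e1, sum_fiber]
    apply Finset.sum_congr rfl
    intro i _
    rw [hC, hX]
    simp only
    rw [pow_add, pow_mul, mul_assoc]
  by_cases hS : ∃ i, l i ≠ 0 ∧ G (X i) ≠ 0
  swap
  · -- everything cancels
    push Not at hS
    refine ⟨n0, j, A, H, D, s, w, τ, fun _ => 1, 0, hn0, hn0Nb, hj, hs, hD, hDM, hHA, hAM, hH, hμδ,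
      ?_, hwε, fun _ => norm_one, le_rfl, ?_, Or.inl rfl⟩
    · intro i hi l' hl'
      rw [hw i hi l' hl']
      have := hprodμ (H l')
      rw [show (∏ t, (nz (l t) ^ n0) ^ H l' t) = ∏ t, μ t ^ H l' t from rfl, this, im_exp]
    · intro m' _
      rw [hsumq (fun i => 0 < ‖l i‖) (fun i i' h h' => by rw [← hXeq i i' h]; exact h')]
      apply Finset.sum_eq_zero
      intro y hy
      obtain ⟨i0, hi0, rfl⟩ := Finset.mem_image.mp hy
      have h1 : 0 < ‖l i0‖ := (Finset.mem_filter.mp hi0).2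
      rw [hS i0 (norm_pos_iff.mp h1), zero_mul]
  -- the level
  obtain ⟨i0, hi0, hmax⟩ : ∃ i0, (l i0 ≠ 0 ∧ G (X i0) ≠ 0) ∧
      ∀ i, (l i ≠ 0 ∧ G (X i) ≠ 0) → ‖l i‖ ≤ ‖l i0‖ := by
    obtain ⟨i1, hi1⟩ := hS
    obtain ⟨i0, hi0, h⟩ := Finset.exists_max_image
      (Finset.univ.filter fun i => l i ≠ 0 ∧ G (X i) ≠ 0) (fun i => ‖l i‖)
      ⟨i1, by simpa using hi1⟩
    refine ⟨i0, (Finset.mem_filter.mp hi0).2, fun i hi => h i ?_⟩
    simpa using hi
  set ρ := ‖l i0‖ with hρ
  have hρpos : 0 < ρ := norm_pos_iff.mpr hi0.1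
  have hvan : ∀ m', ∑ i, (if ρ < ‖l i‖ then c i * l i ^ (j + n0 * m') else 0) = 0 := by
    intro m'
    rw [hsumq (fun i => ρ < ‖l i‖) (fun i i' h h' => by rw [← hXeq i i' h]; exact h')]
    apply Finset.sum_eq_zero
    intro y hy
    obtain ⟨i1, hi1, rfl⟩ := Finset.mem_image.mp hy
    have h1 : ρ < ‖l i1‖ := (Finset.mem_filter.mp hi1).2
    have h2 : G (X i1) = 0 := by
      by_contra h3
      have h4 := hmax i1 ⟨norm_pos_iff.mp (hρpos.trans h1), h3⟩
      linarith
    rw [h2, zero_mul]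
  by_cases hz : ∃ z : Fin k → ℂ, (∀ t, ‖z t‖ = 1) ∧ (∑ i, (if ‖l i‖ = ρ then c i * l i ^ j *
      ∏ t : Fin k, (if (t : ℕ) < s then z t ^ A t i else 1) else 0)).re < 0
  · obtain ⟨z, hz1, hz2⟩ := hz
    refine ⟨n0, j, A, H, D, s, w, τ, z, ρ, hn0, hn0Nb, hj, hs, hD, hDM, hHA, hAM, hH, hμδ,
      ?_, hwε, hz1, hρpos.le, fun m' _ => hvan m', Or.inr hz2⟩
    intro i hi l' hl'
    rw [hw i hi l' hl']
    have := hprodμ (H l')
    rw [show (∏ t, (nz (l t) ^ n0) ^ H l' t) = ∏ t, μ t ^ H l' t from rfl, this, im_exp]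
  · -- then the sequence is positive on the class
    exfalso
    push Not at hz
    -- value on the torus
    have hre : ∀ m : ℕ, 0 ≤ (∑ i, (if ‖l i‖ = ρ then c i * l i ^ j * μ i ^ m else 0)).re := by
      intro m
      have h1 := hz (fun t => exp ((m * x t : ℝ) * I)) (fun t => norm_exp_ofReal_mul_I _)
      have h2 : ∀ i, ∏ t : Fin k, (if (t : ℕ) < s then exp ((m * x t : ℝ) * I) ^ A t i else 1) =
          μ i ^ m := by
        intro i
        have h3 : ∀ t : Fin k, (if (t : ℕ) < s then exp ((m * x t : ℝ) * I) ^ A t i else 1) =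
            exp ((m * (x t * A t i) : ℝ) * I) := by
          intro t
          split_ifs with ht
          · rw [← exp_int_mul]
            congr 1
            push_cast
            ring
          · rw [hx0 t (not_lt.mp ht)]
            simp
        rw [Finset.prod_congr rfl fun t _ => h3 t, ← exp_sum, ← Finset.sum_mul, ← ofReal_sum,
          ← Finset.mul_sum, ← hx i]
        conv_rhs => rw [← exp_arg (hμn i), ← exp_nat_mul]
        congr 1
        push_cast
        ring
      simpa only [h2] using h1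
    -- lower bound for the dominant part
    set 𝒳 : Finset ℂ := ((Finset.univ.filter fun i => ‖l i‖ = ρ).image X).filter
      fun y => G y ≠ 0 with h𝒳
    have hXmem : X i0 ∈ 𝒳 := by
      rw [h𝒳, Finset.mem_filter]
      refine ⟨Finset.mem_image_of_mem _ ?_, hi0.2⟩
      simp [hρ]
    have hmem𝒳 : ∀ y ∈ 𝒳, ∃ i, ‖l i‖ = ρ ∧ X i = y ∧ G y ≠ 0 := by
      intro y hy
      rw [h𝒳, Finset.mem_filter] at hy
      obtain ⟨i, hi, rfl⟩ := Finset.mem_image.mp hy.1
      exact ⟨i, (Finset.mem_filter.mp hi).2, rfl, hy.2⟩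
    have hne : Nonempty 𝒳 := ⟨⟨X i0, hXmem⟩⟩
    -- the decay rate of the rest
    obtain ⟨r, hr0, hr1, hr⟩ : ∃ r : ℝ, 0 < r ∧ r < 1 ∧ ∀ i, ‖l i‖ < ρ → (‖l i‖ / ρ) ^ n0 ≤ r := by
      let g : Fin k → ℝ := fun i => if ‖l i‖ < ρ then (‖l i‖ / ρ) ^ n0 else 0
      haveI : Nonempty (Fin k) := ⟨i0⟩
      obtain ⟨i1, hi1⟩ := Finite.exists_max g
      have hg1 : g i1 < 1 := by
        simp only [g]
        split_ifs with h
        · apply pow_lt_one₀ (by positivity) _ hn0.ne'
          rw [div_lt_one hρpos]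
          exact h
        · exact zero_lt_one
      refine ⟨max (g i1) (1 / 2), by positivity, max_lt hg1 (by norm_num), fun i hi => ?_⟩
      have := hi1 i
      simp only [g, hi, if_true] at this
      exact this.trans (le_max_left _ _)
    have hlogr : Real.log r < 0 := Real.log_neg hr0 hr1
    set ε' : ℝ := -Real.log r / 2 with hε'
    have hε'0 : 0 < ε' := by
      rw [hε']
      linarith
    have hlow := lower_bound_complex' (ι := 𝒳) (fun y => G y) (fun y => (y : ℂ))
      (fun y => (hmem𝒳 y y.2).choose_spec.2.2) (fun y => by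
        obtain ⟨i, h1, h2, _⟩ := hmem𝒳 y y.2
        rw [← h2]
        apply pow_ne_zero
        rw [← norm_pos_iff, h1]
        exact hρpos) (fun y => by
        simp only [hG]
        apply IsIntegral.sum
        intro i _
        exact (hac i).mul ((hal i).pow j)) (fun y => by
        obtain ⟨i, h1, h2, _⟩ := hmem𝒳 y y.2
        rw [← h2]
        exact (hal i).pow n0) (ρ ^ n0) (fun y => by
        obtain ⟨i, h1, h2, _⟩ := hmem𝒳 y y.2
        rw [← h2, hX]
        simp only [norm_pow, h1]) (fun y y' hyy n hn h => by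
        obtain ⟨i, h1, h2, _⟩ := hmem𝒳 y y.2
        obtain ⟨i', h1', h2', _⟩ := hmem𝒳 y' y'.2
        have hli : l i ≠ 0 := by rw [← norm_pos_iff, h1]; exact hρpos
        have hli' : l i' ≠ 0 := by rw [← norm_pos_iff, h1']; exact hρpos
        apply hyy
        apply Subtype.ext
        rw [← h2, ← h2']
        have h3 : (l i / l i') ^ (n0 * n) = 1 := by
          rw [← h2, ← h2'] at h
          rw [div_pow, div_eq_one_iff_eq (pow_ne_zero _ hli'), pow_mul (l i) n0 n,
            pow_mul (l i') n0 n]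
          exact h
        have h4 := htor i i' hli hli' ⟨n0 * n, by positivity, h3⟩
        have h5 : (l i / l i') ^ n0 = 1 := by
          rw [hn0def, pow_mul, h4, one_pow]
        rw [div_pow, div_eq_one_iff_eq (pow_ne_zero _ hli')] at h5
        exact h5) ε' hε'0
    -- the sum over 𝒳
    have hsum𝒳 : ∀ m, ∑ y : 𝒳, G y * (y : ℂ) ^ m =
        ∑ i, (if ‖l i‖ = ρ then c i * l i ^ (j + n0 * m) else 0) := by
      intro m
      rw [hsumq (fun i => ‖l i‖ = ρ) (fun i i' h h' => by rw [← hXeq i i' h]; exact h')]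
      rw [Finset.sum_coe_sort 𝒳 (fun y => G y * y ^ m), h𝒳, Finset.sum_filter]
      apply Finset.sum_congr rfl
      intro y _
      split_ifs with h
      · rfl
      · push Not at h
        rw [h, zero_mul]
    set S : ℝ := ∑ i, ‖c i * l i ^ j‖ with hSdef
    have hS0 : 0 ≤ S := Finset.sum_nonneg fun i _ => norm_nonneg _
    have hdecay : ∀ᶠ m : ℕ in atTop, 2 * S * r ^ m < Real.exp (-(ε' * m)) := by
      have h1 : Tendsto (fun m : ℕ => 2 * S * (r * Real.exp ε') ^ m) atTop (𝓝 0) := by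
        rw [show (0 : ℝ) = 2 * S * 0 by ring]
        apply Tendsto.const_mul
        apply tendsto_pow_atTop_nhds_zero_of_lt_one (by positivity)
        have h2 : r * Real.exp ε' = Real.exp (-ε') := by
          conv_lhs => rw [← Real.exp_log hr0, ← Real.exp_add]
          congr 1
          rw [hε']
          ring
        rw [h2]
        rw [Real.exp_lt_one_iff]
        linarith
      filter_upwards [h1.eventually_lt_const (zero_lt_one)] with m hm
      have h3 : Real.exp (-(ε' * m)) * (Real.exp ε') ^ m = 1 := by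
        rw [← Real.exp_nat_mul, ← Real.exp_add]
        ring_nf
        exact Real.exp_zero
      have h4 : 0 < Real.exp (-(ε' * m)) := Real.exp_pos _
      calc 2 * S * r ^ m = 2 * S * r ^ m * (Real.exp (-(ε' * m)) * (Real.exp ε') ^ m) := by
            rw [h3, mul_one]
        _ = (2 * S * (r * Real.exp ε') ^ m) * Real.exp (-(ε' * m)) := by rw [mul_pow]; ring
        _ < 1 * Real.exp (-(ε' * m)) := mul_lt_mul_of_pos_right hm h4
        _ = Real.exp (-(ε' * m)) := one_mul _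
    have hboth := hlow.and hdecay
    rw [eventually_atTop] at hboth
    obtain ⟨N1, hN1⟩ := hboth
    obtain ⟨m, hm, hvm⟩ := hjneg N1
    obtain ⟨hm1, hm2⟩ := hN1 m hm
    rw [hsum𝒳 m] at hm1
    set F := ∑ i, (if ‖l i‖ = ρ then c i * l i ^ (j + n0 * m) else 0) with hF
    set B := ∑ i, (if ‖l i‖ < ρ then c i * l i ^ (j + n0 * m) else 0) with hB
    have hFB : F + B = (v (j + n0 * m) : ℂ) := by
      have h2 : F + B + ∑ i, (if ρ < ‖l i‖ then c i * l i ^ (j + n0 * m) else 0) =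
          ∑ i, c i * l i ^ (j + n0 * m) := by
        rw [hF, hB, ← Finset.sum_add_distrib, ← Finset.sum_add_distrib]
        apply Finset.sum_congr rfl
        intro i _
        rcases lt_trichotomy (‖l i‖) ρ with h | h | h
        · rw [if_neg h.ne, if_pos h, if_neg (not_lt.mpr h.le)]
          ring
        · rw [if_pos h, if_neg (not_lt.mpr h.ge), if_neg (not_lt.mpr h.le)]
          ring
        · rw [if_neg h.ne', if_neg (not_lt.mpr h.le), if_pos h]
          ring
      rw [hvan m, add_zero] at h2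
      rw [h2, hv]
    have hBn : ‖B‖ ≤ S * ((ρ ^ n0) ^ m * r ^ m) := by
      rw [hB, hSdef, Finset.sum_mul]
      refine (norm_sum_le _ _).trans ?_
      apply Finset.sum_le_sum
      intro i _
      split_ifs with h
      · rw [pow_add, pow_mul, ← mul_assoc, norm_mul, norm_pow, norm_pow]
        apply mul_le_mul_of_nonneg_left _ (norm_nonneg _)
        rw [← mul_pow]
        apply pow_le_pow_left₀ (by positivity)
        have h1 := hr i h
        rw [div_pow, div_le_iff₀ (by positivity)] at h1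
        linarith
      · rw [norm_zero]
        positivity
    have hFre : 0 ≤ F.re := by
      have h1 : F = ((ρ ^ (n0 * m) : ℝ) : ℂ) *
          ∑ i, (if ‖l i‖ = ρ then c i * l i ^ j * μ i ^ m else 0) := by
        rw [hF, Finset.mul_sum]
        apply Finset.sum_congr rfl
        intro i _
        split_ifs with h
        · have h2 := nz_mul_norm (l i)
          rw [h] at h2
          calc c i * l i ^ (j + n0 * m) = c i * l i ^ j * l i ^ (n0 * m) := by rw [pow_add]; ring
            _ = c i * l i ^ j * ((ρ : ℂ) * nz (l i)) ^ (n0 * m) := by rw [h2]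
            _ = _ := by
                rw [mul_pow, hμ]
                push_cast
                ring
        · rw [mul_zero]
      rw [h1, re_ofReal_mul]
      exact mul_nonneg (by positivity) (hre m)
    have hFim : |F.im| ≤ ‖B‖ := by
      have h1 := congrArg Complex.im hFB
      rw [add_im, ofReal_im] at h1
      have h2 : F.im = -B.im := by linarith
      rw [h2, abs_neg]
      exact abs_im_le_norm B
    have hFn : ‖F‖ ≤ F.re + ‖B‖ := by
      refine (norm_le_abs_re_add_abs_im F).trans ?_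
      rw [abs_of_nonneg hFre]
      linarith
    have hvre : v (j + n0 * m) = F.re + B.re := by
      have h1 := congrArg Complex.re hFB
      rw [add_re, ofReal_re] at h1
      exact h1.symm
    have hBre : -‖B‖ ≤ B.re := (abs_le.mp (abs_re_le_norm B)).1
    have h1 : 0 < (ρ ^ n0) ^ m := by positivity
    have h2 : 2 * (S * ((ρ ^ n0) ^ m * r ^ m)) < (ρ ^ n0) ^ m * Real.exp (-(ε' * m)) := by
      calc 2 * (S * ((ρ ^ n0) ^ m * r ^ m)) = (ρ ^ n0) ^ m * (2 * S * r ^ m) := by ring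
        _ < _ := mul_lt_mul_of_pos_left hm2 h1
    linarith

end Pool.Agent.DD7719.M
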