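import Pool.Agent.DD7719.Angle

/-! Soundness of the certificate for the identity component of the torus closure. -/

namespace Pool.Agent.DD7719.M

open Complex Matrix

variable {k : ℕ}

lemma dual_identity (A H : Fin k → Fin k → ℤ) (D : ℤ) (hD : D ≠ 0)
    (hHA : ∀ l i, ∑ t, H l t * A i t = if l = i then D else 0) (g : Fin k → ℤ) (x : Fin k → ℝ) :
    (D : ℝ) * ∑ t, (g t : ℝ) * x t = ∑ l, ((∑ t, A l t * g t : ℤ) : ℝ) * ∑ t, (H l t : ℝ) * x t := by
  have hDR : (D : ℝ) ≠ 0 := by exact_mod_cast hD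
  set HR : Matrix (Fin k) (Fin k) ℝ := Matrix.of fun l t => (H l t : ℝ) with hHR
  set AR : Matrix (Fin k) (Fin k) ℝ := Matrix.of fun l t => (A l t : ℝ) with hAR
  have h1 : HR * ARᵀ = (D : ℝ) • (1 : Matrix _ _ ℝ) := by
    ext l i
    rw [Matrix.mul_apply, Matrix.smul_apply, Matrix.one_apply]
    have := hHA l i
    simp only [hHR, hAR, Matrix.transpose_apply, Matrix.of_apply]
    have h2 : ((∑ t, H l t * A i t : ℤ) : ℝ) = ((if l = i then D else 0 : ℤ) : ℝ) := by rw [this]
    push_cast at h2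
    rw [h2]
    split_ifs <;> simp
  have h2 : ARᵀ * HR = (D : ℝ) • (1 : Matrix _ _ ℝ) := by
    have h3 : ((D : ℝ)⁻¹ • HR) * ARᵀ = 1 := by
      rw [Matrix.smul_mul, h1, smul_smul, inv_mul_cancel₀ hDR, one_smul]
    have h4 := mul_eq_one_comm.mp h3
    rw [Matrix.mul_smul] at h4
    rw [← h4, smul_smul, mul_inv_cancel₀ hDR, one_smul]
  have h3 : ∀ t' t, ∑ l, (A l t' : ℝ) * (H l t : ℝ) = if t' = t then (D : ℝ) else 0 := by
    intro t' t
    have := congrFun (congrFun h2 t') t
    rw [Matrix.mul_apply, Matrix.smul_apply, Matrix.one_apply] at this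
    simp only [hHR, hAR, Matrix.transpose_apply, Matrix.of_apply] at this
    rw [this]
    split_ifs <;> simp
  calc (D : ℝ) * ∑ t, (g t : ℝ) * x t
      = ∑ t, ∑ t', (g t' : ℝ) * (if t' = t then (D : ℝ) else 0) * x t := by
        rw [Finset.mul_sum]
        apply Finset.sum_congr rfl
        intro t _
        rw [Finset.sum_eq_single t]
        · simp
          ring
        · intro t' _ h
          simp [h]
        · simp
    _ = ∑ t, ∑ t', (g t' : ℝ) * (∑ l, (A l t' : ℝ) * (H l t : ℝ)) * x t := by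
        simp only [h3]
    _ = ∑ t, ∑ t', ∑ l, (g t' : ℝ) * ((A l t' : ℝ) * (H l t : ℝ)) * x t := by
        simp only [Finset.mul_sum, Finset.sum_mul]
    _ = ∑ l, ∑ t, ∑ t', (g t' : ℝ) * ((A l t' : ℝ) * (H l t : ℝ)) * x t := by
        rw [Finset.sum_comm' (s := Finset.univ) (t := fun _ => Finset.univ)
          (t' := Finset.univ) (s' := fun _ => Finset.univ) (by simp)]
        conv_lhs =>
          enter [2, y]
          rw [Finset.sum_comm]
        rw [Finset.sum_comm]
        conv_lhs =>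
          enter [2, y]
          rw [Finset.sum_comm]
    _ = _ := by
        apply Finset.sum_congr rfl
        intro l _
        push_cast
        rw [Finset.mul_sum]
        apply Finset.sum_congr rfl
        intro t _
        rw [Finset.sum_mul]
        apply Finset.sum_congr rfl
        intro t' _
        ring

theorem cert_rel (R M : ℕ) (hR : 1 ≤ R) (hM : 1 ≤ M) (μ : Fin k → ℂ) (hμ : ∀ i, ‖μ i‖ = 1)
    (A H : Fin k → Fin k → ℤ) (D : ℤ) (hD : D ≠ 0)
    (hHA : ∀ l i, ∑ t, H l t * A i t = if l = i then D else 0)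
    (hA : ∀ l t, |A l t| ≤ M) (hH : ∀ l t, |H l t| ≤ M)
    (w : Fin k → Fin k → ℝ) (τ : Fin k → ℝ) (ε δ : ℝ) (s : ℕ)
    (hw : ∀ i : Fin k, (i : ℕ) < s → ∀ l, i ≤ l → ∑ t, (H l t : ℝ) * w i t =
      (if l = i then (D : ℝ) else 0) - τ i * (∏ t, μ t ^ H l t).im)
    (hwε : ∀ i : Fin k, (i : ℕ) < s → ∀ t, |w i t| ≤ ε) (hμδ : ∀ i, ‖μ i - 1‖ ≤ δ)
    (hε : 4 * k * R * ε ≤ 1) (hδ : 8 * k ^ 3 * M ^ 2 * R * δ ≤ 1) :
    ∀ g : Fin k → ℤ, (∀ i, |g i| ≤ R) → (∏ t, μ t ^ g t) ^ 2 = 1 →
      ∀ i : Fin k, (i : ℕ) < s → ∑ t, A i t * g t = 0 := by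
  intro g hg hrel
  rcases Nat.eq_zero_or_pos k with hk | hk
  · subst hk
    intro i
    exact i.elim0
  have hkR : (1 : ℝ) ≤ k := by exact_mod_cast hk
  have hRR : (1 : ℝ) ≤ R := by exact_mod_cast hR
  have hMR : (1 : ℝ) ≤ M := by exact_mod_cast hM
  have hδ0 : 0 ≤ δ := (norm_nonneg _).trans (hμδ ⟨0, hk⟩)
  set θ : Fin k → ℝ := fun t => (μ t).arg with hθ
  have hθδ : ∀ t, |θ t| ≤ 2 * δ := fun t =>
    (abs_arg_le (hμ t)).trans (by have := hμδ t; linarith)
  -- linear combinations of θ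
  have hlin : ∀ (h : Fin k → ℤ) (B : ℝ), 0 ≤ B → (∀ t, |(h t : ℝ)| ≤ B) →
      |∑ t, (h t : ℝ) * θ t| ≤ k * (B * (2 * δ)) := by
    intro h B hB0 hB
    calc |∑ t, (h t : ℝ) * θ t| ≤ ∑ t, |(h t : ℝ) * θ t| := Finset.abs_sum_le_sum_abs _ _
      _ ≤ ∑ _t : Fin k, B * (2 * δ) := by
          apply Finset.sum_le_sum
          intro t _
          rw [abs_mul]
          exact mul_le_mul (hB t) (hθδ t) (abs_nonneg _) hB0
      _ = k * (B * (2 * δ)) := by simp
  have hk3 : (k : ℝ) ≤ k ^ 3 := by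
    calc (k : ℝ) = k * (1 * 1) := by ring
      _ ≤ k * (k * k) := by gcongr
      _ = k ^ 3 := by ring
  have hMM : (M : ℝ) ≤ M ^ 2 := le_self_pow₀ hMR (by norm_num)
  have hbig : 8 * (k * M * R * δ) ≤ 1 := by
    refine le_trans ?_ hδ
    have : (k : ℝ) * M * R * δ ≤ k ^ 3 * M ^ 2 * R * δ := by gcongr
    linarith
  have hgθ : ∑ t, (g t : ℝ) * θ t = 0 := by
    rw [prod_zpow_eq_exp hμ] at hrel
    apply eq_zero_of_exp_sq hrel
    have h1 := hlin g R (by positivity) (fun t => by exact_mod_cast hg t)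
    have h2 : (k : ℝ) * (R * (2 * δ)) ≤ 1 := by
      have : (k : ℝ) * R * δ ≤ k * M * R * δ := by
        have h3 : (k : ℝ) * R ≤ k * M * R := by
          calc (k : ℝ) * R = k * 1 * R := by ring
            _ ≤ k * M * R := by gcongr
        exact mul_le_mul_of_nonneg_right h3 hδ0
      have h4 : (k : ℝ) * (R * (2 * δ)) = 2 * (k * R * δ) := by ring
      have h5 : 0 ≤ (k : ℝ) * M * R * δ := by positivity
      linarith
    have := Real.pi_gt_three
    linarith
  set φ : Fin k → ℝ := fun l => ∑ t, (H l t : ℝ) * θ t with hφ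
  have hφb : ∀ l, |φ l| ≤ 2 * k * M * δ := by
    intro l
    have := hlin (H l) M (by positivity) (fun t => by exact_mod_cast hH l t)
    simp only [hφ]
    linarith
  have hφ1 : ∀ l, |φ l| ≤ 1 := by
    intro l
    refine (hφb l).trans ?_
    have : (k : ℝ) * M * δ ≤ k * M * R * δ := by
      have h3 : (k : ℝ) * M ≤ k * M * R := le_mul_of_one_le_right (by positivity) hRR
      exact mul_le_mul_of_nonneg_right h3 hδ0
    linarith
  have him : ∀ l, (∏ t, μ t ^ H l t).im = Real.sin (φ l) := by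
    intro l
    rw [prod_zpow_eq_exp hμ, im_exp]
  set a : Fin k → ℤ := fun i => ∑ t, A i t * g t with ha
  have hab : ∀ l, |(a l : ℝ)| ≤ k * M * R := by
    intro l
    simp only [ha]
    push_cast
    calc |∑ t, (A l t : ℝ) * g t| ≤ ∑ t, |(A l t : ℝ) * g t| := Finset.abs_sum_le_sum_abs _ _
      _ ≤ ∑ _t : Fin k, (M : ℝ) * R := by
          apply Finset.sum_le_sum
          intro t _
          rw [abs_mul]
          have h1 : |(A l t : ℝ)| ≤ M := by exact_mod_cast hA l t
          have h2 : |(g t : ℝ)| ≤ R := by exact_mod_cast hg t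
          exact mul_le_mul h1 h2 (abs_nonneg _) (by positivity)
      _ = k * M * R := by simp; ring
  have hDR : (D : ℝ) ≠ 0 := by exact_mod_cast hD
  have hD1 : (1 : ℝ) ≤ |(D : ℝ)| := by exact_mod_cast Int.one_le_abs hD
  have hθ0 : ∑ l, (a l : ℝ) * φ l = 0 := by
    have := dual_identity A H D hD hHA g θ
    rw [hgθ, mul_zero] at this
    exact this.symm
  have main : ∀ (n : ℕ) (i : Fin k), (i : ℕ) = n → (i : ℕ) < s → a i = 0 := by
    intro n
    induction n using Nat.strong_induction_on with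
    | _ n ih =>
    intro i hin his
    have hlt : ∀ l : Fin k, l < i → a l = 0 := by
      intro l hl
      have : (l : ℕ) < i := hl
      exact ih l (by omega) l rfl (by omega)
    have h1 := dual_identity A H D hD hHA g (w i)
    have h2 : ∑ l, ((∑ t, A l t * g t : ℤ) : ℝ) * ∑ t, (H l t : ℝ) * w i t =
        ∑ l, (a l : ℝ) * ((if l = i then (D : ℝ) else 0) - τ i * Real.sin (φ l)) := by
      apply Finset.sum_congr rfl
      intro l _
      by_cases hl : l < i
      · have h3 : (∑ t, A l t * g t) = 0 := hlt l hl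
        rw [h3, hlt l hl]
        simp
      · rw [hw i his l (not_lt.mp hl), him]
    rw [h2] at h1
    have h3 : ∑ l, (a l : ℝ) * ((if l = i then (D : ℝ) else 0) - τ i * Real.sin (φ l)) =
        D * a i - τ i * ∑ l, (a l : ℝ) * (Real.sin (φ l) - φ l) := by
      have e1 : ∑ l, (a l : ℝ) * (if l = i then (D : ℝ) else 0) = D * a i := by
        rw [Finset.sum_eq_single i]
        · simp
          ring
        · intro l _ hl
          simp [hl]
        · simp
      have e2 : ∑ l, (a l : ℝ) * (Real.sin (φ l) - φ l) = ∑ l, (a l : ℝ) * Real.sin (φ l) := by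
        simp only [mul_sub, Finset.sum_sub_distrib, hθ0, sub_zero]
      rw [e2, ← e1, Finset.mul_sum, ← Finset.sum_sub_distrib]
      apply Finset.sum_congr rfl
      intro l _
      ring
    rw [h3] at h1
    have hwb : ∀ l, i ≤ l → |τ i * Real.sin (φ l)| ≤ |(D : ℝ)| + k * (M * ε) := by
      intro l hl
      have h4 := hw i his l hl
      rw [him] at h4
      have h5 : τ i * Real.sin (φ l) = (if l = i then (D : ℝ) else 0) - ∑ t, (H l t : ℝ) * w i t := by
        linarith
      rw [h5]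
      refine (abs_sub _ _).trans ?_
      apply add_le_add
      · split_ifs
        · exact le_rfl
        · simp
      · calc |∑ t, (H l t : ℝ) * w i t| ≤ ∑ t, |(H l t : ℝ) * w i t| :=
              Finset.abs_sum_le_sum_abs _ _
          _ ≤ ∑ _t : Fin k, (M : ℝ) * ε := by
              apply Finset.sum_le_sum
              intro t _
              rw [abs_mul]
              have h1 : |(H l t : ℝ)| ≤ M := by exact_mod_cast hH l t
              exact mul_le_mul h1 (hwε i his t) (abs_nonneg _) (by positivity)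
          _ = k * (M * ε) := by simp
    have hε0 : 0 ≤ ε := (abs_nonneg _).trans (hwε i his ⟨0, hk⟩)
    have hterm : ∀ l, |τ i * ((a l : ℝ) * (Real.sin (φ l) - φ l))| ≤
        (k * M * R) * ((|(D : ℝ)| + k * (M * ε)) / 2 * (2 * k * M * δ) ^ 2) := by
      intro l
      by_cases hl : l < i
      · rw [hlt l hl]
        simp
        positivity
      · have h4 := hwb l (not_lt.mp hl)
        have h5 := sin_sub_le (hφ1 l)
        have h6 := abs_le_two_sin (hφ1 l)
        have h7 : |τ i| * |Real.sin (φ l) - φ l| ≤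
            (|(D : ℝ)| + k * (M * ε)) / 2 * (2 * k * M * δ) ^ 2 := by
          calc |τ i| * |Real.sin (φ l) - φ l| ≤ |τ i| * (|φ l| ^ 3 / 4) := by gcongr
            _ = |τ i| * |φ l| / 4 * |φ l| ^ 2 := by ring
            _ ≤ |τ i| * (2 * |Real.sin (φ l)|) / 4 * |φ l| ^ 2 := by gcongr
            _ = |τ i * Real.sin (φ l)| / 2 * |φ l| ^ 2 := by rw [abs_mul]; ring
            _ ≤ (|(D : ℝ)| + k * (M * ε)) / 2 * (2 * k * M * δ) ^ 2 := by
                have := hφb l
                gcongr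
        calc |τ i * ((a l : ℝ) * (Real.sin (φ l) - φ l))| =
              |(a l : ℝ)| * (|τ i| * |Real.sin (φ l) - φ l|) := by
              rw [abs_mul, abs_mul]; ring
          _ ≤ _ := by
              apply mul_le_mul (hab l) h7 (by positivity) (by positivity)
    have hsum : |τ i * ∑ l, (a l : ℝ) * (Real.sin (φ l) - φ l)| ≤
        k * ((k * M * R) * ((|(D : ℝ)| + k * (M * ε)) / 2 * (2 * k * M * δ) ^ 2)) := by
      rw [Finset.mul_sum]
      refine (Finset.abs_sum_le_sum_abs _ _).trans ?_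
      refine (Finset.sum_le_sum fun l _ => hterm l).trans ?_
      simp
    have hgw : |∑ t, (g t : ℝ) * w i t| ≤ k * (R * ε) := by
      calc |∑ t, (g t : ℝ) * w i t| ≤ ∑ t, |(g t : ℝ) * w i t| := Finset.abs_sum_le_sum_abs _ _
        _ ≤ ∑ _t : Fin k, (R : ℝ) * ε := by
            apply Finset.sum_le_sum
            intro t _
            rw [abs_mul]
            have h2 : |(g t : ℝ)| ≤ R := by exact_mod_cast hg t
            exact mul_le_mul h2 (hwε i his t) (abs_nonneg _) (by positivity)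
        _ = k * (R * ε) := by simp
    have hkey : |(D : ℝ)| * |(a i : ℝ)| ≤ |(D : ℝ)| * (k * (R * ε)) +
        k * ((k * M * R) * ((|(D : ℝ)| + k * (M * ε)) / 2 * (2 * k * M * δ) ^ 2)) := by
      have h4 : (D : ℝ) * a i = D * ∑ t, (g t : ℝ) * w i t +
          τ i * ∑ l, (a l : ℝ) * (Real.sin (φ l) - φ l) := by linarith
      rw [← abs_mul, h4]
      refine (abs_add_le _ _).trans ?_
      apply add_le_add
      · rw [abs_mul]
        gcongr
      · exact hsum
    have hkε : (k : ℝ) * (M * ε) ≤ M := by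
      have h4 : (k : ℝ) * ε ≤ k * R * ε := by
        have h5 : (k : ℝ) ≤ k * R := le_mul_of_one_le_right (by positivity) hRR
        exact mul_le_mul_of_nonneg_right h5 hε0
      have h6 : (k : ℝ) * ε ≤ 1 := by linarith
      calc (k : ℝ) * (M * ε) = M * (k * ε) := by ring
        _ ≤ M * 1 := by gcongr
        _ = M := mul_one _
    have hDD : |(D : ℝ)| + k * (M * ε) ≤ |(D : ℝ)| * (2 * M) := by
      have f1 : |(D : ℝ)| ≤ |(D : ℝ)| * M := le_mul_of_one_le_right (abs_nonneg _) hMR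
      have f2 : (M : ℝ) ≤ |(D : ℝ)| * M := le_mul_of_one_le_left (by positivity) hD1
      linarith
    have hsmall : k * ((k * M * R) * ((|(D : ℝ)| + k * (M * ε)) / 2 * (2 * k * M * δ) ^ 2)) ≤
        |(D : ℝ)| * (1 / 16) := by
      have e1 : k * ((k * M * R) * ((|(D : ℝ)| + k * (M * ε)) / 2 * (2 * k * M * δ) ^ 2)) ≤
          k * ((k * M * R) * ((|(D : ℝ)| * (2 * M)) / 2 * (2 * k * M * δ) ^ 2)) := by gcongr
      have e2 : k * ((k * M * R) * ((|(D : ℝ)| * (2 * M)) / 2 * (2 * k * M * δ) ^ 2)) =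
          |(D : ℝ)| * (4 * (k ^ 4 * M ^ 4 * R * δ ^ 2)) := by ring
      have e3 : (k : ℝ) ^ 4 * M ^ 4 * R * δ ^ 2 ≤ 1 / 64 := by
        have f1 : (k ^ 3 * M ^ 2 * R * δ) ^ 2 ≤ (1 / 8) ^ 2 := by
          apply pow_le_pow_left₀ (by positivity)
          linarith
        have f2 : (k : ℝ) ^ 4 * M ^ 4 * R * δ ^ 2 ≤ (k ^ 3 * M ^ 2 * R * δ) ^ 2 := by
          have g1 : (k : ℝ) ^ 4 ≤ k ^ 6 := pow_le_pow_right₀ hkR (by norm_num)
          have g2 : (R : ℝ) ≤ R ^ 2 := le_self_pow₀ hRR (by norm_num)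
          calc (k : ℝ) ^ 4 * M ^ 4 * R * δ ^ 2 ≤ k ^ 6 * M ^ 4 * R ^ 2 * δ ^ 2 := by gcongr
            _ = _ := by ring
        linarith
      rw [e2] at e1
      refine e1.trans ?_
      apply mul_le_mul_of_nonneg_left _ (abs_nonneg _)
      linarith
    have hfin : |(D : ℝ)| * |(a i : ℝ)| < |(D : ℝ)| * 1 := by
      have h4 : (k : ℝ) * (R * ε) ≤ 1 / 4 := by linarith
      have h5 : |(D : ℝ)| * (k * (R * ε)) ≤ |(D : ℝ)| * (1 / 4) :=
        mul_le_mul_of_nonneg_left h4 (abs_nonneg _)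
      linarith
    have h8 : |(a i : ℝ)| < 1 := lt_of_mul_lt_mul_left hfin (abs_nonneg _)
    have h9 : |a i| < 1 := by exact_mod_cast h8
    exact Int.abs_lt_one_iff.mp h9
  intro i his
  exact main i i rfl his

end Pool.Agent.DD7719.M
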