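import Mathlib

/-! Degree and torsion bound for the splitting field of an integer polynomial. -/

open Finset

namespace Pool.Agent.DD7719

section degree

open Polynomial

/-- The splitting field of a polynomial of degree `≤ k` has degree `≤ k!`. -/
lemma finrank_splittingField_le {F : Type*} [Field F] [CharZero F] (k : ℕ) (q : F[X])
    (hdeg : q.natDegree ≤ k) :
    Module.finrank F q.SplittingField ≤ k.factorial := by
  classical
  have h1 : Module.finrank F q.SplittingField = Nat.card q.Gal := by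
    have : Normal F q.SplittingField := inferInstance
    have : IsGalois F q.SplittingField := ⟨⟩
    exact (IsGalois.card_aut_eq_finrank F q.SplittingField).symm
  have : Fact ((q.map (algebraMap F (AlgebraicClosure F))).Splits) := ⟨IsAlgClosed.splits _⟩
  have h2 : Nat.card q.Gal ≤ Nat.card (Equiv.Perm (q.rootSet (AlgebraicClosure F))) :=
    Nat.card_le_card_of_injective _ (Gal.galActionHom_injective q (AlgebraicClosure F))
  have h3 : Nat.card (Equiv.Perm (q.rootSet (AlgebraicClosure F))) =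
      (Nat.card (q.rootSet (AlgebraicClosure F))).factorial :=
    Nat.card_perm
  have h4 : Nat.card (q.rootSet (AlgebraicClosure F)) ≤ k := by
    rw [Nat.card_coe_set_eq]
    exact (q.ncard_rootSet_le (AlgebraicClosure F)).trans hdeg
  rw [h1]
  refine h2.trans ?_
  rw [h3]
  exact Nat.factorial_le h4

lemma rootSet_map_int (p : ℤ[X]) : (p.map (algebraMap ℤ ℚ)).rootSet ℂ = p.rootSet ℂ := by
  classical
  rw [rootSet_def, rootSet_def, aroots_map ℂ ℚ]

lemma finrank_adjoin_le (k : ℕ) (p : ℤ[X]) (hdeg : p.natDegree ≤ k) :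
    Module.finrank ℚ (IntermediateField.adjoin ℚ (p.rootSet ℂ)) ≤ k.factorial := by
  have h2 : IsSplittingField ℚ (IntermediateField.adjoin ℚ ((p.map (algebraMap ℤ ℚ)).rootSet ℂ))
      (p.map (algebraMap ℤ ℚ)) :=
    IntermediateField.adjoin_rootSet_isSplittingField (IsAlgClosed.splits _)
  rw [← rootSet_map_int]
  rw [(IsSplittingField.algEquiv (IntermediateField.adjoin ℚ
    ((p.map (algebraMap ℤ ℚ)).rootSet ℂ)) (p.map (algebraMap ℤ ℚ))).toLinearEquiv.finrank_eq]
  exact finrank_splittingField_le k _ ((natDegree_map_le).trans hdeg)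

lemma numberField_adjoin (p : ℤ[X]) :
    NumberField (IntermediateField.adjoin ℚ (p.rootSet ℂ)) := by
  have h2 : IsSplittingField ℚ (IntermediateField.adjoin ℚ ((p.map (algebraMap ℤ ℚ)).rootSet ℂ))
      (p.map (algebraMap ℤ ℚ)) :=
    IntermediateField.adjoin_rootSet_isSplittingField (IsAlgClosed.splits _)
  rw [← rootSet_map_int]
  have := IsSplittingField.finiteDimensional (IntermediateField.adjoin ℚ
    ((p.map (algebraMap ℤ ℚ)).rootSet ℂ)) (p.map (algebraMap ℤ ℚ))
  exact ⟨⟩

end degree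

section totient

lemma le_totient_sq_of_odd (n : ℕ) : Odd n → n ≤ (Nat.totient n) ^ 2 := by
  induction n using Nat.recOnPosPrimePosCoprime with
  | prime_pow p k hp hk =>
    intro hodd
    have hp3 : 3 ≤ p := by
      have h2 := hp.two_le
      rcases h2.lt_or_eq with h | h
      · exact h
      · subst h
        exact absurd hodd (by
          rw [Nat.not_odd_iff_even]
          exact (even_two.pow_of_ne_zero hk.ne'))
    rw [Nat.totient_prime_pow hp hk]
    obtain ⟨j, rfl⟩ : ∃ j, k = j + 1 := ⟨k - 1, by omega⟩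
    obtain ⟨r, rfl⟩ : ∃ r, p = r + 1 := ⟨p - 1, by omega⟩
    simp only [Nat.add_sub_cancel]
    have hr : 2 ≤ r := by omega
    calc (r + 1) ^ (j + 1) = (r + 1) ^ j * (r + 1) := by ring
      _ ≤ (r + 1) ^ j * (r ^ 2) := by gcongr; nlinarith
      _ ≤ (r + 1) ^ j * (r ^ 2) * (r + 1) ^ j := by
          apply Nat.le_mul_of_pos_right
          positivity
      _ = ((r + 1) ^ j * r) ^ 2 := by ring
  | zero => intro h; simp at h
  | one => intro _; simp
  | coprime a b ha hb hab iha ihb =>
    intro hodd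
    rw [Nat.totient_mul hab]
    obtain ⟨h1, h2⟩ := Nat.odd_mul.mp hodd
    calc a * b ≤ (Nat.totient a) ^ 2 * (Nat.totient b) ^ 2 := Nat.mul_le_mul (iha h1) (ihb h2)
      _ = _ := by ring

/-- `n ≤ 2 φ(n)²`. -/
lemma le_two_mul_totient_sq (n : ℕ) : n ≤ 2 * (Nat.totient n) ^ 2 := by
  rcases Nat.eq_zero_or_pos n with rfl | hn
  · simp
  obtain ⟨a, m, hm, rfl⟩ := Nat.exists_eq_two_pow_mul_odd hn.ne'
  have hc : Nat.Coprime (2 ^ a) m := by
    apply Nat.Coprime.pow_left
    exact (Nat.coprime_two_left).mpr hm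
  rw [Nat.totient_mul hc]
  have h1 := le_totient_sq_of_odd m hm
  have h2 : 2 ^ a ≤ 2 * (Nat.totient (2 ^ a)) ^ 2 := by
    rcases Nat.eq_zero_or_pos a with rfl | ha
    · simp
    · rw [Nat.totient_prime_pow Nat.prime_two ha]
      obtain ⟨j, rfl⟩ : ∃ j, a = j + 1 := ⟨a - 1, by omega⟩
      simp only [Nat.add_sub_cancel]
      calc 2 ^ (j + 1) = 2 * 2 ^ j * 1 := by ring
        _ ≤ 2 * 2 ^ j * 2 ^ j := by gcongr; exact Nat.one_le_two_pow
        _ = _ := by ring
  calc 2 ^ a * m ≤ (2 * (Nat.totient (2 ^ a)) ^ 2) * (Nat.totient m) ^ 2 := Nat.mul_le_mul h2 h1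
    _ = _ := by ring

end totient

section torsion

open NumberField

variable (K : Type*) [Field K] [NumberField K]

lemma torsionOrder_le : Units.torsionOrder K ≤ 2 * (Module.finrank ℚ K) ^ 2 := by
  obtain ⟨u, hu⟩ := IsCyclic.exists_generator (α := Units.torsion K)
  have h1 : orderOf u = Units.torsionOrder K := orderOf_eq_card_of_forall_mem_zpowers hu
  have h2 : orderOf ((u : (𝓞 K)ˣ) : K) = Units.torsionOrder K := by
    rw [← h1]
    have h3 : orderOf ((u : (𝓞 K)ˣ) : K) = orderOf (u : (𝓞 K)ˣ) := by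
      have := orderOf_injective ((algebraMap (𝓞 K) K).toMonoidHom.comp (_root_.Units.coeHom (𝓞 K)))
        (by
          intro a b hab
          apply _root_.Units.ext
          exact RingOfIntegers.coe_injective hab) (u : (𝓞 K)ˣ)
      exact this
    rw [h3, Subgroup.orderOf_coe]
  have h3 : IsPrimitiveRoot ((u : (𝓞 K)ˣ) : K) (Units.torsionOrder K) := by
    rw [← h2]; exact IsPrimitiveRoot.orderOf _
  have h4 := h3.totient_le_degree_minpoly
  have h5 : (minpoly ℤ ((u : (𝓞 K)ˣ) : K)).natDegree ≤ Module.finrank ℚ K := by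
    have h6 := minpoly.isIntegrallyClosed_eq_field_fractions' ℚ
      (RingOfIntegers.isIntegral_coe ((u : (𝓞 K)ˣ) : 𝓞 K))
    have h7 : (minpoly ℚ ((u : (𝓞 K)ˣ) : K)).natDegree =
        (minpoly ℤ ((u : (𝓞 K)ˣ) : K)).natDegree := by
      rw [h6]
      exact (minpoly.monic (RingOfIntegers.isIntegral_coe _)).natDegree_map _
    rw [← h7]
    exact minpoly.natDegree_le _
  calc Units.torsionOrder K ≤ 2 * (Nat.totient (Units.torsionOrder K)) ^ 2 :=
        le_two_mul_totient_sq _
    _ ≤ 2 * (Module.finrank ℚ K) ^ 2 := by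
        gcongr
        exact h4.trans h5

omit [NumberField K] in
lemma pow_torsionOrder_eq_one {z : K} (hz : ∃ n : ℕ, 0 < n ∧ z ^ n = 1) :
    z ^ (Units.torsionOrder K) = 1 := by
  obtain ⟨n, hn, hzn⟩ := hz
  have h0 : 0 < orderOf z := orderOf_pos_iff.mpr (isOfFinOrder_iff_pow_eq_one.mpr ⟨n, hn, hzn⟩)
  have : NeZero (orderOf z) := ⟨h0.ne'⟩
  exact orderOf_dvd_iff_pow_eq_one.mp
    (NumberField.Units.dvd_torsionOrder_of_isPrimitiveRoot (IsPrimitiveRoot.orderOf z))

end torsion

open Polynomial in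
/-- (H2) Torsion bound in the field generated by the roots. -/
theorem torsion_bound (k : ℕ) (p : ℤ[X]) (_hp : p ≠ 0) (hdeg : p.natDegree ≤ k) :
    ∃ e : ℕ, 0 < e ∧ e ≤ 2 * (k.factorial) ^ 2 ∧
      ∀ z ∈ IntermediateField.adjoin ℚ (p.rootSet ℂ), (∃ n : ℕ, 0 < n ∧ z ^ n = 1) →
        z ^ e = 1 := by
  have := numberField_adjoin p
  refine ⟨NumberField.Units.torsionOrder (IntermediateField.adjoin ℚ (p.rootSet ℂ)),
    NumberField.Units.torsionOrder_pos _, ?_, ?_⟩
  · refine (torsionOrder_le _).trans ?_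
    gcongr
    exact finrank_adjoin_le k p hdeg
  · intro z hz ⟨n, hn, hzn⟩
    have h := pow_torsionOrder_eq_one (IntermediateField.adjoin ℚ (p.rootSet ℂ))
      (z := ⟨z, hz⟩) ⟨n, hn, by ext; simpa using hzn⟩
    have := congrArg Subtype.val h
    simpa using this

end Pool.Agent.DD7719
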