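import Mathlib

/-! Kronecker's theorem: the closure of the orbit of a point of the torus contains the common
kernel of all characters which are torsion at this point. -/

open UnitAddTorus Filter Topology

namespace Pool.Agent.DD7719

lemma fourier_add_right (n : ℤ) (x y : UnitAddCircle) :
    (fourier n (x + y) : ℂ) = fourier n x * fourier n y := by
  simp [fourier_apply, smul_add, AddCircle.toCircle_add]

lemma mFourier_add_right {m : ℕ} (g : Fin m → ℤ) (x y : UnitAddTorus (Fin m)) :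
    mFourier g (x + y) = mFourier g x * mFourier g y := by
  simp only [mFourier, ContinuousMap.coe_mk, Pi.add_apply, fourier_add_right,
    Finset.prod_mul_distrib]

lemma mFourier_zero_right {m : ℕ} (g : Fin m → ℤ) :
    mFourier g (0 : UnitAddTorus (Fin m)) = 1 := by
  simp [mFourier]

lemma mFourier_nsmul {m : ℕ} (g : Fin m → ℤ) (k : ℕ) (x : UnitAddTorus (Fin m)) :
    mFourier g (k • x) = mFourier g x ^ k := by
  induction k with
  | zero => simp [mFourier_zero_right]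
  | succ k ih => rw [succ_nsmul, mFourier_add_right, ih, pow_succ]

/-- Difference of the averages along the orbits of `0` and of `ω`. -/
noncomputable def Dav {m : ℕ} (θ ω : UnitAddTorus (Fin m)) (n : ℕ) :
    C(UnitAddTorus (Fin m), ℂ) →ₗ[ℂ] ℂ where
  toFun F := (n : ℂ)⁻¹ * ∑ k ∈ Finset.range n, (F (k • θ) - F (ω + k • θ))
  map_add' F G := by
    rw [← mul_add, ← Finset.sum_add_distrib]
    congr 1
    refine Finset.sum_congr rfl fun k _ => ?_
    simp only [ContinuousMap.add_apply]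
    ring
  map_smul' c F := by
    simp only [ContinuousMap.smul_apply, smul_eq_mul, RingHom.id_apply]
    rw [mul_left_comm, Finset.mul_sum _ _ c]
    congr 1
    refine Finset.sum_congr rfl fun k _ => ?_
    ring

lemma Dav_apply {m : ℕ} (θ ω : UnitAddTorus (Fin m)) (n : ℕ) (F : C(UnitAddTorus (Fin m), ℂ)) :
    Dav θ ω n F = (n : ℂ)⁻¹ * ∑ k ∈ Finset.range n, (F (k • θ) - F (ω + k • θ)) := rfl

lemma Dav_norm {m : ℕ} (θ ω : UnitAddTorus (Fin m)) (n : ℕ) (F : C(UnitAddTorus (Fin m), ℂ)) :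
    ‖Dav θ ω n F‖ ≤ 2 * ‖F‖ := by
  rw [Dav_apply, norm_mul]
  have h1 : ‖∑ k ∈ Finset.range n, (F (k • θ) - F (ω + k • θ))‖ ≤ n * (2 * ‖F‖) := by
    refine (norm_sum_le _ _).trans ?_
    have : ∀ k ∈ Finset.range n, ‖F (k • θ) - F (ω + k • θ)‖ ≤ 2 * ‖F‖ := by
      intro k _
      refine (norm_sub_le _ _).trans ?_
      have := F.norm_coe_le_norm (k • θ)
      have := F.norm_coe_le_norm (ω + k • θ)
      linarith
    refine (Finset.sum_le_card_nsmul _ _ _ this).trans ?_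
    simp
  rcases Nat.eq_zero_or_pos n with hn | hn
  · subst hn; simp
  · rw [norm_inv, Complex.norm_natCast]
    have hn' : (0 : ℝ) < n := by exact_mod_cast hn
    calc (n : ℝ)⁻¹ * ‖∑ k ∈ Finset.range n, (F (k • θ) - F (ω + k • θ))‖
        ≤ (n : ℝ)⁻¹ * (n * (2 * ‖F‖)) := by gcongr
      _ = 2 * ‖F‖ := by field_simp

lemma geom_avg {z : ℂ} (hz : ‖z‖ = 1) (hz1 : z ≠ 1) :
    Tendsto (fun n : ℕ => (n : ℂ)⁻¹ * ∑ k ∈ Finset.range n, z ^ k) atTop (𝓝 0) := by
  have hz' : 0 < ‖z - 1‖ := norm_pos_iff.2 (sub_ne_zero.2 hz1)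
  rw [tendsto_zero_iff_norm_tendsto_zero]
  have h0 : Tendsto (fun n : ℕ => (2 / ‖z - 1‖) * ((n : ℝ)⁻¹)) atTop (𝓝 0) := by
    simpa using (tendsto_inv_atTop_nhds_zero_nat (𝕜 := ℝ)).const_mul (2 / ‖z - 1‖)
  refine squeeze_zero (fun _ => norm_nonneg _) (fun n => ?_) h0
  rw [norm_mul, norm_inv, Complex.norm_natCast, mul_comm]
  gcongr
  rw [geom_sum_eq hz1, norm_div]
  gcongr
  refine (norm_sub_le _ _).trans ?_
  rw [norm_pow, hz]
  norm_num

lemma Dav_tendsto {m : ℕ} (θ ω : UnitAddTorus (Fin m))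
    (hch : ∀ g : Fin m → ℤ, mFourier g θ = 1 → mFourier g ω = 1)
    (F : C(UnitAddTorus (Fin m), ℂ)) :
    Tendsto (fun n : ℕ => Dav θ ω n F) atTop (𝓝 0) := by
  have hspan : ∀ G ∈ Submodule.span ℂ (Set.range <| mFourier (d := Fin m)),
      Tendsto (fun n : ℕ => Dav θ ω n G) atTop (𝓝 0) := by
    intro G hG
    induction hG using Submodule.span_induction with
    | mem G hG =>
      obtain ⟨g, rfl⟩ := hG
      have key : ∀ n : ℕ, Dav θ ω n (mFourier g) =
          (1 - mFourier g ω) * ((n : ℂ)⁻¹ * ∑ k ∈ Finset.range n, (mFourier g θ) ^ k) := by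
        intro n
        rw [Dav_apply, mul_left_comm, Finset.mul_sum _ _ (1 - mFourier g ω)]
        congr 1
        refine Finset.sum_congr rfl fun k _ => ?_
        rw [mFourier_add_right, mFourier_nsmul]
        ring
      simp only [key]
      by_cases h1 : mFourier g θ = 1
      · rw [hch g h1]; simp
      · have hn : ‖mFourier g θ‖ = 1 := by
          simp [mFourier, fourier_apply]
        simpa using (geom_avg hn h1).const_mul (1 - mFourier g ω)
    | zero => simp
    | add x y _ _ hx hy => simpa using hx.add hy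
    | smul a x _ hx => simpa using hx.const_mul a
  rw [Metric.tendsto_atTop]
  intro ε hε
  have hF : F ∈ (Submodule.span ℂ (Set.range <| mFourier (d := Fin m))).topologicalClosure := by
    rw [span_mFourier_closure_eq_top]; trivial
  have hF' : F ∈ closure (Submodule.span ℂ (Set.range <| mFourier (d := Fin m)) :
      Set C(UnitAddTorus (Fin m), ℂ)) := hF
  obtain ⟨G, hG, hFG⟩ := Metric.mem_closure_iff.1 hF' (ε / 4) (by positivity)
  obtain ⟨N, hN⟩ := Metric.tendsto_atTop.1 (hspan G hG) (ε / 2) (by positivity)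
  refine ⟨N, fun n hn => ?_⟩
  have h1 := hN n hn
  rw [dist_zero_right] at h1 ⊢
  have h2 := Dav_norm θ ω n (F - G)
  rw [map_sub] at h2
  rw [dist_eq_norm] at hFG
  have h3 : ‖Dav θ ω n F‖ ≤ ‖Dav θ ω n F - Dav θ ω n G‖ + ‖Dav θ ω n G‖ := by
    simpa using norm_add_le (Dav θ ω n F - Dav θ ω n G) (Dav θ ω n G)
  linarith

lemma torus_recur {m : ℕ} (θ : UnitAddTorus (Fin m)) (N : ℕ) (ε : ℝ) (hε : 0 < ε) :
    ∃ M : ℕ, N ≤ M ∧ ‖M • θ‖ < ε := by
  obtain ⟨x, φ, hφ, hx⟩ := CompactSpace.tendsto_subseq (fun k : ℕ => k • θ)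
  have hc := hx.cauchySeq
  rw [Metric.cauchySeq_iff] at hc
  obtain ⟨K, hK⟩ := hc ε hε
  have h1 := hK (K + N) (by omega) K le_rfl
  have h2 : φ K + N ≤ φ (K + N) := by
    have := hφ.add_le_nat N K
    rw [add_comm K N]
    omega
  refine ⟨φ (K + N) - φ K, by omega, ?_⟩
  have h3 : (φ (K + N) - φ K) • θ = φ (K + N) • θ - φ K • θ := by
    rw [sub_nsmul θ (by omega : φ K ≤ φ (K + N)), sub_eq_add_neg]
  rw [h3, ← dist_eq_norm]
  exact h1

theorem torus_kronecker {m : ℕ} (θ ω : UnitAddTorus (Fin m))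
    (hch : ∀ g : Fin m → ℤ, mFourier g θ = 1 → mFourier g ω = 1) (N : ℕ) (ε : ℝ) (hε : 0 < ε) :
    ∃ n : ℕ, N ≤ n ∧ ‖n • θ - ω‖ < ε := by
  by_contra hcon
  push Not at hcon
  have hsep : ∀ k l : ℕ, ε ≤ ‖k • θ - (ω + l • θ)‖ := by
    intro k l
    by_contra hlt
    push Not at hlt
    obtain ⟨M, hM, hMε⟩ := torus_recur θ (N + l) (ε - ‖k • θ - (ω + l • θ)‖) (by linarith)
    have h1 := hcon (k + M - l) (by omega)
    have h2 : (k + M - l) • θ - ω = (k • θ - (ω + l • θ)) + M • θ := by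
      rw [sub_nsmul θ (by omega : l ≤ k + M), add_nsmul]
      abel
    rw [h2] at h1
    have h3 := norm_add_le (k • θ - (ω + l • θ)) (M • θ)
    linarith
  set O : Set (UnitAddTorus (Fin m)) := Set.range (fun k : ℕ => k • θ) with hO
  have hOne : O.Nonempty := ⟨_, ⟨0, rfl⟩⟩
  let F : C(UnitAddTorus (Fin m), ℂ) :=
    ⟨fun x => ((min 1 (Metric.infDist x O / ε) : ℝ) : ℂ), by
      refine Complex.continuous_ofReal.comp ?_
      exact continuous_const.min ((Metric.continuous_infDist_pt O).div_const ε)⟩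
  have hF0 : ∀ k : ℕ, F (k • θ) = 0 := by
    intro k
    have : Metric.infDist (k • θ) O = 0 := Metric.infDist_zero_of_mem ⟨k, rfl⟩
    change ((min 1 (Metric.infDist (k • θ) O / ε) : ℝ) : ℂ) = 0
    rw [this]; simp
  have hF1 : ∀ k : ℕ, F (ω + k • θ) = 1 := by
    intro k
    have : ε ≤ Metric.infDist (ω + k • θ) O := by
      rw [Metric.le_infDist hOne]
      rintro y ⟨j, rfl⟩
      rw [dist_comm, dist_eq_norm]
      exact hsep j k
    change ((min 1 (Metric.infDist (ω + k • θ) O / ε) : ℝ) : ℂ) = 1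
    rw [min_eq_left ((one_le_div hε).2 this)]
    simp
  have ht := Dav_tendsto θ ω hch F
  have hval : ∀ n : ℕ, 1 ≤ n → Dav θ ω n F = -1 := by
    intro n hn
    rw [Dav_apply]
    simp only [hF0, hF1]
    have : (n : ℂ) ≠ 0 := by
      have : n ≠ 0 := by omega
      exact_mod_cast this
    simp [this]
  have ht' : Tendsto (fun n : ℕ => Dav θ ω n F) atTop (𝓝 (-1)) := by
    refine tendsto_const_nhds.congr' ?_
    filter_upwards [eventually_ge_atTop 1] with n hn
    exact (hval n hn).symm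
  have := tendsto_nhds_unique ht ht'
  norm_num at this

/-- Kronecker's theorem for the closure of the orbit of `ν ^ E`. -/
theorem kronecker {m : ℕ} (ν w : Fin m → ℂ) (hν : ∀ i, ‖ν i‖ = 1) (hw : ∀ i, ‖w i‖ = 1)
    (H : ∀ g : Fin m → ℤ, (∃ n : ℕ, 0 < n ∧ (∏ i, ν i ^ g i) ^ n = 1) → ∏ i, w i ^ g i = 1)
    (E : ℕ) (hE : 0 < E) (N : ℕ) (ε : ℝ) (hε : 0 < ε) :
    ∃ n : ℕ, N ≤ n ∧ ∀ i, ‖ν i ^ (E * n) - w i‖ < ε := by
  have hlift : ∀ z : ℂ, ‖z‖ = 1 → ∃ x : UnitAddCircle, (fourier 1 x : ℂ) = z := by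
    intro z hz
    obtain ⟨t, ht⟩ := (Complex.norm_eq_one_iff z).1 hz
    refine ⟨((t / (2 * Real.pi) : ℝ) : UnitAddCircle), ?_⟩
    rw [fourier_coe_apply, ← ht]
    congr 1
    have : (Real.pi : ℂ) ≠ 0 := by exact_mod_cast Real.pi_ne_zero
    push_cast
    field_simp
  choose θ hθ using fun i => hlift (ν i) (hν i)
  choose ω hω using fun i => hlift (w i) (hw i)
  have hfour : ∀ (n : ℤ) (x : UnitAddCircle), (fourier n x : ℂ) = (fourier 1 x : ℂ) ^ n := by
    intro n x
    simp [fourier_apply, AddCircle.toCircle_zsmul]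
  have hmν : ∀ g : Fin m → ℤ, mFourier g (E • θ : UnitAddTorus (Fin m)) =
      (∏ i, ν i ^ g i) ^ E := by
    intro g
    rw [mFourier_nsmul]
    congr 1
    simp only [mFourier, ContinuousMap.coe_mk]
    refine Finset.prod_congr rfl fun i _ => ?_
    rw [hfour, hθ]
  have hmω : ∀ g : Fin m → ℤ, mFourier g (ω : UnitAddTorus (Fin m)) = ∏ i, w i ^ g i := by
    intro g
    simp only [mFourier, ContinuousMap.coe_mk]
    refine Finset.prod_congr rfl fun i _ => ?_
    rw [hfour, hω]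
  have hch : ∀ g : Fin m → ℤ, mFourier g (E • θ : UnitAddTorus (Fin m)) = 1 →
      mFourier g (ω : UnitAddTorus (Fin m)) = 1 := by
    intro g hg
    rw [hmω]
    rw [hmν] at hg
    exact H g ⟨E, hE, hg⟩
  let Φ : UnitAddTorus (Fin m) → (Fin m → ℂ) := fun x i => (fourier 1 (x i) : ℂ)
  have hΦ : Continuous Φ := by
    refine continuous_pi fun i => ?_
    exact (fourier 1).continuous.comp (continuous_apply i)
  have hΦu := CompactSpace.uniformContinuous_of_continuous hΦ
  rw [Metric.uniformContinuous_iff] at hΦu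
  obtain ⟨δ, hδ, hΦδ⟩ := hΦu ε hε
  obtain ⟨n, hn, hnδ⟩ := torus_kronecker (E • θ) ω hch N δ hδ
  refine ⟨n, hn, fun i => ?_⟩
  have h1 := hΦδ (a := n • (E • θ)) (b := ω) (by rw [dist_eq_norm]; exact hnδ)
  have h2 := (dist_pi_lt_iff hε).1 h1 i
  have h3 : Φ (n • (E • θ)) i = ν i ^ (E * n) := by
    change (fourier 1 ((n • (E • θ)) i) : ℂ) = _
    have : (n • (E • θ)) i = (((E * n : ℕ) : ℤ)) • (θ i) := by
      rw [Pi.smul_apply, Pi.smul_apply, smul_smul, natCast_zsmul, mul_comm]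
    rw [this, ← hθ i, fourier_apply, fourier_apply, one_smul, one_smul, AddCircle.toCircle_zsmul,
      zpow_natCast, Circle.coe_pow]
  have h4 : Φ ω i = w i := hω i
  rw [h3, h4, dist_eq_norm] at h2
  exact h2

end Pool.Agent.DD7719
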