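import Pool.Agent.DD7719.HtMain
import Pool.Agent.DD7719.HtTorsion
import Pool.Agent.DD7719.Kronecker
import Pool.Agent.DD7719.CertSound

/-! The certificate for non-positivity of a sum of powers, and its soundness. -/

namespace Pool.Agent.DD7719.M

open Complex Filter Topology

variable {k : ℕ}

/-- normalisation to modulus one; `0` is sent to `1` -/
noncomputable def nz (z : ℂ) : ℂ := if z = 0 then 1 else z / ‖z‖

lemma norm_nz (z : ℂ) : ‖nz z‖ = 1 := by
  unfold nz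
  split_ifs with h
  · exact norm_one
  · rw [norm_div, norm_real, norm_norm, div_self (norm_ne_zero_iff.mpr h)]

lemma nz_mul_norm (z : ℂ) : (‖z‖ : ℂ) * nz z = z := by
  unfold nz
  split_ifs with h
  · simp [h]
  · rw [mul_div_cancel₀]
    exact_mod_cast norm_ne_zero_iff.mpr h

open scoped Classical in
/-- The certificate (in the simple case), at the level of complex numbers and integers. -/
def Cert (k : ℕ) (l c : Fin k → ℂ) (M Nb : ℕ) (ε δ : ℝ) : Prop :=
  ∃ (n0 j : ℕ) (A H : Fin k → Fin k → ℤ) (D : ℤ) (s : ℕ) (w : Fin k → Fin k → ℝ)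
    (τ : Fin k → ℝ) (z : Fin k → ℂ) (ρ : ℝ),
    0 < n0 ∧ n0 ≤ Nb ∧ j < n0 ∧ s ≤ k ∧ D ≠ 0 ∧ |D| ≤ M ∧
    (∀ l' i, ∑ t, H l' t * A i t = if l' = i then D else 0) ∧
    (∀ l' t, |A l' t| ≤ M) ∧ (∀ l' t, |H l' t| ≤ M) ∧
    (∀ i, ‖nz (l i) ^ n0 - 1‖ ≤ δ) ∧
    (∀ i : Fin k, (i : ℕ) < s → ∀ l', i ≤ l' → ∑ t, (H l' t : ℝ) * w i t =
      (if l' = i then (D : ℝ) else 0) - τ i * (∏ t, (nz (l t) ^ n0) ^ H l' t).im) ∧
    (∀ i : Fin k, (i : ℕ) < s → ∀ t, |w i t| ≤ ε) ∧
    (∀ t, ‖z t‖ = 1) ∧ 0 ≤ ρ ∧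
    (∀ m' < k, ∑ i, (if ρ < ‖l i‖ then c i * l i ^ (j + n0 * m') else 0) = 0) ∧
    (ρ = 0 ∨ (∑ i, (if ‖l i‖ = ρ then c i * l i ^ j *
      ∏ t : Fin k, (if (t : ℕ) < s then z t ^ A t i else 1) else 0)).re < 0)

/-- a combination of `k` geometric sequences vanishing at `0, …, k-1` vanishes -/
lemma vanish_of_first (X C : Fin k → ℂ) (h : ∀ m < k, ∑ i, C i * X i ^ m = 0) :
    ∀ m, ∑ i, C i * X i ^ m = 0 := by
  classical
  have hlin : ∀ P : Polynomial ℂ, P.degree < k → ∑ i, C i * P.eval (X i) = 0 := by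
    intro P hP
    have h1 : ∀ i, P.eval (X i) = ∑ m ∈ Finset.range k, P.coeff m * X i ^ m := by
      intro i
      rcases eq_or_ne P 0 with rfl | hP0
      · simp
      · rw [Polynomial.eval_eq_sum_range' ((Polynomial.natDegree_lt_iff_degree_lt hP0).mpr hP)]
    simp only [h1, Finset.mul_sum]
    rw [Finset.sum_comm]
    apply Finset.sum_eq_zero
    intro m hm
    rw [Finset.mem_range] at hm
    have h2 := h m hm
    calc ∑ i, C i * (P.coeff m * X i ^ m) = P.coeff m * ∑ i, C i * X i ^ m := by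
          rw [Finset.mul_sum]
          exact Finset.sum_congr rfl fun i _ => by ring
      _ = 0 := by rw [h2, mul_zero]
  intro m
  set Q : Polynomial ℂ := ∏ i, (Polynomial.X - Polynomial.C (X i)) with hQ
  have hmonic : Q.Monic := Polynomial.monic_prod_of_monic _ _ fun i _ => Polynomial.monic_X_sub_C _
  have hdeg : Q.degree = k := by
    rw [hQ, Polynomial.degree_prod]
    simp
  have h1 := hlin ((Polynomial.X ^ m) %ₘ Q) (by
    rw [← hdeg]
    exact Polynomial.degree_modByMonic_lt _ hmonic)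
  have h2 : ∀ i, ((Polynomial.X ^ m) %ₘ Q).eval (X i) = X i ^ m := by
    intro i
    have h3 := congrArg (Polynomial.eval (X i)) (Polynomial.modByMonic_add_div (Polynomial.X ^ m) Q)
    rw [Polynomial.eval_add, Polynomial.eval_mul, Polynomial.eval_pow, Polynomial.eval_X] at h3
    have h4 : Q.eval (X i) = 0 := by
      rw [hQ, Polynomial.eval_prod]
      exact Finset.prod_eq_zero (Finset.mem_univ i) (by simp)
    rw [h4, zero_mul, add_zero] at h3
    exact h3
  simpa only [h2] using h1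

/-- the roots with `0` replaced by `1` -/
noncomputable def nzr (z : ℂ) : ℂ := if z = 0 then 1 else z

lemma nzr_ne_zero (z : ℂ) : nzr z ≠ 0 := by
  unfold nzr
  split_ifs with h
  · exact one_ne_zero
  · exact h

lemma nzr_div_conj (z : ℂ) : nzr z / (starRingEnd ℂ) (nzr z) = nz z ^ 2 := by
  unfold nzr nz
  split_ifs with h
  · simp
  · have hn : (‖z‖ : ℂ) ≠ 0 := by exact_mod_cast norm_ne_zero_iff.mpr h
    have hc : (starRingEnd ℂ) z ≠ 0 := by simpa using h
    rw [div_pow, div_eq_div_iff hc (pow_ne_zero _ hn), ← Complex.mul_conj']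
    ring

lemma prod_nzr (l : Fin k → ℂ) (g : Fin k → ℤ) :
    ∏ i, (nzr (l i) / (starRingEnd ℂ) (nzr (l i))) ^ g i = (∏ i, nz (l i) ^ g i) ^ 2 := by
  rw [← Finset.prod_pow]
  apply Finset.prod_congr rfl
  intro i _
  rw [nzr_div_conj, ← zpow_natCast, ← zpow_natCast, ← zpow_mul, ← zpow_mul, mul_comm]

lemma prod_pow_zpow (ν : Fin k → ℂ) (g : Fin k → ℤ) (n : ℕ) :
    ∏ i, (ν i ^ n) ^ g i = (∏ i, ν i ^ g i) ^ n := by
  rw [← Finset.prod_pow]
  apply Finset.prod_congr rfl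
  intro i _
  rw [← zpow_natCast, ← zpow_natCast, ← zpow_mul, ← zpow_mul, mul_comm]

lemma prod_zpow_sum {ι : Type*} (s : Finset ι) (z : ℂ) (hz : z ≠ 0) (f : ι → ℤ) :
    ∏ i ∈ s, z ^ f i = z ^ (∑ i ∈ s, f i) := by
  classical
  induction s using Finset.induction_on with
  | empty => simp
  | insert a s ha ih => rw [Finset.prod_insert ha, Finset.sum_insert ha, ih, zpow_add₀ hz]

/-- The property of `R` given by `relations_bound`. -/
def RelBound (k : ℕ) (l : Fin k → ℂ) (R : ℕ) : Prop :=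
  ∀ a : Fin k → ℤ, (∀ g : Fin k → ℤ, (∀ i, |g i| ≤ R) →
      (∏ i, nz (l i) ^ g i) ^ 2 = 1 → ∑ i, a i * g i = 0) →
    ∀ g : Fin k → ℤ, (∏ i, nz (l i) ^ g i) ^ 2 = 1 → ∑ i, a i * g i = 0

/-- points of the certified torus are limit points -/
lemma cert_limit (l : Fin k → ℂ) (R M n0 : ℕ) (hR : 1 ≤ R) (hM : 1 ≤ M) (hrb : RelBound k l R)
    (A H : Fin k → Fin k → ℤ) (D : ℤ) (s : ℕ) (w : Fin k → Fin k → ℝ) (τ : Fin k → ℝ) (ε δ : ℝ)
    (hn0 : 0 < n0) (hD : D ≠ 0)
    (hHA : ∀ l' i, ∑ t, H l' t * A i t = if l' = i then D else 0)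
    (hA : ∀ l' t, |A l' t| ≤ M) (hH : ∀ l' t, |H l' t| ≤ M)
    (hδ' : ∀ i, ‖nz (l i) ^ n0 - 1‖ ≤ δ)
    (hw : ∀ i : Fin k, (i : ℕ) < s → ∀ l', i ≤ l' → ∑ t, (H l' t : ℝ) * w i t =
      (if l' = i then (D : ℝ) else 0) - τ i * (∏ t, (nz (l t) ^ n0) ^ H l' t).im)
    (hwε : ∀ i : Fin k, (i : ℕ) < s → ∀ t, |w i t| ≤ ε)
    (hε : 4 * k * R * ε ≤ 1) (hδ : 8 * k ^ 3 * M ^ 2 * R * δ ≤ 1)
    (z : Fin k → ℂ) (hz : ∀ t, ‖z t‖ = 1) (E : ℕ) (hE : 0 < E) (N : ℕ) (η : ℝ) (hη : 0 < η) :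
    ∃ n, N ≤ n ∧ ∀ i, ‖nz (l i) ^ (E * n) - ∏ t : Fin k, (if (t : ℕ) < s then z t ^ A t i else 1)‖ < η := by
  have hrel : ∀ i : Fin k, (i : ℕ) < s → ∀ g : Fin k → ℤ, (∏ t, nz (l t) ^ g t) ^ 2 = 1 →
      ∑ t, A i t * g t = 0 := by
    intro i his
    apply hrb
    intro g hg hrel
    refine cert_rel R M hR hM (fun t => nz (l t) ^ n0) (fun t => ?_) A H D hD hHA hA hH w τ ε δ s
      hw hwε hδ' hε hδ g hg ?_ i his
    · rw [norm_pow, norm_nz, one_pow]
    · rw [prod_pow_zpow, ← pow_mul, mul_comm, pow_mul, hrel, one_pow]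
  apply kronecker (fun i => nz (l i)) _ (fun i => norm_nz _) _ _ E hE N η hη
  · intro i
    rw [norm_prod]
    apply Finset.prod_eq_one
    intro t _
    split_ifs
    · rw [norm_zpow, hz, one_zpow]
    · exact norm_one
  · rintro g ⟨n, hn, hg⟩
    have h1 : ∀ t : Fin k, (t : ℕ) < s → ∑ i, A t i * g i = 0 := by
      intro t ht
      have h2 := hrel t ht (fun i => n * g i) (by
        have h3 : ∏ i, nz (l i) ^ ((n : ℤ) * g i) = (∏ i, nz (l i) ^ g i) ^ n := by
          rw [← Finset.prod_pow]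
          apply Finset.prod_congr rfl
          intro i _
          rw [mul_comm, zpow_mul, zpow_natCast]
        rw [h3, hg, one_pow])
      have h4 : (n : ℤ) * ∑ i, A t i * g i = 0 := by
        rw [← h2, Finset.mul_sum]
        exact Finset.sum_congr rfl fun i _ => by ring
      rcases mul_eq_zero.mp h4 with h5 | h5
      · exact absurd h5 (by exact_mod_cast hn.ne')
      · exact h5
    have h5 : ∏ i, (∏ t : Fin k, (if (t : ℕ) < s then z t ^ A t i else 1)) ^ g i =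
        ∏ t : Fin k, ∏ i, (if (t : ℕ) < s then z t ^ (A t i * g i) else 1) := by
      rw [Finset.prod_comm]
      apply Finset.prod_congr rfl
      intro i _
      rw [← Finset.prod_zpow]
      apply Finset.prod_congr rfl
      intro t _
      split_ifs
      · rw [zpow_mul]
      · exact one_zpow _
    rw [h5]
    apply Finset.prod_eq_one
    intro t _
    by_cases ht : (t : ℕ) < s
    · simp only [ht, if_true]
      have hzt : z t ≠ 0 := by
        intro h0
        have := hz t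
        rw [h0, norm_zero] at this
        exact zero_ne_one this
      have h6 : ∏ i, z t ^ (A t i * g i) = z t ^ (∑ i, A t i * g i) :=
        prod_zpow_sum _ _ hzt _
      rw [h6, h1 t ht, zpow_zero]
    · simp [ht]

end Pool.Agent.DD7719.M
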