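import Pool.Agent.DD7719.CertGDef
import Pool.Agent.AllR.Bin

/-! The existence of a certificate is an existential real condition: readers and closure. -/

set_option autoImplicit false

namespace Pool.Agent.DD7719.M

open Complex Filter Topology
open Pool.Agent.PT Pool.Agent.AllR

/-! ### Readers: all objects are coded in one real assignment -/

/-- roots -/
noncomputable def rl (α : ℕ → ℝ) (i : ℕ) : ℂ := ⟨α (20 * i), α (20 * i + 1)⟩
/-- coefficients -/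
noncomputable def rc (α : ℕ → ℝ) (i : ℕ) : ℂ := ⟨α (20 * i + 2), α (20 * i + 3)⟩
/-- exponents -/
noncomputable def rex (K : ℕ) (α : ℕ → ℝ) (i : ℕ) : ℕ := decS K (α (20 * i + 4))
/-- `n0` -/
noncomputable def rn0 (B : ℕ) (α : ℕ → ℝ) : ℕ := decN B (fun v => α (20 * v + 5))
/-- `j` -/
noncomputable def rj (B : ℕ) (α : ℕ → ℝ) : ℕ := decN B (fun v => α (20 * v + 6))
/-- `A` -/
noncomputable def rA (B : ℕ) (α : ℕ → ℝ) (i t : ℕ) : ℤ :=
  decZ B (fun v => α (20 * Nat.pair (Nat.pair i t) v + 7))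
/-- `H` -/
noncomputable def rH (B : ℕ) (α : ℕ → ℝ) (i t : ℕ) : ℤ :=
  decZ B (fun v => α (20 * Nat.pair (Nat.pair i t) v + 8))
/-- `D` -/
noncomputable def rD (B : ℕ) (α : ℕ → ℝ) : ℤ := decZ B (fun v => α (20 * v + 9))
/-- `w` -/
noncomputable def rw' (α : ℕ → ℝ) (i t : ℕ) : ℝ := α (20 * Nat.pair i t + 10)
/-- `τ` -/
noncomputable def rτ (α : ℕ → ℝ) (i : ℕ) : ℝ := α (20 * i + 11)
/-- `z` -/
noncomputable def rz (α : ℕ → ℝ) (i : ℕ) : ℂ := ⟨α (20 * i + 12), α (20 * i + 13)⟩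
/-- `z'` -/
noncomputable def rz' (α : ℕ → ℝ) (i : ℕ) : ℂ := ⟨α (20 * i + 14), α (20 * i + 15)⟩
/-- `ρ` -/
noncomputable def rρ (α : ℕ → ℝ) : ℝ := α 16

variable {Γ : Type}

theorem uf_aff {g : List Γ → (ℕ → ℕ) → ℕ} (hg : UF g) (b : ℕ) :
    UF (fun x e => 20 * g x e + b) := ((UF.const 20).mul hg).add (UF.const b)

theorem cf_rl {g : List Γ → (ℕ → ℕ) → ℕ} (hg : UF g) : CF (fun x e α => rl α (g x e)) :=
  CF.var ((UF.const 20).mul hg) (uf_aff hg 1)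

theorem cf_rc {g : List Γ → (ℕ → ℕ) → ℕ} (hg : UF g) : CF (fun x e α => rc α (g x e)) :=
  CF.var (uf_aff hg 2) (uf_aff hg 3)

theorem cf_rz {g : List Γ → (ℕ → ℕ) → ℕ} (hg : UF g) : CF (fun x e α => rz α (g x e)) :=
  CF.var (uf_aff hg 12) (uf_aff hg 13)

theorem cf_rz' {g : List Γ → (ℕ → ℕ) → ℕ} (hg : UF g) : CF (fun x e α => rz' α (g x e)) :=
  CF.var (uf_aff hg 14) (uf_aff hg 15)

theorem rf_rw {f g : List Γ → (ℕ → ℕ) → ℕ} (hf : UF f) (hg : UF g) :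
    RF (fun x e α => rw' α (f x e) (g x e)) := RF.var (uf_aff (uf_pair hf hg) 10)

theorem rf_rτ {g : List Γ → (ℕ → ℕ) → ℕ} (hg : UF g) : RF (fun x e α => rτ α (g x e)) :=
  RF.var (uf_aff hg 11)

theorem rf_rρ : RF (Γ := Γ) (fun _ _ α => rρ α) := RF.var (UF.const 16)

theorem ns_rex {K g : List Γ → (ℕ → ℕ) → ℕ} (hK : UF K) (hg : UF g) :
    NS (fun x e α => rex (K x e) α (g x e)) := NS.decS hK (uf_aff hg 4)

theorem nf_rn0 {B : List Γ → (ℕ → ℕ) → ℕ} (hB : UF B) : NF (fun x e α => rn0 (B x e) α) :=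
  NF.decN (ν := fun _ _ v => 20 * v + 5) hB (uf_aff (UF.var 0) 5)

theorem nf_rj {B : List Γ → (ℕ → ℕ) → ℕ} (hB : UF B) : NF (fun x e α => rj (B x e) α) :=
  NF.decN (ν := fun _ _ v => 20 * v + 6) hB (uf_aff (UF.var 0) 6)

theorem zf_rD {B : List Γ → (ℕ → ℕ) → ℕ} (hB : UF B) : ZF (fun x e α => rD (B x e) α) :=
  ZF.decZ (ν := fun _ _ v => 20 * v + 9) hB (uf_aff (UF.var 0) 9)

theorem zf_rA {B f g : List Γ → (ℕ → ℕ) → ℕ} (hB : UF B) (hf : UF f) (hg : UF g) :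
    ZF (fun x e α => rA (B x e) α (f x e) (g x e)) :=
  ZF.decZ (ν := fun x e v => 20 * Nat.pair (Nat.pair (f x e) (g x e)) v + 7) hB
    (uf_aff (uf_pair (uf_pair (UF.app hf UE.tail) (UF.app hg UE.tail)) (UF.var 0)) 7)

theorem zf_rH {B f g : List Γ → (ℕ → ℕ) → ℕ} (hB : UF B) (hf : UF f) (hg : UF g) :
    ZF (fun x e α => rH (B x e) α (f x e) (g x e)) :=
  ZF.decZ (ν := fun x e v => 20 * Nat.pair (Nat.pair (f x e) (g x e)) v + 8) hB
    (uf_aff (uf_pair (uf_pair (UF.app hf UE.tail) (UF.app hg UE.tail)) (UF.var 0)) 8)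

theorem cf_nz {f : List Γ → (ℕ → ℕ) → (ℕ → ℝ) → ℂ} (hf : CF f) :
    CF (fun x e α => nz (f x e α)) := by
  classical
  exact (CF.normalize (inst := fun _ _ _ => Classical.dec _) hf).congr fun x e α => by
    unfold nz
    congr

/-! ### The body -/

open scoped Classical in
/-- The level sum. -/
noncomputable def Lev (k s d : ℕ) (l c z : ℕ → ℂ) (ex : ℕ → ℕ) (A : ℕ → ℕ → ℤ) (j : ℕ) (ρ : ℝ) :
    ℂ :=
  ∑ i ∈ Finset.range k, (if ‖l i‖ = ρ ∧ ex i = d then c i * l i ^ (j - d) *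
    ∏ t ∈ Finset.range k, (if t < s then z t ^ A t i else 1) else 0)

open scoped Classical in
/-- The conditions of a certificate without the size bounds. -/
def CB (k s d : ℕ) (ε δ : ℝ) (l c : ℕ → ℂ) (ex : ℕ → ℕ) (n0 j : ℕ) (A H : ℕ → ℕ → ℤ) (D : ℤ)
    (w : ℕ → ℕ → ℝ) (τ : ℕ → ℝ) (z z' : ℕ → ℂ) (ρ : ℝ) : Prop :=
  (0 < n0 ∧ k ≤ j ∧ j < k + n0 ∧ D ≠ 0) ∧
    (∀ i, i < k → ∀ i', i' < k → ∑ t ∈ Finset.range k, H i t * A i' t = if i = i' then D else 0) ∧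
    (∀ i, i < k → ‖nz (l i) ^ n0 - 1‖ ≤ δ) ∧
    (∀ i, i < s → ∀ i', i' < k → i ≤ i' → ∑ t ∈ Finset.range k, (H i' t : ℝ) * w i t =
      (if i' = i then (D : ℝ) else 0) -
        τ i * (∏ t ∈ Finset.range k, (nz (l t) ^ n0) ^ H i' t).im) ∧
    (∀ i, i < s → ∀ t, t < k → |w i t| ≤ ε) ∧
    (∀ t, t < k → ‖z t‖ = 1) ∧ (∀ t, t < k → ‖z' t‖ = 1) ∧ 0 ≤ ρ ∧
    (∀ m, m < k → ∑ i ∈ Finset.range k, (if Above ρ d (l i) (ex i) then
      c i * ((j + n0 * m).choose (ex i) : ℂ) * l i ^ (j + n0 * m - ex i) else 0) = 0) ∧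
    (ρ = 0 ∨ (Lev k s d l c z ex A j ρ).re < 0 ∨
      (0 < d ∧ (Lev k s d l c z ex A j ρ).re ≤ 0 ∧ (Lev k s d l c z' ex A j ρ).re ≠ 0))

/-- The coded certificate with its root data. -/
def Body (k s d bm bn : ℕ) (a u : ℕ → ℝ) (ε δ : ℝ) (α : ℕ → ℝ) : Prop :=
  RootData k a u (rl α) (rc α) (rex k α) ∧
    CB k s d ε δ (rl α) (rc α) (rex k α) (rn0 bn α) (rj (bn + k) α) (rA bm α) (rH bm α) (rD bm α)
      (rw' α) (rτ α) (rz α) (rz' α) (rρ α)

/-! ### The closure proofs -/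

section
variable (kk bm bn : List Γ → ℕ) (aR uR : List Γ → ℕ → ℝ) (εR δR : List Γ → ℝ)
  (hk : UF (fun x _ => kk x)) (hbm : UF (fun x _ => bm x)) (hbn : UF (fun x _ => bn x))
  (ha : RF (fun x e _ => aR x (e 0))) (hu : RF (fun x e _ => uR x (e 0)))
  (hε : RF (fun x _ _ => εR x)) (hδ : RF (fun x _ _ => δR x))

include hk ha hu in
theorem re_rootData : RE (fun x _ α => RootData (kk x) (aR x) (uR x) (rl α) (rc α)
    (rex (kk x) α)) := by
  unfold RootData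
  refine RE.and (RE.ball hk ?_) (RE.and (RE.ball hk (RE.ball hk ?_)) (RE.and (RE.ball hk ?_)
    (RE.ball hk ?_)))
  · -- `ex i < k`
    exact RE.msub (m := fun x e α => rex (kk x) α (e 0)) (P := fun x _ _ q => q < kk x)
      (ns_rex hk (UF.var 0)) (RE.up (UP.lt (UF.var 0) hk))
  · -- distinctness
    refine RE.guard (UP.ne (UF.var 1) (UF.var 0)) (RE.or (RE.cne (cf_rl (UF.var 1))
      (cf_rl (UF.var 0))) ?_)
    refine RE.msub (m := fun x e α => rex (kk x) α (e 1))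
      (P := fun x e α q => q ≠ rex (kk x) α (e 0)) (ns_rex hk (UF.var 1)) ?_
    refine RE.msub (m := fun x e α => rex (kk x) α (e 1))
      (P := fun x e α q => e 0 ≠ q) (ns_rex hk (UF.var 1)) ?_
    exact RE.up (UP.ne (UF.var 1) (UF.var 0))
  · -- root conditions
    refine RE.congr (RE.msub (m := fun x e α => rex (kk x) α (e 0))
      (P := fun x e α q => ∀ f, f < q + 1 → (((kk x).choose f : ℕ) : ℂ) * rl α (e 0) ^ (kk x - f) =
        ∑ t ∈ Finset.range (kk x), (aR x t : ℂ) * ((kk x - 1 - t).choose f : ℂ) *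
          rl α (e 0) ^ (kk x - 1 - t - f)) (ns_rex hk (UF.var 0)) ?_) fun x e α => ?_
    · refine RE.ball ((UF.var 0).add (UF.const 1)) ?_
      refine RE.ceq ?_ (CF.sum hk ?_)
      · exact (CF.choose (NF.uf hk) (UF.var 0)).mul ((cf_rl (UF.var 2)).pow (hk.sub (UF.var 0)))
      · refine ((CF.ofReal ?_).mul (CF.choose (NF.uf ((hk.sub (UF.const 1)).sub (UF.var 0)))
          (UF.var 1))).mul ((cf_rl (UF.var 3)).pow (((hk.sub (UF.const 1)).sub (UF.var 0)).sub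
          (UF.var 1)))
        exact ha
    · constructor
      · intro h f hf; exact h f (by omega)
      · intro h f hf; exact h f (by omega)
  · -- initial values
    refine RE.ceq (CF.sum hk ?_) (CF.ofReal hu)
    refine CF.msub (m := fun x e α => rex (kk x) α (e 0))
      (f := fun x e α q => rc α (e 0) * ((e 1).choose q : ℂ) * rl α (e 0) ^ (e 1 - q))
      (ns_rex hk (UF.var 0)) ?_
    exact ((cf_rc (UF.var 1)).mul (CF.choose (NF.uf (UF.var 2)) (UF.var 0))).mul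
      ((cf_rl (UF.var 1)).pow ((UF.var 2).sub (UF.var 0)))

theorem re_above {z : List Γ → (ℕ → ℕ) → (ℕ → ℝ) → ℂ} {ρ : List Γ → (ℕ → ℕ) → (ℕ → ℝ) → ℝ}
    {d q : List Γ → (ℕ → ℕ) → ℕ} (hz : CF z) (hρ : RF ρ) (hd : UF d) (hq : UF q) :
    RE (fun x e α => Above (ρ x e α) (d x e) (z x e α) (q x e)) :=
  RE.or (RE.lt hρ hz.norm) (RE.and (RE.eq hz.norm hρ) (RE.and (RE.lt RF.zero hρ)
    (RE.up (UP.lt hd hq))))

theorem re_not_above {z : List Γ → (ℕ → ℕ) → (ℕ → ℝ) → ℂ}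
    {ρ : List Γ → (ℕ → ℕ) → (ℕ → ℝ) → ℝ}
    {d q : List Γ → (ℕ → ℕ) → ℕ} (hz : CF z) (hρ : RF ρ) (hd : UF d) (hq : UF q) :
    RE (fun x e α => ¬ Above (ρ x e α) (d x e) (z x e α) (q x e)) :=
  (RE.and (RE.le hz.norm hρ) (RE.or (RE.ne hz.norm hρ) (RE.or (RE.le hρ RF.zero)
    (RE.up (UP.le hq hd))))).congr fun x e α => by
      unfold Above
      push Not
      constructor
      · rintro ⟨h1, h2⟩
        refine ⟨h1, fun h3 h4 => ?_⟩
        rcases h2 with h | h | h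
        · exact absurd h3 h
        · exact absurd h4 (not_lt.2 h)
        · exact h
      · rintro ⟨h1, h2⟩
        refine ⟨h1, ?_⟩
        by_cases h3 : ‖z x e α‖ = ρ x e α
        · by_cases h4 : 0 < ρ x e α
          · exact Or.inr (Or.inr (h2 h3 h4))
          · exact Or.inr (Or.inl (not_lt.1 h4))
        · exact Or.inl h3

include hk hbm hbn in
theorem cf_lev {zr : (ℕ → ℝ) → ℕ → ℂ}
    (hz : ∀ {g : List Γ → (ℕ → ℕ) → ℕ}, UF g → CF (fun x e α => zr α (g x e))) :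
    CF (fun x e α => Lev (kk x) (e 1) (e 0) (rl α) (rc α) (zr α) (rex (kk x) α)
      (rA (bm x) α) (rj (bn x + kk x) α) (rρ α)) := by
  classical
  unfold Lev
  refine CF.sum hk ?_
  refine CF.msub (m := fun x e α => rex (kk x) α (e 0))
    (f := fun x e α q => if ‖rl α (e 0)‖ = rρ α ∧ q = e 1 then
      rc α (e 0) * rl α (e 0) ^ (rj (bn x + kk x) α - e 1) *
      ∏ t ∈ Finset.range (kk x), (if t < e 2 then zr α t ^ rA (bm x) α t (e 0) else 1) else 0)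
    (ns_rex hk (UF.var 0)) ?_
  refine CF.rite ?_ ?_ ?_ CF.zero
  · exact RE.and (RE.eq (cf_rl (UF.var 1)).norm rf_rρ) (RE.up (UP.eq (UF.var 0) (UF.var 2)))
  · refine (RE.or (RE.ne (cf_rl (UF.var 1)).norm rf_rρ)
      (RE.up (UP.ne (UF.var 0) (UF.var 2)))).congr fun x e α => ?_
    exact not_and_or.symm
  · refine ((cf_rc (UF.var 1)).mul (CF.npow (cf_rl (UF.var 1))
      (NF.tsub (nf_rj (hbn.add hk)) (NF.uf (UF.var 2))))).mul (CF.prod hk ?_)
    exact CF.ite (UP.lt (UF.var 0) (UF.var 4)) (CF.zpow (hz (UF.var 0))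
      (zf_rA hbm (UF.var 0) (UF.var 2))) CF.one

include hk hbm hbn hε hδ in
theorem re_cb : RE (fun x e α => CB (kk x) (e 1) (e 0) (εR x) (δR x) (rl α) (rc α) (rex (kk x) α)
    (rn0 (bn x) α) (rj (bn x + kk x) α) (rA (bm x) α) (rH (bm x) α) (rD (bm x) α)
      (rw' α) (rτ α) (rz α) (rz' α) (rρ α)) := by
  classical
  unfold CB
  have hn0 : NF (Γ := Γ) (fun x e α => rn0 (bn x) α) := nf_rn0 hbn
  have hj : NF (Γ := Γ) (fun x e α => rj (bn x + kk x) α) := nf_rj (hbn.add hk)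
  have hD : ZF (Γ := Γ) (fun x e α => rD (bm x) α) := zf_rD hbm
  refine RE.and ?_ (RE.and ?_ (RE.and ?_ (RE.and ?_ (RE.and ?_ (RE.and ?_ (RE.and ?_
    (RE.and ?_ (RE.and ?_ ?_))))))))
  · refine RE.and (RE.nlt (NF.uf (UF.const 0)) hn0) (RE.and (RE.nle (NF.uf hk) hj)
      (RE.and (RE.nlt hj ((NF.uf hk).add hn0)) ?_))
    exact (RE.ne hD.1 RF.zero).congr fun x e α => by
      rw [Ne, Int.cast_eq_zero]
  · refine RE.ball hk (RE.ball hk ?_)
    have h1 : RE (fun x e α => (∑ t ∈ Finset.range (kk x), (rH (bm x) α (e 1) t : ℝ) *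
        (rA (bm x) α (e 0) t : ℝ)) = if e 1 = e 0 then (rD (bm x) α : ℝ) else 0) := by
      refine RE.eq (RF.sum hk ?_) (RF.ite (UP.eq (UF.var 1) (UF.var 0)) hD.1 RF.zero)
      exact (zf_rH hbm (UF.var 2) (UF.var 0)).1.mul (zf_rA hbm (UF.var 1) (UF.var 0)).1
    refine h1.congr fun x e α => ?_
    rw [← Int.cast_inj (α := ℝ)]
    push_cast
    by_cases h : e 1 = e 0 <;> simp [h]
  · refine RE.ball hk (RE.le (CF.norm (CF.sub (CF.npow (cf_nz (cf_rl (UF.var 0))) hn0) CF.one)) hδ)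
  · refine RE.ball (UF.var 1) (RE.ball hk (RE.guard (UP.le (UF.var 1) (UF.var 0)) ?_))
    refine RE.eq (RF.sum hk ?_) (RF.sub (RF.ite (UP.eq (UF.var 0) (UF.var 1)) hD.1 RF.zero)
      (RF.mul (rf_rτ (UF.var 1)) (CF.im (CF.prod hk ?_))))
    · exact (zf_rH hbm (UF.var 1) (UF.var 0)).1.mul (rf_rw (UF.var 2) (UF.var 0))
    · exact CF.zpow (CF.npow (cf_nz (cf_rl (UF.var 0))) hn0) (zf_rH hbm (UF.var 1) (UF.var 0))
  · exact RE.ball (UF.var 1) (RE.ball hk (RE.le (rf_rw (UF.var 1) (UF.var 0)).abs hε))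
  · exact RE.ball hk (RE.eq (cf_rz (UF.var 0)).norm RF.one)
  · exact RE.ball hk (RE.eq (cf_rz' (UF.var 0)).norm RF.one)
  · exact RE.le RF.zero rf_rρ
  · refine RE.ball hk (RE.ceq (CF.sum hk ?_) CF.zero)
    refine CF.msub (m := fun x e α => rex (kk x) α (e 0))
      (f := fun x e α q => if Above (rρ α) (e 2) (rl α (e 0)) q then
        rc α (e 0) * ((rj (bn x + kk x) α + rn0 (bn x) α * e 1).choose q : ℂ) *
          rl α (e 0) ^ (rj (bn x + kk x) α + rn0 (bn x) α * e 1 - q) else 0)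
      (ns_rex hk (UF.var 0)) ?_
    have hN : NF (Γ := Γ) (fun x e α => rj (bn x + kk x) α + rn0 (bn x) α * e 2) :=
      hj.add (hn0.mul (NF.uf (UF.var 2)))
    refine CF.rite ?_ ?_ ?_ CF.zero
    · exact re_above (cf_rl (UF.var 1)) rf_rρ (UF.var 3) (UF.var 0)
    · exact re_not_above (cf_rl (UF.var 1)) rf_rρ (UF.var 3) (UF.var 0)
    · exact ((cf_rc (UF.var 1)).mul (CF.choose hN (UF.var 0))).mul
        (CF.npow (cf_rl (UF.var 1)) (hN.tsub (NF.uf (UF.var 0))))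
  · have hL := cf_lev kk bm bn hk hbm hbn (zr := rz) cf_rz
    have hL' := cf_lev kk bm bn hk hbm hbn (zr := rz') cf_rz'
    refine RE.or (RE.eq rf_rρ RF.zero) (RE.or (RE.lt hL.re RF.zero) (RE.and
      (RE.up (UP.lt (UF.const 0) (UF.var 0))) (RE.and (RE.le hL.re RF.zero)
        (RE.ne hL'.re RF.zero))))

include hk hbm hbn ha hu hε hδ in
theorem re_body : RE (fun x e α => Body (kk x) (e 1) (e 0) (bm x) (bn x) (aR x) (uR x) (εR x)
    (δR x) α) :=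
  RE.and (re_rootData kk aR uR hk ha hu) (re_cb kk bm bn εR δR hk hbm hbn hε hδ)

end

end Pool.Agent.DD7719.M
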