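import Pool.Agent.DD7719.CertDef

/-! Soundness of the certificate. -/

namespace Pool.Agent.DD7719.M

open Complex Filter Topology

variable {k : ℕ}

open scoped Classical in
theorem cert_sound (l c : Fin k → ℂ) (R M Nb : ℕ) (ε δ : ℝ) (hk : 0 < k) (hR : 1 ≤ R) (hM : 1 ≤ M)
    (hrb : RelBound k l R) (hε : 4 * k * R * ε ≤ 1) (hδ : 8 * k ^ 3 * M ^ 2 * R * δ ≤ 1)
    (hc : Cert k l c M Nb ε δ) (N : ℕ) : ∃ n, N ≤ n ∧ (∑ i, c i * l i ^ n).re ≤ 0 := by
  obtain ⟨n0, j, A, H, D, s, w, τ, z, ρ, hn0, _, hj, hs, hD, hDM, hHA, hA, hH, hδ', hw, hwε, hz, hρ,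
    hvan, hlast⟩ := hc
  -- the part of modulus > ρ vanishes on the class
  have hvan' : ∀ m', ∑ i, (if ρ < ‖l i‖ then c i * l i ^ (j + n0 * m') else 0) = 0 := by
    have h1 := vanish_of_first (fun i => l i ^ n0)
      (fun i => if ρ < ‖l i‖ then c i * l i ^ j else 0) (by
        intro m' hm'
        refine Eq.trans ?_ (hvan m' hm')
        apply Finset.sum_congr rfl
        intro i _
        split_ifs
        · rw [pow_add, pow_mul, mul_assoc]
        · rw [zero_mul])
    intro m'
    refine Eq.trans ?_ (h1 m')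
    apply Finset.sum_congr rfl
    intro i _
    split_ifs
    · rw [pow_add, pow_mul, mul_assoc]
    · rw [zero_mul]
  rcases hρ.eq_or_lt with h0 | hρpos
  · -- everything but the root `0` cancels
    refine ⟨j + n0 * (N + 1), by nlinarith, ?_⟩
    have h1 := hvan' (N + 1)
    have h2 : ∑ i, c i * l i ^ (j + n0 * (N + 1)) =
        ∑ i, (if ρ < ‖l i‖ then c i * l i ^ (j + n0 * (N + 1)) else 0) := by
      apply Finset.sum_congr rfl
      intro i _
      split_ifs with h
      · rfl
      · rw [← h0] at h
        have h3 : l i = 0 := by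
          by_contra h4
          exact h (norm_pos_iff.mpr h4)
        rw [h3, zero_pow, mul_zero]
        have : 0 < n0 * (N + 1) := by positivity
        omega
    rw [h2, h1]
    simp
  · have hneg := hlast.resolve_left hρpos.ne'
    set f : (Fin k → ℂ) → ℂ := fun W => ∑ i, (if ‖l i‖ = ρ then c i * l i ^ j * W i else 0) with hf
    set W : Fin k → ℂ := fun i => ∏ t : Fin k, (if (t : ℕ) < s then z t ^ A t i else 1) with hW
    have hfW : (f W).re < 0 := hneg
    -- constants
    set S : ℝ := ∑ i, ‖c i * l i ^ j‖ with hS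
    have hS0 : 0 ≤ S := Finset.sum_nonneg fun i _ => norm_nonneg _
    set η : ℝ := -(f W).re / (2 * (S + 1)) with hη
    have hη0 : 0 < η := by
      apply div_pos (by linarith)
      positivity
    -- the part of modulus < ρ
    have hsmall : Tendsto (fun n : ℕ => ∑ i, (if ‖l i‖ < ρ then c i * l i ^ j *
        ((l i / ρ) ^ n0) ^ n else 0)) atTop (𝓝 0) := by
      have hz0 : (0 : ℂ) = ∑ _i : Fin k, (0 : ℂ) := by simp
      conv => rhs; rw [hz0]
      apply tendsto_finsetSum
      intro i _
      by_cases h : ‖l i‖ < ρ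
      · simp only [h, if_true]
        rw [show (0 : ℂ) = c i * l i ^ j * 0 by simp]
        apply Tendsto.const_mul
        apply tendsto_pow_atTop_nhds_zero_of_norm_lt_one
        rw [norm_pow]
        apply pow_lt_one₀ (norm_nonneg _) _ hn0.ne'
        rw [norm_div, norm_real, Real.norm_of_nonneg hρ, div_lt_one hρpos]
        exact h
      · simp only [h, if_false]
        exact tendsto_const_nhds
    have hev : ∀ᶠ n : ℕ in atTop, ‖∑ i, (if ‖l i‖ < ρ then c i * l i ^ j *
        ((l i / ρ) ^ n0) ^ n else 0)‖ < -(f W).re / 2 := by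
      have h1 := hsmall.norm
      rw [norm_zero] at h1
      exact h1.eventually_lt_const (by linarith)
    rw [eventually_atTop] at hev
    obtain ⟨N1, hN1⟩ := hev
    obtain ⟨n, hn, hclose⟩ := cert_limit l R M n0 hR hM hrb A H D s w τ ε δ hn0 hD hHA hA hH hδ' hw
      hwε hε hδ z hz n0 hn0 (N + N1) η hη0
    refine ⟨j + n0 * n, by nlinarith, ?_⟩
    -- decomposition
    have hdec : ∑ i, c i * l i ^ (j + n0 * n) = (ρ : ℂ) ^ (n0 * n) *
        (f (fun i => nz (l i) ^ (n0 * n)) + ∑ i, (if ‖l i‖ < ρ then c i * l i ^ j *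
        ((l i / ρ) ^ n0) ^ n else 0)) := by
      have h1 : ∑ i, c i * l i ^ (j + n0 * n) =
          ∑ i, (if ρ < ‖l i‖ then c i * l i ^ (j + n0 * n) else 0) +
          (∑ i, (if ‖l i‖ = ρ then c i * l i ^ (j + n0 * n) else 0) +
          ∑ i, (if ‖l i‖ < ρ then c i * l i ^ (j + n0 * n) else 0)) := by
        rw [← Finset.sum_add_distrib, ← Finset.sum_add_distrib]
        apply Finset.sum_congr rfl
        intro i _
        rcases lt_trichotomy (‖l i‖) ρ with h | h | h
        · rw [if_neg (not_lt.mpr h.le), if_neg h.ne, if_pos h]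
          ring
        · rw [if_neg (not_lt.mpr h.le), if_pos h, if_neg (not_lt.mpr h.ge)]
          ring
        · rw [if_pos h, if_neg h.ne', if_neg (not_lt.mpr h.le)]
          ring
      rw [h1, hvan' n, zero_add, mul_add, hf]
      congr 1
      · rw [Finset.mul_sum]
        apply Finset.sum_congr rfl
        intro i _
        split_ifs with h
        · have h2 := nz_mul_norm (l i)
          rw [h] at h2
          calc c i * l i ^ (j + n0 * n) = c i * l i ^ j * l i ^ (n0 * n) := by rw [pow_add]; ring
            _ = c i * l i ^ j * ((ρ : ℂ) * nz (l i)) ^ (n0 * n) := by rw [h2]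
            _ = _ := by rw [mul_pow]; ring
        · rw [mul_zero]
      · rw [Finset.mul_sum]
        apply Finset.sum_congr rfl
        intro i _
        split_ifs with h
        · have hρC : (ρ : ℂ) ≠ 0 := by exact_mod_cast hρpos.ne'
          rw [← pow_mul, div_pow, pow_add]
          field_simp
        · rw [mul_zero]
    have hfclose : ‖f (fun i => nz (l i) ^ (n0 * n)) - f W‖ ≤ S * η := by
      rw [hf]
      simp only
      rw [← Finset.sum_sub_distrib]
      refine (norm_sum_le _ _).trans ?_
      rw [hS, Finset.sum_mul]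
      apply Finset.sum_le_sum
      intro i _
      split_ifs with h
      · rw [← mul_sub, norm_mul]
        exact mul_le_mul_of_nonneg_left (hclose i).le (norm_nonneg _)
      · rw [sub_zero, norm_zero]
        positivity
    rw [hdec]
    have h3 : ((ρ : ℂ) ^ (n0 * n) * (f (fun i => nz (l i) ^ (n0 * n)) + ∑ i, (if ‖l i‖ < ρ then
        c i * l i ^ j * ((l i / ρ) ^ n0) ^ n else 0))).re = ρ ^ (n0 * n) *
        (f (fun i => nz (l i) ^ (n0 * n)) + ∑ i, (if ‖l i‖ < ρ then
        c i * l i ^ j * ((l i / ρ) ^ n0) ^ n else 0)).re := by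
      rw [← ofReal_pow, re_ofReal_mul]
    rw [h3, add_re]
    apply mul_nonpos_of_nonneg_of_nonpos (pow_nonneg hρ _)
    have h4 : (f (fun i => nz (l i) ^ (n0 * n))).re ≤ (f W).re + S * η := by
      have := (abs_le.mp ((abs_re_le_norm _).trans hfclose)).2
      rw [sub_re] at this
      linarith
    have h5 : (∑ i, (if ‖l i‖ < ρ then c i * l i ^ j * ((l i / ρ) ^ n0) ^ n else 0)).re ≤
        -(f W).re / 2 :=
      ((re_le_norm _).trans (hN1 n (by omega)).le)
    have h6 : S * η ≤ -(f W).re / 2 := by
      rw [hη]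
      have h7 : S * (-(f W).re / (2 * (S + 1))) = (S / (S + 1)) * (-(f W).re / 2) := by
        field_simp
      rw [h7]
      have h8 : S / (S + 1) ≤ 1 := by
        rw [div_le_one (by linarith)]
        linarith
      have h9 : 0 ≤ -(f W).re / 2 := by linarith
      nlinarith
    linarith

end Pool.Agent.DD7719.M
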