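import Pool.Agent.DD7719.Exchange

/-! The case where the span of the first minima is a coordinate subspace. -/

namespace Pool.Agent.DD7719.M

open Module Matrix NumberField

lemma norm_det_le_rows {n : ℕ} (M : Matrix (Fin n) (Fin n) ℂ) (r : Fin n → ℝ)
    (h : ∀ i j, ‖M i j‖ ≤ r i) : ‖M.det‖ ≤ n.factorial * ∏ i, r i := by
  rw [Matrix.det_apply]
  refine (norm_sum_le _ _).trans ?_
  have : ∀ τ ∈ (Finset.univ : Finset (Equiv.Perm (Fin n))),
      ‖Equiv.Perm.sign τ • ∏ i, M (τ i) i‖ ≤ ∏ i, r i := by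
    intro τ _
    rw [Units.smul_def, zsmul_eq_mul, norm_mul]
    have h1 : ‖((Equiv.Perm.sign τ : ℤ) : ℂ)‖ = 1 := by
      rcases Int.units_eq_one_or (Equiv.Perm.sign τ) with h | h <;> simp [h]
    rw [h1, one_mul, norm_prod]
    calc ∏ i, ‖M (τ i) i‖ ≤ ∏ i, r (τ i) :=
          Finset.prod_le_prod (fun i _ => norm_nonneg _) (fun i _ => h _ _)
      _ = ∏ i, r i := Equiv.prod_comp τ r
  refine (Finset.sum_le_card_nsmul _ _ _ this).trans ?_
  simp [Fintype.card_perm]

lemma prod_split {d p q : ℕ} (h : p + q = d) (lam : Fin d → ℝ) :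
    ∏ i, lam i = (∏ i : Fin p, lam (Fin.castLE (by omega) i)) * ∏ i : Fin q, lam (topEmb h i) := by
  subst h
  rw [Fin.prod_univ_add]
  rfl

lemma exists_compl {d p q : ℕ} (h : p + q = d) (J₀ : Fin q ↪o Fin d) :
    ∃ Jc : Fin p ↪o Fin d, ∀ k, k ∈ Set.range Jc ↔ k ∉ Set.range J₀ := by
  classical
  have hcard : ((Finset.univ.image J₀)ᶜ).card = p := by
    rw [Finset.card_compl, Finset.card_image_of_injective _ J₀.injective]
    simp
    omega
  refine ⟨(Finset.univ.image J₀)ᶜ.orderEmbOfFin hcard, fun k => ?_⟩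
  rw [Finset.range_orderEmbOfFin]
  simp

variable {K : Type*} [Field K] [NumberField K] {m : ℕ}

theorem coord_case (φ : K →+* ℂ) (hφ : ComplexEmbedding.conjugate φ ≠ φ)
    (cc lb : Fin (m + 1) → K) (hcc : ∀ i, cc i ≠ 0) (hlb : ∀ i, lb i ≠ 0)
    (hmod : ∀ i, ‖φ (lb i)‖ = ‖φ (lb 0)‖) (C : ℝ) (hC : 1 ≤ C) (p q : ℕ) (h : p + q = m + 1)
    (hp : 0 < p) (hq : 0 < q) :
    ∃ C' : ℝ, 1 ≤ C' ∧ ∀ (n : ℕ) (T : ℝ), 1 ≤ T →
      ∀ (y : Fin (m + 1) → Fin (m + 1) → 𝓞 K) (lam : Fin (m + 1) → ℝ),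
        LinearIndependent K (fun i => toK (y i)) → Reduced C (An φ cc lb n T) y lam →
        (∀ i, 1 ≤ C * lam i) →
        (∏ i, lam i) ^ (Fintype.card (K →+* ℂ)) ≤ C * T ^ 2 →
        (∀ (σ : K →+* ℂ) i k, ‖σ (y i k : K)‖ ≤ C * lam i) →
        ∀ (J₀ : Fin q ↪o Fin (m + 1)), (∀ i : Fin (m + 1), (i : ℕ) < p → ∀ a, y i (J₀ a) = 0) →
          lam ⟨p, by omega⟩ ≤ C' := by
  classical
  set D := Fintype.card (K →+* ℂ) with hD
  have hDpos : 0 < D := Fintype.card_pos_iff.mpr ⟨φ⟩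
  have hcpos : ∀ i, 0 < ‖φ (cc i)‖ := fun i => norm_pos_iff.mpr ((map_ne_zero φ).mpr (hcc i))
  set s : ℝ := ∑ i, 1 / ‖φ (cc i)‖ with hs
  have hsi : ∀ i, 1 / ‖φ (cc i)‖ ≤ s := fun i =>
    Finset.single_le_sum (f := fun i => 1 / ‖φ (cc i)‖)
      (fun i _ => by have := hcpos i; positivity) (Finset.mem_univ i)
  have hs0 : 0 < s := lt_of_lt_of_le (by have := hcpos 0; positivity) (hsi 0)
  have hfac : (0 : ℝ) < p.factorial := by exact_mod_cast p.factorial_pos
  set X : ℝ := C * s ^ 2 * (p.factorial * C ^ p) ^ D with hX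
  have hXpos : 0 < X := by positivity
  refine ⟨1 + X * C ^ (q * D), by have : 0 ≤ X * C ^ (q * D) := by positivity
                                  linarith, ?_⟩
  intro n T hT y lam hli hred hlow hprod hcoord J₀ hJ
  have hT0 : 0 < T := by linarith
  have hlampos : ∀ i, 0 < lam i := hred.pos
  have hpm : p ≤ m + 1 := by omega
  obtain ⟨Jc, hJc⟩ := exists_compl h J₀
  set M : Matrix (Fin p) (Fin p) (𝓞 K) := Matrix.of fun i j => y (Fin.castLE hpm i) (Jc j) with hM
  have hzero : ∀ (i : Fin p) (k : Fin (m + 1)), k ∉ Set.range Jc → y (Fin.castLE hpm i) k = 0 := by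
    intro i k hk
    rw [hJc, not_not] at hk
    obtain ⟨a, rfl⟩ := hk
    exact hJ _ i.2 a
  have hMdet : M.det ≠ 0 := by
    intro h0
    obtain ⟨v, hv, hv0⟩ := Matrix.exists_vecMul_eq_zero_iff.mpr h0
    have hsum : ∑ i : Fin p, (v i : K) • toK (y (Fin.castLE hpm i)) = 0 := by
      funext k
      rw [Finset.sum_apply]
      simp only [Pi.smul_apply, smul_eq_mul, toK, Pi.zero_apply]
      by_cases hk : k ∈ Set.range Jc
      · obtain ⟨j, rfl⟩ := hk
        have h1 := congrFun hv0 j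
        simp only [Matrix.vecMul, dotProduct, hM, Matrix.of_apply, Pi.zero_apply] at h1
        have h2 := congrArg (algebraMap (𝓞 K) K) h1
        rw [map_sum, map_zero] at h2
        simpa using h2
      · apply Finset.sum_eq_zero
        intro i _
        rw [hzero i k hk]
        simp
    have hli' : LinearIndependent K (fun i : Fin p => toK (y (Fin.castLE hpm i))) :=
      hli.comp _ (Fin.castLE_injective hpm)
    rw [Fintype.linearIndependent_iff] at hli'
    have h3 := hli' (fun i => (v i : K)) hsum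
    apply hv
    funext i
    have := h3 i
    exact_mod_cast this
  have hN := one_le_prod_embeddings _ hMdet
  set E : ℝ := p.factorial * ∏ i : Fin p, (C * lam (Fin.castLE hpm i)) with hE
  have hE0 : 0 < E := by
    apply mul_pos hfac
    exact Finset.prod_pos fun i _ => by have := hlampos (Fin.castLE hpm i); positivity
  have hmapdet : ∀ σ : K →+* ℂ, σ (M.det : K) = (M.map (fun x : 𝓞 K => σ (x : K))).det := by
    intro σ
    exact (RingHom.map_det (σ.comp (algebraMap (𝓞 K) K)) M)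
  have hother : ∀ σ : K →+* ℂ, ‖σ (M.det : K)‖ ≤ E := by
    intro σ
    rw [hmapdet]
    apply norm_det_le_rows
    intro i j
    exact hcoord σ _ _
  have hphi : ‖φ (M.det : K)‖ ≤ s / T * E := by
    set Mφ := M.map (fun x : 𝓞 K => φ (x : K)) with hMφ
    let j0 : Fin p := ⟨0, hp⟩
    set g : Fin p → ℂ := fun j => φ (cc (Jc j) * (lb (Jc j) / lb 0) ^ n) with hg
    have hg0 : ‖g j0‖ = ‖φ (cc (Jc j0))‖ := by
      simp only [hg]
      rw [map_mul, norm_mul, map_pow, norm_pow, map_div₀, norm_div, hmod,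
        div_self (norm_ne_zero_iff.mpr ((map_ne_zero φ).mpr (hlb 0))), one_pow, mul_one]
    have hu : ∀ i, Mφ.mulVec g i =
        φ (∑ k, cc k * (lb k / lb 0) ^ n * (y (Fin.castLE hpm i) k : K)) := by
      intro i
      have h1 : ∑ k, cc k * (lb k / lb 0) ^ n * (y (Fin.castLE hpm i) k : K) =
          ∑ j : Fin p, cc (Jc j) * (lb (Jc j) / lb 0) ^ n * (y (Fin.castLE hpm i) (Jc j) : K) := by
        symm
        apply Fintype.sum_of_injective Jc Jc.injective
        · intro k hk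
          rw [hzero i k hk]
          simp
        · intro j; rfl
      rw [h1, map_sum]
      simp only [Matrix.mulVec, dotProduct, hMφ, hM, hg, Matrix.map_apply, Matrix.of_apply, map_mul]
      apply Finset.sum_congr rfl
      intro j _
      ring
    have hub : ∀ i, ‖(T : ℂ) * Mφ.mulVec g i‖ ≤ C * lam (Fin.castLE hpm i) := by
      intro i
      rw [hu i]
      have h1 := gmat_upper hred φ (Fin.castLE hpm i) 0
      rwa [An_mulVec_zero φ cc lb n T (fun k => (y (Fin.castLE hpm i) k : K))] at h1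
    have hcr : (Mφ.updateCol j0 (Mφ.mulVec g)).det = Mφ.det * g j0 := by
      rw [← Matrix.cramer_apply, Matrix.cramer_eq_adjugate_mulVec, Matrix.mulVec_mulVec,
        Matrix.adjugate_mul, Matrix.smul_mulVec, Matrix.one_mulVec, Pi.smul_apply, smul_eq_mul]
    have hT' : (Mφ.updateCol j0 ((T : ℂ) • Mφ.mulVec g)).det = T * (Mφ.det * g j0) := by
      rw [Matrix.det_updateCol_smul, hcr]
    have hb : ‖(Mφ.updateCol j0 ((T : ℂ) • Mφ.mulVec g)).det‖ ≤ E := by
      apply norm_det_le_rows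
      intro i j
      by_cases hj : j = j0
      · subst hj
        rw [Matrix.updateCol_self]
        exact hub i
      · rw [Matrix.updateCol_ne hj]
        exact hcoord φ _ _
    rw [hT', norm_mul, norm_mul, Complex.norm_real, Real.norm_of_nonneg hT0.le, hg0] at hb
    rw [hmapdet, ← hMφ]
    have h1 := hcpos (Jc j0)
    have h2 := hsi (Jc j0)
    calc ‖Mφ.det‖ = (T * (‖Mφ.det‖ * ‖φ (cc (Jc j0))‖)) * (1 / ‖φ (cc (Jc j0))‖ / T) := by
          field_simp
      _ ≤ E * (1 / ‖φ (cc (Jc j0))‖ / T) := by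
          apply mul_le_mul_of_nonneg_right hb
          positivity
      _ ≤ E * (s / T) := by gcongr
      _ = s / T * E := by ring
  have hall : ∀ σ : K →+* ℂ, ‖σ (M.det : K)‖ ≤
      E * (if σ = φ ∨ σ = ComplexEmbedding.conjugate φ then s / T else 1) := by
    intro σ
    split_ifs with hσ
    · have h1 : ‖σ (M.det : K)‖ = ‖φ (M.det : K)‖ := by
        rcases hσ with h | h
        · rw [h]
        · rw [h, norm_conjugate]
      rw [h1, mul_comm]
      exact hphi
    · rw [mul_one]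
      exact hother σ
  have h1 : ∏ σ : K →+* ℂ, ‖σ (M.det : K)‖ ≤ E ^ D * (s / T) ^ 2 := by
    calc ∏ σ : K →+* ℂ, ‖σ (M.det : K)‖ ≤ ∏ σ : K →+* ℂ,
          (E * (if σ = φ ∨ σ = ComplexEmbedding.conjugate φ then s / T else 1)) :=
          Finset.prod_le_prod (fun _ _ => norm_nonneg _) (fun σ _ => hall σ)
      _ = E ^ D * (s / T) ^ 2 := by
          rw [Finset.prod_mul_distrib, prod_ite_conj φ hφ, Finset.prod_const, Finset.card_univ]
  have h2 : T ^ 2 ≤ s ^ 2 * E ^ D := by
    have h3 := hN.trans h1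
    rw [div_pow, mul_div_assoc', le_div_iff₀ (by positivity)] at h3
    linarith
  set P1 : ℝ := ∏ i : Fin p, lam (Fin.castLE hpm i) with hP1
  set P2 : ℝ := ∏ i : Fin q, lam (topEmb h i) with hP2
  have hP1pos : 0 < P1 := Finset.prod_pos fun i _ => hlampos _
  have hP2pos : 0 < P2 := Finset.prod_pos fun i _ => hlampos _
  have hsplit : ∏ i, lam i = P1 * P2 := prod_split h lam
  have hE' : E = p.factorial * C ^ p * P1 := by
    rw [hE, Finset.prod_mul_distrib, Finset.prod_const, Finset.card_univ, Fintype.card_fin]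
    ring
  have h3 : P2 ^ D ≤ X := by
    rw [hsplit, mul_pow] at hprod
    have h4 : P1 ^ D * P2 ^ D ≤ P1 ^ D * X := by
      calc P1 ^ D * P2 ^ D ≤ C * T ^ 2 := hprod
        _ ≤ C * (s ^ 2 * E ^ D) := by gcongr
        _ = P1 ^ D * X := by
            rw [hE', hX, mul_pow]
            ring
    exact le_of_mul_le_mul_left h4 (by positivity)
  have h4 : lam ⟨p, by omega⟩ ≤ C ^ q * P2 := by
    have h5 : topEmb h ⟨0, hq⟩ = (⟨p, by omega⟩ : Fin (m + 1)) := by
      apply Fin.ext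
      rw [topEmb_val]
      simp
    rw [hP2, ← Finset.mul_prod_erase Finset.univ (fun i => lam (topEmb h i))
      (Finset.mem_univ ⟨0, hq⟩), h5]
    have h6 : 1 ≤ C ^ q * ∏ i ∈ Finset.univ.erase (⟨0, hq⟩ : Fin q), lam (topEmb h i) := by
      have h7 : C ^ (q - 1) * ∏ i ∈ Finset.univ.erase (⟨0, hq⟩ : Fin q), lam (topEmb h i) =
          ∏ i ∈ Finset.univ.erase (⟨0, hq⟩ : Fin q), (C * lam (topEmb h i)) := by
        rw [Finset.prod_mul_distrib, Finset.prod_const, Finset.card_erase_of_mem (Finset.mem_univ _)]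
        simp
      have h8 : 1 ≤ ∏ i ∈ Finset.univ.erase (⟨0, hq⟩ : Fin q), (C * lam (topEmb h i)) := by
        calc (1 : ℝ) = ∏ _i ∈ Finset.univ.erase (⟨0, hq⟩ : Fin q), (1 : ℝ) := by simp
          _ ≤ _ := Finset.prod_le_prod (fun _ _ => zero_le_one) (fun i _ => hlow _)
      rw [← h7] at h8
      refine h8.trans ?_
      apply mul_le_mul_of_nonneg_right _ (Finset.prod_nonneg fun i _ => (hlampos _).le)
      exact pow_le_pow_right₀ hC (by omega)
    have h9 := hlampos ⟨p, by omega⟩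
    nlinarith
  have h5 : (lam ⟨p, by omega⟩) ^ D ≤ X * C ^ (q * D) := by
    calc (lam ⟨p, by omega⟩) ^ D ≤ (C ^ q * P2) ^ D := by
          apply pow_le_pow_left₀ (hlampos _).le h4
      _ = P2 ^ D * C ^ (q * D) := by rw [mul_pow, ← pow_mul]; ring
      _ ≤ X * C ^ (q * D) := by gcongr
  by_cases h6 : lam ⟨p, by omega⟩ ≤ 1
  · have : 0 ≤ X * C ^ (q * D) := by positivity
    linarith
  · push Not at h6
    have h7 := le_self_pow₀ h6.le hDpos.ne'
    linarith

end Pool.Agent.DD7719.M
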