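import Mathlib

/-! Counting the order embeddings through a given point. -/

namespace Pool.Agent.DD7719.M

open Finset

variable {d q : ℕ}

open scoped Classical in
/-- number of `q`-subsets containing `k` -/
noncomputable def thru (q d : ℕ) (k : Fin d) : ℕ :=
  (univ.filter fun f : Fin q ↪o Fin d => k ∈ Set.range f).card

lemma image_card (f : Fin q ↪o Fin d) : (univ.map f.toEmbedding).card = q := by
  rw [card_map, card_univ, Fintype.card_fin]

/-- the order embedding onto the image of `f` by a permutation -/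
def permEmb (τ : Equiv.Perm (Fin d)) (f : Fin q ↪o Fin d) : Fin q ↪o Fin d :=
  ((univ.map f.toEmbedding).map τ.toEmbedding).orderEmbOfFin (by rw [card_map, image_card])

lemma range_permEmb (τ : Equiv.Perm (Fin d)) (f : Fin q ↪o Fin d) (k : Fin d) :
    τ k ∈ Set.range (permEmb τ f) ↔ k ∈ Set.range f := by
  rw [permEmb, range_orderEmbOfFin]
  simp

lemma emb_ext_range (f g : Fin q ↪o Fin d) (h : ∀ k, k ∈ Set.range f ↔ k ∈ Set.range g) :
    f = g := by
  have h1 := orderEmbOfFin_unique' (s := univ.map f.toEmbedding) (image_card f) (f := f)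
    (by intro x; simp)
  have h2 := orderEmbOfFin_unique' (s := univ.map f.toEmbedding) (image_card f) (f := g)
    (by
      intro x
      have := (h (g x)).mpr ⟨x, rfl⟩
      simpa using this)
  rw [h1, h2]

lemma permEmb_permEmb (τ : Equiv.Perm (Fin d)) (f : Fin q ↪o Fin d) :
    permEmb τ.symm (permEmb τ f) = f := by
  apply emb_ext_range
  intro k
  have h1 := range_permEmb τ.symm (permEmb τ f) (τ k)
  rw [Equiv.symm_apply_apply] at h1
  rw [h1, range_permEmb]

lemma thru_eq (k k' : Fin d) : thru q d k = thru q d k' := by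
  classical
  unfold thru
  set τ := Equiv.swap k k' with hτ
  apply card_bij' (fun f _ => permEmb τ f) (fun f _ => permEmb τ.symm f)
  · intro f hf
    rw [mem_filter] at hf ⊢
    refine ⟨mem_univ _, ?_⟩
    have := (range_permEmb τ f k).mpr hf.2
    rwa [hτ, Equiv.swap_apply_left] at this
  · intro f hf
    rw [mem_filter] at hf ⊢
    refine ⟨mem_univ _, ?_⟩
    have h2 := (range_permEmb τ.symm f k').mpr hf.2
    rwa [hτ, Equiv.symm_swap, Equiv.swap_apply_right, ← Equiv.symm_swap, ← hτ] at h2
  · intro f _
    exact permEmb_permEmb τ f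
  · intro f _
    have := permEmb_permEmb τ.symm f
    rwa [Equiv.symm_symm] at this

lemma sum_sum_emb (k₀ : Fin d) (μ : Fin d → ℝ) :
    ∑ f : Fin q ↪o Fin d, ∑ i, μ (f i) = thru q d k₀ * ∑ k, μ k := by
  classical
  have h1 : ∀ f : Fin q ↪o Fin d, ∑ i, μ (f i) = ∑ k, if k ∈ Set.range f then μ k else 0 := by
    intro f
    apply Fintype.sum_of_injective f f.injective
    · intro k hk
      rw [if_neg hk]
    · intro i
      rw [if_pos ⟨i, rfl⟩]
  simp only [h1]
  rw [sum_comm, mul_sum]
  apply sum_congr rfl
  intro k _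
  rw [← sum_filter, sum_const, nsmul_eq_mul, ← thru_eq k k₀]
  rfl

end Pool.Agent.DD7719.M
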