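import Pool.Agent.DD7719.Pivot

/-! Davenport's lemma. -/

namespace Pool.Agent.DD7719.M

open Module Matrix NumberField

variable {K : Type*} [Field K] [NumberField K] {N : ℕ}

lemma mulVec_eq_gmat (A : (K →+* ℂ) → Matrix (Fin N) (Fin N) ℂ) (y : Fin N → Fin N → 𝓞 K)
    (lam : Fin N → ℝ) (hlam : ∀ i, 0 < lam i) (σ : K →+* ℂ) (z : Fin N → 𝓞 K) (a : Fin N → K)
    (h : toK z = ∑ l, a l • toK (y l)) :
    (A σ).mulVec (fun k => σ (z k : K)) =
      (gmat A y lam σ).mulVec (fun l => (lam l : ℂ) * σ (a l)) := by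
  funext j
  have h1 : (fun k => σ (z k : K)) = fun k => ∑ l, σ (a l) * σ (y l k : K) := by
    funext k
    have := congrFun h k
    rw [show (z k : K) = toK z k from rfl, this]
    simp [toK]
  rw [h1]
  simp only [Matrix.mulVec, dotProduct, gmat, Matrix.of_apply]
  simp only [Finset.mul_sum]
  rw [Finset.sum_comm]
  apply Finset.sum_congr rfl
  intro l _
  have hl : (lam l : ℂ) ≠ 0 := by exact_mod_cast (hlam l).ne'
  rw [Finset.sum_div, Finset.sum_mul]
  apply Finset.sum_congr rfl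
  intro k _
  field_simp

lemma one_le_prod_coeff {c : ℝ} {A : (K →+* ℂ) → Matrix (Fin N) (Fin N) ℂ}
    {y : Fin N → Fin N → 𝓞 K} {lam : Fin N → ℝ} (hred : Reduced c A y lam)
    (z : Fin N → 𝓞 K) (a : Fin N → K) (h : toK z = ∑ l, a l • toK (y l)) (l : Fin N)
    (hl : a l ≠ 0) : 1 ≤ c * ∏ σ : K →+* ℂ, ‖σ (a l)‖ := by
  obtain ⟨Δ, hΔ0, hΔ, hint⟩ := hred.index
  let w : 𝓞 K := ⟨(Δ : K) * a l, hint z a h l⟩
  have hw : w ≠ 0 := by
    intro h0
    have h1 : (w : K) = 0 := by rw [h0]; simp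
    have h2 : (Δ : K) * a l = 0 := h1
    rcases mul_eq_zero.mp h2 with h3 | h3
    · exact hΔ0 (by exact_mod_cast h3)
    · exact hl h3
  have h1 := one_le_prod_embeddings w hw
  have h2 : ∏ σ : K →+* ℂ, ‖σ (w : K)‖ =
      (∏ σ : K →+* ℂ, ‖σ (Δ : K)‖) * ∏ σ : K →+* ℂ, ‖σ (a l)‖ := by
    rw [← Finset.prod_mul_distrib]
    apply Finset.prod_congr rfl
    intro σ _
    rw [← norm_mul, ← map_mul]
    rfl
  rw [h2] at h1
  refine h1.trans ?_
  exact mul_le_mul_of_nonneg_right hΔ (Finset.prod_nonneg fun σ _ => norm_nonneg _)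

/-- Upper bound for a coefficient, no weights. -/
lemma coeff_bound {c : ℝ} (hc : 1 ≤ c) {A : (K →+* ℂ) → Matrix (Fin N) (Fin N) ℂ}
    {y : Fin N → Fin N → 𝓞 K} {lam : Fin N → ℝ} (hred : Reduced c A y lam) (σ : K →+* ℂ)
    (z : Fin N → 𝓞 K) (a : Fin N → K) (h : toK z = ∑ l, a l • toK (y l)) (R : ℝ)
    (hR : ∀ j, ‖(A σ).mulVec (fun k => σ (z k : K)) j‖ ≤ R) (l : Fin N) :
    lam l * ‖σ (a l)‖ ≤ N * (N.factorial * c ^ N) * c * R := by
  have h1 := cramer_bound (gmat A y lam σ) c (1 / c) R hc (by positivity) (hred.upper σ)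
    (hred.lower σ) (fun l => (lam l : ℂ) * σ (a l)) (by
      intro j
      rw [← mulVec_eq_gmat A y lam hred.pos σ z a h]
      exact hR j) l
  rw [norm_mul, Complex.norm_real, Real.norm_of_nonneg (hred.pos l).le] at h1
  refine h1.trans (le_of_eq ?_)
  field_simp

/-- Upper bound for the top coefficient, using only the first forms. -/
lemma coeff_bound_lead {c : ℝ} (hc : 1 ≤ c) {A : (K →+* ℂ) → Matrix (Fin N) (Fin N) ℂ}
    {y : Fin N → Fin N → 𝓞 K} {lam : Fin N → ℝ} (hred : Reduced c A y lam) (σ : K →+* ℂ)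
    (π : Equiv.Perm (Fin N)) (δ : ℝ) (hδ : 0 < δ)
    (hπ : ∀ (j : ℕ) (h : j ≤ N), δ ≤ ‖((gmat A y lam σ).submatrix
      (fun i => π (Fin.castLE h i)) (Fin.castLE h)).det‖)
    (z : Fin N → 𝓞 K) (a : Fin N → K) (h : toK z = ∑ l, a l • toK (y l)) (l : Fin N)
    (hl : ∀ k, l < k → a k = 0) (R : ℝ)
    (hR : ∀ j ≤ l, ‖(A σ).mulVec (fun k => σ (z k : K)) (π j)‖ ≤ R) :
    lam l * ‖σ (a l)‖ ≤ N * (N.factorial * c ^ N) / δ * R := by
  have hl1 : (l : ℕ) + 1 ≤ N := l.2
  have hR0 : 0 ≤ R := (norm_nonneg _).trans (hR l le_rfl)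
  set M := (gmat A y lam σ).submatrix (fun i => π (Fin.castLE hl1 i)) (Fin.castLE hl1) with hM
  have h1 := cramer_bound M c δ R hc hδ (fun i j => hred.upper σ _ _) (hπ _ hl1)
    (fun k => (lam (Fin.castLE hl1 k) : ℂ) * σ (a (Fin.castLE hl1 k))) (by
      intro j
      have hj : Fin.castLE hl1 j ≤ l := by
        rw [Fin.le_def]
        simp only [Fin.val_castLE]
        omega
      have h2 := hR _ hj
      rw [mulVec_eq_gmat A y lam hred.pos σ z a h] at h2
      convert h2 using 2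
      simp only [Matrix.mulVec, dotProduct, hM, Matrix.submatrix_apply]
      have h3 : ∀ f : Fin N → ℂ, (∀ k, l < k → f k = 0) →
          ∑ k, f k = ∑ k : Fin ((l : ℕ) + 1), f (Fin.castLE hl1 k) := by
        intro f hf
        have e1 : ∑ k, f k = ∑ k ∈ Finset.univ.image (Fin.castLE hl1), f k := by
          symm
          apply Finset.sum_subset (Finset.subset_univ _)
          intro k _ hk
          apply hf
          by_contra hkl
          apply hk
          rw [Finset.mem_image]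
          exact ⟨⟨k, by rw [not_lt, Fin.le_def] at hkl; omega⟩, Finset.mem_univ _, rfl⟩
        rw [e1, Finset.sum_image]
        intro x _ y _ hxy
        exact Fin.castLE_injective hl1 hxy
      rw [h3]
      intro k hk
      rw [hl k hk, map_zero, mul_zero, mul_zero]) ⟨l, Nat.lt_succ_self _⟩
  have e2 : Fin.castLE hl1 ⟨l, Nat.lt_succ_self _⟩ = l := rfl
  rw [e2, norm_mul, Complex.norm_real, Real.norm_of_nonneg (hred.pos l).le] at h1
  refine h1.trans ?_
  apply mul_le_mul_of_nonneg_right _ hR0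
  apply div_le_div_of_nonneg_right _ hδ.le
  have h4 : (((l : ℕ) + 1 : ℕ) : ℝ) ≤ N := by exact_mod_cast hl1
  have h5 : ((((l : ℕ) + 1).factorial : ℕ) : ℝ) ≤ N.factorial := by
    exact_mod_cast Nat.factorial_le hl1
  have h6 : c ^ ((l : ℕ) + 1) ≤ c ^ N := pow_le_pow_right₀ hc hl1
  have h7 : (0 : ℝ) ≤ c ^ ((l : ℕ) + 1) := by positivity
  gcongr

lemma sq_rpow_half (x : ℝ) (hx : 0 < x) (D : ℕ) : (x ^ ((D : ℝ) / 2)) ^ 2 = x ^ D := by
  rw [← Real.rpow_natCast (x ^ ((D : ℝ) / 2)) 2, ← Real.rpow_mul hx.le]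
  rw [← Real.rpow_natCast x D]
  congr 1
  push_cast
  ring

lemma gmat_upper {c : ℝ} {A : (K →+* ℂ) → Matrix (Fin N) (Fin N) ℂ}
    {y : Fin N → Fin N → 𝓞 K} {lam : Fin N → ℝ} (hred : Reduced c A y lam)
    (σ : K →+* ℂ) (i j : Fin N) :
    ‖(A σ).mulVec (fun k => σ (y i k : K)) j‖ ≤ c * lam i := by
  have h := hred.upper σ j i
  simp only [gmat, Matrix.of_apply, norm_div, Complex.norm_real,
    Real.norm_of_nonneg (hred.pos i).le] at h
  rwa [div_le_iff₀ (hred.pos i)] at h

lemma exists_coords {y : Fin N → Fin N → 𝓞 K} (hli : LinearIndependent K (fun i => toK (y i)))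
    (z : Fin N → 𝓞 K) : ∃ a : Fin N → K, toK z = ∑ l, a l • toK (y l) := by
  have htop : Submodule.span K (Set.range fun i => toK (y i)) = ⊤ := by
    apply hli.span_eq_top_of_card_eq_finrank'
    simp
  have : toK z ∈ Submodule.span K (Set.range fun i => toK (y i)) := by rw [htop]; trivial
  obtain ⟨a, ha⟩ := (Submodule.mem_span_range_iff_exists_fun K).mp this
  exact ⟨a, ha.symm⟩

lemma exists_top (a : Fin N → K) (ha : a ≠ 0) : ∃ l, a l ≠ 0 ∧ ∀ k, l < k → a k = 0 := by
  classical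
  have hne : (Finset.univ.filter fun l => a l ≠ 0).Nonempty := by
    obtain ⟨l, hl⟩ := Function.ne_iff.mp ha
    exact ⟨l, by simpa using hl⟩
  refine ⟨(Finset.univ.filter fun l => a l ≠ 0).max' hne, ?_, ?_⟩
  · have := Finset.max'_mem _ hne
    simpa using this
  · intro k hk
    by_contra h
    have := Finset.le_max' (Finset.univ.filter fun l => a l ≠ 0) k (by simpa using h)
    exact absurd hk (not_lt.mpr this)

section

variable (φ : K →+* ℂ) (ρ : Fin N → ℝ) (π : Equiv.Perm (Fin N))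

open scoped Classical in
/-- the modified family of forms -/
noncomputable def modif (A : (K →+* ℂ) → Matrix (Fin N) (Fin N) ℂ) (σ : K →+* ℂ) :
    Matrix (Fin N) (Fin N) ℂ :=
  if σ = φ ∨ σ = ComplexEmbedding.conjugate φ then
    Matrix.diagonal (fun i => (ρ (π.symm i) : ℂ)) * A σ else A σ

lemma modif_conj (A : (K →+* ℂ) → Matrix (Fin N) (Fin N) ℂ)
    (hconj : ∀ σ j i, (starRingEnd ℂ) (A σ j i) = A (ComplexEmbedding.conjugate σ) j i)
    (σ : K →+* ℂ) (j i : Fin N) : (starRingEnd ℂ) (modif φ ρ π A σ j i) =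
      modif φ ρ π A (ComplexEmbedding.conjugate σ) j i := by
  have hinv : ∀ τ : K →+* ℂ, ComplexEmbedding.conjugate (ComplexEmbedding.conjugate τ) = τ :=
    fun τ => star_star τ
  by_cases h : σ = φ ∨ σ = ComplexEmbedding.conjugate φ
  · have h' : ComplexEmbedding.conjugate σ = φ ∨
        ComplexEmbedding.conjugate σ = ComplexEmbedding.conjugate φ := by
      rcases h with h | h
      · right; rw [h]
      · left; rw [h, hinv]
    rw [modif, modif, if_pos h, if_pos h', Matrix.diagonal_mul, Matrix.diagonal_mul, map_mul, hconj]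
    simp
  · have h' : ¬ (ComplexEmbedding.conjugate σ = φ ∨
        ComplexEmbedding.conjugate σ = ComplexEmbedding.conjugate φ) := by
      intro h'
      apply h
      rcases h' with h' | h'
      · right; rw [← h', hinv]
      · left; rw [← hinv σ, h', hinv]
    rw [modif, modif, if_neg h, if_neg h', hconj]

open scoped Classical in
lemma norm_det_modif (A : (K →+* ℂ) → Matrix (Fin N) (Fin N) ℂ) (hρ : ∀ i, 0 < ρ i)
    (σ : K →+* ℂ) : ‖(modif φ ρ π A σ).det‖ =
      (if σ = φ ∨ σ = ComplexEmbedding.conjugate φ then ∏ i, ρ i else 1) * ‖(A σ).det‖ := by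
  rw [modif]
  split_ifs with h
  · rw [Matrix.det_mul, Matrix.det_diagonal, norm_mul, norm_prod]
    congr 1
    rw [← Equiv.prod_comp π.symm (fun i => ρ i)]
    apply Finset.prod_congr rfl
    intro i _
    rw [Complex.norm_real, Real.norm_of_nonneg (hρ _).le]
  · rw [one_mul]

lemma modif_mulVec (A : (K →+* ℂ) → Matrix (Fin N) (Fin N) ℂ) (hρ : ∀ i, 0 < ρ i)
    (σ : K →+* ℂ) (h : σ = φ ∨ σ = ComplexEmbedding.conjugate φ) (x : Fin N → ℂ) (j : Fin N) :
    ‖(modif φ ρ π A σ).mulVec x (π j)‖ = ρ j * ‖(A σ).mulVec x (π j)‖ := by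
  rw [modif, if_pos h, ← Matrix.mulVec_mulVec, Matrix.mulVec_diagonal, norm_mul, Complex.norm_real,
    Equiv.symm_apply_apply, Real.norm_of_nonneg (hρ _).le]

lemma modif_of_ne (A : (K →+* ℂ) → Matrix (Fin N) (Fin N) ℂ)
    (σ : K →+* ℂ) (h1 : σ ≠ φ) (h2 : σ ≠ ComplexEmbedding.conjugate φ) :
    modif φ ρ π A σ = A σ := by
  rw [modif, if_neg]
  rintro (h | h)
  · exact h1 h
  · exact h2 h

end

open scoped Classical in
lemma prod_ite_conj (φ : K →+* ℂ) (hφ : ComplexEmbedding.conjugate φ ≠ φ) (x : ℝ) :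
    ∏ σ : K →+* ℂ, (if σ = φ ∨ σ = ComplexEmbedding.conjugate φ then x else 1) = x ^ 2 := by
  rw [Finset.prod_ite, Finset.prod_const_one, mul_one, Finset.prod_const]
  congr 1
  have : (Finset.univ.filter fun σ : K →+* ℂ => σ = φ ∨ σ = ComplexEmbedding.conjugate φ) =
      {φ, ComplexEmbedding.conjugate φ} := by
    ext σ
    simp
  rw [this, Finset.card_pair (Ne.symm hφ)]

/-- lower bound for the modified norm. -/
lemma modif_lower {c : ℝ} (hc : 1 ≤ c) {A : (K →+* ℂ) → Matrix (Fin N) (Fin N) ℂ}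
    {y : Fin N → Fin N → 𝓞 K} {lam : Fin N → ℝ} (hred : Reduced c A y lam)
    (hmono : Monotone lam) (φ : K →+* ℂ)
    (hφ : ComplexEmbedding.conjugate φ ≠ φ) (π : Equiv.Perm (Fin N)) (δ : ℝ) (hδ : 0 < δ)
    (hδ1 : δ ≤ 1 / c)
    (hπ : ∀ (j : ℕ) (h : j ≤ N), δ ≤ ‖((gmat A y lam φ).submatrix
      (fun i => π (Fin.castLE h i)) (Fin.castLE h)).det‖) (β : ℝ) (hβ : 0 < β)
    (z : Fin N → 𝓞 K) (a : Fin N → K) (h : toK z = ∑ l, a l • toK (y l)) (l : Fin N)
    (hal : a l ≠ 0) (hl : ∀ k, l < k → a k = 0) (R : ℝ)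
    (hR : ∀ σ j, ‖(modif φ (fun j => (β / min (lam j) β) ^ ((Fintype.card (K →+* ℂ) : ℝ) / 2)) π
      A σ).mulVec (fun k => σ (z k : K)) j‖ ≤ R) :
    max (lam l) β ≤ c * (N * (N.factorial * c ^ N) / δ) * R := by
  classical
  set D := Fintype.card (K →+* ℂ) with hD
  have hDpos : 0 < D := Fintype.card_pos_iff.mpr ⟨φ⟩
  set ρ : Fin N → ℝ := fun j => (β / min (lam j) β) ^ ((D : ℝ) / 2) with hρdef
  have hmin : ∀ j, 0 < min (lam j) β := fun j => lt_min (hred.pos j) hβ
  have hρ : ∀ j, 0 < ρ j := fun j => Real.rpow_pos_of_pos (div_pos hβ (hmin j)) _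
  set B : ℝ := N * (N.factorial * c ^ N) / δ with hB
  have hNpos : 0 < N := by
    rcases Nat.eq_zero_or_pos N with h0 | h0
    · subst h0; exact l.elim0
    · exact h0
  have hfac : (0 : ℝ) < N.factorial := by exact_mod_cast N.factorial_pos
  have hNr : (0 : ℝ) < N := by exact_mod_cast hNpos
  have hBpos : 0 < B := by positivity
  have hB0 : N * (N.factorial * c ^ N) * c ≤ B := by
    rw [hB, le_div_iff₀ hδ]
    have h1 : c * δ ≤ 1 := by
      rw [le_div_iff₀ (by linarith)] at hδ1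
      linarith
    calc N * (N.factorial * c ^ N) * c * δ = N * (N.factorial * c ^ N) * (c * δ) := by ring
      _ ≤ N * (N.factorial * c ^ N) * 1 := by
          apply mul_le_mul_of_nonneg_left h1
          positivity
      _ = _ := by ring
  have hR0 : 0 ≤ R := (norm_nonneg _).trans (hR φ l)
  have hρle : ∀ j ≤ l, ρ l ≤ ρ j := by
    intro j hj
    apply Real.rpow_le_rpow
    · exact (div_pos hβ (hmin l)).le
    · apply div_le_div_of_nonneg_left hβ.le (hmin j)
      exact min_le_min_right _ (hmono hj)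
    · positivity
  have hphi : lam l * ‖φ (a l)‖ ≤ B * (R / ρ l) := by
    apply coeff_bound_lead hc hred φ π δ hδ hπ z a h l hl
    intro j hj
    rw [le_div_iff₀ (hρ l)]
    have h1 := hR φ (π j)
    rw [modif_mulVec φ ρ π A hρ φ (Or.inl rfl)] at h1
    have h2 := hρle j hj
    have h3 := norm_nonneg ((A φ).mulVec (fun k => φ (z k : K)) (π j))
    nlinarith
  have hconjnorm : ∀ x : K, ‖(ComplexEmbedding.conjugate φ) x‖ = ‖φ x‖ := by
    intro x
    rw [ComplexEmbedding.conjugate_coe_eq]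
    exact RCLike.norm_conj _
  have hall : ∀ σ : K →+* ℂ, lam l * ‖σ (a l)‖ ≤
      (B * R) / (if σ = φ ∨ σ = ComplexEmbedding.conjugate φ then ρ l else 1) := by
    intro σ
    split_ifs with hσ
    · have h1 : ‖σ (a l)‖ = ‖φ (a l)‖ := by
        rcases hσ with h | h
        · rw [h]
        · rw [h, hconjnorm]
      rw [h1, mul_div_assoc]
      exact hphi
    · push Not at hσ
      rw [div_one]
      refine (coeff_bound hc hred σ z a h R ?_ l).trans ?_
      · intro j
        have := hR σ j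
        rwa [modif_of_ne φ ρ π A σ hσ.1 hσ.2] at this
      · exact mul_le_mul_of_nonneg_right hB0 hR0
  have hprod : ∏ σ : K →+* ℂ, (lam l * ‖σ (a l)‖) ≤ ∏ σ : K →+* ℂ, (B * R) /
      (if σ = φ ∨ σ = ComplexEmbedding.conjugate φ then ρ l else 1) :=
    Finset.prod_le_prod (fun σ _ => mul_nonneg (hred.pos l).le (norm_nonneg _)) (fun σ _ => hall σ)
  rw [Finset.prod_mul_distrib, Finset.prod_div_distrib, prod_ite_conj φ hφ, Finset.prod_const,
    Finset.prod_const, Finset.card_univ, ← hD] at hprod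
  have h1 := one_le_prod_coeff hred z a h l hal
  have hc0 : 0 < c := by linarith
  have h2 : lam l ^ D * (ρ l) ^ 2 ≤ c * (B * R) ^ D := by
    rw [le_div_iff₀ (by have := hρ l; positivity)] at hprod
    have h3 : 0 ≤ lam l ^ D * ρ l ^ 2 := by
      have := hρ l
      have := hred.pos l
      positivity
    calc lam l ^ D * (ρ l) ^ 2 = lam l ^ D * ρ l ^ 2 * 1 := by ring
      _ ≤ lam l ^ D * ρ l ^ 2 * (c * ∏ σ : K →+* ℂ, ‖σ (a l)‖) :=
          mul_le_mul_of_nonneg_left h1 h3
      _ = c * (lam l ^ D * (∏ σ : K →+* ℂ, ‖σ (a l)‖) * ρ l ^ 2) := by ring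
      _ ≤ c * (B * R) ^ D := by
          apply mul_le_mul_of_nonneg_left hprod hc0.le
  rw [hρdef] at h2
  simp only at h2
  rw [sq_rpow_half _ (div_pos hβ (hmin l)), ← mul_pow] at h2
  have h3 : lam l * (β / min (lam l) β) = max (lam l) β := by
    rw [mul_div_assoc', div_eq_iff (hmin l).ne', mul_comm (max _ _), min_mul_max]
  rw [h3] at h2
  have h4 : c * (B * R) ^ D ≤ (c * (B * R)) ^ D := by
    rw [mul_pow c (B * R) D]
    apply mul_le_mul_of_nonneg_right _ (by positivity)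
    exact le_self_pow₀ hc hDpos.ne'
  have h5 := h2.trans h4
  have h6 := (pow_le_pow_iff_left₀ (le_max_of_le_right hβ.le) (by positivity) hDpos.ne').mp h5
  linarith

/-- Davenport's lemma (modified successive minima), at the place `φ`. -/
theorem davenport (K : Type*) [Field K] [NumberField K] (φ : K →+* ℂ)
    (hφ : ComplexEmbedding.conjugate φ ≠ φ) (n : ℕ) (b : Fin (n + 1)) (hb : (b : ℕ) + 1 = n)
    (c : ℝ) (hc : 1 ≤ c) : ∃ C : ℝ, 1 ≤ C ∧
    ∀ (A : (K →+* ℂ) → Matrix (Fin (n + 1)) (Fin (n + 1)) ℂ)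
      (_ : ∀ σ j i, (starRingEnd ℂ) (A σ j i) = A (ComplexEmbedding.conjugate σ) j i)
      (_ : ∀ σ, (A σ).det ≠ 0) (y : Fin (n + 1) → Fin (n + 1) → 𝓞 K) (lam : Fin (n + 1) → ℝ)
      (_ : Monotone lam) (_ : LinearIndependent K (fun i => toK (y i))) (_ : Reduced c A y lam)
      (_ : C * lam b < lam (Fin.last n)),
      ∃ (π : Equiv.Perm (Fin (n + 1))) (y' : Fin n → Fin (n + 1) → 𝓞 K),
        LinearIndependent K (fun i => toK (y' i)) ∧
        (∀ i, toK (y' i) ∈ Submodule.span K (Set.range fun l : Fin n => toK (y l.castSucc))) ∧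
        (∀ σ, σ ≠ φ → σ ≠ ComplexEmbedding.conjugate φ → ∀ i j,
          ‖(A σ).mulVec (fun k => σ (y' i k : K)) j‖ ≤ C * lam b) ∧
        (∀ i j, ‖(A φ).mulVec (fun k => φ (y' i k : K)) (π j)‖ ≤
          C * lam b * (min (lam j) (lam b) / lam b) ^ ((Fintype.card (K →+* ℂ) : ℝ) / 2)) := by
  classical
  obtain ⟨C0, hC0, hred0⟩ := exists_reduced K (n + 1)
  set D := Fintype.card (K →+* ℂ) with hD
  have hDpos : 0 < D := Fintype.card_pos_iff.mpr ⟨φ⟩
  have hc0 : 0 < c := by linarith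
  have hfac : (0 : ℝ) < (n + 1).factorial := by exact_mod_cast (n + 1).factorial_pos
  have hfac1 : (1 : ℝ) ≤ (n + 1).factorial := by exact_mod_cast (n + 1).factorial_pos
  have hcp : (1 : ℝ) ≤ c ^ (n + 1) := one_le_pow₀ hc
  set δ : ℝ := (1 / c) / ((n + 1).factorial * c ^ (n + 1)) with hδdef
  have hδ : 0 < δ := by positivity
  have hδ1 : δ ≤ 1 / c := by
    apply div_le_self (by positivity)
    nlinarith
  set c₂ : ℝ := c * (((n + 1 : ℕ) : ℝ) * ((n + 1).factorial * c ^ (n + 1)) / δ) with hc2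
  have hc2pos : 0 < c₂ := by positivity
  set c₃ : ℝ := 1 / (c₂ * C0) with hc3
  have hc3pos : 0 < c₃ := by positivity
  set C₄ : ℝ := C0 * ((n + 1).factorial * c ^ (n + 1)) with hC4
  have hC4pos : 0 < C₄ := by positivity
  refine ⟨1 + C₄ / c₃ ^ (n + 1) + C0 * (C₄ / c₃ ^ n), ?_, ?_⟩
  · have : 0 ≤ C₄ / c₃ ^ (n + 1) + C0 * (C₄ / c₃ ^ n) := by positivity
    linarith
  intro A hconj hdet y lam hmono hli hred hgap
  set β := lam b with hβdef
  set L := lam (Fin.last n) with hL
  have hβ : 0 < β := hred.pos b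
  have hLpos : 0 < L := hred.pos _
  have hβL : β ≤ L := hmono (Fin.le_last b)
  obtain ⟨π, hπ⟩ := exists_pivot c hc (n + 1) (gmat A y lam φ) (hred.upper φ) (1 / c)
    (by positivity) (hred.lower φ)
  have hmin1 : min (1 / c) 1 = 1 / c := min_eq_left (by rw [div_le_one hc0]; exact hc)
  rw [hmin1] at hπ
  set ρ : Fin (n + 1) → ℝ := fun j => (β / min (lam j) β) ^ ((D : ℝ) / 2) with hρdef
  have hmin : ∀ j, 0 < min (lam j) β := fun j => lt_min (hred.pos j) hβ
  have hρ : ∀ j, 0 < ρ j := fun j => Real.rpow_pos_of_pos (div_pos hβ (hmin j)) _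
  have hdet' : ∀ σ, (modif φ ρ π A σ).det ≠ 0 := by
    intro σ
    rw [← norm_pos_iff, norm_det_modif φ ρ π A hρ]
    apply mul_pos _ (norm_pos_iff.mpr (hdet σ))
    split_ifs
    · exact Finset.prod_pos fun i _ => hρ i
    · exact one_pos
  obtain ⟨y₂, lam₂, hmono₂, hli₂, hred₂, hprod₂⟩ := hred0 (modif φ ρ π A)
    (modif_conj φ ρ π A hconj) hdet'
  -- lower bounds for the new minima
  have hlow : ∀ i, c₃ * β ≤ lam₂ i ∧
      (toK (y₂ i) ∉ Submodule.span K (Set.range fun l : Fin n => toK (y l.castSucc)) →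
        c₃ * L ≤ lam₂ i) := by
    intro i
    obtain ⟨a, ha⟩ := exists_coords hli (y₂ i)
    have ha0 : a ≠ 0 := by
      rintro rfl
      apply hli₂.ne_zero i
      simpa using ha
    obtain ⟨l, hal, hl⟩ := exists_top a ha0
    have h1 := modif_lower hc hred hmono φ hφ π δ hδ hδ1 hπ β hβ (y₂ i) a ha l hal hl
      (C0 * lam₂ i) (fun σ j => gmat_upper hred₂ σ i j)
    have h2 : c₃ * max (lam l) β ≤ lam₂ i := by
      rw [hc3, div_mul_eq_mul_div, one_mul, div_le_iff₀ (by positivity)]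
      calc max (lam l) β ≤ c * (((n + 1 : ℕ) : ℝ) * ((n + 1).factorial * c ^ (n + 1)) / δ) *
            (C0 * lam₂ i) := h1
        _ = lam₂ i * (c₂ * C0) := by rw [hc2]; ring
    refine ⟨(mul_le_mul_of_nonneg_left (le_max_right _ _) hc3pos.le).trans h2, fun hS => ?_⟩
    have hlast : l = Fin.last n := by
      by_contra hne
      apply hS
      rw [ha]
      apply Submodule.sum_mem
      intro k _
      by_cases hk : k = Fin.last n
      · have : a k = 0 := hl k (by rw [hk]; exact lt_of_le_of_ne (Fin.le_last l) hne)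
        rw [this, zero_smul]
        exact Submodule.zero_mem _
      · apply Submodule.smul_mem
        apply Submodule.subset_span
        obtain ⟨k', rfl⟩ := Fin.exists_castSucc_eq.mpr hk
        exact ⟨k', rfl⟩
    rw [hlast] at h2
    exact (mul_le_mul_of_nonneg_left (le_max_left _ _) hc3pos.le).trans h2
  -- upper bound for the product
  have hprodA : ∏ σ : K →+* ℂ, ‖(A σ).det‖ ≤
      (((n + 1).factorial : ℝ) * c ^ (n + 1)) ^ D * (∏ i, lam i) ^ D := by
    have hYdet : (Matrix.of y).det ≠ 0 := by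
      intro h
      have h1 : ((Matrix.of y).map (algebraMap (𝓞 K) K)).det = 0 := by
        rw [← RingHom.mapMatrix_apply, ← RingHom.map_det, h, map_zero]
      have h2 : LinearIndependent K (fun i => ((Matrix.of y).map (algebraMap (𝓞 K) K)).row i) := hli
      rw [Matrix.linearIndependent_rows_iff_isUnit, Matrix.isUnit_iff_isUnit_det, h1] at h2
      simp at h2
    have hN := one_le_prod_embeddings _ hYdet
    have hlamprod : 0 < ∏ i, lam i := Finset.prod_pos fun i _ => hred.pos i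
    have h1 : ∀ σ : K →+* ℂ, ‖(A σ).det‖ * ‖σ ((Matrix.of y).det : K)‖ ≤
        (((n + 1).factorial : ℝ) * c ^ (n + 1)) * ∏ i, lam i := by
      intro σ
      have h2 := norm_det_le (gmat A y lam σ) c (hred.upper σ)
      rw [norm_det_gmat A y lam hred.pos, div_le_iff₀ hlamprod] at h2
      exact h2
    have h2 : ∏ σ : K →+* ℂ, (‖(A σ).det‖ * ‖σ ((Matrix.of y).det : K)‖) ≤
        ∏ _σ : K →+* ℂ, ((((n + 1).factorial : ℝ) * c ^ (n + 1)) * ∏ i, lam i) :=
      Finset.prod_le_prod (fun σ _ => by positivity) (fun σ _ => h1 σ)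
    rw [Finset.prod_mul_distrib, Finset.prod_const, Finset.card_univ, ← hD, mul_pow] at h2
    refine le_trans ?_ h2
    have h3 : 0 ≤ ∏ σ : K →+* ℂ, ‖(A σ).det‖ := Finset.prod_nonneg fun σ _ => norm_nonneg _
    nlinarith
  have hmaxprod : ∏ j, max (lam j) β = β ^ n * L := by
    rw [Fin.prod_univ_castSucc]
    congr 1
    · rw [Finset.prod_congr rfl (fun j _ => ?_), Finset.prod_const, Finset.card_univ,
        Fintype.card_fin]
      apply max_eq_right
      apply hmono
      rw [Fin.le_def, Fin.val_castSucc]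
      have := j.2
      omega
    · exact max_eq_left hβL
  have hprodlam₂ : ∏ i, lam₂ i ≤ C₄ * (β ^ n * L) := by
    have h1 : ∏ σ : K →+* ℂ, ‖(modif φ ρ π A σ).det‖ =
        (∏ i, ρ i) ^ 2 * ∏ σ : K →+* ℂ, ‖(A σ).det‖ := by
      rw [← prod_ite_conj φ hφ, ← Finset.prod_mul_distrib]
      exact Finset.prod_congr rfl fun σ _ => norm_det_modif φ ρ π A hρ σ
    rw [h1] at hprod₂
    have h2 : (∏ i, ρ i) ^ 2 * (∏ i, lam i) ^ D = (∏ j, max (lam j) β) ^ D := by
      rw [← Finset.prod_pow, ← Finset.prod_pow, ← Finset.prod_pow, ← Finset.prod_mul_distrib]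
      apply Finset.prod_congr rfl
      intro i _
      rw [hρdef]
      simp only
      rw [sq_rpow_half _ (div_pos hβ (hmin i)), ← mul_pow]
      congr 1
      rw [div_mul_eq_mul_div, div_eq_iff (hmin i).ne', mul_comm (max _ _), min_mul_max]
      ring
    have h3 : (∏ i, lam₂ i) ^ D ≤ (C₄ * (β ^ n * L)) ^ D := by
      calc (∏ i, lam₂ i) ^ D ≤ C0 * ((∏ i, ρ i) ^ 2 * ∏ σ : K →+* ℂ, ‖(A σ).det‖) := hprod₂
        _ ≤ C0 * ((∏ i, ρ i) ^ 2 *
            ((((n + 1).factorial : ℝ) * c ^ (n + 1)) ^ D * (∏ i, lam i) ^ D)) := by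
            gcongr
        _ = C0 * ((((n + 1).factorial : ℝ) * c ^ (n + 1)) ^ D *
            ((∏ i, ρ i) ^ 2 * (∏ i, lam i) ^ D)) := by ring
        _ = C0 * ((((n + 1).factorial : ℝ) * c ^ (n + 1)) ^ D * (β ^ n * L) ^ D) := by
            rw [h2, hmaxprod]
        _ ≤ C0 ^ D * ((((n + 1).factorial : ℝ) * c ^ (n + 1)) ^ D * (β ^ n * L) ^ D) := by
            apply mul_le_mul_of_nonneg_right (le_self_pow₀ hC0 hDpos.ne')
            positivity
        _ = (C₄ * (β ^ n * L)) ^ D := by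
            rw [hC4]
            ring
    exact (pow_le_pow_iff_left₀ (Finset.prod_nonneg fun i _ => (hred₂.pos i).le)
      (by positivity) hDpos.ne').mp h3
  -- lower bound for the product
  have hlowprod : ∀ i : Fin n, (c₃ * β) ^ (n - 1) * lam₂ i.castSucc * lam₂ (Fin.last n) ≤
      ∏ i, lam₂ i := by
    intro i
    rw [Fin.prod_univ_castSucc]
    apply mul_le_mul_of_nonneg_right _ (hred₂.pos _).le
    rw [← Finset.mul_prod_erase Finset.univ _ (Finset.mem_univ i), mul_comm]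
    apply mul_le_mul_of_nonneg_left _ (hred₂.pos _).le
    calc (c₃ * β) ^ (n - 1) = ∏ _j ∈ Finset.univ.erase i, (c₃ * β) := by
          rw [Finset.prod_const, Finset.card_erase_of_mem (Finset.mem_univ i), Finset.card_univ,
            Fintype.card_fin]
      _ ≤ _ := Finset.prod_le_prod (fun _ _ => by positivity) (fun j _ => (hlow _).1)
  have hnn : n - 1 + 1 = n := by omega
  have hS : ∀ i : Fin n, toK (y₂ i.castSucc) ∈
      Submodule.span K (Set.range fun l : Fin n => toK (y l.castSucc)) := by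
    intro i
    by_contra hnot
    have h1 := (hlow i.castSucc).2 hnot
    have h2 : c₃ * L ≤ lam₂ (Fin.last n) := h1.trans (hmono₂ (Fin.le_last _))
    have h3 := (hlowprod i).trans hprodlam₂
    have h4 : (c₃ * β) ^ (n - 1) * (c₃ * L) * (c₃ * L) ≤ C₄ * (β ^ n * L) := by
      refine le_trans ?_ h3
      have h8 := (hred₂.pos i.castSucc).le
      apply mul_le_mul _ h2 (by positivity) (by positivity)
      exact mul_le_mul_of_nonneg_left h1 (by positivity)
    have h5 : c₃ ^ (n + 1) * L ≤ C₄ * β := by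
      have e1 : (c₃ * β) ^ (n - 1) * (c₃ * L) * (c₃ * L) = (β ^ (n - 1) * L) * (c₃ ^ (n + 1) * L) := by
        have : c₃ ^ (n + 1) = c₃ ^ (n - 1) * c₃ * c₃ := by
          rw [← pow_succ, ← pow_succ, hnn]
        rw [this, mul_pow]
        ring
      have e2 : C₄ * (β ^ n * L) = (β ^ (n - 1) * L) * (C₄ * β) := by
        have : β ^ n = β ^ (n - 1) * β := by rw [← pow_succ, hnn]
        rw [this]
        ring
      rw [e1, e2] at h4
      exact le_of_mul_le_mul_left h4 (by positivity)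
    have h6 : L ≤ C₄ / c₃ ^ (n + 1) * β := by
      rw [div_mul_eq_mul_div, le_div_iff₀ (by positivity)]
      linarith
    have h7 : 0 ≤ C0 * (C₄ / c₃ ^ n) * β := by positivity
    nlinarith
  have hlast : c₃ * L ≤ lam₂ (Fin.last n) := by
    apply (hlow _).2
    intro hmem
    have htop : Submodule.span K (Set.range fun i => toK (y₂ i)) = ⊤ := by
      apply hli₂.span_eq_top_of_card_eq_finrank'
      simp
    have hle : Submodule.span K (Set.range fun i => toK (y₂ i)) ≤
        Submodule.span K (Set.range fun l : Fin n => toK (y l.castSucc)) := by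
      rw [Submodule.span_le]
      rintro _ ⟨i, rfl⟩
      rcases Fin.eq_castSucc_or_eq_last i with ⟨j, rfl⟩ | rfl
      · exact hS j
      · exact hmem
    rw [htop, top_le_iff] at hle
    have h1 := finrank_range_le_card (R := K) (fun l : Fin n => toK (y l.castSucc))
    rw [Set.finrank, hle, finrank_top] at h1
    simp at h1
  have hbound : ∀ i : Fin n, lam₂ i.castSucc ≤ C₄ / c₃ ^ n * β := by
    intro i
    have h3 := (hlowprod i).trans hprodlam₂
    have h4 : (c₃ * β) ^ (n - 1) * lam₂ i.castSucc * (c₃ * L) ≤ C₄ * (β ^ n * L) := by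
      refine le_trans ?_ h3
      apply mul_le_mul_of_nonneg_left hlast
      have := hred₂.pos i.castSucc
      positivity
    have e1 : (c₃ * β) ^ (n - 1) * lam₂ i.castSucc * (c₃ * L) =
        (β ^ (n - 1) * L) * (c₃ ^ n * lam₂ i.castSucc) := by
      have : c₃ ^ n = c₃ ^ (n - 1) * c₃ := by rw [← pow_succ, hnn]
      rw [this, mul_pow]
      ring
    have e2 : C₄ * (β ^ n * L) = (β ^ (n - 1) * L) * (C₄ * β) := by
      have : β ^ n = β ^ (n - 1) * β := by rw [← pow_succ, hnn]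
      rw [this]
      ring
    rw [e1, e2] at h4
    have h5 := le_of_mul_le_mul_left h4 (by positivity)
    rw [div_mul_eq_mul_div, le_div_iff₀ (by positivity)]
    linarith
  have hfinal : ∀ i : Fin n, C0 * lam₂ i.castSucc ≤
      (1 + C₄ / c₃ ^ (n + 1) + C0 * (C₄ / c₃ ^ n)) * β := by
    intro i
    have h1 := mul_le_mul_of_nonneg_left (hbound i) (by linarith : (0 : ℝ) ≤ C0)
    have h2 : 0 ≤ (1 + C₄ / c₃ ^ (n + 1)) * β := by positivity
    linarith
  refine ⟨π, fun i => y₂ i.castSucc, hli₂.comp _ (Fin.castSucc_injective n), hS, ?_, ?_⟩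
  · intro σ h1 h2 i j
    have h3 := gmat_upper hred₂ σ i.castSucc j
    rw [modif_of_ne φ ρ π A σ h1 h2] at h3
    exact h3.trans (hfinal i)
  · intro i j
    have h3 := gmat_upper hred₂ φ i.castSucc (π j)
    rw [modif_mulVec φ ρ π A hρ φ (Or.inl rfl)] at h3
    have h4 := h3.trans (hfinal i)
    have h5 : (min (lam j) β / β) ^ ((D : ℝ) / 2) = (ρ j)⁻¹ := by
      rw [hρdef]
      simp only
      rw [← Real.inv_rpow (div_pos hβ (hmin j)).le, inv_div]
    rw [h5, ← div_eq_mul_inv, le_div_iff₀ (hρ j), mul_comm]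
    exact h4

end Pool.Agent.DD7719.M
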