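import Mathlib

/-! Dirichlet's simultaneous approximation theorem (pigeonhole). -/

namespace Pool.Agent.DD7719.M

theorem dirichlet_simult {k : ℕ} (v : Fin k → ℝ) (Q : ℕ) (hQ : 0 < Q) :
    ∃ m : ℕ, 0 < m ∧ m ≤ Q ^ k ∧ ∃ b : Fin k → ℤ, ∀ i, |m * v i - b i| ≤ 1 / Q := by
  classical
  have hQR : (0 : ℝ) < Q := by exact_mod_cast hQ
  -- the box of a point
  let f : ℕ → (Fin k → Fin Q) := fun m i =>
    ⟨⌊Int.fract ((m : ℝ) * v i) * Q⌋₊, by
      rw [Nat.floor_lt (by positivity)]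
      have := Int.fract_lt_one ((m : ℝ) * v i)
      nlinarith⟩
  have hcard : (Finset.univ : Finset (Fin k → Fin Q)).card < (Finset.range (Q ^ k + 1)).card := by
    rw [Finset.card_univ, Fintype.card_fun, Fintype.card_fin, Fintype.card_fin, Finset.card_range]
    omega
  obtain ⟨x, hx, y, hy, hxy, hf⟩ := Finset.exists_ne_map_eq_of_card_lt_of_maps_to hcard
    (f := f) (fun _ _ => Finset.mem_univ _)
  wlog hlt : x < y generalizing x y
  · exact this y hy x hx hxy.symm hf.symm (lt_of_le_of_ne (not_lt.mp hlt) hxy.symm)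
  rw [Finset.mem_range] at hx hy
  refine ⟨y - x, by omega, by omega, fun i => ⌊(y : ℝ) * v i⌋ - ⌊(x : ℝ) * v i⌋, fun i => ?_⟩
  have h1 := congrArg Fin.val (congrFun hf i)
  simp only [f] at h1
  have hfx := Int.fract_nonneg ((x : ℝ) * v i)
  have hfy := Int.fract_nonneg ((y : ℝ) * v i)
  have a1 := Nat.floor_le (by positivity : 0 ≤ Int.fract ((x : ℝ) * v i) * Q)
  have a2 := Nat.lt_floor_add_one (Int.fract ((x : ℝ) * v i) * Q)
  have b1 := Nat.floor_le (by positivity : 0 ≤ Int.fract ((y : ℝ) * v i) * Q)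
  have b2 := Nat.lt_floor_add_one (Int.fract ((y : ℝ) * v i) * Q)
  rw [h1] at a1 a2
  have h2 : ((y - x : ℕ) : ℝ) * v i - ((⌊(y : ℝ) * v i⌋ - ⌊(x : ℝ) * v i⌋ : ℤ) : ℝ) =
      Int.fract ((y : ℝ) * v i) - Int.fract ((x : ℝ) * v i) := by
    rw [Nat.cast_sub hlt.le]
    push_cast
    have e1 := Int.self_sub_floor ((y : ℝ) * v i)
    have e2 := Int.self_sub_floor ((x : ℝ) * v i)
    linarith
  rw [h2, abs_le]
  constructor
  · rw [← neg_le_neg_iff, neg_neg, le_div_iff₀ hQR]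
    nlinarith
  · rw [le_div_iff₀ hQR]
    nlinarith

end Pool.Agent.DD7719.M
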