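import Pool.Agent.DD7719.Base

/-! Basis exchange for Plücker coordinates. -/

namespace Pool.Agent.DD7719.M

open Module Matrix NumberField

section top

variable {d p q : ℕ}

/-- the last `q` indices -/
def topEmb (h : p + q = d) : Fin q ↪o Fin d :=
  OrderEmbedding.ofStrictMono (fun i => ⟨p + i, by have := i.2; omega⟩) (by
    intro i j hij
    rw [Fin.lt_def] at hij ⊢
    simp only
    omega)

lemma topEmb_val (h : p + q = d) (i : Fin q) : ((topEmb h i : Fin d) : ℕ) = p + i := rfl

lemma emb_le_top (h : p + q = d) (f : Fin q ↪o Fin d) (i : Fin q) : (f i : ℕ) ≤ p + i := by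
  have key : ∀ (k : ℕ) (hk : (i : ℕ) + k < q), (f i : ℕ) + k ≤ f ⟨i + k, hk⟩ := by
    intro k
    induction k with
    | zero => intro hk; simp
    | succ k ih =>
      intro hk
      have h1 := ih (by omega)
      have h2 : f ⟨i + k, by omega⟩ < f ⟨i + (k + 1), hk⟩ := by
        apply f.strictMono
        rw [Fin.lt_def]
        simp only
        omega
      rw [Fin.lt_def] at h2
      omega
  have h1 := key (q - 1 - i) (by have := i.2; omega)
  have h2 := (f ⟨i + (q - 1 - i), by have := i.2; omega⟩).2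
  have := i.2
  omega

lemma eq_top_of_le (h : p + q = d) (f : Fin q ↪o Fin d) (hq : 0 < q)
    (h0 : p ≤ (f ⟨0, hq⟩ : ℕ)) : f = topEmb h := by
  have key : ∀ (k : ℕ) (hk : k < q), p + k ≤ f ⟨k, hk⟩ := by
    intro k
    induction k with
    | zero => intro hk; simpa using h0
    | succ k ih =>
      intro hk
      have h1 := ih (by omega)
      have h2 : f ⟨k, by omega⟩ < f ⟨k + 1, hk⟩ := by
        apply f.strictMono
        rw [Fin.lt_def]
        simp only
        omega
      rw [Fin.lt_def] at h2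
      omega
  apply RelEmbedding.ext
  intro i
  apply Fin.ext
  rw [topEmb_val]
  apply le_antisymm
  · exact emb_le_top h f i
  · exact key i i.2

/-- product comparison -/
lemma clam_le (h : p + q = d) (hp : 0 < p) (hq : 0 < q) (lam : Fin d → ℝ) (hpos : ∀ i, 0 < lam i)
    (hmono : Monotone lam) (f : Fin q ↪o Fin d) (hf : f ≠ topEmb h) :
    (∏ i, lam (f i)) * lam ⟨p, by omega⟩ ≤ lam ⟨p - 1, by omega⟩ * ∏ i, lam (topEmb h i) := by
  have h0 : (f ⟨0, hq⟩ : ℕ) < p := by
    by_contra hcon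
    exact hf (eq_top_of_le h f hq (not_lt.mp hcon))
  rw [← Finset.mul_prod_erase Finset.univ (fun i => lam (f i)) (Finset.mem_univ ⟨0, hq⟩),
    ← Finset.mul_prod_erase Finset.univ (fun i => lam (topEmb h i)) (Finset.mem_univ ⟨0, hq⟩)]
  have e1 : lam (topEmb h ⟨0, hq⟩) = lam ⟨p, by omega⟩ := by
    congr 1
  rw [e1]
  have h1 : lam (f ⟨0, hq⟩) ≤ lam ⟨p - 1, by omega⟩ := by
    apply hmono
    rw [Fin.le_def]
    simp only
    omega
  have h2 : ∏ i ∈ Finset.univ.erase (⟨0, hq⟩ : Fin q), lam (f i) ≤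
      ∏ i ∈ Finset.univ.erase (⟨0, hq⟩ : Fin q), lam (topEmb h i) := by
    apply Finset.prod_le_prod (fun i _ => (hpos _).le)
    intro i _
    apply hmono
    rw [Fin.le_def, topEmb_val]
    exact emb_le_top h f i
  have h3 := hpos ⟨p, by omega⟩
  have h4 := hpos (f ⟨0, hq⟩)
  have h5 := hpos ⟨p - 1, by omega⟩
  have h6 : 0 ≤ ∏ i ∈ Finset.univ.erase (⟨0, hq⟩ : Fin q), lam (f i) :=
    Finset.prod_nonneg fun i _ => (hpos _).le
  have h7 : lam (f ⟨0, hq⟩) * ∏ i ∈ Finset.univ.erase (⟨0, hq⟩ : Fin q), lam (f i) ≤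
      lam ⟨p - 1, by omega⟩ * ∏ i ∈ Finset.univ.erase (⟨0, hq⟩ : Fin q), lam (topEmb h i) :=
    mul_le_mul h1 h2 h6 h5.le
  calc _ ≤ (lam ⟨p - 1, by omega⟩ *
        ∏ i ∈ Finset.univ.erase (⟨0, hq⟩ : Fin q), lam (topEmb h i)) * lam ⟨p, by omega⟩ :=
        mul_le_mul_of_nonneg_right h7 h3.le
    _ = _ := by ring

end top

section exchange

variable {F : Type*} [Field F] {d q : ℕ}

lemma exists_exchange (U : Matrix (Fin d) (Fin q) F) (J₀ : Fin q ↪o Fin d)
    (h0 : (U.submatrix J₀ id).det ≠ 0) :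
    (∀ k, k ∉ Set.range J₀ → U k = 0) ∨
    ∃ (J₁ : Fin q ↪o Fin d) (i₀ : Fin q) (k : Fin d), k ≠ J₀ i₀ ∧ J₁ ≠ J₀ ∧
      (U.submatrix J₁ id).det ≠ 0 ∧
      ∀ g : Fin d → F, (∏ i, g (J₁ i)) * g (J₀ i₀) = (∏ i, g (J₀ i)) * g k := by
  classical
  by_cases hall : ∀ k, k ∉ Set.range J₀ → U k = 0
  · exact Or.inl hall
  right
  push Not at hall
  obtain ⟨k, hk, hUk⟩ := hall
  set A := U.submatrix J₀ id with hA
  have h1 : ∃ i, (A.updateRow i (U k)).det ≠ 0 := by
    by_contra hcon
    push Not at hcon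
    apply hUk
    have h2 : Matrix.cramer Aᵀ (U k) = 0 := by
      funext i
      rw [Matrix.cramer_transpose_apply]
      exact hcon i
    have h3 := Matrix.mulVec_cramer Aᵀ (U k)
    rw [h2, Matrix.mulVec_zero, Matrix.det_transpose] at h3
    rcases smul_eq_zero.mp h3.symm with h4 | h4
    · exact absurd h4 h0
    · exact h4
  obtain ⟨i₀, hi₀⟩ := h1
  let p : Fin q → Fin d := Function.update J₀ i₀ k
  have hp : Function.Injective p := by
    intro a b hab
    by_cases ha : a = i₀
    · by_cases hb : b = i₀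
      · rw [ha, hb]
      · simp only [p, ha, Function.update_self, Function.update_of_ne hb] at hab
        exact absurd ⟨b, hab.symm⟩ hk
    · by_cases hb : b = i₀
      · simp only [p, hb, Function.update_self, Function.update_of_ne ha] at hab
        exact absurd ⟨a, hab⟩ hk
      · simp only [p, Function.update_of_ne ha, Function.update_of_ne hb] at hab
        exact J₀.injective hab
  obtain ⟨h, τ, hτ⟩ := exists_orderEmb_perm p hp
  have hkne : k ≠ J₀ i₀ := fun he => hk ⟨i₀, he.symm⟩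
  refine ⟨h, i₀, k, hkne, ?_, ?_, ?_⟩
  · intro heq
    apply hk
    have := hτ i₀
    simp only [p, Function.update_self] at this
    rw [heq] at this
    exact ⟨_, this.symm⟩
  · have h2 : A.updateRow i₀ (U k) = (U.submatrix h id).submatrix τ id := by
      ext i j
      rw [Matrix.submatrix_apply, Matrix.submatrix_apply, ← hτ i]
      by_cases hi : i = i₀
      · subst hi
        simp [p]
      · rw [Matrix.updateRow_ne hi]
        simp [p, hi, hA]
    rw [h2, Matrix.det_permute] at hi₀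
    exact right_ne_zero_of_mul hi₀
  · intro g
    have h3 : ∏ i, g (h i) = ∏ i, g (p i) := by
      rw [← Equiv.prod_comp τ]
      exact Finset.prod_congr rfl fun i _ => by rw [hτ i]
    rw [h3, ← Finset.mul_prod_erase Finset.univ (fun i => g (p i)) (Finset.mem_univ i₀),
      ← Finset.mul_prod_erase Finset.univ (fun i => g (J₀ i)) (Finset.mem_univ i₀)]
    have h4 : ∏ i ∈ Finset.univ.erase i₀, g (p i) = ∏ i ∈ Finset.univ.erase i₀, g (J₀ i) := by
      apply Finset.prod_congr rfl
      intro i hi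
      simp [p, (Finset.mem_erase.mp hi).1]
    rw [h4]
    simp only [p, Function.update_self]
    ring

end exchange

end Pool.Agent.DD7719.M
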