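import Pool.Agent.DD7719.CompoundReduced

/-! The family of forms attached to `∑ c_i λ_i^n`. -/

namespace Pool.Agent.DD7719.M

open Module Matrix NumberField

variable {K : Type*} [Field K] [NumberField K] {m : ℕ}

/-- fixed forms: first row `c`, the others coordinate forms -/
def L1 (cc : Fin (m + 1) → K) : Matrix (Fin (m + 1)) (Fin (m + 1)) K :=
  Matrix.of fun i j => if i = 0 then cc j else if i = j then 1 else 0

/-- the forms in the normalised coordinates -/
def Bn (cc lb : Fin (m + 1) → K) (n : ℕ) : Matrix (Fin (m + 1)) (Fin (m + 1)) K :=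
  Matrix.of fun i j => if i = 0 then cc j * (lb j / lb 0) ^ n else if i = j then 1 else 0

lemma Bn_eq (cc lb : Fin (m + 1) → K) (hlb : ∀ i, lb i ≠ 0) (n : ℕ) :
    Bn cc lb n = Matrix.diagonal (fun i => (lb i ^ n)⁻¹) * L1 cc *
      Matrix.diagonal (fun i => lb i ^ n) := by
  ext i j
  rw [Matrix.mul_diagonal, Matrix.diagonal_mul]
  simp only [Bn, L1, Matrix.of_apply]
  by_cases hi : i = 0
  · subst hi
    simp only [if_true]
    rw [div_pow]
    have := hlb 0
    field_simp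
  · simp only [hi, if_false]
    by_cases hij : i = j
    · subst hij
      simp only [if_true]
      have := pow_ne_zero n (hlb i)
      field_simp
    · simp [hij]

lemma det_topRow {R : Type*} [CommRing R] (r : Fin (m + 1) → R) :
    (Matrix.of fun i j : Fin (m + 1) => if i = 0 then r j else if i = j then (1 : R) else 0).det =
      r 0 := by
  rw [Matrix.det_of_isUpperTriangular]
  · rw [Fin.prod_univ_succ]
    simp
  · intro i j hij
    simp only [id] at hij
    have h1 : i ≠ 0 := by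
      rintro rfl
      exact absurd hij (by simp)
    have h2 : i ≠ j := fun h => by subst h; exact absurd hij (lt_irrefl _)
    simp [h1, h2]

lemma det_L1 (cc : Fin (m + 1) → K) : (L1 cc).det = cc 0 := det_topRow _

lemma det_Bn (cc lb : Fin (m + 1) → K) (hlb : ∀ i, lb i ≠ 0) (n : ℕ) :
    (Bn cc lb n).det = cc 0 := by
  rw [Bn, det_topRow, div_self (hlb 0), one_pow, mul_one]

open scoped Classical in
/-- the family of matrices -/
noncomputable def An (φ : K →+* ℂ) (cc lb : Fin (m + 1) → K) (n : ℕ) (T : ℝ) (σ : K →+* ℂ) :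
    Matrix (Fin (m + 1)) (Fin (m + 1)) ℂ :=
  if σ = φ ∨ σ = ComplexEmbedding.conjugate φ then
    Matrix.diagonal (fun i => if i = 0 then (T : ℂ) else 1) * (Bn cc lb n).map σ else 1

lemma An_conj (φ : K →+* ℂ) (cc lb : Fin (m + 1) → K) (n : ℕ) (T : ℝ) (σ : K →+* ℂ)
    (j i : Fin (m + 1)) : (starRingEnd ℂ) (An φ cc lb n T σ j i) =
      An φ cc lb n T (ComplexEmbedding.conjugate σ) j i := by
  have hinv : ∀ τ : K →+* ℂ, ComplexEmbedding.conjugate (ComplexEmbedding.conjugate τ) = τ :=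
    fun τ => star_star τ
  by_cases h : σ = φ ∨ σ = ComplexEmbedding.conjugate φ
  · have h' : ComplexEmbedding.conjugate σ = φ ∨
        ComplexEmbedding.conjugate σ = ComplexEmbedding.conjugate φ := by
      rcases h with h | h
      · right; rw [h]
      · left; rw [h, hinv]
    rw [An, An, if_pos h, if_pos h', Matrix.diagonal_mul, Matrix.diagonal_mul, map_mul,
      Matrix.map_apply, Matrix.map_apply, ComplexEmbedding.conjugate_coe_eq]
    congr 1
    split_ifs <;> simp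
  · have h' : ¬ (ComplexEmbedding.conjugate σ = φ ∨
        ComplexEmbedding.conjugate σ = ComplexEmbedding.conjugate φ) := by
      intro h'
      apply h
      rcases h' with h' | h'
      · right; rw [← h', hinv]
      · left; rw [← hinv σ, h', hinv]
    rw [An, An, if_neg h, if_neg h', Matrix.one_apply]
    split_ifs <;> simp

lemma det_An (φ : K →+* ℂ) (cc lb : Fin (m + 1) → K) (hlb : ∀ i, lb i ≠ 0) (n : ℕ) (T : ℝ)
    (σ : K →+* ℂ) (h : σ = φ ∨ σ = ComplexEmbedding.conjugate φ) :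
    (An φ cc lb n T σ).det = T * σ (cc 0) := by
  rw [An, if_pos h, Matrix.det_mul, Matrix.det_diagonal, Fin.prod_univ_succ]
  have : ((Bn cc lb n).map σ).det = σ (cc 0) := by
    rw [← det_Bn cc lb hlb n]
    exact (RingHom.map_det σ _).symm
  rw [this]
  simp

lemma det_An' (φ : K →+* ℂ) (cc lb : Fin (m + 1) → K) (n : ℕ) (T : ℝ)
    (σ : K →+* ℂ) (h : ¬ (σ = φ ∨ σ = ComplexEmbedding.conjugate φ)) :
    (An φ cc lb n T σ).det = 1 := by
  rw [An, if_neg h, Matrix.det_one]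

lemma norm_conjugate (φ : K →+* ℂ) (x : K) : ‖(ComplexEmbedding.conjugate φ) x‖ = ‖φ x‖ := by
  rw [ComplexEmbedding.conjugate_coe_eq]
  exact RCLike.norm_conj _

lemma prod_norm_det_An (φ : K →+* ℂ) (hφ : ComplexEmbedding.conjugate φ ≠ φ)
    (cc lb : Fin (m + 1) → K) (hlb : ∀ i, lb i ≠ 0) (n : ℕ) (T : ℝ) (hT : 0 < T) :
    ∏ σ : K →+* ℂ, ‖(An φ cc lb n T σ).det‖ = (T * ‖φ (cc 0)‖) ^ 2 := by
  classical
  rw [← prod_ite_conj φ hφ]
  apply Finset.prod_congr rfl
  intro σ _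
  split_ifs with h
  · rw [det_An φ cc lb hlb n T σ h, norm_mul, Complex.norm_real, Real.norm_of_nonneg hT.le]
    rcases h with h | h
    · rw [h]
    · rw [h, norm_conjugate]
  · rw [det_An' φ cc lb n T σ h, norm_one]

/-- value of the forms -/
lemma An_mulVec_zero (φ : K →+* ℂ) (cc lb : Fin (m + 1) → K) (n : ℕ) (T : ℝ) (z : Fin (m + 1) → K) :
    (An φ cc lb n T φ).mulVec (fun k => φ (z k)) 0 =
      T * φ (∑ k, cc k * (lb k / lb 0) ^ n * z k) := by
  rw [An, if_pos (Or.inl rfl), ← Matrix.mulVec_mulVec, Matrix.mulVec_diagonal]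
  simp [Matrix.mulVec, dotProduct, Bn]

lemma An_mulVec_succ (φ : K →+* ℂ) (cc lb : Fin (m + 1) → K) (n : ℕ) (T : ℝ) (z : Fin (m + 1) → K)
    (j : Fin (m + 1)) (hj : j ≠ 0) :
    (An φ cc lb n T φ).mulVec (fun k => φ (z k)) j = φ (z j) := by
  rw [An, if_pos (Or.inl rfl), ← Matrix.mulVec_mulVec, Matrix.mulVec_diagonal]
  simp [Matrix.mulVec, dotProduct, Bn, hj]

/-- bounded forms give bounded coordinates -/
lemma coord_le_of_An (φ : K →+* ℂ) (cc lb : Fin (m + 1) → K) (hcc : cc 0 ≠ 0)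
    (hlb : ∀ i, lb i ≠ 0) (hmod : ∀ i, ‖φ (lb i)‖ = ‖φ (lb 0)‖) (n : ℕ) (T : ℝ) (hT : 1 ≤ T)
    (z : Fin (m + 1) → K) (R : ℝ)
    (hR : ∀ j, ‖(An φ cc lb n T φ).mulVec (fun k => φ (z k)) j‖ ≤ R) (k : Fin (m + 1)) :
    ‖φ (z k)‖ ≤ (1 + (1 + ∑ i, ‖φ (cc i)‖) / ‖φ (cc 0)‖) * R := by
  have hR0 : 0 ≤ R := (norm_nonneg _).trans (hR 0)
  have hc0 : 0 < ‖φ (cc 0)‖ := norm_pos_iff.mpr ((map_ne_zero φ).mpr hcc)
  have hs : 0 ≤ ∑ i, ‖φ (cc i)‖ := Finset.sum_nonneg fun i _ => norm_nonneg _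
  have hsucc : ∀ j, j ≠ 0 → ‖φ (z j)‖ ≤ R := by
    intro j hj
    have := hR j
    rwa [An_mulVec_succ φ cc lb n T z j hj] at this
  by_cases hk : k = 0
  · subst hk
    have h0 := hR 0
    rw [An_mulVec_zero, norm_mul, Complex.norm_real, Real.norm_of_nonneg (by linarith)] at h0
    have h1 : ‖φ (∑ k, cc k * (lb k / lb 0) ^ n * z k)‖ ≤ R := by
      have h2 := norm_nonneg (φ (∑ k, cc k * (lb k / lb 0) ^ n * z k))
      nlinarith
    rw [Fin.sum_univ_succ, div_self (hlb 0), one_pow, mul_one, map_add, map_mul] at h1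
    have h2 : ‖φ (∑ i : Fin m, cc i.succ * (lb i.succ / lb 0) ^ n * z i.succ)‖ ≤
        (∑ i, ‖φ (cc i)‖) * R := by
      rw [map_sum]
      refine (norm_sum_le _ _).trans ?_
      rw [Fin.sum_univ_succ, add_mul, Finset.sum_mul]
      have h3 : ∑ i : Fin m, ‖φ (cc i.succ * (lb i.succ / lb 0) ^ n * z i.succ)‖ ≤
          ∑ i : Fin m, ‖φ (cc i.succ)‖ * R := by
        apply Finset.sum_le_sum
        intro i _
        rw [map_mul, map_mul, norm_mul, norm_mul, map_pow, norm_pow, map_div₀, norm_div, hmod,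
          div_self (norm_ne_zero_iff.mpr ((map_ne_zero φ).mpr (hlb 0))), one_pow, mul_one]
        exact mul_le_mul_of_nonneg_left (hsucc _ (Fin.succ_ne_zero i)) (norm_nonneg _)
      have h4 : 0 ≤ ‖φ (cc 0)‖ * R := by positivity
      linarith
    have h3 : ‖φ (cc 0)‖ * ‖φ (z 0)‖ ≤ (1 + ∑ i, ‖φ (cc i)‖) * R := by
      rw [← norm_mul]
      have h4 := norm_sub_le (φ (cc 0) * φ (z 0) +
        φ (∑ i : Fin m, cc i.succ * (lb i.succ / lb 0) ^ n * z i.succ))
        (φ (∑ i : Fin m, cc i.succ * (lb i.succ / lb 0) ^ n * z i.succ))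
      rw [add_sub_cancel_right] at h4
      linarith
    have h4 : ‖φ (z 0)‖ ≤ (1 + ∑ i, ‖φ (cc i)‖) / ‖φ (cc 0)‖ * R := by
      rw [div_mul_eq_mul_div, le_div_iff₀ hc0]
      linarith
    linarith
  · have h1 := hsucc k hk
    have h2 : 0 ≤ (1 + ∑ i, ‖φ (cc i)‖) / ‖φ (cc 0)‖ * R := by positivity
    linarith

lemma An_of_ne (φ : K →+* ℂ) (cc lb : Fin (m + 1) → K) (n : ℕ) (T : ℝ)
    (σ : K →+* ℂ) (h1 : σ ≠ φ) (h2 : σ ≠ ComplexEmbedding.conjugate φ) :
    An φ cc lb n T σ = 1 := by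
  rw [An, if_neg]
  rintro (h | h)
  · exact h1 h
  · exact h2 h

end Pool.Agent.DD7719.M
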