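import Pool.Agent.DD7719.NormalVector
import Pool.Agent.DD7719.CountEmb

/-! The compound of the family of forms. -/

namespace Pool.Agent.DD7719.M

open Module Matrix NumberField

variable {K : Type*} [Field K] [NumberField K] {m q N : ℕ}

/-- `∏ λ_j` over `j` in the index set `f` -/
def lamProd (lb : Fin (m + 1) → K) (f : Fin q ↪o Fin (m + 1)) : K := ∏ i, lb (f i)

lemma compound_Bn (cc lb : Fin (m + 1) → K) (hlb : ∀ i, lb i ≠ 0) (n : ℕ)
    (f g : Fin q ↪o Fin (m + 1)) :
    lamProd lb f ^ n * compound q (Bn cc lb n) f g =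
      compound q (L1 cc) f g * lamProd lb g ^ n := by
  rw [Bn_eq cc lb hlb n, compound_mul, compound_mul, compound_diagonal, compound_diagonal,
    Matrix.mul_diagonal, Matrix.diagonal_mul]
  have h1 : lamProd lb f ^ n * ∏ i, (lb (f i) ^ n)⁻¹ = 1 := by
    rw [lamProd, ← Finset.prod_pow, ← Finset.prod_mul_distrib]
    apply Finset.prod_eq_one
    intro i _
    exact mul_inv_cancel₀ (pow_ne_zero _ (hlb _))
  have h2 : ∏ i, lb (g i) ^ n = lamProd lb g ^ n := by
    rw [lamProd, ← Finset.prod_pow]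
  rw [h2, ← mul_assoc, ← mul_assoc, h1, one_mul]

open scoped Classical in
lemma prod_T (T : ℝ) (f : Fin q ↪o Fin (m + 1)) :
    ∏ i, (if f i = 0 then (T : ℂ) else 1) = if (0 : Fin (m + 1)) ∈ Set.range f then (T : ℂ) else 1 := by
  split_ifs with h
  · obtain ⟨i, hi⟩ := h
    rw [← Finset.mul_prod_erase Finset.univ _ (Finset.mem_univ i), if_pos hi]
    rw [Finset.prod_eq_one, mul_one]
    intro j hj
    rw [if_neg]
    intro hj0
    exact (Finset.mem_erase.mp hj).1 (f.injective (hj0.trans hi.symm))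
  · apply Finset.prod_eq_one
    intro i _
    rw [if_neg]
    intro hi
    exact h ⟨i, hi⟩

open scoped Classical in
lemma norm_form (φ : K →+* ℂ) (cc lb : Fin (m + 1) → K) (hlb : ∀ i, lb i ≠ 0) (n : ℕ) (T : ℝ)
    (hT : 0 < T) (e₀ : (Fin q ↪o Fin (m + 1)) ≃ Fin N) (Z : Fin N → K) (J : Fin N) :
    ‖φ (∑ J', (compound q (L1 cc)).submatrix e₀.symm e₀.symm J J' *
        (lamProd lb (e₀.symm J') ^ n * Z J'))‖ =
      ‖φ (lamProd lb (e₀.symm J))‖ ^ n *
        ((if (0 : Fin (m + 1)) ∈ Set.range (e₀.symm J) then T else 1)⁻¹ *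
        ‖(cA e₀ (An φ cc lb n T) φ).mulVec (fun J' => φ (Z J')) J‖) := by
  set f := e₀.symm J with hf
  have h1 : ∀ g, compound q (An φ cc lb n T φ) f g =
      (if (0 : Fin (m + 1)) ∈ Set.range f then (T : ℂ) else 1) *
        φ (compound q (Bn cc lb n) f g) := by
    intro g
    rw [An, if_pos (Or.inl rfl), compound_mul, compound_diagonal, Matrix.diagonal_mul, prod_T,
      compound_map, Matrix.map_apply]
  have h2 : φ (∑ J', (compound q (L1 cc)).submatrix e₀.symm e₀.symm J J' *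
        (lamProd lb (e₀.symm J') ^ n * Z J')) =
      φ (lamProd lb f) ^ n * ∑ J', φ (compound q (Bn cc lb n) f (e₀.symm J')) * φ (Z J') := by
    rw [map_sum, Finset.mul_sum]
    apply Finset.sum_congr rfl
    intro J' _
    rw [Matrix.submatrix_apply, ← hf, ← mul_assoc, ← compound_Bn cc lb hlb n f (e₀.symm J')]
    simp only [map_mul, map_pow]
    ring
  have h3 : (cA e₀ (An φ cc lb n T) φ).mulVec (fun J' => φ (Z J')) J =
      (if (0 : Fin (m + 1)) ∈ Set.range f then (T : ℂ) else 1) *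
        ∑ J', φ (compound q (Bn cc lb n) f (e₀.symm J')) * φ (Z J') := by
    rw [Matrix.mulVec, dotProduct, Finset.mul_sum]
    apply Finset.sum_congr rfl
    intro J' _
    rw [cA, Matrix.submatrix_apply, ← hf, h1]
    ring
  rw [h2, h3, norm_mul, norm_mul, norm_pow]
  congr 1
  have h4 : ‖(if (0 : Fin (m + 1)) ∈ Set.range f then (T : ℂ) else 1)‖ =
      if (0 : Fin (m + 1)) ∈ Set.range f then T else 1 := by
    split_ifs
    · rw [Complex.norm_real, Real.norm_of_nonneg hT.le]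
    · exact norm_one
  rw [h4, ← mul_assoc, inv_mul_cancel₀, one_mul]
  split_ifs
  · exact hT.ne'
  · exact one_ne_zero

lemma det_compound_L1 (cc : Fin (m + 1) → K) (hcc : cc 0 ≠ 0)
    (e₀ : (Fin q ↪o Fin (m + 1)) ≃ Fin N) :
    ((compound q (L1 cc)).submatrix e₀.symm e₀.symm).det ≠ 0 := by
  rw [Matrix.det_submatrix_equiv_self]
  have h1 : compound q (L1 cc) * compound q (L1 cc)⁻¹ = 1 := by
    rw [← compound_mul, Matrix.mul_nonsing_inv, compound_one]
    rw [det_L1]
    exact isUnit_iff_ne_zero.mpr hcc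
  intro h0
  have h2 := congrArg Matrix.det h1
  rw [Matrix.det_mul, h0, zero_mul, Matrix.det_one] at h2
  exact zero_ne_one h2

/-- `cA` at a place different from `φ` and its conjugate -/
lemma cA_of_ne (φ : K →+* ℂ) (cc lb : Fin (m + 1) → K) (n : ℕ) (T : ℝ)
    (e₀ : (Fin q ↪o Fin (m + 1)) ≃ Fin N) (σ : K →+* ℂ) (h1 : σ ≠ φ)
    (h2 : σ ≠ ComplexEmbedding.conjugate φ) : cA e₀ (An φ cc lb n T) σ = 1 := by
  rw [cA, An_of_ne φ cc lb n T σ h1 h2, compound_one]
  ext i j
  simp [Matrix.one_apply]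

lemma det_cA_ne_zero (φ : K →+* ℂ) (cc lb : Fin (m + 1) → K) (hcc : cc 0 ≠ 0)
    (hlb : ∀ i, lb i ≠ 0) (n : ℕ) (T : ℝ) (hT : 0 < T)
    (e₀ : (Fin q ↪o Fin (m + 1)) ≃ Fin N) (σ : K →+* ℂ) :
    (cA e₀ (An φ cc lb n T) σ).det ≠ 0 := by
  rw [cA, Matrix.det_submatrix_equiv_self]
  have hdet : (An φ cc lb n T σ).det ≠ 0 := by
    by_cases h : σ = φ ∨ σ = ComplexEmbedding.conjugate φ
    · rw [det_An φ cc lb hlb n T σ h]
      apply mul_ne_zero
      · exact_mod_cast hT.ne'
      · exact (map_ne_zero σ).mpr hcc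
    · rw [det_An' φ cc lb n T σ h]
      exact one_ne_zero
  have h1 : compound q (An φ cc lb n T σ) * compound q (An φ cc lb n T σ)⁻¹ = 1 := by
    rw [← compound_mul, Matrix.mul_nonsing_inv, compound_one]
    exact isUnit_iff_ne_zero.mpr hdet
  intro h0
  have h2 := congrArg Matrix.det h1
  rw [Matrix.det_mul, h0, zero_mul, Matrix.det_one] at h2
  exact zero_ne_one h2

end Pool.Agent.DD7719.M
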