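import Pool.Agent.DD7719.Lang
import Pool.Agent.UltPos.Critical

/-! The two languages, with the definitions of `Pool.Agent.UltPos.Critical`. -/

set_option autoImplicit false

namespace Pool.Agent.UltPos

open Filter Topology Pool.Agent.PT Pool.Agent.AllR

private lemma ratio_le {v : ℕ → ℝ} {N J d : ℕ} {ρ B : ℝ} (hρ : 0 < ρ)
    (hB : ∀ m : ℕ, 0 < m → |v (N * m + J)| ≤ B * (ρ ^ m * m ^ d)) :
    ∀ m : ℕ, 0 < m → |v (N * m + J) / (ρ ^ m * (m : ℝ) ^ d)| ≤ B := by
  intro m hm
  have hm' : (0 : ℝ) < m := by exact_mod_cast hm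
  have hpos : 0 < ρ ^ m * (m : ℝ) ^ d := by positivity
  rw [abs_div, abs_of_pos hpos, div_le_iff₀ hpos]
  exact hB m hm

theorem IsCritical.toM {v : ℕ → ℝ} (h : IsCritical v) : DD7719.M.Critical v := by
  obtain ⟨N, J, d, ρ, hN, hd, hρ, ⟨B, hB⟩, hn, hl⟩ := h
  refine ⟨N, J, d, ρ, hN, hd, hρ, ⟨B, hB⟩, hn, ?_⟩
  rintro ⟨b, hb, hev⟩
  have hle := ratio_le hρ hB
  have h1 : b ≤ liminf (fun m : ℕ => v (N * m + J) / (ρ ^ m * (m : ℝ) ^ d)) atTop := by
    refine le_liminf_of_le ?_ ?_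
    · refine IsBoundedUnder.isCoboundedUnder_ge ⟨B, ?_⟩
      rw [eventually_map]
      filter_upwards [eventually_gt_atTop 0] with m hm
      exact (abs_le.mp (hle m hm)).2
    · filter_upwards [hev, eventually_gt_atTop 0] with m h1 hm
      have hm' : (0 : ℝ) < m := by exact_mod_cast hm
      have hpos : 0 < ρ ^ m * (m : ℝ) ^ d := by positivity
      rw [le_div_iff₀ hpos]
      exact h1
  rw [hl] at h1
  linarith

theorem isCritical_of_M {v : ℕ → ℝ} (hv : ∃ N, ∀ n, N ≤ n → 0 < v n)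
    (h : DD7719.M.Critical v) : IsCritical v := by
  obtain ⟨N, J, d, ρ, hN, hd, hρ, ⟨B, hB⟩, hn, hl⟩ := h
  obtain ⟨n0, hn0⟩ := hv
  refine ⟨N, J, d, ρ, hN, hd, hρ, ⟨B, hB⟩, hn, ?_⟩
  have hle := ratio_le hρ hB
  have hbelow : IsBoundedUnder (· ≥ ·) atTop (fun m : ℕ => v (N * m + J) / (ρ ^ m * (m : ℝ) ^ d)) := by
    refine ⟨-B, ?_⟩
    rw [eventually_map]
    filter_upwards [eventually_gt_atTop 0] with m hm
    exact (abs_le.mp (hle m hm)).1
  apply le_antisymm
  · apply le_of_forall_pos_le_add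
    intro ε hε
    rw [zero_add]
    refine liminf_le_of_frequently_le ?_ hbelow
    intro hcon
    apply hl
    refine ⟨ε, hε, ?_⟩
    filter_upwards [hcon, eventually_gt_atTop 0] with m h1 hm
    have hm' : (0 : ℝ) < m := by exact_mod_cast hm
    have hpos : 0 < ρ ^ m * (m : ℝ) ^ d := by positivity
    rw [not_le, lt_div_iff₀ hpos] at h1
    exact h1.le
  · refine le_liminf_of_le ?_ ?_
    · refine IsBoundedUnder.isCoboundedUnder_ge ⟨B, ?_⟩
      rw [eventually_map]
      filter_upwards [eventually_gt_atTop 0] with m hm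
      exact (abs_le.mp (hle m hm)).2
    · filter_upwards [eventually_ge_atTop n0, eventually_gt_atTop 0] with m h1 hm
      have h2 : n0 ≤ N * m + J := by nlinarith
      have := (hn0 _ h2).le
      positivity

theorem Inst.critical_toM {I : Inst} (h : I.Critical) : I.CriticalM := by
  obtain ⟨v, hv, h⟩ := h
  exact ⟨v, hv, h.toM⟩

theorem Inst.critical_ofM {I : Inst} (hI : I.UltimatelyPositive) (h : I.CriticalM) :
    I.Critical := by
  obtain ⟨v, hv, h⟩ := h
  refine ⟨v, hv, isCritical_of_M ?_ h⟩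
  obtain ⟨N, hN⟩ := hI v hv
  exact ⟨N, fun n hn => by exact_mod_cast hN n hn⟩

/-- Simple recurrences are not critical. -/
theorem Inst.Simple.not_critical {I : Inst} (hI : I.Simple) : ¬ I.Critical :=
  fun h => hI.not_criticalM (Inst.critical_toM h)

/-- **Ultimate Positivity of non-critical recurrences is in `∀ℝ`.** -/
theorem inForallR_noncritical :
    InForallR {w : List ISym | ∃ I : Inst, w = I.enc ∧ I.UltimatelyPositive ∧ ¬ I.Critical} := by
  have h : {w : List ISym | ∃ I : Inst, w = I.enc ∧ I.UltimatelyPositive ∧ ¬ I.Critical} =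
      {w : List ISym | ∃ I : Inst, w = I.enc ∧ I.UltimatelyPositive ∧ ¬ I.CriticalM} := by
    ext w
    constructor
    · rintro ⟨I, h1, h2, h3⟩
      exact ⟨I, h1, h2, fun h => h3 (Inst.critical_ofM h2 h)⟩
    · rintro ⟨I, h1, h2, h3⟩
      exact ⟨I, h1, h2, fun h => h3 (Inst.critical_toM h)⟩
  rw [h]
  exact inForallR_noncriticalM

end Pool.Agent.UltPos
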