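import Pool.Agent.DD7719.CertGDef

/-! Package G: vanishing, asymptotics. -/

set_option autoImplicit false

namespace Pool.Agent.DD7719.M

open Complex Filter Topology

variable {k : ℕ}

open Polynomial in
lemma hasse_zero_of_dvd (p : ℂ[X]) (z : ℂ) (m : ℕ) (h : (X - C z) ^ m ∣ p) (e : ℕ) (he : e < m) :
    (hasseDeriv e p).eval z = 0 := by
  rw [X_sub_C_pow_dvd_iff, X_pow_dvd_iff] at h
  have := taylor_coeff z p e
  rw [taylor_apply] at this
  rw [← this, h e he]

open Polynomial in
/-- a generalised exponential sum over a downward closed system vanishing at `k` places of a class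
vanishes on the class -/
lemma vanish_gen (l c : Fin k → ℂ) (ex : Fin k → ℕ)
    (hdc : ∀ i, ∀ e, e < ex i → ∃ i', l i' = l i ∧ ex i' = e) (q : Fin k → Prop) [DecidablePred q]
    (j n0 : ℕ)
    (h : ∀ m < k, ∑ i, (if q i then c i * ((j + n0 * m).choose (ex i) : ℂ) *
      l i ^ (j + n0 * m - ex i) else 0) = 0) (m : ℕ) :
    ∑ i, (if q i then c i * ((j + n0 * m).choose (ex i) : ℂ) *
      l i ^ (j + n0 * m - ex i) else 0) = 0 := by
  classical
  -- the linear functional
  let Λ : ℂ[X] → ℂ := fun P => ∑ i, (if q i then c i *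
    (hasseDeriv (ex i) (X ^ j * P.comp (X ^ n0))).eval (l i) else 0)
  have hadd : ∀ P Q, Λ (P + Q) = Λ P + Λ Q := by
    intro P Q
    simp only [Λ, add_comp, mul_add, map_add, eval_add]
    rw [← Finset.sum_add_distrib]
    apply Finset.sum_congr rfl
    intro i _
    split_ifs <;> ring
  have hmon : ∀ (a : ℂ) (m : ℕ), Λ (C a * X ^ m) = a * ∑ i, (if q i then c i *
      ((j + n0 * m).choose (ex i) : ℂ) * l i ^ (j + n0 * m - ex i) else 0) := by
    intro a m
    simp only [Λ]
    rw [Finset.mul_sum]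
    apply Finset.sum_congr rfl
    intro i _
    split_ifs
    · have h1 : X ^ j * (C a * X ^ m : ℂ[X]).comp (X ^ n0) = monomial (j + n0 * m) a := by
        rw [mul_comp, C_comp, pow_comp, X_comp, ← pow_mul, mul_left_comm, ← pow_add,
          C_mul_X_pow_eq_monomial]
      rw [h1, hasseDeriv_monomial, eval_monomial]
      ring
    · rw [mul_zero]
  have hlow : ∀ P : ℂ[X], P.degree < k → Λ P = 0 := by
    intro P hP
    have h1 : P = ∑ t ∈ Finset.range k, C (P.coeff t) * X ^ t := by
      rcases eq_or_ne P 0 with rfl | hP0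
      · simp
      · exact as_sum_range_C_mul_X_pow' P ((natDegree_lt_iff_degree_lt hP0).mpr hP)
    have hsum : ∀ (s : Finset ℕ) (f : ℕ → ℂ[X]), Λ (∑ t ∈ s, f t) = ∑ t ∈ s, Λ (f t) := by
      intro s f
      induction s using Finset.induction_on with
      | empty =>
        simp [Λ]
      | insert a s ha ih => rw [Finset.sum_insert ha, Finset.sum_insert ha, hadd, ih]
    rw [h1, hsum]
    apply Finset.sum_eq_zero
    intro t ht
    rw [hmon, h t (Finset.mem_range.mp ht), mul_zero]
  set Q : ℂ[X] := ∏ i, (X - C (l i ^ n0)) with hQ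
  have hmonic : Q.Monic := monic_prod_of_monic _ _ fun i _ => monic_X_sub_C _
  have hdeg : Q.degree = k := by
    rw [hQ, degree_prod, Finset.sum_congr rfl (fun i _ => degree_X_sub_C _)]
    simp
  have hQS : ∀ S : ℂ[X], Λ (Q * S) = 0 := by
    intro S
    simp only [Λ]
    apply Finset.sum_eq_zero
    intro i _
    split_ifs
    · rw [hasse_zero_of_dvd _ (l i) (ex i + 1) _ (ex i) (Nat.lt_succ_self _), mul_zero]
      -- divisibility
      have hch : ∀ e : ℕ, ∃ i', e ≤ ex i → l i' = l i ∧ ex i' = e := by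
        intro e
        rcases lt_trichotomy e (ex i) with he | he | he
        · obtain ⟨i', h1, h2⟩ := hdc i e he
          exact ⟨i', fun _ => ⟨h1, h2⟩⟩
        · exact ⟨i, fun _ => ⟨rfl, he.symm⟩⟩
        · exact ⟨i, fun h' => absurd h' (by omega)⟩
      choose f hf using hch
      set T : Finset (Fin k) := (Finset.range (ex i + 1)).image f with hT
      have hTcard : T.card = ex i + 1 := by
        rw [hT, Finset.card_image_of_injOn, Finset.card_range]
        intro a ha b hb hab
        simp only [Finset.coe_range, Set.mem_Iio] at ha hb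
        rw [← (hf a (by omega)).2, ← (hf b (by omega)).2, hab]
      have h1 : (X - C (l i)) ^ (ex i + 1) ∣ ∏ i' ∈ T, ((X - C (l i' ^ n0)).comp (X ^ n0) : ℂ[X]) := by
        rw [← hTcard, ← Finset.prod_const]
        apply Finset.prod_dvd_prod_of_dvd
        intro i' hi'
        obtain ⟨e, he, rfl⟩ := Finset.mem_image.mp hi'
        rw [Finset.mem_range] at he
        rw [(hf e (by omega)).1, sub_comp, X_comp, C_comp, C_pow]
        exact sub_dvd_pow_sub_pow _ _ _
      have h2 : (X - C (l i)) ^ (ex i + 1) ∣ (Q * S).comp (X ^ n0) := by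
        rw [mul_comp, hQ, prod_comp]
        apply Dvd.dvd.mul_right
        exact h1.trans (Finset.prod_dvd_prod_of_subset _ _ _ (Finset.subset_univ _))
      exact Dvd.dvd.mul_left h2 _
    · rfl
  have h1 := modByMonic_add_div (X ^ m : ℂ[X]) Q
  have h2 : Λ (X ^ m) = 0 := by
    rw [← h1, hadd, hQS, add_zero]
    apply hlow
    rw [← hdeg]
    exact degree_modByMonic_lt _ hmonic
  have h3 := hmon 1 m
  rw [C_1, one_mul, one_mul, h2] at h3
  exact h3.symm

lemma choose_ratio_tendsto (e d : ℕ) (h : e < d) :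
    Tendsto (fun n : ℕ => (n.choose e : ℝ) / (n.choose d : ℝ)) atTop (𝓝 0) := by
  induction d with
  | zero => omega
  | succ d ih =>
    have h1 : Tendsto (fun n : ℕ => (n.choose d : ℝ) / (n.choose (d + 1) : ℝ)) atTop (𝓝 0) := by
      have h2 : Tendsto (fun n : ℕ => ((d : ℝ) + 1) / ((n - d : ℕ) : ℝ)) atTop (𝓝 0) := by
        apply Tendsto.div_atTop tendsto_const_nhds
        exact tendsto_natCast_atTop_atTop.comp (tendsto_sub_atTop_nat d)
      refine h2.congr' ?_
      filter_upwards [eventually_gt_atTop d] with n hn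
      have h3 : (n.choose (d + 1) : ℝ) * ((d : ℝ) + 1) = n.choose d * ((n - d : ℕ) : ℝ) := by
        exact_mod_cast Nat.choose_succ_right_eq n d
      have h4 : ((n - d : ℕ) : ℝ) ≠ 0 := by
        have : 0 < n - d := by omega
        exact_mod_cast this.ne'
      have h5 : (n.choose (d + 1) : ℝ) ≠ 0 := by
        exact_mod_cast (Nat.choose_pos (by omega)).ne'
      rw [div_eq_div_iff h4 h5]
      linarith
    rcases Nat.lt_succ_iff_lt_or_eq.mp h with he | he
    · have h6 := (ih he).mul h1
      rw [mul_zero] at h6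
      refine h6.congr' ?_
      filter_upwards [eventually_ge_atTop d] with n hn
      have h7 : (n.choose d : ℝ) ≠ 0 := by
        exact_mod_cast (Nat.choose_pos hn).ne'
      field_simp
    · rw [he]
      exact h1

lemma poly_geom_tendsto (e j n0 : ℕ) (q : ℝ) (hq0 : 0 ≤ q) (hq : q < 1) :
    Tendsto (fun m : ℕ => ((j + n0 * m).choose e : ℝ) * q ^ m) atTop (𝓝 0) := by
  have h1 : Tendsto (fun m : ℕ => ((j + n0 + 1 : ℕ) : ℝ) ^ e * ((m : ℝ) ^ e * q ^ m)) atTop (𝓝 0) := by
    have := (tendsto_pow_const_mul_const_pow_of_abs_lt_one e (r := q) (by rwa [abs_of_nonneg hq0]))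
    have h2 := this.const_mul (((j + n0 + 1 : ℕ) : ℝ) ^ e)
    rwa [mul_zero] at h2
  refine squeeze_zero' (Eventually.of_forall fun m => by positivity) ?_ h1
  filter_upwards [eventually_ge_atTop 1] with m hm
  rw [← mul_assoc]
  apply mul_le_mul_of_nonneg_right _ (pow_nonneg hq0 _)
  have h3 : (j + n0 * m).choose e ≤ (j + n0 * m) ^ e := Nat.choose_le_pow _ _
  have h4 : (j + n0 * m) ^ e ≤ ((j + n0 + 1) * m) ^ e := by
    apply Nat.pow_le_pow_left
    nlinarith
  rw [mul_pow] at h4
  exact_mod_cast h3.trans h4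

/-- asymptotics on a class -/
lemma asym (l c : Fin k → ℂ) (ex : Fin k → ℕ) (hex : ∀ i, ex i < k) (j n0 d : ℕ) (ρ : ℝ)
    (hj : k ≤ j) (hn0 : 0 < n0) (hρ : 0 < ρ) (hd : d < k) (v : ℕ → ℝ)
    (hv : ∀ n, ∑ i, c i * (n.choose (ex i) : ℂ) * l i ^ (n - ex i) = (v n : ℂ))
    (q : Fin k → Prop) (hq : ∀ i, q i ↔ Above ρ d (l i) (ex i)) [DecidablePred q]
    (hvan : ∀ m, ∑ i, (if q i then c i * ((j + n0 * m).choose (ex i) : ℂ) *
      l i ^ (j + n0 * m - ex i) else 0) = 0) [DecidablePred fun i => ‖l i‖ = ρ ∧ ex i = d] :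
    ∃ r : ℕ → ℂ, Tendsto r atTop (𝓝 0) ∧ ∀ m, (v (j + n0 * m) : ℂ) =
      (ρ : ℂ) ^ (n0 * m) * ((j + n0 * m).choose d : ℂ) *
        (∑ i, (if ‖l i‖ = ρ ∧ ex i = d then c i * l i ^ (j - d) * nz (l i) ^ (n0 * m) else 0) +
          r m) := by
  classical
  let low : Fin k → Prop := fun i => (‖l i‖ = ρ ∧ ex i < d) ∨ ‖l i‖ < ρ
  refine ⟨fun m => ∑ i, (if low i then c i * ((j + n0 * m).choose (ex i) : ℂ) *
      l i ^ (j + n0 * m - ex i) / ((ρ : ℂ) ^ (n0 * m) * ((j + n0 * m).choose d : ℂ)) else 0), ?_, ?_⟩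
  · have hz0 : 𝓝 (0 : ℂ) = 𝓝 (∑ _i : Fin k, (0 : ℂ)) := by simp
    rw [hz0]
    apply tendsto_finsetSum
    intro i _
    by_cases hi : low i
    swap
    · simp only [hi, if_false]
      exact tendsto_const_nhds
    simp only [hi, if_true]
    rw [tendsto_zero_iff_norm_tendsto_zero]
    have hρC : ∀ m : ℕ, ‖(ρ : ℂ) ^ (n0 * m)‖ = ρ ^ (n0 * m) := by
      intro m
      rw [norm_pow, norm_real, Real.norm_of_nonneg hρ.le]
    rcases hi with ⟨h1, h2⟩ | h1
    · -- same modulus, lower degree
      have h3 : Tendsto (fun m : ℕ => ‖c i‖ * ‖l i‖ ^ (j - ex i) *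
          (((j + n0 * m).choose (ex i) : ℝ) / ((j + n0 * m).choose d : ℝ))) atTop (𝓝 0) := by
        rw [show (0 : ℝ) = ‖c i‖ * ‖l i‖ ^ (j - ex i) * 0 by ring]
        apply Tendsto.const_mul
        refine (choose_ratio_tendsto (ex i) d h2).comp ?_
        apply tendsto_atTop_mono (fun m => ?_) tendsto_id
        simp only [id]
        nlinarith
      refine h3.congr fun m => ?_
      have h4 : l i ^ (j + n0 * m - ex i) = l i ^ (j - ex i) * l i ^ (n0 * m) := by
        rw [← pow_add]
        congr 1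
        have := hex i
        omega
      rw [norm_div, norm_mul, norm_mul, norm_mul, hρC, h4, norm_mul, norm_pow, norm_pow, h1,
        Complex.norm_natCast, Complex.norm_natCast]
      have h5 : ρ ^ (n0 * m) ≠ 0 := by positivity
      have h6 : ((j + n0 * m).choose d : ℝ) ≠ 0 := by
        exact_mod_cast (Nat.choose_pos (by omega)).ne'
      field_simp
    · -- smaller modulus
      have hq0 : 0 ≤ (‖l i‖ / ρ) ^ n0 := by positivity
      have hq1 : (‖l i‖ / ρ) ^ n0 < 1 := by
        apply pow_lt_one₀ (by positivity) _ hn0.ne'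
        rwa [div_lt_one hρ]
      have h3 := (poly_geom_tendsto (ex i) j n0 _ hq0 hq1).const_mul (‖c i‖ * ‖l i‖ ^ (j - ex i))
      rw [mul_zero] at h3
      refine squeeze_zero (fun m => norm_nonneg _) (fun m => ?_) h3
      have h4 : l i ^ (j + n0 * m - ex i) = l i ^ (j - ex i) * l i ^ (n0 * m) := by
        rw [← pow_add]
        congr 1
        have := hex i
        omega
      rw [norm_div, norm_mul, norm_mul, norm_mul, hρC, h4, norm_mul, norm_pow, norm_pow,
        Complex.norm_natCast, Complex.norm_natCast, ← pow_mul, div_pow]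
      have h5 : (0 : ℝ) < ρ ^ (n0 * m) := by positivity
      have h6 : (1 : ℝ) ≤ ((j + n0 * m).choose d : ℝ) := by
        exact_mod_cast Nat.choose_pos (by omega)
      rw [div_le_iff₀ (by positivity)]
      have h7 : ‖c i‖ * ‖l i‖ ^ (j - ex i) * (((j + n0 * m).choose (ex i) : ℝ) *
          (‖l i‖ ^ (n0 * m) / ρ ^ (n0 * m))) * (ρ ^ (n0 * m) * ((j + n0 * m).choose d : ℝ)) =
          (‖c i‖ * ((j + n0 * m).choose (ex i) : ℝ) * (‖l i‖ ^ (j - ex i) * ‖l i‖ ^ (n0 * m))) *
            ((j + n0 * m).choose d : ℝ) := by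
        field_simp
      rw [h7]
      exact le_mul_of_one_le_right (by positivity) h6
  · intro m
    have hρC : (ρ : ℂ) ^ (n0 * m) ≠ 0 := by
      apply pow_ne_zero
      exact_mod_cast hρ.ne'
    have hCC : ((j + n0 * m).choose d : ℂ) ≠ 0 := by
      exact_mod_cast (Nat.choose_pos (by omega)).ne'
    rw [← hv, mul_add, Finset.mul_sum, Finset.mul_sum]
    refine Eq.trans ?_ (zero_add _)
    refine Eq.trans ?_ (congrArg (· + _) (hvan m))
    rw [← Finset.sum_add_distrib, ← Finset.sum_add_distrib]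
    apply Finset.sum_congr rfl
    intro i _
    have hlev : ‖l i‖ = ρ → ex i = d → c i * ((j + n0 * m).choose (ex i) : ℂ) *
        l i ^ (j + n0 * m - ex i) = (ρ : ℂ) ^ (n0 * m) * ((j + n0 * m).choose d : ℂ) *
        (c i * l i ^ (j - d) * nz (l i) ^ (n0 * m)) := by
      intro h1 h2
      have h4 : l i ^ (j + n0 * m - ex i) = l i ^ (j - d) * l i ^ (n0 * m) := by
        rw [← pow_add, h2]
        congr 1
        omega
      have h5 : l i ^ (n0 * m) = (ρ : ℂ) ^ (n0 * m) * nz (l i) ^ (n0 * m) := by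
        rw [← mul_pow, ← h1, nz_mul_norm]
      rw [h4, h5, h2]
      ring
    have hlow : ∀ x : ℂ, (ρ : ℂ) ^ (n0 * m) * ((j + n0 * m).choose d : ℂ) *
        (x / ((ρ : ℂ) ^ (n0 * m) * ((j + n0 * m).choose d : ℂ))) = x := by
      intro x
      field_simp
    rcases lt_trichotomy (‖l i‖) ρ with h | h | h
    · have e1 : ¬ q i := by
        rw [hq]
        rintro (h' | h')
        · linarith
        · linarith [h'.1]
      have e2 : ¬ (‖l i‖ = ρ ∧ ex i = d) := fun h' => by linarith [h'.1]
      have e3 : low i := Or.inr h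
      rw [if_neg e1, if_neg e2, if_pos e3, hlow]
      ring
    · rcases lt_trichotomy (ex i) d with h' | h' | h'
      · have e1 : ¬ q i := by
          rw [hq]
          rintro (h'' | h'')
          · linarith
          · omega
        have e2 : ¬ (‖l i‖ = ρ ∧ ex i = d) := fun h'' => by omega
        have e3 : low i := Or.inl ⟨h, h'⟩
        rw [if_neg e1, if_neg e2, if_pos e3, hlow]
        ring
      · have e1 : ¬ q i := by
          rw [hq]
          rintro (h'' | h'')
          · linarith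
          · omega
        have e2 : (‖l i‖ = ρ ∧ ex i = d) := ⟨h, h'⟩
        have e3 : ¬ low i := by
          rintro (h'' | h'')
          · omega
          · linarith
        rw [if_neg e1, if_pos e2, if_neg e3, hlev h h']
        ring
      · have e1 : q i := by
          rw [hq]
          exact Or.inr ⟨h, hρ, h'⟩
        have e2 : ¬ (‖l i‖ = ρ ∧ ex i = d) := fun h'' => by omega
        have e3 : ¬ low i := by
          rintro (h'' | h'')
          · omega
          · linarith
        rw [if_pos e1, if_neg e2, if_neg e3]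
        ring
    · have e1 : q i := by
        rw [hq]
        exact Or.inl h
      have e2 : ¬ (‖l i‖ = ρ ∧ ex i = d) := fun h'' => by linarith [h''.1]
      have e3 : ¬ low i := by
        rintro (h'' | h'')
        · linarith [h''.1]
        · linarith
      rw [if_pos e1, if_neg e2, if_neg e3]
      ring

/-- bounds for the binomial coefficient on a class -/
lemma choose_upper (j n0 d m : ℕ) (hm : 0 < m) :
    ((j + n0 * m).choose d : ℝ) ≤ ((j + n0 : ℕ) : ℝ) ^ d * (m : ℝ) ^ d := by
  have h3 : (j + n0 * m).choose d ≤ (j + n0 * m) ^ d := Nat.choose_le_pow _ _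
  have h4 : (j + n0 * m) ^ d ≤ ((j + n0) * m) ^ d := by
    apply Nat.pow_le_pow_left
    nlinarith
  rw [mul_pow] at h4
  exact_mod_cast h3.trans h4

lemma choose_lower (j n0 d m : ℕ) (hj : d ≤ j) (hn0 : 0 < n0) :
    (m : ℝ) ^ d ≤ (d.factorial : ℝ) * ((j + n0 * m).choose d : ℝ) := by
  have h1 := Nat.pow_le_choose (α := ℝ) d (j + n0 * m)
  have h2 : (m : ℝ) ^ d ≤ ((j + n0 * m + 1 - d : ℕ) : ℝ) ^ d := by
    apply pow_le_pow_left₀ (Nat.cast_nonneg _)
    have : m ≤ j + n0 * m + 1 - d := by
      have : m ≤ n0 * m := Nat.le_mul_of_pos_left m hn0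
      omega
    exact_mod_cast this
  have h3 : (0 : ℝ) < d.factorial := by exact_mod_cast d.factorial_pos
  rw [div_le_iff₀ h3] at h1
  rw [mul_comm]
  exact h2.trans h1

/-- an almost periodic function tending to zero vanishes -/
lemma ap_zero {ι : Type*} [Fintype ι] (u G : ι → ℂ) (hu : ∀ i, ‖u i‖ = 1)
    (hinj : Function.Injective u)
    (h : Tendsto (fun m : ℕ => ∑ i, G i * u i ^ m) atTop (𝓝 0)) (i0 : ι) : G i0 = 0 := by
  classical
  have hu0 : ∀ i, u i ≠ 0 := fun i => by
    rw [← norm_pos_iff, hu]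
    exact one_pos
  -- Cesaro mean of `f m * u i0 ^ (-m)`
  have h1 : Tendsto (fun m : ℕ => (∑ i, G i * u i ^ m) * (u i0)⁻¹ ^ m) atTop (𝓝 0) := by
    rw [tendsto_zero_iff_norm_tendsto_zero] at h ⊢
    refine h.congr fun m => ?_
    rw [norm_mul, norm_pow, norm_inv, hu, inv_one, one_pow, mul_one]
  have h2 := h1.cesaro_smul
  have h3 : ∀ i, Tendsto (fun n : ℕ => ((n : ℝ))⁻¹ • ∑ m ∈ Finset.range n, G i * (u i * (u i0)⁻¹) ^ m)
      atTop (𝓝 (if i = i0 then G i0 else 0)) := by
    intro i
    split_ifs with hi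
    · rw [hi, mul_inv_cancel₀ (hu0 i0)]
      apply tendsto_nhds_of_eventually_eq
      filter_upwards [eventually_gt_atTop 0] with n hn
      simp only [one_pow, mul_one, Finset.sum_const, Finset.card_range, nsmul_eq_mul]
      rw [real_smul]
      have : (n : ℂ) ≠ 0 := by exact_mod_cast hn.ne'
      push_cast
      field_simp
    · set w := u i * (u i0)⁻¹ with hw
      have hw1 : w ≠ 1 := by
        intro h'
        apply hi
        apply hinj
        rw [hw, mul_inv_eq_one₀ (hu0 i0)] at h'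
        exact h'
      have hwn : ‖w‖ = 1 := by rw [hw, norm_mul, norm_inv, hu, hu, inv_one, mul_one]
      rw [tendsto_zero_iff_norm_tendsto_zero]
      have h5 : Tendsto (fun n : ℕ => ((n : ℝ))⁻¹ * (‖G i‖ * (2 / ‖w - 1‖))) atTop (𝓝 0) := by
        have := (tendsto_inv_atTop_nhds_zero_nat (𝕜 := ℝ)).mul_const (‖G i‖ * (2 / ‖w - 1‖))
        rwa [zero_mul] at this
      refine squeeze_zero (fun n => norm_nonneg _) (fun n => ?_) h5
      rw [norm_smul, norm_inv, Real.norm_of_nonneg (Nat.cast_nonneg n)]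
      apply mul_le_mul_of_nonneg_left _ (by positivity)
      rw [← Finset.mul_sum, geom_sum_eq hw1, norm_mul, norm_div]
      apply mul_le_mul_of_nonneg_left _ (norm_nonneg _)
      apply div_le_div_of_nonneg_right _ (norm_nonneg _)
      calc ‖w ^ n - 1‖ ≤ ‖w ^ n‖ + ‖(1 : ℂ)‖ := norm_sub_le _ _
        _ = 2 := by rw [norm_pow, hwn, one_pow, norm_one]; norm_num
  have h4 : Tendsto (fun n : ℕ => ∑ i, ((n : ℝ))⁻¹ • ∑ m ∈ Finset.range n, G i * (u i * (u i0)⁻¹) ^ m)
      atTop (𝓝 (∑ i, (if i = i0 then G i0 else 0))) :=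
    tendsto_finsetSum _ fun i _ => h3 i
  rw [Finset.sum_ite_eq' Finset.univ i0] at h4
  simp only [Finset.mem_univ, if_true] at h4
  refine tendsto_nhds_unique h4 (h2.congr fun n => ?_)
  rw [← Finset.smul_sum, Finset.sum_comm]
  congr 1
  apply Finset.sum_congr rfl
  intro m _
  rw [Finset.sum_mul]
  apply Finset.sum_congr rfl
  intro i _
  rw [mul_pow]
  ring

end Pool.Agent.DD7719.M
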