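import Pool.Agent.DD7719.GEnd

/-! Package G: growth of the sequence on a class without certificate. -/

set_option autoImplicit false

namespace Pool.Agent.DD7719.M

open Complex Filter Topology

variable {k : ℕ}

/-- sums over fibers -/
lemma sum_fiber_gen {α : Type*} [DecidableEq α] (I : Finset (Fin k)) (κ : Fin k → α) (C : Fin k → ℂ)
    (φ : α → ℂ) :
    ∑ p ∈ I.image κ, (∑ i ∈ I with κ i = p, C i) * φ p = ∑ i ∈ I, C i * φ (κ i) := by
  rw [← Finset.sum_fiberwise_of_maps_to (t := I.image κ) (g := κ)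
    (fun i hi => Finset.mem_image_of_mem _ hi)]
  apply Finset.sum_congr rfl
  intro p _
  rw [Finset.sum_mul]
  apply Finset.sum_congr rfl
  intro i hi
  rw [(Finset.mem_filter.mp hi).2]

open scoped Classical in
theorem class_growth (l c : Fin k → ℂ) (ex : Fin k → ℕ) (hk : 0 < k) (hex : ∀ i, ex i < k)
    (n0 j : ℕ) (hn0 : 0 < n0) (hj : k ≤ j)
    (hac : ∀ i, IsIntegral ℚ (c i)) (hal : ∀ i, IsIntegral ℚ (l i))
    (htor : ∀ i i', l i ≠ 0 → l i' ≠ 0 → ∀ n : ℕ, 0 < n → (l i / l i') ^ (n0 * n) = 1 →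
      (l i / l i') ^ n0 = 1)
    (s : ℕ) (A : Fin k → Fin k → ℤ) (x : Fin k → ℝ) (hx0 : ∀ t : Fin k, s ≤ (t : ℕ) → x t = 0)
    (hx : ∀ i, (nz (l i) ^ n0).arg = ∑ t, x t * (A t i : ℝ))
    (v : ℕ → ℝ)
    (hv : ∀ n, ∑ i, c i * (n.choose (ex i) : ℂ) * l i ^ (n - ex i) = (v n : ℂ))
    (hno1 : ¬ ∀ m < k, ∑ i, (if Above 0 0 (l i) (ex i) then
      c i * ((j + n0 * m).choose (ex i) : ℂ) * l i ^ (j + n0 * m - ex i) else 0) = 0)
    (hno2 : ∀ (ρ : ℝ) (d : ℕ), 0 < ρ → d < k → (∀ m < k, ∑ i, (if Above ρ d (l i) (ex i) then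
      c i * ((j + n0 * m).choose (ex i) : ℂ) * l i ^ (j + n0 * m - ex i) else 0) = 0) →
      ∀ z z' : Fin k → ℂ, (∀ t, ‖z t‖ = 1) → (∀ t, ‖z' t‖ = 1) →
      ¬ ((∑ i, (if ‖l i‖ = ρ ∧ ex i = d then c i * l i ^ (j - d) *
        ∏ t : Fin k, (if (t : ℕ) < s then z t ^ A t i else 1) else 0)).re < 0 ∨
      (0 < d ∧
        (∑ i, (if ‖l i‖ = ρ ∧ ex i = d then c i * l i ^ (j - d) *
          ∏ t : Fin k, (if (t : ℕ) < s then z t ^ A t i else 1) else 0)).re ≤ 0 ∧
        (∑ i, (if ‖l i‖ = ρ ∧ ex i = d then c i * l i ^ (j - d) *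
          ∏ t : Fin k, (if (t : ℕ) < s then z' t ^ A t i else 1) else 0)).re ≠ 0))) :
    ∃ ρ : ℝ, 0 < ρ ∧ ∃ d, Growth v n0 j ρ d := by
  classical
  set μ : Fin k → ℂ := fun i => nz (l i) ^ n0 with hμ
  have hμn : ∀ i, ‖μ i‖ = 1 := fun i => by rw [hμ]; simp only [norm_pow, norm_nz, one_pow]
  set X : Fin k → ℂ := fun i => l i ^ n0 with hX
  set κ : Fin k → ℂ × ℕ := fun i => (X i, ex i) with hκ
  set C : Fin k → ℂ := fun i => c i * l i ^ (j - ex i) with hC
  set G : ℂ × ℕ → ℂ := fun p => ∑ i with κ i = p, C i with hG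
  have hXeq : ∀ i i', X i = X i' → ‖l i‖ = ‖l i'‖ := by
    intro i i' h
    have h1 : ‖l i‖ ^ n0 = ‖l i'‖ ^ n0 := by
      rw [← norm_pow, ← norm_pow]
      exact congrArg norm h
    exact (pow_left_inj₀ (norm_nonneg _) (norm_nonneg _) hn0.ne').mp h1
  have hfib : ∀ (q : Fin k → Prop), (∀ i i', κ i = κ i' → q i → q i') → ∀ p ∈
      (Finset.univ.filter q).image κ, (∑ i ∈ Finset.univ.filter q with κ i = p, C i) = G p := by
    intro q hq p hp
    obtain ⟨i0, hi0, rfl⟩ := Finset.mem_image.mp hp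
    rw [hG]
    apply Finset.sum_congr _ (fun _ _ => rfl)
    ext i
    simp only [Finset.mem_filter, Finset.mem_univ, true_and]
    constructor
    · exact fun h => h.2
    · exact fun h => ⟨hq i0 i h.symm (Finset.mem_filter.mp hi0).2, h⟩
  have hterm : ∀ i m, c i * ((j + n0 * m).choose (ex i) : ℂ) * l i ^ (j + n0 * m - ex i) =
      C i * (((j + n0 * m).choose (κ i).2 : ℂ) * (κ i).1 ^ m) := by
    intro i m
    have h1 : l i ^ (j + n0 * m - ex i) = l i ^ (j - ex i) * (l i ^ n0) ^ m := by
      rw [← pow_mul, ← pow_add]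
      congr 1
      have := hex i
      omega
    rw [h1]
    simp only [hC, hκ, hX]
    ring
  have hsumq : ∀ (q : Fin k → Prop), (∀ i i', κ i = κ i' → q i → q i') → ∀ m,
      ∑ i, (if q i then c i * ((j + n0 * m).choose (ex i) : ℂ) * l i ^ (j + n0 * m - ex i) else 0) =
        ∑ p ∈ (Finset.univ.filter q).image κ, G p * (((j + n0 * m).choose p.2 : ℂ) * p.1 ^ m) := by
    intro q hq m
    have e1 : ∑ p ∈ (Finset.univ.filter q).image κ,
        G p * (((j + n0 * m).choose p.2 : ℂ) * p.1 ^ m) =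
        ∑ p ∈ (Finset.univ.filter q).image κ,
          (∑ i ∈ Finset.univ.filter q with κ i = p, C i) *
            (((j + n0 * m).choose p.2 : ℂ) * p.1 ^ m) :=
      Finset.sum_congr rfl (fun p hp => by rw [hfib q hq p hp])
    rw [← Finset.sum_filter, e1, sum_fiber_gen]
    exact Finset.sum_congr rfl fun i _ => hterm i m
  have hinv : ∀ (ρ : ℝ) (d : ℕ) (i i' : Fin k), κ i = κ i' → Above ρ d (l i) (ex i) →
      Above ρ d (l i') (ex i') := by
    intro ρ d i i' h
    have h1 := hXeq i i' (congrArg Prod.fst h)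
    have h2 : ex i = ex i' := congrArg Prod.snd h
    unfold Above
    rw [h1, h2]
    exact id
  -- there is a nonzero level
  have hS : ∃ i, l i ≠ 0 ∧ G (κ i) ≠ 0 := by
    by_contra hS
    push Not at hS
    apply hno1
    intro m _
    rw [hsumq (fun i => Above 0 0 (l i) (ex i)) (hinv 0 0)]
    apply Finset.sum_eq_zero
    intro p hp
    obtain ⟨i0, hi0, rfl⟩ := Finset.mem_image.mp hp
    have h1 : Above 0 0 (l i0) (ex i0) := (Finset.mem_filter.mp hi0).2
    have h2 : l i0 ≠ 0 := by
      rcases h1 with h1 | h1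
      · exact norm_pos_iff.mp h1
      · exact absurd h1.2.1 (lt_irrefl _)
    rw [hS i0 h2, zero_mul]
  obtain ⟨i0, hi0, hmax, hmax'⟩ : ∃ i0, (l i0 ≠ 0 ∧ G (κ i0) ≠ 0) ∧
      (∀ i, (l i ≠ 0 ∧ G (κ i) ≠ 0) → ‖l i‖ ≤ ‖l i0‖) ∧
      (∀ i, (l i ≠ 0 ∧ G (κ i) ≠ 0) → ‖l i‖ = ‖l i0‖ → ex i ≤ ex i0) := by
    obtain ⟨i2, hi2⟩ := hS
    obtain ⟨i1, hi1, h1⟩ := Finset.exists_max_image
      (Finset.univ.filter fun i => l i ≠ 0 ∧ G (κ i) ≠ 0) (fun i => ‖l i‖)
      ⟨i2, by simpa using hi2⟩
    obtain ⟨i0, hi0, h0⟩ := Finset.exists_max_image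
      (Finset.univ.filter fun i => (l i ≠ 0 ∧ G (κ i) ≠ 0) ∧ ‖l i‖ = ‖l i1‖) (fun i => ex i)
      ⟨i1, by simpa using hi1⟩
    have h3 := (Finset.mem_filter.mp hi0).2
    refine ⟨i0, h3.1, fun i hi => ?_, fun i hi hi' => ?_⟩
    · rw [h3.2]
      exact h1 i (by simpa using hi)
    · apply h0 i
      simp only [Finset.mem_filter, Finset.mem_univ, true_and]
      exact ⟨hi, by rw [hi', h3.2]⟩
  set ρ := ‖l i0‖ with hρ
  have hρpos : 0 < ρ := norm_pos_iff.mpr hi0.1
  set d := ex i0 with hd
  have hdk : d < k := hex i0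
  have hvan : ∀ m, ∑ i, (if Above ρ d (l i) (ex i) then
      c i * ((j + n0 * m).choose (ex i) : ℂ) * l i ^ (j + n0 * m - ex i) else 0) = 0 := by
    intro m
    rw [hsumq (fun i => Above ρ d (l i) (ex i)) (hinv ρ d)]
    apply Finset.sum_eq_zero
    intro p hp
    obtain ⟨i1, hi1, rfl⟩ := Finset.mem_image.mp hp
    have h1 : Above ρ d (l i1) (ex i1) := (Finset.mem_filter.mp hi1).2
    have h2 : G (κ i1) = 0 := by
      by_contra h3
      rcases h1 with h1 | h1
      · have h4 := hmax i1 ⟨norm_pos_iff.mp (hρpos.trans h1), h3⟩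
        linarith
      · have h4 := hmax' i1 ⟨norm_pos_iff.mp (by rw [h1.1]; exact hρpos), h3⟩ h1.1
        omega
    rw [h2, zero_mul]
  have hno := hno2 ρ d hρpos hdk (fun m _ => hvan m)
  set f : (Fin k → ℂ) → ℝ := fun z => (∑ i, (if ‖l i‖ = ρ ∧ ex i = d then c i * l i ^ (j - d) *
    ∏ t : Fin k, (if (t : ℕ) < s then z t ^ A t i else 1) else 0)).re with hf
  have hf0 : ∀ z : Fin k → ℂ, (∀ t, ‖z t‖ = 1) → 0 ≤ f z := by
    intro z hz
    by_contra hcon
    push Not at hcon
    exact hno z z hz hz (Or.inl hcon)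
  have hfd : 0 < d → ∀ z z' : Fin k → ℂ, (∀ t, ‖z t‖ = 1) → (∀ t, ‖z' t‖ = 1) → f z ≤ 0 →
      f z' = 0 := by
    intro hd0 z z' hz hz' hle
    by_contra hcon
    exact hno z z' hz hz' (Or.inr ⟨hd0, hle, hcon⟩)
  -- the dominant function along the sequence
  set Fm : ℕ → ℂ := fun m => ∑ i, (if ‖l i‖ = ρ ∧ ex i = d then c i * l i ^ (j - d) *
    nz (l i) ^ (n0 * m) else 0) with hFm
  have hFmz : ∀ m : ℕ, (Fm m).re = f (fun t => exp ((m * x t : ℝ) * I)) := by
    intro m
    rw [hf, hFm]
    simp only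
    congr 1
    apply Finset.sum_congr rfl
    intro i _
    have h3 : ∀ t : Fin k, (if (t : ℕ) < s then exp ((m * x t : ℝ) * I) ^ A t i else 1) =
        exp ((m * (x t * A t i) : ℝ) * I) := by
      intro t
      split_ifs with ht
      · rw [← exp_int_mul]
        congr 1
        push_cast
        ring
      · rw [hx0 t (not_lt.mp ht)]
        simp
    have h4 : ∏ t : Fin k, (if (t : ℕ) < s then exp ((m * x t : ℝ) * I) ^ A t i else 1) =
        nz (l i) ^ (n0 * m) := by
      rw [Finset.prod_congr rfl fun t _ => h3 t, ← exp_sum, ← Finset.sum_mul, ← ofReal_sum,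
        ← Finset.mul_sum, ← hx i, pow_mul]
      conv_rhs => rw [← exp_arg (show ‖nz (l i) ^ n0‖ = 1 from hμn i), ← exp_nat_mul]
      congr 1
      push_cast
      ring
    rw [h4]
  have hunit : ∀ m : ℕ, ∀ t : Fin k, ‖exp ((m * x t : ℝ) * I)‖ = 1 := fun m t =>
    norm_exp_ofReal_mul_I _
  have hFre0 : ∀ m, 0 ≤ (Fm m).re := fun m => by
    rw [hFmz]
    exact hf0 _ (hunit m)
  obtain ⟨r, hr, hvr⟩ := asym l c ex hex j n0 d ρ hj hn0 hρpos hdk v hv _ (fun i => Iff.rfl) hvan
  have hvr' : ∀ m, (v (j + n0 * m) : ℂ) = (ρ : ℂ) ^ (n0 * m) * ((j + n0 * m).choose d : ℂ) *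
      (Fm m + r m) := hvr
  have hpos : ∀ m, 0 < ρ ^ (n0 * m) * ((j + n0 * m).choose d : ℝ) := by
    intro m
    have : 0 < (j + n0 * m).choose d := Nat.choose_pos (by omega)
    positivity
  have hcast : ∀ m, (ρ : ℂ) ^ (n0 * m) * ((j + n0 * m).choose d : ℂ) =
      ((ρ ^ (n0 * m) * ((j + n0 * m).choose d : ℝ) : ℝ) : ℂ) := by
    intro m
    push_cast
    rfl
  have hvre : ∀ m, v (j + n0 * m) = ρ ^ (n0 * m) * ((j + n0 * m).choose d : ℝ) *
      (Fm m + r m).re := by
    intro m
    have h1 := congrArg Complex.re (hvr' m)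
    rw [ofReal_re] at h1
    rw [h1, hcast, re_ofReal_mul]
  have hvim : ∀ m, (Fm m + r m).im = 0 := by
    intro m
    have h1 := congrArg Complex.im (hvr' m)
    rw [ofReal_im, hcast, im_ofReal_mul] at h1
    rcases mul_eq_zero.mp h1.symm with h2 | h2
    · exact absurd h2 (hpos m).ne'
    · exact h2
  -- upper bound
  have hG1 : ∃ B : ℝ, ∀ m : ℕ, 0 < m → |v (j + n0 * m)| ≤ B * (ρ ^ (n0 * m) * (m : ℝ) ^ d) := by
    obtain ⟨Rm, hRm⟩ : ∃ Rm : ℝ, ∀ m, ‖r m‖ ≤ Rm := by
      obtain ⟨Rm, hRm⟩ := hr.norm.bddAbove_range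
      exact ⟨Rm, fun m => hRm ⟨m, rfl⟩⟩
    set S : ℝ := ∑ i, ‖c i * l i ^ (j - d)‖ with hS
    refine ⟨((j + n0 : ℕ) : ℝ) ^ d * (S + Rm), fun m hm => ?_⟩
    rw [hvre, abs_mul, abs_of_pos (hpos _)]
    have h1 : |(Fm m + r m).re| ≤ S + Rm := by
      refine (abs_re_le_norm _).trans ((norm_add_le _ _).trans (add_le_add ?_ (hRm _)))
      rw [hFm, hS]
      refine (norm_sum_le _ _).trans (Finset.sum_le_sum fun i _ => ?_)
      split_ifs
      · rw [norm_mul (c i * l i ^ (j - d)), norm_pow, norm_nz, one_pow, mul_one]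
      · rw [norm_zero]
        exact norm_nonneg _
    have h2 := choose_upper j n0 d m hm
    have h3 : (0 : ℝ) ≤ S + Rm := (abs_nonneg _).trans h1
    calc ρ ^ (n0 * m) * ((j + n0 * m).choose d : ℝ) * |(Fm m + r m).re|
        ≤ ρ ^ (n0 * m) * (((j + n0 : ℕ) : ℝ) ^ d * (m : ℝ) ^ d) * (S + Rm) := by gcongr
      _ = _ := by ring
  refine ⟨ρ, hρpos, d, hG1, ?_⟩
  rcases Nat.eq_zero_or_pos d with hd0 | hd0
  · -- d = 0
    refine ⟨?_, fun h' => absurd h' (by omega)⟩
    -- exponential decay of the rest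
    obtain ⟨q, hq0, hq1, hq⟩ : ∃ q : ℝ, 0 < q ∧ q < 1 ∧ ∀ i, ‖l i‖ < ρ → (‖l i‖ / ρ) ^ n0 ≤ q := by
      let g : Fin k → ℝ := fun i => if ‖l i‖ < ρ then (‖l i‖ / ρ) ^ n0 else 0
      have : Nonempty (Fin k) := ⟨i0⟩
      obtain ⟨i1, hi1⟩ := Finite.exists_max g
      have hg1 : g i1 < 1 := by
        simp only [g]
        split_ifs with h
        · apply pow_lt_one₀ (by positivity) _ hn0.ne'
          rw [div_lt_one hρpos]
          exact h
        · exact zero_lt_one
      refine ⟨max (g i1) (1 / 2), by positivity, max_lt hg1 (by norm_num), fun i hi => ?_⟩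
      have := hi1 i
      simp only [g, hi, if_true] at this
      exact this.trans (le_max_left _ _)
    have hlogq : Real.log q < 0 := Real.log_neg hq0 hq1
    intro ε1 hε1
    set ε : ℝ := min ε1 (-Real.log q / 2) with hε
    have hε0 : 0 < ε := lt_min hε1 (by linarith)
    have hεq : q * Real.exp ε < 1 := by
      have h1 : q * Real.exp ε ≤ Real.exp (Real.log q / 2) := by
        calc q * Real.exp ε = Real.exp (Real.log q + ε) := by
              rw [Real.exp_add, Real.exp_log hq0]
          _ ≤ Real.exp (Real.log q / 2) := by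
              apply Real.exp_le_exp.mpr
              have := min_le_right ε1 (-Real.log q / 2)
              rw [← hε] at this
              linarith
      refine h1.trans_lt ?_
      rw [Real.exp_lt_one_iff]
      linarith
    set 𝒳 : Finset (ℂ × ℕ) := ((Finset.univ.filter fun i => ‖l i‖ = ρ ∧ ex i = d).image κ).filter
      fun p => G p ≠ 0 with h𝒳
    have hXmem : κ i0 ∈ 𝒳 := by
      rw [h𝒳, Finset.mem_filter]
      refine ⟨Finset.mem_image_of_mem _ ?_, hi0.2⟩
      simp [hρ, hd]
    have hmem𝒳 : ∀ p ∈ 𝒳, ∃ i, ‖l i‖ = ρ ∧ κ i = p ∧ G p ≠ 0 := by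
      intro p hp
      rw [h𝒳, Finset.mem_filter] at hp
      obtain ⟨i, hi, rfl⟩ := Finset.mem_image.mp hp.1
      exact ⟨i, (Finset.mem_filter.mp hi).2.1, rfl, hp.2⟩
    have hmem𝒳2 : ∀ p ∈ 𝒳, p.2 = d := by
      intro p hp
      rw [h𝒳, Finset.mem_filter] at hp
      obtain ⟨i, hi, rfl⟩ := Finset.mem_image.mp hp.1
      exact (Finset.mem_filter.mp hi).2.2
    have hne : Nonempty 𝒳 := ⟨⟨κ i0, hXmem⟩⟩
    have hlow := lower_bound_complex' (ι := 𝒳) (fun p => G p) (fun p => (p : ℂ × ℕ).1)
      (fun p => (hmem𝒳 p p.2).choose_spec.2.2) (fun p => by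
        obtain ⟨i, h1, h2, _⟩ := hmem𝒳 p p.2
        rw [← h2]
        apply pow_ne_zero
        rw [← norm_pos_iff, h1]
        exact hρpos) (fun p => by
        simp only [hG]
        apply IsIntegral.sum
        intro i _
        exact (hac i).mul ((hal i).pow _)) (fun p => by
        obtain ⟨i, h1, h2, _⟩ := hmem𝒳 p p.2
        rw [← h2]
        exact (hal i).pow n0) (ρ ^ n0) (fun p => by
        obtain ⟨i, h1, h2, _⟩ := hmem𝒳 p p.2
        rw [← h2, hκ, hX]
        simp only [norm_pow, h1]) (fun p p' hpp n hn h => by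
        obtain ⟨i, h1, h2, _⟩ := hmem𝒳 p p.2
        obtain ⟨i', h1', h2', _⟩ := hmem𝒳 p' p'.2
        have hli : l i ≠ 0 := by rw [← norm_pos_iff, h1]; exact hρpos
        have hli' : l i' ≠ 0 := by rw [← norm_pos_iff, h1']; exact hρpos
        apply hpp
        apply Subtype.ext
        have h3 : (l i / l i') ^ (n0 * n) = 1 := by
          have e1 : (p : ℂ × ℕ).1 = l i ^ n0 := by rw [← h2]
          have e2 : (p' : ℂ × ℕ).1 = l i' ^ n0 := by rw [← h2']
          simp only [e1, e2] at h
          rw [div_pow, div_eq_one_iff_eq (pow_ne_zero _ hli'), pow_mul (l i) n0 n,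
            pow_mul (l i') n0 n]
          exact h
        have h5 := htor i i' hli hli' n hn h3
        rw [div_pow, div_eq_one_iff_eq (pow_ne_zero _ hli')] at h5
        apply Prod.ext
        · rw [← h2, ← h2']
          exact h5
        · rw [hmem𝒳2 p p.2, hmem𝒳2 p' p'.2]) (ε / 2) (by positivity)
    -- the sum over 𝒳
    have hlevinv : ∀ i i', κ i = κ i' → (‖l i‖ = ρ ∧ ex i = d) → (‖l i'‖ = ρ ∧ ex i' = d) := by
      intro i i' h h'
      have h1 := hXeq i i' (congrArg Prod.fst h)
      have h2 : ex i = ex i' := congrArg Prod.snd h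
      exact ⟨by rw [← h1]; exact h'.1, by rw [← h2]; exact h'.2⟩
    have hsumlev : ∀ m, ∑ i, (if ‖l i‖ = ρ ∧ ex i = d then
        c i * ((j + n0 * m).choose (ex i) : ℂ) * l i ^ (j + n0 * m - ex i) else 0) =
        ∑ p ∈ (Finset.univ.filter fun i => ‖l i‖ = ρ ∧ ex i = d).image κ,
          G p * (((j + n0 * m).choose p.2 : ℂ) * p.1 ^ m) := by
      intro m
      refine Eq.trans (Finset.sum_congr rfl fun i _ => ?_)
        ((hsumq (fun i => ‖l i‖ = ρ ∧ ex i = d) hlevinv m).trans (Finset.sum_congr ?_ fun _ _ => rfl))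
      · split_ifs <;> rfl
      · ext p
        simp only [Finset.mem_image, Finset.mem_filter]
    have hsum𝒳 : ∀ m, ∑ p : 𝒳, G p * (p : ℂ × ℕ).1 ^ m = (ρ : ℂ) ^ (n0 * m) * Fm m := by
      intro m
      have h1 := hsumlev m
      have h2 : (ρ : ℂ) ^ (n0 * m) * Fm m = ∑ i, (if ‖l i‖ = ρ ∧ ex i = d then
          c i * ((j + n0 * m).choose (ex i) : ℂ) * l i ^ (j + n0 * m - ex i) else 0) := by
        rw [hFm]
        simp only
        rw [Finset.mul_sum]
        apply Finset.sum_congr rfl
        intro i _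
        split_ifs with h
        · have h3 := nz_mul_norm (l i)
          rw [h.1] at h3
          have h4 : l i ^ (j + n0 * m - ex i) = l i ^ (j - d) * l i ^ (n0 * m) := by
            rw [← pow_add, h.2]
            congr 1
            omega
          have h5 : l i ^ (n0 * m) = (ρ : ℂ) ^ (n0 * m) * nz (l i) ^ (n0 * m) := by
            rw [← mul_pow, h3]
          rw [h4, h5, h.2, hd0, Nat.choose_zero_right]
          push_cast
          ring
        · rw [mul_zero]
      rw [h2, h1]
      rw [Finset.sum_coe_sort 𝒳 (fun p => G p * p.1 ^ m), h𝒳, Finset.sum_filter]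
      apply Finset.sum_congr rfl
      intro p hp
      have hp2 : p.2 = d := by
        obtain ⟨i, hi, rfl⟩ := Finset.mem_image.mp hp
        exact (Finset.mem_filter.mp hi).2.2
      split_ifs with h
      · rw [hp2, hd0, Nat.choose_zero_right]
        push_cast
        ring
      · push Not at h
        rw [h, zero_mul]
    -- the remainder decays exponentially
    set Bm : ℕ → ℂ := fun m => ∑ i, (if ‖l i‖ < ρ then c i * ((j + n0 * m).choose (ex i) : ℂ) *
      l i ^ (j + n0 * m - ex i) else 0) with hBm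
    have hdec : ∀ m, (v (j + n0 * m) : ℂ) = (ρ : ℂ) ^ (n0 * m) * Fm m + Bm m := by
      intro m
      have h2 : (ρ : ℂ) ^ (n0 * m) * Fm m = ∑ i, (if ‖l i‖ = ρ ∧ ex i = d then
          c i * ((j + n0 * m).choose (ex i) : ℂ) * l i ^ (j + n0 * m - ex i) else 0) := by
        rw [← hsum𝒳 m, hsumlev m,
          Finset.sum_coe_sort 𝒳 (fun p => G p * p.1 ^ m), h𝒳, Finset.sum_filter]
        apply Finset.sum_congr rfl
        intro p hp
        have hp2 : p.2 = d := by
          obtain ⟨i, hi, rfl⟩ := Finset.mem_image.mp hp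
          exact (Finset.mem_filter.mp hi).2.2
        split_ifs with h
        · rw [hp2, hd0, Nat.choose_zero_right]
          push_cast
          ring
        · push Not at h
          rw [h, zero_mul]
      rw [h2, hBm]
      refine Eq.trans (hv _).symm ?_
      refine Eq.trans ?_ (zero_add _)
      refine Eq.trans ?_ (congrArg (· + _) (hvan m))
      rw [← Finset.sum_add_distrib, ← Finset.sum_add_distrib]
      apply Finset.sum_congr rfl
      intro i _
      rcases lt_trichotomy (‖l i‖) ρ with h | h | h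
      · have e1 : ¬ Above ρ d (l i) (ex i) := by
          rintro (h' | h')
          · linarith
          · linarith [h'.1]
        rw [if_neg e1, if_neg (fun h' => by linarith [h'.1]), if_pos h]
        ring
      · rcases Nat.eq_zero_or_pos (ex i) with h' | h'
        · have e1 : ¬ Above ρ d (l i) (ex i) := by
            rintro (h'' | h'')
            · linarith
            · omega
          rw [if_neg e1, if_pos ⟨h, by rw [h', hd0]⟩, if_neg (by linarith)]
          ring
        · have e1 : Above ρ d (l i) (ex i) := Or.inr ⟨h, hρpos, by omega⟩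
          rw [if_pos e1, if_neg (fun h'' => by omega), if_neg (by linarith)]
          ring
      · have e1 : Above ρ d (l i) (ex i) := Or.inl h
        rw [if_pos e1, if_neg (fun h' => by linarith [h'.1]), if_neg (by linarith)]
        ring
    have hBdecay : Tendsto (fun m : ℕ => ‖Bm m‖ * (Real.exp ε ^ m / ρ ^ (n0 * m))) atTop (𝓝 0) := by
      have h1 : Tendsto (fun m : ℕ => ∑ i, (if ‖l i‖ < ρ then ‖c i‖ * ‖l i‖ ^ (j - ex i) *
          (((j + n0 * m).choose (ex i) : ℝ) * (q * Real.exp ε) ^ m) else 0)) atTop (𝓝 0) := by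
        have hz0 : 𝓝 (0 : ℝ) = 𝓝 (∑ _i : Fin k, (0 : ℝ)) := by simp
        rw [hz0]
        apply tendsto_finsetSum
        intro i _
        split_ifs
        · have := (poly_geom_tendsto (ex i) j n0 (q * Real.exp ε) (by positivity) hεq).const_mul
            (‖c i‖ * ‖l i‖ ^ (j - ex i))
          rwa [mul_zero] at this
        · exact tendsto_const_nhds
      refine squeeze_zero (fun m => by positivity) (fun m => ?_) h1
      rw [hBm]
      simp only
      have h2 : (0 : ℝ) ≤ Real.exp ε ^ m / ρ ^ (n0 * m) := by positivity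
      refine (mul_le_mul_of_nonneg_right (norm_sum_le _ _) h2).trans ?_
      rw [Finset.sum_mul]
      apply Finset.sum_le_sum
      intro i _
      split_ifs with h
      · have h4 : l i ^ (j + n0 * m - ex i) = l i ^ (j - ex i) * l i ^ (n0 * m) := by
          rw [← pow_add]
          congr 1
          have := hex i
          omega
        rw [h4, norm_mul, norm_mul, norm_mul, norm_pow, norm_pow, Complex.norm_natCast]
        have h5 : ‖l i‖ ^ (n0 * m) / ρ ^ (n0 * m) ≤ q ^ m := by
          rw [← div_pow, pow_mul]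
          exact pow_le_pow_left₀ (by positivity) (hq i h) _
        calc ‖c i‖ * ((j + n0 * m).choose (ex i) : ℝ) * (‖l i‖ ^ (j - ex i) * ‖l i‖ ^ (n0 * m)) *
              (Real.exp ε ^ m / ρ ^ (n0 * m))
            = ‖c i‖ * ‖l i‖ ^ (j - ex i) * (((j + n0 * m).choose (ex i) : ℝ) *
              ((‖l i‖ ^ (n0 * m) / ρ ^ (n0 * m)) * Real.exp ε ^ m)) := by
              field_simp
          _ ≤ ‖c i‖ * ‖l i‖ ^ (j - ex i) * (((j + n0 * m).choose (ex i) : ℝ) *
              (q ^ m * Real.exp ε ^ m)) := by gcongr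
          _ = _ := by rw [← mul_pow]
      · rw [norm_zero, zero_mul]
    have hev1 := hBdecay.eventually_lt_const (zero_lt_one)
    have hev2 : ∀ᶠ m : ℕ in atTop, 3 ≤ Real.exp (ε / 2 * m) := by
      have h1 : Tendsto (fun m : ℕ => Real.exp (ε / 2 * m)) atTop atTop :=
        Real.tendsto_exp_atTop.comp
          (tendsto_natCast_atTop_atTop.const_mul_atTop (by positivity : 0 < ε / 2))
      exact h1.eventually_ge_atTop 3
    filter_upwards [hlow, hev1, hev2] with m h1 h2 h3
    set P : ℝ := ρ ^ (n0 * m) with hP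
    have hP0 : 0 < P := by positivity
    rw [hsum𝒳 m, ← pow_mul, ← hP] at h1
    set F : ℂ := (ρ : ℂ) ^ (n0 * m) * Fm m with hF
    have hFre : 0 ≤ F.re := by
      rw [hF, show (ρ : ℂ) ^ (n0 * m) = ((ρ ^ (n0 * m) : ℝ) : ℂ) by push_cast; rfl, re_ofReal_mul]
      exact mul_nonneg hP0.le (hFre0 m)
    have hFB : F + Bm m = (v (j + n0 * m) : ℂ) := (hdec m).symm
    have hFim : |F.im| ≤ ‖Bm m‖ := by
      have h1 := congrArg Complex.im hFB
      rw [add_im, ofReal_im] at h1
      have h2 : F.im = -(Bm m).im := by linarith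
      rw [h2, abs_neg]
      exact abs_im_le_norm (Bm m)
    have hFn : ‖F‖ ≤ F.re + ‖Bm m‖ := by
      refine (norm_le_abs_re_add_abs_im F).trans ?_
      rw [abs_of_nonneg hFre]
      linarith
    have hvre' : v (j + n0 * m) = F.re + (Bm m).re := by
      have h1 := congrArg Complex.re hFB
      rw [add_re, ofReal_re] at h1
      exact h1.symm
    have hBre : -‖Bm m‖ ≤ (Bm m).re := (abs_le.mp (abs_re_le_norm (Bm m))).1
    -- numbers
    set E : ℝ := Real.exp (-(ε * m)) with hE
    have hE0 : 0 < E := Real.exp_pos _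
    have hEe : Real.exp ε ^ m * E = 1 := by
      rw [hE, ← Real.exp_nat_mul, ← Real.exp_add]
      ring_nf
      exact Real.exp_zero
    have hBle : ‖Bm m‖ ≤ P * E := by
      have h4 : ‖Bm m‖ * (Real.exp ε ^ m / P) * (P * E) = ‖Bm m‖ := by
        calc _ = ‖Bm m‖ * (Real.exp ε ^ m * E) * (P / P) := by ring
          _ = _ := by rw [hEe, div_self hP0.ne']; ring
      have h5 : ‖Bm m‖ * (Real.exp ε ^ m / P) * (P * E) ≤ 1 * (P * E) :=
        mul_le_mul_of_nonneg_right h2.le (by positivity)
      rw [h4, one_mul] at h5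
      exact h5
    have hhalf : Real.exp (-(ε / 2 * m)) = E * Real.exp (ε / 2 * m) := by
      rw [hE, ← Real.exp_add]
      congr 1
      ring
    have h6 : 3 * (P * E) ≤ P * Real.exp (-(ε / 2 * m)) := by
      rw [hhalf]
      have : P * E * 3 ≤ P * E * Real.exp (ε / 2 * m) := mul_le_mul_of_nonneg_left h3 (by positivity)
      linarith
    have h7 : Real.exp (-(ε1 * m)) * P ≤ P * E := by
      rw [mul_comm]
      apply mul_le_mul_of_nonneg_left _ hP0.le
      rw [hE]
      apply Real.exp_le_exp.mpr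
      have h8 : ε ≤ ε1 := min_le_left _ _
      have h9 : ε * m ≤ ε1 * m := mul_le_mul_of_nonneg_right h8 (Nat.cast_nonneg _)
      linarith
    linarith
  · -- d > 0
    have hG4 : ∃ b : ℝ, 0 < b ∧ ∀ᶠ m : ℕ in atTop, b * (ρ ^ (n0 * m) * (m : ℝ) ^ d) ≤
        v (j + n0 * m) := by
      by_cases hall : ∀ z : Fin k → ℂ, (∀ t, ‖z t‖ = 1) → 0 < f z
      · -- compactness
        have hcomp : IsCompact {z : Fin k → ℂ | ∀ t, ‖z t‖ = 1} := by
          have h1 : {z : Fin k → ℂ | ∀ t, ‖z t‖ = 1} =
              Set.pi Set.univ (fun _ : Fin k => Metric.sphere (0 : ℂ) 1) := by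
            ext z
            simp
          rw [h1]
          exact isCompact_univ_pi fun _ => isCompact_sphere 0 1
        have hcont : ContinuousOn f {z : Fin k → ℂ | ∀ t, ‖z t‖ = 1} := by
          rw [hf]
          apply Complex.continuous_re.comp_continuousOn
          apply continuousOn_finsetSum
          intro i _
          split_ifs
          · apply ContinuousOn.mul continuousOn_const
            apply continuousOn_finsetProd
            intro t _
            split_ifs
            · apply ContinuousOn.zpow₀ (continuous_apply t).continuousOn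
              intro z hz
              left
              rw [← norm_pos_iff, hz t]
              exact one_pos
            · exact continuousOn_const
          · exact continuousOn_const
        obtain ⟨z0, hz0, hmin⟩ := hcomp.exists_isMinOn ⟨fun _ => 1, fun _ => norm_one⟩ hcont
        have hb0 := hall z0 hz0
        have hfac : (0 : ℝ) < d.factorial := by exact_mod_cast d.factorial_pos
        refine ⟨f z0 / (2 * d.factorial), by positivity, ?_⟩
        have h1 := hr.norm
        rw [norm_zero] at h1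
        filter_upwards [h1.eventually_lt_const (show (0 : ℝ) < f z0 / 2 by positivity)] with m hm
        rw [hvre]
        have h2 : f z0 ≤ (Fm m).re := by
          rw [hFmz]
          exact hmin (hunit m)
        have h3 : f z0 / 2 ≤ (Fm m + r m).re := by
          rw [add_re]
          have := (abs_le.mp (abs_re_le_norm (r m))).1
          linarith
        have h4 := choose_lower j n0 d m (by omega) hn0
        have h5 : (m : ℝ) ^ d / d.factorial ≤ ((j + n0 * m).choose d : ℝ) := by
          rw [div_le_iff₀ hfac, mul_comm]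
          exact h4
        calc f z0 / (2 * d.factorial) * (ρ ^ (n0 * m) * (m : ℝ) ^ d)
            = ρ ^ (n0 * m) * ((m : ℝ) ^ d / d.factorial) * (f z0 / 2) := by field_simp
          _ ≤ ρ ^ (n0 * m) * ((j + n0 * m).choose d : ℝ) * (Fm m + r m).re := by gcongr
      · -- impossible
        exfalso
        push Not at hall
        obtain ⟨z0, hz0, hle⟩ := hall
        have hre0 : ∀ m, (Fm m).re = 0 := fun m => by
          rw [hFmz]
          exact hfd hd0 z0 _ hz0 (hunit m) hle
        have hFnorm : ∀ m, ‖Fm m‖ ≤ ‖r m‖ := by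
          intro m
          refine (norm_le_abs_re_add_abs_im (Fm m)).trans ?_
          rw [hre0, abs_zero, zero_add]
          have h1 := hvim m
          rw [add_im] at h1
          have h2 : (Fm m).im = -(r m).im := by linarith
          rw [h2, abs_neg]
          exact abs_im_le_norm (r m)
        have hFt : Tendsto Fm atTop (𝓝 0) := by
          rw [tendsto_zero_iff_norm_tendsto_zero]
          have h1 := hr.norm
          rw [norm_zero] at h1
          exact squeeze_zero (fun m => norm_nonneg _) hFnorm h1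
        set Lv : Finset (Fin k) := Finset.univ.filter fun i => ‖l i‖ = ρ ∧ ex i = d with hLv
        have hFsum : ∀ m, Fm m = ∑ u : (Lv.image μ : Finset ℂ),
            (∑ i ∈ Lv with μ i = (u : ℂ), c i * l i ^ (j - d)) * (u : ℂ) ^ m := by
          intro m
          rw [Finset.sum_coe_sort (Lv.image μ)
            (fun u => (∑ i ∈ Lv with μ i = u, c i * l i ^ (j - d)) * u ^ m),
            sum_fiber_gen Lv μ (fun i => c i * l i ^ (j - d)) (fun u => u ^ m), hLv,
            Finset.sum_filter]
          apply Finset.sum_congr rfl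
          intro i _
          split_ifs
          · rw [hμ]
            simp only
            rw [pow_mul]
          · rfl
        have hi0Lv : i0 ∈ Lv := by
          rw [hLv, Finset.mem_filter]
          exact ⟨Finset.mem_univ _, hρ.symm, hd.symm⟩
        have hap := ap_zero (ι := (Lv.image μ : Finset ℂ)) (fun u => (u : ℂ))
          (fun u => ∑ i ∈ Lv with μ i = (u : ℂ), c i * l i ^ (j - d)) (fun u => by
            obtain ⟨i, _, hi⟩ := Finset.mem_image.mp u.2
            rw [← hi]
            exact hμn i) Subtype.val_injective (hFt.congr hFsum)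
          ⟨μ i0, Finset.mem_image_of_mem _ hi0Lv⟩
        apply hi0.2
        rw [← hap, hG]
        simp only
        have hset : (Finset.univ.filter fun i => κ i = κ i0) = Lv.filter fun i => μ i = μ i0 := by
          ext i
          simp only [Finset.mem_filter, Finset.mem_univ, true_and, hLv]
          have hXμ : ∀ i, ‖l i‖ = ρ → X i = (ρ : ℂ) ^ n0 * μ i := by
            intro i h
            have h2 := nz_mul_norm (l i)
            rw [h] at h2
            rw [hX, hμ]
            simp only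
            rw [← mul_pow, h2]
          have hρC : (ρ : ℂ) ^ n0 ≠ 0 := by
            apply pow_ne_zero
            exact_mod_cast hρpos.ne'
          constructor
          · intro h
            have h1 : ‖l i‖ = ρ := hXeq i i0 (congrArg Prod.fst h)
            have h2 : ex i = d := congrArg Prod.snd h
            have h3 : X i = X i0 := congrArg Prod.fst h
            rw [hXμ i h1, hXμ i0 rfl] at h3
            exact ⟨⟨h1, h2⟩, mul_left_cancel₀ hρC h3⟩
          · rintro ⟨⟨h1, h2⟩, h3⟩
            rw [hκ]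
            apply Prod.ext
            · simp only
              rw [hXμ i h1, hXμ i0 rfl, h3]
            · exact h2
        rw [hset]
        apply Finset.sum_congr rfl
        intro i hi
        rw [Finset.mem_filter, hLv, Finset.mem_filter] at hi
        rw [hC]
        simp only
        rw [hi.1.2.2]
    refine ⟨?_, fun _ => hG4⟩
    intro ε hε
    obtain ⟨b, hb, hev⟩ := hG4
    have h1 : Tendsto (fun m : ℕ => Real.exp (-(ε * m))) atTop (𝓝 0) := by
      apply Real.tendsto_exp_atBot.comp
      have : Tendsto (fun m : ℕ => ε * (m : ℝ)) atTop atTop :=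
        tendsto_natCast_atTop_atTop.const_mul_atTop hε
      exact tendsto_neg_atTop_atBot.comp this
    filter_upwards [hev, h1.eventually_lt_const hb, eventually_gt_atTop 0] with m h2 h3 h4
    refine le_trans ?_ h2
    have h5 : (1 : ℝ) ≤ (m : ℝ) ^ d := by
      apply one_le_pow₀
      exact_mod_cast h4
    have h6 : (0 : ℝ) < ρ ^ (n0 * m) := by positivity
    calc Real.exp (-(ε * m)) * ρ ^ (n0 * m) ≤ b * ρ ^ (n0 * m) := by gcongr
      _ = b * (ρ ^ (n0 * m) * 1) := by ring
      _ ≤ b * (ρ ^ (n0 * m) * (m : ℝ) ^ d) := by gcongr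

end Pool.Agent.DD7719.M
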