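import Pool.Agent.DD7719.GBase
import Pool.Agent.DD7719.CertComplete

/-! Package G: from growth on classes to ultimate positivity and non-criticality. -/

set_option autoImplicit false

namespace Pool.Agent.DD7719.M

open Complex Filter Topology

lemma lin_pow_geom (d s n0 : ℕ) (q : ℝ) (hq0 : 0 ≤ q) (hq : q < 1) :
    Tendsto (fun m : ℕ => ((n0 * m + s : ℕ) : ℝ) ^ d * q ^ m) atTop (𝓝 0) := by
  have h1 : Tendsto (fun m : ℕ => ((n0 + s : ℕ) : ℝ) ^ d * ((m : ℝ) ^ d * q ^ m)) atTop (𝓝 0) := by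
    have := (tendsto_pow_const_mul_const_pow_of_abs_lt_one d (r := q) (by rwa [abs_of_nonneg hq0]))
    have h2 := this.const_mul (((n0 + s : ℕ) : ℝ) ^ d)
    rwa [mul_zero] at h2
  refine squeeze_zero' (Eventually.of_forall fun m => by positivity) ?_ h1
  filter_upwards [eventually_ge_atTop 1] with m hm
  rw [← mul_assoc, ← mul_pow]
  apply mul_le_mul_of_nonneg_right _ (pow_nonneg hq0 _)
  apply pow_le_pow_left₀ (Nat.cast_nonneg _)
  have : n0 * m + s ≤ (n0 + s) * m := by nlinarith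
  exact_mod_cast this

/-- growth of the sequence on a class -/
def Growth (v : ℕ → ℝ) (n0 j : ℕ) (ρ : ℝ) (d : ℕ) : Prop :=
  (∃ B : ℝ, ∀ m : ℕ, 0 < m → |v (j + n0 * m)| ≤ B * (ρ ^ (n0 * m) * (m : ℝ) ^ d)) ∧
  (∀ ε : ℝ, 0 < ε → ∀ᶠ m : ℕ in atTop, Real.exp (-(ε * m)) * ρ ^ (n0 * m) ≤ v (j + n0 * m)) ∧
  (0 < d → ∃ b : ℝ, 0 < b ∧ ∀ᶠ m : ℕ in atTop, b * (ρ ^ (n0 * m) * (m : ℝ) ^ d) ≤ v (j + n0 * m))

lemma growth_pos {v : ℕ → ℝ} {n0 j : ℕ} {ρ : ℝ} {d : ℕ} (hρ : 0 < ρ) (h : Growth v n0 j ρ d) :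
    ∀ᶠ m : ℕ in atTop, 0 < v (j + n0 * m) := by
  filter_upwards [h.2.1 1 one_pos] with m hm
  have : 0 < Real.exp (-(1 * m)) * ρ ^ (n0 * m) := by positivity
  linarith

lemma up_of_growth (v : ℕ → ℝ) (k n0 : ℕ) (hn0 : 0 < n0)
    (h : ∀ j, k ≤ j → j < k + n0 → ∃ ρ : ℝ, 0 < ρ ∧ ∃ d, Growth v n0 j ρ d) :
    ∃ N, ∀ n, N ≤ n → 0 < v n := by
  by_contra hcon
  push Not at hcon
  obtain ⟨j, hj, hjm⟩ := exists_class (fun n => v (n + k)) n0 hn0 (fun N => by
    obtain ⟨n, hn, hv⟩ := hcon (N + k)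
    refine ⟨n - k, by omega, ?_⟩
    rwa [Nat.sub_add_cancel (by omega)])
  obtain ⟨ρ, hρ, d, hg⟩ := h (j + k) (by omega) (by omega)
  have h1 := growth_pos hρ hg
  rw [eventually_atTop] at h1
  obtain ⟨N, hN⟩ := h1
  obtain ⟨m, hm, hv⟩ := hjm N
  have h2 := hN m hm
  have h3 : j + k + n0 * m = j + n0 * m + k := by ring
  rw [h3] at h2
  linarith

lemma not_critical_of_growth (v : ℕ → ℝ) (k n0 : ℕ) (hn0 : 0 < n0)
    (h : ∀ j, k ≤ j → j < k + n0 → ∃ ρ : ℝ, 0 < ρ ∧ ∃ d, Growth v n0 j ρ d) :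
    ¬ Critical v := by
  rintro ⟨N, J, d', ρ', hN, hd', hρ', ⟨B, hB⟩, hnn, hnb⟩
  apply hnb
  -- lower bound on each residue class
  have key : ∀ r, r < n0 → ∃ b : ℝ, 0 < b ∧ ∀ᶠ m' : ℕ in atTop,
      b * (ρ' ^ (n0 * m' + (r + n0 * (k + 1))) * ((n0 * m' + (r + n0 * (k + 1)) : ℕ) : ℝ) ^ d') ≤
        v (N * (n0 * m' + (r + n0 * (k + 1))) + J) := by
    intro r hr
    set s := r + n0 * (k + 1) with hs
    have hs1 : 1 ≤ s := by
      rw [hs]
      nlinarith
    have ha : k ≤ N * s + J := by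
      have : k ≤ s := by
        rw [hs]
        nlinarith
      nlinarith
    set a := N * s + J with hadef
    obtain ⟨ρ, hρ, d, ⟨Bg, hBg⟩, hlow, hlowd⟩ := h (k + (a - k) % n0) (by omega) (by
      have := Nat.mod_lt (a - k) hn0
      omega)
    set j := k + (a - k) % n0 with hj
    set q := (a - k) / n0 with hq
    have haj : a = j + n0 * q := by
      have := Nat.mod_add_div (a - k) n0
      rw [← hq] at this
      omega
    have hidx : ∀ m' : ℕ, N * (n0 * m' + s) + J = j + n0 * (N * m' + q) := by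
      intro m'
      have : N * (n0 * m' + s) + J = N * (n0 * m') + a := by
        rw [hadef]
        ring
      rw [this, haj]
      ring
    have hMtend : Tendsto (fun m' : ℕ => N * m' + q) atTop atTop := by
      apply tendsto_atTop_mono (fun m' => ?_) tendsto_id
      simp only [id]
      nlinarith
    set x : ℝ := (ρ ^ N) ^ n0 with hx
    set y : ℝ := ρ' ^ n0 with hy
    have hx0 : 0 < x := by positivity
    have hy0 : 0 < y := by positivity
    have hρpow : ∀ m' : ℕ, ρ ^ (n0 * (N * m' + q)) = x ^ m' * ρ ^ (n0 * q) := by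
      intro m'
      rw [hx, ← pow_mul, ← pow_mul, ← pow_add]
      congr 1
      ring
    have hρ'pow : ∀ m' : ℕ, ρ' ^ (n0 * m' + s) = y ^ m' * ρ' ^ s := by
      intro m'
      rw [hy, ← pow_mul, ← pow_add]
    -- (i)
    have hxy : x ≤ y := by
      by_contra hcon
      push Not at hcon
      have hNR : (0 : ℝ) < N := by exact_mod_cast hN
      have hlog : 0 < Real.log (x / y) := Real.log_pos (by rwa [one_lt_div hy0])
      set ε := Real.log (x / y) / (2 * N) with hε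
      have hε0 : 0 < ε := by positivity
      set qq : ℝ := Real.exp (-(Real.log (x / y) / 2)) with hqq
      have hqq1 : qq < 1 := by
        rw [hqq, Real.exp_lt_one_iff]
        linarith
      have h1 := (lin_pow_geom d' s n0 qq (Real.exp_pos _).le hqq1).const_mul
        (B * ρ' ^ s * Real.exp (ε * q) * (ρ ^ (n0 * q))⁻¹)
      rw [mul_zero] at h1
      have h2 := h1.eventually_lt_const (zero_lt_one)
      have h3 := hMtend.eventually (hlow ε hε0)
      obtain ⟨m', hm1, hm2⟩ := (h2.and h3).exists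
      have h4 := hB (n0 * m' + s) (by omega)
      rw [hidx] at h4
      have h5 := hm2.trans ((le_abs_self _).trans h4)
      rw [hρpow, hρ'pow] at h5
      -- e^{-ε M} x^m' c ≤ B y^m' ρ'^s (..)^d'
      have h6 : Real.exp (-(ε * ((N * m' + q : ℕ) : ℝ))) = qq ^ m' * Real.exp (-(ε * q)) := by
        rw [hqq, ← Real.exp_nat_mul, ← Real.exp_add]
        congr 1
        rw [hε]
        push_cast
        field_simp
        ring
      have h7 : x ^ m' = y ^ m' * (x / y) ^ m' := by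
        rw [div_pow]
        field_simp
      have h8 : (x / y) ^ m' * qq ^ m' * qq ^ m' = 1 := by
        rw [← mul_pow, ← mul_pow]
        have : x / y * qq * qq = 1 := by
          rw [hqq, mul_assoc, ← Real.exp_add]
          have h9 : x / y = Real.exp (Real.log (x / y)) := (Real.exp_log (by positivity)).symm
          rw [h9, Real.log_exp, ← Real.exp_add]
          ring_nf
          exact Real.exp_zero
        rw [this, one_pow]
      rw [h6, h7] at h5
      have hqm : 0 < qq ^ m' := by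
        rw [hqq]
        positivity
      have hym : 0 < y ^ m' := by positivity
      have h10 : 1 ≤ B * ρ' ^ s * Real.exp (ε * q) * (ρ ^ (n0 * q))⁻¹ *
          (((n0 * m' + s : ℕ) : ℝ) ^ d' * qq ^ m') := by
        have e1 : qq ^ m' * Real.exp (-(ε * q)) * (y ^ m' * (x / y) ^ m' * ρ ^ (n0 * q)) *
            (qq ^ m' * Real.exp (ε * q) * (ρ ^ (n0 * q))⁻¹ * (y ^ m')⁻¹) = 1 := by
          have e2 : Real.exp (-(ε * q)) * Real.exp (ε * q) = 1 := by
            rw [← Real.exp_add]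
            simp
          have e3 : ρ ^ (n0 * q) * (ρ ^ (n0 * q))⁻¹ = 1 := mul_inv_cancel₀ (by positivity)
          have e4 : y ^ m' * (y ^ m')⁻¹ = 1 := mul_inv_cancel₀ hym.ne'
          calc _ = ((x / y) ^ m' * qq ^ m' * qq ^ m') * (Real.exp (-(ε * q)) * Real.exp (ε * q)) *
                (ρ ^ (n0 * q) * (ρ ^ (n0 * q))⁻¹) * (y ^ m' * (y ^ m')⁻¹) := by ring
            _ = 1 := by rw [h8, e2, e3, e4]; ring
        have e5 := mul_le_mul_of_nonneg_right h5
          (show 0 ≤ qq ^ m' * Real.exp (ε * q) * (ρ ^ (n0 * q))⁻¹ * (y ^ m')⁻¹ by positivity)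
        rw [e1] at e5
        refine e5.trans (le_of_eq ?_)
        have e4 : y ^ m' * (y ^ m')⁻¹ = 1 := mul_inv_cancel₀ hym.ne'
        calc _ = B * ρ' ^ s * Real.exp (ε * q) * (ρ ^ (n0 * q))⁻¹ *
              (((n0 * m' + s : ℕ) : ℝ) ^ d' * qq ^ m') * (y ^ m' * (y ^ m')⁻¹) := by ring
          _ = _ := by rw [e4, mul_one]
      linarith
    -- negligible cases
    have hneg : ¬ (x < y ∨ (x = y ∧ d < d')) := by
      intro hcase
      apply hnn n0 s hn0
      have hbound : ∀ m' : ℕ, 0 < N * m' + q → ‖v (N * (n0 * m' + s) + J) /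
          (ρ' ^ (n0 * m' + s) * ((n0 * m' + s : ℕ) : ℝ) ^ d')‖ ≤
          (Bg * ρ ^ (n0 * q) * (ρ' ^ s)⁻¹) * ((x / y) ^ m' * ((N * m' + q : ℕ) : ℝ) ^ d *
            (((n0 * m' + s : ℕ) : ℝ) ^ d')⁻¹) := by
        intro m' hm'
        have h1 := hBg (N * m' + q) hm'
        have h2 : (0 : ℝ) < ρ' ^ (n0 * m' + s) * ((n0 * m' + s : ℕ) : ℝ) ^ d' := by
          have : 0 < n0 * m' + s := by omega
          positivity
        rw [norm_div, Real.norm_of_nonneg h2.le, div_le_iff₀ h2, Real.norm_eq_abs, hidx]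
        refine h1.trans (le_of_eq ?_)
        rw [hρpow, hρ'pow, div_pow]
        have : (0 : ℝ) < ((n0 * m' + s : ℕ) : ℝ) ^ d' := by
          have : 0 < n0 * m' + s := by omega
          positivity
        field_simp
      have hev : ∀ᶠ m' : ℕ in atTop, 0 < N * m' + q := by
        filter_upwards [eventually_gt_atTop 0] with m' hm'
        positivity
      have hBg0 : 0 ≤ Bg := by
        have h1 := hBg 1 one_pos
        have h2 : (0 : ℝ) < ρ ^ (n0 * 1) * ((1 : ℕ) : ℝ) ^ d := by positivity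
        have h3 := (abs_nonneg _).trans h1
        exact nonneg_of_mul_nonneg_left h3 h2
      rw [tendsto_zero_iff_norm_tendsto_zero]
      rcases hcase with hlt | ⟨heq, hdd⟩
      · have hqx : x / y < 1 := by rwa [div_lt_one hy0]
        have h1 := (lin_pow_geom d q N (x / y) (by positivity) hqx).const_mul
          (Bg * ρ ^ (n0 * q) * (ρ' ^ s)⁻¹)
        rw [mul_zero] at h1
        refine squeeze_zero' (Eventually.of_forall fun m => norm_nonneg _) ?_ h1
        filter_upwards [hev] with m' hm'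
        refine (hbound m' hm').trans ?_
        have h2 : (1 : ℝ) ≤ ((n0 * m' + s : ℕ) : ℝ) ^ d' := by
          apply one_le_pow₀
          have : 1 ≤ n0 * m' + s := by omega
          exact_mod_cast this
        have h3 : (((n0 * m' + s : ℕ) : ℝ) ^ d')⁻¹ ≤ 1 := inv_le_one_of_one_le₀ h2
        have h4 : (x / y) ^ m' * ((N * m' + q : ℕ) : ℝ) ^ d * (((n0 * m' + s : ℕ) : ℝ) ^ d')⁻¹ ≤
            ((N * m' + q : ℕ) : ℝ) ^ d * (x / y) ^ m' := by
          calc _ ≤ (x / y) ^ m' * ((N * m' + q : ℕ) : ℝ) ^ d * 1 :=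
                mul_le_mul_of_nonneg_left h3 (by positivity)
            _ = _ := by ring
        exact mul_le_mul_of_nonneg_left h4 (by positivity)
      · have hqx : x / y = 1 := by rw [heq, div_self hy0.ne']
        have h1 : Tendsto (fun m' : ℕ => (Bg * ρ ^ (n0 * q) * (ρ' ^ s)⁻¹ *
            ((N + q : ℕ) : ℝ) ^ d) * (((m' : ℕ) : ℝ))⁻¹) atTop (𝓝 0) := by
          have := (tendsto_inv_atTop_nhds_zero_nat (𝕜 := ℝ)).const_mul
            (Bg * ρ ^ (n0 * q) * (ρ' ^ s)⁻¹ * ((N + q : ℕ) : ℝ) ^ d)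
          rwa [mul_zero] at this
        refine squeeze_zero' (Eventually.of_forall fun m => norm_nonneg _) ?_ h1
        filter_upwards [hev, eventually_gt_atTop 0] with m' hm' hmpos
        refine (hbound m' hm').trans ?_
        rw [hqx, one_pow, one_mul, mul_assoc (Bg * ρ ^ (n0 * q) * (ρ' ^ s)⁻¹)]
        apply mul_le_mul_of_nonneg_left _ (by positivity)
        set u : ℝ := ((n0 * m' + s : ℕ) : ℝ) with hu
        have hu1 : 1 ≤ u := by
          rw [hu]
          have : 1 ≤ n0 * m' + s := by omega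
          exact_mod_cast this
        have hum : (m' : ℝ) ≤ u := by
          rw [hu]
          have : m' ≤ n0 * m' + s := by nlinarith
          exact_mod_cast this
        have h2 : ((N * m' + q : ℕ) : ℝ) ≤ ((N + q : ℕ) : ℝ) * u := by
          rw [hu]
          have : N * m' + q ≤ (N + q) * (n0 * m' + s) := by
            have e1 : m' ≤ n0 * m' + s := by nlinarith
            have e2 : 0 < n0 * m' + s := by omega
            calc N * m' + q ≤ N * (n0 * m' + s) + q * (n0 * m' + s) :=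
                  Nat.add_le_add (Nat.mul_le_mul_left _ e1) (Nat.le_mul_of_pos_right q e2)
              _ = (N + q) * (n0 * m' + s) := by ring
          exact_mod_cast this
        have h3 : ((N * m' + q : ℕ) : ℝ) ^ d ≤ ((N + q : ℕ) : ℝ) ^ d * u ^ d := by
          rw [← mul_pow]
          exact pow_le_pow_left₀ (Nat.cast_nonneg _) h2 _
        have h4 : u ^ d * (u ^ d')⁻¹ ≤ ((m' : ℝ))⁻¹ := by
          have h5 : u ^ (d + 1) ≤ u ^ d' := pow_le_pow_right₀ hu1 hdd
          have hm0 : (0 : ℝ) < m' := by exact_mod_cast hmpos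
          rw [← div_eq_mul_inv, div_le_iff₀ (by positivity), ← div_eq_inv_mul,
            le_div_iff₀ hm0]
          calc u ^ d * m' ≤ u ^ d * u := by gcongr
            _ = u ^ (d + 1) := by ring
            _ ≤ u ^ d' := h5
        calc ((N * m' + q : ℕ) : ℝ) ^ d * (u ^ d')⁻¹ ≤ ((N + q : ℕ) : ℝ) ^ d * u ^ d * (u ^ d')⁻¹ := by
              gcongr
          _ = ((N + q : ℕ) : ℝ) ^ d * (u ^ d * (u ^ d')⁻¹) := by ring
          _ ≤ ((N + q : ℕ) : ℝ) ^ d * ((m' : ℝ))⁻¹ := by gcongr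
    push Not at hneg
    have hxyeq : x = y := le_antisymm hxy hneg.1
    have hdd' : d' ≤ d := hneg.2 hxyeq
    obtain ⟨b, hb, hbev⟩ := hlowd (by omega)
    refine ⟨b * ρ ^ (n0 * q) * (ρ' ^ s)⁻¹ * (((n0 + s : ℕ) : ℝ) ^ d')⁻¹, ?_, ?_⟩
    · have : 0 < n0 + s := by omega
      positivity
    filter_upwards [hMtend.eventually hbev, eventually_gt_atTop 0] with m' hm' hmpos
    rw [hidx]
    refine le_trans ?_ hm'
    rw [hρpow, hρ'pow, ← hxyeq]
    have hM1 : 1 ≤ N * m' + q := by nlinarith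
    have h1 : ((n0 * m' + s : ℕ) : ℝ) ≤ ((n0 + s : ℕ) : ℝ) * ((N * m' + q : ℕ) : ℝ) := by
      have : n0 * m' + s ≤ (n0 + s) * (N * m' + q) := by
        have : m' ≤ N * m' + q := by nlinarith
        nlinarith
      exact_mod_cast this
    have h2 : ((n0 * m' + s : ℕ) : ℝ) ^ d' ≤ ((n0 + s : ℕ) : ℝ) ^ d' * ((N * m' + q : ℕ) : ℝ) ^ d := by
      calc ((n0 * m' + s : ℕ) : ℝ) ^ d' ≤ (((n0 + s : ℕ) : ℝ) * ((N * m' + q : ℕ) : ℝ)) ^ d' :=
            pow_le_pow_left₀ (Nat.cast_nonneg _) h1 _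
        _ = ((n0 + s : ℕ) : ℝ) ^ d' * ((N * m' + q : ℕ) : ℝ) ^ d' := mul_pow _ _ _
        _ ≤ ((n0 + s : ℕ) : ℝ) ^ d' * ((N * m' + q : ℕ) : ℝ) ^ d := by
            gcongr
            exact_mod_cast hM1
    have h3 : (0 : ℝ) < ((n0 + s : ℕ) : ℝ) ^ d' := by
      have : 0 < n0 + s := by omega
      positivity
    calc b * ρ ^ (n0 * q) * (ρ' ^ s)⁻¹ * (((n0 + s : ℕ) : ℝ) ^ d')⁻¹ *
          (x ^ m' * ρ' ^ s * ((n0 * m' + s : ℕ) : ℝ) ^ d')
        = b * ρ ^ (n0 * q) * x ^ m' * ((((n0 + s : ℕ) : ℝ) ^ d')⁻¹ *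
            ((n0 * m' + s : ℕ) : ℝ) ^ d') * ((ρ' ^ s)⁻¹ * ρ' ^ s) := by ring
      _ = b * ρ ^ (n0 * q) * x ^ m' * ((((n0 + s : ℕ) : ℝ) ^ d')⁻¹ *
            ((n0 * m' + s : ℕ) : ℝ) ^ d') := by
          rw [inv_mul_cancel₀ (by positivity), mul_one]
      _ ≤ b * ρ ^ (n0 * q) * x ^ m' * ((((n0 + s : ℕ) : ℝ) ^ d')⁻¹ *
            (((n0 + s : ℕ) : ℝ) ^ d' * ((N * m' + q : ℕ) : ℝ) ^ d)) := by gcongr
      _ = b * (x ^ m' * ρ ^ (n0 * q) * ((N * m' + q : ℕ) : ℝ) ^ d) := by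
          rw [← mul_assoc (((n0 + s : ℕ) : ℝ) ^ d')⁻¹, inv_mul_cancel₀ h3.ne', one_mul]
          ring
  -- combination
  have key' : ∀ r, ∃ b : ℝ, 0 < b ∧ (r < n0 → ∃ M : ℕ, ∀ m', M ≤ m' →
      b * (ρ' ^ (n0 * m' + (r + n0 * (k + 1))) * ((n0 * m' + (r + n0 * (k + 1)) : ℕ) : ℝ) ^ d') ≤
        v (N * (n0 * m' + (r + n0 * (k + 1))) + J)) := by
    intro r
    by_cases hr : r < n0
    · obtain ⟨b, hb, hev⟩ := key r hr
      rw [eventually_atTop] at hev
      exact ⟨b, hb, fun _ => hev⟩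
    · exact ⟨1, one_pos, fun h' => absurd h' hr⟩
  choose b hb hbM using key'
  have hbM' : ∀ r, ∃ M : ℕ, r < n0 → ∀ m', M ≤ m' →
      b r * (ρ' ^ (n0 * m' + (r + n0 * (k + 1))) * ((n0 * m' + (r + n0 * (k + 1)) : ℕ) : ℝ) ^ d') ≤
        v (N * (n0 * m' + (r + n0 * (k + 1))) + J) := by
    intro r
    by_cases hr : r < n0
    · obtain ⟨M, hM⟩ := hbM r hr
      exact ⟨M, fun _ => hM⟩
    · exact ⟨0, fun h' => absurd h' hr⟩
  choose M hM using hbM'
  have hne : (Finset.range n0).Nonempty := ⟨0, Finset.mem_range.mpr hn0⟩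
  refine ⟨(Finset.range n0).inf' hne b, (Finset.lt_inf'_iff _).mpr fun r _ => hb r, ?_⟩
  rw [eventually_atTop]
  refine ⟨n0 * ((Finset.range n0).sup M + (k + 1)), fun m hm => ?_⟩
  set r := m % n0 with hr
  have hrn : r < n0 := Nat.mod_lt _ hn0
  have hdiv : (Finset.range n0).sup M + (k + 1) ≤ m / n0 := by
    rw [Nat.le_div_iff_mul_le hn0, mul_comm]
    exact hm
  have hmeq : m = n0 * (m / n0 - (k + 1)) + (r + n0 * (k + 1)) := by
    have h1 := Nat.mod_add_div m n0
    have h2 : n0 * (m / n0 - (k + 1)) + n0 * (k + 1) = n0 * (m / n0) := by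
      rw [← mul_add, Nat.sub_add_cancel (by omega)]
    omega
  have hMle : M r ≤ m / n0 - (k + 1) := by
    have h1 : M r ≤ (Finset.range n0).sup M := Finset.le_sup (Finset.mem_range.mpr hrn)
    omega
  have h1 := hM r hrn _ hMle
  rw [← hmeq] at h1
  refine le_trans ?_ h1
  apply mul_le_mul_of_nonneg_right _ (by positivity)
  exact Finset.inf'_le _ (Finset.mem_range.mpr hrn)

end Pool.Agent.DD7719.M
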