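import Mathlib

/-! Elementary computations with the limiting exponents. -/

namespace Pool.Agent.DD7719.M

open Filter Topology

variable {m N : ℕ}

lemma exists_gap (μ : Fin (m + 1) → ℝ) (h0 : μ 0 ≤ 0) (hsum : 0 < ∑ i, μ i) :
    ∃ p : ℕ, ∃ hp : p < m + 1, 0 < p ∧ μ ⟨p - 1, by omega⟩ < μ ⟨p, hp⟩ := by
  by_contra hcon
  push Not at hcon
  have h1 : ∀ (k : ℕ) (hk : k < m + 1), μ ⟨k, hk⟩ ≤ 0 := by
    intro k
    induction k with
    | zero => intro hk; exact h0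
    | succ k ih => intro hk; exact (hcon (k + 1) hk (by omega)).trans (ih (by omega))
  have h2 : ∑ i, μ i ≤ 0 := Finset.sum_nonpos fun i _ => h1 i i.2
  linarith

lemma hneg_calc (D : ℝ) (hD : 0 < D) (ν : Fin (N + 1) → ℝ) (hν : Monotone ν) (b : Fin (N + 1))
    (hb : (b : ℕ) + 1 = N) (hlt : ν b < ν (Fin.last N)) (s tt : Fin (N + 1) → ℝ)
    (π : Equiv.Perm (Fin (N + 1)))
    (hs : ∀ J, s (π J) = ν b + D / 2 * (min (ν J) (ν b) - ν b) - tt (π J))
    (hsum : D * ∑ J, ν J = 2 * ∑ J, tt J) :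
    (D - 2) * ((N + 1 : ℕ) : ℝ) * ν b + 2 * ∑ J, s J < 0 := by
  have h1 : ∑ J, s J = ∑ J, (ν b + D / 2 * (min (ν J) (ν b) - ν b) - tt (π J)) := by
    rw [← Equiv.sum_comp π]
    exact Finset.sum_congr rfl fun J _ => hs J
  have h2 : ∑ J, tt (π J) = ∑ J, tt J := Equiv.sum_comp π tt
  have h3 : ∑ J, min (ν J) (ν b) = ∑ J, ν J - ν (Fin.last N) + ν b := by
    rw [Fin.sum_univ_castSucc, Fin.sum_univ_castSucc, min_eq_right hlt.le]
    have : ∀ i : Fin N, min (ν i.castSucc) (ν b) = ν i.castSucc := by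
      intro i
      apply min_eq_left
      apply hν
      rw [Fin.le_def, Fin.val_castSucc]
      have := i.2
      omega
    rw [Finset.sum_congr rfl fun i _ => this i]
    ring
  rw [h1, Finset.sum_sub_distrib, Finset.sum_add_distrib, h2, ← Finset.mul_sum,
    Finset.sum_sub_distrib, h3, Finset.sum_const, Finset.card_univ, Fintype.card_fin,
    nsmul_eq_mul]
  have h4 : 0 < D * (ν (Fin.last N) - ν b) := mul_pos hD (by linarith)
  have h5 : (D - 2) * ((N + 1 : ℕ) : ℝ) * ν b + 2 * (((N + 1 : ℕ) : ℝ) * ν b + D / 2 *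
      (∑ J, ν J - ν (Fin.last N) + ν b - ((N + 1 : ℕ) : ℝ) * ν b) - ∑ J, tt J) =
      (D * ∑ J, ν J - 2 * ∑ J, tt J) - D * (ν (Fin.last N) - ν b) := by ring
  rw [h5, hsum]
  linarith

/-- passing a bound `log x / n ≤ a` to `x ≤ exp (n a)` -/
lemma le_exp_of_log_div_le {x a : ℝ} {n : ℕ} (hn : 0 < n) (hx : 0 < x)
    (h : Real.log x / n ≤ a) : x ≤ Real.exp (n * a) := by
  have hn' : (0 : ℝ) < n := by exact_mod_cast hn
  rw [← Real.log_le_iff_le_exp hx]
  rw [div_le_iff₀ hn'] at h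
  linarith

end Pool.Agent.DD7719.M
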