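import Mathlib

/-! Two facts about heights. -/

namespace Pool.Agent.DD7719.M

open NumberField Height

variable {K : Type*} [Field K] [NumberField K]

lemma logHeight₁_div_le (a b : 𝓞 K) (hb : b ≠ 0) (B : ℝ) (hB : 1 ≤ B)
    (ha' : ∀ σ : K →+* ℂ, ‖σ (a : K)‖ ≤ B) (hb' : ∀ σ : K →+* ℂ, ‖σ (b : K)‖ ≤ B) :
    logHeight₁ ((a : K) / (b : K)) ≤ Fintype.card (K →+* ℂ) * Real.log B := by
  have hx : ![(a : K), (b : K)] ≠ 0 := by
    intro h
    have := congrFun h 1
    simp at this
    exact hb this
  rw [logHeight₁_div_eq_logHeight, logHeight_eq_log_mulHeight, ← Real.log_pow]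
  apply Real.log_le_log (mulHeight_pos _)
  rw [NumberField.mulHeight_eq hx]
  have hv : ∀ (v : FinitePlace K) (x : 𝓞 K), v (x : K) ≤ 1 := by
    intro v x
    have h := FinitePlace.norm_embedding_eq v (x : K)
    rw [← h]
    exact FinitePlace.norm_le_one K v.maximalIdeal x
  have h1 : 0 ≤ (∏ᶠ v : FinitePlace K, ⨆ i, v (![(a : K), (b : K)] i)) ∧
      ∏ᶠ v : FinitePlace K, ⨆ i, v (![(a : K), (b : K)] i) ≤ 1 := by
    apply finprod_induction (fun x : ℝ => 0 ≤ x ∧ x ≤ 1) ⟨zero_le_one, le_rfl⟩
    · intro x y hx hy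
      exact ⟨mul_nonneg hx.1 hy.1, mul_le_one₀ hx.2 hy.1 hy.2⟩
    · intro v
      constructor
      · apply Real.iSup_nonneg
        intro i
        exact apply_nonneg v _
      · apply ciSup_le
        intro i
        fin_cases i
        · exact hv v a
        · exact hv v b
  have h2 : ∏ v : InfinitePlace K, (⨆ i, v (![(a : K), (b : K)] i)) ^ v.mult ≤
      B ^ (Fintype.card (K →+* ℂ)) := by
    have h3 : Fintype.card (K →+* ℂ) = ∑ v : InfinitePlace K, v.mult := by
      rw [InfinitePlace.sum_mult_eq, Embeddings.card]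
    rw [h3, ← Finset.prod_pow_eq_pow_sum]
    apply Finset.prod_le_prod
    · intro v _
      apply pow_nonneg
      apply Real.iSup_nonneg
      intro i
      exact apply_nonneg v _
    · intro v _
      apply pow_le_pow_left₀
      · apply Real.iSup_nonneg
        intro i
        exact apply_nonneg v _
      · apply ciSup_le
        intro i
        fin_cases i
        · rw [← InfinitePlace.norm_embedding_eq]
          exact ha' _
        · rw [← InfinitePlace.norm_embedding_eq]
          exact hb' _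
  calc _ ≤ B ^ (Fintype.card (K →+* ℂ)) * 1 :=
        mul_le_mul h2 h1.2 h1.1 (by positivity)
    _ = _ := mul_one _

lemma logHeight₁_pos (x : K) (hx : x ≠ 0) (h : ∀ n : ℕ, 0 < n → x ^ n ≠ 1) :
    0 < logHeight₁ x := by
  rcases (zero_le_logHeight₁ x).lt_or_eq with h1 | h1
  · exact h1
  exfalso
  have hfin := finite_setOfPred_logHeight₁_le K 0
  have hmem : ∀ n : ℕ, x ^ n ∈ {y : K | logHeight₁ y ≤ 0} := by
    intro n
    show logHeight₁ (x ^ n) ≤ 0
    rw [logHeight₁_pow, ← h1, mul_zero]
  obtain ⟨a, b, hab, heq⟩ : ∃ a b : ℕ, a < b ∧ x ^ a = x ^ b := by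
    by_contra hcon
    push Not at hcon
    have hinj : Function.Injective (fun n : ℕ => x ^ n) := by
      intro a b hab
      rcases lt_trichotomy a b with h | h | h
      · exact absurd hab (hcon a b h)
      · exact h
      · exact absurd hab.symm (hcon b a h)
    exact Set.infinite_of_injective_forall_mem hinj hmem hfin
  apply h (b - a) (by omega)
  have h2 : x ^ a * x ^ (b - a) = x ^ a * 1 := by
    rw [← pow_add, mul_one, Nat.add_sub_cancel' hab.le, heq]
  exact mul_left_cancel₀ (pow_ne_zero _ hx) h2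

end Pool.Agent.DD7719.M
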