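import Mathlib

/-! Lower bound for the height of an algebraic number that is not a root of unity. -/

open Finset

namespace Pool.Agent.DD7719

section congr

variable {K : Type*} [Field K] [NumberField K]

open NumberField

/-- `Tr (x^p) ≡ Tr x (mod p)` for algebraic integers. -/
lemma trace_pow_prime_sub_dvd (x : 𝓞 K) (p : ℕ) (hp : p.Prime) :
    (p : ℤ) ∣ Algebra.trace ℤ (𝓞 K) (x ^ p) - Algebra.trace ℤ (𝓞 K) x := by
  have : Fact p.Prime := ⟨hp⟩
  classical
  let b := Module.Free.chooseBasis ℤ (𝓞 K)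
  have h1 : ∀ y : 𝓞 K, ((Algebra.trace ℤ (𝓞 K) y : ℤ) : ZMod p) =
      Matrix.trace ((Algebra.leftMulMatrix b y).map (Int.castRingHom (ZMod p))) := by
    intro y
    rw [Algebra.trace_eq_matrix_trace b]
    simp [Matrix.trace]
  rw [← ZMod.intCast_zmod_eq_zero_iff_dvd]
  push_cast
  rw [h1, h1]
  have h2 : (Algebra.leftMulMatrix b (x ^ p)).map (Int.castRingHom (ZMod p)) =
      ((Algebra.leftMulMatrix b x).map (Int.castRingHom (ZMod p))) ^ p := by
    rw [map_pow, Matrix.map_pow]
  rw [h2, ZMod.trace_pow_card, ZMod.pow_card, sub_self]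

lemma sum_embeddings_eq (x : 𝓞 K) :
    ∑ φ : K →+* ℂ, φ (x : K) = ((Algebra.trace ℤ (𝓞 K) x : ℤ) : ℂ) := by
  have h := trace_eq_sum_embeddings (K := ℚ) (L := K) ℂ (x := (x : K))
  have h3 : ∑ φ : K →+* ℂ, φ (x : K) = ∑ σ : K →ₐ[ℚ] ℂ, σ (x : K) := by
    refine Fintype.sum_equiv (RingHom.equivRatAlgHom (R := K) (S := ℂ)) _ _ (fun φ => ?_)
    rfl
  rw [h3, ← h]
  have h4 : Algebra.trace ℚ K (x : K) = ((Algebra.trace ℤ (𝓞 K) x : ℤ) : ℚ) := by
    rw [Algebra.trace_localization ℤ (nonZeroDivisors ℤ) (Rₘ := ℚ) (Sₘ := K)]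
    simp
  rw [h4]
  simp

/-- If all conjugates of the nonzero algebraic integer `x` are at most `exp (1/(2Dp))` for some
prime `p > 6 D`, then `x` is a root of unity. -/
theorem isOfFinOrder_of_house_le (x : 𝓞 K) (hx : x ≠ 0) (p : ℕ) (hp : p.Prime)
    (hpD : 6 * Module.finrank ℚ K < p)
    (h : ∀ φ : K →+* ℂ, ‖φ (x : K)‖ ≤ Real.exp (1 / (2 * Module.finrank ℚ K * p))) :
    ∃ n : ℕ, 0 < n ∧ (x : K) ^ n = 1 := by
  classical
  set D := Module.finrank ℚ K with hD
  have hDpos : 0 < D := Module.finrank_pos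
  have hcard : Fintype.card (K →+* ℂ) = D := NumberField.Embeddings.card K ℂ
  have hp0 : (0 : ℝ) < p := by exact_mod_cast hp.pos
  -- power sums agree
  have key : ∀ k : ℕ, 1 ≤ k → k ≤ 2 * D →
      ∑ φ : K →+* ℂ, (φ (x : K) ^ p) ^ k = ∑ φ : K →+* ℂ, φ (x : K) ^ k := by
    intro k hk1 hk2
    have e1 : ∑ φ : K →+* ℂ, (φ (x : K) ^ p) ^ k =
        ((Algebra.trace ℤ (𝓞 K) ((x ^ k) ^ p) : ℤ) : ℂ) := by
      rw [← sum_embeddings_eq]
      refine Finset.sum_congr rfl fun φ _ => ?_
      push_cast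
      rw [map_pow, map_pow]
      ring
    have e2 : ∑ φ : K →+* ℂ, (φ (x : K)) ^ k =
        ((Algebra.trace ℤ (𝓞 K) (x ^ k) : ℤ) : ℂ) := by
      rw [← sum_embeddings_eq]
      refine Finset.sum_congr rfl fun φ _ => ?_
      push_cast
      rw [map_pow]
    have e3 := trace_pow_prime_sub_dvd (x ^ k) p hp
    have bound : ∀ φ : K →+* ℂ, ∀ j : ℕ, j ≤ 2 * D * p → ‖φ (x : K) ^ j‖ ≤ Real.exp 1 := by
      intro φ j hj
      rw [norm_pow]
      calc ‖φ (x : K)‖ ^ j ≤ (Real.exp (1 / (2 * D * p))) ^ j := by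
            gcongr
            exact h φ
        _ = Real.exp (j * (1 / (2 * D * p))) := by rw [Real.exp_nat_mul]
        _ ≤ Real.exp 1 := by
            apply Real.exp_le_exp.mpr
            have : (j : ℝ) ≤ 2 * D * p := by exact_mod_cast hj
            rw [mul_one_div]
            rw [div_le_one (by positivity)]
            exact this
    have hlt : |Algebra.trace ℤ (𝓞 K) ((x ^ k) ^ p) - Algebra.trace ℤ (𝓞 K) (x ^ k)| < (p : ℤ) := by
      have : ((|Algebra.trace ℤ (𝓞 K) ((x ^ k) ^ p) - Algebra.trace ℤ (𝓞 K) (x ^ k)| : ℤ) : ℝ) < p := by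
        have h1 : ((|Algebra.trace ℤ (𝓞 K) ((x ^ k) ^ p) - Algebra.trace ℤ (𝓞 K) (x ^ k)| : ℤ) : ℝ)
            = ‖∑ φ : K →+* ℂ, (φ (x : K) ^ p) ^ k - ∑ φ : K →+* ℂ, φ (x : K) ^ k‖ := by
          rw [e1, e2, ← Int.cast_sub, Complex.norm_intCast]
          push_cast
          rfl
        rw [h1]
        calc _ ≤ ‖∑ φ : K →+* ℂ, (φ (x : K) ^ p) ^ k‖ + ‖∑ φ : K →+* ℂ, φ (x : K) ^ k‖ :=
              norm_sub_le _ _
          _ ≤ ∑ φ : K →+* ℂ, Real.exp 1 + ∑ φ : K →+* ℂ, Real.exp 1 := by
              gcongr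
              · refine (norm_sum_le _ _).trans (Finset.sum_le_sum fun φ _ => ?_)
                rw [← pow_mul]
                apply bound
                calc p * k ≤ p * (2 * D) := by gcongr
                  _ = 2 * D * p := by ring
              · refine (norm_sum_le _ _).trans (Finset.sum_le_sum fun φ _ => ?_)
                apply bound
                calc k ≤ 2 * D * 1 := by omega
                  _ ≤ 2 * D * p := by gcongr; exact hp.one_le
          _ = 2 * D * Real.exp 1 := by
              simp only [Finset.sum_const, Finset.card_univ, hcard, nsmul_eq_mul]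
              ring
          _ ≤ 2 * D * 3 := by
              gcongr
              exact (Real.exp_one_lt_d9.trans (by norm_num)).le
          _ < p := by
              have : ((6 * D : ℕ) : ℝ) < p := by exact_mod_cast hpD
              push_cast at this
              linarith
      exact_mod_cast this
    have h0 := Int.eq_zero_of_abs_lt_dvd e3 hlt
    rw [e1, e2]
    have : Algebra.trace ℤ (𝓞 K) ((x ^ k) ^ p) = Algebra.trace ℤ (𝓞 K) (x ^ k) := by omega
    rw [this]
  -- p-th powers of conjugates are conjugates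
  set S : Finset ℂ := Finset.univ.image (fun φ : K →+* ℂ => φ (x : K)) with hS
  have hSpow : ∀ z ∈ S, z ^ p ∈ S := by
    intro z hz
    by_contra hcon
    obtain ⟨φ₀, -, rfl⟩ := Finset.mem_image.mp hz
    set w := φ₀ (x : K) ^ p with hw
    have hw0 : w ≠ 0 := by
      rw [hw]
      apply pow_ne_zero
      simpa using hx
    set T : Finset ℂ := (Finset.univ.image (fun φ : K →+* ℂ => φ (x : K) ^ p)).erase w with hT
    set P : Polynomial ℂ := Polynomial.X * ∏ t ∈ (S ∪ T).erase 0, (Polynomial.X - Polynomial.C t)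
      with hP
    have hPdeg : P.natDegree ≤ 2 * D := by
      have h1 : P.natDegree ≤ 1 + ((S ∪ T).erase 0).card := by
        rw [hP]
        refine (Polynomial.natDegree_mul_le).trans ?_
        gcongr
        · exact Polynomial.natDegree_X_le
        · rw [Polynomial.natDegree_prod_of_monic _ _ (fun t _ => Polynomial.monic_X_sub_C t)]
          simp
      have hTc : T.card ≤ D - 1 := by
        rw [hT, Finset.card_erase_of_mem (Finset.mem_image.mpr ⟨φ₀, Finset.mem_univ _, rfl⟩)]
        have : (Finset.univ.image (fun φ : K →+* ℂ => φ (x : K) ^ p)).card ≤ D := by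
          refine Finset.card_image_le.trans ?_
          rw [Finset.card_univ, hcard]
        omega
      have hSc : S.card ≤ D := by
        refine Finset.card_image_le.trans ?_
        rw [Finset.card_univ, hcard]
      have h2 : ((S ∪ T).erase 0).card ≤ S.card + T.card :=
        (Finset.card_le_card (Finset.erase_subset _ _)).trans (Finset.card_union_le _ _)
      omega
    have hPS : ∀ t ∈ S ∪ T, P.eval t = 0 := by
      intro t ht
      by_cases ht0 : t = 0
      · rw [hP, ht0]; simp
      · rw [hP, Polynomial.eval_mul, Polynomial.eval_prod]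
        rw [Finset.prod_eq_zero (i := t) (Finset.mem_erase.mpr ⟨ht0, ht⟩) (by simp)]
        simp
    have hPw : P.eval w ≠ 0 := by
      rw [hP, Polynomial.eval_mul, Polynomial.eval_prod, Polynomial.eval_X]
      apply mul_ne_zero hw0
      rw [Finset.prod_ne_zero_iff]
      intro t ht
      rw [Polynomial.eval_sub, Polynomial.eval_X, Polynomial.eval_C, sub_ne_zero]
      rintro rfl
      rcases Finset.mem_union.mp (Finset.mem_of_mem_erase ht) with h1 | h1
      · exact hcon h1
      · exact (Finset.notMem_erase _ _) h1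
    -- compare
    have hsum : ∑ φ : K →+* ℂ, P.eval (φ (x : K) ^ p) = ∑ φ : K →+* ℂ, P.eval (φ (x : K)) := by
      simp_rw [Polynomial.eval_eq_sum_range' (Nat.lt_succ_of_le hPdeg)]
      rw [Finset.sum_comm]
      conv_rhs => rw [Finset.sum_comm]
      refine Finset.sum_congr rfl fun k hk => ?_
      rw [← Finset.mul_sum, ← Finset.mul_sum]
      by_cases hk0 : k = 0
      · subst hk0
        have : P.coeff 0 = 0 := by rw [hP]; simp
        rw [this]; simp
      · rw [key k (Nat.one_le_iff_ne_zero.mpr hk0) (by simpa [Nat.lt_succ_iff] using hk)]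
    have hr : ∑ φ : K →+* ℂ, P.eval (φ (x : K)) = 0 :=
      Finset.sum_eq_zero fun φ _ => hPS _ (Finset.mem_union_left _
        (Finset.mem_image.mpr ⟨φ, Finset.mem_univ _, rfl⟩))
    have hl : ∑ φ : K →+* ℂ, P.eval (φ (x : K) ^ p) =
        ((Finset.univ.filter (fun φ : K →+* ℂ => φ (x : K) ^ p = w)).card : ℂ) * P.eval w := by
      rw [← Finset.sum_filter_add_sum_filter_not Finset.univ (fun φ : K →+* ℂ => φ (x : K) ^ p = w)]
      rw [Finset.sum_eq_zero (s := Finset.univ.filter (fun φ : K →+* ℂ => ¬ φ (x : K) ^ p = w))]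
      · rw [add_zero, Finset.sum_congr rfl (g := fun _ => P.eval w)]
        · simp
        · intro φ hφ
          rw [(Finset.mem_filter.mp hφ).2]
      · intro φ hφ
        apply hPS
        apply Finset.mem_union_right
        rw [hT, Finset.mem_erase]
        exact ⟨(Finset.mem_filter.mp hφ).2, Finset.mem_image.mpr ⟨φ, Finset.mem_univ _, rfl⟩⟩
    rw [hsum, hr] at hl
    have hc : ((Finset.univ.filter (fun φ : K →+* ℂ => φ (x : K) ^ p = w)).card : ℂ) ≠ 0 := by
      have : φ₀ ∈ Finset.univ.filter (fun φ : K →+* ℂ => φ (x : K) ^ p = w) := by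
        simp [hw]
      exact_mod_cast (Finset.card_pos.mpr ⟨_, this⟩).ne'
    exact mul_ne_zero hc hPw hl.symm
  -- conclude
  obtain ⟨φ₀⟩ : Nonempty (K →+* ℂ) := by
    rw [← Fintype.card_pos_iff, hcard]; exact hDpos
  have hiter : ∀ j : ℕ, φ₀ (x : K) ^ (p ^ j) ∈ S := by
    intro j
    induction j with
    | zero =>
      rw [pow_zero, pow_one]
      exact Finset.mem_image.mpr ⟨φ₀, Finset.mem_univ _, rfl⟩
    | succ j ih =>
      rw [pow_succ, pow_mul]
      exact hSpow _ ih
  obtain ⟨i, j, hij, heq⟩ : ∃ i j : ℕ, i < j ∧ φ₀ (x : K) ^ (p ^ i) = φ₀ (x : K) ^ (p ^ j) := by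
    obtain ⟨i, -, j, -, hne, heq⟩ := Set.infinite_univ.exists_ne_map_eq_of_mapsTo
      (f := fun j : ℕ => φ₀ (x : K) ^ (p ^ j)) (t := (S : Set ℂ))
      (fun j _ => by exact_mod_cast hiter j) S.finite_toSet
    rcases lt_or_gt_of_ne hne with h1 | h1
    · exact ⟨i, j, h1, heq⟩
    · exact ⟨j, i, h1, heq.symm⟩
  have hlt : p ^ i < p ^ j := Nat.pow_lt_pow_right hp.one_lt hij
  refine ⟨p ^ j - p ^ i, by omega, ?_⟩
  have hx0 : φ₀ (x : K) ≠ 0 := by simpa using hx
  apply φ₀.injective
  rw [map_pow, map_one]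
  have : φ₀ (x : K) ^ (p ^ i) * φ₀ (x : K) ^ (p ^ j - p ^ i) = φ₀ (x : K) ^ (p ^ i) * 1 := by
    rw [← pow_add, mul_one, heq]
    congr 1
    omega
  exact mul_left_cancel₀ (pow_ne_zero _ hx0) this

end congr

section height

variable {K : Type*} [Field K] [NumberField K]

open NumberField Height

/-- Lower bound for heights of elements that are not roots of unity. -/
theorem logHeight₁_ge (x : K) (hx : x ≠ 0) (htor : ¬ ∃ n : ℕ, 0 < n ∧ x ^ n = 1) :
    1 / (24 * (Module.finrank ℚ K : ℝ) ^ 2) ≤ logHeight₁ x := by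
  set D := Module.finrank ℚ K with hD
  have hDpos : 0 < D := Module.finrank_pos
  have hD1 : (1 : ℝ) ≤ D := by exact_mod_cast hDpos
  obtain ⟨p, hp, hp1, hp2⟩ := Nat.exists_prime_lt_and_le_two_mul (6 * D) (by omega)
  have hpp : (0 : ℝ) < p := by exact_mod_cast hp.pos
  have hpD : (p : ℝ) ≤ 12 * D := by
    have : ((p : ℕ) : ℝ) ≤ ((2 * (6 * D) : ℕ) : ℝ) := by exact_mod_cast hp2
    push_cast at this
    linarith
  obtain ⟨n, hn0, hn1, hn2⟩ := exists_nat_le_mulHeight₁ x
  by_cases hn : n = 1
  · subst hn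
    rw [Nat.cast_one, one_mul] at hn2
    let y : 𝓞 K := ⟨x, hn2⟩
    have hy : (y : K) = x := rfl
    have hy0 : y ≠ 0 := by
      intro h
      apply hx
      rw [← hy, h]
      rfl
    have : ¬ ∀ φ : K →+* ℂ, ‖φ (y : K)‖ ≤ Real.exp (1 / (2 * Module.finrank ℚ K * p)) := fun h =>
      htor (isOfFinOrder_of_house_le y hy0 p hp hp1 h)
    push Not at this
    obtain ⟨φ, hφ⟩ := this
    rw [NumberField.logHeight₁_eq]
    have h1 : 1 / (2 * (D : ℝ) * p) ≤ Real.posLog ((InfinitePlace.mk φ) x) := by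
      have : (InfinitePlace.mk φ) x = ‖φ x‖ := rfl
      rw [this, ← Real.log_exp (1 / (2 * (D : ℝ) * p))]
      refine le_trans ?_ (le_max_right _ _)
      exact Real.log_le_log (Real.exp_pos _) hφ.le
    have h2 : Real.posLog ((InfinitePlace.mk φ) x) ≤
        ∑ v : InfinitePlace K, v.mult * Real.posLog (v x) := by
      calc Real.posLog ((InfinitePlace.mk φ) x)
          ≤ (InfinitePlace.mk φ).mult * Real.posLog ((InfinitePlace.mk φ) x) := by
            have : (1 : ℝ) ≤ (InfinitePlace.mk φ).mult := by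
              exact_mod_cast (InfinitePlace.mk φ).mult_pos
            nlinarith [Real.posLog_nonneg (x := (InfinitePlace.mk φ) x)]
        _ ≤ _ := by
            apply Finset.single_le_sum (f := fun v : InfinitePlace K => v.mult * Real.posLog (v x))
            · intro v _
              exact mul_nonneg (Nat.cast_nonneg _) Real.posLog_nonneg
            · exact Finset.mem_univ _
    have h3 : 0 ≤ ∑ᶠ v : FinitePlace K, Real.posLog (v x) :=
      finsum_nonneg fun v => Real.posLog_nonneg
    have h4 : 1 / (24 * (D : ℝ) ^ 2) ≤ 1 / (2 * (D : ℝ) * p) := by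
      apply one_div_le_one_div_of_le (by positivity)
      nlinarith
    linarith
  · have h2 : (2 : ℝ) ≤ mulHeight₁ x := by
      refine le_trans ?_ hn1
      have : 2 ≤ n := by omega
      exact_mod_cast this
    have h3 : Real.log 2 ≤ logHeight₁ x := by
      rw [logHeight₁]
      exact Real.log_le_log (by norm_num) h2
    have h4 : (1 : ℝ) / 24 ≤ Real.log 2 := by
      have := Real.log_two_gt_d9
      norm_num at this ⊢
      linarith
    refine le_trans ?_ (h4.trans h3)
    apply one_div_le_one_div_of_le (by norm_num)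
    nlinarith

end height

end Pool.Agent.DD7719
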