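import Pool.Agent.DD7719.HtRel

/-! The relation bound (H1). -/

open Finset

namespace Pool.Agent.DD7719

/-- (H1) Explicit bound `R` with `log R` polynomial in `k, m, log A`. -/
def R (k m A : ℕ) : ℕ := (10 ^ 6 * (m + 1) * (k.factorial) ^ 4 * (k + 2) * (A + 2)) ^ m

open Polynomial in
lemma aeval_conj_eq_zero (p : ℤ[X]) (x : ℂ) (hx : aeval x p = 0) :
    aeval ((starRingEnd ℂ) x) p = 0 := by
  have h1 : (starRingEnd ℂ) (aeval x p) = 0 := by rw [hx, map_zero]
  rw [aeval_def, hom_eval₂, RingHom.ext_int ((starRingEnd ℂ).comp (algebraMap ℤ ℂ))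
    (algebraMap ℤ ℂ)] at h1
  rw [aeval_def]
  exact h1

lemma bound_arith (k m A D e : ℕ) (hm : 0 < m) (hD : D ≤ k.factorial) (he : e ≤ 2 * (k.factorial) ^ 2) :
    e * (144 * m * D ^ 3 * A + 1) ^ (m - 1) ≤ R k m A := by
  have hf : 1 ≤ k.factorial := Nat.factorial_pos k
  set f := k.factorial with hfdef
  set B := 10 ^ 6 * (m + 1) * f ^ 4 * (k + 2) * (A + 2) with hB
  have hf34 : f ^ 3 ≤ f ^ 4 := Nat.pow_le_pow_right hf (by norm_num)
  have hf24 : f ^ 2 ≤ f ^ 4 := Nat.pow_le_pow_right hf (by norm_num)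
  have hf4 : 1 ≤ f ^ 4 := Nat.one_le_pow _ _ hf
  have h1 : e ≤ B := by
    calc e ≤ 2 * f ^ 2 := he
      _ ≤ 2 * f ^ 4 := by gcongr
      _ = 2 * 1 * f ^ 4 * 1 * 1 := by ring
      _ ≤ B := by
        rw [hB]
        gcongr
        · norm_num
        · omega
        · omega
        · omega
  have h2 : 144 * m * D ^ 3 * A + 1 ≤ B := by
    calc 144 * m * D ^ 3 * A + 1 ≤ 144 * m * f ^ 3 * A + 1 := by gcongr
      _ ≤ 144 * m * f ^ 4 * A + 1 := by gcongr
      _ ≤ 144 * (m + 1) * f ^ 4 * (A + 2) := by nlinarith [Nat.zero_le (m * f ^ 4), Nat.zero_le (f ^ 4 * A)]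
      _ = 144 * (m + 1) * f ^ 4 * 1 * (A + 2) := by ring
      _ ≤ B := by
        rw [hB]
        gcongr
        · norm_num
        · omega
  obtain ⟨n, rfl⟩ : ∃ n, m = n + 1 := ⟨m - 1, by omega⟩
  change _ ≤ B ^ (n + 1)
  rw [Nat.add_sub_cancel, pow_succ' B n]
  exact Nat.mul_le_mul h1 (Nat.pow_le_pow_left h2 n)

open Polynomial in
/-- (H1) Relations bound. -/
theorem relations_bound (k m : ℕ) (p : ℤ[X]) (hp : p ≠ 0) (hdeg : p.natDegree ≤ k) (A : ℕ)
    (hA : ∀ i, |p.coeff i| ≤ A) (x : Fin m → ℂ) (hx : ∀ i, aeval (x i) p = 0)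
    (hx0 : ∀ i, x i ≠ 0) (a : Fin m → ℤ)
    (H : ∀ g : Fin m → ℤ, (∀ i, |g i| ≤ R k m A) →
      ∏ i, (x i / (starRingEnd ℂ) (x i)) ^ g i = 1 → ∑ i, a i * g i = 0) :
    ∀ g : Fin m → ℤ, ∏ i, (x i / (starRingEnd ℂ) (x i)) ^ g i = 1 → ∑ i, a i * g i = 0 := by
  classical
  rcases Nat.eq_zero_or_pos m with rfl | hm
  · intro g _; simp
  set K := IntermediateField.adjoin ℚ (p.rootSet ℂ) with hK
  have hNF : NumberField K := numberField_adjoin p
  have hmem : ∀ z : ℂ, aeval z p = 0 → z ∈ K := fun z hz =>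
    IntermediateField.subset_adjoin _ _ ((mem_rootSet_of_ne hp).mpr hz)
  let X : Fin m → K := fun i => ⟨x i, hmem _ (hx i)⟩
  let Y : Fin m → K := fun i => ⟨(starRingEnd ℂ) (x i), hmem _ (aeval_conj_eq_zero p _ (hx i))⟩
  have hX0 : ∀ i, X i ≠ 0 := fun i h => hx0 i (congrArg Subtype.val h)
  have hY0 : ∀ i, Y i ≠ 0 := fun i h => by
    have : (starRingEnd ℂ) (x i) = 0 := congrArg Subtype.val h
    exact hx0 i (by simpa using this)
  have hXr : ∀ i, aeval (X i) p = 0 := fun i => by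
    apply Subtype.val_injective
    have := Polynomial.aeval_algebraMap_apply ℂ (X i) p
    have h2 : algebraMap K ℂ (aeval (X i) p) = 0 := by
      rw [← this]; exact hx i
    exact h2
  have hYr : ∀ i, aeval (Y i) p = 0 := fun i => by
    apply Subtype.val_injective
    have := Polynomial.aeval_algebraMap_apply ℂ (Y i) p
    have h2 : algebraMap K ℂ (aeval (Y i) p) = 0 := by
      rw [← this]; exact aeval_conj_eq_zero p _ (hx i)
    exact h2
  set β : Fin m → K := fun i => X i / Y i with hβdef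
  have hβ0 : ∀ i, β i ≠ 0 := fun i => div_ne_zero (hX0 i) (hY0 i)
  have hcoe : ∀ g : Fin m → ℤ, ((∏ i, β i ^ g i : K) : ℂ) =
      ∏ i, (x i / (starRingEnd ℂ) (x i)) ^ g i := by
    intro g
    push_cast
    rfl
  have hiff : ∀ g : Fin m → ℤ, ∏ i, β i ^ g i = 1 ↔
      ∏ i, (x i / (starRingEnd ℂ) (x i)) ^ g i = 1 := by
    intro g
    rw [← hcoe g]
    constructor
    · intro h; rw [h]; rfl
    · intro h; exact Subtype.val_injective h
  set D := Module.finrank ℚ K with hDdef
  have hDle : D ≤ k.factorial := finrank_adjoin_le k p hdeg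
  have hA1 : 1 ≤ A := by
    have h1 : 1 ≤ |p.leadingCoeff| := Int.one_le_abs (by rwa [Ne, leadingCoeff_eq_zero])
    have h2 : |p.leadingCoeff| ≤ A := hA _
    have : (1 : ℤ) ≤ A := h1.trans h2
    exact_mod_cast this
  obtain ⟨e, he0, hele, htor⟩ := torsion_bound k p hp hdeg
  have hheight : ∑ i, Height.logHeight₁ (β i) ≤ 6 * m * D * Real.log (A + 1) := by
    calc ∑ i, Height.logHeight₁ (β i) ≤ ∑ i : Fin m, 6 * D * Real.log (A + 1) := by
          refine Finset.sum_le_sum fun i _ => ?_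
          have h1 := logHeight₁_root_le p hp A hA (X i) (hXr i)
          have h2 := logHeight₁_root_le p hp A hA (Y i) (hYr i)
          have h3 : Height.logHeight₁ (β i) ≤ Height.logHeight₁ (X i) + Height.logHeight₁ (Y i) := by
            rw [hβdef]
            simp only [div_eq_mul_inv]
            refine (Height.logHeight₁_mul_le _ _).trans ?_
            rw [Height.logHeight₁_inv]
          linarith
      _ = 6 * m * D * Real.log (A + 1) := by
          simp
          ring
  have hQ : 24 * (D : ℝ) ^ 2 * (6 * m * D * Real.log (A + 1)) < ((144 * m * D ^ 3 * A + 1 : ℕ) : ℝ) := by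
    have h1 : Real.log ((A : ℝ) + 1) ≤ A := by
      have := Real.log_le_sub_one_of_pos (x := (A : ℝ) + 1) (by positivity)
      linarith
    push_cast
    have h2 : (0 : ℝ) ≤ 144 * m * D ^ 3 := by positivity
    nlinarith [mul_le_mul_of_nonneg_left h1 h2]
  have key := relations_abstract β hβ0 _ hheight (144 * m * D ^ 3 * A + 1) hQ e he0
    (fun z ⟨n, hn, hzn⟩ => by
      apply Subtype.val_injective
      have := htor (z : ℂ) z.2 ⟨n, hn, by
        have := congrArg Subtype.val hzn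
        simpa using this⟩
      simpa using this) a
    (fun g hg hrel => H g (fun i => (hg i).trans (by
      exact_mod_cast bound_arith k m A D e hm hDle hele)) ((hiff g).mp hrel))
  intro g hg
  exact key g ((hiff g).mpr hg)

end Pool.Agent.DD7719
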