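import Pool.Agent.DD7719.HtLower
import Pool.Agent.DD7719.HtTorsion

/-! Bound for the multiplicative relations. -/

open Finset

namespace Pool.Agent.DD7719

section heights

open NumberField Height

variable {K : Type*} [Field K] [NumberField K]

/-- Height of an algebraic integer with bounded conjugates. -/
lemma logHeight₁_le_of_isIntegral (y : K) (hy : IsIntegral ℤ y) (B : ℝ) (hB : 1 ≤ B)
    (h : ∀ φ : K →+* ℂ, ‖φ y‖ ≤ B) :
    logHeight₁ y ≤ Module.finrank ℚ K * Real.log B := by
  rw [NumberField.logHeight₁_eq]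
  have h1 : ∑ᶠ v : FinitePlace K, Real.posLog (v y) = 0 := by
    apply finsum_eq_zero_of_forall_eq_zero
    intro v
    rw [Real.posLog_eq_zero_iff]
    rw [abs_of_nonneg (apply_nonneg _ _)]
    have := FinitePlace.norm_le_one K v.maximalIdeal (⟨y, hy⟩ : 𝓞 K)
    rw [← FinitePlace.norm_embedding_eq]
    exact this
  rw [h1, add_zero]
  calc ∑ v : InfinitePlace K, (v.mult : ℝ) * Real.posLog (v y)
      ≤ ∑ v : InfinitePlace K, (v.mult : ℝ) * Real.log B := by
        apply Finset.sum_le_sum
        intro v _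
        gcongr
        have : v y ≤ B := by
          rw [← v.norm_embedding_eq]
          exact h _
        rw [← Real.posLog_eq_log (by rwa [abs_of_nonneg (by linarith)])]
        exact Real.posLog_le_posLog (apply_nonneg _ _) this
    _ = Module.finrank ℚ K * Real.log B := by
        rw [← Finset.sum_mul, ← InfinitePlace.sum_mult_eq (K := K)]
        push_cast
        rfl

open Polynomial in
/-- Height of a root of an integer polynomial. -/
lemma logHeight₁_root_le (p : ℤ[X]) (hp : p ≠ 0) (A : ℕ) (hA : ∀ i, |p.coeff i| ≤ A) (x : K)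
    (hx : aeval x p = 0) :
    logHeight₁ x ≤ 3 * Module.finrank ℚ K * Real.log (A + 1) := by
  set a := p.leadingCoeff with ha
  have ha0 : a ≠ 0 := by rwa [ha, Ne, leadingCoeff_eq_zero]
  have haA : |a| ≤ A := hA _
  have hA1 : (1 : ℝ) ≤ A := by
    have h1 : 1 ≤ |a| := Int.one_le_abs ha0
    have : (1 : ℤ) ≤ A := h1.trans haA
    exact_mod_cast this
  have haA' : |(a : ℝ)| ≤ A := by exact_mod_cast haA
  have hint : IsIntegral ℤ ((a : K) * x) := by
    have := isIntegral_leadingCoeff_smul p x hx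
    rwa [zsmul_eq_mul] at this
  -- Cauchy bound
  have hb : ∀ φ : K →+* ℂ, ‖φ x‖ ≤ A + 1 := by
    intro φ
    set q : ℂ[X] := p.map (Int.castRingHom ℂ) with hq
    have hq0 : q ≠ 0 := by
      rw [hq, Polynomial.map_ne_zero_iff (RingHom.injective_int _)]
      exact hp
    have hr : q.IsRoot (φ x) := by
      rw [IsRoot.def, hq, eval_map]
      have h1 : φ (aeval x p) = 0 := by rw [hx, map_zero]
      rw [aeval_def, hom_eval₂, RingHom.ext_int (φ.comp (algebraMap ℤ K)) (Int.castRingHom ℂ)] at h1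
      exact h1
    have h2 := IsRoot.norm_lt_cauchyBound hq0 hr
    have h3 : cauchyBound q ≤ (A : NNReal) + 1 := by
      rw [cauchyBound]
      gcongr
      apply div_le_of_le_mul₀ (by positivity) (by positivity)
      apply Finset.sup_le
      intro i _
      have hlc : (1 : NNReal) ≤ ‖q.leadingCoeff‖₊ := by
        rw [hq, leadingCoeff_map_of_injective (RingHom.injective_int _)]
        rw [← NNReal.coe_le_coe]
        simp only [NNReal.coe_one, coe_nnnorm, eq_intCast, Complex.norm_intCast]
        exact_mod_cast Int.one_le_abs ha0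
      have hci : ‖q.coeff i‖₊ ≤ (A : NNReal) := by
        rw [← NNReal.coe_le_coe, hq, coeff_map]
        simp only [coe_nnnorm, eq_intCast, Complex.norm_intCast, NNReal.coe_natCast]
        exact_mod_cast hA i
      calc ‖q.coeff i‖₊ ≤ (A : NNReal) := hci
        _ = A * 1 := by rw [mul_one]
        _ ≤ A * ‖q.leadingCoeff‖₊ := by gcongr
    have h4 : ‖φ x‖₊ ≤ (A : NNReal) + 1 := h2.le.trans h3
    exact_mod_cast h4
  have h1 : logHeight₁ ((a : K) * x) ≤ Module.finrank ℚ K * Real.log (A * (A + 1)) := by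
    apply logHeight₁_le_of_isIntegral _ hint
    · nlinarith
    · intro φ
      rw [map_mul, norm_mul, map_intCast, Complex.norm_intCast]
      gcongr
      exact hb φ
  have h2 : logHeight₁ (a : K) ≤ Module.finrank ℚ K * Real.log A := by
    have hia : IsIntegral ℤ (a : K) := by
      simpa using (isIntegral_algebraMap (R := ℤ) (A := K) (x := a))
    apply logHeight₁_le_of_isIntegral _ hia _ hA1
    intro φ
    rw [map_intCast, Complex.norm_intCast]
    exact haA'
  have haK : (a : K) ≠ 0 := by exact_mod_cast ha0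
  have h3 : x = ((a : K) * x) * (a : K)⁻¹ := by
    field_simp
  have h4 : logHeight₁ x ≤ logHeight₁ ((a : K) * x) + logHeight₁ (a : K) := by
    conv_lhs => rw [h3]
    refine (logHeight₁_mul_le _ _).trans ?_
    rw [logHeight₁_inv]
  have h5 : Real.log (A * (A + 1)) = Real.log A + Real.log (A + 1) :=
    Real.log_mul (by positivity) (by positivity)
  have h6 : Real.log A ≤ Real.log (A + 1) := Real.log_le_log (by positivity) (by linarith)
  have hD : (0 : ℝ) ≤ Module.finrank ℚ K := by positivity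
  rw [h5] at h1
  nlinarith [mul_le_mul_of_nonneg_left h6 hD]

end heights

/-- Simultaneous approximation (Dirichlet). -/
lemma dirichlet_simultaneous {ι : Type*} [Fintype ι] (θ : ι → ℝ) (Q : ℕ) (hQ : 0 < Q) :
    ∃ q : ℕ, 1 ≤ q ∧ q ≤ Q ^ Fintype.card ι ∧ ∃ P : ι → ℤ, ∀ i, |q * θ i - P i| < 1 / Q := by
  classical
  have hQr : (0 : ℝ) < Q := by exact_mod_cast hQ
  let F : Fin (Q ^ Fintype.card ι + 1) → (ι → Fin Q) := fun j i =>
    ⟨(⌊Q * Int.fract ((j : ℕ) * θ i)⌋).toNat, by
      have h1 : 0 ≤ Q * Int.fract ((j : ℕ) * θ i) := by positivity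
      have h2 : Q * Int.fract ((j : ℕ) * θ i) < Q := by
        have h0 := Int.fract_lt_one (((j : ℕ) : ℝ) * θ i)
        nlinarith
      have h3 : 0 ≤ ⌊Q * Int.fract ((j : ℕ) * θ i)⌋ := Int.floor_nonneg.mpr h1
      have h4 : ⌊Q * Int.fract ((j : ℕ) * θ i)⌋ < Q := by
        rw [Int.floor_lt]; exact_mod_cast h2
      omega⟩
  have hcard : Fintype.card (ι → Fin Q) < Fintype.card (Fin (Q ^ Fintype.card ι + 1)) := by
    simp
  obtain ⟨j₁, j₂, hne, heq⟩ := Fintype.exists_ne_map_eq_of_card_lt F hcard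
  wlog hlt : j₁ < j₂ generalizing j₁ j₂
  · exact this j₂ j₁ hne.symm heq.symm (lt_of_le_of_ne (not_lt.mp hlt) hne.symm)
  have hlt' : (j₁ : ℕ) < j₂ := hlt
  refine ⟨(j₂ : ℕ) - j₁, by omega, by omega, fun i => ⌊(j₂ : ℕ) * θ i⌋ - ⌊(j₁ : ℕ) * θ i⌋, ?_⟩
  intro i
  have h1 := congrFun heq i
  simp only [F, Fin.mk.injEq] at h1
  have n1 : 0 ≤ ⌊Q * Int.fract (((j₁ : ℕ) : ℝ) * θ i)⌋ :=
    Int.floor_nonneg.mpr (by positivity)
  have n2 : 0 ≤ ⌊Q * Int.fract (((j₂ : ℕ) : ℝ) * θ i)⌋ :=
    Int.floor_nonneg.mpr (by positivity)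
  have h2 : ⌊Q * Int.fract (((j₁ : ℕ) : ℝ) * θ i)⌋ = ⌊Q * Int.fract (((j₂ : ℕ) : ℝ) * θ i)⌋ := by
    omega
  have h3 := Int.abs_sub_lt_one_of_floor_eq_floor h2
  have h4 : ((((j₂ : ℕ) - (j₁ : ℕ) : ℕ) : ℝ) * θ i -
      ((⌊(j₂ : ℕ) * θ i⌋ - ⌊(j₁ : ℕ) * θ i⌋ : ℤ) : ℝ)) =
      -(Int.fract (((j₁ : ℕ) : ℝ) * θ i) - Int.fract (((j₂ : ℕ) : ℝ) * θ i)) := by
    rw [Nat.cast_sub hlt'.le]
    push_cast
    rw [Int.fract, Int.fract]
    ring
  rw [h4, abs_neg, lt_div_iff₀ hQr]
  rw [← mul_sub, abs_mul, abs_of_pos hQr] at h3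
  linarith

section relations

open NumberField Height

variable {K : Type*} [Field K] [NumberField K]

lemma logHeight₁_prod_zpow_le {m : ℕ} (β : Fin m → K) (g : Fin m → ℤ) :
    logHeight₁ (∏ i, β i ^ g i) ≤ ∑ i, |(g i : ℝ)| * logHeight₁ (β i) := by
  refine (logHeight₁_prod_le _ _).trans (Finset.sum_le_sum fun i _ => ?_)
  rw [logHeight₁_zpow]
  apply le_of_eq
  congr 1
  rw [Nat.cast_natAbs]
  push_cast
  rfl

/-- Relation bound, abstract form. -/
theorem relations_abstract {m : ℕ} (β : Fin m → K) (hβ : ∀ i, β i ≠ 0) (H : ℝ)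
    (hH : ∑ i, logHeight₁ (β i) ≤ H) (Q : ℕ)
    (hQ : 24 * (Module.finrank ℚ K : ℝ) ^ 2 * H < Q)
    (e : ℕ) (he : 0 < e) (htor : ∀ z : K, (∃ n : ℕ, 0 < n ∧ z ^ n = 1) → z ^ e = 1)
    (a : Fin m → ℤ)
    (hyp : ∀ g : Fin m → ℤ, (∀ i, |g i| ≤ (e * Q ^ (m - 1) : ℕ)) →
      ∏ i, β i ^ g i = 1 → ∑ i, a i * g i = 0) :
    ∀ g : Fin m → ℤ, ∏ i, β i ^ g i = 1 → ∑ i, a i * g i = 0 := by
  classical
  have hDpos : 0 < Module.finrank ℚ K := Module.finrank_pos
  have hD : (0 : ℝ) < Module.finrank ℚ K := by exact_mod_cast hDpos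
  have hH0 : 0 ≤ H := le_trans (Finset.sum_nonneg fun i _ => zero_le_logHeight₁ _) hH
  have hQr : (0 : ℝ) < Q := lt_of_le_of_lt (by positivity) hQ
  have hQ0 : 0 < Q := by exact_mod_cast hQr
  suffices ∀ n : ℕ, ∀ g : Fin m → ℤ, (Finset.univ.filter (fun i => g i ≠ 0)).card ≤ n →
      ∏ i, β i ^ g i = 1 → ∑ i, a i * g i = 0 from fun g hg => this _ g le_rfl hg
  intro n
  induction n with
  | zero =>
    intro g hg _
    have : ∀ i, g i = 0 := by
      intro i
      by_contra hi
      have h1 : i ∈ Finset.univ.filter (fun i => g i ≠ 0) := by simp [hi]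
      have := Finset.card_pos.mpr ⟨i, h1⟩
      omega
    simp [this]
  | succ n ih =>
    intro g hg hrel
    by_cases hg0 : ∀ i, g i = 0
    · simp [hg0]
    push Not at hg0
    obtain ⟨i₀, hi₀⟩ := hg0
    have hne : Nonempty (Fin m) := ⟨i₀⟩
    obtain ⟨j, hj⟩ := Finite.exists_max (fun i => |g i|)
    have hgj : g j ≠ 0 := by
      intro h
      have := hj i₀
      rw [h, abs_zero] at this
      exact hi₀ (abs_nonpos_iff.mp this)
    have hgjr : (g j : ℝ) ≠ 0 := by exact_mod_cast hgj
    have hgjpos : 0 < |(g j : ℝ)| := abs_pos.mpr hgjr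
    obtain ⟨q, hq1, hq2, P₀, hP₀⟩ := dirichlet_simultaneous
      (fun i : {i : Fin m // i ≠ j} => (g i : ℝ) / g j) Q hQ0
    have hcard : Fintype.card {i : Fin m // i ≠ j} = m - 1 := by
      rw [Fintype.card_subtype_compl]
      simp
    rw [hcard] at hq2
    set P : Fin m → ℤ := fun i => if h : i = j then (q : ℤ) else P₀ ⟨i, h⟩ with hP
    have hPj : P j = q := by simp [hP]
    have happ : ∀ i, |q * ((g i : ℝ) / g j) - P i| < 1 / Q := by
      intro i
      by_cases h : i = j
      · subst h
        rw [hPj, div_self hgjr]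
        simp [hQr]
      · have := hP₀ ⟨i, h⟩
        simp only [hP, h, dif_neg, not_false_eq_true]
        exact this
    have hqr : (0 : ℝ) < q := by exact_mod_cast hq1
    -- the size of P
    have hPle : ∀ i, |P i| ≤ q := by
      intro i
      have h1 : |(P i : ℝ)| < q + 1 := by
        have h2 : |q * ((g i : ℝ) / g j)| ≤ q := by
          rw [abs_mul, abs_div, abs_of_pos hqr]
          have h3 : |(g i : ℝ)| ≤ |(g j : ℝ)| := by exact_mod_cast hj i
          have h4 : |(g i : ℝ)| / |(g j : ℝ)| ≤ 1 := by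
            rw [div_le_one hgjpos]; exact h3
          nlinarith
        have h3 : (1 : ℝ) / Q ≤ 1 := by
          rw [div_le_one hQr]
          exact_mod_cast hQ0
        have h4 : |(P i : ℝ)| ≤ |q * ((g i : ℝ) / g j)| + |q * ((g i : ℝ) / g j) - P i| := by
          have := abs_sub (q * ((g i : ℝ) / g j)) (q * ((g i : ℝ) / g j) - P i)
          rwa [sub_sub_cancel] at this
        linarith [happ i]
      have h5 : ((|P i| : ℤ) : ℝ) < ((q + 1 : ℤ) : ℝ) := by
        push_cast
        exact h1
      have h6 : |P i| < q + 1 := by exact_mod_cast h5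
      omega
    have hP0 : ∀ i, g i = 0 → P i = 0 := by
      intro i hi
      have h1 := happ i
      rw [hi] at h1
      have h3 : (1 : ℝ) / Q ≤ 1 := by
        rw [div_le_one hQr]
        exact_mod_cast hQ0
      have h2 : |(P i : ℝ)| < 1 := by
        have : q * (((0 : ℤ) : ℝ) / g j) - P i = -(P i : ℝ) := by simp
        rw [this, abs_neg] at h1
        linarith
      have h4 : |P i| < 1 := by exact_mod_cast h2
      exact Int.abs_lt_one_iff.mp h4
    -- the element γ
    set γ : K := ∏ i, β i ^ P i with hγ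
    have hγ0 : γ ≠ 0 := Finset.prod_ne_zero_iff.mpr fun i _ => zpow_ne_zero _ (hβ i)
    have hγpow : γ ^ (g j) = ∏ i, β i ^ (g j * P i - q * g i) := by
      have h1 : ∏ i, β i ^ (g j * P i - q * g i) = (∏ i, β i ^ P i) ^ (g j) / (∏ i, β i ^ g i) ^ q := by
        rw [← Finset.prod_zpow, ← Finset.prod_pow, ← Finset.prod_div_distrib]
        refine Finset.prod_congr rfl fun i _ => ?_
        rw [zpow_sub₀ (hβ i), ← zpow_mul, ← zpow_natCast, ← zpow_mul]
        congr 2 <;> ring
      rw [h1, hrel, one_pow, div_one]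
    have hht : logHeight₁ γ < 1 / (24 * (Module.finrank ℚ K : ℝ) ^ 2) := by
      have h1 : |(g j : ℝ)| * logHeight₁ γ ≤ |(g j : ℝ)| * (H / Q) := by
        calc |(g j : ℝ)| * logHeight₁ γ = logHeight₁ (γ ^ (g j)) := by
              rw [logHeight₁_zpow, Nat.cast_natAbs]
              push_cast
              rfl
          _ ≤ ∑ i, |((g j * P i - q * g i : ℤ) : ℝ)| * logHeight₁ (β i) := by
              rw [hγpow]
              exact logHeight₁_prod_zpow_le _ _
          _ ≤ ∑ i, (|(g j : ℝ)| / Q) * logHeight₁ (β i) := by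
              refine Finset.sum_le_sum fun i _ => ?_
              apply mul_le_mul_of_nonneg_right _ (zero_le_logHeight₁ _)
              have h2 : ((g j * P i - q * g i : ℤ) : ℝ) =
                  -((g j : ℝ) * (q * ((g i : ℝ) / g j) - P i)) := by
                push_cast
                field_simp
                ring
              rw [h2, abs_neg, abs_mul]
              refine (mul_le_mul_of_nonneg_left (happ i).le (abs_nonneg _)).trans (le_of_eq ?_)
              ring
          _ = (|(g j : ℝ)| / Q) * ∑ i, logHeight₁ (β i) := by rw [Finset.mul_sum]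
          _ ≤ (|(g j : ℝ)| / Q) * H := by gcongr
          _ = |(g j : ℝ)| * (H / Q) := by ring
      have h2 : logHeight₁ γ ≤ H / Q := le_of_mul_le_mul_left h1 hgjpos
      refine lt_of_le_of_lt h2 ?_
      rw [div_lt_div_iff₀ hQr (by positivity)]
      linarith
    have hγtor : ∃ n : ℕ, 0 < n ∧ γ ^ n = 1 := by
      by_contra hcon
      exact absurd (logHeight₁_ge γ hγ0 hcon) (not_le.mpr hht)
    have hγe := htor γ hγtor
    -- the small relation
    have hrel' : ∏ i, β i ^ (e * P i : ℤ) = 1 := by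
      rw [← hγe, hγ, ← Finset.prod_pow]
      refine Finset.prod_congr rfl fun i _ => ?_
      rw [mul_comm, zpow_mul, zpow_natCast]
    have hsmall : ∀ i, |(e * P i : ℤ)| ≤ (e * Q ^ (m - 1) : ℕ) := by
      intro i
      rw [abs_mul, Nat.abs_cast]
      push_cast
      apply mul_le_mul_of_nonneg_left _ (by positivity)
      refine (hPle i).trans ?_
      exact_mod_cast hq2
    have hz := hyp (fun i => e * P i) hsmall hrel'
    -- eliminate the coordinate j
    have hIH := ih (fun i => (e * P j) * g i - g j * (e * P i)) ?_ ?_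
    · have h1 : ∑ i, a i * ((e * P j) * g i - g j * (e * P i)) =
          (e * P j) * ∑ i, a i * g i - g j * ∑ i, a i * (e * P i) := by
        rw [Finset.mul_sum, Finset.mul_sum, ← Finset.sum_sub_distrib]
        refine Finset.sum_congr rfl fun i _ => ?_
        ring
      rw [h1, hz, mul_zero, sub_zero] at hIH
      rcases mul_eq_zero.mp hIH with h2 | h2
      · exfalso
        rw [hPj] at h2
        have : (0 : ℤ) < e * q := by positivity
        omega
      · exact h2
    · have hsub : (Finset.univ.filter (fun i => (e * P j) * g i - g j * (e * P i) ≠ 0)) ⊆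
          (Finset.univ.filter (fun i => g i ≠ 0)).erase j := by
        intro i hi
        simp only [Finset.mem_filter, Finset.mem_univ, true_and] at hi
        simp only [Finset.mem_erase, Finset.mem_filter, Finset.mem_univ, true_and]
        constructor
        · rintro rfl
          apply hi
          ring
        · intro h
          apply hi
          rw [h, hP0 i h]
          ring
      have := Finset.card_le_card hsub
      rw [Finset.card_erase_of_mem (by simp [hgj])] at this
      omega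
    · have h1 : ∏ i, β i ^ ((e * P j) * g i - g j * (e * P i)) =
          (∏ i, β i ^ g i) ^ (e * P j) / (∏ i, β i ^ (e * P i : ℤ)) ^ (g j) := by
        rw [← Finset.prod_zpow, ← Finset.prod_zpow, ← Finset.prod_div_distrib]
        refine Finset.prod_congr rfl fun i _ => ?_
        rw [zpow_sub₀ (hβ i), ← zpow_mul, ← zpow_mul]
        congr 2 <;> ring
      rw [h1, hrel, hrel']
      simp

end relations

end Pool.Agent.DD7719
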