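import Pool.Agent.DD7719.SubSpace
import Pool.Agent.DD7719.AuxPoly

/-!
# `no_bad_sequence`: the contradiction at the heart of the Subspace theorem
-/

open NumberField

namespace Pool.Agent.DD7719

/-- (T6)  The contradiction at the heart of the Subspace theorem.
`Z i` (`i < N-1`) is a basis (in `Y`-coordinates, integral) of a hyperplane; `X J = Λ J ^ n * Y J`;
`v` is its normal vector in `X`-coordinates. -/
theorem no_bad_sequence (K : Type*) [Field K] [NumberField K] (φ : K →+* ℂ)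
    (hφ : ComplexEmbedding.conjugate φ ≠ φ) (ι : Type) [Fintype ι] [DecidableEq ι]
    (Λ : ι → K) (hΛ : ∀ J, Λ J ≠ 0) (L : Matrix ι ι K) (hL : L.det ≠ 0)
    (β : ℝ) (s : ι → ℝ)
    (hneg : ((Fintype.card (K →+* ℂ) : ℝ) - 2) * Fintype.card ι * β + 2 * ∑ J, s J < 0)
    (J₁ J₂ : ι) (hJ : J₁ ≠ J₂) (h₀ : ℝ) (hh₀ : 0 < h₀)
    (H : ∀ ε : ℝ, 0 < ε → ∀ n₀ : ℕ, ∃ n : ℕ, n₀ ≤ n ∧
      ∃ Z : Fin (Fintype.card ι - 1) → ι → 𝓞 K,
        LinearIndependent K (fun i J => (Z i J : K)) ∧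
        (∀ σ : K →+* ℂ, σ ≠ φ → σ ≠ ComplexEmbedding.conjugate φ → ∀ i J,
          ‖σ (Z i J : K)‖ ≤ Real.exp (n * (β + ε))) ∧
        (∀ i J, ‖φ (∑ J', L J J' * (Λ J' ^ n * (Z i J' : K)))‖ ≤
          ‖φ (Λ J)‖ ^ n * Real.exp (n * (s J + ε))) ∧
        ∃ v : ι → K, (∀ i, ∑ J, v J * (Λ J ^ n * (Z i J : K)) = 0) ∧ v J₁ ≠ 0 ∧ v J₂ ≠ 0 ∧
          n * h₀ ≤ Height.logHeight₁ (v J₁ / v J₂)) :
    False := by
  have : Nonempty ι := ⟨J₁⟩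
  exact no_bad_sequence_of_aux (fun δ hδ => aux_poly K ι δ hδ) φ hφ Λ hΛ L hL β s hneg J₁ J₂ hJ
    h₀ hh₀ H

end Pool.Agent.DD7719
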