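import Mathlib

/-! Ultrafilter limits along a sequence of bad indices, and sorting. -/

namespace Pool.Agent.DD7719.M

open Filter Topology

lemma exists_ultra {P : ℕ → Prop} (h : ∃ᶠ n in atTop, P n) :
    ∃ F : Ultrafilter ℕ, (F : Filter ℕ) ≤ atTop ∧ ∀ᶠ n in (F : Filter ℕ), P n := by
  have hne : (atTop ⊓ 𝓟 {n | P n}).NeBot := by
    rw [Filter.inf_principal_neBot_iff]
    intro U hU
    obtain ⟨n, h1, h2⟩ := (h.and_eventually hU).exists
    exact ⟨n, h2, h1⟩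
  refine ⟨Ultrafilter.of (atTop ⊓ 𝓟 {n | P n}), (Ultrafilter.of_le _).trans inf_le_left, ?_⟩
  exact ((Ultrafilter.of_le _).trans inf_le_right) (mem_principal_self _)

lemma ultra_const {α : Type*} [Finite α] (F : Ultrafilter ℕ) (g : ℕ → α) :
    ∃ a, ∀ᶠ n in (F : Filter ℕ), g n = a := by
  by_contra hcon
  push Not at hcon
  have h1 : ∀ a, ∀ᶠ n in (F : Filter ℕ), g n ≠ a := hcon
  have h2 := Filter.eventually_all.mpr h1
  obtain ⟨n, hn⟩ := h2.exists
  exact hn (g n) rfl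

lemma ultra_lim (F : Ultrafilter ℕ) (g : ℕ → ℝ) (a b : ℝ)
    (h : ∀ᶠ n in (F : Filter ℕ), a ≤ g n ∧ g n ≤ b) :
    ∃ x, Tendsto g (F : Filter ℕ) (𝓝 x) := by
  obtain ⟨x, _, hx⟩ := (isCompact_Icc (a := a) (b := b)).ultrafilter_le_nhds (F.map g) (by
    rw [Filter.le_principal_iff]
    exact h)
  exact ⟨x, hx⟩

lemma exists_sort {α : Type*} {N : ℕ} (e₀ : α ≃ Fin N) (s : α → ℝ) :
    ∃ e : α ≃ Fin N, Monotone fun i => s (e.symm i) := by
  refine ⟨e₀.trans (Tuple.sort fun i => s (e₀.symm i)).symm, ?_⟩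
  have := Tuple.monotone_sort fun i => s (e₀.symm i)
  intro i j hij
  exact this hij

end Pool.Agent.DD7719.M
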