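import Pool.Agent.DD7719.Step
import Pool.Agent.DD7719.UltraLim
import Pool.Agent.DD7719.GapCalc
import Pool.Agent.DD7719.SubFinal

/-! The lower bound `|∑ c_i λ_i^n| ≥ |λ|^n e^{-εn}` (K-version). -/

namespace Pool.Agent.DD7719.M

open Module Matrix NumberField Height Filter Topology

variable {K : Type} [Field K] [NumberField K] {m : ℕ}

/-- the main case -/
theorem lower_bound_small (φ : K →+* ℂ) (hφ : ComplexEmbedding.conjugate φ ≠ φ)
    (cc lb : Fin (m + 1) → K) (hcc : ∀ i, cc i ≠ 0) (hlb : ∀ i, lb i ≠ 0)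
    (hmod : ∀ i, ‖φ (lb i)‖ = ‖φ (lb 0)‖) (ε hm : ℝ) (hε : 0 < ε) (hhm : 0 < hm)
    (hh : ∀ i j, i ≠ j → hm ≤ logHeight₁ (lb i / lb j))
    (hεhm : 8 * (m + 1) ^ 2 * ε < hm) (hm1 : 0 < m) :
    ∀ᶠ n : ℕ in atTop, Real.exp (-(ε * n)) < ‖φ (∑ k, cc k * (lb k / lb 0) ^ n)‖ := by
  classical
  by_contra hcon
  set D := Fintype.card (K →+* ℂ) with hD
  have hDpos : 0 < D := Fintype.card_pos_iff.mpr ⟨φ⟩
  have hDR : (0 : ℝ) < D := by exact_mod_cast hDpos
  set P : ℕ → Prop := fun n => Real.exp (ε * n) * ‖φ (∑ k, cc k * (lb k / lb 0) ^ n)‖ ≤ 1 with hP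
  have hfreq : ∃ᶠ n in atTop, P n := by
    rw [not_eventually] at hcon
    refine hcon.mono ?_
    intro n hn
    push Not at hn
    simp only [hP]
    calc _ ≤ Real.exp (ε * n) * Real.exp (-(ε * n)) :=
          mul_le_mul_of_nonneg_left hn (Real.exp_pos _).le
      _ = 1 := by rw [← Real.exp_add]; simp
  obtain ⟨F, hFtop, hFP⟩ := exists_ultra hfreq
  obtain ⟨C, hC, hbase⟩ := base_facts φ hφ cc lb (hcc 0) hlb hmod
  have hC0 : 0 < C := by linarith
  have hexp1 : ∀ n : ℕ, 1 ≤ Real.exp (ε * n) := by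
    intro n
    apply Real.one_le_exp
    positivity
  have hdata : ∀ n, ∃ (y : Fin (m + 1) → Fin (m + 1) → 𝓞 K) (lam : Fin (m + 1) → ℝ),
      P n → Monotone lam ∧
        LinearIndependent K (fun i => toK (y i)) ∧
        Reduced C (An φ cc lb n (Real.exp (ε * n))) y lam ∧
        lam 0 ≤ C ∧ (∀ i, 1 ≤ C * lam i) ∧
        (∏ i, lam i) ^ D ≤ C * (Real.exp (ε * n)) ^ 2 ∧
        (Real.exp (ε * n)) ^ 2 ≤ C * (∏ i, lam i) ^ D ∧
        (∀ (σ : K →+* ℂ) i k, ‖σ (y i k : K)‖ ≤ C * lam i) := by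
    intro n
    by_cases h : P n
    · obtain ⟨y, lam, H⟩ := hbase n (Real.exp (ε * n)) (hexp1 n) h
      exact ⟨y, lam, fun _ => H⟩
    · exact ⟨0, 0, fun h' => absurd h' h⟩
  choose y lam hdata using hdata
  have hF0 : ∀ᶠ n : ℕ in (F : Filter ℕ), 0 < n := hFtop (eventually_gt_atTop 0)
  have hconst : ∀ c : ℝ, Tendsto (fun n : ℕ => c / (n : ℝ)) (F : Filter ℕ) (𝓝 0) := fun c =>
    (tendsto_const_div_atTop_nhds_zero_nat c).mono_left hFtop
  have hlampos : ∀ n, P n → ∀ i, 0 < lam n i := fun n hn => (hdata n hn).2.2.1.pos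
  have hlogC : 0 ≤ Real.log C := Real.log_nonneg hC
  have hloglow : ∀ n, P n → ∀ i, -Real.log C ≤ Real.log (lam n i) := by
    intro n hn i
    have h1 := (hdata n hn).2.2.2.2.1 i
    have h2 := hlampos n hn i
    have h3 := Real.log_nonneg h1
    rw [Real.log_mul hC0.ne' h2.ne'] at h3
    linarith
  have hlogprod : ∀ n, P n → Real.log ((∏ i, lam n i) ^ D) = D * ∑ i, Real.log (lam n i) := by
    intro n hn
    rw [Real.log_pow, Real.log_prod (fun i _ => (hlampos n hn i).ne')]
  have hsumup : ∀ n, P n → D * ∑ i, Real.log (lam n i) ≤ Real.log C + 2 * (ε * n) := by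
    intro n hn
    have h1 := (hdata n hn).2.2.2.2.2.1
    have h2 : 0 < (∏ i, lam n i) ^ D := pow_pos (Finset.prod_pos fun i _ => hlampos n hn i) _
    have h3 := Real.log_le_log h2 h1
    rw [hlogprod n hn, Real.log_mul hC0.ne' (by positivity), Real.log_pow, Real.log_exp] at h3
    push_cast at h3
    exact h3
  have hsumlow : ∀ n, P n → 2 * (ε * n) ≤ Real.log C + D * ∑ i, Real.log (lam n i) := by
    intro n hn
    have h1 := (hdata n hn).2.2.2.2.2.2.1
    have h2 : 0 < (∏ i, lam n i) ^ D := pow_pos (Finset.prod_pos fun i _ => hlampos n hn i) _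
    have h3 := Real.log_le_log (by positivity) h1
    rw [Real.log_mul hC0.ne' h2.ne', hlogprod n hn, Real.log_pow, Real.log_exp] at h3
    push_cast at h3
    exact h3
  -- limits
  have hlim : ∀ i, ∃ x, Tendsto (fun n => Real.log (lam n i) / n) (F : Filter ℕ) (𝓝 x) := by
    intro i
    apply ultra_lim F _ (-Real.log C) ((m + 2) * Real.log C + 2 * ε)
    filter_upwards [hFP, hF0] with n hn hn0
    have hn1 : (1 : ℝ) ≤ n := by exact_mod_cast hn0
    have hn0' : (0 : ℝ) < n := by linarith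
    constructor
    · rw [le_div_iff₀ hn0']
      have h1 := hloglow n hn i
      nlinarith
    · rw [div_le_iff₀ hn0']
      have h1 := hsumup n hn
      have h2 : ∑ j ∈ Finset.univ.erase i, (-Real.log C) ≤
          ∑ j ∈ Finset.univ.erase i, Real.log (lam n j) :=
        Finset.sum_le_sum fun j _ => hloglow n hn j
      rw [Finset.sum_const, Finset.card_erase_of_mem (Finset.mem_univ _), Finset.card_univ,
        Fintype.card_fin, nsmul_eq_mul] at h2
      have h3 := Finset.add_sum_erase Finset.univ (fun j => Real.log (lam n j)) (Finset.mem_univ i)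
      have h4 : Real.log (lam n i) - m * Real.log C ≤ ∑ j, Real.log (lam n j) := by
        rw [← h3]
        rw [Nat.add_sub_cancel] at h2
        linarith
      have h5 : ∑ j, Real.log (lam n j) ≤ Real.log C + 2 * (ε * n) := by
        have hD1 : (1 : ℝ) ≤ D := by exact_mod_cast hDpos
        by_cases h6 : 0 ≤ ∑ j, Real.log (lam n j)
        · nlinarith
        · push Not at h6
          have : 0 ≤ ε * n := by positivity
          linarith
      have h7 : (m + 1) * Real.log C ≤ (m + 1) * Real.log C * n := by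
        have : 0 ≤ ((m : ℝ) + 1) * Real.log C := by positivity
        nlinarith
      have h8 : 0 ≤ Real.log C * n := by positivity
      nlinarith
  choose μ hμ using hlim
  have hμ0 : μ 0 = 0 := by
    apply le_antisymm
    · have h1 : ∀ᶠ n : ℕ in (F : Filter ℕ), Real.log (lam n 0) / n ≤ Real.log C / n := by
        filter_upwards [hFP, hF0] with n hn hn0
        have hn0' : (0 : ℝ) < n := by exact_mod_cast hn0
        apply div_le_div_of_nonneg_right _ hn0'.le
        exact Real.log_le_log (hlampos n hn 0) (hdata n hn).2.2.2.1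
      exact le_of_tendsto_of_tendsto (hμ 0) (hconst _) h1
    · have h1 : ∀ᶠ n : ℕ in (F : Filter ℕ), (-Real.log C) / n ≤ Real.log (lam n 0) / n := by
        filter_upwards [hFP, hF0] with n hn hn0
        have hn0' : (0 : ℝ) < n := by exact_mod_cast hn0
        apply div_le_div_of_nonneg_right _ hn0'.le
        exact hloglow n hn 0
      exact le_of_tendsto_of_tendsto (hconst _) (hμ 0) h1
  have hμmono : Monotone μ := by
    intro i j hij
    have h1 : ∀ᶠ n : ℕ in (F : Filter ℕ), Real.log (lam n i) / n ≤ Real.log (lam n j) / n := by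
      filter_upwards [hFP, hF0] with n hn hn0
      have hn0' : (0 : ℝ) < n := by exact_mod_cast hn0
      apply div_le_div_of_nonneg_right _ hn0'.le
      exact Real.log_le_log (hlampos n hn i) ((hdata n hn).1 hij)
    exact le_of_tendsto_of_tendsto (hμ i) (hμ j) h1
  have hμnn : ∀ i, 0 ≤ μ i := fun i => hμ0 ▸ hμmono (Fin.zero_le i)
  have hsumlim : Tendsto (fun n : ℕ => D * ∑ i, Real.log (lam n i) / n) (F : Filter ℕ)
      (𝓝 (D * ∑ i, μ i)) :=
    (tendsto_finsetSum _ fun i _ => hμ i).const_mul _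
  have hμsum : D * ∑ i, μ i = 2 * ε := by
    have hc := hconst (Real.log C)
    have hc2 : Tendsto (fun n : ℕ => Real.log C / n + 2 * ε) (F : Filter ℕ) (𝓝 (2 * ε)) := by
      simpa using hc.add_const (2 * ε)
    apply le_antisymm
    · apply le_of_tendsto_of_tendsto hsumlim hc2
      filter_upwards [hFP, hF0] with n hn hn0
      have hn0' : (0 : ℝ) < n := by exact_mod_cast hn0
      rw [← Finset.sum_div, mul_div_assoc', div_le_iff₀ hn0', add_mul, div_mul_cancel₀ _ hn0'.ne']
      have := hsumup n hn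
      linarith
    · have h2 : Tendsto (fun n : ℕ => Real.log C / n + D * ∑ i, Real.log (lam n i) / n)
          (F : Filter ℕ) (𝓝 (D * ∑ i, μ i)) := by
        simpa using hc.add hsumlim
      apply le_of_tendsto_of_tendsto (tendsto_const_nhds (x := 2 * ε)) h2
      filter_upwards [hFP, hF0] with n hn hn0
      have hn0' : (0 : ℝ) < n := by exact_mod_cast hn0
      show 2 * ε ≤ _
      rw [← Finset.sum_div, mul_div_assoc', ← add_div, le_div_iff₀ hn0']
      have := hsumlow n hn
      linarith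
  have hμlast : μ (Fin.last m) ≤ 2 * ε := by
    have h1 : μ (Fin.last m) ≤ ∑ i, μ i :=
      Finset.single_le_sum (fun i _ => hμnn i) (Finset.mem_univ _)
    have h2 : 0 ≤ ∑ i, μ i := Finset.sum_nonneg fun i _ => hμnn i
    have hD1 : (1 : ℝ) ≤ D := by exact_mod_cast hDpos
    nlinarith
  -- the gap
  have hsumpos : 0 < ∑ i, μ i := by
    by_contra h
    push Not at h
    have : (D : ℝ) * ∑ i, μ i ≤ 0 := mul_nonpos_of_nonneg_of_nonpos hDR.le h
    linarith
  obtain ⟨p, hp, hp0, hgap⟩ := exists_gap μ hμ0.le hsumpos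
  obtain ⟨q, hq⟩ : ∃ q, p + q = m + 1 := ⟨m + 1 - p, by omega⟩
  have hq0 : 0 < q := by omega
  -- the limits for the compounds
  set ν : (Fin q ↪o Fin (m + 1)) → ℝ := fun f => ∑ l, μ (f l) with hν
  have hνlim : ∀ f : Fin q ↪o Fin (m + 1),
      Tendsto (fun n : ℕ => Real.log (∏ l, lam n (f l)) / n) (F : Filter ℕ) (𝓝 (ν f)) := by
    intro f
    have h1 : Tendsto (fun n : ℕ => ∑ l, Real.log (lam n (f l)) / n) (F : Filter ℕ) (𝓝 (ν f)) :=
      tendsto_finsetSum _ fun l _ => hμ (f l)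
    apply h1.congr'
    filter_upwards [hFP] with n hn
    rw [Real.log_prod (fun l _ => (hlampos n hn _).ne'), Finset.sum_div]
  have hνtop : ∀ f : Fin q ↪o Fin (m + 1), f ≠ topEmb hq → ν f < ν (topEmb hq) := by
    intro f hf
    have h1 : ν f + μ ⟨p, hp⟩ ≤ μ ⟨p - 1, by omega⟩ + ν (topEmb hq) := by
      apply le_of_tendsto_of_tendsto ((hνlim f).add (hμ _)) ((hμ _).add (hνlim _))
      filter_upwards [hFP, hF0] with n hn hn0
      have hn0' : (0 : ℝ) < n := by exact_mod_cast hn0
      have h2 := clam_le hq hp0 hq0 (lam n) (hlampos n hn) (hdata n hn).1 f hf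
      have hpf : 0 < ∏ i, lam n (f i) := Finset.prod_pos fun i _ => hlampos n hn _
      have hpt : 0 < ∏ i, lam n (topEmb hq i) := Finset.prod_pos fun i _ => hlampos n hn _
      have h3 := Real.log_le_log (mul_pos hpf (hlampos n hn _)) h2
      rw [Real.log_mul hpf.ne' (hlampos n hn _).ne', Real.log_mul (hlampos n hn _).ne' hpt.ne'] at h3
      rw [← add_div, ← add_div]
      exact div_le_div_of_nonneg_right h3 hn0'.le
    linarith
  -- N
  have hnontriv : 1 < Fintype.card (Fin q ↪o Fin (m + 1)) := by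
    have : Nontrivial (Fin q ↪o Fin (m + 1)) := by
      refine ⟨topEmb hq, Fin.castLEOrderEmb (by omega), ?_⟩
      intro h
      have h1 := congrArg (fun f : Fin q ↪o Fin (m + 1) => ((f ⟨0, hq0⟩ : Fin (m + 1)) : ℕ)) h
      simp only [topEmb_val, Fin.castLEOrderEmb_apply, Fin.val_castLE] at h1
      omega
    exact Fintype.one_lt_card
  obtain ⟨N, hN⟩ : ∃ N, Fintype.card (Fin q ↪o Fin (m + 1)) = N + 1 :=
    ⟨Fintype.card (Fin q ↪o Fin (m + 1)) - 1, by omega⟩
  have hNpos : 0 < N := by omega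
  let e₀ : (Fin q ↪o Fin (m + 1)) ≃ Fin (N + 1) := Fintype.equivFinOfCardEq hN
  let b : Fin (N + 1) := ⟨N - 1, by omega⟩
  have hb : (b : ℕ) + 1 = N := by
    show N - 1 + 1 = N
    omega
  -- sorting
  have hsort : ∀ n, ∃ e : (Fin q ↪o Fin (m + 1)) ≃ Fin (N + 1),
      Monotone (clam e (lam n)) := fun n => exists_sort e₀ fun f => ∏ l, lam n (f l)
  choose E hE using hsort
  obtain ⟨e, he⟩ := ultra_const F E
  have hemono : ∀ᶠ n : ℕ in (F : Filter ℕ), Monotone (clam e (lam n)) := by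
    filter_upwards [he] with n hn
    rw [← hn]
    exact hE n
  have hclim : ∀ J, Tendsto (fun n : ℕ => Real.log (clam e (lam n) J) / n) (F : Filter ℕ)
      (𝓝 (ν (e.symm J))) := fun J => hνlim (e.symm J)
  have hνmono : Monotone fun J => ν (e.symm J) := by
    intro i j hij
    apply le_of_tendsto_of_tendsto (hclim i) (hclim j)
    filter_upwards [hFP, hF0, hemono] with n hn hn0 hmn
    have hn0' : (0 : ℝ) < n := by exact_mod_cast hn0
    apply div_le_div_of_nonneg_right _ hn0'.le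
    exact Real.log_le_log (Finset.prod_pos fun l _ => hlampos n hn _) (hmn hij)
  have hetop : e (topEmb hq) = Fin.last N := by
    by_contra hne
    have h1 : e.symm (Fin.last N) ≠ topEmb hq := by
      intro h
      apply hne
      rw [← h, Equiv.apply_symm_apply]
    have h2 := hνtop _ h1
    have h3 := hνmono (Fin.le_last (e (topEmb hq)))
    simp only [Equiv.symm_apply_apply] at h3
    linarith
  have hetop' : e.symm (Fin.last N) = topEmb hq := by rw [← hetop, Equiv.symm_apply_apply]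
  set β : ℝ := ν (e.symm b) with hβ
  have hβlt : β < ν (e.symm (Fin.last N)) := by
    rw [hetop']
    apply hνtop
    intro h
    have h1 := congrArg e h
    rw [Equiv.apply_symm_apply, hetop] at h1
    have h2 := congrArg Fin.val h1
    rw [Fin.val_last] at h2
    omega
  obtain ⟨C', hC', hstep⟩ := step φ hφ cc lb hcc hlb hmod C hC hq hp0 hq0 e₀ b hb
  have hC'0 : 0 < C' := by linarith
  have hμp : 0 < μ ⟨p, hp⟩ := lt_of_le_of_lt (hμnn _) hgap
  have hlamp : ∀ᶠ n : ℕ in (F : Filter ℕ), C' < lam n ⟨p, hp⟩ := by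
    have h1 : ∀ᶠ n : ℕ in (F : Filter ℕ), Real.log C' / n < Real.log (lam n ⟨p, hp⟩) / n :=
      (hconst _).eventually_lt (hμ _) hμp
    filter_upwards [hFP, hF0, h1] with n hn hn0 h2
    have hn0' : (0 : ℝ) < n := by exact_mod_cast hn0
    rw [div_lt_div_iff_of_pos_right hn0'] at h2
    exact (Real.log_lt_log_iff hC'0 (hlampos n hn _)).mp h2
  have hclast : ∀ᶠ n : ℕ in (F : Filter ℕ), C' * clam e (lam n) b < clam e (lam n) (Fin.last N) := by
    have h0 : Tendsto (fun n : ℕ => Real.log C' / n + Real.log (clam e (lam n) b) / n)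
        (F : Filter ℕ) (𝓝 β) := by
      simpa using (hconst (Real.log C')).add (hclim b)
    have h1 := h0.eventually_lt (hclim (Fin.last N)) hβlt
    filter_upwards [hFP, hF0, h1] with n hn hn0 h2
    have hn0' : (0 : ℝ) < n := by exact_mod_cast hn0
    have hcb : 0 < clam e (lam n) b := Finset.prod_pos fun l _ => hlampos n hn _
    have hcl : 0 < clam e (lam n) (Fin.last N) := Finset.prod_pos fun l _ => hlampos n hn _
    rw [← add_div, div_lt_div_iff_of_pos_right hn0', ← Real.log_mul hC'0.ne' hcb.ne'] at h2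
    exact (Real.log_lt_log_iff (by positivity) hcl).mp h2
  set G : ℕ → Prop := fun n => P n ∧ Monotone (clam e (lam n)) ∧ C' < lam n ⟨p, hp⟩ ∧
    C' * clam e (lam n) b < clam e (lam n) (Fin.last N) with hG
  have hFG : ∀ᶠ n : ℕ in (F : Filter ℕ), G n := by
    filter_upwards [hFP, hemono, hlamp, hclast] with n h1 h2 h3 h4
    exact ⟨h1, h2, h3, h4⟩
  have hall : ∀ n, ∃ (π : Equiv.Perm (Fin (N + 1))) (J₁ J₀ : Fin (N + 1)), G n →
      ∃ (k j : Fin (m + 1))
          (Z : Fin N → Fin (N + 1) → 𝓞 K) (v : Fin (N + 1) → K),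
          J₁ ≠ J₀ ∧ k ≠ j ∧
          LinearIndependent K (fun i => toK (Z i)) ∧
          (∀ σ : K →+* ℂ, σ ≠ φ → σ ≠ ComplexEmbedding.conjugate φ → ∀ i J,
            ‖σ (Z i J : K)‖ ≤ C' * clam e (lam n) b) ∧
          (∀ i J, ‖φ (∑ J', (compound q (L1 cc)).submatrix e₀.symm e₀.symm (π J) J' *
              (lamProd lb (e₀.symm J') ^ n * (Z i J' : K)))‖ ≤
            ‖φ (lamProd lb (e₀.symm (π J)))‖ ^ n *
              ((if (0 : Fin (m + 1)) ∈ Set.range (e₀.symm (π J)) then Real.exp (ε * n) else 1)⁻¹ *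
              (C' * clam e (lam n) b *
                (min (clam e (lam n) J) (clam e (lam n) b) / clam e (lam n) b) ^
                ((Fintype.card (K →+* ℂ) : ℝ) / 2)))) ∧
          (∀ i, ∑ J, v J * (lamProd lb (e₀.symm J) ^ n * (Z i J : K)) = 0) ∧
          v J₁ ≠ 0 ∧ v J₀ ≠ 0 ∧
          n * logHeight₁ (lb k / lb j) ≤ logHeight₁ (v J₁ / v J₀) +
            D * Real.log (C' * (lam n (Fin.last m)) ^ ((m + 1) * q)) := by
    intro n
    by_cases h : G n
    · obtain ⟨hPn, hmn, hln, hcn⟩ := h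
      obtain ⟨h1, h2, h3, h4, h5, h6, h7, h8⟩ := hdata n hPn
      obtain ⟨π, J₁, J₀, k, j, Z, v, H⟩ := hstep n (Real.exp (ε * n)) (hexp1 n) (y n) (lam n)
        h1 h2 h3 h5 h6 h8 e hetop hmn hln hcn
      exact ⟨π, J₁, J₀, fun _ => ⟨k, j, Z, v, H⟩⟩
    · exact ⟨1, 0, 0, fun h' => absurd h' h⟩
  choose π J₁ J₀ hall using hall
  obtain ⟨⟨π', J₁', J₀'⟩, hcst⟩ := ultra_const F (fun n => (π n, J₁ n, J₀ n))
  have hFH : ∀ᶠ n : ℕ in (F : Filter ℕ), G n ∧ π n = π' ∧ J₁ n = J₁' ∧ J₀ n = J₀' := by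
    filter_upwards [hFG, hcst] with n h1 h2
    simp only [Prod.mk.injEq] at h2
    exact ⟨h1, h2⟩
  have hJne : J₁' ≠ J₀' := by
    obtain ⟨n, hGn, h1, h2, h3⟩ := hFH.exists
    obtain ⟨k, j, Z, v, h4, _⟩ := hall n hGn
    rw [← h2, ← h3]
    exact h4
  -- the exponents
  set tt : Fin (N + 1) → ℝ := fun J =>
    if (0 : Fin (m + 1)) ∈ Set.range (e₀.symm J) then ε else 0 with htt
  set s : Fin (N + 1) → ℝ := fun J =>
    β + D / 2 * (min (ν (e.symm (π'.symm J))) β - β) - tt J with hs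
  have httsum : D * ∑ J, ν (e.symm J) = 2 * ∑ J, tt J := by
    have h1 : ∑ J, ν (e.symm J) = ∑ f, ν f := Equiv.sum_comp e.symm ν
    have h2 : ∑ J, tt J = ∑ f : Fin q ↪o Fin (m + 1),
        if (0 : Fin (m + 1)) ∈ Set.range f then ε else 0 :=
      Equiv.sum_comp e₀.symm (fun f : Fin q ↪o Fin (m + 1) =>
        if (0 : Fin (m + 1)) ∈ Set.range f then ε else 0)
    rw [h1, h2, hν, sum_sum_emb 0 μ, ← Finset.sum_filter, Finset.sum_const, nsmul_eq_mul]
    have h3 : ((Finset.univ.filter fun f : Fin q ↪o Fin (m + 1) =>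
        (0 : Fin (m + 1)) ∈ Set.range f).card : ℝ) = thru q (m + 1) 0 := by
      rw [thru]
    rw [h3]
    calc (D : ℝ) * (thru q (m + 1) 0 * ∑ k, μ k) = thru q (m + 1) 0 * (D * ∑ k, μ k) := by ring
      _ = _ := by rw [hμsum]; ring
  have hneg : ((Fintype.card (K →+* ℂ) : ℝ) - 2) * Fintype.card (Fin (N + 1)) * β +
      2 * ∑ J, s J < 0 := by
    rw [Fintype.card_fin, ← hD]
    apply hneg_calc (D : ℝ) hDR (fun J => ν (e.symm J)) hνmono b hb hβlt s tt π' _ httsum
    intro J
    simp only [hs, Equiv.symm_apply_apply]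
    rfl
  have hΛ : ∀ J : Fin (N + 1), lamProd lb (e₀.symm J) ≠ 0 := fun J =>
    Finset.prod_ne_zero_iff.mpr fun i _ => hlb _
  refine no_bad_sequence K φ hφ (Fin (N + 1)) (fun J => lamProd lb (e₀.symm J)) hΛ
    ((compound q (L1 cc)).submatrix e₀.symm e₀.symm) (det_compound_L1 cc (hcc 0) e₀) β s hneg
    J₁' J₀' hJne (hm / 2) (by linarith) ?_
  intro ε' hε' n₀
  have hε2 : 0 < ε' / 2 := by linarith
  -- eventual estimates
  have hlimb : Tendsto (fun n : ℕ => Real.log C' / n + Real.log (clam e (lam n) b) / n)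
      (F : Filter ℕ) (𝓝 β) := by
    simpa using (hconst (Real.log C')).add (hclim b)
  have hev1 : ∀ᶠ n : ℕ in (F : Filter ℕ),
      Real.log C' / n + Real.log (clam e (lam n) b) / n < β + ε' :=
    hlimb.eventually_lt_const (by linarith)
  have hev2 : ∀ J, ∀ᶠ n : ℕ in (F : Filter ℕ),
      Real.log C' / n + Real.log (clam e (lam n) b) / n +
        D / 2 * (min (Real.log (clam e (lam n) J) / n) (Real.log (clam e (lam n) b) / n) -
          Real.log (clam e (lam n) b) / n) <
        β + D / 2 * (min (ν (e.symm J)) β - β) + ε' := by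
    intro J
    have h1 : Tendsto (fun n : ℕ => Real.log C' / n + Real.log (clam e (lam n) b) / n +
        D / 2 * (min (Real.log (clam e (lam n) J) / n) (Real.log (clam e (lam n) b) / n) -
          Real.log (clam e (lam n) b) / n)) (F : Filter ℕ)
        (𝓝 (β + D / 2 * (min (ν (e.symm J)) β - β))) :=
      hlimb.add ((((hclim J).min (hclim b)).sub (hclim b)).const_mul _)
    exact h1.eventually_lt_const (by linarith)
  have hev2' := Filter.eventually_all.mpr hev2
  have hev3 : ∀ᶠ n : ℕ in (F : Filter ℕ),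
      D * (Real.log C' / n + ((m + 1) * q : ℕ) * (Real.log (lam n (Fin.last m)) / n)) < hm / 2 := by
    have h1 : Tendsto (fun n : ℕ =>
        D * (Real.log C' / n + ((m + 1) * q : ℕ) * (Real.log (lam n (Fin.last m)) / n)))
        (F : Filter ℕ) (𝓝 (D * (((m + 1) * q : ℕ) * μ (Fin.last m)))) := by
      simpa using ((hconst (Real.log C')).add
        ((hμ (Fin.last m)).const_mul (((m + 1) * q : ℕ) : ℝ))).const_mul (D : ℝ)
    apply h1.eventually_lt_const
    have h2 : D * μ (Fin.last m) ≤ 2 * ε := by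
      rw [← hμsum]
      apply mul_le_mul_of_nonneg_left _ hDR.le
      exact Finset.single_le_sum (fun i _ => hμnn i) (Finset.mem_univ _)
    have h3 : (((m + 1) * q : ℕ) : ℝ) ≤ (m + 1) ^ 2 := by
      have : (m + 1) * q ≤ (m + 1) ^ 2 := by
        rw [pow_two]
        exact Nat.mul_le_mul_left _ (by omega)
      exact_mod_cast this
    have h4 : 0 ≤ (((m + 1) * q : ℕ) : ℝ) := Nat.cast_nonneg _
    calc (D : ℝ) * (((m + 1) * q : ℕ) * μ (Fin.last m)) =
          ((m + 1) * q : ℕ) * (D * μ (Fin.last m)) := by ring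
      _ ≤ ((m + 1) * q : ℕ) * (2 * ε) := mul_le_mul_of_nonneg_left h2 h4
      _ ≤ (m + 1) ^ 2 * (2 * ε) := mul_le_mul_of_nonneg_right h3 (by linarith)
      _ < hm / 2 := by nlinarith
  have hevn : ∀ᶠ n : ℕ in (F : Filter ℕ), n₀ ≤ n := hFtop (eventually_ge_atTop n₀)
  obtain ⟨n, ⟨hGn, hπ, hJ1, hJ0⟩, hn0, h1, h2, h3, hnn⟩ :=
    (hFH.and (hF0.and (hev1.and (hev2'.and (hev3.and hevn))))).exists
  have hn0' : (0 : ℝ) < n := by exact_mod_cast hn0
  obtain ⟨k, j, Z, v, _, hkj, hZli, hZo, hZφ, hv, hv1, hv0, hheight⟩ := hall n hGn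
  rw [hJ1] at hv1 hheight
  rw [hJ0] at hv0 hheight
  rw [hπ] at hZφ
  have hPn := hGn.1
  have hcb : ∀ J, 0 < clam e (lam n) J := fun J => Finset.prod_pos fun l _ => hlampos n hPn _
  have hcard : Fintype.card (Fin (N + 1)) - 1 = N := by simp
  refine ⟨n, hnn, fun i => Z (Fin.cast hcard i), ?_, ?_, ?_, v, ?_, hv1, hv0, ?_⟩
  · exact hZli.comp (Fin.cast hcard) (Fin.cast_injective _)
  · intro σ hσ1 hσ2 i J
    refine (hZo σ hσ1 hσ2 _ J).trans ?_
    apply le_exp_of_log_div_le hn0 (mul_pos hC'0 (hcb b))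
    rw [Real.log_mul hC'0.ne' (hcb b).ne', add_div]
    exact h1.le
  · intro i J
    have h4 := hZφ (Fin.cast hcard i) (π'.symm J)
    rw [Equiv.apply_symm_apply] at h4
    refine h4.trans ?_
    apply mul_le_mul_of_nonneg_left _ (pow_nonneg (norm_nonneg _) _)
    have hmin : 0 < min (clam e (lam n) (π'.symm J)) (clam e (lam n) b) :=
      lt_min (hcb _) (hcb _)
    have hX : 0 < C' * clam e (lam n) b *
        (min (clam e (lam n) (π'.symm J)) (clam e (lam n) b) / clam e (lam n) b) ^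
          ((Fintype.card (K →+* ℂ) : ℝ) / 2) := by
      have := hcb b
      positivity
    have h5 : C' * clam e (lam n) b *
        (min (clam e (lam n) (π'.symm J)) (clam e (lam n) b) / clam e (lam n) b) ^
          ((Fintype.card (K →+* ℂ) : ℝ) / 2) ≤
        Real.exp (n * (β + D / 2 * (min (ν (e.symm (π'.symm J))) β - β) + ε')) := by
      apply le_exp_of_log_div_le hn0 hX
      have hbb := hcb b
      have hlogmin : Real.log (min (clam e (lam n) (π'.symm J)) (clam e (lam n) b)) =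
          min (Real.log (clam e (lam n) (π'.symm J))) (Real.log (clam e (lam n) b)) := by
        rcases le_total (clam e (lam n) (π'.symm J)) (clam e (lam n) b) with h | h
        · rw [min_eq_left h, min_eq_left (Real.log_le_log (hcb _) h)]
        · rw [min_eq_right h, min_eq_right (Real.log_le_log (hcb _) h)]
      rw [Real.log_mul (mul_pos hC'0 hbb).ne' (by positivity), Real.log_mul hC'0.ne' hbb.ne',
        Real.log_rpow (by positivity), Real.log_div hmin.ne' hbb.ne', hlogmin]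
      have h6 := (h2 (π'.symm J)).le
      refine le_trans (le_of_eq ?_) h6
      rw [← hD, min_div_div_right hn0'.le]
      ring
    have h6 : (if (0 : Fin (m + 1)) ∈ Set.range (e₀.symm J) then Real.exp (ε * n) else 1)⁻¹ =
        Real.exp (-(n * tt J)) := by
      rw [htt]
      simp only
      split_ifs
      · rw [← Real.exp_neg, mul_comm]
      · simp
    rw [h6]
    refine (mul_le_mul_of_nonneg_left h5 (Real.exp_pos _).le).trans ?_
    rw [← Real.exp_add]
    apply le_of_eq
    congr 1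
    rw [hs]
    ring
  · intro i
    exact hv _
  · have h4 := hh k j hkj
    have h5 : (D : ℝ) * Real.log (C' * lam n (Fin.last m) ^ ((m + 1) * q)) ≤ n * (hm / 2) := by
      have hll := hlampos n hPn (Fin.last m)
      rw [Real.log_mul hC'0.ne' (by positivity), Real.log_pow]
      have h6 : (D : ℝ) * (Real.log C' + ((m + 1) * q : ℕ) * Real.log (lam n (Fin.last m))) =
          n * (D * (Real.log C' / n + ((m + 1) * q : ℕ) * (Real.log (lam n (Fin.last m)) / n))) := by
        field_simp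
      rw [h6]
      exact mul_le_mul_of_nonneg_left h3.le hn0'.le
    have h6 : n * hm ≤ n * logHeight₁ (lb k / lb j) := mul_le_mul_of_nonneg_left h4 hn0'.le
    linarith

/-- The lower bound over a number field. -/
theorem lower_bound (φ : K →+* ℂ) (hφ : ComplexEmbedding.conjugate φ ≠ φ)
    (cc lb : Fin (m + 1) → K) (hcc : ∀ i, cc i ≠ 0) (hlb : ∀ i, lb i ≠ 0)
    (hmod : ∀ i, ‖φ (lb i)‖ = ‖φ (lb 0)‖)
    (hnt : ∀ i j, i ≠ j → ∀ n : ℕ, 0 < n → (lb i / lb j) ^ n ≠ 1) (ε : ℝ) (hε : 0 < ε) :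
    ∀ᶠ n : ℕ in atTop, Real.exp (-(ε * n)) < ‖φ (∑ k, cc k * (lb k / lb 0) ^ n)‖ := by
  classical
  rcases Nat.eq_zero_or_pos m with rfl | hm1
  · have h1 : Tendsto (fun n : ℕ => Real.exp (-(ε * n))) atTop (𝓝 0) := by
      apply Real.tendsto_exp_atBot.comp
      apply tendsto_neg_atTop_atBot.comp
      exact tendsto_natCast_atTop_atTop.const_mul_atTop hε
    have h2 : 0 < ‖φ (cc 0)‖ := norm_pos_iff.mpr ((map_ne_zero φ).mpr (hcc 0))
    filter_upwards [h1.eventually_lt_const h2] with n hn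
    simpa [div_self (hlb 0)] using hn
  · obtain ⟨hm, hhm, hh⟩ : ∃ hm : ℝ, 0 < hm ∧ ∀ i j, i ≠ j → hm ≤ logHeight₁ (lb i / lb j) := by
      let g : Fin (m + 1) × Fin (m + 1) → ℝ := fun x =>
        if x.1 = x.2 then 1 else logHeight₁ (lb x.1 / lb x.2)
      obtain ⟨x₀, hx₀⟩ := Finite.exists_min g
      refine ⟨g x₀, ?_, ?_⟩
      · by_cases h : x₀.1 = x₀.2
        · simp [g, h]
        · simp only [g, h, if_false]
          exact logHeight₁_pos _ (div_ne_zero (hlb _) (hlb _)) (hnt _ _ h)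
      · intro i j hij
        have := hx₀ (i, j)
        simpa only [g, hij, if_false] using this
    set ε' : ℝ := min ε (hm / (16 * (m + 1) ^ 2)) with hε'
    have hε'0 : 0 < ε' := by positivity
    have h1 : 8 * ((m : ℝ) + 1) ^ 2 * ε' < hm := by
      have h2 : ε' ≤ hm / (16 * (m + 1) ^ 2) := min_le_right _ _
      have h3 : (0 : ℝ) < 16 * ((m : ℝ) + 1) ^ 2 := by positivity
      rw [le_div_iff₀ h3] at h2
      nlinarith
    filter_upwards [lower_bound_small φ hφ cc lb hcc hlb hmod ε' hm hε'0 hhm hh h1 hm1] with n hn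
    refine lt_of_le_of_lt ?_ hn
    apply Real.exp_le_exp.mpr
    have h4 : ε' * n ≤ ε * n := mul_le_mul_of_nonneg_right (min_le_left _ _) (Nat.cast_nonneg _)
    linarith

end Pool.Agent.DD7719.M
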