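import Pool.Agent.DD7719.MSimple
import Pool.Agent.DD7719.Lang
import Pool.Agent.UltPos.Positive

/-! Positivity for the solutions of a fixed simple recurrence. -/

set_option autoImplicit false

namespace Pool.Agent.UltPos

open Pool.Agent.PT Pool.Agent.AllR Pool.Agent.DD7719.M Pool.Agent.DD7719 Finset

/-- root data of a simple recurrence contain all the roots -/
lemma rootData_complete {k : ℕ} {a u : ℕ → ℝ} {l c : ℕ → ℂ} {ex : ℕ → ℕ}
    (h : RootData k a u l c ex) (hex : ∀ i, i < k → ex i = 0) (z : ℂ)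
    (hz : z ^ k = ∑ t ∈ range k, (a t : ℂ) * z ^ (k - 1 - t)) : ∃ i : Fin k, l i = z := by
  classical
  set p := DD7719.M.cp k (fun t => (a t : ℂ)) with hp
  have hp0 : p ≠ 0 := (cp_monic k _).ne_zero
  have hroot : ∀ z : ℂ, z ^ k = ∑ t ∈ range k, (a t : ℂ) * z ^ (k - 1 - t) → z ∈ p.roots.toFinset := by
    intro z hz
    rw [Multiset.mem_toFinset, Polynomial.mem_roots hp0, Polynomial.IsRoot, hp, DD7719.M.cp,
      Polynomial.eval_sub, Polynomial.eval_pow, Polynomial.eval_X, Polynomial.eval_finsetSum, hz,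
      sub_eq_zero]
    apply Finset.sum_congr rfl
    intro t _
    simp
  have hinj : Function.Injective fun i : Fin k => l i := by
    intro i j hij
    by_contra hne
    rcases h.2.1 i i.2 j j.2 (fun h => hne (Fin.ext h)) with h' | h'
    · exact h' hij
    · apply h'
      rw [hex i i.2, hex j j.2]
  have hsub : (Finset.univ.image fun i : Fin k => l i) ⊆ p.roots.toFinset := by
    intro x hx
    obtain ⟨i, _, rfl⟩ := Finset.mem_image.mp hx
    exact hroot _ (h.root i i.2)
  have hcard : (Finset.univ.image fun i : Fin k => l i).card = k := by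
    rw [Finset.card_image_of_injective _ hinj, Finset.card_univ, Fintype.card_fin]
  have hle : p.roots.toFinset.card ≤ k := by
    calc p.roots.toFinset.card ≤ Multiset.card p.roots := Multiset.toFinset_card_le _
      _ ≤ p.natDegree := Polynomial.card_roots' p
      _ = k := cp_natDegree k _
  have heq := Finset.eq_of_subset_of_card_le hsub (by rw [hcard]; exact hle)
  have hz' := hroot z hz
  rw [← heq] at hz'
  obtain ⟨i, _, hi⟩ := Finset.mem_image.mp hz'
  exact ⟨i, hi⟩

lemma Inst.aQ_eq (I : Inst) (t : ℕ) : I.aQ t = (List.ofFn I.a).getD t 0 := by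
  rw [List.getD_eq_getElem?_getD, List.getElem?_ofFn]
  unfold Inst.aQ
  split_ifs with h
  · simp
  · simp

/-- An ultimately positive solution of a fixed simple recurrence is positive from an index linear
in the length of its code. -/
theorem exists_linear_threshold (a : List ℚ) : ∃ κ : ℕ, ∀ I : Inst, List.ofFn I.a = a → I.Simple →
    I.UltimatelyPositive → ∀ v : ℕ → ℚ, I.IsSeq v → ∀ n, κ * (I.enc.length + 1) ≤ n → 0 < v n := by
  classical
  by_cases hex : ∃ I₀ : Inst, List.ofFn I₀.a = a ∧ I₀.Simple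
  swap
  · refine ⟨0, fun I h1 h2 => ?_⟩
    exact absurd ⟨I, h1, h2⟩ hex
  obtain ⟨I₀, hI₀a, hI₀s⟩ := hex
  obtain ⟨l, c, ex, hrd, halg, -⟩ := exists_rootData I₀.k I₀.aQ I₀.uQ
  have hex0 : ∀ i, i < I₀.k → ex i = 0 := by
    intro i hi
    by_contra hne
    have h1 := (I₀.simple_iff (fun t => ((I₀.aQ t : ℚ) : ℝ)) (fun t h => by
      simp only [Inst.aQ, h, dif_pos])).mp hI₀s
    exact h1 ⟨l i, fun e he => hrd.2.2.1 i hi e (by omega)⟩
  obtain ⟨κ, hκ, hthr⟩ := simple_threshold I₀.k I₀.aQ (fun i => l i) (by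
    intro i j hij
    by_contra hne
    rcases hrd.2.1 i i.2 j j.2 (fun h => hne (Fin.ext h)) with h' | h'
    · exact h' hij
    · apply h'
      rw [hex0 i i.2, hex0 j j.2]) (fun i => halg i) (fun i => by
    rw [hrd.root i i.2]
    apply Finset.sum_congr rfl
    intro t _
    push_cast
    rfl) (fun i => by
    apply rootData_complete hrd hex0
    have := congrArg (starRingEnd ℂ) (hrd.root i i.2)
    rw [map_pow, map_sum] at this
    rw [this]
    apply Finset.sum_congr rfl
    intro t _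
    rw [map_mul, map_pow, Complex.conj_ofReal])
  obtain ⟨κ', hκ'⟩ := exists_nat_ge (κ * (3 + (I₀.k : ℝ) * 3))
  refine ⟨κ', fun I hIa hIs hUP v hv n hn => ?_⟩
  obtain ⟨N, hN⟩ := hUP v hv
  have hk : I.k = I₀.k := by
    have := congrArg List.length (hIa.trans hI₀a.symm)
    simpa using this
  have haQ : I.aQ = I₀.aQ := by
    funext t
    rw [Inst.aQ_eq, Inst.aQ_eq, hIa, hI₀a]
  set q : ℕ := ∏ t : Fin I.k, I.uDen t with hq
  have hq0 : 0 < q := Finset.prod_pos fun t _ => I.uDen_pos t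
  have hUex : ∀ i : Fin I.k, ∃ z : ℤ, (q : ℚ) * I.u i = z ∧ |z| ≤ |I.uNum i| * q := by
    intro i
    refine ⟨I.uNum i * (∏ t ∈ Finset.univ.erase i, (I.uDen t : ℤ)), ?_, ?_⟩
    · rw [hq, ← Finset.mul_prod_erase _ _ (Finset.mem_univ i), Inst.u]
      push_cast
      have : (I.uDen i : ℚ) ≠ 0 := by exact_mod_cast (I.uDen_pos i).ne'
      field_simp
    · rw [abs_mul, Finset.abs_prod]
      apply mul_le_mul_of_nonneg_left _ (abs_nonneg _)
      rw [hq, ← Finset.mul_prod_erase _ _ (Finset.mem_univ i)]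
      push_cast
      have h1 : (1 : ℤ) ≤ I.uDen i := by exact_mod_cast I.uDen_pos i
      have h2 : 0 ≤ ∏ t ∈ Finset.univ.erase i, (I.uDen t : ℤ) :=
        Finset.prod_nonneg fun t _ => Int.natCast_nonneg _
      have h3 : ∏ t ∈ Finset.univ.erase i, |(I.uDen t : ℤ)| =
          ∏ t ∈ Finset.univ.erase i, (I.uDen t : ℤ) :=
        Finset.prod_congr rfl fun t _ => abs_of_nonneg (Int.natCast_nonneg _)
      rw [h3]
      nlinarith
  choose U hU hUb using hUex
  obtain ⟨kk, sg, nb, db, -, -, -, -, hI⟩ := exists_parser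
  obtain ⟨-, -, -, -, -, -, e7⟩ := hI I
  set L := I.enc.length with hL
  have hsum : ∑ i : Fin I₀.k, (|U (Fin.cast hk.symm i)| : ℝ) ≤ I₀.k * 2 ^ ((I₀.k + 1) * L) := by
    have h1 : ∀ i : Fin I₀.k, (|U (Fin.cast hk.symm i)| : ℝ) ≤ 2 ^ ((I₀.k + 1) * L) := by
      intro i
      have h2 := hUb (Fin.cast hk.symm i)
      have h3 : |I.uNum (Fin.cast hk.symm i)| ≤ 2 ^ L := by
        have := (e7 (Fin.cast hk.symm i)).2.2.1.le
        rw [Int.abs_eq_natAbs]
        exact_mod_cast this
      have h4 : q ≤ 2 ^ (I₀.k * L) := by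
        calc q ≤ ∏ _t : Fin I.k, 2 ^ L := by
              rw [hq]
              exact Finset.prod_le_prod' fun t _ => (e7 t).2.2.2.le
          _ = 2 ^ (I₀.k * L) := by
              rw [Finset.prod_const, Finset.card_univ, Fintype.card_fin, ← pow_mul, hk, mul_comm]
      have h5 : |U (Fin.cast hk.symm i)| ≤ 2 ^ ((I₀.k + 1) * L) := by
        calc |U (Fin.cast hk.symm i)| ≤ |I.uNum (Fin.cast hk.symm i)| * q := h2
          _ ≤ 2 ^ L * 2 ^ (I₀.k * L) := by
              apply mul_le_mul h3 _ (Int.natCast_nonneg _) (by positivity)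
              exact_mod_cast h4
          _ = 2 ^ ((I₀.k + 1) * L) := by
              rw [← pow_add]
              congr 1
              ring
      exact_mod_cast h5
    calc _ ≤ ∑ _i : Fin I₀.k, (2 : ℝ) ^ ((I₀.k + 1) * L) := Finset.sum_le_sum fun i _ => h1 i
      _ = _ := by rw [Finset.sum_const, Finset.card_univ, Fintype.card_fin, nsmul_eq_mul]
  have hlog : Real.log (1 + ∑ i : Fin I₀.k, (|U (Fin.cast hk.symm i)| : ℝ)) ≤
      I₀.k + (I₀.k + 1) * L := by
    have h0 : 0 ≤ ∑ i : Fin I₀.k, (|U (Fin.cast hk.symm i)| : ℝ) :=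
      Finset.sum_nonneg fun i _ => by positivity
    have h1 : (1 : ℝ) ≤ 2 ^ ((I₀.k + 1) * L) := one_le_pow₀ (by norm_num)
    have h2 : 1 + ∑ i : Fin I₀.k, (|U (Fin.cast hk.symm i)| : ℝ) ≤
        (I₀.k + 1) * 2 ^ ((I₀.k + 1) * L) := by linarith
    refine (Real.log_le_log (by linarith) h2).trans ?_
    rw [Real.log_mul (by positivity) (by positivity), Real.log_pow]
    have h3 : Real.log ((I₀.k : ℝ) + 1) ≤ I₀.k := by
      have := Real.log_le_sub_one_of_pos (show (0 : ℝ) < (I₀.k : ℝ) + 1 by positivity)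
      linarith
    have h4 : Real.log 2 ≤ 1 := by
      have := Real.log_le_sub_one_of_pos (show (0 : ℝ) < 2 by norm_num)
      linarith
    have h5 : (((I₀.k + 1) * L : ℕ) : ℝ) * Real.log 2 ≤ (I₀.k + 1) * L := by
      push_cast
      calc ((I₀.k : ℝ) + 1) * L * Real.log 2 ≤ (I₀.k + 1) * L * 1 :=
            mul_le_mul_of_nonneg_left h4 (by positivity)
        _ = _ := mul_one _
    linarith
  have h := hthr (fun i => U (Fin.cast hk.symm i)) (fun n => q * v n) (by
    intro i
    rw [← hU, ← hv.1]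
    rfl) (by
    intro n hn
    rw [hv.2 n (by omega), Finset.sum_range, Finset.mul_sum]
    rw [← haQ]
    rw [← Equiv.sum_comp (finCongr hk)]
    apply Finset.sum_congr rfl
    intro t _
    simp only [Inst.aQ, finCongr_apply, Fin.val_cast, t.2, dif_pos]
    ring) ⟨N, fun n hn => mul_pos (by exact_mod_cast hq0) (hN n hn)⟩ n (by
    have h1 : κ * (1 + Real.log (1 + ∑ i : Fin I₀.k, (|U (Fin.cast hk.symm i)| : ℝ))) ≤
        κ * (1 + (I₀.k + (I₀.k + 1) * L)) := by
      apply mul_le_mul_of_nonneg_left _ hκ.le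
      linarith
    refine h1.trans ?_
    have h2 : (κ' * (L + 1) : ℝ) ≤ n := by exact_mod_cast hn
    refine le_trans ?_ h2
    have hL0 : (0 : ℝ) ≤ L := Nat.cast_nonneg _
    have hk0 : (0 : ℝ) ≤ I₀.k := Nat.cast_nonneg _
    calc κ * (1 + ((I₀.k : ℝ) + (I₀.k + 1) * L)) ≤ κ * ((3 + (I₀.k : ℝ) * 3) * (L + 1)) := by
          apply mul_le_mul_of_nonneg_left _ hκ.le
          nlinarith [mul_nonneg hk0 hL0]
      _ = κ * (3 + (I₀.k : ℝ) * 3) * (L + 1) := by ring
      _ ≤ κ' * (L + 1) := mul_le_mul_of_nonneg_right hκ' (by positivity))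
  have hq0' : (0 : ℚ) < q := by exact_mod_cast hq0
  by_contra hcon
  push Not at hcon
  nlinarith

end Pool.Agent.UltPos
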