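import Mathlib

/-!
# Roth's lemma, part 4: the order of vanishing of a polynomial in one variable
-/

open Polynomial

namespace Pool.Agent.DD7719

lemma mahlerMeasure_pow (p : ℂ[X]) (e : ℕ) : (p ^ e).mahlerMeasure = p.mahlerMeasure ^ e := by
  induction e with
  | zero => simp
  | succ e ih => rw [pow_succ, mahlerMeasure_mul, ih, pow_succ]

/-- archimedean estimate -/
lemma arch_bound {K : Type*} [Field K] (φ : K →+* ℂ) (ξ : K) (p : K[X]) (hp : p ≠ 0) (e : ℕ)
    (he : (X - C ξ) ^ e ∣ p) :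
    ‖φ p.leadingCoeff‖ * max ‖φ ξ‖ 1 ^ e ≤ ∑ i ∈ p.support, ‖φ (p.coeff i)‖ := by
  obtain ⟨q, hq⟩ := he
  have hq0 : q ≠ 0 := by
    rintro rfl
    exact hp (by rw [hq, mul_zero])
  have h1 : (p.map φ) = (X - C (φ ξ)) ^ e * q.map φ := by
    rw [hq]; simp
  have h2 : (p.map φ).mahlerMeasure = (max 1 ‖φ ξ‖) ^ e * (q.map φ).mahlerMeasure := by
    rw [h1, mahlerMeasure_mul, mahlerMeasure_pow, mahlerMeasure_X_sub_C]
  have h3 : ‖(q.map φ).leadingCoeff‖ ≤ (q.map φ).mahlerMeasure := leadingCoeff_le_mahlerMeasure _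
  have h4 : (q.map φ).leadingCoeff = φ p.leadingCoeff := by
    rw [leadingCoeff_map]
    congr 1
    rw [hq, leadingCoeff_mul, leadingCoeff_pow, leadingCoeff_X_sub_C, one_pow, one_mul]
  have h5 := mahlerMeasure_le_sum_norm_coeff (p.map φ)
  have h6 : ((p.map φ).sum fun _ a ↦ ‖a‖) = ∑ i ∈ p.support, ‖φ (p.coeff i)‖ := by
    rw [Polynomial.sum, support_map_of_injective _ φ.injective]
    exact Finset.sum_congr rfl fun i _ => by rw [coeff_map]
  rw [h6, h2] at h5
  rw [h4] at h3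
  refine le_trans ?_ h5
  rw [mul_comm, max_comm]
  exact mul_le_mul_of_nonneg_left h3 (by positivity)

/-- non-archimedean estimate -/
lemma nonarch_bound {K : Type*} [Field K] (v : AbsoluteValue K ℝ) (hv : IsNonarchimedean v)
    (ξ : K) (p : K[X]) (e : ℕ) (he : (X - C ξ) ^ e ∣ p)
    (hint : ∀ i, v (p.coeff i) ≤ 1) :
    v p.leadingCoeff * max (v ξ) 1 ^ e ≤ 1 := by
  obtain ⟨q, hq⟩ := he
  have hmul := gaussNorm_mul hv (zero_lt_one' ℝ)
  have hpow : ∀ e : ℕ, ((X - C ξ) ^ e).gaussNorm v 1 = ((X - C ξ).gaussNorm v 1) ^ e := by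
    intro e
    induction e with
    | zero =>
      rw [pow_zero, pow_zero, ← C_1, gaussNorm_C, map_one]
    | succ e ih => rw [pow_succ, hmul, ih, pow_succ]
  have h1 : p.gaussNorm v 1 ≤ 1 := by
    obtain ⟨i, hi⟩ := exists_eq_gaussNorm v 1 p
    rw [hi, one_pow, mul_one]
    exact hint i
  have h2 : p.gaussNorm v 1 = ((X - C ξ).gaussNorm v 1) ^ e * q.gaussNorm v 1 := by
    conv_lhs => rw [hq]
    rw [hmul, hpow]
  have h3 : max (v ξ) 1 ≤ (X - C ξ).gaussNorm v 1 := by
    have h0 := le_gaussNorm v (X - C ξ) (zero_le_one' ℝ) 0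
    have h1 := le_gaussNorm v (X - C ξ) (zero_le_one' ℝ) 1
    simp at h0 h1
    exact max_le h0 h1
  have h4 : v p.leadingCoeff ≤ q.gaussNorm v 1 := by
    have h5 : p.leadingCoeff = q.leadingCoeff := by
      rw [hq, leadingCoeff_mul, leadingCoeff_pow, leadingCoeff_X_sub_C, one_pow, one_mul]
    rw [h5]
    have := le_gaussNorm v q (zero_le_one' ℝ) q.natDegree
    simpa using this
  calc v p.leadingCoeff * max (v ξ) 1 ^ e
      ≤ q.gaussNorm v 1 * ((X - C ξ).gaussNorm v 1) ^ e := by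
        gcongr
        exact gaussNorm_nonneg v q zero_le_one
    _ = p.gaussNorm v 1 := by rw [h2, mul_comm]
    _ ≤ 1 := h1

open NumberField

lemma finitePlace_le_one {K : Type*} [Field K] [NumberField K] (v : FinitePlace K) (x : K)
    (hx : IsIntegral ℤ x) : v x ≤ 1 := by
  obtain ⟨w, hw⟩ := v.isFinitePlace
  obtain ⟨y, rfl⟩ : ∃ y : 𝓞 K, (y : K) = x := ⟨⟨x, hx⟩, rfl⟩
  have h1 := NumberField.FinitePlace.norm_le_one (K := K) (v.maximalIdeal) y
  rw [FinitePlace.norm_embedding_eq] at h1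
  exact h1

/-- If `(X - ξ)^e` divides a nonzero polynomial with integral coefficients and with
`ℓ¹`-norm at most `B` at every complex embedding, then `H(ξ)^e ≤ B^[K:ℚ]`. -/
theorem mulHeight_pow_le {K : Type*} [Field K] [NumberField K] (ξ : K) (p : K[X]) (hp : p ≠ 0)
    (e : ℕ) (he : (X - C ξ) ^ e ∣ p) (hint : ∀ i, IsIntegral ℤ (p.coeff i)) (B : ℝ)
    (hB : ∀ φ : K →+* ℂ, ∑ i ∈ p.support, ‖φ (p.coeff i)‖ ≤ B) :
    Height.mulHeight₁ ξ ^ e ≤ B ^ Module.finrank ℚ K := by
  have ha : p.leadingCoeff ≠ 0 := leadingCoeff_ne_zero.mpr hp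
  have hpf := NumberField.prod_abs_eq_one ha
  have hfs1 : (fun v : FinitePlace K => max (v ξ) 1).HasFiniteMulSupport := by
    by_cases hξ : ξ = 0
    · subst hξ
      simp [Function.HasFiniteMulSupport]
    · refine (FinitePlace.hasFiniteMulSupport hξ).subset ?_
      intro v hv
      rw [Function.mem_mulSupport] at hv ⊢
      intro h
      apply hv
      rw [h, max_self]
  have hfs2 : (fun v : FinitePlace K => v p.leadingCoeff).HasFiniteMulSupport :=
    FinitePlace.hasFiniteMulSupport ha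
  have hfs3 : (fun v : FinitePlace K => max (v ξ) 1 ^ e).HasFiniteMulSupport := by
    refine hfs1.subset ?_
    intro v hv
    rw [Function.mem_mulSupport] at hv ⊢
    intro h
    apply hv
    rw [h, one_pow]
  have h1 : Height.mulHeight₁ ξ ^ e =
      (∏ v : InfinitePlace K, (v p.leadingCoeff * max (v ξ) 1 ^ e) ^ v.mult) *
        ∏ᶠ v : FinitePlace K, (v p.leadingCoeff * max (v ξ) 1 ^ e) := by
    have h0 : Height.mulHeight₁ ξ ^ e = ((∏ w : InfinitePlace K, w p.leadingCoeff ^ w.mult) *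
        ∏ᶠ (w : FinitePlace K), w p.leadingCoeff) * Height.mulHeight₁ ξ ^ e := by
      rw [hpf, one_mul]
    rw [h0, NumberField.mulHeight₁_eq, mul_pow, finprod_pow hfs1, ← Finset.prod_pow,
      finprod_mul_distrib hfs2 hfs3, mul_mul_mul_comm, ← Finset.prod_mul_distrib]
    congr 1
    refine Finset.prod_congr rfl fun v _ => ?_
    rw [mul_pow, pow_right_comm]
  have h2 : ∏ᶠ v : FinitePlace K, (v p.leadingCoeff * max (v ξ) 1 ^ e) ≤ 1 := by
    have := finprod_le_finprod (f := fun v : FinitePlace K => (v p.leadingCoeff * max (v ξ) 1 ^ e))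
      (g := fun _ => 1) (hfs2.mul hfs3) (fun v => by positivity) (by simp [Function.HasFiniteMulSupport])
      (fun v => ?_)
    · simpa using this
    · refine nonarch_bound v.1 (fun x y => FinitePlace.add_le v x y) ξ p e he fun i => ?_
      exact finitePlace_le_one v _ (hint i)
  have h3 : ∏ v : InfinitePlace K, (v p.leadingCoeff * max (v ξ) 1 ^ e) ^ v.mult ≤
      B ^ Module.finrank ℚ K := by
    rw [← InfinitePlace.sum_mult_eq, ← Finset.prod_pow_eq_pow_sum]
    refine Finset.prod_le_prod (fun v _ => by positivity) fun v _ => ?_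
    refine pow_le_pow_left₀ (by positivity) ?_ _
    refine le_trans ?_ (hB v.embedding)
    have := arch_bound v.embedding ξ p hp e he
    rwa [InfinitePlace.norm_embedding_eq, InfinitePlace.norm_embedding_eq] at this
  rw [h1]
  have h4 : 0 ≤ ∏ᶠ v : FinitePlace K, (v p.leadingCoeff * max (v ξ) 1 ^ e) :=
    finprod_nonneg fun v => by positivity
  have h5 : 0 ≤ ∏ v : InfinitePlace K, (v p.leadingCoeff * max (v ξ) 1 ^ e) ^ v.mult :=
    Finset.prod_nonneg fun v _ => by positivity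
  calc _ ≤ (∏ v : InfinitePlace K, (v p.leadingCoeff * max (v ξ) 1 ^ e) ^ v.mult) * 1 :=
        mul_le_mul_of_nonneg_left h2 h5
    _ ≤ _ := by rw [mul_one]; exact h3

theorem logHeight_le {K : Type*} [Field K] [NumberField K] (ξ : K) (p : K[X]) (hp : p ≠ 0)
    (e : ℕ) (he : (X - C ξ) ^ e ∣ p) (hint : ∀ i, IsIntegral ℤ (p.coeff i)) (B : ℝ)
    (hB : ∀ φ : K →+* ℂ, ∑ i ∈ p.support, ‖φ (p.coeff i)‖ ≤ B) :
    e * Height.logHeight₁ ξ ≤ Module.finrank ℚ K * Real.log B := by
  have h1 := mulHeight_pow_le ξ p hp e he hint B hB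
  have h2 := Real.log_le_log (by positivity) h1
  rwa [Real.log_pow, Real.log_pow] at h2

end Pool.Agent.DD7719
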