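import Pool.Agent.DD7719.RothSize
import Pool.Agent.DD7719.RothOneVar

/-!
# Roth's lemma, part 5: separation of one variable
-/

open MvPolynomial

namespace Pool.Agent.DD7719

section Tensor

variable {m : ℕ} {K : Type*} [Field K]

/-- `f(x_1, …, x_m) · g(x_0)`. -/
noncomputable def tns (f : MvPolynomial (Fin m) K) (g : MvPolynomial (Fin 1) K) :
    MvPolynomial (Fin (m + 1)) K :=
  rename Fin.succ f * rename (fun _ : Fin 1 => (0 : Fin (m + 1))) g

lemma eq_single (ν : Fin 1 →₀ ℕ) : ν = Finsupp.single 0 (ν 0) := by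
  refine DFunLike.ext _ _ fun i => ?_
  rw [Subsingleton.elim i 0]
  simp

lemma mapDomain_add_eq_cons (κ : Fin m →₀ ℕ) (ν : Fin 1 →₀ ℕ) :
    κ.mapDomain Fin.succ + ν.mapDomain (fun _ : Fin 1 => (0 : Fin (m + 1))) =
      Finsupp.cons (ν 0) κ := by
  ext i
  rw [Finsupp.add_apply, eq_single ν, Finsupp.mapDomain_single]
  refine Fin.cases ?_ (fun j => ?_) i
  · rw [Finsupp.mapDomain_of_notMem_range]
    · simp
    · rintro ⟨j, hj⟩
      exact Fin.succ_ne_zero j hj
  · rw [Finsupp.mapDomain_apply (Fin.succ_injective m), Finsupp.cons_succ,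
      Finsupp.single_eq_of_ne (Fin.succ_ne_zero j)]
    simp

lemma coeff_tns (f : MvPolynomial (Fin m) K) (g : MvPolynomial (Fin 1) K) (a : ℕ)
    (κ : Fin m →₀ ℕ) :
    (tns f g).coeff (Finsupp.cons a κ) = f.coeff κ * g.coeff (Finsupp.single 0 a) := by
  induction f using MvPolynomial.induction_on' with
  | monomial i α =>
    induction g using MvPolynomial.induction_on' with
    | monomial ν β =>
      rw [tns, rename_monomial, rename_monomial, monomial_mul, mapDomain_add_eq_cons,
        coeff_monomial, coeff_monomial, coeff_monomial]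
      by_cases h1 : i = κ
      · subst h1
        by_cases h2 : ν = Finsupp.single 0 a
        · subst h2
          simp
        · have h3 : Finsupp.cons (ν 0) i ≠ Finsupp.cons a i := by
            intro h
            apply h2
            have := congrArg (fun z => z 0) h
            simp only [Finsupp.cons_zero] at this
            rw [← this]
            exact eq_single ν
          rw [if_neg h3, if_neg h2, mul_zero]
      · have h3 : Finsupp.cons (ν 0) i ≠ Finsupp.cons a κ := by
          intro h
          apply h1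
          have := congrArg Finsupp.tail h
          simpa using this
        rw [if_neg h3, if_neg h1, zero_mul]
    | add p q hp hq =>
      rw [tns] at hp hq ⊢
      rw [map_add, mul_add, coeff_add, hp, hq, coeff_add, mul_add]
  | add p q hp hq =>
    rw [tns] at hp hq ⊢
    rw [map_add, add_mul, coeff_add, hp, hq, coeff_add, add_mul]

lemma ext_cons {F G : MvPolynomial (Fin (m + 1)) K}
    (h : ∀ a κ, F.coeff (Finsupp.cons a κ) = G.coeff (Finsupp.cons a κ)) : F = G := by
  ext i
  rw [← Finsupp.cons_tail i]
  exact h _ _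

lemma cons_add_cons (a b : ℕ) (κ μ : Fin m →₀ ℕ) :
    Finsupp.cons a κ + Finsupp.cons b μ = Finsupp.cons (a + b) (κ + μ) := by
  ext i
  refine Fin.cases ?_ (fun j => ?_) i <;> simp

lemma hasse_tns (f : MvPolynomial (Fin m) K) (g : MvPolynomial (Fin 1) K) (a : ℕ)
    (μ : Fin m →₀ ℕ) :
    hasse (Finsupp.cons a μ) (tns f g) = tns (hasse μ f) (hasse (Finsupp.single 0 a) g) := by
  apply ext_cons
  intro b κ
  rw [coeff_hasse, coeff_tns, cons_add_cons, coeff_tns, coeff_hasse, coeff_hasse,
    ← Finsupp.single_add]
  have h1 : chw (Finsupp.cons a μ) (Finsupp.cons (b + a) (κ + μ)) =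
      (b + a).choose a * chw μ (κ + μ) := by
    rw [chw, Fin.prod_univ_succ]
    simp [chw]
  have h2 : chw (Finsupp.single (0 : Fin 1) a) (Finsupp.single 0 (b + a)) = (b + a).choose a := by
    simp [chw]
  rw [h1, h2]
  push_cast
  ring

lemma shift_rename {m' : ℕ} (s : Fin m → Fin m') (ξ : Fin m' → K) (f : MvPolynomial (Fin m) K) :
    shift ξ (rename s f) = rename s (shift (fun h => ξ (s h)) f) := by
  induction f using MvPolynomial.induction_on with
  | C a => simp
  | add p q hp hq => rw [map_add, shift_add, hp, hq, shift_add, map_add]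
  | mul_X p h hp => rw [map_mul, shift_mul, hp, shift_mul, map_mul, rename_X, shift_X, shift_X,
      map_add, rename_X, rename_C]

lemma shift_tns (ξ : Fin (m + 1) → K) (f : MvPolynomial (Fin m) K) (g : MvPolynomial (Fin 1) K) :
    shift ξ (tns f g) = tns (shift (fun h => ξ h.succ) f) (shift (fun _ => ξ 0) g) := by
  rw [tns, shift_mul, shift_rename, shift_rename, tns]

/-- Decomposition `F = ∑ f_k(x') g_k(x_0)` with independent families. -/
lemma exists_decomp (F : MvPolynomial (Fin (m + 1)) K) (r₀ : ℕ)
    (hF : ∀ i ∈ F.support, i 0 ≤ r₀) :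
    ∃ n : ℕ, n ≤ r₀ + 1 ∧ ∃ (f : Fin n → MvPolynomial (Fin m) K)
      (g : Fin n → MvPolynomial (Fin 1) K), LinearIndependent K f ∧ LinearIndependent K g ∧
        F = ∑ k, tns (f k) (g k) := by
  classical
  let Fj : Fin (r₀ + 1) → MvPolynomial (Fin m) K := fun j => (finSuccEquiv K m F).coeff j
  have hFj : ∀ j κ, (Fj j).coeff κ = F.coeff (Finsupp.cons (j : ℕ) κ) := fun j κ =>
    finSuccEquiv_coeff_coeff κ F j
  let S := Submodule.span K (Set.range Fj)
  have hmem : ∀ j, Fj j ∈ S := fun j => Submodule.subset_span ⟨j, rfl⟩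
  have : Module.Finite K S := FiniteDimensional.span_of_finite K (Set.finite_range _)
  let b := Module.finBasis K S
  refine ⟨Module.finrank K S, ?_, fun k => (b k : MvPolynomial (Fin m) K),
    fun k => ∑ j : Fin (r₀ + 1), monomial (Finsupp.single 0 (j : ℕ)) (b.repr ⟨Fj j, hmem j⟩ k),
    ?_, ?_, ?_⟩
  · have := finrank_range_le_card (R := K) Fj
    simpa [Set.finrank] using this
  · exact b.linearIndependent.map' S.subtype (Submodule.ker_subtype S)
  · rw [Fintype.linearIndependent_iff]
    intro c hc
    have h1 : ∀ j : Fin (r₀ + 1), ∑ k, c k * b.repr ⟨Fj j, hmem j⟩ k = 0 := by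
      intro j
      have := congrArg (fun z => z.coeff (Finsupp.single 0 (j : ℕ))) hc
      simp only [coeff_sum, coeff_smul, coeff_monomial, coeff_zero, smul_eq_mul] at this
      rw [← this]
      refine Finset.sum_congr rfl fun k _ => ?_
      congr 1
      rw [Finset.sum_eq_single j]
      · simp
      · intro j' _ hj'
        rw [if_neg]
        intro h
        apply hj'
        have := congrArg (fun z => z 0) h
        simp only [Finsupp.single_eq_same] at this
        exact Fin.ext this
      · simp
    let ℓ : S →ₗ[K] K := ∑ k, c k • (b.coord k)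
    have h2 : ∀ (x : MvPolynomial (Fin m) K) (hx : x ∈ S), ℓ ⟨x, hx⟩ = 0 := by
      intro x hx
      induction hx using Submodule.span_induction with
      | mem x hx =>
        obtain ⟨j, rfl⟩ := hx
        have := h1 j
        simpa [ℓ] using this
      | zero => exact map_zero ℓ
      | add x y hx hy h3 h4 =>
        have : (⟨x + y, Submodule.add_mem _ hx hy⟩ : S) = ⟨x, hx⟩ + ⟨y, hy⟩ := rfl
        rw [this, map_add, h3, h4, add_zero]
      | smul a x hx h3 =>
        have : (⟨a • x, Submodule.smul_mem _ a hx⟩ : S) = a • ⟨x, hx⟩ := rfl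
        rw [this, map_smul, h3, smul_zero]
    intro k
    have h3 := h2 (b k) (b k).2
    have h4 : ℓ ⟨b k, (b k).2⟩ = c k := by
      have : (⟨(b k : MvPolynomial (Fin m) K), (b k).2⟩ : S) = b k := rfl
      rw [this]
      simp [ℓ, Finsupp.single_apply]
    rw [← h4, h3]
  · apply ext_cons
    intro a κ
    rw [coeff_sum]
    simp only [coeff_tns, coeff_sum, coeff_monomial]
    by_cases ha : a ≤ r₀
    · have h1 : ∀ k, (∑ j : Fin (r₀ + 1), if Finsupp.single (0 : Fin 1) (j : ℕ) =
          Finsupp.single 0 a then b.repr ⟨Fj j, hmem j⟩ k else 0) =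
          b.repr ⟨Fj ⟨a, Nat.lt_succ_of_le ha⟩, hmem _⟩ k := by
        intro k
        rw [Finset.sum_eq_single ⟨a, Nat.lt_succ_of_le ha⟩]
        · simp
        · intro j' _ hj'
          rw [if_neg]
          intro h
          apply hj'
          have := congrArg (fun z => z 0) h
          simp only [Finsupp.single_eq_same] at this
          exact Fin.ext this
        · simp
      simp only [h1]
      rw [← hFj ⟨a, Nat.lt_succ_of_le ha⟩ κ]
      have h2 := b.sum_repr ⟨Fj ⟨a, Nat.lt_succ_of_le ha⟩, hmem _⟩
      have h3 := congrArg (fun z : S => (z : MvPolynomial (Fin m) K).coeff κ) h2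
      simp only [Submodule.coe_sum, Submodule.coe_smul, coeff_sum, coeff_smul, smul_eq_mul] at h3
      rw [← h3]
      exact Finset.sum_congr rfl fun k _ => mul_comm _ _
    · have h1 : F.coeff (Finsupp.cons a κ) = 0 := by
        by_contra h
        have := hF _ (mem_support_iff.mpr h)
        rw [Finsupp.cons_zero] at this
        exact ha this
      rw [h1, eq_comm]
      refine Finset.sum_eq_zero fun k _ => ?_
      rw [Finset.sum_eq_zero, mul_zero]
      intro j _
      rw [if_neg]
      intro h
      have := congrArg (fun z => z 0) h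
      simp only [Finsupp.single_eq_same] at this
      omega

end Tensor

section OneVar

variable {K : Type*} [Field K]

/-- a polynomial in one variable, as an element of `K[X]`. -/
noncomputable def toPoly (V : MvPolynomial (Fin 1) K) : Polynomial K :=
  aeval (fun _ : Fin 1 => (Polynomial.X : Polynomial K)) V

lemma coeff_toPoly (V : MvPolynomial (Fin 1) K) (j : ℕ) :
    (toPoly V).coeff j = V.coeff (Finsupp.single 0 j) := by
  induction V using MvPolynomial.induction_on' with
  | monomial i a =>
    rw [toPoly, aeval_monomial, coeff_monomial, eq_single i]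
    simp only [Polynomial.algebraMap_eq]
    rw [Finsupp.prod_single_index (by simp), Polynomial.coeff_C_mul_X_pow]
    by_cases h : j = i 0
    · subst h; simp
    · rw [if_neg h, if_neg]
      intro h2
      have := congrArg (fun z => z 0) h2
      simp only [Finsupp.single_eq_same] at this
      exact h this.symm
  | add p q hp hq =>
    rw [toPoly] at hp hq ⊢
    rw [map_add, Polynomial.coeff_add, hp, hq, coeff_add]

lemma toPoly_add (p q : MvPolynomial (Fin 1) K) : toPoly (p + q) = toPoly p + toPoly q := by
  simp [toPoly]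

lemma toPoly_mul (p q : MvPolynomial (Fin 1) K) : toPoly (p * q) = toPoly p * toPoly q := by
  simp [toPoly]

lemma toPoly_shift (ξ : Fin 1 → K) (V : MvPolynomial (Fin 1) K) :
    toPoly (shift ξ V) = (toPoly V).comp (Polynomial.X + Polynomial.C (ξ 0)) := by
  induction V using MvPolynomial.induction_on with
  | C a => simp [toPoly]
  | add p q hp hq =>
    rw [shift_add, toPoly_add, hp, hq, toPoly_add, Polynomial.add_comp]
  | mul_X p h hp =>
    rw [shift_mul, toPoly_mul, hp, toPoly_mul, Polynomial.mul_comp, shift_X]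
    simp [toPoly, Subsingleton.elim h 0]

lemma toPoly_ne_zero {V : MvPolynomial (Fin 1) K} (hV : V ≠ 0) : toPoly V ≠ 0 := by
  intro h
  apply hV
  ext i
  rw [eq_single i, ← coeff_toPoly, h]
  simp

theorem onevar_index [NumberField K] (ξ : Fin 1 → K) (V : MvPolynomial (Fin 1) K) (hV : V ≠ 0)
    (hint : V ∈ intPoly 1 K) (B : ℝ) (hB : ∀ φ : K →+* ℂ, l1 φ V ≤ B) :
    ∃ e : ℕ, Finsupp.single 0 e ∈ (shift ξ V).support ∧
      e * Height.logHeight₁ (ξ 0) ≤ Module.finrank ℚ K * Real.log B := by
  have hq0 : toPoly (shift ξ V) ≠ 0 := toPoly_ne_zero (by rwa [Ne, shift_eq_zero_iff])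
  refine ⟨(toPoly (shift ξ V)).natTrailingDegree, ?_, ?_⟩
  · rw [mem_support_iff, ← coeff_toPoly]
    exact Polynomial.trailingCoeff_nonzero_iff_nonzero.mpr hq0
  · have hdvd : (Polynomial.X : Polynomial K) ^ (toPoly (shift ξ V)).natTrailingDegree ∣
        toPoly (shift ξ V) := by
      rw [Polynomial.X_pow_dvd_iff]
      intro d hd
      exact Polynomial.coeff_eq_zero_of_lt_natTrailingDegree hd
    refine logHeight_le (ξ 0) (toPoly V) (toPoly_ne_zero hV) _ ?_ ?_ B ?_
    · obtain ⟨s, hs⟩ := hdvd
      have h1 : toPoly V = (toPoly (shift ξ V)).comp (Polynomial.X - Polynomial.C (ξ 0)) := by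
        rw [toPoly_shift, Polynomial.comp_assoc]
        simp
      refine ⟨s.comp (Polynomial.X - Polynomial.C (ξ 0)), ?_⟩
      conv_lhs => rw [h1, hs]
      simp
    · intro i
      rw [coeff_toPoly]
      exact hint _
    · intro φ
      refine le_trans ?_ (hB φ)
      have h1 : ∑ i ∈ (toPoly V).support, ‖φ ((toPoly V).coeff i)‖ =
          ∑ i ∈ (toPoly V).support.map ⟨fun j : ℕ => (Finsupp.single (0 : Fin 1) j),
            Finsupp.single_injective 0⟩, ‖φ (V.coeff i)‖ := by
        rw [Finset.sum_map]
        refine Finset.sum_congr rfl fun i _ => ?_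
        rw [coeff_toPoly]
        rfl
      rw [h1, l1]
      refine Finset.sum_le_sum_of_subset_of_nonneg ?_ fun _ _ _ => norm_nonneg _
      intro i hi
      rw [Finset.mem_map] at hi
      obtain ⟨j, hj, rfl⟩ := hi
      rw [Polynomial.mem_support_iff, coeff_toPoly] at hj
      exact mem_support_iff.mpr hj

end OneVar

end Pool.Agent.DD7719
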