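import Pool.Agent.DD7719.RothWronskian
import Pool.Agent.DD7719.RothTensor

/-!
# Roth's lemma (qualitative form) over a number field
-/

open MvPolynomial

namespace Pool.Agent.DD7719

section

variable {m : ℕ} {K : Type*} [Field K]

/-- the weight defining the index. -/
noncomputable def wt {m : ℕ} (r : Fin m → ℕ) : (Fin m →₀ ℕ) →+ ℝ where
  toFun i := ∑ h, (i h : ℝ) / r h
  map_zero' := by simp
  map_add' a b := by
    simp only [Finsupp.add_apply, Nat.cast_add, add_div, Finset.sum_add_distrib]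

lemma wt_apply (r : Fin m → ℕ) (i : Fin m →₀ ℕ) : wt r i = ∑ h, (i h : ℝ) / r h := rfl

/-- minus the exponent of the variable `h`. -/
noncomputable def negExp {m : ℕ} (h : Fin m) : (Fin m →₀ ℕ) →+ ℝ where
  toFun i := - (i h : ℝ)
  map_zero' := by simp
  map_add' a b := by simp [add_comm]

lemma lge_shift_hasse [CharZero K] {ℓ : (Fin m →₀ ℕ) →+ ℝ} {θ : ℝ} {F : MvPolynomial (Fin m) K}
    {ξ : Fin m → K} (hF : LGE ℓ θ (shift ξ F)) (μ : Fin m →₀ ℕ) :
    LGE ℓ (θ - ℓ μ) (shift ξ (hasse μ F)) := by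
  rw [← hasse_shift]
  exact hF.hasse μ

lemma shift_det {n : ℕ} (ξ : Fin m → K) (M : Matrix (Fin n) (Fin n) (MvPolynomial (Fin m) K)) :
    shift ξ M.det = (Matrix.of fun i j => shift ξ (M i j)).det := by
  rw [← shiftHom_apply, RingHom.map_det]
  rfl

/-- lower bound for the sum of the positive parts. -/
lemma sum_lower (r₀ n : ℕ) (hr : 0 < r₀) (hn : n ≤ r₀ + 1) (τ σ : ℝ) (hτ : 0 < τ) (hτ1 : τ ≤ 1)
    (hσ : σ ≤ τ / 4) :
    (n : ℝ) * (τ ^ 2 / 16) ≤ ∑ j : Fin n, max 0 (τ - (j : ℝ) / r₀ - σ) := by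
  have hr' : (0 : ℝ) < r₀ := by exact_mod_cast hr
  have hr1 : (1 : ℝ) ≤ r₀ := by exact_mod_cast hr
  rw [Fin.sum_univ_eq_sum_range (fun j => max 0 (τ - (j : ℝ) / r₀ - σ)) n]
  set N := min n (⌊(r₀ : ℝ) * τ / 2⌋₊ + 1) with hN
  have h1 : (n : ℝ) * τ / 4 ≤ N := by
    rw [hN, Nat.cast_min, le_min_iff]
    constructor
    · have : (0 : ℝ) ≤ n := Nat.cast_nonneg n
      nlinarith
    · have h2 := (Nat.lt_floor_add_one ((r₀ : ℝ) * τ / 2)).le
      push_cast
      have h3 : (n : ℝ) ≤ r₀ + 1 := by exact_mod_cast hn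
      have h4 : (n : ℝ) * τ ≤ (r₀ + 1) * τ := mul_le_mul_of_nonneg_right h3 hτ.le
      nlinarith
  have h2 : ∀ j ∈ Finset.range N, τ / 4 ≤ max 0 (τ - (j : ℝ) / r₀ - σ) := by
    intro j hj
    rw [Finset.mem_range, hN, lt_min_iff] at hj
    have h3 : j ≤ ⌊(r₀ : ℝ) * τ / 2⌋₊ := Nat.lt_succ_iff.mp hj.2
    have h4 : (j : ℝ) ≤ (r₀ : ℝ) * τ / 2 := (Nat.le_floor_iff (by positivity)).mp h3
    have h5 : (j : ℝ) / r₀ ≤ τ / 2 := by
      rw [div_le_iff₀ hr']
      linarith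
    refine le_max_of_le_right ?_
    linarith
  calc (n : ℝ) * (τ ^ 2 / 16) = (n * τ / 4) * (τ / 4) := by ring
    _ ≤ N * (τ / 4) := mul_le_mul_of_nonneg_right h1 (by positivity)
    _ = ∑ j ∈ Finset.range N, τ / 4 := by simp
    _ ≤ ∑ j ∈ Finset.range N, max 0 (τ - (j : ℝ) / r₀ - σ) := Finset.sum_le_sum h2
    _ ≤ ∑ j ∈ Finset.range n, max 0 (τ - (j : ℝ) / r₀ - σ) := by
        refine Finset.sum_le_sum_of_subset_of_nonneg ?_ fun _ _ _ => le_max_left _ _
        intro j hj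
        rw [Finset.mem_range] at hj ⊢
        exact lt_of_lt_of_le hj (min_le_left _ _)

/-- The inductive statement. -/
def RothStmt (K : Type*) [Field K] [NumberField K] (m : ℕ) (τ σ C : ℝ) : Prop :=
  ∀ (r : Fin m → ℕ) (ξ : Fin m → K) (F : MvPolynomial (Fin m) K) (B : ℝ),
    (∀ h, 0 < r h) →
    (∀ h h' : Fin m, h < h' → (r h : ℝ) ≤ σ * r h') →
    F ≠ 0 → (∀ i ∈ F.support, ∀ h, i h ≤ r h) →
    1 ≤ B → F ∈ intPoly m K → (∀ φ : K →+* ℂ, l1 φ F ≤ B) →
    (∀ h, C * (Real.log B + ∑ h', (r h' : ℝ)) ≤ r h * Height.logHeight₁ (ξ h)) →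
    ∃ i ∈ (shift ξ F).support, ∑ h, (i h : ℝ) / r h ≤ τ

lemma l1_slice_le (φ : K →+* ℂ) (W : MvPolynomial (Fin (m + 1)) K) (a : ℕ)
    (U : MvPolynomial (Fin m) K) (hU : ∀ κ, U.coeff κ = W.coeff (Finsupp.cons a κ)) :
    l1 φ U ≤ l1 φ W := by
  have h1 : l1 φ U = ∑ i ∈ U.support.map ⟨fun κ => Finsupp.cons a κ,
      Finsupp.cons_right_injective a⟩, ‖φ (W.coeff i)‖ := by
    rw [Finset.sum_map]
    exact Finset.sum_congr rfl fun i _ => by rw [hU]; rfl
  rw [h1, l1]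
  refine Finset.sum_le_sum_of_subset_of_nonneg ?_ fun _ _ _ => norm_nonneg _
  intro i hi
  rw [Finset.mem_map] at hi
  obtain ⟨j, hj, rfl⟩ := hi
  rw [mem_support_iff, hU] at hj
  exact mem_support_iff.mpr hj

lemma l1_slice_le' (φ : K →+* ℂ) (W : MvPolynomial (Fin (m + 1)) K) (κ : Fin m →₀ ℕ)
    (V : MvPolynomial (Fin 1) K)
    (hV : ∀ a, V.coeff (Finsupp.single 0 a) = W.coeff (Finsupp.cons a κ)) :
    l1 φ V ≤ l1 φ W := by
  have h1 : l1 φ V = ∑ i ∈ V.support.map ⟨fun ν => Finsupp.cons (ν 0) κ, by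
      intro a b hab
      have := congrArg (fun z => z 0) hab
      simp only [Finsupp.cons_zero] at this
      rw [eq_single a, eq_single b, this]⟩, ‖φ (W.coeff i)‖ := by
    rw [Finset.sum_map]
    refine Finset.sum_congr rfl fun i _ => ?_
    conv_lhs => rw [eq_single i, hV]
    rfl
  rw [h1, l1]
  refine Finset.sum_le_sum_of_subset_of_nonneg ?_ fun _ _ _ => norm_nonneg _
  intro i hi
  rw [Finset.mem_map] at hi
  obtain ⟨j, hj, rfl⟩ := hi
  rw [mem_support_iff, eq_single j, hV] at hj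
  exact mem_support_iff.mpr hj

end

section Wronsk

variable {m : ℕ} {K : Type*} [Field K] [CharZero K]

/-- The Wronskian of a polynomial: it separates the variable `0` from the others. -/
lemma exists_wronskian (F : MvPolynomial (Fin (m + 1)) K) (hF0 : F ≠ 0) (r₀ : ℕ)
    (hF : ∀ i ∈ F.support, i 0 ≤ r₀) :
    ∃ n : ℕ, 0 < n ∧ n ≤ r₀ + 1 ∧ ∃ (b : Fin n → ℕ) (μ : Fin n → (Fin m →₀ ℕ))
      (U : MvPolynomial (Fin m) K) (V : MvPolynomial (Fin 1) K),
      (∀ j, b j ≤ (j : ℕ)) ∧ (∀ i, (μ i).degree ≤ (i : ℕ)) ∧ U ≠ 0 ∧ V ≠ 0 ∧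
      (Matrix.of fun i j => hasse (Finsupp.cons (b j) (μ i)) F).det = tns U V := by
  obtain ⟨n, hn, f, g, hf, hg, hdec⟩ := exists_decomp F r₀ hF
  obtain ⟨μ, hμ, hU⟩ := gen_wronskian f hf
  obtain ⟨ν, hν, hV⟩ := gen_wronskian g hg
  have hn0 : 0 < n := by
    rcases Nat.eq_zero_or_pos n with h | h
    · subst h
      exfalso
      apply hF0
      rw [hdec]
      simp
    · exact h
  refine ⟨n, hn0, hn, fun j => ν j 0, μ, _, _, ?_, hμ, hU, hV, ?_⟩
  · intro j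
    have := hν j
    rw [eq_single (ν j), Finsupp.degree_single] at this
    exact this
  · rw [tns, ← AlgHom.coe_toRingHom, ← AlgHom.coe_toRingHom, RingHom.map_det, RingHom.map_det,
      ← Matrix.det_transpose (RingHom.mapMatrix _ (Matrix.of fun i k => hasse (ν i) (g k))),
      ← Matrix.det_mul]
    congr 1
    ext1 i j
    rw [Matrix.mul_apply]
    simp only [Matrix.of_apply, RingHom.mapMatrix_apply, Matrix.map_apply, Matrix.transpose_apply,
      AlgHom.coe_toRingHom]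
    conv_lhs => rw [hdec]
    rw [map_sum]
    refine Finset.sum_congr rfl fun k _ => ?_
    rw [hasse_tns, ← eq_single, tns]

end Wronsk

section Step

variable {K : Type*} [Field K] [NumberField K]

lemma log_four_le : Real.log 4 ≤ 2 := by
  have h : (4 : ℝ) = 2 ^ 2 := by norm_num
  rw [h, Real.log_pow]
  have := Real.log_two_lt_d9
  push_cast
  linarith

omit [NumberField K] in
/-- size of the Wronskian -/
lemma l1_wronskian {m n : ℕ} (φ : K →+* ℂ) (F : MvPolynomial (Fin (m + 1)) K)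
    (r : Fin (m + 1) → ℕ) (hF : ∀ i ∈ F.support, ∀ h, i h ≤ r h)
    (hn : n ≤ r 0 + 1) (B : ℝ) (hB : 1 ≤ B) (hl : l1 φ F ≤ B) (M : Matrix (Fin n) (Fin n)
      (Fin (m + 1) →₀ ℕ)) :
    l1 φ (Matrix.of fun i j => hasse (M i j) F).det ≤ (4 ^ (∑ h, r h) * B) ^ n := by
  have h1 : l1 φ (Matrix.of fun i j => hasse (M i j) F).det ≤
      n.factorial * (2 ^ (∑ h, r h) * B) ^ n := by
    refine l1_det φ _ _ fun i j => ?_
    rw [Matrix.of_apply]
    exact (l1_hasse φ _ F r hF).trans (mul_le_mul_of_nonneg_left hl (by positivity))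
  refine h1.trans ?_
  have h2 : (n.factorial : ℝ) ≤ (2 ^ (∑ h, r h)) ^ n := by
    have h3 : n.factorial ≤ n ^ n := Nat.factorial_le_pow n
    have h4 : n ≤ 2 ^ (∑ h, r h) := by
      have h5 : r 0 ≤ ∑ h, r h := Finset.single_le_sum (fun _ _ => Nat.zero_le _)
        (Finset.mem_univ 0)
      have h6 : r 0 + 1 ≤ 2 ^ r 0 := Nat.lt_two_pow_self
      exact hn.trans (h6.trans (Nat.pow_le_pow_right (by norm_num) h5))
    exact_mod_cast h3.trans (Nat.pow_le_pow_left h4 n)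
  calc (n.factorial : ℝ) * (2 ^ (∑ h, r h) * B) ^ n
      ≤ (2 ^ (∑ h, r h)) ^ n * (2 ^ (∑ h, r h) * B) ^ n :=
        mul_le_mul_of_nonneg_right h2 (by positivity)
    _ = (4 ^ (∑ h, r h) * B) ^ n := by
        rw [← mul_pow, ← mul_assoc, ← mul_pow]
        norm_num

theorem roth_step (m : ℕ)
    (IH : ∀ τ : ℝ, 0 < τ → ∃ σ : ℝ, 0 < σ ∧ σ ≤ 1 / 2 ∧ ∃ C : ℝ, 0 < C ∧ RothStmt K m τ σ C)
    (τ : ℝ) (hτ : 0 < τ) :
    ∃ σ : ℝ, 0 < σ ∧ σ ≤ 1 / 2 ∧ ∃ C : ℝ, 0 < C ∧ RothStmt K (m + 1) τ σ C := by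
  obtain ⟨τ₁, hτ₁⟩ : ∃ τ₁, τ₁ = min τ 1 := ⟨_, rfl⟩
  have hτ₁0 : 0 < τ₁ := by rw [hτ₁]; exact lt_min hτ one_pos
  have hτ₁1 : τ₁ ≤ 1 := by rw [hτ₁]; exact min_le_right _ _
  have hτ₁τ : τ₁ ≤ τ := by rw [hτ₁]; exact min_le_left _ _
  obtain ⟨σ', hσ'0, hσ'1, C', hC'0, hIH⟩ := IH (τ₁ ^ 2 / 64) (by positivity)
  have hd : 0 < (Module.finrank ℚ K : ℝ) := by exact_mod_cast Module.finrank_pos
  refine ⟨min σ' (τ₁ / 4), lt_min hσ'0 (by positivity), (min_le_left _ _).trans hσ'1,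
    max (3 * C') (128 * Module.finrank ℚ K / τ₁ ^ 2), lt_max_of_lt_left (by positivity), ?_⟩
  obtain ⟨σ, hσ⟩ : ∃ σ, σ = min σ' (τ₁ / 4) := ⟨_, rfl⟩
  obtain ⟨C, hC⟩ : ∃ C, C = max (3 * C') (128 * Module.finrank ℚ K / τ₁ ^ 2) := ⟨_, rfl⟩
  rw [← hσ, ← hC]
  have hσ0 : 0 < σ := by rw [hσ]; exact lt_min hσ'0 (by positivity)
  have hσσ' : σ ≤ σ' := by rw [hσ]; exact min_le_left _ _
  have hστ : σ ≤ τ₁ / 4 := by rw [hσ]; exact min_le_right _ _
  have hC3 : 3 * C' ≤ C := by rw [hC]; exact le_max_left _ _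
  have hCd : 128 * Module.finrank ℚ K / τ₁ ^ 2 ≤ C := by rw [hC]; exact le_max_right _ _
  intro r ξ F B hr hlac hF0 hdeg hB hint hl1 hheight
  by_contra hcon
  push Not at hcon
  have hr0 : (0 : ℝ) < r 0 := by exact_mod_cast hr 0
  obtain ⟨S, hS⟩ : ∃ S : ℝ, S = ∑ h', (r h' : ℝ) := ⟨_, rfl⟩
  have hS0 : 0 < S := by
    rw [hS]
    exact Finset.sum_pos (fun h _ => by exact_mod_cast hr h) ⟨0, Finset.mem_univ _⟩
  rw [← hS] at hheight
  have hlogB : 0 ≤ Real.log B := Real.log_nonneg hB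
  obtain ⟨n, hn0, hn, b, μ, U, V, hb, hμ, hU0, hV0, hW⟩ :=
    exists_wronskian F hF0 (r 0) (fun i hi => hdeg i hi 0)
  have hn0' : (0 : ℝ) < n := by exact_mod_cast hn0
  obtain ⟨W, hWdef⟩ : ∃ W, W = (Matrix.of fun i j => hasse (Finsupp.cons (b j) (μ i)) F).det :=
    ⟨_, rfl⟩
  rw [← hWdef] at hW
  -- lower bound for the index of W
  have hlow : LGE (wt r) (∑ j : Fin n, max 0 (τ₁ - (j : ℝ) / r 0 - σ)) (shift ξ W) := by
    rw [hWdef, shift_det]
    refine LGE.det _ _ fun i j => ?_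
    rw [Matrix.of_apply, Matrix.of_apply]
    have h1 : LGE (wt r) τ₁ (shift ξ F) := fun i hi => hτ₁τ.trans (hcon i hi).le
    have h2 := lge_shift_hasse h1 (Finsupp.cons (b j) (μ i))
    intro κ hκ
    refine max_le ?_ ((?_ : _ ≤ _).trans (h2 κ hκ))
    · rw [wt_apply]
      exact Finset.sum_nonneg fun h _ => by positivity
    · have h3 : wt r (Finsupp.cons (b j) (μ i)) ≤ (j : ℝ) / r 0 + σ := by
        rw [wt_apply, Fin.sum_univ_succ, Finsupp.cons_zero]
        refine add_le_add ?_ ?_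
        · exact div_le_div_of_nonneg_right (by exact_mod_cast hb j) hr0.le
        · have h4 : ∀ h : Fin m, ((Finsupp.cons (b j) (μ i) h.succ : ℕ) : ℝ) / r h.succ ≤
              σ * ((μ i h : ℝ) / r 0) := by
            intro h
            rw [Finsupp.cons_succ]
            have h5 : (0 : ℝ) < r h.succ := by exact_mod_cast hr h.succ
            have h6 := hlac 0 h.succ (Fin.succ_pos h)
            have h7 : (0 : ℝ) ≤ μ i h := Nat.cast_nonneg _
            rw [div_le_iff₀ h5, mul_div_assoc', div_mul_eq_mul_div, le_div_iff₀ hr0]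
            nlinarith
          refine (Finset.sum_le_sum fun h _ => h4 h).trans ?_
          rw [← Finset.mul_sum, ← Finset.sum_div]
          have h8 : (∑ h, (μ i h : ℝ)) ≤ r 0 := by
            have h9 := hμ i
            rw [Finsupp.degree_eq_sum] at h9
            have h10 := i.2
            have h11 : ∑ h, μ i h ≤ r 0 := by omega
            exact_mod_cast h11
          have h12 : (∑ h, (μ i h : ℝ)) / r 0 ≤ 1 := by rwa [div_le_one hr0]
          calc σ * ((∑ h, (μ i h : ℝ)) / r 0) ≤ σ * 1 := mul_le_mul_of_nonneg_left h12 hσ0.le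
            _ = σ := mul_one _
      linarith
  -- integrality, size and degree of W
  have hWint : W ∈ intPoly (m + 1) K := by
    rw [hWdef]
    exact det_mem_intPoly _ fun i j => hasse_mem_intPoly hint _
  have hWl1 : ∀ φ : K →+* ℂ, l1 φ W ≤ (4 ^ (∑ h, r h) * B) ^ n := by
    intro φ
    rw [hWdef]
    exact l1_wronskian φ F r hdeg hn B hB (hl1 φ)
      (Matrix.of fun i j => Finsupp.cons (b j) (μ i))
  have hWdeg : ∀ i ∈ W.support, ∀ h, i h ≤ n * r h := by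
    intro i hi h
    have h1 : LGE (negExp h) (∑ j : Fin n, - (r h : ℝ)) W := by
      rw [hWdef]
      refine LGE.det _ _ fun i j => ?_
      rw [Matrix.of_apply]
      have h2 : LGE (negExp h) (-(r h : ℝ)) F := fun i hi => by
        have := hdeg i hi h
        change -(r h : ℝ) ≤ -(i h : ℝ)
        have h3 : (i h : ℝ) ≤ r h := by exact_mod_cast this
        linarith
      refine (h2.hasse (Finsupp.cons (b j) (μ i))).mono ?_
      have h4 : negExp h (Finsupp.cons (b j) (μ i)) ≤ 0 := by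
        change -((Finsupp.cons (b j) (μ i) h : ℕ) : ℝ) ≤ 0
        simp
      linarith
    have h2 := h1 i hi
    rw [Finset.sum_const, Finset.card_univ, Fintype.card_fin, nsmul_eq_mul] at h2
    change (n : ℝ) * -(r h : ℝ) ≤ -(i h : ℝ) at h2
    have h3 : (i h : ℝ) ≤ n * r h := by linarith
    exact_mod_cast h3
  obtain ⟨B', hB'⟩ : ∃ B', B' = (4 ^ (∑ h, r h) * B) ^ n := ⟨_, rfl⟩
  rw [← hB'] at hWl1
  have hlogB' : Real.log B' ≤ n * (Real.log B + 2 * S) := by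
    rw [hB', Real.log_pow, Real.log_mul (by positivity) (by positivity), Real.log_pow]
    refine mul_le_mul_of_nonneg_left ?_ hn0'.le
    have h1 : ((∑ h, r h : ℕ) : ℝ) = S := by rw [hS]; push_cast; rfl
    rw [h1]
    nlinarith [log_four_le]
  have hB'1 : 1 ≤ B' := by
    rw [hB']
    refine one_le_pow₀ ?_
    have : (1 : ℝ) ≤ 4 ^ (∑ h, r h) := one_le_pow₀ (by norm_num)
    nlinarith
  obtain ⟨ν₀, hν₀⟩ := MvPolynomial.ne_zero_iff.mp hV0
  obtain ⟨κ₀, hκ₀⟩ := MvPolynomial.ne_zero_iff.mp hU0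
  -- the polynomial U
  have hU' : ∀ κ, (V.coeff ν₀ • U).coeff κ = W.coeff (Finsupp.cons (ν₀ 0) κ) := by
    intro κ
    rw [hW, coeff_tns, ← eq_single, coeff_smul, smul_eq_mul, mul_comm]
  have hV' : ∀ a, (U.coeff κ₀ • V).coeff (Finsupp.single 0 a) = W.coeff (Finsupp.cons a κ₀) := by
    intro a
    rw [hW, coeff_tns, coeff_smul, smul_eq_mul]
  obtain ⟨i', hi', hi'τ⟩ := hIH (fun h => n * r h.succ) (fun h => ξ h.succ) (V.coeff ν₀ • U) B'
    (fun h => Nat.mul_pos hn0 (hr _))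
    (by
      intro h h' hhh
      have h1 := hlac h.succ h'.succ (Fin.succ_lt_succ_iff.mpr hhh)
      push_cast
      have h2 : (0 : ℝ) ≤ r h'.succ := Nat.cast_nonneg _
      have h3 : (r h.succ : ℝ) ≤ σ' * r h'.succ := h1.trans (mul_le_mul_of_nonneg_right hσσ' h2)
      nlinarith)
    (smul_ne_zero hν₀ hU0)
    (by
      intro i hi h
      rw [mem_support_iff, hU'] at hi
      have := hWdeg _ (mem_support_iff.mpr hi) h.succ
      rwa [Finsupp.cons_succ] at this)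
    hB'1
    (by intro κ; rw [hU']; exact hWint _)
    (fun φ => (l1_slice_le φ W (ν₀ 0) _ hU').trans (hWl1 φ))
    (by
      intro h
      have h1 := hheight h.succ
      have h2 : ∑ h' : Fin m, ((n * r h'.succ : ℕ) : ℝ) ≤ n * S := by
        rw [hS, Fin.sum_univ_succ]
        push_cast
        rw [← Finset.mul_sum]
        nlinarith
      have h3 : C' * (Real.log B' + ∑ h' : Fin m, ((n * r h'.succ : ℕ) : ℝ)) ≤
          n * (C * (Real.log B + S)) := by
        calc C' * (Real.log B' + ∑ h' : Fin m, ((n * r h'.succ : ℕ) : ℝ))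
            ≤ C' * (n * (Real.log B + 2 * S) + n * S) :=
              mul_le_mul_of_nonneg_left (add_le_add hlogB' h2) hC'0.le
          _ = n * (C' * (Real.log B + 3 * S)) := by ring
          _ ≤ n * (C * (Real.log B + S)) := by
              refine mul_le_mul_of_nonneg_left ?_ hn0'.le
              calc C' * (Real.log B + 3 * S) ≤ 3 * C' * (Real.log B + S) := by nlinarith
                _ ≤ C * (Real.log B + S) := mul_le_mul_of_nonneg_right hC3 (by positivity)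
      refine h3.trans ?_
      push_cast
      rw [mul_assoc]
      exact mul_le_mul_of_nonneg_left h1 hn0'.le)
  obtain ⟨e, he, heh⟩ := onevar_index (fun _ => ξ 0) (U.coeff κ₀ • V) (smul_ne_zero hκ₀ hV0)
    (by intro ν; rw [eq_single ν, hV']; exact hWint _) B'
    (fun φ => (l1_slice_le' φ W κ₀ _ hV').trans (hWl1 φ))
  -- the index of W
  have hmem : Finsupp.cons e i' ∈ (shift ξ W).support := by
    rw [mem_support_iff, hW, shift_tns, coeff_tns]
    rw [shift_smul, mem_support_iff, coeff_smul, smul_eq_mul] at hi' he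
    exact mul_ne_zero (right_ne_zero_of_mul hi') (right_ne_zero_of_mul he)
  have h1 := hlow _ hmem
  have h2 := sum_lower (r 0) n (hr 0) hn τ₁ σ hτ₁0 hτ₁1 hστ
  have h3 : wt r (Finsupp.cons e i') = (e : ℝ) / r 0 + ∑ h : Fin m, (i' h : ℝ) / r h.succ := by
    rw [wt_apply, Fin.sum_univ_succ, Finsupp.cons_zero]
    simp only [Finsupp.cons_succ]
  have h4 : ∑ h : Fin m, (i' h : ℝ) / r h.succ ≤ n * (τ₁ ^ 2 / 64) := by
    calc ∑ h : Fin m, (i' h : ℝ) / r h.succ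
        = n * ∑ h : Fin m, (i' h : ℝ) / ((n * r h.succ : ℕ) : ℝ) := by
          rw [Finset.mul_sum]
          refine Finset.sum_congr rfl fun h _ => ?_
          push_cast
          have h5 : (r h.succ : ℝ) ≠ 0 := by exact_mod_cast (hr h.succ).ne'
          field_simp
      _ ≤ n * (τ₁ ^ 2 / 64) := mul_le_mul_of_nonneg_left hi'τ hn0'.le
  have h5 : (e : ℝ) / r 0 ≤ n * (τ₁ ^ 2 / 64) := by
    have h6 := hheight 0
    have h7 : (0 : ℝ) < Real.log B + S := by positivity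
    have hC0 : 0 < C := lt_of_lt_of_le (by positivity) hC3
    have h8 : 0 < r 0 * Height.logHeight₁ (ξ 0) := lt_of_lt_of_le (by positivity) h6
    have h9 : 0 < Height.logHeight₁ (ξ 0) := (mul_pos_iff_of_pos_left hr0).mp h8
    rw [div_le_iff₀ hr0]
    have h10 : (e : ℝ) * Height.logHeight₁ (ξ 0) ≤
        (n * (τ₁ ^ 2 / 64) * r 0) * Height.logHeight₁ (ξ 0) := by
      calc (e : ℝ) * Height.logHeight₁ (ξ 0) ≤ Module.finrank ℚ K * Real.log B' := heh
        _ ≤ Module.finrank ℚ K * (n * (Real.log B + 2 * S)) :=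
            mul_le_mul_of_nonneg_left hlogB' hd.le
        _ ≤ Module.finrank ℚ K * (n * (2 * (Real.log B + S))) := by
            refine mul_le_mul_of_nonneg_left (mul_le_mul_of_nonneg_left ?_ hn0'.le) hd.le
            linarith
        _ = (n * (τ₁ ^ 2 / 64)) * (128 * Module.finrank ℚ K / τ₁ ^ 2 * (Real.log B + S)) := by
            field_simp
            ring
        _ ≤ (n * (τ₁ ^ 2 / 64)) * (r 0 * Height.logHeight₁ (ξ 0)) := by
            refine mul_le_mul_of_nonneg_left ?_ (by positivity)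
            exact (mul_le_mul_of_nonneg_right hCd h7.le).trans h6
        _ = (n * (τ₁ ^ 2 / 64) * r 0) * Height.logHeight₁ (ξ 0) := by ring
    exact le_of_mul_le_mul_right h10 h9
  rw [h3] at h1
  have h6 : (0 : ℝ) < n * τ₁ ^ 2 := by positivity
  linarith

end Step

theorem roth_aux (K : Type*) [Field K] [NumberField K] (m : ℕ) : ∀ τ : ℝ, 0 < τ →
    ∃ σ : ℝ, 0 < σ ∧ σ ≤ 1 / 2 ∧ ∃ C : ℝ, 0 < C ∧ RothStmt K m τ σ C := by
  induction m with
  | zero =>
    intro τ hτ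
    refine ⟨1 / 2, by norm_num, le_rfl, 1, one_pos, ?_⟩
    intro r ξ F B hr hlac hF0 hdeg hB hint hl1 hheight
    have h1 : shift ξ F ≠ 0 := by rwa [Ne, shift_eq_zero_iff]
    obtain ⟨i, hi⟩ := MvPolynomial.ne_zero_iff.mp h1
    exact ⟨i, mem_support_iff.mpr hi, by simpa using hτ.le⟩
  | succ m ih => exact fun τ hτ => roth_step m ih τ hτ

/-- **Roth's lemma**, qualitative form (variable `0` has the smallest degree). -/
theorem roth_lemma (K : Type*) [Field K] [NumberField K] (m : ℕ) (τ : ℝ) (hτ : 0 < τ) :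
    ∃ σ : ℝ, 0 < σ ∧ σ ≤ 1 / 2 ∧ ∃ C : ℝ, 0 < C ∧
    ∀ (r : Fin m → ℕ) (ξ : Fin m → K) (F : MvPolynomial (Fin m) K) (B : ℝ),
      (∀ h, 0 < r h) →
      (∀ h h' : Fin m, h < h' → (r h : ℝ) ≤ σ * r h') →
      F ≠ 0 → (∀ h, F.degreeOf h ≤ r h) →
      1 ≤ B → (∀ i, IsIntegral ℤ (F.coeff i)) → (∀ i, ∀ φ : K →+* ℂ, ‖φ (F.coeff i)‖ ≤ B) →
      (∀ h, C * (Real.log B + ∑ h', (r h' : ℝ)) ≤ r h * Height.logHeight₁ (ξ h)) →
      ∃ i ∈ (shift ξ F).support, ∑ h, (i h : ℝ) / r h ≤ τ := by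
  obtain ⟨σ, hσ0, hσ1, C, hC0, hmain⟩ := roth_aux K m τ hτ
  refine ⟨σ, hσ0, hσ1, 2 * C, by positivity, ?_⟩
  intro r ξ F B hr hlac hF0 hdeg hB hint hl1 hheight
  have hdeg' : ∀ i ∈ F.support, ∀ h, i h ≤ r h := fun i hi h =>
    (MvPolynomial.degreeOf_le_iff.mp (hdeg h)) i hi
  have h2 : (1 : ℝ) ≤ 2 ^ (∑ h, r h) := one_le_pow₀ (by norm_num)
  refine hmain r ξ F (2 ^ (∑ h, r h) * B) hr hlac hF0 hdeg' (by nlinarith) hint
    (fun φ => l1_le_of_coeff φ F r hdeg' B fun i => hl1 i φ) fun h => ?_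
  refine le_trans ?_ (hheight h)
  rw [Real.log_mul (by positivity) (by positivity), Real.log_pow]
  have h3 : ((∑ h, r h : ℕ) : ℝ) = ∑ h', (r h' : ℝ) := by push_cast; rfl
  rw [h3]
  have h4 : 0 ≤ ∑ h', (r h' : ℝ) := Finset.sum_nonneg fun h _ => Nat.cast_nonneg _
  have h5 : 0 ≤ Real.log B := Real.log_nonneg hB
  have h6 := Real.log_two_lt_d9
  have h7 : (∑ h', (r h' : ℝ)) * Real.log 2 ≤ ∑ h', (r h' : ℝ) := by nlinarith
  nlinarith

end Pool.Agent.DD7719
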