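import Pool.Agent.DD7719.RothHasse

/-!
# Reduction to a polynomial with one variable per block (the lowest-degree trick)
-/

open MvPolynomial

namespace Pool.Agent.DD7719

section Low

variable {M : ℕ} {ι : Type*} [Fintype ι] [DecidableEq ι] {K : Type*} [Field K]

/-- the part of an exponent outside of the columns `J₁`, `J₂`. -/
noncomputable def oth (J₁ J₂ : ι) (j : (Fin M × ι) →₀ ℕ) : (Fin M × ι) →₀ ℕ :=
  j.filter (fun p => p.2 ≠ J₁ ∧ p.2 ≠ J₂)

/-- the part of an exponent in the column `J₁`. -/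
noncomputable def col (J₁ : ι) (j : (Fin M × ι) →₀ ℕ) : Fin M →₀ ℕ :=
  Finsupp.equivFunOnFinite.symm (fun h => j (h, J₁))

omit [Fintype ι] [DecidableEq ι] in
lemma col_apply (J₁ : ι) (j : (Fin M × ι) →₀ ℕ) (h : Fin M) : col J₁ j h = j (h, J₁) := rfl

lemma eq_of_oth_col {J₁ J₂ : ι} (hJ : J₁ ≠ J₂) {j j' : (Fin M × ι) →₀ ℕ}
    (h1 : oth J₁ J₂ j = oth J₁ J₂ j') (h2 : col J₁ j = col J₁ j')
    (h3 : ∀ h, ∑ J, j (h, J) = ∑ J, j' (h, J)) : j = j' := by
  have key : ∀ h J, J ≠ J₂ → j (h, J) = j' (h, J) := by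
    intro h J hJ2
    by_cases hJ1 : J = J₁
    · subst hJ1
      have := DFunLike.congr_fun h2 h
      exact this
    · have := DFunLike.congr_fun h1 (h, J)
      rw [oth, oth, Finsupp.filter_apply_pos _ _ ⟨hJ1, hJ2⟩,
        Finsupp.filter_apply_pos _ _ ⟨hJ1, hJ2⟩] at this
      exact this
  ext ⟨h, J⟩
  by_cases hJ2 : J = J₂
  · subst hJ2
    have h4 := h3 h
    rw [← Finset.add_sum_erase _ _ (Finset.mem_univ J), ← Finset.add_sum_erase _ _ (Finset.mem_univ J)] at h4
    have h5 : ∑ x ∈ Finset.univ.erase J, j (h, x) = ∑ x ∈ Finset.univ.erase J, j' (h, x) :=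
      Finset.sum_congr rfl fun x hx => key h x (Finset.ne_of_mem_erase hx)
    omega
  · exact key h J hJ2

/-- the linear form substituted for the variable `(h, J₁)`. -/
noncomputable def subA (w : Fin M → ι → K) (J₁ J₂ : ι) (h : Fin M) :
    MvPolynomial (Fin M × ι) (MvPolynomial (Fin M) K) :=
  C (C (w h J₂) + X h) + ∑ J ∈ (Finset.univ.erase J₁).erase J₂, C (C (w h J)) * X (h, J)

/-- the substitution. -/
noncomputable def subMap (w : Fin M → ι → K) (J₁ J₂ : ι) (p : Fin M × ι) :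
    MvPolynomial (Fin M × ι) (MvPolynomial (Fin M) K) :=
  if p.2 = J₁ then subA w J₁ J₂ p.1 else if p.2 = J₂ then 1 else X p

lemma prod_subMap (w : Fin M → ι → K) {J₁ J₂ : ι} (hJ : J₁ ≠ J₂) (j : (Fin M × ι) →₀ ℕ) :
    ∏ p, subMap w J₁ J₂ p ^ j p =
      (∏ h, subA w J₁ J₂ h ^ j (h, J₁)) * monomial (oth J₁ J₂ j) 1 := by
  have h1 : (monomial (oth J₁ J₂ j) 1 : MvPolynomial (Fin M × ι) (MvPolynomial (Fin M) K)) =
      ∏ p : Fin M × ι, if p.2 ≠ J₁ ∧ p.2 ≠ J₂ then X p ^ j p else 1 := by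
    rw [monomial_eq, C_1, one_mul, Finsupp.prod_fintype _ _ (fun p => pow_zero _)]
    refine Finset.prod_congr rfl fun p _ => ?_
    rw [oth, Finsupp.filter_apply]
    split_ifs <;> simp
  have h2 : ∏ h, subA w J₁ J₂ h ^ j (h, J₁) =
      ∏ p : Fin M × ι, if p.2 = J₁ then subA w J₁ J₂ p.1 ^ j p else 1 := by
    rw [Fintype.prod_prod_type]
    refine Finset.prod_congr rfl fun h _ => ?_
    rw [Finset.prod_eq_single J₁]
    · simp
    · intro J _ hJ'
      simp [hJ']
    · simp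
  rw [h1, h2, ← Finset.prod_mul_distrib]
  refine Finset.prod_congr rfl fun p _ => ?_
  unfold subMap
  by_cases h3 : p.2 = J₁
  · simp [h3]
  · by_cases h4 : p.2 = J₂
    · simp [h4, Ne.symm hJ]
    · simp [h3, h4]

lemma eq_of_le_of_degree_le {α : Type*} [Fintype α] {a b : α →₀ ℕ} (h1 : a ≤ b)
    (h2 : b.degree ≤ a.degree) : a = b := by
  have h3 : a + (b - a) = b := add_tsub_cancel_of_le h1
  have h4 : a.degree + (b - a).degree = b.degree := by rw [← map_add, h3]
  have h5 : (b - a).degree = 0 := by omega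
  rw [Finsupp.degree_eq_zero_iff] at h5
  rw [← h3, h5, add_zero]

lemma constantCoeff_subA (w : Fin M → ι → K) (J₁ J₂ : ι) (h : Fin M) :
    constantCoeff (subA w J₁ J₂ h) = C (w h J₂) + X h := by
  simp [subA]

/-- the polynomial `F`. -/
noncomputable def lowF (J₁ J₂ : ι) (P : MvPolynomial (Fin M × ι) K) (ν : (Fin M × ι) →₀ ℕ) :
    MvPolynomial (Fin M) K :=
  ∑ j ∈ P.support.filter (fun j => oth J₁ J₂ j = ν), monomial (col J₁ j) (P.coeff j)

lemma coeff_lowF {J₁ J₂ : ι} (hJ : J₁ ≠ J₂) (r : Fin M → ℕ) (P : MvPolynomial (Fin M × ι) K)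
    (hhom : ∀ j ∈ P.support, ∀ h, ∑ J, j (h, J) = r h) (ν : (Fin M × ι) →₀ ℕ)
    (j : (Fin M × ι) →₀ ℕ) (hj : j ∈ P.support) (hν : oth J₁ J₂ j = ν) :
    (lowF J₁ J₂ P ν).coeff (col J₁ j) = P.coeff j := by
  rw [lowF, coeff_sum, Finset.sum_eq_single j]
  · rw [coeff_monomial, if_pos rfl]
  · intro j' hj' hne
    rw [coeff_monomial, if_neg]
    intro h
    apply hne
    rw [Finset.mem_filter] at hj'
    exact eq_of_oth_col hJ (hj'.2.trans hν.symm) h fun h => by rw [hhom _ hj'.1, hhom _ hj]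
  · intro h
    exact absurd (Finset.mem_filter.mpr ⟨hj, hν⟩) h

lemma coeff_lowF_cases {J₁ J₂ : ι} (hJ : J₁ ≠ J₂) (r : Fin M → ℕ) (P : MvPolynomial (Fin M × ι) K)
    (hhom : ∀ j ∈ P.support, ∀ h, ∑ J, j (h, J) = r h) (ν : (Fin M × ι) →₀ ℕ) (a : Fin M →₀ ℕ)
    (ha : (lowF J₁ J₂ P ν).coeff a ≠ 0) :
    ∃ j ∈ P.support, oth J₁ J₂ j = ν ∧ col J₁ j = a ∧ (lowF J₁ J₂ P ν).coeff a = P.coeff j := by
  have h1 : ∃ j ∈ P.support.filter (fun j => oth J₁ J₂ j = ν), col J₁ j = a := by
    by_contra hcon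
    push Not at hcon
    apply ha
    rw [lowF, coeff_sum]
    refine Finset.sum_eq_zero fun j hj => ?_
    rw [coeff_monomial, if_neg (hcon j hj)]
  obtain ⟨j, hj, rfl⟩ := h1
  rw [Finset.mem_filter] at hj
  exact ⟨j, hj.1, hj.2, rfl, coeff_lowF hJ r P hhom ν j hj.1 hj.2⟩

lemma shift_lowF (w : Fin M → ι → K) {J₁ J₂ : ι} (hJ : J₁ ≠ J₂) (P : MvPolynomial (Fin M × ι) K)
    (ν : (Fin M × ι) →₀ ℕ) (hmin : ∀ j ∈ P.support, ν.degree ≤ (oth J₁ J₂ j).degree) :
    (aeval (subMap w J₁ J₂) P).coeff ν = shift (fun h => w h J₂) (lowF J₁ J₂ P ν) := by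
  rw [aeval_def, eval₂_eq', coeff_sum, lowF]
  have h1 : shift (fun h => w h J₂) (∑ j ∈ P.support.filter (fun j => oth J₁ J₂ j = ν),
      monomial (col J₁ j) (P.coeff j)) = ∑ j ∈ P.support.filter (fun j => oth J₁ J₂ j = ν),
      C (P.coeff j) * ∏ h, (C (w h J₂) + X h) ^ j (h, J₁) := by
    rw [← shiftHom_apply, map_sum]
    refine Finset.sum_congr rfl fun j _ => ?_
    rw [shiftHom_apply, shift, bind₁_monomial]
    congr 1
    rw [Finset.prod_subset (Finset.subset_univ _)]
    · exact Finset.prod_congr rfl fun h _ => by rw [col_apply, add_comm]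
    · intro h _ hh
      rw [Finsupp.notMem_support_iff.mp hh, pow_zero]
  rw [h1, Finset.sum_filter]
  refine Finset.sum_congr rfl fun j hj => ?_
  have h2 : (algebraMap K (MvPolynomial (Fin M × ι) (MvPolynomial (Fin M) K))) (P.coeff j) =
      C (C (P.coeff j)) := rfl
  rw [prod_subMap w hJ, h2, coeff_C_mul, coeff_mul_monomial', mul_one]
  by_cases h3 : oth J₁ J₂ j = ν
  · rw [if_pos (le_of_eq h3), if_pos h3, h3, tsub_self]
    congr 1
    change constantCoeff _ = _
    rw [map_prod]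
    exact Finset.prod_congr rfl fun h _ => by rw [map_pow, constantCoeff_subA]
  · rw [if_neg h3, if_neg, mul_zero]
    intro h4
    exact h3 (eq_of_le_of_degree_le h4 (hmin j hj))

/-- coefficientwise extraction. -/
lemma exists_eval_ne_zero [Infinite K] {S : Type*} [Fintype S]
    (H : MvPolynomial S (MvPolynomial (Fin M) K)) (ν : S →₀ ℕ) (i : Fin M →₀ ℕ)
    (hne : (H.coeff ν).coeff i ≠ 0) :
    ∃ y : S → K, (eval (fun p => C (y p)) H).coeff i ≠ 0 := by
  classical
  let Hi : MvPolynomial S K := ∑ μ ∈ H.support, monomial μ ((H.coeff μ).coeff i)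
  have h1 : Hi.coeff ν = (H.coeff ν).coeff i := by
    rw [coeff_sum, Finset.sum_eq_single ν]
    · rw [coeff_monomial, if_pos rfl]
    · intro μ _ hμ
      rw [coeff_monomial, if_neg hμ]
    · intro h
      rw [notMem_support_iff.mp h]
      simp
  have h2 : Hi ≠ 0 := by
    intro h
    rw [h, coeff_zero] at h1
    exact hne h1.symm
  obtain ⟨y, hy⟩ : ∃ y : S → K, eval y Hi ≠ 0 := by
    by_contra hcon
    push Not at hcon
    apply h2
    apply MvPolynomial.funext
    intro x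
    rw [hcon x, map_zero]
  refine ⟨y, ?_⟩
  have h3 : (eval (fun p => C (y p)) H).coeff i = eval y Hi := by
    rw [eval_eq', coeff_sum, map_sum]
    refine Finset.sum_congr rfl fun μ _ => ?_
    have h4 : (∏ p, (C (y p) : MvPolynomial (Fin M) K) ^ μ p) = C (∏ p, y p ^ μ p) := by
      simp
    rw [h4, mul_comm, coeff_C_mul, eval_monomial, Finsupp.prod_fintype _ _ (fun p => pow_zero _),
      mul_comm]
  rw [h3]
  exact hy

theorem exists_lowF [Infinite K] {J₁ J₂ : ι} (hJ : J₁ ≠ J₂) (r : Fin M → ℕ)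
    (P : MvPolynomial (Fin M × ι) K) (hP : P ≠ 0)
    (hhom : ∀ j ∈ P.support, ∀ h, ∑ J, j (h, J) = r h) (w : Fin M → ι → K)
    (good : (Fin M →₀ ℕ) → Prop)
    (hV : ∀ x : Fin M → ι → K, (∀ h, x h J₁ = ∑ J ∈ Finset.univ.erase J₁, w h J * x h J) →
      ∀ i ∈ (aeval (fun p : Fin M × ι => (C (x p.1 p.2) + if p.2 = J₁ then X p.1 else 0 :
        MvPolynomial (Fin M) K)) P).support, good i) :
    ∃ F : MvPolynomial (Fin M) K, F ≠ 0 ∧
      (∀ a, F.coeff a = 0 ∨ ∃ j ∈ P.support, F.coeff a = P.coeff j) ∧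
      (∀ i ∈ F.support, ∀ h, i h ≤ r h) ∧
      ∀ i ∈ (shift (fun h => w h J₂) F).support, good i := by
  obtain ⟨j₀, hj₀, hmin⟩ := Finset.exists_min_image P.support (fun j => (oth J₁ J₂ j).degree)
    (by rwa [Finset.nonempty_iff_ne_empty, Ne, MvPolynomial.support_eq_empty])
  refine ⟨lowF J₁ J₂ P (oth J₁ J₂ j₀), ?_, ?_, ?_, ?_⟩
  · intro h
    have h1 := coeff_lowF hJ r P hhom _ j₀ hj₀ rfl
    rw [h, coeff_zero] at h1
    exact (mem_support_iff.mp hj₀) h1.symm
  · intro a
    by_cases ha : (lowF J₁ J₂ P (oth J₁ J₂ j₀)).coeff a = 0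
    · exact Or.inl ha
    · obtain ⟨j, hj, _, _, h⟩ := coeff_lowF_cases hJ r P hhom _ a ha
      exact Or.inr ⟨j, hj, h⟩
  · intro a ha h
    obtain ⟨j, hj, _, h1, _⟩ := coeff_lowF_cases hJ r P hhom _ a (mem_support_iff.mp ha)
    rw [← h1, col_apply, ← hhom j hj h]
    exact Finset.single_le_sum (f := fun J => j (h, J)) (fun _ _ => Nat.zero_le _)
      (Finset.mem_univ J₁)
  · intro i hi
    rw [← shift_lowF w hJ P _ hmin, mem_support_iff] at hi
    obtain ⟨y, hy⟩ := exists_eval_ne_zero _ _ _ hi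
    let x' : Fin M → ι → K := fun h J => if J = J₂ then 1 else y (h, J)
    let x : Fin M → ι → K := fun h J =>
      if J = J₁ then ∑ J ∈ Finset.univ.erase J₁, w h J * x' h J else x' h J
    refine hV x ?_ i ?_
    · intro h
      have h1 : x h J₁ = ∑ J ∈ Finset.univ.erase J₁, w h J * x' h J := by simp [x]
      rw [h1]
      refine Finset.sum_congr rfl fun J hJ' => ?_
      have h2 : x h J = x' h J := by
        simp only [x]
        rw [if_neg (Finset.ne_of_mem_erase hJ')]
      rw [h2]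
    · rw [mem_support_iff]
      have h1 := map_aeval (subMap w J₁ J₂) (eval (fun p : Fin M × ι =>
        (C (y p) : MvPolynomial (Fin M) K))) P
      have h2 : (eval (fun p : Fin M × ι => (C (y p) : MvPolynomial (Fin M) K))).comp
          (algebraMap K (MvPolynomial (Fin M × ι) (MvPolynomial (Fin M) K))) = C :=
        RingHom.ext fun a => by
          change eval _ (C (C a)) = C a
          rw [eval_C]
      have h3 : (fun p : Fin M × ι => eval (fun p : Fin M × ι =>
          (C (y p) : MvPolynomial (Fin M) K)) (subMap w J₁ J₂ p)) =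
          fun p : Fin M × ι => (C (x p.1 p.2) + if p.2 = J₁ then X p.1 else 0) := by
        funext p
        obtain ⟨h, J⟩ := p
        simp only [subMap]
        by_cases hJ1 : J = J₁
        · subst hJ1
          simp only [if_true, x, subA, map_add, eval_C, map_sum, map_mul, eval_X]
          rw [← Finset.add_sum_erase _ _ (Finset.mem_erase.mpr ⟨hJ.symm, Finset.mem_univ J₂⟩)]
          have h2 : x' h J₂ = 1 := by simp [x']
          rw [h2, C_1, mul_one]
          have h3 : ∑ J ∈ (Finset.univ.erase J).erase J₂, C (w h J) * C (x' h J) =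
              ∑ J ∈ (Finset.univ.erase J).erase J₂,
              (C (w h J) * C (y (h, J)) : MvPolynomial (Fin M) K) := by
            refine Finset.sum_congr rfl fun J' hJ' => ?_
            have h4 : x' h J' = y (h, J') := by
              simp only [x']
              rw [if_neg (Finset.ne_of_mem_erase hJ')]
            rw [h4]
          rw [h3]
          ring
        · simp only [if_neg hJ1, x, add_zero]
          by_cases hJ2 : J = J₂
          · subst hJ2
            simp [x']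
          · simp [x', hJ2]
      rw [h2, h3] at h1
      rw [h1] at hy
      exact hy

end Low

end Pool.Agent.DD7719
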