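import Pool.Agent.DD7719.SubZero
import Pool.Agent.DD7719.SubLow
import Pool.Agent.DD7719.Roth

/-!
# The contradiction at the heart of the Subspace theorem
-/

open MvPolynomial NumberField

namespace Pool.Agent.DD7719

/-- The auxiliary polynomials needed below. -/
def AuxPoly (K : Type*) [Field K] (ι : Type) [Fintype ι] [DecidableEq ι] : Prop :=
  ∀ δ : ℝ, 0 < δ → ∃ M₀ : ℕ, ∀ M : ℕ, M₀ ≤ M → 0 < M →
    ∀ Ψ : Matrix ι ι K, ∃ C₀ : ℝ, 0 < C₀ ∧
    ∀ r : Fin M → ℕ, (∀ h, 0 < r h) →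
    ∃ P : MvPolynomial (Fin M × ι) K, P ≠ 0 ∧
      (∀ j ∈ P.support, ∀ h, ∑ J, j (h, J) = r h) ∧
      (∀ j ∈ P.support, ∀ J, |∑ h, (j (h, J) : ℝ) / r h - M / Fintype.card ι| ≤ δ * M) ∧
      (∀ j ∈ (MvPolynomial.bind₁ (fun hJ : Fin M × ι =>
        ∑ J' : ι, C (Ψ hJ.2 J') * X (hJ.1, J')) P).support,
        ∀ J, |∑ h, (j (h, J) : ℝ) / r h - M / Fintype.card ι| ≤ δ * M) ∧
      (∀ j, IsIntegral ℤ (P.coeff j)) ∧
      (∀ j, ∀ φ : K →+* ℂ, ‖φ (P.coeff j)‖ ≤ Real.exp (C₀ * ∑ h, (r h : ℝ)))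

section Choice

lemma exists_denominator {ι : Type*} [Fintype ι] {K : Type*} [Field K] [NumberField K]
    (x : ι → K) : ∃ d : ℕ, 0 < d ∧ ∀ J, IsIntegral ℤ ((d : K) * x J) := by
  classical
  have h1 : ∀ J, ∃ e : ℕ, 0 < e ∧ IsIntegral ℤ ((e : K) * x J) := by
    intro J
    have h2 : IsAlgebraic ℤ (x J) := by
      have h3 : IsAlgebraic ℚ (x J) := Algebra.IsAlgebraic.isAlgebraic (x J)
      exact (IsFractionRing.isAlgebraic_iff ℤ ℚ K).mpr h3
    obtain ⟨y, hy, hy'⟩ := h2.exists_integral_multiple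
    refine ⟨y.natAbs, Int.natAbs_pos.mpr hy, ?_⟩
    have h4 : IsIntegral ℤ ((y : K) * x J) := by simpa [zsmul_eq_mul] using hy'
    rcases Int.natAbs_eq y with h5 | h5
    · have h6 : ((y.natAbs : ℕ) : K) = (y : K) := by
        conv_rhs => rw [h5]
        simp
      rw [h6]; exact h4
    · have h6 : ((y.natAbs : ℕ) : K) = -(y : K) := by
        conv_rhs => rw [h5]
        simp
      rw [h6, neg_mul]; exact h4.neg
  choose e he hei using h1
  refine ⟨∏ J, e J, Finset.prod_pos fun J _ => he J, fun J => ?_⟩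
  rw [← Finset.mul_prod_erase _ _ (Finset.mem_univ J)]
  have h7 : (((e J * ∏ x ∈ Finset.univ.erase J, e x : ℕ)) : K) * x J =
      ((∏ x ∈ Finset.univ.erase J, e x : ℕ) : K) * ((e J : K) * x J) := by
    push_cast; ring
  rw [h7]
  refine IsIntegral.mul ?_ (hei J)
  have := isIntegral_algebraMap (R := ℤ) (A := K) (x := ((∏ x ∈ Finset.univ.erase J, e x : ℕ) : ℤ))
  simpa using this

lemma exists_seq (Data : ℕ → Prop) (hData : ∀ n₀ : ℕ, ∃ n, n₀ ≤ n ∧ Data n) (nmin : ℕ) (σ : ℝ)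
    (hσ : 0 < σ) (hσ1 : σ ≤ 1 / 2) :
    ∃ f : ℕ → ℕ, (∀ i, nmin ≤ f i) ∧ (∀ i j, i < j → (f i : ℝ) ≤ σ * f j) ∧ ∀ i, Data (f i) := by
  choose g hg1 hg2 using hData
  let f : ℕ → ℕ := fun i => Nat.rec (motive := fun _ => ℕ) (g nmin) (fun _ y => g (max nmin ⌈(y : ℝ) / σ⌉₊)) i
  have hf0 : f 0 = g nmin := rfl
  have hfs : ∀ i, f (i + 1) = g (max nmin ⌈(f i : ℝ) / σ⌉₊) := fun i => rfl
  have h1 : ∀ i, (f i : ℝ) ≤ σ * f (i + 1) := by
    intro i
    have h2 : (f i : ℝ) / σ ≤ f (i + 1) := by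
      rw [hfs]
      calc (f i : ℝ) / σ ≤ (⌈(f i : ℝ) / σ⌉₊ : ℝ) := Nat.le_ceil _
        _ ≤ (g (max nmin ⌈(f i : ℝ) / σ⌉₊) : ℝ) := by
          exact_mod_cast (le_max_right _ _).trans (hg1 _)
    rw [div_le_iff₀ hσ] at h2
    linarith
  refine ⟨f, ?_, ?_, ?_⟩
  · intro i
    cases i with
    | zero => rw [hf0]; exact hg1 _
    | succ i => rw [hfs]; exact (le_max_left _ _).trans (hg1 _)
  · intro i j hij
    obtain ⟨m, rfl⟩ := Nat.exists_eq_add_of_lt hij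
    clear hij
    induction m with
    | zero => exact h1 i
    | succ m ih =>
      have h2 : (f (i + m + 1) : ℝ) ≤ f (i + (m + 1) + 1) := by
        have h3 := h1 (i + m + 1)
        have h4 : (0 : ℝ) ≤ f (i + m + 1 + 1) := Nat.cast_nonneg _
        have h5 : i + (m + 1) + 1 = i + m + 1 + 1 := by ring
        rw [h5]
        nlinarith
      exact ih.trans (mul_le_mul_of_nonneg_left h2 hσ.le)
  · intro i
    cases i with
    | zero => rw [hf0]; exact hg2 _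
    | succ i => rw [hfs]; exact hg2 _

end Choice

section Arith

/-- the final numerical inequality -/
lemma numeric_neg (D N β ssum κ₀ e₀ ε δ θ c₁ c₂ c₃ nmin RM Sr E S A₁ A₂ : ℝ) (hN : 0 < N)
    (hD : 2 ≤ D) (hκ : (D - 2) * N * β + 2 * ssum = -κ₀) (hκ₀ : 0 < κ₀)
    (he₀ : e₀ = κ₀ / (8 * N * D)) (hε : ε ≤ e₀) (hδ : c₁ * δ ≤ e₀)
    (hθ : c₂ * θ ≤ e₀) (hc₁ : 0 ≤ c₁) (hc₂ : 0 ≤ c₂) (hc₃ : 0 ≤ c₃) (hn : 0 < nmin)
    (hn' : c₃ ≤ e₀ * nmin) (hRM : 0 < RM) (hSr : Sr * nmin ≤ RM) (hE : E ≤ δ * RM)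
    (hS : S ≤ θ * RM)
    (hA₁ : A₁ ≤ RM * (β + ε) + c₁ * E + c₂ * S + c₃ * Sr)
    (hA₂ : A₂ ≤ RM * (ssum / N + ε) + c₁ * E + c₂ * S + c₃ * Sr) :
    (D - 2) * A₁ + 2 * A₂ < 0 := by
  have h1 : c₃ * Sr ≤ e₀ * RM := by
    have h2 : Sr ≤ RM / nmin := by rwa [le_div_iff₀ hn]
    calc c₃ * Sr ≤ c₃ * (RM / nmin) := mul_le_mul_of_nonneg_left h2 hc₃
      _ = (c₃ / nmin) * RM := by ring
      _ ≤ e₀ * RM := by
          refine mul_le_mul_of_nonneg_right ?_ hRM.le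
          rwa [div_le_iff₀ hn]
  have h2 : c₁ * E ≤ e₀ * RM := by
    calc c₁ * E ≤ c₁ * (δ * RM) := mul_le_mul_of_nonneg_left hE hc₁
      _ = (c₁ * δ) * RM := by ring
      _ ≤ e₀ * RM := mul_le_mul_of_nonneg_right hδ hRM.le
  have h3 : c₂ * S ≤ e₀ * RM := by
    calc c₂ * S ≤ c₂ * (θ * RM) := mul_le_mul_of_nonneg_left hS hc₂
      _ = (c₂ * θ) * RM := by ring
      _ ≤ e₀ * RM := mul_le_mul_of_nonneg_right hθ hRM.le
  have h4 : A₁ ≤ RM * (β + 4 * e₀) := by nlinarith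
  have h5 : A₂ ≤ RM * (ssum / N + 4 * e₀) := by nlinarith
  have h6 : (D - 2) * A₁ ≤ (D - 2) * (RM * (β + 4 * e₀)) :=
    mul_le_mul_of_nonneg_left h4 (by linarith)
  have h7 : (D - 2) * (RM * (β + 4 * e₀)) + 2 * (RM * (ssum / N + 4 * e₀)) =
      RM * (-(κ₀ / N) + 4 * D * e₀) := by
    have h8 : (D - 2) * β + 2 * (ssum / N) = -(κ₀ / N) := by
      field_simp
      linarith
    calc _ = RM * (((D - 2) * β + 2 * (ssum / N)) + 4 * D * e₀) := by ring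
      _ = _ := by rw [h8]
  have h9 : 4 * D * e₀ = κ₀ / (2 * N) := by
    rw [he₀]
    field_simp
    ring
  have h10 : κ₀ / (2 * N) < κ₀ / N := by
    have : κ₀ / N = 2 * (κ₀ / (2 * N)) := by field_simp
    have h11 : 0 < κ₀ / (2 * N) := by positivity
    linarith
  have h12 : RM * (-(κ₀ / N) + 4 * D * e₀) < 0 := by
    rw [h9]
    nlinarith
  linarith

end Arith

section Main

variable {K : Type*} [Field K] [NumberField K] {ι : Type} [Fintype ι] [DecidableEq ι]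

/-- The data attached to one `n`. -/
def Datum (φ : K →+* ℂ) (Λ : ι → K) (L : Matrix ι ι K) (β : ℝ) (s : ι → ℝ) (J₁ J₂ : ι)
    (h₀ ε : ℝ) (n : ℕ) : Prop :=
  ∃ Z : Fin (Fintype.card ι - 1) → ι → 𝓞 K,
    LinearIndependent K (fun i J => (Z i J : K)) ∧
    (∀ σ : K →+* ℂ, σ ≠ φ → σ ≠ ComplexEmbedding.conjugate φ → ∀ i J,
      ‖σ (Z i J : K)‖ ≤ Real.exp (n * (β + ε))) ∧
    (∀ i J, ‖φ (∑ J', L J J' * (Λ J' ^ n * (Z i J' : K)))‖ ≤
      ‖φ (Λ J)‖ ^ n * Real.exp (n * (s J + ε))) ∧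
    ∃ v : ι → K, (∀ i, ∑ J, v J * (Λ J ^ n * (Z i J : K)) = 0) ∧ v J₁ ≠ 0 ∧ v J₂ ≠ 0 ∧
      n * h₀ ≤ Height.logHeight₁ (v J₁ / v J₂)

theorem no_bad_sequence_of_aux (haux : AuxPoly K ι) (φ : K →+* ℂ)
    (hφ : ComplexEmbedding.conjugate φ ≠ φ)
    (Λ : ι → K) (hΛ : ∀ J, Λ J ≠ 0) (L : Matrix ι ι K) (hL : L.det ≠ 0)
    (β : ℝ) (s : ι → ℝ)
    (hneg : ((Fintype.card (K →+* ℂ) : ℝ) - 2) * Fintype.card ι * β + 2 * ∑ J, s J < 0)
    (J₁ J₂ : ι) (hJ : J₁ ≠ J₂) (h₀ : ℝ) (hh₀ : 0 < h₀)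
    (H : ∀ ε : ℝ, 0 < ε → ∀ n₀ : ℕ, ∃ n : ℕ, n₀ ≤ n ∧ Datum φ Λ L β s J₁ J₂ h₀ ε n) :
    False := by
  classical
  -- constants
  have hN2 : 2 ≤ Fintype.card ι := by
    have := Fintype.one_lt_card_iff.mpr ⟨J₁, J₂, hJ⟩
    omega
  obtain ⟨k, hk⟩ : ∃ k, k = Fintype.card ι - 1 := ⟨_, rfl⟩
  have hk1 : k + 1 = Fintype.card ι := by omega
  obtain ⟨N, hN⟩ : ∃ N : ℝ, N = Fintype.card ι := ⟨_, rfl⟩
  have hN0 : 0 < N := by rw [hN]; exact_mod_cast (by omega : 0 < Fintype.card ι)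
  have hN1 : 1 ≤ N := by rw [hN]; exact_mod_cast (by omega : 1 ≤ Fintype.card ι)
  have hkN : (k : ℝ) + 1 = N := by rw [hN]; exact_mod_cast hk1
  obtain ⟨D, hD⟩ : ∃ D : ℝ, D = Fintype.card (K →+* ℂ) := ⟨_, rfl⟩
  have hD2 : 2 ≤ D := by
    have := Fintype.one_lt_card_iff.mpr ⟨ComplexEmbedding.conjugate φ, φ, hφ⟩
    rw [hD]
    exact_mod_cast (by omega : 2 ≤ Fintype.card (K →+* ℂ))
  obtain ⟨d₁, hd₁, hd₁'⟩ := exists_denominator Λ
  obtain ⟨d₂, hd₂, hd₂'⟩ := exists_denominator (fun J => (Λ J)⁻¹)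
  obtain ⟨d, hd⟩ : ∃ d, d = d₁ * d₂ := ⟨_, rfl⟩
  have hd0 : 0 < d := by rw [hd]; exact Nat.mul_pos hd₁ hd₂
  have hnat : ∀ a : ℕ, IsIntegral ℤ (a : K) := fun a => by
    have := isIntegral_algebraMap (R := ℤ) (A := K) (x := (a : ℤ))
    simpa using this
  have hdΛ : ∀ J, IsIntegral ℤ ((d : K) * Λ J) := by
    intro J
    have h1 : (d : K) * Λ J = d₂ * (d₁ * Λ J) := by rw [hd]; push_cast; ring
    rw [h1]; exact (hnat _).mul (hd₁' J)
  have hdΛ' : ∀ J, IsIntegral ℤ ((d : K) * (Λ J)⁻¹) := by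
    intro J
    have h1 : (d : K) * (Λ J)⁻¹ = d₁ * (d₂ * (Λ J)⁻¹) := by rw [hd]; push_cast; ring
    rw [h1]; exact (hnat _).mul (hd₂' J)
  have hlogd : 0 ≤ Real.log d := Real.log_natCast_nonneg d
  obtain ⟨c, hcdef⟩ : ∃ c, c = ∑ σ : K →+* ℂ, ∑ J, |Real.log ‖σ (Λ J)‖| := ⟨_, rfl⟩
  have hc : ∀ (σ : K →+* ℂ) J, |Real.log ‖σ (Λ J)‖| ≤ c := by
    intro σ J
    rw [hcdef]
    refine le_trans ?_ (Finset.single_le_sum (f := fun σ : K →+* ℂ =>
      ∑ J, |Real.log ‖σ (Λ J)‖|) (fun σ _ => Finset.sum_nonneg fun J _ => abs_nonneg _)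
      (Finset.mem_univ σ))
    exact Finset.single_le_sum (f := fun J => |Real.log ‖σ (Λ J)‖|)
      (fun J _ => abs_nonneg _) (Finset.mem_univ J)
  have hc0 : 0 ≤ c := (abs_nonneg _).trans (hc φ J₁)
  obtain ⟨S', hS'⟩ : ∃ S', S' = ∑ J, |s J| := ⟨_, rfl⟩
  have hsS' : ∀ J, |s J| ≤ S' := by
    intro J
    rw [hS']
    exact Finset.single_le_sum (f := fun J => |s J|) (fun J _ => abs_nonneg _) (Finset.mem_univ J)
  have hS'0 : 0 ≤ S' := (abs_nonneg _).trans (hsS' J₁)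
  obtain ⟨Ψ, hΨdef⟩ : ∃ Ψ : Matrix ι ι K, Ψ = L⁻¹ := ⟨_, rfl⟩
  have hΨ : Ψ * L = 1 := by
    rw [hΨdef]
    exact Matrix.nonsing_inv_mul L (isUnit_iff_ne_zero.mpr hL)
  obtain ⟨U, hUdef⟩ : ∃ U : ℝ, U = 1 + ∑ J, ∑ J', (‖φ (L J J')‖ + ‖φ (Ψ J J')‖) := ⟨_, rfl⟩
  have hUpos : ∀ J J', ‖φ (L J J')‖ + ‖φ (Ψ J J')‖ ≤ U := by
    intro J J'
    have h1 : ‖φ (L J J')‖ + ‖φ (Ψ J J')‖ ≤ ∑ J, ∑ J', (‖φ (L J J')‖ + ‖φ (Ψ J J')‖) := by
      refine le_trans ?_ (Finset.single_le_sum (f := fun J =>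
        ∑ J', (‖φ (L J J')‖ + ‖φ (Ψ J J')‖)) (fun J _ => Finset.sum_nonneg fun J' _ => by positivity)
        (Finset.mem_univ J))
      exact Finset.single_le_sum (f := fun J' => ‖φ (L J J')‖ + ‖φ (Ψ J J')‖)
        (fun J _ => by positivity) (Finset.mem_univ J')
    rw [hUdef]; linarith
  have hU1 : 1 ≤ U := by
    rw [hUdef]
    have : 0 ≤ ∑ J, ∑ J', (‖φ (L J J')‖ + ‖φ (Ψ J J')‖) :=
      Finset.sum_nonneg fun J _ => Finset.sum_nonneg fun J' _ => by positivity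
    linarith
  have hUL : ∀ J J', ‖φ (L J J')‖ ≤ U := fun J J' => by
    have := hUpos J J'
    have := norm_nonneg (φ (Ψ J J'))
    linarith
  have hUΨ : ∀ J J', ‖φ (Ψ J J')‖ ≤ U := fun J J' => by
    have := hUpos J J'
    have := norm_nonneg (φ (L J J'))
    linarith
  obtain ⟨Ca, hCadef⟩ : ∃ Ca, Ca = 2 * c + S' := ⟨_, rfl⟩
  have hCa0 : 0 ≤ Ca := by rw [hCadef]; positivity
  obtain ⟨c', hc'def⟩ : ∃ c', c' = c + S' + 1 := ⟨_, rfl⟩
  obtain ⟨c₁, hc₁def⟩ : ∃ c₁, c₁ = N * (Real.log d + c') := ⟨_, rfl⟩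
  obtain ⟨c₂, hc₂def⟩ : ∃ c₂, c₂ = |β| + 1 + Ca := ⟨_, rfl⟩
  have hc₁0 : 0 ≤ c₁ := by rw [hc₁def, hc'def]; positivity
  have hc₂0 : 0 ≤ c₂ := by rw [hc₂def]; positivity
  obtain ⟨κ₀, hκ₀def⟩ : ∃ κ₀, κ₀ = -((D - 2) * N * β + 2 * ∑ J, s J) := ⟨_, rfl⟩
  have hκ₀ : 0 < κ₀ := by rw [hκ₀def, hD, hN]; linarith
  obtain ⟨e₀, he₀⟩ : ∃ e₀, e₀ = κ₀ / (8 * N * D) := ⟨_, rfl⟩
  have hD0 : 0 < D := by linarith
  have he₀0 : 0 < e₀ := by rw [he₀]; positivity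
  obtain ⟨ε, hε⟩ : ∃ ε, ε = min 1 e₀ := ⟨_, rfl⟩
  have hε0 : 0 < ε := by rw [hε]; exact lt_min one_pos he₀0
  have hε1 : ε ≤ 1 := by rw [hε]; exact min_le_left _ _
  have hεe : ε ≤ e₀ := by rw [hε]; exact min_le_right _ _
  obtain ⟨δ, hδ⟩ : ∃ δ, δ = min 1 (e₀ / (c₁ + 1)) := ⟨_, rfl⟩
  have hδ0 : 0 < δ := by rw [hδ]; exact lt_min one_pos (by positivity)
  have hδ1 : δ ≤ 1 := by rw [hδ]; exact min_le_left _ _
  have hδe : c₁ * δ ≤ e₀ := by
    have h1 : δ ≤ e₀ / (c₁ + 1) := by rw [hδ]; exact min_le_right _ _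
    have h2 : δ * (c₁ + 1) ≤ e₀ := by rwa [le_div_iff₀ (by positivity)] at h1
    nlinarith
  obtain ⟨θ, hθ⟩ : ∃ θ, θ = e₀ / (c₂ + 1) := ⟨_, rfl⟩
  have hθ0 : 0 < θ := by rw [hθ]; positivity
  have hθe : c₂ * θ ≤ e₀ := by
    have h2 : θ * (c₂ + 1) = e₀ := by rw [hθ]; field_simp
    nlinarith
  -- the auxiliary polynomial and Roth's lemma
  obtain ⟨M₀, hM₀⟩ := haux δ hδ0
  obtain ⟨M, hMdef⟩ : ∃ M, M = max M₀ 1 := ⟨_, rfl⟩
  have hM0 : 0 < M := by rw [hMdef]; exact lt_of_lt_of_le one_pos (le_max_right _ _)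
  have hMr : (0 : ℝ) < M := by exact_mod_cast hM0
  obtain ⟨C₀, hC₀, hP⟩ := hM₀ M (by rw [hMdef]; exact le_max_left _ _) hM0 Ψ
  obtain ⟨σ, hσ0, hσ1, CR, hCR0, hroth⟩ := roth_lemma K M (θ * M) (by positivity)
  have hkU : (1 : ℝ) ≤ k + U := by
    have : (0 : ℝ) ≤ k := Nat.cast_nonneg k
    linarith
  have hNU : (1 : ℝ) ≤ N * U := by nlinarith
  obtain ⟨c₃, hc₃def⟩ : ∃ c₃, c₃ = N + C₀ + Real.log N + Real.log (N * U) +
    2 * M * N * Real.log (k + U) := ⟨_, rfl⟩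
  have hlogN : 0 ≤ Real.log N := Real.log_nonneg hN1
  have hlogNU : 0 ≤ Real.log (N * U) := Real.log_nonneg hNU
  have hlogkU : 0 ≤ Real.log (k + U) := Real.log_nonneg hkU
  have hc₃0 : 0 ≤ c₃ := by rw [hc₃def]; positivity
  obtain ⟨nmin, hnmin⟩ : ∃ nmin : ℕ, nmin = ⌈max (c₃ / e₀) (CR * (C₀ + 1) * M / h₀)⌉₊ + 1 := ⟨_, rfl⟩
  have hnmin0 : (0 : ℝ) < nmin := by rw [hnmin]; positivity
  have hnmin1 : c₃ ≤ e₀ * nmin := by
    have h1 : c₃ / e₀ ≤ nmin := by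
      rw [hnmin]; push_cast
      have := Nat.le_ceil (max (c₃ / e₀) (CR * (C₀ + 1) * M / h₀))
      have h2 := le_max_left (c₃ / e₀) (CR * (C₀ + 1) * M / h₀)
      linarith
    rw [div_le_iff₀ he₀0] at h1
    linarith
  have hnmin2 : CR * (C₀ + 1) * M ≤ h₀ * nmin := by
    have h1 : CR * (C₀ + 1) * M / h₀ ≤ nmin := by
      rw [hnmin]; push_cast
      have := Nat.le_ceil (max (c₃ / e₀) (CR * (C₀ + 1) * M / h₀))
      have h2 := le_max_right (c₃ / e₀) (CR * (C₀ + 1) * M / h₀)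
      linarith
    rw [div_le_iff₀ hh₀] at h1
    linarith
  obtain ⟨f, hf1, hf2, hf3⟩ := exists_seq _ (H ε hε0) nmin σ hσ0 hσ1
  obtain ⟨n, hn⟩ : ∃ n : Fin M → ℕ, n = fun h : Fin M => f (M - 1 - (h : ℕ)) := ⟨_, rfl⟩
  have hnmin' : ∀ h, nmin ≤ n h := fun h => by rw [hn]; exact hf1 _
  have hn0 : ∀ h, 0 < n h := fun h => by
    have := hnmin' h
    have h2 : 0 < nmin := by exact_mod_cast hnmin0
    omega
  have hnσ : ∀ h h' : Fin M, h < h' → (n h' : ℝ) ≤ σ * n h := by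
    intro h h' hh
    rw [hn]
    refine hf2 _ _ ?_
    have h1 := h'.2
    have h2 : (h : ℕ) < h' := hh
    omega
  have hdat : ∀ h, Datum φ Λ L β s J₁ J₂ h₀ ε (n h) := fun h => by rw [hn]; exact hf3 _
  choose Z hZlin hZo hZφ v hvZ hvJ₁ hvJ₂ hvh using hdat
  -- the degrees
  obtain ⟨pn, hpn⟩ : ∃ pn : ℕ, pn = ∏ h, n h := ⟨_, rfl⟩
  have hpn0 : 0 < pn := by rw [hpn]; exact Finset.prod_pos fun h _ => hn0 h
  obtain ⟨R, hR⟩ : ∃ R : ℕ, R = Fintype.card ι * pn := ⟨_, rfl⟩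
  obtain ⟨T, hT⟩ : ∃ T : ℕ, T = M * pn := ⟨_, rfl⟩
  have hR0 : 0 < R := by rw [hR]; exact Nat.mul_pos (by omega) hpn0
  have hRr : (0 : ℝ) < R := by exact_mod_cast hR0
  have hNT : N * T = R * M := by
    rw [hN, hT, hR]; push_cast; ring
  have hdvd : ∀ h, n h ∣ R := by
    intro h
    rw [hR, hpn]
    exact Dvd.dvd.mul_left (Finset.dvd_prod_of_mem n (Finset.mem_univ h)) _
  obtain ⟨r, hr⟩ : ∃ r : Fin M → ℕ, r = fun h => R / n h := ⟨_, rfl⟩
  have hnr : ∀ h, n h * r h = R := fun h => by rw [hr]; exact Nat.mul_div_cancel' (hdvd h)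
  have hr0 : ∀ h, 0 < r h := by
    intro h
    rcases Nat.eq_zero_or_pos (r h) with h1 | h1
    · have := hnr h
      rw [h1, mul_zero] at this
      omega
    · exact h1
  have hnr' : ∀ h, (n h : ℝ) * r h = R := fun h => by exact_mod_cast hnr h
  have hlac : ∀ h h' : Fin M, h < h' → (r h : ℝ) ≤ σ * r h' := by
    intro h h' hh
    have h1 := hnσ h h' hh
    have h2 : (0 : ℝ) < n h := by exact_mod_cast hn0 h
    have h3 : (0 : ℝ) < r h' := by exact_mod_cast hr0 h'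
    have h4 : (n h : ℝ) * r h ≤ n h * (σ * r h') := by
      rw [hnr' h, ← hnr' h']
      calc (n h' : ℝ) * r h' ≤ (σ * n h) * r h' := mul_le_mul_of_nonneg_right h1 h3.le
        _ = n h * (σ * r h') := by ring
    exact le_of_mul_le_mul_left h4 h2
  obtain ⟨Sr, hSr⟩ : ∃ Sr : ℝ, Sr = ∑ h, (r h : ℝ) := ⟨_, rfl⟩
  have hSr0 : 0 ≤ Sr := by rw [hSr]; exact Finset.sum_nonneg fun h _ => Nat.cast_nonneg _
  have hSrn : Sr * nmin ≤ R * M := by
    rw [hSr, Finset.sum_mul]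
    have h1 : ∀ h : Fin M, (r h : ℝ) * nmin ≤ R := by
      intro h
      rw [← hnr' h, mul_comm (n h : ℝ)]
      exact mul_le_mul_of_nonneg_left (by exact_mod_cast hnmin' h) (Nat.cast_nonneg _)
    calc ∑ h : Fin M, (r h : ℝ) * nmin ≤ ∑ h : Fin M, (R : ℝ) := Finset.sum_le_sum fun h _ => h1 h
      _ = R * M := by simp [mul_comm]
  obtain ⟨P, hP0, hPhom, hPbal, hPbal', hPint, hPsize⟩ := hP r hr0
  obtain ⟨Pt, hPt⟩ : ∃ Pt, Pt = MvPolynomial.bind₁ (fun hJ : Fin M × ι =>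
        ∑ J' : ι, C (Ψ hJ.2 J') * X (hJ.1, J')) P := ⟨_, rfl⟩
  rw [← hPt] at hPbal'
  obtain ⟨E, hE⟩ : ∃ E : ℕ, E = ⌊δ * (R * M)⌋₊ := ⟨_, rfl⟩
  have hEr : (E : ℝ) ≤ δ * (R * M) := by rw [hE]; exact Nat.floor_le (by positivity)
  -- balancedness in terms of n
  have hbalconv : ∀ (j : (Fin M × ι) →₀ ℕ) (J : ι),
      |∑ h, (j (h, J) : ℝ) / r h - M / Fintype.card ι| ≤ δ * M →
      |((∑ h, n h * j (h, J) : ℕ) : ℝ) - T| ≤ E := by
    intro j J h1
    have h2 : ((∑ h, n h * j (h, J) : ℕ) : ℝ) - T =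
        R * (∑ h, (j (h, J) : ℝ) / r h - M / Fintype.card ι) := by
      rw [mul_sub, Finset.mul_sum]
      congr 1
      · push_cast
        refine Finset.sum_congr rfl fun h _ => ?_
        have h3 : (r h : ℝ) ≠ 0 := by exact_mod_cast (hr0 h).ne'
        rw [← hnr' h]
        field_simp
      · rw [← hN]
        field_simp
        linarith
    have h3 : |((∑ h, n h * j (h, J) : ℕ) : ℝ) - T| ≤ δ * (R * M) := by
      rw [h2, abs_mul, abs_of_pos hRr]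
      calc (R : ℝ) * |∑ h, (j (h, J) : ℝ) / r h - M / Fintype.card ι| ≤ R * (δ * M) :=
            mul_le_mul_of_nonneg_left h1 hRr.le
        _ = δ * (R * M) := by ring
    have h4 : |((∑ h, n h * j (h, J) : ℕ) : ℝ) - T| =
        ((((∑ h, n h * j (h, J) : ℕ) : ℤ) - T).natAbs : ℝ) := by
      rw [Nat.cast_natAbs]
      push_cast
      rfl
    rw [h4] at h3 ⊢
    rw [hE]
    exact_mod_cast Nat.le_floor h3
  have hbal := fun j hj J => hbalconv j J (hPbal j hj J)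
  have hbal' := fun j hj J => hbalconv j J (hPbal' j hj J)
  have hdeg' : ∀ j ∈ Pt.support, ∀ p : Fin M × ι, j p ≤ 2 * M * r p.1 := by
    intro j hj p
    have h1 := hPbal' j hj p.2
    have h2 : (j p : ℝ) / r p.1 ≤ ∑ h, (j (h, p.2) : ℝ) / r h :=
      Finset.single_le_sum (f := fun h => (j (h, p.2) : ℝ) / r h) (fun h _ => by positivity)
        (Finset.mem_univ p.1)
    have h3 := (abs_le.mp h1).2
    have h4 : (M : ℝ) / Fintype.card ι ≤ M := by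
      rw [← hN]
      exact div_le_self hMr.le hN1
    have h5 : (j p : ℝ) / r p.1 ≤ 2 * M := by nlinarith
    have h6 : (0 : ℝ) < r p.1 := by exact_mod_cast hr0 p.1
    rw [div_le_iff₀ h6] at h5
    exact_mod_cast h5
  have hjr : ∀ j ∈ P.support, ∀ p : Fin M × ι, j p ≤ r p.1 := by
    intro j hj p
    rw [← hPhom j hj p.1]
    exact Finset.single_le_sum (f := fun J => j (p.1, J)) (fun _ _ => Nat.zero_le _)
      (Finset.mem_univ p.2)
  -- sizes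
  obtain ⟨B, hBdef⟩ : ∃ B : ℝ, B = 2 ^ (∑ p : Fin M × ι, r p.1) * Real.exp (C₀ * Sr) := ⟨_, rfl⟩
  have hB0 : 0 < B := by rw [hBdef]; positivity
  have hBsum : ∀ σ : K →+* ℂ, ∑ j ∈ P.support, ‖σ (P.coeff j)‖ ≤ B := by
    intro σ
    rw [hBdef, hSr]
    exact sum_norm_coeff_le σ P (fun p => r p.1) hjr _ fun j => hPsize j σ
  have hsumr : ((∑ p : Fin M × ι, r p.1 : ℕ) : ℝ) = N * Sr := by
    rw [Fintype.sum_prod_type]
    simp only [Finset.sum_const, Finset.card_univ, smul_eq_mul]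
    push_cast
    rw [hSr, hN, Finset.mul_sum]
  have hlogB : Real.log B ≤ (N + C₀) * Sr := by
    rw [hBdef, Real.log_mul (by positivity) (by positivity), Real.log_exp, Real.log_pow, hsumr]
    have := Real.log_two_lt_d9
    have h1 : 0 ≤ N * Sr := by positivity
    nlinarith
  obtain ⟨B', hB'def⟩ : ∃ B' : ℝ, B' = B * Real.exp (Sr * Real.log (N * U)) := ⟨_, rfl⟩
  have hB'0 : 0 < B' := by rw [hB'def]; positivity
  have hB'sum : ∑ j ∈ Pt.support, ‖φ (Pt.coeff j)‖ ≤ B' := by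
    have hρ : ∀ u : Fin M × ι, (0 : ℝ) ≤ (fun _ => 1 : Fin M × ι → ℝ) u := fun _ => zero_le_one
    have h1 : ∑ j ∈ Pt.support, ‖φ (Pt.coeff j)‖ = wl1 φ (fun _ => 1) Pt := by
      rw [wl1]
      refine Finset.sum_congr rfl fun j _ => ?_
      simp [wmon]
    have h2 : ∀ p : Fin M × ι, wl1 φ (fun _ => 1) (∑ J' : ι, C (Ψ p.2 J') * X (p.1, J') :
        MvPolynomial (Fin M × ι) K) ≤ Real.exp (Real.log (N * U)) := by
      intro p
      rw [Real.exp_log (by linarith)]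
      refine (wl1_sum hρ φ _ _).trans ?_
      calc _ ≤ ∑ J' : ι, U := by
            refine Finset.sum_le_sum fun J' _ => ?_
            refine (wl1_C_mul_le hρ φ _ _).trans ?_
            calc _ ≤ U * 1 := mul_le_mul (hUΨ _ _) (wl1_X_le hρ φ _) (wl1_nonneg hρ φ _)
                  (by linarith)
              _ = U := mul_one _
        _ = N * U := by
            rw [Finset.sum_const, Finset.card_univ, nsmul_eq_mul, hN]
    have h3 := wl1_aeval_le hρ φ _ _ h2 P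
    rw [h1, hPt]
    change wl1 φ (fun _ => 1) (aeval _ P) ≤ _
    refine h3.trans ?_
    have h4 : ∀ j ∈ P.support, ‖φ (P.coeff j)‖ * wmon (fun _ : Fin M × ι =>
        Real.exp (Real.log (N * U))) j ≤ ‖φ (P.coeff j)‖ * Real.exp (Sr * Real.log (N * U)) := by
      intro j hj
      refine mul_le_mul_of_nonneg_left ?_ (norm_nonneg _)
      rw [wmon_exp, Real.exp_le_exp, ← Finset.sum_mul]
      refine mul_le_mul_of_nonneg_right ?_ hlogNU
      rw [Fintype.sum_prod_type, hSr]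
      refine le_of_eq (Finset.sum_congr rfl fun h _ => ?_)
      rw [← hPhom j hj h]
      push_cast
      rfl
    refine (Finset.sum_le_sum h4).trans ?_
    rw [← Finset.sum_mul, hB'def]
    exact mul_le_mul_of_nonneg_right (hBsum φ) (Real.exp_pos _).le
  have hlogB' : Real.log B' = Real.log B + Sr * Real.log (N * U) := by
    rw [hB'def, Real.log_mul hB0.ne' (Real.exp_pos _).ne', Real.log_exp]
  -- the linear forms
  obtain ⟨a, ha⟩ : ∃ a : ι → ℝ, a = fun J => Real.log ‖φ (Λ J)‖ + (s J + ε) := ⟨_, rfl⟩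
  have hZφ' : ∀ h l J, ‖φ (∑ J', L J J' * (Λ J' ^ n h * (Z h l J' : K)))‖ ≤
      Real.exp (n h * a J) := by
    intro h l J
    refine (hZφ h l J).trans (le_of_eq ?_)
    have h1 : 0 < ‖φ (Λ J)‖ := norm_pos_iff.mpr ((map_ne_zero φ).mpr (hΛ J))
    have h2 : a J = Real.log ‖φ (Λ J)‖ + (s J + ε) := by rw [ha]
    have h3 : Real.exp (n h * Real.log ‖φ (Λ J)‖) = ‖φ (Λ J)‖ ^ n h := by
      rw [Real.exp_nat_mul, Real.exp_log h1]
    rw [h2, mul_add (n h : ℝ) (Real.log ‖φ (Λ J)‖) (s J + ε), Real.exp_add, h3]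
  have hCa : ∀ J, Real.log ‖φ (Λ J₁)‖ - Ca ≤ a J := by
    intro J
    rw [ha, hCadef]
    have h1 := (abs_le.mp (hc φ J₁)).2
    have h2 := (abs_le.mp (hc φ J)).1
    have h3 := (abs_le.mp (hsS' J)).1
    have h4 := hε0
    simp only
    linarith
  have hc' : ∀ J, |a J| ≤ c' := by
    intro J
    rw [ha, hc'def, abs_le]
    have h1 := abs_le.mp (hc φ J)
    have h3 := abs_le.mp (hsS' J)
    simp only
    constructor <;> linarith [h1.1, h1.2, h3.1, h3.2]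
  -- vanishing
  have hZint : ∀ h l J, IsIntegral ℤ ((Z h l J : 𝓞 K) : K) := fun h l J =>
    RingOfIntegers.isIntegral_coe _
  obtain ⟨Z', hZ'⟩ : ∃ Z' : Fin M → Fin (Fintype.card ι - 1) → ι → K,
    Z' = fun h l J => (Z h l J : K) := ⟨_, rfl⟩
  have hgood : ∀ κ ∈ (subG Λ n Z' J₁ P).support,
      θ * M < ∑ h, (tpart κ h : ℝ) / r h := by
    intro κ hκ
    by_contra hcon
    push Not at hcon
    refine (mem_support_iff.mp hκ) ?_
    have hSle : ∑ h, (κ (Sum.inl h) : ℝ) * n h ≤ θ * (R * M) := by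
      have h1 : ∑ h, (κ (Sum.inl h) : ℝ) * n h = R * ∑ h, (tpart κ h : ℝ) / r h := by
        rw [Finset.mul_sum]
        refine Finset.sum_congr rfl fun h _ => ?_
        rw [tpart_apply]
        have h3 : (r h : ℝ) ≠ 0 := by exact_mod_cast (hr0 h).ne'
        rw [← hnr' h]
        field_simp
      rw [h1]
      calc (R : ℝ) * ∑ h, (tpart κ h : ℝ) / r h ≤ R * (θ * M) :=
            mul_le_mul_of_nonneg_left hcon hRr.le
        _ = θ * (R * M) := by ring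
    refine coeff_subG_eq_zero φ hφ Λ hΛ c hc L Ψ hΨ U hU1 hUL d hd0 hdΛ hdΛ' n r R T hnr Z'
      (by rw [hZ']; exact hZint) J₁ (β + ε)
      (by rw [hZ']; exact fun σ h1 h2 h l J => hZo h σ h1 h2 l J) a
      (by rw [hZ']; exact hZφ') Ca hCa0 hCa c' hc' P hPhom hPint E hbal Pt hPt hbal' hdeg' B hB0
      hBsum B' hB'0 hB'sum κ (θ * (R * M)) hSle ?_
    rw [← hSr, ← hD, ← hN, ← hk, hkN]
    refine numeric_neg D N β (∑ J, s J) κ₀ e₀ ε δ θ c₁ c₂ c₃ nmin (R * M) Sr E (θ * (R * M)) _ _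
      hN0 hD2 (by rw [hκ₀def]; ring) hκ₀ he₀ hεe hδe hθe hc₁0 hc₂0 hc₃0 hnmin0 hnmin1
      (by positivity) hSrn hEr le_rfl ?_ ?_
    · -- A₁
      have h1 : N * E * (Real.log d + c) ≤ c₁ * E := by
        rw [hc₁def, hc'def]
        have : 0 ≤ N * E := by positivity
        nlinarith
      have h2 : θ * (R * M) * |β + ε| ≤ c₂ * (θ * (R * M)) := by
        rw [mul_comm]
        refine mul_le_mul_of_nonneg_right ?_ (by positivity)
        rw [hc₂def]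
        have h3 := abs_add_le β ε
        rw [abs_of_pos hε0] at h3
        linarith
      have h3 : Real.log B + Sr * Real.log N ≤ c₃ * Sr := by
        have h4 : (N + C₀ + Real.log N) * Sr ≤ c₃ * Sr := by
          refine mul_le_mul_of_nonneg_right ?_ hSr0
          rw [hc₃def]
          have : 0 ≤ 2 * M * N * Real.log (k + U) := by positivity
          linarith
        linarith
      linarith
    · -- A₂
      have h1 : N * E * (Real.log d + c') = c₁ * E := by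
        rw [hc₁def]; ring
      have h2 : θ * (R * M) * Ca ≤ c₂ * (θ * (R * M)) := by
        rw [mul_comm]
        refine mul_le_mul_of_nonneg_right ?_ (by positivity)
        rw [hc₂def]
        have := abs_nonneg β
        linarith
      have h3 : Real.log B' + 2 * M * N * Sr * Real.log (k + U) ≤ c₃ * Sr := by
        rw [hlogB']
        have h4 : (N + C₀ + Real.log (N * U) + 2 * M * N * Real.log (k + U)) * Sr ≤ c₃ * Sr := by
          refine mul_le_mul_of_nonneg_right ?_ hSr0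
          rw [hc₃def]
          linarith
        nlinarith
      have h4 : ∑ J, (T : ℝ) * (a J - Real.log ‖φ (Λ J)‖) = R * M * ((∑ J, s J) / N + ε) := by
        have h5 : ∀ J, (T : ℝ) * (a J - Real.log ‖φ (Λ J)‖) = T * (s J + ε) := by
          intro J
          rw [ha]
          ring
        simp only [h5]
        rw [← Finset.mul_sum, Finset.sum_add_distrib, Finset.sum_const, Finset.card_univ,
          nsmul_eq_mul, ← hN, ← hNT]
        field_simp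
      rw [h4, h1]
      linarith
  -- the polynomial for Roth's lemma
  have hvan := fun x hx => support_of_subG Λ hΛ n Z' (by omega) (by rw [hZ']; exact hZlin) v J₁
    hvJ₁ (by rw [hZ']; exact hvZ) P (fun i => θ * M < ∑ h, (i h : ℝ) / r h) hgood x hx
  obtain ⟨F, hF0, hFcoeff, hFdeg, hFgood⟩ := exists_lowF hJ r P hP0 hPhom
    (fun h J => -(v h J / v h J₁)) (fun i => θ * M < ∑ h, (i h : ℝ) / r h) hvan
  obtain ⟨i, hi, hi'⟩ := hroth r (fun h => -(v h J₂ / v h J₁)) F (Real.exp (C₀ * Sr)) hr0 hlac hF0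
    (fun h => MvPolynomial.degreeOf_le_iff.mpr fun i hi => hFdeg i hi h)
    (by
      rw [← Real.exp_zero, Real.exp_le_exp]
      positivity)
    (by
      intro i
      rcases hFcoeff i with h | ⟨j, _, h⟩
      · rw [h]; exact isIntegral_zero
      · rw [h]; exact hPint j)
    (by
      intro i σ
      rcases hFcoeff i with h | ⟨j, _, h⟩
      · rw [h, map_zero, norm_zero]; exact (Real.exp_pos _).le
      · rw [h, hSr]; exact hPsize j σ)
    (by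
      intro h
      rw [Real.log_exp, ← hSr, Height.logHeight₁_neg]
      have h1 : Height.logHeight₁ (v h J₂ / v h J₁) = Height.logHeight₁ (v h J₁ / v h J₂) := by
        rw [← Height.logHeight₁_inv, inv_div]
      rw [h1]
      have h2 := hvh h
      have h3 : (0 : ℝ) ≤ r h := Nat.cast_nonneg _
      calc CR * (C₀ * Sr + Sr) = (CR * (C₀ + 1)) * Sr := by ring
        _ ≤ (CR * (C₀ + 1)) * (R * M / nmin) := by
            refine mul_le_mul_of_nonneg_left ?_ (by positivity)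
            rwa [le_div_iff₀ hnmin0]
        _ = (CR * (C₀ + 1) * M) * (R / nmin) := by ring
        _ ≤ (h₀ * nmin) * (R / nmin) := mul_le_mul_of_nonneg_right hnmin2 (by positivity)
        _ = R * h₀ := by field_simp
        _ = r h * (n h * h₀) := by rw [← hnr' h]; ring
        _ ≤ r h * Height.logHeight₁ (v h J₁ / v h J₂) := mul_le_mul_of_nonneg_left h2 h3)
  have := hFgood i hi
  linarith

end Main

end Pool.Agent.DD7719
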