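import Pool.Agent.DD7719.MThresh
import Pool.Agent.DD7719.SubSpace

/-! Linear thresholds for the solutions of a fixed simple recurrence with integer initial values. -/

set_option autoImplicit false

namespace Pool.Agent.DD7719.M

open Module NumberField Filter Topology Finset

lemma exists_common_torsion {k : ℕ} (l : Fin k → ℂ) : ∃ N : ℕ, 0 < N ∧ ∀ i j,
    (∃ n : ℕ, 0 < n ∧ l i ^ n = l j ^ n) → l i ^ N = l j ^ N := by
  classical
  have h1 : ∀ i j, ∃ n : ℕ, 0 < n ∧ ((∃ n : ℕ, 0 < n ∧ l i ^ n = l j ^ n) → l i ^ n = l j ^ n) := by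
    intro i j
    by_cases h : ∃ n : ℕ, 0 < n ∧ l i ^ n = l j ^ n
    · obtain ⟨n, hn, h'⟩ := h
      exact ⟨n, hn, fun _ => h'⟩
    · exact ⟨1, one_pos, fun h' => absurd h' h⟩
  choose n hn h using h1
  refine ⟨∏ p : Fin k × Fin k, n p.1 p.2, Finset.prod_pos fun p _ => hn _ _, fun i j hij => ?_⟩
  obtain ⟨c, hc⟩ : n i j ∣ ∏ p : Fin k × Fin k, n p.1 p.2 :=
    Finset.dvd_prod_of_mem (fun p : Fin k × Fin k => n p.1 p.2) (Finset.mem_univ (i, j))
  rw [hc, pow_mul, pow_mul, h i j hij]

/-- Eventually positive integer-initialised solutions of a fixed simple recurrence are positive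
from an index linear in the logarithmic size of the initial values. -/
theorem simple_threshold (k : ℕ) (a : ℕ → ℚ) (l : Fin k → ℂ) (hl : Function.Injective l)
    (halg : ∀ i, IsIntegral ℚ (l i))
    (hroot : ∀ i, l i ^ k = ∑ t ∈ range k, (a t : ℂ) * l i ^ (k - 1 - t))
    (hconj : ∀ i, ∃ i', l i' = (starRingEnd ℂ) (l i)) :
    ∃ κ : ℝ, 0 < κ ∧ ∀ (U : Fin k → ℤ) (v : ℕ → ℚ), (∀ i : Fin k, v i = U i) →
      (∀ n, k ≤ n → v n = ∑ t ∈ range k, a t * v (n - 1 - t)) →
      (∃ M, ∀ n, M ≤ n → 0 < v n) →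
      ∀ n : ℕ, κ * (1 + Real.log (1 + ∑ i, (|U i| : ℝ))) ≤ n → 0 < v n := by
  classical
  obtain ⟨N, hN, htor⟩ := exists_common_torsion l
  -- the number field
  set S : Set ℂ := {Complex.I} ∪ Set.range l with hS
  have hint : ∀ x ∈ S, IsIntegral ℚ x := by
    rintro x (rfl | ⟨i, rfl⟩)
    · refine ⟨Polynomial.X ^ 2 + 1, by monicity!, by simp⟩
    · exact halg i
  have hfinS : Finite S := by
    apply Set.Finite.to_subtype
    exact (Set.finite_singleton _).union (Set.finite_range _)
  let K := IntermediateField.adjoin ℚ S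
  have : FiniteDimensional ℚ K := IntermediateField.finiteDimensional_adjoin hint
  have : NumberField K := ⟨⟩
  have hmem : ∀ x ∈ S, x ∈ K := fun x hx => IntermediateField.subset_adjoin ℚ S hx
  let φ : K →+* ℂ := algebraMap K ℂ
  let lK : Fin k → K := fun i => ⟨l i, hmem _ (Or.inr ⟨i, rfl⟩)⟩
  have hφl : ∀ i, φ (lK i) = l i := fun _ => rfl
  have hφ : ComplexEmbedding.conjugate φ ≠ φ := by
    intro h
    have h1 : φ ⟨Complex.I, hmem _ (Or.inl rfl)⟩ = Complex.I := rfl
    have h2 := congrArg (fun f : K →+* ℂ => f ⟨Complex.I, hmem _ (Or.inl rfl)⟩) h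
    simp only [ComplexEmbedding.conjugate_coe_eq, h1, Complex.conj_I] at h2
    have h3 := congrArg Complex.im h2
    simp at h3
    norm_num at h3
  have hlK : Function.Injective lK := fun i j h => hl (by rw [← hφl, ← hφl, h])
  have hrootK : ∀ i, lK i ^ k = ∑ t ∈ range k, (a t : K) * lK i ^ (k - 1 - t) := by
    intro i
    apply φ.injective
    rw [map_pow, hφl, hroot, map_sum]
    apply Finset.sum_congr rfl
    intro t _
    rw [map_mul, map_pow, hφl, map_ratCast]
  set W : Matrix (Fin k) (Fin k) K := (Matrix.vandermonde lK)⁻¹ with hW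
  have hdet : IsUnit (Matrix.vandermonde lK).det := by
    rw [isUnit_iff_ne_zero]
    exact Matrix.det_vandermonde_ne_zero_iff.mpr hlK
  have hWV : W * Matrix.vandermonde lK = 1 := Matrix.nonsing_inv_mul _ hdet
  have hVW : Matrix.vandermonde lK * W = 1 := Matrix.mul_nonsing_inv _ hdet
  -- coefficients
  have hcoef : ∀ (U : Fin k → ℤ) (v : ℕ → ℚ), (∀ i : Fin k, v i = U i) →
      (∀ n, k ≤ n → v n = ∑ t ∈ range k, a t * v (n - 1 - t)) → ∀ n : ℕ,
      ∑ i, (∑ n', (U n' : K) * W n' i) * lK i ^ n = (v n : K) := by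
    intro U v hv0 hv n
    induction n using Nat.strong_induction_on with
    | _ n ih =>
      rcases lt_or_ge n k with hn | hn
      · have h1 : ∀ n' : Fin k, ∑ i, W n' i * lK i ^ n = if n' = ⟨n, hn⟩ then 1 else 0 := by
          intro n'
          have := congrFun (congrFun hWV n') ⟨n, hn⟩
          rw [Matrix.mul_apply, Matrix.one_apply] at this
          simpa [Matrix.vandermonde_apply] using this
        simp only [Finset.sum_mul]
        rw [Finset.sum_comm]
        simp only [mul_assoc, ← Finset.mul_sum, h1]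
        rw [Finset.sum_eq_single ⟨n, hn⟩]
        · simp only [if_true, mul_one]
          rw [hv0 ⟨n, hn⟩]
          push_cast
          rfl
        · intro b _ hb
          simp [hb]
        · intro h
          exact absurd (Finset.mem_univ _) h
      · rw [hv n hn]
        push_cast
        have h1 : ∀ i, lK i ^ n = ∑ t ∈ range k, (a t : K) * lK i ^ (n - 1 - t) := by
          intro i
          have : lK i ^ n = lK i ^ k * lK i ^ (n - k) := by
            rw [← pow_add]
            congr 1
            omega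
          rw [this, hrootK, Finset.sum_mul]
          apply Finset.sum_congr rfl
          intro t ht
          rw [Finset.mem_range] at ht
          rw [mul_assoc, ← pow_add]
          congr 2
          omega
        have h2 : ∀ t ∈ range k, (a t : K) * (v (n - 1 - t) : K) =
            ∑ i, (∑ n', (U n' : K) * W n' i) * ((a t : K) * lK i ^ (n - 1 - t)) := by
          intro t ht
          rw [Finset.mem_range] at ht
          rw [← ih (n - 1 - t) (by omega), Finset.mul_sum]
          apply Finset.sum_congr rfl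
          intro i _
          ring
        rw [Finset.sum_congr rfl h2, Finset.sum_comm]
        apply Finset.sum_congr rfl
        intro i _
        rw [h1 i, Finset.mul_sum]
  -- the conjugation on indices
  choose si hsi using hconj
  have hsisi : ∀ i, si (si i) = i := by
    intro i
    apply hl
    rw [hsi, hsi, Complex.conj_conj]
  have hCconj : ∀ (U : Fin k → ℤ) (v : ℕ → ℚ), (∀ i : Fin k, v i = U i) →
      (∀ n, k ≤ n → v n = ∑ t ∈ range k, a t * v (n - 1 - t)) → ∀ i,
      φ (∑ n', (U n' : K) * W n' (si i)) = (starRingEnd ℂ) (φ (∑ n', (U n' : K) * W n' i)) := by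
    intro U v hv0 hv
    set Cc : Fin k → ℂ := fun i => φ (∑ n', (U n' : K) * W n' i) with hCc
    have h1 : ∀ n : ℕ, ∑ i, Cc i * l i ^ n = (v n : ℂ) := by
      intro n
      have := congrArg φ (hcoef U v hv0 hv n)
      rw [map_sum, map_ratCast] at this
      rw [← this]
      apply Finset.sum_congr rfl
      intro i _
      rw [map_mul, map_pow, hφl]
    have h2 : ∀ n : ℕ, ∑ i, (starRingEnd ℂ) (Cc (si i)) * l i ^ n = (v n : ℂ) := by
      intro n
      have := congrArg (starRingEnd ℂ) (h1 n)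
      rw [map_sum, map_ratCast] at this
      rw [← this]
      refine Finset.sum_bij' (fun i _ => si i) (fun i _ => si i) ?_ ?_ ?_ ?_ ?_
      · intro i _; exact Finset.mem_univ _
      · intro i _; exact Finset.mem_univ _
      · intro i _; exact hsisi i
      · intro i _; exact hsisi i
      · intro i _
        rw [map_mul, map_pow, hsi, Complex.conj_conj]
    have h3 : (fun i => Cc i - (starRingEnd ℂ) (Cc (si i))) = 0 := by
      apply Matrix.eq_zero_of_vecMul_eq_zero (M := Matrix.vandermonde l)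
        (Matrix.det_vandermonde_ne_zero_iff.mpr hl)
      funext n
      simp only [Matrix.vecMul, dotProduct, Matrix.vandermonde_apply, sub_mul,
        Finset.sum_sub_distrib, Pi.zero_apply]
      rw [h1, h2, sub_self]
    intro i
    have h4 := congrFun h3 i
    simp only [Pi.zero_apply, sub_eq_zero] at h4
    show Cc (si i) = (starRingEnd ℂ) (Cc i)
    rw [h4, Complex.conj_conj]
  -- the nonzero `N`-th powers
  set Λ : Finset K := (Finset.univ.image fun i => lK i ^ N).erase 0 with hΛ
  have hΛmem : ∀ x : Λ, ∃ i, lK i ^ N = x.1 ∧ lK i ≠ 0 := by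
    intro x
    obtain ⟨h1, h2⟩ := Finset.mem_erase.mp x.2
    obtain ⟨i, _, hi⟩ := Finset.mem_image.mp h2
    refine ⟨i, hi, ?_⟩
    intro h
    apply h1
    rw [← hi, h, zero_pow hN.ne']
  have hτex : ∀ x : Λ, ∃ y : Λ, φ y.1 = (starRingEnd ℂ) (φ x.1) := by
    intro x
    obtain ⟨i, hi, hi0⟩ := hΛmem x
    have h1 : φ (lK (si i) ^ N) = (starRingEnd ℂ) (φ x.1) := by
      rw [map_pow, hφl, hsi, ← hi, map_pow, map_pow, hφl]
    refine ⟨⟨lK (si i) ^ N, Finset.mem_erase.mpr ⟨?_, Finset.mem_image_of_mem _ (Finset.mem_univ _)⟩⟩, h1⟩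
    intro h
    rw [h, map_zero] at h1
    have h2 : φ x.1 = 0 := by
      rw [← Complex.conj_conj (φ x.1), ← h1, map_zero]
    exact (Finset.mem_erase.mp x.2).1 ((map_eq_zero φ).mp h2)
  choose τ hτ using hτex
  obtain ⟨K₀, hK₀, hthr⟩ := threshold φ hφ (fun x : Λ => x.1) (fun x => (Finset.mem_erase.mp x.2).1)
    (by
      intro x y hxy n hn h
      apply hxy
      obtain ⟨i, hi, hi0⟩ := hΛmem x
      obtain ⟨j, hj, hj0⟩ := hΛmem y
      have hy0 : y.1 ≠ 0 := (Finset.mem_erase.mp y.2).1
      rw [div_pow, div_eq_one_iff_eq (pow_ne_zero _ hy0), ← hi, ← hj, ← pow_mul, ← pow_mul] at h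
      have h1 := congrArg φ h
      rw [map_pow, map_pow, hφl, hφl] at h1
      have h2 := htor i j ⟨N * n, by positivity, h1⟩
      apply Subtype.ext
      rw [← hi, ← hj]
      apply φ.injective
      rw [map_pow, map_pow, hφl, hφl]
      exact h2) τ hτ
  -- integrality
  obtain ⟨q₀, hq₀, hqint⟩ := exists_denominator (K := K)
    (fun p : Fin (N + 1) × Λ × Fin k => ∑ i with lK i ^ N = p.2.1.1, W p.2.2 i * lK i ^ (p.1 : ℕ))
  set g : Fin (N + 1) × Λ × Fin k → 𝓞 K := fun p => ⟨_, hqint p⟩ with hg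
  have hgK : ∀ p, (g p : K) = (q₀ : K) * ∑ i with lK i ^ N = p.2.1.1, W p.2.2 i * lK i ^ (p.1 : ℕ) :=
    fun p => rfl
  set G : ℝ := ∑ p : Fin (N + 1) × Λ × Fin k, ∑ σ : K →+* ℂ, ‖σ (g p : K)‖ with hG
  have hGle : ∀ p (σ : K →+* ℂ), ‖σ (g p : K)‖ ≤ G := by
    intro p σ
    calc ‖σ (g p : K)‖ ≤ ∑ σ : K →+* ℂ, ‖σ (g p : K)‖ :=
          Finset.single_le_sum (f := fun σ : K →+* ℂ => ‖σ (g p : K)‖)
            (fun _ _ => norm_nonneg _) (Finset.mem_univ σ)
      _ ≤ G := Finset.single_le_sum (f := fun p => ∑ σ : K →+* ℂ, ‖σ (g p : K)‖)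
            (fun _ _ => Finset.sum_nonneg fun _ _ => norm_nonneg _) (Finset.mem_univ p)
  have hG0 : 0 ≤ G := Finset.sum_nonneg fun _ _ => Finset.sum_nonneg fun _ _ => norm_nonneg _
  have hlogG : 0 ≤ Real.log (1 + G) := Real.log_nonneg (by linarith)
  refine ⟨N * (1 + K₀ * (1 + Real.log (1 + G))), by positivity, ?_⟩
  intro U v hv0 hv hev n hn
  have hsU : 0 ≤ ∑ i, (|U i| : ℝ) := Finset.sum_nonneg fun i _ => by positivity
  have hlogU : 0 ≤ Real.log (1 + ∑ i, (|U i| : ℝ)) := Real.log_nonneg (by linarith)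
  set LU := Real.log (1 + ∑ i, (|U i| : ℝ)) with hLU
  have hNR : (1 : ℝ) ≤ N := by exact_mod_cast hN
  have hn1 : 1 ≤ n := by
    have h1 : (1 : ℝ) ≤ N * (1 + K₀ * (1 + Real.log (1 + G))) * (1 + LU) := by
      have e1 : (1 : ℝ) ≤ 1 + K₀ * (1 + Real.log (1 + G)) := by
        have : 0 ≤ K₀ * (1 + Real.log (1 + G)) := by positivity
        linarith
      have e2 : (1 : ℝ) ≤ N * (1 + K₀ * (1 + Real.log (1 + G))) := one_le_mul_of_one_le_of_one_le hNR e1
      exact one_le_mul_of_one_le_of_one_le e2 (by linarith)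
    exact_mod_cast h1.trans hn
  -- the residue class
  set J : ℕ := (n - 1) % N + 1 with hJ
  set m : ℕ := (n - 1) / N with hm
  have hJN : J < N + 1 := by
    have := Nat.mod_lt (n - 1) hN
    omega
  have hnJ : n = J + N * m := by
    have := Nat.mod_add_div (n - 1) N
    rw [← hm] at this
    omega
  have hJ0 : 0 < J := by omega
  set x : Λ → 𝓞 K := fun y => ∑ n', (U n' : 𝓞 K) * g (⟨J, hJN⟩, y, n') with hx
  have hxK : ∀ y, (x y : K) = ∑ n', (U n' : K) * (g (⟨J, hJN⟩, y, n') : K) := by
    intro y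
    simp only [hx]
    push_cast
    rfl
  have hxK2 : ∀ y : Λ, (x y : K) = (q₀ : K) *
      ∑ i with lK i ^ N = y.1, (∑ n', (U n' : K) * W n' i) * lK i ^ J := by
    intro y
    rw [hxK]
    simp only [hgK]
    simp only [Finset.mul_sum, Finset.sum_mul]
    rw [Finset.sum_comm]
    apply Finset.sum_congr rfl
    intro i _
    apply Finset.sum_congr rfl
    intro n' _
    ring
  have hsum : ∀ m : ℕ, ∑ y : Λ, (x y : K) * y.1 ^ m = (q₀ : K) * (v (J + N * m) : K) := by
    intro m
    rw [← hcoef U v hv0 hv (J + N * m)]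
    simp only [hxK2, mul_assoc]
    rw [← Finset.mul_sum]
    congr 1
    have h1 : ∀ y : Λ, (∑ i with lK i ^ N = y.1, (∑ n', (U n' : K) * W n' i) * lK i ^ J) * y.1 ^ m =
        ∑ i with lK i ^ N = y.1, (∑ n', (U n' : K) * W n' i) * lK i ^ (J + N * m) := by
      intro y
      rw [Finset.sum_mul]
      apply Finset.sum_congr rfl
      intro i hi
      rw [← (Finset.mem_filter.mp hi).2, mul_assoc, ← pow_mul, ← pow_add]
    simp only [h1]
    have h2 : ∑ i, (∑ n', (U n' : K) * W n' i) * lK i ^ (J + N * m) =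
        ∑ i with lK i ^ N ≠ 0, (∑ n', (U n' : K) * W n' i) * lK i ^ (J + N * m) := by
      rw [Finset.sum_filter]
      apply Finset.sum_congr rfl
      intro i _
      split_ifs with h
      · rfl
      · push Not at h
        have h3 : lK i = 0 := pow_eq_zero_iff hN.ne' |>.mp h
        rw [h3, zero_pow (by omega), mul_zero]
    rw [h2, ← Finset.sum_fiberwise_of_maps_to (t := Λ) (g := fun i => lK i ^ N)]
    · rw [← Finset.sum_coe_sort Λ]
      apply Finset.sum_congr rfl
      intro y _
      apply Finset.sum_congr _ (fun _ _ => rfl)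
      ext i
      simp only [Finset.mem_filter, Finset.mem_univ, true_and]
      constructor
      · intro h
        exact ⟨by rw [h]; exact (Finset.mem_erase.mp y.2).1, h⟩
      · exact fun h => h.2
    · intro i hi
      exact Finset.mem_erase.mpr ⟨(Finset.mem_filter.mp hi).2,
        Finset.mem_image_of_mem _ (Finset.mem_univ _)⟩
  have hre : ∀ m : ℕ, (φ (∑ y : Λ, (x y : K) * y.1 ^ m)).re = q₀ * (v (J + N * m) : ℝ) := by
    intro m
    rw [hsum, map_mul, map_natCast, map_ratCast]
    have : ((q₀ : ℂ) * (v (J + N * m) : ℂ)) = ((q₀ * (v (J + N * m) : ℝ) : ℝ) : ℂ) := by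
      push_cast
      rfl
    rw [this, Complex.ofReal_re]
  have hq₀R : (0 : ℝ) < q₀ := by exact_mod_cast hq₀
  set B : ℝ := (1 + G) * (1 + ∑ i, (|U i| : ℝ)) with hB
  have hBlog : Real.log B = Real.log (1 + G) + LU := by
    rw [hB, Real.log_mul (by linarith) (by linarith)]
  have h1 := hthr x B (one_le_mul_of_one_le_of_one_le (by linarith) (by linarith)) (by
    intro σ y
    rw [hxK, map_sum]
    refine (norm_sum_le _ _).trans ?_
    have h2 : ∀ n' ∈ (Finset.univ : Finset (Fin k)),
        ‖σ ((U n' : K) * (g (⟨J, hJN⟩, y, n') : K))‖ ≤ |(U n' : ℝ)| * G := by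
      intro n' _
      rw [map_mul, norm_mul, map_intCast, Complex.norm_intCast]
      exact mul_le_mul_of_nonneg_left (hGle _ _) (abs_nonneg _)
    refine (Finset.sum_le_sum h2).trans ?_
    rw [← Finset.sum_mul, hB]
    nlinarith) (by
    intro y
    rw [hxK2, hxK2, map_mul, map_mul, map_natCast, map_mul, map_natCast, map_sum, map_sum, map_sum]
    congr 1
    have hiff : ∀ i, lK (si i) ^ N = (τ y).1 ↔ lK i ^ N = y.1 := by
      intro i
      have e1 : φ (lK (si i) ^ N) = (starRingEnd ℂ) (φ (lK i ^ N)) := by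
        rw [map_pow, map_pow, hφl, hφl, hsi, map_pow]
      constructor
      · intro h
        apply φ.injective
        rw [← Complex.conj_conj (φ (lK i ^ N)), ← e1, h, hτ, Complex.conj_conj]
      · intro h
        apply φ.injective
        rw [e1, h, hτ]
    refine Finset.sum_bij' (fun i _ => si i) (fun i _ => si i) ?_ ?_ ?_ ?_ ?_
    · intro i hi
      rw [Finset.mem_filter] at hi ⊢
      refine ⟨Finset.mem_univ _, ?_⟩
      rw [← hiff, hsisi]
      exact hi.2
    · intro i hi
      rw [Finset.mem_filter] at hi ⊢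
      exact ⟨Finset.mem_univ _, (hiff i).mpr hi.2⟩
    · intro i _
      exact hsisi i
    · intro i _
      exact hsisi i
    · intro i _
      rw [map_mul, map_mul, map_pow, map_pow, map_mul, map_pow, hφl, hφl,
        hCconj U v hv0 hv, Complex.conj_conj, hsi, Complex.conj_conj]) (by
    obtain ⟨M, hM⟩ := hev
    refine ⟨M, fun m' hm' => ?_⟩
    rw [hre]
    have h2 := hM (J + N * m') (by nlinarith)
    have h3 : (0 : ℝ) < (v (J + N * m') : ℝ) := by exact_mod_cast h2
    positivity) m (by
    rw [hBlog]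
    have h2 : (n : ℝ) ≤ N * (m + 1) := by
      have h3 : n ≤ N * (m + 1) := by
        rw [hnJ]
        have : J ≤ N := by omega
        calc J + N * m ≤ N + N * m := by omega
          _ = N * (m + 1) := by ring
      exact_mod_cast h3
    have h4 := hn.trans h2
    have h5 : N * (K₀ * (1 + (Real.log (1 + G) + LU)) + 1) ≤
        N * (1 + K₀ * (1 + Real.log (1 + G))) * (1 + LU) := by
      have e1 : 0 ≤ K₀ * Real.log (1 + G) * LU := by positivity
      have e2 : 0 ≤ LU := hlogU
      have e3 : K₀ * (1 + (Real.log (1 + G) + LU)) + 1 ≤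
          (1 + K₀ * (1 + Real.log (1 + G))) * (1 + LU) := by nlinarith
      calc _ ≤ (N : ℝ) * ((1 + K₀ * (1 + Real.log (1 + G))) * (1 + LU)) :=
            mul_le_mul_of_nonneg_left e3 (by positivity)
        _ = _ := by ring
    have h6 := h5.trans h4
    have h7 := le_of_mul_le_mul_left h6 (by linarith)
    linarith)
  rw [hre, ← hnJ] at h1
  have h2 : (0 : ℝ) < (v n : ℝ) := by
    by_contra hcon
    push Not at hcon
    nlinarith
  exact_mod_cast h2

end Pool.Agent.DD7719.M
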