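import Pool.Agent.DD7719.MLower
import Pool.Agent.DD7719.Kronecker

/-! Eventually positive sums `∑ x_i λ_i^n` (fixed `λ_i`, moving `x_i`) are positive from an index
linear in the logarithmic size of the `x_i`. -/

namespace Pool.Agent.DD7719.M

open Module NumberField Filter Topology

variable {K : Type} [Field K] [NumberField K]

/-- the moving lower bound for a general finite index type -/
theorem moving_bound' {ι : Type*} [Fintype ι] [Nonempty ι] (φ : K →+* ℂ)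
    (hφ : ComplexEmbedding.conjugate φ ≠ φ) (lb : ι → K) (hlb : ∀ i, lb i ≠ 0) (ρ : ℝ)
    (hmod : ∀ i, ‖φ (lb i)‖ = ρ)
    (hnt : ∀ i j, i ≠ j → ∀ n : ℕ, 0 < n → (lb i / lb j) ^ n ≠ 1) (ε : ℝ) (hε : 0 < ε) :
    ∃ δ : ℝ, 0 < δ ∧ ∃ n₀ : ℕ, ∀ n : ℕ, n₀ ≤ n → ∀ x : ι → 𝓞 K, x ≠ 0 →
      (∀ (σ : K →+* ℂ) i, ‖σ (x i : K)‖ ≤ Real.exp (δ * n)) →
      ρ ^ n * Real.exp (-(ε * n)) < ‖φ (∑ i, (x i : K) * lb i ^ n)‖ := by
  classical
  obtain ⟨m, hm⟩ : ∃ m, Fintype.card ι = m + 1 :=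
    ⟨Fintype.card ι - 1, by have := Fintype.card_pos (α := ι); omega⟩
  let e : ι ≃ Fin (m + 1) := Fintype.equivFinOfCardEq hm
  obtain ⟨δ, hδ, n₀, hn₀⟩ := moving_bound φ hφ (fun _ => 1) (fun i => lb (e.symm i))
    (fun _ => one_ne_zero) (fun i => hlb _) (fun i => by rw [hmod, hmod])
    (fun i j hij => hnt _ _ fun h => hij (e.symm.injective h)) ε hε
  refine ⟨δ, hδ, n₀, fun n hn x hx hb => ?_⟩
  have h1 := hn₀ n hn (fun i => x (e.symm i)) (by
    intro h
    apply hx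
    funext i
    have := congrFun h (e i)
    simpa using this) (fun σ i => hb σ _)
  have h2 : φ (∑ i, (x i : K) * lb i ^ n) = φ (lb (e.symm 0)) ^ n *
      φ (∑ k, 1 * (lb (e.symm k) / lb (e.symm 0)) ^ n * (x (e.symm k) : K)) := by
    rw [← Equiv.sum_comp e.symm (fun i => (x i : K) * lb i ^ n), ← map_pow, ← map_mul,
      Finset.mul_sum]
    congr 1
    apply Finset.sum_congr rfl
    intro i _
    rw [div_pow]
    have := pow_ne_zero n (hlb (e.symm 0))
    field_simp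
  rw [h2, norm_mul, norm_pow, hmod]
  apply mul_lt_mul_of_pos_left h1
  rw [← hmod (e.symm 0)]
  exact pow_pos (norm_pos_iff.mpr ((map_ne_zero φ).mpr (hlb _))) _

/-- unimodular numbers return simultaneously -/
lemma simul_return {ι : Type*} [Fintype ι] (ν : ι → ℂ) (hν : ∀ i, ‖ν i‖ = 1) (N : ℕ) (η : ℝ)
    (hη : 0 < η) : ∃ t : ℕ, N ≤ t ∧ ∀ i, ‖ν i ^ t - 1‖ < η := by
  let e := Fintype.equivFin ι
  obtain ⟨n, hn, h⟩ := kronecker (fun i => ν (e.symm i)) (fun _ => 1) (fun i => hν _)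
    (fun _ => norm_one) (fun g _ => by simp) 1 one_pos N η hη
  refine ⟨n, hn, fun i => ?_⟩
  have := h (e i)
  simpa using this

/-- Eventually positive sums `∑ x_i λ_i^n` with fixed `λ_i` are positive from an index linear in
the logarithmic size of the algebraic integers `x_i`. -/
theorem threshold {ι : Type*} [Fintype ι] (φ : K →+* ℂ)
    (hφ : ComplexEmbedding.conjugate φ ≠ φ) (lb : ι → K) (hlb : ∀ i, lb i ≠ 0)
    (hnt : ∀ i j, i ≠ j → ∀ n : ℕ, 0 < n → (lb i / lb j) ^ n ≠ 1)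
    (τ : ι → ι) (hτ : ∀ i, φ (lb (τ i)) = (starRingEnd ℂ) (φ (lb i))) :
    ∃ K₀ : ℝ, 0 < K₀ ∧ ∀ (x : ι → 𝓞 K) (B : ℝ), 1 ≤ B →
      (∀ (σ : K →+* ℂ) i, ‖σ (x i : K)‖ ≤ B) →
      (∀ i, φ (x (τ i) : K) = (starRingEnd ℂ) (φ (x i : K))) →
      (∃ M : ℕ, ∀ m : ℕ, M ≤ m → 0 < (φ (∑ i, (x i : K) * lb i ^ m)).re) →
      ∀ m : ℕ, K₀ * (1 + Real.log B) ≤ m → 0 < (φ (∑ i, (x i : K) * lb i ^ m)).re := by
  classical
  have hinj : ∀ i j, lb i = lb j → i = j := by
    intro i j h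
    by_contra hij
    apply hnt i j hij 1 one_pos
    rw [h, div_self (hlb j), one_pow]
  have hττ : ∀ i, τ (τ i) = i := by
    intro i
    apply hinj
    apply φ.injective
    rw [hτ, hτ, Complex.conj_conj]
  have hpos : ∀ i, 0 < ‖φ (lb i)‖ := fun i => norm_pos_iff.mpr ((map_ne_zero φ).mpr (hlb i))
  -- the gap between moduli
  obtain ⟨ε, hε, hgap⟩ : ∃ ε : ℝ, 0 < ε ∧ ∀ i j, ‖φ (lb i)‖ < ‖φ (lb j)‖ →
      ‖φ (lb i)‖ ≤ ‖φ (lb j)‖ * Real.exp (-(2 * ε)) := by
    rcases isEmpty_or_nonempty ι with hemp | hne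
    · exact ⟨1, one_pos, fun i => isEmptyElim i⟩
    let g : ι × ι → ℝ := fun y =>
      if ‖φ (lb y.1)‖ < ‖φ (lb y.2)‖ then Real.log ‖φ (lb y.2)‖ - Real.log ‖φ (lb y.1)‖ else 1
    obtain ⟨y₀, hy₀⟩ := Finite.exists_min g
    have hg0 : 0 < g y₀ := by
      by_cases h : ‖φ (lb y₀.1)‖ < ‖φ (lb y₀.2)‖
      · simp only [g, h, if_true]
        have := Real.log_lt_log (hpos y₀.1) h
        linarith
      · simp only [g, h, if_false]
        exact one_pos
    refine ⟨g y₀ / 2, by positivity, fun i j hij => ?_⟩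
    have h1 := hy₀ (i, j)
    have h2 : g (i, j) = Real.log ‖φ (lb j)‖ - Real.log ‖φ (lb i)‖ := by simp only [g, hij, if_true]
    rw [h2] at h1
    rw [← Real.log_le_log_iff (hpos i) (mul_pos (hpos j) (Real.exp_pos _)),
      Real.log_mul (hpos j).ne' (Real.exp_pos _).ne', Real.log_exp]
    linarith
  -- the moving bounds
  have hmb : ∀ j : ι, ∃ δ : ℝ, 0 < δ ∧ ∃ n₀ : ℕ, ∀ n : ℕ, n₀ ≤ n →
      ∀ x : {i // ‖φ (lb i)‖ = ‖φ (lb j)‖} → 𝓞 K, x ≠ 0 →
      (∀ (σ : K →+* ℂ) i, ‖σ (x i : K)‖ ≤ Real.exp (δ * n)) →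
      ‖φ (lb j)‖ ^ n * Real.exp (-(ε * n)) < ‖φ (∑ i, (x i : K) * lb i.1 ^ n)‖ := by
    intro j
    have : Nonempty {i // ‖φ (lb i)‖ = ‖φ (lb j)‖} := ⟨⟨j, rfl⟩⟩
    exact moving_bound' φ hφ (fun i : {i // ‖φ (lb i)‖ = ‖φ (lb j)‖} => lb i.1) (fun i => hlb _) _
      (fun i => i.2) (fun i i' h => hnt _ _ fun h' => h (Subtype.ext h')) ε hε
  choose δ hδ n₀ hmb using hmb
  obtain ⟨δ₀, hδ₀, hδle⟩ : ∃ δ₀ : ℝ, 0 < δ₀ ∧ ∀ j, δ₀ ≤ δ j := by
    rcases isEmpty_or_nonempty ι with hemp | hne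
    · exact ⟨1, one_pos, fun i => isEmptyElim i⟩
    · obtain ⟨j₀, hj₀⟩ := Finite.exists_min δ
      exact ⟨δ j₀, hδ j₀, hj₀⟩
  set n₁ : ℕ := ∑ j, n₀ j with hn₁
  have hn₁le : ∀ j, n₀ j ≤ n₁ := fun j => Finset.single_le_sum (fun _ _ => Nat.zero_le _)
    (Finset.mem_univ j)
  set c : ℝ := (Fintype.card ι : ℝ) with hc
  have hc0 : 0 ≤ c := Nat.cast_nonneg _
  have hlogc : 0 ≤ Real.log (c + 1) := Real.log_nonneg (by linarith)
  refine ⟨n₁ + 1 / δ₀ + (1 + Real.log (c + 1)) / ε, by positivity, ?_⟩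
  intro x B hB hxB hxτ hev
  obtain ⟨M, hM⟩ := hev
  have hB0 : 0 < B := by linarith
  have hlogB : 0 ≤ Real.log B := Real.log_nonneg hB
  have hx0 : ∃ i, x i ≠ 0 := by
    by_contra hcon
    push Not at hcon
    have := hM M le_rfl
    simp [hcon] at this
  -- the top modulus
  obtain ⟨j₀, hj₀x, hj₀⟩ : ∃ j₀, x j₀ ≠ 0 ∧ ∀ i, x i ≠ 0 → ‖φ (lb i)‖ ≤ ‖φ (lb j₀)‖ := by
    obtain ⟨i₁, hi₁⟩ := hx0
    obtain ⟨j₀, hj₀, h⟩ := (Finset.univ.filter fun i => x i ≠ 0).exists_max_image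
      (fun i => ‖φ (lb i)‖) ⟨i₁, by simp [hi₁]⟩
    exact ⟨j₀, (Finset.mem_filter.mp hj₀).2, fun i hi => h i (by simp [hi])⟩
  set ρ := ‖φ (lb j₀)‖ with hρ
  have hρ0 : 0 < ρ := hpos j₀
  set Dm : ℕ → ℂ := fun m => ∑ i with ‖φ (lb i)‖ = ρ, φ (x i : K) * φ (lb i) ^ m with hDm
  set Tl : ℕ → ℂ := fun m => ∑ i with ¬ ‖φ (lb i)‖ = ρ, φ (x i : K) * φ (lb i) ^ m with hTl
  have hsplit : ∀ m, φ (∑ i, (x i : K) * lb i ^ m) = Dm m + Tl m := by
    intro m
    rw [map_sum, hDm, hTl, Finset.sum_filter_add_sum_filter_not]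
    apply Finset.sum_congr rfl
    intro i _
    rw [map_mul, map_pow]
  have hTlb : ∀ m : ℕ, ‖Tl m‖ ≤ c * B * (ρ ^ m * Real.exp (-(2 * ε * m))) := by
    intro m
    rw [hTl]
    refine (norm_sum_le _ _).trans ?_
    have h1 : ∀ i ∈ Finset.univ.filter (fun i => ¬ ‖φ (lb i)‖ = ρ),
        ‖φ (x i : K) * φ (lb i) ^ m‖ ≤ B * (ρ ^ m * Real.exp (-(2 * ε * m))) := by
      intro i hi
      have hi' := (Finset.mem_filter.mp hi).2
      by_cases hxi : x i = 0
      · rw [hxi]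
        simp only [map_zero, zero_mul, norm_zero]
        positivity
      · have h2 := hgap i j₀ (lt_of_le_of_ne (hj₀ i hxi) hi')
        rw [norm_mul, norm_pow]
        have h3 : ‖φ (lb i)‖ ^ m ≤ ρ ^ m * Real.exp (-(2 * ε * m)) := by
          calc ‖φ (lb i)‖ ^ m ≤ (ρ * Real.exp (-(2 * ε))) ^ m :=
                pow_le_pow_left₀ (norm_nonneg _) h2 m
            _ = ρ ^ m * Real.exp (-(2 * ε * m)) := by
                rw [mul_pow, ← Real.exp_nat_mul]
                congr 2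
                ring
        exact mul_le_mul (hxB φ i) h3 (by positivity) hB0.le
    refine (Finset.sum_le_sum h1).trans ?_
    rw [Finset.sum_const, nsmul_eq_mul, mul_assoc c B]
    apply mul_le_mul_of_nonneg_right _ (by positivity)
    rw [hc]
    exact_mod_cast Finset.card_le_univ _
  have hreal : ∀ m, (starRingEnd ℂ) (Dm m) = Dm m := by
    intro m
    rw [hDm, map_sum]
    refine Finset.sum_bij' (fun i _ => τ i) (fun i _ => τ i) ?_ ?_ ?_ ?_ ?_
    · intro i hi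
      have := (Finset.mem_filter.mp hi).2
      rw [Finset.mem_filter]
      exact ⟨Finset.mem_univ _, by rw [hτ, RCLike.norm_conj]; exact this⟩
    · intro i hi
      have := (Finset.mem_filter.mp hi).2
      rw [Finset.mem_filter]
      exact ⟨Finset.mem_univ _, by rw [hτ, RCLike.norm_conj]; exact this⟩
    · intro i _
      exact hττ i
    · intro i _
      exact hττ i
    · intro i _
      rw [map_mul, map_pow, hτ, hxτ]
  have hDre : ∀ m, Dm m = ((Dm m).re : ℂ) := fun m => (Complex.conj_eq_iff_real.mp (hreal m)).elim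
    fun r hr => by rw [hr, Complex.ofReal_re]
  have hsB : ∀ η : ℝ, 0 ≤ η → ∀ (y : ι → ℂ), (∀ i, ‖φ (lb i)‖ = ρ → ‖y i‖ ≤ η) →
      ‖∑ i with ‖φ (lb i)‖ = ρ, φ (x i : K) * y i‖ ≤ c * B * η := by
    intro η hη y hy
    refine (norm_sum_le _ _).trans ?_
    have h1 : ∀ i ∈ Finset.univ.filter (fun i => ‖φ (lb i)‖ = ρ), ‖φ (x i : K) * y i‖ ≤ B * η := by
      intro i hi
      rw [norm_mul]
      exact mul_le_mul (hxB φ i) (hy i (Finset.mem_filter.mp hi).2) (norm_nonneg _) hB0.le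
    refine (Finset.sum_le_sum h1).trans ?_
    rw [Finset.sum_const, nsmul_eq_mul, mul_assoc c B]
    apply mul_le_mul_of_nonneg_right _ (by positivity)
    rw [hc]
    exact_mod_cast Finset.card_le_univ _
  -- the dominant part is nonnegative
  have hDnn : ∀ m, 0 ≤ (Dm m).re := by
    intro m
    by_contra hneg
    push Not at hneg
    set κ : ℝ := -(Dm m).re / ρ ^ m with hκ
    have hκ0 : 0 < κ := by
      rw [hκ]
      exact div_pos (by linarith) (by positivity)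
    have hκρ : (Dm m).re = -κ * ρ ^ m := by
      rw [hκ]
      field_simp
    have htail : Tendsto (fun n : ℕ => c * B * Real.exp (-(2 * ε * n))) atTop (𝓝 0) := by
      rw [show (0 : ℝ) = c * B * 0 by ring]
      apply Tendsto.const_mul
      apply Real.tendsto_exp_atBot.comp
      apply tendsto_neg_atTop_atBot.comp
      exact tendsto_natCast_atTop_atTop.const_mul_atTop (by linarith)
    obtain ⟨N₁, hN₁⟩ := Filter.eventually_atTop.mp (htail.eventually_lt_const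
      (show (0 : ℝ) < κ / 4 by positivity))
    obtain ⟨t, ht, hret⟩ := simul_return (fun i : {i // ‖φ (lb i)‖ = ρ} => φ (lb i.1) / ρ)
      (fun i => by
        rw [norm_div, i.2, Complex.norm_real, Real.norm_of_nonneg hρ0.le, div_self hρ0.ne'])
      (M + N₁) (κ / (4 * (c * B + 1))) (by positivity)
    have h1 := hM (m + t) (by omega)
    have h2 := hN₁ (m + t) (by omega)
    rw [hsplit, Complex.add_re] at h1
    have h3 := (Complex.re_le_norm (Tl (m + t))).trans (hTlb (m + t))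
    -- the difference
    have hρC : (ρ : ℂ) ≠ 0 := by exact_mod_cast hρ0.ne'
    have h4 : Dm (m + t) - ρ ^ t * Dm m = ρ ^ (m + t) * ∑ i with ‖φ (lb i)‖ = ρ,
        φ (x i : K) * ((φ (lb i) / ρ) ^ m * ((φ (lb i) / ρ) ^ t - 1)) := by
      rw [hDm]
      simp only
      rw [Finset.mul_sum, Finset.mul_sum, ← Finset.sum_sub_distrib]
      apply Finset.sum_congr rfl
      intro i _
      rw [div_pow, div_pow, pow_add, pow_add]
      field_simp
    have h5 : ‖∑ i with ‖φ (lb i)‖ = ρ, φ (x i : K) * ((φ (lb i) / ρ) ^ m *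
        ((φ (lb i) / ρ) ^ t - 1))‖ ≤ c * B * (κ / (4 * (c * B + 1))) := by
      apply hsB _ (by positivity)
      intro i hi
      rw [norm_mul, norm_pow, norm_div, hi, Complex.norm_real, Real.norm_of_nonneg hρ0.le,
        div_self hρ0.ne', one_pow, one_mul]
      exact (hret ⟨i, hi⟩).le
    have h6 : c * B * (κ / (4 * (c * B + 1))) ≤ κ / 4 := by
      have h7 : c * B * (κ / (4 * (c * B + 1))) = (c * B / (c * B + 1)) * (κ / 4) := by
        have : c * B + 1 ≠ 0 := by positivity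
        field_simp
      rw [h7]
      have h8 : c * B / (c * B + 1) ≤ 1 := by
        rw [div_le_one (by positivity)]
        linarith
      nlinarith
    have h7 : (Dm (m + t)).re ≤ ρ ^ t * (Dm m).re + ρ ^ (m + t) * (κ / 4) := by
      have h8 := Complex.re_le_norm (Dm (m + t) - ρ ^ t * Dm m)
      rw [h4] at h8
      rw [norm_mul, norm_pow, Complex.norm_real, Real.norm_of_nonneg hρ0.le] at h8
      have h9 : (Dm (m + t) - (ρ : ℂ) ^ t * Dm m).re = (Dm (m + t)).re - ρ ^ t * (Dm m).re := by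
        rw [Complex.sub_re, ← Complex.ofReal_pow, Complex.re_ofReal_mul]
      rw [← h4, h9] at h8
      have h10 : ρ ^ (m + t) * ‖∑ i with ‖φ (lb i)‖ = ρ, φ (x i : K) * ((φ (lb i) / ρ) ^ m *
        ((φ (lb i) / ρ) ^ t - 1))‖ ≤ ρ ^ (m + t) * (κ / 4) :=
        mul_le_mul_of_nonneg_left (h5.trans h6) (by positivity)
      linarith
    have h8 : c * B * (ρ ^ (m + t) * Real.exp (-(2 * ε * (m + t : ℕ)))) ≤ ρ ^ (m + t) * (κ / 4) := by
      have : c * B * (ρ ^ (m + t) * Real.exp (-(2 * ε * (m + t : ℕ)))) =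
          ρ ^ (m + t) * (c * B * Real.exp (-(2 * ε * (m + t : ℕ)))) := by ring
      rw [this]
      exact mul_le_mul_of_nonneg_left h2.le (by positivity)
    have h9 : ρ ^ t * (Dm m).re = -κ * ρ ^ (m + t) := by
      rw [hκρ, pow_add]
      ring
    have h10 : 0 < κ * ρ ^ (m + t) := by positivity
    linarith
  intro m hm
  have hm1 : (n₁ : ℝ) ≤ m := by
    refine le_trans ?_ hm
    have e1 : (0 : ℝ) ≤ n₁ := Nat.cast_nonneg _
    have e2 : 0 ≤ 1 / δ₀ := by positivity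
    have e3 : 0 ≤ (1 + Real.log (c + 1)) / ε := by positivity
    nlinarith
  have hm2 : Real.log B ≤ δ₀ * m := by
    have e1 : (0 : ℝ) ≤ n₁ := Nat.cast_nonneg _
    have e3 : 0 ≤ (1 + Real.log (c + 1)) / ε := by positivity
    have e4 : 1 / δ₀ * (1 + Real.log B) ≤ m := by
      refine le_trans ?_ hm
      apply mul_le_mul_of_nonneg_right _ (by linarith)
      linarith
    have e5 : δ₀ * (1 / δ₀ * (1 + Real.log B)) ≤ δ₀ * m := mul_le_mul_of_nonneg_left e4 hδ₀.le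
    have e6 : δ₀ * (1 / δ₀ * (1 + Real.log B)) = 1 + Real.log B := by field_simp
    linarith
  have hm3 : Real.log (c + 1) + Real.log B ≤ ε * m := by
    have e1 : (0 : ℝ) ≤ n₁ := Nat.cast_nonneg _
    have e2 : 0 ≤ 1 / δ₀ := by positivity
    have e4 : (1 + Real.log (c + 1)) / ε * (1 + Real.log B) ≤ m := by
      refine le_trans ?_ hm
      apply mul_le_mul_of_nonneg_right _ (by linarith)
      linarith
    have e5 := mul_le_mul_of_nonneg_left e4 hε.le
    have e6 : ε * ((1 + Real.log (c + 1)) / ε * (1 + Real.log B)) =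
        (1 + Real.log (c + 1)) * (1 + Real.log B) := by field_simp
    have e7 : Real.log (c + 1) + Real.log B ≤ (1 + Real.log (c + 1)) * (1 + Real.log B) := by
      nlinarith [mul_nonneg hlogc hlogB]
    linarith
  have hBexp : B ≤ Real.exp (δ j₀ * m) := by
    rw [← Real.log_le_iff_le_exp hB0]
    refine hm2.trans ?_
    exact mul_le_mul_of_nonneg_right (hδle j₀) (Nat.cast_nonneg _)
  have hD := hmb j₀ m (by
    have : n₁ ≤ m := by exact_mod_cast hm1
    exact (hn₁le j₀).trans this) (fun i => x i.1) (by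
    intro h
    exact hj₀x (congrFun h ⟨j₀, rfl⟩)) (fun σ i => (hxB σ _).trans hBexp)
  have hDeq : φ (∑ i : {i // ‖φ (lb i)‖ = ‖φ (lb j₀)‖}, (x i.1 : K) * lb i.1 ^ m) = Dm m := by
    rw [map_sum, hDm]
    simp only
    rw [← Finset.sum_subtype_eq_sum_filter]
    have h1 : (Finset.univ.subtype fun i => ‖φ (lb i)‖ = ρ) = Finset.univ := by
      ext i
      simp
    rw [h1]
    apply Finset.sum_congr rfl
    intro i _
    rw [map_mul, map_pow]
  rw [hDeq, hDre m, Complex.norm_real, Real.norm_of_nonneg (hDnn m)] at hD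
  rw [hsplit, Complex.add_re]
  have h1 := (abs_le.mp ((Complex.abs_re_le_norm (Tl m)).trans (hTlb m))).1
  have h2 : c * B * (ρ ^ m * Real.exp (-(2 * ε * m))) ≤ ρ ^ m * Real.exp (-(ε * m)) := by
    have h3 : c * B ≤ Real.exp (ε * m) := by
      have h4 : c * B ≤ (c + 1) * B := by nlinarith
      refine h4.trans ?_
      rw [← Real.log_le_iff_le_exp (by positivity), Real.log_mul (by positivity) hB0.ne']
      exact hm3
    calc c * B * (ρ ^ m * Real.exp (-(2 * ε * m)))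
        ≤ Real.exp (ε * m) * (ρ ^ m * Real.exp (-(2 * ε * m))) :=
          mul_le_mul_of_nonneg_right h3 (by positivity)
      _ = ρ ^ m * Real.exp (-(ε * m)) := by
          rw [mul_left_comm, ← Real.exp_add]
          congr 2
          ring
  linarith

end Pool.Agent.DD7719.M
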