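import Pool.Agent.DD7719.MinkowskiK

/-! Successive minima of `𝓞 K ^ N`. -/

namespace Pool.Agent.DD7719.M

open Module Matrix NumberField

theorem exists_seq_prefix {X : Type*} (P : ∀ n : ℕ, (Fin n → X) → X → Prop)
    (h : ∀ n p, ∃ x, P n p x) : ∃ y : ℕ → X, ∀ n, P n (fun l => y l) (y n) := by
  choose F hF using h
  let G : ∀ n, (∀ m, m < n → X) → X := fun n ih => F n (fun l => ih l l.2)
  refine ⟨fun n => WellFounded.fix Nat.lt_wfRel.wf G n, fun n => ?_⟩
  have : WellFounded.fix Nat.lt_wfRel.wf G n =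
      F n (fun l => WellFounded.fix Nat.lt_wfRel.wf G l) := by
    rw [WellFounded.fix_eq]
  show P n (fun l => WellFounded.fix Nat.lt_wfRel.wf G l) (WellFounded.fix Nat.lt_wfRel.wf G n)
  rw [this]
  exact hF _ _

variable {K : Type*} [Field K] [NumberField K] {N : ℕ}

/-- the underlying vector over `K`. -/
def toK (y : Fin N → 𝓞 K) : Fin N → K := fun i => (y i : K)

lemma finite_nrm_le (A : (K →+* ℂ) → Matrix (Fin N) (Fin N) ℂ)
    (hconj : ∀ σ j i, (starRingEnd ℂ) (A σ j i) = A (ComplexEmbedding.conjugate σ) j i)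
    (hdet : ∀ σ, (A σ).det ≠ 0) (R : ℝ) :
    {y : Fin N → 𝓞 K | nrm A (toK y) ≤ R}.Finite := by
  classical
  obtain ⟨B, hB, -, hBn⟩ := exists_real_mat A hconj hdet
  let c : ℝ := ∑ a, ∑ b, |B⁻¹ a b| * Real.sqrt R
  let S : Set (Fin N × (K →+* ℂ) → ℤ) := Set.Icc (fun _ => -⌈c⌉) (fun _ => ⌈c⌉)
  have hS : S.Finite := Set.finite_Icc _ _
  refine (hS.image (ofCoord (K := K) (N := N))).subset ?_
  intro y hy
  obtain ⟨x, rfl⟩ := ofCoord_surjective y
  refine ⟨x, ?_, rfl⟩
  have hy' : ∑ i, (B.mulVec (fun j => (x j : ℝ)) i) ^ 2 ≤ R := by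
    rw [← hBn]
    exact hy
  have hR : 0 ≤ R := le_trans (Finset.sum_nonneg fun i _ => sq_nonneg _) hy'
  have hb : ∀ b, |B.mulVec (fun j => (x j : ℝ)) b| ≤ Real.sqrt R := by
    intro b
    apply Real.abs_le_sqrt
    exact le_trans (Finset.single_le_sum (f := fun i => (B.mulVec (fun j => (x j : ℝ)) i) ^ 2)
      (fun i _ => sq_nonneg _) (Finset.mem_univ b)) hy'
  have hx : ∀ a, |(x a : ℝ)| ≤ c := by
    intro a
    have h1 : (fun j => (x j : ℝ)) = B⁻¹.mulVec (B.mulVec (fun j => (x j : ℝ))) := by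
      rw [Matrix.mulVec_mulVec, Matrix.nonsing_inv_mul _ (Ne.isUnit hB), Matrix.one_mulVec]
    have h2 := congrFun h1 a
    rw [h2]
    calc |B⁻¹.mulVec (B.mulVec (fun j => (x j : ℝ))) a|
        ≤ ∑ b, |B⁻¹ a b * B.mulVec (fun j => (x j : ℝ)) b| := Finset.abs_sum_le_sum_abs _ _
      _ ≤ ∑ b, |B⁻¹ a b| * Real.sqrt R := by
          apply Finset.sum_le_sum
          intro b _
          rw [abs_mul]
          exact mul_le_mul_of_nonneg_left (hb b) (abs_nonneg _)
      _ ≤ c := by
          apply Finset.single_le_sum (f := fun a => ∑ b, |B⁻¹ a b| * Real.sqrt R)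
            (fun i _ => Finset.sum_nonneg fun b _ => by positivity) (Finset.mem_univ a)
  constructor
  · intro a
    have := (abs_le.mp (hx a)).1
    have h3 : (-⌈c⌉ : ℤ) ≤ x a := by
      have h4 : (-(⌈c⌉ : ℤ) : ℝ) ≤ x a := le_trans (neg_le_neg (Int.le_ceil c)) this
      exact_mod_cast h4
    exact h3
  · intro a
    have := (abs_le.mp (hx a)).2
    have h4 : (x a : ℝ) ≤ ⌈c⌉ := le_trans this (Int.le_ceil c)
    exact_mod_cast h4

lemma exists_int_scale (x : Fin N → K) : ∃ n : ℤ, n ≠ 0 ∧ ∃ y : Fin N → 𝓞 K,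
    toK y = (n : K) • x := by
  classical
  obtain ⟨n, hn, h⟩ := exists_integral_multiples ℤ ℚ (L := K) (Finset.univ.image x)
  refine ⟨n, hn, fun i => ⟨(n : K) * x i, ?_⟩, ?_⟩
  · have := h (x i) (Finset.mem_image_of_mem _ (Finset.mem_univ i))
    rw [zsmul_eq_mul] at this
    exact this
  · funext i
    rfl

lemma exists_min (A : (K →+* ℂ) → Matrix (Fin N) (Fin N) ℂ)
    (hconj : ∀ σ j i, (starRingEnd ℂ) (A σ j i) = A (ComplexEmbedding.conjugate σ) j i)
    (hdet : ∀ σ, (A σ).det ≠ 0) (S : Submodule K (Fin N → K)) (hS : S ≠ ⊤) :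
    ∃ y : Fin N → 𝓞 K, toK y ∉ S ∧ ∀ z : Fin N → 𝓞 K, toK z ∉ S →
      nrm A (toK y) ≤ nrm A (toK z) := by
  obtain ⟨x, -, hx⟩ := SetLike.exists_of_lt (lt_top_iff_ne_top.mpr hS)
  obtain ⟨n, hn, y0, hy0⟩ := exists_int_scale x
  have hy0S : toK y0 ∉ S := by
    rw [hy0]
    intro h
    apply hx
    have := S.smul_mem ((n : K)⁻¹) h
    rwa [smul_smul, inv_mul_cancel₀ (by exact_mod_cast hn), one_smul] at this
  have hfin : {y : Fin N → 𝓞 K | toK y ∉ S ∧ nrm A (toK y) ≤ nrm A (toK y0)}.Finite :=
    (finite_nrm_le A hconj hdet (nrm A (toK y0))).subset fun y hy => hy.2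
  obtain ⟨y, hy, hmin⟩ := Set.exists_min_image _ (fun y => nrm A (toK y)) hfin ⟨y0, hy0S, le_rfl⟩
  refine ⟨y, hy.1, fun z hz => ?_⟩
  by_cases h : nrm A (toK z) ≤ nrm A (toK y0)
  · exact hmin z ⟨hz, h⟩
  · exact (hmin y0 ⟨hy0S, le_rfl⟩).trans (not_le.mp h).le

/-- span of the first `n` members of a sequence -/
def spanLT (y : ℕ → Fin N → 𝓞 K) (n : ℕ) : Submodule K (Fin N → K) :=
  Submodule.span K (Set.range fun l : Fin n => toK (y l))

lemma spanLT_mono (y : ℕ → Fin N → 𝓞 K) {m n : ℕ} (h : m ≤ n) : spanLT y m ≤ spanLT y n := by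
  apply Submodule.span_mono
  rintro _ ⟨l, rfl⟩
  exact ⟨⟨l, l.2.trans_le h⟩, rfl⟩

lemma mem_spanLT (y : ℕ → Fin N → 𝓞 K) {l n : ℕ} (h : l < n) : toK (y l) ∈ spanLT y n :=
  Submodule.subset_span ⟨⟨l, h⟩, rfl⟩

lemma exists_minima (A : (K →+* ℂ) → Matrix (Fin N) (Fin N) ℂ)
    (hconj : ∀ σ j i, (starRingEnd ℂ) (A σ j i) = A (ComplexEmbedding.conjugate σ) j i)
    (hdet : ∀ σ, (A σ).det ≠ 0) :
    ∃ y : ℕ → Fin N → 𝓞 K, ∀ n, n < N → toK (y n) ∉ spanLT y n ∧
      ∀ z : Fin N → 𝓞 K, toK z ∉ spanLT y n → nrm A (toK (y n)) ≤ nrm A (toK z) := by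
  obtain ⟨y, hy⟩ := exists_seq_prefix (X := Fin N → 𝓞 K)
    (fun n p x => n < N → toK x ∉ Submodule.span K (Set.range fun l : Fin n => toK (p l)) ∧
      ∀ z : Fin N → 𝓞 K, toK z ∉ Submodule.span K (Set.range fun l : Fin n => toK (p l)) →
        nrm A (toK x) ≤ nrm A (toK z)) (by
    intro n p
    by_cases hn : n < N
    · have hS : Submodule.span K (Set.range fun l : Fin n => toK (p l)) ≠ ⊤ := by
        intro h
        have h1 := finrank_range_le_card (R := K) (fun l : Fin n => toK (p l))
        rw [Set.finrank, h, finrank_top] at h1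
        simp at h1
        omega
      obtain ⟨x, hx⟩ := exists_min A hconj hdet _ hS
      exact ⟨x, fun _ => hx⟩
    · exact ⟨0, fun h => absurd h hn⟩)
  exact ⟨y, hy⟩

lemma linInd_of_not_mem (y : ℕ → Fin N → 𝓞 K) (n : ℕ) (h : ∀ m < n, toK (y m) ∉ spanLT y m) :
    LinearIndependent K (fun l : Fin n => toK (y l)) := by
  induction n with
  | zero => exact linearIndependent_empty_type
  | succ n ih =>
    rw [linearIndependent_finSucc']
    refine ⟨ih fun m hm => h m (by omega), ?_⟩
    have := h n (by omega)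
    exact this

/-- Minkowski's second theorem for `𝓞 K ^ N`. -/
theorem minkowski_second (K : Type*) [Field K] [NumberField K] (N : ℕ) :
    ∃ C : ℝ, 0 < C ∧ ∀ (A : (K →+* ℂ) → Matrix (Fin N) (Fin N) ℂ)
      (_ : ∀ σ j i, (starRingEnd ℂ) (A σ j i) = A (ComplexEmbedding.conjugate σ) j i)
      (_ : ∀ σ, (A σ).det ≠ 0),
      ∃ (y : Fin N → Fin N → 𝓞 K) (lam : Fin N → ℝ), (∀ i, 0 < lam i) ∧ Monotone lam ∧
        LinearIndependent K (fun i => toK (y i)) ∧ (∀ i, nrm A (toK (y i)) = lam i ^ 2) ∧
        (∏ i, lam i) ^ (finrank ℚ K) ≤ C * ∏ σ, ‖(A σ).det‖ := by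
  classical
  set D := finrank ℚ K with hD
  have hDpos : 0 < D := finrank_pos
  refine ⟨(Real.sqrt (N * D : ℕ) + 1) ^ (N * D) * ‖(basisMatrix K).det‖ ^ N, ?_, ?_⟩
  · have := norm_pos_iff.mpr (det_of_basisMatrix_non_zero K)
    positivity
  intro A hconj hdet
  obtain ⟨B, hB, hBdet, hBn⟩ := exists_real_mat A hconj hdet
  obtain ⟨y, hy⟩ := exists_minima A hconj hdet
  have hli := linInd_of_not_mem y N (fun m hm => (hy m hm).1)
  have hpos' : ∀ z : Fin N → 𝓞 K, z ≠ 0 → 0 < nrm A (toK z) := by
    intro z hz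
    obtain ⟨x, rfl⟩ := ofCoord_surjective z
    have h1 : nrm A (toK (ofCoord x)) = ∑ i, (B.mulVec (fun j => (x j : ℝ)) i) ^ 2 := hBn x
    rw [h1]
    have hx : x ≠ 0 := by
      rintro rfl
      apply hz
      funext i
      simp [ofCoord]
    have hBx : B.mulVec (fun j => (x j : ℝ)) ≠ 0 := by
      intro h
      apply hx
      have := Matrix.eq_zero_of_mulVec_eq_zero hB h
      funext j
      have := congrFun this j
      simpa using this
    obtain ⟨i, hi⟩ := Function.ne_iff.mp hBx
    apply Finset.sum_pos' (fun i _ => sq_nonneg _)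
    exact ⟨i, Finset.mem_univ _, by
      have : (B.mulVec (fun j => (x j : ℝ)) i) ≠ 0 := hi
      positivity⟩
  have hyne : ∀ i, i < N → y i ≠ 0 := by
    intro i hi h
    apply (hy i hi).1
    rw [h]
    have : toK (0 : Fin N → 𝓞 K) = 0 := by funext; simp [toK]
    rw [this]
    exact Submodule.zero_mem _
  set lam : Fin N → ℝ := fun i => Real.sqrt (nrm A (toK (y i))) with hlam
  have hlampos : ∀ i, 0 < lam i := fun i => Real.sqrt_pos.mpr (hpos' _ (hyne i i.2))
  have hlamsq : ∀ i, lam i ^ 2 = nrm A (toK (y i)) := fun i =>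
    Real.sq_sqrt (hpos' _ (hyne i i.2)).le
  have hmono : Monotone lam := by
    intro i j hij
    apply Real.sqrt_le_sqrt
    apply (hy i i.2).2
    intro h
    exact (hy j j.2).1 (spanLT_mono y hij h)
  refine ⟨fun i => y i, lam, hlampos, hmono, hli, fun i => (hlamsq i).symm, ?_⟩
  -- flatten
  have hcardE : Fintype.card (K →+* ℂ) = D := Embeddings.card K ℂ
  let eb : Fin D ≃ (K →+* ℂ) := (Fintype.equivFinOfCardEq hcardE).symm
  have hκ : Fintype.card (Fin N × (K →+* ℂ)) = N * D := by
    rw [Fintype.card_prod, Fintype.card_fin, hcardE]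
  let z : Fin (N * D) → Fin N × (K →+* ℂ) → ℤ := fun a ib =>
    (ombasis K).repr (ombasis K (eb (finProdFinEquiv.symm a).2) *
      y (finProdFinEquiv.symm a).1 ib.1) ib.2
  have hspanN : spanLT y N = ⊤ := by
    apply hli.span_eq_top_of_card_eq_finrank'
    simp
  have hmain := minkowski_flag' hκ B hB z (fun a => lam (finProdFinEquiv.symm a).1)
    (fun a => hlampos _) (by
      intro a a' haa'
      apply hmono
      show (finProdFinEquiv.symm a).1 ≤ (finProdFinEquiv.symm a').1
      simp only [finProdFinEquiv_symm_apply]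
      rw [Fin.le_def]
      simp only [Fin.coe_divNat]
      exact Nat.div_le_div_right haa') (by
      intro x hx
      have hz0 : ofCoord (K := K) x ≠ 0 := by
        intro h
        apply hx
        apply ofCoord_injective (K := K)
        rw [h]
        funext i
        simp [ofCoord]
      have hex : ∃ n, toK (ofCoord (K := K) x) ∈ spanLT y n := ⟨N, by rw [hspanN]; trivial⟩
      set n1 := Nat.find hex with hn1
      have hn1mem : toK (ofCoord (K := K) x) ∈ spanLT y n1 := Nat.find_spec hex
      have hn1N : n1 ≤ N := Nat.find_min' hex (by rw [hspanN]; trivial)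
      have hn1pos : 0 < n1 := by
        rw [Nat.pos_iff_ne_zero]
        intro h0
        rw [h0] at hn1mem
        have h1 : toK (ofCoord (K := K) x) = 0 := by
          simpa [spanLT] using hn1mem
        apply hz0
        funext i
        have h2 := congrFun h1 i
        simpa [toK] using h2
      have hn0 : toK (ofCoord (K := K) x) ∉ spanLT y (n1 - 1) :=
        Nat.find_min hex (by omega)
      have hn0N : n1 - 1 < N := by omega
      obtain ⟨α, hα⟩ := (Submodule.mem_span_range_iff_exists_fun K).mp hn1mem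
      obtain ⟨n, hn, β, hβ⟩ := exists_int_scale α
      have hnz : ∀ i', (n : 𝓞 K) * ofCoord x i' = ∑ l : Fin n1, β l * y l i' := by
        intro i'
        have h1 := congrFun hα i'
        apply NumberField.RingOfIntegers.ext
        have h2 : ((n : K)) * (ofCoord x i' : K) = ∑ l : Fin n1, (β l : K) * (y l i' : K) := by
          have h3 : (ofCoord x i' : K) = ∑ l : Fin n1, α l * (y l i' : K) := by
            rw [show (ofCoord x i' : K) = toK (ofCoord x) i' from rfl, ← h1]
            simp [toK]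
          rw [h3, Finset.mul_sum]
          apply Finset.sum_congr rfl
          intro l _
          have h4 : (β l : K) = (n : K) * α l := by
            have := congrFun hβ l
            simpa [toK] using this
          rw [h4]
          ring
        simpa using h2
      have hD1 : D - 1 < D := by omega
      refine ⟨finProdFinEquiv (⟨n1 - 1, hn0N⟩, ⟨D - 1, hD1⟩), ⟨n, hn, fun a =>
        if h : ((finProdFinEquiv.symm a).1 : ℕ) < n1 then
          (ombasis K).repr (β ⟨(finProdFinEquiv.symm a).1, h⟩) (eb (finProdFinEquiv.symm a).2)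
        else 0, ?_, ?_⟩, ?_⟩
      · intro a' ha'
        dsimp only
        rw [dif_neg]
        rw [not_lt]
        simp only [finProdFinEquiv_symm_apply, Fin.coe_divNat]
        rw [Nat.le_div_iff_mul_le hDpos]
        have h1 : (finProdFinEquiv ((⟨n1 - 1, hn0N⟩ : Fin N), (⟨D - 1, hD1⟩ : Fin D)) : ℕ) < a' := ha'
        rw [finProdFinEquiv_apply_val] at h1
        simp only at h1
        have h2 : n1 * D = D * (n1 - 1) + D := by
          obtain ⟨q, hq⟩ : ∃ q, n1 = q + 1 := ⟨n1 - 1, by omega⟩
          rw [hq]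
          simp
          ring
        omega
      · rintro ⟨i', b⟩
        have h1 := congrArg (fun w => (ombasis K).repr w b) (hnz i')
        have h2 : (ombasis K).repr ((n : 𝓞 K) * ofCoord x i') b = n * x (i', b) := by
          rw [← zsmul_eq_mul, map_zsmul, Finsupp.smul_apply]
          have h3 := (ombasis K).repr_sum_self (fun b => x (i', b))
          have h4 := congrFun h3 b
          simp only [ofCoord]
          rw [smul_eq_mul, h4]
        rw [h2] at h1
        rw [h1]
        rw [map_sum, Finsupp.finset_sum_apply]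
        rw [← Equiv.sum_comp finProdFinEquiv, Fintype.sum_prod_type]
        simp only [Equiv.symm_apply_apply]
        have h5 : ∀ l : Fin n1, (ombasis K).repr (β l * y l i') b =
            ∑ c : Fin D, (ombasis K).repr (β l) (eb c) *
              (ombasis K).repr (ombasis K (eb c) * y l i') b := by
          intro l
          have h6 : β l * y l i' = ∑ c : Fin D, (ombasis K).repr (β l) (eb c) •
              (ombasis K (eb c) * y l i') := by
            conv_lhs => rw [← (ombasis K).sum_repr (β l)]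
            rw [Finset.sum_mul, ← Equiv.sum_comp eb]
            apply Finset.sum_congr rfl
            intro c _
            rw [smul_mul_assoc]
          rw [h6, map_sum, Finsupp.finset_sum_apply]
          apply Finset.sum_congr rfl
          intro c _
          rw [map_zsmul, Finsupp.smul_apply, smul_eq_mul]
        have h7 : ∑ l : Fin n1, (ombasis K).repr (β l * y l i') b =
            ∑ l : Fin n1, ∑ c : Fin D, (ombasis K).repr (β l) (eb c) *
              (ombasis K).repr (ombasis K (eb c) * y l i') b :=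
          Finset.sum_congr rfl fun l _ => h5 l
        rw [h7]
        let F : ℕ → ℤ := fun l => if h : l < n1 then
          ∑ c : Fin D, (ombasis K).repr (β ⟨l, h⟩) (eb c) *
              (ombasis K).repr (ombasis K (eb c) * y l i') b else 0
        have h8 : ∑ l : Fin n1, ∑ c : Fin D, (ombasis K).repr (β l) (eb c) *
              (ombasis K).repr (ombasis K (eb c) * y l i') b = ∑ l : Fin n1, F l := by
          apply Finset.sum_congr rfl
          intro l _
          simp only [F, l.2, dif_pos]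
        rw [h8, Fin.sum_univ_eq_sum_range F n1]
        have h9 : ∑ x : Fin N, ∑ y_1 : Fin D, (if h : (x : ℕ) < n1 then
            (ombasis K).repr (β ⟨x, h⟩) (eb y_1) else 0) * z (finProdFinEquiv (x, y_1)) (i', b) =
            ∑ x : Fin N, F x := by
          apply Finset.sum_congr rfl
          intro l _
          simp only [F]
          by_cases hl : (l : ℕ) < n1
          · rw [dif_pos hl]
            apply Finset.sum_congr rfl
            intro c _
            rw [dif_pos hl]
            simp only [z, Equiv.symm_apply_apply]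
          · rw [dif_neg hl]
            apply Finset.sum_eq_zero
            intro c _
            rw [dif_neg hl, zero_mul]
        rw [h9, Fin.sum_univ_eq_sum_range F N]
        apply Finset.sum_subset (Finset.range_mono hn1N)
        intro l _ hl
        rw [Finset.mem_range] at hl
        simp only [F]
        rw [dif_neg hl]
      · simp only [Equiv.symm_apply_apply]
        rw [hlamsq]
        have h1 : nrm A (toK (ofCoord x)) = ∑ i, (B.mulVec (fun j => (x j : ℝ)) i) ^ 2 := hBn x
        rw [← h1]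
        exact (hy (n1 - 1) hn0N).2 _ hn0)
  rw [hBdet] at hmain
  rw [← Equiv.prod_comp finProdFinEquiv, Fintype.prod_prod_type] at hmain
  simp only [Equiv.symm_apply_apply, Finset.prod_const, Finset.card_univ, Fintype.card_fin] at hmain
  rw [Finset.prod_pow] at hmain
  refine hmain.trans ?_
  have h1 : 0 ≤ ∏ σ, ‖(A σ).det‖ := Finset.prod_nonneg fun σ _ => norm_nonneg _
  have h2 : 0 ≤ ‖(basisMatrix K).det‖ ^ N := by positivity
  calc (Real.sqrt (N * D : ℕ)) ^ (N * D) * ((∏ σ, ‖(A σ).det‖) * ‖(basisMatrix K).det‖ ^ N)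
      ≤ (Real.sqrt (N * D : ℕ) + 1) ^ (N * D) * ((∏ σ, ‖(A σ).det‖) * ‖(basisMatrix K).det‖ ^ N) := by
        gcongr
        linarith
    _ = _ := by ring

end Pool.Agent.DD7719.M
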