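import Mathlib

/-! Minkowski's second theorem in the weak form needed for `MP_dd7719_lc`. -/

namespace Pool.Agent.DD7719.M

open MeasureTheory Module

/-- Minkowski's linear forms theorem, contrapositive. -/
theorem one_le_abs_det {ι : Type*} [Fintype ι] [DecidableEq ι] (L : Matrix ι ι ℝ)
    (hL : L.det ≠ 0)
    (H : ∀ x : ι → ℤ, x ≠ 0 → ∃ i, 1 ≤ |(L.mulVec (fun j => (x j : ℝ))) i|) :
    1 ≤ |L.det| := by
  by_contra hlt
  push Not at hlt
  let b := Pi.basisFun ℝ ι
  let Λ : AddSubgroup (ι → ℝ) := (Submodule.span ℤ (Set.range b)).toAddSubgroup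
  have fund : IsAddFundamentalDomain Λ (ZSpan.fundamentalDomain b) volume :=
    ZSpan.isAddFundamentalDomain b volume
  let s : Set (ι → ℝ) := {x | ∀ i, |(L.mulVec x) i| < 1}
  have hs : s = (Matrix.toLin' L) ⁻¹' (Set.univ.pi fun _ => Set.Ioo (-1 : ℝ) 1) := by
    ext x
    simp [s, abs_lt, Set.mem_pi]
  have hvol : volume s = ENNReal.ofReal |L.det⁻¹| * 2 ^ (Fintype.card ι) := by
    rw [hs, Measure.addHaar_preimage_linearMap volume (by simpa using hL)]
    rw [Real.volume_pi_Ioo]
    simp only [LinearMap.det_toLin']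
    congr 1
    norm_num
  have hfund : volume (ZSpan.fundamentalDomain b) = 1 := by
    rw [ZSpan.fundamentalDomain_pi_basisFun, Real.volume_pi_Ico]
    simp
  have hlt' : volume (ZSpan.fundamentalDomain b) * 2 ^ (finrank ℝ (ι → ℝ)) < volume s := by
    rw [hfund, hvol, one_mul, Module.finrank_fintype_fun_eq_card]
    have h1 : (1 : ENNReal) < ENNReal.ofReal |L.det⁻¹| := by
      rw [← ENNReal.ofReal_one, ENNReal.ofReal_lt_ofReal_iff (by positivity)]
      rw [abs_inv]
      exact (one_lt_inv₀ (abs_pos.mpr hL)).mpr hlt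
    calc (2 : ENNReal) ^ Fintype.card ι = 1 * 2 ^ Fintype.card ι := (one_mul _).symm
      _ < ENNReal.ofReal |L.det⁻¹| * 2 ^ Fintype.card ι := by
          apply ENNReal.mul_lt_mul_left (by positivity) (by finiteness) h1
  have hconv : Convex ℝ s := by
    rw [hs]
    exact (convex_pi fun i _ => convex_Ioo _ _).linear_preimage _
  have hsymm : ∀ x ∈ s, -x ∈ s := by
    intro x hx i
    have := hx i
    simpa [Matrix.mulVec_neg] using this
  have : Countable Λ := by
    change Countable (Submodule.span ℤ (Set.range b))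
    infer_instance
  obtain ⟨x, hx0, hxs⟩ := exists_ne_zero_mem_lattice_of_measure_mul_two_pow_lt_measure
    fund hsymm hconv hlt'
  have hmem : (x : ι → ℝ) ∈ Submodule.span ℤ (Set.range b) := x.2
  rw [Module.Basis.mem_span_iff_repr_mem] at hmem
  choose y hy using hmem
  have hxy : (x : ι → ℝ) = fun j => (y j : ℝ) := by
    funext j
    have := hy j
    simpa [b] using this.symm
  have hy0 : y ≠ 0 := by
    rintro rfl
    apply hx0
    apply Subtype.ext
    rw [hxy]
    simp
    rfl
  obtain ⟨i, hi⟩ := H y hy0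
  have := hxs i
  rw [hxy] at this
  linarith

/-- Minkowski's second theorem, flag version. -/
theorem minkowski_flag {m : ℕ} (B : Matrix (Fin m) (Fin m) ℝ) (hB : B.det ≠ 0)
    (z : Fin m → Fin m → ℤ) (lam : Fin m → ℝ) (hpos : ∀ a, 0 < lam a) (hmono : Monotone lam)
    (H : ∀ x : Fin m → ℤ, x ≠ 0 → ∃ a : Fin m,
      (∃ n : ℤ, n ≠ 0 ∧ ∃ c : Fin m → ℤ, (∀ a', a < a' → c a' = 0) ∧
        ∀ j, n * x j = ∑ a', c a' * z a' j) ∧
      lam a ^ 2 ≤ ∑ i, (B.mulVec (fun j => (x j : ℝ)) i) ^ 2) :
    ∏ a, lam a ≤ (Real.sqrt m) ^ m * |B.det| := by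
  classical
  let f : Fin m → EuclideanSpace ℝ (Fin m) := fun a => WithLp.toLp 2 (B.mulVec (fun j => (z a j : ℝ)))
  have hcard : finrank ℝ (EuclideanSpace ℝ (Fin m)) = Fintype.card (Fin m) := by simp
  let e := InnerProductSpace.gramSchmidtOrthonormalBasis hcard f
  have he : ∀ a a' : Fin m, a < a' → inner ℝ (e a') (f a) = 0 := fun a a' h =>
    InnerProductSpace.gramSchmidtOrthonormalBasis_inv_triangular hcard f h
  let Q : Matrix (Fin m) (Fin m) ℝ := Matrix.of fun a i => (e a) i
  have hQ : |Q.det| = 1 := by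
    have h1 := ((EuclideanSpace.basisFun (Fin m) ℝ).det_to_matrix_orthonormalBasis e)
    rw [Module.Basis.det_apply] at h1
    have h2 : ((EuclideanSpace.basisFun (Fin m) ℝ).toBasis.toMatrix e) = Q.transpose := by
      ext i a
      simp [Module.Basis.toMatrix_apply, Q]
    rw [h2, Matrix.det_transpose] at h1
    simpa using h1
  let L : Matrix (Fin m) (Fin m) ℝ := Matrix.diagonal (fun a => Real.sqrt m / lam a) * (Q * B)
  have hLdet : |L.det| = (Real.sqrt m) ^ m * |B.det| / ∏ a, lam a := by
    simp only [L, Matrix.det_mul, Matrix.det_diagonal, abs_mul, hQ, one_mul, Finset.abs_prod]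
    rw [Finset.prod_congr rfl (fun a _ => abs_of_nonneg (by
      have := hpos a; positivity : 0 ≤ Real.sqrt m / lam a))]
    rw [Finset.prod_div_distrib]
    simp
    ring
  by_cases hm : m = 0
  · subst hm
    simp
  have hm' : (0 : ℝ) < m := by exact_mod_cast Nat.pos_of_ne_zero hm
  have hprod : 0 < ∏ a, lam a := Finset.prod_pos fun a _ => hpos a
  have hLne : L.det ≠ 0 := by
    rw [← abs_pos, hLdet]
    have := abs_pos.mpr hB
    positivity
  have key : 1 ≤ |L.det| := by
    apply one_le_abs_det L hLne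
    intro x hx
    by_contra hcon
    push Not at hcon
    obtain ⟨a, ⟨n, hn, c, hc, hnx⟩, hlam⟩ := H x hx
    set y : EuclideanSpace ℝ (Fin m) := WithLp.toLp 2 (B.mulVec (fun j => (x j : ℝ))) with hy
    have hinner : ∀ a' (v : Fin m → ℝ), inner ℝ (e a') (WithLp.toLp 2 v : EuclideanSpace ℝ (Fin m)) =
        ∑ i, (e a') i * v i := by
      intro a' v
      simp [PiLp.inner_apply, mul_comm]
    have hLx : ∀ a', (L.mulVec (fun j => (x j : ℝ))) a' = Real.sqrt m / lam a' * inner ℝ (e a') y := by
      intro a'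
      rw [hy, hinner]
      simp only [L, ← Matrix.mulVec_mulVec, Matrix.mulVec_diagonal]
      rfl
    have hny : (n : ℝ) • y = ∑ a', (c a' : ℝ) • f a' := by
      apply WithLp.ofLp_injective 2
      funext i
      simp only [hy, f, smul_eq_mul, WithLp.ofLp_sum, WithLp.ofLp_smul,
        Finset.sum_apply, Pi.smul_apply, Matrix.mulVec, dotProduct]
      simp only [Finset.mul_sum]
      rw [Finset.sum_comm]
      apply Finset.sum_congr rfl
      intro j _
      have := hnx j
      have h3 : (n : ℝ) * x j = ∑ a', (c a' : ℝ) * z a' j := by exact_mod_cast this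
      calc (n : ℝ) * (B i j * x j) = B i j * (n * x j) := by ring
        _ = B i j * ∑ a', (c a' : ℝ) * z a' j := by rw [h3]
        _ = _ := by
          rw [Finset.mul_sum]
          apply Finset.sum_congr rfl
          intro a' _
          ring
    have hzero : ∀ a', a < a' → inner ℝ (e a') y = 0 := by
      intro a' haa'
      have h4 : inner ℝ (e a') ((n : ℝ) • y) = 0 := by
        rw [hny, inner_sum]
        apply Finset.sum_eq_zero
        intro a'' _
        rw [inner_smul_right]
        by_cases h5 : a < a''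
        · simp [hc a'' h5]
        · rw [he a'' a' (lt_of_le_of_lt (not_lt.mp h5) haa'), mul_zero]
      rw [inner_smul_right] at h4
      rcases mul_eq_zero.mp h4 with h5 | h5
      · exact absurd (by exact_mod_cast h5) hn
      · exact h5
    have hnorm : ∑ i, (B.mulVec (fun j => (x j : ℝ)) i) ^ 2 = ∑ a', (inner ℝ (e a') y) ^ 2 := by
      have h1 := e.sum_sq_norm_inner_right y
      have h2 : ‖y‖ ^ 2 = ∑ i, (B.mulVec (fun j => (x j : ℝ)) i) ^ 2 := by
        rw [EuclideanSpace.norm_sq_eq]
        simp [hy]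
      rw [← h2, ← h1]
      simp
    have hlt : ∑ a', (inner ℝ (e a') y) ^ 2 < ∑ a' : Fin m, lam a ^ 2 / m := by
      apply Finset.sum_lt_sum_of_nonempty
      · exact ⟨a, Finset.mem_univ _⟩
      intro a' _
      by_cases h5 : a < a'
      · rw [hzero a' h5, zero_pow two_ne_zero]
        have := hpos a
        positivity
      · have h6 := hcon a'
        rw [hLx a', abs_mul, abs_of_nonneg (by have := hpos a'; positivity :
          0 ≤ Real.sqrt m / lam a')] at h6
        have h7 : |inner ℝ (e a') y| < lam a' / Real.sqrt m := by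
          rw [lt_div_iff₀ (by positivity)]
          have := hpos a'
          rw [div_mul_eq_mul_div, div_lt_one this] at h6
          linarith [mul_comm (Real.sqrt m) |inner ℝ (e a') y|]
        have h8 : (inner ℝ (e a') y) ^ 2 < (lam a' / Real.sqrt m) ^ 2 := by
          rw [← sq_abs]
          apply pow_lt_pow_left₀ h7 (abs_nonneg _) two_ne_zero
        rw [div_pow, Real.sq_sqrt hm'.le] at h8
        refine lt_of_lt_of_le h8 ?_
        have h9 : lam a' ≤ lam a := hmono (not_lt.mp h5)
        have := hpos a'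
        gcongr
    rw [← hnorm] at hlt
    simp only [Finset.sum_const, Finset.card_univ, Fintype.card_fin, nsmul_eq_mul] at hlt
    rw [mul_div_cancel₀ _ hm'.ne'] at hlt
    linarith
  rw [hLdet, le_div_iff₀ hprod, one_mul] at key
  exact key

end Pool.Agent.DD7719.M
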