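import Pool.Agent.DD7719.Minkowski

/-! Minkowski's second theorem for `𝓞 K ^ N` and a conjugation invariant family of hermitian norms. -/

namespace Pool.Agent.DD7719.M

open Module Matrix

/-- A complex matrix whose rows are permuted by conjugation gives a real quadratic form. -/
theorem exists_real_factor {ι : Type*} [Fintype ι] [DecidableEq ι] (M : Matrix ι ι ℂ)
    (P : Equiv.Perm ι) (hP : ∀ i a, (starRingEnd ℂ) (M i a) = M (P i) a) :
    ∃ B : Matrix ι ι ℝ, |B.det| = ‖M.det‖ ∧
      ∀ x : ι → ℝ, ∑ i, (B.mulVec x i) ^ 2 = ∑ i, ‖M.mulVec (fun j => (x j : ℂ)) i‖ ^ 2 := by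
  classical
  let G : Matrix ι ι ℝ := Matrix.of fun a b => ((Mᴴ * M) a b).re
  have hG : G.map (fun x : ℝ => (x : ℂ)) = Mᴴ * M := by
    ext a b
    have hself : (starRingEnd ℂ) ((Mᴴ * M) a b) = (Mᴴ * M) a b := by
      simp only [Matrix.mul_apply, Matrix.conjTranspose_apply, map_sum, map_mul]
      rw [← Equiv.sum_comp P (fun i => star (M i a) * M i b)]
      apply Finset.sum_congr rfl
      intro i _
      simp only [RCLike.star_def]
      rw [← hP i a, ← hP i b]
    simp only [G, Matrix.map_apply, Matrix.of_apply]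
    exact (Complex.conj_eq_iff_re.mp hself)
  have hquad : ∀ x : ι → ℝ, ((x ⬝ᵥ G.mulVec x : ℝ) : ℂ) =
      ((∑ i, ‖M.mulVec (fun j => (x j : ℂ)) i‖ ^ 2 : ℝ) : ℂ) := by
    intro x
    set xc : ι → ℂ := fun j => (x j : ℂ) with hxc
    have h1 : ((x ⬝ᵥ G.mulVec x : ℝ) : ℂ) = star xc ⬝ᵥ (Mᴴ * M).mulVec xc := by
      rw [← hG]
      simp only [dotProduct, Matrix.mulVec, Matrix.map_apply, hxc]
      push_cast
      apply Finset.sum_congr rfl
      intro i _
      simp
    rw [h1, ← Matrix.mulVec_mulVec, Matrix.dotProduct_mulVec, Matrix.vecMul_conjTranspose,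
      star_star]
    simp only [dotProduct]
    push_cast
    apply Finset.sum_congr rfl
    intro i _
    rw [Pi.star_apply, RCLike.star_def, RCLike.conj_mul]
    rfl
  have hquad' : ∀ x : ι → ℝ, (x ⬝ᵥ G.mulVec x : ℝ) =
      ∑ i, ‖M.mulVec (fun j => (x j : ℂ)) i‖ ^ 2 := by
    intro x
    exact_mod_cast hquad x
  have hherm : G.IsHermitian := by
    ext a b
    simp only [G, Matrix.conjTranspose_apply, Matrix.of_apply, star_trivial]
    have : (Mᴴ * M)ᴴ = Mᴴ * M := by simp [Matrix.conjTranspose_mul]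
    have h2 := congrFun (congrFun this a) b
    rw [Matrix.conjTranspose_apply] at h2
    rw [← h2]
    simp
  have hpsd : G.PosSemidef := by
    apply Matrix.PosSemidef.of_dotProduct_mulVec_nonneg hherm
    intro x
    simp only [star_trivial]
    rw [hquad']
    positivity
  open scoped MatrixOrder in
  obtain ⟨B, hB⟩ := CStarAlgebra.nonneg_iff_eq_star_mul_self.mp hpsd.nonneg
  rw [Matrix.star_eq_conjTranspose] at hB
  refine ⟨B, ?_, ?_⟩
  · have h1 : G.det = B.det ^ 2 := by
      rw [hB, Matrix.det_mul, Matrix.det_conjTranspose]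
      simp [sq]
    have h2 : ((G.det : ℝ) : ℂ) = ((‖M.det‖ ^ 2 : ℝ) : ℂ) := by
      have : ((G.det : ℝ) : ℂ) = (G.map (fun x : ℝ => (x : ℂ))).det := by
        exact (RingHom.map_det Complex.ofRealHom G)
      rw [this, hG, Matrix.det_mul, Matrix.det_conjTranspose]
      push_cast
      rw [RCLike.star_def, RCLike.conj_mul]
      rfl
    have h3 : G.det = ‖M.det‖ ^ 2 := by exact_mod_cast h2
    rw [h1] at h3
    have h4 := abs_eq_abs.mpr (sq_eq_sq_iff_eq_or_eq_neg.mp h3)
    rwa [abs_of_nonneg (norm_nonneg M.det)] at h4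
  · intro x
    rw [← hquad' x, hB, ← Matrix.mulVec_mulVec, Matrix.dotProduct_mulVec]
    simp only [conjTranspose_eq_transpose_of_trivial, Matrix.vecMul_transpose, dotProduct]
    apply Finset.sum_congr rfl
    intro i _
    ring

/-- `minkowski_flag` with an arbitrary index type for the coordinates. -/
theorem minkowski_flag' {κ : Type*} [Fintype κ] [DecidableEq κ] {m : ℕ}
    (hκ : Fintype.card κ = m) (B : Matrix κ κ ℝ) (hB : B.det ≠ 0)
    (z : Fin m → κ → ℤ) (lam : Fin m → ℝ) (hpos : ∀ a, 0 < lam a) (hmono : Monotone lam)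
    (H : ∀ x : κ → ℤ, x ≠ 0 → ∃ a : Fin m,
      (∃ n : ℤ, n ≠ 0 ∧ ∃ c : Fin m → ℤ, (∀ a', a < a' → c a' = 0) ∧
        ∀ j, n * x j = ∑ a', c a' * z a' j) ∧
      lam a ^ 2 ≤ ∑ i, (B.mulVec (fun j => (x j : ℝ)) i) ^ 2) :
    ∏ a, lam a ≤ (Real.sqrt m) ^ m * |B.det| := by
  let e : κ ≃ Fin m := Fintype.equivFinOfCardEq hκ
  have hdet : (Matrix.reindex e e B).det = B.det := Matrix.det_reindex_self e B
  have := minkowski_flag (Matrix.reindex e e B) (by rwa [hdet]) (fun a j => z a (e.symm j)) lam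
    hpos hmono ?_
  · rwa [hdet] at this
  · intro x hx
    have hx' : (fun j => x (e j)) ≠ 0 := by
      intro h
      apply hx
      funext j
      have := congrFun h (e.symm j)
      simpa using this
    obtain ⟨a, ⟨n, hn, c, hc, hnx⟩, hlam⟩ := H (fun j => x (e j)) hx'
    refine ⟨a, ⟨n, hn, c, hc, fun j => ?_⟩, ?_⟩
    · have := hnx (e.symm j)
      simpa using this
    · refine hlam.trans (le_of_eq ?_)
      rw [← Equiv.sum_comp e]
      apply Finset.sum_congr rfl
      intro i _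
      congr 1
      simp only [Matrix.mulVec, dotProduct, Matrix.reindex_apply, Matrix.submatrix_apply]
      rw [← Equiv.sum_comp e]
      simp

section

open NumberField

variable (K : Type*) [Field K] [NumberField K]

/-- integral basis indexed by the embeddings. -/
noncomputable def ombasis : Basis (K →+* ℂ) ℤ (𝓞 K) :=
  (RingOfIntegers.basis K).reindex (equivReindex K).symm

lemma basisMatrix_apply (b σ : K →+* ℂ) :
    basisMatrix K b σ = σ (ombasis K b : K) := by
  simp [basisMatrix, ombasis, canonicalEmbedding.latticeBasis_apply, integralBasis_apply]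

variable {K} {N : ℕ}

/-- The square of the hermitian norm given by the matrices `A σ`. -/
noncomputable def nrm (A : (K →+* ℂ) → Matrix (Fin N) (Fin N) ℂ) (y : Fin N → K) : ℝ :=
  ∑ σ : K →+* ℂ, ∑ j, ‖(A σ).mulVec (fun i => σ (y i)) j‖ ^ 2

/-- The vector with given integral coordinates. -/
noncomputable def ofCoord (x : Fin N × (K →+* ℂ) → ℤ) (i : Fin N) : 𝓞 K :=
  ∑ b, x (i, b) • ombasis K b

lemma ofCoord_injective : Function.Injective (ofCoord (K := K) (N := N)) := by
  intro x y h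
  funext ⟨i, b⟩
  have := congrFun h i
  have h2 := congrArg (fun z => (ombasis K).repr z b) this
  simp only [ofCoord] at h2
  have h3 := (ombasis K).repr_sum_self (fun b => x (i, b))
  have h4 := (ombasis K).repr_sum_self (fun b => y (i, b))
  rw [h3, h4] at h2
  exact h2

lemma ofCoord_surjective : Function.Surjective (ofCoord (K := K) (N := N)) := by
  intro y
  refine ⟨fun ib => (ombasis K).repr (y ib.1) ib.2, ?_⟩
  funext i
  simp only [ofCoord]
  exact (ombasis K).sum_repr (y i)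

open scoped Kronecker Classical in
/-- The matrix of the whole system of linear forms. -/
noncomputable def bigMat (A : (K →+* ℂ) → Matrix (Fin N) (Fin N) ℂ) :
    Matrix (Fin N × (K →+* ℂ)) (Fin N × (K →+* ℂ)) ℂ :=
  Matrix.blockDiagonal A * ((1 : Matrix (Fin N) (Fin N) ℂ) ⊗ₖ (basisMatrix K)ᵀ)

lemma bigMat_apply (A : (K →+* ℂ) → Matrix (Fin N) (Fin N) ℂ) (j i : Fin N) (σ b : K →+* ℂ) :
    bigMat A (j, σ) (i, b) = A σ j i * σ (ombasis K b : K) := by
  classical
  rw [bigMat, Matrix.mul_apply, Finset.sum_eq_single (i, σ)]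
  · simp [Matrix.blockDiagonal_apply, Matrix.kroneckerMap_apply, ← basisMatrix_apply]
  · rintro ⟨i', τ⟩ _ hne
    simp only [Matrix.blockDiagonal_apply, Matrix.kroneckerMap_apply]
    by_cases h1 : σ = τ
    · have h2 : i' ≠ i := by
        rintro rfl
        exact hne (by rw [h1])
      simp [h2]
    · simp [h1]
  · simp

lemma bigMat_mulVec (A : (K →+* ℂ) → Matrix (Fin N) (Fin N) ℂ)
    (x : Fin N × (K →+* ℂ) → ℤ) (j : Fin N) (σ : K →+* ℂ) :
    (bigMat A).mulVec (fun a => ((x a : ℝ) : ℂ)) (j, σ) =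
      (A σ).mulVec (fun i => σ (ofCoord x i : K)) j := by
  simp only [Matrix.mulVec, dotProduct, Fintype.sum_prod_type, bigMat_apply, ofCoord]
  apply Finset.sum_congr rfl
  intro i _
  simp only [map_sum, Finset.mul_sum, map_zsmul]
  apply Finset.sum_congr rfl
  intro b _
  simp only [zsmul_eq_mul, map_mul, map_intCast]
  push_cast
  ring

open scoped Classical in
lemma norm_det_bigMat (A : (K →+* ℂ) → Matrix (Fin N) (Fin N) ℂ) :
    ‖(bigMat A).det‖ = (∏ σ, ‖(A σ).det‖) * ‖(basisMatrix K).det‖ ^ N := by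
  rw [bigMat, Matrix.det_mul, Matrix.det_blockDiagonal, Matrix.det_kronecker]
  simp only [Matrix.det_one, one_pow, one_mul, Matrix.det_transpose, norm_mul, norm_prod, norm_pow,
    Fintype.card_fin]

lemma nrm_ofCoord (A : (K →+* ℂ) → Matrix (Fin N) (Fin N) ℂ)
    (x : Fin N × (K →+* ℂ) → ℤ) :
    nrm A (fun i => (ofCoord x i : K)) =
      ∑ a, ‖(bigMat A).mulVec (fun a => ((x a : ℝ) : ℂ)) a‖ ^ 2 := by
  rw [Fintype.sum_prod_type, nrm, Finset.sum_comm]
  simp only [bigMat_mulVec]

open scoped Classical in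
/-- existence of a real matrix realising `nrm` -/
lemma exists_real_mat (A : (K →+* ℂ) → Matrix (Fin N) (Fin N) ℂ)
    (hconj : ∀ σ j i, (starRingEnd ℂ) (A σ j i) = A (ComplexEmbedding.conjugate σ) j i)
    (hdet : ∀ σ, (A σ).det ≠ 0) :
    ∃ B : Matrix (Fin N × (K →+* ℂ)) (Fin N × (K →+* ℂ)) ℝ,
      B.det ≠ 0 ∧ |B.det| = (∏ σ, ‖(A σ).det‖) * ‖(basisMatrix K).det‖ ^ N ∧
      ∀ x : Fin N × (K →+* ℂ) → ℤ, nrm A (fun i => (ofCoord x i : K)) =
        ∑ i, (B.mulVec (fun j => (x j : ℝ)) i) ^ 2 := by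
  let P : Equiv.Perm (Fin N × (K →+* ℂ)) :=
    Equiv.prodCongr (Equiv.refl _) (ComplexEmbedding.involutive_conjugate K).toPerm
  obtain ⟨B, hB1, hB2⟩ := exists_real_factor (bigMat A) P (by
    rintro ⟨j, σ⟩ ⟨i, b⟩
    have : P (j, σ) = (j, ComplexEmbedding.conjugate σ) := rfl
    rw [this, bigMat_apply, bigMat_apply, map_mul, hconj]
    rfl)
  refine ⟨B, ?_, ?_, ?_⟩
  · rw [← abs_pos, hB1, norm_det_bigMat]
    apply mul_pos
    · exact Finset.prod_pos fun σ _ => norm_pos_iff.mpr (hdet σ)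
    · exact pow_pos (norm_pos_iff.mpr (det_of_basisMatrix_non_zero K)) _
  · rw [hB1, norm_det_bigMat]
  · intro x
    rw [nrm_ofCoord, hB2]

end

end Pool.Agent.DD7719.M
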