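import Mathlib

/-! Zeros of nonnegative trigonometric polynomials with at most three frequencies. -/

set_option autoImplicit false

namespace Pool.Agent.DD7719.M3

open Finset

variable {s p : ℕ}

/-- the phase -/
def ph (χ : Fin s → ℤ) (y : Fin s → ℝ) : ℝ := ∑ t, (χ t : ℝ) * y t

/-- the real part of `D * exp (i θ)` -/
noncomputable def wre (D : ℂ) (θ : ℝ) : ℝ := D.re * Real.cos θ - D.im * Real.sin θ

/-- the imaginary part of `D * exp (i θ)` -/
noncomputable def wim (D : ℂ) (θ : ℝ) : ℝ := D.re * Real.sin θ + D.im * Real.cos θ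

lemma wre_sq_add (D : ℂ) (θ : ℝ) : wre D θ ^ 2 + wim D θ ^ 2 = D.re ^ 2 + D.im ^ 2 := by
  unfold wre wim
  have := Real.sin_sq_add_cos_sq θ
  linear_combination (D.re ^ 2 + D.im ^ 2) * this

lemma wre_eq (D : ℂ) (θ : ℝ) : wre D θ = (D * Complex.exp ((θ : ℂ) * Complex.I)).re := by
  rw [Complex.exp_mul_I, Complex.mul_re, Complex.add_re, Complex.add_im, Complex.mul_re,
    Complex.mul_im, Complex.cos_ofReal_re, Complex.sin_ofReal_re, Complex.cos_ofReal_im,
    Complex.sin_ofReal_im]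
  simp [wre]

/-- the trigonometric polynomial -/
noncomputable def TF (C0 : ℝ) (D : Fin p → ℂ) (χ : Fin p → Fin s → ℤ) (y : Fin s → ℝ) : ℝ :=
  C0 + ∑ j, wre (D j) (ph (χ j) y)

lemma ph_update (χ : Fin s → ℤ) (y : Fin s → ℝ) (t : Fin s) (τ : ℝ) :
    ph χ (Function.update y t (y t + τ)) = ph χ y + τ * χ t := by
  classical
  unfold ph
  rw [← Finset.add_sum_erase _ _ (Finset.mem_univ t),
    ← Finset.add_sum_erase univ (fun t => (χ t : ℝ) * y t) (Finset.mem_univ t),
    Function.update_self]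
  have h1 : ∑ x ∈ univ.erase t, (χ x : ℝ) * Function.update y t (y t + τ) x =
      ∑ x ∈ univ.erase t, (χ x : ℝ) * y x := by
    refine Finset.sum_congr rfl fun x hx => ?_
    rw [Function.update_of_ne (Finset.ne_of_mem_erase hx)]
  rw [h1]
  ring

lemma hasDerivAt_wre (D : ℂ) (a b τ : ℝ) :
    HasDerivAt (fun τ : ℝ => wre D (a + τ * b)) (-(wim D (a + τ * b)) * b) τ := by
  unfold wre wim
  have h0 : HasDerivAt (fun τ : ℝ => a + τ * b) b τ := by
    simpa using ((hasDerivAt_id τ).mul_const b).const_add a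
  have h1 := (h0.cos.const_mul D.re).sub (h0.sin.const_mul D.im)
  exact h1.congr_deriv (by ring)

/-- the gradient vanishes at the zeros -/
lemma grad_zero (C0 : ℝ) (D : Fin p → ℂ) (χ : Fin p → Fin s → ℤ) (hF : ∀ y, 0 ≤ TF C0 D χ y)
    (y : Fin s → ℝ) (hy : TF C0 D χ y = 0) (t : Fin s) :
    ∑ j, wim (D j) (ph (χ j) y) * (χ j t : ℝ) = 0 := by
  have h1 : HasDerivAt (fun τ : ℝ => C0 + ∑ j, wre (D j) (ph (χ j) y + τ * (χ j t : ℝ)))
      (∑ j, -(wim (D j) (ph (χ j) y + 0 * (χ j t : ℝ))) * (χ j t : ℝ)) 0 := by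
    apply HasDerivAt.const_add
    apply HasDerivAt.fun_sum
    intro j _
    exact hasDerivAt_wre (D j) (ph (χ j) y) (χ j t : ℝ) 0
  have h2 : IsLocalMin (fun τ : ℝ => C0 + ∑ j, wre (D j) (ph (χ j) y + τ * (χ j t : ℝ))) 0 := by
    refine Filter.Eventually.of_forall fun τ => ?_
    have h3 := hF (Function.update y t (y t + τ))
    unfold TF at h3 hy
    simp only [ph_update] at h3
    simp only [zero_mul, add_zero]
    linarith
  have h3 := h2.hasDerivAt_eq_zero h1
  simp only [zero_mul, add_zero, neg_mul, Finset.sum_neg_distrib, neg_eq_zero] at h3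
  exact h3

/-- finitely many angles from finitely many values -/
lemma finite_angle {ι : Type*} (Z : Set ι) (D : ℂ) (hD : D ≠ 0) (θ : ι → ℝ)
    (h : ((fun y => wim D (θ y)) '' Z).Finite) :
    ((fun y => Complex.exp ((θ y : ℂ) * Complex.I)) '' Z).Finite := by
  have hN : D.re ^ 2 + D.im ^ 2 ≠ 0 := by
    intro h0
    apply hD
    have h1 : D.re = 0 := by nlinarith [sq_nonneg D.re, sq_nonneg D.im]
    have h2 : D.im = 0 := by nlinarith [sq_nonneg D.re, sq_nonneg D.im]
    exact Complex.ext h1 h2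
  -- the finite set of candidates
  set S := (fun y => wim D (θ y)) '' Z with hS
  set G : ℝ → ℝ → ℂ := fun x u =>
    ⟨(D.re * x + D.im * u) / (D.re ^ 2 + D.im ^ 2), (D.re * u - D.im * x) / (D.re ^ 2 + D.im ^ 2)⟩
    with hG
  have hfin : ((fun u => G (Real.sqrt (D.re ^ 2 + D.im ^ 2 - u ^ 2)) u) '' S ∪
      (fun u => G (-Real.sqrt (D.re ^ 2 + D.im ^ 2 - u ^ 2)) u) '' S).Finite :=
    (h.image _).union (h.image _)
  refine hfin.subset ?_
  rintro _ ⟨y, hy, rfl⟩
  have h1 := wre_sq_add D (θ y)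
  have h2 : Complex.exp ((θ y : ℂ) * Complex.I) = G (wre D (θ y)) (wim D (θ y)) := by
    rw [Complex.exp_mul_I, hG]
    apply Complex.ext
    · simp only [Complex.add_re, Complex.mul_re, Complex.cos_ofReal_re, Complex.sin_ofReal_re,
        Complex.I_re, Complex.I_im, Complex.sin_ofReal_im]
      rw [eq_div_iff hN]
      unfold wre wim
      ring
    · simp only [Complex.add_im, Complex.mul_im, Complex.cos_ofReal_im, Complex.sin_ofReal_re,
        Complex.I_re, Complex.I_im, Complex.sin_ofReal_im]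
      rw [eq_div_iff hN]
      unfold wre wim
      ring
  have h3 : wre D (θ y) = Real.sqrt (D.re ^ 2 + D.im ^ 2 - wim D (θ y) ^ 2) ∨
      wre D (θ y) = -Real.sqrt (D.re ^ 2 + D.im ^ 2 - wim D (θ y) ^ 2) := by
    have h4 : D.re ^ 2 + D.im ^ 2 - wim D (θ y) ^ 2 = wre D (θ y) ^ 2 := by linarith
    rw [h4, Real.sqrt_sq_eq_abs]
    rcases abs_choice (wre D (θ y)) with h5 | h5
    · left; exact h5.symm
    · right; rw [h5, neg_neg]
  rcases h3 with h3 | h3
  · left
    refine ⟨wim D (θ y), ⟨y, hy, rfl⟩, ?_⟩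
    simp only
    rw [← h3, h2]
  · right
    refine ⟨wim D (θ y), ⟨y, hy, rfl⟩, ?_⟩
    simp only
    rw [← h3, h2]

/-- Case A: a frequency that is independent of the others. -/
theorem caseA (C0 : ℝ) (D : Fin p → ℂ) (hD : ∀ j, D j ≠ 0) (χ : Fin p → Fin s → ℤ)
    (hF : ∀ y, 0 ≤ TF C0 D χ y) (j : Fin p)
    (hj : ∀ b : Fin p → ℝ, (∀ t, ∑ i, b i * (χ i t : ℝ) = 0) → b j = 0) :
    ((fun y => Complex.exp ((ph (χ j) y : ℂ) * Complex.I)) '' {y | TF C0 D χ y = 0}).Finite := by
  apply finite_angle _ (D j) (hD j) (fun y => ph (χ j) y)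
  refine (Set.finite_singleton (0 : ℝ)).subset ?_
  rintro _ ⟨y, hy, rfl⟩
  exact hj (fun i => wim (D i) (ph (χ i) y)) (fun t => grad_zero C0 D χ hF y hy t)

lemma norm_exp_wre (D : ℂ) (m : ℤ) (τ : ℝ) :
    ((wre D (m * τ) : ℝ) : ℂ) = D / 2 * Complex.exp ((τ : ℂ) * Complex.I) ^ m +
      (starRingEnd ℂ) D / 2 * Complex.exp ((τ : ℂ) * Complex.I) ^ (-m) := by
  have h1 : Complex.exp ((τ : ℂ) * Complex.I) ^ m =
      Complex.exp (((m * τ : ℝ) : ℂ) * Complex.I) := by
    rw [← Complex.exp_int_mul]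
    congr 1
    push_cast
    ring
  have h2 : Complex.exp ((τ : ℂ) * Complex.I) ^ (-m) =
      (starRingEnd ℂ) (Complex.exp (((m * τ : ℝ) : ℂ) * Complex.I)) := by
    rw [← Complex.exp_conj, ← Complex.exp_int_mul]
    congr 1
    simp only [map_mul, Complex.conj_ofReal, Complex.conj_I]
    push_cast
    ring
  rw [h1, h2, wre_eq]
  set z := Complex.exp (((m * τ : ℝ) : ℂ) * Complex.I) with hz
  have h3 : D / 2 * z + (starRingEnd ℂ) D / 2 * (starRingEnd ℂ) z =
      (D * z + (starRingEnd ℂ) (D * z)) / 2 := by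
    rw [map_mul]
    ring
  rw [h3, Complex.add_conj]
  push_cast
  ring

/-- Case B: all frequencies are parallel. -/
theorem caseB (C0 : ℝ) (D : Fin p → ℂ) (hD : ∀ j, D j ≠ 0) (χ : Fin p → Fin s → ℤ)
    (hχ0 : ∀ j, χ j ≠ 0) (hχ : ∀ i j, i ≠ j → χ i ≠ χ j ∧ χ i ≠ -χ j) (j0 : Fin p)
    (hpar : ∀ j, ∃ β : ℝ, ∀ t, (χ j t : ℝ) = β * (χ j0 t : ℝ)) :
    ((fun y => Complex.exp ((ph (χ j0) y : ℂ) * Complex.I)) '' {y | TF C0 D χ y = 0}).Finite := by
  classical
  obtain ⟨t0, ht0⟩ : ∃ t, χ j0 t ≠ 0 := by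
    by_contra hcon
    push Not at hcon
    exact hχ0 j0 (funext hcon)
  choose β hβ using hpar
  set q : ℤ := χ j0 t0 with hq
  set m : Fin p → ℤ := fun j => χ j t0 with hm
  have hqR : (q : ℝ) ≠ 0 := by exact_mod_cast ht0
  have hβm : ∀ j, β j = m j / q := by
    intro j
    rw [eq_div_iff hqR, ← hβ j t0]
  have hm0 : ∀ j, m j ≠ 0 := by
    intro j h0
    apply hχ0 j
    funext t
    have h1 := hβ j t
    rw [hβm, h0] at h1
    simp only [Int.cast_zero, zero_div, zero_mul] at h1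
    exact_mod_cast h1
  have hm1 : ∀ i j, i ≠ j → m i ≠ m j ∧ m i ≠ -m j := by
    intro i j hij
    obtain ⟨h1, h2⟩ := hχ i j hij
    constructor
    · intro h
      apply h1
      funext t
      have h3 := hβ i t
      have h4 := hβ j t
      rw [hβm, h, ← hβm j, ← h4] at h3
      exact_mod_cast h3
    · intro h
      apply h2
      funext t
      have h3 := hβ i t
      have h4 := hβ j t
      rw [hβm, h] at h3
      rw [hβm] at h4
      have h5 : (χ i t : ℝ) = -(χ j t : ℝ) := by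
        rw [h3, h4]
        push_cast
        ring
      rw [Pi.neg_apply]
      exact_mod_cast h5
  -- the phases
  have hph : ∀ j y, ph (χ j) y = m j * (ph (χ j0) y / q) := by
    intro j y
    unfold ph
    rw [Finset.sum_div, Finset.mul_sum]
    refine Finset.sum_congr rfl fun t _ => ?_
    rw [hβ j t, hβm]
    ring
  -- the polynomial
  set M : ℤ := ∑ j, |m j| with hM
  have hMj : ∀ j, |m j| ≤ M := fun j =>
    Finset.single_le_sum (f := fun j => |m j|) (fun _ _ => abs_nonneg _) (Finset.mem_univ j)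
  set P : Polynomial ℂ := Polynomial.monomial M.toNat (C0 : ℂ) +
    ∑ j, (Polynomial.monomial (M + m j).toNat (D j / 2) +
      Polynomial.monomial (M - m j).toNat ((starRingEnd ℂ) (D j) / 2)) with hP
  have hM0 : 0 ≤ M := Finset.sum_nonneg fun _ _ => abs_nonneg _
  have hplus : ∀ j, 0 ≤ M + m j := fun j => by
    have := hMj j
    have := neg_abs_le (m j)
    linarith
  have hminus : ∀ j, 0 ≤ M - m j := fun j => by
    have := hMj j
    have := le_abs_self (m j)
    linarith
  have hP0 : P ≠ 0 := by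
    intro h0
    have h1 : P.coeff (M + m j0).toNat = 0 := by rw [h0, Polynomial.coeff_zero]
    rw [hP, Polynomial.coeff_add, Polynomial.coeff_monomial, Polynomial.finsetSum_coeff] at h1
    have e1 : M.toNat ≠ (M + m j0).toNat := by
      intro h
      have h2 := congrArg (fun n : ℕ => (n : ℤ)) h
      simp only [Int.toNat_of_nonneg hM0, Int.toNat_of_nonneg (hplus j0)] at h2
      exact hm0 j0 (by linarith)
    rw [if_neg e1, zero_add, Finset.sum_eq_single j0] at h1
    · rw [Polynomial.coeff_add, Polynomial.coeff_monomial, Polynomial.coeff_monomial,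
        if_pos rfl, if_neg] at h1
      · rw [add_zero] at h1
        exact hD j0 (by simpa using h1)
      · intro h
        have h2 := congrArg (fun n : ℕ => (n : ℤ)) h
        simp only [Int.toNat_of_nonneg (hminus j0), Int.toNat_of_nonneg (hplus j0)] at h2
        exact hm0 j0 (by linarith)
    · intro j _ hj
      obtain ⟨h2, h3⟩ := hm1 j j0 hj
      rw [Polynomial.coeff_add, Polynomial.coeff_monomial, Polynomial.coeff_monomial,
        if_neg, if_neg, add_zero]
      · intro h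
        have h4 := congrArg (fun n : ℕ => (n : ℤ)) h
        simp only [Int.toNat_of_nonneg (hminus j), Int.toNat_of_nonneg (hplus j0)] at h4
        exact h3 (by linarith)
      · intro h
        have h4 := congrArg (fun n : ℕ => (n : ℤ)) h
        simp only [Int.toNat_of_nonneg (hplus j), Int.toNat_of_nonneg (hplus j0)] at h4
        exact h2 (by linarith)
    · intro h
      exact absurd (Finset.mem_univ j0) h
  have hfin : {w : ℂ | P.IsRoot w}.Finite := Polynomial.finite_setOfPred_isRoot hP0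
  refine (hfin.image (fun w => w ^ q)).subset ?_
  rintro _ ⟨y, hy, rfl⟩
  set τ : ℝ := ph (χ j0) y / q with hτ
  set w : ℂ := Complex.exp ((τ : ℂ) * Complex.I) with hw
  have hw0 : w ≠ 0 := Complex.exp_ne_zero _
  refine ⟨w, ?_, ?_⟩
  · show Polynomial.eval w P = 0
    have h1 : ((TF C0 D χ y : ℝ) : ℂ) = 0 := by
      rw [show TF C0 D χ y = 0 from hy, Complex.ofReal_zero]
    unfold TF at h1
    push_cast at h1
    have h2 : ∀ j, ((wre (D j) (ph (χ j) y) : ℝ) : ℂ) = D j / 2 * w ^ m j +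
        (starRingEnd ℂ) (D j) / 2 * w ^ (-m j) := by
      intro j
      rw [hph j y]
      exact norm_exp_wre (D j) (m j) τ
    simp only [h2] at h1
    have h3 : Polynomial.eval w P = w ^ M * ((C0 : ℂ) + ∑ j, (D j / 2 * w ^ m j +
        (starRingEnd ℂ) (D j) / 2 * w ^ (-m j))) := by
      rw [hP, Polynomial.eval_add, Polynomial.eval_monomial, Polynomial.eval_finsetSum, mul_add,
        Finset.mul_sum]
      have e1 : w ^ M.toNat = w ^ M := by
        rw [← zpow_natCast, Int.toNat_of_nonneg hM0]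
      rw [e1, mul_comm (C0 : ℂ)]
      congr 1
      refine Finset.sum_congr rfl fun j _ => ?_
      rw [Polynomial.eval_add, Polynomial.eval_monomial, Polynomial.eval_monomial,
        ← zpow_natCast w (M + m j).toNat, ← zpow_natCast w (M - m j).toNat,
        Int.toNat_of_nonneg (hplus j), Int.toNat_of_nonneg (hminus j), zpow_add₀ hw0,
        zpow_sub₀ hw0, zpow_neg]
      ring
    rw [h3, h1, mul_zero]
  · simp only
    rw [hw, ← Complex.exp_int_mul]
    congr 1
    have h4 : (q : ℂ) * (τ : ℂ) = (ph (χ j0) y : ℂ) := by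
      rw [hτ]
      push_cast
      have : (q : ℂ) ≠ 0 := by exact_mod_cast ht0
      field_simp
    rw [← mul_assoc, h4]

lemma geo_zero (D : ℂ) (θ : ℝ) (n : ℕ) (hn : 0 < n) (ω : ℤ) (hω : ¬ (n : ℤ) ∣ ω) :
    ∑ h ∈ Finset.range n, wre D (θ + (h : ℝ) * (2 * Real.pi * ω / n)) = 0 := by
  have hnC : (n : ℂ) ≠ 0 := by exact_mod_cast hn.ne'
  set ζ : ℂ := Complex.exp (2 * Real.pi * ω / n * Complex.I) with hζ
  have hζn : ζ ^ n = 1 := by
    rw [hζ, ← Complex.exp_nat_mul, Complex.exp_eq_one_iff]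
    refine ⟨ω, ?_⟩
    field_simp
  have hζ1 : ζ ≠ 1 := by
    intro h1
    rw [hζ, Complex.exp_eq_one_iff] at h1
    obtain ⟨k, hk⟩ := h1
    apply hω
    refine ⟨k, ?_⟩
    have hπ : (Real.pi : ℂ) ≠ 0 := by exact_mod_cast Real.pi_ne_zero
    have h2 : (ω : ℂ) = n * k := by
      have h3 : (2 * Real.pi * Complex.I : ℂ) ≠ 0 := Complex.two_pi_I_ne_zero
      have h4 : (ω : ℂ) / n * (2 * Real.pi * Complex.I) = k * (2 * Real.pi * Complex.I) := by
        rw [← hk]
        ring
      have h5 := mul_right_cancel₀ h3 h4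
      rw [div_eq_iff hnC] at h5
      rw [h5]
      ring
    exact_mod_cast h2
  have h1 : ∑ h ∈ Finset.range n, ζ ^ h = 0 := by
    have h2 := mul_geom_sum ζ n
    rw [hζn, sub_self] at h2
    rcases mul_eq_zero.mp h2 with h3 | h3
    · exact absurd (sub_eq_zero.mp h3) hζ1
    · exact h3
  have h2 : ∀ h : ℕ, wre D (θ + (h : ℝ) * (2 * Real.pi * ω / n)) =
      ((D * Complex.exp ((θ : ℂ) * Complex.I)) * ζ ^ h).re := by
    intro h
    rw [wre_eq, hζ, ← Complex.exp_nat_mul, mul_assoc D, ← Complex.exp_add]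
    congr 3
    push_cast
    ring
  simp only [h2]
  rw [← Complex.re_sum, ← Finset.mul_sum, h1, mul_zero, Complex.zero_re]

/-- a direction in which no frequency vanishes -/
lemma exists_direction (χ : Fin p → Fin s → ℤ) (hχ0 : ∀ j, χ j ≠ 0) :
    ∃ v : Fin s → ℤ, ∀ j, ∑ t, χ j t * v t ≠ 0 := by
  classical
  set P : Fin p → Polynomial ℤ := fun j => ∑ t : Fin s, Polynomial.monomial (t : ℕ) (χ j t) with hP
  have hPc : ∀ j (t : Fin s), (P j).coeff t = χ j t := by
    intro j t
    rw [hP]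
    simp only [Polynomial.finsetSum_coeff, Polynomial.coeff_monomial]
    rw [Finset.sum_eq_single t]
    · rw [if_pos rfl]
    · intro t' _ ht'
      rw [if_neg]
      intro h
      exact ht' (Fin.ext h)
    · intro h
      exact absurd (Finset.mem_univ t) h
  have hP0 : ∀ j, P j ≠ 0 := by
    intro j h0
    apply hχ0 j
    funext t
    rw [← hPc j t, h0, Polynomial.coeff_zero, Pi.zero_apply]
  have hprod : ∏ j, P j ≠ 0 := Finset.prod_ne_zero_iff.mpr fun j _ => hP0 j
  have hfin : {x : ℤ | (∏ j, P j).IsRoot x}.Finite := Polynomial.finite_setOfPred_isRoot hprod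
  obtain ⟨B, hB⟩ := hfin.exists_notMem
  refine ⟨fun t => B ^ (t : ℕ), fun j h0 => hB ?_⟩
  show Polynomial.eval B (∏ j, P j) = 0
  rw [Polynomial.eval_prod]
  apply Finset.prod_eq_zero (Finset.mem_univ j)
  rw [hP]
  simp only [Polynomial.eval_finsetSum, Polynomial.eval_monomial]
  exact h0

/-- a nonnegative trigonometric polynomial without constant term is zero -/
theorem mean_zero (D : Fin p → ℂ) (χ : Fin p → Fin s → ℤ)
    (hχ0 : ∀ j, χ j ≠ 0) (hF : ∀ y, 0 ≤ TF 0 D χ y) (y : Fin s → ℝ) : TF 0 D χ y = 0 := by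
  classical
  obtain ⟨v, hv⟩ := exists_direction χ hχ0
  set ω : Fin p → ℤ := fun j => ∑ t, χ j t * v t with hω
  set n : ℕ := (∑ j, (ω j).natAbs) + 1 with hn
  have hn0 : 0 < n := by omega
  have hnd : ∀ j, ¬ (n : ℤ) ∣ ω j := by
    intro j hd
    have h1 : (n : ℤ).natAbs ≤ (ω j).natAbs := Int.natAbs_le_of_dvd_ne_zero hd (hv j)
    have h2 : (ω j).natAbs ≤ ∑ j, (ω j).natAbs :=
      Finset.single_le_sum (f := fun j => (ω j).natAbs) (fun _ _ => Nat.zero_le _)
        (Finset.mem_univ j)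
    rw [Int.natAbs_natCast] at h1
    omega
  have hph : ∀ j (h : ℕ), ph (χ j) (fun t => y t + (h : ℝ) * (2 * Real.pi / n) * v t) =
      ph (χ j) y + (h : ℝ) * (2 * Real.pi * ω j / n) := by
    intro j h
    unfold ph
    rw [hω]
    push_cast
    simp only [mul_add, Finset.sum_add_distrib]
    congr 1
    rw [Finset.mul_sum, Finset.sum_div, Finset.mul_sum]
    refine Finset.sum_congr rfl fun t _ => ?_
    ring
  have hsum : ∑ h ∈ Finset.range n, TF 0 D χ (fun t => y t + (h : ℝ) * (2 * Real.pi / n) * v t)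
      = 0 := by
    unfold TF
    simp only [hph, zero_add]
    rw [Finset.sum_comm]
    exact Finset.sum_eq_zero fun j _ => geo_zero (D j) _ n hn0 (ω j) (hnd j)
  have h1 := (Finset.sum_eq_zero_iff_of_nonneg fun h _ => hF _).mp hsum 0
    (Finset.mem_range.mpr hn0)
  simpa using h1

/-- Case C: three frequencies with one relation. -/
theorem caseC (C0 : ℝ) (hC0 : C0 ≠ 0) (D : Fin 3 → ℂ) (hD : ∀ j, D j ≠ 0)
    (χ : Fin 3 → Fin s → ℤ) (hF : ∀ y, 0 ≤ TF C0 D χ y) (a : Fin 3 → ℝ) (ha : ∀ j, a j ≠ 0)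
    (hrel : ∀ b : Fin 3 → ℝ, (∀ t, ∑ i, b i * (χ i t : ℝ) = 0) → ∃ c : ℝ, ∀ i, b i = c * a i) :
    ((fun y => Complex.exp ((ph (χ 0) y : ℂ) * Complex.I)) '' {y | TF C0 D χ y = 0}).Finite := by
  classical
  set N : Fin 3 → ℝ := fun j => (D j).re ^ 2 + (D j).im ^ 2 with hN
  set q : Fin 3 → Polynomial ℝ := fun j =>
    Polynomial.C (-(a j) ^ 2) * Polynomial.X + Polynomial.C (N j) with hq
  have hqd : ∀ j, (q j).natDegree = 1 := fun j =>
    Polynomial.natDegree_linear (by
      have := ha j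
      simpa using this)
  have hq0 : ∀ j, q j ≠ 0 := by
    intro j h
    have := hqd j
    rw [h, Polynomial.natDegree_zero] at this
    exact zero_ne_one this
  set R : Polynomial ℝ := Polynomial.C (C0 ^ 2) + q 2 - q 0 - q 1 with hR
  set W : Polynomial ℝ := R ^ 2 - 4 * q 0 * q 1 - Polynomial.C (4 * C0 ^ 2) * q 2 with hW
  set P : Polynomial ℝ := W ^ 2 - Polynomial.C (64 * C0 ^ 2) * (q 0 * q 1 * q 2) with hP
  have hP0 : P ≠ 0 := by
    intro h0
    rw [hP, sub_eq_zero] at h0
    have h1 := congrArg Polynomial.natDegree h0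
    rw [Polynomial.natDegree_pow, Polynomial.natDegree_C_mul (by positivity),
      Polynomial.natDegree_mul (mul_ne_zero (hq0 0) (hq0 1)) (hq0 2),
      Polynomial.natDegree_mul (hq0 0) (hq0 1), hqd, hqd, hqd] at h1
    omega
  have hfin : {x : ℝ | P.IsRoot x}.Finite := Polynomial.finite_setOfPred_isRoot hP0
  apply finite_angle _ (D 0) (hD 0) (fun y => ph (χ 0) y)
  refine ((hfin.image (fun L => a 0 * Real.sqrt L)).union
    (hfin.image (fun L => -(a 0 * Real.sqrt L)))).subset ?_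
  rintro _ ⟨y, hy, rfl⟩
  obtain ⟨c, hc⟩ := hrel (fun i => wim (D i) (ph (χ i) y)) (fun t => grad_zero C0 D χ hF y hy t)
  have hroot : P.IsRoot (c ^ 2) := by
    show Polynomial.eval (c ^ 2) P = 0
    have hx : ∀ j, wre (D j) (ph (χ j) y) ^ 2 = Polynomial.eval (c ^ 2) (q j) := by
      intro j
      have h1 := wre_sq_add (D j) (ph (χ j) y)
      rw [hc j] at h1
      rw [hq]
      simp only [Polynomial.eval_add, Polynomial.eval_mul, Polynomial.eval_C, Polynomial.eval_X]
      linarith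
    have hs : wre (D 0) (ph (χ 0) y) + wre (D 1) (ph (χ 1) y) + wre (D 2) (ph (χ 2) y) = -C0 := by
      have h1 : TF C0 D χ y = 0 := hy
      unfold TF at h1
      rw [Fin.sum_univ_three] at h1
      linarith
    rw [hP, hW, hR]
    simp only [Polynomial.eval_sub, Polynomial.eval_pow, Polynomial.eval_mul, Polynomial.eval_add,
      Polynomial.eval_C, Polynomial.eval_ofNat, ← hx]
    generalize wre (D 0) (ph (χ 0) y) = x0 at *
    generalize wre (D 1) (ph (χ 1) y) = x1 at *
    generalize wre (D 2) (ph (χ 2) y) = x2 at *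
    have h2 : C0 = -(x0 + x1 + x2) := by linarith
    rw [h2]
    ring
  rcases abs_choice c with h | h
  · left
    refine ⟨c ^ 2, hroot, ?_⟩
    simp only
    rw [Real.sqrt_sq_eq_abs, h, hc 0]
    ring
  · right
    refine ⟨c ^ 2, hroot, ?_⟩
    simp only
    rw [Real.sqrt_sq_eq_abs, h, hc 0]
    ring

lemma sum_three (i j k : Fin 3) (hij : i ≠ j) (hik : i ≠ k) (hjk : j ≠ k) (f : Fin 3 → ℝ) :
    ∑ l, f l = f i + f j + f k := by
  have h1 : (univ : Finset (Fin 3)) = {i, j, k} := by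
    revert i j k
    decide
  rw [h1, Finset.sum_insert (by simp [hij, hik]), Finset.sum_insert (by simp [hjk]),
    Finset.sum_singleton]
  ring

lemma exists_third (i j : Fin 3) (hij : i ≠ j) : ∃ k, i ≠ k ∧ j ≠ k := by
  revert i j
  decide

lemma three_cases (i j k l : Fin 3) (hij : i ≠ j) (hik : i ≠ k) (hjk : j ≠ k) :
    l = i ∨ l = j ∨ l = k := by
  revert i j k l
  decide

/-- **At most three frequencies.** -/
theorem core3 (hp0 : 0 < p) (hp : p ≤ 3) (C0 : ℝ) (D : Fin p → ℂ) (hD : ∀ j, D j ≠ 0)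
    (χ : Fin p → Fin s → ℤ) (hχ0 : ∀ j, χ j ≠ 0)
    (hχ : ∀ i j, i ≠ j → χ i ≠ χ j ∧ χ i ≠ -χ j) (hF : ∀ y, 0 ≤ TF C0 D χ y)
    (hne : ∃ y, TF C0 D χ y ≠ 0) :
    ∃ j, ((fun y => Complex.exp ((ph (χ j) y : ℂ) * Complex.I)) ''
      {y | TF C0 D χ y = 0}).Finite := by
  classical
  by_cases hA : ∃ j, ∀ b : Fin p → ℝ, (∀ t, ∑ i, b i * (χ i t : ℝ) = 0) → b j = 0
  · obtain ⟨j, hj⟩ := hA
    exact ⟨j, caseA C0 D hD χ hF j hj⟩
  push Not at hA
  have hχt : ∀ j, ∃ t, (χ j t : ℝ) ≠ 0 := by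
    intro j
    by_contra hcon
    push Not at hcon
    apply hχ0 j
    funext t
    have := hcon t
    exact_mod_cast this
  have h3 : p = 1 ∨ p = 2 ∨ p = 3 := by omega
  rcases h3 with rfl | rfl | rfl
  · exfalso
    obtain ⟨b, hb, hb0⟩ := hA 0
    obtain ⟨t, ht⟩ := hχt 0
    have h1 := hb t
    rw [Fin.sum_univ_one] at h1
    rcases mul_eq_zero.mp h1 with h2 | h2
    · exact hb0 h2
    · exact ht h2
  · obtain ⟨b, hb, hb0⟩ := hA 0
    refine ⟨1, caseB C0 D hD χ hχ0 hχ 1 fun j => ?_⟩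
    fin_cases j
    · refine ⟨-(b 1) / b 0, fun t => ?_⟩
      have h1 := hb t
      rw [Fin.sum_univ_two] at h1
      show (χ 0 t : ℝ) = _
      rw [div_mul_eq_mul_div, eq_div_iff hb0]
      linarith
    · exact ⟨1, fun t => by simp⟩
  · by_cases hz : ∃ b : Fin 3 → ℝ, (∀ t, ∑ i, b i * (χ i t : ℝ) = 0) ∧ b ≠ 0 ∧ ∃ i, b i = 0
    · obtain ⟨b, hb, hb0, i, hi⟩ := hz
      obtain ⟨j, hj⟩ : ∃ j, b j ≠ 0 := by
        by_contra hcon
        push Not at hcon
        exact hb0 (funext hcon)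
      have hij : i ≠ j := by
        rintro rfl
        exact hj hi
      obtain ⟨k, hik, hjk⟩ := exists_third i j hij
      -- `χ j` is parallel to `χ k`
      have hjk' : ∀ t, (χ j t : ℝ) = -(b k) / b j * χ k t := by
        intro t
        have h1 := hb t
        rw [sum_three i j k hij hik hjk, hi] at h1
        rw [div_mul_eq_mul_div, eq_div_iff hj]
        linarith
      obtain ⟨b', hb', hi'⟩ := hA i
      refine ⟨k, caseB C0 D hD χ hχ0 hχ k fun l => ?_⟩
      rcases three_cases i j k l hij hik hjk with rfl | rfl | rfl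
      · refine ⟨-(b' j * (-(b k) / b j) + b' k) / b' l, fun t => ?_⟩
        have h1 := hb' t
        rw [sum_three l j k hij hik hjk, hjk' t] at h1
        rw [div_mul_eq_mul_div, eq_div_iff hi']
        linarith
      · exact ⟨_, hjk'⟩
      · exact ⟨1, fun t => by simp⟩
    · push Not at hz
      obtain ⟨a, ha, ha0⟩ := hA 0
      have hane : a ≠ 0 := fun h => ha0 (by rw [h]; rfl)
      have hC0 : C0 ≠ 0 := by
        rintro rfl
        obtain ⟨y, hy⟩ := hne
        exact hy (mean_zero D χ hχ0 hF y)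
      refine ⟨0, caseC C0 hC0 D hD χ hF a (hz a ha hane) fun b hb => ⟨b 0 / a 0, fun i => ?_⟩⟩
      by_contra hcon
      have h1 : (fun l => a 0 * b l - b 0 * a l) ≠ 0 := by
        intro h
        apply hcon
        have h2 := congrFun h i
        simp only [Pi.zero_apply] at h2
        rw [div_mul_eq_mul_div, eq_div_iff ha0]
        linarith
      have h2 := hz (fun l => a 0 * b l - b 0 * a l) (by
        intro t
        have h3 := ha t
        have h4 := hb t
        have h5 : ∑ l, (a 0 * b l - b 0 * a l) * (χ l t : ℝ) =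
            a 0 * ∑ l, b l * (χ l t : ℝ) - b 0 * ∑ l, a l * (χ l t : ℝ) := by
          rw [Finset.mul_sum, Finset.mul_sum, ← Finset.sum_sub_distrib]
          exact Finset.sum_congr rfl fun l _ => by ring
        rw [h5, h3, h4]
        ring) h1 0
      exact h2 (by ring)

end Pool.Agent.DD7719.M3
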