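import Pool.Agent.DD7719.TLang

/-! Simple positive recurrences that are not tame. -/

set_option autoImplicit false

namespace Pool.Agent.DD7719.M

open Complex Filter Topology GS

variable {k : ℕ}

/-- the growth of a simple sequence along a class -/
theorem simple_growth (l c : Fin k → ℂ) (hk : 0 < k) (v : ℕ → ℝ)
    (hv : ∀ n, ∑ i, c i * l i ^ n = (v n : ℂ)) (hpos : ∀ n, 0 < v n) (N J : ℕ) (hN : 0 < N) :
    ∃ ρ : ℝ, 0 < ρ ∧ (∃ B : ℝ, ∀ m : ℕ, |v (N * m + J)| ≤ B * ρ ^ m) ∧
      ¬ Tendsto (fun m : ℕ => v (N * m + J) / ρ ^ m) atTop (𝓝 0) := by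
  classical
  set ex : Fin k → ℕ := fun _ => 0 with hex
  set j := J + N * k with hj
  have hjk : k ≤ j := by nlinarith
  have hv' : ∀ n, ∑ i, c i * (n.choose (ex i) : ℂ) * l i ^ (n - ex i) = (v n : ℂ) := by
    intro n
    rw [← hv n]
    apply Finset.sum_congr rfl
    intro i _
    simp [hex]
  rcases level_cases l c ex N j hN (fun i => Nat.zero_le _) with hvan | ⟨i0, hi0, hG, hvan⟩
  · exfalso
    have h1 := hvan 0
    have h2 : ∑ i, c i * l i ^ j = 0 := by
      refine Eq.trans (Finset.sum_congr rfl fun i _ => ?_) h1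
      by_cases h : l i = 0
      · have h3 : j ≠ 0 := by omega
        rw [h, zero_pow h3]
        simp
      · rw [if_pos h]
        simp [hex]
    rw [hv] at h2
    have h3 : v j = 0 := by exact_mod_cast h2
    exact absurd (hpos j) (by rw [h3]; exact lt_irrefl _)
  · have hρ : 0 < ‖l i0‖ := norm_pos_iff.mpr hi0
    have hlev := level_asym l c ex N j hN (fun i => Nat.zero_le _) ‖l i0‖ (ex i0) hρ hvan
    have hasym : Tendsto (fun M : ℕ => ((v (j + N * M) : ℝ) : ℂ) /
        ((‖l i0‖ ^ (N * M) * (M : ℝ) ^ (ex i0) : ℝ) : ℂ) -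
      ((((j + N * M).choose (ex i0) : ℝ) / (M : ℝ) ^ (ex i0) : ℝ) : ℂ) *
        levelSum l c ex N j ‖l i0‖ (ex i0) M)
      atTop (𝓝 0) := by
      refine hlev.congr fun M => ?_
      rw [hv']
    obtain ⟨⟨B, hB⟩, h3, -, -⟩ := level_data l c ex N j hN v ‖l i0‖ (ex i0) hρ hasym
    have hnt := levelSum_not_tendsto l c ex N j hN i0 hi0 hG 1 0 (fun i _ h => by simpa using h)
    have h4 := h3 1 0 one_pos hnt
    set ρ := ‖l i0‖ ^ N with hρdef
    have hρ0 : 0 < ρ := by positivity
    have hidx : ∀ m, N * (m + k) + J = j + N * m := fun m => by rw [hj]; ring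
    refine ⟨ρ, hρ0, ?_, ?_⟩
    · rw [eventually_atTop] at hB
      obtain ⟨N0, hN0⟩ := hB
      refine ⟨|B / ρ ^ k| + ∑ m ∈ Finset.range (N0 + k), |v (N * m + J)| / ρ ^ m, fun m => ?_⟩
      have hρm : 0 < ρ ^ m := by positivity
      rcases lt_or_ge m (N0 + k) with h1 | h1
      · have h2 : |v (N * m + J)| / ρ ^ m ≤
            ∑ m ∈ Finset.range (N0 + k), |v (N * m + J)| / ρ ^ m :=
          Finset.single_le_sum (f := fun m => |v (N * m + J)| / ρ ^ m)
            (fun i _ => by positivity) (Finset.mem_range.mpr h1)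
        rw [div_le_iff₀ hρm] at h2
        have h3 : 0 ≤ |B / ρ ^ k| * ρ ^ m := by positivity
        rw [add_mul]
        linarith
      · obtain ⟨r, rfl⟩ : ∃ r, m = r + k := ⟨m - k, by omega⟩
        have h5 := hN0 r (by omega)
        rw [← hidx, pow_zero, mul_one] at h5
        have h6 : 0 ≤ (∑ m ∈ Finset.range (N0 + k), |v (N * m + J)| / ρ ^ m) * ρ ^ (r + k) := by
          positivity
        have h7 : B * ρ ^ r ≤ |B / ρ ^ k| * ρ ^ (r + k) := by
          calc B * ρ ^ r = B / ρ ^ k * ρ ^ (r + k) := by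
                rw [pow_add]
                field_simp
            _ ≤ _ := mul_le_mul_of_nonneg_right (le_abs_self _) (by positivity)
        rw [add_mul]
        linarith
    · intro hcon
      apply h4
      have h5 := (hcon.comp (tendsto_add_atTop_nat k)).mul_const (ρ ^ k)
      rw [zero_mul] at h5
      refine h5.congr fun m => ?_
      simp only [Function.comp_apply, one_mul, add_zero]
      rw [hidx, pow_add, show ((m : ℝ)) ^ ex i0 = 1 from pow_zero _, mul_one]
      field_simp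

end Pool.Agent.DD7719.M

namespace Pool.Agent.UltPos

open Filter Topology Pool.Agent.DD7719.M

/-- A simple positive sequence that is not tame has, for every modulus, a residue class along which
its normalised limit inferior is `0`. -/
theorem Inst.Simple.liminf_of_not_tame {I : Inst} (hI : I.Simple) (hP : I.Positive)
    (hT : ¬ I.Tame) (v : ℕ → ℚ) (hv : I.IsSeq v) (N : ℕ) (hN : 0 < N) :
    ∃ J, J < N ∧ ∃ ρ : ℝ, 0 < ρ ∧
      (∃ B : ℝ, ∀ m : ℕ, |(v (N * m + J) : ℝ)| ≤ B * ρ ^ m) ∧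
      ¬ Tendsto (fun m : ℕ => (v (N * m + J) : ℝ) / ρ ^ m) atTop (𝓝 0) ∧
      liminf (fun m : ℕ => (v (N * m + J) : ℝ) / ρ ^ m) atTop = 0 := by
  obtain ⟨l, c, ex, hrd, -, -⟩ := exists_rootData I.k I.aQ I.uQ
  have hex : ∀ i, i < I.k → ex i = 0 := by
    intro i hi
    by_contra hne
    have h1 := (I.simple_iff (fun t => ((I.aQ t : ℚ) : ℝ)) (fun t h => by
      simp only [Inst.aQ, h, dif_pos])).mp hI
    exact h1 ⟨l i, fun e he => hrd.2.2.1 i hi e (by omega)⟩
  have hall := hrd.all (fun n => ((v n : ℚ) : ℝ)) (by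
    intro n hn
    have := hv.1 ⟨n, hn⟩
    simp only [Inst.uQ, hn, dif_pos]
    exact_mod_cast this) (by
    intro n hn
    rw [hv.2 n hn, Finset.sum_range]
    push_cast
    apply Finset.sum_congr rfl
    intro t _
    simp only [Inst.aQ, t.2, dif_pos])
  by_contra hcon
  push Not at hcon
  apply hT
  refine ⟨v, hv, N, hN, fun J hJ => ?_⟩
  obtain ⟨ρ, hρ, hB, hnt⟩ := simple_growth (k := I.k) (fun i => l i) (fun i => c i) I.kpos
    (fun n => ((v n : ℚ) : ℝ)) (fun n => by
      rw [← hall n]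
      apply Finset.sum_congr rfl
      intro i _
      rw [hex i i.2]
      simp) (fun n => by exact_mod_cast hP v hv n) N J hN
  exact ⟨ρ, hρ, hB, hcon J hJ ρ hρ hB hnt⟩

end Pool.Agent.UltPos
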