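import Pool.Agent.DD7719.NLang
import Pool.Agent.DD7719.TSimple

/-! Simple positive recurrences that are not narrow. -/

set_option autoImplicit false

namespace Pool.Agent.UltPos

open Filter Topology Pool.Agent.DD7719.M

/-- A tame instance is narrow. -/
theorem Inst.Tame.narrow {I : Inst} (h : I.Tame) : I.Narrow := by
  obtain ⟨v, hv, N, hN, h⟩ := h
  refine ⟨v, hv, N, hN, fun J hJ => ?_⟩
  obtain ⟨ρ, hρ, hB, hl⟩ := h J hJ
  exact ⟨ρ, hρ, hB, Or.inl hl⟩

/-- A simple positive sequence that is not narrow has, for every modulus, a residue class along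
which its normalised limit inferior is `0` and all the sets of contact values are infinite. -/
theorem Inst.Simple.contact_of_not_narrow {I : Inst} (hI : I.Simple) (hP : I.Positive)
    (hT : ¬ I.Narrow) (v : ℕ → ℚ) (hv : I.IsSeq v) (N : ℕ) (hN : 0 < N) :
    ∃ J, J < N ∧ ∃ ρ : ℝ, 0 < ρ ∧
      (∃ B : ℝ, ∀ m : ℕ, |(v (N * m + J) : ℝ)| ≤ B * ρ ^ m) ∧
      ¬ Tendsto (fun m : ℕ => (v (N * m + J) : ℝ) / ρ ^ m) atTop (𝓝 0) ∧
      liminf (fun m : ℕ => (v (N * m + J) : ℝ) / ρ ^ m) atTop = 0 ∧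
      ∀ a ∈ I.rootSet, ∀ b ∈ I.rootSet, ‖a‖ = ‖b‖ → (∀ n : ℕ, 0 < n → a ^ n ≠ b ^ n) →
        (contactSet (fun n => (v n : ℝ)) N J ρ (a / b)).Infinite := by
  obtain ⟨l, c, ex, hrd, -, -⟩ := exists_rootData I.k I.aQ I.uQ
  have hex : ∀ i, i < I.k → ex i = 0 := by
    intro i hi
    by_contra hne
    have h1 := (I.simple_iff (fun t => ((I.aQ t : ℚ) : ℝ)) (fun t h => by
      simp only [Inst.aQ, h, dif_pos])).mp hI
    exact h1 ⟨l i, fun e he => hrd.2.2.1 i hi e (by omega)⟩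
  have hall := hrd.all (fun n => ((v n : ℚ) : ℝ)) (by
    intro n hn
    have := hv.1 ⟨n, hn⟩
    simp only [Inst.uQ, hn, dif_pos]
    exact_mod_cast this) (by
    intro n hn
    rw [hv.2 n hn, Finset.sum_range]
    push_cast
    apply Finset.sum_congr rfl
    intro t _
    simp only [Inst.aQ, t.2, dif_pos])
  by_contra hcon
  push Not at hcon
  apply hT
  refine ⟨v, hv, N, hN, fun J hJ => ?_⟩
  obtain ⟨ρ, hρ, hB, hnt⟩ := simple_growth (k := I.k) (fun i => l i) (fun i => c i) I.kpos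
    (fun n => ((v n : ℚ) : ℝ)) (fun n => by
      rw [← hall n]
      apply Finset.sum_congr rfl
      intro i _
      rw [hex i i.2]
      simp) (fun n => by exact_mod_cast hP v hv n) N J hN
  refine ⟨ρ, hρ, hB, ?_⟩
  by_cases hl : liminf (fun m : ℕ => ((v (N * m + J) : ℚ) : ℝ) / ρ ^ m) atTop = 0
  · right
    obtain ⟨a, ha, b, hb, hab, htor, hinf⟩ := hcon J hJ ρ hρ hB hnt hl
    exact ⟨a, ha, b, hb, hab, htor, hinf⟩
  · exact Or.inl hl

end Pool.Agent.UltPos
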