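import Pool.Agent.DD7719.N3Nar
import Pool.Agent.DD7719.NSimple
import Pool.Agent.UltPos.EightRoots

/-! Simple positive instances with at most eight roots on each circle are narrow. -/

set_option autoImplicit false

namespace Pool.Agent.DD7719.M

lemma GoodD.mono {k : ℕ} {l c : Fin k → ℂ} {ex : Fin k → ℕ} {R M M' : ℕ} {ε δ : ℝ} {v : ℕ → ℝ}
    (h : GoodD k l c ex R M ε δ v) (h1 : 1 ≤ M') (h2 : M' ≤ M) (hδ : 0 ≤ δ) :
    GoodD k l c ex R M' ε δ v where
  hk := h.hk
  hex := h.hex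
  hdc := h.hdc
  hR := h.hR
  hM := h1
  hrb := h.hrb
  hε := h.hε
  hδ := by
    refine le_trans ?_ h.hδ
    have h3 : (M' : ℝ) ≤ M := by exact_mod_cast h2
    gcongr
  hv := h.hv

end Pool.Agent.DD7719.M

namespace Pool.Agent.UltPos

open Pool.Agent.PT Pool.Agent.AllR Pool.Agent.DD7719.M Pool.Agent.DD7719 Finset

section
variable (I : Inst) (L : ℕ) (hkL : I.k ≤ L)
    (hb : ∀ i, (I.aNum i).natAbs ≤ 2 ^ L ∧ I.aDen i ≤ 2 ^ L) (aR uR : ℕ → ℝ)
    (ha : ∀ t (h : t < I.k), aR t = (I.a ⟨t, h⟩ : ℝ)) (hu : ∀ t (h : t < I.k), uR t = (I.u ⟨t, h⟩ : ℝ))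
    (v : ℕ → ℚ) (hv : I.IsSeq v)

include ha in
lemma Inst.conj_mem (z : ℂ) (hz : z ∈ I.rootSet) : (starRingEnd ℂ) z ∈ I.rootSet := by
  rw [I.mem_rootSet_iff aR ha] at hz ⊢
  have := congrArg (starRingEnd ℂ) hz
  rw [map_pow, map_sum] at this
  rw [this]
  apply Finset.sum_congr rfl
  intro t _
  rw [map_mul, map_pow, Complex.conj_ofReal]

include hkL hb ha hu hv in
theorem Inst.nar_of_eight (hS : I.Simple) (hpos : ∀ n, 0 < v n) (h3 : I.EightPerCircle) :
    IsNar (fun n => ((v n : ℚ) : ℝ)) I.rootSet := by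
  classical
  obtain ⟨l, c, ex, hrd⟩ := I.exists_rootData' aR uR ha hu
  have hex : ∀ i, i < I.k → ex i = 0 := by
    intro i hi
    by_contra hne
    have h1 := (I.simple_iff aR ha).mp hS
    exact h1 ⟨l i, fun e he => hrd.2.2.1 i hi e (by omega)⟩
  have hg := (I.goodD L hkL hb aR uR ha hu v hv hrd).mono (M' := 2 ^ pmh L) Nat.one_le_two_pow
    (Nat.pow_le_pow_right (by norm_num) (by unfold pbm; omega)) (by positivity)
  obtain ⟨e, he0, hele, htor⟩ := torsion_of_roots I.k I.num I.den I.den_pos' (fun i => l i)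
    (I.root_eq' aR uR ha hrd)
  obtain ⟨n0, hn0, hn0Nb, hen0, hcls⟩ := class_data0 (k := I.k) (fun i => l i) (fun i => c i)
      (fun i => ex i) (2 ^ pr L)
      (2 ^ pq L) (2 ^ pmh L) (2 ^ (pdl L + 3)) e (2 ^ (1 + 2 * L * L + (pdl L + 3) * L)) I.kpos
      (fun i => hrd.1 i i.2) Nat.one_le_two_pow
      (le_trans (by
        have : 2 * I.k * 2 ^ pr L ≤ 8 * I.k * 2 ^ pr L := by
          gcongr
          norm_num
        exact this) (pQ_le hkL)) (pMH_le hkL) (1 / 2 ^ pdl L) (by positivity) (pd2 hkL) (pd4 hkL)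
      (pd3 hkL) (by positivity) (pd5 L) he0 (pNb_le hkL hele) (I.relBound' L hkL hb aR uR ha hrd)
      (fun n => ((v n : ℚ) : ℝ)) (I.all' aR uR ha hu v hv hrd)
  have hexj : ∀ i : Fin I.k, ex i = 0 := fun i => hex i i.2
  have hrange : Set.range (fun i : Fin I.k => l i) = I.rootSet := by
    ext z
    constructor
    · rintro ⟨i, rfl⟩
      exact I.root_mem aR uR ha hrd i
    · intro hz
      obtain ⟨i, hi⟩ := I.root_surj aR uR ha hrd z hz
      exact ⟨i, hi⟩
  have hconj : ∀ i : Fin I.k, ∃ i' : Fin I.k, l i' = (starRingEnd ℂ) (l i) := fun i =>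
    I.root_surj aR uR ha hrd _ (I.conj_mem aR ha _ (I.root_mem aR uR ha hrd i))
  have hU : ∀ r : ℝ, ({z | z ∈ Set.range (fun i : Fin I.k => l i) ∧ ‖z‖ = r}).ncard ≤ 8 := by
    intro r
    rw [hrange]
    have h4 := h3 r
    have h5 : ({z | z ∈ I.rootSet ∧ ‖z‖ = r}).Finite := by
      rw [← hrange]
      exact (Set.finite_range _).subset fun z hz => hz.1
    rw [← h5.cast_ncard_eq] at h4
    exact_mod_cast h4
  have htor' : ∀ i i' : Fin I.k, ‖l i‖ = ‖l i'‖ → l i ^ n0 ≠ l i' ^ n0 →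
      ∀ n : ℕ, 0 < n → l i ^ n ≠ l i' ^ n := by
    intro i i' hii hne n hn heq
    have hi' : l i' ≠ 0 := by
      intro h0
      rw [h0, norm_zero, norm_eq_zero] at hii
      apply hne
      rw [hii, h0]
    have hi : l i ≠ 0 := by
      intro h0
      rw [h0, norm_zero] at hii
      exact hi' (norm_eq_zero.mp hii.symm)
    have h1 := htor i i' hi hi' ⟨n, hn, by rw [div_pow, heq, div_self (pow_ne_zero _ hi')]⟩
    apply hne
    obtain ⟨r, hr⟩ := hen0
    rw [div_pow, div_eq_one_iff_eq (pow_ne_zero _ hi')] at h1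
    rw [hr, pow_mul, pow_mul, h1]
  have hvpos : ∀ n, (0 : ℝ) < ((v n : ℚ) : ℝ) := fun n => by exact_mod_cast hpos n
  have h1 := isNar_of_cls (k := I.k) (fun i => l i) (fun i => c i) (fun i => ex i)
    (fun i => hrd.1 i i.2) (2 ^ pmh L) (2 ^ (1 + 2 * L * L + (pdl L + 3) * L))
    (2 / ((2 ^ pq L : ℕ) : ℝ)) (1 / 2 ^ pdl L) n0 hn0 (fun n => ((v n : ℚ) : ℝ))
    (I.all' aR uR ha hu v hv hrd) htor' (by
      intro j hj hj'
      obtain ⟨A, H, D, s, w, τ, x, hrep, hcase⟩ := hcls j hj hj'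
      rcases hcase with hbase | ⟨i0, hbase, hi0, ⟨z', hz', hne⟩, hvan⟩
      · exfalso
        obtain ⟨hn0', _, hj, _, hs, hD, hDM, hHA, hA, hH, hδ', hw, hwε, hρ, hd, hvan⟩ := hbase
        have hvan' := vanish_gen (fun i : Fin I.k => l i) (fun i => c i) (fun i => ex i) hg.hdc
          (fun i => Above 0 0 (l i) (ex i)) j n0 hvan
        have h2 : ∑ i : Fin I.k, c i * ((j + n0 * 0).choose (ex i) : ℂ) *
            l i ^ (j + n0 * 0 - ex i) =
            ∑ i : Fin I.k, (if Above 0 0 (l i) (ex i) then c i * ((j + n0 * 0).choose (ex i) : ℂ) *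
              l i ^ (j + n0 * 0 - ex i) else 0) := by
          apply Finset.sum_congr rfl
          intro i _
          split_ifs with h
          · rfl
          · have h3 : l i = 0 := by
              by_contra h4
              apply h
              left
              exact norm_pos_iff.mpr h4
            rw [h3, zero_pow, mul_zero]
            have := hg.hex i
            have := hexj i
            omega
        rw [I.all' aR uR ha hu v hv hrd, hvan' 0] at h2
        have h3 : ((v (j + n0 * 0) : ℚ) : ℝ) = 0 := by exact_mod_cast h2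
        have h4 := hvpos (j + n0 * 0)
        linarith
      · simp only [hexj i0] at hbase hne hvan
        obtain ⟨hF, hz3⟩ := zeros_eight (k := I.k) (fun i => l i) (fun i => c i) (fun i => ex i)
          (2 ^ pr L) (2 ^ pmh L) (2 ^ (1 + 2 * L * L + (pdl L + 3) * L))
          (2 / ((2 ^ pq L : ℕ) : ℝ)) (1 / 2 ^ pdl L) (fun n => ((v n : ℚ) : ℝ)) hg hvpos hconj hU
          n0 j A H D s w τ ‖l i0‖ hbase (norm_pos_iff.mpr hi0) z' hz' hne
        exact ⟨A, H, D, s, w, τ, x, i0, hrep, hbase, hi0, ⟨z', hz', hne⟩, hF, hz3, hvan⟩)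
  rw [hrange] at h1
  exact h1

end

/-- **At most eight roots on each circle.** -/
theorem Inst.Simple.narrow_of_eight {I : Inst} (hS : I.Simple) (hP : I.Positive)
    (h3 : I.EightPerCircle) : I.Narrow := by
  classical
  obtain ⟨v, hv, -⟩ := I.exists_unique_seq
  set L : ℕ := I.k + ∑ i, ((I.aNum i).natAbs + I.aDen i) with hL
  have hb : ∀ i, (I.aNum i).natAbs ≤ 2 ^ L ∧ I.aDen i ≤ 2 ^ L := by
    intro i
    have h1 : (I.aNum i).natAbs + I.aDen i ≤ ∑ i, ((I.aNum i).natAbs + I.aDen i) :=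
      Finset.single_le_sum (f := fun i => (I.aNum i).natAbs + I.aDen i)
        (fun _ _ => Nat.zero_le _) (Finset.mem_univ i)
    have h2 : L ≤ 2 ^ L := Nat.lt_two_pow_self.le
    constructor <;> omega
  exact ⟨v, hv, I.nar_of_eight L (by omega) hb (fun t => ((I.aQ t : ℚ) : ℝ))
    (fun t => ((I.uQ t : ℚ) : ℝ)) (fun t h => by simp only [Inst.aQ, h, dif_pos])
    (fun t h => by simp only [Inst.uQ, h, dif_pos]) v hv hS (hP v hv) h3⟩

end Pool.Agent.UltPos
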