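import Pool.Agent.DD7719.NLang
import Pool.Agent.DD7719.N3Inst

/-! Positivity of simple recurrences with at most eight characteristic roots on each circle. -/

set_option autoImplicit false

namespace Pool.Agent.UltPos

open Pool.Agent.PT Pool.Agent.AllR Pool.Agent.DD7719.M Pool.Agent.DD7719 Finset

/-- nine characteristic roots on one circle -/
def NineRoots (k : ℕ) (a : ℕ → ℝ) : Prop := ∃ z : ℕ → ℂ,
  (∀ i, i < 9 → z i ^ k = ∑ t ∈ range k, (a t : ℂ) * z i ^ (k - 1 - t)) ∧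
  (∀ i, i < 9 → ‖z i‖ = ‖z 0‖) ∧ ∀ i, i < 9 → ∀ i', i' < 9 → i < i' → z i ≠ z i'

theorem re_nine {Γ : Type} (kk : List Γ → ℕ) (aR : List Γ → ℕ → ℝ)
    (hk : UF (fun x _ => kk x)) (ha : RF (fun x e _ => aR x (e 0))) :
    RE (fun x _ _ => NineRoots (kk x) (aR x)) := by
  have h1 : RE (fun x _ _ => ∃ α : ℕ → ℝ,
      (∀ i, i < 9 → rl α i ^ kk x = ∑ t ∈ range (kk x), (aR x t : ℂ) * rl α i ^ (kk x - 1 - t)) ∧
      (∀ i, i < 9 → ‖rl α i‖ = ‖rl α 0‖) ∧
      ∀ i, i < 9 → ∀ i', i' < 9 → i < i' → rl α i ≠ rl α i') := by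
    refine RE.exb ?_
    refine RE.aff (R := fun x e α =>
      (∀ i, i < 9 → rl α i ^ kk x = ∑ t ∈ range (kk x), (aR x t : ℂ) * rl α i ^ (kk x - 1 - t)) ∧
      (∀ i, i < 9 → ‖rl α i‖ = ‖rl α 0‖) ∧
      ∀ i, i < 9 → ∀ i', i' < 9 → i < i' → rl α i ≠ rl α i') ?_ 2 1
    refine RE.and (RE.ball (UF.const 9) (RE.ceq ((cf_rl (UF.var 0)).pow hk) (CF.sum hk ?_)))
      (RE.and (RE.ball (UF.const 9) (RE.eq (cf_rl (UF.var 0)).norm (cf_rl (UF.const 0)).norm))
      (RE.ball (UF.const 9) (RE.ball (UF.const 9) (RE.guard (UP.lt (UF.var 1) (UF.var 0))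
        (RE.cne (cf_rl (UF.var 1)) (cf_rl (UF.var 0)))))))
    refine (CF.ofReal ?_).mul ((cf_rl (UF.var 1)).pow ((hk.sub (UF.const 1)).sub (UF.var 0)))
    exact ha
  refine h1.congr fun x e α => ?_
  constructor
  · rintro ⟨α, h⟩
    exact ⟨rl α, h⟩
  · rintro ⟨z, h⟩
    refine ⟨encAll z 0 0 0 0 0 0 0 0 0 0 0 0, ?_⟩
    rw [rl_enc]
    exact h

lemma Inst.eight_iff (I : Inst) (aR : ℕ → ℝ)
    (ha : ∀ t (h : t < I.k), aR t = (I.a ⟨t, h⟩ : ℝ)) : I.EightPerCircle ↔ ¬ NineRoots I.k aR := by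
  classical
  constructor
  · rintro h ⟨z, h1, h2, h3⟩
    have h4 := h ‖z 0‖
    set S := (Finset.range 9).image z with hS
    have hcard : S.card = 9 := by
      rw [hS, Finset.card_image_of_injOn, Finset.card_range]
      intro i hi i' hi' hii
      rw [Finset.coe_range, Set.mem_Iio] at hi hi'
      by_contra hne
      rcases lt_or_gt_of_ne hne with h5 | h5
      · exact h3 i hi i' hi' h5 hii
      · exact h3 i' hi' i hi h5 hii.symm
    have hsub : (S : Set ℂ) ⊆ {z' | z' ∈ I.rootSet ∧ ‖z'‖ = ‖z 0‖} := by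
      intro z' hz'
      rw [hS, Finset.coe_image] at hz'
      obtain ⟨i, hi, rfl⟩ := hz'
      rw [Finset.coe_range, Set.mem_Iio] at hi
      exact ⟨(I.mem_rootSet_iff aR ha _).mpr (h1 i hi), h2 i hi⟩
    have h5 := (Set.encard_le_encard hsub).trans h4
    rw [Set.encard_coe_eq_coe_finsetCard, hcard] at h5
    norm_num at h5
  · intro h r
    by_contra hcon
    push Not at hcon
    apply h
    have h4 : ((9 : ℕ) : ℕ∞) ≤ Set.encard {z : ℂ | z ∈ I.rootSet ∧ ‖z‖ = r} := by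
      have h5 := Order.add_one_le_of_lt hcon
      norm_num at h5 ⊢
      exact h5
    obtain ⟨T, hT, hTc⟩ := Set.exists_subset_encard_eq h4
    have hTf : T.Finite := Set.finite_of_encard_eq_coe hTc
    have hTc' : hTf.toFinset.card = 9 := by
      rw [hTf.encard_eq_coe_toFinset_card] at hTc
      exact_mod_cast hTc
    obtain ⟨e⟩ : Nonempty (Fin 9 ≃ hTf.toFinset) := by
      refine ⟨(Fintype.equivFinOfCardEq ?_).symm⟩
      rw [Fintype.card_coe, hTc']
    refine ⟨fun i => if hi : i < 9 then (e ⟨i, hi⟩ : ℂ) else 0, ?_, ?_, ?_⟩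
    · intro i hi
      simp only [hi, dif_pos]
      have h5 := hT (hTf.mem_toFinset.mp (e ⟨i, hi⟩).2)
      exact (I.mem_rootSet_iff aR ha _).mp h5.1
    · intro i hi
      simp only [hi, dif_pos, show (0 : ℕ) < 9 by norm_num]
      have h5 := hT (hTf.mem_toFinset.mp (e ⟨i, hi⟩).2)
      have h6 := hT (hTf.mem_toFinset.mp (e ⟨0, by norm_num⟩).2)
      exact h5.2.trans h6.2.symm
    · intro i hi i' hi' hii heq
      simp only [hi, hi', dif_pos] at heq
      have h5 := e.injective (Subtype.ext heq)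
      rw [Fin.mk.injEq] at h5
      omega

/-- **Positivity of simple recurrences with at most eight characteristic roots on each circle
is in `∀ℝ`.** -/
theorem inForallR_eight :
    InForallR {w : List ISym |
      ∃ I : Inst, w = I.enc ∧ I.Simple ∧ I.EightPerCircle ∧ I.Positive} := by
  obtain ⟨kk, sg, nb, db, hkk, hsg, hnb, hdb, hI⟩ := exists_parser
  have hdbl := re_double kk (fieldR sg nb db 0) hkk (rf_fieldR 0 hsg hnb hdb)
  have hnine := re_nine kk (fieldR sg nb db 0) hkk (rf_fieldR 0 hsg hnb hdb)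
  have hfa : ∀ (I : Inst) (t : ℕ) (ht : t < I.k), fieldR sg nb db 0 I.enc t = (I.a ⟨t, ht⟩ : ℝ) := by
    intro I t ht
    obtain ⟨e1, e2, e3, e4, e5, e6, e7⟩ := hI I
    rw [Inst.a, fieldR]
    push_cast
    have h3 := congrArg (fun z : ℤ => (z : ℝ)) (e3 ⟨t, ht⟩)
    have h4 := congrArg (fun z : ℤ => (z : ℝ)) (e4 ⟨t, ht⟩)
    simp only at h3 h4
    push_cast at h3 h4
    rw [h3, h4]
  have hsimp : ∀ I : Inst, I.Simple ↔ ¬ DoubleRoot (kk I.enc) (fieldR sg nb db 0 I.enc) := by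
    intro I
    rw [(hI I).1]
    exact I.simple_iff _ (hfa I)
  have height : ∀ I : Inst, I.EightPerCircle ↔
      ¬ NineRoots (kk I.enc) (fieldR sg nb db 0 I.enc) := by
    intro I
    rw [(hI I).1]
    exact I.eight_iff _ (hfa I)
  have h := inForallR_narrow_and (fun x => DoubleRoot (kk x) (fieldR sg nb db 0 x) ∨
    NineRoots (kk x) (fieldR sg nb db 0 x)) (RE.or hdbl hnine)
  have hset : {w : List ISym | ∃ I : Inst, w = I.enc ∧ I.Simple ∧ I.EightPerCircle ∧ I.Positive} =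
      {w : List ISym | ∃ I : Inst, w = I.enc ∧ I.Positive ∧ I.Narrow ∧
        ¬ (DoubleRoot (kk w) (fieldR sg nb db 0 w) ∨ NineRoots (kk w) (fieldR sg nb db 0 w))} := by
    ext w
    constructor
    · rintro ⟨I, rfl, hS, h3, hP⟩
      exact ⟨I, rfl, hP, hS.narrow_of_eight hP h3,
        not_or.mpr ⟨(hsimp I).mp hS, (height I).mp h3⟩⟩
    · rintro ⟨I, rfl, hP, -, hE⟩
      obtain ⟨h1, h2⟩ := not_or.mp hE
      exact ⟨I, rfl, (hsimp I).mpr h1, (height I).mpr h2, hP⟩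
  rw [hset]
  exact h

/-- Instances of order at most eight have at most eight characteristic roots on each circle. -/
theorem Inst.eight_of_order {I : Inst} (hk : I.k ≤ 8) : I.EightPerCircle := by
  classical
  intro r
  obtain ⟨l, c, ex, hrd⟩ := I.exists_rootData' (fun t => ((I.aQ t : ℚ) : ℝ))
    (fun t => ((I.uQ t : ℚ) : ℝ)) (fun t h => by simp only [Inst.aQ, h, dif_pos])
    (fun t h => by simp only [Inst.uQ, h, dif_pos])
  have h1 : {z : ℂ | z ∈ I.rootSet ∧ ‖z‖ = r} ⊆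
      (((Finset.range I.k).image l : Finset ℂ) : Set ℂ) := by
    rintro z ⟨hz, -⟩
    obtain ⟨i, hi⟩ := I.root_surj (fun t => ((I.aQ t : ℚ) : ℝ)) (fun t => ((I.uQ t : ℚ) : ℝ))
      (fun t h => by simp only [Inst.aQ, h, dif_pos]) hrd z hz
    rw [Finset.coe_image]
    exact ⟨i, by rw [Finset.coe_range]; exact i.2, hi⟩
  refine (Set.encard_le_encard h1).trans ?_
  rw [Set.encard_coe_eq_coe_finsetCard]
  have h2 : ((Finset.range I.k).image l).card ≤ 8 :=
    Finset.card_image_le.trans (by rw [Finset.card_range]; exact hk)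
  exact_mod_cast h2

end Pool.Agent.UltPos
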