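import Pool.Agent.DD7719.NNar
import Pool.Agent.DD7719.N3Core

/-! Positive sequences with at most eight roots on each circle. -/

set_option autoImplicit false

namespace Pool.Agent.DD7719.M

open Complex Filter Topology GS
open Pool.Agent.DD7719.M3

variable {k : ℕ}

/-- the frequency of the index `i` -/
def frq (A : Fin k → Fin k → ℤ) (s : ℕ) (i : Fin k) (t : Fin k) : ℤ := if (t : ℕ) < s then A t i else 0

/-- the point of the torus with the given angles -/
noncomputable def tor (y : Fin k → ℝ) (t : Fin k) : ℂ := exp ((y t : ℂ) * I)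

lemma norm_tor (y : Fin k → ℝ) (t : Fin k) : ‖tor y t‖ = 1 := norm_exp_ofReal_mul_I _

lemma exists_tor (z : Fin k → ℂ) (hz : ∀ t, ‖z t‖ = 1) : ∃ y, tor y = z := by
  refine ⟨fun t => (z t).arg, ?_⟩
  funext t
  rw [tor, exp_arg (hz t)]

lemma Wt_tor (A : Fin k → Fin k → ℤ) (s : ℕ) (y : Fin k → ℝ) (i : Fin k) :
    Wt A s (tor y) i = exp ((ph (frq A s i) y : ℂ) * I) := by
  have h3 : ∀ t : Fin k, (if (t : ℕ) < s then tor y t ^ A t i else 1) =
      exp ((((frq A s i t : ℝ) * y t : ℝ) : ℂ) * I) := by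
    intro t
    unfold frq
    split_ifs with ht
    · rw [tor, ← exp_int_mul]
      congr 1
      push_cast
      ring
    · simp
  rw [Wt, Finset.prod_congr rfl fun t _ => h3 t, ← exp_sum, ← Finset.sum_mul, ← ofReal_sum]
  rfl

lemma wre_add (D D' : ℂ) (θ : ℝ) : wre (D + D') θ = wre D θ + wre D' θ := by
  unfold wre
  rw [add_re, add_im]
  ring

lemma wre_conj (D : ℂ) (θ : ℝ) : wre ((starRingEnd ℂ) D) θ = wre D (-θ) := by
  unfold wre
  rw [conj_re, conj_im, Real.cos_neg, Real.sin_neg]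
  ring

lemma wre_zero (θ : ℝ) : wre 0 θ = 0 := by
  unfold wre
  simp

lemma ph_zero (y : Fin k → ℝ) : ph (0 : Fin k → ℤ) y = 0 := by
  unfold ph
  simp

lemma ph_neg (χ : Fin k → ℤ) (y : Fin k → ℝ) : ph (-χ) y = -ph χ y := by
  unfold ph
  rw [← Finset.sum_neg_distrib]
  refine Finset.sum_congr rfl fun t _ => ?_
  rw [Pi.neg_apply]
  push_cast
  ring

/-- a representation of `F` by the frequencies of `T` -/
def RepT (F : (Fin k → ℝ) → ℝ) (χ : Fin k → Fin k → ℤ) (T : Finset (Fin k)) : Prop :=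
  ∃ (C0 : ℝ) (D : Fin k → ℂ), ∀ y, F y = C0 + ∑ i ∈ T, wre (D i) (ph (χ i) y)

lemma RepT.of_eq_zero {F : (Fin k → ℝ) → ℝ} {χ : Fin k → Fin k → ℤ} {T : Finset (Fin k)}
    {C0 : ℝ} {D : Fin k → ℂ} (h : ∀ y, F y = C0 + ∑ i ∈ T, wre (D i) (ph (χ i) y)) (i : Fin k)
    (hi : i ∈ T) (hD : D i = 0) : RepT F χ (T.erase i) := by
  refine ⟨C0, D, fun y => ?_⟩
  rw [h y, ← Finset.add_sum_erase T _ hi, hD, wre_zero, zero_add]

lemma RepT.of_frq_zero {F : (Fin k → ℝ) → ℝ} {χ : Fin k → Fin k → ℤ} {T : Finset (Fin k)}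
    {C0 : ℝ} {D : Fin k → ℂ} (h : ∀ y, F y = C0 + ∑ i ∈ T, wre (D i) (ph (χ i) y)) (i : Fin k)
    (hi : i ∈ T) (hχ : χ i = 0) : RepT F χ (T.erase i) := by
  refine ⟨C0 + wre (D i) 0, D, fun y => ?_⟩
  rw [h y, ← Finset.add_sum_erase T _ hi, hχ, ph_zero]
  ring

lemma RepT.of_frq_eq {F : (Fin k → ℝ) → ℝ} {χ : Fin k → Fin k → ℤ} {T : Finset (Fin k)}
    {C0 : ℝ} {D : Fin k → ℂ} (h : ∀ y, F y = C0 + ∑ i ∈ T, wre (D i) (ph (χ i) y)) (i i' : Fin k)
    (hi : i ∈ T) (hi' : i' ∈ T) (hne : i ≠ i') (hχ : χ i = χ i') : RepT F χ (T.erase i) := by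
  classical
  refine ⟨C0, Function.update D i' (D i + D i'), fun y => ?_⟩
  have hi'' : i' ∈ T.erase i := Finset.mem_erase.mpr ⟨hne.symm, hi'⟩
  rw [h y, ← Finset.add_sum_erase T _ hi, ← Finset.add_sum_erase (T.erase i) _ hi'',
    ← Finset.add_sum_erase (T.erase i) (fun l => wre (Function.update D i' (D i + D i') l)
      (ph (χ l) y)) hi'', Function.update_self, wre_add, hχ]
  have h1 : ∑ l ∈ (T.erase i).erase i', wre (Function.update D i' (D i + D i') l) (ph (χ l) y) =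
      ∑ l ∈ (T.erase i).erase i', wre (D l) (ph (χ l) y) := by
    refine Finset.sum_congr rfl fun l hl => ?_
    rw [Function.update_of_ne (Finset.ne_of_mem_erase hl)]
  rw [h1]
  ring

lemma RepT.of_frq_neg {F : (Fin k → ℝ) → ℝ} {χ : Fin k → Fin k → ℤ} {T : Finset (Fin k)}
    {C0 : ℝ} {D : Fin k → ℂ} (h : ∀ y, F y = C0 + ∑ i ∈ T, wre (D i) (ph (χ i) y)) (i i' : Fin k)
    (hi : i ∈ T) (hi' : i' ∈ T) (hne : i ≠ i') (hχ : χ i = -χ i') : RepT F χ (T.erase i) := by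
  classical
  refine ⟨C0, Function.update D i' ((starRingEnd ℂ) (D i) + D i'), fun y => ?_⟩
  have hi'' : i' ∈ T.erase i := Finset.mem_erase.mpr ⟨hne.symm, hi'⟩
  rw [h y, ← Finset.add_sum_erase T _ hi, ← Finset.add_sum_erase (T.erase i) _ hi'',
    ← Finset.add_sum_erase (T.erase i) (fun l => wre (Function.update D i'
      ((starRingEnd ℂ) (D i) + D i') l) (ph (χ l) y)) hi'', Function.update_self, wre_add, hχ,
    wre_conj, ph_neg]
  have h1 : ∑ l ∈ (T.erase i).erase i', wre (Function.update D i'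
      ((starRingEnd ℂ) (D i) + D i') l) (ph (χ l) y) =
      ∑ l ∈ (T.erase i).erase i', wre (D l) (ph (χ l) y) := by
    refine Finset.sum_congr rfl fun l hl => ?_
    rw [Function.update_of_ne (Finset.ne_of_mem_erase hl)]
  rw [h1]
  ring

/-- a minimal representation -/
theorem exists_min_rep (F : (Fin k → ℝ) → ℝ) (χ : Fin k → Fin k → ℤ) (T0 : Finset (Fin k))
    (h0 : RepT F χ T0) :
    ∃ T ⊆ T0, ∃ (C0 : ℝ) (D : Fin k → ℂ), (∀ y, F y = C0 + ∑ i ∈ T, wre (D i) (ph (χ i) y)) ∧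
      (∀ i ∈ T, D i ≠ 0) ∧ (∀ i ∈ T, χ i ≠ 0) ∧
      ∀ i ∈ T, ∀ i' ∈ T, i ≠ i' → χ i ≠ χ i' ∧ χ i ≠ -χ i' := by
  classical
  obtain ⟨T, hT⟩ := Finset.exists_min_image (T0.powerset.filter fun T => RepT F χ T) Finset.card
    ⟨T0, by simp [h0]⟩
  obtain ⟨hT1, hT2⟩ := hT
  rw [Finset.mem_filter, Finset.mem_powerset] at hT1
  obtain ⟨hsub, C0, D, hD⟩ := hT1
  have hmin : ∀ i ∈ T, ¬ RepT F χ (T.erase i) := by
    intro i hi hR
    have h1 := hT2 (T.erase i) (by
      rw [Finset.mem_filter, Finset.mem_powerset]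
      exact ⟨(Finset.erase_subset _ _).trans hsub, hR⟩)
    exact absurd (Finset.card_erase_lt_of_mem hi) (not_lt.mpr h1)
  exact ⟨T, hsub, C0, D, hD, fun i hi h => hmin i hi (RepT.of_eq_zero hD i hi h),
    fun i hi h => hmin i hi (RepT.of_frq_zero hD i hi h),
    fun i hi i' hi' hne => ⟨fun h => hmin i hi (RepT.of_frq_eq hD i i' hi hi' hne h),
      fun h => hmin i hi (RepT.of_frq_neg hD i i' hi hi' hne h)⟩⟩

/-- finitely many values of a frequency on the zeros -/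
theorem exists_finite_frq (F : (Fin k → ℝ) → ℝ) (χ : Fin k → Fin k → ℤ) (T0 : Finset (Fin k))
    (h0 : RepT F χ T0) (hF : ∀ y, 0 ≤ F y) (hne : ∃ y, F y ≠ 0)
    (hcard : ∀ T ⊆ T0, (∀ i ∈ T, χ i ≠ 0) →
      (∀ i ∈ T, ∀ i' ∈ T, i ≠ i' → χ i ≠ χ i' ∧ χ i ≠ -χ i') → T.card ≤ 3) :
    (∀ y, 0 < F y) ∨ ∃ i ∈ T0, χ i ≠ 0 ∧
      ((fun y => exp ((ph (χ i) y : ℂ) * I)) '' {y | F y = 0}).Finite := by
  classical
  obtain ⟨T, hsub, C0, D, hD, hD0, hχ0, hχ⟩ := exists_min_rep F χ T0 h0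
  have hc := hcard T hsub hχ0 hχ
  rcases Nat.eq_zero_or_pos T.card with hT | hT
  · left
    rw [Finset.card_eq_zero] at hT
    subst hT
    obtain ⟨y0, hy0⟩ := hne
    intro y
    have h1 : F y = F y0 := by
      rw [hD y, hD y0]
      simp
    rw [h1]
    exact lt_of_le_of_ne (hF y0) hy0.symm
  · right
    set e := T.equivFin.symm with he
    have hTF : ∀ y, F y = TF C0 (fun j => D (e j)) (fun j => χ (e j)) y := by
      intro y
      rw [hD y, TF]
      congr 1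
      rw [← Finset.sum_coe_sort T (fun i => wre (D i) (ph (χ i) y))]
      exact (Equiv.sum_comp e (fun i : T => wre (D i) (ph (χ i) y))).symm
    obtain ⟨j, hj⟩ := core3 hT hc C0 (fun j => D (e j)) (fun j => hD0 _ (e j).2)
      (fun j => χ (e j)) (fun j => hχ0 _ (e j).2) (fun i j hij => hχ _ (e i).2 _ (e j).2
        (fun h => hij (e.injective (Subtype.ext h)))) (fun y => by rw [← hTF]; exact hF y)
      (by
        obtain ⟨y, hy⟩ := hne
        exact ⟨y, by rw [← hTF]; exact hy⟩)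
    refine ⟨e j, hsub (e j).2, hχ0 _ (e j).2, ?_⟩
    have h1 : {y | F y = 0} = {y | TF C0 (fun j => D (e j)) (fun j => χ (e j)) y = 0} := by
      ext y
      simp only [Set.mem_ofPred_eq, hTF y]
    rw [h1]
    exact hj

/-- a nonnegative function without constant term vanishes -/
theorem mean_zeroT (F : (Fin k → ℝ) → ℝ) (χ : Fin k → Fin k → ℤ) (T : Finset (Fin k))
    (D : Fin k → ℂ) (h : ∀ y, F y = ∑ i ∈ T, wre (D i) (ph (χ i) y)) (hχ : ∀ i ∈ T, χ i ≠ 0)
    (hF : ∀ y, 0 ≤ F y) (y : Fin k → ℝ) : F y = 0 := by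
  classical
  set e := T.equivFin.symm with he
  have hTF : ∀ y, F y = TF 0 (fun j => D (e j)) (fun j => χ (e j)) y := by
    intro y
    rw [h y, TF, zero_add, ← Finset.sum_coe_sort T (fun i => wre (D i) (ph (χ i) y))]
    exact (Equiv.sum_comp e (fun i : T => wre (D i) (ph (χ i) y))).symm
  rw [hTF y]
  exact mean_zero (fun j => D (e j)) (fun j => χ (e j)) (fun j => hχ _ (e j).2)
    (fun y => by rw [← hTF]; exact hF y) y

/-- the number of roots in the upper half plane -/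
lemma upper_card (S : Set ℂ) (hfin : S.Finite) (hconj : ∀ z ∈ S, (starRingEnd ℂ) z ∈ S) :
    2 * ({z | z ∈ S ∧ 0 < z.im}).ncard + ({z | z ∈ S ∧ z.im = 0}).ncard = S.ncard := by
  have hU : ({z | z ∈ S ∧ 0 < z.im}).Finite := hfin.subset fun z hz => hz.1
  have hL : ({z | z ∈ S ∧ z.im < 0}).Finite := hfin.subset fun z hz => hz.1
  have hR : ({z | z ∈ S ∧ z.im = 0}).Finite := hfin.subset fun z hz => hz.1
  have h1 : ({z | z ∈ S ∧ z.im < 0}).ncard = ({z | z ∈ S ∧ 0 < z.im}).ncard := by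
    have h2 : {z | z ∈ S ∧ z.im < 0} = (starRingEnd ℂ) '' {z | z ∈ S ∧ 0 < z.im} := by
      ext z
      constructor
      · rintro ⟨h3, h4⟩
        refine ⟨(starRingEnd ℂ) z, ⟨hconj z h3, ?_⟩, conj_conj z⟩
        rw [conj_im]
        linarith
      · rintro ⟨w, ⟨h3, h4⟩, rfl⟩
        refine ⟨hconj w h3, ?_⟩
        rw [conj_im]
        linarith
    rw [h2]
    exact Set.ncard_image_of_injective _ (starRingEnd ℂ).injective
  have h2 : S = ({z | z ∈ S ∧ 0 < z.im} ∪ {z | z ∈ S ∧ z.im < 0}) ∪ {z | z ∈ S ∧ z.im = 0} := by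
    ext z
    constructor
    · intro hz
      rcases lt_trichotomy z.im 0 with h | h | h
      · exact Or.inl (Or.inr ⟨hz, h⟩)
      · exact Or.inr ⟨hz, h⟩
      · exact Or.inl (Or.inl ⟨hz, h⟩)
    · rintro ((h | h) | h) <;> exact h.1
  have h3 : Disjoint ({z | z ∈ S ∧ 0 < z.im} ∪ {z | z ∈ S ∧ z.im < 0}) {z | z ∈ S ∧ z.im = 0} := by
    rw [Set.disjoint_left]
    rintro z (h | h) h'
    · exact h.2.ne' h'.2
    · exact h.2.ne h'.2
  have h4 : Disjoint {z | z ∈ S ∧ 0 < z.im} {z | z ∈ S ∧ z.im < 0} := by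
    rw [Set.disjoint_left]
    rintro z h h'
    exact lt_asymm h.2 h'.2
  conv_rhs => rw [h2]
  rw [Set.ncard_union_eq h3 (hU.union hL) hR, Set.ncard_union_eq h4 hU hL, h1]
  ring

/-- real and conjugate roots on the torus -/
lemma nz_conj (z : ℂ) : nz ((starRingEnd ℂ) z) = (starRingEnd ℂ) (nz z) := by
  unfold nz
  by_cases h : z = 0
  · simp [h]
  · rw [if_neg h, if_neg (by simpa using h), map_div₀, norm_conj, conj_ofReal]

lemma nz_sq_of_real (z : ℂ) (h : z.im = 0) : nz z ^ 2 = 1 := by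
  have h1 : (starRingEnd ℂ) z = z := conj_eq_iff_im.mpr h
  have h2 := nz_conj z
  rw [h1] at h2
  have h3 : nz z * (starRingEnd ℂ) (nz z) = 1 := by
    rw [mul_conj, normSq_eq_norm_sq, norm_nz]
    simp
  rw [← h2] at h3
  rw [sq]
  exact h3

/-- **The zeros of the level function with at most eight roots on the circle.** -/
theorem zeros_eight (l c : Fin k → ℂ) (ex : Fin k → ℕ) (R M Nb : ℕ) (ε δ : ℝ) (v : ℕ → ℝ)
    (hg : GoodD k l c ex R M ε δ v) (hpos : ∀ n, 0 < v n)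
    (hconj : ∀ i, ∃ i', l i' = (starRingEnd ℂ) (l i))
    (hU : ∀ r : ℝ, ({z | z ∈ Set.range l ∧ ‖z‖ = r}).ncard ≤ 8)
    (n0 j : ℕ) (A H : Fin k → Fin k → ℤ) (D : ℤ) (s : ℕ) (w : Fin k → Fin k → ℝ)
    (τ : Fin k → ℝ) (ρ : ℝ) (hbase : BaseF k l c ex M Nb ε δ n0 j A H D s w τ ρ 0) (hρ : 0 < ρ)
    (z' : Fin k → ℂ) (hz' : ∀ t, ‖z' t‖ = 1) (hne : (LevF l c ex A s j 0 ρ z').re ≠ 0) :
    (∀ z : Fin k → ℂ, (∀ t, ‖z t‖ = 1) → 0 ≤ (LevF l c ex A s j 0 ρ z).re) ∧
    ((∀ z : Fin k → ℂ, (∀ t, ‖z t‖ = 1) → 0 < (LevF l c ex A s j 0 ρ z).re) ∨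
      ∃ i i', ‖l i‖ = ‖l i'‖ ∧ l i ^ n0 ≠ l i' ^ n0 ∧
        ((fun z : Fin k → ℂ => (l i / l i') ^ j * (Wt A s z i / Wt A s z i')) ''
        {z | (∀ t, ‖z t‖ = 1) ∧ (LevF l c ex A s j 0 ρ z).re = 0}).Finite) := by
  classical
  obtain ⟨u, hu, -, happ⟩ := nar_core l c ex R M Nb ε δ hg.hk hg.hex hg.hdc hg.hR hg.hM hg.hrb
    hg.hε hg.hδ v hg.hv n0 j A H D s w τ ρ 0 hbase hρ 2 two_pos
  have hupos : ∀ n, 0 < u n := by
    intro n
    have h1 := hu n
    have h2 := hpos (j + n0 * (2 * n))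
    rw [h1, Nat.choose_zero_right, Nat.cast_one, mul_one] at h2
    exact (pos_iff_pos_of_mul_pos h2).mp (by positivity)
  have hFnn : ∀ z : Fin k → ℂ, (∀ t, ‖z t‖ = 1) → 0 ≤ (LevF l c ex A s j 0 ρ z).re := by
    intro z hz
    by_contra hcon
    push Not at hcon
    obtain ⟨n, -, h1, -⟩ := happ z hz (-((LevF l c ex A s j 0 ρ z).re) / 2) (by linarith) 0
    have h2 := (abs_le.mp h1).2
    have h3 := hupos n
    linarith
  refine ⟨hFnn, ?_⟩
  -- real roots
  have hreal : ∀ i, (l i).im = 0 → ∀ z : Fin k → ℂ, (∀ t, ‖z t‖ = 1) → Wt A s z i = 1 := by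
    intro i hi z hz
    refine (eq_of_forall_dist_le fun κ hκ => ?_).symm
    obtain ⟨n, -, -, h1⟩ := happ z hz κ hκ 0
    have h2 := h1 i
    have e1 : nz (l i) ^ (n0 * (2 * n)) = 1 := by
      rw [show n0 * (2 * n) = 2 * (n0 * n) by ring, pow_mul, nz_sq_of_real _ hi, one_pow]
    rw [e1] at h2
    rw [dist_eq_norm]
    exact h2
  -- conjugate roots
  have hcj : ∀ i i', l i' = (starRingEnd ℂ) (l i) → ∀ z : Fin k → ℂ, (∀ t, ‖z t‖ = 1) →
      Wt A s z i' = (starRingEnd ℂ) (Wt A s z i) := by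
    intro i i' hi z hz
    refine eq_of_forall_dist_le fun κ hκ => ?_
    obtain ⟨n, -, -, h1⟩ := happ z hz (κ / 2) (half_pos hκ) 0
    have h2 := h1 i
    have h3 := h1 i'
    rw [hi, nz_conj, ← map_pow] at h3
    have h4 : ‖(starRingEnd ℂ) (nz (l i) ^ (n0 * (2 * n))) - (starRingEnd ℂ) (Wt A s z i)‖ ≤
        κ / 2 := by
      rw [← map_sub, norm_conj]
      exact h2
    rw [dist_eq_norm]
    have h5 : Wt A s z i' - (starRingEnd ℂ) (Wt A s z i) =
        ((starRingEnd ℂ) (nz (l i) ^ (n0 * (2 * n))) - (starRingEnd ℂ) (Wt A s z i)) -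
        ((starRingEnd ℂ) (nz (l i) ^ (n0 * (2 * n))) - Wt A s z i') := by ring
    rw [h5]
    refine (norm_sub_le _ _).trans ?_
    linarith
  -- equal powers
  have heq : ∀ i i', nz (l i) ^ n0 = nz (l i') ^ n0 → ∀ z : Fin k → ℂ, (∀ t, ‖z t‖ = 1) →
      Wt A s z i = Wt A s z i' := by
    intro i i' hi z hz
    refine eq_of_forall_dist_le fun κ hκ => ?_
    obtain ⟨n, -, -, h1⟩ := happ z hz (κ / 2) (half_pos hκ) 0
    have h2 := h1 i
    have h3 := h1 i'
    rw [pow_mul, ← hi, ← pow_mul] at h3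
    rw [dist_eq_norm]
    have h5 : Wt A s z i - Wt A s z i' =
        (nz (l i) ^ (n0 * (2 * n)) - Wt A s z i') - (nz (l i) ^ (n0 * (2 * n)) - Wt A s z i) := by
      ring
    rw [h5]
    refine (norm_sub_le _ _).trans ?_
    linarith
  -- frequencies
  have hfrq : ∀ (g : Fin k → ℤ), (∀ y, exp ((ph g y : ℂ) * I) = 1) → g = 0 := by
    intro g h
    funext t
    rw [Pi.zero_apply]
    by_contra ht
    have h1 := h (Function.update (fun _ => (0 : ℝ)) t (0 + Real.pi / g t))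
    have h2 : ph g (Function.update (fun _ => (0 : ℝ)) t (0 + Real.pi / g t)) = Real.pi := by
      have h3 := ph_update g (fun _ => 0) t (Real.pi / g t)
      rw [h3]
      have h4 : ph g (fun _ => 0) = 0 := by
        unfold ph
        simp
      have h5 : (g t : ℝ) ≠ 0 := by exact_mod_cast ht
      rw [h4]
      field_simp
      ring
    rw [h2, exp_pi_mul_I] at h1
    norm_num at h1
  have hph_sub : ∀ (g g' : Fin k → ℤ) y, ph (g - g') y = ph g y - ph g' y := by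
    intro g g' y
    unfold ph
    rw [← Finset.sum_sub_distrib]
    refine Finset.sum_congr rfl fun t _ => ?_
    rw [Pi.sub_apply]
    push_cast
    ring
  have hfrq2 : ∀ (g g' : Fin k → ℤ), (∀ y, exp ((ph g y : ℂ) * I) = exp ((ph g' y : ℂ) * I)) →
      g = g' := by
    intro g g' h
    have h1 := hfrq (g - g') (fun y => by
      rw [hph_sub]
      push_cast
      rw [sub_mul, exp_sub, h y, div_self (exp_ne_zero _)])
    rwa [sub_eq_zero] at h1
  have hχ_conj : ∀ i i', l i' = (starRingEnd ℂ) (l i) → frq A s i' = -frq A s i := by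
    intro i i' hi
    apply hfrq2
    intro y
    rw [← Wt_tor, hcj i i' hi (tor y) (norm_tor y), Wt_tor, ← exp_conj, ph_neg]
    congr 1
    simp only [map_mul, conj_ofReal, conj_I]
    push_cast
    ring
  have hχ_eq : ∀ i i', l i = l i' → frq A s i = frq A s i' := by
    intro i i' hi
    apply hfrq2
    intro y
    rw [← Wt_tor, ← Wt_tor]
    exact heq i i' (by rw [hi]) (tor y) (norm_tor y)
  -- the representation
  set F : (Fin k → ℝ) → ℝ := fun y => (LevF l c ex A s j 0 ρ (tor y)).re with hF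
  set T0 : Finset (Fin k) := Finset.univ.filter fun i => (‖l i‖ = ρ ∧ ex i = 0) ∧ (l i).im ≠ 0
    with hT0
  have hrepF : ∀ y, F y = (∑ i, (if (‖l i‖ = ρ ∧ ex i = 0) ∧ (l i).im = 0 then
      (c i * l i ^ (j - 0)).re else 0)) + ∑ i ∈ T0, wre (c i * l i ^ (j - 0)) (ph (frq A s i) y) := by
    intro y
    rw [hT0, Finset.sum_filter, ← Finset.sum_add_distrib]
    simp only [hF]
    unfold LevF
    rw [re_sum]
    refine Finset.sum_congr rfl fun i _ => ?_
    have h1 : (∏ t : Fin k, (if (t : ℕ) < s then tor y t ^ A t i else 1)) = Wt A s (tor y) i := rfl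
    rw [h1]
    by_cases h2 : ‖l i‖ = ρ ∧ ex i = 0
    · by_cases h3 : (l i).im = 0
      · rw [if_pos h2, if_pos ⟨h2, h3⟩, if_neg (fun h => h.2 h3), hreal i h3 _ (norm_tor y),
          mul_one, add_zero]
      · rw [if_pos h2, if_neg (fun h => h3 h.2), if_pos ⟨h2, h3⟩, zero_add, Wt_tor, wre_eq]
    · rw [if_neg h2, if_neg (fun h => h2 h.1), if_neg (fun h => h2 h.1)]
      simp
  have hrep : RepT F (frq A s) T0 := ⟨_, _, hrepF⟩
  have hFne : ∃ y, F y ≠ 0 := by
    obtain ⟨y, hy⟩ := exists_tor z' hz'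
    exact ⟨y, by simp only [hF]; rw [hy]; exact hne⟩
  -- the roots on the circle
  set S : Set ℂ := {z | z ∈ Set.range l ∧ ‖z‖ = ρ} with hS
  have hSfin : S.Finite := (Set.finite_range l).subset fun z hz => hz.1
  have hSconj : ∀ z ∈ S, (starRingEnd ℂ) z ∈ S := by
    rintro _ ⟨⟨i, rfl⟩, hi⟩
    obtain ⟨i', hi'⟩ := hconj i
    exact ⟨⟨i', hi'⟩, by rw [norm_conj]; exact hi⟩
  have hScard := upper_card S hSfin hSconj
  have hS8 : S.ncard ≤ 8 := hU ρ
  set U : Set ℂ := {z | z ∈ S ∧ 0 < z.im} with hUdef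
  have hUfin : U.Finite := hSfin.subset fun z hz => hz.1
  set g : Fin k → ℂ := fun i => if 0 < (l i).im then l i else (starRingEnd ℂ) (l i) with hgdef
  have hgU : ∀ i ∈ T0, g i ∈ U := by
    intro i hi
    rw [hT0, Finset.mem_filter] at hi
    obtain ⟨-, ⟨h3, -⟩, h4⟩ := hi
    simp only [hgdef]
    split_ifs with h5
    · exact ⟨⟨⟨i, rfl⟩, h3⟩, h5⟩
    · obtain ⟨i', hi'⟩ := hconj i
      refine ⟨⟨⟨i', hi'⟩, by rw [norm_conj, h3]⟩, ?_⟩
      rw [conj_im]
      rcases lt_or_gt_of_ne h4 with h6 | h6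
      · linarith
      · exact absurd h6 h5
  have hgg : ∀ i i', g i = g i' → frq A s i = frq A s i' ∨ frq A s i = -frq A s i' := by
    intro i i' hgg
    simp only [hgdef] at hgg
    split_ifs at hgg with h4 h5 h5
    · exact Or.inl (hχ_eq i i' hgg)
    · exact Or.inr (hχ_conj i' i hgg)
    · right
      have h6 := hχ_conj i i' hgg.symm
      rw [h6, neg_neg]
    · left
      refine hχ_eq i i' ?_
      have := congrArg (starRingEnd ℂ) hgg
      simpa using this
  have hcard : ∀ T ⊆ T0, (∀ i ∈ T, frq A s i ≠ 0) → (∀ i ∈ T, ∀ i' ∈ T, i ≠ i' →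
      frq A s i ≠ frq A s i' ∧ frq A s i ≠ -frq A s i') → T.card ≤ 3 := by
    intro T hT hχ0 hχ
    have hinj : Set.InjOn g (T : Set (Fin k)) := by
      intro i hi i' hi' hg'
      by_contra hne'
      obtain ⟨h2, h3⟩ := hχ i hi i' hi' hne'
      rcases hgg i i' hg' with h | h
      · exact h2 h
      · exact h3 h
    have hTc : ∀ U' : Set ℂ, U'.Finite → (∀ i ∈ T, g i ∈ U') → T.card ≤ U'.ncard := by
      intro U' hU' h1
      have h2 := Set.ncard_le_ncard_of_injOn g (s := (T : Set (Fin k))) (t := U')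
        (fun i hi => h1 i hi) hinj hU'
      rwa [Set.ncard_coe_finset] at h2
    have hRfin : ({z | z ∈ S ∧ z.im = 0}).Finite := hSfin.subset fun z hz => hz.1
    rcases Nat.eq_zero_or_pos ({z | z ∈ S ∧ z.im = 0}).ncard with hR | hR
    · -- no real roots on the circle
      rw [Set.ncard_eq_zero hRfin] at hR
      have hC0 : ∑ i, (if (‖l i‖ = ρ ∧ ex i = 0) ∧ (l i).im = 0 then
          (c i * l i ^ (j - 0)).re else 0) = 0 := by
        apply Finset.sum_eq_zero
        intro i _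
        rw [if_neg]
        rintro ⟨⟨h1, -⟩, h2⟩
        have h3 : l i ∈ ({z | z ∈ S ∧ z.im = 0} : Set ℂ) := ⟨⟨⟨i, rfl⟩, h1⟩, h2⟩
        rw [hR] at h3
        exact h3
      obtain ⟨i1, hi1, hχ1⟩ : ∃ i ∈ T0, frq A s i = 0 := by
        by_contra hcon
        push Not at hcon
        obtain ⟨y, hy⟩ := hFne
        apply hy
        refine mean_zeroT F (frq A s) T0 (fun i => c i * l i ^ (j - 0)) (fun y => ?_) hcon
          (fun y => hFnn _ (norm_tor y)) y
        rw [hrepF y, hC0, zero_add]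
      have h1 := hTc (U \ {g i1}) (hUfin.sdiff) (fun i hi => by
        refine ⟨hgU i (hT hi), ?_⟩
        rw [Set.mem_singleton_iff]
        intro h2
        rcases hgg i i1 h2 with h | h
        · exact hχ0 i hi (h.trans hχ1)
        · exact hχ0 i hi (by rw [h, hχ1, neg_zero]))
      have h2 := Set.ncard_sdiff_singleton_add_one (hgU i1 hi1) hUfin
      omega
    · have h1 := hTc U hUfin (fun i hi => hgU i (hT hi))
      omega
  rcases exists_finite_frq F (frq A s) T0 hrep (fun y => hFnn _ (norm_tor y)) hFne hcard with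
    h1 | ⟨i, hi, hχi, hfin⟩
  · left
    intro z hz
    obtain ⟨y, hy⟩ := exists_tor z hz
    rw [← hy]
    exact h1 y
  · right
    obtain ⟨i', hi'⟩ := hconj i
    refine ⟨i, i', by rw [hi', norm_conj], ?_, ?_⟩
    · intro h2
      have h3 : nz (l i) ^ n0 = nz (l i') ^ n0 := by
        have hi0 : l i ≠ 0 := by
          intro h0
          rw [hT0, Finset.mem_filter] at hi
          apply hi.2.2
          rw [h0, zero_im]
        have hi0' : l i' ≠ 0 := by
          rw [hi']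
          simpa using hi0
        unfold nz
        rw [if_neg hi0, if_neg hi0', div_pow, div_pow, h2, hi', norm_conj]
      apply hχi
      have h4 := hχ_conj i i' hi'
      have h5 : frq A s i = frq A s i' := hfrq2 _ _ fun y => by
        rw [← Wt_tor, ← Wt_tor]
        exact heq i i' h3 _ (norm_tor y)
      rw [h4] at h5
      funext t
      have h6 := congrFun h5 t
      rw [Pi.neg_apply] at h6
      rw [Pi.zero_apply]
      omega
    · refine (hfin.image (fun w => (l i / l i') ^ j * w ^ 2)).subset ?_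
      rintro _ ⟨z, ⟨hz, h0⟩, rfl⟩
      obtain ⟨y, rfl⟩ := exists_tor z hz
      refine ⟨exp ((ph (frq A s i) y : ℂ) * I), ⟨y, h0, rfl⟩, ?_⟩
      simp only
      rw [hcj i i' hi' _ hz, ← Wt_tor]
      congr 1
      have h2 : Wt A s (tor y) i * (starRingEnd ℂ) (Wt A s (tor y) i) = 1 := by
        rw [mul_conj, normSq_eq_norm_sq, norm_Wt A s _ hz]
        simp
      have h3 : (starRingEnd ℂ) (Wt A s (tor y) i) ≠ 0 := right_ne_zero_of_mul_eq_one h2
      rw [eq_div_iff h3, sq, mul_assoc, h2, mul_one]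

end Pool.Agent.DD7719.M
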