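import Pool.Agent.DD7719.NPoly
import Pool.Agent.DD7719.TArith

/-! The arithmetic of the threshold for narrow sequences. -/

set_option autoImplicit false

namespace Pool.Agent.DD7719.M

open Polynomial Finset

/-- degree and height exponent of the polynomial of a ratio of roots -/
def pgd (L : ℕ) : ℕ := L * L * (L * L) + (2 * (L * L) + 1) * (L * L) + L * L

/-- an integer polynomial for a ratio of roots -/
theorem exists_ratio_poly (k : ℕ) (num : ℕ → ℤ) (den : ℕ → ℕ) (L : ℕ) (hkL : k ≤ L)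
    (hden0 : ∀ t, t < k → 0 < den t)
    (hnum : ∀ t, t < k → (num t).natAbs ≤ 2 ^ L) (hden : ∀ t, t < k → den t ≤ 2 ^ L)
    (a b : ℂ)
    (ha : a ^ k = ∑ t ∈ range k, ((num t : ℂ) / (den t : ℂ)) * a ^ (k - 1 - t))
    (hb : b ^ k = ∑ t ∈ range k, ((num t : ℂ) / (den t : ℂ)) * b ^ (k - 1 - t))
    (hb0 : b ≠ 0) :
    ∃ g : ℤ[X], g ≠ 0 ∧ aeval (a / b) g = 0 ∧ g.natDegree ≤ pgd L ∧
      ∀ i, |g.coeff i| ≤ 2 ^ pgd L := by
  set P := ipoly k num den with hP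
  have hP0 : P ≠ 0 := ipoly_ne_zero k num den hden0
  have hPd : P.natDegree ≤ L := (ipoly_natDegree k num den).trans hkL
  have hPa := ipoly_aeval k num den hden0 a ha
  have hPb := ipoly_aeval k num den hden0 b hb
  have hPc : ∀ i, (P.coeff i).natAbs ≤ 2 ^ (L * L) := by
    intro i
    have := ipoly_coeff_le k num den L hkL hnum hden i
    rw [Int.abs_eq_natAbs] at this
    exact_mod_cast this
  have hQ0 : P.reverse ≠ 0 := by
    rw [Ne, reverse_eq_zero]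
    exact hP0
  have hQb : aeval b⁻¹ P.reverse = 0 := by
    let _ : Invertible b := invertibleOfNonzero hb0
    rw [aeval_def] at hPb ⊢
    have h2 := (eval₂_reverse_eq_zero_iff (algebraMap ℤ ℂ) b P).mpr hPb
    rwa [invOf_eq_inv] at h2
  have hQc : ∀ i, (P.reverse.coeff i).natAbs ≤ 2 ^ (L * L) := by
    intro i
    rw [coeff_reverse]
    exact hPc _
  obtain ⟨g, hg0, hg, hgd, hgc⟩ := exists_prod_poly P P.reverse hP0 hQ0 a b⁻¹ hPa hQb
    (2 ^ (L * L)) hPc hQc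
  have hpq : P.natDegree * P.reverse.natDegree ≤ L * L :=
    Nat.mul_le_mul hPd ((reverse_natDegree_le P).trans hPd)
  refine ⟨g, hg0, by rw [div_eq_mul_inv]; exact hg, ?_, fun i => ?_⟩
  · refine hgd.trans (hpq.trans ?_)
    unfold pgd
    omega
  · have h1 := hgc i
    set m := P.natDegree * P.reverse.natDegree with hm
    have h2 : m.factorial ≤ 2 ^ (L * L * (L * L)) := by
      calc m.factorial ≤ m ^ m := Nat.factorial_le_pow m
        _ ≤ (2 ^ (L * L)) ^ (L * L) := by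
            calc m ^ m ≤ (2 ^ (L * L)) ^ m :=
                  Nat.pow_le_pow_left (hpq.trans Nat.lt_two_pow_self.le) m
              _ ≤ (2 ^ (L * L)) ^ (L * L) :=
                  Nat.pow_le_pow_right (by positivity) hpq
        _ = 2 ^ (L * L * (L * L)) := by rw [← pow_mul]
    have h3 : (2 * (2 ^ (L * L)) ^ 2) ^ m ≤ 2 ^ ((2 * (L * L) + 1) * (L * L)) := by
      have e1 : 2 * (2 ^ (L * L)) ^ 2 = 2 ^ (2 * (L * L) + 1) := by
        rw [← pow_mul, pow_succ, mul_comm, mul_comm (L * L) 2]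
      rw [e1, ← pow_mul]
      exact Nat.pow_le_pow_right (by norm_num) (Nat.mul_le_mul_left _ hpq)
    have h4 : (g.coeff i).natAbs ≤ 2 ^ pgd L := by
      calc (g.coeff i).natAbs ≤ m.factorial * (2 * (2 ^ (L * L)) ^ 2) ^ m := h1
        _ ≤ 2 ^ (L * L * (L * L)) * 2 ^ ((2 * (L * L) + 1) * (L * L)) := Nat.mul_le_mul h2 h3
        _ = 2 ^ (L * L * (L * L) + (2 * (L * L) + 1) * (L * L)) := by rw [← pow_add]
        _ ≤ 2 ^ pgd L := Nat.pow_le_pow_right (by norm_num) (Nat.le_add_right _ _)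
    rw [Int.abs_eq_natAbs]
    exact_mod_cast h4

/-- the auxiliary exponent -/
def pq3 (L : ℕ) : ℕ := pg L + 1 + 3 + L

/-- the number of bits of the threshold -/
def pth2 (L P1 P2 : ℕ) : ℕ := pg L + 1 + 3 + (P1 + P2 + L * pq3 L + 2 * L + pbn L + 2)

lemma exponent_bound_g (g L P1 P2 n j bn : ℕ)
    (hn : 2 ^ (g + 3 + (P1 + P2 + L * (g + 3 + L) + 2 * L + bn + 2)) ≤ n) (hj : j ≤ 2 ^ bn) :
    2 ^ P2 + L * ((g + 3 + L) + n / 2 ^ (g + 3 + L)) + 2 * L * 2 ^ bn + (2 ^ P1 + 1) <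
      (n - j) / 2 ^ g := by
  set q := g + 3 + L with hq
  set E := P1 + P2 + L * q + 2 * L + bn with hE
  set N8 := n / 2 ^ (g + 3) with hN8
  have hN8n : 2 ^ (g + 3) * N8 ≤ n := Nat.mul_div_le _ _
  have hEN : 2 ^ (E + 2) ≤ N8 := by
    rw [hN8, Nat.le_div_iff_mul_le (by positivity), ← pow_add]
    convert hn using 2
    ring
  have h1 : L * (n / 2 ^ q) ≤ N8 := by
    have e1 : q = (g + 3) + L := rfl
    have e2 : n / 2 ^ q = N8 / 2 ^ L := by rw [e1, pow_add, Nat.div_div_eq_div_mul]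
    rw [e2]
    calc L * (N8 / 2 ^ L) ≤ 2 ^ L * (N8 / 2 ^ L) := Nat.mul_le_mul_right _ Nat.lt_two_pow_self.le
      _ ≤ N8 := Nat.mul_div_le _ _
  have h2 : 4 * N8 ≤ (n - j) / 2 ^ g := by
    rw [Nat.le_div_iff_mul_le (by positivity)]
    have e1 : 2 ^ (g + 3) = 8 * 2 ^ g := by rw [pow_add]; ring
    have e2 : j ≤ 4 * N8 * 2 ^ g := by
      have e3 : 2 ^ bn ≤ 2 ^ (E + 2) := Nat.pow_le_pow_right (by norm_num) (by omega)
      have e4 : 1 ≤ 2 ^ g := Nat.one_le_two_pow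
      calc j ≤ N8 := hj.trans (e3.trans hEN)
        _ ≤ 4 * N8 := by omega
        _ ≤ 4 * N8 * 2 ^ g := Nat.le_mul_of_pos_right _ (by positivity)
    have e3 : 8 * 2 ^ g * N8 ≤ n := by rw [← e1]; exact hN8n
    have e4 : 8 * 2 ^ g * N8 = 4 * N8 * 2 ^ g + 4 * N8 * 2 ^ g := by ring
    omega
  have hpow : 2 ^ (E + 2) = 4 * 2 ^ E := by rw [pow_add]; ring
  have a1 : 2 ^ P2 ≤ 2 ^ E := Nat.pow_le_pow_right (by norm_num) (by omega)
  have a2 : 2 ^ P1 ≤ 2 ^ E := Nat.pow_le_pow_right (by norm_num) (by omega)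
  have a3 : L * q ≤ 2 ^ E :=
    Nat.lt_two_pow_self.le.trans (Nat.pow_le_pow_right (by norm_num) (by omega))
  have a4 : 2 * L * 2 ^ bn ≤ 2 ^ E := by
    calc 2 * L * 2 ^ bn ≤ 2 ^ (2 * L) * 2 ^ bn := Nat.mul_le_mul_right _ Nat.lt_two_pow_self.le
      _ = 2 ^ (2 * L + bn) := by rw [pow_add]
      _ ≤ 2 ^ E := Nat.pow_le_pow_right (by norm_num) (by omega)
  have a5 : 1 ≤ 2 ^ E := Nat.one_le_two_pow
  have h3 : L * (q + n / 2 ^ q) = L * q + L * (n / 2 ^ q) := by ring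
  rw [h3]
  omega

/-- the numerical inequality behind the explicit threshold -/
theorem threshold_ineq2 (k L P1 P2 n j : ℕ) (hkL : k ≤ L) (hn : 2 ^ pth2 L P1 P2 ≤ n)
    (hj : j ≤ 2 ^ pbn L) (C : ℝ) (hC : C ≤ 2 ^ 2 ^ P2) :
    C * (n : ℝ) ^ k * ((2 : ℝ) ^ (2 * L)) ^ j *
      Real.exp (-((n - j : ℕ) : ℝ) / 2 ^ (pg L + 1)) < 1 / 2 ^ 2 ^ P1 := by
  have hexp := exponent_bound_g (pg L + 1) L P1 P2 n j (pbn L) hn hj
  set W := (n - j) / 2 ^ (pg L + 1) with hW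
  set E1 := 2 ^ P2 + L * (pg L + 1 + 3 + L + n / 2 ^ (pg L + 1 + 3 + L)) + 2 * L * 2 ^ pbn L with hE1
  have h1 : (n : ℝ) ^ k ≤ 2 ^ (L * (pg L + 1 + 3 + L + n / 2 ^ (pg L + 1 + 3 + L))) := by
    exact_mod_cast nat_pow_bound n k L (pg L + 1 + 3 + L) hkL
  have h2 : ((2 : ℝ) ^ (2 * L)) ^ j ≤ 2 ^ (2 * L * 2 ^ pbn L) := by
    rw [← pow_mul]
    exact pow_le_pow_right₀ (by norm_num) (Nat.mul_le_mul_left _ hj)
  have h3 : Real.exp (-((n - j : ℕ) : ℝ) / 2 ^ (pg L + 1)) ≤ (1 / 2) ^ W := by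
    have e1 : ((W : ℕ) : ℝ) ≤ ((n - j : ℕ) : ℝ) / 2 ^ (pg L + 1) := by
      have := Nat.cast_div_le (α := ℝ) (m := n - j) (n := 2 ^ (pg L + 1))
      push_cast at this
      rw [hW]
      exact this
    calc Real.exp (-((n - j : ℕ) : ℝ) / 2 ^ (pg L + 1)) ≤ Real.exp (-(W : ℝ)) := by
          apply Real.exp_le_exp.mpr
          rw [neg_div]
          linarith
      _ = Real.exp (-1) ^ W := by
          rw [← Real.exp_nat_mul]
          congr 1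
          ring
      _ ≤ (1 / 2) ^ W := by
          apply pow_le_pow_left₀ (Real.exp_pos _).le
          have := Real.exp_neg_one_lt_d9
          linarith
  have h4 : C * (n : ℝ) ^ k * ((2 : ℝ) ^ (2 * L)) ^ j *
      Real.exp (-((n - j : ℕ) : ℝ) / 2 ^ (pg L + 1)) ≤ 2 ^ E1 * (1 / 2) ^ W := by
    have e1 : C * (n : ℝ) ^ k * ((2 : ℝ) ^ (2 * L)) ^ j ≤ 2 ^ E1 := by
      calc C * (n : ℝ) ^ k * ((2 : ℝ) ^ (2 * L)) ^ j
          ≤ 2 ^ 2 ^ P2 * 2 ^ (L * (pg L + 1 + 3 + L + n / 2 ^ (pg L + 1 + 3 + L))) *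
              2 ^ (2 * L * 2 ^ pbn L) := by
            gcongr
        _ = 2 ^ E1 := by rw [← pow_add, ← pow_add]
    calc _ ≤ 2 ^ E1 * Real.exp (-((n - j : ℕ) : ℝ) / 2 ^ (pg L + 1)) :=
          mul_le_mul_of_nonneg_right e1 (Real.exp_pos _).le
      _ ≤ _ := mul_le_mul_of_nonneg_left h3 (by positivity)
  refine h4.trans_lt ?_
  have h5 : (2 : ℝ) ^ E1 * (1 / 2) ^ W * 2 ^ (2 ^ P1) < 1 := by
    have e1 : (2 : ℝ) ^ E1 * (1 / 2) ^ W * 2 ^ (2 ^ P1) = 2 ^ (E1 + 2 ^ P1) / 2 ^ W := by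
      rw [pow_add 2 E1, one_div, inv_pow]
      ring
    rw [e1, div_lt_one (by positivity)]
    exact pow_lt_pow_right₀ (by norm_num) (by omega)
  rw [lt_div_iff₀ (by positivity)]
  exact h5

/-- the bound for the decay of the lower terms -/
lemma decay_le (g m : ℕ) : (1 - 1 / (2 : ℝ) ^ g) ^ m ≤
    Real.exp (-(m : ℝ) / 2 ^ (g + 1)) * Real.exp (-(m : ℝ) / ((2 ^ (g + 1) : ℕ) : ℝ)) := by
  have hg : (1 : ℝ) ≤ 2 ^ g := one_le_pow₀ (by norm_num)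
  have h0 : (0 : ℝ) ≤ 1 - 1 / 2 ^ g := by
    have : 1 / (2 : ℝ) ^ g ≤ 1 := by
      rw [div_le_one (by positivity)]
      exact hg
    linarith
  have h3 : 1 - 1 / (2 : ℝ) ^ g ≤ Real.exp (-(1 / 2 ^ g)) := Real.one_sub_le_exp_neg _
  calc (1 - 1 / (2 : ℝ) ^ g) ^ m ≤ Real.exp (-(1 / 2 ^ g)) ^ m := pow_le_pow_left₀ h0 h3 _
    _ = Real.exp (-(m : ℝ) / 2 ^ (g + 1)) * Real.exp (-(m : ℝ) / ((2 ^ (g + 1) : ℕ) : ℝ)) := by
        rw [← Real.exp_nat_mul, ← Real.exp_add]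
        congr 1
        push_cast
        rw [pow_succ]
        field_simp
        ring

/-- the threshold -/
def pthN (C L P P2 : ℕ) : ℕ :=
  pth2 L (P + 1) P2 + (C * (pgd L + (P + 2) + (pg L + 1) + 2) + pbn L + 1)

lemma gap_threshold (C L P P2 n j : ℕ) (hn : 2 ^ pthN C L P P2 ≤ n) (hj : j ≤ 2 ^ pbn L) :
    (2 + pgd L + 2 ^ (P + 2) + 2 ^ (pg L + 1)) ^ C ≤ n - j := by
  have h1 : 2 + pgd L + 2 ^ (P + 2) + 2 ^ (pg L + 1) ≤
      2 ^ (pgd L + (P + 2) + (pg L + 1) + 2) := by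
    have a1 : pgd L < 2 ^ pgd L := Nat.lt_two_pow_self
    set X := 2 ^ pgd L
    set Y := 2 ^ (P + 2)
    set Z := 2 ^ (pg L + 1)
    have hX : 1 ≤ X := Nat.one_le_two_pow
    have hY : 1 ≤ Y := Nat.one_le_two_pow
    have hZ : 1 ≤ Z := Nat.one_le_two_pow
    have e : 2 ^ (pgd L + (P + 2) + (pg L + 1) + 2) = X * Y * Z * 4 := by
      rw [pow_add, pow_add, pow_add]
      norm_num
      rfl
    rw [e]
    have e1 : X * 1 ≤ X * (Y * Z) := Nat.mul_le_mul_left _ (Nat.mul_pos hY hZ)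
    have e2 : 1 * Y ≤ (X * Z) * Y := Nat.mul_le_mul_right _ (Nat.mul_pos hX hZ)
    have e3 : 1 * Z ≤ (X * Y) * Z := Nat.mul_le_mul_right _ (Nat.mul_pos hX hY)
    have e4 : X * (Y * Z) = X * Y * Z := by ring
    have e5 : (X * Z) * Y = X * Y * Z := by ring
    omega
  have h2 : (2 + pgd L + 2 ^ (P + 2) + 2 ^ (pg L + 1)) ^ C ≤
      2 ^ (C * (pgd L + (P + 2) + (pg L + 1) + 2)) := by
    refine (Nat.pow_le_pow_left h1 C).trans ?_
    rw [← pow_mul, mul_comm]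
  have h3 : 2 ^ (C * (pgd L + (P + 2) + (pg L + 1) + 2)) + 2 ^ pbn L ≤ n := by
    refine le_trans ?_ hn
    set Y := C * (pgd L + (P + 2) + (pg L + 1) + 2)
    have e1 : 2 ^ Y ≤ 2 ^ (Y + pbn L) := Nat.pow_le_pow_right (by norm_num) (by omega)
    have e2 : 2 ^ pbn L ≤ 2 ^ (Y + pbn L) := Nat.pow_le_pow_right (by norm_num) (by omega)
    have e3 : 2 ^ (Y + pbn L) + 2 ^ (Y + pbn L) = 2 ^ (Y + pbn L + 1) := by
      rw [pow_succ]
      ring
    have e4 : 2 ^ (Y + pbn L + 1) ≤ 2 ^ pthN C L P P2 :=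
      Nat.pow_le_pow_right (by norm_num) (by unfold pthN; omega)
    omega
  omega

end Pool.Agent.DD7719.M
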