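import Pool.Agent.DD7719.NNar

/-! Inequalities on the torus outside finitely many fibres. -/

set_option autoImplicit false

namespace Pool.Agent.DD7719.M

open Complex Filter Topology

variable {k : ℕ}

lemma countable_cos (y : ℝ) : {x : ℝ | Real.cos x = y}.Countable := by
  by_cases h : ∃ x0, Real.cos x0 = y
  · obtain ⟨x0, rfl⟩ := h
    refine ((Set.countable_range fun n : ℤ => 2 * n * Real.pi + x0).union
      (Set.countable_range fun n : ℤ => 2 * n * Real.pi - x0)).mono ?_
    intro x hx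
    rw [Set.mem_ofPred_eq] at hx
    rcases Real.cos_eq_cos_iff.mp hx.symm with ⟨n, h | h⟩
    · exact Or.inl ⟨n, h.symm⟩
    · exact Or.inr ⟨n, h.symm⟩
  · convert Set.countable_empty
    ext x
    simp only [Set.mem_ofPred_eq, Set.mem_empty_iff_false, iff_false]
    exact fun hx => h ⟨x, hx⟩

/-- rotation of one coordinate -/
noncomputable def rot (z : Fin k → ℂ) (t1 : Fin k) (u : ℝ) : Fin k → ℂ :=
  Function.update z t1 (z t1 * exp ((u : ℂ) * I))

lemma norm_rot (z : Fin k → ℂ) (hz : ∀ t, ‖z t‖ = 1) (t1 : Fin k) (u : ℝ) (t : Fin k) :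
    ‖rot z t1 u t‖ = 1 := by
  unfold rot
  by_cases h : t = t1
  · subst h
    rw [Function.update_self, norm_mul, hz, norm_exp_ofReal_mul_I, one_mul]
  · rw [Function.update_of_ne h]
    exact hz t

lemma Wt_rot (A : Fin k → Fin k → ℤ) (s : ℕ) (z : Fin k → ℂ) (t1 : Fin k) (ht1 : (t1 : ℕ) < s)
    (u : ℝ) (i : Fin k) :
    Wt A s (rot z t1 u) i = Wt A s z i * exp ((u * A t1 i : ℝ) * I) := by
  unfold Wt
  rw [← Finset.mul_prod_erase Finset.univ _ (Finset.mem_univ t1),
    ← Finset.mul_prod_erase Finset.univ (fun t : Fin k => if (t : ℕ) < s then z t ^ A t i else 1)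
      (Finset.mem_univ t1), if_pos ht1, if_pos ht1]
  have h1 : ∀ t ∈ Finset.univ.erase t1, (if (t : ℕ) < s then rot z t1 u t ^ A t i else 1) =
      (if (t : ℕ) < s then z t ^ A t i else 1) := by
    intro t ht
    have hne : t ≠ t1 := (Finset.mem_erase.mp ht).1
    rw [rot, Function.update_of_ne hne]
  rw [Finset.prod_congr rfl h1, rot, Function.update_self, mul_zpow, ← exp_int_mul]
  have h2 : exp ((A t1 i : ℂ) * ((u : ℂ) * I)) = exp ((u * A t1 i : ℝ) * I) := by
    congr 1
    push_cast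
    ring
  rw [h2]
  ring

theorem fibre_dense (l c : Fin k → ℂ) (ex : Fin k → ℕ) (n0 j d : ℕ) (ρ : ℝ)
    (A : Fin k → Fin k → ℤ) (s : ℕ) (x : Fin k → ℝ) (hrep : Rep l n0 A s x) (i i' : Fin k)
    (hii : ‖l i‖ = ‖l i'‖) (hne : l i ^ n0 ≠ l i' ^ n0) (f : ℝ → ℝ) (hf : Continuous f) (C : ℝ)
    (Y : Set ℝ) (hY : Y.Finite)
    (h : ∀ z : Fin k → ℂ, (∀ t, ‖z t‖ = 1) → (Wt A s z i / Wt A s z i').re ∉ Y →
      f (Wt A s z i / Wt A s z i').re ≤ C * (LevF l c ex A s j d ρ z).re)
    (z : Fin k → ℂ) (hz : ∀ t, ‖z t‖ = 1) :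
    f (Wt A s z i / Wt A s z i').re ≤ C * (LevF l c ex A s j d ρ z).re := by
  have hi' : l i' ≠ 0 := by
    intro h0
    rw [h0, norm_zero, norm_eq_zero] at hii
    apply hne
    rw [hii, h0]
  -- a coordinate with different exponents
  obtain ⟨t1, ht1, ha⟩ : ∃ t1 : Fin k, (t1 : ℕ) < s ∧ A t1 i ≠ A t1 i' := by
    by_contra hcon
    push Not at hcon
    have h1 : Wt A s (orb x 1) i = Wt A s (orb x 1) i' := by
      unfold Wt
      refine Finset.prod_congr rfl fun t _ => ?_
      split_ifs with ht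
      · rw [hcon t ht]
      · rfl
    rw [hrep.Wt_orb, hrep.Wt_orb, pow_one, pow_one] at h1
    apply hne
    have h2 := nz_mul_norm (l i)
    have h3 := nz_mul_norm (l i')
    rw [← h2, ← h3, mul_pow, mul_pow, h1, hii]
  set a : ℝ := (A t1 i : ℝ) - A t1 i' with hadef
  have ha0 : a ≠ 0 := by
    rw [hadef, sub_ne_zero]
    exact_mod_cast ha
  set χ := Wt A s z i / Wt A s z i' with hχ
  have hχ1 : ‖χ‖ = 1 := by rw [hχ, norm_div, norm_Wt A s z hz, norm_Wt A s z hz, div_one]
  have hrot : ∀ u : ℝ, Wt A s (rot z t1 u) i / Wt A s (rot z t1 u) i' =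
      exp ((χ.arg + a * u : ℝ) * I) := by
    intro u
    rw [Wt_rot A s z t1 ht1, Wt_rot A s z t1 ht1, mul_div_mul_comm, ← hχ, ← exp_sub]
    have h1 : χ = exp (χ.arg * I) := by
      rw [exp_arg hχ1]
    conv_lhs => rw [h1]
    rw [← exp_add]
    congr 1
    rw [hadef]
    push_cast
    ring
  have hre : ∀ u : ℝ, (Wt A s (rot z t1 u) i / Wt A s (rot z t1 u) i').re =
      Real.cos (χ.arg + a * u) := by
    intro u
    rw [hrot, exp_ofReal_mul_I_re]
  -- the bad parameters are countable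
  have hcount : {u : ℝ | Real.cos (χ.arg + a * u) ∈ Y}.Countable := by
    have h1 : {u : ℝ | Real.cos (χ.arg + a * u) ∈ Y} =
        ⋃ y ∈ Y, (fun u : ℝ => χ.arg + a * u) ⁻¹' {x : ℝ | Real.cos x = y} := by
      ext u
      simp
    rw [h1]
    refine hY.countable.biUnion fun y _ => ?_
    refine (countable_cos y).preimage ?_
    intro u u' huu
    simp only at huu
    have : a * u = a * u' := by linarith
    exact mul_left_cancel₀ ha0 this
  have hdense : Dense {u : ℝ | Real.cos (χ.arg + a * u) ∈ Y}ᶜ := hcount.dense_compl ℝ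
  have hcont : Continuous (rot z t1) := by
    unfold rot
    exact continuous_const.update t1 (by fun_prop)
  have hclosed : IsClosed {u : ℝ | f (Wt A s (rot z t1 u) i / Wt A s (rot z t1 u) i').re ≤
      C * (LevF l c ex A s j d ρ (rot z t1 u)).re} := by
    apply isClosed_le
    · simp only [hre]
      exact hf.comp (by fun_prop)
    · exact continuous_const.mul ((continuous_LevF l c ex A s j d ρ).comp_continuous hcont
        fun u => norm_rot z hz t1 u)
  have hall : ∀ u : ℝ, f (Wt A s (rot z t1 u) i / Wt A s (rot z t1 u) i').re ≤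
      C * (LevF l c ex A s j d ρ (rot z t1 u)).re := by
    intro u
    have h1 : {u : ℝ | Real.cos (χ.arg + a * u) ∈ Y}ᶜ ⊆
        {u : ℝ | f (Wt A s (rot z t1 u) i / Wt A s (rot z t1 u) i').re ≤
      C * (LevF l c ex A s j d ρ (rot z t1 u)).re} := by
      intro u hu
      apply h _ (norm_rot z hz t1 u)
      rw [hre]
      exact hu
    have h2 := closure_minimal h1 hclosed
    rw [hdense.closure_eq] at h2
    exact h2 (Set.mem_univ u)
  have h0 := hall 0
  have h1 : rot z t1 0 = z := by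
    unfold rot
    simp
  rw [h1] at h0
  exact h0

end Pool.Agent.DD7719.M
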