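import Pool.Agent.DD7719.NQ
import Pool.Agent.DD7719.TCoef

/-! Sorted root data. -/

set_option autoImplicit false

namespace Pool.Agent.DD7719.M

open Polynomial Finset

/-- the lexicographic key of a complex number -/
noncomputable def lx (z : ℂ) : ℝ ×ₗ ℝ := toLex (z.re, z.im)

lemma lx_injective : Function.Injective lx := by
  intro a b h
  have h1 := toLex.injective h
  exact Complex.ext (congrArg Prod.fst h1) (congrArg Prod.snd h1)

lemma lx_le {a b : ℂ} : lx a ≤ lx b ↔ a.re < b.re ∨ (a.re = b.re ∧ a.im ≤ b.im) := by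
  unfold lx
  rw [Prod.Lex.toLex_le_toLex]

lemma sorted_iff (k : ℕ) (l : ℕ → ℂ) : Sorted k l ↔ Monotone (fun i : Fin k => lx (l i)) := by
  constructor
  · intro h i i' hii
    rcases eq_or_lt_of_le hii with h1 | h1
    · rw [h1]
    · exact lx_le.mpr (h i i.2 i' i'.2 h1)
  · intro h i hi i' hi' hlt
    exact lx_le.mp (h (show (⟨i, hi⟩ : Fin k) ≤ ⟨i', hi'⟩ from hlt.le))

/-- permuted root data -/
theorem RootData.perm {k : ℕ} {a u : ℕ → ℝ} {l c : ℕ → ℂ} {ex : ℕ → ℕ}
    (h : RootData k a u l c ex) (σ : Equiv.Perm (Fin k)) :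
    RootData k a u (ext1 0 fun i : Fin k => l (σ i)) (ext1 0 fun i : Fin k => c (σ i))
      (ext1 0 fun i : Fin k => ex (σ i)) := by
  obtain ⟨h1, h2, h3, h4⟩ := h
  refine ⟨?_, ?_, ?_, ?_⟩
  · rw [forall_fin]
    intro i
    rw [ext1_fin]
    exact h1 _ (σ i).2
  · rw [forall_fin]
    intro i
    rw [forall_fin]
    intro i' hne
    rw [ext1_fin, ext1_fin, ext1_fin, ext1_fin]
    apply h2 _ (σ i).2 _ (σ i').2
    intro h5
    apply hne
    have := σ.injective (Fin.ext h5)
    rw [this]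
  · rw [forall_fin]
    intro i
    rw [ext1_fin, ext1_fin]
    exact h3 _ (σ i).2
  · intro n hn
    rw [← h4 n hn, Finset.sum_range, Finset.sum_range]
    simp only [ext1_fin]
    exact Equiv.sum_comp σ (fun i : Fin k => c i * (n.choose (ex i) : ℂ) * l i ^ (n - ex i))

theorem exists_sorted {k : ℕ} {a u : ℕ → ℝ} (h : ∃ (l c : ℕ → ℂ) (ex : ℕ → ℕ),
    RootData k a u l c ex) : ∃ (l c : ℕ → ℂ) (ex : ℕ → ℕ), RootData k a u l c ex ∧ Sorted k l := by
  obtain ⟨l, c, ex, h⟩ := h
  refine ⟨_, _, _, h.perm (Tuple.sort (fun i : Fin k => lx (l i))), ?_⟩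
  rw [sorted_iff]
  have := Tuple.monotone_sort (fun i : Fin k => lx (l i))
  simp only [ext1_fin]
  exact this

theorem sorted_unique {k : ℕ} {a u : ℕ → ℝ} {l c l' c' : ℕ → ℂ} {ex ex' : ℕ → ℕ}
    (h : RootData k a u l c ex) (hs : Sorted k l) (h' : RootData k a u l' c' ex')
    (hs' : Sorted k l') (i : ℕ) (hi : i < k) : l i = l' i := by
  classical
  have hex : ∀ i : Fin k, ∃ j : Fin k, l' j = l i ∧ ex' j = ex i := fun i =>
    h'.surj (l i) (ex i) (h.mem i)
  choose f hf1 hf2 using hex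
  have hinj : Function.Injective f := by
    intro i i' hii
    by_contra hne
    have hne' : (i : ℕ) ≠ i' := fun h0 => hne (Fin.ext h0)
    have e1 : l i = l i' := by rw [← hf1, ← hf1, hii]
    have e2 : ex i = ex i' := by rw [← hf2, ← hf2, hii]
    rcases h.2.1 i i.2 i' i'.2 hne' with h0 | h0
    · exact h0 e1
    · exact h0 e2
  let σ : Equiv.Perm (Fin k) := Equiv.ofBijective f (Finite.injective_iff_bijective.mp hinj)
  have m1 : Monotone ((fun j : Fin k => lx (l' j)) ∘ (Equiv.refl (Fin k))) :=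
    (sorted_iff k l').mp hs'
  have m2 : Monotone ((fun j : Fin k => lx (l' j)) ∘ σ) := by
    have e1 : ((fun j : Fin k => lx (l' j)) ∘ σ) = fun i : Fin k => lx (l i) := by
      funext i
      simp only [Function.comp_apply]
      rw [show σ i = f i from rfl, hf1]
    rw [e1]
    exact (sorted_iff k l).mp hs
  have h5 := Tuple.unique_monotone m2 m1
  have h6 := congrFun h5 ⟨i, hi⟩
  simp only [Function.comp_apply, Equiv.refl_apply] at h6
  have h7 := lx_injective h6
  rw [← h7, show σ ⟨i, hi⟩ = f ⟨i, hi⟩ from rfl, hf1]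

end Pool.Agent.DD7719.M
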