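import Pool.Agent.DD7719.TAssemble
import Pool.Agent.DD7719.NArith
import Pool.Agent.DD7719.NDense
import Pool.Agent.DD7719.NSort
import Pool.Agent.UltPos.Narrow

/-! Assembly: narrow positivity for instances. -/

set_option autoImplicit false

namespace Pool.Agent.UltPos

open Pool.Agent.PT Pool.Agent.AllR Pool.Agent.DD7719.M Pool.Agent.DD7719 Finset

/-- the certificates of non-narrowness of an instance -/
def Inst.NN (I : Inst) (L : ℕ) (aR uR : ℕ → ℝ) (t : ℝ) : Prop :=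
  ∃ (l c : ℕ → ℂ) (ex : ℕ → ℕ), RootData I.k aR uR l c ex ∧
    CertQN I.k l c ex (pbm L) (pbn L) (2 / ((2 ^ pq L : ℕ) : ℝ)) (1 / 2 ^ pdl L) (QNN I.k t)

/-- the values along the fibres -/
def Inst.RR (I : Inst) (L : ℕ) (aR uR : ℕ → ℝ) (α : ℕ → ℝ) : Prop :=
  ∃ (l c : ℕ → ℂ) (ex : ℕ → ℕ), RootData I.k aR uR l c ex ∧
    CertQN I.k l c ex (pbm L) (pbn L) (2 / ((2 ^ pq L : ℕ) : ℝ)) (1 / 2 ^ pdl L) (QR I.k α)

section
variable (I : Inst) (L : ℕ) (hkL : I.k ≤ L)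
    (hb : ∀ i, (I.aNum i).natAbs ≤ 2 ^ L ∧ I.aDen i ≤ 2 ^ L) (aR uR : ℕ → ℝ)
    (ha : ∀ t (h : t < I.k), aR t = (I.a ⟨t, h⟩ : ℝ)) (hu : ∀ t (h : t < I.k), uR t = (I.u ⟨t, h⟩ : ℝ))
    (v : ℕ → ℚ) (hv : I.IsSeq v)

include ha in
lemma Inst.mem_rootSet_iff (z : ℂ) : z ∈ I.rootSet ↔
    z ^ I.k = ∑ t ∈ range I.k, (aR t : ℂ) * z ^ (I.k - 1 - t) := by
  unfold Inst.rootSet Inst.charPoly
  rw [Set.mem_ofPred_eq, map_sub, map_pow, Polynomial.aeval_X, map_sum, sub_eq_zero,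
    Finset.sum_range]
  have h1 : ∑ i : Fin I.k, (Polynomial.aeval z) (Polynomial.C (I.a i) *
      Polynomial.X ^ (I.k - 1 - (i : ℕ))) = ∑ i : Fin I.k, (aR i : ℂ) * z ^ (I.k - 1 - (i : ℕ)) := by
    refine Finset.sum_congr rfl fun i _ => ?_
    rw [map_mul, map_pow, Polynomial.aeval_X, Polynomial.aeval_C, ha i i.2]
    simp
  rw [h1]

include ha in
lemma Inst.root_mem {l c : ℕ → ℂ} {ex : ℕ → ℕ} (hrd : RootData I.k aR uR l c ex) (i : Fin I.k) :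
    l i ∈ I.rootSet :=
  (I.mem_rootSet_iff aR ha (l i)).mpr (hrd.root i i.2)

include ha in
lemma Inst.root_surj {l c : ℕ → ℂ} {ex : ℕ → ℕ} (hrd : RootData I.k aR uR l c ex) :
    ∀ z ∈ I.rootSet, ∃ i : Fin I.k, l i = z := by
  intro z hz
  rw [I.mem_rootSet_iff aR ha] at hz
  obtain ⟨i, hi, -⟩ := hrd.surj z 0 (by
    rw [Multiset.count_pos, Polynomial.mem_roots (cp_monic I.k _).ne_zero]
    have h1 := hasse_cp I.k (fun t => (aR t : ℂ)) 0 z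
    rw [Polynomial.hasseDeriv_zero] at h1
    rw [Polynomial.IsRoot]
    simp only [LinearMap.id_coe, id_eq] at h1
    rw [h1, sub_eq_zero]
    simpa using hz)
  exact ⟨i, hi⟩

include hkL hb ha hu hv in
lemma Inst.goodD {l c : ℕ → ℂ} {ex : ℕ → ℕ} (hrd : RootData I.k aR uR l c ex) :
    GoodD I.k (fun i => l i) (fun i => c i) (fun i => ex i) (2 ^ pr L) (2 ^ pbm L)
      (2 / ((2 ^ pq L : ℕ) : ℝ)) (1 / 2 ^ pdl L) (fun n => ((v n : ℚ) : ℝ)) where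
  hk := I.kpos
  hex := fun i => hrd.1 i i.2
  hdc := fun i e he => hrd.closed i e he
  hR := Nat.one_le_two_pow
  hM := Nat.one_le_two_pow
  hrb := I.relBound' L hkL hb aR uR ha hrd
  hε := peps hkL
  hδ := pd1 hkL
  hv := I.all' aR uR ha hu v hv hrd

include hkL hb ha hu hv in
/-- soundness -/
theorem Inst.bounded_NN (hpos : ∀ n, 0 < v n)
    (h : IsNar (fun n => ((v n : ℚ) : ℝ)) I.rootSet) :
    ∃ X : ℝ, ∀ t, I.NN L aR uR t → t ≤ X := by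
  obtain ⟨X, hX⟩ := nn_sound (k := I.k) (fun n => ((v n : ℚ) : ℝ))
    (fun n => by exact_mod_cast hpos n) I.rootSet h (2 ^ pr L) (2 ^ pbm L) (2 ^ pbn L)
    (2 / ((2 ^ pq L : ℕ) : ℝ)) (1 / 2 ^ pdl L)
  refine ⟨X, ?_⟩
  rintro t ⟨l, c, ex, hrd, hcert⟩
  exact hX t _ _ _ (I.goodD L hkL hb aR uR ha hu v hv hrd) (I.root_surj aR uR ha hrd)
    (certQNN_toF hcert)

include hkL hb ha hu hv in
/-- the class data -/
theorem Inst.exists_cls {l c : ℕ → ℂ} {ex : ℕ → ℕ} (hrd : RootData I.k aR uR l c ex) (t0 : ℝ)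
    (ht0 : 0 < t0) (hno : ¬ I.NN L aR uR t0) :
    ∃ n0 : ℕ, 0 < n0 ∧ n0 ≤ 2 ^ (1 + 2 * L * L + (pdl L + 3) * L) ∧
      (∀ i i' : Fin I.k, ‖l i‖ = ‖l i'‖ → l i ^ n0 ≠ l i' ^ n0 →
        ∀ n : ℕ, 0 < n → l i ^ n ≠ l i' ^ n) ∧
      ∀ j, I.k ≤ j → j < I.k + n0 → ClsD I.k (fun i => l i) (fun i => c i) (fun i => ex i)
        (2 ^ pmh L) (2 ^ (1 + 2 * L * L + (pdl L + 3) * L)) (2 / ((2 ^ pq L : ℕ) : ℝ))
        (1 / 2 ^ pdl L) n0 j := by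
  obtain ⟨e, he0, hele, htor⟩ := torsion_of_roots I.k I.num I.den I.den_pos' (fun i => l i)
    (I.root_eq' aR uR ha hrd)
  obtain ⟨n0, hn0, hn0Nb, hen0, hcls⟩ := nar_class_data (k := I.k) (fun i => l i) (fun i => c i)
      (fun i => ex i) (2 ^ pr L)
      (2 ^ pq L) (2 ^ pmh L) (2 ^ (pdl L + 3)) e (2 ^ (1 + 2 * L * L + (pdl L + 3) * L)) I.kpos
      (fun i => hrd.1 i i.2) Nat.one_le_two_pow
      (le_trans (by
        have : 2 * I.k * 2 ^ pr L ≤ 8 * I.k * 2 ^ pr L := by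
          gcongr
          norm_num
        exact this) (pQ_le hkL)) (pMH_le hkL) (1 / 2 ^ pdl L) (by positivity) (pd2 hkL) (pd4 hkL)
      (pd3 hkL) (by positivity) (pd5 L) he0 (pNb_le hkL hele) (I.relBound' L hkL hb aR uR ha hrd)
      (fun n => ((v n : ℚ) : ℝ)) (I.all' aR uR ha hu v hv hrd) t0 ht0 (fun hF =>
        hno ⟨l, c, ex, hrd, hF.toN (two_pow_lt_pbm L) (two_pow_lt_pbn L)⟩)
  refine ⟨n0, hn0, hn0Nb, ?_, hcls⟩
  intro i i' hii hne n hn heq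
  have hi' : l i' ≠ 0 := by
    intro h0
    rw [h0, norm_zero, norm_eq_zero] at hii
    apply hne
    rw [hii, h0]
  have hi : l i ≠ 0 := by
    intro h0
    rw [h0, norm_zero] at hii
    exact hi' (norm_eq_zero.mp hii.symm)
  have h1 := htor i i' hi hi' ⟨n, hn, by rw [div_pow, heq, div_self (pow_ne_zero _ hi')]⟩
  apply hne
  obtain ⟨r, hr⟩ := hen0
  rw [div_pow, div_eq_one_iff_eq (pow_ne_zero _ hi')] at h1
  rw [hr, pow_mul, pow_mul, h1]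

include hkL hb ha hu hv in
/-- completeness -/
theorem Inst.nar_of_no_NN (t0 : ℝ) (ht0 : 0 < t0) (hno : ¬ I.NN L aR uR t0) :
    IsNar (fun n => ((v n : ℚ) : ℝ)) I.rootSet := by
  obtain ⟨l, c, ex, hrd⟩ := I.exists_rootData' aR uR ha hu
  obtain ⟨n0, hn0, -, htor, hcls⟩ := I.exists_cls L hkL hb aR uR ha hu v hv hrd t0 ht0 hno
  have h1 := isNar_of_cls (k := I.k) (fun i => l i) (fun i => c i) (fun i => ex i)
    (fun i => hrd.1 i i.2) _ _ _ _ n0 hn0 (fun n => ((v n : ℚ) : ℝ))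
    (I.all' aR uR ha hu v hv hrd) htor hcls
  obtain ⟨N, hN, h2⟩ := h1
  refine ⟨N, hN, fun J hJ => ?_⟩
  obtain ⟨ρ, hρ, hB, h3⟩ := h2 J hJ
  refine ⟨ρ, hρ, hB, ?_⟩
  rcases h3 with h3 | ⟨a, ⟨i, rfl⟩, b, ⟨i', rfl⟩, h4⟩
  · exact Or.inl h3
  · exact Or.inr ⟨_, I.root_mem aR uR ha hrd i, _, I.root_mem aR uR ha hrd i', h4⟩

/-- the level function is nonnegative in the absence of certificates -/
theorem Inst.nonneg_of_no_NN (t0 : ℝ) (hno : ¬ I.NN L aR uR t0) {l c : ℕ → ℂ} {ex : ℕ → ℕ}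
    (hrd : RootData I.k aR uR l c ex) {n0 j : ℕ} {A H : ℕ → ℕ → ℤ} {D : ℤ} {s : ℕ}
    {w : ℕ → ℕ → ℝ} {τ : ℕ → ℝ} {ρ : ℝ} {d : ℕ}
    (hbase : BaseN I.k l c ex (pbm L) (pbn L) (2 / ((2 ^ pq L : ℕ) : ℝ)) (1 / 2 ^ pdl L) n0 j
      A H D s w τ ρ d) (z' : ℕ → ℂ) (hz' : ∀ t, t < I.k → ‖z' t‖ = 1)
    (hne : (Lev I.k s d l c z' ex A j ρ).re ≠ 0) (z : Fin I.k → ℂ) (hz : ∀ t, ‖z t‖ = 1) :
    0 ≤ (LevF (fun i : Fin I.k => l i) (fun i => c i) (fun i => ex i) (fun i t => A i t) s j d ρ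
      z).re := by
  by_contra hcon
  push Not at hcon
  apply hno
  refine ⟨l, c, ex, hrd, n0, j, A, H, D, s, w, τ, ext1 1 z, z', fun _ _ => 1, fun _ _ => 1, ρ, d,
    hbase, ?_, hz', Or.inr ⟨hne, Or.inr (Or.inl ?_)⟩⟩
  · rw [forall_fin]
    intro t
    rw [ext1_fin]
    exact hz t
  · rw [lev_eq_levF]
    have e1 : (fun t : Fin I.k => ext1 1 z (t : ℕ)) = z := by
      funext t
      exact ext1_fin 1 z t
    rw [e1]
    exact hcon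

end

end Pool.Agent.UltPos
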