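import Pool.Agent.DD7719.TCertRE

/-! Certificates with a very general last clause: existential real conditions. -/

set_option autoImplicit false

namespace Pool.Agent.DD7719.M

open Complex Filter Topology
open Pool.Agent.PT Pool.Agent.AllR

/-- first family of points -/
noncomputable def rz1 (α : ℕ → ℝ) (p t : ℕ) : ℂ :=
  ⟨α (20 * Nat.pair p t + 17), α (20 * Nat.pair p t + 18)⟩
/-- second family of points -/
noncomputable def rz2 (α : ℕ → ℝ) (p t : ℕ) : ℂ :=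
  ⟨α (20 * Nat.pair p t + 19), α (20 * Nat.pair p t + 36)⟩

/-- Coding of all objects and of two families of points. -/
noncomputable def encN (l c : ℕ → ℂ) (ex : ℕ → ℕ) (n0 j : ℕ) (A H : ℕ → ℕ → ℤ) (D : ℤ)
    (w : ℕ → ℕ → ℝ) (τ : ℕ → ℝ) (z z' : ℕ → ℂ) (ρ : ℝ) (Z1 Z2 : ℕ → ℕ → ℂ) (v : ℕ) : ℝ :=
  if v % 20 = 17 then (Z1 (Nat.unpair (v / 20)).1 (Nat.unpair (v / 20)).2).re
  else if v % 20 = 18 then (Z1 (Nat.unpair (v / 20)).1 (Nat.unpair (v / 20)).2).im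
  else if v % 20 = 19 then (Z2 (Nat.unpair (v / 20)).1 (Nat.unpair (v / 20)).2).re
  else if v % 20 = 16 ∧ v ≠ 16 then
    (Z2 (Nat.unpair (v / 20 - 1)).1 (Nat.unpair (v / 20 - 1)).2).im
  else encAll l c ex n0 j A H D w τ z z' ρ v

section
variable (l c : ℕ → ℂ) (ex : ℕ → ℕ) (n0 j : ℕ) (A H : ℕ → ℕ → ℤ) (D : ℤ)
    (w : ℕ → ℕ → ℝ) (τ : ℕ → ℝ) (z z' : ℕ → ℂ) (ρ : ℝ) (Z1 Z2 : ℕ → ℕ → ℂ)

theorem encN_lt (v : ℕ) (hv : v % 20 < 16) : encN l c ex n0 j A H D w τ z z' ρ Z1 Z2 v =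
    encAll l c ex n0 j A H D w τ z z' ρ v := by
  unfold encN
  rw [if_neg (by omega), if_neg (by omega), if_neg (by omega), if_neg (by omega)]

theorem encN_16 : encN l c ex n0 j A H D w τ z z' ρ Z1 Z2 16 =
    encAll l c ex n0 j A H D w τ z z' ρ 16 := by
  unfold encN
  rw [if_neg (by omega), if_neg (by omega), if_neg (by omega), if_neg (by omega)]

theorem rz1_enc : rz1 (encN l c ex n0 j A H D w τ z z' ρ Z1 Z2) = Z1 := by
  funext p t
  unfold rz1 encN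
  have h0 : (20 * Nat.pair p t + 17) % 20 = 17 := by omega
  have h1 : (20 * Nat.pair p t + 18) % 20 = 18 := by omega
  have h2 : (20 * Nat.pair p t + 17) / 20 = Nat.pair p t := by omega
  have h3 : (20 * Nat.pair p t + 18) / 20 = Nat.pair p t := by omega
  rw [h0, h1, h2, h3, if_pos rfl, if_neg (by omega), if_pos rfl, Nat.unpair_pair]

theorem rz2_enc : rz2 (encN l c ex n0 j A H D w τ z z' ρ Z1 Z2) = Z2 := by
  funext p t
  unfold rz2 encN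
  have h0 : (20 * Nat.pair p t + 19) % 20 = 19 := by omega
  have h1 : (20 * Nat.pair p t + 36) % 20 = 16 := by omega
  have h2 : (20 * Nat.pair p t + 19) / 20 = Nat.pair p t := by omega
  have h3 : (20 * Nat.pair p t + 36) / 20 - 1 = Nat.pair p t := by omega
  rw [h0, h1, h2, h3, if_neg (by omega), if_neg (by omega), if_pos rfl, if_neg (by omega),
    if_neg (by omega), if_neg (by omega), if_pos ⟨rfl, by omega⟩, Nat.unpair_pair]

end

theorem readers_congr {α β : ℕ → ℝ} (h : ∀ v, v % 20 < 16 → β v = α v) (h16 : β 16 = α 16) :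
    rl β = rl α ∧ rc β = rc α ∧ (∀ k, rex k β = rex k α) ∧ (∀ B, rn0 B β = rn0 B α) ∧
    (∀ B, rj B β = rj B α) ∧ (∀ B, rA B β = rA B α) ∧ (∀ B, rH B β = rH B α) ∧
    (∀ B, rD B β = rD B α) ∧ rw' β = rw' α ∧ rτ β = rτ α ∧ rz β = rz α ∧ rz' β = rz' α ∧
    rρ β = rρ α := by
  refine ⟨?_, ?_, ?_, ?_, ?_, ?_, ?_, ?_, ?_, ?_, ?_, ?_, ?_⟩
  · funext i
    unfold rl
    rw [h _ (by omega), h _ (by omega)]
  · funext i
    unfold rc
    rw [h _ (by omega), h _ (by omega)]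
  · intro k
    funext i
    unfold rex
    rw [h _ (by omega)]
  · intro B
    unfold rn0
    congr 1
    funext v
    exact h _ (by omega)
  · intro B
    unfold rj
    congr 1
    funext v
    exact h _ (by omega)
  · intro B
    funext i t
    unfold rA
    congr 1
    funext v
    exact h _ (by omega)
  · intro B
    funext i t
    unfold rH
    congr 1
    funext v
    exact h _ (by omega)
  · intro B
    unfold rD
    congr 1
    funext v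
    exact h _ (by omega)
  · funext i t
    unfold rw'
    exact h _ (by omega)
  · funext i
    unfold rτ
    exact h _ (by omega)
  · funext i
    unfold rz
    rw [h _ (by omega), h _ (by omega)]
  · funext i
    unfold rz'
    rw [h _ (by omega), h _ (by omega)]
  · exact h16

open scoped Classical in
/-- Base data of a certificate, `ℕ`-indexed, with binary sizes. -/
def BaseN (k : ℕ) (l c : ℕ → ℂ) (ex : ℕ → ℕ) (bm bn : ℕ) (ε δ : ℝ)
    (n0 j : ℕ) (A H : ℕ → ℕ → ℤ) (D : ℤ) (s : ℕ) (w : ℕ → ℕ → ℝ)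
    (τ : ℕ → ℝ) (ρ : ℝ) (d : ℕ) : Prop :=
    0 < n0 ∧ n0 < 2 ^ bn ∧ k ≤ j ∧ j < k + n0 ∧ s ≤ k ∧ D ≠ 0 ∧ |D| < 2 ^ bm ∧
    (∀ i, i < k → ∀ i', i' < k → ∑ t ∈ Finset.range k, H i t * A i' t = if i = i' then D else 0) ∧
    (∀ i, i < k → ∀ t, t < k → |A i t| < 2 ^ bm) ∧ (∀ i, i < k → ∀ t, t < k → |H i t| < 2 ^ bm) ∧
    (∀ i, i < k → ‖nz (l i) ^ n0 - 1‖ ≤ δ) ∧
    (∀ i, i < s → ∀ i', i' < k → i ≤ i' → ∑ t ∈ Finset.range k, (H i' t : ℝ) * w i t =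
      (if i' = i then (D : ℝ) else 0) -
        τ i * (∏ t ∈ Finset.range k, (nz (l t) ^ n0) ^ H i' t).im) ∧
    (∀ i, i < s → ∀ t, t < k → |w i t| ≤ ε) ∧ 0 ≤ ρ ∧ d < k ∧
    (∀ m, m < k → ∑ i ∈ Finset.range k, (if Above ρ d (l i) (ex i) then
      c i * ((j + n0 * m).choose (ex i) : ℂ) * l i ^ (j + n0 * m - ex i) else 0) = 0)

theorem BaseN.toF {k : ℕ} {l c : ℕ → ℂ} {ex : ℕ → ℕ} {bm bn : ℕ} {ε δ : ℝ} {n0 j : ℕ}
    {A H : ℕ → ℕ → ℤ} {D : ℤ} {s : ℕ} {w : ℕ → ℕ → ℝ} {τ : ℕ → ℝ} {ρ : ℝ} {d : ℕ}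
    (h : BaseN k l c ex bm bn ε δ n0 j A H D s w τ ρ d) :
    BaseF k (fun i => l i) (fun i => c i) (fun i => ex i) (2 ^ bm) (2 ^ bn) ε δ n0 j
      (fun i t => A i t) (fun i t => H i t) D s (fun i t => w i t) (fun i => τ i) ρ d := by
  classical
  obtain ⟨h1, h2, h3, h4, h5, h6, h7, h8, h9, h10, h11, h12, h13, h16, h17, h18⟩ := h
  refine ⟨h1, h2.le, h3, h4, h5, h6, by exact_mod_cast h7.le, ?_, ?_, ?_,
    ?_, ?_, ?_, h16, h17, ?_⟩
  · intro l' i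
    have := h8 l' l'.2 i i.2
    rw [Finset.sum_range] at this
    rw [this]
    simp only [Fin.ext_iff]
  · intro l' t
    exact_mod_cast (h9 l' l'.2 t t.2).le
  · intro l' t
    exact_mod_cast (h10 l' l'.2 t t.2).le
  · intro i
    exact h11 i i.2
  · intro i hi l' hl'
    have := h12 i hi l' l'.2 hl'
    rw [Finset.sum_range, Finset.prod_range] at this
    rw [this]
    simp only [Fin.ext_iff]
  · intro i hi t
    exact h13 i hi t t.2
  · intro m hm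
    have := h18 m hm
    rw [Finset.sum_range] at this
    exact this

theorem BaseF.toN {k : ℕ} {l c : ℕ → ℂ} {ex : ℕ → ℕ} {M Nb bm bn : ℕ} {ε δ : ℝ} {n0 j : ℕ}
    {A H : Fin k → Fin k → ℤ} {D : ℤ} {s : ℕ} {w : Fin k → Fin k → ℝ} {τ : Fin k → ℝ} {ρ : ℝ}
    {d : ℕ} (h : BaseF k (fun i => l i) (fun i => c i) (fun i => ex i) M Nb ε δ n0 j A H D s w τ
      ρ d) (hM : M < 2 ^ bm) (hN : Nb < 2 ^ bn) :
    BaseN k l c ex bm bn ε δ n0 j (ext2 0 A) (ext2 0 H) D s (ext2 0 w) (ext1 0 τ) ρ d := by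
  classical
  obtain ⟨h1, h2, h3, h4, h5, h6, h7, h8, h9, h10, h11, h12, h13, h16, h17, h18⟩ := h
  have hM' : (M : ℤ) < 2 ^ bm := by exact_mod_cast hM
  refine ⟨h1, h2.trans_lt hN, h3, h4, h5, h6, h7.trans_lt hM', ?_, ?_, ?_, ?_, ?_, ?_, h16, h17,
    ?_⟩
  · rw [forall_fin]
    intro i
    rw [forall_fin]
    intro i'
    rw [Finset.sum_range]
    simp only [ext2_fin]
    rw [h8]
    simp only [Fin.ext_iff]
  · rw [forall_fin]
    intro i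
    rw [forall_fin]
    intro t
    rw [ext2_fin]
    exact (h9 i t).trans_lt hM'
  · rw [forall_fin]
    intro i
    rw [forall_fin]
    intro t
    rw [ext2_fin]
    exact (h10 i t).trans_lt hM'
  · rw [forall_fin]
    exact h11
  · intro i hi
    have hik : i < k := lt_of_lt_of_le hi h5
    rw [forall_fin]
    intro i' hi'
    rw [Finset.sum_range, Finset.prod_range]
    have := h12 ⟨i, hik⟩ hi i' hi'
    have e1 : ∀ t : Fin k, ext2 0 w i t = w ⟨i, hik⟩ t := fun t => ext2_fin 0 w ⟨i, hik⟩ t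
    have e2 : ext1 0 τ i = τ ⟨i, hik⟩ := ext1_fin 0 τ ⟨i, hik⟩
    simp only [ext2_fin, e1, e2]
    rw [this]
    simp only [Fin.ext_iff]
  · intro i hi
    have hik : i < k := lt_of_lt_of_le hi h5
    rw [forall_fin]
    intro t
    have e1 : ext2 0 w i t = w ⟨i, hik⟩ t := ext2_fin 0 w ⟨i, hik⟩ t
    rw [e1]
    exact h13 ⟨i, hik⟩ hi t
  · intro m hm
    rw [Finset.sum_range]
    exact h18 m hm

/-- The type of the last clauses. -/
abbrev QT := (ℕ → ℂ) → (ℕ → ℂ) → (ℕ → ℕ) → ℕ → ℕ → (ℕ → ℕ → ℤ) → ℕ → ℕ → ℝ → (ℕ → ℂ) →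
  (ℕ → ℂ) → (ℕ → ℕ → ℂ) → (ℕ → ℕ → ℂ) → Prop

/-- Certificate with a very general last clause. -/
def CertQN (k : ℕ) (l c : ℕ → ℂ) (ex : ℕ → ℕ) (bm bn : ℕ) (ε δ : ℝ) (Q : QT) : Prop :=
  ∃ (n0 j : ℕ) (A H : ℕ → ℕ → ℤ) (D : ℤ) (s : ℕ) (w : ℕ → ℕ → ℝ)
    (τ : ℕ → ℝ) (z z' : ℕ → ℂ) (Z1 Z2 : ℕ → ℕ → ℂ) (ρ : ℝ) (d : ℕ),
    BaseN k l c ex bm bn ε δ n0 j A H D s w τ ρ d ∧
    (∀ t, t < k → ‖z t‖ = 1) ∧ (∀ t, t < k → ‖z' t‖ = 1) ∧ Q l c ex n0 j A s d ρ z z' Z1 Z2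

/-- the last clause depends on the relevant indices only -/
def QCongr (k : ℕ) (Q : QT) : Prop := ∀ l c ex ex' n0 j A A' s d ρ z z' Z1 Z2,
  (∀ i, i < k → ex' i = ex i) → (∀ i, i < k → ∀ t, t < k → A' i t = A i t) →
  Q l c ex n0 j A s d ρ z z' Z1 Z2 → Q l c ex' n0 j A' s d ρ z z' Z1 Z2

/-- The coded certificate with its root data. -/
def BodyQ (Q : QT) (k s d bm bn : ℕ) (a u : ℕ → ℝ) (ε δ : ℝ) (α : ℕ → ℝ) : Prop :=
  (RootData k a u (rl α) (rc α) (rex k α) ∧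
    CB0 k s d ε δ (rl α) (rc α) (rex k α) (rn0 bn α) (rj (bn + k) α) (rA bm α) (rH bm α) (rD bm α)
      (rw' α) (rτ α) (rz α) (rz' α) (rρ α)) ∧
    Q (rl α) (rc α) (rex k α) (rn0 bn α) (rj (bn + k) α) (rA bm α) s d (rρ α) (rz α) (rz' α)
      (rz1 α) (rz2 α)

theorem cert_iffQ (k bm bn : ℕ) (Q : QT) (hQ : QCongr k Q) (a u : ℕ → ℝ) (ε δ : ℝ) :
    (∃ (l c : ℕ → ℂ) (ex : ℕ → ℕ), RootData k a u l c ex ∧ CertQN k l c ex bm bn ε δ Q) ↔
      ∃ s, s < k + 1 ∧ ∃ d, d < k ∧ ∃ α : ℕ → ℝ, BodyQ Q k s d bm bn a u ε δ α := by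
  classical
  constructor
  · rintro ⟨l, c, ex, hR, n0, j, A, H, D, s, w, τ, z, z', Z1, Z2, ρ, d,
      ⟨h1, h2, h3, h4, h5, h6, h7, h8, h9, h10, h11, h12, h13, h16, h17, h18⟩, h14, h15, h19⟩
    refine ⟨s, by omega, d, h17, encN l c ex n0 j A H D w τ z z' ρ Z1 Z2, ?_⟩
    have hj : j < 2 ^ (bn + k) := by
      have e1 : k < 2 ^ k := Nat.lt_two_pow_self
      have e2 : 1 ≤ 2 ^ bn := Nat.one_le_two_pow
      rw [pow_add]
      generalize 2 ^ bn = P at *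
      generalize 2 ^ k = Q at *
      have e3 : P + k ≤ P * Q := by
        calc P + k ≤ P + P * k := by nlinarith
          _ = P * (k + 1) := by ring
          _ ≤ P * Q := Nat.mul_le_mul_left _ e1
      omega
    have hex : ∀ i, i < k → rex k (encAll l c ex n0 j A H D w τ z z' ρ) i = ex i :=
      fun i hi => rex_enc _ _ _ _ _ _ _ _ _ _ _ _ _ _ _ (hR.1 i hi)
    have hA : ∀ i, i < k → ∀ t, t < k → rA bm (encAll l c ex n0 j A H D w τ z z' ρ) i t = A i t :=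
      fun i hi t ht => rA_enc _ _ _ _ _ _ _ _ _ _ _ _ _ _ _ _ (h9 i hi t ht)
    have hH : ∀ i, i < k → ∀ t, t < k → rH bm (encAll l c ex n0 j A H D w τ z z' ρ) i t = H i t :=
      fun i hi t ht => rH_enc _ _ _ _ _ _ _ _ _ _ _ _ _ _ _ _ (h10 i hi t ht)
    obtain ⟨g1, g2, g3, g4, g5, g6, g7, g8, g9, g10, g11, g12, g13⟩ :=
      readers_congr (α := encAll l c ex n0 j A H D w τ z z' ρ)
        (β := encN l c ex n0 j A H D w τ z z' ρ Z1 Z2)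
        (fun v hv => encN_lt _ _ _ _ _ _ _ _ _ _ _ _ _ _ _ v hv) (encN_16 _ _ _ _ _ _ _ _ _ _ _ _ _ _ _)
    unfold BodyQ
    rw [g1, g2, g3, g4, g5, g6, g7, g8, g9, g10, g11, g12, g13, rz1_enc, rz2_enc,
      rl_enc, rc_enc, rz_enc, rz'_enc, rτ_enc, rρ_enc, rw_enc,
      rn0_enc _ _ _ _ _ _ _ _ _ _ _ _ _ _ h2, rj_enc _ _ _ _ _ _ _ _ _ _ _ _ _ _ hj,
      rD_enc _ _ _ _ _ _ _ _ _ _ _ _ _ _ h7]
    refine ⟨⟨rootData_congr hex hR, cb0_congr hex hA hH ?_⟩, ?_⟩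
    · exact ⟨⟨h1, h3, h4, h6⟩, h8, h11, h12, h13, h14, h15, h16, h18⟩
    · exact hQ _ _ _ _ _ _ _ _ _ _ _ _ _ _ _ hex hA h19
  · rintro ⟨s, hs, d, hd, α, ⟨hR, hC⟩, h19⟩
    refine ⟨rl α, rc α, rex k α, hR, rn0 bn α, rj (bn + k) α, rA bm α, rH bm α, rD bm α, s,
      rw' α, rτ α, rz α, rz' α, rz1 α, rz2 α, rρ α, d, ?_⟩
    obtain ⟨⟨h1, h3, h4, h6⟩, h8, h11, h12, h13, h14, h15, h16, h18⟩ := hC
    exact ⟨⟨h1, decN_lt _ _, h3, h4, by omega, h6, abs_decZ_lt _ _, h8,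
      fun i _ t _ => abs_decZ_lt _ _, fun i _ t _ => abs_decZ_lt _ _, h11, h12, h13, h16,
      hd, h18⟩, h14, h15, h19⟩

/-- the existence of a certificate is an existential real condition -/
theorem re_certQ {Γ : Type} (Q : List Γ → (ℕ → ℝ) → QT)
    (kk bm bn : List Γ → ℕ) (aR uR : List Γ → ℕ → ℝ) (εR δR : List Γ → ℝ)
    (hk : UF (fun x _ => kk x)) (hbm : UF (fun x _ => bm x)) (hbn : UF (fun x _ => bn x))
    (ha : RF (fun x e _ => aR x (e 0))) (hu : RF (fun x e _ => uR x (e 0)))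
    (hε : RF (fun x _ _ => εR x)) (hδ : RF (fun x _ _ => δR x))
    (hcongr : ∀ x α, QCongr (kk x) (Q x α))
    (hQ : RE (fun x e α => Q x (fun v => α (2 * v)) (rl (fun v => α (2 * v + 1)))
      (rc (fun v => α (2 * v + 1))) (rex (kk x) (fun v => α (2 * v + 1)))
      (rn0 (bn x) (fun v => α (2 * v + 1))) (rj (bn x + kk x) (fun v => α (2 * v + 1)))
      (rA (bm x) (fun v => α (2 * v + 1))) (e 1) (e 0) (rρ (fun v => α (2 * v + 1)))
      (rz (fun v => α (2 * v + 1))) (rz' (fun v => α (2 * v + 1)))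
      (rz1 (fun v => α (2 * v + 1))) (rz2 (fun v => α (2 * v + 1))))) :
    RE (fun x _ α => ∃ (l c : ℕ → ℂ) (ex : ℕ → ℕ), RootData (kk x) (aR x) (uR x) l c ex ∧
      CertQN (kk x) l c ex (bm x) (bn x) (εR x) (δR x) (Q x α)) := by
  have h1 : RE (fun x _ α => ∃ s, s < kk x + 1 ∧ ∃ d, d < kk x ∧ ∃ γ : ℕ → ℝ,
      BodyQ (Q x α) (kk x) s d (bm x) (bn x) (aR x) (uR x) (εR x) (δR x) γ) := by
    refine RE.bex (hk.add (UF.const 1)) (RE.bex hk (RE.exb ?_))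
    unfold BodyQ
    exact RE.and (RE.aff (re_body0 kk bm bn aR uR εR δR hk hbm hbn ha hu hε hδ) 2 1) hQ
  exact h1.congr fun x _ α => (cert_iffQ _ _ _ _ (hcongr x α) _ _ _ _).symm

end Pool.Agent.DD7719.M
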