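import Pool.Agent.DD7719.NCore

/-! Certified classes of a sequence with finitely many contact values. -/

set_option autoImplicit false

namespace Pool.Agent.DD7719.M

open Complex Filter Topology

variable {k : ℕ}

/-- the growth of a certified class compared with a given bound -/
theorem nar_dich (v u : ℕ → ℝ) (n0 j d N : ℕ) (ρ ρJ B U a : ℝ) (hn0 : 0 < n0) (hN : 0 < N)
    (hdj : d ≤ j) (hρ : 0 < ρ) (hρJ : 0 < ρJ) (ha : 0 < a)
    (hu : ∀ n, v (j + n0 * (N * n)) = ρ ^ (n0 * (N * n)) *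
        ((j + n0 * (N * n)).choose d : ℝ) * u n) (hU : ∀ n, |u n| ≤ U)
    (hbig : ∀ N1, ∃ n, N1 ≤ n ∧ a ≤ |u n|) (hB : ∀ m, |v (N * m + j % N)| ≤ B * ρJ ^ m) :
    Tendsto (fun n : ℕ => v (N * (j / N + n0 * n) + j % N) / ρJ ^ (j / N + n0 * n)) atTop (𝓝 0) ∨
    (ρJ = ρ ^ N ∧ d = 0) := by
  have hidx : ∀ n, j + n0 * (N * n) = N * (j / N + n0 * n) + j % N := by
    intro n
    have := Nat.div_add_mod j N
    calc j + n0 * (N * n) = (N * (j / N) + j % N) + n0 * (N * n) := by rw [this]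
      _ = _ := by ring
  set q : ℝ := ρJ / ρ ^ N with hq
  have hρN : 0 < ρ ^ N := by positivity
  have hq0 : 0 < q := by positivity
  have hρJq : ρJ = q * ρ ^ N := by
    rw [hq]
    field_simp
  have e0 : ∀ n : ℕ, ρJ ^ (j / N + n0 * n) = ρJ ^ (j / N) * (q ^ n0) ^ n * ρ ^ (n0 * (N * n)) := by
    intro n
    have e1 : ρJ ^ (n0 * n) = (q ^ n0) ^ n * ρ ^ (n0 * (N * n)) := by
      calc ρJ ^ (n0 * n) = (q * ρ ^ N) ^ (n0 * n) := by rw [← hρJq]
        _ = q ^ (n0 * n) * ρ ^ (N * (n0 * n)) := by rw [mul_pow, ← pow_mul]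
        _ = _ := by
            rw [← pow_mul]
            congr 2
            ring
    rw [pow_add, e1, mul_assoc]
  have e1 : ∀ n : ℕ, v (N * (j / N + n0 * n) + j % N) / ρJ ^ (j / N + n0 * n) =
      ((j + n0 * (N * n)).choose d : ℝ) * u n / (ρJ ^ (j / N) * (q ^ n0) ^ n) := by
    intro n
    rw [← hidx, hu, e0]
    have : 0 < ρ ^ (n0 * (N * n)) := by positivity
    field_simp
  have hch : ∀ n : ℕ, 1 ≤ n → ((j + n0 * (N * n)).choose d : ℝ) ≤
      ((j + n0 * N : ℕ) : ℝ) ^ d * (n : ℝ) ^ d := by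
    intro n hn
    have := choose_upper j (n0 * N) d n hn
    rwa [mul_assoc] at this
  set B' : ℝ := B * ρJ ^ (j / N) with hB'
  have hbd : ∀ n, ((j + n0 * (N * n)).choose d : ℝ) * |u n| ≤ B' * (q ^ n0) ^ n := by
    intro n
    have h1 := hB (j / N + n0 * n)
    rw [← hidx, hu, e0, abs_mul, abs_mul, abs_of_pos (show 0 < ρ ^ (n0 * (N * n)) by positivity),
      abs_of_nonneg (show (0 : ℝ) ≤ ((j + n0 * (N * n)).choose d : ℝ) from Nat.cast_nonneg _)] at h1
    have h3 : (0 : ℝ) < ρ ^ (n0 * (N * n)) := by positivity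
    have h5 : ((j + n0 * (N * n)).choose d : ℝ) * |u n| * ρ ^ (n0 * (N * n)) ≤
        B' * (q ^ n0) ^ n * ρ ^ (n0 * (N * n)) := by
      rw [hB']
      linarith
    exact le_of_mul_le_mul_right h5 h3
  rcases lt_trichotomy q 1 with hq1 | hq1 | hq1
  · exfalso
    have hqn : q ^ n0 < 1 := pow_lt_one₀ hq0.le hq1 hn0.ne'
    have htend := tendsto_pow_atTop_nhds_zero_of_lt_one (r := q ^ n0) (by positivity) hqn
    have h1 := (htend.const_mul |B'|).eventually_lt_const (show |B'| * 0 < a by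
      rw [mul_zero]; exact ha)
    rw [eventually_atTop] at h1
    obtain ⟨N3, hN3⟩ := h1
    obtain ⟨n, hn, h2⟩ := hbig N3
    have h3 := hN3 n hn
    have h4 := hbd n
    have h5 : (1 : ℝ) ≤ ((j + n0 * (N * n)).choose d : ℝ) := by
      exact_mod_cast Nat.choose_pos (by omega)
    have h6 : B' * (q ^ n0) ^ n ≤ |B'| * (q ^ n0) ^ n :=
      mul_le_mul_of_nonneg_right (le_abs_self _) (by positivity)
    nlinarith
  · right
    rw [hq1] at hbd
    simp only [one_pow, mul_one] at hbd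
    refine ⟨by rw [hρJq, hq1, one_mul], ?_⟩
    by_contra hd0
    obtain ⟨N3, hN3⟩ := exists_nat_gt (d.factorial * |B'| / a)
    obtain ⟨n, hn, h2⟩ := hbig (N3 + 1)
    have h4 := hbd n
    have h5 := choose_lower j (n0 * N) d n hdj (by positivity)
    rw [mul_assoc] at h5
    have h6 : (n : ℝ) ≤ (n : ℝ) ^ d := by
      have h7 : (1 : ℝ) ≤ n := by
        have : 1 ≤ n := by omega
        exact_mod_cast this
      exact le_self_pow₀ h7 hd0
    have h7 : (N3 : ℝ) ≤ n := by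
      have : N3 ≤ n := by omega
      exact_mod_cast this
    rw [div_lt_iff₀ ha] at hN3
    have hfac : (0 : ℝ) < d.factorial := by exact_mod_cast d.factorial_pos
    have h8 : ((j + n0 * (N * n)).choose d : ℝ) * a ≤ |B'| := by
      calc _ ≤ ((j + n0 * (N * n)).choose d : ℝ) * |u n| :=
            mul_le_mul_of_nonneg_left h2 (Nat.cast_nonneg _)
        _ ≤ B' := h4
        _ ≤ |B'| := le_abs_self _
    have h9 : (n : ℝ) * a ≤ d.factorial * |B'| := by
      calc (n : ℝ) * a ≤ (d.factorial * ((j + n0 * (N * n)).choose d : ℝ)) * a :=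
            mul_le_mul_of_nonneg_right (h6.trans h5) ha.le
        _ = d.factorial * (((j + n0 * (N * n)).choose d : ℝ) * a) := by ring
        _ ≤ _ := by gcongr
    have h10 : (N3 : ℝ) * a ≤ n * a := mul_le_mul_of_nonneg_right h7 ha.le
    linarith
  · left
    have hqn : 1 < q ^ n0 := one_lt_pow₀ hq1 hn0.ne'
    have htend := tendsto_pow_const_mul_const_pow_of_lt_one d (r := (q ^ n0)⁻¹) (by positivity)
      (inv_lt_one_of_one_lt₀ hqn)
    have hU0 : 0 ≤ U := (abs_nonneg _).trans (hU 0)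
    have h1 := htend.const_mul (((j + n0 * N : ℕ) : ℝ) ^ d * U / ρJ ^ (j / N))
    rw [mul_zero] at h1
    rw [tendsto_zero_iff_abs_tendsto_zero]
    refine squeeze_zero' (Eventually.of_forall fun _ => abs_nonneg _) ?_ h1
    filter_upwards [eventually_ge_atTop 1] with n hn
    simp only [Function.comp]
    have hp : 0 < ρJ ^ (j / N) * (q ^ n0) ^ n := by positivity
    rw [e1, abs_div, abs_of_pos hp, abs_mul,
      abs_of_nonneg (show (0 : ℝ) ≤ ((j + n0 * (N * n)).choose d : ℝ) from Nat.cast_nonneg _),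
      div_le_iff₀ hp]
    calc ((j + n0 * (N * n)).choose d : ℝ) * |u n|
        ≤ (((j + n0 * N : ℕ) : ℝ) ^ d * (n : ℝ) ^ d) * U :=
          mul_le_mul (hch n hn) (hU n) (abs_nonneg _) (by positivity)
      _ = ((j + n0 * N : ℕ) : ℝ) ^ d * U / ρJ ^ (j / N) * ((n : ℝ) ^ d * (q ^ n0)⁻¹ ^ n) *
          (ρJ ^ (j / N) * (q ^ n0) ^ n) := by
          rw [inv_pow]
          have h3 : 0 < (q ^ n0) ^ n := by positivity
          have h4 : 0 < ρJ ^ (j / N) := by positivity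
          field_simp

/-- the standing hypotheses on root data -/
structure GoodD (k : ℕ) (l c : Fin k → ℂ) (ex : Fin k → ℕ) (R M : ℕ) (ε δ : ℝ) (v : ℕ → ℝ) :
    Prop where
  hk : 0 < k
  hex : ∀ i, ex i < k
  hdc : ∀ i, ∀ e, e < ex i → ∃ i', l i' = l i ∧ ex i' = e
  hR : 1 ≤ R
  hM : 1 ≤ M
  hrb : RelBound k l R
  hε : 4 * k * R * ε ≤ 1
  hδ : 8 * k ^ 3 * M ^ 2 * R * δ ≤ 1
  hv : ∀ n, ∑ i, c i * (n.choose (ex i) : ℂ) * l i ^ (n - ex i) = (v n : ℂ)

lemma norm_div_sub_div (a b a' b' : ℂ) (hb : ‖b‖ = 1) (ha' : ‖a'‖ = 1) (hb' : ‖b'‖ = 1) :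
    ‖a / b - a' / b'‖ ≤ ‖a - a'‖ + ‖b - b'‖ := by
  have h0 : b ≠ 0 := by
    intro h
    rw [h, norm_zero] at hb
    exact zero_ne_one hb
  have h0' : b' ≠ 0 := by
    intro h
    rw [h, norm_zero] at hb'
    exact zero_ne_one hb'
  have h1 : a / b - a' / b' = (a - a') / b - a' * (b - b') / (b * b') := by
    field_simp
    ring
  rw [h1]
  refine (norm_sub_le _ _).trans ?_
  rw [norm_div, norm_div, norm_mul, norm_mul, hb, hb', ha']
  simp

lemma nz_div (a b : ℂ) (h : ‖a‖ = ‖b‖) (hb : b ≠ 0) : nz a / nz b = a / b := by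
  have ha : a ≠ 0 := by
    intro h0
    rw [h0, norm_zero] at h
    exact hb (norm_eq_zero.mp h.symm)
  have h1 : (‖b‖ : ℂ) ≠ 0 := by
    rw [Ne, ofReal_eq_zero, norm_eq_zero]
    exact hb
  rw [nz, nz, if_neg ha, if_neg hb, h]
  field_simp

/-- **The approximation property of a certified class.** -/
theorem nar_cls (l c : Fin k → ℂ) (ex : Fin k → ℕ) (R M Nb : ℕ) (ε δ : ℝ) (v : ℕ → ℝ)
    (hg : GoodD k l c ex R M ε δ v)
    (n0 j : ℕ) (A H : Fin k → Fin k → ℤ) (D : ℤ) (s : ℕ) (w : Fin k → Fin k → ℝ)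
    (τ : Fin k → ℝ) (ρ : ℝ) (d : ℕ)
    (hbase : BaseF k l c ex M Nb ε δ n0 j A H D s w τ ρ d) (hρpos : 0 < ρ) (z' : Fin k → ℂ)
    (hz' : ∀ t, ‖z' t‖ = 1) (hne : (LevF l c ex A s j d ρ z').re ≠ 0)
    (N : ℕ) (hN : 0 < N) (ρJ B : ℝ) (hρJ : 0 < ρJ) (hB : ∀ m, |v (N * m + j % N)| ≤ B * ρJ ^ m)
    (hnot : ¬ Tendsto (fun n : ℕ => v (N * (j / N + n0 * n) + j % N) / ρJ ^ (j / N + n0 * n))
      atTop (𝓝 0)) :
    d = 0 ∧ ∀ z : Fin k → ℂ, (∀ t, ‖z t‖ = 1) → ∀ κ : ℝ, 0 < κ → ∀ N1, ∃ m, N1 ≤ m ∧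
      |v (N * m + j % N) / ρJ ^ m - (LevF l c ex A s j d ρ z).re / ρJ ^ (j / N)| ≤ κ ∧
      ∀ i i', ‖l i‖ = ‖l i'‖ → l i' ≠ 0 → ‖(l i / l i') ^ (N * m + j % N) -
        (l i / l i') ^ j * (Wt A s z i / Wt A s z i')‖ ≤ κ := by
  obtain ⟨u, hu, ⟨U, hU⟩, happ⟩ := nar_core l c ex R M Nb ε δ hg.hk hg.hex hg.hdc hg.hR hg.hM hg.hrb
    hg.hε hg.hδ v hg.hv n0 j A H D s w τ ρ d hbase hρpos N hN
  have hn0 : 0 < n0 := hbase.1
  have hkj : k ≤ j := hbase.2.2.1
  have hdk : d < k := by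
    obtain ⟨_, _, _, _, _, _, _, _, _, _, _, _, _, _, hd, _⟩ := hbase
    exact hd
  set a : ℝ := |(LevF l c ex A s j d ρ z').re| / 2 with ha
  have ha0 : 0 < a := half_pos (abs_pos.mpr hne)
  have hbig : ∀ N1, ∃ n, N1 ≤ n ∧ a ≤ |u n| := by
    intro N1
    obtain ⟨n, hn, h1, -⟩ := happ z' hz' a ha0 N1
    refine ⟨n, hn, ?_⟩
    have h2 := abs_sub_abs_le_abs_sub (LevF l c ex A s j d ρ z').re (u n)
    rw [abs_sub_comm] at h2
    linarith
  rcases nar_dich v u n0 j d N ρ ρJ B U a hn0 hN (by omega) hρpos hρJ ha0 hu hU hbig hB with h | h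
  · exact absurd h hnot
  obtain ⟨hρρ, hd0⟩ := h
  refine ⟨hd0, fun z hz κ hκ N1 => ?_⟩
  have hidx : ∀ n, j + n0 * (N * n) = N * (j / N + n0 * n) + j % N := by
    intro n
    have := Nat.div_add_mod j N
    calc j + n0 * (N * n) = (N * (j / N) + j % N) + n0 * (N * n) := by rw [this]
      _ = _ := by ring
  have hp : 0 < ρJ ^ (j / N) := by positivity
  obtain ⟨n, hn, h1, h2⟩ := happ z hz (min (κ / 2) (κ * ρJ ^ (j / N))) (lt_min (by positivity)
    (by positivity)) N1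
  refine ⟨j / N + n0 * n, ?_, ?_, ?_⟩
  · have : n ≤ n0 * n := Nat.le_mul_of_pos_left _ hn0
    exact hn.trans (this.trans (Nat.le_add_left _ _))
  · have e1 : v (N * (j / N + n0 * n) + j % N) / ρJ ^ (j / N + n0 * n) = u n / ρJ ^ (j / N) := by
      rw [← hidx, hu, hd0, Nat.choose_zero_right, pow_add, hρρ]
      have e2 : (ρ ^ N) ^ (n0 * n) = ρ ^ (n0 * (N * n)) := by
        rw [← pow_mul]
        congr 1
        ring
      rw [e2]
      have : 0 < ρ ^ (n0 * (N * n)) := by positivity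
      field_simp
      push_cast
      ring
    rw [e1, ← sub_div, abs_div, abs_of_pos hp, div_le_iff₀ hp]
    exact h1.trans (min_le_right _ _)
  · intro i i' hii hi'
    have e1 : (l i / l i') ^ (N * (j / N + n0 * n) + j % N) = (l i / l i') ^ j *
        (nz (l i) ^ (n0 * (N * n)) / nz (l i') ^ (n0 * (N * n))) := by
      rw [← hidx, pow_add, ← nz_div _ _ hii hi', div_pow _ _ (n0 * (N * n))]
    have hγ : ‖l i / l i'‖ = 1 := by
      rw [norm_div, hii, div_self]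
      exact norm_ne_zero_iff.mpr hi'
    rw [e1, ← mul_sub, norm_mul, norm_pow, hγ, one_pow, one_mul]
    refine (norm_div_sub_div _ _ _ _ (by rw [norm_pow, norm_nz, one_pow]) (norm_Wt A s z hz i)
      (norm_Wt A s z hz i')).trans ?_
    have h3 := (h2 i).trans (min_le_left _ _)
    have h4 := (h2 i').trans (min_le_left _ _)
    linarith

end Pool.Agent.DD7719.M
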