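import Pool.Agent.DD7719.NSound
import Pool.Agent.DD7719.TComplete

/-! Sequences without a certificate of non-narrowness. -/

set_option autoImplicit false

namespace Pool.Agent.DD7719.M

open Complex Filter Topology GS

variable {k : ℕ}

/-- the point of the torus at time `m` -/
noncomputable def orb (x : Fin k → ℝ) (m : ℕ) (t : Fin k) : ℂ := exp ((m * x t : ℝ) * I)

lemma norm_orb (x : Fin k → ℝ) (m : ℕ) (t : Fin k) : ‖orb x m t‖ = 1 :=
  norm_exp_ofReal_mul_I _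

/-- representation of the powers by the orbit -/
def Rep (l : Fin k → ℂ) (n0 : ℕ) (A : Fin k → Fin k → ℤ) (s : ℕ) (x : Fin k → ℝ) : Prop :=
  (∀ t : Fin k, s ≤ (t : ℕ) → x t = 0) ∧ ∀ i, (nz (l i) ^ n0).arg = ∑ t, x t * (A t i : ℝ)

lemma Rep.Wt_orb {l : Fin k → ℂ} {n0 : ℕ} {A : Fin k → Fin k → ℤ} {s : ℕ} {x : Fin k → ℝ}
    (h : Rep l n0 A s x) (m : ℕ) (i : Fin k) : Wt A s (orb x m) i = (nz (l i) ^ n0) ^ m := by
  have hμn : ‖nz (l i) ^ n0‖ = 1 := by rw [norm_pow, norm_nz, one_pow]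
  have h3 : ∀ t : Fin k, (if (t : ℕ) < s then orb x m t ^ A t i else 1) =
      exp ((m * (x t * A t i) : ℝ) * I) := by
    intro t
    split_ifs with ht
    · rw [orb, ← exp_int_mul]
      congr 1
      push_cast
      ring
    · rw [h.1 t (not_lt.mp ht)]
      simp
  rw [Wt, Finset.prod_congr rfl fun t _ => h3 t, ← exp_sum, ← Finset.sum_mul, ← ofReal_sum,
    ← Finset.mul_sum, ← h.2 i]
  conv_rhs => rw [← exp_arg hμn, ← exp_nat_mul]
  congr 1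
  push_cast
  ring

open scoped Classical in
/-- **Class data, without any certificate.** -/
theorem class_data0 (l c : Fin k → ℂ) (ex : Fin k → ℕ) (R Q MH Q' e Nb : ℕ) (hk : 0 < k)
    (hex : ∀ i, ex i < k)
    (hR : 1 ≤ R)
    (hQ : 2 * k * R ≤ Q) (hMH : k.factorial * (Q ^ k + 1) ^ k ≤ MH) (δ : ℝ)
    (hδ0 : 0 ≤ δ) (hδ1 : 2 * k * MH * δ ≤ 1)
    (hδ2 : (k : ℝ) ^ 4 * (Q ^ k + 1) * Q ^ (k + 1) * MH ^ 3 * δ ^ 2 ≤ 1)
    (hδ3 : 2 * (k : ℝ) * R * δ ≤ 1)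
    (hQ' : 0 < Q') (hδQ' : 7 / (Q' : ℝ) ≤ δ) (he : 0 < e) (hNb : e * Q' ^ k ≤ Nb)
    (hrb : RelBound k l R)
    (v : ℕ → ℝ)
    (hv : ∀ n, ∑ i, c i * (n.choose (ex i) : ℂ) * l i ^ (n - ex i) = (v n : ℂ)) :
    ∃ n0 : ℕ, 0 < n0 ∧ n0 ≤ Nb ∧ e ∣ n0 ∧ ∀ j, k ≤ j → j < k + n0 →
      ∃ (A H : Fin k → Fin k → ℤ) (D : ℤ) (s : ℕ) (w : Fin k → Fin k → ℝ)
        (τ : Fin k → ℝ) (x : Fin k → ℝ), Rep l n0 A s x ∧
        (BaseF k l c ex MH Nb (2 / Q) δ n0 j A H D s w τ 0 0 ∨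
        ∃ i0 : Fin k, BaseF k l c ex MH Nb (2 / Q) δ n0 j A H D s w τ ‖l i0‖ (ex i0) ∧
          l i0 ≠ 0 ∧
          (∃ z' : Fin k → ℂ, (∀ t, ‖z' t‖ = 1) ∧ (LevF l c ex A s j (ex i0) ‖l i0‖ z').re ≠ 0) ∧
          (∀ m, ∑ i, (if Above ‖l i0‖ (ex i0) (l i) (ex i) then
            c i * ((j + n0 * m).choose (ex i) : ℂ) * l i ^ (j + n0 * m - ex i) else 0) = 0)) := by
  classical
  obtain ⟨t, ht, htQ, htδ⟩ := exists_n0 (fun i => nz (l i)) (fun i => norm_nz _) e Q' hQ'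
  set n0 := e * t with hn0def
  have hn0 : 0 < n0 := by positivity
  have hn0Nb : n0 ≤ Nb := (Nat.mul_le_mul_left e htQ).trans hNb
  set μ : Fin k → ℂ := fun i => nz (l i) ^ n0 with hμ
  have hμn : ∀ i, ‖μ i‖ = 1 := fun i => by rw [hμ]; simp only [norm_pow, norm_nz, one_pow]
  have hμδ : ∀ i, ‖μ i - 1‖ ≤ δ := fun i => (htδ i).trans hδQ'
  set θ : Fin k → ℝ := fun i => (μ i).arg with hθ
  have hθδ : ∀ i, |θ i| ≤ 2 * δ := fun i =>
    (abs_arg_le (hμn i)).trans (by have := hμδ i; linarith)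
  have hprodμ : ∀ g : Fin k → ℤ, ∏ i, μ i ^ g i = exp ((∑ i, (g i : ℝ) * θ i : ℝ) * I) :=
    prod_zpow_eq_exp hμn
  have hprodμ' : ∀ g : Fin k → ℤ, ∏ i, μ i ^ g i = (∏ i, nz (l i) ^ g i) ^ n0 :=
    fun g => prod_pow_zpow (fun i => nz (l i)) g n0
  have hrel : ∀ a : Fin k → ℤ, (∀ g : Fin k → ℤ, (∀ i, |g i| ≤ R) →
      ∑ t, (g t : ℝ) * θ t = 0 → ∑ t, a t * g t = 0) →
      ∀ g : Fin k → ℤ, ∑ t, (g t : ℝ) * θ t = 0 → ∑ t, a t * g t = 0 := by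
    intro a ha g hg
    have h1 := hrb a (by
      intro g hg hrel
      apply ha g hg
      have h2 : (∏ i, μ i ^ g i) ^ 2 = 1 := by
        rw [hprodμ', ← pow_mul, mul_comm, pow_mul, hrel, one_pow]
      rw [hprodμ] at h2
      apply eq_zero_of_exp_sq h2
      calc |∑ i, (g i : ℝ) * θ i| ≤ ∑ i, |(g i : ℝ) * θ i| := Finset.abs_sum_le_sum_abs _ _
        _ ≤ ∑ _i : Fin k, (R : ℝ) * (2 * δ) := by
            apply Finset.sum_le_sum
            intro i _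
            rw [abs_mul]
            have h3 : |(g i : ℝ)| ≤ R := by exact_mod_cast hg i
            exact mul_le_mul h3 (hθδ i) (abs_nonneg _) (by positivity)
        _ = 2 * (k : ℝ) * R * δ := by simp; ring
        _ ≤ 1 := hδ3
        _ < Real.pi := by have := Real.pi_gt_three; linarith)
    have h2 : (∏ i, nz (l i) ^ g i) ^ n0 = 1 := by
      rw [← hprodμ', hprodμ, hg]
      simp
    have h3 := h1 (fun i => n0 * g i) (by
      have h4 : ∏ i, nz (l i) ^ ((n0 : ℤ) * g i) = (∏ i, nz (l i) ^ g i) ^ n0 := by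
        rw [← Finset.prod_pow]
        apply Finset.prod_congr rfl
        intro i _
        rw [mul_comm, zpow_mul, zpow_natCast]
      rw [h4, h2, one_pow])
    have h4 : (n0 : ℤ) * ∑ i, a i * g i = 0 := by
      rw [← h3, Finset.mul_sum]
      exact Finset.sum_congr rfl fun i _ => by ring
    rcases mul_eq_zero.mp h4 with h5 | h5
    · exact absurd h5 (by exact_mod_cast hn0.ne')
    · exact h5
  obtain ⟨s, A, H, D, w, τ, hs, hD, hDM, hHA, hA, hH, hw, hwε, _, x, hx0, hx⟩ :=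
    exists_rel_cert R Q MH hR hQ hk θ hrel δ hδ0 hθδ hMH hδ1 hδ2
  have hAM : ∀ l' t, |A l' t| ≤ MH := by
    intro l' t
    refine (hA l' t).trans ?_
    have h1 : Q ^ k + 1 ≤ MH := by
      refine le_trans ?_ hMH
      calc Q ^ k + 1 = 1 * (Q ^ k + 1) ^ 1 := by ring
        _ ≤ k.factorial * (Q ^ k + 1) ^ k :=
            Nat.mul_le_mul k.factorial_pos (Nat.pow_le_pow_right (by omega) hk)
    exact_mod_cast h1
  have hw' : ∀ i : Fin k, (i : ℕ) < s → ∀ l', i ≤ l' → ∑ t, (H l' t : ℝ) * w i t =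
      (if l' = i then (D : ℝ) else 0) - τ i * (∏ t, (nz (l t) ^ n0) ^ H l' t).im := by
    intro i hi l' hl'
    rw [hw i hi l' hl']
    have := hprodμ (H l')
    rw [show (∏ t, (nz (l t) ^ n0) ^ H l' t) = ∏ t, μ t ^ H l' t from rfl, this, im_exp]
  refine ⟨n0, hn0, hn0Nb, dvd_mul_right _ _, fun j hj hj' => ?_⟩
  have hexj : ∀ i, ex i ≤ j := fun i => ((hex i).le.trans hj)
  have hrep : Rep l n0 A s x := ⟨hx0, hx⟩
  refine ⟨A, H, D, s, w, τ, x, hrep, ?_⟩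
  rcases level_cases l c ex n0 j hn0 hexj with hvan | ⟨i0, hi0, hG, hvan⟩
  · left
    refine ⟨hn0, hn0Nb, hj, hj', hs, hD,
        hDM, hHA, hAM, hH, hμδ, hw', hwε, le_rfl, hk, ?_⟩
    intro m _
    refine Eq.trans (Finset.sum_congr rfl fun i _ => ?_) (hvan m)
    unfold Above
    by_cases h : l i = 0
    · simp [h]
    · have h1 : 0 < ‖l i‖ := norm_pos_iff.mpr h
      rw [if_pos (Or.inl h1), if_pos h]
  · right
    have hρ : 0 < ‖l i0‖ := norm_pos_iff.mpr hi0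
    have hbase : BaseF k l c ex MH Nb (2 / Q) δ n0 j A H D s w τ ‖l i0‖ (ex i0) :=
      ⟨hn0, hn0Nb, hj, hj', hs, hD, hDM, hHA, hAM, hH, hμδ, hw', hwε, hρ.le, hex i0,
        fun m _ => hvan m⟩
    have hval : ∀ m : ℕ, levelSum l c ex n0 j ‖l i0‖ (ex i0) m =
        LevF l c ex A s j (ex i0) ‖l i0‖ (orb x m) := fun m =>
      levelSum_eq l c ex n0 j (ex i0) ‖l i0‖ s A x hx0 hx m
    have hlev := level_asym l c ex n0 j hn0 hexj ‖l i0‖ (ex i0) hρ hvan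
    have hasym : Tendsto (fun M : ℕ => ((v (j + n0 * M) : ℝ) : ℂ) /
        ((‖l i0‖ ^ (n0 * M) * (M : ℝ) ^ (ex i0) : ℝ) : ℂ) -
      ((((j + n0 * M).choose (ex i0) : ℝ) / (M : ℝ) ^ (ex i0) : ℝ) : ℂ) *
        levelSum l c ex n0 j ‖l i0‖ (ex i0) M)
      atTop (𝓝 0) := by
      refine hlev.congr fun M => ?_
      rw [hv]
    obtain ⟨-, -, h3, -⟩ := level_data l c ex n0 j hn0 v ‖l i0‖ (ex i0) hρ hasym
    have hnt := levelSum_not_tendsto l c ex n0 j hn0 i0 hi0 hG 1 0 (fun i _ h => by simpa using h)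
    have hM : ∃ M, (levelSum l c ex n0 j ‖l i0‖ (ex i0) M).re ≠ 0 := by
      by_contra hcon
      push Not at hcon
      apply hnt
      simpa using h3 hcon
    obtain ⟨M, hM⟩ := hM
    rw [hval] at hM
    exact ⟨i0, hbase, hi0, ⟨orb x M, norm_orb x M, hM⟩, hvan⟩

/-- a uniformly discrete subset of the unit circle is finite -/
lemma finite_of_sep (S : Set ℂ) (hS : S ⊆ Metric.sphere 0 1) (δ : ℝ) (hδ : 0 < δ)
    (h : ∀ x ∈ S, ∀ y ∈ S, x ≠ y → δ < ‖x - y‖) : S.Finite := by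
  by_contra hinf
  obtain ⟨a, -, ha⟩ := Set.Infinite.exists_accPt_of_subset_isCompact hinf
    (isCompact_sphere (0 : ℂ) 1) hS
  rw [accPt_iff_nhds] at ha
  obtain ⟨x, ⟨hx1, hx2⟩, hxa⟩ := ha (Metric.ball a (δ / 2)) (Metric.ball_mem_nhds _ (half_pos hδ))
  have hd : 0 < dist x a := dist_pos.mpr hxa
  obtain ⟨y, ⟨hy1, hy2⟩, hya⟩ := ha (Metric.ball a (min (δ / 2) (dist x a)))
    (Metric.ball_mem_nhds _ (lt_min (half_pos hδ) hd))
  rw [Metric.mem_ball] at hx1 hy1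
  have hxy : x ≠ y := by
    rintro rfl
    exact absurd (hy1.trans_le (min_le_right _ _)) (lt_irrefl _)
  have h1 := h x hx2 y hy2 hxy
  have h2 := dist_triangle_right x y a
  have h3 := hy1.trans_le (min_le_left _ _)
  rw [← dist_eq_norm] at h1
  linarith

lemma continuousOn_Wt (A : Fin k → Fin k → ℤ) (s : ℕ) (i : Fin k) :
    ContinuousOn (fun z : Fin k → ℂ => Wt A s z i) {z | ∀ t, ‖z t‖ = 1} := by
  unfold Wt
  apply continuousOn_finsetProd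
  intro t _
  split_ifs
  · apply ContinuousOn.zpow₀ (continuous_apply t).continuousOn
    intro z hz
    left
    intro h0
    have := hz t
    rw [h0, norm_zero] at this
    exact zero_ne_one this
  · exact continuousOn_const

lemma Wt_ne_zero (A : Fin k → Fin k → ℤ) (s : ℕ) (z : Fin k → ℂ) (hz : ∀ t, ‖z t‖ = 1)
    (i : Fin k) : Wt A s z i ≠ 0 := by
  intro h
  have := norm_Wt A s z hz i
  rw [h, norm_zero] at this
  exact zero_ne_one this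

lemma continuousOn_chi (A : Fin k → Fin k → ℤ) (s : ℕ) (i i' : Fin k) :
    ContinuousOn (fun z : Fin k → ℂ => Wt A s z i / Wt A s z i') {z | ∀ t, ‖z t‖ = 1} :=
  (continuousOn_Wt A s i).div (continuousOn_Wt A s i') fun z hz => Wt_ne_zero A s z hz i'

/-- the ratio along the sequence is a character on the orbit -/
lemma Rep.chi_orb {l : Fin k → ℂ} {n0 : ℕ} {A : Fin k → Fin k → ℤ} {s : ℕ} {x : Fin k → ℝ}
    (h : Rep l n0 A s x) (m : ℕ) (i i' : Fin k) (hii : ‖l i‖ = ‖l i'‖) (hi' : l i' ≠ 0) :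
    Wt A s (orb x m) i / Wt A s (orb x m) i' = (l i / l i') ^ (n0 * m) := by
  rw [h.Wt_orb, h.Wt_orb, ← pow_mul, ← pow_mul, ← div_pow, nz_div _ _ hii hi']

/-- the contact values come from zeros on the torus -/
theorem contact_subset (l c : Fin k → ℂ) (ex : Fin k → ℕ) (n0 j : ℕ) (hn0 : 0 < n0)
    (hexj : ∀ i, ex i ≤ j) (v : ℕ → ℝ)
    (hv : ∀ n, ∑ i, c i * (n.choose (ex i) : ℂ) * l i ^ (n - ex i) = (v n : ℂ))
    (ρ : ℝ) (hρ : 0 < ρ) (hvan : open scoped Classical in ∀ m, ∑ i, (if Above ρ 0 (l i) (ex i) then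
          c i * ((j + n0 * m).choose (ex i) : ℂ) * l i ^ (j + n0 * m - ex i) else 0) = 0)
    (A : Fin k → Fin k → ℤ) (s : ℕ) (x : Fin k → ℝ) (hrep : Rep l n0 A s x)
    (i i' : Fin k) (hii : ‖l i‖ = ‖l i'‖) (hi' : l i' ≠ 0) (J q : ℕ) (hJ : j = J + n0 * q) :
    contact v n0 J (ρ ^ n0) (l i / l i') ⊆
      (fun z : Fin k → ℂ => (l i / l i') ^ j * (Wt A s z i / Wt A s z i')) ''
        {z | (∀ t, ‖z t‖ = 1) ∧ (LevF l c ex A s j 0 ρ z).re = 0} := by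
  classical
  rintro ζ ⟨φ, hφ, h1, h2⟩
  have hlev := level_asym l c ex n0 j hn0 hexj ρ 0 hρ hvan
  have hre : Tendsto (fun M : ℕ => v (j + n0 * M) / ρ ^ (n0 * M) -
      (LevF l c ex A s j 0 ρ (orb x M)).re) atTop (𝓝 0) := by
    have h3 := (Complex.continuous_re.tendsto 0).comp hlev
    rw [Complex.zero_re] at h3
    refine h3.congr fun M => ?_
    simp only [Function.comp_apply, hv]
    have e1 := levelSum_eq l c ex n0 j 0 ρ s A x hrep.1 hrep.2 M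
    rw [e1, pow_zero, mul_one, Nat.choose_zero_right, Nat.cast_one, div_one, ofReal_one, one_mul,
      Complex.sub_re, ← Complex.ofReal_div, Complex.ofReal_re]
    rfl
  -- shift
  have hsub : Tendsto (fun m : ℕ => φ m - q) atTop atTop :=
    (tendsto_sub_atTop_nat q).comp hφ.tendsto_atTop
  have hρn : 0 < ρ ^ n0 := by positivity
  have hF : Tendsto (fun m : ℕ => (LevF l c ex A s j 0 ρ (orb x (φ m - q))).re) atTop (𝓝 0) := by
    have h3 := hre.comp hsub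
    have h4 : Tendsto (fun m : ℕ => v (j + n0 * (φ m - q)) / ρ ^ (n0 * (φ m - q))) atTop (𝓝 0) := by
      have h5 := h1.const_mul ((ρ ^ n0) ^ q)
      rw [mul_zero] at h5
      refine h5.congr' ?_
      filter_upwards [hφ.tendsto_atTop.eventually_ge_atTop q] with m hm
      obtain ⟨r, hr⟩ := Nat.exists_eq_add_of_le hm
      rw [hr, Nat.add_sub_cancel_left, hJ]
      have e1 : J + n0 * q + n0 * r = n0 * (q + r) + J := by ring
      rw [e1, pow_add, pow_mul ρ n0 r]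
      field_simp
    have h6 := h4.sub h3
    rw [sub_zero] at h6
    refine h6.congr fun m => ?_
    simp only [Function.comp_apply]
    ring
  obtain ⟨z, hz, ψ, hψ, hψz⟩ := (isCompact_torus (k := k)).tendsto_subseq
    (x := fun m => orb x (φ m - q)) (fun m => norm_orb x _)
  have hzψ : Tendsto (fun m => orb x (φ (ψ m) - q)) atTop (𝓝[{z | ∀ t, ‖z t‖ = 1}] z) := by
    rw [tendsto_nhdsWithin_iff]
    exact ⟨hψz, Eventually.of_forall fun m => norm_orb x _⟩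
  refine ⟨z, ⟨hz, ?_⟩, ?_⟩
  · have h3 := (continuous_LevF l c ex A s j 0 ρ z hz).tendsto.comp hzψ
    exact tendsto_nhds_unique h3 (hF.comp hψ.tendsto_atTop)
  · have h3 := (continuousOn_chi A s i i' z hz).tendsto.comp hzψ
    have h4 := h3.const_mul ((l i / l i') ^ j)
    have h5 := h2.comp hψ.tendsto_atTop
    refine tendsto_nhds_unique h4 (h5.congr' ?_)
    filter_upwards [(hφ.tendsto_atTop.comp hψ.tendsto_atTop).eventually_ge_atTop q] with m hm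
    simp only [Function.comp_apply] at hm ⊢
    rw [hrep.chi_orb _ i i' hii hi', ← pow_add]
    congr 1
    obtain ⟨r, hr⟩ := Nat.exists_eq_add_of_le hm
    rw [hr, Nat.add_sub_cancel_left, hJ]
    ring

/-- the data of a class in the absence of certificates -/
def ClsD (k : ℕ) (l c : Fin k → ℂ) (ex : Fin k → ℕ) (M Nb : ℕ) (ε δ : ℝ) (n0 j : ℕ) : Prop :=
  ∃ (A H : Fin k → Fin k → ℤ) (D : ℤ) (s : ℕ) (w : Fin k → Fin k → ℝ)
    (τ : Fin k → ℝ) (x : Fin k → ℝ) (i0 : Fin k), Rep l n0 A s x ∧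
    BaseF k l c ex M Nb ε δ n0 j A H D s w τ ‖l i0‖ 0 ∧ l i0 ≠ 0 ∧
    (∃ z' : Fin k → ℂ, (∀ t, ‖z' t‖ = 1) ∧ (LevF l c ex A s j 0 ‖l i0‖ z').re ≠ 0) ∧
    (∀ z : Fin k → ℂ, (∀ t, ‖z t‖ = 1) → 0 ≤ (LevF l c ex A s j 0 ‖l i0‖ z).re) ∧
    ((∀ z : Fin k → ℂ, (∀ t, ‖z t‖ = 1) → 0 < (LevF l c ex A s j 0 ‖l i0‖ z).re) ∨
      ∃ i i', ‖l i‖ = ‖l i'‖ ∧ l i ^ n0 ≠ l i' ^ n0 ∧
        ((fun z : Fin k → ℂ => (l i / l i') ^ j * (Wt A s z i / Wt A s z i')) ''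
        {z | (∀ t, ‖z t‖ = 1) ∧ (LevF l c ex A s j 0 ‖l i0‖ z).re = 0}).Finite) ∧
    (open scoped Classical in ∀ m, ∑ i, (if Above ‖l i0‖ 0 (l i) (ex i) then
            c i * ((j + n0 * m).choose (ex i) : ℂ) * l i ^ (j + n0 * m - ex i) else 0) = 0)

/-- **Class data in the absence of certificates.** -/
theorem nar_class_data (l c : Fin k → ℂ) (ex : Fin k → ℕ) (R Q MH Q' e Nb : ℕ) (hk : 0 < k)
    (hex : ∀ i, ex i < k)
    (hR : 1 ≤ R)
    (hQ : 2 * k * R ≤ Q) (hMH : k.factorial * (Q ^ k + 1) ^ k ≤ MH) (δ : ℝ)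
    (hδ0 : 0 ≤ δ) (hδ1 : 2 * k * MH * δ ≤ 1)
    (hδ2 : (k : ℝ) ^ 4 * (Q ^ k + 1) * Q ^ (k + 1) * MH ^ 3 * δ ^ 2 ≤ 1)
    (hδ3 : 2 * (k : ℝ) * R * δ ≤ 1)
    (hQ' : 0 < Q') (hδQ' : 7 / (Q' : ℝ) ≤ δ) (he : 0 < e) (hNb : e * Q' ^ k ≤ Nb)
    (hrb : RelBound k l R)
    (v : ℕ → ℝ)
    (hv : ∀ n, ∑ i, c i * (n.choose (ex i) : ℂ) * l i ^ (n - ex i) = (v n : ℂ))
    (t0 : ℝ) (ht0 : 0 < t0) (hno : ¬ CertNF k l c ex MH Nb (2 / Q) δ t0) :
    ∃ n0 : ℕ, 0 < n0 ∧ n0 ≤ Nb ∧ e ∣ n0 ∧ ∀ j, k ≤ j → j < k + n0 →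
      ClsD k l c ex MH Nb (2 / Q) δ n0 j := by
  classical
  obtain ⟨n0, hn0, hn0Nb, hen0, h⟩ := class_data0 l c ex R Q MH Q' e Nb hk hex hR hQ hMH δ hδ0 hδ1
    hδ2 hδ3 hQ' hδQ' he hNb hrb v hv
  refine ⟨n0, hn0, hn0Nb, hen0, fun j hj hj' => ?_⟩
  obtain ⟨A, H, D, s, w, τ, x, hrep, hcase⟩ := h j hj hj'
  rcases hcase with hbase | ⟨i0, hbase, hi0, ⟨z', hz', hne⟩, hvan⟩
  · exact absurd ⟨n0, j, A, H, D, s, w, τ, 0, 0, fun _ => 1, fun _ => 1, hbase, fun _ => norm_one,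
      fun _ => norm_one, Or.inl rfl⟩ hno
  have hd : ex i0 = 0 := by
    by_contra hd
    exact hno ⟨n0, j, A, H, D, s, w, τ, ‖l i0‖, ex i0, z', z', hbase, hz', hz',
      Or.inr ⟨hne, Or.inl (Nat.pos_of_ne_zero hd)⟩⟩
  rw [hd] at hbase hne hvan
  have hF : ∀ z : Fin k → ℂ, (∀ t, ‖z t‖ = 1) → 0 ≤ (LevF l c ex A s j 0 ‖l i0‖ z).re := by
    intro z hz
    by_contra hcon
    push Not at hcon
    exact hno ⟨n0, j, A, H, D, s, w, τ, ‖l i0‖, 0, z, z', hbase, hz, hz',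
      Or.inr ⟨hne, Or.inr (Or.inl hcon)⟩⟩
  refine ⟨A, H, D, s, w, τ, x, i0, hrep, hbase, hi0, ⟨z', hz', hne⟩, hF, ?_, hvan⟩
  by_cases hpos : ∀ z : Fin k → ℂ, (∀ t, ‖z t‖ = 1) → 0 < (LevF l c ex A s j 0 ‖l i0‖ z).re
  · exact Or.inl hpos
  · right
    push Not at hpos
    obtain ⟨z, hz, hz0⟩ := hpos
    by_contra hcon
    push Not at hcon
    apply hno
    refine ⟨n0, j, A, H, D, s, w, τ, ‖l i0‖, 0, z, z', hbase, hz, hz',
      Or.inr ⟨hne, Or.inr (Or.inr ⟨hz0, ?_⟩)⟩⟩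
    intro i i' hii hne'
    by_contra hc
    push Not at hc
    have hi' : l i' ≠ 0 := by
      intro h0
      rw [h0, norm_zero, norm_eq_zero] at hii
      apply hne'
      rw [hii, h0]
    have hγ : ‖l i / l i'‖ = 1 := unit_of_ratio _ _ hii hi'
    apply hcon i i' hii hne'
    apply finite_of_sep _ _ (1 / t0) (by positivity)
    · rintro _ ⟨z1, ⟨hz1, h01⟩, rfl⟩ _ ⟨z2, ⟨hz2, h02⟩, rfl⟩ hne12
      simp only at hne12 ⊢
      have h3 := hc z1 z2 hz1 hz2 h01.le h02.le (by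
        intro h4
        apply hne12
        rw [h4])
      rw [← mul_sub, norm_mul, norm_pow, hγ, one_pow, one_mul, div_lt_iff₀ ht0]
      linarith
    · rintro _ ⟨z1, ⟨hz1, h01⟩, rfl⟩
      rw [mem_sphere_zero_iff_norm, norm_mul, norm_pow, hγ, one_pow, one_mul, norm_div,
        norm_Wt A s z1 hz1, norm_Wt A s z1 hz1, div_one]

end Pool.Agent.DD7719.M
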