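import Pool.Agent.DD7719.TSound
import Pool.Agent.DD7719.CertComplete

/-! Contact values and the asymptotics of a certified class. -/

set_option autoImplicit false

namespace Pool.Agent.DD7719.M

open Complex Filter Topology

variable {k : ℕ}

/-- The contact values of `γ` along the class `J` modulo `N`: limits of `γ^(N m + J)` along
subsequences on which `v (N m + J) / ρ^m` tends to zero. -/
def contact (v : ℕ → ℝ) (N J : ℕ) (ρ : ℝ) (γ : ℂ) : Set ℂ :=
  {ζ | ∃ φ : ℕ → ℕ, StrictMono φ ∧ Tendsto (fun m => v (N * φ m + J) / ρ ^ φ m) atTop (𝓝 0) ∧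
    Tendsto (fun m => γ ^ (N * φ m + J)) atTop (𝓝 ζ)}

theorem contact_of_approx {E : Type*} [MetricSpace E] (v : ℕ → ℝ) (N J : ℕ) (ρ : ℝ) (γ : ℂ)
    (hγ : ‖γ‖ = 1) (f : ℂ → E) (hf : Continuous f) (y : E)
    (h : ∀ ε : ℝ, 0 < ε → ∀ N1 : ℕ, ∃ m, N1 ≤ m ∧ |v (N * m + J) / ρ ^ m| ≤ ε ∧
      dist (f (γ ^ (N * m + J))) y ≤ ε) :
    ∃ ζ ∈ contact v N J ρ γ, f ζ = y := by
  have h' : ∀ n N1 : ℕ, ∃ m, N1 < m ∧ |v (N * m + J) / ρ ^ m| ≤ 1 / ((n : ℝ) + 1) ∧
      dist (f (γ ^ (N * m + J))) y ≤ 1 / ((n : ℝ) + 1) := by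
    intro n N1
    obtain ⟨m, hm, h1, h2⟩ := h (1 / ((n : ℝ) + 1)) (by positivity) (N1 + 1)
    exact ⟨m, hm, h1, h2⟩
  choose g hg1 hg2 hg3 using h'
  let ψ : ℕ → ℕ := fun n => Nat.rec (g 0 0) (fun n p => g (n + 1) p) n
  have hψ : StrictMono ψ := strictMono_nat_of_lt_succ fun n => hg1 _ _
  have hψ2 : ∀ n, |v (N * ψ n + J) / ρ ^ ψ n| ≤ 1 / ((n : ℝ) + 1) := by
    intro n
    cases n with
    | zero => exact hg2 0 0
    | succ n => exact hg2 (n + 1) (ψ n)
  have hψ3 : ∀ n, dist (f (γ ^ (N * ψ n + J))) y ≤ 1 / ((n : ℝ) + 1) := by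
    intro n
    cases n with
    | zero => exact hg3 0 0
    | succ n => exact hg3 (n + 1) (ψ n)
  have hlim : Tendsto (fun n : ℕ => 1 / ((n : ℝ) + 1)) atTop (𝓝 0) :=
    tendsto_one_div_add_atTop_nhds_zero_nat
  obtain ⟨ζ, -, φ, hφ, hφζ⟩ := (isCompact_sphere (0 : ℂ) 1).tendsto_subseq
    (x := fun n => γ ^ (N * ψ n + J)) (fun n => by simp [hγ])
  refine ⟨ζ, ⟨fun n => ψ (φ n), hψ.comp hφ, ?_, hφζ⟩, ?_⟩
  · rw [tendsto_zero_iff_abs_tendsto_zero]
    exact squeeze_zero (fun _ => abs_nonneg _) (fun n => hψ2 (φ n))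
      (hlim.comp hφ.tendsto_atTop)
  · have h1 : Tendsto (fun n => f (γ ^ (N * ψ (φ n) + J))) atTop (𝓝 (f ζ)) :=
      (hf.tendsto ζ).comp hφζ
    have h2 : Tendsto (fun n => f (γ ^ (N * ψ (φ n) + J))) atTop (𝓝 y) := by
      rw [tendsto_iff_dist_tendsto_zero]
      exact squeeze_zero (fun _ => dist_nonneg) (fun n => hψ3 (φ n))
        (hlim.comp hφ.tendsto_atTop)
    exact tendsto_nhds_unique h1 h2

/-- the contact values are infinite when `v / ρ^m` tends to zero along a progression -/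
theorem contact_infinite (v : ℕ → ℝ) (N J : ℕ) (hN : 0 < N) (ρ : ℝ) (γ : ℂ) (hγ : ‖γ‖ = 1)
    (hnt : ∀ n : ℕ, 0 < n → γ ^ n ≠ 1) (a b : ℕ) (hb : 0 < b)
    (h : Tendsto (fun n : ℕ => v (N * (a + b * n) + J) / ρ ^ (a + b * n)) atTop (𝓝 0)) :
    (contact v N J ρ γ).Infinite := by
  have hγ0 : γ ≠ 0 := by
    intro h0
    rw [h0, norm_zero] at hγ
    exact zero_ne_one hγ
  have key : ∀ r : ℕ, γ ^ (N * (a + b * r) + J) ∈ contact v N J ρ γ := by
    intro r
    obtain ⟨ζ, hζ, he⟩ := contact_of_approx v N J ρ γ hγ id continuous_id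
      (γ ^ (N * (a + b * r) + J)) (by
        intro ε hε N1
        rw [Metric.tendsto_atTop] at h
        obtain ⟨N2, hN2⟩ := h ε hε
        obtain ⟨Q, hQ⟩ := exists_nat_gt (7 / ε)
        have hQ0 : (0 : ℝ) < Q := lt_trans (by positivity) hQ
        obtain ⟨t, ht, -, ht2⟩ := exists_n0 (k := 1) (fun _ => γ) (fun _ => hγ)
          (N * b * (N1 + N2 + 1)) Q (by exact_mod_cast hQ0)
        have ht3 := ht2 0
        have h4 : 7 / (Q : ℝ) ≤ ε := by
          rw [div_le_iff₀ hQ0]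
          rw [div_lt_iff₀ hε] at hQ
          linarith
        have hle : N1 + N2 + 1 ≤ (N1 + N2 + 1) * t := Nat.le_mul_of_pos_right _ ht
        refine ⟨a + b * (r + (N1 + N2 + 1) * t), ?_, ?_, ?_⟩
        · have : r + (N1 + N2 + 1) * t ≤ b * (r + (N1 + N2 + 1) * t) :=
            Nat.le_mul_of_pos_left _ hb
          omega
        · have := hN2 (r + (N1 + N2 + 1) * t) (by omega)
          rw [Real.dist_eq, sub_zero] at this
          exact this.le
        · have e1 : N * (a + b * (r + (N1 + N2 + 1) * t)) + J =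
              N * b * (N1 + N2 + 1) * t + (N * (a + b * r) + J) := by ring
          rw [id, e1, pow_add, dist_eq_norm]
          have e2 : γ ^ (N * b * (N1 + N2 + 1) * t) * γ ^ (N * (a + b * r) + J) -
              γ ^ (N * (a + b * r) + J) =
              (γ ^ (N * b * (N1 + N2 + 1) * t) - 1) * γ ^ (N * (a + b * r) + J) := by ring
          rw [e2, norm_mul, norm_pow, hγ]
          simp only [one_pow, mul_one]
          exact ht3.trans h4)
    rw [id] at he
    rw [← he]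
    exact hζ
  have hinj : Function.Injective (fun r : ℕ => γ ^ (N * (a + b * r) + J)) := by
    intro r r' hrr
    simp only at hrr
    by_contra hne
    rcases lt_or_gt_of_ne hne with hlt | hlt
    · apply hnt (N * b * (r' - r)) (by
        have : 0 < r' - r := by omega
        positivity)
      have e1 : N * (a + b * r') + J = N * b * (r' - r) + (N * (a + b * r) + J) := by
        obtain ⟨q, rfl⟩ := Nat.exists_eq_add_of_lt hlt
        have : r + q + 1 - r = q + 1 := by omega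
        rw [this]
        ring
      rw [e1, pow_add γ (N * b * (r' - r)) _] at hrr
      have h5 : γ ^ (N * (a + b * r) + J) ≠ 0 := pow_ne_zero _ hγ0
      have h6 : 1 * γ ^ (N * (a + b * r) + J) =
        γ ^ (N * b * (r' - r)) * γ ^ (N * (a + b * r) + J) := by rw [one_mul]; exact hrr
      exact (mul_right_cancel₀ h5 h6).symm
    · apply hnt (N * b * (r - r')) (by
        have : 0 < r - r' := by omega
        positivity)
      have e1 : N * (a + b * r) + J = N * b * (r - r') + (N * (a + b * r') + J) := by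
        obtain ⟨q, rfl⟩ := Nat.exists_eq_add_of_lt hlt
        have : r' + q + 1 - r' = q + 1 := by omega
        rw [this]
        ring
      rw [e1, pow_add γ (N * b * (r - r')) _] at hrr
      have h5 : γ ^ (N * (a + b * r') + J) ≠ 0 := pow_ne_zero _ hγ0
      have h6 : γ ^ (N * b * (r - r')) * γ ^ (N * (a + b * r') + J) =
        1 * γ ^ (N * (a + b * r') + J) := by rw [one_mul]; exact hrr
      exact mul_right_cancel₀ h5 h6
  exact (Set.infinite_range_of_injective hinj).mono (by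
    rintro _ ⟨r, rfl⟩
    exact key r)

/-- the character of the torus with index `i` -/
noncomputable def Wt (A : Fin k → Fin k → ℤ) (s : ℕ) (z : Fin k → ℂ) (i : Fin k) : ℂ :=
  ∏ t : Fin k, (if (t : ℕ) < s then z t ^ A t i else 1)

lemma norm_Wt (A : Fin k → Fin k → ℤ) (s : ℕ) (z : Fin k → ℂ) (hz : ∀ t, ‖z t‖ = 1) (i : Fin k) :
    ‖Wt A s z i‖ = 1 := by
  rw [Wt, norm_prod]
  apply Finset.prod_eq_one
  intro t _
  split_ifs
  · rw [norm_zpow, hz, one_zpow]
  · exact norm_one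

/-- **The asymptotics of a certified class.** -/
theorem nar_core (l c : Fin k → ℂ) (ex : Fin k → ℕ) (R M Nb : ℕ) (ε δ : ℝ) (hk : 0 < k)
    (hex : ∀ i, ex i < k) (hdc : ∀ i, ∀ e, e < ex i → ∃ i', l i' = l i ∧ ex i' = e)
    (hR : 1 ≤ R) (hM : 1 ≤ M)
    (hrb : RelBound k l R) (hε : 4 * k * R * ε ≤ 1) (hδ : 8 * k ^ 3 * M ^ 2 * R * δ ≤ 1)
    (v : ℕ → ℝ)
    (hv : ∀ n, ∑ i, c i * (n.choose (ex i) : ℂ) * l i ^ (n - ex i) = (v n : ℂ))
    (n0 j : ℕ) (A H : Fin k → Fin k → ℤ) (D : ℤ) (s : ℕ) (w : Fin k → Fin k → ℝ)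
    (τ : Fin k → ℝ) (ρ : ℝ) (d : ℕ)
    (hbase : BaseF k l c ex M Nb ε δ n0 j A H D s w τ ρ d) (hρpos : 0 < ρ)
    (N : ℕ) (hN : 0 < N) :
    ∃ u : ℕ → ℝ, (∀ n, v (j + n0 * (N * n)) = ρ ^ (n0 * (N * n)) *
        ((j + n0 * (N * n)).choose d : ℝ) * u n) ∧ (∃ U : ℝ, ∀ n, |u n| ≤ U) ∧
      ∀ z : Fin k → ℂ, (∀ t, ‖z t‖ = 1) → ∀ κ : ℝ, 0 < κ → ∀ N1, ∃ n, N1 ≤ n ∧
        |u n - (LevF l c ex A s j d ρ z).re| ≤ κ ∧
        ∀ i, ‖nz (l i) ^ (n0 * (N * n)) - Wt A s z i‖ ≤ κ := by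
  classical
  obtain ⟨hn0, _, hj, _, hs, hD, hDM, hHA, hA, hH, hδ', hw, hwε, hρ, hd, hvan⟩ := hbase
  have hvan' : ∀ m, ∑ i, (if Above ρ d (l i) (ex i) then c i * ((j + n0 * m).choose (ex i) : ℂ) *
      l i ^ (j + n0 * m - ex i) else 0) = 0 :=
    vanish_gen l c ex hdc (fun i => Above ρ d (l i) (ex i)) j n0 hvan
  obtain ⟨r, hr, hvr⟩ := asym l c ex hex j n0 d ρ hj hn0 hρpos hd v hv _ (fun i => Iff.rfl) hvan'
  set Fs : (Fin k → ℂ) → ℂ := fun W => ∑ i, (if ‖l i‖ = ρ ∧ ex i = d then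
    c i * l i ^ (j - d) * W i else 0) with hFs
  set S : ℝ := ∑ i, ‖c i * l i ^ (j - d)‖ with hS
  have hS0 : 0 ≤ S := Finset.sum_nonneg fun i _ => norm_nonneg _
  have hclose : ∀ (W W' : Fin k → ℂ) (η : ℝ), (∀ i, ‖W i - W' i‖ ≤ η) → ‖Fs W - Fs W'‖ ≤ S * η := by
    intro W W' η h
    have hη : 0 ≤ η := (norm_nonneg _).trans (h ⟨0, hk⟩)
    simp only [hFs]
    rw [← Finset.sum_sub_distrib]
    refine (norm_sum_le _ _).trans ?_
    rw [hS, Finset.sum_mul]
    apply Finset.sum_le_sum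
    intro i _
    split_ifs
    · rw [← mul_sub, norm_mul]
      exact mul_le_mul_of_nonneg_left (h i) (norm_nonneg _)
    · rw [sub_zero, norm_zero]
      positivity
  have hvre : ∀ m, v (j + n0 * m) = ρ ^ (n0 * m) * ((j + n0 * m).choose d : ℝ) *
      (Fs (fun i => nz (l i) ^ (n0 * m)) + r m).re := by
    intro m
    have h1 := congrArg Complex.re (hvr m)
    rw [ofReal_re] at h1
    rw [h1]
    have h2 : (ρ : ℂ) ^ (n0 * m) * ((j + n0 * m).choose d : ℂ) =
        ((ρ ^ (n0 * m) * ((j + n0 * m).choose d : ℝ) : ℝ) : ℂ) := by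
      push_cast
      rfl
    rw [h2, re_ofReal_mul]
  have hrsmall : ∀ κ : ℝ, 0 < κ → ∃ N, ∀ m, N ≤ m → ‖r m‖ < κ := by
    intro κ hκ
    have h1 := hr.norm
    rw [norm_zero] at h1
    have h2 := h1.eventually_lt_const hκ
    rwa [eventually_atTop] at h2
  refine ⟨fun n => (Fs (fun i => nz (l i) ^ (n0 * (N * n))) + r (N * n)).re,
    fun n => hvre (N * n), ?_, ?_⟩
  · obtain ⟨Rm, hRm⟩ : ∃ Rm : ℝ, ∀ m, ‖r m‖ ≤ Rm := by
      obtain ⟨Rm, hRm⟩ := hr.norm.bddAbove_range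
      exact ⟨Rm, fun m => hRm ⟨m, rfl⟩⟩
    refine ⟨S + Rm, fun n => ?_⟩
    refine (abs_re_le_norm _).trans ((norm_add_le _ _).trans (add_le_add ?_ (hRm _)))
    have h2 := hclose (fun i => nz (l i) ^ (n0 * (N * n))) (fun _ => 0) 1 (fun i => by
      rw [sub_zero, norm_pow, norm_nz, one_pow])
    have h3 : Fs (fun _ => 0) = 0 := by simp [hFs]
    rw [h3, sub_zero, mul_one] at h2
    exact h2
  · intro z hz κ hκ N1
    obtain ⟨N2, hN2⟩ := hrsmall (κ / 2) (by positivity)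
    obtain ⟨n, hn, hcl⟩ := cert_limit l R M n0 hR hM hrb A H D s w τ ε δ hn0 hD hHA hA hH hδ' hw
      hwε hε hδ z hz (n0 * N) (by positivity) (N1 + N2) (min κ (κ / (2 * (S + 1))))
      (lt_min hκ (by positivity))
    refine ⟨n, by omega, ?_, fun i => ?_⟩
    · have h1 := hclose (fun i => nz (l i) ^ (n0 * (N * n)))
        (fun i => ∏ t : Fin k, (if (t : ℕ) < s then z t ^ A t i else 1)) (κ / (2 * (S + 1)))
        (fun i => by
          rw [← mul_assoc]
          exact (hcl i).le.trans (min_le_right _ _))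
      have h2 : S * (κ / (2 * (S + 1))) ≤ κ / 2 := by
        have : S * (κ / (2 * (S + 1))) = (S / (S + 1)) * (κ / 2) := by field_simp
        rw [this]
        have h8 : S / (S + 1) ≤ 1 := by
          rw [div_le_one (by linarith)]
          linarith
        nlinarith
      have h3 := (abs_re_le_norm _).trans (h1.trans h2)
      have h4 := (abs_re_le_norm _).trans (hN2 (N * n) (by nlinarith)).le
      have h5 : Fs (fun i => ∏ t : Fin k, (if (t : ℕ) < s then z t ^ A t i else 1)) =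
          LevF l c ex A s j d ρ z := rfl
      rw [sub_re, h5] at h3
      have h6 : (Fs (fun i => nz (l i) ^ (n0 * (N * n))) + r (N * n)).re -
          (LevF l c ex A s j d ρ z).re =
          ((Fs (fun i => nz (l i) ^ (n0 * (N * n)))).re - (LevF l c ex A s j d ρ z).re) +
            (r (N * n)).re := by
        rw [add_re]
        ring
      rw [h6]
      refine (abs_add_le _ _).trans ?_
      linarith
    · rw [← mul_assoc]
      exact (hcl i).le.trans (min_le_left _ _)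

end Pool.Agent.DD7719.M
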