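import Pool.Agent.DD7719.NComplete

/-! Sequences without a certificate of non-narrowness are narrow. -/

set_option autoImplicit false

namespace Pool.Agent.DD7719.M

open Complex Filter Topology GS

variable {k : ℕ}

/-- the growth of a class -/
theorem cls_bound (l c : Fin k → ℂ) (ex : Fin k → ℕ) (n0 j : ℕ) (hn0 : 0 < n0)
    (hexj : ∀ i, ex i ≤ j) (v : ℕ → ℝ)
    (hv : ∀ n, ∑ i, c i * (n.choose (ex i) : ℂ) * l i ^ (n - ex i) = (v n : ℂ))
    (ρ : ℝ) (hρ : 0 < ρ) (hvan : open scoped Classical in ∀ m, ∑ i, (if Above ρ 0 (l i) (ex i) then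
          c i * ((j + n0 * m).choose (ex i) : ℂ) * l i ^ (j + n0 * m - ex i) else 0) = 0)
    (J q : ℕ) (hJ : j = J + n0 * q) :
    ∃ B : ℝ, ∀ m : ℕ, |v (n0 * m + J)| ≤ B * (ρ ^ n0) ^ m := by
  classical
  have hlev := level_asym l c ex n0 j hn0 hexj ρ 0 hρ hvan
  have hasym : Tendsto (fun M : ℕ => ((v (j + n0 * M) : ℝ) : ℂ) /
        ((ρ ^ (n0 * M) * (M : ℝ) ^ 0 : ℝ) : ℂ) -
      ((((j + n0 * M).choose 0 : ℝ) / (M : ℝ) ^ 0 : ℝ) : ℂ) *
        levelSum l c ex n0 j ρ 0 M)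
      atTop (𝓝 0) := by
    refine hlev.congr fun M => ?_
    rw [hv]
  obtain ⟨⟨B, hB⟩, -, -, -⟩ := level_data l c ex n0 j hn0 v ρ 0 hρ hasym
  rw [eventually_atTop] at hB
  obtain ⟨N0, hN0⟩ := hB
  have hρn : 0 < ρ ^ n0 := by positivity
  refine ⟨|B| / (ρ ^ n0) ^ q + ∑ m ∈ Finset.range (N0 + q), |v (n0 * m + J)| / (ρ ^ n0) ^ m,
    fun m => ?_⟩
  have hρm : 0 < (ρ ^ n0) ^ m := by positivity
  rcases lt_or_ge m (N0 + q) with h1 | h1
  · have h2 : |v (n0 * m + J)| / (ρ ^ n0) ^ m ≤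
        ∑ m ∈ Finset.range (N0 + q), |v (n0 * m + J)| / (ρ ^ n0) ^ m :=
      Finset.single_le_sum (f := fun m => |v (n0 * m + J)| / (ρ ^ n0) ^ m)
        (fun i _ => by positivity) (Finset.mem_range.mpr h1)
    rw [div_le_iff₀ hρm] at h2
    have h3 : 0 ≤ |B| / (ρ ^ n0) ^ q * (ρ ^ n0) ^ m := by positivity
    rw [add_mul]
    linarith
  · obtain ⟨r, hr⟩ := Nat.exists_eq_add_of_le h1
    have h2 := hN0 (N0 + r) (by omega)
    have e1 : j + n0 * (N0 + r) = n0 * m + J := by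
      rw [hr, hJ]
      ring
    have e2 : (ρ ^ n0) ^ m = (ρ ^ n0) ^ q * (ρ ^ n0) ^ (N0 + r) := by
      rw [← pow_add, hr]
      congr 1
      ring
    rw [e1, pow_zero, mul_one] at h2
    have h4 : 0 ≤ (∑ m ∈ Finset.range (N0 + q), |v (n0 * m + J)| / (ρ ^ n0) ^ m) *
      (ρ ^ n0) ^ m := by positivity
    have h5 : |B| / (ρ ^ n0) ^ q * (ρ ^ n0) ^ m = |B| * (ρ ^ n0) ^ (N0 + r) := by
      rw [e2]
      field_simp
    have h6 : B * (ρ ^ n0) ^ (N0 + r) ≤ |B| * (ρ ^ n0) ^ (N0 + r) :=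
      mul_le_mul_of_nonneg_right (le_abs_self _) (by positivity)
    rw [add_mul, h5]
    linarith

/-- the liminf of a class with positive values on the torus -/
theorem cls_liminf (l c : Fin k → ℂ) (ex : Fin k → ℕ) (n0 j : ℕ) (hn0 : 0 < n0)
    (hexj : ∀ i, ex i ≤ j) (v : ℕ → ℝ)
    (hv : ∀ n, ∑ i, c i * (n.choose (ex i) : ℂ) * l i ^ (n - ex i) = (v n : ℂ))
    (ρ : ℝ) (hρ : 0 < ρ) (hvan : open scoped Classical in ∀ m, ∑ i, (if Above ρ 0 (l i) (ex i) then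
          c i * ((j + n0 * m).choose (ex i) : ℂ) * l i ^ (j + n0 * m - ex i) else 0) = 0)
    (A : Fin k → Fin k → ℤ) (s : ℕ) (x : Fin k → ℝ) (hrep : Rep l n0 A s x)
    (hpos : ∀ z : Fin k → ℂ, (∀ t, ‖z t‖ = 1) → 0 < (LevF l c ex A s j 0 ρ z).re)
    (J q : ℕ) (hJ : j = J + n0 * q) :
    liminf (fun m : ℕ => v (n0 * m + J) / (ρ ^ n0) ^ m) atTop ≠ 0 := by
  classical
  obtain ⟨μ, hμ, hμb⟩ := exists_torus_bound l c ex A s j 0 ρ hpos
  have hlev := level_asym l c ex n0 j hn0 hexj ρ 0 hρ hvan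
  have hasym : Tendsto (fun M : ℕ => ((v (j + n0 * M) : ℝ) : ℂ) /
        ((ρ ^ (n0 * M) * (M : ℝ) ^ 0 : ℝ) : ℂ) -
      ((((j + n0 * M).choose 0 : ℝ) / (M : ℝ) ^ 0 : ℝ) : ℂ) *
        levelSum l c ex n0 j ρ 0 M)
      atTop (𝓝 0) := by
    refine hlev.congr fun M => ?_
    rw [hv]
  obtain ⟨-, -, -, h4⟩ := level_data l c ex n0 j hn0 v ρ 0 hρ hasym
  obtain ⟨b, hb, hb'⟩ := h4 μ hμ (fun M => by
    rw [levelSum_eq l c ex n0 j 0 ρ s A x hrep.1 hrep.2 M]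
    exact hμb _ (norm_orb x M))
  obtain ⟨B, hB⟩ := cls_bound l c ex n0 j hn0 hexj v hv ρ hρ hvan J q hJ
  have hρn : 0 < ρ ^ n0 := by positivity
  have hev : ∀ᶠ m : ℕ in atTop, b / (ρ ^ n0) ^ q ≤ v (n0 * m + J) / (ρ ^ n0) ^ m := by
    have hsub : Tendsto (fun m : ℕ => m - q) atTop atTop := tendsto_sub_atTop_nat q
    filter_upwards [hsub.eventually hb', eventually_ge_atTop q] with m h2 hm
    obtain ⟨r, rfl⟩ := Nat.exists_eq_add_of_le hm
    rw [Nat.add_sub_cancel_left, pow_zero, mul_one] at h2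
    have e1 : j + n0 * r = n0 * (q + r) + J := by
      rw [hJ]
      ring
    rw [e1] at h2
    rw [div_le_div_iff₀ (by positivity) (by positivity), pow_add]
    have h3 := mul_le_mul_of_nonneg_right h2 (show 0 ≤ (ρ ^ n0) ^ q by positivity)
    linarith
  have h1 : b / (ρ ^ n0) ^ q ≤ liminf (fun m : ℕ => v (n0 * m + J) / (ρ ^ n0) ^ m) atTop := by
    refine le_liminf_of_le ?_ hev
    refine IsBoundedUnder.isCoboundedUnder_ge ⟨B, ?_⟩
    rw [eventually_map]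
    refine Eventually.of_forall fun m => ?_
    show v (n0 * m + J) / (ρ ^ n0) ^ m ≤ B
    rw [div_le_iff₀ (by positivity)]
    exact (le_abs_self _).trans (hB m)
  have h2 : 0 < b / (ρ ^ n0) ^ q := by positivity
  linarith

/-- representatives of the residue classes -/
lemma exists_cls_rep (k n0 J : ℕ) (hn0 : 0 < n0) (hJ : J < n0) :
    ∃ q, k ≤ J + n0 * q ∧ J + n0 * q < k + n0 := by
  by_cases hkJ : k ≤ J
  · exact ⟨0, by simpa using hkJ, by simpa using by omega⟩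
  · push Not at hkJ
    refine ⟨(k - J + n0 - 1) / n0, ?_, ?_⟩
    · have h1 := Nat.div_add_mod (k - J + n0 - 1) n0
      have h2 := Nat.mod_lt (k - J + n0 - 1) hn0
      omega
    · have h1 := Nat.mul_div_le (k - J + n0 - 1) n0
      omega

/-- **Narrowness from the class data.** -/
theorem isNar_of_cls (l c : Fin k → ℂ) (ex : Fin k → ℕ) (hex : ∀ i, ex i < k) (M Nb : ℕ) (ε δ : ℝ)
    (n0 : ℕ) (hn0 : 0 < n0) (v : ℕ → ℝ)
    (hv : ∀ n, ∑ i, c i * (n.choose (ex i) : ℂ) * l i ^ (n - ex i) = (v n : ℂ))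
    (htor : ∀ i i', ‖l i‖ = ‖l i'‖ → l i ^ n0 ≠ l i' ^ n0 → ∀ n : ℕ, 0 < n → l i ^ n ≠ l i' ^ n)
    (hcls : ∀ j, k ≤ j → j < k + n0 → ClsD k l c ex M Nb ε δ n0 j) :
    IsNar v (Set.range l) := by
  classical
  refine ⟨n0, hn0, fun J hJ => ?_⟩
  obtain ⟨q, hq1, hq2⟩ := exists_cls_rep k n0 J hn0 hJ
  obtain ⟨A, H, D, s, w, τ, x, i0, hrep, hbase, hi0, -, hF, hcase, hvan⟩ :=
    hcls (J + n0 * q) hq1 hq2
  have hρ : 0 < ‖l i0‖ := norm_pos_iff.mpr hi0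
  have hexj : ∀ i, ex i ≤ J + n0 * q := fun i => ((hex i).le.trans hq1)
  refine ⟨‖l i0‖ ^ n0, by positivity,
    cls_bound l c ex n0 (J + n0 * q) hn0 hexj v hv ‖l i0‖ hρ hvan J q rfl, ?_⟩
  rcases hcase with hpos | ⟨i, i', hii, hne, hfin⟩
  · left
    exact cls_liminf l c ex n0 (J + n0 * q) hn0 hexj v hv ‖l i0‖ hρ hvan A s x hrep hpos J q rfl
  · right
    have hi' : l i' ≠ 0 := by
      intro h0
      rw [h0, norm_zero, norm_eq_zero] at hii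
      apply hne
      rw [hii, h0]
    exact ⟨l i, ⟨i, rfl⟩, l i', ⟨i', rfl⟩, hii, htor i i' hii hne,
      hfin.subset (contact_subset l c ex n0 (J + n0 * q) hn0 hexj v hv ‖l i0‖ hρ hvan A s x hrep
        i i' hii hi' J q rfl)⟩

end Pool.Agent.DD7719.M
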