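import Pool.Agent.DD7719.TGap
import Pool.Agent.RElim.Nrm

/-! Integer polynomials of real parts and of ratios of roots. -/

set_option autoImplicit false

namespace Pool.Agent.DD7719.M

open Polynomial Finset Pool.Agent.RElim

lemma coeff_le_pn (p : ℤ[X]) (i : ℕ) : (p.coeff i).natAbs ≤ pn Int.natAbs p := by
  by_cases h : i ∈ p.support
  · exact Finset.single_le_sum (f := fun i => (p.coeff i).natAbs) (fun _ _ => Nat.zero_le _) h
  · rw [notMem_support_iff.mp h]
    simp

lemma IsNrm.pow {R : Type*} [CommRing R] {N : R → ℕ} (hN : IsNrm N) (a : R) (n : ℕ) :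
    N (a ^ n) ≤ N a ^ n := by
  induction n with
  | zero => simpa using hN.one
  | succ n ih =>
    rw [pow_succ, pow_succ]
    exact (hN.mul _ _).trans (Nat.mul_le_mul_right _ ih)

/-- The polynomial `B` with `B(w) = (2w)^deg q q(Re w)` on the unit circle. -/
noncomputable def trigP (q : ℤ[X]) : ℤ[X] :=
  ∑ a ∈ range (q.natDegree + 1), C (q.coeff a) * ((X ^ 2 + 1) ^ a * (2 * X) ^ (q.natDegree - a))

lemma trigP_coeff (q : ℤ[X]) : (trigP q).coeff (2 * q.natDegree) = q.leadingCoeff := by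
  rw [trigP, finsetSum_coeff, Finset.sum_range_succ, Finset.sum_eq_zero, zero_add,
    Nat.sub_self, pow_zero, mul_one, coeff_C_mul]
  · have h1 : ((X ^ 2 + 1 : ℤ[X]) ^ q.natDegree).coeff (2 * q.natDegree) = 1 := by
      have hm : (X ^ 2 + 1 : ℤ[X]).Monic := by monicity!
      have hd : (X ^ 2 + 1 : ℤ[X]).natDegree = 2 := by compute_degree!
      have h2 := (hm.pow q.natDegree).coeff_natDegree
      rw [hm.natDegree_pow, hd, mul_comm] at h2
      exact h2
    rw [h1, mul_one]
    rfl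
  · intro a ha
    rw [Finset.mem_range] at ha
    have h0 : ((X ^ 2 + 1 : ℤ[X]) ^ a * (2 * X) ^ (q.natDegree - a)).natDegree <
        2 * q.natDegree := by
      have h1 : ((X ^ 2 + 1 : ℤ[X]) ^ a).natDegree ≤ a * 2 := by
        refine natDegree_pow_le.trans (Nat.mul_le_mul_left _ ?_)
        compute_degree
      have h2 : ((2 * X : ℤ[X]) ^ (q.natDegree - a)).natDegree ≤ (q.natDegree - a) * 1 := by
        refine natDegree_pow_le.trans (Nat.mul_le_mul_left _ ?_)
        compute_degree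
      have h3 := natDegree_mul_le (p := (X ^ 2 + 1 : ℤ[X]) ^ a) (q := (2 * X : ℤ[X]) ^
        (q.natDegree - a))
      omega
    rw [coeff_C_mul, coeff_eq_zero_of_natDegree_lt h0, mul_zero]

lemma trigP_ne_zero (q : ℤ[X]) (hq : q ≠ 0) : trigP q ≠ 0 := by
  intro h
  have h1 := trigP_coeff q
  rw [h, coeff_zero] at h1
  exact hq (leadingCoeff_eq_zero.mp h1.symm)

lemma trigP_natDegree (q : ℤ[X]) : (trigP q).natDegree ≤ 2 * q.natDegree := by
  rw [trigP]
  apply natDegree_sum_le_of_forall_le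
  intro a ha
  rw [Finset.mem_range] at ha
  have h1 : ((X ^ 2 + 1 : ℤ[X]) ^ a).natDegree ≤ a * 2 := by
    refine natDegree_pow_le.trans (Nat.mul_le_mul_left _ ?_)
    compute_degree
  have h2 : ((2 * X : ℤ[X]) ^ (q.natDegree - a)).natDegree ≤ (q.natDegree - a) * 1 := by
    refine natDegree_pow_le.trans (Nat.mul_le_mul_left _ ?_)
    compute_degree
  have h3 := natDegree_mul_le (p := (X ^ 2 + 1 : ℤ[X]) ^ a) (q := (2 * X : ℤ[X]) ^
    (q.natDegree - a))
  have h4 := natDegree_C_mul_le (q.coeff a) ((X ^ 2 + 1 : ℤ[X]) ^ a * (2 * X) ^ (q.natDegree - a))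
  omega

lemma trigP_pn (q : ℤ[X]) : pn Int.natAbs (trigP q) ≤ 2 ^ q.natDegree * pn Int.natAbs q := by
  have hN := isNrm_natAbs
  have hq : pn Int.natAbs q = ∑ a ∈ range (q.natDegree + 1), (q.coeff a).natAbs := by
    apply pn_eq hN
    intro i hi
    rw [Finset.mem_range]
    exact Nat.lt_succ_of_le (le_natDegree_of_mem_supp i hi)
  rw [trigP, hq, Finset.mul_sum]
  refine (pn_sum hN _ _).trans (Finset.sum_le_sum fun a ha => ?_)
  rw [Finset.mem_range] at ha
  have h1 : pn Int.natAbs (X ^ 2 + 1 : ℤ[X]) ≤ 2 := by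
    refine (hN.pn.add _ _).trans ?_
    have e1 := (IsNrm.pow hN.pn (X : ℤ[X]) 2).trans (Nat.pow_le_pow_left (pn_X hN) 2)
    have e2 := hN.pn.one
    omega
  have h2 : pn Int.natAbs (2 * X : ℤ[X]) ≤ 2 := by
    refine (hN.pn.mul _ _).trans ?_
    have e1 : pn Int.natAbs (2 : ℤ[X]) ≤ 2 := by
      have := hN.pn.natCast 2
      exact_mod_cast this
    calc pn Int.natAbs (2 : ℤ[X]) * pn Int.natAbs (X : ℤ[X]) ≤ 2 * 1 :=
          Nat.mul_le_mul e1 (pn_X hN)
      _ = 2 := rfl
  have h3 := (IsNrm.pow hN.pn (X ^ 2 + 1 : ℤ[X]) a).trans (Nat.pow_le_pow_left h1 a)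
  have h4 := (IsNrm.pow hN.pn (2 * X : ℤ[X]) (q.natDegree - a)).trans
    (Nat.pow_le_pow_left h2 (q.natDegree - a))
  calc pn Int.natAbs (C (q.coeff a) * ((X ^ 2 + 1) ^ a * (2 * X) ^ (q.natDegree - a)))
      ≤ (q.coeff a).natAbs * (2 ^ a * 2 ^ (q.natDegree - a)) :=
        (hN.pn.mul _ _).trans (Nat.mul_le_mul (pn_C hN _) ((hN.pn.mul _ _).trans
          (Nat.mul_le_mul h3 h4)))
    _ = 2 ^ q.natDegree * (q.coeff a).natAbs := by
        rw [← pow_add, Nat.add_sub_cancel' (by omega), mul_comm]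

lemma trigP_aeval (q : ℤ[X]) (w : ℂ) (hw : ‖w‖ = 1) :
    ‖aeval w (trigP q)‖ = 2 ^ q.natDegree * |aeval w.re q| := by
  have h1 : w ^ 2 + 1 = 2 * w * (w.re : ℂ) := by
    have h2 : w * (starRingEnd ℂ) w = 1 := by
      rw [Complex.mul_conj, Complex.normSq_eq_norm_sq, hw]
      simp
    have h3 : (w.re : ℂ) = (w + (starRingEnd ℂ) w) / 2 := by
      rw [Complex.re_eq_add_conj]
    rw [h3]
    linear_combination -h2
  have h2 : aeval w (trigP q) = (2 * w) ^ q.natDegree * ((aeval w.re q : ℝ) : ℂ) := by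
    rw [trigP, map_sum]
    have h3 : aeval w.re q = ∑ a ∈ range (q.natDegree + 1), (q.coeff a : ℝ) * w.re ^ a := by
      rw [aeval_eq_sum_range]
      exact Finset.sum_congr rfl fun a _ => by rw [zsmul_eq_mul]
    rw [h3, Complex.ofReal_sum, Finset.mul_sum]
    apply Finset.sum_congr rfl
    intro a ha
    rw [Finset.mem_range] at ha
    simp only [map_mul, map_pow, map_add, map_one, aeval_X, map_ofNat, eq_intCast, map_intCast]
    rw [h1]
    push_cast
    have h4 : (2 * w) ^ q.natDegree = (2 * w) ^ a * (2 * w) ^ (q.natDegree - a) := by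
      rw [← pow_add, Nat.add_sub_cancel' (by omega)]
    rw [h4, mul_pow (2 * w) (w.re : ℂ)]
    ring
  rw [h2, norm_mul, norm_pow, norm_mul, hw, mul_one, Complex.norm_real, Real.norm_eq_abs]
  norm_num

/-! ### Products of algebraic numbers -/

/-- the companion matrix scaled by the leading coefficient -/
noncomputable def cmat (P : ℤ[X]) : Matrix (Fin P.natDegree) (Fin P.natDegree) ℤ :=
  fun a b => if (a : ℕ) + 1 < P.natDegree then (if (b : ℕ) = a + 1 then P.leadingCoeff else 0)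
    else - P.coeff b

lemma cmat_mulVec (P : ℤ[X]) (z : ℂ) (hz : aeval z P = 0) (a : Fin P.natDegree) :
    ∑ b, (cmat P a b : ℂ) * z ^ (b : ℕ) = (P.leadingCoeff : ℂ) * z * z ^ (a : ℕ) := by
  unfold cmat
  split_ifs with h
  · rw [Finset.sum_eq_single (⟨a + 1, h⟩ : Fin P.natDegree)]
    · simp
      ring
    · intro b _ hb
      rw [if_neg]
      · simp
      · intro h1
        exact hb (Fin.ext h1)
    · simp
  · have ha : (a : ℕ) + 1 = P.natDegree := by
      have := a.2
      omega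
    rw [aeval_eq_sum_range, Finset.sum_range_succ] at hz
    simp only [zsmul_eq_mul] at hz
    have h1 : ∑ b : Fin P.natDegree, ((- P.coeff b : ℤ) : ℂ) * z ^ (b : ℕ) =
        - ∑ i ∈ range P.natDegree, (P.coeff i : ℂ) * z ^ i := by
      rw [Finset.sum_range, ← Finset.sum_neg_distrib]
      exact Finset.sum_congr rfl fun b _ => by push_cast; ring
    rw [h1, leadingCoeff, mul_assoc, ← pow_succ', ha]
    linear_combination -hz

lemma cmat_le (P : ℤ[X]) (H : ℕ) (hH : ∀ i, (P.coeff i).natAbs ≤ H) (a b : Fin P.natDegree) :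
    (cmat P a b).natAbs ≤ H := by
  unfold cmat
  split_ifs
  · exact hH _
  · simp
  · rw [Int.natAbs_neg]
    exact hH _

/-- an integer polynomial of a product -/
theorem exists_prod_poly (P Q : ℤ[X]) (hP : P ≠ 0) (hQ : Q ≠ 0) (z w : ℂ) (hz : aeval z P = 0)
    (hw : aeval w Q = 0) (H : ℕ) (hHP : ∀ i, (P.coeff i).natAbs ≤ H)
    (hHQ : ∀ i, (Q.coeff i).natAbs ≤ H) :
    ∃ g : ℤ[X], g ≠ 0 ∧ aeval (z * w) g = 0 ∧ g.natDegree ≤ P.natDegree * Q.natDegree ∧
      ∀ i, (g.coeff i).natAbs ≤ (P.natDegree * Q.natDegree).factorial *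
        (2 * H ^ 2) ^ (P.natDegree * Q.natDegree) := by
  classical
  set p := P.natDegree with hp
  set q := Q.natDegree with hq
  have hN := isNrm_natAbs
  let Mm : Matrix (Fin p × Fin q) (Fin p × Fin q) ℤ := fun x y => cmat P x.1 y.1 * cmat Q x.2 y.2
  let A : Matrix (Fin p × Fin q) (Fin p × Fin q) ℤ :=
    Matrix.scalar _ (P.leadingCoeff * Q.leadingCoeff)
  let g : ℤ[X] := ((X : ℤ[X]) • A.map C + (-Mm).map C).det
  have hcard : Fintype.card (Fin p × Fin q) = p * q := by simp
  have hp0 : 0 < p := by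
    rw [hp]
    by_contra h
    have h1 : P.natDegree = 0 := by omega
    rw [eq_C_of_natDegree_eq_zero h1, aeval_C] at hz
    have h2 : P.coeff 0 = 0 := by
      have : ((P.coeff 0 : ℤ) : ℂ) = 0 := by simpa using hz
      exact_mod_cast this
    apply hP
    rw [eq_C_of_natDegree_eq_zero h1, h2, C_0]
  have hq0 : 0 < q := by
    rw [hq]
    by_contra h
    have h1 : Q.natDegree = 0 := by omega
    rw [eq_C_of_natDegree_eq_zero h1, aeval_C] at hw
    have h2 : Q.coeff 0 = 0 := by
      have : ((Q.coeff 0 : ℤ) : ℂ) = 0 := by simpa using hw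
      exact_mod_cast this
    apply hQ
    rw [eq_C_of_natDegree_eq_zero h1, h2, C_0]
  have hlead : g.coeff (p * q) = (P.leadingCoeff * Q.leadingCoeff) ^ (p * q) := by
    have h1 := Polynomial.coeff_det_X_add_C_card A (-Mm)
    rw [hcard] at h1
    rw [h1, ← hcard]
    simp only [A]
    rw [Matrix.scalar_apply, Matrix.det_diagonal, Finset.prod_const, Finset.card_univ]
  have hg0 : g ≠ 0 := by
    intro h
    rw [h, coeff_zero] at hlead
    exact pow_ne_zero (p * q) (mul_ne_zero (leadingCoeff_ne_zero.mpr hP)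
      (leadingCoeff_ne_zero.mpr hQ)) hlead.symm
  refine ⟨g, hg0, ?_, ?_, ?_⟩
  · -- the value
    have h1 : aeval (z * w) g = (((X : ℤ[X]) • A.map C + (-Mm).map C).map
        (aeval (z * w) : ℤ[X] →ₐ[ℤ] ℂ)).det := by
      exact AlgHom.map_det (aeval (z * w) : ℤ[X] →ₐ[ℤ] ℂ) _
    rw [h1]
    apply Matrix.exists_mulVec_eq_zero_iff.mp
    refine ⟨fun x => z ^ (x.1 : ℕ) * w ^ (x.2 : ℕ), ?_, ?_⟩
    · intro h
      have := congrFun h (⟨0, hp0⟩, ⟨0, hq0⟩)
      simp at this
    · funext x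
      rw [Matrix.mulVec, dotProduct, Pi.zero_apply]
      have h2 : ∀ y : Fin p × Fin q, (((X : ℤ[X]) • A.map C + (-Mm).map C).map
          (aeval (z * w) : ℤ[X] →ₐ[ℤ] ℂ)) x y =
          (if x = y then z * w * ((P.leadingCoeff : ℂ) * (Q.leadingCoeff : ℂ)) else 0) -
            (cmat P x.1 y.1 : ℂ) * (cmat Q x.2 y.2 : ℂ) := by
        intro y
        have hM : (-Mm) x y = -(cmat P x.1 y.1 * cmat Q x.2 y.2) := rfl
        have hA : A x y = if x = y then P.leadingCoeff * Q.leadingCoeff else 0 := by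
          simp only [A, Matrix.scalar_apply, Matrix.diagonal_apply]
        rw [Matrix.map_apply, Matrix.add_apply, Matrix.smul_apply, Matrix.map_apply,
          Matrix.map_apply, smul_eq_mul, hM, hA]
        by_cases hxy : x = y
        · rw [if_pos hxy, if_pos hxy]
          simp
          ring
        · rw [if_neg hxy, if_neg hxy]
          simp
      rw [Finset.sum_congr rfl fun y _ => by rw [h2 y]]
      simp only [sub_mul, Finset.sum_sub_distrib, ite_mul, zero_mul, Finset.sum_ite_eq,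
        Finset.mem_univ, if_true]
      have h3 : ∑ y : Fin p × Fin q, (cmat P x.1 y.1 : ℂ) * (cmat Q x.2 y.2 : ℂ) *
          (z ^ (y.1 : ℕ) * w ^ (y.2 : ℕ)) =
          (∑ b, (cmat P x.1 b : ℂ) * z ^ (b : ℕ)) * ∑ b, (cmat Q x.2 b : ℂ) * w ^ (b : ℕ) := by
        rw [Finset.sum_mul_sum, Fintype.sum_prod_type]
        exact Finset.sum_congr rfl fun b _ => Finset.sum_congr rfl fun b' _ => by ring
      rw [h3, cmat_mulVec P z hz, cmat_mulVec Q w hw]
      ring
  · have := Polynomial.natDegree_det_X_add_C_le A (-Mm)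
    rwa [hcard] at this
  · intro i
    refine (coeff_le_pn g i).trans ?_
    have h1 := hN.pn.det ((X : ℤ[X]) • A.map C + (-Mm).map C) (2 * H ^ 2) (by
      intro x y
      simp only [Matrix.add_apply, Matrix.smul_apply, Matrix.map_apply, smul_eq_mul,
        Matrix.neg_apply]
      refine (hN.pn.add _ _).trans ?_
      have e1 : pn Int.natAbs (X * C (A x y)) ≤ H ^ 2 := by
        refine (hN.pn.mul _ _).trans ?_
        have e2 : (A x y).natAbs ≤ H ^ 2 := by
          simp only [A, Matrix.scalar_apply, Matrix.diagonal_apply]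
          split_ifs
          · rw [Int.natAbs_mul, sq]
            exact Nat.mul_le_mul (hHP _) (hHQ _)
          · simp
        calc pn Int.natAbs (X : ℤ[X]) * pn Int.natAbs (C (A x y)) ≤ 1 * H ^ 2 :=
              Nat.mul_le_mul (pn_X hN) ((pn_C hN _).trans e2)
          _ = H ^ 2 := one_mul _
      have e2 : pn Int.natAbs (C (-Mm x y)) ≤ H ^ 2 := by
        refine (pn_C hN _).trans ?_
        rw [Int.natAbs_neg]
        simp only [Mm]
        rw [Int.natAbs_mul, sq]
        exact Nat.mul_le_mul (cmat_le P H hHP _ _) (cmat_le Q H hHQ _ _)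
      omega)
    rw [hcard] at h1
    exact h1

end Pool.Agent.DD7719.M
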