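import Pool.Agent.DD7719.NCls
import Pool.Agent.DD7719.TTame

/-! Narrow sequences and the soundness of the certificates of non-narrowness. -/

set_option autoImplicit false

namespace Pool.Agent.DD7719.M

open Complex Filter Topology

variable {k : ℕ}

/-- A sequence is *narrow* with respect to a set `S` (of characteristic roots) if for some modulus
every residue class has the exact growth `ρ^m`, with liminf not zero, or with finitely many contact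
values for some ratio `λ/μ`, not a root of unity, of two elements of `S` of equal modulus. -/
def IsNar (v : ℕ → ℝ) (S : Set ℂ) : Prop :=
  ∃ N : ℕ, 0 < N ∧ ∀ J : ℕ, J < N → ∃ ρ : ℝ, 0 < ρ ∧
    (∃ B : ℝ, ∀ m : ℕ, |v (N * m + J)| ≤ B * ρ ^ m) ∧
    (liminf (fun m : ℕ => v (N * m + J) / ρ ^ m) atTop ≠ 0 ∨
      ∃ a ∈ S, ∃ b ∈ S, ‖a‖ = ‖b‖ ∧ (∀ n : ℕ, 0 < n → a ^ n ≠ b ^ n) ∧
        (contact v N J ρ (a / b)).Finite)

/-- the last clause of a certificate for `¬ (positive ∧ narrow)` -/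
def NNF (t : ℝ) (l : Fin k → ℂ) (n0 : ℕ) (A : Fin k → Fin k → ℤ) (s : ℕ) (ρ : ℝ) (d : ℕ)
    (F : (Fin k → ℂ) → ℝ) (z z' : Fin k → ℂ) : Prop :=
  ρ = 0 ∨ (F z' ≠ 0 ∧ (0 < d ∨ F z < 0 ∨ (F z ≤ 0 ∧ ∀ i i', ‖l i‖ = ‖l i'‖ →
    l i ^ n0 ≠ l i' ^ n0 → ∃ z1 z2 : Fin k → ℂ, (∀ t, ‖z1 t‖ = 1) ∧ (∀ t, ‖z2 t‖ = 1) ∧
      F z1 ≤ 0 ∧ F z2 ≤ 0 ∧ Wt A s z1 i / Wt A s z1 i' ≠ Wt A s z2 i / Wt A s z2 i' ∧
      t * ‖Wt A s z1 i / Wt A s z1 i' - Wt A s z2 i / Wt A s z2 i'‖ ≤ 1)))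

/-- certificate for `¬ (positive ∧ narrow)` with the parameter `t` -/
def CertNF (k : ℕ) (l c : Fin k → ℂ) (ex : Fin k → ℕ) (M Nb : ℕ) (ε δ : ℝ) (t : ℝ) : Prop :=
  ∃ (n0 j : ℕ) (A H : Fin k → Fin k → ℤ) (D : ℤ) (s : ℕ) (w : Fin k → Fin k → ℝ)
    (τ : Fin k → ℝ) (ρ : ℝ) (d : ℕ) (z z' : Fin k → ℂ),
    BaseF k l c ex M Nb ε δ n0 j A H D s w τ ρ d ∧ (∀ t, ‖z t‖ = 1) ∧ (∀ t, ‖z' t‖ = 1) ∧
    NNF t l n0 A s ρ d (fun z => (LevF l c ex A s j d ρ z).re) z z'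

lemma unit_of_ratio (a b : ℂ) (h : ‖a‖ = ‖b‖) (hb : b ≠ 0) : ‖a / b‖ = 1 := by
  rw [norm_div, h, div_self]
  exact norm_ne_zero_iff.mpr hb

/-- contact values obtained from zeros of the level function -/
theorem contact_of_zero (l c : Fin k → ℂ) (ex : Fin k → ℕ) (v : ℕ → ℝ) (N j : ℕ) (ρJ : ℝ)
    (A : Fin k → Fin k → ℤ) (s d : ℕ) (ρ : ℝ) (i i' : Fin k)
    (hii : ‖l i‖ = ‖l i'‖) (hi' : l i' ≠ 0)
    (happ : ∀ z : Fin k → ℂ, (∀ t, ‖z t‖ = 1) → ∀ κ : ℝ, 0 < κ → ∀ N1, ∃ m, N1 ≤ m ∧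
      |v (N * m + j % N) / ρJ ^ m - (LevF l c ex A s j d ρ z).re / ρJ ^ (j / N)| ≤ κ ∧
      ∀ i i', ‖l i‖ = ‖l i'‖ → l i' ≠ 0 → ‖(l i / l i') ^ (N * m + j % N) -
        (l i / l i') ^ j * (Wt A s z i / Wt A s z i')‖ ≤ κ)
    (z : Fin k → ℂ) (hz : ∀ t, ‖z t‖ = 1) (h0 : (LevF l c ex A s j d ρ z).re = 0) :
    (l i / l i') ^ j * (Wt A s z i / Wt A s z i') ∈ contact v N (j % N) ρJ (l i / l i') := by
  obtain ⟨ζ, hζ, he⟩ := contact_of_approx v N (j % N) ρJ (l i / l i') (unit_of_ratio _ _ hii hi')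
    id continuous_id ((l i / l i') ^ j * (Wt A s z i / Wt A s z i')) (by
      intro ε hε N1
      obtain ⟨m, hm, h1, h2⟩ := happ z hz ε hε N1
      refine ⟨m, hm, ?_, ?_⟩
      · rw [h0, zero_div, sub_zero] at h1
        exact h1
      · rw [id, dist_eq_norm]
        exact h2 i i' hii hi')
  rw [id] at he
  rw [← he]
  exact hζ

/-- one residue class of a positive narrow sequence -/
theorem nn_sound_cls (v : ℕ → ℝ) (hpos : ∀ n, 0 < v n) (S : Set ℂ) (R M Nb : ℕ) (ε δ : ℝ)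
    (N : ℕ) (hN : 0 < N) (J : ℕ) (ρJ : ℝ) (hρJ : 0 < ρJ) (B : ℝ)
    (hB : ∀ m : ℕ, |v (N * m + J)| ≤ B * ρJ ^ m)
    (hnar : liminf (fun m : ℕ => v (N * m + J) / ρJ ^ m) atTop ≠ 0 ∨
      ∃ a ∈ S, ∃ b ∈ S, ‖a‖ = ‖b‖ ∧ (∀ n : ℕ, 0 < n → a ^ n ≠ b ^ n) ∧
        (contact v N J ρJ (a / b)).Finite) :
    ∃ X : ℝ, ∀ (t : ℝ) (l c : Fin k → ℂ) (ex : Fin k → ℕ), GoodD k l c ex R M ε δ v →
      (∀ a ∈ S, ∃ i, l i = a) →
      ∀ (n0 j : ℕ) (A H : Fin k → Fin k → ℤ) (D : ℤ) (s : ℕ) (w : Fin k → Fin k → ℝ)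
      (τ : Fin k → ℝ) (ρ : ℝ) (d : ℕ) (z z' : Fin k → ℂ),
      BaseF k l c ex M Nb ε δ n0 j A H D s w τ ρ d → (∀ t, ‖z t‖ = 1) → (∀ t, ‖z' t‖ = 1) →
      NNF t l n0 A s ρ d (fun z => (LevF l c ex A s j d ρ z).re) z z' → j % N = J → t ≤ X := by
  classical
  -- `v / ρJ^m` does not tend to zero along a progression
  have hnot : ∀ a0 b0 : ℕ, 0 < b0 → ¬ Tendsto (fun n : ℕ => v (N * (a0 + b0 * n) + J) /
      ρJ ^ (a0 + b0 * n)) atTop (𝓝 0) := by
    intro a0 b0 hb0 hten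
    rcases hnar with hl | ⟨a, _, b, _, hab, hnt, hfin⟩
    · have hle : ∀ m : ℕ, v (N * m + J) / ρJ ^ m ≤ B := by
        intro m
        rw [div_le_iff₀ (by positivity)]
        exact (le_abs_self _).trans (hB m)
      have hge : ∀ m : ℕ, 0 ≤ v (N * m + J) / ρJ ^ m := fun m =>
        div_nonneg (hpos _).le (by positivity)
      have hbelow : IsBoundedUnder (· ≥ ·) atTop (fun m : ℕ => v (N * m + J) / ρJ ^ m) :=
        ⟨0, eventually_map.mpr (Eventually.of_forall hge)⟩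
      have habove : IsCoboundedUnder (· ≥ ·) atTop (fun m : ℕ => v (N * m + J) / ρJ ^ m) :=
        IsBoundedUnder.isCoboundedUnder_ge ⟨B, eventually_map.mpr (Eventually.of_forall hle)⟩
      have hl0 : 0 ≤ liminf (fun m : ℕ => v (N * m + J) / ρJ ^ m) atTop :=
        le_liminf_of_le habove (Eventually.of_forall hge)
      have hl1 : 0 < liminf (fun m : ℕ => v (N * m + J) / ρJ ^ m) atTop :=
        lt_of_le_of_ne hl0 hl.symm
      have hev := eventually_lt_of_lt_liminf (half_lt_self hl1) hbelow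
      have hsub : Tendsto (fun n : ℕ => a0 + b0 * n) atTop atTop :=
        tendsto_atTop_mono (fun n => (Nat.le_mul_of_pos_left n hb0).trans (Nat.le_add_left _ _))
          tendsto_id
      have h1 := hsub.eventually hev
      have h2 := hten.eventually_lt_const (half_pos hl1)
      obtain ⟨n, h3, h4⟩ := (h1.and h2).exists
      exact lt_asymm h3 h4
    · have hb0' : b ≠ 0 := by
        rintro rfl
        rw [norm_zero, norm_eq_zero] at hab
        exact hnt 1 one_pos (by rw [hab])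
      refine contact_infinite v N J hN ρJ (a / b) (unit_of_ratio _ _ hab hb0') ?_ a0 b0 hb0 hten hfin
      intro n hn h1
      rw [div_pow, div_eq_one_iff_eq (pow_ne_zero _ hb0')] at h1
      exact hnt n hn h1
  -- the approximation property
  have hcls : ∀ (l c : Fin k → ℂ) (ex : Fin k → ℕ), GoodD k l c ex R M ε δ v →
      ∀ (n0 j : ℕ) (A H : Fin k → Fin k → ℤ) (D : ℤ) (s : ℕ) (w : Fin k → Fin k → ℝ)
      (τ : Fin k → ℝ) (ρ : ℝ) (d : ℕ) (z' : Fin k → ℂ),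
      BaseF k l c ex M Nb ε δ n0 j A H D s w τ ρ d → 0 < ρ → (∀ t, ‖z' t‖ = 1) →
      (LevF l c ex A s j d ρ z').re ≠ 0 → j % N = J →
      d = 0 ∧ (∀ z : Fin k → ℂ, (∀ t, ‖z t‖ = 1) → ∀ κ : ℝ, 0 < κ → ∀ N1, ∃ m, N1 ≤ m ∧
      |v (N * m + j % N) / ρJ ^ m - (LevF l c ex A s j d ρ z).re / ρJ ^ (j / N)| ≤ κ ∧
      ∀ i i', ‖l i‖ = ‖l i'‖ → l i' ≠ 0 → ‖(l i / l i') ^ (N * m + j % N) -
        (l i / l i') ^ j * (Wt A s z i / Wt A s z i')‖ ≤ κ) ∧
      ∀ z : Fin k → ℂ, (∀ t, ‖z t‖ = 1) → 0 ≤ (LevF l c ex A s j d ρ z).re := by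
    intro l c ex hg n0 j A H D s w τ ρ d z' hbase hρpos hz' hne hJ
    obtain ⟨hd0, happ⟩ := nar_cls l c ex R M Nb ε δ v hg n0 j A H D s w τ ρ d hbase hρpos z' hz' hne
      N hN ρJ B hρJ (by rw [hJ]; exact hB) (by rw [hJ]; exact hnot (j / N) n0 hbase.1)
    refine ⟨hd0, happ, fun z hz => ?_⟩
    by_contra hcon
    push Not at hcon
    have hp : 0 < ρJ ^ (j / N) := by positivity
    have hneg : (LevF l c ex A s j d ρ z).re / ρJ ^ (j / N) < 0 := div_neg_of_neg_of_pos hcon hp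
    obtain ⟨m, -, h1, -⟩ := happ z hz (-((LevF l c ex A s j d ρ z).re / ρJ ^ (j / N)) / 2)
      (by linarith) 0
    have h2 := (abs_le.mp h1).2
    have h3 : 0 < v (N * m + j % N) / ρJ ^ m := div_pos (hpos _) (by positivity)
    linarith
  have hρ0 : ∀ (l c : Fin k → ℂ) (ex : Fin k → ℕ), GoodD k l c ex R M ε δ v →
      ∀ (n0 j : ℕ) (A H : Fin k → Fin k → ℤ) (D : ℤ) (s : ℕ) (w : Fin k → Fin k → ℝ)
      (τ : Fin k → ℝ) (ρ : ℝ) (d : ℕ),
      BaseF k l c ex M Nb ε δ n0 j A H D s w τ ρ d → ρ ≠ 0 := by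
    intro l c ex hg n0 j A H D s w τ ρ d hbase h0
    obtain ⟨hn0, _, hj, _, hs, hD, hDM, hHA, hA, hH, hδ', hw, hwε, hρ, hd, hvan⟩ := hbase
    have hvan' : ∀ m, ∑ i, (if Above ρ d (l i) (ex i) then
        c i * ((j + n0 * m).choose (ex i) : ℂ) * l i ^ (j + n0 * m - ex i) else 0) = 0 :=
      vanish_gen l c ex hg.hdc (fun i => Above ρ d (l i) (ex i)) j n0 hvan
    have h2 : ∑ i, c i * ((j + n0 * 0).choose (ex i) : ℂ) * l i ^ (j + n0 * 0 - ex i) =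
        ∑ i, (if Above ρ d (l i) (ex i) then c i * ((j + n0 * 0).choose (ex i) : ℂ) *
          l i ^ (j + n0 * 0 - ex i) else 0) := by
      apply Finset.sum_congr rfl
      intro i _
      split_ifs with h
      · rfl
      · have h3 : l i = 0 := by
          by_contra h4
          apply h
          left
          rw [h0]
          exact norm_pos_iff.mpr h4
        rw [h3, zero_pow, mul_zero]
        have := hg.hex i
        omega
    rw [hg.hv, hvan' 0] at h2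
    have h3 : v (j + n0 * 0) = 0 := by exact_mod_cast h2
    have h4 := hpos (j + n0 * 0)
    linarith
  rcases hnar with hl | ⟨a, haS, b, hbS, hab, hnt, hfin⟩
  · -- liminf not zero
    refine ⟨0, ?_⟩
    intro t l c ex hg hS n0 j A H D s w τ ρ d z z' hbase hz hz' hP hJ
    exfalso
    have hρpos : 0 < ρ := lt_of_le_of_ne (by
      obtain ⟨_, _, _, _, _, _, _, _, _, _, _, _, _, hρ, _⟩ := hbase
      exact hρ) (hρ0 l c ex hg n0 j A H D s w τ ρ d hbase).symm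
    obtain ⟨hne, hlast⟩ := hP.resolve_left hρpos.ne'
    obtain ⟨hd0, happ, hF⟩ := hcls l c ex hg n0 j A H D s w τ ρ d z' hbase hρpos hz' hne hJ
    have hle0 : (LevF l c ex A s j d ρ z).re ≤ 0 := by
      rcases hlast with h | h | h
      · omega
      · exact h.le
      · exact h.1
    have h0 : (LevF l c ex A s j d ρ z).re = 0 := le_antisymm hle0 (hF z hz)
    have hle : ∀ m : ℕ, v (N * m + J) / ρJ ^ m ≤ B := by
      intro m
      rw [div_le_iff₀ (by positivity)]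
      exact (le_abs_self _).trans (hB m)
    have hge : ∀ m : ℕ, 0 ≤ v (N * m + J) / ρJ ^ m := fun m =>
      div_nonneg (hpos _).le (by positivity)
    have hbelow : IsBoundedUnder (· ≥ ·) atTop (fun m : ℕ => v (N * m + J) / ρJ ^ m) :=
      ⟨0, eventually_map.mpr (Eventually.of_forall hge)⟩
    have habove : IsCoboundedUnder (· ≥ ·) atTop (fun m : ℕ => v (N * m + J) / ρJ ^ m) :=
      IsBoundedUnder.isCoboundedUnder_ge ⟨B, eventually_map.mpr (Eventually.of_forall hle)⟩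
    have hl0 : 0 ≤ liminf (fun m : ℕ => v (N * m + J) / ρJ ^ m) atTop :=
      le_liminf_of_le habove (Eventually.of_forall hge)
    have hl1 : 0 < liminf (fun m : ℕ => v (N * m + J) / ρJ ^ m) atTop :=
      lt_of_le_of_ne hl0 hl.symm
    have hev := eventually_lt_of_lt_liminf (half_lt_self hl1) hbelow
    rw [eventually_atTop] at hev
    obtain ⟨N1, hN1⟩ := hev
    obtain ⟨m, hm, h1, -⟩ := happ z hz (liminf (fun m : ℕ => v (N * m + J) / ρJ ^ m) atTop / 2)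
      (half_pos hl1) N1
    rw [h0, zero_div, sub_zero, hJ] at h1
    have h2 := hN1 m hm
    have h3 := (le_abs_self _).trans h1
    linarith
  · have hb0' : b ≠ 0 := by
      rintro rfl
      rw [norm_zero, norm_eq_zero] at hab
      exact hnt 1 one_pos (by rw [hab])
    set E := hfin.toFinset with hE
    refine ⟨∑ p ∈ E.offDiag, 1 / dist p.1 p.2, ?_⟩
    intro t l c ex hg hS n0 j A H D s w τ ρ d z z' hbase hz hz' hP hJ
    have hρpos : 0 < ρ := lt_of_le_of_ne (by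
      obtain ⟨_, _, _, _, _, _, _, _, _, _, _, _, _, hρ, _⟩ := hbase
      exact hρ) (hρ0 l c ex hg n0 j A H D s w τ ρ d hbase).symm
    obtain ⟨hne, hlast⟩ := hP.resolve_left hρpos.ne'
    obtain ⟨hd0, happ, hF⟩ := hcls l c ex hg n0 j A H D s w τ ρ d z' hbase hρpos hz' hne hJ
    obtain ⟨i, rfl⟩ := hS a haS
    obtain ⟨i', rfl⟩ := hS b hbS
    rcases hlast with h | h | h
    · omega
    · exact absurd h (not_lt.mpr (hF z hz))
    · obtain ⟨z1, z2, hz1, hz2, hF1, hF2, hχ, ht⟩ := h.2 i i' hab (hnt n0 hbase.1)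
      have hm1 := contact_of_zero l c ex v N j ρJ A s d ρ i i' hab hb0' happ z1 hz1
        (le_antisymm hF1 (hF z1 hz1))
      have hm2 := contact_of_zero l c ex v N j ρJ A s d ρ i i' hab hb0' happ z2 hz2
        (le_antisymm hF2 (hF z2 hz2))
      rw [hJ] at hm1 hm2
      have hγ := unit_of_ratio _ _ hab hb0'
      have hdist : dist ((l i / l i') ^ j * (Wt A s z1 i / Wt A s z1 i'))
          ((l i / l i') ^ j * (Wt A s z2 i / Wt A s z2 i')) =
          ‖Wt A s z1 i / Wt A s z1 i' - Wt A s z2 i / Wt A s z2 i'‖ := by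
        rw [dist_eq_norm, ← mul_sub, norm_mul, norm_pow, hγ, one_pow, one_mul]
      have hposd : 0 < ‖Wt A s z1 i / Wt A s z1 i' - Wt A s z2 i / Wt A s z2 i'‖ :=
        norm_pos_iff.mpr (sub_ne_zero.mpr hχ)
      have hle : 1 / dist ((l i / l i') ^ j * (Wt A s z1 i / Wt A s z1 i'))
          ((l i / l i') ^ j * (Wt A s z2 i / Wt A s z2 i')) ≤
          ∑ p ∈ E.offDiag, 1 / dist p.1 p.2 := by
        refine Finset.single_le_sum (f := fun p : ℂ × ℂ => 1 / dist p.1 p.2)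
          (fun p _ => by positivity) (a := ((l i / l i') ^ j * (Wt A s z1 i / Wt A s z1 i'),
            (l i / l i') ^ j * (Wt A s z2 i / Wt A s z2 i'))) ?_
        rw [Finset.mem_offDiag, hE, Set.Finite.mem_toFinset, Set.Finite.mem_toFinset]
        refine ⟨hm1, hm2, ?_⟩
        intro he
        rw [← dist_eq_zero, hdist] at he
        exact hposd.ne' he
      refine le_trans ?_ hle
      rw [hdist, le_div_iff₀ hposd]
      exact ht

/-- **Soundness**: the parameters of the certificates are bounded for a positive narrow sequence. -/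
theorem nn_sound (v : ℕ → ℝ) (hpos : ∀ n, 0 < v n) (S : Set ℂ) (hnar : IsNar v S)
    (R M Nb : ℕ) (ε δ : ℝ) :
    ∃ X : ℝ, ∀ (t : ℝ) (l c : Fin k → ℂ) (ex : Fin k → ℕ), GoodD k l c ex R M ε δ v →
      (∀ a ∈ S, ∃ i, l i = a) → CertNF k l c ex M Nb ε δ t → t ≤ X := by
  obtain ⟨N, hN, hT⟩ := hnar
  have h1 : ∀ J, ∃ X : ℝ, J < N → ∀ (t : ℝ) (l c : Fin k → ℂ) (ex : Fin k → ℕ),
      GoodD k l c ex R M ε δ v → (∀ a ∈ S, ∃ i, l i = a) →
      ∀ (n0 j : ℕ) (A H : Fin k → Fin k → ℤ) (D : ℤ) (s : ℕ) (w : Fin k → Fin k → ℝ)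
      (τ : Fin k → ℝ) (ρ : ℝ) (d : ℕ) (z z' : Fin k → ℂ),
      BaseF k l c ex M Nb ε δ n0 j A H D s w τ ρ d → (∀ t, ‖z t‖ = 1) → (∀ t, ‖z' t‖ = 1) →
      NNF t l n0 A s ρ d (fun z => (LevF l c ex A s j d ρ z).re) z z' → j % N = J → t ≤ X := by
    intro J
    by_cases hJ : J < N
    · obtain ⟨ρJ, hρJ, ⟨B, hB⟩, hn⟩ := hT J hJ
      obtain ⟨X, hX⟩ := nn_sound_cls (k := k) v hpos S R M Nb ε δ N hN J ρJ hρJ B hB hn
      exact ⟨X, fun _ => hX⟩
    · exact ⟨0, fun h => absurd h hJ⟩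
  choose X hX using h1
  refine ⟨∑ J ∈ Finset.range N, |X J|, ?_⟩
  rintro t l c ex hg hS ⟨n0, j, A, H, D, s, w, τ, ρ, d, z, z', hbase, hz, hz', hP⟩
  have hJ : j % N < N := Nat.mod_lt _ hN
  have h2 := hX (j % N) hJ t l c ex hg hS n0 j A H D s w τ ρ d z z' hbase hz hz' hP rfl
  refine h2.trans ((le_abs_self _).trans ?_)
  exact Finset.single_le_sum (f := fun J => |X J|) (fun _ _ => abs_nonneg _)
    (Finset.mem_range.mpr hJ)

/-- **Boundedness along a fibre.** -/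
theorem ybound (v : ℕ → ℝ) (R M Nb : ℕ) (ε δ : ℝ)
    (N : ℕ) (hN : 0 < N) (ρJ : ℝ) (hρJ : 0 < ρJ) (B : ℝ) (n0 j : ℕ)
    (hB : ∀ m : ℕ, |v (N * m + j % N)| ≤ B * ρJ ^ m) (γ : ℂ)
    (hnt : ∀ n : ℕ, 0 < n → γ ^ n ≠ 1) (hfin : (contact v N (j % N) ρJ γ).Finite)
    (y : ℝ) (hy : ∀ ζ ∈ contact v N (j % N) ρJ γ, (ζ / γ ^ j).re ≠ y) :
    ∃ X : ℝ, ∀ (t : ℝ) (l c : Fin k → ℂ) (ex : Fin k → ℕ), GoodD k l c ex R M ε δ v →
      ∀ (A H : Fin k → Fin k → ℤ) (D : ℤ) (s : ℕ) (w : Fin k → Fin k → ℝ)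
      (τ : Fin k → ℝ) (ρ : ℝ) (d : ℕ) (z z' : Fin k → ℂ),
      BaseF k l c ex M Nb ε δ n0 j A H D s w τ ρ d → 0 < ρ → (∀ t, ‖z t‖ = 1) →
      (∀ t, ‖z' t‖ = 1) → (LevF l c ex A s j d ρ z').re ≠ 0 →
      (∀ z : Fin k → ℂ, (∀ t, ‖z t‖ = 1) → 0 ≤ (LevF l c ex A s j d ρ z).re) →
      ∀ i i', l i / l i' = γ → ‖l i‖ = ‖l i'‖ → l i' ≠ 0 →
      (Wt A s z i / Wt A s z i').re = y → t * (LevF l c ex A s j d ρ z).re ≤ 1 → t ≤ X := by
  by_contra hcon
  push Not at hcon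
  -- the norm of `γ`
  obtain ⟨t0, l0, c0, ex0, hg0, A0, H0, D0, s0, w0, τ0, ρ0, d0, z0, z0', hbase0, hρ0, hz0, hz0',
    hne0, hF0, i0, i0', hγ0, hii0, hi0, -, -, -⟩ := hcon 0
  have hγ : ‖γ‖ = 1 := by
    rw [← hγ0]
    exact unit_of_ratio _ _ hii0 hi0
  have hγj : ‖γ ^ j‖ = 1 := by rw [norm_pow, hγ, one_pow]
  have hγj0 : γ ^ j ≠ 0 := by
    intro h
    rw [h, norm_zero] at hγj
    exact zero_ne_one hγj
  have hp : 0 < ρJ ^ (j / N) := by positivity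
  obtain ⟨ζ, hζ, he⟩ := contact_of_approx v N (j % N) ρJ γ hγ (fun ζ => (ζ / γ ^ j).re)
    (by fun_prop) y (by
      intro κ hκ N1
      obtain ⟨t, l, c, ex, hg, A, H, D, s, w, τ, ρ, d, z, z', hbase, hρ, hz, hz', hne, hF, i, i',
        hγi, hii, hi', hyz, htF, hXt⟩ := hcon (2 / (κ * ρJ ^ (j / N)))
      obtain ⟨-, happ⟩ := nar_cls l c ex R M Nb ε δ v hg n0 j A H D s w τ ρ d hbase hρ z' hz' hne
        N hN ρJ B hρJ hB (by
          intro hten
          exact contact_infinite v N (j % N) hN ρJ γ hγ hnt (j / N) n0 hbase.1 hten hfin)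
      obtain ⟨m, hm, h1, h2⟩ := happ z hz (κ / 2) (by positivity) N1
      have ht0 : 0 < t := lt_trans (by positivity) hXt
      have hF1 : (LevF l c ex A s j d ρ z).re / ρJ ^ (j / N) ≤ κ / 2 := by
        have h3 : (LevF l c ex A s j d ρ z).re ≤ 1 / t := by
          rw [le_div_iff₀ ht0]
          linarith
        rw [div_lt_iff₀ (by positivity)] at hXt
        rw [div_le_iff₀ hp]
        refine h3.trans ?_
        rw [div_le_iff₀ ht0]
        linarith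
      have hF2 : 0 ≤ (LevF l c ex A s j d ρ z).re / ρJ ^ (j / N) := div_nonneg (hF z hz) hp.le
      refine ⟨m, hm, ?_, ?_⟩
      · have h3 := abs_sub_abs_le_abs_sub (v (N * m + j % N) / ρJ ^ m)
          ((LevF l c ex A s j d ρ z).re / ρJ ^ (j / N))
        rw [abs_of_nonneg hF2] at h3
        linarith
      · have h3 := h2 i i' hii hi'
        rw [hγi] at h3
        rw [Real.dist_eq, ← hyz, ← sub_re]
        refine (abs_re_le_norm _).trans ?_
        have h4 : γ ^ (N * m + j % N) / γ ^ j - Wt A s z i / Wt A s z i' =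
            (γ ^ (N * m + j % N) - γ ^ j * (Wt A s z i / Wt A s z i')) / γ ^ j := by
          rw [sub_div, mul_div_cancel_left₀ _ hγj0]
        rw [h4, norm_div, hγj, div_one]
        linarith)
  exact hy ζ hζ he

end Pool.Agent.DD7719.M
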