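import Pool.Agent.DD7719.NCertRE
import Pool.Agent.DD7719.NSound

/-! The last clauses for narrow sequences. -/

set_option autoImplicit false

namespace Pool.Agent.DD7719.M

open Complex Filter Topology
open Pool.Agent.PT Pool.Agent.AllR

/-- the character, `ℕ`-indexed -/
noncomputable def WtN (k s : ℕ) (A : ℕ → ℕ → ℤ) (z : ℕ → ℂ) (i : ℕ) : ℂ :=
  ∏ t ∈ Finset.range k, (if t < s then z t ^ A t i else 1)

/-- the last clause for `¬ (positive ∧ narrow)` -/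
def QNN (k : ℕ) (tt : ℝ) : QT := fun l c ex n0 j A s d ρ z z' Z1 Z2 =>
  ρ = 0 ∨ ((Lev k s d l c z' ex A j ρ).re ≠ 0 ∧ (0 < d ∨ (Lev k s d l c z ex A j ρ).re < 0 ∨
    ((Lev k s d l c z ex A j ρ).re ≤ 0 ∧ ∀ i, i < k → ∀ i', i' < k →
      (‖l i‖ ≠ ‖l i'‖ ∨ l i ^ n0 = l i' ^ n0 ∨
      ((∀ t, t < k → ‖Z1 (Nat.pair i i') t‖ = 1) ∧ (∀ t, t < k → ‖Z2 (Nat.pair i i') t‖ = 1) ∧
      (Lev k s d l c (Z1 (Nat.pair i i')) ex A j ρ).re ≤ 0 ∧
      (Lev k s d l c (Z2 (Nat.pair i i')) ex A j ρ).re ≤ 0 ∧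
      WtN k s A (Z1 (Nat.pair i i')) i / WtN k s A (Z1 (Nat.pair i i')) i' ≠
        WtN k s A (Z2 (Nat.pair i i')) i / WtN k s A (Z2 (Nat.pair i i')) i' ∧
      tt * ‖WtN k s A (Z1 (Nat.pair i i')) i / WtN k s A (Z1 (Nat.pair i i')) i' -
        WtN k s A (Z2 (Nat.pair i i')) i / WtN k s A (Z2 (Nat.pair i i')) i'‖ ≤ 1)))))

/-- lexicographically sorted roots -/
def Sorted (k : ℕ) (l : ℕ → ℂ) : Prop := ∀ i, i < k → ∀ i', i' < k → (i < i' →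
  ((l i).re < (l i').re ∨ ((l i).re = (l i').re ∧ (l i).im ≤ (l i').im)))

/-- the last clause for the values along a fibre -/
def QR (k : ℕ) (α : ℕ → ℝ) : QT := fun l c ex n0 j A s d ρ z z' _ _ =>
  0 < ρ ∧ d = 0 ∧ (Lev k s d l c z' ex A j ρ).re ≠ 0 ∧ Sorted k l ∧
    ((n0 : ℝ) = α 4 ∧ (j : ℝ) = α 5) ∧ α 0 * (Lev k s d l c z ex A j ρ).re ≤ 1 ∧
    ∃ i, i < k ∧ ∃ i', i' < k ∧ (((i : ℝ) = α 2 ∧ (i' : ℝ) = α 3) ∧
      (WtN k s A z i / WtN k s A z i').re = α 1)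

theorem wtN_congr {k s : ℕ} {A A' : ℕ → ℕ → ℤ} {z : ℕ → ℂ} {i : ℕ} (hi : i < k)
    (hA : ∀ i, i < k → ∀ t, t < k → A' i t = A i t) : WtN k s A' z i = WtN k s A z i := by
  unfold WtN
  refine Finset.prod_congr rfl fun t ht => ?_
  rw [Finset.mem_range] at ht
  rw [hA t ht i hi]

theorem qNN_congr (k : ℕ) (tt : ℝ) : QCongr k (QNN k tt) := by
  intro l c ex ex' n0 j A A' s d ρ z z' Z1 Z2 hex hA h
  unfold QNN at h ⊢
  simp only [lev_congr hex hA]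
  rcases h with h | ⟨h1, h2 | h2 | ⟨h2, h3⟩⟩
  · exact Or.inl h
  · exact Or.inr ⟨h1, Or.inl h2⟩
  · exact Or.inr ⟨h1, Or.inr (Or.inl h2)⟩
  · refine Or.inr ⟨h1, Or.inr (Or.inr ⟨h2, fun i hi i' hi' => ?_⟩)⟩
    rw [wtN_congr hi hA, wtN_congr hi' hA, wtN_congr hi hA, wtN_congr hi' hA]
    exact h3 i hi i' hi'

theorem qR_congr (k : ℕ) (α : ℕ → ℝ) : QCongr k (QR k α) := by
  intro l c ex ex' n0 j A A' s d ρ z z' Z1 Z2 hex hA h
  unfold QR at h ⊢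
  simp only [lev_congr hex hA]
  obtain ⟨h1, h2, h3, h4, h5, h6, i, hi, i', hi', h7, h8⟩ := h
  refine ⟨h1, h2, h3, h4, h5, h6, i, hi, i', hi', h7, ?_⟩
  rw [wtN_congr hi hA, wtN_congr hi' hA]
  exact h8

section
variable {Γ : Type} (kk bm bn : List Γ → ℕ)
  (hk : UF (fun x _ => kk x)) (hbm : UF (fun x _ => bm x)) (hbn : UF (fun x _ => bn x))

include hk hbm hbn in
/-- the level sum in the environment `i', i, d, s` -/
theorem cf_lev2 {zr : (ℕ → ℝ) → ℕ → ℕ → ℂ}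
    (hz : ∀ {f g : List Γ → (ℕ → ℕ) → ℕ}, UF f → UF g → CF (fun x e α => zr α (f x e) (g x e))) :
    CF (fun x e α => Lev (kk x) (e 3) (e 2) (rl α) (rc α) (zr α (Nat.pair (e 1) (e 0)))
      (rex (kk x) α) (rA (bm x) α) (rj (bn x + kk x) α) (rρ α)) := by
  classical
  unfold Lev
  refine CF.sum hk ?_
  refine CF.msub (m := fun x e α => rex (kk x) α (e 0))
    (f := fun x e α q => if ‖rl α (e 0)‖ = rρ α ∧ q = e 3 then
      rc α (e 0) * rl α (e 0) ^ (rj (bn x + kk x) α - e 3) *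
      ∏ t ∈ Finset.range (kk x), (if t < e 4 then
        zr α (Nat.pair (e 2) (e 1)) t ^ rA (bm x) α t (e 0) else 1) else 0)
    (ns_rex hk (UF.var 0)) ?_
  refine CF.rite ?_ ?_ ?_ CF.zero
  · exact RE.and (RE.eq (cf_rl (UF.var 1)).norm rf_rρ) (RE.up (UP.eq (UF.var 0) (UF.var 4)))
  · refine (RE.or (RE.ne (cf_rl (UF.var 1)).norm rf_rρ)
      (RE.up (UP.ne (UF.var 0) (UF.var 4)))).congr fun x e α => ?_
    exact not_and_or.symm
  · refine ((cf_rc (UF.var 1)).mul (CF.npow (cf_rl (UF.var 1))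
      (NF.tsub (nf_rj (hbn.add hk)) (NF.uf (UF.var 4))))).mul (CF.prod hk ?_)
    exact CF.ite (UP.lt (UF.var 0) (UF.var 6)) (CF.zpow (hz (uf_pair (UF.var 4) (UF.var 3))
      (UF.var 0)) (zf_rA hbm (UF.var 0) (UF.var 2))) CF.one

include hk hbm in
/-- the character with index `g` in the environment `i', i, d, s` -/
theorem cf_wt2 {zr : (ℕ → ℝ) → ℕ → ℕ → ℂ}
    (hz : ∀ {f g : List Γ → (ℕ → ℕ) → ℕ}, UF f → UF g → CF (fun x e α => zr α (f x e) (g x e)))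
    (b : ℕ) :
    CF (fun x e α => WtN (kk x) (e 3) (rA (bm x) α) (zr α (Nat.pair (e 1) (e 0))) (e b)) := by
  classical
  unfold WtN
  refine CF.prod hk ?_
  exact CF.ite (UP.lt (UF.var 0) (UF.var 4)) (CF.zpow (hz (uf_pair (UF.var 2) (UF.var 1))
      (UF.var 0)) (zf_rA hbm (UF.var 0) (UF.var (b + 1)))) CF.one

theorem cf_rz1 {f g : List Γ → (ℕ → ℕ) → ℕ} (hf : UF f) (hg : UF g) :
    CF (fun x e α => rz1 α (f x e) (g x e)) :=
  CF.var (uf_aff (uf_pair hf hg) 17) (uf_aff (uf_pair hf hg) 18)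

theorem cf_rz2 {f g : List Γ → (ℕ → ℕ) → ℕ} (hf : UF f) (hg : UF g) :
    CF (fun x e α => rz2 α (f x e) (g x e)) :=
  CF.var (uf_aff (uf_pair hf hg) 19) (uf_aff (uf_pair hf hg) 36)

include hk hbm hbn in
theorem re_QNN : RE (fun x e α => QNN (kk x) (α 0) (rl (fun v => α (2 * v + 1)))
      (rc (fun v => α (2 * v + 1))) (rex (kk x) (fun v => α (2 * v + 1)))
      (rn0 (bn x) (fun v => α (2 * v + 1))) (rj (bn x + kk x) (fun v => α (2 * v + 1)))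
      (rA (bm x) (fun v => α (2 * v + 1))) (e 1) (e 0) (rρ (fun v => α (2 * v + 1)))
      (rz (fun v => α (2 * v + 1))) (rz' (fun v => α (2 * v + 1)))
      (rz1 (fun v => α (2 * v + 1))) (rz2 (fun v => α (2 * v + 1)))) := by
  unfold QNN
  have hL := cf_lev kk bm bn hk hbm hbn (zr := rz) cf_rz
  have hL' := cf_lev kk bm bn hk hbm hbn (zr := rz') cf_rz'
  have hL1 := cf_lev2 kk bm bn hk hbm hbn (zr := rz1) cf_rz1
  have hL2 := cf_lev2 kk bm bn hk hbm hbn (zr := rz2) cf_rz2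
  have hn0 : NF (Γ := Γ) (fun x e α => rn0 (bn x) α) := nf_rn0 hbn
  have hW1 := cf_wt2 kk bm hk hbm (zr := rz1) cf_rz1
  have hW2 := cf_wt2 kk bm hk hbm (zr := rz2) cf_rz2
  refine RE.or (RE.aff (RE.eq rf_rρ RF.zero) 2 1) (RE.and (RE.aff (RE.ne hL'.re RF.zero) 2 1)
    (RE.or (RE.up (UP.lt (UF.const 0) (UF.var 0))) (RE.or (RE.aff (RE.lt hL.re RF.zero) 2 1)
    (RE.and (RE.aff (RE.le hL.re RF.zero) 2 1) (RE.ball hk (RE.ball hk ?_))))))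
  refine RE.or (RE.aff (RE.ne (cf_rl (UF.var 1)).norm (cf_rl (UF.var 0)).norm) 2 1)
    (RE.or (RE.aff (RE.ceq (CF.npow (cf_rl (UF.var 1)) hn0) (CF.npow (cf_rl (UF.var 0)) hn0)) 2 1)
    (RE.and ?_ (RE.and ?_ (RE.and ?_ (RE.and ?_ (RE.and ?_ ?_))))))
  · refine RE.aff (R := fun x e α => ∀ t, t < kk x → ‖rz1 α (Nat.pair (e 1) (e 0)) t‖ = 1) ?_ 2 1
    exact RE.ball hk (RE.eq (cf_rz1 (uf_pair (UF.var 2) (UF.var 1)) (UF.var 0)).norm RF.one)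
  · refine RE.aff (R := fun x e α => ∀ t, t < kk x → ‖rz2 α (Nat.pair (e 1) (e 0)) t‖ = 1) ?_ 2 1
    exact RE.ball hk (RE.eq (cf_rz2 (uf_pair (UF.var 2) (UF.var 1)) (UF.var 0)).norm RF.one)
  · exact RE.aff (RE.le hL1.re RF.zero) 2 1
  · exact RE.aff (RE.le hL2.re RF.zero) 2 1
  · exact RE.aff (RE.cne ((hW1 1).div (hW1 0)) ((hW2 1).div (hW2 0))) 2 1
  · exact RE.le ((RF.var (UF.const 0)).mul
      (RF.aff ((((hW1 1).div (hW1 0)).sub ((hW2 1).div (hW2 0))).norm) 2 1)) RF.one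

include hk in
theorem re_sorted : RE (fun x _ α => Sorted (kk x) (rl α)) := by
  unfold Sorted
  refine RE.ball hk (RE.ball hk (RE.guard (UP.lt (UF.var 1) (UF.var 0)) (RE.or ?_ (RE.and ?_ ?_))))
  · exact RE.lt (cf_rl (UF.var 1)).re (cf_rl (UF.var 0)).re
  · exact RE.eq (cf_rl (UF.var 1)).re (cf_rl (UF.var 0)).re
  · exact RE.le (cf_rl (UF.var 1)).im (cf_rl (UF.var 0)).im

include hk hbm hbn in
theorem re_QR : RE (fun x e α => QR (kk x) (fun v => α (2 * v)) (rl (fun v => α (2 * v + 1)))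
      (rc (fun v => α (2 * v + 1))) (rex (kk x) (fun v => α (2 * v + 1)))
      (rn0 (bn x) (fun v => α (2 * v + 1))) (rj (bn x + kk x) (fun v => α (2 * v + 1)))
      (rA (bm x) (fun v => α (2 * v + 1))) (e 1) (e 0) (rρ (fun v => α (2 * v + 1)))
      (rz (fun v => α (2 * v + 1))) (rz' (fun v => α (2 * v + 1)))
      (rz1 (fun v => α (2 * v + 1))) (rz2 (fun v => α (2 * v + 1)))) := by
  unfold QR
  have hL := cf_lev kk bm bn hk hbm hbn (zr := rz) cf_rz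
  have hL' := cf_lev kk bm bn hk hbm hbn (zr := rz') cf_rz'
  have hn0 : NF (Γ := Γ) (fun x e α => rn0 (bn x) α) := nf_rn0 hbn
  have hj : NF (Γ := Γ) (fun x e α => rj (bn x + kk x) α) := nf_rj (hbn.add hk)
  have hW := cf_wt2 kk bm hk hbm (zr := fun α _ t => rz α t) (fun _ hg => cf_rz hg)
  refine RE.and (RE.aff (RE.lt RF.zero rf_rρ) 2 1) (RE.and (RE.up (UP.eq (UF.var 0) (UF.const 0)))
    (RE.and (RE.aff (RE.ne hL'.re RF.zero) 2 1) (RE.and (RE.aff (re_sorted kk hk) 2 1)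
    (RE.and (RE.and ?_ ?_) (RE.and ?_ (RE.bex hk (RE.bex hk (RE.and (RE.and ?_ ?_) ?_))))))))
  · exact RE.eq (RF.aff hn0.cast 2 1) (RF.var (UF.const 8))
  · exact RE.eq (RF.aff hj.cast 2 1) (RF.var (UF.const 10))
  · exact RE.le ((RF.var (UF.const 0)).mul (RF.aff hL.re 2 1)) RF.one
  · exact RE.eq (RF.nat (UF.var 1)) (RF.var (UF.const 4))
  · exact RE.eq (RF.nat (UF.var 0)) (RF.var (UF.const 6))
  · exact RE.eq (RF.aff ((hW 1).div (hW 0)).re 2 1) (RF.var (UF.const 2))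

end

/-! ### Conversions -/

theorem lev_eq_levF (k s d : ℕ) (l c z : ℕ → ℂ) (ex : ℕ → ℕ) (A : ℕ → ℕ → ℤ) (j : ℕ) (ρ : ℝ) :
    Lev k s d l c z ex A j ρ = LevF (fun i : Fin k => l i) (fun i => c i) (fun i => ex i)
      (fun i t => A i t) s j d ρ (fun t => z t) := by
  unfold Lev LevF
  simp only [Finset.sum_range, Finset.prod_range]

theorem wtN_eq (k s : ℕ) (A : ℕ → ℕ → ℤ) (z : ℕ → ℂ) (i : Fin k) :
    WtN k s A z i = Wt (fun i t : Fin k => A i t) s (fun t => z t) i := by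
  unfold WtN Wt
  rw [Finset.prod_range]

theorem certQNN_toF {k : ℕ} {l c : ℕ → ℂ} {ex : ℕ → ℕ} {bm bn : ℕ} {ε δ tt : ℝ}
    (h : CertQN k l c ex bm bn ε δ (QNN k tt)) :
    CertNF k (fun i => l i) (fun i => c i) (fun i => ex i) (2 ^ bm) (2 ^ bn) ε δ tt := by
  obtain ⟨n0, j, A, H, D, s, w, τ, z, z', Z1, Z2, ρ, d, hbase, hz, hz', hQ⟩ := h
  refine ⟨n0, j, fun i t => A i t, fun i t => H i t, D, s, fun i t => w i t, fun i => τ i, ρ, d,
    fun t => z t, fun t => z' t, hbase.toF, fun t => hz t t.2, fun t => hz' t t.2, ?_⟩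
  unfold QNN at hQ
  simp only [lev_eq_levF] at hQ
  rcases hQ with h | ⟨h1, h2 | h2 | ⟨h2, h3⟩⟩
  · exact Or.inl h
  · exact Or.inr ⟨h1, Or.inl h2⟩
  · exact Or.inr ⟨h1, Or.inr (Or.inl h2)⟩
  · refine Or.inr ⟨h1, Or.inr (Or.inr ⟨h2, fun i i' hii hne => ?_⟩)⟩
    rcases h3 i i.2 i' i'.2 with h4 | h4 | ⟨g1, g2, g3, g4, g5, g6⟩
    · exact absurd hii h4
    · exact absurd h4 hne
    · simp only [wtN_eq] at g5 g6
      exact ⟨fun t => Z1 (Nat.pair i i') t, fun t => Z2 (Nat.pair i i') t, fun t => g1 t t.2,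
        fun t => g2 t t.2, g3, g4, g5, g6⟩

theorem levF_ext {k : ℕ} (l c : ℕ → ℂ) (ex : ℕ → ℕ) (A : Fin k → Fin k → ℤ) (s j d : ℕ) (ρ : ℝ)
    (z : Fin k → ℂ) (z0 : ℕ → ℂ) (hz : ∀ t : Fin k, z0 t = z t) :
    Lev k s d l c z0 ex (ext2 0 A) j ρ = LevF (fun i : Fin k => l i) (fun i => c i)
      (fun i => ex i) A s j d ρ z := by
  rw [lev_eq_levF]
  congr 1
  · funext i t
    exact ext2_fin 0 A i t
  · funext t
    exact hz t

theorem wtN_ext {k : ℕ} (A : Fin k → Fin k → ℤ) (s : ℕ) (z : Fin k → ℂ) (z0 : ℕ → ℂ)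
    (hz : ∀ t : Fin k, z0 t = z t) (i : Fin k) :
    WtN k s (ext2 0 A) z0 i = Wt A s z i := by
  rw [wtN_eq]
  congr 1
  · funext i t
    exact ext2_fin 0 A i t
  · funext t
    exact hz t

theorem CertNF.toN {k : ℕ} {l c : ℕ → ℂ} {ex : ℕ → ℕ} {M Nb bm bn : ℕ} {ε δ tt : ℝ}
    (h : CertNF k (fun i => l i) (fun i => c i) (fun i => ex i) M Nb ε δ tt)
    (hM : M < 2 ^ bm) (hN : Nb < 2 ^ bn) :
    CertQN k l c ex bm bn ε δ (QNN k tt) := by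
  classical
  obtain ⟨n0, j, A, H, D, s, w, τ, ρ, d, z, z', hbase, hz, hz', hQ⟩ := h
  -- choose the families
  have hch : ∀ i i' : Fin k, ∃ y1 y2 : Fin k → ℂ,
      (∃ z1 z2 : Fin k → ℂ, (∀ t, ‖z1 t‖ = 1) ∧ (∀ t, ‖z2 t‖ = 1) ∧
      (LevF (fun i : Fin k => l i) (fun i => c i) (fun i => ex i) A s j d ρ z1).re ≤ 0 ∧
      (LevF (fun i : Fin k => l i) (fun i => c i) (fun i => ex i) A s j d ρ z2).re ≤ 0 ∧
      Wt A s z1 i / Wt A s z1 i' ≠ Wt A s z2 i / Wt A s z2 i' ∧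
      tt * ‖Wt A s z1 i / Wt A s z1 i' - Wt A s z2 i / Wt A s z2 i'‖ ≤ 1) →
      (∀ t, ‖y1 t‖ = 1) ∧ (∀ t, ‖y2 t‖ = 1) ∧
      (LevF (fun i : Fin k => l i) (fun i => c i) (fun i => ex i) A s j d ρ y1).re ≤ 0 ∧
      (LevF (fun i : Fin k => l i) (fun i => c i) (fun i => ex i) A s j d ρ y2).re ≤ 0 ∧
      Wt A s y1 i / Wt A s y1 i' ≠ Wt A s y2 i / Wt A s y2 i' ∧
      tt * ‖Wt A s y1 i / Wt A s y1 i' - Wt A s y2 i / Wt A s y2 i'‖ ≤ 1 := by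
    intro i i'
    by_cases hex : ∃ z1 z2 : Fin k → ℂ, (∀ t, ‖z1 t‖ = 1) ∧ (∀ t, ‖z2 t‖ = 1) ∧
      (LevF (fun i : Fin k => l i) (fun i => c i) (fun i => ex i) A s j d ρ z1).re ≤ 0 ∧
      (LevF (fun i : Fin k => l i) (fun i => c i) (fun i => ex i) A s j d ρ z2).re ≤ 0 ∧
      Wt A s z1 i / Wt A s z1 i' ≠ Wt A s z2 i / Wt A s z2 i' ∧
      tt * ‖Wt A s z1 i / Wt A s z1 i' - Wt A s z2 i / Wt A s z2 i'‖ ≤ 1
    · obtain ⟨z1, z2, h⟩ := hex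
      exact ⟨z1, z2, fun _ => h⟩
    · exact ⟨fun _ => 1, fun _ => 1, fun h => absurd h hex⟩
  choose Y1 Y2 hY using hch
  let Z1 : ℕ → ℕ → ℂ := fun p => if h : (Nat.unpair p).1 < k ∧ (Nat.unpair p).2 < k then
    ext1 1 (Y1 ⟨_, h.1⟩ ⟨_, h.2⟩) else fun _ => 1
  let Z2 : ℕ → ℕ → ℂ := fun p => if h : (Nat.unpair p).1 < k ∧ (Nat.unpair p).2 < k then
    ext1 1 (Y2 ⟨_, h.1⟩ ⟨_, h.2⟩) else fun _ => 1
  have hZ1 : ∀ i i' t : Fin k, Z1 (Nat.pair i i') t = Y1 i i' t := by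
    intro i i' t
    simp only [Z1, Nat.unpair_pair, i.2, i'.2, and_self, dif_pos]
    exact ext1_fin _ _ _
  have hZ2 : ∀ i i' t : Fin k, Z2 (Nat.pair i i') t = Y2 i i' t := by
    intro i i' t
    simp only [Z2, Nat.unpair_pair, i.2, i'.2, and_self, dif_pos]
    exact ext1_fin _ _ _
  refine ⟨n0, j, ext2 0 A, ext2 0 H, D, s, ext2 0 w, ext1 0 τ, ext1 1 z, ext1 1 z', Z1, Z2, ρ, d,
    hbase.toN hM hN, ?_, ?_, ?_⟩
  · rw [forall_fin]
    intro t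
    rw [ext1_fin]
    exact hz t
  · rw [forall_fin]
    intro t
    rw [ext1_fin]
    exact hz' t
  · unfold QNN
    rw [levF_ext l c ex A s j d ρ z (ext1 1 z) (ext1_fin 1 z),
      levF_ext l c ex A s j d ρ z' (ext1 1 z') (ext1_fin 1 z')]
    rcases hQ with h | ⟨h1, h2 | h2 | ⟨h2, h3⟩⟩
    · exact Or.inl h
    · exact Or.inr ⟨h1, Or.inl h2⟩
    · exact Or.inr ⟨h1, Or.inr (Or.inl h2)⟩
    · refine Or.inr ⟨h1, Or.inr (Or.inr ⟨h2, ?_⟩)⟩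
      rw [forall_fin]
      intro i
      rw [forall_fin]
      intro i'
      by_cases hii : ‖l i‖ = ‖l i'‖
      · by_cases hne : l i ^ n0 = l i' ^ n0
        · exact Or.inr (Or.inl hne)
        · right
          right
          obtain ⟨g1, g2, g3, g4, g5, g6⟩ := hY i i' (h3 i i' hii hne)
          rw [levF_ext l c ex A s j d ρ (Y1 i i') (Z1 (Nat.pair i i')) (hZ1 i i'),
            levF_ext l c ex A s j d ρ (Y2 i i') (Z2 (Nat.pair i i')) (hZ2 i i'),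
            wtN_ext A s (Y1 i i') (Z1 (Nat.pair i i')) (hZ1 i i') i,
            wtN_ext A s (Y1 i i') (Z1 (Nat.pair i i')) (hZ1 i i') i',
            wtN_ext A s (Y2 i i') (Z2 (Nat.pair i i')) (hZ2 i i') i,
            wtN_ext A s (Y2 i i') (Z2 (Nat.pair i i')) (hZ2 i i') i']
          refine ⟨?_, ?_, g3, g4, g5, g6⟩
          · rw [forall_fin]
            intro t
            rw [hZ1]
            exact g1 t
          · rw [forall_fin]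
            intro t
            rw [hZ2]
            exact g2 t
      · exact Or.inl hii

end Pool.Agent.DD7719.M
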