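import Pool.Agent.DD7719.CoordCase
import Pool.Agent.DD7719.HeightLemmas

/-! The normal vector of the span of all but the last compound vectors. -/

namespace Pool.Agent.DD7719.M

open Module Matrix NumberField

variable {K : Type*} [Field K] [NumberField K] {d p q : ℕ}

/-- the Plücker coordinates of the normal vector -/
noncomputable def wv (h : p + q = d) (y : Fin d → Fin d → 𝓞 K) (J : Fin q ↪o Fin d) : 𝓞 K :=
  compound q (Matrix.of y).adjugate J (topEmb h)

lemma wv_orth (h : p + q = d) (y : Fin d → Fin d → 𝓞 K) (f : Fin q ↪o Fin d)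
    (hf : f ≠ topEmb h) : ∑ J, compound q (Matrix.of y) f J * wv h y J = 0 := by
  have h1 : compound q (Matrix.of y) * compound q (Matrix.of y).adjugate =
      (Matrix.of y).det ^ q • (1 : Matrix _ _ (𝓞 K)) := by
    rw [← compound_mul, Matrix.mul_adjugate, compound_smul, compound_one]
  have h2 := congrFun (congrFun h1 f) (topEmb h)
  rw [Matrix.mul_apply, Matrix.smul_apply, Matrix.one_apply_ne hf, smul_zero] at h2
  exact h2

lemma exists_wv_ne_zero (h : p + q = d) (y : Fin d → Fin d → 𝓞 K)
    (hli : LinearIndependent K (fun i => toK (y i))) : ∃ J, wv h y J ≠ 0 := by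
  by_contra hcon
  push Not at hcon
  have hdet := det_of_ne_zero hli
  have h1 : compound q (Matrix.of y) * compound q (Matrix.of y).adjugate =
      (Matrix.of y).det ^ q • (1 : Matrix _ _ (𝓞 K)) := by
    rw [← compound_mul, Matrix.mul_adjugate, compound_smul, compound_one]
  have h2 := congrFun (congrFun h1 (topEmb h)) (topEmb h)
  rw [Matrix.mul_apply, Matrix.smul_apply, Matrix.one_apply_eq, smul_eq_mul, mul_one] at h2
  rw [Finset.sum_eq_zero (fun J _ => by
    have := hcon J
    rw [wv] at this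
    rw [this, mul_zero])] at h2
  exact pow_ne_zero q hdet h2.symm

lemma wv_bound (h : p + q = d) (y : Fin d → Fin d → 𝓞 K) (B : ℝ) (hB : 1 ≤ B)
    (σ : K →+* ℂ) (hy : ∀ i k, ‖σ (y i k : K)‖ ≤ B) (J : Fin q ↪o Fin d) :
    ‖σ (wv h y J : K)‖ ≤ q.factorial * (d.factorial * B ^ d) ^ q := by
  set f : 𝓞 K →+* ℂ := σ.comp (algebraMap (𝓞 K) K) with hf
  have h1 : σ (wv h y J : K) = compound q (((Matrix.of y).map f).adjugate) J (topEmb h) := by
    have h2 : ((Matrix.of y).map f).adjugate = (Matrix.of y).adjugate.map f := by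
      have := RingHom.map_adjugate f (Matrix.of y)
      rw [RingHom.mapMatrix_apply, RingHom.mapMatrix_apply] at this
      exact this.symm
    rw [h2, compound_map]
    rfl
  rw [h1]
  apply norm_minor_le
  apply norm_adj_le hB
  intro i j
  exact hy i j

/-- exchange pair, or the span of the first `p` vectors is a coordinate subspace -/
lemma wv_exchange (h : p + q = d) (y : Fin d → Fin d → 𝓞 K)
    (hli : LinearIndependent K (fun i => toK (y i))) :
    (∃ J₀ : Fin q ↪o Fin d, ∀ i : Fin d, (i : ℕ) < p → ∀ a, y i (J₀ a) = 0) ∨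
    ∃ (J₁ J₀ : Fin q ↪o Fin d) (i₀ : Fin q) (k : Fin d), k ≠ J₀ i₀ ∧ J₁ ≠ J₀ ∧
      wv h y J₁ ≠ 0 ∧ wv h y J₀ ≠ 0 ∧
      ∀ g : Fin d → K, (∏ i, g (J₁ i)) * g (J₀ i₀) = (∏ i, g (J₀ i)) * g k := by
  obtain ⟨J₀, hJ₀⟩ := exists_wv_ne_zero (p := p) (q := q) h y hli
  set U : Matrix (Fin d) (Fin q) K :=
    ((Matrix.of y).adjugate.submatrix id (topEmb h)).map (algebraMap (𝓞 K) K) with hU
  have hdetU : ∀ J : Fin q ↪o Fin d, (U.submatrix J id).det = (wv h y J : K) := by
    intro J
    rw [wv, compound, Matrix.of_apply, RingOfIntegers.coe_eq_algebraMap, RingHom.map_det]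
    rfl
  have h0 : (U.submatrix J₀ id).det ≠ 0 := by
    rw [hdetU]
    exact_mod_cast hJ₀
  rcases exists_exchange U J₀ h0 with hall | ⟨J₁, i₀, k, hk, hne, hdet, hg⟩
  · left
    refine ⟨J₀, fun i hi a => ?_⟩
    have h1 : ∀ j : Fin q, ∑ a, (y i (J₀ a) : K) * U (J₀ a) j = 0 := by
      intro j
      have h2 : (Matrix.of y * (Matrix.of y).adjugate) i (topEmb h j) = 0 := by
        rw [Matrix.mul_adjugate, Matrix.smul_apply, Matrix.one_apply_ne, smul_zero]
        intro he
        have := congrArg Fin.val he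
        rw [topEmb_val] at this
        omega
      rw [Matrix.mul_apply] at h2
      have h3 := congrArg (algebraMap (𝓞 K) K) h2
      rw [map_sum, map_zero] at h3
      rw [← h3]
      apply Fintype.sum_of_injective J₀ J₀.injective
      · intro k hk
        have h4 := congrFun (hall k hk) j
        simp only [hU, Matrix.map_apply, Matrix.submatrix_apply, id, Pi.zero_apply] at h4
        rw [map_mul, h4, mul_zero]
      · intro a
        rw [map_mul]
        rfl
    have h2 : Matrix.vecMul (fun a => (y i (J₀ a) : K)) (U.submatrix J₀ id) = 0 := by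
      funext j
      exact h1 j
    have h3 : (fun a => (y i (J₀ a) : K)) = 0 := by
      by_contra hne
      exact h0 (Matrix.exists_vecMul_eq_zero_iff.mp ⟨_, hne, h2⟩)
    have h4 := congrFun h3 a
    simp only [Pi.zero_apply] at h4
    exact_mod_cast h4
  · right
    refine ⟨J₁, J₀, i₀, k, hk, hne, ?_, hJ₀, hg⟩
    rw [hdetU] at hdet
    exact_mod_cast hdet

end Pool.Agent.DD7719.M
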