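import Pool.Agent.DD7719.Reduced

/-! Pivoting (Davenport's lemma, linear algebra part). -/

namespace Pool.Agent.DD7719.M

open Matrix

/-- Row pivoting: all leading principal minors are bounded from below. -/
theorem exists_pivot (c : ℝ) (hc : 1 ≤ c) : ∀ (n : ℕ) (M : Matrix (Fin n) (Fin n) ℂ)
    (_ : ∀ i j, ‖M i j‖ ≤ c) (δ : ℝ) (_ : 0 < δ) (_ : δ ≤ ‖M.det‖),
    ∃ π : Equiv.Perm (Fin n), ∀ (j : ℕ) (h : j ≤ n),
      min δ 1 / (n.factorial * c ^ n) ≤
        ‖(M.submatrix (fun i => π (Fin.castLE h i)) (Fin.castLE h)).det‖ := by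
  intro n
  induction n with
  | zero =>
    intro M hM δ hδ hdet
    refine ⟨1, fun j h => ?_⟩
    obtain rfl : j = 0 := by omega
    simp
  | succ n ih =>
    intro M hM δ hδ hdet
    have hfac : (0 : ℝ) < n.factorial := by exact_mod_cast n.factorial_pos
    have hc0 : 0 < c := by linarith
    -- choose the pivot row
    have h1 : ∃ i : Fin (n + 1), δ / ((n + 1) * c) ≤
        ‖(M.submatrix i.succAbove (Fin.last n).succAbove).det‖ := by
      by_contra hcon
      push Not at hcon
      rw [Matrix.det_succ_column M (Fin.last n)] at hdet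
      have h2 : ‖∑ i : Fin (n + 1), (-1) ^ ((i : ℕ) + (Fin.last n : ℕ)) * M i (Fin.last n) *
          (M.submatrix i.succAbove (Fin.last n).succAbove).det‖ <
          ∑ _i : Fin (n + 1), δ / (n + 1) := by
        refine lt_of_le_of_lt (norm_sum_le _ _) ?_
        apply Finset.sum_lt_sum_of_nonempty ⟨0, Finset.mem_univ _⟩
        intro i _
        rw [norm_mul, norm_mul]
        have h3 : ‖((-1 : ℂ)) ^ ((i : ℕ) + (Fin.last n : ℕ))‖ = 1 := by simp
        rw [h3, one_mul]
        by_cases h4 : ‖M i (Fin.last n)‖ = 0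
        · rw [h4, zero_mul]
          positivity
        · have h5 : 0 < ‖M i (Fin.last n)‖ := lt_of_le_of_ne (norm_nonneg _) (Ne.symm h4)
          calc ‖M i (Fin.last n)‖ * ‖(M.submatrix i.succAbove (Fin.last n).succAbove).det‖
              < ‖M i (Fin.last n)‖ * (δ / ((n + 1) * c)) := mul_lt_mul_of_pos_left (hcon i) h5
            _ ≤ c * (δ / ((n + 1) * c)) := by
                apply mul_le_mul_of_nonneg_right (hM _ _)
                positivity
            _ = δ / (n + 1) := by field_simp
      rw [Finset.sum_const, Finset.card_univ, Fintype.card_fin, nsmul_eq_mul] at h2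
      rw [Nat.cast_add, Nat.cast_one] at h2
      rw [mul_div_cancel₀ _ (by positivity : (n : ℝ) + 1 ≠ 0)] at h2
      linarith
    obtain ⟨i, hi⟩ := h1
    obtain ⟨π', hπ'⟩ := ih (M.submatrix i.succAbove (Fin.last n).succAbove)
      (fun a b => hM _ _) (δ / ((n + 1) * c)) (by positivity) hi
    let π : Equiv.Perm (Fin (n + 1)) :=
      (finSuccEquivLast.trans (Equiv.optionCongr π')).trans (finSuccEquiv' i).symm
    have hπ : ∀ j : Fin n, π (Fin.castSucc j) = i.succAbove (π' j) := by
      intro j
      simp [π]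
    refine ⟨π, fun j h => ?_⟩
    by_cases hj : j = n + 1
    · subst hj
      have h2 : (M.submatrix (fun i => π (Fin.castLE h i)) (Fin.castLE h)) = M.submatrix π id := by
        ext a b
        simp
      rw [h2]
      have h3 : ‖(M.submatrix π id).det‖ = ‖M.det‖ := by
        rw [Matrix.det_permute, norm_mul]
        have : ‖((Equiv.Perm.sign π : ℤ) : ℂ)‖ = 1 := by
          rcases Int.units_eq_one_or (Equiv.Perm.sign π) with h | h <;> simp [h]
        rw [this, one_mul]
      rw [h3]
      refine le_trans ?_ hdet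
      have h4 : (1 : ℝ) ≤ (n + 1).factorial * c ^ (n + 1) := by
        have h5 : (1 : ℝ) ≤ (n + 1).factorial := by exact_mod_cast (n + 1).factorial_pos
        have h6 : (1 : ℝ) ≤ c ^ (n + 1) := one_le_pow₀ hc
        nlinarith
      calc min δ 1 / ((n + 1).factorial * c ^ (n + 1)) ≤ min δ 1 := by
            apply div_le_self _ h4
            positivity
        _ ≤ δ := min_le_left _ _
    · have hj' : j ≤ n := by omega
      have h2 := hπ' j hj'
      have h3 : (M.submatrix (fun i => π (Fin.castLE h i)) (Fin.castLE h)) =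
          ((M.submatrix i.succAbove (Fin.last n).succAbove).submatrix
            (fun i => π' (Fin.castLE hj' i)) (Fin.castLE hj')) := by
        ext a b
        simp only [Matrix.submatrix_apply, Fin.succAbove_last]
        have e1 : Fin.castLE h a = Fin.castSucc (Fin.castLE hj' a) := rfl
        have e2 : Fin.castLE h b = Fin.castSucc (Fin.castLE hj' b) := rfl
        rw [e1, e2, hπ]
      rw [h3]
      refine le_trans ?_ h2
      rw [Nat.factorial_succ, pow_succ]
      push_cast
      rw [div_le_div_iff₀ (by positivity) (by positivity)]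
      have h4 : min δ 1 ≤ min (δ / ((n + 1) * c)) 1 * ((n + 1) * c) := by
        rw [min_mul_of_nonneg _ _ (by positivity)]
        apply le_min
        · rw [div_mul_cancel₀ _ (by positivity)]
          exact min_le_left _ _
        · rw [one_mul]
          have : (1 : ℝ) ≤ (n + 1) * c := by nlinarith [(Nat.cast_nonneg n : (0 : ℝ) ≤ n)]
          exact (min_le_right _ _).trans this
      calc min δ 1 * (n.factorial * c ^ n)
          ≤ (min (δ / ((n + 1) * c)) 1 * ((n + 1) * c)) * (n.factorial * c ^ n) := by gcongr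
        _ = _ := by ring

/-- Cramer bound. -/
theorem cramer_bound {n : ℕ} (M : Matrix (Fin n) (Fin n) ℂ) (c δ R : ℝ) (hc : 1 ≤ c) (hδ : 0 < δ)
    (hM : ∀ i j, ‖M i j‖ ≤ c) (hdet : δ ≤ ‖M.det‖) (x : Fin n → ℂ)
    (hx : ∀ j, ‖M.mulVec x j‖ ≤ R) (l : Fin n) :
    ‖x l‖ ≤ n * (n.factorial * c ^ n) / δ * R := by
  have h1 : M.adjugate.mulVec (M.mulVec x) = M.det • x := by
    rw [Matrix.mulVec_mulVec, Matrix.adjugate_mul, Matrix.smul_mulVec, Matrix.one_mulVec]
  have h2 := congrFun h1 l
  rw [Pi.smul_apply, smul_eq_mul] at h2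
  have hadj : ∀ i j, ‖M.adjugate i j‖ ≤ n.factorial * c ^ n := by
    intro i j
    rw [Matrix.adjugate_apply]
    apply norm_det_le
    intro a b
    by_cases h : a = j
    · subst h
      rw [Matrix.updateRow_self]
      by_cases h' : b = i
      · subst h'
        simpa using hc
      · rw [Pi.single_eq_of_ne h']
        simp
        linarith
    · rw [Matrix.updateRow_ne h]
      exact hM _ _
  have h3 : ‖M.det‖ * ‖x l‖ ≤ n * (n.factorial * c ^ n) * R := by
    rw [← norm_mul, ← h2, Matrix.mulVec, dotProduct]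
    refine (norm_sum_le _ _).trans ?_
    calc ∑ i, ‖M.adjugate l i * M.mulVec x i‖ ≤ ∑ _i : Fin n, (n.factorial * c ^ n) * R := by
          apply Finset.sum_le_sum
          intro i _
          rw [norm_mul]
          exact mul_le_mul (hadj _ _) (hx _) (norm_nonneg _) (by positivity)
      _ = _ := by
          rw [Finset.sum_const, Finset.card_univ, Fintype.card_fin, nsmul_eq_mul]
          ring
  have h4 : δ * ‖x l‖ ≤ n * (n.factorial * c ^ n) * R :=
    (mul_le_mul_of_nonneg_right hdet (norm_nonneg _)).trans h3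
  rw [div_mul_eq_mul_div, le_div_iff₀ hδ]
  linarith

end Pool.Agent.DD7719.M
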