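import Pool.Agent.DD7719.PlaneE

/-! **Non-negative Laurent polynomials on the two-dimensional torus with at most nine terms.**
Either some quotient of two of the terms takes only finitely many values on the zero set, or the
polynomial is the square of `2 Re (al * u) + 2 Re (be * v)`. -/

set_option autoImplicit false

namespace Pool.Agent.DD7719.Plane

open Finsupp

noncomputable section

/-- the zeros on the unit torus -/
def Z (F : L) : Set (ℂˣ × ℂˣ) :=
  {z | ‖(z.1 : ℂ)‖ = 1 ∧ ‖(z.2 : ℂ)‖ = 1 ∧ ev z.1 z.2 F = 0}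

/-- some quotient of two terms takes finitely many values on the zero set -/
def Narrow (F : L) : Prop :=
  ∃ m m' : ℤ × ℤ, m ≠ m' ∧ F.coeff m ≠ 0 ∧ F.coeff m' ≠ 0 ∧ (im (m - m') (Z F)).Finite

theorem narrow_or_exceptional {F : L} (hsym : Sym F) (h0 : F.coeff 0 ≠ 0)
    (hcard : F.coeff.support.card ≤ 9)
    (hpos : ∀ x y : ℂˣ, ‖(x : ℂ)‖ = 1 → ‖(y : ℂ)‖ = 1 → 0 ≤ (ev x y F).re)
    (hne : ∃ m, m ≠ 0 ∧ F.coeff m ≠ 0) : Narrow F ∨ Exceptional F := by
  by_contra hcon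
  push Not at hcon
  obtain ⟨hnar, hexc⟩ := hcon
  have hinf : ∀ m m', m ≠ m' → F.coeff m ≠ 0 → F.coeff m' ≠ 0 → (im (m - m') (Z F)).Infinite :=
    fun m m' h1 h2 h3 h4 => hnar ⟨m, m', h1, h2, h3, h4⟩
  have hF0 : F ≠ 0 := by
    rintro rfl
    simp at h0
  have h0re : 0 < (F.coeff 0).re := by
    have h1 := mean_nonneg hpos
    rcases h1.lt_or_eq with h | h
    · exact h
    · exfalso
      apply h0
      apply Complex.ext
      · exact h.symm
      · have := hsym 0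
        rw [neg_zero] at this
        have h2 := congrArg Complex.im this
        rw [Complex.conj_im] at h2
        simp only [Complex.zero_im]
        linarith
  have hZ : ∀ z ∈ Z F, ev z.1 z.2 F = 0 := fun z hz => hz.2.2
  have hZD : ∀ z ∈ Z F, ∀ u, ev z.1 z.2 (D u F) = 0 := fun z hz u =>
    ev_D_eq_zero hsym hpos hz.1 hz.2.1 hz.2.2 u
  -- a good divisor
  obtain ⟨m, hm0, hm⟩ := hne
  obtain ⟨P, hP, hPinf⟩ := exists_good hF0 (m - 0) (Z F) hZ hZD (hinf m 0 hm0 hm h0)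
  have hP0 : P ≠ 0 := by
    rintro rfl
    exact hF0 (zero_dvd_iff.1 hP.1)
  obtain ⟨a, b, hab, ha, hb⟩ : ∃ a b, a ≠ b ∧ P.coeff a ≠ 0 ∧ P.coeff b ≠ 0 := by
    obtain ⟨_, z, hz, -⟩ := hPinf.nonempty
    obtain ⟨a, ha⟩ := exists_coeff_ne hP0
    by_contra hcon
    push Not at hcon
    have h1 := hz.2
    rw [ev_apply, Finset.sum_eq_single a] at h1
    · exact mul_ne_zero ha (chi_ne_zero _ _ _) h1
    · intro b hb hba
      rw [hcon a b (fun h => hba h.symm) ha, zero_mul]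
    · intro h
      rw [Finsupp.notMem_support_iff.1 h, zero_mul]
  obtain ⟨w, d1, m1, n1, hw, hd1, hmn, hm1, hn1, hm1', hn1'⟩ := exists_edge hab ha hb
  by_cases hpure : ∃ a, Pure w a P
  · -- a second divisor
    obtain ⟨m2, n2, hmn2, hm2, hn2, hdot⟩ := top_three hw hF0 hP hd1 hmn hm1 hn1 hm1' hn1'
    obtain ⟨P2, hP2, hP2inf⟩ := exists_good hF0 (m2 - n2) (Z F) hZ hZD (hinf m2 n2 hmn2 hm2 hn2)
    have hP20 : P2 ≠ 0 := by
      rintro rfl
      exact hF0 (zero_dvd_iff.1 hP2.1)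
    refine hexc (exceptional_of_good hw hsym h0re hcard hP hd1 hmn hm1 hn1 hm1' hn1' hP2 ?_)
    rintro ⟨a2, ha2⟩
    refine hP2inf ((pure_finite hw ha2 hP20 (n := m2 - n2) (by rw [dot_sub]; omega)).subset ?_)
    rintro _ ⟨z, hz, rfl⟩
    exact ⟨z.1, z.2, hz.2, rfl⟩
  · exact hexc (exceptional_of_good hw hsym h0re hcard hP hd1 hmn hm1 hn1 hm1' hn1' hP hpure)

/-- the exceptional polynomials are squares on the torus -/
theorem Exceptional.eq_sq {F : L} (hsym : Sym F) {a b : ℤ × ℤ} {al be : ℂ}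
    (hdet : a.1 * b.2 - a.2 * b.1 ≠ 0)
    (h1 : F.coeff (a + b) = al ^ 2) (h2 : F.coeff (a - b) = be ^ 2)
    (h3 : F.coeff a = 2 * al * be) (h4 : F.coeff b = 2 * al * (starRingEnd ℂ) be)
    (h5 : F.coeff 0 = 2 * (al * (starRingEnd ℂ) al) + 2 * (be * (starRingEnd ℂ) be))
    (h6 : ∀ m, F.coeff m ≠ 0 → m = 0 ∨ m = a ∨ m = -a ∨ m = b ∨ m = -b ∨ m = a + b ∨
      m = -(a + b) ∨ m = a - b ∨ m = -(a - b))
    {x y u v : ℂˣ} (hx : ‖(x : ℂ)‖ = 1) (hy : ‖(y : ℂ)‖ = 1) (hu : (u : ℂ) ^ 2 = chi x y (a + b))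
    (hv : (v : ℂ) ^ 2 = chi x y (a - b)) (huv : (u : ℂ) * v = chi x y a) :
    ev x y F = (((2 * (al * u).re + 2 * (be * v).re) ^ 2 : ℝ) : ℂ) := by
  classical
  -- the nine terms are distinct
  obtain ⟨a1, a2⟩ := a
  obtain ⟨b1, b2⟩ := b
  simp only at hdet
  have hz : ∀ i j : ℤ, i * a1 + j * b1 = 0 → i * a2 + j * b2 = 0 → i = 0 ∧ j = 0 := by
    intro i j e1 e2
    constructor
    · have : i * (a1 * b2 - a2 * b1) = 0 := by linear_combination b2 * e1 - b1 * e2
      exact (mul_eq_zero.1 this).resolve_right hdet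
    · have : j * (a1 * b2 - a2 * b1) = 0 := by linear_combination a1 * e2 - a2 * e1
      exact (mul_eq_zero.1 this).resolve_right hdet
  have hinj : ∀ i j i' j' : ℤ, ((i * a1 + j * b1, i * a2 + j * b2) : ℤ × ℤ) =
      (i' * a1 + j' * b1, i' * a2 + j' * b2) → i = i' ∧ j = j' := by
    intro i j i' j' h
    have e1 := congrArg Prod.fst h
    have e2 := congrArg Prod.snd h
    simp only at e1 e2
    have := hz (i - i') (j - j') (by linarith) (by linarith)
    omega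
  set v9 : Finset (ℤ × ℤ) := {(0, 0), (1, 0), (-1, 0), (0, 1), (0, -1), (1, 1), (-1, -1),
    (1, -1), (-1, 1)} with hv9
  let φ : ℤ × ℤ → ℤ × ℤ := fun k => (k.1 * a1 + k.2 * b1, k.1 * a2 + k.2 * b2)
  have hφ : Function.Injective φ := fun k k' h => by
    have := hinj k.1 k.2 k'.1 k'.2 h
    ext
    · exact this.1
    · exact this.2
  have hsub : F.coeff.support ⊆ v9.map ⟨φ, hφ⟩ := by
    intro m hm
    rw [Finsupp.mem_support_iff] at hm
    rw [Finset.mem_map]
    rcases h6 m hm with h | h | h | h | h | h | h | h | h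
    · exact ⟨(0, 0), by simp [hv9], by simp [φ, h]⟩
    · exact ⟨(1, 0), by simp [hv9], by simp [φ, h]⟩
    · exact ⟨(-1, 0), by simp [hv9], by simp [φ, h]⟩
    · exact ⟨(0, 1), by simp [hv9], by simp [φ, h]⟩
    · exact ⟨(0, -1), by simp [hv9], by simp [φ, h]⟩
    · exact ⟨(1, 1), by simp [hv9], by simp [φ, h]⟩
    · exact ⟨(-1, -1), by simp [hv9], by simp [φ, h]; constructor <;> ring⟩
    · exact ⟨(1, -1), by simp [hv9], by simp [φ, h]; constructor <;> ring⟩
    · exact ⟨(-1, 1), by simp [hv9], by simp [φ, h]; constructor <;> ring⟩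
  have hsum : ev x y F = ∑ k ∈ v9, F.coeff (φ k) * chi x y (φ k) := by
    rw [ev_apply, Finset.sum_subset hsub fun m _ hm => by
      rw [Finsupp.notMem_support_iff.1 hm, zero_mul], Finset.sum_map]
    rfl
  have hc : ∀ k, F.coeff (φ (-k)) = (starRingEnd ℂ) (F.coeff (φ k)) := by
    intro k
    rw [← hsym]
    congr 1
    simp only [φ, Prod.fst_neg, Prod.snd_neg, Prod.neg_mk]
    ext
    · simp; ring
    · simp; ring
  have hx' : ∀ k, chi x y (φ (-k)) = (starRingEnd ℂ) (chi x y (φ k)) := by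
    intro k
    rw [conj_chi hx hy]
    congr 1
    simp only [φ, Prod.fst_neg, Prod.snd_neg, Prod.neg_mk]
    ext
    · simp; ring
    · simp; ring
  have p00 : φ (0, 0) = 0 := by simp [φ]
  have p10 : φ (1, 0) = (a1, a2) := by simp [φ]
  have p01 : φ (0, 1) = (b1, b2) := by simp [φ]
  have p11 : φ (1, 1) = (a1, a2) + (b1, b2) := by simp [φ]
  have p1m : φ (1, -1) = (a1, a2) - (b1, b2) := by
    simp [φ]
    constructor <;> ring
  have n10 : ((-1, 0) : ℤ × ℤ) = -(1, 0) := by simp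
  have n01 : ((0, -1) : ℤ × ℤ) = -(0, 1) := by simp
  have n11 : ((-1, -1) : ℤ × ℤ) = -(1, 1) := by simp
  have n1m : ((-1, 1) : ℤ × ℤ) = -(1, -1) := by simp
  have hexp : ∑ k ∈ v9, F.coeff (φ k) * chi x y (φ k) =
      F.coeff (φ (0, 0)) * chi x y (φ (0, 0)) +
      (F.coeff (φ (1, 0)) * chi x y (φ (1, 0)) +
      (F.coeff (φ (-1, 0)) * chi x y (φ (-1, 0)) +
      (F.coeff (φ (0, 1)) * chi x y (φ (0, 1)) +
      (F.coeff (φ (0, -1)) * chi x y (φ (0, -1)) +
      (F.coeff (φ (1, 1)) * chi x y (φ (1, 1)) +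
      (F.coeff (φ (-1, -1)) * chi x y (φ (-1, -1)) +
      (F.coeff (φ (1, -1)) * chi x y (φ (1, -1)) +
      F.coeff (φ (-1, 1)) * chi x y (φ (-1, 1))))))))) := by
    rw [hv9, Finset.sum_insert (by decide), Finset.sum_insert (by decide),
      Finset.sum_insert (by decide), Finset.sum_insert (by decide), Finset.sum_insert (by decide),
      Finset.sum_insert (by decide), Finset.sum_insert (by decide), Finset.sum_pair (by decide)]
  have hun : ∀ {t : ℂˣ}, ‖(t : ℂ) ^ 2‖ = 1 → (t : ℂ) * (starRingEnd ℂ) (t : ℂ) = 1 := by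
    intro t ht
    rw [norm_pow] at ht
    have : ‖(t : ℂ)‖ = 1 := by
      nlinarith [norm_nonneg (t : ℂ)]
    rw [Complex.mul_conj, Complex.normSq_eq_norm_sq, this]
    simp
  have hu1 : (u : ℂ) * (starRingEnd ℂ) (u : ℂ) = 1 := hun (by rw [hu]; exact norm_chi hx hy _)
  have hv1 : (v : ℂ) * (starRingEnd ℂ) (v : ℂ) = 1 := hun (by rw [hv]; exact norm_chi hx hy _)
  have hb' : chi x y (b1, b2) = u * (starRingEnd ℂ) (v : ℂ) := by
    have e1 : chi x y (a1, a2) * chi x y (b1, b2) = (u : ℂ) ^ 2 := by rw [← chi_add, hu]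
    rw [← huv] at e1
    have e2 : (u : ℂ) * (v : ℂ) * (chi x y (b1, b2) - u * (starRingEnd ℂ) (v : ℂ)) = 0 := by
      linear_combination e1 - (u : ℂ) ^ 2 * hv1
    exact sub_eq_zero.1 ((mul_eq_zero.1 e2).resolve_left (mul_ne_zero u.ne_zero v.ne_zero))
  rw [hsum, hexp, n10, n01, n11, n1m, hc, hc, hc, hc, hx', hx', hx', hx', p00, p10, p01, p11, p1m,
    h1, h2, h3, h4, h5, ← hu, ← hv, ← huv, hb', chi_zero]
  have hre : ∀ z : ℂ, ((2 * z.re : ℝ) : ℂ) = z + (starRingEnd ℂ) z := by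
    intro z
    rw [Complex.add_conj]
  push_cast
  have r1 := hre (al * u)
  have r2 := hre (be * v)
  push_cast at r1 r2
  rw [r1, r2]
  simp only [map_mul, map_pow, map_ofNat, Complex.conj_conj]
  linear_combination (-2 * al * (starRingEnd ℂ) al) * hu1 - 2 * be * (starRingEnd ℂ) be * hv1

end

end Pool.Agent.DD7719.Plane
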