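import Mathlib

/-! Laurent polynomials in two variables: weights, top components, derivations, evaluation. -/

set_option autoImplicit false

namespace Pool.Agent.DD7719.Plane

open Finsupp

noncomputable section

/-- Laurent polynomials in two variables. -/
abbrev L := AddMonoidAlgebra ℂ (ℤ × ℤ)

/-- the standard pairing -/
def dot (w m : ℤ × ℤ) : ℤ := w.1 * m.1 + w.2 * m.2

lemma dot_add (w m n : ℤ × ℤ) : dot w (m + n) = dot w m + dot w n := by
  simp [dot]; ring

lemma dot_neg (w m : ℤ × ℤ) : dot w (-m) = -dot w m := by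
  simp [dot]; ring

lemma neg_dot (w m : ℤ × ℤ) : dot (-w) m = -dot w m := by
  simp [dot]; ring

lemma dot_sub (w m n : ℤ × ℤ) : dot w (m - n) = dot w m - dot w n := by
  simp [dot]; ring

@[simp] lemma dot_zero (w : ℤ × ℤ) : dot w 0 = 0 := by simp [dot]

/-- the rotated vector -/
def rot (w : ℤ × ℤ) : ℤ × ℤ := (-w.2, w.1)

lemma eq_of_dots {w m n : ℤ × ℤ} (hw : w ≠ 0) (h1 : dot w m = dot w n)
    (h2 : dot (rot w) m = dot (rot w) n) : m = n := by
  obtain ⟨w1, w2⟩ := w
  obtain ⟨m1, m2⟩ := m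
  obtain ⟨n1, n2⟩ := n
  simp only [dot, rot] at h1 h2
  have hN : w1 ^ 2 + w2 ^ 2 ≠ 0 := by
    intro h
    apply hw
    have h3 : w1 = 0 := by nlinarith [sq_nonneg w1, sq_nonneg w2]
    have h4 : w2 = 0 := by nlinarith [sq_nonneg w1, sq_nonneg w2]
    simp [h3, h4]
  have h3 : (w1 ^ 2 + w2 ^ 2) * (m1 - n1) = 0 := by linear_combination w1 * h1 - w2 * h2
  have h4 : (w1 ^ 2 + w2 ^ 2) * (m2 - n2) = 0 := by linear_combination w2 * h1 + w1 * h2
  rcases mul_eq_zero.1 h3 with h | h
  · exact absurd h hN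
  rcases mul_eq_zero.1 h4 with h' | h'
  · exact absurd h' hN
  simp only [Prod.mk.injEq]
  constructor <;> omega

/-- the component of weight `d` -/
def comp (w : ℤ × ℤ) (d : ℤ) (f : L) : L := .ofCoeff (f.coeff.filter fun m => dot w m = d)

lemma comp_coeff (w : ℤ × ℤ) (d : ℤ) (f : L) (m : ℤ × ℤ) :
    (comp w d f).coeff m = if dot w m = d then f.coeff m else 0 := by
  simp [comp, Finsupp.filter_apply]

/-- all weights are at most `a` -/
def Le (w : ℤ × ℤ) (a : ℤ) (f : L) : Prop := ∀ m, f.coeff m ≠ 0 → dot w m ≤ a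

/-- all weights are equal to `a` -/
def Pure (w : ℤ × ℤ) (a : ℤ) (f : L) : Prop := ∀ m, f.coeff m ≠ 0 → dot w m = a

lemma Pure.le {w : ℤ × ℤ} {a : ℤ} {f : L} (h : Pure w a f) : Le w a f := fun m hm => (h m hm).le

lemma comp_pure (w : ℤ × ℤ) (d : ℤ) (f : L) : Pure w d (comp w d f) := by
  intro m hm
  rw [comp_coeff] at hm
  by_contra h
  simp [h] at hm

lemma Pure.comp_eq {w : ℤ × ℤ} {a : ℤ} {f : L} (h : Pure w a f) : comp w a f = f := by
  ext m
  rw [comp_coeff]
  split_ifs with h1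
  · rfl
  · by_contra h2
    exact h1 (h m (fun h3 => h2 h3.symm))

lemma Pure.comp_eq_zero {w : ℤ × ℤ} {a b : ℤ} {f : L} (h : Pure w a f) (hab : a ≠ b) :
    comp w b f = 0 := by
  ext m
  rw [comp_coeff]
  split_ifs with h1
  · by_contra h2
    exact hab ((h m h2).symm.trans h1)
  · rfl

lemma Le.comp_eq_zero {w : ℤ × ℤ} {a b : ℤ} {f : L} (h : Le w a f) (hab : a < b) :
    comp w b f = 0 := by
  ext m
  rw [comp_coeff]
  split_ifs with h1
  · by_contra h2
    have := h m h2
    omega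
  · rfl

lemma comp_add (w : ℤ × ℤ) (d : ℤ) (f g : L) : comp w d (f + g) = comp w d f + comp w d g := by
  ext m
  simp only [comp_coeff, AddMonoidAlgebra.coeff_add, Finsupp.add_apply]
  split_ifs <;> simp

lemma comp_sub (w : ℤ × ℤ) (d : ℤ) (f g : L) : comp w d (f - g) = comp w d f - comp w d g := by
  ext m
  simp only [comp_coeff, AddMonoidAlgebra.coeff_sub, Finsupp.sub_apply]
  split_ifs <;> simp

/-- coefficients of a product, as a sum over the support of the first factor -/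
lemma mul_coeff (f g : L) (m : ℤ × ℤ) :
    (f * g).coeff m = ∑ h ∈ f.coeff.support, f.coeff h * g.coeff (m - h) := by
  rw [AddMonoidAlgebra.coeff_mul_apply_left, Finsupp.sum]
  refine Finset.sum_congr rfl fun h _ => ?_
  rw [show -h + m = m - h by abel]

lemma mul_coeff' (f g : L) (m : ℤ × ℤ) {s : Finset (ℤ × ℤ)} (hs : f.coeff.support ⊆ s) :
    (f * g).coeff m = ∑ h ∈ s, f.coeff h * g.coeff (m - h) := by
  rw [mul_coeff]
  refine Finset.sum_subset hs fun h _ hh => ?_
  rw [Finsupp.notMem_support_iff.1 hh, zero_mul]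

lemma exists_of_mul_coeff {f g : L} {m : ℤ × ℤ} (h : (f * g).coeff m ≠ 0) :
    ∃ x y, f.coeff x ≠ 0 ∧ g.coeff y ≠ 0 ∧ x + y = m := by
  rw [mul_coeff] at h
  obtain ⟨x, hx, hx2⟩ := Finset.exists_ne_zero_of_sum_ne_zero h
  exact ⟨x, m - x, left_ne_zero_of_mul hx2, right_ne_zero_of_mul hx2, by abel⟩

lemma Le.mul {w : ℤ × ℤ} {a b : ℤ} {f g : L} (hf : Le w a f) (hg : Le w b g) :
    Le w (a + b) (f * g) := by
  intro m hm
  obtain ⟨x, y, hx, hy, rfl⟩ := exists_of_mul_coeff hm
  rw [dot_add]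
  exact add_le_add (hf x hx) (hg y hy)

lemma Pure.mul {w : ℤ × ℤ} {a b : ℤ} {f g : L} (hf : Pure w a f) (hg : Pure w b g) :
    Pure w (a + b) (f * g) := by
  intro m hm
  obtain ⟨x, y, hx, hy, rfl⟩ := exists_of_mul_coeff hm
  rw [dot_add, hf x hx, hg y hy]

lemma Pure.add {w : ℤ × ℤ} {a : ℤ} {f g : L} (hf : Pure w a f) (hg : Pure w a g) :
    Pure w a (f + g) := by
  intro m hm
  by_contra h
  have h1 : f.coeff m = 0 := by
    by_contra h1
    exact h (hf m h1)
  have h2 : g.coeff m = 0 := by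
    by_contra h1
    exact h (hg m h1)
  simp [h1, h2] at hm

lemma Le.sub {w : ℤ × ℤ} {a : ℤ} {f g : L} (hf : Le w a f) (hg : Le w a g) :
    Le w a (f - g) := by
  intro m hm
  by_contra h
  have h1 : f.coeff m = 0 := by
    by_contra h1
    exact h (hf m h1)
  have h2 : g.coeff m = 0 := by
    by_contra h1
    exact h (hg m h1)
  simp [h1, h2] at hm

/-- top components are multiplicative -/
theorem comp_mul {w : ℤ × ℤ} {a b : ℤ} {f g : L} (hf : Le w a f) (hg : Le w b g) :
    comp w (a + b) (f * g) = comp w a f * comp w b g := by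
  ext m
  have hs : (comp w a f).coeff.support ⊆ f.coeff.support := by
    intro x hx
    rw [Finsupp.mem_support_iff, comp_coeff] at hx
    rw [Finsupp.mem_support_iff]
    intro h
    simp [h] at hx
  rw [mul_coeff' _ _ _ hs, comp_coeff, mul_coeff]
  split_ifs with hm
  · refine Finset.sum_congr rfl fun h hh => ?_
    rw [comp_coeff, comp_coeff]
    by_cases h0 : g.coeff (m - h) = 0
    · simp [h0]
    have h1 := hf h (Finsupp.mem_support_iff.1 hh)
    have h2 := hg _ h0
    rw [dot_sub] at h2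
    have h3 : dot w h = a := by omega
    have h4 : dot w (m - h) = b := by rw [dot_sub]; omega
    simp [h3, h4]
  · symm
    refine Finset.sum_eq_zero fun h _ => ?_
    rw [comp_coeff, comp_coeff, dot_sub]
    split_ifs with h1 h2 <;> first | (exfalso; omega) | simp

/-- every non-zero element has a top weight -/
theorem exists_top (w : ℤ × ℤ) {f : L} (hf : f ≠ 0) : ∃ a, Le w a f ∧ comp w a f ≠ 0 := by
  have hne : f.coeff.support.Nonempty := by
    rw [Finsupp.support_nonempty_iff]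
    exact fun h => hf (AddMonoidAlgebra.coeff_eq_zero.1 h)
  obtain ⟨m, hm, hmax⟩ := f.coeff.support.exists_max_image (dot w) hne
  refine ⟨dot w m, fun n hn => hmax n (Finsupp.mem_support_iff.2 hn), fun h => ?_⟩
  have h1 := congrArg (fun g : L => g.coeff m) h
  simp only [comp_coeff, if_pos] at h1
  exact Finsupp.mem_support_iff.1 hm h1

lemma exists_coeff_ne {f : L} (hf : f ≠ 0) : ∃ m, f.coeff m ≠ 0 := by
  by_contra h
  push Not at h
  exact hf (by ext m; simpa using h m)

lemma top_unique {w : ℤ × ℤ} {a b : ℤ} {f : L} (h1 : Le w a f) (h2 : comp w a f ≠ 0)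
    (h3 : Le w b f) (h4 : comp w b f ≠ 0) : a = b := by
  by_contra h
  rcases lt_or_gt_of_ne h with h | h
  · exact h4 (h1.comp_eq_zero h)
  · exact h2 (h3.comp_eq_zero h)

/-- a bound for the weights of a quotient -/
theorem Le.of_mul {w : ℤ × ℤ} {a b : ℤ} {f g : L} (hf : Le w a f) (hf0 : comp w a f ≠ 0)
    (h : Le w (a + b) (f * g)) : Le w b g := by
  by_cases hg : g = 0
  · intro m hm
    simp [hg] at hm
  obtain ⟨c, hc, hc0⟩ := exists_top w hg
  have h1 := comp_mul hf hc
  have h2 : comp w a f * comp w c g ≠ 0 := mul_ne_zero hf0 hc0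
  have h3 : c ≤ b := by
    by_contra h3
    push Not at h3
    rw [← h1] at h2
    exact h2 (h.comp_eq_zero (by omega))
  exact fun m hm => (hc m hm).trans h3

/-- a divisor of a non-zero pure element is pure -/
theorem Pure.of_dvd {w : ℤ × ℤ} {c : ℤ} {f P : L} (hf : Pure w c f) (hf0 : f ≠ 0) (h : P ∣ f) :
    ∃ a, Pure w a P := by
  obtain ⟨Q, rfl⟩ := h
  have hP : P ≠ 0 := left_ne_zero_of_mul hf0
  have hQ : Q ≠ 0 := right_ne_zero_of_mul hf0
  obtain ⟨a, ha, ha0⟩ := exists_top w hP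
  obtain ⟨a', ha', ha0'⟩ := exists_top (-w) hP
  obtain ⟨b, hb, hb0⟩ := exists_top w hQ
  obtain ⟨b', hb', hb0'⟩ := exists_top (-w) hQ
  have h1 : comp w (a + b) (P * Q) ≠ 0 := by
    rw [comp_mul ha hb]
    exact mul_ne_zero ha0 hb0
  have h2 : comp (-w) (a' + b') (P * Q) ≠ 0 := by
    rw [comp_mul ha' hb']
    exact mul_ne_zero ha0' hb0'
  have h3 : a + b = c := by
    by_contra h
    exact h1 (hf.comp_eq_zero (fun h' => h h'.symm))
  have hf' : Pure (-w) (-c) (P * Q) := by
    intro m hm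
    rw [neg_dot, hf m hm]
  have h4 : a' + b' = -c := by
    by_contra h
    exact h2 (hf'.comp_eq_zero (fun h' => h h'.symm))
  obtain ⟨n, hn⟩ := exists_coeff_ne hQ
  have h5 := hb n hn
  have h6 := hb' n hn
  rw [neg_dot] at h6
  refine ⟨a, fun m hm => ?_⟩
  have h7 := ha m hm
  have h8 := ha' m hm
  rw [neg_dot] at h8
  omega

/-- the derivation in direction `u` -/
def D (u : ℤ × ℤ) (f : L) : L :=
  .ofCoeff (Finsupp.onFinset f.coeff.support (fun m => (dot u m : ℂ) * f.coeff m) (by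
    intro m hm
    rw [Finsupp.mem_support_iff]
    exact right_ne_zero_of_mul hm))

@[simp] lemma D_coeff (u : ℤ × ℤ) (f : L) (m : ℤ × ℤ) :
    (D u f).coeff m = (dot u m : ℂ) * f.coeff m := by
  simp [D]

lemma D_support (u : ℤ × ℤ) (f : L) : (D u f).coeff.support ⊆ f.coeff.support := by
  intro m hm
  rw [Finsupp.mem_support_iff, D_coeff] at hm
  exact Finsupp.mem_support_iff.2 (right_ne_zero_of_mul hm)

lemma D_mul (u : ℤ × ℤ) (f g : L) : D u (f * g) = D u f * g + f * D u g := by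
  ext m
  rw [D_coeff, AddMonoidAlgebra.coeff_add, Finsupp.add_apply, mul_coeff' _ _ _ (D_support u f),
    mul_coeff, mul_coeff, Finset.mul_sum, ← Finset.sum_add_distrib]
  refine Finset.sum_congr rfl fun h _ => ?_
  rw [D_coeff, D_coeff, dot_sub]
  push_cast
  ring

lemma D_add (u : ℤ × ℤ) (f g : L) : D u (f + g) = D u f + D u g := by
  ext m
  simp [mul_add]

lemma D_comp (u w : ℤ × ℤ) (d : ℤ) (f : L) : D u (comp w d f) = comp w d (D u f) := by
  ext m
  simp only [D_coeff, comp_coeff]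
  split_ifs <;> simp

lemma Le.D {w u : ℤ × ℤ} {a : ℤ} {f : L} (hf : Le w a f) : Le w a (D u f) := by
  intro m hm
  rw [D_coeff] at hm
  exact hf m (right_ne_zero_of_mul hm)

lemma Pure.D {w u : ℤ × ℤ} {a : ℤ} {f : L} (hf : Pure w a f) : Pure w a (D u f) := by
  intro m hm
  rw [D_coeff] at hm
  exact hf m (right_ne_zero_of_mul hm)

/-- the character `m` at the point `(x, y)` -/
def chi (x y : ℂˣ) (m : ℤ × ℤ) : ℂ := ((x ^ m.1 * y ^ m.2 : ℂˣ) : ℂ)

lemma chi_ne_zero (x y : ℂˣ) (m : ℤ × ℤ) : chi x y m ≠ 0 := Units.ne_zero _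

lemma chi_add (x y : ℂˣ) (m n : ℤ × ℤ) : chi x y (m + n) = chi x y m * chi x y n := by
  simp only [chi, ← Units.val_mul, Prod.fst_add, Prod.snd_add, zpow_add]
  congr 1
  exact mul_mul_mul_comm _ _ _ _

lemma chi_zero (x y : ℂˣ) : chi x y 0 = 1 := by simp [chi]

/-- evaluation at the point `(x, y)` -/
def ev (x y : ℂˣ) : L →ₐ[ℂ] ℂ :=
  AddMonoidAlgebra.lift ℂ ℂ (ℤ × ℤ)
    { toFun := fun m => chi x y m.toAdd
      map_one' := chi_zero x y
      map_mul' := fun m n => chi_add x y m.toAdd n.toAdd }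

lemma ev_apply (x y : ℂˣ) (f : L) :
    ev x y f = ∑ m ∈ f.coeff.support, f.coeff m * chi x y m := by
  rw [ev, AddMonoidAlgebra.lift_apply, Finsupp.sum]
  rfl

lemma ev_single (x y : ℂˣ) (m : ℤ × ℤ) (c : ℂ) :
    ev x y (.single m c) = c * chi x y m := by
  rw [ev, AddMonoidAlgebra.lift_single]
  rfl

/-- a polynomial with two terms has a root different from zero -/
lemma poly_root {p : Polynomial ℂ} {i j : ℕ} (hij : i ≠ j) (hi : p.coeff i ≠ 0)
    (hj : p.coeff j ≠ 0) : ∃ s : ℂ, s ≠ 0 ∧ p.eval s = 0 := by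
  by_contra hcon
  push Not at hcon
  have hp0 : p ≠ 0 := by
    intro h
    simp [h] at hi
  have hroots : ∀ a ∈ p.roots, a = 0 := by
    intro a ha
    by_contra h
    exact hcon a h (Polynomial.isRoot_of_mem_roots ha)
  have h1 : p.roots = Multiset.replicate (Multiset.card p.roots) 0 :=
    Multiset.eq_replicate.2 ⟨rfl, hroots⟩
  have h2 := (IsAlgClosed.splits p).eq_prod_roots
  rw [h1, Multiset.map_replicate, Multiset.prod_replicate] at h2
  simp only [map_zero, sub_zero] at h2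
  rw [h2, Polynomial.coeff_C_mul, Polynomial.coeff_X_pow] at hi hj
  split_ifs at hi hj with h3 h4
  · exact hij (h3.trans h4.symm)
  all_goals simp at hi hj

/-- a pure element with two terms vanishes somewhere -/
theorem exists_zero {w : ℤ × ℤ} (hw : w ≠ 0) {d : ℤ} {f : L} (hf : Pure w d f) {m n : ℤ × ℤ}
    (hmn : m ≠ n) (hm : f.coeff m ≠ 0) (hn : f.coeff n ≠ 0) : ∃ x y : ℂˣ, ev x y f = 0 := by
  set e := rot w with he
  obtain ⟨N, hN⟩ : ∃ N : ℕ, ∀ m ∈ f.coeff.support, 0 ≤ dot e m + N := by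
    refine ⟨f.coeff.support.sup fun m => (dot e m).natAbs, fun m hm => ?_⟩
    have := Finset.le_sup (f := fun m => (dot e m).natAbs) hm
    omega
  set p : Polynomial ℂ := ∑ m ∈ f.coeff.support, Polynomial.monomial (dot e m + N).toNat
    (f.coeff m) with hp
  have hinj : ∀ m ∈ f.coeff.support, ∀ n ∈ f.coeff.support,
      (dot e m + N).toNat = (dot e n + N).toNat → m = n := by
    intro m hm n hn h
    have h1 := hN m hm
    have h2 := hN n hn
    refine eq_of_dots hw ?_ (show dot (rot w) m = dot (rot w) n by rw [← he]; omega)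
    rw [hf m (Finsupp.mem_support_iff.1 hm), hf n (Finsupp.mem_support_iff.1 hn)]
  have hcoeff : ∀ m ∈ f.coeff.support, p.coeff (dot e m + N).toNat = f.coeff m := by
    intro m hm
    rw [hp, Polynomial.finsetSum_coeff, Finset.sum_eq_single m]
    · rw [Polynomial.coeff_monomial, if_pos rfl]
    · intro n hn hnm
      rw [Polynomial.coeff_monomial, if_neg]
      exact fun h => hnm (hinj n hn m hm h)
    · exact fun h => absurd hm h
  have hm' := Finsupp.mem_support_iff.2 hm
  have hn' := Finsupp.mem_support_iff.2 hn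
  obtain ⟨s, hs0, hs⟩ := poly_root (p := p) (i := (dot e m + N).toNat) (j := (dot e n + N).toNat)
    (fun h => hmn (hinj m hm' n hn' h)) (by rw [hcoeff m hm']; exact hm)
    (by rw [hcoeff n hn']; exact hn)
  set σ : ℂˣ := Units.mk0 s hs0 with hσ
  refine ⟨σ ^ e.1, σ ^ e.2, ?_⟩
  have h1 : s ^ N * ev (σ ^ e.1) (σ ^ e.2) f = p.eval s := by
    rw [ev_apply, hp, Polynomial.eval_finsetSum, Finset.mul_sum]
    refine Finset.sum_congr rfl fun m hm => ?_
    rw [Polynomial.eval_monomial]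
    have h2 : chi (σ ^ e.1) (σ ^ e.2) m = s ^ dot e m := by
      simp only [chi, dot, ← zpow_mul, ← zpow_add]
      rw [Units.val_zpow_eq_zpow_val]
      rfl
    have h3 : s ^ (dot e m + N).toNat = s ^ dot e m * s ^ N := by
      rw [← zpow_natCast, Int.toNat_of_nonneg (hN m hm), zpow_add₀ hs0, zpow_natCast]
    rw [h2, h3]
    ring
  rw [hs] at h1
  exact (mul_eq_zero.1 h1).resolve_left (pow_ne_zero _ hs0)

end

end Pool.Agent.DD7719.Plane
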