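import Pool.Agent.DD7719.PlaneA
import Pool.Agent.E07280.P5a

/-! Common divisors of a Laurent polynomial and its derivatives. -/

set_option autoImplicit false

namespace Pool.Agent.DD7719.Plane

open Finsupp Pool.Agent.E07280

noncomputable section

/-- polynomials as Laurent polynomials -/
def inc : MvPolynomial (Fin 2) ℂ →ₐ[ℂ] L :=
  MvPolynomial.aeval ![.single (1, 0) 1, .single (0, 1) 1]

lemma inc_X0 : inc (MvPolynomial.X 0) = .single (1, 0) 1 := by simp [inc]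

lemma inc_X1 : inc (MvPolynomial.X 1) = .single (0, 1) 1 := by simp [inc]

lemma ev_inc (x y : ℂˣ) (p : MvPolynomial (Fin 2) ℂ) :
    ev x y (inc p) = evp ((x : ℂ), (y : ℂ)) p := by
  have h : (ev x y).comp inc = evp ((x : ℂ), (y : ℂ)) := by
    apply MvPolynomial.algHom_ext
    intro i
    fin_cases i
    · simp only [AlgHom.comp_apply, Fin.zero_eta, inc_X0, ev_single]
      simp [evp, chi]
    · simp only [AlgHom.comp_apply, Fin.mk_one, inc_X1, ev_single]
      simp [evp, chi]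
  rw [← h]
  rfl

lemma single_mul_single' (m n : ℤ × ℤ) (a b : ℂ) :
    (.single m a : L) * .single n b = .single (m + n) (a * b) :=
  AddMonoidAlgebra.single_mul_single _ _ _ _

lemma exists_inc (f : L) : ∃ N0 : ℕ, ∀ N : ℕ, N0 ≤ N → ∃ p : MvPolynomial (Fin 2) ℂ,
    inc p = .single ((N : ℤ), (N : ℤ)) 1 * f := by
  induction f using AddMonoidAlgebra.induction_linear with
  | zero => exact ⟨0, fun N _ => ⟨0, by simp⟩⟩
  | add f g hf hg =>
    obtain ⟨N1, h1⟩ := hf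
    obtain ⟨N2, h2⟩ := hg
    refine ⟨max N1 N2, fun N hN => ?_⟩
    obtain ⟨p, hp⟩ := h1 N (le_trans (le_max_left _ _) hN)
    obtain ⟨q, hq⟩ := h2 N (le_trans (le_max_right _ _) hN)
    exact ⟨p + q, by rw [map_add, hp, hq, mul_add]⟩
  | single m c =>
    refine ⟨m.1.natAbs + m.2.natAbs, fun N hN => ?_⟩
    refine ⟨MvPolynomial.C c * MvPolynomial.X 0 ^ (N + m.1).toNat *
      MvPolynomial.X 1 ^ (N + m.2).toNat, ?_⟩
    rw [map_mul, map_mul, map_pow, map_pow, inc_X0, inc_X1, AddMonoidAlgebra.single_pow,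
      AddMonoidAlgebra.single_pow, single_mul_single']
    have h1 : inc (MvPolynomial.C c) = .single 0 c := by
      rw [← MvPolynomial.algebraMap_eq, AlgHom.commutes]
      rfl
    rw [h1, single_mul_single', single_mul_single']
    have e1 : ((N + m.1).toNat : ℤ) = N + m.1 := Int.toNat_of_nonneg (by omega)
    have e2 : ((N + m.2).toNat : ℤ) = N + m.2 := Int.toNat_of_nonneg (by omega)
    congr 1
    · ext
      · simp [e1]
      · simp [e2]
    · simp

lemma finite_common {P g : MvPolynomial (Fin 2) ℂ} (hP : Irreducible P) (h : ¬ P ∣ g) :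
    {z : ℂ × ℂ | evp z P = 0 ∧ evp z g = 0}.Finite := by
  by_contra hinf
  have hg : g ≠ 0 := by
    rintro rfl
    exact h (dvd_zero _)
  obtain ⟨Γ, hΓ, hcard⟩ := Set.Infinite.exists_subset_card_eq hinf
    (P.totalDegree * g.totalDegree + 1)
  have h1 := bezout hg ((Irreducible.isRelPrime_iff_not_dvd hP).2 h) Γ
    (fun z hz => (hΓ hz).1) (fun z hz => (hΓ hz).2)
  omega

/-- values of the character `n` on a set -/
def im (n : ℤ × ℤ) (Z : Set (ℂˣ × ℂˣ)) : Set ℂ := (fun z : ℂˣ × ℂˣ => chi z.1 z.2 n) '' Z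

lemma exists_factor (n : ℤ × ℤ) (f : MvPolynomial (Fin 2) ℂ) : ∀ (Z : Set (ℂˣ × ℂˣ)), f ≠ 0 →
    (∀ z ∈ Z, evp ((z.1 : ℂ), (z.2 : ℂ)) f = 0) → (im n Z).Infinite →
    ∃ P : MvPolynomial (Fin 2) ℂ, Irreducible P ∧ P ∣ f ∧
      (im n {z ∈ Z | evp ((z.1 : ℂ), (z.2 : ℂ)) P = 0}).Infinite := by
  induction f using WfDvdMonoid.induction_on_irreducible with
  | zero =>
    intro Z h
    exact absurd rfl h
  | unit u hu =>
    intro Z _ hZ hinf
    exfalso
    obtain ⟨_, z, hz, -⟩ := hinf.nonempty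
    have h1 := hu.map (evp ((z.1 : ℂ), (z.2 : ℂ)))
    rw [hZ z hz] at h1
    exact not_isUnit_zero h1
  | mul a i ha hi ih =>
    intro Z _ hZ hinf
    have hsub : im n Z ⊆ im n {z ∈ Z | evp ((z.1 : ℂ), (z.2 : ℂ)) i = 0} ∪
        im n {z ∈ Z | evp ((z.1 : ℂ), (z.2 : ℂ)) a = 0} := by
      rintro _ ⟨z, hz, rfl⟩
      have h1 := hZ z hz
      rw [map_mul] at h1
      rcases mul_eq_zero.1 h1 with h2 | h2
      · exact Or.inl ⟨z, ⟨hz, h2⟩, rfl⟩
      · exact Or.inr ⟨z, ⟨hz, h2⟩, rfl⟩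
    rcases Set.infinite_union.1 (hinf.mono hsub) with h1 | h1
    · exact ⟨i, hi, dvd_mul_right _ _, h1⟩
    · obtain ⟨P, hP, hPa, hP3⟩ := ih _ ha (fun z hz => hz.2) h1
      refine ⟨P, hP, hPa.trans (dvd_mul_left _ _), hP3.mono ?_⟩
      rintro _ ⟨z, ⟨hz1, hz2⟩, rfl⟩
      exact ⟨z, ⟨hz1.1, hz2⟩, rfl⟩

lemma isUnit_single (m : ℤ × ℤ) {c : ℂ} (hc : c ≠ 0) : IsUnit (.single m c : L) := by
  refine IsUnit.of_mul_eq_one (.single (-m) c⁻¹) ?_
  rw [single_mul_single', add_neg_cancel, mul_inv_cancel₀ hc]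
  rfl

/-- divides the polynomial and all its derivatives -/
def Good (F P : L) : Prop := P ∣ F ∧ ∀ u, P ∣ D u F

/-- **Divisors from infinitely many zeros.** -/
theorem exists_good {F : L} (hF : F ≠ 0) (n : ℤ × ℤ) (Z : Set (ℂˣ × ℂˣ))
    (hZ : ∀ z ∈ Z, ev z.1 z.2 F = 0) (hZD : ∀ z ∈ Z, ∀ u, ev z.1 z.2 (D u F) = 0)
    (hinf : (im n Z).Infinite) :
    ∃ P : L, Good F P ∧ (im n {z ∈ Z | ev z.1 z.2 P = 0}).Infinite := by
  obtain ⟨N, hN⟩ := exists_inc F
  obtain ⟨f, hf⟩ := hN N le_rfl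
  have hf0 : f ≠ 0 := by
    rintro rfl
    rw [map_zero] at hf
    exact mul_ne_zero (isUnit_single ((N : ℤ), (N : ℤ)) one_ne_zero).ne_zero hF hf.symm
  obtain ⟨P, hP, hPf, hPinf⟩ := exists_factor n f Z hf0 (fun z hz => by
    rw [← ev_inc, hf, map_mul, hZ z hz, mul_zero]) hinf
  have key : ∀ g : L, (∀ z ∈ Z, ev z.1 z.2 g = 0) → inc P ∣ g := by
    intro g hg
    obtain ⟨M, hM⟩ := exists_inc g
    obtain ⟨g', hg'⟩ := hM M le_rfl
    have h1 : P ∣ g' := by
      by_contra hnd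
      have hfin := finite_common hP hnd
      refine hPinf ?_
      refine Set.Finite.image _ ?_
      refine Set.Finite.subset (hfin.preimage (f := fun z : ℂˣ × ℂˣ => ((z.1 : ℂ), (z.2 : ℂ)))
        ?_) ?_
      · rintro ⟨a, b⟩ _ ⟨c, d⟩ _ h
        simp only [Prod.mk.injEq, Units.val_inj] at h
        exact Prod.ext h.1 h.2
      · rintro z ⟨hz1, hz2⟩
        refine ⟨hz2, ?_⟩
        rw [← ev_inc, hg', map_mul, hg z hz1, mul_zero]
    have h2 : inc P ∣ inc g' := map_dvd inc h1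
    rw [hg'] at h2
    exact (isUnit_single ((M : ℤ), (M : ℤ)) one_ne_zero).dvd_mul_left.1 h2
  refine ⟨inc P, ⟨key F hZ, fun u => key _ fun z hz => hZD z hz u⟩, ?_⟩
  simpa only [ev_inc] using hPinf

end

end Pool.Agent.DD7719.Plane
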