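import Pool.Agent.DD7719.PlaneB

/-! Symmetric Laurent polynomials with at most nine terms: levels. -/

set_option autoImplicit false

namespace Pool.Agent.DD7719.Plane

open Finsupp

noncomputable section

/-- constants -/
def K (c : ℂ) : L := .single 0 c

lemma K_mul_coeff (c : ℂ) (f : L) (m : ℤ × ℤ) : (K c * f).coeff m = c * f.coeff m := by
  rw [K, AddMonoidAlgebra.coeff_single_zero_mul]

lemma K_coeff (c : ℂ) (m : ℤ × ℤ) : (K c).coeff m = if m = 0 then c else 0 := by
  rw [K, AddMonoidAlgebra.coeff_single, Finsupp.single_apply]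
  simp [eq_comm]

lemma isUnit_K {c : ℂ} (hc : c ≠ 0) : IsUnit (K c) := isUnit_single 0 hc

lemma D_pure {w : ℤ × ℤ} {d : ℤ} {T : L} (hT : Pure w d T) : D w T = K d * T := by
  ext m
  rw [D_coeff, K_mul_coeff]
  by_cases h : T.coeff m = 0
  · simp [h]
  · rw [hT m h]

theorem dvd_comp {w : ℤ × ℤ} {a c : ℤ} {P g : L} (hP : Le w a P) (hP0 : comp w a P ≠ 0)
    (hg : Le w c g) (h : P ∣ g) : comp w a P ∣ comp w c g := by
  obtain ⟨Q, rfl⟩ := h
  have h1 : Le w (c - a) Q := Le.of_mul hP hP0 (by rw [show a + (c - a) = c by ring]; exact hg)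
  have h2 := comp_mul hP h1
  rw [show a + (c - a) = c by ring] at h2
  exact ⟨_, h2⟩

/-- three levels: the discriminant vanishes -/
theorem delta {w : ℤ × ℤ} {d : ℤ} (hd : d ≠ 0) {F T F0 B P : L} (hF : F = T + F0 + B)
    (hT : Pure w d T) (h0 : Pure w 0 F0) (hB : Pure w (-d) B) (hP : Good F P)
    (hPn : ¬ ∃ a, Pure w a P) : F0 * F0 = K 4 * (T * B) := by
  have hK2 : K 2 = 2 := rfl
  have hK4 : K 4 = 4 := rfl
  have hK0 : K ((0 : ℤ) : ℂ) = 0 := by simp [K]
  have hKn : K ((-d : ℤ) : ℂ) = -K d := by
    rw [K, K]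
    push_cast
    rw [AddMonoidAlgebra.single_neg]
  have hD : D w F = K d * (T - B) := by
    rw [hF, D_add, D_add, D_pure hT, D_pure h0, D_pure hB, hK0, hKn]
    ring
  have h1 : P ∣ K d * (F0 * F0 - K 4 * (T * B)) := by
    have e : K d * (F0 * F0 - K 4 * (T * B)) =
        (K d * F0 - 2 * K d * T) * F + (F0 + 2 * T) * D w F := by
      rw [hD, hF, hK4]
      ring
    rw [e]
    exact dvd_add (hP.1.mul_left _) ((hP.2 w).mul_left _)
  have hdC : (d : ℂ) ≠ 0 := by exact_mod_cast hd
  rw [(isUnit_K hdC).dvd_mul_left] at h1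
  have hpure : Pure w 0 (F0 * F0 - K 4 * (T * B)) := by
    have h2 : Pure w 0 (F0 * F0) := by simpa using h0.mul h0
    have h3 : Pure w 0 (T * B) := by simpa using hT.mul hB
    have h4 : Pure w 0 (-(K 4 * (T * B))) := by
      intro m hm
      refine h3 m fun h => hm ?_
      rw [AddMonoidAlgebra.coeff_neg, Finsupp.neg_apply, K_mul_coeff, h]
      simp
    rw [sub_eq_add_neg]
    exact h2.add h4
  by_contra hne
  exact hPn (hpure.of_dvd (sub_ne_zero.2 hne) h1)

/-- the coefficient sums of a polynomial and its derivatives at a common zero -/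
lemma sums {T : L} {x y : ℂˣ} (u : ℤ × ℤ) (h : ev x y (D u T) = 0) :
    ∑ m ∈ T.coeff.support, (dot u m : ℂ) * (T.coeff m * chi x y m) = 0 := by
  rw [ev_apply] at h
  rw [← h]
  symm
  refine (Finset.sum_subset (D_support u T) fun m _ hm => ?_).trans
    (Finset.sum_congr rfl fun m _ => ?_)
  · rw [Finsupp.notMem_support_iff.1 hm, zero_mul]
  · rw [D_coeff]
    ring

/-- a pure element with a double zero has at least three terms -/
theorem three_le {w : ℤ × ℤ} (hw : w ≠ 0) {d : ℤ} {T : L} (hT : Pure w d T) (hT0 : T ≠ 0)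
    {x y : ℂˣ} (h1 : ev x y T = 0) (h2 : ev x y (D (rot w) T) = 0) :
    3 ≤ T.coeff.support.card := by
  rw [ev_apply] at h1
  have h3 := sums _ h2
  by_contra hlt
  push Not at hlt
  have hne : T.coeff.support.Nonempty := by
    rw [Finsupp.support_nonempty_iff]
    exact fun h => hT0 (AddMonoidAlgebra.coeff_eq_zero.1 h)
  have hpos := hne.card_pos
  rcases (show T.coeff.support.card = 1 ∨ T.coeff.support.card = 2 by omega) with h | h
  · obtain ⟨m, hm⟩ := Finset.card_eq_one.1 h
    rw [hm, Finset.sum_singleton] at h1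
    have : T.coeff m ≠ 0 := Finsupp.mem_support_iff.1 (by rw [hm]; simp)
    exact mul_ne_zero this (chi_ne_zero x y m) h1
  · obtain ⟨m, n, hmn, hm⟩ := Finset.card_eq_two.1 h
    rw [hm, Finset.sum_pair hmn] at h1 h3
    have hm0 : T.coeff m ≠ 0 := Finsupp.mem_support_iff.1 (by rw [hm]; simp)
    have hn0 : T.coeff n ≠ 0 := Finsupp.mem_support_iff.1 (by rw [hm]; simp)
    have h4 : ((dot (rot w) m : ℂ) - dot (rot w) n) * (T.coeff m * chi x y m) = 0 := by
      linear_combination h3 - (dot (rot w) n : ℂ) * h1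
    have h5 : (dot (rot w) m : ℂ) - dot (rot w) n = 0 :=
      (mul_eq_zero.1 h4).resolve_right (mul_ne_zero hm0 (chi_ne_zero x y m))
    have h6 : dot (rot w) m = dot (rot w) n := by
      have := sub_eq_zero.1 h5
      exact_mod_cast this
    exact hmn (eq_of_dots hw ((hT m hm0).trans (hT n hn0).symm) h6)

/-- symmetric Laurent polynomials -/
def Sym (F : L) : Prop := ∀ m, F.coeff (-m) = (starRingEnd ℂ) (F.coeff m)

lemma Sym.ne {F : L} (h : Sym F) {m : ℤ × ℤ} (hm : F.coeff m ≠ 0) : F.coeff (-m) ≠ 0 := by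
  rw [h m]
  exact (map_ne_zero _).2 hm

/-- the levels of a symmetric polynomial with at most nine terms -/
theorem levels {w : ℤ × ℤ} (hw : w ≠ 0) {F P1 P2 : L} (hsym : Sym F) (h0 : F.coeff 0 ≠ 0)
    (hcard : F.coeff.support.card ≤ 9) {d1 : ℤ} (hP1 : Good F P1) (hd1 : Le w d1 P1)
    {m1 n1 : ℤ × ℤ} (hmn : m1 ≠ n1) (hm1 : P1.coeff m1 ≠ 0) (hn1 : P1.coeff n1 ≠ 0)
    (hm1' : dot w m1 = d1) (hn1' : dot w n1 = d1) (hP2 : Good F P2)
    (hP2n : ¬ ∃ a, Pure w a P2) :
    ∃ (d : ℤ) (T : L) (x y : ℂˣ) (b : ℤ × ℤ), 0 < d ∧ T = comp w d F ∧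
      ev x y T = 0 ∧ ev x y (D (rot w) T) = 0 ∧ T.coeff.support.card = 3 ∧ b ≠ 0 ∧
      dot w b = 0 ∧ F.coeff b ≠ 0 ∧
      (∀ m, F.coeff m ≠ 0 → dot w m = d ∨ dot w m = -d ∨ m = 0 ∨ m = b ∨ m = -b) ∧
      comp w 0 F * comp w 0 F = K 4 * (comp w d F * comp w (-d) F) := by
  have hF0 : F ≠ 0 := by
    rintro rfl
    simp at h0
  obtain ⟨d, hd, hT0⟩ := exists_top w hF0
  set T := comp w d F with hTdef
  have hTp : Pure w d T := comp_pure w d F
  -- a zero of the edge polynomial
  have hPt0 : comp w d1 P1 ≠ 0 := by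
    intro h
    have := congrArg (fun g : L => g.coeff m1) h
    simp only [comp_coeff, if_pos hm1'] at this
    exact hm1 this
  obtain ⟨x, y, hxy⟩ := exists_zero hw (comp_pure w d1 P1) hmn
    (by rw [comp_coeff, if_pos hm1']; exact hm1) (by rw [comp_coeff, if_pos hn1']; exact hn1)
  have hev : ∀ (c : ℤ) (g : L), Le w c g → P1 ∣ g → ev x y (comp w c g) = 0 := by
    intro c g hg hdvd
    obtain ⟨Q, hQ⟩ := dvd_comp hd1 hPt0 hg hdvd
    rw [hQ, map_mul, hxy, zero_mul]
  have hT1 : ev x y T = 0 := hev d F hd hP1.1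
  have hT2 : ∀ u, ev x y (D u T) = 0 := by
    intro u
    rw [hTdef, D_comp]
    exact hev d _ hd.D (hP1.2 u)
  have h3 := three_le hw hTp hT0 hT1 (hT2 _)
  -- positivity of the level
  have hlow : ∀ m, F.coeff m ≠ 0 → -d ≤ dot w m := by
    intro m hm
    have := hd (-m) (hsym.ne hm)
    rw [dot_neg] at this
    omega
  have hd0 : 0 ≤ d := by
    have := hd 0 h0
    simpa using this
  have hdpos : 0 < d := by
    rcases hd0.lt_or_eq with h | h
    · exact h
    · exfalso
      apply hP2n
      have hpure : Pure w 0 F := by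
        intro m hm
        have a1 := hd m hm
        have a2 := hlow m hm
        omega
      exact hpure.of_dvd hF0 hP2.1
  -- counting
  classical
  set S := F.coeff.support with hS
  set Sp := S.filter (fun m => dot w m = d) with hSp
  set Sm := S.filter (fun m => dot w m = -d) with hSm
  set M := S.filter (fun m => -d < dot w m ∧ dot w m < d) with hM
  have hTs : T.coeff.support = Sp := by
    ext m
    rw [Finsupp.mem_support_iff, hTdef, comp_coeff, hSp, Finset.mem_filter, hS,
      Finsupp.mem_support_iff]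
    split_ifs with h
    · simp [h]
    · simp [h]
  have hSmSp : Sm.card = Sp.card := by
    refine Finset.card_bij' (fun m _ => -m) (fun m _ => -m) ?_ ?_ (fun m _ => neg_neg m)
      (fun m _ => neg_neg m)
    · intro m hm
      rw [hSm, Finset.mem_filter, hS, Finsupp.mem_support_iff] at hm
      rw [hSp, Finset.mem_filter, hS, Finsupp.mem_support_iff, dot_neg]
      exact ⟨hsym.ne hm.1, by omega⟩
    · intro m hm
      rw [hSp, Finset.mem_filter, hS, Finsupp.mem_support_iff] at hm
      rw [hSm, Finset.mem_filter, hS, Finsupp.mem_support_iff, dot_neg]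
      exact ⟨hsym.ne hm.1, by omega⟩
  have hsum : Sp.card + Sm.card + M.card ≤ S.card := by
    have e1 : Disjoint Sp Sm := by
      rw [Finset.disjoint_left]
      intro m h1 h2
      rw [hSp, Finset.mem_filter] at h1
      rw [hSm, Finset.mem_filter] at h2
      omega
    have e2 : Disjoint (Sp ∪ Sm) M := by
      rw [Finset.disjoint_left]
      intro m h1 h2
      rw [hM, Finset.mem_filter] at h2
      rw [Finset.mem_union, hSp, hSm, Finset.mem_filter, Finset.mem_filter] at h1
      omega
    rw [← Finset.card_union_of_disjoint e1, ← Finset.card_union_of_disjoint e2]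
    refine Finset.card_le_card ?_
    intro m hm
    rw [Finset.mem_union, Finset.mem_union] at hm
    rcases hm with (hm | hm) | hm
    · exact (Finset.mem_filter.1 hm).1
    · exact (Finset.mem_filter.1 hm).1
    · exact (Finset.mem_filter.1 hm).1
  have h0M : (0 : ℤ × ℤ) ∈ M := by
    rw [hM, Finset.mem_filter, hS, Finsupp.mem_support_iff]
    refine ⟨h0, ?_⟩
    rw [dot_zero]
    omega
  have hMle : M.card ≤ 3 := by
    rw [hTs] at h3
    omega
  have hdec : ∀ B : L, B = comp w (-d) F → ∀ F0 : L, F0 = comp w 0 F →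
      (∀ m, F.coeff m ≠ 0 → dot w m = d ∨ dot w m = -d ∨ dot w m = 0) → F = T + F0 + B := by
    intro B hB F0 hF0 hlev
    ext m
    rw [AddMonoidAlgebra.coeff_add, AddMonoidAlgebra.coeff_add, Finsupp.add_apply,
      Finsupp.add_apply, hTdef, hF0, hB, comp_coeff, comp_coeff, comp_coeff]
    by_cases hm : F.coeff m = 0
    · simp [hm]
    rcases hlev m hm with h | h | h
    · rw [if_pos h, if_neg (by omega), if_neg (by omega)]; simp
    · rw [if_neg (by omega), if_neg (by omega), if_pos h]; simp
    · rw [if_neg (by omega), if_pos h, if_neg (by omega)]; simp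
  -- the middle part contains another point
  have hb : ∃ b ∈ M, b ≠ 0 := by
    by_contra hcon
    push Not at hcon
    have hlev : ∀ m, F.coeff m ≠ 0 → dot w m = d ∨ dot w m = -d ∨ m = 0 := by
      intro m hm
      by_contra hc
      push Not at hc
      have a1 := hd m hm
      have a2 := hlow m hm
      refine hc.2.2 (hcon m ?_)
      rw [hM, Finset.mem_filter, hS, Finsupp.mem_support_iff]
      exact ⟨hm, by omega, by omega⟩
    have hlev' : ∀ m, F.coeff m ≠ 0 → dot w m = d ∨ dot w m = -d ∨ dot w m = 0 := by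
      intro m hm
      rcases hlev m hm with h | h | h
      · exact Or.inl h
      · exact Or.inr (Or.inl h)
      · rw [h]; simp
    have hdel := delta hdpos.ne' (hdec _ rfl _ rfl hlev') hTp (comp_pure w 0 F)
      (comp_pure w (-d) F) hP2 hP2n
    have hF0' : comp w 0 F = K (F.coeff 0) := by
      ext m
      rw [comp_coeff, K_coeff]
      by_cases hm : m = 0
      · simp [hm]
      · rw [if_neg hm]
        split_ifs with h
        · by_contra hne
          rcases hlev m hne with h' | h' | h'
          · omega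
          · omega
          · exact hm h'
        · rfl
    rw [hF0'] at hdel
    have hK : K (F.coeff 0) * K (F.coeff 0) ≠ 0 :=
      mul_ne_zero (isUnit_K h0).ne_zero (isUnit_K h0).ne_zero
    have hKp : Pure (rot w) 0 (K (F.coeff 0) * K (F.coeff 0)) := by
      intro m hm
      rw [K_mul_coeff, K_coeff] at hm
      by_cases h : m = 0
      · rw [h]; simp
      · simp [h] at hm
    obtain ⟨a, ha⟩ := hKp.of_dvd hK (show T ∣ K (F.coeff 0) * K (F.coeff 0) by
      rw [hdel]
      exact (dvd_mul_right T _).mul_left _)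
    have : T.coeff.support.card ≤ 1 := by
      rw [Finset.card_le_one]
      intro m hm n hn
      rw [Finsupp.mem_support_iff] at hm hn
      exact eq_of_dots hw ((hTp m hm).trans (hTp n hn).symm) ((ha m hm).trans (ha n hn).symm)
    omega
  obtain ⟨b, hbM, hb0⟩ := hb
  have hbM' := hbM
  rw [hM, Finset.mem_filter, hS, Finsupp.mem_support_iff] at hbM'
  have hnb : -b ∈ M := by
    rw [hM, Finset.mem_filter, hS, Finsupp.mem_support_iff, dot_neg]
    exact ⟨hsym.ne hbM'.1, by omega, by omega⟩
  have hbb : b ≠ -b := by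
    intro h
    apply hb0
    have e1 := congrArg Prod.fst h
    have e2 := congrArg Prod.snd h
    simp only [Prod.fst_neg, Prod.snd_neg] at e1 e2
    ext
    · simp; omega
    · simp; omega
  have hsub : ({0, b, -b} : Finset (ℤ × ℤ)) ⊆ M := by
    intro m hm
    simp only [Finset.mem_insert, Finset.mem_singleton] at hm
    rcases hm with rfl | rfl | rfl
    · exact h0M
    · exact hbM
    · exact hnb
  have hc3 : ({0, b, -b} : Finset (ℤ × ℤ)).card = 3 := by
    rw [Finset.card_eq_three]
    exact ⟨0, b, -b, hb0.symm, fun h => hb0 (by simpa using h.symm), hbb, rfl⟩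
  have hMeq : ({0, b, -b} : Finset (ℤ × ℤ)) = M :=
    Finset.eq_of_subset_of_card_le hsub (by rw [hc3]; exact hMle)
  have hlev : ∀ m, F.coeff m ≠ 0 → dot w m = d ∨ dot w m = -d ∨ m = 0 ∨ m = b ∨ m = -b := by
    intro m hm
    by_cases hc : dot w m = d ∨ dot w m = -d
    · rcases hc with hc | hc
      · exact Or.inl hc
      · exact Or.inr (Or.inl hc)
    right; right
    have a1 := hd m hm
    have a2 := hlow m hm
    have : m ∈ M := by
      rw [hM, Finset.mem_filter, hS, Finsupp.mem_support_iff]
      exact ⟨hm, by omega, by omega⟩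
    rw [← hMeq] at this
    simpa using this
  have hcard3 : T.coeff.support.card = 3 := by
    have : 3 ≤ M.card := by
      rw [← hc3]
      exact Finset.card_le_card hsub
    rw [hTs] at h3 ⊢
    omega
  -- the level of `b`
  have hlevel : dot w b = 0 := by
    by_contra hne
    -- choose the sign
    obtain ⟨b', hb'1, hb'2, hb'3, hb'4⟩ : ∃ b', 0 < dot w b' ∧ dot w b' < d ∧ F.coeff b' ≠ 0 ∧
        ∀ m, F.coeff m ≠ 0 → dot w m = d ∨ dot w m < dot w b' ∨ m = b' := by
      rcases lt_or_gt_of_ne hne with h | h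
      · refine ⟨-b, by rw [dot_neg]; omega, by rw [dot_neg]; omega, hsym.ne hbM'.1, ?_⟩
        intro m hm
        rcases hlev m hm with h1 | h1 | h1 | h1 | h1
        · exact Or.inl h1
        · right; left; rw [h1, dot_neg]; omega
        · right; left; rw [h1, dot_neg, dot_zero]; omega
        · right; left; rw [h1, dot_neg]; omega
        · right; right; exact h1
      · refine ⟨b, h, hbM'.2.2, hbM'.1, ?_⟩
        intro m hm
        rcases hlev m hm with h1 | h1 | h1 | h1 | h1
        · exact Or.inl h1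
        · right; left; rw [h1]; omega
        · right; left; rw [h1, dot_zero]; omega
        · right; right; exact h1
        · right; left; rw [h1, dot_neg]; omega
    set h := dot w b' with hh
    set g : L := D w F - K d * F with hg
    have hgc : ∀ m, g.coeff m = ((dot w m : ℂ) - d) * F.coeff m := by
      intro m
      rw [hg, AddMonoidAlgebra.coeff_sub, Finsupp.sub_apply, D_coeff, K_mul_coeff]
      ring
    have hgle : Le w h g := by
      intro m hm
      rw [hgc] at hm
      have e1 := left_ne_zero_of_mul hm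
      have e2 := right_ne_zero_of_mul hm
      rcases hb'4 m e2 with h1 | h1 | h1
      · rw [h1] at e1; simp at e1
      · exact h1.le
      · rw [h1]
    have hcomp : comp w h g = .single b' (((h : ℂ) - d) * F.coeff b') := by
      ext m
      rw [comp_coeff, hgc, AddMonoidAlgebra.coeff_single, Finsupp.single_apply]
      by_cases hm : b' = m
      · subst hm
        rw [if_pos rfl, if_pos rfl]
      · rw [if_neg hm]
        split_ifs with h1
        · by_cases h2 : F.coeff m = 0
          · rw [h2, mul_zero]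
          · exfalso
            rcases hb'4 m h2 with h3 | h3 | h3
            · omega
            · omega
            · exact hm h3.symm
        · rfl
    have h5 := hev h g hgle (dvd_sub (hP1.2 w) (hP1.1.mul_left _))
    rw [hcomp, ev_single] at h5
    have h6 : ((h : ℂ) - d) ≠ 0 := by
      rw [sub_ne_zero]
      intro h7
      have : h = d := by exact_mod_cast h7
      omega
    exact mul_ne_zero (mul_ne_zero h6 hb'3) (chi_ne_zero x y b') h5
  have hlev' : ∀ m, F.coeff m ≠ 0 → dot w m = d ∨ dot w m = -d ∨ dot w m = 0 := by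
    intro m hm
    rcases hlev m hm with h | h | h | h | h
    · exact Or.inl h
    · exact Or.inr (Or.inl h)
    · rw [h]; simp
    · rw [h, hlevel]; simp
    · rw [h, dot_neg, hlevel]; simp
  exact ⟨d, T, x, y, b, hdpos, rfl, hT1, hT2 _, hcard3, hb0, hlevel, hbM'.1, hlev,
    delta hdpos.ne' (hdec _ rfl _ rfl hlev') hTp (comp_pure w 0 F) (comp_pure w (-d) F) hP2 hP2n⟩

end

end Pool.Agent.DD7719.Plane
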