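import Pool.Agent.DD7719.PlaneC

/-! Symmetric Laurent polynomials with at most nine terms: the exceptional form. -/

set_option autoImplicit false

namespace Pool.Agent.DD7719.Plane

open Finsupp

noncomputable section

/-- The exceptional form: on the unit torus `F = (2 Re (al * u) + 2 Re (be * v)) ^ 2`, where `u ^ 2`,
`v ^ 2`, `u * v`, `u / v` are the characters `a + b`, `a - b`, `a`, `b`. -/
def Exceptional (F : L) : Prop :=
  ∃ (a b : ℤ × ℤ) (al be : ℂ), a.1 * b.2 - a.2 * b.1 ≠ 0 ∧ al ≠ 0 ∧ be ≠ 0 ∧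
    F.coeff (a + b) = al ^ 2 ∧ F.coeff (a - b) = be ^ 2 ∧ F.coeff a = 2 * al * be ∧
    F.coeff b = 2 * al * (starRingEnd ℂ) be ∧
    F.coeff 0 = 2 * (al * (starRingEnd ℂ) al) + 2 * (be * (starRingEnd ℂ) be) ∧
    ∀ m, F.coeff m ≠ 0 → m = 0 ∨ m = a ∨ m = -a ∨ m = b ∨ m = -b ∨ m = a + b ∨ m = -(a + b) ∨
      m = a - b ∨ m = -(a - b)

lemma sort_three {s : Finset (ℤ × ℤ)} (hs : s.card = 3) (f : ℤ × ℤ → ℤ)
    (hf : ∀ m ∈ s, ∀ n ∈ s, f m = f n → m = n) :
    ∃ p q r, s = {p, q, r} ∧ f q < f r ∧ f r < f p := by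
  obtain ⟨a, b, c, hab, hac, hbc, rfl⟩ := Finset.card_eq_three.1 hs
  have h1 : f a ≠ f b := fun h => hab (hf a (by simp) b (by simp) h)
  have h2 : f a ≠ f c := fun h => hac (hf a (by simp) c (by simp) h)
  have h3 : f b ≠ f c := fun h => hbc (hf b (by simp) c (by simp) h)
  rcases lt_or_gt_of_ne h1 with h1 | h1 <;> rcases lt_or_gt_of_ne h2 with h2 | h2 <;>
    rcases lt_or_gt_of_ne h3 with h3 | h3
  · exact ⟨c, a, b, by ext; simp; tauto, h1, h3⟩
  · exact ⟨b, a, c, by ext; simp; tauto, h2, h3⟩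
  · exact absurd (h1.trans h3) (by omega)
  · exact ⟨b, c, a, by ext; simp; tauto, h2, h1⟩
  · exact ⟨c, b, a, by ext; simp; tauto, h1, h2⟩
  · exact absurd (h3.trans h1) (by omega)
  · exact ⟨a, b, c, rfl, h3, h2⟩
  · exact ⟨a, c, b, by ext; simp; tauto, h3, h1⟩

theorem exceptional_of_good {w : ℤ × ℤ} (hw : w ≠ 0) {F P1 P2 : L} (hsym : Sym F)
    (h0 : 0 < (F.coeff 0).re)
    (hcard : F.coeff.support.card ≤ 9) {d1 : ℤ} (hP1 : Good F P1) (hd1 : Le w d1 P1)
    {m1 n1 : ℤ × ℤ} (hmn : m1 ≠ n1) (hm1 : P1.coeff m1 ≠ 0) (hn1 : P1.coeff n1 ≠ 0)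
    (hm1' : dot w m1 = d1) (hn1' : dot w n1 = d1) (hP2 : Good F P2)
    (hP2n : ¬ ∃ a, Pure w a P2) : Exceptional F := by
  have h00 : F.coeff 0 ≠ 0 := by
    intro h
    rw [h] at h0
    simp at h0
  obtain ⟨d, T, x, y, b0, hd, hTdef, hT1, hT2, hT3, hb00, hwb0, hFb0, hlev0, hdel⟩ :=
    levels hw hsym h00 hcard hP1 hd1 hmn hm1 hn1 hm1' hn1' hP2 hP2n
  -- the sign of `b`
  obtain ⟨b, hb, hwb, hFb, hlev⟩ : ∃ b, 0 < dot (rot w) b ∧ dot w b = 0 ∧ F.coeff b ≠ 0 ∧
      ∀ m, F.coeff m ≠ 0 → dot w m = d ∨ dot w m = -d ∨ m = 0 ∨ m = b ∨ m = -b := by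
    have hne : dot (rot w) b0 ≠ 0 := by
      intro h
      exact hb00 (eq_of_dots hw (by rw [hwb0, dot_zero]) (by rw [h, dot_zero]))
    rcases lt_or_gt_of_ne hne with h | h
    · refine ⟨-b0, by rw [dot_neg]; omega, by rw [dot_neg]; omega, hsym.ne hFb0, fun m hm => ?_⟩
      rcases hlev0 m hm with h1 | h1 | h1 | h1 | h1
      · exact Or.inl h1
      · exact Or.inr (Or.inl h1)
      · exact Or.inr (Or.inr (Or.inl h1))
      · exact Or.inr (Or.inr (Or.inr (Or.inr (by rw [neg_neg]; exact h1))))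
      · exact Or.inr (Or.inr (Or.inr (Or.inl h1)))
    · exact ⟨b0, h, hwb0, hFb0, hlev0⟩
  have hTp : Pure w d T := by rw [hTdef]; exact comp_pure w d F
  have hinj : ∀ m ∈ T.coeff.support, ∀ n ∈ T.coeff.support,
      dot (rot w) m = dot (rot w) n → m = n := by
    intro m hm n hn h
    rw [Finsupp.mem_support_iff] at hm hn
    exact eq_of_dots hw ((hTp m hm).trans (hTp n hn).symm) h
  obtain ⟨p, q, r, hs, hqr, hrp⟩ := sort_three hT3 (dot (rot w)) hinj
  have hpq : p ≠ q := by rintro rfl; omega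
  have hpr : p ≠ r := by rintro rfl; omega
  have hqr' : q ≠ r := by rintro rfl; omega
  have htp : T.coeff p ≠ 0 := Finsupp.mem_support_iff.1 (by rw [hs]; simp)
  have htq : T.coeff q ≠ 0 := Finsupp.mem_support_iff.1 (by rw [hs]; simp)
  have htr : T.coeff r ≠ 0 := Finsupp.mem_support_iff.1 (by rw [hs]; simp)
  have hmem : ∀ m, T.coeff m ≠ 0 → m = p ∨ m = q ∨ m = r := by
    intro m hm
    have := Finsupp.mem_support_iff.2 hm
    rw [hs] at this
    simpa using this
  have hwp := hTp p htp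
  have hwq := hTp q htq
  have hwr := hTp r htr
  set B := comp w (-d) F with hB
  have hBc : ∀ m, B.coeff m = (starRingEnd ℂ) (T.coeff (-m)) := by
    intro m
    rw [hB, hTdef, comp_coeff, comp_coeff, hsym m, dot_neg]
    by_cases h : dot w m = -d
    · rw [if_pos h, if_pos (by omega)]; simp
    · rw [if_neg h, if_neg (by omega)]; simp
  have hTB : ∀ n, (T * B).coeff n = T.coeff p * (starRingEnd ℂ) (T.coeff (p - n)) +
      T.coeff q * (starRingEnd ℂ) (T.coeff (q - n)) +
      T.coeff r * (starRingEnd ℂ) (T.coeff (r - n)) := by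
    intro n
    rw [mul_coeff, hs, Finset.sum_insert (by simp [hpq, hpr]), Finset.sum_pair hqr', hBc, hBc,
      hBc, neg_sub, neg_sub, neg_sub, add_assoc]
  set F0 := comp w 0 F with hF0
  have hF0c : ∀ m, F0.coeff m ≠ 0 → m = 0 ∨ m = b ∨ m = -b := by
    intro m hm
    rw [hF0, comp_coeff] at hm
    split_ifs at hm with h
    · rcases hlev m hm with h1 | h1 | h1
      · omega
      · omega
      · exact h1
    · exact absurd rfl hm
  have hF00 : F0.coeff 0 = F.coeff 0 := by rw [hF0, comp_coeff, if_pos (dot_zero w)]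
  have hF0b : F0.coeff b = F.coeff b := by rw [hF0, comp_coeff, if_pos hwb]
  have hF0nb : F0.coeff (-b) = (starRingEnd ℂ) (F.coeff b) := by
    rw [hF0, comp_coeff, if_pos (by rw [dot_neg]; omega), hsym]
  have hb0 : b ≠ 0 := by
    rintro rfl
    rw [dot_zero] at hb
    omega
  have hbnb : b ≠ -b := by
    intro h
    have := congrArg (dot (rot w)) h
    rw [dot_neg] at this
    omega
  have hsF0 : F0.coeff.support ⊆ {0, b, -b} := by
    intro m hm
    have := hF0c m (Finsupp.mem_support_iff.1 hm)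
    simpa using this
  have hFF : ∀ n, (F0 * F0).coeff n = F.coeff 0 * F0.coeff n + F.coeff b * F0.coeff (n - b) +
      (starRingEnd ℂ) (F.coeff b) * F0.coeff (n + b) := by
    intro n
    rw [mul_coeff' _ _ _ hsF0, Finset.sum_insert (by
      simp only [Finset.mem_insert, Finset.mem_singleton, not_or]
      exact ⟨hb0.symm, fun h => hb0 (by simpa using h.symm)⟩), Finset.sum_pair hbnb, hF00, hF0b,
      hF0nb, sub_zero, sub_neg_eq_add, add_assoc]
  have hFT : ∀ n, (F0 * F0).coeff n = 4 * (T * B).coeff n := by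
    intro n
    rw [hdel, K_mul_coeff, hTdef]
  -- vanishing of coefficients by level
  have hz : ∀ m, (∀ k, (k = p ∨ k = q ∨ k = r) → dot (rot w) m ≠ dot (rot w) k) →
      T.coeff m = 0 := by
    intro m hm
    by_contra h
    exact hm m (hmem m h) rfl
  have hz0 : ∀ m, dot (rot w) m ≠ 0 → dot (rot w) m ≠ dot (rot w) b →
      dot (rot w) m ≠ -dot (rot w) b → F0.coeff m = 0 := by
    intro m e1 e2 e3
    by_contra h
    rcases hF0c m h with h1 | h1 | h1
    · rw [h1, dot_zero] at e1; exact e1 rfl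
    · rw [h1] at e2; exact e2 rfl
    · rw [h1, dot_neg] at e3; exact e3 rfl
  have hzT : ∀ m, dot (rot w) m < dot (rot w) q → T.coeff m = 0 := by
    intro m hm
    refine hz m ?_
    rintro k (rfl | rfl | rfl) <;> omega
  -- the value at `p - q`
  have e1 : (T * B).coeff (p - q) = T.coeff p * (starRingEnd ℂ) (T.coeff q) := by
    rw [hTB, hzT (q - (p - q)) (by simp only [dot_sub]; omega),
      hzT (r - (p - q)) (by simp only [dot_sub]; omega)]
    simp
  have hlevFF : ∀ n, (F0 * F0).coeff n ≠ 0 → 0 < dot (rot w) n → n = b ∨ n = b + b := by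
    intro n hn hpos
    obtain ⟨m1, m2, h1, h2, rfl⟩ := exists_of_mul_coeff hn
    rcases hF0c m1 h1 with rfl | rfl | rfl <;> rcases hF0c m2 h2 with rfl | rfl | rfl <;>
      first
      | (exfalso; simp only [dot_add, dot_neg, dot_zero] at hpos; omega)
      | simp
  have conj_ne : ∀ {z : ℂ}, z ≠ 0 → (starRingEnd ℂ) z ≠ 0 := fun h => (map_ne_zero _).2 h
  have hlevTB : ∀ n, (T * B).coeff n ≠ 0 → 0 < dot (rot w) n →
      n = p - q ∨ n = p - r ∨ n = r - q := by
    intro n hn hpos
    obtain ⟨m1, m2, h1, h2, rfl⟩ := exists_of_mul_coeff hn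
    rw [hBc] at h2
    have h3 : T.coeff (-m2) ≠ 0 := fun h => h2 (by rw [h, map_zero])
    have h4 : ∃ k, m2 = -k ∧ (k = p ∨ k = q ∨ k = r) := ⟨-m2, (neg_neg _).symm, hmem _ h3⟩
    obtain ⟨k, rfl, hk⟩ := h4
    rcases hmem m1 h1 with rfl | rfl | rfl <;> rcases hk with rfl | rfl | rfl <;>
      first
      | (exfalso; simp only [dot_add, dot_neg] at hpos; omega)
      | simp [← sub_eq_add_neg]
  -- (1)
  have hpq_cases : p - q = b ∨ p - q = b + b := by
    refine hlevFF _ ?_ (by rw [dot_sub]; omega)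
    rw [hFT, e1]
    exact mul_ne_zero (by norm_num) (mul_ne_zero htp (conj_ne htq))
  have hpq_le : dot (rot w) p - dot (rot w) q ≤ 2 * dot (rot w) b := by
    rcases hpq_cases with h | h
    · have := congrArg (dot (rot w)) h
      rw [dot_sub] at this
      omega
    · have := congrArg (dot (rot w)) h
      rw [dot_sub, dot_add] at this
      omega
  -- (2)
  have e2 : (F0 * F0).coeff (b + b) = F.coeff b ^ 2 := by
    rw [hFF, hz0 (b + b) (by rw [dot_add]; omega) (by rw [dot_add]; omega)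
      (by rw [dot_add]; omega), hz0 (b + b + b) (by rw [dot_add, dot_add]; omega)
      (by rw [dot_add, dot_add]; omega) (by rw [dot_add, dot_add]; omega), add_sub_cancel_right,
      hF0b]
    ring
  have h2b : b + b = p - q := by
    have h1 : (T * B).coeff (b + b) ≠ 0 := by
      intro h
      have := hFT (b + b)
      rw [h, mul_zero, e2] at this
      exact hFb (pow_eq_zero_iff (two_ne_zero) |>.1 this)
    rcases hlevTB _ h1 (by rw [dot_add]; omega) with h | h | h
    · exact h
    · exfalso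
      have := congrArg (dot (rot w)) h
      rw [dot_sub, dot_add] at this
      omega
    · exfalso
      have := congrArg (dot (rot w)) h
      rw [dot_sub, dot_add] at this
      omega
  have hlpq : 2 * dot (rot w) b = dot (rot w) p - dot (rot w) q := by
    have := congrArg (dot (rot w)) h2b
    rw [dot_sub, dot_add] at this
    omega
  -- (3)
  have hsp : dot (rot w) p - dot (rot w) r = dot (rot w) b := by
    by_contra hne
    have h1 : (T * B).coeff (p - r) = T.coeff p * (starRingEnd ℂ) (T.coeff r) := by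
      rw [hTB, hzT (q - (p - r)) (by simp only [dot_sub]; omega),
        hz (r - (p - r)) (by
          rintro k (rfl | rfl | rfl) <;> simp only [dot_sub] <;> omega)]
      simp
    have h2 : (F0 * F0).coeff (p - r) ≠ 0 := by
      rw [hFT, h1]
      exact mul_ne_zero (by norm_num) (mul_ne_zero htp (conj_ne htr))
    rcases hlevFF _ h2 (by rw [dot_sub]; omega) with h | h
    · have := congrArg (dot (rot w)) h
      rw [dot_sub] at this
      exact hne this
    · have := congrArg (dot (rot w)) h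
      rw [dot_sub, dot_add] at this
      omega
  have hp : p = r + b :=
    eq_of_dots hw (by rw [dot_add]; omega) (by rw [dot_add]; omega)
  have hq : q = r - b :=
    eq_of_dots hw (by rw [dot_sub]; omega) (by rw [dot_sub]; omega)
  -- (4)
  have E1 : F.coeff b ^ 2 = 4 * (T.coeff p * (starRingEnd ℂ) (T.coeff q)) := by
    rw [← e2, hFT, h2b, e1]
  -- (5)
  have E2 : 2 * (F.coeff 0 * F.coeff b) = 4 * (T.coeff p * (starRingEnd ℂ) (T.coeff r) +
      T.coeff r * (starRingEnd ℂ) (T.coeff q)) := by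
    have h1 : (F0 * F0).coeff b = 2 * (F.coeff 0 * F.coeff b) := by
      rw [hFF, hz0 (b + b) (by rw [dot_add]; omega) (by rw [dot_add]; omega)
        (by rw [dot_add]; omega), sub_self, hF00, hF0b]
      ring
    have h2 : (T * B).coeff b = T.coeff p * (starRingEnd ℂ) (T.coeff r) +
        T.coeff r * (starRingEnd ℂ) (T.coeff q) := by
      rw [hTB, hzT (q - b) (by rw [dot_sub]; omega), show p - b = r by rw [hp]; abel,
        show r - b = q by rw [hq]]
      simp
    rw [← h1, hFT, h2]
  -- the double zero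
  have E3 : T.coeff r ^ 2 = 4 * (T.coeff p * T.coeff q) := by
    have s1 := hT1
    rw [ev_apply, hs, Finset.sum_insert (by simp [hpq, hpr]), Finset.sum_pair hqr'] at s1
    have s2 := sums _ hT2
    rw [hs, Finset.sum_insert (by simp [hpq, hpr]), Finset.sum_pair hqr'] at s2
    have c1 : (dot (rot w) p : ℂ) = dot (rot w) r + dot (rot w) b := by
      rw [← Int.cast_add]; congr 1; omega
    have c2 : (dot (rot w) q : ℂ) = dot (rot w) r - dot (rot w) b := by
      rw [← Int.cast_sub]; congr 1; omega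
    rw [c1, c2] at s2
    set zp := T.coeff p * chi x y p with hzp
    set zq := T.coeff q * chi x y q with hzq
    set zr := T.coeff r * chi x y r with hzr
    have hbC : (dot (rot w) b : ℂ) ≠ 0 := by
      have : dot (rot w) b ≠ 0 := by omega
      exact_mod_cast this
    have s3 : zp = zq := by
      have : (dot (rot w) b : ℂ) * (zp - zq) = 0 := by
        linear_combination s2 - (dot (rot w) r : ℂ) * s1
      exact sub_eq_zero.1 ((mul_eq_zero.1 this).resolve_left hbC)
    have s4 : zr ^ 2 = 4 * (zp * zq) := by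
      have : zr = -(zp + zq) := by linear_combination s1
      rw [this, s3]
      ring
    have s5 : chi x y p * chi x y q = chi x y r ^ 2 := by
      rw [← chi_add, sq, ← chi_add, hp, hq]
      congr 1
      abel
    have s6 : chi x y r ^ 2 * (T.coeff r ^ 2 - 4 * (T.coeff p * T.coeff q)) = 0 := by
      rw [hzr, hzp, hzq] at s4
      linear_combination s4 + 4 * T.coeff p * T.coeff q * s5
    exact sub_eq_zero.1 ((mul_eq_zero.1 s6).resolve_left (pow_ne_zero _ (chi_ne_zero x y r)))
  -- the square roots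
  have hFp : F.coeff p = T.coeff p := by rw [hTdef, comp_coeff, if_pos hwp]
  have hFq : F.coeff q = T.coeff q := by rw [hTdef, comp_coeff, if_pos hwq]
  have hFr : F.coeff r = T.coeff r := by rw [hTdef, comp_coeff, if_pos hwr]
  obtain ⟨al, hal⟩ : ∃ al : ℂ, al ^ 2 = T.coeff p := by
    obtain ⟨z, hz⟩ := IsAlgClosed.exists_pow_nat_eq (T.coeff p) (n := 2) (by norm_num)
    exact ⟨z, hz⟩
  have hal0 : al ≠ 0 := by
    rintro rfl
    exact htp (by rw [← hal]; simp)
  set be : ℂ := T.coeff r / (2 * al) with hbe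
  have hbe0 : be ≠ 0 := div_ne_zero htr (mul_ne_zero two_ne_zero hal0)
  have hr : T.coeff r = 2 * al * be := by
    rw [hbe]
    field_simp
  have hbe2 : be ^ 2 = T.coeff q := by
    have : 4 * al ^ 2 * (be ^ 2 - T.coeff q) = 0 := by
      rw [hr, ← hal] at E3
      linear_combination E3
    exact sub_eq_zero.1 ((mul_eq_zero.1 this).resolve_left
      (mul_ne_zero (by norm_num) (pow_ne_zero _ hal0)))
  rw [hr, ← hal, ← hbe2] at E2
  rw [← hal, ← hbe2] at E1
  simp only [map_mul, map_pow, map_ofNat] at E1 E2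
  set ab := (starRingEnd ℂ) al with hab
  set bb := (starRingEnd ℂ) be with hbb
  have hbb0 : bb ≠ 0 := conj_ne hbe0
  have hsgn : F.coeff b = 2 * al * bb ∨ F.coeff b = -(2 * al * bb) := by
    have : (F.coeff b - 2 * al * bb) * (F.coeff b + 2 * al * bb) = 0 := by
      linear_combination E1
    rcases mul_eq_zero.1 this with h | h
    · exact Or.inl (sub_eq_zero.1 h)
    · exact Or.inr (eq_neg_of_add_eq_zero_left h)
  have hsq : ∀ z : ℂ, z * (starRingEnd ℂ) z = ((‖z‖ ^ 2 : ℝ) : ℂ) := by
    intro z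
    rw [Complex.mul_conj, Complex.normSq_eq_norm_sq]
  have hne : (2 : ℂ) * al * bb ≠ 0 := mul_ne_zero (mul_ne_zero two_ne_zero hal0) hbb0
  have hF00' : F.coeff b = 2 * al * bb ∧ F.coeff 0 = 2 * (al * ab) + 2 * (be * bb) := by
    rcases hsgn with h | h
    · refine ⟨h, ?_⟩
      rw [h] at E2
      have : (2 * al * bb) * (F.coeff 0 - (2 * (al * ab) + 2 * (be * bb))) = 0 := by
        linear_combination E2 / 2
      exact sub_eq_zero.1 ((mul_eq_zero.1 this).resolve_left hne)
    · exfalso
      rw [h] at E2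
      have h1 : (2 * al * bb) * (F.coeff 0 + (2 * (al * ab) + 2 * (be * bb))) = 0 := by
        linear_combination -E2 / 2
      have h2 := (mul_eq_zero.1 h1).resolve_left hne
      rw [hab, hbb, hsq, hsq] at h2
      have h3 := congrArg Complex.re h2
      simp only [Complex.add_re, Complex.mul_re, Complex.re_ofNat, Complex.im_ofNat,
        Complex.ofReal_re, Complex.ofReal_im, Complex.zero_re] at h3
      nlinarith [sq_nonneg ‖al‖, sq_nonneg ‖be‖]
  refine ⟨r, b, al, be, ?_, hal0, hbe0, by rw [← hp, hFp, hal], by rw [← hq, hFq, hbe2],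
    by rw [hFr, hr], hF00'.1, hF00'.2, ?_⟩
  · intro hdet
    have hw1 : dot w r * b.1 = -w.2 * (r.1 * b.2 - r.2 * b.1) := by
      have := hwb
      simp only [dot] at this ⊢
      linear_combination r.1 * this
    have hw2 : dot w r * b.2 = w.1 * (r.1 * b.2 - r.2 * b.1) := by
      have := hwb
      simp only [dot] at this ⊢
      linear_combination r.2 * this
    rw [hdet, mul_zero, hwr] at hw1 hw2
    apply hb0
    have g1 := (mul_eq_zero.1 hw1).resolve_left hd.ne'
    have g2 := (mul_eq_zero.1 hw2).resolve_left hd.ne'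
    ext
    · exact g1
    · exact g2
  · intro m hm
    have hcase : ∀ m, F.coeff m ≠ 0 → dot w m = d → m = r ∨ m = r + b ∨ m = r - b := by
      intro m hm h
      have h1 : T.coeff m ≠ 0 := by
        rw [hTdef, comp_coeff, if_pos h]
        exact hm
      rcases hmem m h1 with h2 | h2 | h2
      · exact Or.inr (Or.inl (h2.trans hp))
      · exact Or.inr (Or.inr (h2.trans hq))
      · exact Or.inl h2
    rcases hlev m hm with h | h | h | h | h
    · rcases hcase m hm h with h1 | h1 | h1
      · exact Or.inr (Or.inl h1)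
      · exact Or.inr (Or.inr (Or.inr (Or.inr (Or.inr (Or.inl h1)))))
      · exact Or.inr (Or.inr (Or.inr (Or.inr (Or.inr (Or.inr (Or.inr (Or.inl h1)))))))
    · rcases hcase (-m) (hsym.ne hm) (by rw [dot_neg]; omega) with h1 | h1 | h1
      · exact Or.inr (Or.inr (Or.inl (by rw [← h1, neg_neg])))
      · exact Or.inr (Or.inr (Or.inr (Or.inr (Or.inr (Or.inr (Or.inl
          (by rw [← h1, neg_neg])))))))
      · exact Or.inr (Or.inr (Or.inr (Or.inr (Or.inr (Or.inr (Or.inr (Or.inr
          (by rw [← h1, neg_neg]))))))))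
    · exact Or.inl h
    · exact Or.inr (Or.inr (Or.inr (Or.inl h)))
    · exact Or.inr (Or.inr (Or.inr (Or.inr (Or.inl h))))

end

end Pool.Agent.DD7719.Plane
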