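import Pool.Agent.DD7719.PlaneD

/-! Edges, minima on the torus, the mean. -/

set_option autoImplicit false

namespace Pool.Agent.DD7719.Plane

open Finsupp

noncomputable section

/-- an element with two terms has an edge -/
theorem exists_edge {P : L} {m n : ℤ × ℤ} (hmn : m ≠ n) (hm : P.coeff m ≠ 0)
    (hn : P.coeff n ≠ 0) : ∃ (w : ℤ × ℤ) (d : ℤ) (m1 n1 : ℤ × ℤ), w ≠ 0 ∧ Le w d P ∧ m1 ≠ n1 ∧
      P.coeff m1 ≠ 0 ∧ P.coeff n1 ≠ 0 ∧ dot w m1 = d ∧ dot w n1 = d := by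
  classical
  obtain ⟨v, hv, hmax⟩ := P.coeff.support.exists_max_image Prod.fst
    ⟨m, Finsupp.mem_support_iff.2 hm⟩
  rw [Finsupp.mem_support_iff] at hv
  by_cases hc : ∃ k, k ≠ v ∧ P.coeff k ≠ 0 ∧ k.1 = v.1
  · obtain ⟨k, hk1, hk2, hk3⟩ := hc
    refine ⟨(1, 0), v.1, k, v, by simp, ?_, hk1, hk2, hv, by simp [dot, hk3], by simp [dot]⟩
    intro j hj
    have := hmax j (Finsupp.mem_support_iff.2 hj)
    simpa [dot] using this
  · push Not at hc
    have hlt : ∀ k, k ≠ v → P.coeff k ≠ 0 → k.1 < v.1 := fun k h1 h2 =>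
      lt_of_le_of_ne (hmax k (Finsupp.mem_support_iff.2 h2)) (hc k h1 h2)
    have hne : (P.coeff.support.erase v).Nonempty := by
      by_cases h : m = v
      · exact ⟨n, Finset.mem_erase.2 ⟨fun h' => hmn (h.trans h'.symm),
          Finsupp.mem_support_iff.2 hn⟩⟩
      · exact ⟨m, Finset.mem_erase.2 ⟨h, Finsupp.mem_support_iff.2 hm⟩⟩
    obtain ⟨k, hk, hmin⟩ := (P.coeff.support.erase v).exists_min_image
      (fun j => ((v.2 - j.2 : ℤ) : ℚ) / ((v.1 - j.1 : ℤ) : ℚ)) hne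
    rw [Finset.mem_erase, Finsupp.mem_support_iff] at hk
    have hk1 := hlt k hk.1 hk.2
    refine ⟨(-(v.2 - k.2), v.1 - k.1), dot (-(v.2 - k.2), v.1 - k.1) v, k, v, ?_, ?_, hk.1, hk.2,
      hv, ?_, rfl⟩
    · intro h
      have := congrArg Prod.snd h
      simp only [Prod.snd_zero] at this
      omega
    · intro j hj
      by_cases hjv : j = v
      · rw [hjv]
      have h1 := hmin j (Finset.mem_erase.2 ⟨hjv, Finsupp.mem_support_iff.2 hj⟩)
      have h2 := hlt j hjv hj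
      rw [div_le_div_iff₀ (by exact_mod_cast sub_pos.2 hk1) (by exact_mod_cast sub_pos.2 h2)] at h1
      have h3 : (v.2 - k.2) * (v.1 - j.1) ≤ (v.2 - j.2) * (v.1 - k.1) := by exact_mod_cast h1
      simp only [dot]
      nlinarith
    · simp only [dot]
      ring

/-- the top level of `F` in the direction of an edge of a good divisor -/
theorem top_three {w : ℤ × ℤ} (hw : w ≠ 0) {F P1 : L} (hF0 : F ≠ 0) {d1 : ℤ} (hP1 : Good F P1)
    (hd1 : Le w d1 P1) {m1 n1 : ℤ × ℤ} (hmn : m1 ≠ n1) (hm1 : P1.coeff m1 ≠ 0)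
    (hn1 : P1.coeff n1 ≠ 0) (hm1' : dot w m1 = d1) (hn1' : dot w n1 = d1) :
    ∃ m n, m ≠ n ∧ F.coeff m ≠ 0 ∧ F.coeff n ≠ 0 ∧ dot w m = dot w n := by
  obtain ⟨d, hd, hT0⟩ := exists_top w hF0
  have hPt0 : comp w d1 P1 ≠ 0 := by
    intro h
    have := congrArg (fun g : L => g.coeff m1) h
    simp only [comp_coeff, if_pos hm1'] at this
    exact hm1 this
  obtain ⟨x, y, hxy⟩ := exists_zero hw (comp_pure w d1 P1) hmn
    (by rw [comp_coeff, if_pos hm1']; exact hm1) (by rw [comp_coeff, if_pos hn1']; exact hn1)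
  have hev : ∀ (c : ℤ) (g : L), Le w c g → P1 ∣ g → ev x y (comp w c g) = 0 := by
    intro c g hg hdvd
    obtain ⟨Q, hQ⟩ := dvd_comp hd1 hPt0 hg hdvd
    rw [hQ, map_mul, hxy, zero_mul]
  have h3 := three_le hw (comp_pure w d F) hT0 (hev d F hd hP1.1)
    (by rw [D_comp]; exact hev d _ hd.D (hP1.2 _))
  obtain ⟨m, hm, n, hn, hmn'⟩ := Finset.one_lt_card.1 (show 1 < (comp w d F).coeff.support.card
    by omega)
  rw [Finsupp.mem_support_iff, comp_coeff] at hm hn
  split_ifs at hm hn with e1 e2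
  · exact ⟨m, n, hmn', hm, hn, e1.trans e2.symm⟩
  all_goals first | exact absurd rfl hm | exact absurd rfl hn

lemma chi_smul (x y : ℂˣ) (N : ℤ) (m : ℤ × ℤ) : chi x y (N • m) = chi x y m ^ N := by
  simp only [chi, Prod.smul_fst, Prod.smul_snd, smul_eq_mul]
  rw [← Units.val_zpow_eq_zpow_val, mul_zpow, ← zpow_mul, ← zpow_mul, mul_comm N, mul_comm N]

lemma chi_pow (x y : ℂˣ) (N : ℤ) (m : ℤ × ℤ) : chi (x ^ N) (y ^ N) m = chi x y (N • m) := by
  simp only [chi, Prod.smul_fst, Prod.smul_snd, smul_eq_mul, ← zpow_mul]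

lemma rot_decomp (w k : ℤ × ℤ) :
    (w.1 ^ 2 + w.2 ^ 2) • k = dot w k • w + dot (rot w) k • rot w := by
  ext
  · simp [dot, rot]; ring
  · simp [dot, rot]; ring

/-- the zeros of a pure element, seen by an orthogonal character -/
theorem pure_finite {w : ℤ × ℤ} (hw : w ≠ 0) {a : ℤ} {P : L} (hP : Pure w a P) (hP0 : P ≠ 0)
    {n : ℤ × ℤ} (hn : dot w n = 0) :
    {t : ℂ | ∃ x y : ℂˣ, ev x y P = 0 ∧ chi x y n = t}.Finite := by
  set e := rot w with he
  obtain ⟨N, hN⟩ : ∃ N : ℕ, ∀ m ∈ P.coeff.support, 0 ≤ dot e m + N := by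
    refine ⟨P.coeff.support.sup fun m => (dot e m).natAbs, fun m hm => ?_⟩
    have := Finset.le_sup (f := fun m => (dot e m).natAbs) hm
    omega
  set p : Polynomial ℂ := ∑ m ∈ P.coeff.support, Polynomial.monomial (dot e m + N).toNat
    (P.coeff m) with hp
  have hinj : ∀ m ∈ P.coeff.support, ∀ n ∈ P.coeff.support,
      (dot e m + N).toNat = (dot e n + N).toNat → m = n := by
    intro m hm n hn h
    have h1 := hN m hm
    have h2 := hN n hn
    refine eq_of_dots hw ?_ (show dot (rot w) m = dot (rot w) n by rw [← he]; omega)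
    rw [hP m (Finsupp.mem_support_iff.1 hm), hP n (Finsupp.mem_support_iff.1 hn)]
  have hp0 : p ≠ 0 := by
    obtain ⟨m, hm⟩ := exists_coeff_ne hP0
    have hm' := Finsupp.mem_support_iff.2 hm
    intro h
    have h1 : p.coeff (dot e m + N).toNat = P.coeff m := by
      rw [hp, Polynomial.finsetSum_coeff, Finset.sum_eq_single m]
      · rw [Polynomial.coeff_monomial, if_pos rfl]
      · intro n hn hnm
        rw [Polynomial.coeff_monomial, if_neg]
        exact fun h => hnm (hinj n hn m hm' h)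
      · exact fun h => absurd hm' h
    rw [h, Polynomial.coeff_zero] at h1
    exact hm h1.symm
  refine Set.Finite.subset ((p.roots.toFinset.finite_toSet).image fun s => s ^ dot e n) ?_
  rintro t ⟨x, y, hxy, rfl⟩
  set M : ℤ := w.1 ^ 2 + w.2 ^ 2 with hM
  have hMpos : 0 < M := by
    by_contra h
    apply hw
    have h3 : w.1 = 0 := by nlinarith [sq_nonneg w.1, sq_nonneg w.2]
    have h4 : w.2 = 0 := by nlinarith [sq_nonneg w.1, sq_nonneg w.2]
    ext
    · exact h3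
    · exact h4
  obtain ⟨M', hM'⟩ : ∃ M' : ℕ, M = M' := ⟨M.toNat, (Int.toNat_of_nonneg hMpos.le).symm⟩
  have hroot : ∀ x : ℂˣ, ∃ ξ : ℂˣ, ξ ^ M = x := by
    intro x
    obtain ⟨z, hz⟩ := IsAlgClosed.exists_pow_nat_eq (x : ℂ) (n := M') (by omega)
    have hz0 : z ≠ 0 := by
      rintro rfl
      rw [zero_pow (by omega)] at hz
      exact x.ne_zero hz.symm
    refine ⟨Units.mk0 z hz0, ?_⟩
    rw [hM', zpow_natCast]
    ext
    simpa using hz
  obtain ⟨ξ, rfl⟩ := hroot x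
  obtain ⟨η, rfl⟩ := hroot y
  have hchi : ∀ k, chi (ξ ^ M) (η ^ M) k = chi ξ η w ^ dot w k * chi ξ η e ^ dot e k := by
    intro k
    rw [chi_pow, rot_decomp, chi_add, chi_smul, chi_smul]
  set s := chi ξ η e with hs
  have hs0 : s ≠ 0 := chi_ne_zero _ _ _
  have hroots : p.eval s = 0 := by
    have h1 : s ^ N * ev (ξ ^ M) (η ^ M) P = chi ξ η w ^ a * p.eval s := by
      rw [ev_apply, hp, Polynomial.eval_finsetSum, Finset.mul_sum, Finset.mul_sum]
      refine Finset.sum_congr rfl fun m hm => ?_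
      have h3 : s ^ (dot e m + N).toNat = s ^ dot e m * s ^ N := by
        rw [← zpow_natCast, Int.toNat_of_nonneg (hN m hm), zpow_add₀ hs0, zpow_natCast]
      rw [Polynomial.eval_monomial, hchi, h3, hP m (Finsupp.mem_support_iff.1 hm)]
      ring
    rw [hxy, mul_zero] at h1
    exact (mul_eq_zero.1 h1.symm).resolve_left (zpow_ne_zero _ (chi_ne_zero _ _ _))
  refine ⟨s, ?_, ?_⟩
  · rw [Finset.mem_coe, Multiset.mem_toFinset, Polynomial.mem_roots hp0]
    exact hroots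
  · change s ^ dot e n = _
    rw [hchi, hn]
    simp

lemma norm_chi {x y : ℂˣ} (hx : ‖(x : ℂ)‖ = 1) (hy : ‖(y : ℂ)‖ = 1) (m : ℤ × ℤ) :
    ‖chi x y m‖ = 1 := by
  simp only [chi, Units.val_mul, Units.val_zpow_eq_zpow_val, norm_mul, norm_zpow, hx, hy]
  simp

lemma conj_chi {x y : ℂˣ} (hx : ‖(x : ℂ)‖ = 1) (hy : ‖(y : ℂ)‖ = 1) (m : ℤ × ℤ) :
    (starRingEnd ℂ) (chi x y m) = chi x y (-m) := by
  have h1 : chi x y m * chi x y (-m) = 1 := by rw [← chi_add, add_neg_cancel, chi_zero]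
  have h2 : chi x y m * (starRingEnd ℂ) (chi x y m) = 1 := by
    rw [Complex.mul_conj, Complex.normSq_eq_norm_sq, norm_chi hx hy]
    simp
  exact mul_left_cancel₀ (chi_ne_zero x y m) (h2.trans h1.symm)

lemma conj_ev {x y : ℂˣ} (hx : ‖(x : ℂ)‖ = 1) (hy : ‖(y : ℂ)‖ = 1) {ε : ℂ}
    (hε : ε = 1 ∨ ε = -1) {f : L}
    (hf : ∀ m, f.coeff (-m) = ε * (starRingEnd ℂ) (f.coeff m)) :
    (starRingEnd ℂ) (ev x y f) = ε * ev x y f := by
  have hε2 : ε * ε = 1 := by rcases hε with rfl | rfl <;> norm_num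
  rw [ev_apply, map_sum, Finset.mul_sum]
  have hne : ∀ m, f.coeff m ≠ 0 → f.coeff (-m) ≠ 0 := by
    intro m hm
    rw [hf]
    exact mul_ne_zero (left_ne_zero_of_mul_eq_one hε2) ((map_ne_zero _).2 hm)
  refine Finset.sum_bij' (fun m _ => -m) (fun m _ => -m) ?_ ?_ (fun m _ => neg_neg m)
    (fun m _ => neg_neg m) ?_
  · intro m hm
    rw [Finsupp.mem_support_iff] at hm ⊢
    exact hne m hm
  · intro m hm
    rw [Finsupp.mem_support_iff] at hm ⊢
    exact hne m hm
  · intro m _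
    rw [map_mul, conj_chi hx hy, hf]
    linear_combination -((starRingEnd ℂ) (f.coeff m) * chi x y (-m)) * hε2

/-- at a zero on the torus all derivatives vanish -/
theorem ev_D_eq_zero {F : L} (hsym : Sym F)
    (hpos : ∀ x y : ℂˣ, ‖(x : ℂ)‖ = 1 → ‖(y : ℂ)‖ = 1 → 0 ≤ (ev x y F).re) {x y : ℂˣ}
    (hx : ‖(x : ℂ)‖ = 1) (hy : ‖(y : ℂ)‖ = 1) (h : ev x y F = 0) (u : ℤ × ℤ) :
    ev x y (D u F) = 0 := by
  -- the real part
  have h1 : (starRingEnd ℂ) (ev x y (D u F)) = (-1) * ev x y (D u F) := by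
    refine conj_ev hx hy (Or.inr rfl) fun m => ?_
    rw [D_coeff, D_coeff, hsym, dot_neg, map_mul]
    simp
  have hre : (ev x y (D u F)).re = 0 := by
    have := congrArg Complex.re h1
    simp only [Complex.conj_re, neg_mul, one_mul, Complex.neg_re] at this
    linarith
  -- the imaginary part
  let E : ℝ → ℂˣ := fun t => Units.mk0 (Complex.exp (t * Complex.I)) (Complex.exp_ne_zero _)
  have hE : ∀ t, ‖(E t : ℂ)‖ = 1 := fun t => Complex.norm_exp_ofReal_mul_I t
  let g : ℝ → ℂ := fun t => ∑ m ∈ F.coeff.support, F.coeff m * chi x y m *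
    Complex.exp ((dot u m : ℂ) * ((t : ℂ) * Complex.I))
  have hg : ∀ t, g t = ev (x * E t ^ u.1) (y * E t ^ u.2) F := by
    intro t
    rw [ev_apply]
    refine Finset.sum_congr rfl fun m _ => ?_
    rw [mul_assoc]
    congr 1
    have h2 : Complex.exp ((dot u m : ℂ) * ((t : ℂ) * Complex.I)) =
        ((E t ^ dot u m : ℂˣ) : ℂ) := by
      rw [Units.val_zpow_eq_zpow_val]
      change _ = Complex.exp (t * Complex.I) ^ dot u m
      rw [← Complex.exp_int_mul]
    rw [h2, chi, chi, ← Units.val_mul]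
    congr 1
    rw [mul_zpow, mul_zpow, ← zpow_mul, ← zpow_mul, dot, zpow_add]
    exact (mul_mul_mul_comm _ _ _ _)
  have hgpos : ∀ t, 0 ≤ (g t).re := by
    intro t
    rw [hg]
    refine hpos _ _ ?_ ?_
    · rw [Units.val_mul, Units.val_zpow_eq_zpow_val, norm_mul, norm_zpow, hE, hx]; simp
    · rw [Units.val_mul, Units.val_zpow_eq_zpow_val, norm_mul, norm_zpow, hE, hy]; simp
  have hg0 : g 0 = 0 := by
    rw [← h, ev_apply]
    refine Finset.sum_congr rfl fun m _ => ?_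
    simp
  have hder : HasDerivAt g (Complex.I * ev x y (D u F)) 0 := by
    have e : Complex.I * ev x y (D u F) = ∑ m ∈ F.coeff.support, F.coeff m * chi x y m *
        ((dot u m : ℂ) * Complex.I) := by
      rw [ev_apply, Finset.mul_sum]
      refine (Finset.sum_subset (D_support u F) fun m _ hm => ?_).trans
        (Finset.sum_congr rfl fun m _ => ?_)
      · rw [Finsupp.notMem_support_iff.1 hm]; simp
      · rw [D_coeff]; ring
    rw [e]
    refine HasDerivAt.fun_sum fun m _ => ?_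
    have h3 : HasDerivAt (fun t : ℝ => (dot u m : ℂ) * ((t : ℂ) * Complex.I))
        ((dot u m : ℂ) * (1 * Complex.I)) 0 :=
      ((Complex.ofRealCLM.hasDerivAt (x := (0 : ℝ))).mul_const Complex.I).const_mul _
    have h4 := h3.cexp
    have h5 := h4.const_mul (F.coeff m * chi x y m)
    have h6 : F.coeff m * chi x y m * ((dot u m : ℂ) * Complex.I) = F.coeff m * chi x y m *
        (Complex.exp ((dot u m : ℂ) * (((0 : ℝ) : ℂ) * Complex.I)) *
          ((dot u m : ℂ) * (1 * Complex.I))) := by simp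
    rw [h6]
    exact h5
  have hder' : HasDerivAt (fun t => (g t).re) (Complex.I * ev x y (D u F)).re 0 :=
    Complex.reCLM.hasFDerivAt.comp_hasDerivAt (0 : ℝ) hder
  have hmin : IsLocalMin (fun t => (g t).re) 0 := by
    refine Filter.Eventually.of_forall fun t => ?_
    change (g 0).re ≤ (g t).re
    rw [hg0]
    exact hgpos t
  have him := hmin.hasDerivAt_eq_zero hder'
  apply Complex.ext
  · exact hre
  · simp only [Complex.mul_re, Complex.I_re, Complex.I_im, zero_mul, one_mul, zero_sub,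
      neg_eq_zero] at him
    exact him

/-- the mean of a non-negative polynomial -/
theorem mean_nonneg {F : L}
    (hpos : ∀ x y : ℂˣ, ‖(x : ℂ)‖ = 1 → ‖(y : ℂ)‖ = 1 → 0 ≤ (ev x y F).re) :
    0 ≤ (F.coeff 0).re := by
  classical
  set S := F.coeff.support with hS
  obtain ⟨M, hM0, hM⟩ : ∃ M : ℕ, 0 < M ∧ ∀ m ∈ S, m.1.natAbs < M ∧ m.2.natAbs < M := by
    refine ⟨(S.sup fun m => m.1.natAbs + m.2.natAbs) + 1, by omega, fun m hm => ?_⟩
    have := Finset.le_sup (f := fun m : ℤ × ℤ => m.1.natAbs + m.2.natAbs) hm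
    omega
  set ζ : ℂ := Complex.exp (2 * Real.pi * Complex.I / M) with hζ
  have hprim : IsPrimitiveRoot ζ M := Complex.isPrimitiveRoot_exp M hM0.ne'
  have hζ0 : ζ ≠ 0 := Complex.exp_ne_zero _
  have hζn : ‖ζ‖ = 1 := hprim.norm'_eq_one hM0.ne'
  let z : ℂˣ := Units.mk0 ζ hζ0
  have hz : ∀ i : ℕ, ‖((z ^ i : ℂˣ) : ℂ)‖ = 1 := by
    intro i
    rw [Units.val_pow_eq_pow_val, norm_pow]
    change ‖ζ‖ ^ i = 1
    rw [hζn, one_pow]
  have hgeo : ∀ k : ℤ, k.natAbs < M → k ≠ 0 → ∑ i ∈ Finset.range M, (ζ ^ k) ^ i = 0 := by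
    intro k hk hk0
    have h1 : ζ ^ k ≠ 1 := by
      intro h
      have h2 := (hprim.zpow_eq_one_iff_dvd k).1 h
      have h3 := Int.natAbs_dvd_natAbs.2 h2
      have h4 := Nat.le_of_dvd (Int.natAbs_pos.2 hk0) h3
      simp at h4
      omega
    rw [geom_sum_eq h1]
    have h2 : (ζ ^ k) ^ M = 1 := by
      rw [← zpow_natCast, ← zpow_mul, mul_comm, zpow_mul, zpow_natCast, hprim.pow_eq_one, one_zpow]
    rw [h2]
    simp
  have hchi : ∀ (i j : ℕ) (m : ℤ × ℤ), chi (z ^ i) (z ^ j) m = (ζ ^ m.1) ^ i * (ζ ^ m.2) ^ j := by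
    intro i j m
    rw [chi, Units.val_mul, Units.val_zpow_eq_zpow_val, Units.val_zpow_eq_zpow_val,
      Units.val_pow_eq_pow_val, Units.val_pow_eq_pow_val]
    change (ζ ^ i) ^ m.1 * (ζ ^ j) ^ m.2 = _
    rw [← zpow_natCast, ← zpow_natCast, ← zpow_natCast, ← zpow_natCast, ← zpow_mul, ← zpow_mul,
      ← zpow_mul, ← zpow_mul, mul_comm (i : ℤ), mul_comm (j : ℤ)]
  have hsum : ∑ i ∈ Finset.range M, ∑ j ∈ Finset.range M, ev (z ^ i) (z ^ j) F =
      (M : ℂ) * M * F.coeff 0 := by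
    have e1 : ∑ i ∈ Finset.range M, ∑ j ∈ Finset.range M, ev (z ^ i) (z ^ j) F =
        ∑ m ∈ S, F.coeff m * ((∑ i ∈ Finset.range M, (ζ ^ m.1) ^ i) *
          ∑ j ∈ Finset.range M, (ζ ^ m.2) ^ j) := by
      simp_rw [ev_apply, hchi, Finset.sum_mul_sum, Finset.mul_sum]
      calc ∑ i ∈ Finset.range M, ∑ j ∈ Finset.range M, ∑ m ∈ F.coeff.support,
            F.coeff m * ((ζ ^ m.1) ^ i * (ζ ^ m.2) ^ j)
          = ∑ i ∈ Finset.range M, ∑ m ∈ F.coeff.support, ∑ j ∈ Finset.range M,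
            F.coeff m * ((ζ ^ m.1) ^ i * (ζ ^ m.2) ^ j) :=
            Finset.sum_congr rfl fun i _ => Finset.sum_comm
        _ = _ := Finset.sum_comm
    rw [e1, Finset.sum_eq_single (0 : ℤ × ℤ)]
    · simp
      ring
    · intro m hm hm0
      have h1 := hM m hm
      by_cases h2 : m.1 = 0
      · have h3 : m.2 ≠ 0 := by
          intro h3
          apply hm0
          ext
          · exact h2
          · exact h3
        rw [hgeo m.2 h1.2 h3, mul_zero, mul_zero]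
      · rw [hgeo m.1 h1.1 h2, zero_mul, mul_zero]
    · intro h
      rw [Finsupp.notMem_support_iff.1 h, zero_mul]
  have h1 : 0 ≤ (∑ i ∈ Finset.range M, ∑ j ∈ Finset.range M, ev (z ^ i) (z ^ j) F).re := by
    rw [Complex.re_sum]
    refine Finset.sum_nonneg fun i _ => ?_
    rw [Complex.re_sum]
    exact Finset.sum_nonneg fun j _ => hpos _ _ (hz i) (hz j)
  rw [hsum] at h1
  have h2 : ((M : ℂ) * M * F.coeff 0).re = (M : ℝ) * M * (F.coeff 0).re := by
    have : (M : ℂ) * M = ((M * M : ℝ) : ℂ) := by push_cast; ring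
    rw [this, Complex.re_ofReal_mul]
  rw [h2] at h1
  have h3 : (0 : ℝ) < M * M := by positivity
  exact (mul_nonneg_iff_of_pos_left h3).1 h1

end

end Pool.Agent.DD7719.Plane
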