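import Pool.Agent.DD7719.Minima

/-! Near orthogonality of reduced bases of `𝓞 K ^ N`. -/

namespace Pool.Agent.DD7719.M

open Module Matrix NumberField

variable {K : Type*} [Field K] [NumberField K] {N : ℕ}

/-- product of all absolute values of a nonzero algebraic integer is at least one -/
lemma one_le_prod_embeddings (x : 𝓞 K) (hx : x ≠ 0) : 1 ≤ ∏ σ : K →+* ℂ, ‖σ (x : K)‖ := by
  have h1 : ((Algebra.norm ℚ (x : K) : ℚ) : ℂ) = ∏ σ : K →+* ℂ, σ (x : K) := by
    have := Algebra.norm_eq_prod_embeddings ℚ ℂ (x : K)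
    rw [eq_ratCast] at this
    rw [this]
    exact Fintype.prod_equiv (RingHom.equivRatAlgHom K ℂ).symm _ _ (fun σ => rfl)
  rw [← norm_prod, ← h1]
  have h2 : (Algebra.norm ℚ (x : K)) = ((Algebra.norm ℤ x : ℤ) : ℚ) := (Algebra.coe_norm_int x).symm
  rw [h2]
  have h3 : Algebra.norm ℤ x ≠ 0 := Algebra.norm_ne_zero_iff.mpr hx
  have h4 : (1 : ℝ) ≤ |((Algebra.norm ℤ x : ℤ) : ℝ)| := by
    exact_mod_cast Int.one_le_abs h3
  simpa using h4

/-- the matrix of a basis in the coordinates `A σ`, normalised by `lam`. -/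
noncomputable def gmat (A : (K →+* ℂ) → Matrix (Fin N) (Fin N) ℂ) (y : Fin N → Fin N → 𝓞 K)
    (lam : Fin N → ℝ) (σ : K →+* ℂ) : Matrix (Fin N) (Fin N) ℂ :=
  Matrix.of fun j i => ((A σ).mulVec (fun k => σ (y i k : K)) j) / lam i

lemma gmat_eq (A : (K →+* ℂ) → Matrix (Fin N) (Fin N) ℂ) (y : Fin N → Fin N → 𝓞 K)
    (lam : Fin N → ℝ) (σ : K →+* ℂ) :
    gmat A y lam σ = A σ * ((Matrix.of y).map (fun x : 𝓞 K => σ (x : K)))ᵀ *
      Matrix.diagonal (fun i => ((lam i : ℂ))⁻¹) := by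
  ext j i
  rw [Matrix.mul_diagonal]
  simp only [gmat, Matrix.of_apply, Matrix.mul_apply, Matrix.mulVec, dotProduct, div_eq_mul_inv,
    Matrix.transpose_apply, Matrix.map_apply]

lemma norm_det_gmat (A : (K →+* ℂ) → Matrix (Fin N) (Fin N) ℂ) (y : Fin N → Fin N → 𝓞 K)
    (lam : Fin N → ℝ) (hlam : ∀ i, 0 < lam i) (σ : K →+* ℂ) :
    ‖(gmat A y lam σ).det‖ = ‖(A σ).det‖ * ‖σ ((Matrix.of y).det : K)‖ / ∏ i, lam i := by
  rw [gmat_eq, Matrix.det_mul, Matrix.det_mul, Matrix.det_transpose, Matrix.det_diagonal]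
  have h1 : ((Matrix.of y).map (fun x : 𝓞 K => σ (x : K))).det = σ ((Matrix.of y).det : K) := by
    exact ((σ.comp (algebraMap (𝓞 K) K)).map_det (Matrix.of y)).symm
  rw [h1, norm_mul, norm_mul, norm_prod, div_eq_mul_inv]
  congr 1
  rw [← Finset.prod_inv_distrib]
  apply Finset.prod_congr rfl
  intro i _
  rw [norm_inv, Complex.norm_real, Real.norm_of_nonneg (hlam i).le]

lemma norm_det_le {n : ℕ} (M : Matrix (Fin n) (Fin n) ℂ) (c : ℝ) (h : ∀ i j, ‖M i j‖ ≤ c) :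
    ‖M.det‖ ≤ n.factorial * c ^ n := by
  rw [Matrix.det_apply]
  refine (norm_sum_le _ _).trans ?_
  have : ∀ τ ∈ (Finset.univ : Finset (Equiv.Perm (Fin n))),
      ‖Equiv.Perm.sign τ • ∏ i, M (τ i) i‖ ≤ c ^ n := by
    intro τ _
    rw [Units.smul_def, zsmul_eq_mul, norm_mul]
    have h1 : ‖((Equiv.Perm.sign τ : ℤ) : ℂ)‖ = 1 := by
      rcases Int.units_eq_one_or (Equiv.Perm.sign τ) with h | h <;> simp [h]
    rw [h1, one_mul, norm_prod]
    calc ∏ i, ‖M (τ i) i‖ ≤ ∏ _i : Fin n, c :=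
          Finset.prod_le_prod (fun i _ => norm_nonneg _) (fun i _ => h _ _)
      _ = c ^ n := by simp
  refine (Finset.sum_le_card_nsmul _ _ _ this).trans ?_
  simp [Fintype.card_perm]

/-- a reduced basis: `gmat` has bounded entries and determinant bounded from below, at every
embedding. -/
structure Reduced (c : ℝ) (A : (K →+* ℂ) → Matrix (Fin N) (Fin N) ℂ)
    (y : Fin N → Fin N → 𝓞 K) (lam : Fin N → ℝ) : Prop where
  pos : ∀ i, 0 < lam i
  upper : ∀ σ j i, ‖gmat A y lam σ j i‖ ≤ c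
  lower : ∀ σ, 1 / c ≤ ‖(gmat A y lam σ).det‖
  index : ∃ Δ : 𝓞 K, Δ ≠ 0 ∧ ∏ σ : K →+* ℂ, ‖σ (Δ : K)‖ ≤ c ∧
    ∀ (z : Fin N → 𝓞 K) (a : Fin N → K), toK z = ∑ l, a l • toK (y l) →
      ∀ l, IsIntegral ℤ ((Δ : K) * a l)

lemma nrm_le_entry (A : (K →+* ℂ) → Matrix (Fin N) (Fin N) ℂ) (y : Fin N → K) (σ : K →+* ℂ)
    (j : Fin N) : ‖(A σ).mulVec (fun i => σ (y i)) j‖ ^ 2 ≤ nrm A y := by
  unfold nrm
  refine le_trans ?_ (Finset.single_le_sum (f := fun σ : K →+* ℂ =>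
    ∑ j, ‖(A σ).mulVec (fun i => σ (y i)) j‖ ^ 2) (fun σ _ => Finset.sum_nonneg fun j _ => sq_nonneg _)
    (Finset.mem_univ σ))
  exact Finset.single_le_sum (f := fun j => ‖(A σ).mulVec (fun i => σ (y i)) j‖ ^ 2)
    (fun j _ => sq_nonneg _) (Finset.mem_univ j)

/-- coordinates with respect to an independent family of integral vectors have bounded
denominators. -/
lemma isIntegral_det_mul (y : Fin N → Fin N → 𝓞 K) (z : Fin N → 𝓞 K) (a : Fin N → K)
    (h : toK z = ∑ l, a l • toK (y l)) (l : Fin N) :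
    IsIntegral ℤ (((Matrix.of y).det : K) * a l) := by
  have h1 : ((Matrix.of y).map (algebraMap (𝓞 K) K))ᵀ.mulVec a = toK z := by
    rw [h]
    funext i
    simp [Matrix.mulVec, dotProduct, toK, mul_comm]
  have h2 : ((Matrix.of y).map (algebraMap (𝓞 K) K))ᵀ.adjugate.mulVec (toK z) =
      ((Matrix.of y).map (algebraMap (𝓞 K) K)).det • a := by
    rw [← h1, Matrix.mulVec_mulVec, Matrix.adjugate_mul, Matrix.det_transpose,
      Matrix.smul_mulVec, Matrix.one_mulVec]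
  have h3 := congrFun h2 l
  have h4 : ((Matrix.of y).map (algebraMap (𝓞 K) K)).det = (((Matrix.of y).det : 𝓞 K) : K) :=
    (RingHom.map_det (algebraMap (𝓞 K) K) (Matrix.of y)).symm
  rw [h4, Pi.smul_apply, smul_eq_mul] at h3
  rw [← h3]
  have h5 : ((Matrix.of y).map (algebraMap (𝓞 K) K))ᵀ.adjugate =
      ((Matrix.of y)ᵀ.adjugate).map (algebraMap (𝓞 K) K) := by
    rw [← Matrix.transpose_map]
    exact (RingHom.map_adjugate (algebraMap (𝓞 K) K) _).symm
  rw [h5]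
  have h6 : (((Matrix.of y)ᵀ.adjugate).map (algebraMap (𝓞 K) K)).mulVec (toK z) l =
      ((((Matrix.of y)ᵀ.adjugate).mulVec z l : 𝓞 K) : K) := by
    simp [Matrix.mulVec, dotProduct, toK]
  rw [h6]
  exact RingOfIntegers.isIntegral_coe _

/-- Minkowski's second theorem gives reduced bases. -/
theorem exists_reduced (K : Type*) [Field K] [NumberField K] (N : ℕ) :
    ∃ C : ℝ, 1 ≤ C ∧ ∀ (A : (K →+* ℂ) → Matrix (Fin N) (Fin N) ℂ)
      (_ : ∀ σ j i, (starRingEnd ℂ) (A σ j i) = A (ComplexEmbedding.conjugate σ) j i)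
      (_ : ∀ σ, (A σ).det ≠ 0),
      ∃ (y : Fin N → Fin N → 𝓞 K) (lam : Fin N → ℝ), Monotone lam ∧
        LinearIndependent K (fun i => toK (y i)) ∧ Reduced C A y lam ∧
        (∏ i, lam i) ^ (Fintype.card (K →+* ℂ)) ≤ C * ∏ σ, ‖(A σ).det‖ := by
  obtain ⟨C, hC, hmain⟩ := minkowski_second K N
  set D := Fintype.card (K →+* ℂ) with hD
  have hfin : finrank ℚ K = D := (Embeddings.card K ℂ).symm
  have hfac1 : (1 : ℝ) ≤ (N.factorial : ℝ) ^ D :=
    one_le_pow₀ (by exact_mod_cast N.factorial_pos)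
  refine ⟨1 + C * (N.factorial : ℝ) ^ D, ?_, ?_⟩
  · have : 0 ≤ C * (N.factorial : ℝ) ^ D := by positivity
    linarith
  intro A hconj hdet
  obtain ⟨y, lam, hpos, hmono, hli, hnrm, hprod⟩ := hmain A hconj hdet
  have hfac : (0 : ℝ) < N.factorial := by exact_mod_cast N.factorial_pos
  have hupper : ∀ σ j i, ‖gmat A y lam σ j i‖ ≤ 1 := by
    intro σ j i
    simp only [gmat, Matrix.of_apply, norm_div, Complex.norm_real, Real.norm_of_nonneg (hpos i).le]
    rw [div_le_one (hpos i)]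
    have := nrm_le_entry A (toK (y i)) σ j
    rw [hnrm i] at this
    exact (pow_le_pow_iff_left₀ (norm_nonneg _) (hpos i).le two_ne_zero).mp this
  have hYdet : (Matrix.of y).det ≠ 0 := by
    intro h
    have h1 : ((Matrix.of y).map (algebraMap (𝓞 K) K)).det = 0 := by
      rw [← RingHom.mapMatrix_apply, ← RingHom.map_det, h, map_zero]
    have h2 : LinearIndependent K (fun i => ((Matrix.of y).map (algebraMap (𝓞 K) K)).row i) := hli
    rw [Matrix.linearIndependent_rows_iff_isUnit, Matrix.isUnit_iff_isUnit_det, h1] at h2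
    simp at h2
  have hN := one_le_prod_embeddings _ hYdet
  have h1 : ∏ σ : K →+* ℂ, ‖(gmat A y lam σ).det‖ =
      (∏ σ : K →+* ℂ, ‖(A σ).det‖) * (∏ σ : K →+* ℂ, ‖σ ((Matrix.of y).det : K)‖) /
        (∏ i, lam i) ^ D := by
    simp only [norm_det_gmat A y lam hpos]
    rw [Finset.prod_div_distrib, Finset.prod_mul_distrib]
    simp [hD]
  have hA : 0 < ∏ σ : K →+* ℂ, ‖(A σ).det‖ :=
    Finset.prod_pos fun σ _ => norm_pos_iff.mpr (hdet σ)
  have hlamprod : 0 < ∏ i, lam i := Finset.prod_pos fun i _ => hpos i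
  have hle : ∀ τ, ‖(gmat A y lam τ).det‖ ≤ (N.factorial : ℝ) := by
    intro τ
    have := norm_det_le (gmat A y lam τ) 1 (fun i j => hupper τ i j)
    simpa using this
  refine ⟨y, lam, hmono, hli, ⟨hpos, ?_, ?_, ?_⟩, ?_⟩
  · intro σ j i
    refine (hupper σ j i).trans ?_
    have : 0 ≤ C * (N.factorial : ℝ) ^ D := by positivity
    linarith
  · intro σ
    have h2 : 1 / C ≤ ∏ σ : K →+* ℂ, ‖(gmat A y lam σ).det‖ := by
      rw [h1, div_le_div_iff₀ hC (by positivity), one_mul]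
      rw [hfin] at hprod
      have h5 : 0 ≤ C * ∏ σ : K →+* ℂ, ‖(A σ).det‖ := by positivity
      nlinarith [mul_le_mul_of_nonneg_left hN h5]
    have hone : (1 : ℝ) ≤ N.factorial := by exact_mod_cast N.factorial_pos
    classical
    have h3 : ∏ τ ∈ Finset.univ.erase σ, ‖(gmat A y lam τ).det‖ ≤ (N.factorial : ℝ) ^ D := by
      calc ∏ τ ∈ Finset.univ.erase σ, ‖(gmat A y lam τ).det‖
          ≤ ∏ _τ ∈ Finset.univ.erase σ, (N.factorial : ℝ) :=
            Finset.prod_le_prod (fun i _ => norm_nonneg _) (fun i _ => hle i)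
        _ = (N.factorial : ℝ) ^ (Finset.univ.erase σ).card := by simp
        _ ≤ (N.factorial : ℝ) ^ D := by
            apply pow_le_pow_right₀ hone
            rw [hD]
            exact Finset.card_le_card (Finset.erase_subset _ _)
    rw [← Finset.mul_prod_erase Finset.univ _ (Finset.mem_univ σ)] at h2
    have h4 : 1 / C ≤ ‖(gmat A y lam σ).det‖ * (N.factorial : ℝ) ^ D :=
      h2.trans (mul_le_mul_of_nonneg_left h3 (norm_nonneg _))
    have h5 : (0 : ℝ) < (N.factorial : ℝ) ^ D := by positivity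
    rw [div_le_iff₀ hC] at h4
    rw [div_le_iff₀ (by positivity)]
    have h6 := norm_nonneg (gmat A y lam σ).det
    nlinarith
  · refine ⟨(Matrix.of y).det, hYdet, ?_, fun z a h l => isIntegral_det_mul y z a h l⟩
    have h2 : ∏ σ : K →+* ℂ, ‖(gmat A y lam σ).det‖ ≤ (N.factorial : ℝ) ^ D := by
      calc ∏ σ : K →+* ℂ, ‖(gmat A y lam σ).det‖ ≤ ∏ _σ : K →+* ℂ, (N.factorial : ℝ) :=
            Finset.prod_le_prod (fun i _ => norm_nonneg _) (fun i _ => hle i)
        _ = _ := by simp [hD]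
    rw [h1, div_le_iff₀ (by positivity)] at h2
    rw [hfin] at hprod
    have h3 : (∏ σ : K →+* ℂ, ‖(A σ).det‖) * (∏ σ : K →+* ℂ, ‖σ ((Matrix.of y).det : K)‖) ≤
        (∏ σ : K →+* ℂ, ‖(A σ).det‖) * (C * (N.factorial : ℝ) ^ D) := by
      refine h2.trans ?_
      calc (N.factorial : ℝ) ^ D * (∏ i, lam i) ^ D
          ≤ (N.factorial : ℝ) ^ D * (C * ∏ σ : K →+* ℂ, ‖(A σ).det‖) := by gcongr
        _ = _ := by ring
    have h4 := le_of_mul_le_mul_left h3 hA
    linarith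
  · rw [hfin] at hprod
    refine hprod.trans ?_
    apply mul_le_mul_of_nonneg_right _ hA.le
    nlinarith

end Pool.Agent.DD7719.M
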