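import Mathlib

/-! Representation of linear recurrence sequences by generalised powers. -/

set_option autoImplicit false

namespace Pool.Agent.DD7719.M

open Polynomial Finset

variable {K : Type*} [Field K]

/-- the characteristic polynomial -/
noncomputable def cp (k : ℕ) (a : ℕ → K) : K[X] := X ^ k - ∑ t ∈ range k, C (a t) * X ^ (k - 1 - t)

lemma hasse_X_pow (e n : ℕ) (z : K) :
    (hasseDeriv e (X ^ n : K[X])).eval z = (n.choose e : K) * z ^ (n - e) := by
  rw [← monomial_one_right_eq_X_pow, hasseDeriv_monomial, eval_monomial, mul_one]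

lemma hasse_C_mul_X_pow (e n : ℕ) (a z : K) :
    (hasseDeriv e (C a * X ^ n : K[X])).eval z = a * (n.choose e : K) * z ^ (n - e) := by
  rw [C_mul_X_pow_eq_monomial, hasseDeriv_monomial, eval_monomial]
  ring

lemma hasse_cp (k : ℕ) (a : ℕ → K) (e : ℕ) (z : K) :
    (hasseDeriv e (cp k a)).eval z = (k.choose e : K) * z ^ (k - e) -
      ∑ t ∈ range k, a t * ((k - 1 - t).choose e : K) * z ^ (k - 1 - t - e) := by
  rw [cp, map_sub, map_sum, eval_sub, eval_finsetSum, hasse_X_pow]
  simp only [hasse_C_mul_X_pow]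

lemma cp_degree_aux (k : ℕ) (a : ℕ → K) :
    (∑ t ∈ range k, C (a t) * X ^ (k - 1 - t) : K[X]).degree < k := by
  rw [degree_lt_iff_coeff_zero]
  intro m hm
  rw [finsetSum_coeff]
  apply Finset.sum_eq_zero
  intro t ht
  rw [Finset.mem_range] at ht
  rw [coeff_C_mul_X_pow, if_neg]
  omega

lemma cp_monic (k : ℕ) (a : ℕ → K) : (cp k a).Monic := monic_X_pow_sub (by
  have := cp_degree_aux k a
  exact this)

lemma cp_degree (k : ℕ) (a : ℕ → K) : (cp k a).degree = k := by
  rw [cp, degree_sub_eq_left_of_degree_lt, degree_X_pow]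
  rw [degree_X_pow]
  exact cp_degree_aux k a

lemma cp_natDegree (k : ℕ) (a : ℕ → K) : (cp k a).natDegree = k :=
  natDegree_eq_of_degree_eq_some (cp_degree k a)

/-- the generalised powers attached to the roots satisfy the recurrence -/
lemma gen_pow_rec (k : ℕ) (a : ℕ → K) (e : ℕ) (z : K)
    (h : ∀ e', e' ≤ e → (k.choose e' : K) * z ^ (k - e') =
      ∑ t ∈ range k, a t * ((k - 1 - t).choose e' : K) * z ^ (k - 1 - t - e')) (n : ℕ) (hn : k ≤ n) :
    (n.choose e : K) * z ^ (n - e) =
      ∑ t ∈ range k, a t * (((n - 1 - t).choose e : K) * z ^ (n - 1 - t - e)) := by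
  have h1 : (hasseDeriv e (X ^ (n - k) * cp k a)).eval z = 0 := by
    rw [hasseDeriv_mul, eval_finsetSum]
    apply Finset.sum_eq_zero
    intro ij hij
    rw [Finset.HasAntidiagonal.mem_antidiagonal] at hij
    rw [eval_mul, hasse_cp, h ij.2 (by omega), sub_self, mul_zero]
  have h2 : X ^ (n - k) * cp k a = X ^ n - ∑ t ∈ range k, C (a t) * X ^ (n - 1 - t) := by
    rw [cp, mul_sub, ← pow_add, Nat.sub_add_cancel hn, mul_sum]
    congr 1
    apply Finset.sum_congr rfl
    intro t ht
    rw [Finset.mem_range] at ht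
    rw [mul_left_comm, ← pow_add]
    congr 2
    omega
  rw [h2, map_sub, map_sum, eval_sub, eval_finsetSum, hasse_X_pow, sub_eq_zero] at h1
  rw [h1]
  apply Finset.sum_congr rfl
  intro t _
  rw [hasse_C_mul_X_pow, mul_assoc]

/-- a combination of generalised powers satisfying the initial conditions is the sequence -/
lemma rep_all (k : ℕ) (a : ℕ → K) (u : ℕ → K) (hu : ∀ n, k ≤ n → u n = ∑ t ∈ range k, a t * u (n - 1 - t))
    (l c : ℕ → K) (ex : ℕ → ℕ)
    (h : ∀ i, i < k → ∀ e, e ≤ ex i → (k.choose e : K) * l i ^ (k - e) =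
      ∑ t ∈ range k, a t * ((k - 1 - t).choose e : K) * l i ^ (k - 1 - t - e))
    (h0 : ∀ n, n < k → ∑ i ∈ range k, c i * (n.choose (ex i) : K) * l i ^ (n - ex i) = u n) (n : ℕ) :
    ∑ i ∈ range k, c i * (n.choose (ex i) : K) * l i ^ (n - ex i) = u n := by
  induction n using Nat.strong_induction_on with
  | _ n ih =>
  rcases lt_or_ge n k with hn | hn
  · exact h0 n hn
  · rw [hu n hn]
    have h1 : ∀ t ∈ range k, a t * u (n - 1 - t) =
        ∑ i ∈ range k, c i * (a t * (((n - 1 - t).choose (ex i) : K) * l i ^ (n - 1 - t - ex i))) := by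
      intro t ht
      rw [Finset.mem_range] at ht
      rw [← ih (n - 1 - t) (by omega), mul_sum]
      apply Finset.sum_congr rfl
      intro i _
      ring
    rw [Finset.sum_congr rfl h1, Finset.sum_comm]
    apply Finset.sum_congr rfl
    intro i hi
    rw [Finset.mem_range] at hi
    rw [mul_assoc, gen_pow_rec k a (ex i) (l i) (h i hi) n hn, mul_sum]

/-- vanishing of the Hasse derivatives and divisibility -/
lemma pow_dvd_of_hasse (p : K[X]) (z : K) (m : ℕ) (h : ∀ e, e < m → (hasseDeriv e p).eval z = 0) :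
    (X - C z) ^ m ∣ p := by
  rw [X_sub_C_pow_dvd_iff]
  rw [X_pow_dvd_iff]
  intro d hd
  have := taylor_coeff z p d
  rw [taylor_apply] at this
  rw [this, h d hd]

lemma hasse_of_pow_dvd (p : K[X]) (z : K) (m : ℕ) (h : (X - C z) ^ m ∣ p) (e : ℕ) (he : e < m) :
    (hasseDeriv e p).eval z = 0 := by
  rw [X_sub_C_pow_dvd_iff, X_pow_dvd_iff] at h
  have := taylor_coeff z p e
  rw [taylor_apply] at this
  rw [← this, h e he]

/-- existence of the representation -/
lemma exists_rep [IsAlgClosed K] (k : ℕ) (a u : ℕ → K) :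
    ∃ (l c : ℕ → K) (ex : ℕ → ℕ), (∀ i, i < k → ex i < k) ∧
      (∀ i, i < k → ∀ i', i' < k → i ≠ i' → l i ≠ l i' ∨ ex i ≠ ex i') ∧
      (∀ i, i < k → ∀ e, e ≤ ex i → (k.choose e : K) * l i ^ (k - e) =
        ∑ t ∈ range k, a t * ((k - 1 - t).choose e : K) * l i ^ (k - 1 - t - e)) ∧
      (∀ n, n < k → ∑ i ∈ range k, c i * (n.choose (ex i) : K) * l i ^ (n - ex i) = u n) := by
  classical
  set p := cp k a with hp
  have hp0 : p ≠ 0 := (cp_monic k a).ne_zero
  have hcard : Multiset.card p.roots = k := by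
    rw [← cp_natDegree k a]
    exact (splits_iff_card_roots.mp (IsAlgClosed.splits p))
  set S := p.roots.toEnumFinset with hS
  have hScard : S.card = k := by rw [hS, Multiset.card_toEnumFinset, hcard]
  let E : S ≃ Fin k := Finset.equivFinOfCardEq hScard
  let L : Fin k → K := fun i => (E.symm i).1.1
  let F : Fin k → ℕ := fun i => (E.symm i).1.2
  have hF : ∀ i, F i < p.roots.count (L i) := fun i => (Multiset.mem_toEnumFinset _ _).mp (E.symm i).2
  have hinj : ∀ i i', L i = L i' → F i = F i' → i = i' := by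
    intro i i' h1 h2
    apply E.symm.injective
    apply Subtype.ext
    exact Prod.ext h1 h2
  have hsurj : ∀ z e, e < p.roots.count z → ∃ i, L i = z ∧ F i = e := by
    intro z e he
    refine ⟨E ⟨(z, e), (Multiset.mem_toEnumFinset _ _).mpr he⟩, ?_, ?_⟩ <;> simp [L, F]
  -- the confluent Vandermonde matrix
  let V : Matrix (Fin k) (Fin k) K := fun n i => ((n : ℕ).choose (F i) : K) * L i ^ ((n : ℕ) - F i)
  have hdet : V.det ≠ 0 := by
    intro h0
    obtain ⟨v, hv0, hv⟩ := Matrix.exists_vecMul_eq_zero_iff.mpr h0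
    let q : K[X] := ∑ n : Fin k, C (v n) * X ^ (n : ℕ)
    have hq : ∀ i, (hasseDeriv (F i) q).eval (L i) = 0 := by
      intro i
      have h1 := congrFun hv i
      simp only [Matrix.vecMul, dotProduct, Pi.zero_apply] at h1
      simp only [q, map_sum, eval_finsetSum, hasse_C_mul_X_pow]
      rw [← h1]
      apply Finset.sum_congr rfl
      intro n _
      simp only [V]
      ring
    have hqdeg : q.degree < k := by
      rw [degree_lt_iff_coeff_zero]
      intro m hm
      simp only [q, finsetSum_coeff]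
      apply Finset.sum_eq_zero
      intro n _
      rw [coeff_C_mul_X_pow, if_neg]
      omega
    have hq0 : q ≠ 0 := by
      intro h
      apply hv0
      ext n
      have := congrArg (fun r => coeff r (n : ℕ)) h
      simp only [q, finsetSum_coeff, coeff_C_mul_X_pow, coeff_zero] at this
      rw [Finset.sum_eq_single n] at this
      · simpa using this
      · intro b _ hb
        rw [if_neg]
        intro h
        exact hb (Fin.ext h.symm)
      · simp
    have hle : p.roots ≤ q.roots := by
      rw [Multiset.le_iff_count]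
      intro z
      rw [count_roots q, le_rootMultiplicity_iff hq0]
      apply pow_dvd_of_hasse
      intro e he
      obtain ⟨i, hi1, hi2⟩ := hsurj z e he
      rw [← hi1, ← hi2]
      exact hq i
    have h1 := Multiset.card_le_card hle
    rw [hcard] at h1
    have h2 := card_roots' q
    have h3 : q.natDegree < k := by
      rw [degree_eq_natDegree hq0] at hqdeg
      exact_mod_cast hqdeg
    omega
  let W : Fin k → K := V⁻¹.mulVec (fun n => u n)
  have hW : V.mulVec W = fun n : Fin k => u n := by
    simp only [W]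
    rw [Matrix.mulVec_mulVec, Matrix.mul_nonsing_inv _ (isUnit_iff_ne_zero.mpr hdet), Matrix.one_mulVec]
  refine ⟨fun i => if h : i < k then L ⟨i, h⟩ else 0, fun i => if h : i < k then W ⟨i, h⟩ else 0,
    fun i => if h : i < k then F ⟨i, h⟩ else 0, ?_, ?_, ?_, ?_⟩
  · intro i hi
    simp only [hi, dif_pos]
    calc F ⟨i, hi⟩ < p.roots.count (L ⟨i, hi⟩) := hF _
      _ ≤ Multiset.card p.roots := Multiset.count_le_card _ _
      _ = k := hcard
  · intro i hi i' hi' hne
    simp only [hi, hi', dif_pos]
    by_contra hcon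
    push Not at hcon
    exact hne (Fin.mk.inj_iff.mp (hinj _ _ hcon.1 hcon.2))
  · intro i hi e he
    simp only [hi, dif_pos] at he ⊢
    have h1 : (hasseDeriv e p).eval (L ⟨i, hi⟩) = 0 := by
      apply hasse_of_pow_dvd p _ (p.roots.count (L ⟨i, hi⟩)) _ e (lt_of_le_of_lt he (hF _))
      rw [count_roots]
      exact pow_rootMultiplicity_dvd p _
    rw [hp, hasse_cp, sub_eq_zero] at h1
    exact h1
  · intro n hn
    have h1 := congrFun hW ⟨n, hn⟩
    simp only [Matrix.mulVec, dotProduct] at h1
    rw [← h1, Finset.sum_range]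
    apply Finset.sum_congr rfl
    intro i _
    simp only [i.2, dif_pos, V]
    ring

end Pool.Agent.DD7719.M
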