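import Mathlib

/-!
# Roth's lemma, part 1: Taylor shifts and divided (Hasse) derivatives of polynomials in `m`
variables over a field of characteristic zero.
-/

open MvPolynomial

namespace Pool.Agent.DD7719

/-- Taylor shift. -/
noncomputable def shift {m : ℕ} {K : Type*} [Field K] (ξ : Fin m → K)
    (F : MvPolynomial (Fin m) K) : MvPolynomial (Fin m) K :=
  MvPolynomial.bind₁ (fun h => X h + C (ξ h)) F

section Shift

variable {m : ℕ} {K : Type*} [Field K]

@[simp] lemma shift_C (ξ : Fin m → K) (a : K) : shift ξ (C a) = C a := by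
  simp [shift]

@[simp] lemma shift_X (ξ : Fin m → K) (h : Fin m) : shift ξ (X h) = X h + C (ξ h) := by
  simp [shift]

@[simp] lemma shift_zero (ξ : Fin m → K) : shift ξ (0 : MvPolynomial (Fin m) K) = 0 := by
  simp [shift]

@[simp] lemma shift_one (ξ : Fin m → K) : shift ξ (1 : MvPolynomial (Fin m) K) = 1 := by
  simp [shift]

lemma shift_add (ξ : Fin m → K) (F G : MvPolynomial (Fin m) K) :
    shift ξ (F + G) = shift ξ F + shift ξ G := by
  simp [shift]

lemma shift_mul (ξ : Fin m → K) (F G : MvPolynomial (Fin m) K) :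
    shift ξ (F * G) = shift ξ F * shift ξ G := by
  simp [shift]

lemma shift_smul (ξ : Fin m → K) (a : K) (F : MvPolynomial (Fin m) K) :
    shift ξ (a • F) = a • shift ξ F := by
  simp [shift]

lemma shift_shift_neg (ξ : Fin m → K) (F : MvPolynomial (Fin m) K) :
    shift (fun h => - ξ h) (shift ξ F) = F := by
  induction F using MvPolynomial.induction_on with
  | C a => simp
  | add p q hp hq => rw [shift_add, shift_add, hp, hq]
  | mul_X p h hp => 
    rw [shift_mul, shift_mul, hp, shift_X, shift_add, shift_X, shift_C]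
    congr 1
    simp

lemma shift_injective (ξ : Fin m → K) : Function.Injective (shift ξ) :=
  Function.LeftInverse.injective (shift_shift_neg ξ)

lemma shift_eq_zero_iff (ξ : Fin m → K) (F : MvPolynomial (Fin m) K) :
    shift ξ F = 0 ↔ F = 0 := by
  constructor
  · intro h
    apply shift_injective ξ
    rw [h, shift_zero]
  · rintro rfl
    exact shift_zero ξ

lemma coeff_zero_shift (ξ : Fin m → K) (F : MvPolynomial (Fin m) K) :
    (shift ξ F).coeff 0 = eval ξ F := by
  induction F using MvPolynomial.induction_on with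
  | C a => simp
  | add p q hp hq => rw [shift_add, coeff_add, hp, hq, map_add]
  | mul_X p h hp =>
    rw [shift_mul, shift_X, map_mul, eval_X, ← hp, mul_add, coeff_add, coeff_mul_X',
      mul_comm _ (C (ξ h)), coeff_C_mul]
    simp [mul_comm]

/-- `shift` as a ring homomorphism. -/
noncomputable def shiftHom (ξ : Fin m → K) : MvPolynomial (Fin m) K →+* MvPolynomial (Fin m) K :=
  (MvPolynomial.bind₁ (fun h => X h + C (ξ h))).toRingHom

lemma shiftHom_apply (ξ : Fin m → K) (F : MvPolynomial (Fin m) K) : shiftHom ξ F = shift ξ F := rfl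

lemma pderiv_shift (ξ : Fin m → K) (h : Fin m) (F : MvPolynomial (Fin m) K) :
    pderiv h (shift ξ F) = shift ξ (pderiv h F) := by
  induction F using MvPolynomial.induction_on with
  | C a => simp
  | add p q hp hq => rw [shift_add, map_add, hp, hq, map_add, shift_add]
  | mul_X p k hp =>
    classical
    rw [shift_mul, shift_X, pderiv_mul, hp, pderiv_mul, shift_add, shift_mul, shift_X, shift_mul]
    congr 2
    rw [map_add, pderiv_C, add_zero, pderiv_X]
    by_cases hk : k = h
    · subst hk; simp
    · simp [hk]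

end Shift

section Hasse

variable {m : ℕ} {K : Type*} [Field K]

/-- the weight occurring in the coefficient formula for divided derivatives. -/
def chw {m : ℕ} (μ i : Fin m →₀ ℕ) : ℕ := ∏ h, (i h).choose (μ h)

/-- Divided derivative of order `μ`. -/
noncomputable def hasse (μ : Fin m →₀ ℕ) :
    MvPolynomial (Fin m) K →ₗ[K] MvPolynomial (Fin m) K :=
  (basisMonomials (Fin m) K).constr K (fun i => monomial (i - μ) ((chw μ i : ℕ) : K))

lemma hasse_monomial (μ i : Fin m →₀ ℕ) (a : K) :
    hasse μ (monomial i a) = monomial (i - μ) (a * (chw μ i : ℕ)) := by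
  have h1 : (monomial i a : MvPolynomial (Fin m) K) = a • (basisMonomials (Fin m) K) i := by
    simp [smul_monomial]
  rw [h1, map_smul, hasse, Module.Basis.constr_basis, smul_monomial, smul_eq_mul]

lemma coeff_hasse (μ j : Fin m →₀ ℕ) (F : MvPolynomial (Fin m) K) :
    (hasse μ F).coeff j = (chw μ (j + μ) : ℕ) * F.coeff (j + μ) := by
  induction F using MvPolynomial.induction_on' with
  | monomial i a =>
    rw [hasse_monomial, coeff_monomial, coeff_monomial]
    by_cases h : i = j + μ
    · subst h
      simp [mul_comm]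
    · rw [if_neg h]
      by_cases h2 : i - μ = j
      · rw [if_pos h2]
        have h3 : ¬ μ ≤ i := by
          intro h4
          apply h
          rw [← h2, tsub_add_cancel_of_le h4]
        have : chw μ i = 0 := by
          rw [Finsupp.le_def] at h3
          push Not at h3
          obtain ⟨k, hk⟩ := h3
          exact Finset.prod_eq_zero (Finset.mem_univ k) (Nat.choose_eq_zero_of_lt hk)
        simp [this]
      · rw [if_neg h2]; simp
  | add p q hp hq => rw [map_add, coeff_add, coeff_add, hp, hq, mul_add]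

lemma hasse_zero (F : MvPolynomial (Fin m) K) : hasse 0 F = F := by
  ext j
  rw [coeff_hasse]
  simp [chw]

lemma chw_succ (μ j : Fin m →₀ ℕ) (h : Fin m) :
    chw μ (j + Finsupp.single h 1 + μ) * (j h + 1) =
      (μ h + 1) * chw (μ + Finsupp.single h 1) (j + (μ + Finsupp.single h 1)) := by
  have e1 : j + Finsupp.single h 1 + μ = j + (μ + Finsupp.single h 1) := by
    ext k; simp [add_comm, add_left_comm]
  rw [e1]
  unfold chw
  rw [← Finset.mul_prod_erase _ _ (Finset.mem_univ h), ← Finset.mul_prod_erase _ _ (Finset.mem_univ h)]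
  have e2 : ∏ x ∈ Finset.univ.erase h,
        ((j + (μ + Finsupp.single h 1) : Fin m →₀ ℕ) x).choose (μ x) =
      ∏ x ∈ Finset.univ.erase h, ((j + (μ + Finsupp.single h 1) : Fin m →₀ ℕ) x).choose
        ((μ + Finsupp.single h 1 : Fin m →₀ ℕ) x) := by
    apply Finset.prod_congr rfl
    intro x hx
    have hx' : x ≠ h := (Finset.mem_erase.mp hx).1
    simp [hx'.symm]
  rw [e2]
  have e3 : ((j + (μ + Finsupp.single h 1) : Fin m →₀ ℕ) h).choose (μ h) * (j h + 1) =
      (μ h + 1) * ((j + (μ + Finsupp.single h 1) : Fin m →₀ ℕ) h).choose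
        ((μ + Finsupp.single h 1 : Fin m →₀ ℕ) h) := by
    simp only [Finsupp.add_apply, Finsupp.single_eq_same]
    have := Nat.choose_succ_right_eq (j h + (μ h + 1)) (μ h)
    have h4 : j h + (μ h + 1) - μ h = j h + 1 := by omega
    rw [h4] at this
    rw [← this]; ring
  rw [mul_right_comm, e3]
  ring

lemma pderiv_hasse (μ : Fin m →₀ ℕ) (h : Fin m) (F : MvPolynomial (Fin m) K) :
    pderiv h (hasse μ F) = ((μ h + 1 : ℕ) : K) • hasse (μ + Finsupp.single h 1) F := by
  ext j
  rw [coeff_pderiv, coeff_hasse, coeff_smul, coeff_hasse, smul_eq_mul]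
  have e1 : j + Finsupp.single h 1 + μ = j + (μ + Finsupp.single h 1) := by
    ext k; simp [add_comm, add_left_comm]
  have := congrArg (Nat.cast (R := K)) (chw_succ μ j h)
  push_cast at this ⊢
  rw [e1] at this ⊢
  linear_combination (F.coeff (j + (μ + Finsupp.single h 1))) * this

variable [CharZero K]

lemma hasse_shift (ξ : Fin m → K) (μ : Fin m →₀ ℕ) (F : MvPolynomial (Fin m) K) :
    hasse μ (shift ξ F) = shift ξ (hasse μ F) := by
  obtain ⟨n, hn⟩ : ∃ n, n = μ.degree := ⟨_, rfl⟩
  induction n generalizing μ with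
  | zero =>
    have : μ = 0 := by
      rw [eq_comm, Finsupp.degree_eq_zero_iff] at hn
      exact hn
    subst this
    rw [hasse_zero, hasse_zero]
  | succ n ih =>
    have h0 : μ ≠ 0 := by
      rintro rfl
      simp at hn
    obtain ⟨h, hh⟩ := Finsupp.ne_iff.mp h0
    have hh1 : 1 ≤ μ h := Nat.one_le_iff_ne_zero.mpr (by simpa using hh)
    obtain ⟨ν, hν⟩ : ∃ ν, μ = ν + Finsupp.single h 1 := by
      refine ⟨μ - Finsupp.single h 1, ?_⟩
      rw [tsub_add_cancel_of_le]
      simpa using hh1
    have hdeg : n = ν.degree := by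
      rw [hν, map_add, Finsupp.degree_single] at hn
      omega
    have h3 := ih ν hdeg
    have h4 := pderiv_hasse ν h (shift ξ F)
    have h5 := pderiv_hasse ν h F
    rw [h3, pderiv_shift, h5, shift_smul, ← hν] at h4
    have h6 : ((ν h + 1 : ℕ) : K) ≠ 0 := Nat.cast_ne_zero.mpr (Nat.succ_ne_zero (ν h))
    have h7 : ((ν h + 1 : ℕ) : K) • (shift ξ (hasse μ F) - hasse μ (shift ξ F)) = 0 := by
      rw [smul_sub, h4, sub_self]
    rcases smul_eq_zero.mp h7 with h8 | h8
    · exact absurd h8 h6
    · exact (sub_eq_zero.mp h8).symm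

lemma coeff_shift_eq (ξ : Fin m → K) (μ : Fin m →₀ ℕ) (F : MvPolynomial (Fin m) K) :
    (shift ξ F).coeff μ = eval ξ (hasse μ F) := by
  rw [← coeff_zero_shift, ← hasse_shift, coeff_hasse]
  simp [chw]

end Hasse

end Pool.Agent.DD7719
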