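import Pool.Agent.DD7719.RothHasse

/-!
# Roth's lemma, part 3: index, degree, integrality and size of polynomials
-/

open MvPolynomial

namespace Pool.Agent.DD7719

section LGE

variable {m : ℕ} {K : Type*} [Field K]

/-- every exponent occurring in `F` has `ℓ`-weight at least `θ`. -/
def LGE (ℓ : (Fin m →₀ ℕ) →+ ℝ) (θ : ℝ) (F : MvPolynomial (Fin m) K) : Prop :=
  ∀ i ∈ F.support, θ ≤ ℓ i

lemma LGE.mono {ℓ : (Fin m →₀ ℕ) →+ ℝ} {θ θ' : ℝ} {F : MvPolynomial (Fin m) K}
    (h : LGE ℓ θ F) (hθ : θ' ≤ θ) : LGE ℓ θ' F := fun i hi => hθ.trans (h i hi)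

lemma LGE.add {ℓ : (Fin m →₀ ℕ) →+ ℝ} {θ : ℝ} {F G : MvPolynomial (Fin m) K}
    (hF : LGE ℓ θ F) (hG : LGE ℓ θ G) : LGE ℓ θ (F + G) := by
  classical
  intro i hi
  rcases Finset.mem_union.mp (support_add hi) with h | h
  · exact hF i h
  · exact hG i h

lemma LGE.zero {ℓ : (Fin m →₀ ℕ) →+ ℝ} {θ : ℝ} : LGE ℓ θ (0 : MvPolynomial (Fin m) K) := by
  intro i hi
  simp at hi

lemma LGE.sum {ι : Type*} {ℓ : (Fin m →₀ ℕ) →+ ℝ} {θ : ℝ} (s : Finset ι)
    (F : ι → MvPolynomial (Fin m) K) (hF : ∀ a ∈ s, LGE ℓ θ (F a)) : LGE ℓ θ (∑ a ∈ s, F a) := by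
  classical
  induction s using Finset.induction_on with
  | empty => simpa using LGE.zero
  | insert a s ha ih =>
    rw [Finset.sum_insert ha]
    exact (hF a (Finset.mem_insert_self _ _)).add
      (ih fun b hb => hF b (Finset.mem_insert_of_mem hb))

lemma LGE.mul {ℓ : (Fin m →₀ ℕ) →+ ℝ} {θ θ' : ℝ} {F G : MvPolynomial (Fin m) K}
    (hF : LGE ℓ θ F) (hG : LGE ℓ θ' G) : LGE ℓ (θ + θ') (F * G) := by
  classical
  intro i hi
  obtain ⟨a, ha, b, hb, rfl⟩ := Finset.mem_add.mp (support_mul F G hi)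
  rw [map_add]
  exact add_le_add (hF a ha) (hG b hb)

lemma LGE.one {ℓ : (Fin m →₀ ℕ) →+ ℝ} : LGE ℓ 0 (1 : MvPolynomial (Fin m) K) := by
  classical
  intro i hi
  have : i = 0 := by
    rw [mem_support_iff, coeff_one] at hi
    by_contra h
    exact hi (if_neg (Ne.symm h))
  rw [this, map_zero]

lemma LGE.prod {ι : Type*} {ℓ : (Fin m →₀ ℕ) →+ ℝ} (θ : ι → ℝ) (s : Finset ι)
    (F : ι → MvPolynomial (Fin m) K) (hF : ∀ a ∈ s, LGE ℓ (θ a) (F a)) :
    LGE ℓ (∑ a ∈ s, θ a) (∏ a ∈ s, F a) := by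
  classical
  induction s using Finset.induction_on with
  | empty => simpa using LGE.one
  | insert a s ha ih =>
    rw [Finset.sum_insert ha, Finset.prod_insert ha]
    exact (hF a (Finset.mem_insert_self _ _)).mul
      (ih fun b hb => hF b (Finset.mem_insert_of_mem hb))

lemma LGE.neg {ℓ : (Fin m →₀ ℕ) →+ ℝ} {θ : ℝ} {F : MvPolynomial (Fin m) K}
    (hF : LGE ℓ θ F) : LGE ℓ θ (-F) := by
  intro i hi
  rw [support_neg] at hi
  exact hF i hi

lemma LGE.det {n : ℕ} {ℓ : (Fin m →₀ ℕ) →+ ℝ} (θ : Fin n → ℝ)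
    (M : Matrix (Fin n) (Fin n) (MvPolynomial (Fin m) K)) (hM : ∀ i j, LGE ℓ (θ j) (M i j)) :
    LGE ℓ (∑ j, θ j) M.det := by
  rw [Matrix.det_apply]
  refine LGE.sum _ _ fun σ _ => ?_
  have h1 : LGE ℓ (∑ j, θ j) (∏ i, M (σ i) i) := LGE.prod θ Finset.univ _ fun i _ => hM _ _
  rcases Int.units_eq_one_or (Equiv.Perm.sign σ) with h | h
  · rw [h, one_smul]; exact h1
  · rw [h, Units.neg_smul, one_smul]; exact h1.neg

lemma LGE.hasse {ℓ : (Fin m →₀ ℕ) →+ ℝ} {θ : ℝ} {F : MvPolynomial (Fin m) K}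
    (hF : LGE ℓ θ F) (μ : Fin m →₀ ℕ) : LGE ℓ (θ - ℓ μ) (hasse μ F) := by
  intro i hi
  rw [mem_support_iff, coeff_hasse] at hi
  have := hF (i + μ) (mem_support_iff.mpr (right_ne_zero_of_mul hi))
  rw [map_add] at this
  linarith

end LGE

section Integral

variable {m : ℕ} {K : Type*} [Field K]

/-- polynomials with integral coefficients. -/
def intPoly (m : ℕ) (K : Type*) [Field K] : Subring (MvPolynomial (Fin m) K) where
  carrier := {F | ∀ i, IsIntegral ℤ (F.coeff i)}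
  zero_mem' i := by rw [coeff_zero]; exact isIntegral_zero
  one_mem' i := by
    classical
    rw [coeff_one]
    split_ifs
    · exact isIntegral_one
    · exact isIntegral_zero
  add_mem' {a b} ha hb i := by rw [coeff_add]; exact (ha i).add (hb i)
  neg_mem' {a} ha i := by rw [coeff_neg]; exact (ha i).neg
  mul_mem' {a b} ha hb i := by
    classical
    rw [coeff_mul]
    exact IsIntegral.sum _ fun x _ => (ha _).mul (hb _)

lemma mem_intPoly {F : MvPolynomial (Fin m) K} : F ∈ intPoly m K ↔ ∀ i, IsIntegral ℤ (F.coeff i) :=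
  Iff.rfl

lemma det_mem_intPoly {n : ℕ} (M : Matrix (Fin n) (Fin n) (MvPolynomial (Fin m) K))
    (hM : ∀ i j, M i j ∈ intPoly m K) : M.det ∈ intPoly m K := by
  rw [Matrix.det_apply]
  refine Subring.sum_mem _ fun σ _ => ?_
  have h1 : (∏ i, M (σ i) i) ∈ intPoly m K := Subring.prod_mem _ fun i _ => hM _ _
  rcases Int.units_eq_one_or (Equiv.Perm.sign σ) with h | h
  · rw [h, one_smul]; exact h1
  · rw [h, Units.neg_smul, one_smul]; exact Subring.neg_mem _ h1

lemma hasse_mem_intPoly {F : MvPolynomial (Fin m) K} (hF : F ∈ intPoly m K) (μ : Fin m →₀ ℕ) :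
    hasse μ F ∈ intPoly m K := by
  intro i
  rw [coeff_hasse]
  refine IsIntegral.mul ?_ (hF _)
  exact (isIntegral_algebraMap (R := ℤ) (x := ((chw μ (i + μ) : ℕ) : ℤ))) |> fun h => by simpa using h

end Integral

section L1

variable {m : ℕ} {K : Type*} [Field K]

/-- The `ℓ¹`-norm of a polynomial at a complex embedding. -/
noncomputable def l1 (φ : K →+* ℂ) (F : MvPolynomial (Fin m) K) : ℝ :=
  ∑ i ∈ F.support, ‖φ (F.coeff i)‖

lemma l1_nonneg (φ : K →+* ℂ) (F : MvPolynomial (Fin m) K) : 0 ≤ l1 φ F :=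
  Finset.sum_nonneg fun _ _ => norm_nonneg _

lemma l1_eq_sum (φ : K →+* ℂ) (F : MvPolynomial (Fin m) K) (s : Finset (Fin m →₀ ℕ))
    (hs : F.support ⊆ s) : l1 φ F = ∑ i ∈ s, ‖φ (F.coeff i)‖ := by
  refine Finset.sum_subset hs fun i _ hi => ?_
  rw [notMem_support_iff.mp hi, map_zero, norm_zero]

lemma l1_zero (φ : K →+* ℂ) : l1 φ (0 : MvPolynomial (Fin m) K) = 0 := by
  simp [l1]

lemma l1_add (φ : K →+* ℂ) (F G : MvPolynomial (Fin m) K) : l1 φ (F + G) ≤ l1 φ F + l1 φ G := by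
  classical
  rw [l1_eq_sum φ (F + G) (F.support ∪ G.support) support_add,
    l1_eq_sum φ F (F.support ∪ G.support) Finset.subset_union_left,
    l1_eq_sum φ G (F.support ∪ G.support) Finset.subset_union_right, ← Finset.sum_add_distrib]
  refine Finset.sum_le_sum fun i _ => ?_
  rw [coeff_add, map_add]
  exact norm_add_le _ _

lemma l1_sum {ι : Type*} (φ : K →+* ℂ) (s : Finset ι) (F : ι → MvPolynomial (Fin m) K) :
    l1 φ (∑ a ∈ s, F a) ≤ ∑ a ∈ s, l1 φ (F a) := by
  classical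
  induction s using Finset.induction_on with
  | empty => simp [l1_zero]
  | insert a s ha ih =>
    rw [Finset.sum_insert ha, Finset.sum_insert ha]
    exact (l1_add _ _ _).trans (by linarith)

lemma l1_neg (φ : K →+* ℂ) (F : MvPolynomial (Fin m) K) : l1 φ (-F) = l1 φ F := by
  simp [l1, support_neg, coeff_neg]

lemma l1_monomial_mul (φ : K →+* ℂ) (i : Fin m →₀ ℕ) (a : K) (G : MvPolynomial (Fin m) K) :
    l1 φ (monomial i a * G) ≤ ‖φ a‖ * l1 φ G := by
  classical
  have h1 : (monomial i a * G).support ⊆ G.support.map (addLeftEmbedding i) := by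
    intro j hj
    rw [mem_support_iff, coeff_monomial_mul'] at hj
    have h2 : i ≤ j := by
      by_contra h
      exact hj (if_neg h)
    rw [if_pos h2] at hj
    rw [Finset.mem_map]
    exact ⟨j - i, mem_support_iff.mpr (right_ne_zero_of_mul hj), by
      simp [add_tsub_cancel_of_le h2]⟩
  rw [l1_eq_sum φ _ _ h1, Finset.sum_map, l1, Finset.mul_sum]
  refine Finset.sum_le_sum fun j _ => ?_
  simp only [addLeftEmbedding_apply]
  rw [coeff_monomial_mul, map_mul, norm_mul]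

lemma l1_mul (φ : K →+* ℂ) (F G : MvPolynomial (Fin m) K) : l1 φ (F * G) ≤ l1 φ F * l1 φ G := by
  classical
  have h1 : F * G = ∑ i ∈ F.support, monomial i (F.coeff i) * G := by
    rw [← Finset.sum_mul, support_sum_monomial_coeff]
  rw [h1]
  refine (l1_sum _ _ _).trans ?_
  rw [l1, Finset.sum_mul]
  exact Finset.sum_le_sum fun i _ => l1_monomial_mul φ i _ G

lemma l1_one (φ : K →+* ℂ) : l1 φ (1 : MvPolynomial (Fin m) K) = 1 := by
  classical
  have : (1 : MvPolynomial (Fin m) K).support = {0} := by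
    ext i
    rw [mem_support_iff, coeff_one, Finset.mem_singleton]
    constructor
    · intro h
      by_contra h2
      exact h (if_neg (Ne.symm h2))
    · rintro rfl
      simp
  rw [l1, this, Finset.sum_singleton, coeff_one]
  simp

lemma l1_prod {ι : Type*} (φ : K →+* ℂ) (s : Finset ι) (F : ι → MvPolynomial (Fin m) K) :
    l1 φ (∏ a ∈ s, F a) ≤ ∏ a ∈ s, l1 φ (F a) := by
  classical
  induction s using Finset.induction_on with
  | empty => simp [l1_one]
  | insert a s ha ih =>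
    rw [Finset.prod_insert ha, Finset.prod_insert ha]
    exact (l1_mul _ _ _).trans (mul_le_mul_of_nonneg_left ih (l1_nonneg _ _))

lemma l1_det {n : ℕ} (φ : K →+* ℂ) (M : Matrix (Fin n) (Fin n) (MvPolynomial (Fin m) K)) (B : ℝ)
    (hM : ∀ i j, l1 φ (M i j) ≤ B) : l1 φ M.det ≤ n.factorial * B ^ n := by
  rw [Matrix.det_apply]
  refine (l1_sum _ _ _).trans ?_
  have h1 : ∀ σ ∈ (Finset.univ : Finset (Equiv.Perm (Fin n))),
      l1 φ (Equiv.Perm.sign σ • ∏ i, M (σ i) i) ≤ B ^ n := by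
    intro σ _
    have h2 : l1 φ (∏ i, M (σ i) i) ≤ B ^ n := by
      refine (l1_prod _ _ _).trans ?_
      calc ∏ i, l1 φ (M (σ i) i) ≤ ∏ i : Fin n, B :=
            Finset.prod_le_prod (fun _ _ => l1_nonneg _ _) fun i _ => hM _ _
        _ = B ^ n := by simp
    rcases Int.units_eq_one_or (Equiv.Perm.sign σ) with h | h
    · rw [h, one_smul]; exact h2
    · rw [h, Units.neg_smul, one_smul, l1_neg]; exact h2
  refine (Finset.sum_le_sum h1).trans ?_
  rw [Finset.sum_const, Finset.card_univ, Fintype.card_perm, Fintype.card_fin, nsmul_eq_mul]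

lemma chw_le (μ i : Fin m →₀ ℕ) (r : Fin m → ℕ) (hi : ∀ h, i h ≤ r h) :
    chw μ i ≤ 2 ^ (∑ h, r h) := by
  rw [← Finset.prod_pow_eq_pow_sum]
  refine Finset.prod_le_prod' fun h _ => ?_
  exact (Nat.choose_le_two_pow _ _).trans (Nat.pow_le_pow_right (by norm_num) (hi h))

lemma l1_hasse (φ : K →+* ℂ) (μ : Fin m →₀ ℕ) (F : MvPolynomial (Fin m) K) (r : Fin m → ℕ)
    (hF : ∀ i ∈ F.support, ∀ h, i h ≤ r h) :
    l1 φ (hasse μ F) ≤ 2 ^ (∑ h, r h) * l1 φ F := by
  classical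
  rw [l1]
  have h1 : ∀ j ∈ (hasse μ F).support, ‖φ ((hasse μ F).coeff j)‖ ≤
      2 ^ (∑ h, r h) * ‖φ (F.coeff (j + μ))‖ := by
    intro j hj
    rw [mem_support_iff, coeff_hasse] at hj
    have h2 : j + μ ∈ F.support := mem_support_iff.mpr (right_ne_zero_of_mul hj)
    rw [coeff_hasse, map_mul, norm_mul, map_natCast]
    refine mul_le_mul_of_nonneg_right ?_ (norm_nonneg _)
    rw [Complex.norm_natCast]
    exact_mod_cast chw_le μ (j + μ) r (hF _ h2)
  refine (Finset.sum_le_sum h1).trans ?_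
  rw [← Finset.mul_sum]
  refine mul_le_mul_of_nonneg_left ?_ (by positivity)
  have h3 : ∑ j ∈ (hasse μ F).support, ‖φ (F.coeff (j + μ))‖ =
      ∑ i ∈ (hasse μ F).support.map (addRightEmbedding μ), ‖φ (F.coeff i)‖ := by
    rw [Finset.sum_map]; rfl
  rw [h3, l1]
  refine Finset.sum_le_sum_of_subset_of_nonneg ?_ fun _ _ _ => norm_nonneg _
  intro i hi
  rw [Finset.mem_map] at hi
  obtain ⟨j, hj, rfl⟩ := hi
  rw [mem_support_iff, coeff_hasse] at hj
  exact mem_support_iff.mpr (right_ne_zero_of_mul hj)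

lemma l1_le_of_coeff (φ : K →+* ℂ) (F : MvPolynomial (Fin m) K) (r : Fin m → ℕ)
    (hF : ∀ i ∈ F.support, ∀ h, i h ≤ r h) (B : ℝ) (hB : ∀ i, ‖φ (F.coeff i)‖ ≤ B) :
    l1 φ F ≤ 2 ^ (∑ h, r h) * B := by
  classical
  have hB0 : 0 ≤ B := (norm_nonneg _).trans (hB 0)
  have h1 : l1 φ F ≤ F.support.card * B := by
    rw [l1]
    refine (Finset.sum_le_sum fun i _ => hB i).trans ?_
    rw [Finset.sum_const, nsmul_eq_mul]
  refine h1.trans (mul_le_mul_of_nonneg_right ?_ hB0)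
  have h2 : F.support.card ≤ (Fintype.piFinset fun h => Finset.range (r h + 1)).card := by
    refine Finset.card_le_card_of_injOn (fun i h => i h) ?_ ?_
    · intro i hi
      rw [Finset.mem_coe, Fintype.mem_piFinset]
      intro h
      rw [Finset.mem_range]
      exact Nat.lt_succ_of_le (hF i hi h)
    · intro i _ j _ hij
      exact DFunLike.coe_injective hij
  rw [Fintype.card_piFinset] at h2
  have h3 : ∏ h, (Finset.range (r h + 1)).card ≤ 2 ^ (∑ h, r h) := by
    rw [← Finset.prod_pow_eq_pow_sum]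
    refine Finset.prod_le_prod' fun h _ => ?_
    rw [Finset.card_range]
    exact Nat.lt_two_pow_self
  exact_mod_cast h2.trans h3

end L1

end Pool.Agent.DD7719
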