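import Pool.Agent.DD7719.RothHasse

/-!
# Roth's lemma, part 2: the generalised Wronskian criterion
-/

open MvPolynomial

namespace Pool.Agent.DD7719

section

variable {m n : ℕ} {K : Type*} [Field K] [CharZero K]

/-- the vector of divided derivatives of order `μ` of the polynomials `f`. -/
noncomputable def hvec (f : Fin n → MvPolynomial (Fin m) K) (μ : Fin m →₀ ℕ) :
    Fin n → MvPolynomial (Fin m) K := fun k => hasse μ (f k)

/-- the saturation of the span of some vectors. -/
def satSpan {t : ℕ} (v : Fin t → Fin n → MvPolynomial (Fin m) K) :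
    Submodule (MvPolynomial (Fin m) K) (Fin n → MvPolynomial (Fin m) K) where
  carrier := {w | ∃ D : MvPolynomial (Fin m) K, D ≠ 0 ∧
    D • w ∈ Submodule.span (MvPolynomial (Fin m) K) (Set.range v)}
  zero_mem' := ⟨1, one_ne_zero, by simp⟩
  add_mem' := by
    rintro a b ⟨D, hD, hDa⟩ ⟨E, hE, hEb⟩
    refine ⟨D * E, mul_ne_zero hD hE, ?_⟩
    have : (D * E) • (a + b) = E • (D • a) + D • (E • b) := by
      rw [smul_add, mul_smul, mul_smul, smul_comm]
    rw [this]
    exact Submodule.add_mem _ (Submodule.smul_mem _ _ hDa) (Submodule.smul_mem _ _ hEb)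
  smul_mem' := by
    rintro c a ⟨D, hD, hDa⟩
    refine ⟨D, hD, ?_⟩
    rw [smul_comm]
    exact Submodule.smul_mem _ _ hDa

lemma mem_satSpan_of_smul {t : ℕ} (v : Fin t → Fin n → MvPolynomial (Fin m) K)
    {D : MvPolynomial (Fin m) K} (hD : D ≠ 0) {w : Fin n → MvPolynomial (Fin m) K}
    (h : D • w ∈ satSpan v) : w ∈ satSpan v := by
  obtain ⟨E, hE, h1⟩ := h
  refine ⟨E * D, mul_ne_zero hE hD, ?_⟩
  rw [mul_smul]
  exact h1

lemma span_le_satSpan {t : ℕ} (v : Fin t → Fin n → MvPolynomial (Fin m) K) :
    Submodule.span (MvPolynomial (Fin m) K) (Set.range v) ≤ satSpan v :=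
  fun w hw => ⟨1, one_ne_zero, by rwa [one_smul]⟩

/-- componentwise partial derivative. -/
noncomputable def pdv (h : Fin m) (w : Fin n → MvPolynomial (Fin m) K) :
    Fin n → MvPolynomial (Fin m) K := fun k => pderiv h (w k)

omit [CharZero K] in
lemma pdv_add (h : Fin m) (w w' : Fin n → MvPolynomial (Fin m) K) :
    pdv h (w + w') = pdv h w + pdv h w' := by
  ext k; simp [pdv]

omit [CharZero K] in
lemma pdv_smul (h : Fin m) (a : MvPolynomial (Fin m) K) (w : Fin n → MvPolynomial (Fin m) K) :
    pdv h (a • w) = pderiv h a • w + a • pdv h w := by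
  ext1 k
  simp [pdv]
  ring

omit [CharZero K] in
lemma pdv_hvec (h : Fin m) (f : Fin n → MvPolynomial (Fin m) K) (μ : Fin m →₀ ℕ) :
    pdv h (hvec f μ) = (C ((μ h + 1 : ℕ) : K) : MvPolynomial (Fin m) K) •
      hvec f (μ + Finsupp.single h 1) := by
  ext1 k
  simp only [pdv, hvec, pderiv_hasse, Pi.smul_apply, smul_eq_mul, ← C_mul']

lemma pdv_mem_satSpan {t : ℕ} (v : Fin t → Fin n → MvPolynomial (Fin m) K) (h : Fin m)
    (hv : ∀ i, pdv h (v i) ∈ satSpan v) (w : Fin n → MvPolynomial (Fin m) K)
    (hw : w ∈ satSpan v) : pdv h w ∈ satSpan v := by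
  have key : ∀ x ∈ Submodule.span (MvPolynomial (Fin m) K) (Set.range v),
      pdv h x ∈ satSpan v := by
    intro x hx
    induction hx using Submodule.span_induction with
    | mem x hx => obtain ⟨i, rfl⟩ := hx; exact hv i
    | zero => 
      have : pdv h (0 : Fin n → MvPolynomial (Fin m) K) = 0 := by ext1 k; simp [pdv]
      rw [this]; exact Submodule.zero_mem _
    | add x y hx hy h1 h2 => rw [pdv_add]; exact Submodule.add_mem _ h1 h2
    | smul a x hx h1 =>
      rw [pdv_smul]
      exact Submodule.add_mem _ (Submodule.smul_mem _ _ (span_le_satSpan v hx))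
        (Submodule.smul_mem _ _ h1)
  have hw' := hw
  obtain ⟨D, hD, h1⟩ := hw
  have h2 := key _ h1
  rw [pdv_smul] at h2
  have h3 : D • pdv h w ∈ satSpan v := by
    have := Submodule.sub_mem _ h2 (Submodule.smul_mem _ (pderiv h D) hw')
    rwa [add_sub_cancel_left] at this
  exact mem_satSpan_of_smul v hD h3

lemma hvec_mem_satSpan {t : ℕ} (v : Fin t → Fin n → MvPolynomial (Fin m) K)
    (f : Fin n → MvPolynomial (Fin m) K)
    (hv : ∀ i h, pdv h (v i) ∈ satSpan v) (h0 : hvec f 0 ∈ satSpan v) (μ : Fin m →₀ ℕ) :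
    hvec f μ ∈ satSpan v := by
  obtain ⟨d, hd⟩ : ∃ d, d = μ.degree := ⟨_, rfl⟩
  induction d generalizing μ with
  | zero =>
    have : μ = 0 := by
      rw [eq_comm, Finsupp.degree_eq_zero_iff] at hd
      exact hd
    subst this
    exact h0
  | succ d ih =>
    have h0 : μ ≠ 0 := by
      rintro rfl
      simp at hd
    obtain ⟨h, hh⟩ := Finsupp.ne_iff.mp h0
    have hh1 : 1 ≤ μ h := Nat.one_le_iff_ne_zero.mpr (by simpa using hh)
    obtain ⟨ν, hν⟩ : ∃ ν, μ = ν + Finsupp.single h 1 := by
      refine ⟨μ - Finsupp.single h 1, ?_⟩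
      rw [tsub_add_cancel_of_le]
      simpa using hh1
    have hdeg : d = ν.degree := by
      rw [hν, map_add, Finsupp.degree_single] at hd
      omega
    have h3 := pdv_mem_satSpan v h (fun i => hv i h) _ (ih ν hdeg)
    rw [pdv_hvec, ← hν] at h3
    refine mem_satSpan_of_smul v ?_ h3
    rw [Ne, C_eq_zero]
    exact Nat.cast_ne_zero.mpr (Nat.succ_ne_zero (ν h))

/-- If all derivative vectors lie in the saturated span of fewer than `n` vectors, then the
polynomials are linearly dependent. -/
lemma not_linearIndependent_of_satSpan {t : ℕ} (ht : t < n)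
    (v : Fin t → Fin n → MvPolynomial (Fin m) K) (f : Fin n → MvPolynomial (Fin m) K)
    (hμ : ∀ μ, hvec f μ ∈ satSpan v) : ¬ LinearIndependent K f := by
  intro hf
  obtain ⟨c, hc0, hc⟩ : ∃ c : Fin n → MvPolynomial (Fin m) K, c ≠ 0 ∧
      ∀ i, ∑ k, c k * v i k = 0 := by
    by_contra hcon
    push Not at hcon
    let L : (Fin n → MvPolynomial (Fin m) K) →ₗ[MvPolynomial (Fin m) K]
        (Fin t → MvPolynomial (Fin m) K) := Matrix.mulVecLin (Matrix.of v)
    have hL : Function.Injective L := by
      rw [injective_iff_map_eq_zero]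
      intro c hc
      by_contra hc0
      obtain ⟨i, hi⟩ := hcon c hc0
      apply hi
      have := congrFun hc i
      simp only [L, Matrix.mulVecLin_apply, Matrix.mulVec, dotProduct, Matrix.of_apply,
        Pi.zero_apply] at this
      rw [← this]
      exact Finset.sum_congr rfl fun k _ => mul_comm _ _
    have := card_le_of_injective (MvPolynomial (Fin m) K) L hL
    simp at this
    omega
  have h1 : ∀ w ∈ satSpan v, ∑ k, c k * w k = 0 := by
    rintro w ⟨D, hD, hw⟩
    have h2 : ∀ x ∈ Submodule.span (MvPolynomial (Fin m) K) (Set.range v),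
        ∑ k, c k * x k = 0 := by
      intro x hx
      induction hx using Submodule.span_induction with
      | mem x hx => obtain ⟨i, rfl⟩ := hx; exact hc i
      | zero => simp
      | add x y hx hy h1 h2 => simp [mul_add, Finset.sum_add_distrib, h1, h2]
      | smul a x hx h1 =>
        have : ∑ k, c k * (a • x) k = a * ∑ k, c k * x k := by
          rw [Finset.mul_sum]
          exact Finset.sum_congr rfl fun k _ => by simp [mul_left_comm]
        rw [this, h1, mul_zero]
    have h3 := h2 _ hw
    have h4 : ∑ k, c k * (D • w) k = D * ∑ k, c k * w k := by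
      rw [Finset.mul_sum]
      exact Finset.sum_congr rfl fun k _ => by simp [mul_left_comm]
    rw [h4] at h3
    exact (mul_eq_zero.mp h3).resolve_left hD
  obtain ⟨k0, hk0⟩ := Function.ne_iff.mp hc0
  obtain ⟨a, ha⟩ : ∃ a : Fin m → K, eval a (c k0) ≠ 0 := by
    by_contra hcon
    push Not at hcon
    apply hk0
    apply MvPolynomial.funext
    intro x
    rw [hcon x]
    simp
  have hG : ∑ k, eval a (c k) • f k = 0 := by
    rw [← shift_eq_zero_iff a]
    ext ν
    rw [coeff_shift_eq, map_sum, map_sum, coeff_zero]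
    have := congrArg (eval a) (h1 _ (hμ ν))
    rw [map_sum, map_zero] at this
    rw [← this]
    apply Finset.sum_congr rfl
    intro k _
    rw [map_smul, smul_eval, map_mul]
    rfl
  exact ha (Fintype.linearIndependent_iff.mp hf _ hG k0)

lemma exists_rows (f : Fin n → MvPolynomial (Fin m) K) (hf : LinearIndependent K f) (t : ℕ)
    (ht : t ≤ n) :
    ∃ μ : Fin t → (Fin m →₀ ℕ), (∀ i, (μ i).degree ≤ (i : ℕ)) ∧
      LinearIndependent (MvPolynomial (Fin m) K) (fun i => hvec f (μ i)) := by
  induction t with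
  | zero => exact ⟨fun i => i.elim0, fun i => i.elim0, linearIndependent_empty_type⟩
  | succ t ih =>
    obtain ⟨μ, hμ, hlin⟩ := ih (by omega)
    by_contra hcon
    push Not at hcon
    have h1 : ∀ ν : Fin m →₀ ℕ, ν.degree ≤ t → hvec f ν ∈ satSpan (fun i => hvec f (μ i)) := by
      intro ν hν
      have h2 := hcon (Fin.snoc μ ν) (by
        intro i
        refine Fin.lastCases ?_ (fun i => ?_) i
        · simpa using hν
        · simpa using hμ i)
      rw [Fintype.not_linearIndependent_iff] at h2
      obtain ⟨g, hg, i, hi⟩ := h2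
      rw [Fin.sum_univ_castSucc] at hg
      simp only [Fin.snoc_castSucc, Fin.snoc_last] at hg
      have hlast : g (Fin.last t) ≠ 0 := by
        intro h0
        rw [h0, zero_smul, add_zero] at hg
        have h3 := Fintype.linearIndependent_iff.mp hlin _ hg
        revert hi
        refine Fin.lastCases ?_ (fun i => ?_) i
        · exact fun h => h h0
        · exact fun h => h (h3 i)
      refine ⟨g (Fin.last t), hlast, ?_⟩
      rw [add_comm, add_eq_zero_iff_eq_neg] at hg
      rw [hg]
      exact Submodule.neg_mem _ (Submodule.sum_mem _ fun i _ =>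
        Submodule.smul_mem _ _ (Submodule.subset_span ⟨i, rfl⟩))
    refine not_linearIndependent_of_satSpan (t := t) (by omega) _ f
      (hvec_mem_satSpan _ f ?_ (h1 0 (by simp))) hf
    intro i h
    rw [pdv_hvec]
    refine Submodule.smul_mem _ _ (h1 _ ?_)
    rw [map_add, Finsupp.degree_single]
    have := hμ i
    have := i.2
    omega

/-- **Generalised Wronskian criterion.** -/
theorem gen_wronskian (f : Fin n → MvPolynomial (Fin m) K) (hf : LinearIndependent K f) :
    ∃ μ : Fin n → (Fin m →₀ ℕ), (∀ i, (μ i).degree ≤ (i : ℕ)) ∧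
      (Matrix.of fun i k => hasse (μ i) (f k)).det ≠ 0 := by
  obtain ⟨μ, hμ, hlin⟩ := exists_rows f hf n le_rfl
  refine ⟨μ, hμ, ?_⟩
  intro hdet
  rw [← Matrix.exists_vecMul_eq_zero_iff] at hdet
  obtain ⟨g, hg0, hg⟩ := hdet
  apply hg0
  have h1 : ∑ i, g i • hvec f (μ i) = 0 := by
    ext1 k
    have := congrFun hg k
    simp only [Matrix.vecMul, dotProduct, Matrix.of_apply, Pi.zero_apply] at this
    simp only [Finset.sum_apply, Pi.smul_apply, smul_eq_mul, Pi.zero_apply]
    exact this
  ext1 i
  exact Fintype.linearIndependent_iff.mp hlin _ h1 i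

end

end Pool.Agent.DD7719
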