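import Pool.Agent.DD7719.Final

/-! Ultimate Positivity of simple rational linear recurrences is in `∀ℝ`. -/

set_option autoImplicit false

namespace Pool.Agent.DD7719.SimpleUP

open Pool.Agent.UltPos Pool.Agent.AllR

/-- Ultimate Positivity for simple recurrences (of arbitrary order, input in binary) belongs to the
class `∀ℝ`. -/
theorem result :
    InForallR {w : List ISym | ∃ I : Inst, w = I.enc ∧ I.Simple ∧ I.UltimatelyPositive} :=
  inForallR_simple

end Pool.Agent.DD7719.SimpleUP
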