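import Pool.Agent.DD7719.FamilyCompound

/-! What one bad index gives. -/

namespace Pool.Agent.DD7719.M

open Module Matrix NumberField Height

variable {K : Type*} [Field K] [NumberField K] {m p q N : ℕ}

lemma Reduced.mono {M : ℕ} {c c' : ℝ} (hc : 0 < c) (hcc : c ≤ c')
    {A : (K →+* ℂ) → Matrix (Fin M) (Fin M) ℂ}
    {y : Fin M → Fin M → 𝓞 K} {lam : Fin M → ℝ} (h : Reduced c A y lam) : Reduced c' A y lam := by
  obtain ⟨hp, hu, hl, Δ, hΔ0, hΔ, hint⟩ := h
  refine ⟨hp, fun σ j i => (hu σ j i).trans hcc, fun σ => le_trans ?_ (hl σ),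
    Δ, hΔ0, hΔ.trans hcc, hint⟩
  exact one_div_le_one_div_of_le hc hcc

lemma span_orth (h : p + q = m + 1) (y : Fin (m + 1) → Fin (m + 1) → 𝓞 K)
    (e₀ e : (Fin q ↪o Fin (m + 1)) ≃ Fin (N + 1)) (he : e (topEmb h) = Fin.last N)
    (z : Fin (N + 1) → K)
    (hz : z ∈ Submodule.span K (Set.range fun l : Fin N => toK (cy e₀ e y l.castSucc))) :
    ∑ J, z J * (wv h y (e₀.symm J) : K) = 0 := by
  induction hz using Submodule.span_induction with
  | mem x hx =>
    obtain ⟨l, rfl⟩ := hx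
    have hl : e.symm l.castSucc ≠ topEmb h := by
      intro h1
      have h2 := congrArg e h1
      rw [Equiv.apply_symm_apply, he] at h2
      exact (Fin.castSucc_lt_last l).ne h2
    have h1 := wv_orth h y (e.symm l.castSucc) hl
    have h2 := congrArg (algebraMap (𝓞 K) K) h1
    rw [map_sum, map_zero, ← Equiv.sum_comp e₀.symm] at h2
    rw [← h2]
    apply Finset.sum_congr rfl
    intro J _
    rw [map_mul]
    rfl
  | zero => simp
  | add x y _ _ hx hy =>
    simp only [Pi.add_apply, add_mul, Finset.sum_add_distrib, hx, hy, add_zero]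
  | smul a x _ hx =>
    simp only [Pi.smul_apply, smul_eq_mul, mul_assoc, ← Finset.mul_sum, hx, mul_zero]

open scoped Classical in
theorem step (φ : K →+* ℂ) (hφ : ComplexEmbedding.conjugate φ ≠ φ)
    (cc lb : Fin (m + 1) → K) (hcc : ∀ i, cc i ≠ 0) (hlb : ∀ i, lb i ≠ 0)
    (hmod : ∀ i, ‖φ (lb i)‖ = ‖φ (lb 0)‖) (C : ℝ) (hC : 1 ≤ C) (h : p + q = m + 1)
    (hp : 0 < p) (hq : 0 < q) (e₀ : (Fin q ↪o Fin (m + 1)) ≃ Fin (N + 1)) (b : Fin (N + 1))
    (hb : (b : ℕ) + 1 = N) :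
    ∃ C' : ℝ, 1 ≤ C' ∧ ∀ (n : ℕ) (T : ℝ), 1 ≤ T →
      ∀ (y : Fin (m + 1) → Fin (m + 1) → 𝓞 K) (lam : Fin (m + 1) → ℝ), Monotone lam →
        LinearIndependent K (fun i => toK (y i)) → Reduced C (An φ cc lb n T) y lam →
        (∀ i, 1 ≤ C * lam i) →
        (∏ i, lam i) ^ (Fintype.card (K →+* ℂ)) ≤ C * T ^ 2 →
        (∀ (σ : K →+* ℂ) i k, ‖σ (y i k : K)‖ ≤ C * lam i) →
        ∀ (e : (Fin q ↪o Fin (m + 1)) ≃ Fin (N + 1)), e (topEmb h) = Fin.last N →
        Monotone (clam e lam) → C' < lam ⟨p, by omega⟩ →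
        C' * clam e lam b < clam e lam (Fin.last N) →
        ∃ (π : Equiv.Perm (Fin (N + 1))) (J₁ J₀ : Fin (N + 1)) (k j : Fin (m + 1))
          (Z : Fin N → Fin (N + 1) → 𝓞 K) (v : Fin (N + 1) → K),
          J₁ ≠ J₀ ∧ k ≠ j ∧
          LinearIndependent K (fun i => toK (Z i)) ∧
          (∀ σ : K →+* ℂ, σ ≠ φ → σ ≠ ComplexEmbedding.conjugate φ → ∀ i J,
            ‖σ (Z i J : K)‖ ≤ C' * clam e lam b) ∧
          (∀ i J, ‖φ (∑ J', (compound q (L1 cc)).submatrix e₀.symm e₀.symm (π J) J' *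
              (lamProd lb (e₀.symm J') ^ n * (Z i J' : K)))‖ ≤
            ‖φ (lamProd lb (e₀.symm (π J)))‖ ^ n *
              ((if (0 : Fin (m + 1)) ∈ Set.range (e₀.symm (π J)) then T else 1)⁻¹ *
              (C' * clam e lam b * (min (clam e lam J) (clam e lam b) / clam e lam b) ^
                ((Fintype.card (K →+* ℂ) : ℝ) / 2)))) ∧
          (∀ i, ∑ J, v J * (lamProd lb (e₀.symm J) ^ n * (Z i J : K)) = 0) ∧
          v J₁ ≠ 0 ∧ v J₀ ≠ 0 ∧
          n * logHeight₁ (lb k / lb j) ≤ logHeight₁ (v J₁ / v J₀) +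
            Fintype.card (K →+* ℂ) * Real.log (C' * (lam (Fin.last m)) ^ ((m + 1) * q)) := by
  obtain ⟨C1, hC1, hcoordcase⟩ := coord_case φ hφ cc lb hcc hlb hmod C hC p q h hp hq
  have hN : Fintype.card (Fin q ↪o Fin (m + 1)) = N + 1 := by
    rw [Fintype.card_congr e₀, Fintype.card_fin]
  obtain ⟨C2, hC2, hcomp⟩ := compound_reduced K (m + 1) q (N + 1) hN C hC
  obtain ⟨C3, hC3, hdav⟩ := davenport K φ hφ N b hb C2 hC2
  have hC0 : 0 < C := by linarith
  have hfacq : (0 : ℝ) < q.factorial := by exact_mod_cast q.factorial_pos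
  have hfacd : (0 : ℝ) < (m + 1).factorial := by exact_mod_cast (m + 1).factorial_pos
  set C4 : ℝ := q.factorial * ((m + 1).factorial * C ^ (m + 1)) ^ q with hC4
  have hC4p : 0 < C4 := by positivity
  refine ⟨C1 + C3 + C4, by linarith, ?_⟩
  intro n T hT y lam hmono hli hred hlow hprod hcoord e he hemono hgap1 hgap2
  have hlampos : ∀ i, 0 < lam i := hred.pos
  have hT0 : 0 < T := by linarith
  obtain ⟨hredc, hlic⟩ := hcomp _ y lam hli hred e₀ e
  have hclampos := hredc.pos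
  have hgap2' : C3 * clam e lam b < clam e lam (Fin.last N) := by
    refine lt_of_le_of_lt ?_ hgap2
    apply mul_le_mul_of_nonneg_right _ (hclampos b).le
    linarith
  obtain ⟨π, Z, hZli, hZspan, hZo, hZφ⟩ := hdav (cA e₀ (An φ cc lb n T))
    (cA_conj e₀ (An φ cc lb n T) (An_conj φ cc lb n T))
    (det_cA_ne_zero φ cc lb (hcc 0) hlb n T hT0 e₀) (cy e₀ e y) (clam e lam) hemono hlic hredc
    hgap2'
  have hle3 : C3 ≤ C1 + C3 + C4 := by linarith
  rcases wv_exchange h y hli with ⟨J₀, hJ₀⟩ | ⟨J₁, J₀, i₀, k, hk, hne, hw1, hw0, hg⟩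
  · exfalso
    have := hcoordcase n T hT y lam hli hred hlow hprod hcoord J₀ hJ₀
    linarith
  have hΛ : ∀ f : Fin q ↪o Fin (m + 1), lamProd lb f ≠ 0 := by
    intro f
    exact Finset.prod_ne_zero_iff.mpr fun i _ => hlb _
  set v : Fin (N + 1) → K := fun J =>
    (lamProd lb (e₀.symm J) ^ n)⁻¹ * (wv h y (e₀.symm J) : K) with hv
  refine ⟨π, e₀ J₁, e₀ J₀, k, J₀ i₀, Z, v, ?_, hk, hZli, ?_, ?_, ?_, ?_, ?_, ?_⟩
  · exact fun h1 => hne (e₀.injective h1)
  · intro σ h1 h2 i J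
    have h3 := hZo σ h1 h2 i J
    rw [cA_of_ne φ cc lb n T e₀ σ h1 h2, Matrix.one_mulVec] at h3
    refine h3.trans ?_
    exact mul_le_mul_of_nonneg_right hle3 (hclampos b).le
  · intro i J
    have h3 := hZφ i J
    rw [norm_form φ cc lb hlb n T hT0 e₀ (fun J' => (Z i J' : K)) (π J)]
    apply mul_le_mul_of_nonneg_left _ (pow_nonneg (norm_nonneg _) _)
    apply mul_le_mul_of_nonneg_left _ (by positivity)
    refine h3.trans ?_
    have hb0 := hclampos b
    have hJ0 := hclampos J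
    apply mul_le_mul_of_nonneg_right _ (by positivity)
    exact mul_le_mul_of_nonneg_right hle3 (hclampos b).le
  · intro i
    have h3 := span_orth h y e₀ e he _ (hZspan i)
    rw [← h3]
    apply Finset.sum_congr rfl
    intro J _
    rw [hv]
    simp only [toK]
    have := pow_ne_zero n (hΛ (e₀.symm J))
    field_simp
  · simp only [hv, Equiv.symm_apply_apply]
    apply mul_ne_zero (inv_ne_zero (pow_ne_zero _ (hΛ _)))
    exact_mod_cast hw1
  · simp only [hv, Equiv.symm_apply_apply]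
    apply mul_ne_zero (inv_ne_zero (pow_ne_zero _ (hΛ _)))
    exact_mod_cast hw0
  · simp only [hv, Equiv.symm_apply_apply]
    have hw1K : (wv h y J₁ : K) ≠ 0 := by exact_mod_cast hw1
    have hw0K : (wv h y J₀ : K) ≠ 0 := by exact_mod_cast hw0
    have hr : lamProd lb J₁ / lamProd lb J₀ = lb k / lb (J₀ i₀) := by
      rw [div_eq_div_iff (hΛ _) (hlb _)]
      have := hg lb
      rw [lamProd, lamProd, this]
      ring
    have hratio : (lb k / lb (J₀ i₀)) ^ n = ((wv h y J₁ : K) / (wv h y J₀ : K)) *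
        ((lamProd lb J₁ ^ n)⁻¹ * (wv h y J₁ : K) / ((lamProd lb J₀ ^ n)⁻¹ * (wv h y J₀ : K)))⁻¹ := by
      rw [← hr, div_pow]
      have h1 := pow_ne_zero n (hΛ J₁)
      have h0 := pow_ne_zero n (hΛ J₀)
      field_simp
    have h1 : n * logHeight₁ (lb k / lb (J₀ i₀)) ≤
        logHeight₁ ((wv h y J₁ : K) / (wv h y J₀ : K)) +
        logHeight₁ ((lamProd lb J₁ ^ n)⁻¹ * (wv h y J₁ : K) /
          ((lamProd lb J₀ ^ n)⁻¹ * (wv h y J₀ : K))) := by
      rw [← logHeight₁_pow, hratio]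
      refine (logHeight₁_mul_le _ _).trans ?_
      rw [logHeight₁_inv]
    have hB1 : 1 ≤ C * lam (Fin.last m) := hlow _
    have hbd : ∀ (σ : K →+* ℂ) (J : Fin q ↪o Fin (m + 1)), ‖σ (wv h y J : K)‖ ≤
        q.factorial * ((m + 1).factorial * (C * lam (Fin.last m)) ^ (m + 1)) ^ q := by
      intro σ J
      apply wv_bound h y _ hB1 σ
      intro i k
      refine (hcoord σ i k).trans ?_
      exact mul_le_mul_of_nonneg_left (hmono (Fin.le_last i)) hC0.le
    have hBge : (1 : ℝ) ≤ q.factorial * ((m + 1).factorial * (C * lam (Fin.last m)) ^ (m + 1)) ^ q := by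
      have e1 : (1 : ℝ) ≤ q.factorial := by exact_mod_cast q.factorial_pos
      have e2 : (1 : ℝ) ≤ (m + 1).factorial := by exact_mod_cast (m + 1).factorial_pos
      have e3 : (1 : ℝ) ≤ (C * lam (Fin.last m)) ^ (m + 1) := one_le_pow₀ hB1
      have e4 : (1 : ℝ) ≤ ((m + 1).factorial * (C * lam (Fin.last m)) ^ (m + 1)) ^ q := by
        apply one_le_pow₀
        nlinarith
      nlinarith
    have h2 := logHeight₁_div_le (wv h y J₁) (wv h y J₀) hw0 _ hBge
      (fun σ => hbd σ J₁) (fun σ => hbd σ J₀)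
    have h3 : (q.factorial : ℝ) * ((m + 1).factorial * (C * lam (Fin.last m)) ^ (m + 1)) ^ q =
        C4 * lam (Fin.last m) ^ ((m + 1) * q) := by
      rw [hC4, mul_pow C, pow_mul]
      ring
    have h4 : Real.log (C4 * lam (Fin.last m) ^ ((m + 1) * q)) ≤
        Real.log ((C1 + C3 + C4) * lam (Fin.last m) ^ ((m + 1) * q)) := by
      have := hlampos (Fin.last m)
      apply Real.log_le_log (by positivity)
      apply mul_le_mul_of_nonneg_right _ (by positivity)
      linarith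
    rw [h3] at h2
    have h5 := mul_le_mul_of_nonneg_left h4 (Nat.cast_nonneg (Fintype.card (K →+* ℂ)) : (0 : ℝ) ≤ _)
    linarith

end Pool.Agent.DD7719.M
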