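import Pool.Agent.DD7719.SubVan

/-!
# Size estimates for the coefficients of the substituted polynomial
-/

open MvPolynomial

namespace Pool.Agent.DD7719

section Est

variable {M k : ℕ} {ι : Type*} [Fintype ι] [DecidableEq ι] {K : Type*} [Field K]

lemma wmon_exp {S : Type*} [Fintype S] (g : S → ℝ) (j : S →₀ ℕ) :
    wmon (fun p => Real.exp (g p)) j = Real.exp (∑ p, j p * g p) := by
  rw [wmon, Real.exp_sum]
  exact Finset.prod_congr rfl fun p _ => by rw [← Real.exp_nat_mul]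

lemma wmon_elim (g : Fin M → ℝ) (κ : (Fin M ⊕ (Fin M × Fin k)) →₀ ℕ) :
    wmon (Sum.elim (fun h => Real.exp (g h)) (fun _ => 1)) κ =
      Real.exp (∑ h, κ (Sum.inl h) * g h) := by
  rw [wmon, Fintype.prod_sum_type, Real.exp_sum]
  simp only [Sum.elim_inl, Sum.elim_inr, one_pow, Finset.prod_const_one, mul_one]
  exact Finset.prod_congr rfl fun p _ => by rw [← Real.exp_nat_mul]

omit [DecidableEq ι] in
/-- rearrangement of exponents -/
lemma sum_exponents (n : Fin M → ℕ) (j : (Fin M × ι) →₀ ℕ) (a : ι → ℝ) (c : ℝ) :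
    ∑ p : Fin M × ι, (j p : ℝ) * (n p.1 * a p.2 + c) =
      ∑ J, a J * ((∑ h, n h * j (h, J) : ℕ) : ℝ) + c * ∑ p, (j p : ℝ) := by
  simp only [mul_add, Finset.sum_add_distrib]
  congr 1
  · rw [Fintype.sum_prod_type, Finset.sum_comm]
    refine Finset.sum_congr rfl fun J _ => ?_
    push_cast
    rw [Finset.mul_sum]
    exact Finset.sum_congr rfl fun h _ => by ring
  · rw [Finset.mul_sum]
    exact Finset.sum_congr rfl fun p _ => mul_comm _ _

omit [DecidableEq ι] in
lemma sum_mul_le (a : ι → ℝ) (e : ι → ℕ) (T E : ℕ) (c : ℝ) (ha : ∀ J, |a J| ≤ c)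
    (he : ∀ J, |(e J : ℝ) - T| ≤ E) :
    ∑ J, a J * (e J : ℝ) ≤ ∑ J, T * a J + Fintype.card ι * E * c := by
  have h1 : ∀ J, a J * (e J : ℝ) ≤ T * a J + E * c := by
    intro J
    have h2 : a J * ((e J : ℝ) - T) ≤ E * c := by
      calc a J * ((e J : ℝ) - T) ≤ |a J * ((e J : ℝ) - T)| := le_abs_self _
        _ = |a J| * |(e J : ℝ) - T| := abs_mul _ _
        _ ≤ c * E := mul_le_mul (ha J) (he J) (abs_nonneg _) ((abs_nonneg _).trans (ha J))
        _ = E * c := mul_comm _ _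
    linarith
  refine (Finset.sum_le_sum fun J _ => h1 J).trans ?_
  rw [Finset.sum_add_distrib, Finset.sum_const, Finset.card_univ, nsmul_eq_mul, mul_assoc]

/-- estimate at the embeddings different from the two distinguished ones -/
lemma est_other (σ : K →+* ℂ) (Λ : ι → K) (lam : ι → ℝ)
    (hlam : ∀ J, ‖σ (Λ J)‖ = Real.exp (lam J)) (n r : Fin M → ℕ) (R T : ℕ)
    (hnr : ∀ h, n h * r h = R) (Z : Fin M → Fin k → ι → K) (J₁ : ι) (γ : ℝ)
    (hZ : ∀ h l J, ‖σ (Z h l J)‖ ≤ Real.exp (n h * γ)) (P : MvPolynomial (Fin M × ι) K)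
    (hhom : ∀ j ∈ P.support, ∀ h, ∑ J, j (h, J) = r h) (E : ℕ)
    (hbal : ∀ j ∈ P.support, ∀ J, |((∑ h, n h * j (h, J) : ℕ) : ℝ) - T| ≤ E)
    (B : ℝ) (hB : ∑ j ∈ P.support, ‖σ (P.coeff j)‖ ≤ B) (c : ℝ) (hc : ∀ J, |lam J| ≤ c)
    (κ : (Fin M ⊕ (Fin M × Fin k)) →₀ ℕ) :
    ‖σ ((subG Λ n Z J₁ P).coeff κ)‖ ≤ B * Real.exp (∑ J, T * lam J + Fintype.card ι * E * c +
      R * M * γ - (∑ h, κ (Sum.inl h) * (n h * γ)) + (∑ h, (r h : ℝ)) * Real.log (k + 1)) := by
  have hρ : ∀ u, 0 ≤ (Sum.elim (fun h => Real.exp (n h * γ)) (fun _ => 1) :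
      (Fin M ⊕ (Fin M × Fin k)) → ℝ) u := by
    intro u
    rcases u with h | q
    · exact (Real.exp_pos _).le
    · exact zero_le_one
  have hk0 : (0 : ℝ) < k + 1 := by positivity
  -- the norm of the linear forms
  have h1 : ∀ p : Fin M × ι, wl1 σ (Sum.elim (fun h => Real.exp (n h * γ)) (fun _ => 1))
      (C (Λ p.2 ^ n p.1) * linB Z J₁ p) ≤
      Real.exp (n p.1 * (lam p.2 + γ) + Real.log (k + 1)) := by
    intro p
    refine (wl1_C_mul_le hρ σ _ _).trans ?_
    rw [map_pow, norm_pow, hlam, ← Real.exp_nat_mul]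
    have h2 : wl1 σ (Sum.elim (fun h => Real.exp (n h * γ)) (fun _ => 1)) (linB Z J₁ p) ≤
        (k + 1) * Real.exp (n p.1 * γ) := by
      rw [linB]
      refine (wl1_add hρ σ _ _).trans ?_
      have h3 : wl1 σ (Sum.elim (fun h => Real.exp (n h * γ)) (fun _ => 1))
          (∑ l, C (Z p.1 l p.2) * X (Sum.inr (p.1, l)) :
            MvPolynomial (Fin M ⊕ (Fin M × Fin k)) K) ≤ k * Real.exp (n p.1 * γ) := by
        refine (wl1_sum hρ σ _ _).trans ?_
        calc _ ≤ ∑ l : Fin k, Real.exp (n p.1 * γ) := by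
              refine Finset.sum_le_sum fun l _ => ?_
              refine (wl1_C_mul_le hρ σ _ _).trans ?_
              calc _ ≤ Real.exp (n p.1 * γ) * 1 :=
                    mul_le_mul (hZ _ _ _) (by simpa using wl1_X_le hρ σ (Sum.inr (p.1, l)))
                      (wl1_nonneg hρ σ _) (Real.exp_pos _).le
                _ = _ := mul_one _
          _ = _ := by simp
      have h4 : wl1 σ (Sum.elim (fun h => Real.exp (n h * γ)) (fun _ => 1))
          (if p.2 = J₁ then X (Sum.inl p.1) else 0 :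
            MvPolynomial (Fin M ⊕ (Fin M × Fin k)) K) ≤ Real.exp (n p.1 * γ) := by
        split_ifs
        · simpa using wl1_X_le hρ σ (Sum.inl p.1)
        · rw [wl1_zero]; exact (Real.exp_pos _).le
      linarith
    calc _ ≤ Real.exp (n p.1 * lam p.2) * ((k + 1) * Real.exp (n p.1 * γ)) :=
          mul_le_mul_of_nonneg_left h2 (Real.exp_pos _).le
      _ = _ := by
          rw [Real.exp_add, Real.exp_log hk0, mul_add (n p.1 : ℝ), Real.exp_add]
          ring
  have h2 := (coeff_le_wl1 hρ σ (subG Λ n Z J₁ P) κ).trans (wl1_aeval_le hρ σ _ _ h1 P)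
  rw [wmon_elim] at h2
  have h3 : ∀ j ∈ P.support, ‖σ (P.coeff j)‖ * wmon (fun p : Fin M × ι =>
      Real.exp (n p.1 * (lam p.2 + γ) + Real.log (k + 1))) j ≤ ‖σ (P.coeff j)‖ *
      Real.exp (∑ J, T * lam J + Fintype.card ι * E * c + R * M * γ +
        (∑ h, (r h : ℝ)) * Real.log (k + 1)) := by
    intro j hj
    refine mul_le_mul_of_nonneg_left ?_ (norm_nonneg _)
    rw [wmon_exp, sum_exponents n j (fun J => lam J + γ) (Real.log (k + 1))]
    rw [Real.exp_le_exp]
    have h4 : (∑ p, (j p : ℝ)) = ∑ h, (r h : ℝ) := by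
      rw [Fintype.sum_prod_type]
      refine Finset.sum_congr rfl fun h _ => ?_
      rw [← hhom j hj h]
      push_cast
      rfl
    have h5 : ∑ J, (lam J + γ) * ((∑ h, n h * j (h, J) : ℕ) : ℝ) =
        ∑ J, lam J * ((∑ h, n h * j (h, J) : ℕ) : ℝ) + R * M * γ := by
      simp only [add_mul, Finset.sum_add_distrib]
      congr 1
      rw [← Finset.mul_sum, mul_comm]
      congr 1
      rw [← Nat.cast_sum, Finset.sum_comm]
      have h6 : ∀ h, ∑ J, n h * j (h, J) = R := by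
        intro h
        rw [← Finset.mul_sum, hhom j hj, hnr]
      rw [Finset.sum_congr rfl fun h _ => h6 h]
      simp [mul_comm]
    rw [h4, h5]
    have h7 := sum_mul_le lam (fun J => ∑ h, n h * j (h, J)) T E c hc (hbal j hj)
    linarith
  have h4 := h2.trans (Finset.sum_le_sum h3)
  rw [← Finset.sum_mul] at h4
  have h5 := h4.trans (mul_le_mul_of_nonneg_right hB (Real.exp_pos _).le)
  have h6 : ‖σ ((subG Λ n Z J₁ P).coeff κ)‖ =
      ‖σ ((subG Λ n Z J₁ P).coeff κ)‖ * Real.exp (∑ h, κ (Sum.inl h) * (n h * γ)) *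
        Real.exp (-(∑ h, κ (Sum.inl h) * (n h * γ))) := by
    rw [mul_assoc, ← Real.exp_add, add_neg_cancel, Real.exp_zero, mul_one]
  rw [h6]
  refine (mul_le_mul_of_nonneg_right h5 (Real.exp_pos _).le).trans (le_of_eq ?_)
  rw [mul_assoc, ← Real.exp_add]
  congr 2
  ring

/-- estimate at the distinguished embedding -/
lemma est_phi (φ : K →+* ℂ) (Λ : ι → K) (lam : ι → ℝ)
    (hlam : ∀ J, ‖φ (Λ J)‖ = Real.exp (lam J)) (L Ψ : Matrix ι ι K) (hΨ : Ψ * L = 1)
    (U : ℝ) (hU1 : 1 ≤ U) (hU : ∀ J J', ‖φ (L J J')‖ ≤ U) (n r : Fin M → ℕ) (T : ℕ)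
    (Z : Fin M → Fin k → ι → K) (J₁ : ι) (a : ι → ℝ)
    (hZ : ∀ h l J, ‖φ (∑ J', L J J' * (Λ J' ^ n h * Z h l J'))‖ ≤ Real.exp (n h * a J))
    (P : MvPolynomial (Fin M × ι) K) (Pt : MvPolynomial (Fin M × ι) K)
    (hPt : Pt = bind₁ (fun p : Fin M × ι => ∑ J' : ι, C (Ψ p.2 J') * X (p.1, J')) P) (E : ℕ)
    (hbal : ∀ j ∈ Pt.support, ∀ J, |((∑ h, n h * j (h, J) : ℕ) : ℝ) - T| ≤ E)
    (hdeg : ∀ j ∈ Pt.support, ∀ p : Fin M × ι, j p ≤ 2 * M * r p.1)
    (B : ℝ) (hB : ∑ j ∈ Pt.support, ‖φ (Pt.coeff j)‖ ≤ B)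
    (Ca : ℝ) (hCa : ∀ J, lam J₁ - Ca ≤ a J) (c : ℝ) (hc : ∀ J, |a J| ≤ c)
    (κ : (Fin M ⊕ (Fin M × Fin k)) →₀ ℕ) :
    ‖φ ((subG Λ n Z J₁ P).coeff κ)‖ ≤ B * Real.exp (∑ J, T * a J + Fintype.card ι * E * c +
      (∑ h, κ (Sum.inl h) * (n h * Ca)) +
      (2 * M * Fintype.card ι * ∑ h, (r h : ℝ)) * Real.log (k + U)) := by
  have hρ : ∀ u, 0 ≤ (Sum.elim (fun h => Real.exp (n h * (-Ca))) (fun _ => 1) :
      (Fin M ⊕ (Fin M × Fin k)) → ℝ) u := by
    intro u
    rcases u with h | q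
    · exact (Real.exp_pos _).le
    · exact zero_le_one
  have hk0 : (1 : ℝ) ≤ k + U := by
    have : (0 : ℝ) ≤ k := Nat.cast_nonneg k
    linarith
  -- the forms `L_J`
  let y : Fin M × ι → MvPolynomial (Fin M ⊕ (Fin M × Fin k)) K := fun p =>
    ∑ l, C (∑ J', L p.2 J' * (Λ J' ^ n p.1 * Z p.1 l J')) * X (Sum.inr (p.1, l)) +
      C (L p.2 J₁ * Λ J₁ ^ n p.1) * X (Sum.inl p.1)
  have hy : ∀ p, y p = ∑ J', C (L p.2 J') * (C (Λ J' ^ n p.1) * linB Z J₁ (p.1, J')) := by
    intro p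
    simp only [y, linB, mul_add, Finset.sum_add_distrib]
    congr 1
    · simp only [Finset.mul_sum]
      rw [Finset.sum_comm]
      refine Finset.sum_congr rfl fun l _ => ?_
      rw [map_sum, Finset.sum_mul]
      refine Finset.sum_congr rfl fun J' _ => ?_
      simp only [map_mul]
      ring
    · rw [Finset.sum_eq_single J₁]
      · rw [if_pos rfl, map_mul, mul_assoc]
      · intro J' _ hJ'
        rw [if_neg hJ', mul_zero, mul_zero]
      · simp
  have hG : subG Λ n Z J₁ P = aeval y Pt := by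
    rw [hPt, aeval_bind₁, subG]
    congr 2
    funext p
    rw [map_sum]
    have h1 : ∀ J', aeval y (C (Ψ p.2 J') * X (p.1, J') : MvPolynomial (Fin M × ι) K) =
        ∑ J'', C (Ψ p.2 J' * L J' J'') * (C (Λ J'' ^ n p.1) * linB Z J₁ (p.1, J'')) := by
      intro J'
      rw [map_mul, aeval_C, aeval_X, hy, algebraMap_eq, Finset.mul_sum]
      refine Finset.sum_congr rfl fun J'' _ => ?_
      rw [C_mul]
      ring
    simp only [h1]
    rw [Finset.sum_comm]
    simp only [← Finset.sum_mul, ← map_sum]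
    have h2 : ∀ J'', ∑ J', Ψ p.2 J' * L J' J'' = if p.2 = J'' then 1 else 0 := by
      intro J''
      have := congrFun (congrFun hΨ p.2) J''
      rw [Matrix.mul_apply, Matrix.one_apply] at this
      exact this
    simp only [h2]
    rw [Finset.sum_eq_single p.2]
    · rw [if_pos rfl, C_1, one_mul]
    · intro J'' _ hJ''
      rw [if_neg (Ne.symm hJ''), C_0, zero_mul]
    · simp
  -- the norm of the linear forms
  have h1 : ∀ p : Fin M × ι, wl1 φ (Sum.elim (fun h => Real.exp (n h * (-Ca))) (fun _ => 1)) (y p) ≤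
      Real.exp (n p.1 * a p.2 + Real.log (k + U)) := by
    intro p
    refine (wl1_add hρ φ _ _).trans ?_
    have h3 : wl1 φ (Sum.elim (fun h => Real.exp (n h * (-Ca))) (fun _ => 1))
        (∑ l, C (∑ J', L p.2 J' * (Λ J' ^ n p.1 * Z p.1 l J')) * X (Sum.inr (p.1, l)) :
          MvPolynomial (Fin M ⊕ (Fin M × Fin k)) K) ≤ k * Real.exp (n p.1 * a p.2) := by
      refine (wl1_sum hρ φ _ _).trans ?_
      calc _ ≤ ∑ l : Fin k, Real.exp (n p.1 * a p.2) := by
            refine Finset.sum_le_sum fun l _ => ?_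
            refine (wl1_C_mul_le hρ φ _ _).trans ?_
            calc _ ≤ Real.exp (n p.1 * a p.2) * 1 :=
                  mul_le_mul (hZ _ _ _) (by simpa using wl1_X_le hρ φ (Sum.inr (p.1, l)))
                    (wl1_nonneg hρ φ _) (Real.exp_pos _).le
              _ = _ := mul_one _
        _ = _ := by simp
    have h4 : wl1 φ (Sum.elim (fun h => Real.exp (n h * (-Ca))) (fun _ => 1))
        (C (L p.2 J₁ * Λ J₁ ^ n p.1) * X (Sum.inl p.1) :
          MvPolynomial (Fin M ⊕ (Fin M × Fin k)) K) ≤ U * Real.exp (n p.1 * a p.2) := by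
      refine (wl1_C_mul_le hρ φ _ _).trans ?_
      rw [map_mul, map_pow, norm_mul, norm_pow, hlam, ← Real.exp_nat_mul]
      have h5 := wl1_X_le hρ φ (Sum.inl p.1)
      rw [Sum.elim_inl] at h5
      calc _ ≤ (U * Real.exp (n p.1 * lam J₁)) * Real.exp (n p.1 * (-Ca)) :=
            mul_le_mul (mul_le_mul_of_nonneg_right (hU _ _) (Real.exp_pos _).le) h5
              (wl1_nonneg hρ φ _) (by positivity)
        _ = U * Real.exp (n p.1 * (lam J₁ - Ca)) := by
            rw [mul_assoc, ← Real.exp_add]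
            congr 2
            ring
        _ ≤ U * Real.exp (n p.1 * a p.2) := by
            refine mul_le_mul_of_nonneg_left ?_ (by linarith)
            rw [Real.exp_le_exp]
            exact mul_le_mul_of_nonneg_left (hCa _) (Nat.cast_nonneg _)
    rw [Real.exp_add, Real.exp_log (by linarith)]
    linarith
  have h2 := (coeff_le_wl1 hρ φ (aeval y Pt) κ).trans (wl1_aeval_le hρ φ _ _ h1 Pt)
  rw [wmon_elim] at h2
  have hlog : 0 ≤ Real.log (k + U) := Real.log_nonneg hk0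
  have h3 : ∀ j ∈ Pt.support, ‖φ (Pt.coeff j)‖ * wmon (fun p : Fin M × ι =>
      Real.exp (n p.1 * a p.2 + Real.log (k + U))) j ≤ ‖φ (Pt.coeff j)‖ *
      Real.exp (∑ J, T * a J + Fintype.card ι * E * c +
        (2 * M * Fintype.card ι * ∑ h, (r h : ℝ)) * Real.log (k + U)) := by
    intro j hj
    refine mul_le_mul_of_nonneg_left ?_ (norm_nonneg _)
    rw [wmon_exp, sum_exponents n j a (Real.log (k + U))]
    rw [Real.exp_le_exp]
    have h4 : (∑ p, (j p : ℝ)) ≤ 2 * M * Fintype.card ι * ∑ h, (r h : ℝ) := by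
      calc (∑ p, (j p : ℝ)) ≤ ∑ p : Fin M × ι, (2 * M * r p.1 : ℝ) := by
            refine Finset.sum_le_sum fun p _ => ?_
            exact_mod_cast hdeg j hj p
        _ = _ := by
            rw [Fintype.sum_prod_type]
            simp only [Finset.sum_const, Finset.card_univ, nsmul_eq_mul]
            rw [Finset.mul_sum]
            exact Finset.sum_congr rfl fun h _ => by ring
    have h7 := sum_mul_le a (fun J => ∑ h, n h * j (h, J)) T E c hc (hbal j hj)
    have h8 := mul_le_mul_of_nonneg_right h4 hlog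
    rw [mul_comm (Real.log (k + U))]
    linarith
  have h4 := h2.trans (Finset.sum_le_sum h3)
  rw [← Finset.sum_mul] at h4
  have h5 := h4.trans (mul_le_mul_of_nonneg_right hB (Real.exp_pos _).le)
  rw [← hG] at h5
  have h6 : ‖φ ((subG Λ n Z J₁ P).coeff κ)‖ =
      ‖φ ((subG Λ n Z J₁ P).coeff κ)‖ * Real.exp (∑ h, κ (Sum.inl h) * (n h * (-Ca))) *
        Real.exp ((∑ h, κ (Sum.inl h) * (n h * Ca))) := by
    rw [mul_assoc, ← Real.exp_add, ← Finset.sum_add_distrib]
    have : ∑ h : Fin M, ((κ (Sum.inl h) : ℝ) * (n h * (-Ca)) + κ (Sum.inl h) * (n h * Ca)) = 0 :=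
      Finset.sum_eq_zero fun h _ => by ring
    rw [this, Real.exp_zero, mul_one]
  rw [h6]
  refine (mul_le_mul_of_nonneg_right h5 (Real.exp_pos _).le).trans (le_of_eq ?_)
  rw [mul_assoc, ← Real.exp_add]
  congr 2
  ring

end Est

end Pool.Agent.DD7719
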