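import Mathlib

/-!
# Weighted `ℓ¹`-norms of polynomials, and integrality (helper file for the Subspace argument)
-/

open MvPolynomial

namespace Pool.Agent.DD7719

section WL1

variable {U : Type*} [Fintype U] {K : Type*} [Field K]

/-- the weight of a monomial. -/
noncomputable def wmon (ρ : U → ℝ) (κ : U →₀ ℕ) : ℝ := ∏ u, ρ u ^ κ u

lemma wmon_zero (ρ : U → ℝ) : wmon ρ 0 = 1 := by simp [wmon]

lemma wmon_add (ρ : U → ℝ) (κ κ' : U →₀ ℕ) : wmon ρ (κ + κ') = wmon ρ κ * wmon ρ κ' := by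
  simp [wmon, pow_add, Finset.prod_mul_distrib]

lemma wmon_nonneg {ρ : U → ℝ} (hρ : ∀ u, 0 ≤ ρ u) (κ : U →₀ ℕ) : 0 ≤ wmon ρ κ :=
  Finset.prod_nonneg fun u _ => pow_nonneg (hρ u) _

lemma wmon_pos {ρ : U → ℝ} (hρ : ∀ u, 0 < ρ u) (κ : U →₀ ℕ) : 0 < wmon ρ κ :=
  Finset.prod_pos fun u _ => pow_pos (hρ u) _

/-- The weighted `ℓ¹`-norm of a polynomial at a complex embedding. -/
noncomputable def wl1 (φ : K →+* ℂ) (ρ : U → ℝ) (F : MvPolynomial U K) : ℝ :=
  ∑ κ ∈ F.support, ‖φ (F.coeff κ)‖ * wmon ρ κ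

variable {ρ : U → ℝ} (hρ : ∀ u, 0 ≤ ρ u) (φ : K →+* ℂ)

include hρ

lemma wl1_nonneg (F : MvPolynomial U K) : 0 ≤ wl1 φ ρ F :=
  Finset.sum_nonneg fun _ _ => mul_nonneg (norm_nonneg _) (wmon_nonneg hρ _)

omit hρ in
lemma wl1_eq_sum (F : MvPolynomial U K) (s : Finset (U →₀ ℕ))
    (hs : F.support ⊆ s) : wl1 φ ρ F = ∑ i ∈ s, ‖φ (F.coeff i)‖ * wmon ρ i := by
  refine Finset.sum_subset hs fun i _ hi => ?_
  rw [notMem_support_iff.mp hi, map_zero, norm_zero, zero_mul]

omit hρ in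
lemma wl1_zero : wl1 φ ρ (0 : MvPolynomial U K) = 0 := by
  simp [wl1]

lemma wl1_add (F G : MvPolynomial U K) : wl1 φ ρ (F + G) ≤ wl1 φ ρ F + wl1 φ ρ G := by
  classical
  rw [wl1_eq_sum φ (F + G) (F.support ∪ G.support) support_add,
    wl1_eq_sum φ F (F.support ∪ G.support) Finset.subset_union_left,
    wl1_eq_sum φ G (F.support ∪ G.support) Finset.subset_union_right, ← Finset.sum_add_distrib]
  refine Finset.sum_le_sum fun i _ => ?_
  rw [coeff_add, map_add, ← add_mul]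
  exact mul_le_mul_of_nonneg_right (norm_add_le _ _) (wmon_nonneg hρ _)

lemma wl1_sum {ι : Type*} (s : Finset ι) (F : ι → MvPolynomial U K) :
    wl1 φ ρ (∑ a ∈ s, F a) ≤ ∑ a ∈ s, wl1 φ ρ (F a) := by
  classical
  induction s using Finset.induction_on with
  | empty => simp [wl1_zero]
  | insert a s ha ih =>
    rw [Finset.sum_insert ha, Finset.sum_insert ha]
    exact (wl1_add hρ φ _ _).trans (by linarith)

omit hρ in
lemma wl1_monomial_mul (i : U →₀ ℕ) (a : K) (G : MvPolynomial U K) :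
    wl1 φ ρ (monomial i a * G) ≤ ‖φ a‖ * wmon ρ i * wl1 φ ρ G := by
  classical
  have h1 : (monomial i a * G).support ⊆ G.support.map (addLeftEmbedding i) := by
    intro j hj
    rw [mem_support_iff, coeff_monomial_mul'] at hj
    have h2 : i ≤ j := by
      by_contra h
      exact hj (if_neg h)
    rw [if_pos h2] at hj
    rw [Finset.mem_map]
    exact ⟨j - i, mem_support_iff.mpr (right_ne_zero_of_mul hj), by
      simp [add_tsub_cancel_of_le h2]⟩
  rw [wl1_eq_sum φ _ _ h1, Finset.sum_map, wl1, Finset.mul_sum]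
  refine Finset.sum_le_sum fun j _ => ?_
  simp only [addLeftEmbedding_apply]
  rw [coeff_monomial_mul, map_mul, norm_mul, wmon_add]
  exact le_of_eq (by ring)

lemma wl1_mul (F G : MvPolynomial U K) : wl1 φ ρ (F * G) ≤ wl1 φ ρ F * wl1 φ ρ G := by
  classical
  have h1 : F * G = ∑ i ∈ F.support, monomial i (F.coeff i) * G := by
    rw [← Finset.sum_mul, support_sum_monomial_coeff]
  rw [h1]
  refine (wl1_sum hρ φ _ _).trans ?_
  rw [wl1, Finset.sum_mul]
  exact Finset.sum_le_sum fun i _ => wl1_monomial_mul φ i _ G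

omit hρ in
lemma wl1_monomial_le (κ : U →₀ ℕ) (a : K) : wl1 φ ρ (monomial κ a) ≤ ‖φ a‖ * wmon ρ κ := by
  classical
  have h1 : (monomial κ a : MvPolynomial U K).support ⊆ {κ} := support_monomial_subset
  rw [wl1_eq_sum φ _ _ h1, Finset.sum_singleton, coeff_monomial, if_pos rfl]

lemma wl1_C_le (a : K) : wl1 φ ρ (C a : MvPolynomial U K) ≤ ‖φ a‖ := by
  have := wl1_monomial_le (ρ := ρ) φ (0 : U →₀ ℕ) a
  rwa [wmon_zero, mul_one] at this

lemma wl1_one_le : wl1 φ ρ (1 : MvPolynomial U K) ≤ 1 := by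
  have := wl1_C_le hρ φ (1 : K)
  rwa [C_1, map_one, norm_one] at this

lemma wl1_X_le (u : U) : wl1 φ ρ (X u : MvPolynomial U K) ≤ ρ u := by
  classical
  have := wl1_monomial_le (ρ := ρ) φ (Finsupp.single u 1) (1 : K)
  change wl1 φ ρ (X u) ≤ _ at this
  rw [map_one φ, norm_one, one_mul] at this
  refine this.trans (le_of_eq ?_)
  rw [wmon, Finset.prod_eq_single u]
  · simp
  · intro b _ hb
    simp [Finsupp.single_apply, Ne.symm hb]
  · simp

lemma wl1_C_mul_le (a : K) (F : MvPolynomial U K) : wl1 φ ρ (C a * F) ≤ ‖φ a‖ * wl1 φ ρ F :=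
  (wl1_mul hρ φ _ _).trans (mul_le_mul_of_nonneg_right (wl1_C_le hρ φ a) (wl1_nonneg hρ φ F))

lemma wl1_prod_le {ι : Type*} (s : Finset ι) (F : ι → MvPolynomial U K) :
    wl1 φ ρ (∏ a ∈ s, F a) ≤ ∏ a ∈ s, wl1 φ ρ (F a) := by
  classical
  induction s using Finset.induction_on with
  | empty => simpa using wl1_one_le hρ φ
  | insert a s ha ih =>
    rw [Finset.prod_insert ha, Finset.prod_insert ha]
    exact (wl1_mul hρ φ _ _).trans (mul_le_mul_of_nonneg_left ih (wl1_nonneg hρ φ _))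

lemma wl1_pow_le (F : MvPolynomial U K) (k : ℕ) : wl1 φ ρ (F ^ k) ≤ wl1 φ ρ F ^ k := by
  induction k with
  | zero => simpa using wl1_one_le hρ φ
  | succ k ih =>
    rw [pow_succ, pow_succ]
    exact (wl1_mul hρ φ _ _).trans (mul_le_mul_of_nonneg_right ih (wl1_nonneg hρ φ _))

lemma coeff_le_wl1 (F : MvPolynomial U K) (κ : U →₀ ℕ) :
    ‖φ (F.coeff κ)‖ * wmon ρ κ ≤ wl1 φ ρ F := by
  by_cases h : κ ∈ F.support
  · exact Finset.single_le_sum (f := fun κ => ‖φ (F.coeff κ)‖ * wmon ρ κ)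
      (fun i _ => mul_nonneg (norm_nonneg _) (wmon_nonneg hρ _)) h
  · rw [notMem_support_iff.mp h, map_zero, norm_zero, zero_mul]
    exact wl1_nonneg hρ φ F

/-- substitution. -/
lemma wl1_aeval_le {S : Type*} [Fintype S] (ℓ : S → MvPolynomial U K) (a : S → ℝ)
    (ha : ∀ s, wl1 φ ρ (ℓ s) ≤ a s) (P : MvPolynomial S K) :
    wl1 φ ρ (aeval ℓ P) ≤ ∑ j ∈ P.support, ‖φ (P.coeff j)‖ * wmon a j := by
  rw [aeval_def, eval₂_eq']
  refine (wl1_sum hρ φ _ _).trans (Finset.sum_le_sum fun j _ => ?_)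
  rw [algebraMap_eq]
  refine (wl1_C_mul_le hρ φ _ _).trans (mul_le_mul_of_nonneg_left ?_ (norm_nonneg _))
  refine (wl1_prod_le hρ φ _ _).trans ?_
  refine Finset.prod_le_prod (fun s _ => wl1_nonneg hρ φ _) fun s _ => ?_
  exact (wl1_pow_le hρ φ _ _).trans (pow_le_pow_left₀ (wl1_nonneg hρ φ _) (ha s) _)

end WL1

section Card

variable {S : Type*} [Fintype S] {K : Type*} [Field K]

/-- sum of the absolute values of the coefficients. -/
lemma sum_norm_coeff_le (φ : K →+* ℂ) (P : MvPolynomial S K) (r : S → ℕ)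
    (hP : ∀ j ∈ P.support, ∀ s, j s ≤ r s) (B : ℝ) (hB : ∀ j, ‖φ (P.coeff j)‖ ≤ B) :
    ∑ j ∈ P.support, ‖φ (P.coeff j)‖ ≤ 2 ^ (∑ s, r s) * B := by
  classical
  have hB0 : 0 ≤ B := (norm_nonneg _).trans (hB 0)
  have h1 : ∑ j ∈ P.support, ‖φ (P.coeff j)‖ ≤ P.support.card * B := by
    refine (Finset.sum_le_sum fun i _ => hB i).trans ?_
    rw [Finset.sum_const, nsmul_eq_mul]
  refine h1.trans (mul_le_mul_of_nonneg_right ?_ hB0)
  have h2 : P.support.card ≤ (Fintype.piFinset fun h => Finset.range (r h + 1)).card := by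
    refine Finset.card_le_card_of_injOn (fun i h => i h) ?_ ?_
    · intro i hi
      rw [Finset.mem_coe, Fintype.mem_piFinset]
      intro h
      rw [Finset.mem_range]
      exact Nat.lt_succ_of_le (hP i hi h)
    · intro i _ j _ hij
      exact DFunLike.coe_injective hij
  rw [Fintype.card_piFinset] at h2
  have h3 : ∏ h, (Finset.range (r h + 1)).card ≤ 2 ^ (∑ h, r h) := by
    rw [← Finset.prod_pow_eq_pow_sum]
    refine Finset.prod_le_prod' fun h _ => ?_
    rw [Finset.card_range]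
    exact Nat.lt_two_pow_self
  exact_mod_cast h2.trans h3

end Card

section Integral

variable (U : Type*) (K : Type*) [Field K]

/-- polynomials with integral coefficients. -/
def intSub : Subring (MvPolynomial U K) where
  carrier := {F | ∀ i, IsIntegral ℤ (F.coeff i)}
  zero_mem' i := by rw [coeff_zero]; exact isIntegral_zero
  one_mem' i := by
    classical
    rw [coeff_one]
    split_ifs
    · exact isIntegral_one
    · exact isIntegral_zero
  add_mem' {a b} ha hb i := by rw [coeff_add]; exact (ha i).add (hb i)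
  neg_mem' {a} ha i := by rw [coeff_neg]; exact (ha i).neg
  mul_mem' {a b} ha hb i := by
    classical
    rw [coeff_mul]
    exact IsIntegral.sum _ fun x _ => (ha _).mul (hb _)

variable {U K}

lemma C_mem_intSub {a : K} (ha : IsIntegral ℤ a) : (C a : MvPolynomial U K) ∈ intSub U K := by
  classical
  intro i
  rw [coeff_C]
  split_ifs
  · exact ha
  · exact isIntegral_zero

lemma X_mem_intSub (u : U) : (X u : MvPolynomial U K) ∈ intSub U K := by
  classical
  intro i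
  rw [coeff_X]
  split_ifs
  · exact isIntegral_one
  · exact isIntegral_zero

lemma isIntegral_coeff_aeval {S : Type*} [Fintype S] (lam : S → K) (ℓ : S → MvPolynomial U K)
    (hℓ : ∀ s, ℓ s ∈ intSub U K) (P : MvPolynomial S K) (hP : P ∈ intSub S K) (c : K)
    (hc : ∀ j ∈ P.support, IsIntegral ℤ (c * ∏ s, lam s ^ j s)) (κ : U →₀ ℕ) :
    IsIntegral ℤ (c * (aeval (fun s => C (lam s) * ℓ s) P).coeff κ) := by
  rw [aeval_def, eval₂_eq', coeff_sum, Finset.mul_sum]
  refine IsIntegral.sum _ fun j hj => ?_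
  have h1 : (algebraMap K (MvPolynomial U K) (P.coeff j) *
      ∏ s, (C (lam s) * ℓ s) ^ j s) = C (∏ s, lam s ^ j s) * (C (P.coeff j) * ∏ s, ℓ s ^ j s) := by
    rw [algebraMap_eq]
    simp only [mul_pow, Finset.prod_mul_distrib, map_prod, map_pow]
    ring
  rw [h1, coeff_C_mul, ← mul_assoc]
  refine (hc j hj).mul ?_
  exact (intSub U K).mul_mem (C_mem_intSub (hP j))
    ((intSub U K).prod_mem fun s _ => (intSub U K).pow_mem (hℓ s) _) κ

end Integral

section Norm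

/-- A nonzero algebraic integer has norm at least one in absolute value. -/
lemma eq_zero_of_prod_lt_one {K : Type*} [Field K] [NumberField K] (x : K) (hx : IsIntegral ℤ x)
    (h : ∏ σ : K →+* ℂ, ‖σ x‖ < 1) : x = 0 := by
  by_contra hx0
  have h1 : (algebraMap ℚ ℂ (Algebra.norm ℚ x)) = ∏ σ : K →ₐ[ℚ] ℂ, σ x :=
    Algebra.norm_eq_prod_embeddings ℚ ℂ x
  have h2 : ∏ σ : K →ₐ[ℚ] ℂ, ‖σ x‖ = ∏ σ : K →+* ℂ, ‖σ x‖ :=
    (Fintype.prod_equiv (RingHom.equivRatAlgHom K ℂ) _ _ fun σ => by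
      simp [RingHom.equivRatAlgHom_apply]).symm
  have h3 : ‖(algebraMap ℚ ℂ (Algebra.norm ℚ x))‖ = ∏ σ : K →+* ℂ, ‖σ x‖ := by
    rw [h1, norm_prod, h2]
  have h4 : IsIntegral ℤ (Algebra.norm ℚ x) := Algebra.isIntegral_norm ℚ hx
  obtain ⟨z, hz⟩ := IsIntegrallyClosed.isIntegral_iff.mp h4
  have hz0 : z ≠ 0 := by
    rintro rfl
    rw [map_zero, eq_comm, Algebra.norm_eq_zero_iff] at hz
    exact hx0 hz
  rw [← hz] at h3
  have h5 : ‖(algebraMap ℚ ℂ ((algebraMap ℤ ℚ) z))‖ = |(z : ℝ)| := by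
    simp
  rw [h5] at h3
  have h6 : (1 : ℝ) ≤ |(z : ℝ)| := by
    have := Int.one_le_abs hz0
    exact_mod_cast this
  linarith

end Norm

end Pool.Agent.DD7719
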