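import Pool.Agent.DD7719.SubNorm

/-!
# The substitution of the parametrised hyperplanes, and the vanishing of its coefficients
-/

open MvPolynomial

namespace Pool.Agent.DD7719

section Coords

/-- coordinates on a hyperplane. -/
lemma exists_coords {ι : Type*} [Fintype ι] {K : Type*} [Field K] (k : ℕ)
    (hk : k + 1 = Fintype.card ι) (X : Fin k → ι → K) (hX : LinearIndependent K X) (v : ι → K)
    (J₁ : ι) (hv : v J₁ ≠ 0) (hXv : ∀ i, ∑ J, v J * X i J = 0) (x : ι → K)
    (hx : ∑ J, v J * x J = 0) : ∃ b : Fin k → K, ∀ J, x J = ∑ l, b l * X l J := by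
  classical
  let f : (ι → K) →ₗ[K] K := ∑ J, v J • LinearMap.proj J
  have hf : ∀ y : ι → K, f y = ∑ J, v J * y J := by
    intro y
    simp [f]
  have hf1 : Function.Surjective f := by
    intro a
    refine ⟨Pi.single J₁ (a / v J₁), ?_⟩
    rw [hf, Finset.sum_eq_single J₁]
    · rw [Pi.single_eq_same, mul_div_cancel₀ _ hv]
    · intro J _ hJ
      rw [Pi.single_eq_of_ne hJ, mul_zero]
    · simp
  have h1 : Module.finrank K (LinearMap.ker f) = k := by
    have h2 := LinearMap.finrank_range_add_finrank_ker f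
    rw [LinearMap.range_eq_top.mpr hf1, finrank_top, Module.finrank_self,
      Module.finrank_fintype_fun_eq_card] at h2
    omega
  have h2 : Submodule.span K (Set.range X) ≤ LinearMap.ker f := by
    rw [Submodule.span_le]
    rintro _ ⟨i, rfl⟩
    rw [SetLike.mem_coe, LinearMap.mem_ker, hf]
    exact hXv i
  have h3 : Module.finrank K (Submodule.span K (Set.range X)) = k := by
    rw [finrank_span_eq_card hX, Fintype.card_fin]
  have h4 := Submodule.eq_of_le_of_finrank_eq h2 (h3.trans h1.symm)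
  have h5 : x ∈ Submodule.span K (Set.range X) := by
    rw [h4, LinearMap.mem_ker, hf]
    exact hx
  rw [Submodule.mem_span_range_iff_exists_fun] at h5
  obtain ⟨b, hb⟩ := h5
  refine ⟨b, fun J => ?_⟩
  rw [← hb]
  simp

end Coords

section Subst

variable {M k : ℕ} {ι : Type*} [Fintype ι] [DecidableEq ι] {K : Type*} [Field K]

/-- the linear forms in the variables `b` (inr) and `t` (inl). -/
noncomputable def linB (Z : Fin M → Fin k → ι → K) (J₁ : ι) (p : Fin M × ι) :
    MvPolynomial (Fin M ⊕ (Fin M × Fin k)) K :=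
  ∑ l, C (Z p.1 l p.2) * X (Sum.inr (p.1, l)) + if p.2 = J₁ then X (Sum.inl p.1) else 0

/-- the substituted polynomial. -/
noncomputable def subG (Λ : ι → K) (n : Fin M → ℕ) (Z : Fin M → Fin k → ι → K) (J₁ : ι)
    (P : MvPolynomial (Fin M × ι) K) : MvPolynomial (Fin M ⊕ (Fin M × Fin k)) K :=
  aeval (fun p : Fin M × ι => C (Λ p.2 ^ n p.1) * linB Z J₁ p) P

/-- the `t`-part of an exponent. -/
noncomputable def tpart (κ : (Fin M ⊕ (Fin M × Fin k)) →₀ ℕ) : Fin M →₀ ℕ :=
  Finsupp.equivFunOnFinite.symm (fun h => κ (Sum.inl h))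

lemma tpart_apply (κ : (Fin M ⊕ (Fin M × Fin k)) →₀ ℕ) (h : Fin M) :
    tpart κ h = κ (Sum.inl h) := rfl

/-- specialisation of the variables `b`. -/
noncomputable def spec (c : Fin M → K) (b : Fin M → Fin k → K) :
    MvPolynomial (Fin M ⊕ (Fin M × Fin k)) K →ₐ[K] MvPolynomial (Fin M) K :=
  aeval (Sum.elim (fun h => C (c h) * X h) (fun q => C (b q.1 q.2)))

lemma support_spec (c : Fin M → K) (b : Fin M → Fin k → K)
    (G : MvPolynomial (Fin M ⊕ (Fin M × Fin k)) K) (i : Fin M →₀ ℕ)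
    (hi : i ∈ (spec c b G).support) : ∃ κ ∈ G.support, tpart κ = i := by
  classical
  by_contra hcon
  push Not at hcon
  rw [mem_support_iff] at hi
  apply hi
  rw [spec, aeval_def, eval₂_eq', coeff_sum]
  refine Finset.sum_eq_zero fun κ hκ => ?_
  have h1 : ∏ u, (Sum.elim (fun h => C (c h) * X h) (fun q => C (b q.1 q.2)) u :
      MvPolynomial (Fin M) K) ^ κ u =
      C ((∏ h, c h ^ κ (Sum.inl h)) * ∏ q : Fin M × Fin k, b q.1 q.2 ^ κ (Sum.inr q)) *
        monomial (tpart κ) 1 := by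
    rw [Fintype.prod_sum_type]
    simp only [Sum.elim_inl, Sum.elim_inr, mul_pow, Finset.prod_mul_distrib]
    have h2 : (monomial (tpart κ) 1 : MvPolynomial (Fin M) K) = ∏ h, X h ^ κ (Sum.inl h) := by
      rw [monomial_eq, C_1, one_mul, Finsupp.prod_fintype _ _ (fun p => pow_zero _)]
      rfl
    rw [h2]
    simp only [map_mul, map_prod, map_pow]
    ring
  rw [h1, algebraMap_eq, ← mul_assoc, ← C_mul, coeff_C_mul, coeff_monomial, if_neg (hcon κ hκ),
    mul_zero]

lemma spec_subG (Λ : ι → K) (hΛ : ∀ J, Λ J ≠ 0) (n : Fin M → ℕ) (Z : Fin M → Fin k → ι → K)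
    (J₁ : ι) (P : MvPolynomial (Fin M × ι) K) (b : Fin M → Fin k → K) (x : Fin M → ι → K)
    (hx : ∀ h J, x h J = ∑ l, b h l * (Λ J ^ n h * Z h l J)) :
    spec (fun h => (Λ J₁ ^ n h)⁻¹) b (subG Λ n Z J₁ P) =
      aeval (fun p : Fin M × ι => (C (x p.1 p.2) + if p.2 = J₁ then X p.1 else 0 :
        MvPolynomial (Fin M) K)) P := by
  rw [subG, ← AlgHom.comp_apply, comp_aeval]
  congr 2
  funext p
  obtain ⟨h, J⟩ := p
  rw [map_mul, linB, map_add, map_sum]
  have h1 : ∀ a : K, spec (fun h => (Λ J₁ ^ n h)⁻¹) b (C a) = C a := by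
    intro a
    rw [spec, aeval_C, algebraMap_eq]
  have h2 : ∀ l, spec (fun h => (Λ J₁ ^ n h)⁻¹) b (C (Z h l J) * X (Sum.inr (h, l))) =
      C (Z h l J * b h l) := by
    intro l
    rw [map_mul, h1, spec, aeval_X, Sum.elim_inr, ← C_mul]
  simp only [h2, h1]
  rw [mul_add, ← map_sum, ← C_mul, hx]
  congr 1
  · congr 1
    rw [Finset.mul_sum]
    refine Finset.sum_congr rfl fun l _ => by ring
  · by_cases hJ : J = J₁
    · subst hJ
      rw [if_pos rfl, if_pos rfl, spec, aeval_X, Sum.elim_inl, ← mul_assoc, ← C_mul,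
        mul_inv_cancel₀ (pow_ne_zero _ (hΛ J)), C_1, one_mul]
    · rw [if_neg hJ, if_neg hJ, map_zero, mul_zero]

/-- From the vanishing of coefficients of `subG` to the vanishing along the product of
hyperplanes. -/
theorem support_of_subG (Λ : ι → K) (hΛ : ∀ J, Λ J ≠ 0) (n : Fin M → ℕ)
    (Z : Fin M → Fin k → ι → K) (hk : k + 1 = Fintype.card ι)
    (hZ : ∀ h, LinearIndependent K (Z h)) (v : Fin M → ι → K) (J₁ : ι)
    (hv : ∀ h, v h J₁ ≠ 0) (hvZ : ∀ h l, ∑ J, v h J * (Λ J ^ n h * Z h l J) = 0)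
    (P : MvPolynomial (Fin M × ι) K) (good : (Fin M →₀ ℕ) → Prop)
    (hG : ∀ κ ∈ (subG Λ n Z J₁ P).support, good (tpart κ))
    (x : Fin M → ι → K)
    (hx : ∀ h, x h J₁ = ∑ J ∈ Finset.univ.erase J₁, (-(v h J / v h J₁)) * x h J) :
    ∀ i ∈ (aeval (fun p : Fin M × ι => (C (x p.1 p.2) + if p.2 = J₁ then X p.1 else 0 :
        MvPolynomial (Fin M) K)) P).support, good i := by
  have hind : ∀ h, LinearIndependent K (fun l J => Λ J ^ n h * Z h l J) := by
    intro h
    rw [Fintype.linearIndependent_iff]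
    intro g hg
    refine Fintype.linearIndependent_iff.mp (hZ h) g ?_
    funext J
    have h1 := congrFun hg J
    simp only [Finset.sum_apply, Pi.smul_apply, smul_eq_mul, Pi.zero_apply] at h1 ⊢
    have h2 : ∑ l, g l * (Λ J ^ n h * Z h l J) = Λ J ^ n h * ∑ l, g l * Z h l J := by
      rw [Finset.mul_sum]
      exact Finset.sum_congr rfl fun l _ => by ring
    rw [h2] at h1
    exact (mul_eq_zero.mp h1).resolve_left (pow_ne_zero _ (hΛ J))
  have hex : ∀ h, ∃ b : Fin k → K, ∀ J, x h J = ∑ l, b l * (Λ J ^ n h * Z h l J) := by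
    intro h
    refine exists_coords k hk _ (hind h) (v h) J₁ (hv h) (hvZ h) (x h) ?_
    rw [← Finset.add_sum_erase _ _ (Finset.mem_univ J₁), hx h, Finset.mul_sum,
      ← Finset.sum_add_distrib]
    refine Finset.sum_eq_zero fun J _ => ?_
    field_simp [hv h]
    ring
  choose b hb using hex
  intro i hi
  rw [← spec_subG Λ hΛ n Z J₁ P b x hb] at hi
  obtain ⟨κ, hκ, rfl⟩ := support_spec _ _ _ i hi
  exact hG κ hκ

end Subst

end Pool.Agent.DD7719
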