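import Pool.Agent.DD7719.SubEst

/-!
# Vanishing of the coefficients of the substituted polynomial
-/

open MvPolynomial NumberField

namespace Pool.Agent.DD7719

section Zero

variable {M k : ℕ} {ι : Type*} [Fintype ι] [DecidableEq ι] {K : Type*} [Field K]

lemma isIntegral_pow_window (d : ℕ) (x : K) (hx : x ≠ 0) (h1 : IsIntegral ℤ ((d : K) * x))
    (h2 : IsIntegral ℤ ((d : K) * x⁻¹)) (T e E : ℕ) (h : |((e : ℕ) : ℝ) - T| ≤ E) :
    IsIntegral ℤ ((d : K) ^ E * (x ^ T)⁻¹ * x ^ e) := by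
  have hd : IsIntegral ℤ (d : K) := by
    have := isIntegral_algebraMap (R := ℤ) (A := K) (x := (d : ℤ))
    simpa using this
  rcases le_total T e with hTe | hTe
  · obtain ⟨m, rfl⟩ := Nat.exists_eq_add_of_le hTe
    have hm : m ≤ E := by
      push_cast at h
      rw [add_sub_cancel_left, Nat.abs_cast] at h
      exact_mod_cast h
    obtain ⟨q, rfl⟩ := Nat.exists_eq_add_of_le hm
    have : (d : K) ^ (m + q) * (x ^ T)⁻¹ * x ^ (T + m) = (d : K) ^ q * ((d : K) * x) ^ m := by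
      rw [pow_add, pow_add, mul_pow]
      field_simp
    rw [this]
    exact (hd.pow q).mul (h1.pow m)
  · obtain ⟨m, rfl⟩ := Nat.exists_eq_add_of_le hTe
    have hm : m ≤ E := by
      push_cast at h
      rw [sub_add_cancel_left, abs_neg, Nat.abs_cast] at h
      exact_mod_cast h
    obtain ⟨q, rfl⟩ := Nat.exists_eq_add_of_le hm
    have : (d : K) ^ (m + q) * (x ^ (e + m))⁻¹ * x ^ e = (d : K) ^ q * ((d : K) * x⁻¹) ^ m := by
      rw [pow_add, pow_add, mul_pow, inv_pow]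
      field_simp
    rw [this]
    exact (hd.pow q).mul (h2.pow m)

/-- the scaling constant -/
noncomputable def scal (d : ℕ) (Λ : ι → K) (T E : ℕ) : K := ∏ J, ((d : K) ^ E * (Λ J ^ T)⁻¹)

omit [Fintype ι] in
lemma linB_mem_intSub (Z : Fin M → Fin k → ι → K) (hZ : ∀ h l J, IsIntegral ℤ (Z h l J)) (J₁ : ι)
    (p : Fin M × ι) : linB Z J₁ p ∈ intSub (Fin M ⊕ (Fin M × Fin k)) K := by
  rw [linB]
  refine Subring.add_mem _ (Subring.sum_mem _ fun l _ =>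
    Subring.mul_mem _ (C_mem_intSub (hZ _ _ _)) (X_mem_intSub _)) ?_
  split_ifs
  · exact X_mem_intSub _
  · exact Subring.zero_mem _

lemma isIntegral_scal_mul (d : ℕ) (Λ : ι → K) (hΛ : ∀ J, Λ J ≠ 0)
    (hd1 : ∀ J, IsIntegral ℤ ((d : K) * Λ J)) (hd2 : ∀ J, IsIntegral ℤ ((d : K) * (Λ J)⁻¹))
    (n : Fin M → ℕ) (T E : ℕ) (Z : Fin M → Fin k → ι → K)
    (hZ : ∀ h l J, IsIntegral ℤ (Z h l J)) (J₁ : ι) (P : MvPolynomial (Fin M × ι) K)
    (hP : P ∈ intSub (Fin M × ι) K)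
    (hbal : ∀ j ∈ P.support, ∀ J, |((∑ h, n h * j (h, J) : ℕ) : ℝ) - T| ≤ E)
    (κ : (Fin M ⊕ (Fin M × Fin k)) →₀ ℕ) :
    IsIntegral ℤ (scal d Λ T E * (subG Λ n Z J₁ P).coeff κ) := by
  refine isIntegral_coeff_aeval (fun p : Fin M × ι => Λ p.2 ^ n p.1) (linB Z J₁)
    (linB_mem_intSub Z hZ J₁) P hP _ (fun j hj => ?_) κ
  have h1 : ∏ p : Fin M × ι, (Λ p.2 ^ n p.1) ^ j p = ∏ J, Λ J ^ (∑ h, n h * j (h, J)) := by
    rw [Fintype.prod_prod_type, Finset.prod_comm]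
    refine Finset.prod_congr rfl fun J _ => ?_
    rw [← Finset.prod_pow_eq_pow_sum]
    exact Finset.prod_congr rfl fun h _ => by rw [pow_mul]
  rw [h1, scal, ← Finset.prod_mul_distrib]
  exact IsIntegral.prod _ fun J _ =>
    isIntegral_pow_window d (Λ J) (hΛ J) (hd1 J) (hd2 J) T _ E (hbal j hj J)

omit [DecidableEq ι] in
lemma norm_scal (σ : K →+* ℂ) (d : ℕ) (hd : 0 < d) (Λ : ι → K) (lam : ι → ℝ)
    (hlam : ∀ J, ‖σ (Λ J)‖ = Real.exp (lam J)) (T E : ℕ) :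
    ‖σ (scal d Λ T E)‖ =
      Real.exp (Fintype.card ι * E * Real.log d - ∑ J, T * lam J) := by
  have hd' : (0 : ℝ) < d := by exact_mod_cast hd
  rw [scal, map_prod, norm_prod]
  have h1 : ∀ J, ‖σ ((d : K) ^ E * (Λ J ^ T)⁻¹)‖ = Real.exp (E * Real.log d - T * lam J) := by
    intro J
    rw [map_mul, map_pow, map_inv₀, map_pow, norm_mul, norm_pow, norm_inv, norm_pow, hlam,
      map_natCast, Complex.norm_natCast, Real.exp_sub, Real.exp_nat_mul _ E, Real.exp_nat_mul _ T,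
      Real.exp_log hd', div_eq_mul_inv]
  simp only [h1]
  rw [← Real.exp_sum, Finset.sum_sub_distrib, Finset.sum_const, Finset.card_univ, nsmul_eq_mul,
    mul_assoc]

theorem coeff_subG_eq_zero [NumberField K] (φ : K →+* ℂ)
    (hφ : ComplexEmbedding.conjugate φ ≠ φ) (Λ : ι → K) (hΛ : ∀ J, Λ J ≠ 0)
    (c : ℝ) (hc : ∀ (σ : K →+* ℂ) J, |Real.log ‖σ (Λ J)‖| ≤ c)
    (L Ψ : Matrix ι ι K) (hΨ : Ψ * L = 1)
    (U : ℝ) (hU1 : 1 ≤ U) (hU : ∀ J J', ‖φ (L J J')‖ ≤ U)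
    (d : ℕ) (hd : 0 < d) (hd1 : ∀ J, IsIntegral ℤ ((d : K) * Λ J))
    (hd2 : ∀ J, IsIntegral ℤ ((d : K) * (Λ J)⁻¹))
    (n r : Fin M → ℕ) (R T : ℕ) (hnr : ∀ h, n h * r h = R)
    (Z : Fin M → Fin k → ι → K) (hZint : ∀ h l J, IsIntegral ℤ (Z h l J)) (J₁ : ι) (γ : ℝ)
    (hZ : ∀ σ : K →+* ℂ, σ ≠ φ → σ ≠ ComplexEmbedding.conjugate φ → ∀ h l J,
      ‖σ (Z h l J)‖ ≤ Real.exp (n h * γ)) (a : ι → ℝ)
    (hZφ : ∀ h l J, ‖φ (∑ J', L J J' * (Λ J' ^ n h * Z h l J'))‖ ≤ Real.exp (n h * a J))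
    (Ca : ℝ) (hCa0 : 0 ≤ Ca) (hCa : ∀ J, Real.log ‖φ (Λ J₁)‖ - Ca ≤ a J) (c' : ℝ)
    (hc' : ∀ J, |a J| ≤ c')
    (P : MvPolynomial (Fin M × ι) K) (hhom : ∀ j ∈ P.support, ∀ h, ∑ J, j (h, J) = r h)
    (hPint : P ∈ intSub (Fin M × ι) K) (E : ℕ)
    (hbal : ∀ j ∈ P.support, ∀ J, |((∑ h, n h * j (h, J) : ℕ) : ℝ) - T| ≤ E)
    (Pt : MvPolynomial (Fin M × ι) K)
    (hPt : Pt = bind₁ (fun p : Fin M × ι => ∑ J' : ι, C (Ψ p.2 J') * X (p.1, J')) P)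
    (hbal' : ∀ j ∈ Pt.support, ∀ J, |((∑ h, n h * j (h, J) : ℕ) : ℝ) - T| ≤ E)
    (hdeg' : ∀ j ∈ Pt.support, ∀ p : Fin M × ι, j p ≤ 2 * M * r p.1)
    (B : ℝ) (hB0 : 0 < B) (hB : ∀ σ : K →+* ℂ, ∑ j ∈ P.support, ‖σ (P.coeff j)‖ ≤ B)
    (B' : ℝ) (hB0' : 0 < B') (hB' : ∑ j ∈ Pt.support, ‖φ (Pt.coeff j)‖ ≤ B')
    (κ : (Fin M ⊕ (Fin M × Fin k)) →₀ ℕ) (S : ℝ)
    (hS : ∑ h, (κ (Sum.inl h) : ℝ) * n h ≤ S)
    (hfin : ((Fintype.card (K →+* ℂ) : ℝ) - 2) * (Real.log B + Fintype.card ι * E *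
        (Real.log d + c) + R * M * γ + S * |γ| + (∑ h, (r h : ℝ)) * Real.log (k + 1)) +
      2 * (Real.log B' + Fintype.card ι * E * (Real.log d + c') +
        ∑ J, T * (a J - Real.log ‖φ (Λ J)‖) + S * Ca +
        (2 * M * Fintype.card ι * ∑ h, (r h : ℝ)) * Real.log (k + U)) < 0) :
    (subG Λ n Z J₁ P).coeff κ = 0 := by
  have hlam : ∀ (σ : K →+* ℂ) J, ‖σ (Λ J)‖ = Real.exp (Real.log ‖σ (Λ J)‖) := by
    intro σ J
    rw [Real.exp_log]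
    exact norm_pos_iff.mpr ((map_ne_zero σ).mpr (hΛ J))
  obtain ⟨A₁, hA₁⟩ : ∃ A₁, A₁ = Real.log B + Fintype.card ι * E *
        (Real.log d + c) + R * M * γ + S * |γ| + (∑ h, (r h : ℝ)) * Real.log (k + 1) := ⟨_, rfl⟩
  obtain ⟨A₂, hA₂⟩ : ∃ A₂, A₂ = Real.log B' + Fintype.card ι * E * (Real.log d + c') +
        ∑ J, T * (a J - Real.log ‖φ (Λ J)‖) + S * Ca +
        (2 * M * Fintype.card ι * ∑ h, (r h : ℝ)) * Real.log (k + U) := ⟨_, rfl⟩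
  rw [← hA₁, ← hA₂] at hfin
  have hS0 : 0 ≤ ∑ h, (κ (Sum.inl h) : ℝ) * n h :=
    Finset.sum_nonneg fun h _ => by positivity
  obtain ⟨x, hx⟩ : ∃ x, x = scal d Λ T E * (subG Λ n Z J₁ P).coeff κ := ⟨_, rfl⟩
  have hxint : IsIntegral ℤ x := by
    rw [hx]
    exact isIntegral_scal_mul d Λ hΛ hd1 hd2 n T E Z hZint J₁ P hPint hbal κ
  -- the other embeddings
  have hother : ∀ σ : K →+* ℂ, σ ≠ φ → σ ≠ ComplexEmbedding.conjugate φ →
      ‖σ x‖ ≤ Real.exp A₁ := by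
    intro σ h1 h2
    have h3 := est_other σ Λ _ (hlam σ) n r R T hnr Z J₁ γ (hZ σ h1 h2) P hhom E hbal B (hB σ) c
      (hc σ) κ
    rw [hx, map_mul, norm_mul, norm_scal σ d hd Λ _ (hlam σ)]
    refine (mul_le_mul_of_nonneg_left h3 (Real.exp_pos _).le).trans ?_
    nth_rewrite 1 [← Real.exp_log hB0]
    rw [← Real.exp_add, ← Real.exp_add, Real.exp_le_exp, hA₁]
    have h4 : -(∑ h, (κ (Sum.inl h) : ℝ) * (n h * γ)) ≤ S * |γ| := by
      have h5 : ∑ h, (κ (Sum.inl h) : ℝ) * (n h * γ) = (∑ h, (κ (Sum.inl h) : ℝ) * n h) * γ := by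
        rw [Finset.sum_mul]
        exact Finset.sum_congr rfl fun h _ => by ring
      rw [h5]
      calc -((∑ h, (κ (Sum.inl h) : ℝ) * n h) * γ) = (∑ h, (κ (Sum.inl h) : ℝ) * n h) * (-γ) := by
            ring
        _ ≤ (∑ h, (κ (Sum.inl h) : ℝ) * n h) * |γ| :=
            mul_le_mul_of_nonneg_left (neg_le_abs γ) hS0
        _ ≤ S * |γ| := mul_le_mul_of_nonneg_right hS (abs_nonneg _)
    linarith
  have hphi : ‖φ x‖ ≤ Real.exp A₂ := by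
    have h3 := est_phi φ Λ _ (hlam φ) L Ψ hΨ U hU1 hU n r T Z J₁ a hZφ P Pt hPt E hbal' hdeg' B'
      hB' Ca hCa c' hc' κ
    rw [hx, map_mul, norm_mul, norm_scal φ d hd Λ _ (hlam φ)]
    refine (mul_le_mul_of_nonneg_left h3 (Real.exp_pos _).le).trans ?_
    nth_rewrite 1 [← Real.exp_log hB0']
    rw [← Real.exp_add, ← Real.exp_add, Real.exp_le_exp, hA₂]
    have h4 : (∑ h, (κ (Sum.inl h) : ℝ) * (n h * Ca)) ≤ S * Ca := by
      have h5 : ∑ h, (κ (Sum.inl h) : ℝ) * (n h * Ca) = (∑ h, (κ (Sum.inl h) : ℝ) * n h) * Ca := by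
        rw [Finset.sum_mul]
        exact Finset.sum_congr rfl fun h _ => by ring
      rw [h5]
      exact mul_le_mul_of_nonneg_right hS hCa0
    have h6 : ∑ J, (T : ℝ) * (a J - Real.log ‖φ (Λ J)‖) =
        ∑ J, T * a J - ∑ J, T * Real.log ‖φ (Λ J)‖ := by
      rw [← Finset.sum_sub_distrib]
      exact Finset.sum_congr rfl fun J _ => by ring
    rw [h6]
    linarith
  have hconj : ‖(ComplexEmbedding.conjugate φ) x‖ ≤ Real.exp A₂ := by
    rw [ComplexEmbedding.conjugate_coe_eq, RCLike.norm_conj]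
    exact hphi
  classical
  let g : (K →+* ℂ) → ℝ := fun σ => A₁ + (if σ = φ then A₂ - A₁ else 0) +
    (if σ = ComplexEmbedding.conjugate φ then A₂ - A₁ else 0)
  have hg : ∀ σ : K →+* ℂ, ‖σ x‖ ≤ Real.exp (g σ) := by
    intro σ
    by_cases h1 : σ = φ
    · subst h1
      simp only [g, if_true]
      rw [if_neg (Ne.symm hφ)]
      refine hphi.trans (le_of_eq ?_)
      congr 1; ring
    · by_cases h2 : σ = ComplexEmbedding.conjugate φ
      · subst h2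
        simp only [g, if_true]
        rw [if_neg h1]
        refine hconj.trans (le_of_eq ?_)
        congr 1; ring
      · simp only [g, if_neg h1, if_neg h2]
        refine (hother σ h1 h2).trans (le_of_eq ?_)
        congr 1; ring
  have hsum : ∑ σ, g σ = ((Fintype.card (K →+* ℂ) : ℝ) - 2) * A₁ + 2 * A₂ := by
    simp only [g, Finset.sum_add_distrib, Finset.sum_const, Finset.card_univ, nsmul_eq_mul,
      Finset.sum_ite_eq', Finset.mem_univ, if_true]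
    ring
  have hprod : ∏ σ : K →+* ℂ, ‖σ x‖ < 1 := by
    calc ∏ σ : K →+* ℂ, ‖σ x‖ ≤ ∏ σ : K →+* ℂ, Real.exp (g σ) :=
          Finset.prod_le_prod (fun σ _ => norm_nonneg _) fun σ _ => hg σ
      _ = Real.exp (((Fintype.card (K →+* ℂ) : ℝ) - 2) * A₁ + 2 * A₂) := by
          rw [← Real.exp_sum, hsum]
      _ < 1 := by rw [Real.exp_lt_one_iff]; exact hfin
  have hx0 := eq_zero_of_prod_lt_one x hxint hprod
  rw [hx, mul_eq_zero] at hx0
  refine hx0.resolve_left ?_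
  rw [scal]
  refine Finset.prod_ne_zero_iff.mpr fun J _ => mul_ne_zero (pow_ne_zero _ ?_)
    (inv_ne_zero (pow_ne_zero _ (hΛ J)))
  exact_mod_cast hd.ne'

end Zero

end Pool.Agent.DD7719
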