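import Pool.Agent.DD7719.Bridge

/-! Certificates with a general last clause. -/

set_option autoImplicit false

namespace Pool.Agent.DD7719.M

open Complex Filter Topology

open scoped Classical in
/-- The level sum on the torus, `Fin k`-indexed. -/
noncomputable def LevF {k : ℕ} (l c : Fin k → ℂ) (ex : Fin k → ℕ) (A : Fin k → Fin k → ℤ)
    (s j d : ℕ) (ρ : ℝ) (z : Fin k → ℂ) : ℂ :=
  ∑ i, (if ‖l i‖ = ρ ∧ ex i = d then c i * l i ^ (j - d) *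
    ∏ t : Fin k, (if (t : ℕ) < s then z t ^ A t i else 1) else 0)

open scoped Classical in
/-- Base data of a certificate, `Fin k`-indexed. -/
def BaseF (k : ℕ) (l c : Fin k → ℂ) (ex : Fin k → ℕ) (M Nb : ℕ) (ε δ : ℝ)
    (n0 j : ℕ) (A H : Fin k → Fin k → ℤ) (D : ℤ) (s : ℕ) (w : Fin k → Fin k → ℝ)
    (τ : Fin k → ℝ) (ρ : ℝ) (d : ℕ) : Prop :=
    0 < n0 ∧ n0 ≤ Nb ∧ k ≤ j ∧ j < k + n0 ∧ s ≤ k ∧ D ≠ 0 ∧ |D| ≤ M ∧
    (∀ l' i, ∑ t, H l' t * A i t = if l' = i then D else 0) ∧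
    (∀ l' t, |A l' t| ≤ M) ∧ (∀ l' t, |H l' t| ≤ M) ∧
    (∀ i, ‖nz (l i) ^ n0 - 1‖ ≤ δ) ∧
    (∀ i : Fin k, (i : ℕ) < s → ∀ l', i ≤ l' → ∑ t, (H l' t : ℝ) * w i t =
      (if l' = i then (D : ℝ) else 0) - τ i * (∏ t, (nz (l t) ^ n0) ^ H l' t).im) ∧
    (∀ i : Fin k, (i : ℕ) < s → ∀ t, |w i t| ≤ ε) ∧
    0 ≤ ρ ∧ d < k ∧
    (∀ m < k, ∑ i, (if Above ρ d (l i) (ex i) then
      c i * ((j + n0 * m).choose (ex i) : ℂ) * l i ^ (j + n0 * m - ex i) else 0) = 0)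

/-- Certificate with a general last clause, `Fin k`-indexed. -/
def CertBF (k : ℕ) (l c : Fin k → ℂ) (ex : Fin k → ℕ) (M Nb : ℕ) (ε δ : ℝ)
    (P : ℝ → ℕ → ℝ → ℝ → Prop) : Prop :=
  ∃ (n0 j : ℕ) (A H : Fin k → Fin k → ℤ) (D : ℤ) (s : ℕ) (w : Fin k → Fin k → ℝ)
    (τ : Fin k → ℝ) (ρ : ℝ) (d : ℕ) (z z' : Fin k → ℂ),
    BaseF k l c ex M Nb ε δ n0 j A H D s w τ ρ d ∧ (∀ t, ‖z t‖ = 1) ∧ (∀ t, ‖z' t‖ = 1) ∧
    P ρ d (LevF l c ex A s j d ρ z).re (LevF l c ex A s j d ρ z').re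

open scoped Classical in
/-- Certificate with a general last clause, `ℕ`-indexed, with binary sizes. -/
def CertBN (k : ℕ) (l c : ℕ → ℂ) (ex : ℕ → ℕ) (bm bn : ℕ) (ε δ : ℝ)
    (P : ℝ → ℕ → ℝ → ℝ → Prop) : Prop :=
  ∃ (n0 j : ℕ) (A H : ℕ → ℕ → ℤ) (D : ℤ) (s : ℕ) (w : ℕ → ℕ → ℝ)
    (τ : ℕ → ℝ) (z z' : ℕ → ℂ) (ρ : ℝ) (d : ℕ),
    0 < n0 ∧ n0 < 2 ^ bn ∧ k ≤ j ∧ j < k + n0 ∧ s ≤ k ∧ D ≠ 0 ∧ |D| < 2 ^ bm ∧
    (∀ i, i < k → ∀ i', i' < k → ∑ t ∈ Finset.range k, H i t * A i' t = if i = i' then D else 0) ∧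
    (∀ i, i < k → ∀ t, t < k → |A i t| < 2 ^ bm) ∧ (∀ i, i < k → ∀ t, t < k → |H i t| < 2 ^ bm) ∧
    (∀ i, i < k → ‖nz (l i) ^ n0 - 1‖ ≤ δ) ∧
    (∀ i, i < s → ∀ i', i' < k → i ≤ i' → ∑ t ∈ Finset.range k, (H i' t : ℝ) * w i t =
      (if i' = i then (D : ℝ) else 0) -
        τ i * (∏ t ∈ Finset.range k, (nz (l t) ^ n0) ^ H i' t).im) ∧
    (∀ i, i < s → ∀ t, t < k → |w i t| ≤ ε) ∧
    (∀ t, t < k → ‖z t‖ = 1) ∧ (∀ t, t < k → ‖z' t‖ = 1) ∧ 0 ≤ ρ ∧ d < k ∧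
    (∀ m, m < k → ∑ i ∈ Finset.range k, (if Above ρ d (l i) (ex i) then
      c i * ((j + n0 * m).choose (ex i) : ℂ) * l i ^ (j + n0 * m - ex i) else 0) = 0) ∧
    P ρ d (∑ i ∈ Finset.range k, (if ‖l i‖ = ρ ∧ ex i = d then c i * l i ^ (j - d) *
        ∏ t ∈ Finset.range k, (if t < s then z t ^ A t i else 1) else 0)).re
      (∑ i ∈ Finset.range k, (if ‖l i‖ = ρ ∧ ex i = d then c i * l i ^ (j - d) *
        ∏ t ∈ Finset.range k, (if t < s then z' t ^ A t i else 1) else 0)).re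

theorem CertBN.toF {k : ℕ} {l c : ℕ → ℂ} {ex : ℕ → ℕ} {bm bn : ℕ} {ε δ : ℝ}
    {P : ℝ → ℕ → ℝ → ℝ → Prop} (h : CertBN k l c ex bm bn ε δ P) :
    CertBF k (fun i => l i) (fun i => c i) (fun i => ex i) (2 ^ bm) (2 ^ bn) ε δ P := by
  classical
  obtain ⟨n0, j, A, H, D, s, w, τ, z, z', ρ, d, h1, h2, h3, h4, h5, h6, h7, h8, h9, h10, h11, h12,
    h13, h14, h15, h16, h17, h18, h19⟩ := h
  refine ⟨n0, j, fun i t => A i t, fun i t => H i t, D, s, fun i t => w i t, fun i => τ i, ρ, d,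
    fun t => z t, fun t => z' t, ⟨h1, h2.le, h3, h4, h5, h6, by exact_mod_cast h7.le, ?_, ?_, ?_,
    ?_, ?_, ?_, h16, h17, ?_⟩, ?_, ?_, ?_⟩
  · intro l' i
    have := h8 l' l'.2 i i.2
    rw [Finset.sum_range] at this
    rw [this]
    simp only [Fin.ext_iff]
  · intro l' t
    exact_mod_cast (h9 l' l'.2 t t.2).le
  · intro l' t
    exact_mod_cast (h10 l' l'.2 t t.2).le
  · intro i
    exact h11 i i.2
  · intro i hi l' hl'
    have := h12 i hi l' l'.2 hl'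
    rw [Finset.sum_range, Finset.prod_range] at this
    rw [this]
    simp only [Fin.ext_iff]
  · intro i hi t
    exact h13 i hi t t.2
  · intro m hm
    have := h18 m hm
    rw [Finset.sum_range] at this
    exact this
  · intro t
    exact h14 t t.2
  · intro t
    exact h15 t t.2
  · simp only [Finset.sum_range, Finset.prod_range] at h19
    simp only [LevF]
    exact h19

theorem CertBF.toN {k : ℕ} {l c : ℕ → ℂ} {ex : ℕ → ℕ} {M Nb bm bn : ℕ} {ε δ : ℝ}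
    {P : ℝ → ℕ → ℝ → ℝ → Prop}
    (h : CertBF k (fun i => l i) (fun i => c i) (fun i => ex i) M Nb ε δ P)
    (hM : M < 2 ^ bm) (hN : Nb < 2 ^ bn) :
    CertBN k l c ex bm bn ε δ P := by
  classical
  obtain ⟨n0, j, A, H, D, s, w, τ, ρ, d, z, z', ⟨h1, h2, h3, h4, h5, h6, h7, h8, h9, h10, h11, h12,
    h13, h16, h17, h18⟩, h14, h15, h19⟩ := h
  have hM' : (M : ℤ) < 2 ^ bm := by exact_mod_cast hM
  refine ⟨n0, j, ext2 0 A, ext2 0 H, D, s, ext2 0 w, ext1 0 τ, ext1 1 z, ext1 1 z', ρ, d, h1,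
    h2.trans_lt hN, h3, h4, h5, h6, h7.trans_lt hM', ?_, ?_, ?_, ?_, ?_, ?_, ?_, ?_, h16, h17, ?_, ?_⟩
  · rw [forall_fin]
    intro i
    rw [forall_fin]
    intro i'
    rw [Finset.sum_range]
    simp only [ext2_fin]
    rw [h8]
    simp only [Fin.ext_iff]
  · rw [forall_fin]
    intro i
    rw [forall_fin]
    intro t
    rw [ext2_fin]
    exact (h9 i t).trans_lt hM'
  · rw [forall_fin]
    intro i
    rw [forall_fin]
    intro t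
    rw [ext2_fin]
    exact (h10 i t).trans_lt hM'
  · rw [forall_fin]
    exact h11
  · intro i hi
    have hik : i < k := lt_of_lt_of_le hi h5
    rw [forall_fin]
    intro i' hi'
    rw [Finset.sum_range, Finset.prod_range]
    have := h12 ⟨i, hik⟩ hi i' hi'
    have e1 : ∀ t : Fin k, ext2 0 w i t = w ⟨i, hik⟩ t := fun t => ext2_fin 0 w ⟨i, hik⟩ t
    have e2 : ext1 0 τ i = τ ⟨i, hik⟩ := ext1_fin 0 τ ⟨i, hik⟩
    simp only [ext2_fin, e1, e2]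
    rw [this]
    simp only [Fin.ext_iff]
  · intro i hi
    have hik : i < k := lt_of_lt_of_le hi h5
    rw [forall_fin]
    intro t
    have e1 : ext2 0 w i t = w ⟨i, hik⟩ t := ext2_fin 0 w ⟨i, hik⟩ t
    rw [e1]
    exact h13 ⟨i, hik⟩ hi t
  · rw [forall_fin]
    intro t
    rw [ext1_fin]
    exact h14 t
  · rw [forall_fin]
    intro t
    rw [ext1_fin]
    exact h15 t
  · intro m hm
    rw [Finset.sum_range]
    exact h18 m hm
  · simp only [LevF] at h19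
    simp only [Finset.sum_range, Finset.prod_range, ext2_fin, ext1_fin]
    exact h19

end Pool.Agent.DD7719.M
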