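import Pool.Agent.DD7719.CertRE2
import Pool.Agent.DD7719.TDef

/-! The existence of a certificate with a general last clause is an existential real condition. -/

set_option autoImplicit false

namespace Pool.Agent.DD7719.M

open Complex Filter Topology
open Pool.Agent.PT Pool.Agent.AllR

open scoped Classical in
/-- The conditions of a certificate without the size bounds and without the last clause. -/
def CB0 (k s d : ℕ) (ε δ : ℝ) (l c : ℕ → ℂ) (ex : ℕ → ℕ) (n0 j : ℕ) (A H : ℕ → ℕ → ℤ) (D : ℤ)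
    (w : ℕ → ℕ → ℝ) (τ : ℕ → ℝ) (z z' : ℕ → ℂ) (ρ : ℝ) : Prop :=
  (0 < n0 ∧ k ≤ j ∧ j < k + n0 ∧ D ≠ 0) ∧
    (∀ i, i < k → ∀ i', i' < k → ∑ t ∈ Finset.range k, H i t * A i' t = if i = i' then D else 0) ∧
    (∀ i, i < k → ‖nz (l i) ^ n0 - 1‖ ≤ δ) ∧
    (∀ i, i < s → ∀ i', i' < k → i ≤ i' → ∑ t ∈ Finset.range k, (H i' t : ℝ) * w i t =
      (if i' = i then (D : ℝ) else 0) -
        τ i * (∏ t ∈ Finset.range k, (nz (l t) ^ n0) ^ H i' t).im) ∧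
    (∀ i, i < s → ∀ t, t < k → |w i t| ≤ ε) ∧
    (∀ t, t < k → ‖z t‖ = 1) ∧ (∀ t, t < k → ‖z' t‖ = 1) ∧ 0 ≤ ρ ∧
    (∀ m, m < k → ∑ i ∈ Finset.range k, (if Above ρ d (l i) (ex i) then
      c i * ((j + n0 * m).choose (ex i) : ℂ) * l i ^ (j + n0 * m - ex i) else 0) = 0)

/-- The coded certificate with its root data. -/
def BodyP (P : ℝ → ℕ → ℝ → ℝ → Prop) (k s d bm bn : ℕ) (a u : ℕ → ℝ) (ε δ : ℝ) (α : ℕ → ℝ) : Prop :=
  (RootData k a u (rl α) (rc α) (rex k α) ∧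
    CB0 k s d ε δ (rl α) (rc α) (rex k α) (rn0 bn α) (rj (bn + k) α) (rA bm α) (rH bm α) (rD bm α)
      (rw' α) (rτ α) (rz α) (rz' α) (rρ α)) ∧
    P (rρ α) d (Lev k s d (rl α) (rc α) (rz α) (rex k α) (rA bm α) (rj (bn + k) α) (rρ α)).re
      (Lev k s d (rl α) (rc α) (rz' α) (rex k α) (rA bm α) (rj (bn + k) α) (rρ α)).re

section
variable {Γ : Type} (kk bm bn : List Γ → ℕ) (aR uR : List Γ → ℕ → ℝ) (εR δR : List Γ → ℝ)
  (hk : UF (fun x _ => kk x)) (hbm : UF (fun x _ => bm x)) (hbn : UF (fun x _ => bn x))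
  (ha : RF (fun x e _ => aR x (e 0))) (hu : RF (fun x e _ => uR x (e 0)))
  (hε : RF (fun x _ _ => εR x)) (hδ : RF (fun x _ _ => δR x))

include hk hbm hbn hε hδ in
theorem re_cb0 : RE (fun x e α => CB0 (kk x) (e 1) (e 0) (εR x) (δR x) (rl α) (rc α) (rex (kk x) α)
    (rn0 (bn x) α) (rj (bn x + kk x) α) (rA (bm x) α) (rH (bm x) α) (rD (bm x) α)
      (rw' α) (rτ α) (rz α) (rz' α) (rρ α)) := by
  classical
  unfold CB0
  have hn0 : NF (Γ := Γ) (fun x e α => rn0 (bn x) α) := nf_rn0 hbn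
  have hj : NF (Γ := Γ) (fun x e α => rj (bn x + kk x) α) := nf_rj (hbn.add hk)
  have hD : ZF (Γ := Γ) (fun x e α => rD (bm x) α) := zf_rD hbm
  refine RE.and ?_ (RE.and ?_ (RE.and ?_ (RE.and ?_ (RE.and ?_ (RE.and ?_ (RE.and ?_
    (RE.and ?_ ?_)))))))
  · refine RE.and (RE.nlt (NF.uf (UF.const 0)) hn0) (RE.and (RE.nle (NF.uf hk) hj)
      (RE.and (RE.nlt hj ((NF.uf hk).add hn0)) ?_))
    exact (RE.ne hD.1 RF.zero).congr fun x e α => by
      rw [Ne, Int.cast_eq_zero]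
  · refine RE.ball hk (RE.ball hk ?_)
    have h1 : RE (fun x e α => (∑ t ∈ Finset.range (kk x), (rH (bm x) α (e 1) t : ℝ) *
        (rA (bm x) α (e 0) t : ℝ)) = if e 1 = e 0 then (rD (bm x) α : ℝ) else 0) := by
      refine RE.eq (RF.sum hk ?_) (RF.ite (UP.eq (UF.var 1) (UF.var 0)) hD.1 RF.zero)
      exact (zf_rH hbm (UF.var 2) (UF.var 0)).1.mul (zf_rA hbm (UF.var 1) (UF.var 0)).1
    refine h1.congr fun x e α => ?_
    rw [← Int.cast_inj (α := ℝ)]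
    push_cast
    by_cases h : e 1 = e 0 <;> simp [h]
  · refine RE.ball hk (RE.le (CF.norm (CF.sub (CF.npow (cf_nz (cf_rl (UF.var 0))) hn0) CF.one)) hδ)
  · refine RE.ball (UF.var 1) (RE.ball hk (RE.guard (UP.le (UF.var 1) (UF.var 0)) ?_))
    refine RE.eq (RF.sum hk ?_) (RF.sub (RF.ite (UP.eq (UF.var 0) (UF.var 1)) hD.1 RF.zero)
      (RF.mul (rf_rτ (UF.var 1)) (CF.im (CF.prod hk ?_))))
    · exact (zf_rH hbm (UF.var 1) (UF.var 0)).1.mul (rf_rw (UF.var 2) (UF.var 0))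
    · exact CF.zpow (CF.npow (cf_nz (cf_rl (UF.var 0))) hn0) (zf_rH hbm (UF.var 1) (UF.var 0))
  · exact RE.ball (UF.var 1) (RE.ball hk (RE.le (rf_rw (UF.var 1) (UF.var 0)).abs hε))
  · exact RE.ball hk (RE.eq (cf_rz (UF.var 0)).norm RF.one)
  · exact RE.ball hk (RE.eq (cf_rz' (UF.var 0)).norm RF.one)
  · exact RE.le RF.zero rf_rρ
  · refine RE.ball hk (RE.ceq (CF.sum hk ?_) CF.zero)
    refine CF.msub (m := fun x e α => rex (kk x) α (e 0))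
      (f := fun x e α q => if Above (rρ α) (e 2) (rl α (e 0)) q then
        rc α (e 0) * ((rj (bn x + kk x) α + rn0 (bn x) α * e 1).choose q : ℂ) *
          rl α (e 0) ^ (rj (bn x + kk x) α + rn0 (bn x) α * e 1 - q) else 0)
      (ns_rex hk (UF.var 0)) ?_
    have hN : NF (Γ := Γ) (fun x e α => rj (bn x + kk x) α + rn0 (bn x) α * e 2) :=
      hj.add (hn0.mul (NF.uf (UF.var 2)))
    refine CF.rite ?_ ?_ ?_ CF.zero
    · exact re_above (cf_rl (UF.var 1)) rf_rρ (UF.var 3) (UF.var 0)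
    · exact re_not_above (cf_rl (UF.var 1)) rf_rρ (UF.var 3) (UF.var 0)
    · exact ((cf_rc (UF.var 1)).mul (CF.choose hN (UF.var 0))).mul
        (CF.npow (cf_rl (UF.var 1)) (hN.tsub (NF.uf (UF.var 0))))

include hk hbm hbn ha hu hε hδ in
theorem re_body0 : RE (fun x e α => RootData (kk x) (aR x) (uR x) (rl α) (rc α) (rex (kk x) α) ∧
    CB0 (kk x) (e 1) (e 0) (εR x) (δR x) (rl α) (rc α) (rex (kk x) α)
    (rn0 (bn x) α) (rj (bn x + kk x) α) (rA (bm x) α) (rH (bm x) α) (rD (bm x) α)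
      (rw' α) (rτ α) (rz α) (rz' α) (rρ α)) :=
  RE.and (re_rootData kk aR uR hk ha hu) (re_cb0 kk bm bn εR δR hk hbm hbn hε hδ)

end

theorem cb0_congr {k s d : ℕ} {ε δ : ℝ} {l c : ℕ → ℂ} {ex ex' : ℕ → ℕ} {n0 j : ℕ}
    {A H A' H' : ℕ → ℕ → ℤ} {D : ℤ}
    {w : ℕ → ℕ → ℝ} {τ : ℕ → ℝ} {z z' : ℕ → ℂ} {ρ : ℝ}
    (h : ∀ i, i < k → ex' i = ex i) (hA : ∀ i, i < k → ∀ t, t < k → A' i t = A i t)
    (hH : ∀ i, i < k → ∀ t, t < k → H' i t = H i t)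
    (h0 : CB0 k s d ε δ l c ex n0 j A H D w τ z z' ρ) :
    CB0 k s d ε δ l c ex' n0 j A' H' D w τ z z' ρ := by
  classical
  obtain ⟨h1, h2, h3, h4, h5, h6, h7, h8, h9⟩ := h0
  refine ⟨h1, fun i hi i' hi' => ?_, h3, fun i hi i' hi' hii => ?_, h5, h6, h7, h8,
    fun m hm => ?_⟩
  · rw [← h2 i hi i' hi']
    refine Finset.sum_congr rfl fun t ht => ?_
    rw [Finset.mem_range] at ht
    rw [hA i' hi' t ht, hH i hi t ht]
  · have e1 : ∑ t ∈ Finset.range k, (H' i' t : ℝ) * w i t =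
        ∑ t ∈ Finset.range k, (H i' t : ℝ) * w i t := by
      refine Finset.sum_congr rfl fun t ht => ?_
      rw [Finset.mem_range] at ht
      rw [hH i' hi' t ht]
    have e2 : ∏ t ∈ Finset.range k, (nz (l t) ^ n0) ^ H' i' t =
        ∏ t ∈ Finset.range k, (nz (l t) ^ n0) ^ H i' t := by
      refine Finset.prod_congr rfl fun t ht => ?_
      rw [Finset.mem_range] at ht
      rw [hH i' hi' t ht]
    rw [e1, e2]
    exact h4 i hi i' hi' hii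
  · refine Eq.trans ?_ (h9 m hm)
    refine Finset.sum_congr rfl fun i hi => ?_
    rw [Finset.mem_range] at hi
    rw [h i hi]

theorem cert_iffP (P : ℝ → ℕ → ℝ → ℝ → Prop) (k bm bn : ℕ) (a u : ℕ → ℝ) (ε δ : ℝ) :
    (∃ (l c : ℕ → ℂ) (ex : ℕ → ℕ), RootData k a u l c ex ∧ CertBN k l c ex bm bn ε δ P) ↔
      ∃ s, s < k + 1 ∧ ∃ d, d < k ∧ ∃ α : ℕ → ℝ, BodyP P k s d bm bn a u ε δ α := by
  classical
  constructor
  · rintro ⟨l, c, ex, hR, n0, j, A, H, D, s, w, τ, z, z', ρ, d, h1, h2, h3, h4, h5, h6, h7, h8, h9,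
      h10, h11, h12, h13, h14, h15, h16, h17, h18, h19⟩
    refine ⟨s, by omega, d, h17, encAll l c ex n0 j A H D w τ z z' ρ, ?_⟩
    have hj : j < 2 ^ (bn + k) := by
      have e1 : k < 2 ^ k := Nat.lt_two_pow_self
      have e2 : 1 ≤ 2 ^ bn := Nat.one_le_two_pow
      rw [pow_add]
      generalize 2 ^ bn = P at *
      generalize 2 ^ k = Q at *
      have e3 : P + k ≤ P * Q := by
        calc P + k ≤ P + P * k := by nlinarith
          _ = P * (k + 1) := by ring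
          _ ≤ P * Q := Nat.mul_le_mul_left _ e1
      omega
    have hex : ∀ i, i < k → rex k (encAll l c ex n0 j A H D w τ z z' ρ) i = ex i :=
      fun i hi => rex_enc _ _ _ _ _ _ _ _ _ _ _ _ _ _ _ (hR.1 i hi)
    have hA : ∀ i, i < k → ∀ t, t < k → rA bm (encAll l c ex n0 j A H D w τ z z' ρ) i t = A i t :=
      fun i hi t ht => rA_enc _ _ _ _ _ _ _ _ _ _ _ _ _ _ _ _ (h9 i hi t ht)
    have hH : ∀ i, i < k → ∀ t, t < k → rH bm (encAll l c ex n0 j A H D w τ z z' ρ) i t = H i t :=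
      fun i hi t ht => rH_enc _ _ _ _ _ _ _ _ _ _ _ _ _ _ _ _ (h10 i hi t ht)
    unfold BodyP
    rw [rl_enc, rc_enc, rz_enc, rz'_enc, rτ_enc, rρ_enc, rw_enc,
      rn0_enc _ _ _ _ _ _ _ _ _ _ _ _ _ _ h2, rj_enc _ _ _ _ _ _ _ _ _ _ _ _ _ _ hj,
      rD_enc _ _ _ _ _ _ _ _ _ _ _ _ _ _ h7]
    refine ⟨⟨rootData_congr hex hR, cb0_congr hex hA hH ?_⟩, ?_⟩
    · exact ⟨⟨h1, h3, h4, h6⟩, h8, h11, h12, h13, h14, h15, h16, h18⟩
    · rw [lev_congr hex hA, lev_congr hex hA]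
      exact h19
  · rintro ⟨s, hs, d, hd, α, ⟨hR, hC⟩, h19⟩
    refine ⟨rl α, rc α, rex k α, hR, rn0 bn α, rj (bn + k) α, rA bm α, rH bm α, rD bm α, s,
      rw' α, rτ α, rz α, rz' α, rρ α, d, ?_⟩
    obtain ⟨⟨h1, h3, h4, h6⟩, h8, h11, h12, h13, h14, h15, h16, h18⟩ := hC
    exact ⟨h1, decN_lt _ _, h3, h4, by omega, h6, abs_decZ_lt _ _, h8,
      fun i _ t _ => abs_decZ_lt _ _, fun i _ t _ => abs_decZ_lt _ _, h11, h12, h13, h14, h15, h16,
      hd, h18, h19⟩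


/-- the existence of a certificate is an existential real condition -/
theorem re_certP {Γ : Type} (P : ℝ → ℝ → ℕ → ℝ → ℝ → Prop)
    (hP : ∀ {t ρ f f' : List Γ → (ℕ → ℕ) → (ℕ → ℝ) → ℝ} {d : List Γ → (ℕ → ℕ) → ℕ}, RF t → RF ρ →
      RF f → RF f' → UF d →
      RE (fun x e α => P (t x e α) (ρ x e α) (d x e) (f x e α) (f' x e α)))
    (kk bm bn : List Γ → ℕ) (aR uR : List Γ → ℕ → ℝ) (εR δR : List Γ → ℝ)
    (hk : UF (fun x _ => kk x)) (hbm : UF (fun x _ => bm x)) (hbn : UF (fun x _ => bn x))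
    (ha : RF (fun x e _ => aR x (e 0))) (hu : RF (fun x e _ => uR x (e 0)))
    (hε : RF (fun x _ _ => εR x)) (hδ : RF (fun x _ _ => δR x))
    (tR : List Γ → (ℕ → ℝ) → ℝ) (ht : RF (fun x _ α => tR x α)) :
    RE (fun x _ α => ∃ (l c : ℕ → ℂ) (ex : ℕ → ℕ), RootData (kk x) (aR x) (uR x) l c ex ∧
      CertBN (kk x) l c ex (bm x) (bn x) (εR x) (δR x) (P (tR x α))) := by
  have h1 : RE (fun x _ α => ∃ s, s < kk x + 1 ∧ ∃ d, d < kk x ∧ ∃ γ : ℕ → ℝ,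
      BodyP (P (tR x α)) (kk x) s d (bm x) (bn x) (aR x) (uR x) (εR x) (δR x) γ) := by
    refine RE.bex (hk.add (UF.const 1)) (RE.bex hk (RE.exb ?_))
    unfold BodyP
    refine RE.and (RE.aff (re_body0 kk bm bn aR uR εR δR hk hbm hbn ha hu hε hδ) 2 1) ?_
    refine hP (RF.aff ht 2 0) (RF.aff rf_rρ 2 1) ?_ ?_ (UF.var 0)
    · exact RF.aff (cf_lev kk bm bn hk hbm hbn (zr := rz) cf_rz).re 2 1
    · exact RF.aff (cf_lev kk bm bn hk hbm hbn (zr := rz') cf_rz').re 2 1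
  exact h1.congr fun x _ α => (cert_iffP _ _ _ _ _ _ _ _).symm

end Pool.Agent.DD7719.M
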