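import Pool.Agent.DD7719.RootBound

/-! A gap between the moduli of the roots. -/

set_option autoImplicit false

namespace Pool.Agent.DD7719.M

open Polynomial Finset

/-- a nonzero value `D²(ab - cd)` at roots of an integer polynomial is not too small -/
theorem gap_abstract (k : ℕ) (p : ℤ[X]) (hp : p ≠ 0) (hdeg : p.natDegree ≤ k) (Rt : ℝ)
    (hRt : 1 ≤ Rt) (hR : ∀ z : ℂ, aeval z p = 0 → ‖z‖ ≤ Rt) (a b c d : ℂ) (ha : aeval a p = 0)
    (hb : aeval b p = 0) (hc : aeval c p = 0) (hd : aeval d p = 0)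
    (T : ℝ) (hT : 2 * (p.leadingCoeff : ℝ) ^ 2 * Rt ^ 2 ≤ T) (hne : a * b ≠ c * d) :
    1 ≤ ‖(p.leadingCoeff : ℂ) ^ 2 * (a * b - c * d)‖ * T ^ (k ^ 4) := by
  classical
  set D : ℤ := p.leadingCoeff with hDdef
  have hD : D ≠ 0 := leadingCoeff_ne_zero.mpr hp
  have hD1 : (1 : ℝ) ≤ (D : ℝ) ^ 2 := by
    have h1 : (1 : ℤ) ≤ D ^ 2 := by
      have := sq_pos_of_ne_zero hD
      omega
    exact_mod_cast h1
  have hT1 : 1 ≤ T := by
    refine le_trans ?_ hT
    have : (1 : ℝ) ≤ Rt ^ 2 := one_le_pow₀ hRt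
    nlinarith
  set x : ℂ := (D : ℂ) ^ 2 * (a * b - c * d) with hx
  have hx0 : x ≠ 0 := by
    rw [hx]
    have : (D : ℂ) ≠ 0 := by exact_mod_cast hD
    exact mul_ne_zero (pow_ne_zero _ this) (sub_ne_zero.mpr hne)
  let K := algebraicClosure ℚ ℂ
  have hKalg : Algebra.IsAlgebraic ℚ K := algebraicClosure.isAlgebraic ℚ ℂ
  have hmem : ∀ z : ℂ, aeval z p = 0 → z ∈ K := by
    intro z hz
    rw [mem_algebraicClosure_iff]
    have h1 : IsAlgebraic ℤ z := ⟨p, hp, hz⟩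
    exact h1.extendScalars (algebraMap ℤ ℚ).injective_int
  let a' : K := ⟨a, hmem a ha⟩
  let b' : K := ⟨b, hmem b hb⟩
  let c' : K := ⟨c, hmem c hc⟩
  let d' : K := ⟨d, hmem d hd⟩
  let x' : K := (D : K) ^ 2 * (a' * b' - c' * d')
  have hxx' : algebraMap K ℂ x' = x := by
    simp only [x', hx, map_mul, map_pow, map_sub, map_intCast]
    rfl
  have hx'0 : x' ≠ 0 := by
    intro h
    apply hx0
    rw [← hxx', h, map_zero]
  -- integrality
  have hint1 : ∀ z : ℂ, aeval z p = 0 → IsIntegral ℤ ((D : ℂ) * z) := by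
    intro z hz
    have := isIntegral_leadingCoeff_smul p z hz
    rwa [zsmul_eq_mul] at this
  have hint : IsIntegral ℤ x := by
    have : x = (D * a) * (D * b) - (D * c) * (D * d) := by rw [hx]; ring
    rw [this]
    exact ((hint1 a ha).mul (hint1 b hb)).sub ((hint1 c hc).mul (hint1 d hd))
  have hint' : IsIntegral ℤ x' := by
    rw [← hxx'] at hint
    exact (isIntegral_algebraMap_iff (algebraMap K ℂ).injective).mp hint
  have hq := minpoly.isIntegrallyClosed_eq_field_fractions' ℚ hint'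
  set q := minpoly ℚ x' with hqdef
  set Q := q.map (algebraMap ℚ ℂ) with hQdef
  have hq0 : q ≠ 0 := minpoly.ne_zero (Algebra.IsIntegral.isIntegral x')
  have hqm : q.Monic := minpoly.monic (Algebra.IsIntegral.isIntegral x')
  have hQm : Q.Monic := hqm.map _
  have hQ0 : Q ≠ 0 := hQm.ne_zero
  have hQs : Q.Splits := IsAlgClosed.splits _
  have hnodup : Q.roots.Nodup := by
    apply nodup_roots
    exact (minpoly.irreducible (Algebra.IsIntegral.isIntegral x')).separable.map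
  -- the constant coefficient
  have hc0 : 1 ≤ ‖Q.coeff 0‖ := by
    rw [hQdef, hq, coeff_map, coeff_map]
    have h1 : (minpoly ℤ x').coeff 0 ≠ 0 := by
      have h2 : q.coeff 0 ≠ 0 :=
        minpoly.coeff_zero_ne_zero (Algebra.IsIntegral.isIntegral x') hx'0
      rw [hq, coeff_map] at h2
      intro h3
      apply h2
      rw [h3, map_zero]
    have h2 : (algebraMap ℚ ℂ) ((algebraMap ℤ ℚ) ((minpoly ℤ x').coeff 0)) =
      (((minpoly ℤ x').coeff 0 : ℤ) : ℂ) := by simp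
    rw [h2, Complex.norm_intCast]
    have h3 : (1 : ℤ) ≤ |(minpoly ℤ x').coeff 0| := Int.one_le_abs h1
    exact_mod_cast h3
  rw [hQs.coeff_zero_eq_prod_roots_of_monic hQm, norm_mul, norm_pow, norm_neg, norm_one, one_pow,
    one_mul] at hc0
  have hprod : Q.roots.prod = ∏ y ∈ Q.roots.toFinset, y := by
    rw [Finset.prod_multiset_count]
    apply Finset.prod_congr rfl
    intro y hy
    rw [Multiset.count_eq_one_of_mem hnodup (Multiset.mem_toFinset.mp hy), pow_one]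
  -- the conjugates
  have hconj : ∀ y ∈ Q.roots.toFinset, ∃ r1 r2 r3 r4 : ℂ, aeval r1 p = 0 ∧ aeval r2 p = 0 ∧
      aeval r3 p = 0 ∧ aeval r4 p = 0 ∧ y = (D : ℂ) ^ 2 * (r1 * r2 - r3 * r4) := by
    intro y hy
    have h1 : y ∈ q.rootSet ℂ := by
      rw [mem_rootSet_of_ne hq0]
      rw [Multiset.mem_toFinset, mem_roots hQ0, IsRoot, hQdef, eval_map_algebraMap] at hy
      exact hy
    rw [hqdef, ← Algebra.IsAlgebraic.range_eval_eq_rootSet_minpoly ℂ x'] at h1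
    obtain ⟨ψ, hψ⟩ := h1
    have h2 : ∀ (z : ℂ) (hz : aeval z p = 0), aeval (ψ ⟨z, hmem z hz⟩) p = 0 := by
      intro z hz
      have h3 : aeval (⟨z, hmem z hz⟩ : K) p = 0 := by
        apply (algebraMap K ℂ).injective
        rw [map_zero, ← aeval_algebraMap_apply]
        exact hz
      have h4 := congrArg (ψ : K →+* ℂ) h3
      rw [map_zero, aeval_def, hom_eval₂] at h4
      rw [aeval_def]
      have h5 : (ψ : K →+* ℂ).comp (algebraMap ℤ K) = algebraMap ℤ ℂ := RingHom.ext_int _ _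
      rw [h5] at h4
      exact h4
    refine ⟨ψ a', ψ b', ψ c', ψ d', h2 a ha, h2 b hb, h2 c hc, h2 d hd, ?_⟩
    rw [← hψ]
    simp only [x', map_mul, map_pow, map_sub, map_intCast]
  -- their number
  set S : Finset ℂ := (p.map (algebraMap ℤ ℂ)).roots.toFinset with hS
  have hScard : S.card ≤ k :=
    (Multiset.toFinset_card_le _).trans ((card_roots' _).trans (natDegree_map_le.trans hdeg))
  have hpm : p.map (algebraMap ℤ ℂ) ≠ 0 := by
    rw [Ne, Polynomial.map_eq_zero_iff (algebraMap ℤ ℂ).injective_int]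
    exact hp
  have hSmem : ∀ z : ℂ, aeval z p = 0 → z ∈ S := by
    intro z hz
    rw [hS, Multiset.mem_toFinset, mem_roots hpm, IsRoot, eval_map_algebraMap]
    exact hz
  have hcard : Q.roots.toFinset.card ≤ k ^ 4 := by
    have hsub : Q.roots.toFinset ⊆ (S ×ˢ (S ×ˢ (S ×ˢ S))).image
        (fun r => (D : ℂ) ^ 2 * (r.1 * r.2.1 - r.2.2.1 * r.2.2.2)) := by
      intro y hy
      obtain ⟨r1, r2, r3, r4, h1, h2, h3, h4, h5⟩ := hconj y hy
      rw [Finset.mem_image]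
      refine ⟨(r1, r2, r3, r4), ?_, h5.symm⟩
      simp only [Finset.mem_product]
      exact ⟨hSmem _ h1, hSmem _ h2, hSmem _ h3, hSmem _ h4⟩
    refine (Finset.card_le_card hsub).trans (Finset.card_image_le.trans ?_)
    rw [Finset.card_product, Finset.card_product, Finset.card_product]
    calc S.card * (S.card * (S.card * S.card)) ≤ k * (k * (k * k)) := by gcongr
      _ = k ^ 4 := by ring
  have hbd : ∀ y ∈ Q.roots.toFinset, ‖y‖ ≤ T := by
    intro y hy
    obtain ⟨r1, r2, r3, r4, h1, h2, h3, h4, h5⟩ := hconj y hy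
    refine le_trans ?_ hT
    have hRt0 : 0 ≤ Rt := by linarith
    have e1 : ‖r1 * r2‖ ≤ Rt ^ 2 := by
      rw [norm_mul, sq]
      exact mul_le_mul (hR _ h1) (hR _ h2) (norm_nonneg _) hRt0
    have e2 : ‖r3 * r4‖ ≤ Rt ^ 2 := by
      rw [norm_mul, sq]
      exact mul_le_mul (hR _ h3) (hR _ h4) (norm_nonneg _) hRt0
    have e3 : ‖(D : ℂ) ^ 2‖ = (D : ℝ) ^ 2 := by
      rw [norm_pow, Complex.norm_intCast, sq_abs]
    rw [h5, norm_mul, e3]
    have e4 : ‖r1 * r2 - r3 * r4‖ ≤ 2 * Rt ^ 2 := by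
      refine (norm_sub_le _ _).trans ?_
      linarith
    calc (D : ℝ) ^ 2 * ‖r1 * r2 - r3 * r4‖ ≤ (D : ℝ) ^ 2 * (2 * Rt ^ 2) :=
          mul_le_mul_of_nonneg_left e4 (by positivity)
      _ = _ := by ring
  have hxmem : x ∈ Q.roots.toFinset := by
    rw [Multiset.mem_toFinset, mem_roots hQ0, IsRoot, hQdef, eval_map_algebraMap, ← hxx',
      aeval_algebraMap_apply, hqdef, minpoly.aeval, map_zero]
  rw [hprod, norm_prod, ← Finset.mul_prod_erase _ _ hxmem] at hc0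
  refine hc0.trans ?_
  apply mul_le_mul_of_nonneg_left _ (norm_nonneg _)
  calc ∏ y ∈ Q.roots.toFinset.erase x, ‖y‖ ≤ ∏ _y ∈ Q.roots.toFinset.erase x, T := by
        apply Finset.prod_le_prod
        · intro y _
          exact norm_nonneg _
        · intro y hy
          exact hbd y (Finset.mem_of_mem_erase hy)
    _ = T ^ (Q.roots.toFinset.erase x).card := by rw [Finset.prod_const]
    _ ≤ T ^ (k ^ 4) := by
        apply pow_le_pow_right₀ hT1
        exact (Finset.card_le_card (Finset.erase_subset _ _)).trans hcard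

/-- bound for the roots -/
theorem root_norm_le (k : ℕ) (num : ℕ → ℤ) (den : ℕ → ℕ) (L : ℕ) (hkL : k ≤ L)
    (hden0 : ∀ t, t < k → 0 < den t)
    (hnum : ∀ t, t < k → (num t).natAbs ≤ 2 ^ L) (z : ℂ)
    (hz : z ^ k = ∑ t ∈ range k, ((num t : ℂ) / (den t : ℂ)) * z ^ (k - 1 - t)) :
    ‖z‖ ≤ 2 ^ (2 * L) := by
  by_contra hcon
  push Not at hcon
  have h1 : (1 : ℝ) ≤ 2 ^ (2 * L) := one_le_pow₀ (by norm_num)
  have hz1 : 1 < ‖z‖ := h1.trans_lt hcon
  have hk : 0 < k := by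
    rcases Nat.eq_zero_or_pos k with h | h
    · rw [h] at hz
      simp at hz
    · exact h
  have h2 : ‖z‖ ^ k ≤ k * (2 ^ L * ‖z‖ ^ (k - 1)) := by
    rw [← norm_pow, hz]
    refine (norm_sum_le _ _).trans ?_
    calc ∑ t ∈ range k, ‖((num t : ℂ) / (den t : ℂ)) * z ^ (k - 1 - t)‖
        ≤ ∑ _t ∈ range k, (2 ^ L * ‖z‖ ^ (k - 1)) := by
          apply Finset.sum_le_sum
          intro t ht
          rw [Finset.mem_range] at ht
          rw [norm_mul, norm_pow, norm_div, Complex.norm_intCast, Complex.norm_natCast]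
          apply mul_le_mul
          · have h3 : (1 : ℝ) ≤ den t := by exact_mod_cast hden0 t ht
            have h4 : |(num t : ℝ)| ≤ 2 ^ L := by
              have := hnum t ht
              rw [← Int.cast_abs, Int.abs_eq_natAbs]
              exact_mod_cast this
            calc |(num t : ℝ)| / (den t : ℝ) ≤ |(num t : ℝ)| := div_le_self (abs_nonneg _) h3
              _ ≤ _ := h4
          · exact pow_le_pow_right₀ hz1.le (by omega)
          · positivity
          · positivity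
      _ = _ := by rw [Finset.sum_const, Finset.card_range, nsmul_eq_mul]
  have h3 : ‖z‖ ^ k = ‖z‖ * ‖z‖ ^ (k - 1) := by
    rw [← pow_succ']
    congr 1
    omega
  rw [h3] at h2
  have h4 : 0 < ‖z‖ ^ (k - 1) := by positivity
  have h5 : ‖z‖ ≤ k * 2 ^ L := by
    have : ‖z‖ * ‖z‖ ^ (k - 1) ≤ (k * 2 ^ L) * ‖z‖ ^ (k - 1) := by linarith
    exact le_of_mul_le_mul_right this h4
  have h6 : (k : ℝ) ≤ 2 ^ L := by
    have : k ≤ 2 ^ L := hkL.trans Nat.lt_two_pow_self.le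
    exact_mod_cast this
  have h7 : (k : ℝ) * 2 ^ L ≤ 2 ^ (2 * L) := by
    calc (k : ℝ) * 2 ^ L ≤ 2 ^ L * 2 ^ L := by gcongr
      _ = 2 ^ (2 * L) := by
          rw [← pow_add]
          congr 1
          ring
  linarith

def pg (L : ℕ) : ℕ := (2 * (L * L) + 4 * L + 1) * (L ^ 4 + 1)

/-- **Gap between the moduli of the roots.** -/
theorem gap_of_roots (k : ℕ) (num : ℕ → ℤ) (den : ℕ → ℕ) (L : ℕ) (hkL : k ≤ L)
    (hden0 : ∀ t, t < k → 0 < den t)
    (hnum : ∀ t, t < k → (num t).natAbs ≤ 2 ^ L) (hden : ∀ t, t < k → den t ≤ 2 ^ L)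
    (a c : ℂ)
    (ha : a ^ k = ∑ t ∈ range k, ((num t : ℂ) / (den t : ℂ)) * a ^ (k - 1 - t))
    (hc : c ^ k = ∑ t ∈ range k, ((num t : ℂ) / (den t : ℂ)) * c ^ (k - 1 - t))
    (hac : ‖a‖ < ‖c‖) : ‖a‖ ≤ (1 - 1 / 2 ^ pg L) * ‖c‖ := by
  have h0 := ipoly_ne_zero k num den hden0
  -- conjugates
  have hconj : ∀ z : ℂ, z ^ k = ∑ t ∈ range k, ((num t : ℂ) / (den t : ℂ)) * z ^ (k - 1 - t) →
      (starRingEnd ℂ z) ^ k =
        ∑ t ∈ range k, ((num t : ℂ) / (den t : ℂ)) * (starRingEnd ℂ z) ^ (k - 1 - t) := by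
    intro z hz
    have := congrArg (starRingEnd ℂ) hz
    rw [map_pow, map_sum] at this
    rw [this]
    apply Finset.sum_congr rfl
    intro t _
    rw [map_mul, map_div₀, map_pow, map_intCast, map_natCast]
  -- every root of the integer polynomial is a root of the equation
  have hroot : ∀ z : ℂ, aeval z (ipoly k num den) = 0 →
      z ^ k = ∑ t ∈ range k, ((num t : ℂ) / (den t : ℂ)) * z ^ (k - 1 - t) := by
    intro z hz
    rw [ipoly, map_sub, map_mul, map_sum, aeval_C, map_pow, aeval_X, sub_eq_zero] at hz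
    have hP : ((∏ s ∈ range k, (den s : ℤ) : ℤ) : ℂ) ≠ 0 := by
      have : ∏ s ∈ range k, (den s : ℤ) ≠ 0 := by
        rw [Finset.prod_ne_zero_iff]
        intro s hs
        exact_mod_cast (hden0 s (Finset.mem_range.mp hs)).ne'
      exact_mod_cast this
    apply mul_left_cancel₀ hP
    rw [algebraMap_int_eq, eq_intCast] at hz
    rw [hz, Finset.mul_sum]
    apply Finset.sum_congr rfl
    intro t ht
    rw [map_mul, aeval_C, map_pow, aeval_X, ← Finset.mul_prod_erase (range k) _ ht]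
    have h1 : (den t : ℂ) ≠ 0 := by exact_mod_cast (hden0 t (Finset.mem_range.mp ht)).ne'
    simp only [algebraMap_int_eq, eq_intCast]
    push_cast
    field_simp
  have hlead : |((ipoly k num den).leadingCoeff : ℝ)| ≤ 2 ^ (L * L) := by
    have := ipoly_coeff_le k num den L hkL hnum hden (ipoly k num den).natDegree
    rw [coeff_natDegree] at this
    exact_mod_cast this
  set T : ℝ := 2 ^ (2 * (L * L) + 4 * L + 1) with hT
  have hRt : (1 : ℝ) ≤ 2 ^ (2 * L) := one_le_pow₀ (by norm_num)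
  have hTle : 2 * ((ipoly k num den).leadingCoeff : ℝ) ^ 2 * ((2 : ℝ) ^ (2 * L)) ^ 2 ≤ T := by
    calc 2 * ((ipoly k num den).leadingCoeff : ℝ) ^ 2 * ((2 : ℝ) ^ (2 * L)) ^ 2
        ≤ 2 * (2 ^ (L * L)) ^ 2 * ((2 : ℝ) ^ (2 * L)) ^ 2 := by
          rw [← sq_abs ((ipoly k num den).leadingCoeff : ℝ)]
          gcongr
      _ = T := by
          rw [hT, ← pow_mul, ← pow_mul, pow_succ, pow_add, mul_comm 2, mul_right_comm]
          ring_nf
  have hT1 : 1 ≤ T := one_le_pow₀ (by norm_num)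
  have key := gap_abstract k (ipoly k num den) h0 (ipoly_natDegree k num den) (2 ^ (2 * L)) hRt
    (fun z hz => root_norm_le k num den L hkL hden0 hnum z (hroot z hz)) c (starRingEnd ℂ c) a
    (starRingEnd ℂ a) (ipoly_aeval k num den hden0 _ hc) (ipoly_aeval k num den hden0 _ (hconj c hc))
    (ipoly_aeval k num den hden0 _ ha) (ipoly_aeval k num den hden0 _ (hconj a ha)) T hTle (by
      rw [Complex.mul_conj, Complex.mul_conj, Complex.normSq_eq_norm_sq, Complex.normSq_eq_norm_sq]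
      intro h
      have h1 : ‖c‖ ^ 2 = ‖a‖ ^ 2 := by exact_mod_cast h
      have h2 := (pow_left_inj₀ (norm_nonneg _) (norm_nonneg _) two_ne_zero).mp h1
      exact hac.ne' h2)
  have hxe : ‖((ipoly k num den).leadingCoeff : ℂ) ^ 2 *
      (c * (starRingEnd ℂ) c - a * (starRingEnd ℂ) a)‖ =
      ((ipoly k num den).leadingCoeff : ℝ) ^ 2 * (‖c‖ ^ 2 - ‖a‖ ^ 2) := by
    rw [Complex.mul_conj, Complex.mul_conj, Complex.normSq_eq_norm_sq, Complex.normSq_eq_norm_sq,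
      norm_mul, norm_pow, Complex.norm_intCast, sq_abs]
    congr 1
    rw [← Complex.ofReal_sub, Complex.norm_real, Real.norm_of_nonneg]
    have := pow_lt_pow_left₀ hac (norm_nonneg _) two_ne_zero
    linarith
  rw [hxe] at key
  have ha0 := norm_nonneg a
  have hc0 : 0 < ‖c‖ := ha0.trans_lt hac
  have hcR := root_norm_le k num den L hkL hden0 hnum c hc
  have hTk : T ^ (k ^ 4) ≤ T ^ (L ^ 4) := pow_le_pow_right₀ hT1 (Nat.pow_le_pow_left hkL 4)
  -- (‖c‖ - ‖a‖) * ‖c‖ * T * T^(L^4) ≥ ‖c‖²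
  have hpg : (2 : ℝ) ^ pg L = T ^ (L ^ 4) * T := by
    rw [pg, pow_mul, pow_succ]
  have h2 : (‖c‖ ^ 2 - ‖a‖ ^ 2) ≤ 2 * ‖c‖ * (‖c‖ - ‖a‖) := by nlinarith
  have h3 : 1 ≤ ((ipoly k num den).leadingCoeff : ℝ) ^ 2 * (2 * ‖c‖ * (‖c‖ - ‖a‖)) * T ^ (L ^ 4) := by
    refine key.trans ?_
    have e1 : 0 ≤ ((ipoly k num den).leadingCoeff : ℝ) ^ 2 * (‖c‖ ^ 2 - ‖a‖ ^ 2) := by
      have := pow_lt_pow_left₀ hac (norm_nonneg _) two_ne_zero
      have : 0 ≤ ‖c‖ ^ 2 - ‖a‖ ^ 2 := by linarith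
      positivity
    apply mul_le_mul _ hTk (by positivity) (by
      have : 0 ≤ ‖c‖ - ‖a‖ := by linarith
      positivity)
    exact mul_le_mul_of_nonneg_left h2 (by positivity)
  have h4 : ‖c‖ ^ 2 ≤ ((2 : ℝ) ^ (2 * L)) ^ 2 := pow_le_pow_left₀ hc0.le hcR 2
  have h5 : ‖c‖ ≤ (‖c‖ - ‖a‖) * 2 ^ pg L := by
    have h6 : 0 ≤ (‖c‖ - ‖a‖) * T ^ (L ^ 4) := by
      have : 0 ≤ ‖c‖ - ‖a‖ := by linarith
      positivity
    have h7 : ‖c‖ * 1 ≤ ‖c‖ * (((ipoly k num den).leadingCoeff : ℝ) ^ 2 *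
        (2 * ‖c‖ * (‖c‖ - ‖a‖)) * T ^ (L ^ 4)) := mul_le_mul_of_nonneg_left h3 hc0.le
    have h8 : ‖c‖ * (((ipoly k num den).leadingCoeff : ℝ) ^ 2 *
        (2 * ‖c‖ * (‖c‖ - ‖a‖)) * T ^ (L ^ 4)) =
        (2 * ((ipoly k num den).leadingCoeff : ℝ) ^ 2 * ‖c‖ ^ 2) * ((‖c‖ - ‖a‖) * T ^ (L ^ 4)) := by
      ring
    have h9 : (2 * ((ipoly k num den).leadingCoeff : ℝ) ^ 2 * ‖c‖ ^ 2) ≤ T := by
      refine le_trans ?_ hTle
      exact mul_le_mul_of_nonneg_left h4 (by positivity)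
    calc ‖c‖ = ‖c‖ * 1 := by ring
      _ ≤ _ := h7
      _ = _ := h8
      _ ≤ T * ((‖c‖ - ‖a‖) * T ^ (L ^ 4)) := mul_le_mul_of_nonneg_right h9 h6
      _ = (‖c‖ - ‖a‖) * 2 ^ pg L := by rw [hpg]; ring
  have h6 : (0 : ℝ) < 2 ^ pg L := by positivity
  have h7 : ‖c‖ / 2 ^ pg L ≤ ‖c‖ - ‖a‖ := by
    rw [div_le_iff₀ h6]
    exact h5
  have h8 : (1 - 1 / 2 ^ pg L) * ‖c‖ = ‖c‖ - ‖c‖ / 2 ^ pg L := by ring
  rw [h8]
  linarith

end Pool.Agent.DD7719.M
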