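import Pool.Agent.DD7719.TSimple

/-! Positivity of tame linear recurrences is in `∀ℝ`. -/

set_option autoImplicit false

namespace Pool.Agent.Results.MP_dd7719_lc.TamePositivity

open Pool.Agent.UltPos Pool.Agent.AllR Filter Topology

/-- (1) The set of codes of the positive tame instances belongs to the class `∀ℝ`.
(2) A simple positive instance that is not tame has, for every modulus `N`, a residue class along
which, for some `ρ > 0`, the quotient `u_{Nm+J} / ρ^m` is bounded, does not tend to `0`, and has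
limit inferior `0`. -/
theorem result :
    InForallR {w : List ISym | ∃ I : Inst, w = I.enc ∧ I.Positive ∧ I.Tame} ∧
    ∀ I : Inst, I.Simple → I.Positive → ¬ I.Tame → ∀ v : ℕ → ℚ, I.IsSeq v →
      ∀ N : ℕ, 0 < N → ∃ J, J < N ∧ ∃ ρ : ℝ, 0 < ρ ∧
        (∃ B : ℝ, ∀ m : ℕ, |(v (N * m + J) : ℝ)| ≤ B * ρ ^ m) ∧
        ¬ Tendsto (fun m : ℕ => (v (N * m + J) : ℝ) / ρ ^ m) atTop (𝓝 0) ∧
        liminf (fun m : ℕ => (v (N * m + J) : ℝ) / ρ ^ m) atTop = 0 :=
  ⟨inForallR_tame, fun _ hI hP hT v hv N hN => hI.liminf_of_not_tame hP hT v hv N hN⟩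

end Pool.Agent.Results.MP_dd7719_lc.TamePositivity
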